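import Pool.Agent.Lib.H95H.Defs

namespace H95H
open MvPolynomial

variable {m n : ℕ}

/-!
# Chunk A01: algebra of the substitutions `act A B : f(X) ↦ f(A X B)`

* `act_X`: by `aeval_X`.
* `act_one`: `∑ k ∑ l C (1 p.1 k * 1 l p.2) X (k,l) = X p`; then `MvPolynomial.algHom_ext`.
* `act_act`: both sides are algebra maps in `f` (the composite `(act A B).comp (act A' B')`), so it
  is enough to compare them on the variables: the left side sends `X p` to
  `∑ k l, C (A' p.1 k * B' l p.2) * ∑ k' l', C (A k k' * B l' l) * X (k', l')` and the right side to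
  `∑ k' l', C ((A' * A) p.1 k' * (B * B') l' p.2) * X (k', l')`; expand the matrix products and
  exchange sums.
* `act_pderiv` (chain rule): both sides are additive in `f`; do `MvPolynomial.induction_on f`:
  constants give `0 = 0`; sums are clear; for `f * X c` use Leibniz on both sides and
  `pderiv a (act A B (X c)) = C (A c.1 a.1 * B a.2 c.2)`.
* `eval_act`: `eval` at the matrix `Y` of `act A B f` is `eval` at `A * Y * B` of `f`; both are
  algebra maps in `f`, compare on variables.
-/

theorem A01_act_X (A : Matrix (Fin m) (Fin m) ℂ) (B : Matrix (Fin n) (Fin n) ℂ)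
    (p : Fin m × Fin n) :
    act A B (X p) = ∑ k, ∑ l, C (A p.1 k * B l p.2) * X (k, l) := by
  unfold act
  rw [aeval_X]

theorem A01_act_C (A : Matrix (Fin m) (Fin m) ℂ) (B : Matrix (Fin n) (Fin n) ℂ) (c : ℂ) :
    act A B (C c) = C c := by
  rw [algHom_C, algebraMap_eq]

theorem A01_eval_act (A : Matrix (Fin m) (Fin m) ℂ) (B : Matrix (Fin n) (Fin n) ℂ)
    (Y : Matrix (Fin m) (Fin n) ℂ) (f : Rg m n) :
    eval (fun p : Fin m × Fin n => Y p.1 p.2) (act A B f) =
      eval (fun p : Fin m × Fin n => (A * Y * B) p.1 p.2) f := by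
  induction f using MvPolynomial.induction_on with
  | C c => rw [A01_act_C, eval_C, eval_C]
  | add f g hf hg => rw [map_add, map_add, map_add, hf, hg]
  | mul_X f p hf =>
    rw [map_mul, map_mul, map_mul, hf, eval_X, A01_act_X]
    congr 1
    have e1 : eval (fun p : Fin m × Fin n => Y p.1 p.2) (∑ k, ∑ l, C (A p.1 k * B l p.2) * X (k, l)) =
        ∑ k, ∑ l, A p.1 k * B l p.2 * Y k l := by
      rw [map_sum]
      refine Finset.sum_congr rfl fun k _ => ?_
      rw [map_sum]
      refine Finset.sum_congr rfl fun l _ => ?_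
      rw [map_mul, eval_C, eval_X]
    rw [e1, Matrix.mul_apply, Finset.sum_comm]
    refine Finset.sum_congr rfl fun l _ => ?_
    rw [Matrix.mul_apply, Finset.sum_mul]
    refine Finset.sum_congr rfl fun k _ => ?_
    ring

theorem A01_funext {f g : Rg m n} (h : ∀ Y : Matrix (Fin m) (Fin n) ℂ,
    eval (fun p : Fin m × Fin n => Y p.1 p.2) f = eval (fun p : Fin m × Fin n => Y p.1 p.2) g) : f = g := by
  refine MvPolynomial.funext fun x => ?_
  exact h (Matrix.of fun i j => x (i, j))

theorem A01_act_one (f : Rg m n) : act 1 1 f = f := by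
  refine A01_funext fun Y => ?_
  rw [A01_eval_act, Matrix.one_mul, Matrix.mul_one]

theorem A01_act_act (A A' : Matrix (Fin m) (Fin m) ℂ) (B B' : Matrix (Fin n) (Fin n) ℂ)
    (f : Rg m n) : act A B (act A' B' f) = act (A' * A) (B * B') f := by
  refine A01_funext fun Y => ?_
  rw [A01_eval_act, A01_eval_act, A01_eval_act]
  simp only [Matrix.mul_assoc]

theorem A01_act_pderiv (A : Matrix (Fin m) (Fin m) ℂ) (B : Matrix (Fin n) (Fin n) ℂ)
    (a : Fin m × Fin n) (f : Rg m n) :
    pderiv a (act A B f) = ∑ b : Fin m × Fin n, C (A b.1 a.1 * B a.2 b.2) * act A B (pderiv b f) := by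
  classical
  induction f using MvPolynomial.induction_on with
  | C c =>
    rw [A01_act_C, pderiv_C]
    refine (Finset.sum_eq_zero fun b _ => ?_).symm
    rw [pderiv_C, map_zero, mul_zero]
  | add f g hf hg =>
    rw [map_add, map_add, hf, hg, ← Finset.sum_add_distrib]
    refine Finset.sum_congr rfl fun b _ => ?_
    rw [map_add, map_add, mul_add]
  | mul_X f c hf =>
    have e1 : pderiv a (act A B (X c)) = C (A c.1 a.1 * B a.2 c.2) := by
      rw [A01_act_X, map_sum, Finset.sum_eq_single a.1]
      · rw [map_sum, Finset.sum_eq_single a.2]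
        · rw [pderiv_C_mul, pderiv_X_self, mul_one]
        · intro l _ hl
          rw [pderiv_C_mul, pderiv_X_of_ne, mul_zero]
          intro h
          exact hl (Prod.ext_iff.1 h).2
        · intro h
          exact absurd (Finset.mem_univ _) h
      · intro k _ hk
        rw [map_sum]
        refine Finset.sum_eq_zero fun l _ => ?_
        rw [pderiv_C_mul, pderiv_X_of_ne, mul_zero]
        intro h
        exact hk (Prod.ext_iff.1 h).1
      · intro h
        exact absurd (Finset.mem_univ _) h
    have e2 : ∑ b : Fin m × Fin n, C (A b.1 a.1 * B a.2 b.2) * act A B (f * pderiv b (X c)) =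
        act A B f * C (A c.1 a.1 * B a.2 c.2) := by
      rw [Finset.sum_eq_single c]
      · rw [pderiv_X_self, mul_one, mul_comm]
      · intro b _ hb
        rw [pderiv_X_of_ne (Ne.symm hb), mul_zero, map_zero, mul_zero]
      · intro h
        exact absurd (Finset.mem_univ _) h
    rw [map_mul, pderiv_mul, hf, e1, Finset.sum_mul, ← e2, ← Finset.sum_add_distrib]
    refine Finset.sum_congr rfl fun b _ => ?_
    rw [pderiv_mul, map_add, map_mul (act A B) (pderiv b f), mul_add, mul_assoc]

end H95H
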