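import Pool.Agent.Lib.H95H.Defs

namespace H95H
open MvPolynomial

variable {m n : ℕ}

/-!
# Chunk A02: an invariant subspace contains the weight components of its elements

* `A02_interp` (interpolation): let `W` be a subspace of a complex vector space and suppose that
  `∑_{k<N} t^k • v k ∈ W` for all `t ≠ 0`. Then every `v k` (`k < N`) is in `W`. Proof: pass to the
  quotient by `W` and apply a linear functional `φ` of the quotient: the polynomial
  `∑ φ(v k) t^k` vanishes at all `t ≠ 0`, hence is the zero polynomial
  (`Polynomial.eq_zero_of_infinite_isRoot`); so `φ(v k) = 0` for all `φ`, and functionals separate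
  points (`Module.forall_dual_apply_eq_zero_iff`). (Alternatively use the invertibility of a
  Vandermonde matrix.)
* `A02_comp_mem`: `weightedHomogeneousComponent wt ω f` (over `ω : Wt m n`) has as coefficients those
  of `f` on the monomials of weight `ω` (`coeff_weightedHomogeneousComponent`). Process the `m + n`
  coordinates of the weight one after another. For the row coordinate `i` use the matrices
  `A = Matrix.diagonal (fun j => if j = i then t else 1)`, `B = 1` (`t ≠ 0`, so they are units):
  `act A B` multiplies the monomial `X^α` by `t ^ ((Finsupp.weight wt α).1 i)`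
  (check on variables, then on monomials). So if `g ∈ W` then
  `∑_k t^k • g_k ∈ W` where `g_k` is the sum of the terms of `g` whose monomials have `i`-th row
  degree `k`; by `A02_interp` each `g_k ∈ W`. Same for columns. A convenient form of the induction:
  for each finite set `Z` of coordinates (`Z : Finset (Fin m ⊕ Fin n)`) the polynomial `f_Z`
  consisting of the terms of `f` whose weight agrees with `ω` at all coordinates in `Z` is in `W`
  (`Finset.induction_on`); for `Z = univ` this is the component.
-/

theorem A02_interp {E : Type*} [AddCommGroup E] [Module ℂ E] (W : Submodule ℂ E) (N : ℕ)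
    (v : ℕ → E) (h : ∀ t : ℂ, t ≠ 0 → ∑ k ∈ Finset.range N, t ^ k • v k ∈ W) :
    ∀ k < N, v k ∈ W := by
  intro k hk
  rw [← Submodule.Quotient.mk_eq_zero]
  rw [← Module.forall_dual_apply_eq_zero_iff ℂ]
  intro φ
  let P : Polynomial ℂ := ∑ j ∈ Finset.range N, Polynomial.monomial j (φ (W.mkQ (v j)))
  have hP : P = 0 := by
    refine Polynomial.eq_zero_of_infinite_isRoot P (Set.Infinite.mono ?_
      (Set.Finite.infinite_compl (Set.finite_singleton (0 : ℂ))))
    intro t ht
    have ht0 : t ≠ 0 := by simpa using ht
    rw [Set.mem_setOf_eq, Polynomial.IsRoot.def]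
    have h1 := h t ht0
    rw [← Submodule.Quotient.mk_eq_zero] at h1
    have h2 : φ (W.mkQ (∑ k ∈ Finset.range N, t ^ k • v k)) = 0 := by
      rw [Submodule.mkQ_apply, h1, map_zero]
    rw [map_sum, map_sum] at h2
    rw [Polynomial.eval_finset_sum]
    rw [← h2]
    refine Finset.sum_congr rfl fun j _ => ?_
    rw [Polynomial.eval_monomial, map_smul, map_smul, smul_eq_mul, mul_comm]
  have h3 : P.coeff k = φ (W.mkQ (v k)) := by
    rw [Polynomial.finset_sum_coeff]
    simp only [Polynomial.coeff_monomial]
    rw [Finset.sum_ite_eq' (Finset.range N) k, if_pos (Finset.mem_range.2 hk)]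
  rw [hP, Polynomial.coeff_zero] at h3
  exact h3.symm

end H95H
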