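import Mathlib

/-!
# H95H, problem MP_62bbd8: syzygies of GL-invariant ideals of the generic matrix ring

Definitions. Throughout, the generic matrix has `m` rows and `n` columns; where highest weight
polynomials occur we write `m = n + k`.
-/

namespace H95H

open MvPolynomial

/-- The polynomial ring on the entries of a generic `m × n` matrix. -/
abbrev Rg (m n : ℕ) := MvPolynomial (Fin m × Fin n) ℂ

/-- The substitution `f(X) ↦ f(A X B)`. -/
noncomputable def act {m n : ℕ} (A : Matrix (Fin m) (Fin m) ℂ) (B : Matrix (Fin n) (Fin n) ℂ) :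
    Rg m n →ₐ[ℂ] Rg m n :=
  aeval (fun p : Fin m × Fin n => ∑ k, ∑ l, C (A p.1 k * B l p.2) * X (k, l))

/-- `W` is stable under all substitutions `X ↦ A X B` with `A`, `B` invertible. -/
def Inv {m n : ℕ} (W : Submodule ℂ (Rg m n)) : Prop :=
  ∀ (A : Matrix (Fin m) (Fin m) ℂ) (B : Matrix (Fin n) (Fin n) ℂ), IsUnit A → IsUnit B →
    ∀ f ∈ W, act A B f ∈ W

/-- weights: a row degree for each row and a column degree for each column -/
abbrev Wt (m n : ℕ) := (Fin m → ℕ) × (Fin n → ℕ)

/-- the weight of a matrix position (or of the variable at this position) -/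
def wt {m n : ℕ} (p : Fin m × Fin n) : Wt m n := (Pi.single p.1 1, Pi.single p.2 1)

/-- position of an entry in the reading order -/
def pos {m n : ℕ} (a : Fin m × Fin n) : ℕ := a.1.1 * n + a.2.1

/-- the sign of moving `e_a` past the elements of `T` which come before it -/
def sgn {m n : ℕ} (a : Fin m × Fin n) (T : Finset (Fin m × Fin n)) : ℂ :=
  (-1) ^ (T.filter (fun b => pos b < pos a)).card

/-- Elements of `Λ(ℂ^{m × n}) ⊗ S`: the value at `T` is the coefficient of the wedge product of
the basis vectors `e_a`, `a ∈ T`, in reading order. -/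
abbrev Kz (m n : ℕ) := Finset (Fin m × Fin n) → Rg m n

/-- contraction with the `a`-th dual basis vector -/
noncomputable def ann {m n : ℕ} (a : Fin m × Fin n) : Kz m n →ₗ[ℂ] Kz m n where
  toFun c := fun T => if a ∈ T then 0 else sgn a T • c (insert a T)
  map_add' c c' := by
    funext T
    by_cases h : a ∈ T <;> simp [h]
  map_smul' r c := by
    funext T
    by_cases h : a ∈ T
    · simp [h]
    · simp only [h, if_false, Pi.smul_apply, RingHom.id_apply]
      rw [smul_comm]

/-- wedge multiplication by `e_a` -/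
noncomputable def cre {m n : ℕ} (a : Fin m × Fin n) : Kz m n →ₗ[ℂ] Kz m n where
  toFun c := fun T => if a ∈ T then sgn a T • c (T.erase a) else 0
  map_add' c c' := by
    funext T
    by_cases h : a ∈ T <;> simp [h]
  map_smul' r c := by
    funext T
    by_cases h : a ∈ T
    · simp only [h, if_true, Pi.smul_apply, RingHom.id_apply]
      rw [smul_comm]
    · simp [h]

/-- apply a linear map to all coefficients -/
noncomputable def co {m n : ℕ} (φ : Rg m n →ₗ[ℂ] Rg m n) : Kz m n →ₗ[ℂ] Kz m n where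
  toFun c := fun T => φ (c T)
  map_add' c c' := by funext T; simp
  map_smul' r c := by funext T; simp

/-- multiplication by a variable -/
noncomputable def mulX {m n : ℕ} (a : Fin m × Fin n) : Rg m n →ₗ[ℂ] Rg m n :=
  LinearMap.mulLeft ℂ (X a : Rg m n)

/-- the partial derivative as a linear map -/
noncomputable def dX {m n : ℕ} (a : Fin m × Fin n) : Rg m n →ₗ[ℂ] Rg m n :=
  (pderiv a : Derivation ℂ (Rg m n) (Rg m n)).toLinearMap

/-- the Koszul differential `Σ_a X_a · (contraction with the dual of e_a)` -/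
noncomputable def koszul {m n : ℕ} : Kz m n →ₗ[ℂ] Kz m n :=
  ∑ a : Fin m × Fin n, (co (mulX a)) ∘ₗ (ann a)

/-- the de Rham differential `Σ_a ∂_a · (wedge with e_a)` -/
noncomputable def deRham {m n : ℕ} : Kz m n →ₗ[ℂ] Kz m n :=
  ∑ a : Fin m × Fin n, (co (dX a)) ∘ₗ (cre a)

/-- Chains of weight `ω` (the weight of `f ⊗ e_T` is the weight of `f` plus that of `e_T`). -/
def MD {m n : ℕ} (ω : Wt m n) : Submodule ℂ (Kz m n) where
  carrier := {c | ∀ T α, coeff α (c T) ≠ 0 → Finsupp.weight wt α + ∑ a ∈ T, wt a = ω}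
  add_mem' := by
    intro c c' hc hc' T α h
    by_cases h1 : coeff α (c T) = 0
    · refine hc' T α fun h2 => h ?_
      simp [h1, h2]
    · exact hc T α h1
  zero_mem' := by
    intro T α h
    simp at h
  smul_mem' := by
    intro r c hc T α h
    refine hc T α fun h2 => h ?_
    simp [h2]

/-- The chains in homological degree `j` of weight `ω` with coefficients in the subspace `W`. -/
def Ch {m n : ℕ} (W : Submodule ℂ (Rg m n)) (j : ℕ) (ω : Wt m n) : Submodule ℂ (Kz m n) where
  carrier := {c | (∀ T, c T ∈ W) ∧ (∀ T, T.card ≠ j → c T = 0) ∧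
    ∀ T α, coeff α (c T) ≠ 0 → Finsupp.weight wt α + ∑ a ∈ T, wt a = ω}
  add_mem' := by
    rintro c c' ⟨h1, h2, h3⟩ ⟨h1', h2', h3'⟩
    refine ⟨fun T => W.add_mem (h1 T) (h1' T), fun T hT => by simp [h2 T hT, h2' T hT], ?_⟩
    exact (MD ω).add_mem (x := c) (y := c') h3 h3'
  zero_mem' := by
    refine ⟨fun T => W.zero_mem, fun T hT => rfl, ?_⟩
    exact (MD ω).zero_mem
  smul_mem' := by
    rintro r c ⟨h1, h2, h3⟩
    refine ⟨fun T => W.smul_mem r (h1 T), fun T hT => by simp [h2 T hT], ?_⟩
    exact (MD ω).smul_mem (x := c) r h3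

/-- The dimension of the weight `ω` part of `Tor_j^S(I, ℂ)`, computed as homology of `K ⊗ I` with
`K` the Koszul complex: cycles minus boundaries. -/
noncomputable def betti {m n : ℕ} (I : Ideal (Rg m n)) (j : ℕ) (ω : Wt m n) : ℕ :=
  Module.finrank ℂ ↥(Ch (I.restrictScalars ℂ) j ω ⊓ LinearMap.ker koszul) -
    Module.finrank ℂ ↥((Ch (I.restrictScalars ℂ) (j + 1) ω).map koszul)

/-- The determinant of the block of the first `r + 1` rows and columns of the generic matrix. -/
noncomputable def lead {n k : ℕ} (r : Fin n) : Rg (n + k) n :=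
  Matrix.det (Matrix.of fun a b : Fin (r.1 + 1) =>
    (X (Fin.castAdd k (Fin.castLE r.2 a), Fin.castLE r.2 b) : Rg (n + k) n))

/-- the next entry of `lam` (`0` after the last one) -/
def nxt {n : ℕ} (lam : Fin n → ℕ) (r : Fin n) : ℕ :=
  if h : r.1 + 1 < n then lam ⟨r.1 + 1, h⟩ else 0

/-- The highest weight polynomial of the partition `lam`: the product of the powers
`lead_r ^ (lam_r - lam_{r+1})`. -/
noncomputable def hw {n k : ℕ} (lam : Fin n → ℕ) : Rg (n + k) n :=
  ∏ r : Fin n, (lead r) ^ (lam r - nxt lam r)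

/-- The span of all `hw lam (A X B)`: the irreducible representation attached to `lam`. -/
noncomputable def V {n k : ℕ} (lam : Fin n → ℕ) : Submodule ℂ (Rg (n + k) n) :=
  Submodule.span ℂ {f | ∃ (A : Matrix (Fin (n + k)) (Fin (n + k)) ℂ) (B : Matrix (Fin n) (Fin n) ℂ),
    IsUnit A ∧ IsUnit B ∧ f = act A B (hw lam)}

/-- the rows from which a box can be removed -/
def Rem {n : ℕ} (κ : Fin n → ℕ) : Finset (Fin n) :=
  Finset.univ.filter (fun r => 1 ≤ κ r ∧ ∀ s, r < s → κ s < κ r)

/-- indicator of a set of rows -/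
def ind {n : ℕ} (T : Finset (Fin n)) : Fin n → ℕ := fun r => if r ∈ T then 1 else 0

/-- the partitions with at most `n` rows and all entries at most `N` -/
def box (n N : ℕ) : Finset (Fin n → ℕ) :=
  (Fintype.piFinset fun _ : Fin n => Finset.range (N + 1)).filter (fun lam =>
    ∀ r s : Fin n, r ≤ s → lam s ≤ lam r)

/-- The numbers which carry the universal part: the dimension of the space of cycles `z` in
`Λ^j ⊗ V κ` of weight `ω` which for every `s ∈ Y` are boundaries of elements of
`Λ^{j+1} ⊗ V (κ - e_s)`. -/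
noncomputable def bnum {n k : ℕ} (κ : Fin n → ℕ) (Y : Finset (Fin n)) (j : ℕ)
    (ω : Wt (n + k) n) : ℕ :=
  Module.finrank ℂ ↥(Ch (V (k := k) κ) j ω ⊓ LinearMap.ker koszul ⊓
    ⨅ s ∈ Y, (Ch (V (k := k) (κ - Pi.single s 1)) (j + 1) ω).map koszul)

/-- Oriented chains with `s` vertices of the complex of those subsets `T` of `R` with
`κ - 1_T ∈ Lam`. -/
def SC {n : ℕ} (κ : Fin n → ℕ) (R : Finset (Fin n)) (Lam : Set (Fin n → ℕ)) (s : ℕ) :
    Submodule ℂ (Finset (Fin n) → ℂ) where
  carrier := {f | ∀ T, f T ≠ 0 → T ⊆ R ∧ T.card = s ∧ κ - ind T ∈ Lam}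
  add_mem' := by
    intro f g hf hg T h
    by_cases h1 : f T = 0
    · refine hg T fun h2 => h ?_
      simp [h1, h2]
    · exact hf T h1
  zero_mem' := by
    intro T h
    simp at h
  smul_mem' := by
    intro r f hf T h
    refine hf T fun h2 => h ?_
    simp [h2]

/-- the sign of the vertex `s` relative to `T` -/
def sg {n : ℕ} (s : Fin n) (T : Finset (Fin n)) : ℤ := (-1) ^ (T.filter (fun r => r < s)).card

/-- the augmented simplicial boundary -/
def bd {n : ℕ} : (Finset (Fin n) → ℂ) →ₗ[ℂ] (Finset (Fin n) → ℂ) where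
  toFun f := fun T => ∑ s ∈ Tᶜ, ((sg s T : ℤ) : ℂ) * f (insert s T)
  map_add' f g := by
    funext T
    simp [mul_add, Finset.sum_add_distrib]
  map_smul' r f := by
    funext T
    simp only [Pi.smul_apply, smul_eq_mul, RingHom.id_apply, Finset.mul_sum]
    refine Finset.sum_congr rfl fun s _ => ?_
    ring

/-- The dimension of the reduced homology `H̃_{s-1}` of the complex
`{T ⊆ R | κ - 1_T ∈ Lam}`. -/
noncomputable def hh {n : ℕ} (κ : Fin n → ℕ) (R : Finset (Fin n)) (Lam : Set (Fin n → ℕ))
    (s : ℕ) : ℕ :=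
  Module.finrank ℂ ↥(SC κ R Lam s ⊓ LinearMap.ker bd) -
    Module.finrank ℂ ↥((SC κ R Lam (s + 1)).map bd)

end H95H
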