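import Pool.Agent.Lib.H95H.A02a
import Pool.Agent.Lib.H95H.Defs

namespace H95H

open MvPolynomial

variable {m n : ℕ}

/-!
# Chunk A02: an invariant subspace contains the weight components of its elements

* `A02_interp` (interpolation): let `W` be a subspace of a complex vector space and suppose that
  `∑_{k<N} t^k • v k ∈ W` for all `t ≠ 0`. Then every `v k` (`k < N`) is in `W`. Proof: pass to the
  quotient by `W` and apply a linear functional `φ` of the quotient: the polynomial
  `∑ φ(v k) t^k` vanishes at all `t ≠ 0`, hence is the zero polynomial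
  (`Polynomial.eq_zero_of_infinite_isRoot`); so `φ(v k) = 0` for all `φ`, and functionals separate
  points (`Module.forall_dual_apply_eq_zero_iff`). (Alternatively use the invertibility of a
  Vandermonde matrix.)
* `A02_comp_mem`: `weightedHomogeneousComponent wt ω f` (over `ω : Wt m n`) has as coefficients those
  of `f` on the monomials of weight `ω` (`coeff_weightedHomogeneousComponent`). Process the `m + n`
  coordinates of the weight one after another. For the row coordinate `i` use the matrices
  `A = Matrix.diagonal (fun j => if j = i then t else 1)`, `B = 1` (`t ≠ 0`, so they are units):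
  `act A B` multiplies the monomial `X^α` by `t ^ ((Finsupp.weight wt α).1 i)`
  (check on variables, then on monomials). So if `g ∈ W` then
  `∑_k t^k • g_k ∈ W` where `g_k` is the sum of the terms of `g` whose monomials have `i`-th row
  degree `k`; by `A02_interp` each `g_k ∈ W`. Same for columns. A convenient form of the induction:
  for each finite set `Z` of coordinates (`Z : Finset (Fin m ⊕ Fin n)`) the polynomial `f_Z`
  consisting of the terms of `f` whose weight agrees with `ω` at all coordinates in `Z` is in `W`
  (`Finset.induction_on`); for `Z = univ` this is the component.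
-/

/-- auxiliary: the terms satisfying `P` -/
noncomputable def a02b_flt (P : ((Fin m × Fin n) →₀ ℕ) → Prop) [DecidablePred P] (g : Rg m n) :
    Rg m n := ∑ α ∈ g.support.filter P, monomial α (coeff α g)

theorem a02b_coeff (P : ((Fin m × Fin n) →₀ ℕ) → Prop) [DecidablePred P] (g : Rg m n)
    (β : (Fin m × Fin n) →₀ ℕ) :
    coeff β (a02b_flt P g) = if P β then coeff β g else 0 := by
  unfold a02b_flt
  rw [coeff_sum]
  simp only [coeff_monomial]
  rw [Finset.sum_ite_eq']
  by_cases h1 : P β
  · rw [if_pos h1]
    by_cases h2 : coeff β g = 0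
    · rw [h2]
      split_ifs <;> rfl
    · rw [if_pos]
      rw [Finset.mem_filter]
      exact ⟨by simpa using h2, h1⟩
  · rw [if_neg h1, if_neg]
    rw [Finset.mem_filter]
    exact fun h => h1 h.2

theorem a02b_act_X (a : Fin m → ℂ) (b : Fin n → ℂ) (p : Fin m × Fin n) :
    act (Matrix.diagonal a) (Matrix.diagonal b) (X p) = C (a p.1 * b p.2) * X p := by
  unfold act
  rw [aeval_X, Finset.sum_eq_single p.1, Finset.sum_eq_single p.2]
  · simp
  · intro l _ hl
    rw [Matrix.diagonal_apply_ne _ hl]
    simp
  · intro h
    exact absurd (Finset.mem_univ _) h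
  · intro i _ hi
    rw [Matrix.diagonal_apply_ne _ (Ne.symm hi)]
    simp
  · intro h
    exact absurd (Finset.mem_univ _) h

theorem a02b_act_mon (a : Fin m → ℂ) (b : Fin n → ℂ) (α : (Fin m × Fin n) →₀ ℕ) (r : ℂ) :
    act (Matrix.diagonal a) (Matrix.diagonal b) (monomial α r) =
      (∏ p : Fin m × Fin n, (a p.1 * b p.2) ^ α p) • monomial α r := by
  have h1 : (monomial α r : Rg m n) = C r * ∏ p : Fin m × Fin n, X p ^ α p := by
    rw [monomial_eq]
    congr 1
    rw [Finsupp.prod_fintype _ _ (by intro i; simp)]
  rw [h1, map_mul, map_prod]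
  simp only [map_pow, a02b_act_X, mul_pow]
  rw [Finset.prod_mul_distrib]
  have h2 : act (Matrix.diagonal a) (Matrix.diagonal b) (C r) = C r := by
    unfold act
    rw [aeval_C]
    rfl
  rw [h2, smul_eq_C_mul, map_prod]
  simp only [map_pow, map_mul, mul_pow]
  ring

theorem a02b_key (W : Submodule ℂ (Rg m n)) (δ : ((Fin m × Fin n) →₀ ℕ) → ℕ)
    (T : ℂ → Rg m n →ₗ[ℂ] Rg m n) (hT : ∀ t α r, T t (monomial α r) = t ^ δ α • monomial α r)
    (hW : ∀ t, t ≠ 0 → ∀ g ∈ W, T t g ∈ W) (g : Rg m n) (hg : g ∈ W) (k : ℕ) :
    a02b_flt (fun α => δ α = k) g ∈ W := by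
  by_cases hk : k < g.support.sup δ + 1
  · refine A02_interp W (g.support.sup δ + 1) (fun k => a02b_flt (fun α => δ α = k) g) ?_ k hk
    intro t ht
    have h1 : ∑ k ∈ Finset.range (g.support.sup δ + 1), t ^ k • a02b_flt (fun α => δ α = k) g =
        T t g := by
      have h2 : T t g = ∑ α ∈ g.support, t ^ δ α • monomial α (coeff α g) := by
        conv_lhs => rw [← g.support_sum_monomial_coeff]
        rw [map_sum]
        exact Finset.sum_congr rfl fun α _ => hT t α _
      rw [h2]
      have h3 := Finset.sum_fiberwise_of_maps_to (s := g.support)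
        (t := Finset.range (g.support.sup δ + 1)) (g := δ)
        (fun α hα => Finset.mem_range.2 (Nat.lt_succ_of_le (Finset.le_sup (f := δ) hα)))
        (fun α => t ^ δ α • monomial α (coeff α g))
      rw [← h3]
      refine Finset.sum_congr rfl fun k _ => ?_
      unfold a02b_flt
      rw [Finset.smul_sum]
      refine Finset.sum_congr rfl fun α hα => ?_
      rw [(Finset.mem_filter.1 hα).2]
    rw [h1]
    exact hW t ht g hg
  · have h1 : a02b_flt (fun α => δ α = k) g = 0 := by
      unfold a02b_flt
      apply Finset.sum_eq_zero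
      intro α hα
      exfalso
      rw [Finset.mem_filter] at hα
      have h2 := Finset.le_sup (f := δ) hα.1
      omega
    rw [h1]
    exact W.zero_mem

/-- auxiliary: the coordinates of a weight -/
def a02b_co (ω : Wt m n) : Fin m ⊕ Fin n → ℕ
  | Sum.inl i => ω.1 i
  | Sum.inr l => ω.2 l

theorem a02b_wt1 (α : (Fin m × Fin n) →₀ ℕ) (i : Fin m) :
    (Finsupp.weight wt α : Wt m n).1 i = ∑ p : Fin m × Fin n, if p.1 = i then α p else 0 := by
  rw [Finsupp.weight_apply, Finsupp.sum_fintype _ _ (by intro a; simp)]
  have h1 : (∑ a : Fin m × Fin n, α a • (wt a : Wt m n)).1 = ∑ a : Fin m × Fin n, α a • (wt a : Wt m n).1 := by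
    rw [Prod.fst_sum]
    rfl
  rw [h1]
  simp only [Finset.sum_apply, Pi.smul_apply, smul_eq_mul]
  refine Finset.sum_congr rfl fun a _ => ?_
  by_cases h : a.1 = i
  · subst h
    simp [wt]
  · rw [if_neg h]
    simp [wt, Pi.single_apply, Ne.symm h]

theorem a02b_wt2 (α : (Fin m × Fin n) →₀ ℕ) (l : Fin n) :
    (Finsupp.weight wt α : Wt m n).2 l = ∑ p : Fin m × Fin n, if p.2 = l then α p else 0 := by
  rw [Finsupp.weight_apply, Finsupp.sum_fintype _ _ (by intro a; simp)]
  have h1 : (∑ a : Fin m × Fin n, α a • (wt a : Wt m n)).2 = ∑ a : Fin m × Fin n, α a • (wt a : Wt m n).2 := by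
    rw [Prod.snd_sum]
    rfl
  rw [h1]
  simp only [Finset.sum_apply, Pi.smul_apply, smul_eq_mul]
  refine Finset.sum_congr rfl fun a _ => ?_
  by_cases h : a.2 = l
  · subst h
    simp [wt]
  · rw [if_neg h]
    simp [wt, Pi.single_apply, Ne.symm h]

theorem a02b_step (W : Submodule ℂ (Rg m n)) (hW : Inv W) (g : Rg m n) (hg : g ∈ W)
    (j : Fin m ⊕ Fin n) (k : ℕ) :
    a02b_flt (fun α => a02b_co (Finsupp.weight wt α : Wt m n) j = k) g ∈ W := by
  rcases j with i | l
  · refine a02b_key W (fun α => a02b_co (Finsupp.weight wt α : Wt m n) (Sum.inl i))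
      (fun t => (act (Matrix.diagonal fun j => if j = i then t else 1)
        (Matrix.diagonal fun _ => (1 : ℂ))).toLinearMap) ?_ ?_ g hg k
    · intro t α r
      change act _ _ (monomial α r) = _
      rw [a02b_act_mon]
      congr 1
      change _ = t ^ ((Finsupp.weight wt α : Wt m n).1 i)
      rw [a02b_wt1, ← Finset.prod_pow_eq_pow_sum]
      refine Finset.prod_congr rfl fun p _ => ?_
      split_ifs with h <;> simp
    · intro t ht g hg
      refine hW _ _ ?_ ?_ g hg
      · rw [Matrix.isUnit_diagonal, Pi.isUnit_iff]
        intro j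
        split_ifs
        · exact isUnit_iff_ne_zero.2 ht
        · exact isUnit_one
      · rw [Matrix.isUnit_diagonal, Pi.isUnit_iff]
        intro j
        exact isUnit_one
  · refine a02b_key W (fun α => a02b_co (Finsupp.weight wt α : Wt m n) (Sum.inr l))
      (fun t => (act (Matrix.diagonal fun _ => (1 : ℂ))
        (Matrix.diagonal fun j => if j = l then t else 1)).toLinearMap) ?_ ?_ g hg k
    · intro t α r
      change act _ _ (monomial α r) = _
      rw [a02b_act_mon]
      congr 1
      change _ = t ^ ((Finsupp.weight wt α : Wt m n).2 l)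
      rw [a02b_wt2, ← Finset.prod_pow_eq_pow_sum]
      refine Finset.prod_congr rfl fun p _ => ?_
      split_ifs with h <;> simp
    · intro t ht g hg
      refine hW _ _ ?_ ?_ g hg
      · rw [Matrix.isUnit_diagonal, Pi.isUnit_iff]
        intro j
        exact isUnit_one
      · rw [Matrix.isUnit_diagonal, Pi.isUnit_iff]
        intro j
        split_ifs
        · exact isUnit_iff_ne_zero.2 ht
        · exact isUnit_one

theorem A02_comp_mem (W : Submodule ℂ (Rg m n)) (hW : Inv W) (f : Rg m n) (hf : f ∈ W)
    (ω : Wt m n) : weightedHomogeneousComponent wt ω f ∈ W := by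
  classical
  have h1 : ∀ Z : Finset (Fin m ⊕ Fin n),
      a02b_flt (fun α => ∀ j ∈ Z, a02b_co (Finsupp.weight wt α : Wt m n) j = a02b_co ω j) f ∈ W := by
    intro Z
    induction Z using Finset.induction_on with
    | empty =>
      have h2 : a02b_flt (fun α => ∀ j ∈ (∅ : Finset (Fin m ⊕ Fin n)),
          a02b_co (Finsupp.weight wt α : Wt m n) j = a02b_co ω j) f = f := by
        ext β
        rw [a02b_coeff, if_pos]
        intro j hj
        exact absurd hj (Finset.notMem_empty j)
      rw [h2]
      exact hf
    | insert j Z hj ih =>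
      have h2 := a02b_step W hW _ ih j (a02b_co ω j)
      have h3 : a02b_flt (fun α => ∀ j' ∈ insert j Z,
          a02b_co (Finsupp.weight wt α : Wt m n) j' = a02b_co ω j') f =
          a02b_flt (fun α => a02b_co (Finsupp.weight wt α : Wt m n) j = a02b_co ω j)
            (a02b_flt (fun α => ∀ j' ∈ Z,
              a02b_co (Finsupp.weight wt α : Wt m n) j' = a02b_co ω j') f) := by
        ext β
        rw [a02b_coeff, a02b_coeff, a02b_coeff]
        by_cases h4 : a02b_co (Finsupp.weight wt β : Wt m n) j = a02b_co ω j
        · rw [if_pos h4]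
          by_cases h5 : ∀ j' ∈ Z, a02b_co (Finsupp.weight wt β : Wt m n) j' = a02b_co ω j'
          · rw [if_pos h5, if_pos]
            intro j' hj'
            rcases Finset.mem_insert.1 hj' with rfl | h6
            · exact h4
            · exact h5 j' h6
          · rw [if_neg h5, if_neg]
            intro h6
            exact h5 fun j' hj' => h6 j' (Finset.mem_insert_of_mem hj')
        · rw [if_neg h4, if_neg]
          intro h6
          exact h4 (h6 j (Finset.mem_insert_self j Z))
      rw [h3]
      exact h2
  have h2 := h1 Finset.univ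
  have h3 : weightedHomogeneousComponent wt ω f =
      a02b_flt (fun α => ∀ j ∈ (Finset.univ : Finset (Fin m ⊕ Fin n)),
        a02b_co (Finsupp.weight wt α : Wt m n) j = a02b_co ω j) f := by
    ext β
    rw [a02b_coeff, coeff_weightedHomogeneousComponent]
    by_cases h4 : (Finsupp.weight wt β : Wt m n) = ω
    · rw [if_pos h4, if_pos]
      intro j _
      rw [h4]
    · rw [if_neg h4, if_neg]
      intro h5
      apply h4
      refine Prod.ext (funext fun i => ?_) (funext fun l => ?_)
      · exact h5 (Sum.inl i) (Finset.mem_univ _)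
      · exact h5 (Sum.inr l) (Finset.mem_univ _)
  rw [h3]
  exact h2

end H95H
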