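import Pool.Agent.Lib.H95H.Defs

namespace H95H
open MvPolynomial

/-- lower unitriangular -/
def LU1 {m : ℕ} (L : Matrix (Fin m) (Fin m) ℂ) : Prop :=
  (∀ i, L i i = 1) ∧ ∀ i j, i < j → L i j = 0

/-- upper unitriangular -/
def UU1 {n : ℕ} (U : Matrix (Fin n) (Fin n) ℂ) : Prop :=
  (∀ i, U i i = 1) ∧ ∀ i j, j < i → U i j = 0

/-- the `(n+k) × n` matrix with diagonal entries `t` and zeros elsewhere -/
def Jt {n : ℕ} (k : ℕ) (t : Fin n → ℂ) : Matrix (Fin (n + k)) (Fin n) ℂ :=
  Matrix.of fun i l => if i = Fin.castAdd k l then t l else 0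

/-- the leading minor of size `r + 1` -/
def mnr {n k : ℕ} (Y : Matrix (Fin (n + k)) (Fin n) ℂ) (r : Fin n) : ℂ :=
  Matrix.det (Matrix.of fun a b : Fin (r.1 + 1) =>
    Y (Fin.castAdd k (Fin.castLE r.2 a)) (Fin.castLE r.2 b))

/-!
# Chunk A03: LU decomposition of `(n + k) × n` matrices

Induction on `n`, for all `k`. For `n = 0` there is nothing to do (`L = 1`).
Step: write `Y` (size `(n + 1 + k) × (n + 1)`) in blocks with first row and column split off:
`Y = [y r; c Z]` with `y = Y 0 0 = mnr Y 0 ≠ 0`. Put `Z' = Z - c r / y`, of size `(n + k) × n`.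
Then `Y = [1 0; c/y 1] · [y 0; 0 Z'] · [1 r/y; 0 1]`. The leading minors of `Z'` are
`mnr Z' s = mnr Y (s+1) / y` (Schur complement: `Matrix.det_fromBlocks₁₁`, or subtract multiples of
the first row from the others and expand along the first column), so they are nonzero and by
induction `Z' = L' · J(t') · U'`. Then
`L = [1 0; c/y L']`, `t = (y, t')`, `U = [1 r/y; 0 U']` do the job, since
`[1 0; c/y 1] [1 0; 0 L'] = [1 0; c/y L']` and `[1 0; 0 U'] [1 r/y; 0 1] = [1 r/y; 0 U']`.
(The index types: `Fin (n + 1 + k)`; use `Fin.cons`-style definitions through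
`Fin.cases`, with a cast `Fin (n + 1 + k) ≃ Fin (n + k + 1)`; or state an auxiliary theorem for
matrices `Matrix (Fin M) (Fin n) ℂ` with a hypothesis `n ≤ M` and do the induction there.)
-/

/-- auxiliary: diagonal rectangular matrix -/
def a03_J {M n : ℕ} (t : Fin n → ℂ) : Matrix (Fin M) (Fin n) ℂ :=
  Matrix.of fun i l => if i.1 = l.1 then t l else 0

theorem a03_det (N : ℕ) (A : Matrix (Fin (N + 1)) (Fin (N + 1)) ℂ) (hA : A 0 0 ≠ 0) :
    A.det = A 0 0 * (Matrix.of fun i j : Fin N =>
      A i.succ j.succ - A i.succ 0 * A 0 j.succ / A 0 0).det := by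
  have h1 : (Matrix.of fun i j : Fin (N + 1) =>
      A i j + (if i = 0 then 0 else - A i 0 / A 0 0) * A 0 j).det = A.det :=
    Matrix.det_eq_of_forall_row_eq_smul_add_const (fun i => if i = 0 then 0 else - A i 0 / A 0 0) 0
      (by simp) (fun i j => rfl)
  rw [← h1, Matrix.det_succ_column_zero, Fin.sum_univ_succ]
  have h2 : ∀ i : Fin N, (Matrix.of fun i j : Fin (N + 1) =>
      A i j + (if i = 0 then 0 else - A i 0 / A 0 0) * A 0 j) i.succ 0 = 0 := by
    intro i
    simp only [Matrix.of_apply, Fin.succ_ne_zero, if_false]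
    field_simp
    ring
  have h3 : ∑ i : Fin N, (-1 : ℂ) ^ (i.succ : ℕ) * (Matrix.of fun i j : Fin (N + 1) =>
      A i j + (if i = 0 then 0 else - A i 0 / A 0 0) * A 0 j) i.succ 0 *
      ((Matrix.of fun i j : Fin (N + 1) =>
      A i j + (if i = 0 then 0 else - A i 0 / A 0 0) * A 0 j).submatrix i.succ.succAbove
        Fin.succ).det = 0 := by
    refine Finset.sum_eq_zero fun i _ => ?_
    rw [h2, mul_zero, zero_mul]
  rw [h3, add_zero]
  have h4 : (Matrix.of fun i j : Fin (N + 1) =>
      A i j + (if i = 0 then 0 else - A i 0 / A 0 0) * A 0 j).submatrix (Fin.succAbove 0)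
        Fin.succ = Matrix.of fun i j : Fin N =>
      A i.succ j.succ - A i.succ 0 * A 0 j.succ / A 0 0 := by
    ext i j
    simp only [Matrix.submatrix_apply, Matrix.of_apply, Fin.zero_succAbove, Fin.succ_ne_zero,
      if_false]
    ring
  rw [h4]
  simp

theorem a03_gen : ∀ (n M : ℕ) (h : n ≤ M) (Y : Matrix (Fin M) (Fin n) ℂ),
    (∀ r : Fin n, Matrix.det (Matrix.of fun a b : Fin (r.1 + 1) =>
      Y (Fin.castLE (le_trans (Nat.succ_le_of_lt r.2) h) a) (Fin.castLE (Nat.succ_le_of_lt r.2) b)) ≠ 0) →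
    ∃ (L : Matrix (Fin M) (Fin M) ℂ) (t : Fin n → ℂ) (U : Matrix (Fin n) (Fin n) ℂ),
      LU1 L ∧ UU1 U ∧ Y = L * (a03_J t : Matrix (Fin M) (Fin n) ℂ) * U := by
  intro n
  induction n with
  | zero =>
    intro M h Y _
    refine ⟨1, fun _ => 0, 1, ⟨fun i => Matrix.one_apply_eq i, fun i j hij =>
      Matrix.one_apply_ne (ne_of_lt hij)⟩, ⟨fun i => i.elim0, fun i => i.elim0⟩, ?_⟩
    ext i j
    exact j.elim0
  | succ n ih =>
    intro M h Y hY
    obtain ⟨M, rfl⟩ : ∃ M', M = M' + 1 := ⟨M - 1, by omega⟩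
    have hy : Y 0 0 ≠ 0 := by
      have h1 : (Matrix.of fun a b : Fin 1 => Y (Fin.castLE (by omega) a)
        (Fin.castLE (by omega) b)).det ≠ 0 := hY 0
      rw [Matrix.det_fin_one] at h1
      exact h1
    set Z : Matrix (Fin M) (Fin n) ℂ := Matrix.of fun i j =>
      Y i.succ j.succ - Y i.succ 0 * Y 0 j.succ / Y 0 0 with hZ
    obtain ⟨L', t', U', hL', hU', hZ'⟩ := ih M (by omega) Z (by
      intro r h1
      apply hY r.succ
      have h2 := a03_det (r.1 + 1) (Matrix.of fun a b : Fin (r.1 + 1 + 1) =>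
        Y (Fin.castLE (le_trans (Nat.succ_le_of_lt r.succ.2) h) a)
          (Fin.castLE (Nat.succ_le_of_lt r.succ.2) b)) hy
      refine h2.trans ?_
      have h3 : (Matrix.of fun i j : Fin (r.1 + 1) =>
          (Matrix.of fun a b : Fin (r.1 + 1 + 1) =>
            Y (Fin.castLE (le_trans (Nat.succ_le_of_lt r.succ.2) h) a)
              (Fin.castLE (Nat.succ_le_of_lt r.succ.2) b)) i.succ j.succ -
          (Matrix.of fun a b : Fin (r.1 + 1 + 1) =>
            Y (Fin.castLE (le_trans (Nat.succ_le_of_lt r.succ.2) h) a)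
              (Fin.castLE (Nat.succ_le_of_lt r.succ.2) b)) i.succ 0 *
          (Matrix.of fun a b : Fin (r.1 + 1 + 1) =>
            Y (Fin.castLE (le_trans (Nat.succ_le_of_lt r.succ.2) h) a)
              (Fin.castLE (Nat.succ_le_of_lt r.succ.2) b)) 0 j.succ /
          (Matrix.of fun a b : Fin (r.1 + 1 + 1) =>
            Y (Fin.castLE (le_trans (Nat.succ_le_of_lt r.succ.2) h) a)
              (Fin.castLE (Nat.succ_le_of_lt r.succ.2) b)) 0 0) =
          Matrix.of fun a b : Fin (r.1 + 1) =>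
            Z (Fin.castLE (le_trans (Nat.succ_le_of_lt r.2) (by omega)) a)
              (Fin.castLE (Nat.succ_le_of_lt r.2) b) := by
        ext i j
        rfl
      rw [h3]
      exact mul_eq_zero_of_right _ h1)
    refine ⟨Matrix.of fun i j => Fin.cases (Fin.cases 1 (fun _ => 0) j)
        (fun i' => Fin.cases (Y i'.succ 0 / Y 0 0) (fun j' => L' i' j') j) i,
      Fin.cons (Y 0 0) t',
      Matrix.of fun i j => Fin.cases (Fin.cases 1 (fun j' => Y 0 j'.succ / Y 0 0) j)
        (fun i' => Fin.cases 0 (fun j' => U' i' j') j) i, ⟨?_, ?_⟩, ⟨?_, ?_⟩, ?_⟩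
    · intro i
      refine Fin.cases ?_ (fun i' => ?_) i
      · rfl
      · exact hL'.1 i'
    · intro i j
      refine Fin.cases ?_ (fun i' => ?_) i
      · refine Fin.cases ?_ (fun j' => ?_) j
        · intro h1
          exact absurd h1 (lt_irrefl _)
        · intro _
          rfl
      · refine Fin.cases ?_ (fun j' => ?_) j
        · intro h1
          exact absurd h1 (Fin.not_lt_zero _)
        · intro h1
          exact hL'.2 i' j' (Fin.succ_lt_succ_iff.1 h1)
    · intro i
      refine Fin.cases ?_ (fun i' => ?_) i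
      · rfl
      · exact hU'.1 i'
    · intro i j
      refine Fin.cases ?_ (fun i' => ?_) i
      · intro h1
        exact absurd h1 (Fin.not_lt_zero _)
      · refine Fin.cases ?_ (fun j' => ?_) j
        · intro _
          rfl
        · intro h1
          exact hU'.2 i' j' (Fin.succ_lt_succ_iff.1 h1)
    · have hJ00 : (a03_J (M := M + 1) (Fin.cons (Y 0 0) t' : Fin (n + 1) → ℂ)) 0 0 = Y 0 0 := by
        simp [a03_J]
      have hJ0s : ∀ j : Fin n,
          (a03_J (M := M + 1) (Fin.cons (Y 0 0) t' : Fin (n + 1) → ℂ)) 0 j.succ = 0 := by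
        intro j
        simp [a03_J]
      have hJs0 : ∀ i : Fin M,
          (a03_J (M := M + 1) (Fin.cons (Y 0 0) t' : Fin (n + 1) → ℂ)) i.succ 0 = 0 := by
        intro i
        simp [a03_J]
      have hJss : ∀ (i : Fin M) (j : Fin n),
          (a03_J (M := M + 1) (Fin.cons (Y 0 0) t' : Fin (n + 1) → ℂ)) i.succ j.succ =
            (a03_J (M := M) t') i j := by
        intro i j
        simp [a03_J]
      ext i j
      rw [Matrix.mul_apply, Fin.sum_univ_succ]
      simp only [Matrix.mul_apply, Fin.sum_univ_succ, hJ00, hJ0s, hJs0, hJss, Matrix.of_apply,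
        Fin.cases_zero, Fin.cases_succ, mul_zero, zero_add, Finset.sum_const_zero, add_zero]
      refine Fin.cases ?_ (fun i' => ?_) i
      · refine Fin.cases ?_ (fun j' => ?_) j
        · simp
        · simp only [Fin.cases_zero, Fin.cases_succ, one_mul, zero_mul, Finset.sum_const_zero,
            add_zero]
          field_simp
      · refine Fin.cases ?_ (fun j' => ?_) j
        · simp only [Fin.cases_zero, Fin.cases_succ, mul_zero, Finset.sum_const_zero, add_zero,
            mul_one]
          field_simp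
        · simp only [Fin.cases_zero, Fin.cases_succ]
          have h1 := congrFun (congrFun hZ' i') j'
          rw [Matrix.mul_apply] at h1
          simp only [Matrix.mul_apply] at h1
          rw [← h1, hZ, Matrix.of_apply]
          field_simp
          ring

theorem A03_LU {n k : ℕ} (Y : Matrix (Fin (n + k)) (Fin n) ℂ) (hY : ∀ r, mnr Y r ≠ 0) :
    ∃ (L : Matrix (Fin (n + k)) (Fin (n + k)) ℂ) (t : Fin n → ℂ) (U : Matrix (Fin n) (Fin n) ℂ),
      LU1 L ∧ UU1 U ∧ Y = L * Jt k t * U := by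
  obtain ⟨L, t, U, hL, hU, h⟩ := a03_gen n (n + k) (Nat.le_add_right n k) Y hY
  refine ⟨L, t, U, hL, hU, ?_⟩
  have h1 : (a03_J t : Matrix (Fin (n + k)) (Fin n) ℂ) = Jt k t := by
    ext i l
    unfold a03_J Jt
    simp only [Matrix.of_apply]
    have h2 : (i.1 = l.1) ↔ (i = Fin.castAdd k l) := by
      rw [Fin.ext_iff]
      rfl
    by_cases h3 : i.1 = l.1
    · rw [if_pos h3, if_pos (h2.1 h3)]
    · rw [if_neg h3, if_neg (fun h4 => h3 (h2.2 h4))]
  rw [← h1]
  exact h

end H95H
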