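import Pool.Agent.Lib.H95H.A01
import Pool.Agent.Lib.H95H.A03

namespace H95H
open MvPolynomial

variable {n k : ℕ}

/-!
# Chunk A04: the leading minors

* `A04_eval_lead`: `eval` commutes with `det` (`RingHom.map_det`), entrywise.
* `A04_mnr_LU`: for `a ≤ r` the row `a` of `L * Y * U` restricted to columns `b ≤ r` is
  `∑_{k' ≤ a} ∑_{l ≤ b} L a k' Y k' l U l b` (as `L` is lower and `U` upper triangular), so the
  leading block of `L Y U` is the product of the leading blocks, and the leading blocks of `L`,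
  `U` have determinant `1` (`Matrix.det_of_lowerTriangular`, `Matrix.det_of_upperTriangular`).
* `A04_lead_act`: `MvPolynomial.funext` over the infinite field `ℂ`, `A01_eval_act`,
  `A04_eval_lead`, `A04_mnr_LU`.
* `A04_lead_wt`: `lead r` is homogeneous of weight (indicator of rows `≤ r`, indicator of columns
  `≤ r`): expand the determinant (`Matrix.det_apply`), each term is a sign times the product of
  `X (castAdd (castLE (σ b)), castLE b)` over `b`; use `IsWeightedHomogeneous.sum`/`prod`, and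
  `∑_b Pi.single (castAdd (castLE (σ b))) 1` = indicator of the rows `≤ r` because `σ` is a
  permutation.
* `A04_mnr_J`: the leading block of `Jt k t` is diagonal.
* `A04_swap`: for `r.1 + 1 < n` the matrix obtained from `Jt k 1` by exchanging the columns `r` and
  `r + 1` has vanishing leading minor of size `r + 1` (its row `r` restricted to the columns `≤ r`
  is zero) and all others are `±1`, hence nonzero: for `s < r` the block is the identity; for
  `s > r` it is the identity block with two columns exchanged, of determinant `-1`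
  (`Matrix.det_permute'`).
-/

theorem A04_eval_lead (Y : Matrix (Fin (n + k)) (Fin n) ℂ) (r : Fin n) :
    eval (fun p : Fin (n + k) × Fin n => Y p.1 p.2) (lead (k := k) r) = mnr Y r := by
  unfold lead mnr
  rw [RingHom.map_det]
  congr 1
  ext a b
  rw [RingHom.mapMatrix_apply, Matrix.map_apply, Matrix.of_apply, Matrix.of_apply, eval_X]

theorem a04_sum {N r : ℕ} (e : Fin (r + 1) → Fin N) (he : ∀ a, (e a).1 = a.1) (f : Fin N → ℂ)
    (hf : ∀ i, r < i.1 → f i = 0) : ∑ i, f i = ∑ a, f (e a) := by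
  symm
  apply Finset.sum_of_injOn e
  · intro a _ b _ h
    exact Fin.ext (by rw [← he a, ← he b, h])
  · intro a _
    exact Finset.mem_coe.mpr (Finset.mem_univ _)
  · intro i _ hi
    apply hf
    by_contra h
    apply hi
    exact ⟨⟨i.1, by omega⟩, Finset.mem_coe.mpr (Finset.mem_univ _), Fin.ext (he _)⟩
  · intro a _
    rfl

theorem a04_det_lower {N : ℕ} (L : Matrix (Fin N) (Fin N) ℂ) (h1 : ∀ i, L i i = 1)
    (h2 : ∀ i j, i < j → L i j = 0) : L.det = 1 := by
  rw [Matrix.det_of_lowerTriangular L (fun i j h => h2 i j h)]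
  exact Finset.prod_eq_one fun i _ => h1 i

theorem a04_det_upper {N : ℕ} (L : Matrix (Fin N) (Fin N) ℂ) (h1 : ∀ i, L i i = 1)
    (h2 : ∀ i j, j < i → L i j = 0) : L.det = 1 := by
  rw [Matrix.det_of_upperTriangular (fun i j h => h2 i j h)]
  exact Finset.prod_eq_one fun i _ => h1 i

theorem A04_mnr_LU (L : Matrix (Fin (n + k)) (Fin (n + k)) ℂ) (U : Matrix (Fin n) (Fin n) ℂ)
    (hL : LU1 L) (hU : UU1 U) (Y : Matrix (Fin (n + k)) (Fin n) ℂ) (r : Fin n) :
    mnr (L * Y * U) r = mnr Y r := by
  unfold mnr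
  have e : (Matrix.of fun a b : Fin (r.1 + 1) =>
      (L * Y * U) (Fin.castAdd k (Fin.castLE r.2 a)) (Fin.castLE r.2 b)) =
      (Matrix.of fun a b : Fin (r.1 + 1) =>
        L (Fin.castAdd k (Fin.castLE r.2 a)) (Fin.castAdd k (Fin.castLE r.2 b))) *
      (Matrix.of fun a b : Fin (r.1 + 1) =>
        Y (Fin.castAdd k (Fin.castLE r.2 a)) (Fin.castLE r.2 b)) *
      (Matrix.of fun a b : Fin (r.1 + 1) => U (Fin.castLE r.2 a) (Fin.castLE r.2 b)) := by
    ext a b
    simp only [Matrix.mul_apply, Matrix.of_apply]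
    rw [a04_sum (Fin.castLE r.2) (fun _ => rfl)]
    · refine Finset.sum_congr rfl fun l _ => ?_
      rw [a04_sum (fun a => Fin.castAdd k (Fin.castLE r.2 a)) (fun _ => rfl)]
      intro i hi
      have h1 : Fin.castAdd k (Fin.castLE r.2 a) < i :=
        Fin.lt_def.mpr (lt_of_le_of_lt (Nat.lt_succ_iff.mp a.2) hi)
      rw [hL.2 _ _ h1, zero_mul]
    · intro l hl
      have h1 : Fin.castLE r.2 b < l :=
        Fin.lt_def.mpr (lt_of_le_of_lt (Nat.lt_succ_iff.mp b.2) hl)
      rw [hU.2 _ _ h1, mul_zero]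
  have hdL : (Matrix.of fun a b : Fin (r.1 + 1) =>
      L (Fin.castAdd k (Fin.castLE r.2 a)) (Fin.castAdd k (Fin.castLE r.2 b))).det = 1 :=
    a04_det_lower _ (fun i => hL.1 _) (fun i j h => hL.2 _ _ h)
  have hdU : (Matrix.of fun a b : Fin (r.1 + 1) =>
      U (Fin.castLE r.2 a) (Fin.castLE r.2 b)).det = 1 :=
    a04_det_upper _ (fun i => hU.1 _) (fun i j h => hU.2 _ _ h)
  rw [e, Matrix.det_mul, Matrix.det_mul, hdL, hdU, one_mul, mul_one]

theorem A04_lead_act (L : Matrix (Fin (n + k)) (Fin (n + k)) ℂ) (U : Matrix (Fin n) (Fin n) ℂ)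
    (hL : LU1 L) (hU : UU1 U) (r : Fin n) :
    act L U (lead (k := k) r) = lead r := by
  apply MvPolynomial.funext
  intro x
  have h1 := A01_eval_act L U (Matrix.of fun i j => x (i, j)) (lead (k := k) r)
  rw [A04_eval_lead, A04_mnr_LU L U hL hU, ← A04_eval_lead] at h1
  exact h1

end H95H
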