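import Pool.Agent.Lib.H95H.A03
import Pool.Agent.Lib.H95H.Defs

namespace H95H

open MvPolynomial

variable {n k : ℕ}

/-!
# Chunk A04: the leading minors

* `A04_eval_lead`: `eval` commutes with `det` (`RingHom.map_det`), entrywise.
* `A04_mnr_LU`: for `a ≤ r` the row `a` of `L * Y * U` restricted to columns `b ≤ r` is
  `∑_{k' ≤ a} ∑_{l ≤ b} L a k' Y k' l U l b` (as `L` is lower and `U` upper triangular), so the
  leading block of `L Y U` is the product of the leading blocks, and the leading blocks of `L`,
  `U` have determinant `1` (`Matrix.det_of_lowerTriangular`, `Matrix.det_of_upperTriangular`).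
* `A04_lead_act`: `MvPolynomial.funext` over the infinite field `ℂ`, `A01_eval_act`,
  `A04_eval_lead`, `A04_mnr_LU`.
* `A04_lead_wt`: `lead r` is homogeneous of weight (indicator of rows `≤ r`, indicator of columns
  `≤ r`): expand the determinant (`Matrix.det_apply`), each term is a sign times the product of
  `X (castAdd (castLE (σ b)), castLE b)` over `b`; use `IsWeightedHomogeneous.sum`/`prod`, and
  `∑_b Pi.single (castAdd (castLE (σ b))) 1` = indicator of the rows `≤ r` because `σ` is a
  permutation.
* `A04_mnr_J`: the leading block of `Jt k t` is diagonal.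
* `A04_swap`: for `r.1 + 1 < n` the matrix obtained from `Jt k 1` by exchanging the columns `r` and
  `r + 1` has vanishing leading minor of size `r + 1` (its row `r` restricted to the columns `≤ r`
  is zero) and all others are `±1`, hence nonzero: for `s < r` the block is the identity; for
  `s > r` it is the identity block with two columns exchanged, of determinant `-1`
  (`Matrix.det_permute'`).
-/

theorem a04_ind {N r : ℕ} (e : Fin (r + 1) → Fin N) (he : ∀ a, (e a).1 = a.1) (i : Fin N) :
    ∑ b, (Pi.single (e b) 1 : Fin N → ℕ) i = if i.1 ≤ r then 1 else 0 := by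
  split_ifs with h
  · rw [Finset.sum_eq_single ⟨i.1, by omega⟩]
    · have : e ⟨i.1, by omega⟩ = i := Fin.ext (he _)
      rw [this, Pi.single_eq_same]
    · intro b _ hb
      rw [Pi.single_eq_of_ne]
      intro h'
      apply hb
      apply Fin.ext
      rw [← he b, ← h']
    · intro h'
      exact absurd (Finset.mem_univ _) h'
  · apply Finset.sum_eq_zero
    intro b _
    rw [Pi.single_eq_of_ne]
    intro h'
    apply h
    rw [h', he b]
    exact Nat.lt_succ_iff.mp b.2

theorem A04_lead_wt (r : Fin n) :
    IsWeightedHomogeneous (wt (m := n + k) (n := n)) (lead (k := k) r)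
      ((fun i => if i.1 ≤ r.1 then 1 else 0, fun l => if l.1 ≤ r.1 then 1 else 0) :
        Wt (n + k) n) := by
  unfold lead
  rw [Matrix.det_apply, ← mem_weightedHomogeneousSubmodule]
  apply Submodule.sum_mem
  intro σ _
  have h1 : (∏ i, (Matrix.of fun a b : Fin (r.1 + 1) =>
      (X (Fin.castAdd k (Fin.castLE r.2 a), Fin.castLE r.2 b) : Rg (n + k) n)) (σ i) i) ∈
      weightedHomogeneousSubmodule ℂ (wt (m := n + k) (n := n))
      ((fun i => if i.1 ≤ r.1 then 1 else 0, fun l => if l.1 ≤ r.1 then 1 else 0) :
        Wt (n + k) n) := by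
    rw [mem_weightedHomogeneousSubmodule]
    have h2 := IsWeightedHomogeneous.prod (w := wt (m := n + k) (n := n)) Finset.univ
      (fun i : Fin (r.1 + 1) =>
        (X (Fin.castAdd k (Fin.castLE r.2 (σ i)), Fin.castLE r.2 i) : Rg (n + k) n))
      (fun i => wt (Fin.castAdd k (Fin.castLE r.2 (σ i)), Fin.castLE r.2 i))
      (fun i _ => isWeightedHomogeneous_X ℂ _ _)
    have h3 : ∑ i : Fin (r.1 + 1), wt (Fin.castAdd k (Fin.castLE r.2 (σ i)), Fin.castLE r.2 i) =
        ((fun i => if i.1 ≤ r.1 then 1 else 0, fun l => if l.1 ≤ r.1 then 1 else 0) :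
        Wt (n + k) n) := by
      apply Prod.ext
      · rw [Prod.fst_sum]
        funext i
        rw [Finset.sum_apply]
        show ∑ c, (Pi.single (Fin.castAdd k (Fin.castLE r.2 (σ c))) 1 : Fin (n + k) → ℕ) i = _
        rw [Equiv.sum_comp σ (fun c =>
          (Pi.single (Fin.castAdd k (Fin.castLE r.2 c)) 1 : Fin (n + k) → ℕ) i)]
        exact a04_ind (fun c => Fin.castAdd k (Fin.castLE r.2 c)) (fun _ => rfl) i
      · rw [Prod.snd_sum]
        funext i
        rw [Finset.sum_apply]
        exact a04_ind (fun c => Fin.castLE r.2 c) (fun _ => rfl) i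
    rw [h3] at h2
    exact h2
  rcases Int.units_eq_one_or (Equiv.Perm.sign σ) with h | h
  · rw [h, one_smul]
    exact h1
  · rw [h, Units.neg_smul, one_smul]
    exact Submodule.neg_mem _ h1

theorem A04_mnr_J (t : Fin n → ℂ) (r : Fin n) :
    mnr (Jt k t) r = ∏ a ∈ Finset.univ.filter (fun a : Fin n => a.1 ≤ r.1), t a := by
  unfold mnr
  have e : (Matrix.of fun a b : Fin (r.1 + 1) =>
      Jt k t (Fin.castAdd k (Fin.castLE r.2 a)) (Fin.castLE r.2 b)) =
      Matrix.diagonal fun a => t (Fin.castLE r.2 a) := by
    ext a b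
    rw [Matrix.of_apply]
    unfold Jt
    rw [Matrix.of_apply]
    by_cases h : a = b
    · rw [h, if_pos rfl, Matrix.diagonal_apply_eq]
    · rw [Matrix.diagonal_apply_ne _ h, if_neg]
      intro h'
      apply h
      apply Fin.ext
      have := congrArg Fin.val h'
      exact this
  rw [e, Matrix.det_diagonal]
  apply Finset.prod_nbij (Fin.castLE r.2)
  · intro a _
    rw [Finset.mem_filter]
    exact ⟨Finset.mem_univ _, Nat.lt_succ_iff.mp a.2⟩
  · intro a _ b _ h
    exact Fin.castLE_injective _ h
  · intro a ha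
    have ha' := (Finset.mem_filter.mp (Finset.mem_coe.mp ha)).2
    exact ⟨⟨a.1, Nat.lt_succ_iff.mpr ha'⟩, Finset.mem_coe.mpr (Finset.mem_univ _), Fin.ext rfl⟩
  · intro a _
    rfl

end H95H
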