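import Pool.Agent.Lib.H95H.A03

namespace H95H

open MvPolynomial

variable {n k : ℕ}

/-!
# Chunk A04: the leading minors

* `A04_eval_lead`: `eval` commutes with `det` (`RingHom.map_det`), entrywise.
* `A04_mnr_LU`: for `a ≤ r` the row `a` of `L * Y * U` restricted to columns `b ≤ r` is
  `∑_{k' ≤ a} ∑_{l ≤ b} L a k' Y k' l U l b` (as `L` is lower and `U` upper triangular), so the
  leading block of `L Y U` is the product of the leading blocks, and the leading blocks of `L`,
  `U` have determinant `1` (`Matrix.det_of_lowerTriangular`, `Matrix.det_of_upperTriangular`).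
* `A04_lead_act`: `MvPolynomial.funext` over the infinite field `ℂ`, `A01_eval_act`,
  `A04_eval_lead`, `A04_mnr_LU`.
* `A04_lead_wt`: `lead r` is homogeneous of weight (indicator of rows `≤ r`, indicator of columns
  `≤ r`): expand the determinant (`Matrix.det_apply`), each term is a sign times the product of
  `X (castAdd (castLE (σ b)), castLE b)` over `b`; use `IsWeightedHomogeneous.sum`/`prod`, and
  `∑_b Pi.single (castAdd (castLE (σ b))) 1` = indicator of the rows `≤ r` because `σ` is a
  permutation.
* `A04_mnr_J`: the leading block of `Jt k t` is diagonal.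
* `A04_swap`: for `r.1 + 1 < n` the matrix obtained from `Jt k 1` by exchanging the columns `r` and
  `r + 1` has vanishing leading minor of size `r + 1` (its row `r` restricted to the columns `≤ r`
  is zero) and all others are `±1`, hence nonzero: for `s < r` the block is the identity; for
  `s > r` it is the identity block with two columns exchanged, of determinant `-1`
  (`Matrix.det_permute'`).
-/

theorem A04_swap (r : Fin n) (h : r.1 + 1 < n) :
    ∃ Y : Matrix (Fin (n + k)) (Fin n) ℂ, mnr Y r = 0 ∧ ∀ s, s ≠ r → mnr Y s ≠ 0 := by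
  refine ⟨(Jt k (fun _ => 1)).submatrix id (Equiv.swap r ⟨r.1 + 1, h⟩), ?_, ?_⟩
  · unfold mnr
    apply Matrix.det_eq_zero_of_row_eq_zero (Fin.last r.1)
    intro b
    rw [Matrix.of_apply, Matrix.submatrix_apply]
    unfold Jt
    rw [Matrix.of_apply]
    apply if_neg
    intro h1
    have h2 := congrArg Fin.val h1
    by_cases hb : (Fin.castLE r.2 b) = r
    · rw [hb, Equiv.swap_apply_left] at h2
      have h3 : r.1 = r.1 + 1 := h2
      omega
    · have hb2 : (Fin.castLE r.2 b) ≠ ⟨r.1 + 1, h⟩ := by
        intro h3
        have h4 : b.1 = r.1 + 1 := congrArg Fin.val h3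
        have := b.2
        omega
      rw [Equiv.swap_apply_of_ne_of_ne hb hb2] at h2
      have h3 : r.1 = b.1 := h2
      exact hb (Fin.ext h3.symm)
  · intro s hs
    have hperm : ∃ σ : Equiv.Perm (Fin (s.1 + 1)), ∀ b : Fin (s.1 + 1),
        Equiv.swap r ⟨r.1 + 1, h⟩ (Fin.castLE s.2 b) = Fin.castLE s.2 (σ b) := by
      rcases lt_or_gt_of_ne (fun h' : s.1 = r.1 => hs (Fin.ext h')) with hlt | hlt
      · refine ⟨1, fun b => ?_⟩
        rw [Equiv.swap_apply_of_ne_of_ne]
        · rfl
        · intro h3
          have h4 : b.1 = r.1 := congrArg Fin.val h3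
          have := b.2
          omega
        · intro h3
          have h4 : b.1 = r.1 + 1 := congrArg Fin.val h3
          have := b.2
          omega
      · refine ⟨Equiv.swap ⟨r.1, by omega⟩ ⟨r.1 + 1, by omega⟩, fun b => ?_⟩
        by_cases h1 : b.1 = r.1
        · have e1 : Fin.castLE s.2 b = r := Fin.ext h1
          have e2 : b = ⟨r.1, by omega⟩ := Fin.ext h1
          rw [e1, Equiv.swap_apply_left, e2, Equiv.swap_apply_left]
          rfl
        · by_cases h2 : b.1 = r.1 + 1
          · have e1 : Fin.castLE s.2 b = ⟨r.1 + 1, h⟩ := Fin.ext h2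
            have e2 : b = ⟨r.1 + 1, by omega⟩ := Fin.ext h2
            rw [e1, Equiv.swap_apply_right, e2, Equiv.swap_apply_right]
            rfl
          · rw [Equiv.swap_apply_of_ne_of_ne (fun h3 => h1 (congrArg Fin.val h3))
              (fun h3 => h2 (congrArg Fin.val h3)),
              Equiv.swap_apply_of_ne_of_ne (fun h3 => h1 (congrArg Fin.val h3))
              (fun h3 => h2 (congrArg Fin.val h3))]
    obtain ⟨σ, hσ⟩ := hperm
    unfold mnr
    have e : (Matrix.of fun a b : Fin (s.1 + 1) =>
        ((Jt k (fun _ => 1)).submatrix id (Equiv.swap r ⟨r.1 + 1, h⟩))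
          (Fin.castAdd k (Fin.castLE s.2 a)) (Fin.castLE s.2 b)) =
        (1 : Matrix (Fin (s.1 + 1)) (Fin (s.1 + 1)) ℂ).submatrix id σ := by
      ext a b
      rw [Matrix.of_apply, Matrix.submatrix_apply, Matrix.submatrix_apply, hσ]
      unfold Jt
      rw [Matrix.of_apply, id, id]
      by_cases h1 : a = σ b
      · rw [h1, if_pos rfl, Matrix.one_apply_eq]
      · rw [Matrix.one_apply_ne h1, if_neg]
        intro h2
        exact h1 (Fin.castLE_injective _ (Fin.castAdd_injective _ _ h2))
    rw [e, Matrix.det_permute', Matrix.det_one, mul_one]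
    rcases Int.units_eq_one_or (Equiv.Perm.sign σ) with h | h
    · rw [h]
      norm_num
    · rw [h]
      norm_num

end H95H
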