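import Pool.Agent.Lib.H95H.A04a
import Pool.Agent.Lib.H95H.A04b

namespace H95H
open MvPolynomial

variable {n k : ℕ}

/-- the row degree of the highest weight polynomial -/
def ext {n : ℕ} (k : ℕ) (lam : Fin n → ℕ) : Fin (n + k) → ℕ :=
  fun i => if h : i.1 < n then lam ⟨i.1, h⟩ else 0

/-!
# Chunk A05: the highest weight polynomials

* `A05_hw_act`: product of powers of `lead r`, each fixed (`A04_lead_act`).
* `A05_hw_wt`: for antitone `lam`, the weight is
  `∑_r (lam r - nxt lam r) • (indicators of rows ≤ r and columns ≤ r)`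
  (`A04_lead_wt`, `IsWeightedHomogeneous.pow`, `.prod`), and the telescoping sum
  `∑_{r ≥ l} (lam r - nxt lam r) = lam l` (with natural subtraction, all differences being `≥ 0`).
* `A05_hw_ne`: its value at `Jt k 1` is `1` (`A04_eval_lead`, `A04_mnr_J`).
* `A05_unit_L`, `A05_unit_U`: determinant `1` (`Matrix.det_of_lowerTriangular`).
* `A05_V_inv`: `V lam` is invariant: `act A B (act A' B' (hw lam)) = act (A' * A) (B * B') (hw lam)`
  (`A01_act_act`) and products of units are units; pass to the span.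
* `A05_hw_mem`: `hw lam = act 1 1 (hw lam)`.
-/

theorem A05_unit_L {m : ℕ} (L : Matrix (Fin m) (Fin m) ℂ) (hL : LU1 L) : IsUnit L := by
  rw [Matrix.isUnit_iff_isUnit_det, a04_det_lower L hL.1 hL.2]
  exact isUnit_one

theorem A05_unit_U {m : ℕ} (U : Matrix (Fin m) (Fin m) ℂ) (hU : UU1 U) : IsUnit U := by
  rw [Matrix.isUnit_iff_isUnit_det, a04_det_upper U hU.1 hU.2]
  exact isUnit_one

theorem A05_hw_act (L : Matrix (Fin (n + k)) (Fin (n + k)) ℂ) (U : Matrix (Fin n) (Fin n) ℂ)
    (hL : LU1 L) (hU : UU1 U) (lam : Fin n → ℕ) :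
    act L U (hw (k := k) lam) = hw lam := by
  unfold hw
  rw [map_prod]
  refine Finset.prod_congr rfl fun r _ => ?_
  rw [map_pow, A04_lead_act L U hL hU]

theorem a05_tel (lam : Fin n → ℕ) (hlam : Antitone lam) (d : ℕ) : ∀ j : ℕ, n ≤ j + d →
    ∑ r : Fin n, (lam r - nxt lam r) * (if j ≤ r.1 then 1 else 0) =
      if h : j < n then lam ⟨j, h⟩ else 0 := by
  induction d with
  | zero =>
    intro j hj
    rw [dif_neg (by omega)]
    apply Finset.sum_eq_zero
    intro r _
    have := r.2
    rw [if_neg (by omega), mul_zero]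
  | succ d ih =>
    intro j hj
    by_cases hn : j < n
    · rw [dif_pos hn]
      have h1 := ih (j + 1) (by omega)
      have h2 : ∑ r : Fin n, (lam r - nxt lam r) * (if j ≤ r.1 then 1 else 0) =
          ∑ r : Fin n, (lam r - nxt lam r) * (if j + 1 ≤ r.1 then 1 else 0) +
            (lam ⟨j, hn⟩ - nxt lam ⟨j, hn⟩) := by
        have h3 : (lam ⟨j, hn⟩ - nxt lam ⟨j, hn⟩) =
            ∑ r : Fin n, (if r = ⟨j, hn⟩ then (lam r - nxt lam r) else 0) := by
          rw [Finset.sum_ite_eq' Finset.univ, if_pos (Finset.mem_univ _)]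
        rw [h3, ← Finset.sum_add_distrib]
        refine Finset.sum_congr rfl fun r _ => ?_
        by_cases h4 : r = ⟨j, hn⟩
        · have h5 : r.1 = j := congrArg Fin.val h4
          rw [if_pos h4, if_pos (by omega), if_neg (by omega)]
          ring
        · have h5 : r.1 ≠ j := fun h => h4 (Fin.ext h)
          rw [if_neg h4, add_zero]
          by_cases h6 : j ≤ r.1
          · rw [if_pos h6, if_pos (by omega)]
          · rw [if_neg h6, if_neg (by omega)]
      rw [h2, h1]
      unfold nxt
      by_cases h7 : j + 1 < n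
      · have h8 : lam ⟨j + 1, h7⟩ ≤ lam ⟨j, hn⟩ := hlam (by
          rw [Fin.le_def]
          exact Nat.le_succ j)
        rw [dif_pos h7]
        omega
      · rw [dif_neg h7]
        omega
    · rw [dif_neg hn]
      apply Finset.sum_eq_zero
      intro r _
      have := r.2
      rw [if_neg (by omega), mul_zero]

theorem A05_hw_wt (lam : Fin n → ℕ) (hlam : Antitone lam) :
    IsWeightedHomogeneous (wt (m := n + k) (n := n)) (hw (k := k) lam)
      ((ext k lam, lam) : Wt (n + k) n) := by
  unfold hw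
  have h1 := IsWeightedHomogeneous.prod (w := wt (m := n + k) (n := n)) Finset.univ
    (fun r : Fin n => (lead (k := k) r) ^ (lam r - nxt lam r)) _
    (fun r _ => (A04_lead_wt (k := k) r).pow (lam r - nxt lam r))
  have h2 : ∑ r : Fin n, (lam r - nxt lam r) •
      ((fun i => if i.1 ≤ r.1 then 1 else 0, fun l => if l.1 ≤ r.1 then 1 else 0) :
        Wt (n + k) n) = ((ext k lam, lam) : Wt (n + k) n) := by
    apply Prod.ext
    · rw [Prod.fst_sum]
      funext i
      rw [Finset.sum_apply]
      exact a05_tel lam hlam n i.1 (by omega)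
    · rw [Prod.snd_sum]
      funext i
      rw [Finset.sum_apply]
      refine (a05_tel lam hlam n i.1 (by omega)).trans ?_
      rw [dif_pos i.2]
  rw [h2] at h1
  exact h1

theorem a05_mnr_one (r : Fin n) : mnr (Jt k (fun _ : Fin n => (1 : ℂ))) r = 1 := by
  rw [A04_mnr_J, Finset.prod_const_one]

theorem A05_hw_ne (lam : Fin n → ℕ) : hw (k := k) lam ≠ 0 := by
  intro h
  have h1 := congrArg (eval (fun p : Fin (n + k) × Fin n =>
    (Jt k (fun _ : Fin n => (1 : ℂ))) p.1 p.2)) h
  unfold hw at h1
  rw [map_zero, map_prod] at h1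
  have h2 : ∏ r : Fin n, eval (fun p : Fin (n + k) × Fin n =>
      (Jt k (fun _ : Fin n => (1 : ℂ))) p.1 p.2) ((lead (k := k) r) ^ (lam r - nxt lam r)) = 1 := by
    apply Finset.prod_eq_one
    intro r _
    rw [map_pow, A04_eval_lead, a05_mnr_one, one_pow]
  rw [h2] at h1
  exact one_ne_zero h1

theorem A05_hw_mem (lam : Fin n → ℕ) : hw (k := k) lam ∈ V (k := k) lam := by
  apply Submodule.subset_span
  exact ⟨1, 1, isUnit_one, isUnit_one, (A01_act_one _).symm⟩

theorem A05_V_inv (lam : Fin n → ℕ) : Inv (V (k := k) lam) := by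
  intro A B hA hB f hf
  induction hf using Submodule.span_induction with
  | mem x hx =>
    obtain ⟨A', B', hA', hB', rfl⟩ := hx
    rw [A01_act_act]
    exact Submodule.subset_span ⟨_, _, hA'.mul hA, hB.mul hB', rfl⟩
  | zero =>
    rw [map_zero]
    exact zero_mem _
  | add x y _ _ hx hy =>
    rw [map_add]
    exact add_mem hx hy
  | smul c x _ hx =>
    rw [map_smul]
    exact Submodule.smul_mem _ _ hx

end H95H
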