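import Pool.Agent.Lib.H95H.A04a
import Pool.Agent.Lib.H95H.A04b
import Pool.Agent.Lib.H95H.A04c

namespace H95H
open MvPolynomial

variable {n k : ℕ}

/-!
# Chunk A06: polynomials fixed by the unipotent groups

Let `f` be fixed by all `act L U` (`L` lower, `U` upper unitriangular), `f ≠ 0`, and suppose all
monomials of `f` have column degrees `u` (hypothesis `hu`). Then `u` is antitone and `f` is a scalar
multiple of `hw u`.

Proof. Let `c = eval (Jt k 1) f`. Claim: for every matrix `Y` with all leading minors nonzero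
`f(Y) · ∏_r (mnr Y (r-1))^{u r} = c · ∏_r (mnr Y r)^{u r}` (with `mnr Y (-1) = 1`); it is convenient
to write the left product as `∏_r (mnr Y r)^{nxt u r}`. Indeed `Y = L · Jt k t · U` (`A03_LU`), so
`f(Y) = f(Jt k t)` (`A01_eval_act` and the invariance of `f`), `Jt k t = Jt k 1 · diagonal t` and as
every monomial of `f` has column degrees `u`, `f(Jt k t) = (∏_r t_r^{u r}) · c`
(`eval` of a monomial `X^α` at `p ↦ Y p.1 p.2 * t p.2` is `∏_l t_l^{cdeg_l α}` times its value at
`Y`). Also `mnr Y r = mnr (Jt k t) r = ∏_{a ≤ r} t_a` (`A04_mnr_LU`, `A04_mnr_J`), and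
`∏_r t_r^{u r} · ∏_r (mnr Y r)^{nxt u r} = ∏_r (mnr Y r)^{u r}` because
`t_r · mnr Y (r-1) = mnr Y r`.
Hence the polynomial `g = f · ∏_r lead_r^{nxt u r} - c · ∏_r lead_r^{u r}` vanishes at all `Y` with
nonvanishing leading minors, so `g · ∏_r lead_r` vanishes everywhere and is zero
(`MvPolynomial.funext`), and so `g = 0` as the ring is a domain and `lead_r ≠ 0`
(value `1` at `Jt k 1`).
`c ≠ 0`, otherwise `f · ∏ lead^.. = 0`, `f = 0`.
`u` is antitone: otherwise `u r < nxt u r` for some `r` with `r + 1 < n`. In the identity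
`f · ∏_s lead_s^{nxt u s} = c · ∏_s lead_s^{u s}` cancel `lead_r^{u r}` (domain, `lead_r ≠ 0`): the
left side is still divisible by `lead_r`. Evaluate at the matrix of `A04_swap`: the left side is `0`
and the right side `c · ∏_{s ≠ r} (mnr s)^{u s} ≠ 0`, a contradiction.
Then `nxt u r ≤ u r` for all `r` and cancelling `∏_r lead_r^{nxt u r}` gives
`f = c · ∏_r lead_r^{u r - nxt u r} = c · hw u`.
-/

theorem a06_range (T : ℕ → ℂ) (U : ℕ → ℕ) (N : ℕ) :
    (∏ i ∈ Finset.range N, T i ^ U i) *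
      (∏ i ∈ Finset.range N, (∏ a ∈ Finset.range (i + 1), T a) ^ U (i + 1)) =
    (∏ i ∈ Finset.range N, (∏ a ∈ Finset.range (i + 1), T a) ^ U i) *
      (∏ a ∈ Finset.range N, T a) ^ U N := by
  induction N with
  | zero => simp
  | succ N ih =>
    rw [Finset.prod_range_succ (fun i => T i ^ U i) N,
      Finset.prod_range_succ (fun i => (∏ a ∈ Finset.range (i + 1), T a) ^ U (i + 1)) N,
      Finset.prod_range_succ (fun i => (∏ a ∈ Finset.range (i + 1), T a) ^ U i) N]
    have h1 : (∏ a ∈ Finset.range (N + 1), T a) ^ U N =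
        (∏ a ∈ Finset.range N, T a) ^ U N * T N ^ U N := by
      rw [Finset.prod_range_succ, mul_pow]
    rw [h1]
    calc _ = ((∏ i ∈ Finset.range N, T i ^ U i) *
          (∏ i ∈ Finset.range N, (∏ a ∈ Finset.range (i + 1), T a) ^ U (i + 1))) *
          (T N ^ U N * (∏ a ∈ Finset.range (N + 1), T a) ^ U (N + 1)) := by ring
      _ = _ := by
        rw [ih]
        ring

theorem a06_partial (t : Fin n → ℂ) (i : ℕ) (hi : i < n) :
    ∏ a ∈ Finset.range (i + 1), (if h : a < n then t ⟨a, h⟩ else 1) =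
      ∏ a ∈ Finset.univ.filter (fun a : Fin n => a.1 ≤ i), t a := by
  rw [Finset.prod_filter]
  have h1 : ∏ a : Fin n, (if a.1 ≤ i then t a else 1) =
      ∏ a ∈ Finset.range n, (if a ≤ i then (if h : a < n then t ⟨a, h⟩ else 1) else 1) := by
    rw [Finset.prod_range]
    refine Finset.prod_congr rfl fun a _ => ?_
    simp
  rw [h1, ← Finset.prod_filter]
  refine Finset.prod_congr ?_ fun _ _ => rfl
  ext a
  simp only [Finset.mem_range, Finset.mem_filter]
  omega

theorem a06_ident (t : Fin n → ℂ) (u : Fin n → ℕ) :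
    (∏ r, t r ^ u r) *
      (∏ r : Fin n, (∏ a ∈ Finset.univ.filter (fun a : Fin n => a.1 ≤ r.1), t a) ^ nxt u r) =
    ∏ r : Fin n, (∏ a ∈ Finset.univ.filter (fun a : Fin n => a.1 ≤ r.1), t a) ^ u r := by
  have h1 := a06_range (fun a => if h : a < n then t ⟨a, h⟩ else 1)
    (fun i => if h : i < n then u ⟨i, h⟩ else 0) n
  rw [Finset.prod_range, Finset.prod_range, Finset.prod_range, dif_neg (lt_irrefl n), pow_zero,
    mul_one] at h1
  have h2 : ∀ r : Fin n, ∏ a ∈ Finset.range (r.1 + 1), (if h : a < n then t ⟨a, h⟩ else 1) =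
      ∏ a ∈ Finset.univ.filter (fun a : Fin n => a.1 ≤ r.1), t a := fun r => a06_partial t r.1 r.2
  simp only [h2, Fin.is_lt, dif_pos, Fin.eta] at h1
  exact h1

theorem a06_wt2 (α : (Fin (n + k) × Fin n) →₀ ℕ) (l : Fin n) :
    (Finsupp.weight wt α : Wt (n + k) n).2 l =
      ∑ p : Fin (n + k) × Fin n, if p.2 = l then α p else 0 := by
  rw [Finsupp.weight_apply, Finsupp.sum_fintype _ _ (by intro a; simp)]
  have h1 : (∑ a : Fin (n + k) × Fin n, α a • (wt a : Wt (n + k) n)).2 =
      ∑ a : Fin (n + k) × Fin n, α a • (wt a : Wt (n + k) n).2 := by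
    rw [Prod.snd_sum]
    rfl
  rw [h1]
  simp only [Finset.sum_apply, Pi.smul_apply, smul_eq_mul]
  refine Finset.sum_congr rfl fun a _ => ?_
  by_cases h : a.2 = l
  · subst h
    simp [wt]
  · rw [if_neg h]
    simp [wt, Ne.symm h]

theorem a06_scale (t : Fin n → ℂ) (u : Fin n → ℕ) (f : Rg (n + k) n)
    (hu : ∀ α, coeff α f ≠ 0 → (Finsupp.weight wt α : Wt (n + k) n).2 = u) :
    eval (fun p : Fin (n + k) × Fin n => Jt k t p.1 p.2) f =
      (∏ r, t r ^ u r) * eval (fun p : Fin (n + k) × Fin n => Jt k (fun _ => 1) p.1 p.2) f := by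
  have hJ : ∀ p : Fin (n + k) × Fin n, Jt k t p.1 p.2 = Jt k (fun _ => 1) p.1 p.2 * t p.2 := by
    intro p
    unfold Jt
    simp only [Matrix.of_apply]
    split_ifs <;> simp
  rw [eval_eq', eval_eq', Finset.mul_sum]
  refine Finset.sum_congr rfl fun α hα => ?_
  have h1 : (∏ p : Fin (n + k) × Fin n, t p.2 ^ α p) = ∏ r, t r ^ u r := by
    have h2 : ∀ p : Fin (n + k) × Fin n, t p.2 ^ α p =
        ∏ l : Fin n, t l ^ (if p.2 = l then α p else 0) := by
      intro p
      rw [Finset.prod_eq_single p.2]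
      · rw [if_pos rfl]
      · intro l _ hl
        rw [if_neg (Ne.symm hl), pow_zero]
      · intro h
        exact absurd (Finset.mem_univ _) h
    simp only [h2]
    rw [Finset.prod_comm]
    refine Finset.prod_congr rfl fun l _ => ?_
    rw [Finset.prod_pow_eq_pow_sum, ← a06_wt2, hu α (by simpa using hα)]
  have h3 : (∏ p : Fin (n + k) × Fin n, (Jt k t p.1 p.2) ^ α p) =
      (∏ p : Fin (n + k) × Fin n, (Jt k (fun _ => 1) p.1 p.2) ^ α p) * ∏ r, t r ^ u r := by
    rw [← h1, ← Finset.prod_mul_distrib]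
    refine Finset.prod_congr rfl fun p _ => ?_
    rw [hJ p, mul_pow]
  rw [h3]
  ring

theorem a06_lead_ne (r : Fin n) : lead (k := k) r ≠ 0 := by
  intro h
  have h1 := A04_eval_lead (k := k) (Jt k (fun _ => (1 : ℂ))) r
  rw [h, map_zero, A04_mnr_J, Finset.prod_const_one] at h1
  exact zero_ne_one h1

theorem a06_main (f : Rg (n + k) n) (u : Fin n → ℕ)
    (hfix : ∀ (L : Matrix (Fin (n + k)) (Fin (n + k)) ℂ) (U : Matrix (Fin n) (Fin n) ℂ),
      LU1 L → UU1 U → act L U f = f)
    (hu : ∀ α, coeff α f ≠ 0 → (Finsupp.weight wt α : Wt (n + k) n).2 = u) :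
    f * ∏ r, (lead (k := k) r) ^ nxt u r =
      C (eval (fun p : Fin (n + k) × Fin n => Jt k (fun _ => 1) p.1 p.2) f) *
        ∏ r, (lead (k := k) r) ^ u r := by
  set c := eval (fun p : Fin (n + k) × Fin n => Jt k (fun _ => 1) p.1 p.2) f with hc
  have h1 : (f * ∏ r, (lead (k := k) r) ^ nxt u r - C c * ∏ r, (lead (k := k) r) ^ u r) *
      ∏ r, lead (k := k) r = 0 := by
    apply MvPolynomial.funext
    intro y
    rw [map_zero, map_mul]
    set Y : Matrix (Fin (n + k)) (Fin n) ℂ := Matrix.of fun i l => y (i, l) with hYdef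
    have hy : y = fun p : Fin (n + k) × Fin n => Y p.1 p.2 := rfl
    by_cases hY : ∀ r, mnr Y r ≠ 0
    · have h2 : eval y (f * ∏ r, (lead (k := k) r) ^ nxt u r - C c * ∏ r, (lead (k := k) r) ^ u r) = 0 := by
        obtain ⟨L, t, U, hL, hU, hLU⟩ := A03_LU Y hY
        have h3 : eval y f = (∏ r, t r ^ u r) * c := by
          have h4 := A01_eval_act L U (Jt k t) f
          rw [hfix L U hL hU, ← hLU, ← hy] at h4
          rw [← h4]
          exact a06_scale t u f hu
        have h5 : ∀ r, eval y (lead (k := k) r) =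
            ∏ a ∈ Finset.univ.filter (fun a : Fin n => a.1 ≤ r.1), t a := by
          intro r
          rw [hy, A04_eval_lead Y r, hLU, A04_mnr_LU L U hL hU, A04_mnr_J]
        rw [map_sub, map_mul, map_mul, map_prod, map_prod, eval_C]
        simp only [map_pow, h5]
        rw [h3, ← a06_ident t u]
        ring
      rw [h2, zero_mul]
    · push Not at hY
      obtain ⟨r, hr⟩ := hY
      have h2 : eval y (∏ r, lead (k := k) r) = 0 := by
        rw [map_prod]
        apply Finset.prod_eq_zero (Finset.mem_univ r)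
        rw [hy, A04_eval_lead Y r, hr]
      rw [h2, mul_zero]
  have h2 : (∏ r : Fin n, lead (k := k) r) ≠ 0 :=
    Finset.prod_ne_zero_iff.2 fun (r : Fin n) _ => a06_lead_ne r
  have h3 := (mul_eq_zero.1 h1).resolve_right h2
  exact sub_eq_zero.1 h3

theorem A06_fixed (f : Rg (n + k) n) (u : Fin n → ℕ)
    (hfix : ∀ (L : Matrix (Fin (n + k)) (Fin (n + k)) ℂ) (U : Matrix (Fin n) (Fin n) ℂ),
      LU1 L → UU1 U → act L U f = f)
    (hu : ∀ α, coeff α f ≠ 0 → (Finsupp.weight wt α : Wt (n + k) n).2 = u) (hf : f ≠ 0) :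
    Antitone u ∧ ∃ c : ℂ, c ≠ 0 ∧ f = c • hw u := by
  have h1 := a06_main f u hfix hu
  set c := eval (fun p : Fin (n + k) × Fin n => Jt k (fun _ => 1) p.1 p.2) f with hc
  have hprod : ∀ v : Fin n → ℕ, (∏ r, (lead (k := k) r) ^ v r) ≠ 0 := fun v =>
    Finset.prod_ne_zero_iff.2 fun r _ => pow_ne_zero _ (a06_lead_ne r)
  have hc0 : c ≠ 0 := by
    intro h0
    rw [h0, map_zero, zero_mul] at h1
    rcases mul_eq_zero.1 h1 with h2 | h2
    · exact hf h2
    · exact hprod _ h2
  have hle : ∀ r, nxt u r ≤ u r := by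
    intro r
    by_contra hlt
    push Not at hlt
    have hr : r.1 + 1 < n := by
      by_contra h2
      have h3 : nxt u r = 0 := by
        unfold nxt
        rw [dif_neg h2]
      omega
    obtain ⟨Y, hY0, hY1⟩ := A04_swap (k := k) r hr
    have h2 : ∀ v : Fin n → ℕ, (∏ s, (lead (k := k) s) ^ v s) =
        lead r ^ v r * ∏ s ∈ Finset.univ.erase r, (lead (k := k) s) ^ v s := fun v =>
      (Finset.mul_prod_erase Finset.univ _ (Finset.mem_univ r)).symm
    rw [h2, h2 u] at h1
    obtain ⟨e, he⟩ : ∃ e, nxt u r = u r + (e + 1) := ⟨nxt u r - u r - 1, by omega⟩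
    rw [he, pow_add] at h1
    have h3 : lead (k := k) r ^ u r * (f * lead r ^ (e + 1) *
          ∏ s ∈ Finset.univ.erase r, (lead (k := k) s) ^ nxt u s) =
        lead (k := k) r ^ u r * (C c * ∏ s ∈ Finset.univ.erase r, (lead (k := k) s) ^ u s) := by
      linear_combination h1
    have h4 := mul_left_cancel₀ (pow_ne_zero _ (a06_lead_ne r)) h3
    have h5 := congrArg (eval (fun p : Fin (n + k) × Fin n => Y p.1 p.2)) h4
    rw [map_mul, map_mul, map_mul, map_pow, A04_eval_lead, hY0, zero_pow (Nat.succ_ne_zero e),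
      mul_zero, zero_mul, eval_C] at h5
    rcases mul_eq_zero.1 h5.symm with h6 | h6
    · exact hc0 h6
    · rw [map_prod] at h6
      obtain ⟨s, hs, h7⟩ := Finset.prod_eq_zero_iff.1 h6
      rw [map_pow, A04_eval_lead] at h7
      exact pow_ne_zero _ (hY1 s (Finset.ne_of_mem_erase hs)) h7
  refine ⟨?_, c, hc0, ?_⟩
  · have h2 : ∀ a b : ℕ, a ≤ b → ∀ (hb : b < n) (ha : a < n), u ⟨b, hb⟩ ≤ u ⟨a, ha⟩ := by
      intro a b hab
      induction b, hab using Nat.le_induction with
      | base => intro hb ha; exact le_rfl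
      | succ b hab ih =>
        intro hb ha
        refine le_trans ?_ (ih (by omega) ha)
        have h3 := hle ⟨b, by omega⟩
        unfold nxt at h3
        rw [dif_pos hb] at h3
        exact h3
    intro r s hrs
    exact h2 r.1 s.1 hrs s.2 r.2
  · have h2 : (∏ r, (lead (k := k) r) ^ u r) = hw u * ∏ r, (lead (k := k) r) ^ nxt u r := by
      unfold hw
      rw [← Finset.prod_mul_distrib]
      refine Finset.prod_congr rfl fun r _ => ?_
      rw [← pow_add, Nat.sub_add_cancel (hle r)]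
    rw [h2, ← mul_assoc] at h1
    rw [smul_eq_C_mul]
    exact mul_right_cancel₀ (hprod _) h1

end H95H
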