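import Pool.Agent.Lib.H95H.A02b
import Pool.Agent.Lib.H95H.A05
import Pool.Agent.Lib.H95H.A06

namespace H95H
open MvPolynomial

variable {n k : ℕ}

/-- the level of a weight -/
def lev {m n : ℕ} (ω : Wt m n) : ℕ :=
  ∑ i : Fin m, (m - 1 - i.1) * ω.1 i + ∑ l : Fin n, (n - 1 - l.1) * ω.2 l

/-!
# Chunk A07: a nonzero invariant subspace contains some `hw lam`

* `A07_raise`: for `L` lower and `U` upper unitriangular, every monomial `β` of `act L U f - f` has
  level bigger than some monomial of `f`; precisely: if all monomials of `f` have level `≥ N` then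
  all monomials of `act L U f - f` have level `≥ N + 1`. Proof: for a variable,
  `act L U (X p) - X p = ∑_{(k',l) ≠ p} C (L p.1 k' * U l p.2) * X (k', l)` and nonzero terms have
  `k' ≤ p.1`, `l ≤ p.2`, not both equal, so the level of `X (k',l)` is bigger than that of `X p`.
  For a monomial by induction: `act(X p * g) - X p * g = act (X p) * (act g - g) + (act (X p) - X p) * g`,
  the set of polynomials all of whose monomials have level `≥ N` being an additive group, and
  products adding the bounds. Then sum over the monomials of `f`.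
* `A07_exists`: choose a nonzero `f ∈ W`; some weight component of it is nonzero and lies in `W`
  (`A02_comp_mem`). Among the nonzero `g ∈ W` which are homogeneous of some weight `ω` with
  `∑ ω.1 = D` (`D` the total degree of the first one chosen; the level of such weights is at most
  `(m + n) * D`, note `∑ ω.2 = ∑ ω.1`) choose one with `lev ω` maximal. For `L`, `U`
  unitriangular `act L U g - g ∈ W` (units: `A05_unit_L`, `A05_unit_U`), it is homogeneous of total
  degree `D` and all its monomials have level `> lev ω` by `A07_raise`; its weight components are in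
  `W` (`A02_comp_mem`), so they vanish by maximality and `act L U g = g`. By `A06_fixed` (with
  `u = ω.2`) `g = c • hw u` with `c ≠ 0`, so `hw u ∈ W` and `u` is antitone.
-/

/-- auxiliary: the level of a monomial -/
noncomputable def a07_l {n k : ℕ} (α : (Fin (n + k) × Fin n) →₀ ℕ) : ℕ :=
  lev (Finsupp.weight wt α : Wt (n + k) n)

theorem a07_lev_add {m n : ℕ} (a b : Wt m n) : lev (a + b) = lev a + lev b := by
  unfold lev
  simp only [Prod.fst_add, Prod.snd_add, Pi.add_apply, mul_add, Finset.sum_add_distrib]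
  ring

theorem a07_l_add (α β : (Fin (n + k) × Fin n) →₀ ℕ) : a07_l (α + β) = a07_l α + a07_l β := by
  unfold a07_l
  rw [map_add, a07_lev_add]

theorem a07_l_single (p : Fin (n + k) × Fin n) :
    a07_l (Finsupp.single p 1) = (n + k - 1 - p.1.1) + (n - 1 - p.2.1) := by
  unfold a07_l lev
  rw [Finsupp.weight_single, one_smul]
  simp only [wt]
  rw [Finset.sum_eq_single p.1, Finset.sum_eq_single p.2]
  · simp
  · intro b _ hb
    simp [hb]
  · intro h
    exact absurd (Finset.mem_univ _) h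
  · intro b _ hb
    simp [hb]
  · intro h
    exact absurd (Finset.mem_univ _) h

/-- auxiliary: the polynomials all of whose monomials have level at least `N` -/
def a07_S (n k N : ℕ) : Submodule ℂ (Rg (n + k) n) where
  carrier := {f | ∀ α, coeff α f ≠ 0 → N ≤ a07_l α}
  add_mem' := by
    intro f g hf hg α h
    by_cases h1 : coeff α f = 0
    · refine hg α fun h2 => h ?_
      simp [h1, h2]
    · exact hf α h1
  zero_mem' := by
    intro α h
    simp at h
  smul_mem' := by
    intro r f hf α h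
    refine hf α fun h2 => h ?_
    simp [h2]

theorem a07_mul (a b : ℕ) (f g : Rg (n + k) n) (hf : f ∈ a07_S n k a) (hg : g ∈ a07_S n k b) :
    f * g ∈ a07_S n k (a + b) := by
  intro α h
  rw [coeff_mul] at h
  obtain ⟨x, hx, h1⟩ := Finset.exists_ne_zero_of_sum_ne_zero h
  replace hx := Finset.HasAntidiagonal.mem_antidiagonal.1 hx
  rw [← hx, a07_l_add]
  exact add_le_add (hf _ (left_ne_zero_of_mul h1)) (hg _ (right_ne_zero_of_mul h1))

theorem a07_mono {a b : ℕ} (h : a ≤ b) (f : Rg (n + k) n) (hf : f ∈ a07_S n k b) :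
    f ∈ a07_S n k a := fun α hα => h.trans (hf α hα)

theorem a07_X (p : Fin (n + k) × Fin n) :
    (X p : Rg (n + k) n) ∈ a07_S n k (a07_l (Finsupp.single p 1)) := by
  intro α h
  rw [coeff_X] at h
  by_cases h1 : Finsupp.single p 1 = α
  · rw [h1]
  · rw [if_neg h1] at h
    exact absurd rfl h

/-- auxiliary: `g` has level at least `N` and `act L U g - g` level at least `N + 1` -/
def a07_P (L : Matrix (Fin (n + k)) (Fin (n + k)) ℂ) (U : Matrix (Fin n) (Fin n) ℂ)
    (g : Rg (n + k) n) (N : ℕ) : Prop :=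
  g ∈ a07_S n k N ∧ act L U g - g ∈ a07_S n k (N + 1)

theorem a07_P_mul (L : Matrix (Fin (n + k)) (Fin (n + k)) ℂ) (U : Matrix (Fin n) (Fin n) ℂ)
    (g h : Rg (n + k) n) (a b : ℕ) (hg : a07_P L U g a) (hh : a07_P L U h b) :
    a07_P L U (g * h) (a + b) := by
  refine ⟨a07_mul a b g h hg.1 hh.1, ?_⟩
  have h1 : act L U (g * h) - g * h =
      (act L U g - g) * h + (act L U g - g) * (act L U h - h) + g * (act L U h - h) := by
    rw [map_mul]
    ring
  rw [h1]
  refine Submodule.add_mem _ (Submodule.add_mem _ ?_ ?_) ?_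
  · refine a07_mono ?_ _ (a07_mul (a + 1) b _ _ hg.2 hh.1)
    omega
  · refine a07_mono ?_ _ (a07_mul (a + 1) (b + 1) _ _ hg.2 hh.2)
    omega
  · exact a07_mono (by omega) _ (a07_mul a (b + 1) _ _ hg.1 hh.2)

theorem a07_P_one (L : Matrix (Fin (n + k)) (Fin (n + k)) ℂ) (U : Matrix (Fin n) (Fin n) ℂ) :
    a07_P L U 1 0 := by
  refine ⟨fun α _ => Nat.zero_le _, ?_⟩
  rw [map_one, sub_self]
  exact Submodule.zero_mem _

theorem a07_P_pow (L : Matrix (Fin (n + k)) (Fin (n + k)) ℂ) (U : Matrix (Fin n) (Fin n) ℂ)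
    (g : Rg (n + k) n) (a : ℕ) (hg : a07_P L U g a) (j : ℕ) : a07_P L U (g ^ j) (j * a) := by
  induction j with
  | zero =>
    rw [pow_zero, zero_mul]
    exact a07_P_one L U
  | succ j ih =>
    rw [pow_succ, add_mul, one_mul]
    exact a07_P_mul L U _ _ _ _ ih hg

theorem a07_P_prod (L : Matrix (Fin (n + k)) (Fin (n + k)) ℂ) (U : Matrix (Fin n) (Fin n) ℂ)
    {ι : Type*} (s : Finset ι) (g : ι → Rg (n + k) n) (a : ι → ℕ)
    (hg : ∀ i ∈ s, a07_P L U (g i) (a i)) : a07_P L U (∏ i ∈ s, g i) (∑ i ∈ s, a i) := by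
  classical
  induction s using Finset.induction_on with
  | empty =>
    rw [Finset.prod_empty, Finset.sum_empty]
    exact a07_P_one L U
  | insert i s hi ih =>
    rw [Finset.prod_insert hi, Finset.sum_insert hi]
    exact a07_P_mul L U _ _ _ _ (hg i (Finset.mem_insert_self i s))
      (ih fun j hj => hg j (Finset.mem_insert_of_mem hj))

theorem a07_P_smul (L : Matrix (Fin (n + k)) (Fin (n + k)) ℂ) (U : Matrix (Fin n) (Fin n) ℂ)
    (g : Rg (n + k) n) (a : ℕ) (hg : a07_P L U g a) (r : ℂ) : a07_P L U (r • g) a := by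
  refine ⟨Submodule.smul_mem _ r hg.1, ?_⟩
  rw [map_smul, ← smul_sub]
  exact Submodule.smul_mem _ r hg.2

theorem a07_P_X (L : Matrix (Fin (n + k)) (Fin (n + k)) ℂ) (U : Matrix (Fin n) (Fin n) ℂ)
    (hL : LU1 L) (hU : UU1 U) (p : Fin (n + k) × Fin n) :
    a07_P L U (X p) (a07_l (Finsupp.single p 1)) := by
  refine ⟨a07_X p, ?_⟩
  have h1 : act L U (X p) - X p = ∑ q : Fin (n + k) × Fin n,
      (if q = p then 0 else (L p.1 q.1 * U q.2 p.2) • (X q : Rg (n + k) n)) := by
    rw [A01_act_X, ← Finset.sum_product', Finset.univ_product_univ,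
      ← Finset.add_sum_erase Finset.univ _ (Finset.mem_univ p)]
    have h2 : C (L p.1 p.1 * U p.2 p.2) * (X (p.1, p.2) : Rg (n + k) n) = X p := by
      rw [hL.1, hU.1, one_mul, C_1, one_mul]
    rw [h2, add_sub_cancel_left, ← Finset.add_sum_erase Finset.univ
      (fun q : Fin (n + k) × Fin n => if q = p then (0 : Rg (n + k) n) else
        (L p.1 q.1 * U q.2 p.2) • X q) (Finset.mem_univ p), if_pos rfl, zero_add]
    refine Finset.sum_congr rfl fun q hq => ?_
    rw [if_neg (Finset.ne_of_mem_erase hq), smul_eq_C_mul]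
  rw [h1]
  refine Submodule.sum_mem _ fun q _ => ?_
  by_cases hqp : q = p
  · rw [if_pos hqp]
    exact Submodule.zero_mem _
  · rw [if_neg hqp]
    by_cases h2 : p.1 < q.1
    · rw [hL.2 _ _ h2, zero_mul, zero_smul]
      exact Submodule.zero_mem _
    by_cases h3 : p.2 < q.2
    · rw [hU.2 _ _ h3, mul_zero, zero_smul]
      exact Submodule.zero_mem _
    refine Submodule.smul_mem _ _ (a07_mono ?_ _ (a07_X q))
    rw [a07_l_single, a07_l_single]
    have h4 : q.1.1 ≤ p.1.1 := by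
      rw [not_lt] at h2
      exact h2
    have h5 : q.2.1 ≤ p.2.1 := by
      rw [not_lt] at h3
      exact h3
    have h6 : q.1.1 < p.1.1 ∨ q.2.1 < p.2.1 := by
      by_contra h7
      push Not at h7
      exact hqp (Prod.ext (Fin.ext (by omega)) (Fin.ext (by omega)))
    have h7 := p.1.2
    have h8 := p.2.2
    omega

theorem a07_l_eq (α : (Fin (n + k) × Fin n) →₀ ℕ) :
    a07_l α = ∑ p : Fin (n + k) × Fin n, α p * a07_l (Finsupp.single p 1) := by
  have h0 : a07_l (0 : (Fin (n + k) × Fin n) →₀ ℕ) = 0 := by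
    have h := a07_l_add (0 : (Fin (n + k) × Fin n) →₀ ℕ) 0
    rw [add_zero] at h
    omega
  have h1 : ∀ β : (Fin (n + k) × Fin n) →₀ ℕ,
      a07_l β = (⟨⟨fun β => a07_l β, h0⟩, a07_l_add⟩ : ((Fin (n + k) × Fin n) →₀ ℕ) →+ ℕ) β :=
    fun _ => rfl
  conv_lhs => rw [← Finsupp.univ_sum_single α]
  rw [h1, map_sum]
  refine Finset.sum_congr rfl fun p _ => ?_
  have h2 : Finsupp.single p (α p) = α p • Finsupp.single p 1 := by
    rw [Finsupp.smul_single, smul_eq_mul, mul_one]
  rw [h2, map_nsmul, smul_eq_mul]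
  rfl

theorem a07_P_mon (L : Matrix (Fin (n + k)) (Fin (n + k)) ℂ) (U : Matrix (Fin n) (Fin n) ℂ)
    (hL : LU1 L) (hU : UU1 U) (α : (Fin (n + k) × Fin n) →₀ ℕ) (r : ℂ) :
    a07_P L U (monomial α r) (a07_l α) := by
  have h1 : (monomial α r : Rg (n + k) n) = r • ∏ p : Fin (n + k) × Fin n, X p ^ α p := by
    rw [monomial_eq, smul_eq_C_mul]
    congr 1
    rw [Finsupp.prod_fintype _ _ (by intro i; simp)]
  rw [h1, a07_l_eq]
  exact a07_P_smul L U _ _ (a07_P_prod L U _ _ _ fun p _ =>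
    a07_P_pow L U _ _ (a07_P_X L U hL hU p) _) r

theorem a07_sum1 {m n : ℕ} (α : (Fin m × Fin n) →₀ ℕ) :
    ∑ i, (Finsupp.weight wt α : Wt m n).1 i = ∑ a, α a := by
  rw [Finsupp.weight_apply, Finsupp.sum_fintype _ _ (by intro a; simp)]
  have h1 : (∑ a : Fin m × Fin n, α a • (wt a : Wt m n)).1 = ∑ a : Fin m × Fin n, α a • (wt a : Wt m n).1 := by
    rw [Prod.fst_sum]
    rfl
  rw [h1]
  simp only [Finset.sum_apply, Pi.smul_apply, smul_eq_mul]
  rw [Finset.sum_comm]
  refine Finset.sum_congr rfl fun a _ => ?_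
  rw [← Finset.mul_sum]
  have h2 : ∑ i, (wt a : Wt m n).1 i = 1 := by
    simp [wt]
  rw [h2, mul_one]

theorem a07_sum2 {m n : ℕ} (α : (Fin m × Fin n) →₀ ℕ) :
    ∑ i, (Finsupp.weight wt α : Wt m n).2 i = ∑ a, α a := by
  rw [Finsupp.weight_apply, Finsupp.sum_fintype _ _ (by intro a; simp)]
  have h1 : (∑ a : Fin m × Fin n, α a • (wt a : Wt m n)).2 = ∑ a : Fin m × Fin n, α a • (wt a : Wt m n).2 := by
    rw [Prod.snd_sum]
    rfl
  rw [h1]
  simp only [Finset.sum_apply, Pi.smul_apply, smul_eq_mul]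
  rw [Finset.sum_comm]
  refine Finset.sum_congr rfl fun a _ => ?_
  rw [← Finset.mul_sum]
  have h2 : ∑ i, (wt a : Wt m n).2 i = 1 := by
    simp [wt]
  rw [h2, mul_one]

theorem a07_lev_le {m n : ℕ} (ω : Wt m n) (D : ℕ) (h1 : ∑ i, ω.1 i = D) (h2 : ∑ i, ω.2 i = D) :
    lev ω ≤ (m + n) * D := by
  unfold lev
  have h3 : ∑ i : Fin m, (m - 1 - i.1) * ω.1 i ≤ m * D := by
    rw [← h1, Finset.mul_sum]
    exact Finset.sum_le_sum fun i _ => Nat.mul_le_mul_right _ (by omega)
  have h4 : ∑ l : Fin n, (n - 1 - l.1) * ω.2 l ≤ n * D := by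
    rw [← h2, Finset.mul_sum]
    exact Finset.sum_le_sum fun i _ => Nat.mul_le_mul_right _ (by omega)
  rw [add_mul]
  exact add_le_add h3 h4

theorem a07_homog {m n : ℕ} (A : Matrix (Fin m) (Fin m) ℂ) (B : Matrix (Fin n) (Fin n) ℂ)
    (f : Rg m n) (D : ℕ) (hf : f.IsHomogeneous D) : (act A B f).IsHomogeneous D := by
  have h1 := hf.aeval (R := ℂ) (S := ℂ) (fun p : Fin m × Fin n => ∑ k, ∑ l, C (A p.1 k * B l p.2) * X (k, l))
    (n := 1) (by
      intro p
      refine IsHomogeneous.sum _ _ _ fun k _ => IsHomogeneous.sum _ _ _ fun l _ => ?_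
      have h2 := (isHomogeneous_C (Fin m × Fin n) (A p.1 k * B l p.2)).mul
        (isHomogeneous_X ℂ ((k, l) : Fin m × Fin n))
      rw [zero_add] at h2
      exact h2)
  rw [one_mul] at h1
  exact h1

theorem A07_raise (L : Matrix (Fin (n + k)) (Fin (n + k)) ℂ) (U : Matrix (Fin n) (Fin n) ℂ)
    (hL : LU1 L) (hU : UU1 U) (f : Rg (n + k) n) (N : ℕ)
    (hf : ∀ α, coeff α f ≠ 0 → N ≤ lev (Finsupp.weight wt α : Wt (n + k) n)) :
    ∀ α, coeff α (act L U f - f) ≠ 0 → N + 1 ≤ lev (Finsupp.weight wt α : Wt (n + k) n) := by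
  have h1 : a07_P L U f N := by
    rw [← f.support_sum_monomial_coeff]
    refine ⟨Submodule.sum_mem _ fun α hα => ?_, ?_⟩
    · exact a07_mono (hf α (by simpa using hα)) _ (a07_P_mon L U hL hU α _).1
    · rw [map_sum, ← Finset.sum_sub_distrib]
      refine Submodule.sum_mem _ fun α hα => ?_
      exact a07_mono (Nat.succ_le_succ (hf α (by simpa using hα))) _
        (a07_P_mon L U hL hU α _).2
  exact h1.2

theorem A07_exists (W : Submodule ℂ (Rg (n + k) n)) (hW : Inv W) (hne : W ≠ ⊥) :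
    ∃ lam : Fin n → ℕ, Antitone lam ∧ hw (k := k) lam ∈ W := by
  obtain ⟨f, hfW, hf0⟩ := Submodule.exists_mem_ne_zero_of_ne_bot hne
  obtain ⟨α0, hα0⟩ := MvPolynomial.ne_zero_iff.1 hf0
  set D := ∑ a, α0 a with hD
  -- weight vectors of degree `D`
  set P : ℕ → Prop := fun N => ∃ g ∈ W, g ≠ 0 ∧ ∃ ω : Wt (n + k) n,
    (∀ α, coeff α g ≠ 0 → (Finsupp.weight wt α : Wt (n + k) n) = ω) ∧ ∑ i, ω.1 i = D ∧ lev ω = N
    with hP
  have hcomp : ∀ (g : Rg (n + k) n) (ω : Wt (n + k) n) (β : (Fin (n + k) × Fin n) →₀ ℕ),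
      (Finsupp.weight wt β : Wt (n + k) n) = ω → coeff β g ≠ 0 → g ∈ W →
      weightedHomogeneousComponent wt ω g ∈ W ∧ weightedHomogeneousComponent wt ω g ≠ 0 ∧
      (∀ α, coeff α (weightedHomogeneousComponent wt ω g) ≠ 0 →
        (Finsupp.weight wt α : Wt (n + k) n) = ω) := by
    intro g ω β hβ hβ2 hg
    refine ⟨A02_comp_mem W hW g hg ω, ?_, ?_⟩
    · intro h0
      apply hβ2
      have h1 := coeff_weightedHomogeneousComponent (w := (wt : Fin (n + k) × Fin n → Wt (n + k) n))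
        ω g β
      rw [h0, coeff_zero, if_pos hβ] at h1
      exact h1.symm
    · intro α hα
      by_contra h1
      apply hα
      rw [coeff_weightedHomogeneousComponent, if_neg h1]
  have hne1 : ∃ N, P N := by
    obtain ⟨h1, h2, h3⟩ := hcomp f _ α0 rfl hα0 hfW
    exact ⟨_, _, h1, h2, _, h3, a07_sum1 α0, rfl⟩
  have hbd : ∀ N, P N → N ≤ (n + k + n) * D := by
    rintro N ⟨g, hg, hg0, ω, h1, h2, rfl⟩
    obtain ⟨β, hβ⟩ := MvPolynomial.ne_zero_iff.1 hg0
    refine a07_lev_le ω D h2 ?_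
    rw [← h2, ← h1 β hβ, a07_sum1, a07_sum2]
  obtain ⟨N, ⟨g, hg, hg0, ω, h1, h2, h3⟩, hmax⟩ : ∃ N, P N ∧ ∀ N', P N' → N' ≤ N := by
    classical
    obtain ⟨N0, hN0⟩ := hne1
    refine ⟨Nat.findGreatest P ((n + k + n) * D), Nat.findGreatest_spec (hbd N0 hN0) hN0, ?_⟩
    intro N' hN'
    exact Nat.le_findGreatest (hbd N' hN') hN'
  have hfix : ∀ (L : Matrix (Fin (n + k)) (Fin (n + k)) ℂ) (U : Matrix (Fin n) (Fin n) ℂ),
      LU1 L → UU1 U → act L U g = g := by
    intro L U hL hU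
    by_contra h4
    have h5 : act L U g - g ≠ 0 := sub_ne_zero.2 h4
    obtain ⟨β, hβ⟩ := MvPolynomial.ne_zero_iff.1 h5
    have h6 : act L U g - g ∈ W := W.sub_mem (hW L U (A05_unit_L L hL) (A05_unit_U U hU) g hg) hg
    obtain ⟨h7, h8, h9⟩ := hcomp _ _ β rfl hβ h6
    have h10 : N + 1 ≤ lev (Finsupp.weight wt β : Wt (n + k) n) := by
      refine A07_raise L U hL hU g N ?_ β hβ
      intro α hα
      rw [h1 α hα, h3]
    have h11 : g.IsHomogeneous D := by
      rw [MvPolynomial.IsHomogeneous, IsWeightedHomogeneous]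
      intro α hα
      rw [← h2, ← h1 α hα, a07_sum1, Finsupp.weight_apply, Finsupp.sum_fintype _ _ (by intro a; simp)]
      simp
    have h12 := (a07_homog L U g D h11).sub h11
    have h13 : ∑ a, β a = D := by
      have h14 := h12 hβ
      rw [Finsupp.weight_apply, Finsupp.sum_fintype _ _ (by intro a; simp)] at h14
      simpa using h14
    have h15 := hmax _ ⟨_, h7, h8, _, h9, (a07_sum1 β).trans h13, rfl⟩
    omega
  obtain ⟨h4, c, hc, h5⟩ := A06_fixed g ω.2 hfix (fun α hα => by rw [h1 α hα]) hg0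
  refine ⟨ω.2, h4, ?_⟩
  have h6 : hw (k := k) ω.2 = c⁻¹ • g := by
    rw [h5, smul_smul, inv_mul_cancel₀ hc, one_smul]
  rw [h6]
  exact W.smul_mem _ hg

end H95H
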