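import Pool.Agent.Lib.H95H.Defs

namespace H95H
open MvPolynomial

/-- `h` is a positive definite hermitian form -/
structure Herm {E : Type*} [AddCommGroup E] [Module ℂ E] (h : E → E → ℂ) : Prop where
  add : ∀ x y z, h (x + y) z = h x z + h y z
  smul : ∀ (c : ℂ) x y, h (c • x) y = c * h x y
  symm : ∀ x y, h y x = starRingEnd ℂ (h x y)
  pos : ∀ x, x ≠ 0 → 0 < (h x x).re

/-- the Fischer inner product: monomials are orthogonal, `X^α` has square norm `α!` -/
noncomputable def fis {m n : ℕ} (f g : Rg m n) : ℂ :=
  ∑ α ∈ f.support, (α.prod fun _ e => (e.factorial : ℂ)) * coeff α f * starRingEnd ℂ (coeff α g)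

/-!
# Chunk A08: the Fischer inner product

* `A08_fis_sum`: the sum may be taken over any finite set containing the support of `f`
  (or the support of `g`); this gives additivity and symmetry (take the union of supports; the
  factorials are real).
* positivity: `(fis f f).re = ∑ α! |f_α|²`.
* `A08_X`: with `β = α - e_a`: `∑_α α! f_{α - e_a} conj g_α = ∑_β (β + e_a)! f_β conj g_{β+e_a}` and
  `coeff β (pderiv a g) = (β a + 1) * coeff (β + e_a) g`, `(β + e_a)! = (β a + 1) β!`. By additivity
  it suffices to check it for `f = monomial β c` and `g = monomial γ c'`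
  (`MvPolynomial.induction_on''` or linearity), where `X a * monomial β c = monomial (β + e_a) c` and
  `pderiv_monomial`.
* `A08_wt`: different weights have disjoint supports.
-/

theorem A08_fis_sum {m n : ℕ} (f g : Rg m n) (s : Finset (Fin m × Fin n →₀ ℕ)) (hs : f.support ⊆ s) :
    fis f g = ∑ α ∈ s, (α.prod fun _ e => (e.factorial : ℂ)) * coeff α f * starRingEnd ℂ (coeff α g) := by
  unfold fis
  refine Finset.sum_subset hs fun α _ h => ?_
  rw [notMem_support_iff.1 h, mul_zero, zero_mul]

theorem A08_fac_real {m n : ℕ} (α : Fin m × Fin n →₀ ℕ) :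
    (α.prod fun _ e => (e.factorial : ℂ)) = ((α.prod fun _ e => (e.factorial : ℝ) : ℝ) : ℂ) := by
  rw [Finsupp.prod, Finsupp.prod, Complex.ofReal_prod]
  exact Finset.prod_congr rfl fun i _ => (Complex.ofReal_natCast _).symm

theorem A08_herm {m n : ℕ} : Herm (fis : Rg m n → Rg m n → ℂ) := by
  classical
  refine ⟨fun x y z => ?_, fun c x y => ?_, fun x y => ?_, fun x hx => ?_⟩
  · rw [A08_fis_sum (x + y) z (x.support ∪ y.support) support_add,
      A08_fis_sum x z (x.support ∪ y.support) Finset.subset_union_left,
      A08_fis_sum y z (x.support ∪ y.support) Finset.subset_union_right, ← Finset.sum_add_distrib]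
    refine Finset.sum_congr rfl fun α _ => ?_
    rw [coeff_add]
    ring
  · rw [A08_fis_sum (c • x) y x.support support_smul, A08_fis_sum x y x.support (Finset.Subset.refl _), Finset.mul_sum]
    refine Finset.sum_congr rfl fun α _ => ?_
    rw [coeff_smul, smul_eq_mul]
    ring
  · rw [A08_fis_sum y x (x.support ∪ y.support) Finset.subset_union_right,
      A08_fis_sum x y (x.support ∪ y.support) Finset.subset_union_left, map_sum]
    refine Finset.sum_congr rfl fun α _ => ?_
    rw [map_mul, map_mul, Complex.conj_conj, A08_fac_real, Complex.conj_ofReal]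
    ring
  · have e : (fis x x).re = ∑ α ∈ x.support, (α.prod fun _ e => (e.factorial : ℝ)) * Complex.normSq (coeff α x) := by
      unfold fis
      rw [Complex.re_sum]
      refine Finset.sum_congr rfl fun α _ => ?_
      rw [A08_fac_real, mul_assoc, Complex.mul_conj, ← Complex.ofReal_mul, Complex.ofReal_re]
    rw [e]
    refine Finset.sum_pos (fun α hα => mul_pos ?_ ?_) ?_
    · rw [Finsupp.prod]
      exact Finset.prod_pos fun i _ => Nat.cast_pos.2 (Nat.factorial_pos _)
    · exact Complex.normSq_pos.2 (mem_support_iff.1 hα)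
    · exact support_nonempty.2 hx

end H95H
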