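import Pool.Agent.Lib.H95H.A08a

namespace H95H

open MvPolynomial

/-!
# Chunk A08: the Fischer inner product

* `A08_fis_sum`: the sum may be taken over any finite set containing the support of `f`
  (or the support of `g`); this gives additivity and symmetry (take the union of supports; the
  factorials are real).
* positivity: `(fis f f).re = ∑ α! |f_α|²`.
* `A08_X`: with `β = α - e_a`: `∑_α α! f_{α - e_a} conj g_α = ∑_β (β + e_a)! f_β conj g_{β+e_a}` and
  `coeff β (pderiv a g) = (β a + 1) * coeff (β + e_a) g`, `(β + e_a)! = (β a + 1) β!`. By additivity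
  it suffices to check it for `f = monomial β c` and `g = monomial γ c'`
  (`MvPolynomial.induction_on''` or linearity), where `X a * monomial β c = monomial (β + e_a) c` and
  `pderiv_monomial`.
* `A08_wt`: different weights have disjoint supports.
-/

theorem A08_fac_add {m n : ℕ} (a : Fin m × Fin n) (β : Fin m × Fin n →₀ ℕ) :
    ((Finsupp.single a 1 + β).prod fun _ e => (e.factorial : ℂ)) =
      ((β a : ℂ) + 1) * β.prod fun _ e => (e.factorial : ℂ) := by
  have key : ∀ γ : Fin m × Fin n →₀ ℕ, (γ.prod fun _ e => (e.factorial : ℂ)) =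
      ((γ a).factorial : ℂ) * ∏ i ∈ Finset.univ.erase a, ((γ i).factorial : ℂ) := by
    intro γ
    rw [Finsupp.prod_fintype _ _ (fun i => by simp)]
    exact (Finset.mul_prod_erase Finset.univ (fun i => ((γ i).factorial : ℂ)) (Finset.mem_univ a)).symm
  rw [key, key, ← mul_assoc]
  congr 1
  · rw [Finsupp.add_apply, Finsupp.single_eq_same, add_comm 1, Nat.factorial_succ]
    push_cast
    ring
  · refine Finset.prod_congr rfl fun i hi => ?_
    rw [Finsupp.add_apply, Finsupp.single_eq_of_ne (Finset.ne_of_mem_erase hi), zero_add]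

theorem A08_X {m n : ℕ} (a : Fin m × Fin n) (f g : Rg m n) :
    fis (X a * f) g = fis f (pderiv a g) := by
  classical
  have hs : (X a * f).support ⊆ f.support.map (addLeftEmbedding (Finsupp.single a 1)) := by
    rw [support_X_mul]
  rw [A08_fis_sum _ _ _ hs, Finset.sum_map]
  unfold fis
  refine Finset.sum_congr rfl fun β _ => ?_
  rw [addLeftEmbedding_apply, coeff_X_mul, coeff_pderiv, map_mul, A08_fac_add, add_comm β]
  have e : starRingEnd ℂ ((β a : ℂ) + 1) = (β a : ℂ) + 1 := by
    rw [map_add, map_natCast, map_one]
  rw [e]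
  ring

theorem A08_wt {m n : ℕ} (f g : Rg m n) (ω ω' : Wt m n) (hf : IsWeightedHomogeneous wt f ω)
    (hg : IsWeightedHomogeneous wt g ω') (h : ω ≠ ω') : fis f g = 0 := by
  unfold fis
  refine Finset.sum_eq_zero fun α hα => ?_
  have h1 : coeff α g = 0 := by
    by_contra hne
    exact h ((hf (mem_support_iff.1 hα)).symm.trans (hg hne))
  rw [h1, map_zero, mul_zero]

/-- `fis f g` only depends on the component of `f` in the weight of `g`. -/
theorem A08_comp {m n : ℕ} (f g : Rg m n) (ω : Wt m n) (hg : IsWeightedHomogeneous wt g ω) :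
    fis f g = fis (weightedHomogeneousComponent wt ω f) g := by
  classical
  rw [A08_fis_sum f g (f.support ∪ (weightedHomogeneousComponent wt ω f).support) Finset.subset_union_left,
    A08_fis_sum _ g (f.support ∪ (weightedHomogeneousComponent wt ω f).support) Finset.subset_union_right]
  refine Finset.sum_congr rfl fun α _ => ?_
  rw [coeff_weightedHomogeneousComponent]
  by_cases h : Finsupp.weight wt α = ω
  · rw [if_pos h]
  · have h1 : coeff α g = 0 := by
      by_contra hne
      exact h (hg hne)
    rw [h1, map_zero, mul_zero, mul_zero]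

end H95H
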