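import Pool.Agent.Lib.H95H.A01
import Pool.Agent.Lib.H95H.A08b

namespace H95H
open MvPolynomial

variable {m n : ℕ}

/-!
# Chunk A09: the adjoint of a substitution

`fis (act A B f) g = fis f (act Aᴴ Bᴴ g)`. Induction on `f` for all `g`
(`MvPolynomial.induction_on f`):
* `f = C c`: `act A B (C c) = C c`, and `fis (C c) g = c * conj (coeff 0 g)`; the constant term is
  not changed by a substitution: `coeff 0 (act A' B' g) = coeff 0 g`
  (`constantCoeff`, compare algebra maps on variables).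
* sums: additivity.
* `f = f' * X p`: `act A B (f' * X p) = ∑_{q} A p.1 q.1 * B q.2 p.2 • (X q * act A B f')`, so
  `fis (act A B (f' * X p)) g = ∑_q A p.1 q.1 * B q.2 p.2 * fis (act A B f') (pderiv q g)` (`A08_X`)
  `= ∑_q A p.1 q.1 * B q.2 p.2 * fis f' (act Aᴴ Bᴴ (pderiv q g))` by induction; on the other side
  `fis (f' * X p) (act Aᴴ Bᴴ g) = fis f' (pderiv p (act Aᴴ Bᴴ g))` and by `A01_act_pderiv`
  `pderiv p (act Aᴴ Bᴴ g) = ∑_q C (Aᴴ q.1 p.1 * Bᴴ p.2 q.2) * act Aᴴ Bᴴ (pderiv q g)`, where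
  `Aᴴ q.1 p.1 = conj (A p.1 q.1)`, `Bᴴ p.2 q.2 = conj (B q.2 p.2)`; the form is conjugate linear in
  the second argument.
-/

theorem A09_zero (g : Rg m n) : fis 0 g = 0 := by
  have h := A08_herm.smul 0 (0 : Rg m n) g
  rwa [zero_smul, zero_mul] at h

theorem A09_suml {ι : Type*} (s : Finset ι) (c : ι → ℂ) (F : ι → Rg m n) (g : Rg m n) :
    fis (∑ i ∈ s, C (c i) * F i) g = ∑ i ∈ s, c i * fis (F i) g := by
  classical
  induction s using Finset.induction_on with
  | empty => rw [Finset.sum_empty, Finset.sum_empty, A09_zero]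
  | insert a s ha ih =>
    rw [Finset.sum_insert ha, Finset.sum_insert ha, A08_herm.add, ih, C_mul', A08_herm.smul]

theorem A09_sumr {ι : Type*} (s : Finset ι) (c : ι → ℂ) (G : ι → Rg m n) (f : Rg m n) :
    fis f (∑ i ∈ s, C (c i) * G i) = ∑ i ∈ s, starRingEnd ℂ (c i) * fis f (G i) := by
  rw [A08_herm.symm, A09_suml, map_sum]
  refine Finset.sum_congr rfl fun i _ => ?_
  rw [map_mul, ← A08_herm.symm]

theorem A09_C (c : ℂ) (g : Rg m n) : fis (C c) g = c * starRingEnd ℂ (coeff 0 g) := by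
  classical
  have hs : (C c : Rg m n).support ⊆ {0} := support_monomial_subset
  rw [A08_fis_sum _ _ _ hs, Finset.sum_singleton, Finsupp.prod_zero_index, one_mul, coeff_zero_C]

theorem A09_const (A : Matrix (Fin m) (Fin m) ℂ) (B : Matrix (Fin n) (Fin n) ℂ) (g : Rg m n) :
    coeff 0 (act A B g) = coeff 0 g := by
  have h := A01_eval_act A B 0 g
  rw [Matrix.mul_zero, Matrix.zero_mul] at h
  have e : ∀ f : Rg m n, eval (fun p : Fin m × Fin n => (0 : Matrix (Fin m) (Fin n) ℂ) p.1 p.2) f = coeff 0 f := by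
    intro f
    have e1 : (fun p : Fin m × Fin n => (0 : Matrix (Fin m) (Fin n) ℂ) p.1 p.2) = 0 := rfl
    rw [e1, eval_zero]
    rfl
  rw [e, e] at h
  exact h

theorem A09_adj (A : Matrix (Fin m) (Fin m) ℂ) (B : Matrix (Fin n) (Fin n) ℂ) (f g : Rg m n) :
    fis (act A B f) g = fis f (act A.conjTranspose B.conjTranspose g) := by
  revert g
  induction f using MvPolynomial.induction_on with
  | C c =>
    intro g
    rw [A01_act_C, A09_C, A09_C, A09_const]
  | add f f' hf hf' =>
    intro g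
    rw [map_add, A08_herm.add, A08_herm.add, hf, hf']
  | mul_X f p hf =>
    intro g
    have e1 : act A B (f * X p) = ∑ b : Fin m × Fin n, C (A p.1 b.1 * B b.2 p.2) * (X b * act A B f) := by
      rw [map_mul, A01_act_X, Fintype.sum_prod_type, Finset.mul_sum]
      refine Finset.sum_congr rfl fun k _ => ?_
      rw [Finset.mul_sum]
      refine Finset.sum_congr rfl fun l _ => ?_
      ring
    rw [e1, A09_suml, mul_comm f (X p), A08_X, A01_act_pderiv, A09_sumr]
    refine Finset.sum_congr rfl fun b _ => ?_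
    rw [A08_X, hf, map_mul, Matrix.conjTranspose_apply, Matrix.conjTranspose_apply]
    simp

end H95H
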