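import Pool.Agent.Lib.H95H.A08a

namespace H95H
open MvPolynomial

/-!
# Chunk A10: orthogonal projections and finite dimensionality

* `A10_proj`: for a finite-dimensional subspace `W`. For `x : E` there is a unique `p ∈ W` with
  `h w (x - p) = 0` for all `w ∈ W`. Existence: the map `W → (W → ℂ dual)`,
  `p ↦ (w ↦ h w p)`, is additive, conjugate linear and injective (positivity), hence surjective by
  dimension; or by Gram-Schmidt; or by induction on the dimension of `W`; or through
  `InnerProductSpace.Core` on `E` and Mathlib orthogonal projections. Uniqueness gives linearity.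
* `A10_wt_fin`: the weight `ω` subspace is spanned by the monomials `X^α` with
  `Finsupp.weight wt α = ω`, and for these `α (i, l) ≤ ω.1 i`, so they are finitely many.
* `A10_V_fin`: all elements of `V lam` are homogeneous of the same total degree as `hw lam`
  (`act A B` preserves total degree; `hw lam` is a product of powers of determinants, which are
  homogeneous, for every `lam`), and the homogeneous polynomials of given degree form a
  finite-dimensional space (spanned by finitely many monomials).
-/

theorem a10a_add {E : Type*} [AddCommGroup E] [Module ℂ E] (h : E → E → ℂ) (hh : Herm h)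
    (x y z : E) : h x (y + z) = h x y + h x z := by
  rw [hh.symm (y + z) x, hh.add, map_add, ← hh.symm, ← hh.symm]

theorem a10a_smul {E : Type*} [AddCommGroup E] [Module ℂ E] (h : E → E → ℂ) (hh : Herm h)
    (c : ℂ) (x y : E) : h x (c • y) = starRingEnd ℂ c * h x y := by
  rw [hh.symm (c • y) x, hh.smul, map_mul, ← hh.symm]

theorem a10a_zero {E : Type*} [AddCommGroup E] [Module ℂ E] (h : E → E → ℂ) (hh : Herm h)
    (x : E) : h x 0 = 0 := by
  have := a10a_smul h hh 0 x 0
  simpa using this

theorem A10_proj {E : Type*} [AddCommGroup E] [Module ℂ E] (h : E → E → ℂ) (hh : Herm h)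
    (W : Submodule ℂ E) [Module.Finite ℂ W] :
    ∃ p : E →ₗ[ℂ] E, (∀ x, p x ∈ W) ∧ ∀ x, ∀ w ∈ W, h w (x - p x) = 0 := by
  classical
  let b := Module.finBasis ℂ W
  let L : E →ₗ[ℂ] (Fin (Module.finrank ℂ W) → ℂ) :=
    { toFun := fun x i => h x (b i : E)
      map_add' := by
        intro x y
        funext i
        simp [hh.add]
      map_smul' := by
        intro c x
        funext i
        simp [hh.smul] }
  have key : ∀ x, L x = 0 → ∀ w ∈ W, h x w = 0 := by
    intro x hx w hw
    have h1 : ∀ w : W, h x (w : E) = 0 := by
      intro w
      have hw := b.sum_repr w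
      rw [← hw]
      have h2 : ∀ s : Finset (Fin (Module.finrank ℂ W)),
          h x ((∑ i ∈ s, (b.repr w i) • b i : W) : E) = 0 := by
        intro s
        induction s using Finset.induction_on with
        | empty => simpa using a10a_zero h hh x
        | insert a s ha ih =>
          rw [Finset.sum_insert ha, Submodule.coe_add, a10a_add h hh, ih, Submodule.coe_smul,
            a10a_smul h hh]
          have : h x (b a : E) = 0 := congrFun hx a
          rw [this]
          simp
      exact h2 Finset.univ
    exact h1 ⟨w, hw⟩
  let T : W →ₗ[ℂ] (Fin (Module.finrank ℂ W) → ℂ) := L ∘ₗ W.subtype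
  have hinj : Function.Injective T := by
    rw [← LinearMap.ker_eq_bot, LinearMap.ker_eq_bot']
    intro m hm
    by_contra hne
    have h3 : h (m : E) (m : E) = 0 := key m hm m m.2
    have h4 := hh.pos (m : E) (by simpa using hne)
    rw [h3] at h4
    simp at h4
  have hfr : Module.finrank ℂ W = Module.finrank ℂ (Fin (Module.finrank ℂ W) → ℂ) := by
    simp
  let e := LinearEquiv.ofInjectiveOfFinrankEq T hinj hfr
  refine ⟨W.subtype ∘ₗ e.symm.toLinearMap ∘ₗ L, fun x => ?_, fun x w hw => ?_⟩
  · simp
  · have h5 : L (x - (W.subtype ∘ₗ e.symm.toLinearMap ∘ₗ L) x) = 0 := by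
      rw [map_sub, sub_eq_zero]
      have h6 : T (e.symm (L x)) = L x := by
        have h7 : ∀ y, e y = T y := fun y => by
          rfl
        rw [← h7]
        exact e.apply_symm_apply (L x)
      exact h6.symm
    rw [hh.symm, key _ h5 w hw]
    simp

end H95H
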