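import Pool.Agent.Lib.H95H.Defs

namespace H95H

open MvPolynomial

/-!
# Chunk A10: orthogonal projections and finite dimensionality

* `A10_proj`: for a finite-dimensional subspace `W`. For `x : E` there is a unique `p ∈ W` with
  `h w (x - p) = 0` for all `w ∈ W`. Existence: the map `W → (W → ℂ dual)`,
  `p ↦ (w ↦ h w p)`, is additive, conjugate linear and injective (positivity), hence surjective by
  dimension; or by Gram-Schmidt; or by induction on the dimension of `W`; or through
  `InnerProductSpace.Core` on `E` and Mathlib orthogonal projections. Uniqueness gives linearity.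
* `A10_wt_fin`: the weight `ω` subspace is spanned by the monomials `X^α` with
  `Finsupp.weight wt α = ω`, and for these `α (i, l) ≤ ω.1 i`, so they are finitely many.
* `A10_V_fin`: all elements of `V lam` are homogeneous of the same total degree as `hw lam`
  (`act A B` preserves total degree; `hw lam` is a product of powers of determinants, which are
  homogeneous, for every `lam`), and the homogeneous polynomials of given degree form a
  finite-dimensional space (spanned by finitely many monomials).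
-/

/-- all monomials have total degree at most `d` -/
def a10b_P {m n : ℕ} (d : ℕ) (f : Rg m n) : Prop :=
  ∀ α, coeff α f ≠ 0 → ∑ p : Fin m × Fin n, α p ≤ d

theorem a10b_add {m n : ℕ} {d : ℕ} {f g : Rg m n} (hf : a10b_P d f)
    (hg : a10b_P d g) : a10b_P d (f + g) := by
  intro α h
  by_cases h1 : coeff α f = 0
  · refine hg α fun h2 => h ?_
    rw [coeff_add, h1, h2, add_zero]
  · exact hf α h1

theorem a10b_sum {m n : ℕ} {d : ℕ} {ι : Type*} (s : Finset ι) (f : ι → Rg m n)
    (hf : ∀ i ∈ s, a10b_P d (f i)) : a10b_P d (∑ i ∈ s, f i) := by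
  classical
  induction s using Finset.induction_on with
  | empty => intro α h; simp at h
  | insert a s ha ih =>
    rw [Finset.sum_insert ha]
    exact a10b_add (hf a (Finset.mem_insert_self a s))
      (ih fun i hi => hf i (Finset.mem_insert_of_mem hi))

theorem a10b_C {m n : ℕ} (c : ℂ) : a10b_P (m := m) (n := n) 0 (C c) := by
  intro α h
  rw [coeff_C] at h
  split_ifs at h with h0
  · subst h0
    simp
  · exact absurd rfl h

theorem a10b_mul {m n : ℕ} {d e : ℕ} {f g : Rg m n} (hf : a10b_P d f)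
    (hg : a10b_P e g) : a10b_P (d + e) (f * g) := by
  intro α h
  classical
  rw [coeff_mul] at h
  obtain ⟨x, hx, hx'⟩ := Finset.exists_ne_zero_of_sum_ne_zero h
  rw [Finset.HasAntidiagonal.mem_antidiagonal] at hx
  have h1 := hf x.1 (left_ne_zero_of_mul hx')
  have h2 := hg x.2 (right_ne_zero_of_mul hx')
  rw [← hx]
  simp only [Finsupp.add_apply]
  rw [Finset.sum_add_distrib]
  exact add_le_add h1 h2

theorem a10b_Cmul {m n : ℕ} {d : ℕ} (c : ℂ) {f : Rg m n} (hf : a10b_P d f) :
    a10b_P d (C c * f) := by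
  have := a10b_mul (a10b_C c) hf
  rwa [zero_add] at this

theorem a10b_prod {m n : ℕ} {ι : Type*} (s : Finset ι) (f : ι → Rg m n) (d : ι → ℕ)
    (hf : ∀ i ∈ s, a10b_P (d i) (f i)) : a10b_P (∑ i ∈ s, d i) (∏ i ∈ s, f i) := by
  classical
  induction s using Finset.induction_on with
  | empty =>
    rw [Finset.sum_empty, Finset.prod_empty]
    exact a10b_C 1
  | insert a s ha ih =>
    rw [Finset.sum_insert ha, Finset.prod_insert ha]
    exact a10b_mul (hf a (Finset.mem_insert_self a s))
      (ih fun i hi => hf i (Finset.mem_insert_of_mem hi))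

theorem a10b_pow {m n : ℕ} {d : ℕ} {f : Rg m n} (hf : a10b_P d f) (e : ℕ) :
    a10b_P (e * d) (f ^ e) := by
  have := a10b_prod (Finset.range e) (fun _ => f) (fun _ => d) (fun _ _ => hf)
  simpa using this

theorem a10b_X {m n : ℕ} (p : Fin m × Fin n) : a10b_P 1 (X p : Rg m n) := by
  intro α h
  classical
  rw [coeff_X] at h
  split_ifs at h with h0
  · subst h0
    simp [Finsupp.single_apply]
  · exact absurd rfl h

theorem a10b_actX {m n : ℕ} (A : Matrix (Fin m) (Fin m) ℂ) (B : Matrix (Fin n) (Fin n) ℂ)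
    (p : Fin m × Fin n) : a10b_P 1 (act A B (X p)) := by
  unfold act
  rw [aeval_X]
  exact a10b_sum _ _ fun k _ => a10b_sum _ _ fun l _ => a10b_Cmul _ (a10b_X _)

theorem a10b_det {m n s : ℕ} (M : Matrix (Fin s) (Fin s) (Rg m n)) (h : ∀ i j, a10b_P 1 (M i j)) :
    a10b_P s M.det := by
  rw [Matrix.det_apply]
  refine a10b_sum _ _ fun σ _ => ?_
  rw [Units.smul_def, zsmul_eq_mul]
  have h5 : ((((Equiv.Perm.sign σ : ℤˣ) : ℤ) : Rg m n)) =
      C (((Equiv.Perm.sign σ : ℤˣ) : ℤ) : ℂ) := by
    simp
  rw [h5]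
  refine a10b_Cmul _ ?_
  have h6 := a10b_prod (Finset.univ : Finset (Fin s)) (fun i => M (σ i) i) (fun _ => 1)
    (fun i _ => h _ _)
  simpa using h6

theorem a10b_fin {m n : ℕ} (W : Submodule ℂ (Rg m n)) (N : ℕ) (h : ∀ f ∈ W, a10b_P N f) :
    Module.Finite ℂ ↥W := by
  classical
  let b : (Fin m × Fin n) →₀ ℕ := Finsupp.equivFunOnFinite.symm fun _ => N
  let S : Finset (Rg m n) := (Finset.Iic b).image fun α => monomial α (1 : ℂ)
  have hS : FiniteDimensional ℂ (Submodule.span ℂ (S : Set (Rg m n))) :=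
    FiniteDimensional.span_finset ℂ S
  have hle : W ≤ Submodule.span ℂ (S : Set (Rg m n)) := by
    intro f hf
    rw [← f.support_sum_monomial_coeff]
    refine Submodule.sum_mem _ fun α hα => ?_
    have h1 : monomial α (coeff α f) = coeff α f • (monomial α (1 : ℂ) : Rg m n) := by
      rw [smul_monomial, smul_eq_mul, mul_one]
    rw [h1]
    refine Submodule.smul_mem _ _ (Submodule.subset_span ?_)
    rw [Finset.mem_coe, Finset.mem_image]
    refine ⟨α, ?_, rfl⟩
    rw [Finset.mem_Iic]
    intro p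
    have h2 := h f hf α (mem_support_iff.1 hα)
    have h3 : α p ≤ ∑ p : Fin m × Fin n, α p :=
      Finset.single_le_sum (f := fun p => α p) (fun _ _ => Nat.zero_le _) (Finset.mem_univ p)
    exact h3.trans h2
  exact Submodule.finiteDimensional_of_le hle

theorem a10b_tot {m n : ℕ} (α : (Fin m × Fin n) →₀ ℕ) :
    ∑ i, (Finsupp.weight wt α : Wt m n).1 i = ∑ p : Fin m × Fin n, α p := by
  rw [Finsupp.weight_apply, Finsupp.sum_fintype _ _ (by intro a; simp)]
  have h1 : (∑ a : Fin m × Fin n, α a • (wt a : Wt m n)).1 =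
      ∑ a : Fin m × Fin n, α a • (wt a : Wt m n).1 := by
    rw [Prod.fst_sum]
    rfl
  rw [h1]
  simp only [Finset.sum_apply, Pi.smul_apply, smul_eq_mul]
  rw [Finset.sum_comm]
  refine Finset.sum_congr rfl fun a _ => ?_
  rw [← Finset.mul_sum]
  simp [wt]

theorem A10_wt_fin {m n : ℕ} (ω : Wt m n) :
    Module.Finite ℂ ↥(weightedHomogeneousSubmodule ℂ (wt : Fin m × Fin n → Wt m n) ω) := by
  refine a10b_fin _ (∑ i, ω.1 i) fun f hf α hα => ?_
  rw [mem_weightedHomogeneousSubmodule] at hf
  rw [← a10b_tot, hf hα]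

theorem A10_V_fin {n k : ℕ} (lam : Fin n → ℕ) : Module.Finite ℂ ↥(V (k := k) lam) := by
  refine a10b_fin _ (∑ r : Fin n, (lam r - nxt lam r) * (r.1 + 1)) fun f hf => ?_
  unfold V at hf
  refine Submodule.span_induction (p := fun f _ =>
    a10b_P (∑ r : Fin n, (lam r - nxt lam r) * (r.1 + 1)) f) ?_ ?_ ?_ ?_ hf
  · rintro x ⟨A, B, -, -, rfl⟩
    unfold hw
    rw [map_prod]
    refine a10b_prod _ _ _ fun r _ => ?_
    rw [map_pow]
    refine a10b_pow ?_ _
    unfold lead
    rw [AlgHom.map_det]
    refine a10b_det _ fun i j => ?_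
    exact a10b_actX A B _
  · intro β hβ
    simp at hβ
  · intro x y _ _ hx hy
    exact a10b_add hx hy
  · intro c x _ hx
    rw [smul_eq_C_mul]
    exact a10b_Cmul c hx

end H95H
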