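import Pool.Agent.Lib.H95H.A02b
import Pool.Agent.Lib.H95H.A05
import Pool.Agent.Lib.H95H.A06
import Pool.Agent.Lib.H95H.A09
import Pool.Agent.Lib.H95H.A10a
import Pool.Agent.Lib.H95H.A10b

namespace H95H
open MvPolynomial

variable {n k : ℕ}

/-!
# Chunk A11: an invariant subspace contains `V lam` or is orthogonal to it

Let `ω = (ext k lam, lam)` be the weight of `hw lam`, `W' = W ⊓ (weight ω polynomials)`, which is
finite-dimensional (`A10_wt_fin`), and let `a ∈ W'` be the orthogonal projection of `hw lam`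
(`A10_proj` for `fis`): `fis w (hw lam - a) = 0` for all `w ∈ W'`.
* Then `fis g (hw lam - a) = 0` for all `g ∈ W`: by `A08_comp`, as `hw lam - a` has weight `ω` and the
  component of `g` of weight `ω` is in `W'` (`A02_comp_mem`).
* For `L` lower and `U` upper unitriangular `act L U a = a`: `act L U (hw lam) = hw lam`
  (`A05_hw_act`), so `a - act L U a = (a - hw lam) - act L U (a - hw lam)`; it is in `W`
  (`A05_unit_L`, `A05_unit_U`), and it is orthogonal to `W`: for `g ∈ W`,
  `fis g (act L U h) = fis (act Lᴴ Uᴴ g) h` (from `A09_adj` and symmetry; `Lᴴᴴ = L`) and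
  `act Lᴴ Uᴴ g ∈ W` (units). So it is orthogonal to itself, hence `0`.
* If `a = 0` then `hw lam` is orthogonal to `W`, and for `f ∈ W`,
  `fis f (act A B (hw lam)) = fis (act Aᴴ Bᴴ f) (hw lam) = 0`; by conjugate linearity
  `fis f g = 0` for `g ∈ V lam` (`Submodule.span_induction`).
* If `a ≠ 0`, `A06_fixed` with `u = lam` gives `a = c • hw lam` with `c ≠ 0`, so `hw lam ∈ W` and
  `V lam ≤ W` by invariance.
-/

theorem a11_add (f x y : Rg (n + k) n) : fis f (x + y) = fis f x + fis f y := by
  have hh := A08_herm (m := n + k) (n := n)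
  rw [hh.symm (x + y) f, hh.add, map_add, ← hh.symm, ← hh.symm]

theorem a11_smul (c : ℂ) (f x : Rg (n + k) n) : fis f (c • x) = starRingEnd ℂ c * fis f x := by
  have hh := A08_herm (m := n + k) (n := n)
  rw [hh.symm (c • x) f, hh.smul, map_mul, ← hh.symm]

theorem a11_zero (f : Rg (n + k) n) : fis f 0 = 0 := by
  have h := a11_smul (0 : ℂ) f 0
  rw [zero_smul, map_zero, zero_mul] at h
  exact h

theorem a11_sub (f x y : Rg (n + k) n) : fis f (x - y) = fis f x - fis f y := by
  have h := a11_add f (x - y) y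
  rw [sub_add_cancel] at h
  rw [h, add_sub_cancel_right]

theorem a11_unit {N : ℕ} (A : Matrix (Fin N) (Fin N) ℂ) (h : IsUnit A) :
    IsUnit A.conjTranspose := by
  rw [← Matrix.star_eq_conjTranspose]
  exact h.star

theorem a11_adj (A : Matrix (Fin (n + k)) (Fin (n + k)) ℂ) (B : Matrix (Fin n) (Fin n) ℂ)
    (f g : Rg (n + k) n) :
    fis f (act A B g) = fis (act A.conjTranspose B.conjTranspose f) g := by
  rw [A09_adj, Matrix.conjTranspose_conjTranspose, Matrix.conjTranspose_conjTranspose]

theorem A11_dich (W : Submodule ℂ (Rg (n + k) n)) (hW : Inv W) (lam : Fin n → ℕ)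
    (hlam : Antitone lam) :
    V (k := k) lam ≤ W ∨ ∀ f ∈ W, ∀ g ∈ V (k := k) lam, fis f g = 0 := by
  have hh := A08_herm (m := n + k) (n := n)
  have hω := A05_hw_wt (k := k) lam hlam
  obtain ⟨ω, hωe⟩ : ∃ ω : Wt (n + k) n, ω = ((ext k lam, lam) : Wt (n + k) n) := ⟨_, rfl⟩
  rw [← hωe] at hω
  haveI := A10_wt_fin (m := n + k) (n := n) ω
  haveI : Module.Finite ℂ ↥(W ⊓ weightedHomogeneousSubmodule ℂ (wt (m := n + k) (n := n)) ω) :=
    Submodule.finiteDimensional_inf_right _ _
  obtain ⟨p, hp1, hp2⟩ := A10_proj fis hh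
    (W ⊓ weightedHomogeneousSubmodule ℂ (wt (m := n + k) (n := n)) ω)
  obtain ⟨a, ha⟩ : ∃ a, a = p (hw lam) := ⟨_, rfl⟩
  have haW : a ∈ W := by
    rw [ha]
    exact (hp1 _).1
  have haM : a ∈ weightedHomogeneousSubmodule ℂ (wt (m := n + k) (n := n)) ω := by
    rw [ha]
    exact (hp1 _).2
  have hort : ∀ g ∈ W, fis g (hw lam - a) = 0 := by
    intro g hg
    have h1 : IsWeightedHomogeneous (wt (m := n + k) (n := n)) (hw lam - a) ω := by
      rw [← mem_weightedHomogeneousSubmodule]
      apply sub_mem _ haM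
      rw [mem_weightedHomogeneousSubmodule]
      exact hω
    rw [A08_comp g _ ω h1, ha]
    exact hp2 _ _ ⟨A02_comp_mem W hW g hg ω, weightedHomogeneousComponent_mem _ _ _⟩
  have hfix : ∀ (L : Matrix (Fin (n + k)) (Fin (n + k)) ℂ) (U : Matrix (Fin n) (Fin n) ℂ),
      LU1 L → UU1 U → act L U a = a := by
    intro L U hL hU
    have hLu := A05_unit_L L hL
    have hUu := A05_unit_U U hU
    have h1 : a - act L U a ∈ W := sub_mem haW (hW L U hLu hUu a haW)
    have h2 : a - act L U a = act L U (hw lam - a) - (hw lam - a) := by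
      rw [map_sub, A05_hw_act L U hL hU]
      ring
    have h3 : ∀ g ∈ W, fis g (a - act L U a) = 0 := by
      intro g hg
      rw [h2, a11_sub, hort g hg, sub_zero, a11_adj]
      exact hort _ (hW _ _ (a11_unit L hLu) (a11_unit U hUu) g hg)
    have h4 := h3 _ h1
    by_contra hne
    have h5 := hh.pos (a - act L U a) (sub_ne_zero.mpr (Ne.symm hne))
    rw [h4, Complex.zero_re] at h5
    exact lt_irrefl _ h5
  by_cases h0 : a = 0
  · right
    intro f hf g hg
    induction hg using Submodule.span_induction with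
    | mem x hx =>
      obtain ⟨A, B, hA, hB, rfl⟩ := hx
      rw [a11_adj]
      have h1 := hort _ (hW _ _ (a11_unit A hA) (a11_unit B hB) f hf)
      rw [h0, sub_zero] at h1
      exact h1
    | zero => exact a11_zero f
    | add x y _ _ hx hy => rw [a11_add, hx, hy, add_zero]
    | smul c x _ hx => rw [a11_smul, hx, mul_zero]
  · left
    obtain ⟨_, c, hc, he⟩ := A06_fixed a lam hfix (fun α hα => by
      rw [haM hα, hωe]) h0
    have h1 : hw lam ∈ W := by
      have h2 : hw lam = c⁻¹ • a := by
        rw [he, smul_smul, inv_mul_cancel₀ hc, one_smul]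
      rw [h2]
      exact Submodule.smul_mem _ _ haW
    intro g hg
    induction hg using Submodule.span_induction with
    | mem x hx =>
      obtain ⟨A, B, hA, hB, rfl⟩ := hx
      exact hW A B hA hB _ h1
    | zero => exact zero_mem _
    | add x y _ _ hx hy => exact add_mem hx hy
    | smul c x _ hx => exact Submodule.smul_mem _ _ hx

end H95H
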