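import Pool.Agent.Lib.H95H.A01

namespace H95H
open MvPolynomial

variable {n k : ℕ}

/-!
# Chunk A12: weights of `V lam` and orthogonality

* `A12_lead`: every monomial `α` of `act A B (lead r)` has total column degree at most
  `min (q + 1) (r + 1)` in the first `q + 1` columns. Proof: `act A B (lead r)` is the determinant
  of the matrix with entries `∑_l C (B l (castLE b)) * Y a l`, with
  `Y a l = ∑_k' C (A (castAdd (castLE a)) k') * X (k', l)` (`AlgHom.map_det`/`RingHom.map_det`,
  `A01_act_X`); expand it multilinearly in the columns `b`: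
  it is the sum over all functions `φ : Fin (r+1) → Fin n` of
  `∏_b C (B (φ b) (castLE b)) * det (Y a (φ b))`
  (`Matrix.det_mul` style; e.g. `MultilinearMap.map_sum` for `Matrix.detRowAlternating` applied to
  the transpose), and the terms with `φ` not injective vanish (two equal columns). For `φ`
  injective, every monomial of `det (Y a (φ b))` has column degrees the indicator of the image of
  `φ`, so at most `1` in each column and `r + 1` in total.
* `A12_dom`: for antitone `lam` and `f ∈ V lam`, each monomial `α` of `f` has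
  `∑_{l ≤ q} (column degree l) ≤ ∑_{l ≤ q} lam l`. By span induction for `f = act A B (hw lam)`,
  the product of the powers `(act A B (lead r)) ^ (lam r - nxt lam r)`: bounds add up in products,
  and `∑_r (lam r - nxt lam r) * min (q+1) (r+1) = ∑_{l ≤ q} lam l` (Abel summation, `lam` antitone).
* `A12_orth`: let `lam ≠ mu` be antitone. By `A11_dich` for `W = V mu` (invariant, `A05_V_inv`) and
  `lam`: `V lam ≤ V mu` or `V mu ⊥ V lam`; by `A11_dich` for `W = V lam` and `mu`: `V mu ≤ V lam` or
  orthogonal. If not orthogonal then `V lam = V mu`, so `hw mu ∈ V lam` and by `A12_dom` applied to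
  the monomials of `hw mu` (`≠ 0`, all of column degrees `mu`: `A05_hw_wt`, `A05_hw_ne`)
  `∑_{l ≤ q} mu l ≤ ∑_{l ≤ q} lam l` for all `q`, and symmetrically; so all partial sums agree and
  `lam = mu`. (`fis` symmetric: `A08_herm`.)
-/

/-- all monomials have total column degree at most `d` in the columns `≤ q` -/
def a12a_P {m n : ℕ} (q : Fin n) (d : ℕ) (f : Rg m n) : Prop :=
  ∀ α, coeff α f ≠ 0 →
    ∑ l ∈ Finset.univ.filter (fun l : Fin n => l ≤ q), (Finsupp.weight wt α : Wt m n).2 l ≤ d

theorem a12a_add {m n : ℕ} {q : Fin n} {d : ℕ} {f g : Rg m n} (hf : a12a_P q d f)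
    (hg : a12a_P q d g) : a12a_P q d (f + g) := by
  intro α h
  by_cases h1 : coeff α f = 0
  · refine hg α fun h2 => h ?_
    rw [coeff_add, h1, h2, add_zero]
  · exact hf α h1

theorem a12a_sum {m n : ℕ} {q : Fin n} {d : ℕ} {ι : Type*} (s : Finset ι) (f : ι → Rg m n)
    (hf : ∀ i ∈ s, a12a_P q d (f i)) : a12a_P q d (∑ i ∈ s, f i) := by
  classical
  induction s using Finset.induction_on with
  | empty => intro α h; simp at h
  | insert a s ha ih =>
    rw [Finset.sum_insert ha]
    exact a12a_add (hf a (Finset.mem_insert_self a s))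
      (ih fun i hi => hf i (Finset.mem_insert_of_mem hi))

theorem a12a_C {m n : ℕ} (q : Fin n) (c : ℂ) : a12a_P (m := m) q 0 (C c) := by
  intro α h
  rw [coeff_C] at h
  split_ifs at h with h0
  · subst h0
    simp
  · exact absurd rfl h

theorem a12a_mul {m n : ℕ} {q : Fin n} {d e : ℕ} {f g : Rg m n} (hf : a12a_P q d f)
    (hg : a12a_P q e g) : a12a_P q (d + e) (f * g) := by
  intro α h
  classical
  rw [coeff_mul] at h
  obtain ⟨x, hx, hx'⟩ := Finset.exists_ne_zero_of_sum_ne_zero h
  rw [Finset.HasAntidiagonal.mem_antidiagonal] at hx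
  have h1 := hf x.1 (left_ne_zero_of_mul hx')
  have h2 := hg x.2 (right_ne_zero_of_mul hx')
  rw [← hx, map_add]
  simp only [Prod.snd_add, Pi.add_apply]
  rw [Finset.sum_add_distrib]
  exact add_le_add h1 h2

theorem a12a_Cmul {m n : ℕ} {q : Fin n} {d : ℕ} (c : ℂ) {f : Rg m n} (hf : a12a_P q d f) :
    a12a_P q d (C c * f) := by
  have := a12a_mul (a12a_C q c) hf
  rwa [zero_add] at this

theorem a12a_mono {m n : ℕ} {q : Fin n} {d e : ℕ} {f : Rg m n} (hf : a12a_P q d f) (h : d ≤ e) :
    a12a_P q e f := fun α hα => (hf α hα).trans h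

theorem a12a_prod {m n : ℕ} {q : Fin n} {ι : Type*} (s : Finset ι) (f : ι → Rg m n) (d : ι → ℕ)
    (hf : ∀ i ∈ s, a12a_P q (d i) (f i)) : a12a_P q (∑ i ∈ s, d i) (∏ i ∈ s, f i) := by
  classical
  induction s using Finset.induction_on with
  | empty =>
    rw [Finset.sum_empty, Finset.prod_empty]
    exact a12a_C q 1
  | insert a s ha ih =>
    rw [Finset.sum_insert ha, Finset.prod_insert ha]
    exact a12a_mul (hf a (Finset.mem_insert_self a s))
      (ih fun i hi => hf i (Finset.mem_insert_of_mem hi))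

theorem a12a_pow {m n : ℕ} {q : Fin n} {d : ℕ} {f : Rg m n} (hf : a12a_P q d f) (e : ℕ) :
    a12a_P q (e * d) (f ^ e) := by
  have := a12a_prod (Finset.range e) (fun _ => f) (fun _ => d) (fun _ _ => hf)
  simpa using this

theorem a12a_X {m n : ℕ} (q : Fin n) (p : Fin m × Fin n) :
    a12a_P q (if p.2 ≤ q then 1 else 0) (X p) := by
  intro α h
  classical
  rw [coeff_X] at h
  split_ifs at h with h0
  · subst h0
    rw [Finsupp.weight_single]
    simp only [wt, one_smul]
    rw [Finset.sum_pi_single']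
    simp
  · exact absurd rfl h

theorem a12a_dX {m n : ℕ} (q : Fin n) (i : Fin m → ℂ) (l : Fin n) :
    a12a_P q (if l ≤ q then 1 else 0) (∑ k, C (i k) * X (k, l) : Rg m n) :=
  a12a_sum _ _ fun k _ => a12a_Cmul _ (a12a_X q (k, l))

/-- multilinear expansion of the determinant of a product -/
theorem a12a_det {R : Type*} [CommRing R] {s n : ℕ} (Y : Fin s → Fin n → R) (b : Fin n → Fin s → R) :
    Matrix.det (Matrix.of fun i j : Fin s => ∑ l, b l j * Y i l) =
      ∑ φ : Fin s → Fin n, (∏ j, b (φ j) j) * Matrix.det (Matrix.of fun i j : Fin s => Y i (φ j)) := by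
  simp only [Matrix.det_apply, Matrix.of_apply]
  simp_rw [Finset.prod_univ_sum, Finset.smul_sum, Finset.mul_sum]
  rw [Finset.sum_comm]
  rw [Fintype.piFinset_univ]
  refine Finset.sum_congr rfl fun φ _ => Finset.sum_congr rfl fun σ _ => ?_
  rw [Finset.prod_mul_distrib, mul_smul_comm]

theorem a12a_card {s n : ℕ} (q : Fin n) (φ : Fin s → Fin n) (hφ : Function.Injective φ) :
    ∑ j : Fin s, (if φ j ≤ q then 1 else 0) ≤ min (q.1 + 1) s := by
  rw [le_min_iff]
  constructor
  · rw [← Finset.card_filter]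
    have h1 : ((Finset.univ.filter fun j => φ j ≤ q).map ⟨φ, hφ⟩) ⊆
        Finset.univ.filter (fun l : Fin n => l ≤ q) := by
      intro x hx
      rw [Finset.mem_map] at hx
      obtain ⟨j, hj, rfl⟩ := hx
      rw [Finset.mem_filter] at hj ⊢
      exact ⟨Finset.mem_univ _, hj.2⟩
    have h2 := Finset.card_le_card h1
    rw [Finset.card_map] at h2
    refine h2.trans (le_of_eq ?_)
    have h3 : Finset.univ.filter (fun l : Fin n => l ≤ q) = Finset.Iic q := by
      ext x
      simp
    rw [h3, Fin.card_Iic]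
  · refine (Finset.sum_le_sum (g := fun _ => 1) fun j _ => ?_).trans ?_
    · split_ifs <;> simp
    · simp

theorem A12_lead (A : Matrix (Fin (n + k)) (Fin (n + k)) ℂ) (B : Matrix (Fin n) (Fin n) ℂ)
    (r q : Fin n) (α : Fin (n + k) × Fin n →₀ ℕ) (h : coeff α (act A B (lead (k := k) r)) ≠ 0) :
    ∑ l ∈ Finset.univ.filter (fun l : Fin n => l ≤ q), (Finsupp.weight wt α : Wt (n + k) n).2 l ≤
      min (q.1 + 1) (r.1 + 1) := by
  suffices hP : a12a_P q (min (q.1 + 1) (r.1 + 1)) (act A B (lead (k := k) r)) from hP α h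
  have h1 : act A B (lead (k := k) r) = Matrix.det (Matrix.of fun i j : Fin (r.1 + 1) =>
      ∑ l, C (B l (Fin.castLE r.2 j)) *
        (∑ k', C (A (Fin.castAdd k (Fin.castLE r.2 i)) k') * X (k', l) : Rg (n + k) n)) := by
    unfold lead
    rw [AlgHom.map_det]
    congr 1
    ext1 i j
    simp only [AlgHom.mapMatrix_apply, Matrix.map_apply, Matrix.of_apply]
    rw [A01_act_X, Finset.sum_comm]
    refine Finset.sum_congr rfl fun l _ => ?_
    rw [Finset.mul_sum]
    refine Finset.sum_congr rfl fun k' _ => ?_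
    rw [C_mul]
    ring
  rw [h1, a12a_det (fun (i : Fin (r.1 + 1)) l =>
    (∑ k', C (A (Fin.castAdd k (Fin.castLE r.2 i)) k') * X (k', l) : Rg (n + k) n))
    (fun l j => C (B l (Fin.castLE r.2 j)))]
  refine a12a_sum _ _ fun φ _ => ?_
  have h2 : (∏ j : Fin (r.1 + 1), C (σ := Fin (n + k) × Fin n) (B (φ j) (Fin.castLE r.2 j))) =
      C (∏ j : Fin (r.1 + 1), B (φ j) (Fin.castLE r.2 j)) := by
    rw [map_prod]
  rw [h2]
  refine a12a_Cmul _ ?_
  by_cases hφ : Function.Injective φ
  · rw [Matrix.det_apply]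
    refine a12a_sum _ _ fun σ _ => ?_
    have h3 : a12a_P q (∑ j : Fin (r.1 + 1), (if φ j ≤ q then 1 else 0))
        (∏ j : Fin (r.1 + 1), (Matrix.of fun i j : Fin (r.1 + 1) =>
          (∑ k', C (A (Fin.castAdd k (Fin.castLE r.2 i)) k') * X (k', φ j) : Rg (n + k) n))
            (σ j) j) := by
      refine a12a_prod _ _ _ fun j _ => ?_
      simp only [Matrix.of_apply]
      exact a12a_dX q _ (φ j)
    have h4 := a12a_mono h3 (a12a_card q φ hφ)
    rw [Units.smul_def, zsmul_eq_mul]
    have h5 : ((((Equiv.Perm.sign σ : ℤˣ) : ℤ) : Rg (n + k) n)) =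
        C (((Equiv.Perm.sign σ : ℤˣ) : ℤ) : ℂ) := by
      simp
    rw [h5]
    exact a12a_Cmul _ h4
  · rw [Function.Injective] at hφ
    push Not at hφ
    obtain ⟨i, j, hij, hne⟩ := hφ
    have h3 : Matrix.det (Matrix.of fun i j : Fin (r.1 + 1) =>
          (∑ k', C (A (Fin.castAdd k (Fin.castLE r.2 i)) k') * X (k', φ j) : Rg (n + k) n)) = 0 := by
      refine Matrix.det_zero_of_column_eq hne fun t => ?_
      simp only [Matrix.of_apply]
      rw [hij]
    rw [h3]
    intro β hβ
    simp at hβ

end H95H
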