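import Pool.Agent.Lib.H95H.A12a

namespace H95H

open MvPolynomial

variable {n k : ℕ}

/-!
# Chunk A12: weights of `V lam` and orthogonality

* `A12_lead`: every monomial `α` of `act A B (lead r)` has total column degree at most
  `min (q + 1) (r + 1)` in the first `q + 1` columns. Proof: `act A B (lead r)` is the determinant
  of the matrix with entries `∑_l C (B l (castLE b)) * Y a l`, with
  `Y a l = ∑_k' C (A (castAdd (castLE a)) k') * X (k', l)` (`AlgHom.map_det`/`RingHom.map_det`,
  `A01_act_X`); expand it multilinearly in the columns `b`: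
  it is the sum over all functions `φ : Fin (r+1) → Fin n` of
  `∏_b C (B (φ b) (castLE b)) * det (Y a (φ b))`
  (`Matrix.det_mul` style; e.g. `MultilinearMap.map_sum` for `Matrix.detRowAlternating` applied to
  the transpose), and the terms with `φ` not injective vanish (two equal columns). For `φ`
  injective, every monomial of `det (Y a (φ b))` has column degrees the indicator of the image of
  `φ`, so at most `1` in each column and `r + 1` in total.
* `A12_dom`: for antitone `lam` and `f ∈ V lam`, each monomial `α` of `f` has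
  `∑_{l ≤ q} (column degree l) ≤ ∑_{l ≤ q} lam l`. By span induction for `f = act A B (hw lam)`,
  the product of the powers `(act A B (lead r)) ^ (lam r - nxt lam r)`: bounds add up in products,
  and `∑_r (lam r - nxt lam r) * min (q+1) (r+1) = ∑_{l ≤ q} lam l` (Abel summation, `lam` antitone).
* `A12_orth`: let `lam ≠ mu` be antitone. By `A11_dich` for `W = V mu` (invariant, `A05_V_inv`) and
  `lam`: `V lam ≤ V mu` or `V mu ⊥ V lam`; by `A11_dich` for `W = V lam` and `mu`: `V mu ≤ V lam` or
  orthogonal. If not orthogonal then `V lam = V mu`, so `hw mu ∈ V lam` and by `A12_dom` applied to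
  the monomials of `hw mu` (`≠ 0`, all of column degrees `mu`: `A05_hw_wt`, `A05_hw_ne`)
  `∑_{l ≤ q} mu l ≤ ∑_{l ≤ q} lam l` for all `q`, and symmetrically; so all partial sums agree and
  `lam = mu`. (`fis` symmetric: `A08_herm`.)
-/

/-- Abel summation, on the natural numbers -/
theorem a12b_tel (F : ℕ → ℕ) (hF : Antitone F) (l n : ℕ) (h : l ≤ n) :
    ∑ i ∈ Finset.Ico l n, (F i - F (i + 1)) + F n = F l := by
  induction n, h using Nat.le_induction with
  | base => simp
  | succ n hn ih =>
    rw [Finset.sum_Ico_succ_top hn]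
    have := hF (Nat.le_succ n)
    have h2 : F (n + 1) ≤ F n := this
    omega

/-- the extension of `lam` by zero -/
def a12b_ext {n : ℕ} (lam : Fin n → ℕ) (i : ℕ) : ℕ := if h : i < n then lam ⟨i, h⟩ else 0

theorem a12b_ext_anti {n : ℕ} (lam : Fin n → ℕ) (hlam : Antitone lam) : Antitone (a12b_ext lam) := by
  intro i j hij
  unfold a12b_ext
  by_cases hj : j < n
  · rw [dif_pos hj, dif_pos (hij.trans_lt hj)]
    exact hlam (by exact_mod_cast hij)
  · rw [dif_neg hj]
    exact Nat.zero_le _

theorem a12b_tel_fin {n : ℕ} (lam : Fin n → ℕ) (hlam : Antitone lam) (l : Fin n) :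
    ∑ r ∈ Finset.univ.filter (fun r : Fin n => l ≤ r), (lam r - nxt lam r) = lam l := by
  have h1 := a12b_tel (a12b_ext lam) (a12b_ext_anti lam hlam) l.1 n l.2.le
  have h2 : a12b_ext lam n = 0 := by simp [a12b_ext]
  have h3 : a12b_ext lam l.1 = lam l := by simp [a12b_ext]
  rw [h2, h3, add_zero] at h1
  rw [← h1]
  symm
  refine Finset.sum_bij' (fun i hi => (⟨i, (Finset.mem_Ico.1 hi).2⟩ : Fin n)) (fun r _ => r.1)
    ?_ ?_ ?_ ?_ ?_
  · intro i hi
    rw [Finset.mem_filter]
    exact ⟨Finset.mem_univ _, (Finset.mem_Ico.1 hi).1⟩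
  · intro r hr
    rw [Finset.mem_Ico]
    exact ⟨(Finset.mem_filter.1 hr).2, r.2⟩
  · intro i hi
    rfl
  · intro r hr
    rfl
  · intro i hi
    have hin : i < n := (Finset.mem_Ico.1 hi).2
    have e1 : a12b_ext lam i = lam ⟨i, hin⟩ := by simp [a12b_ext, hin]
    have e2 : a12b_ext lam (i + 1) = nxt lam ⟨i, hin⟩ := by simp [a12b_ext, nxt]
    rw [e1, e2]

theorem a12b_abel {n : ℕ} (lam : Fin n → ℕ) (hlam : Antitone lam) (q : Fin n) :
    ∑ r : Fin n, (lam r - nxt lam r) * min (q.1 + 1) (r.1 + 1) =
      ∑ l ∈ Finset.univ.filter (fun l : Fin n => l ≤ q), lam l := by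
  have h1 : ∀ r : Fin n, (lam r - nxt lam r) * min (q.1 + 1) (r.1 + 1) =
      ∑ l ∈ Finset.univ.filter (fun l : Fin n => l ≤ q), if l ≤ r then (lam r - nxt lam r) else 0 := by
    intro r
    rw [← Finset.sum_filter, Finset.sum_const, smul_eq_mul, mul_comm]
    congr 1
    rw [Finset.filter_filter]
    have h2 : (Finset.univ.filter fun a : Fin n => a ≤ q ∧ a ≤ r) = Finset.Iic (min q r) := by
      ext x
      simp
    rw [h2, Fin.card_Iic]
    rcases le_total q r with h | h
    · rw [min_eq_left h, min_eq_left]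
      have : q.1 ≤ r.1 := h
      omega
    · rw [min_eq_right h, min_eq_right]
      have : r.1 ≤ q.1 := h
      omega
  simp_rw [h1]
  rw [Finset.sum_comm]
  refine Finset.sum_congr rfl fun l _ => ?_
  rw [← Finset.sum_filter]
  exact a12b_tel_fin lam hlam l

theorem A12_dom (lam : Fin n → ℕ) (hlam : Antitone lam) (f : Rg (n + k) n)
    (hf : f ∈ V (k := k) lam) (α : Fin (n + k) × Fin n →₀ ℕ) (h : coeff α f ≠ 0) (q : Fin n) :
    ∑ l ∈ Finset.univ.filter (fun l : Fin n => l ≤ q), (Finsupp.weight wt α : Wt (n + k) n).2 l ≤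
      ∑ l ∈ Finset.univ.filter (fun l : Fin n => l ≤ q), lam l := by
  suffices hP : a12a_P q (∑ l ∈ Finset.univ.filter (fun l : Fin n => l ≤ q), lam l) f from hP α h
  unfold V at hf
  refine Submodule.span_induction (p := fun f _ =>
    a12a_P q (∑ l ∈ Finset.univ.filter (fun l : Fin n => l ≤ q), lam l) f) ?_ ?_ ?_ ?_ hf
  · rintro x ⟨A, B, -, -, rfl⟩
    rw [← a12b_abel lam hlam q]
    unfold hw
    rw [map_prod]
    refine a12a_prod _ _ _ fun r _ => ?_
    rw [map_pow]
    refine a12a_pow ?_ _
    intro β hβ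
    exact A12_lead A B r q β hβ
  · intro β hβ
    simp at hβ
  · intro x y _ _ hx hy
    exact a12a_add hx hy
  · intro c x _ hx
    rw [smul_eq_C_mul]
    exact a12a_Cmul c hx

end H95H
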