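import Pool.Agent.Lib.H95H.A11
import Pool.Agent.Lib.H95H.A12b

namespace H95H

open MvPolynomial

variable {n k : ℕ}

/-!
# Chunk A12: weights of `V lam` and orthogonality

* `A12_lead`: every monomial `α` of `act A B (lead r)` has total column degree at most
  `min (q + 1) (r + 1)` in the first `q + 1` columns. Proof: `act A B (lead r)` is the determinant
  of the matrix with entries `∑_l C (B l (castLE b)) * Y a l`, with
  `Y a l = ∑_k' C (A (castAdd (castLE a)) k') * X (k', l)` (`AlgHom.map_det`/`RingHom.map_det`,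
  `A01_act_X`); expand it multilinearly in the columns `b`:
  it is the sum over all functions `φ : Fin (r+1) → Fin n` of
  `∏_b C (B (φ b) (castLE b)) * det (Y a (φ b))`
  (`Matrix.det_mul` style; e.g. `MultilinearMap.map_sum` for `Matrix.detRowAlternating` applied to
  the transpose), and the terms with `φ` not injective vanish (two equal columns). For `φ`
  injective, every monomial of `det (Y a (φ b))` has column degrees the indicator of the image of
  `φ`, so at most `1` in each column and `r + 1` in total.
* `A12_dom`: for antitone `lam` and `f ∈ V lam`, each monomial `α` of `f` has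
  `∑_{l ≤ q} (column degree l) ≤ ∑_{l ≤ q} lam l`. By span induction for `f = act A B (hw lam)`,
  the product of the powers `(act A B (lead r)) ^ (lam r - nxt lam r)`: bounds add up in products,
  and `∑_r (lam r - nxt lam r) * min (q+1) (r+1) = ∑_{l ≤ q} lam l` (Abel summation, `lam` antitone).
* `A12_orth`: let `lam ≠ mu` be antitone. By `A11_dich` for `W = V mu` (invariant, `A05_V_inv`) and
  `lam`: `V lam ≤ V mu` or `V mu ⊥ V lam`; by `A11_dich` for `W = V lam` and `mu`: `V mu ≤ V lam` or
  orthogonal. If not orthogonal then `V lam = V mu`, so `hw mu ∈ V lam` and by `A12_dom` applied to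
  the monomials of `hw mu` (`≠ 0`, all of column degrees `mu`: `A05_hw_wt`, `A05_hw_ne`)
  `∑_{l ≤ q} mu l ≤ ∑_{l ≤ q} lam l` for all `q`, and symmetrically; so all partial sums agree and
  `lam = mu`. (`fis` symmetric: `A08_herm`.)
-/

theorem a12c_le (lam mu : Fin n → ℕ) (hlam : Antitone lam) (hmu : Antitone mu)
    (h : hw (k := k) mu ∈ V (k := k) lam) (q : Fin n) :
    ∑ l ∈ Finset.univ.filter (fun l : Fin n => l ≤ q), mu l ≤
      ∑ l ∈ Finset.univ.filter (fun l : Fin n => l ≤ q), lam l := by
  obtain ⟨α, hα⟩ := MvPolynomial.ne_zero_iff.1 (A05_hw_ne (k := k) mu)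
  have h1 := A12_dom lam hlam _ h α hα q
  have h2 := A05_hw_wt (k := k) mu hmu hα
  rw [h2] at h1
  exact h1

theorem a12c_eq {n : ℕ} (lam mu : Fin n → ℕ)
    (h : ∀ q : Fin n, ∑ l ∈ Finset.univ.filter (fun l : Fin n => l ≤ q), mu l =
      ∑ l ∈ Finset.univ.filter (fun l : Fin n => l ≤ q), lam l) : lam = mu := by
  funext ⟨q, hq⟩
  induction q using Nat.strong_induction_on with
  | _ q ih =>
    have h1 := h ⟨q, hq⟩
    have hs : Finset.univ.filter (fun l : Fin n => l ≤ ⟨q, hq⟩) =
        insert ⟨q, hq⟩ (Finset.univ.filter (fun l : Fin n => l < ⟨q, hq⟩)) := by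
      ext x
      simp only [Finset.mem_filter, Finset.mem_univ, true_and, Finset.mem_insert]
      exact le_iff_eq_or_lt
    rw [hs, Finset.sum_insert (by simp), Finset.sum_insert (by simp)] at h1
    have h2 : ∑ l ∈ Finset.univ.filter (fun l : Fin n => l < ⟨q, hq⟩), mu l =
        ∑ l ∈ Finset.univ.filter (fun l : Fin n => l < ⟨q, hq⟩), lam l := by
      refine Finset.sum_congr rfl fun l hl => ?_
      have hl' : l < ⟨q, hq⟩ := (Finset.mem_filter.1 hl).2
      exact (ih l.1 hl' l.2).symm
    omega

theorem A12_orth (lam mu : Fin n → ℕ) (hlam : Antitone lam) (hmu : Antitone mu) (hne : lam ≠ mu) :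
    ∀ f ∈ V (k := k) lam, ∀ g ∈ V (k := k) mu, fis f g = 0 := by
  rcases A11_dich (k := k) (V (k := k) lam) (A05_V_inv lam) mu hmu with h1 | h1
  · rcases A11_dich (k := k) (V (k := k) mu) (A05_V_inv mu) lam hlam with h2 | h2
    · exfalso
      apply hne
      refine a12c_eq lam mu fun q => le_antisymm ?_ ?_
      · exact a12c_le (k := k) lam mu hlam hmu (h1 (A05_hw_mem mu)) q
      · exact a12c_le (k := k) mu lam hmu hlam (h2 (A05_hw_mem lam)) q
    · intro f hf g hg
      rw [A08_herm.symm, h2 g hg f hf, map_zero]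
  · exact h1

end H95H
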