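import Pool.Agent.Lib.H95H.A12c

namespace H95H
open MvPolynomial

variable {n k : ℕ}

/-- the orthogonal projection onto `V lam` -/
noncomputable def prV (lam : Fin n → ℕ) : Rg (n + k) n →ₗ[ℂ] Rg (n + k) n :=
  have := A10_V_fin (k := k) lam
  Classical.choose (A10_proj (fis : Rg (n + k) n → Rg (n + k) n → ℂ) A08_herm (V (k := k) lam))

theorem prV_mem (lam : Fin n → ℕ) (f : Rg (n + k) n) : prV lam f ∈ V (k := k) lam := by
  have := A10_V_fin (k := k) lam
  exact (Classical.choose_spec
    (A10_proj (fis : Rg (n + k) n → Rg (n + k) n → ℂ) A08_herm (V (k := k) lam))).1 f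

theorem prV_orth (lam : Fin n → ℕ) (f g : Rg (n + k) n) (hg : g ∈ V (k := k) lam) :
    fis g (f - prV lam f) = 0 := by
  have := A10_V_fin (k := k) lam
  exact (Classical.choose_spec
    (A10_proj (fis : Rg (n + k) n → Rg (n + k) n → ℂ) A08_herm (V (k := k) lam))).2 f g hg

/-!
# Chunk A13: properties of the projections

* `A13_unique`: `prV lam f - p ∈ V lam` is orthogonal to itself.
* `A13_self`, `A13_zero`, `A13_comp`: from uniqueness (for `A13_comp` use `A12_orth`).
* `A13_adj`: `fis (pr f) g = fis (pr f) (pr g)` (as `g - pr g ⊥ V lam`), and symmetrically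
  `fis f (pr g) = fis (pr f) (pr g)`, using the symmetry of the form.
* `A13_act`: `act A B (prV lam f) ∈ V lam` (`A05_V_inv`), and for `g ∈ V lam`
  `fis g (act A B (f - prV lam f)) = fis (act Aᴴ Bᴴ g) (f - prV lam f) = 0`
  (`A09_adj`, symmetric form, `Aᴴ` is a unit if `A` is). Use uniqueness.
* `A13_wt`: let `p = prV lam f`, `p'` its component of weight `ω`; `p' ∈ V lam`
  (`A02_comp_mem`, `A05_V_inv`). For `g ∈ V lam`: `fis g (f - p') = fis g' (f - p')` where `g'` is the
  component of `g` of weight `ω` (`A08_comp`, `g' ∈ V lam`), and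
  `fis g' (f - p') = fis g' (f - p) + fis g' (p - p') = 0 + 0`, the last because `p - p'` has no
  component of weight `ω` (`A08_comp` and symmetry). So `p = p'` by uniqueness.
* `A13_deg`: if all monomials of `f` have total row degree `N ≠ ∑ lam` then `prV lam f = 0`: the
  elements of `V lam` have all monomials of total row degree `∑ lam` (true for `hw lam` by
  `A05_hw_wt`, and `act A B` preserves the total degree), so they are orthogonal to `f`.
* `A13_complete`: if `fis g f = 0` for all antitone `lam` and `g ∈ V lam` then `f = 0`: the set of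
  such `f` is a subspace, invariant (adjoint of `act`); if it were `≠ ⊥` it would contain some
  `hw lam` with `lam` antitone by `A07_exists`, but `fis (hw lam) (hw lam) ≠ 0`.
* `A13_sum`: if all monomials of `f` have total row degree `≤ N` then
  `∑ lam ∈ box n N, prV lam f = f`: apply `A13_complete` to the difference. For antitone `mu` in the
  box and `g ∈ V mu`: `fis g (prV lam f) = 0` for `lam ≠ mu` (`A12_orth`) and
  `fis g (f - prV mu f) = 0`. For antitone `mu` not in the box some entry of `mu` is `> N`, so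
  `∑ mu > N`, and `g ∈ V mu` is orthogonal to `f` (degrees) and to all `prV lam f` (`A12_orth`).
-/

theorem a13a_sub_left (f g h : Rg (n + k) n) : fis (f - g) h = fis f h - fis g h := by
  have h1 := (A08_herm (m := n + k) (n := n)).add f ((-1 : ℂ) • g) h
  have h2 := (A08_herm (m := n + k) (n := n)).smul (-1) g h
  rw [h2] at h1
  rw [sub_eq_add_neg, ← neg_one_smul ℂ g, h1]
  ring

theorem a13a_sub_right (f g h : Rg (n + k) n) : fis f (g - h) = fis f g - fis f h := by
  have hs := (A08_herm (m := n + k) (n := n)).symm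
  rw [hs (g - h) f, hs g f, hs h f, a13a_sub_left, map_sub]

theorem a13a_zero_left (f : Rg (n + k) n) : fis 0 f = 0 := by
  have h2 := (A08_herm (m := n + k) (n := n)).smul 0 0 f
  rw [zero_smul, zero_mul] at h2
  exact h2

theorem a13a_self_zero (f : Rg (n + k) n) (h : fis f f = 0) : f = 0 := by
  by_contra h1
  have h2 := (A08_herm (m := n + k) (n := n)).pos f h1
  rw [h, Complex.zero_re] at h2
  exact lt_irrefl _ h2

theorem A13_unique (lam : Fin n → ℕ) (f p : Rg (n + k) n) (hp : p ∈ V (k := k) lam)
    (h : ∀ g ∈ V (k := k) lam, fis g (f - p) = 0) : prV lam f = p := by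
  have h1 : prV lam f - p ∈ V (k := k) lam := Submodule.sub_mem _ (prV_mem lam f) hp
  have h2 : fis (prV lam f - p) (prV lam f - p) = 0 := by
    have h3 : prV lam f - p = (f - p) - (f - prV lam f) := by abel
    have h4 : fis (prV lam f - p) ((f - p) - (f - prV lam f)) = 0 := by
      rw [a13a_sub_right, h _ h1, prV_orth lam f _ h1, sub_zero]
    rw [← h3] at h4
    exact h4
  exact sub_eq_zero.1 (a13a_self_zero _ h2)

theorem A13_self (lam : Fin n → ℕ) (f : Rg (n + k) n) (hf : f ∈ V (k := k) lam) :
    prV lam f = f := by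
  refine A13_unique lam f f hf fun g _ => ?_
  rw [sub_self, (A08_herm (m := n + k) (n := n)).symm 0 g, a13a_zero_left, map_zero]

theorem A13_zero (lam : Fin n → ℕ) (f : Rg (n + k) n)
    (h : ∀ g ∈ V (k := k) lam, fis g f = 0) : prV lam f = 0 := by
  refine A13_unique lam f 0 (Submodule.zero_mem _) fun g hg => ?_
  rw [sub_zero]
  exact h g hg

theorem A13_comp (lam mu : Fin n → ℕ) (hlam : Antitone lam) (hmu : Antitone mu) (hne : lam ≠ mu)
    (f : Rg (n + k) n) : prV lam (prV mu f) = 0 := by
  refine A13_zero lam _ fun g hg => ?_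
  exact A12_orth lam mu hlam hmu hne g hg _ (prV_mem mu f)

theorem A13_adj (lam : Fin n → ℕ) (f g : Rg (n + k) n) :
    fis (prV lam f) g = fis f (prV lam g) := by
  have h1 : fis (prV lam f) g = fis (prV lam f) (prV lam g) := by
    have h2 := prV_orth lam g _ (prV_mem lam f)
    rw [a13a_sub_right] at h2
    exact sub_eq_zero.1 h2
  have h3 : fis f (prV lam g) = fis (prV lam f) (prV lam g) := by
    have h2 := prV_orth lam f _ (prV_mem lam g)
    rw [a13a_sub_right] at h2
    have h4 := congrArg (starRingEnd ℂ) (sub_eq_zero.1 h2)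
    have hs := (A08_herm (m := n + k) (n := n)).symm
    rw [← hs, ← hs] at h4
    exact h4
  rw [h1, h3]

theorem A13_act (lam : Fin n → ℕ) (A : Matrix (Fin (n + k)) (Fin (n + k)) ℂ)
    (B : Matrix (Fin n) (Fin n) ℂ) (hA : IsUnit A) (hB : IsUnit B) (f : Rg (n + k) n) :
    prV lam (act A B f) = act A B (prV lam f) := by
  refine A13_unique lam _ _ (A05_V_inv lam A B hA hB _ (prV_mem lam f)) fun g hg => ?_
  rw [← map_sub]
  have hs := (A08_herm (m := n + k) (n := n)).symm
  rw [hs (act A B (f - prV lam f)) g, A09_adj, ← hs]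
  refine prV_orth lam f _ (A05_V_inv lam _ _ ?_ ?_ g hg)
  · exact hA.star
  · exact hB.star

end H95H
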