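import Pool.Agent.Lib.H95H.A07
import Pool.Agent.Lib.H95H.A13a

namespace H95H

open MvPolynomial

variable {n k : ℕ}

/-!
# Chunk A13: properties of the projections

* `A13_unique`: `prV lam f - p ∈ V lam` is orthogonal to itself.
* `A13_self`, `A13_zero`, `A13_comp`: from uniqueness (for `A13_comp` use `A12_orth`).
* `A13_adj`: `fis (pr f) g = fis (pr f) (pr g)` (as `g - pr g ⊥ V lam`), and symmetrically
  `fis f (pr g) = fis (pr f) (pr g)`, using the symmetry of the form.
* `A13_act`: `act A B (prV lam f) ∈ V lam` (`A05_V_inv`), and for `g ∈ V lam`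
  `fis g (act A B (f - prV lam f)) = fis (act Aᴴ Bᴴ g) (f - prV lam f) = 0`
  (`A09_adj`, symmetric form, `Aᴴ` is a unit if `A` is). Use uniqueness.
* `A13_wt`: let `p = prV lam f`, `p'` its component of weight `ω`; `p' ∈ V lam`
  (`A02_comp_mem`, `A05_V_inv`). For `g ∈ V lam`: `fis g (f - p') = fis g' (f - p')` where `g'` is the
  component of `g` of weight `ω` (`A08_comp`, `g' ∈ V lam`), and
  `fis g' (f - p') = fis g' (f - p) + fis g' (p - p') = 0 + 0`, the last because `p - p'` has no
  component of weight `ω` (`A08_comp` and symmetry). So `p = p'` by uniqueness.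
* `A13_deg`: if all monomials of `f` have total row degree `N ≠ ∑ lam` then `prV lam f = 0`: the
  elements of `V lam` have all monomials of total row degree `∑ lam` (true for `hw lam` by
  `A05_hw_wt`, and `act A B` preserves the total degree), so they are orthogonal to `f`.
* `A13_complete`: if `fis g f = 0` for all antitone `lam` and `g ∈ V lam` then `f = 0`: the set of
  such `f` is a subspace, invariant (adjoint of `act`); if it were `≠ ⊥` it would contain some
  `hw lam` with `lam` antitone by `A07_exists`, but `fis (hw lam) (hw lam) ≠ 0`.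
* `A13_sum`: if all monomials of `f` have total row degree `≤ N` then
  `∑ lam ∈ box n N, prV lam f = f`: apply `A13_complete` to the difference. For antitone `mu` in the
  box and `g ∈ V mu`: `fis g (prV lam f) = 0` for `lam ≠ mu` (`A12_orth`) and
  `fis g (f - prV mu f) = 0`. For antitone `mu` not in the box some entry of `mu` is `> N`, so
  `∑ mu > N`, and `g ∈ V mu` is orthogonal to `f` (degrees) and to all `prV lam f` (`A12_orth`).
-/

theorem a13b_deg (lam : Fin n → ℕ) (hlam : Antitone lam) (g : Rg (n + k) n)
    (hg : g ∈ V (k := k) lam) : g.IsHomogeneous (∑ r, lam r) := by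
  have h1 : V (k := k) lam ≤ homogeneousSubmodule (Fin (n + k) × Fin n) ℂ (∑ r, lam r) := by
    unfold V
    rw [Submodule.span_le]
    rintro f ⟨A, B, hA, hB, rfl⟩
    refine a07_homog A B _ _ ?_
    intro α hα
    have h2 := A05_hw_wt (k := k) lam hlam hα
    have h3 : ∑ l, (Finsupp.weight wt α : Wt (n + k) n).2 l = ∑ l, lam l := by
      rw [h2]
    rw [← h3, a07_sum2, Finsupp.weight_apply, Finsupp.sum_fintype _ _ (by intro a; simp)]
    simp
  exact h1 hg

theorem A13_wt (lam : Fin n → ℕ) (f : Rg (n + k) n) (ω : Wt (n + k) n)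
    (hf : IsWeightedHomogeneous wt f ω) : IsWeightedHomogeneous wt (prV lam f) ω := by
  have h1 : prV lam f = weightedHomogeneousComponent wt ω (prV lam f) := by
    set p := prV lam f with hp
    set p' := weightedHomogeneousComponent wt ω p with hp'
    have hhom : ∀ g : Rg (n + k) n, IsWeightedHomogeneous wt (weightedHomogeneousComponent wt ω g) ω :=
      fun g => weightedHomogeneousComponent_isWeightedHomogeneous ω g
    refine A13_unique lam f p' (A02_comp_mem _ (A05_V_inv lam) p (prV_mem lam f) ω) fun g hg => ?_
    have h2 : IsWeightedHomogeneous wt (f - p') ω := by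
      have h3 := (weightedHomogeneousSubmodule ℂ (wt : Fin (n + k) × Fin n → Wt (n + k) n) ω).sub_mem
        (x := f) (y := p') hf (hhom p)
      exact h3
    rw [A08_comp g (f - p') ω h2]
    have h4 : weightedHomogeneousComponent wt ω g ∈ V (k := k) lam :=
      A02_comp_mem _ (A05_V_inv lam) g hg ω
    have h5 : f - p' = (f - p) - (p' - p) := by abel
    rw [h5, a13a_sub_right, prV_orth lam f _ h4]
    have h6 : fis (p' - p) (weightedHomogeneousComponent wt ω g) = 0 := by
      rw [A08_comp _ _ ω (hhom g)]
      have h7 : weightedHomogeneousComponent wt ω (p' - p) = 0 := by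
        ext β
        rw [coeff_weightedHomogeneousComponent, coeff_sub, hp', coeff_weightedHomogeneousComponent,
          coeff_zero]
        split_ifs <;> simp
      rw [h7, a13a_zero_left]
    rw [(A08_herm (m := n + k) (n := n)).symm (p' - p), h6, map_zero, sub_zero]
  rw [h1]
  exact weightedHomogeneousComponent_isWeightedHomogeneous ω _

theorem A13_deg (lam : Fin n → ℕ) (hlam : Antitone lam) (f : Rg (n + k) n) (N : ℕ)
    (hN : N ≠ ∑ r, lam r)
    (hf : ∀ α, coeff α f ≠ 0 → ∑ i, (Finsupp.weight wt α : Wt (n + k) n).1 i = N) :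
    prV lam f = 0 := by
  refine A13_zero lam f fun g hg => ?_
  unfold fis
  refine Finset.sum_eq_zero fun α hα => ?_
  have h1 := a13b_deg lam hlam g hg
  have h2 : coeff α g ≠ 0 := by simpa using hα
  have h3 : coeff α f = 0 := by
    by_contra h4
    have h5 := hf α h4
    have h6 := h1 h2
    rw [a07_sum1] at h5
    rw [Finsupp.weight_apply, Finsupp.sum_fintype _ _ (by intro a; simp)] at h6
    apply hN
    rw [← h5, ← h6]
    simp
  rw [h3, map_zero, mul_zero]

end H95H
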