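import Pool.Agent.Lib.H95H.A13b

namespace H95H

open MvPolynomial

variable {n k : ℕ}

/-!
# Chunk A13: properties of the projections

* `A13_unique`: `prV lam f - p ∈ V lam` is orthogonal to itself.
* `A13_self`, `A13_zero`, `A13_comp`: from uniqueness (for `A13_comp` use `A12_orth`).
* `A13_adj`: `fis (pr f) g = fis (pr f) (pr g)` (as `g - pr g ⊥ V lam`), and symmetrically
  `fis f (pr g) = fis (pr f) (pr g)`, using the symmetry of the form.
* `A13_act`: `act A B (prV lam f) ∈ V lam` (`A05_V_inv`), and for `g ∈ V lam`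
  `fis g (act A B (f - prV lam f)) = fis (act Aᴴ Bᴴ g) (f - prV lam f) = 0`
  (`A09_adj`, symmetric form, `Aᴴ` is a unit if `A` is). Use uniqueness.
* `A13_wt`: let `p = prV lam f`, `p'` its component of weight `ω`; `p' ∈ V lam`
  (`A02_comp_mem`, `A05_V_inv`). For `g ∈ V lam`: `fis g (f - p') = fis g' (f - p')` where `g'` is the
  component of `g` of weight `ω` (`A08_comp`, `g' ∈ V lam`), and
  `fis g' (f - p') = fis g' (f - p) + fis g' (p - p') = 0 + 0`, the last because `p - p'` has no
  component of weight `ω` (`A08_comp` and symmetry). So `p = p'` by uniqueness.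
* `A13_deg`: if all monomials of `f` have total row degree `N ≠ ∑ lam` then `prV lam f = 0`: the
  elements of `V lam` have all monomials of total row degree `∑ lam` (true for `hw lam` by
  `A05_hw_wt`, and `act A B` preserves the total degree), so they are orthogonal to `f`.
* `A13_complete`: if `fis g f = 0` for all antitone `lam` and `g ∈ V lam` then `f = 0`: the set of
  such `f` is a subspace, invariant (adjoint of `act`); if it were `≠ ⊥` it would contain some
  `hw lam` with `lam` antitone by `A07_exists`, but `fis (hw lam) (hw lam) ≠ 0`.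
* `A13_sum`: if all monomials of `f` have total row degree `≤ N` then
  `∑ lam ∈ box n N, prV lam f = f`: apply `A13_complete` to the difference. For antitone `mu` in the
  box and `g ∈ V mu`: `fis g (prV lam f) = 0` for `lam ≠ mu` (`A12_orth`) and
  `fis g (f - prV mu f) = 0`. For antitone `mu` not in the box some entry of `mu` is `> N`, so
  `∑ mu > N`, and `g ∈ V mu` is orthogonal to `f` (degrees) and to all `prV lam f` (`A12_orth`).
-/

/-- auxiliary: the form is additive in the second argument -/
theorem a13c_add2 (f g h : Rg (n + k) n) : fis f (g + h) = fis f g + fis f h := by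
  rw [A08_herm.symm (g + h) f, A08_herm.add, map_add, ← A08_herm.symm, ← A08_herm.symm]

theorem a13c_smul2 (c : ℂ) (f g : Rg (n + k) n) : fis f (c • g) = starRingEnd ℂ c * fis f g := by
  rw [A08_herm.symm (c • g) f, A08_herm.smul, map_mul, ← A08_herm.symm]

theorem a13c_zero2 (f : Rg (n + k) n) : fis f 0 = 0 := by
  have h := a13c_smul2 0 f 0
  rwa [zero_smul, map_zero, zero_mul] at h

theorem a13c_sub2 (f g h : Rg (n + k) n) : fis f (g - h) = fis f g - fis f h := by
  have h1 : g - h = g + (-1 : ℂ) • h := by
    rw [neg_one_smul, sub_eq_add_neg]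
  rw [h1, a13c_add2, a13c_smul2]
  simp [sub_eq_add_neg]

theorem a13c_sum2 {ι : Type*} (f : Rg (n + k) n) (s : Finset ι) (g : ι → Rg (n + k) n) :
    fis f (∑ i ∈ s, g i) = ∑ i ∈ s, fis f (g i) := by
  classical
  induction s using Finset.induction_on with
  | empty => rw [Finset.sum_empty, Finset.sum_empty, a13c_zero2]
  | insert a s ha ih => rw [Finset.sum_insert ha, Finset.sum_insert ha, a13c_add2, ih]

theorem A13_complete (f : Rg (n + k) n)
    (h : ∀ lam : Fin n → ℕ, Antitone lam → ∀ g ∈ V (k := k) lam, fis g f = 0) : f = 0 := by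
  set W : Submodule ℂ (Rg (n + k) n) :=
    { carrier := {f | ∀ lam : Fin n → ℕ, Antitone lam → ∀ g ∈ V (k := k) lam, fis g f = 0}
      add_mem' := by
        intro f1 f2 h1 h2 lam hlam g hg
        rw [a13c_add2, h1 lam hlam g hg, h2 lam hlam g hg, add_zero]
      zero_mem' := by
        intro lam hlam g hg
        exact a13c_zero2 g
      smul_mem' := by
        intro c f1 h1 lam hlam g hg
        rw [a13c_smul2, h1 lam hlam g hg, mul_zero] } with hW
  have hmem : ∀ f : Rg (n + k) n, f ∈ W ↔
      ∀ lam : Fin n → ℕ, Antitone lam → ∀ g ∈ V (k := k) lam, fis g f = 0 := fun f => Iff.rfl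
  have hinv : Inv W := by
    intro A B hA hB f1 h1
    rw [hmem] at h1 ⊢
    intro lam hlam g hg
    have hA' : IsUnit A.conjTranspose := by
      rw [Matrix.isUnit_iff_isUnit_det, Matrix.det_conjTranspose]
      rw [Matrix.isUnit_iff_isUnit_det] at hA
      exact hA.star
    have hB' : IsUnit B.conjTranspose := by
      rw [Matrix.isUnit_iff_isUnit_det, Matrix.det_conjTranspose]
      rw [Matrix.isUnit_iff_isUnit_det] at hB
      exact hB.star
    have h2 := h1 lam hlam _ (A05_V_inv lam _ _ hA' hB' g hg)
    rw [A08_herm.symm, A09_adj, ← A08_herm.symm]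
    exact h2
  have hbot : W = ⊥ := by
    by_contra hne
    obtain ⟨lam, hlam, h1⟩ := A07_exists W hinv hne
    have h2 := (hmem _).1 h1 lam hlam _ (A05_hw_mem lam)
    have h3 := A08_herm.pos _ (A05_hw_ne (k := k) lam)
    rw [h2] at h3
    simp at h3
  have h1 : f ∈ W := (hmem f).2 h
  rw [hbot] at h1
  exact (Submodule.mem_bot ℂ).1 h1

/-- auxiliary: elements of `V mu` are orthogonal to polynomials of small degree -/
theorem a13c_small (mu : Fin n → ℕ) (hmu : Antitone mu) (f g : Rg (n + k) n)
    (hg : g ∈ V (k := k) mu) (N : ℕ) (hN : N < ∑ r, mu r)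
    (hf : ∀ α, coeff α f ≠ 0 → ∑ i, (Finsupp.weight wt α : Wt (n + k) n).1 i ≤ N) :
    fis g f = 0 := by
  classical
  rw [← MvPolynomial.sum_homogeneousComponent f, a13c_sum2]
  refine Finset.sum_eq_zero fun d _ => ?_
  have hdeg : ∀ α : (Fin (n + k) × Fin n) →₀ ℕ,
      ∑ i, (Finsupp.weight wt α : Wt (n + k) n).1 i = Finsupp.degree α := by
    intro α
    rw [a07_sum1, Finsupp.degree_eq_sum]
  have hc : ∀ α, coeff α (homogeneousComponent d f) ≠ 0 →
      Finsupp.degree α = d ∧ coeff α f ≠ 0 := by
    intro α h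
    rw [coeff_homogeneousComponent] at h
    by_cases h1 : Finsupp.degree α = d
    · rw [if_pos h1] at h
      exact ⟨h1, h⟩
    · rw [if_neg h1] at h
      exact absurd rfl h
  by_cases h0 : d = ∑ r, mu r
  · have h1 : homogeneousComponent d f = 0 := by
      rw [MvPolynomial.eq_zero_iff]
      intro α
      by_contra h2
      obtain ⟨h3, h4⟩ := hc α h2
      have h5 := hf α h4
      rw [hdeg, h3] at h5
      omega
    rw [h1, a13c_zero2]
  · have h1 : prV mu (homogeneousComponent d f) = 0 := by
      refine A13_deg mu hmu _ d h0 fun α hα => ?_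
      rw [hdeg]
      exact (hc α hα).1
    have h2 := prV_orth mu (homogeneousComponent d f) g hg
    rwa [h1, sub_zero] at h2

theorem A13_sum (f : Rg (n + k) n) (N : ℕ)
    (hf : ∀ α, coeff α f ≠ 0 → ∑ i, (Finsupp.weight wt α : Wt (n + k) n).1 i ≤ N) :
    ∑ lam ∈ box n N, prV lam f = f := by
  classical
  rw [← sub_eq_zero]
  refine A13_complete _ fun mu hmu g hg => ?_
  rw [a13c_sub2, a13c_sum2]
  have hanti : ∀ lam ∈ box n N, Antitone lam := by
    intro lam hlam
    unfold box at hlam
    exact fun r s hrs => (Finset.mem_filter.1 hlam).2 r s hrs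
  have horth : ∀ lam ∈ box n N, lam ≠ mu → fis g (prV lam f) = 0 := fun lam hlam hne =>
    A12_orth mu lam hmu (hanti lam hlam) (Ne.symm hne) g hg _ (prV_mem lam f)
  by_cases hmem : mu ∈ box n N
  · rw [Finset.sum_eq_single_of_mem mu hmem horth]
    have h1 := prV_orth mu f g hg
    rw [a13c_sub2] at h1
    rw [← neg_sub, h1, neg_zero]
  · rw [Finset.sum_eq_zero fun lam hlam => horth lam hlam (fun h => hmem (h ▸ hlam)), zero_sub,
      neg_eq_zero]
    have h1 : ∃ i, N < mu i := by
      by_contra h2
      push Not at h2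
      apply hmem
      unfold box
      rw [Finset.mem_filter, Fintype.mem_piFinset]
      exact ⟨fun i => Finset.mem_range.2 (Nat.lt_succ_of_le (h2 i)), fun r s hrs => hmu hrs⟩
    obtain ⟨i, hi⟩ := h1
    have h3 : mu i ≤ ∑ r, mu r :=
      Finset.single_le_sum (f := fun r => mu r) (fun _ _ => Nat.zero_le _) (Finset.mem_univ i)
    exact a13c_small mu hmu f g hg N (by omega) hf

end H95H
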