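import Pool.Agent.Lib.H95H.A13b

namespace H95H
open MvPolynomial

variable {n k : ℕ}

/-!
# Chunk A14: Pieri rule (vanishing part)

* `A14_dX`: let `lam`, `mu` be antitone, `f ∈ V mu`, `prV lam (pderiv a f) ≠ 0`; then
  `mu = lam + e_r` for some `r`. Proof: put `g b = prV lam (pderiv b (hw mu))`.
  If all `g b = 0` then `prV lam (pderiv a (act A B (hw mu))) = ∑_b C (A b.1 a.1 * B a.2 b.2) *
  prV lam (act A B (pderiv b (hw mu))) = ∑_b C (..) * act A B (g b) = 0`
  (`A01_act_pderiv`, `A13_act`; multiplication by `C c` is `c •`), so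
  `prV lam (pderiv a f) = 0` for all `f ∈ V mu` by linearity, contradiction. So some `g b ≠ 0`; choose
  `a = (i, l)` with `g a ≠ 0` and `i + l` maximal. For `L` lower, `U` upper unitriangular
  `hw mu = act L U (hw mu)` (`A05_hw_act`), so
  `g a = ∑_b C (L b.1 a.1 * U a.2 b.2) * act L U (g b)`; the factor is nonzero only if `a.1 ≤ b.1`
  and `a.2 ≤ b.2`, and then `g b = 0` unless `b = a` by maximality; so `g a = act L U (g a)`.
  Moreover `hw mu` has weight `(ext k mu, mu)`, so `pderiv a (hw mu)` is homogeneous of weight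
  `(ext k mu - e_i, mu - e_l)` (in particular `mu l ≥ 1`, as it is nonzero: each of its monomials `β`
  satisfies `weight β + wt a = (ext k mu, mu)`), and so is `g a` (`A13_wt`). By `A06_fixed`,
  `u = mu - e_l` is antitone and `g a = c • hw u`, `c ≠ 0`. As `g a ∈ V lam`, `hw u ∈ V lam ∩ V u`,
  nonzero; by `A12_orth` `u = lam`. So `mu = lam + e_l`.
* `A14_mulX`: let `f ∈ V lam` with `prV mu (X a * f) ≠ 0`. By `A13_zero` there is `g ∈ V mu` with
  `fis g (X a * f) ≠ 0`, so `fis (pderiv a g) f ≠ 0` (`A08_X` and symmetry), and then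
  `prV lam (pderiv a g) ≠ 0` (otherwise, by `A13_adj` and `A13_self`,
  `fis (pderiv a g) f = fis (pderiv a g) (prV lam f) = fis (prV lam (pderiv a g)) f = 0`).
  Apply `A14_dX`.
-/

theorem A14_dX (lam mu : Fin n → ℕ) (hlam : Antitone lam) (hmu : Antitone mu)
    (a : Fin (n + k) × Fin n) (f : Rg (n + k) n) (hf : f ∈ V (k := k) mu)
    (h : prV lam (pderiv a f) ≠ 0) : ∃ r, mu = lam + Pi.single r 1 := by
  classical
  set g : Fin (n + k) × Fin n → Rg (n + k) n := fun b => prV lam (pderiv b (hw (k := k) mu)) with hg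
  -- some `g b` is nonzero
  have h1 : ∃ b, g b ≠ 0 := by
    by_contra h2
    push Not at h2
    apply h
    have h3 : ∀ F ∈ V (k := k) mu, prV lam (pderiv a F) = 0 := by
      intro F hF
      unfold V at hF
      induction hF using Submodule.span_induction with
      | mem F hF =>
        obtain ⟨A, B, hA, hB, rfl⟩ := hF
        rw [A01_act_pderiv, map_sum]
        refine Finset.sum_eq_zero fun b _ => ?_
        rw [← smul_eq_C_mul, map_smul, A13_act lam A B hA hB]
        have h4 : prV lam (pderiv b (hw (k := k) mu)) = 0 := h2 b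
        rw [h4, map_zero, smul_zero]
      | zero => rw [map_zero, map_zero]
      | add x y _ _ hx hy => rw [map_add, map_add, hx, hy, add_zero]
      | smul c x _ hx =>
        rw [Derivation.map_smul, map_smul, hx, smul_zero]
    exact h3 f hf
  obtain ⟨b0, hb0⟩ := h1
  obtain ⟨c, hc, hmax⟩ := Finset.exists_max_image (Finset.univ.filter fun b => g b ≠ 0)
    (fun b => b.1.1 + b.2.1) ⟨b0, Finset.mem_filter.2 ⟨Finset.mem_univ _, hb0⟩⟩
  have hc0 : g c ≠ 0 := (Finset.mem_filter.1 hc).2
  have hmax' : ∀ b, c.1.1 + c.2.1 < b.1.1 + b.2.1 → g b = 0 := by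
    intro b hb
    by_contra h2
    have h3 := hmax b (Finset.mem_filter.2 ⟨Finset.mem_univ _, h2⟩)
    omega
  -- `g c` is fixed
  have hfix : ∀ (L : Matrix (Fin (n + k)) (Fin (n + k)) ℂ) (U : Matrix (Fin n) (Fin n) ℂ),
      LU1 L → UU1 U → act L U (g c) = g c := by
    intro L U hL hU
    have h2 : g c = ∑ b, (L b.1 c.1 * U c.2 b.2) • act L U (g b) := by
      have h3 : g c = prV lam (pderiv c (act L U (hw (k := k) mu))) := by
        rw [A05_hw_act L U hL hU]
      rw [h3, A01_act_pderiv, map_sum]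
      refine Finset.sum_congr rfl fun b _ => ?_
      rw [← smul_eq_C_mul, map_smul, A13_act lam L U (A05_unit_L L hL) (A05_unit_U U hU)]
    rw [Finset.sum_eq_single c] at h2
    · rw [hL.1, hU.1, one_mul, one_smul] at h2
      exact h2.symm
    · intro b _ hb
      by_cases h3 : b.1 < c.1
      · rw [hL.2 _ _ h3, zero_mul, zero_smul]
      by_cases h4 : b.2 < c.2
      · rw [hU.2 _ _ h4, mul_zero, zero_smul]
      have h5 : g b = 0 := by
        apply hmax'
        rw [not_lt] at h3 h4
        have h6 : c.1.1 ≤ b.1.1 := h3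
        have h7 : c.2.1 ≤ b.2.1 := h4
        by_contra h8
        exact hb (Prod.ext (Fin.ext (by omega)) (Fin.ext (by omega)))
      rw [h5, map_zero, smul_zero]
    · intro h3
      exact absurd (Finset.mem_univ _) h3
  -- weights
  have hw1 := A05_hw_wt (k := k) mu hmu
  have hmon : ∀ β, coeff β (pderiv c (hw (k := k) mu)) ≠ 0 →
      (Finsupp.weight wt β : Wt (n + k) n) + wt c = ((ext k mu, mu) : Wt (n + k) n) := by
    intro β hβ
    rw [coeff_pderiv] at hβ
    have h2 := hw1 (left_ne_zero_of_mul hβ)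
    rw [map_add, Finsupp.weight_single, one_smul] at h2
    exact h2
  have hne : pderiv c (hw (k := k) mu) ≠ 0 := by
    intro h2
    apply hc0
    change prV lam (pderiv c (hw (k := k) mu)) = 0
    rw [h2, map_zero]
  obtain ⟨β0, hβ0⟩ := MvPolynomial.ne_zero_iff.1 hne
  set ω : Wt (n + k) n := Finsupp.weight wt β0 with hω
  have hω1 := hmon β0 hβ0
  have hhom : IsWeightedHomogeneous wt (pderiv c (hw (k := k) mu)) ω := by
    intro β hβ
    have h2 := hmon β hβ
    rw [← hω1] at h2
    exact add_right_cancel h2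
  have hghom : IsWeightedHomogeneous wt (g c) ω := A13_wt lam _ ω hhom
  obtain ⟨h2, d, hd, h3⟩ := A06_fixed (g c) ω.2 hfix (fun α hα => by rw [hghom hα]) hc0
  have h4 : hw (k := k) ω.2 ∈ V (k := k) lam := by
    have h5 : hw (k := k) ω.2 = d⁻¹ • g c := by
      rw [h3, smul_smul, inv_mul_cancel₀ hd, one_smul]
    rw [h5]
    exact Submodule.smul_mem _ _ (prV_mem lam _)
  have h5 : lam = ω.2 := by
    by_contra h6
    have h7 := A12_orth lam ω.2 hlam h2 h6 _ h4 _ (A05_hw_mem ω.2)
    exact A05_hw_ne ω.2 (a13a_self_zero _ h7)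
  refine ⟨c.2, ?_⟩
  have h6 := congrArg Prod.snd hω1
  rw [Prod.snd_add] at h6
  rw [h5]
  exact h6.symm

end H95H
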