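import Pool.Agent.Lib.H95H.A14a

namespace H95H

open MvPolynomial

variable {n k : ℕ}

/-!
# Chunk A14: Pieri rule (vanishing part)

* `A14_dX`: let `lam`, `mu` be antitone, `f ∈ V mu`, `prV lam (pderiv a f) ≠ 0`; then
  `mu = lam + e_r` for some `r`. Proof: put `g b = prV lam (pderiv b (hw mu))`.
  If all `g b = 0` then `prV lam (pderiv a (act A B (hw mu))) = ∑_b C (A b.1 a.1 * B a.2 b.2) *
  prV lam (act A B (pderiv b (hw mu))) = ∑_b C (..) * act A B (g b) = 0`
  (`A01_act_pderiv`, `A13_act`; multiplication by `C c` is `c •`), so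
  `prV lam (pderiv a f) = 0` for all `f ∈ V mu` by linearity, contradiction. So some `g b ≠ 0`; choose
  `a = (i, l)` with `g a ≠ 0` and `i + l` maximal. For `L` lower, `U` upper unitriangular
  `hw mu = act L U (hw mu)` (`A05_hw_act`), so
  `g a = ∑_b C (L b.1 a.1 * U a.2 b.2) * act L U (g b)`; the factor is nonzero only if `a.1 ≤ b.1`
  and `a.2 ≤ b.2`, and then `g b = 0` unless `b = a` by maximality; so `g a = act L U (g a)`.
  Moreover `hw mu` has weight `(ext k mu, mu)`, so `pderiv a (hw mu)` is homogeneous of weight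
  `(ext k mu - e_i, mu - e_l)` (in particular `mu l ≥ 1`, as it is nonzero: each of its monomials `β`
  satisfies `weight β + wt a = (ext k mu, mu)`), and so is `g a` (`A13_wt`). By `A06_fixed`,
  `u = mu - e_l` is antitone and `g a = c • hw u`, `c ≠ 0`. As `g a ∈ V lam`, `hw u ∈ V lam ∩ V u`,
  nonzero; by `A12_orth` `u = lam`. So `mu = lam + e_l`.
* `A14_mulX`: let `f ∈ V lam` with `prV mu (X a * f) ≠ 0`. By `A13_zero` there is `g ∈ V mu` with
  `fis g (X a * f) ≠ 0`, so `fis (pderiv a g) f ≠ 0` (`A08_X` and symmetry), and then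
  `prV lam (pderiv a g) ≠ 0` (otherwise, by `A13_adj` and `A13_self`,
  `fis (pderiv a g) f = fis (pderiv a g) (prV lam f) = fis (prV lam (pderiv a g)) f = 0`).
  Apply `A14_dX`.
-/

theorem A14_mulX (lam mu : Fin n → ℕ) (hlam : Antitone lam) (hmu : Antitone mu)
    (a : Fin (n + k) × Fin n) (f : Rg (n + k) n) (hf : f ∈ V (k := k) lam)
    (h : prV mu (X a * f) ≠ 0) : ∃ r, mu = lam + Pi.single r 1 := by
  have hs := (A08_herm (m := n + k) (n := n)).symm
  obtain ⟨g, hg, h1⟩ : ∃ g ∈ V (k := k) mu, fis g (X a * f) ≠ 0 := by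
    by_contra h2
    push Not at h2
    exact h (A13_zero mu _ h2)
  have h2 : fis (pderiv a g) f ≠ 0 := by
    intro h3
    apply h1
    rw [hs (X a * f) g, A08_X, hs (pderiv a g) f, h3, map_zero, map_zero]
  have h3 : prV lam (pderiv a g) ≠ 0 := by
    intro h4
    apply h2
    have h5 : fis (pderiv a g) f = fis (pderiv a g) (prV lam f) := by
      rw [A13_self lam f hf]
    rw [h5, ← A13_adj, h4, a13a_zero_left]
  exact A14_dX lam mu hlam hmu a g hg h3

end H95H
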