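import Pool.Agent.Lib.H95H.A13c

namespace H95H
open MvPolynomial

variable {n k : ℕ}

/-!
# Chunk A15: membership in an invariant subspace

`f ∈ W` iff `prV lam f = 0` for all antitone `lam` with `hw lam ∉ W`.
`→`: if `hw lam ∉ W` then not `V lam ≤ W` (`A05_hw_mem`), so by `A11_dich` `W ⊥ V lam` and
`prV lam f = 0` by `A13_zero` (symmetry of `fis`).
`←`: by `A13_sum` (with `N` a bound for the total row degrees of the monomials of `f`)
`f = ∑ prV lam f`, and each term is `0` or in `V lam ≤ W` (if `hw lam ∈ W` then `V lam ≤ W` by
invariance). The elements of `box n N` are antitone.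
-/

theorem A15_mem (W : Submodule ℂ (Rg (n + k) n)) (hW : Inv W) (f : Rg (n + k) n) :
    f ∈ W ↔ ∀ lam : Fin n → ℕ, Antitone lam → hw (k := k) lam ∉ W → prV lam f = 0 := by
  constructor
  · intro hf lam hlam hn
    refine A13_zero lam f fun g hg => ?_
    rcases A11_dich W hW lam hlam with h | h
    · exact absurd (h (A05_hw_mem lam)) hn
    · rw [A08_herm.symm, h f hf g hg, map_zero]
  · intro h
    have h1 := A13_sum f (f.support.sup fun α => ∑ i, (Finsupp.weight wt α : Wt (n + k) n).1 i)
      (fun α hα => Finset.le_sup (f := fun α => ∑ i, (Finsupp.weight wt α : Wt (n + k) n).1 i)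
        (by simpa using hα))
    rw [← h1]
    refine Submodule.sum_mem _ fun lam hlam => ?_
    have hanti : Antitone lam := by
      unfold box at hlam
      exact fun r s hrs => (Finset.mem_filter.1 hlam).2 r s hrs
    by_cases hm : hw (k := k) lam ∈ W
    · have h2 : V (k := k) lam ≤ W := by
        unfold V
        rw [Submodule.span_le]
        rintro x ⟨A, B, hA, hB, rfl⟩
        exact hW A B hA hB _ hm
      exact h2 (prV_mem lam f)
    · rw [h lam hanti hm]
      exact W.zero_mem

end H95H
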