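import Pool.Agent.Lib.H95H.P00

namespace H95H

variable {n : ℕ} {H : Type*} [AddCommGroup H] [Module ℂ H]

/-!
# Chunk B01: basic identities in a cube system

* `B01_d2`: `dd r r` gives `2 • d r (d r x) = 0`.
* `B01_dpd`: apply `d r` to `res r x` and use `B01_d2`, `dc`.
* `B01_cd`: `res r (d r x)` reads `d r (p r (d r x)) + p r (d r (d r x)) + c r (d r x) = d r x`.
* `B01_cs_d` (`r ≠ s`): `c r = 1 - d r p r - p r d r`, and `d s` anticommutes with `d r`, `p r`, so it
  commutes with the products. Same with `p s`.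
* `B01_cc`: `c r (c r x) = c r x` by `res r (c r x)`, `dc`, `pc`.
* `B01_c_pr`: `c r` preserves labels: `c r = 1 - d r p r - p r d r` and `d_pr`, `p_pr`.
* `B01_a_comm` (`r ≠ s`): `d r p r` commutes with `d s`, `p s`.
-/

theorem B01_d2 (S : CS n H) (r : Fin n) (x : H) : S.d r (S.d r x) = 0 := by
  have h := S.dd r r x
  rw [← two_smul ℂ] at h
  exact (smul_eq_zero.mp h).resolve_left two_ne_zero

theorem B01_p2 (S : CS n H) (r : Fin n) (x : H) : S.p r (S.p r x) = 0 := by
  have h := S.pp r r x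
  rw [← two_smul ℂ] at h
  exact (smul_eq_zero.mp h).resolve_left two_ne_zero

theorem b01_c (S : CS n H) (r : Fin n) (x : H) :
    S.c r x = x - S.d r (S.p r x) - S.p r (S.d r x) := by
  have h := S.res r x
  rw [sub_sub, eq_sub_iff_add_eq, add_comm]
  exact h

theorem B01_dpd (S : CS n H) (r : Fin n) (x : H) : S.d r (S.p r (S.d r x)) = S.d r x := by
  have h := congrArg (S.d r) (S.res r x)
  rw [map_add, map_add, B01_d2, S.dc, zero_add, add_zero] at h
  exact h

theorem B01_pdp (S : CS n H) (r : Fin n) (x : H) : S.p r (S.d r (S.p r x)) = S.p r x := by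
  have h := congrArg (S.p r) (S.res r x)
  rw [map_add, map_add, B01_p2, S.pc, add_zero, add_zero] at h
  exact h

theorem b01_dd (S : CS n H) (r s : Fin n) (x : H) : S.d r (S.d s x) = - S.d s (S.d r x) :=
  eq_neg_of_add_eq_zero_left (S.dd r s x)

theorem b01_pp (S : CS n H) (r s : Fin n) (x : H) : S.p r (S.p s x) = - S.p s (S.p r x) :=
  eq_neg_of_add_eq_zero_left (S.pp r s x)

theorem b01_dp (S : CS n H) (r s : Fin n) (h : r ≠ s) (x : H) :
    S.d r (S.p s x) = - S.p s (S.d r x) :=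
  eq_neg_of_add_eq_zero_left (S.dp r s h x)

theorem b01_pd (S : CS n H) (r s : Fin n) (h : r ≠ s) (x : H) :
    S.p r (S.d s x) = - S.d s (S.p r x) := by
  rw [b01_dp S s r h.symm, neg_neg]

theorem B01_cd (S : CS n H) (r s : Fin n) (x : H) :
    S.c r (S.d s x) = if r = s then 0 else S.d s (S.c r x) := by
  split_ifs with h
  · subst h
    rw [b01_c, B01_dpd, B01_d2, map_zero, sub_self, sub_zero]
  · rw [b01_c, b01_c, map_sub, map_sub, b01_pd S r s h x, map_neg, b01_dd S r s, neg_neg,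
      b01_dd S r s, map_neg, b01_pd S r s h, neg_neg]

theorem B01_cp (S : CS n H) (r s : Fin n) (x : H) :
    S.c r (S.p s x) = if r = s then 0 else S.p s (S.c r x) := by
  split_ifs with h
  · subst h
    rw [b01_c, B01_pdp, B01_p2, map_zero, sub_zero, sub_self]
  · rw [b01_c, b01_c, map_sub, map_sub, b01_pp S r s x, map_neg, b01_dp S r s h, neg_neg,
      b01_dp S r s h, map_neg, b01_pp S r s, neg_neg]

theorem B01_cc (S : CS n H) (r : Fin n) (x : H) : S.c r (S.c r x) = S.c r x := by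
  rw [b01_c S r (S.c r x), S.pc, S.dc, map_zero, map_zero, sub_zero, sub_zero]

theorem B01_c_pr (S : CS n H) (r : Fin n) (κ : Fin n → ℤ) (x : H) :
    S.c r (S.pr κ x) = S.pr κ (S.c r x) := by
  rw [b01_c, b01_c, map_sub, map_sub, S.p_pr, S.d_pr, S.d_pr, S.p_pr, sub_add_cancel,
    add_sub_cancel_right]

theorem B01_a_d (S : CS n H) (r s : Fin n) (h : r ≠ s) (x : H) :
    S.d r (S.p r (S.d s x)) = S.d s (S.d r (S.p r x)) := by
  rw [b01_pd S r s h, map_neg, b01_dd S r s, neg_neg]

theorem B01_a_p (S : CS n H) (r s : Fin n) (h : r ≠ s) (x : H) :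
    S.d r (S.p r (S.p s x)) = S.p s (S.d r (S.p r x)) := by
  rw [b01_pp S r s, map_neg, b01_dp S r s h, neg_neg]

/-- for a top corner, `c r z = 0` for `r ∈ R` and `c r z = z` for `r ∉ R` -/
theorem B01_Q_c (S : CS n H) (κ : Fin n → ℤ) (R : Finset (Fin n)) (z : H) (hz : z ∈ S.Q κ R)
    (r : Fin n) : S.c r z = if r ∈ R then 0 else z := by
  obtain ⟨_, h2, h3, h4⟩ := hz
  split_ifs with h
  · rw [b01_c, h3 r h, h2, map_zero, sub_self, sub_zero]
  · rw [b01_c, h4 r h, h2, map_zero, map_zero, sub_zero, sub_zero]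

end H95H
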