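import Pool.Agent.Lib.H95H.B01

namespace H95H

variable {n : ℕ} {H : Type*} [AddCommGroup H] [Module ℂ H]

/-!
# Chunk B02: the products `pT T`

`pT T = ∏_{r ∈ finRange n} (if r ∈ T then p r else 1)` (composition, in this order). For a list `l`
put `pl l T = (l.map (fun r => if r ∈ T then S.p r else 1)).prod`.
* `B02_d`: for a list without duplicates and `z` with `d s z = 0`, and `d s (p s z) = z` if `s ∈ T`:
  for `s ∉ l`: `d s (pl l T z) = 0` (move `d s` to the right through `p r`, `r ≠ s`, `dp`).
  For `s ∈ l`: split `l = l₁ ++ s :: l₂` (`List.append_of_mem`, `s ∉ l₁, l₂`); moving `d s` through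
  `l₁` gives the sign `(-1)^{number of r ∈ l₁ with r ∈ T}`; at `s` (if `s ∈ T`):
  `d s (p s y) = y - p s (d s y) - c s y` with `y = pl l₂ T z`, `d s y = 0` and
  `c s y = pl l₂ T (c s z) = 0` (`B01_cp`, `c s z = z - d s (p s z) - p s (d s z) = 0`).
  If `s ∉ T` the factor is `1` and the result is `0`. For `finRange n` the elements before `s` are
  those `< s` (the list is sorted), and after removing the factor `p s` the product is
  `pT (T.erase s)`.
* `B02_p`: `p s` moved into its place: for `s ∉ T`, `p s (pl l₁ T y) = ± pl l₁ T (p s y)`; if `s ∈ T`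
  then `p s (p s y) = 0`.
* `B02_pr`: each factor `p r` shifts the label by `- e_r` (`p_pr`).
* `B02_c`: `c s` commutes with the `p r`, `r ≠ s` (`B01_cp`).
* `B02_empty`: all factors are `1`.
-/

/-- the product over a list -/
noncomputable def b02_pl (S : CS n H) (l : List (Fin n)) (T : Finset (Fin n)) : H →ₗ[ℂ] H :=
  (l.map (fun r => if r ∈ T then S.p r else (1 : H →ₗ[ℂ] H))).prod

theorem b02_nil (S : CS n H) (T : Finset (Fin n)) (x : H) : b02_pl S [] T x = x := by
  unfold b02_pl
  simp

theorem b02_pos (S : CS n H) (l : List (Fin n)) (T : Finset (Fin n)) (r : Fin n) (h : r ∈ T)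
    (x : H) : b02_pl S (r :: l) T x = S.p r (b02_pl S l T x) := by
  unfold b02_pl
  rw [List.map_cons, List.prod_cons, if_pos h]
  rfl

theorem b02_neg (S : CS n H) (l : List (Fin n)) (T : Finset (Fin n)) (r : Fin n) (h : r ∉ T)
    (x : H) : b02_pl S (r :: l) T x = b02_pl S l T x := by
  unfold b02_pl
  rw [List.map_cons, List.prod_cons, if_neg h, one_mul]

theorem b02_congr (S : CS n H) (l : List (Fin n)) (T T' : Finset (Fin n))
    (h : ∀ r ∈ l, (r ∈ T ↔ r ∈ T')) (x : H) : b02_pl S l T x = b02_pl S l T' x := by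
  induction l with
  | nil => rw [b02_nil, b02_nil]
  | cons r l ih =>
    have ih' := ih fun q hq => h q (List.mem_cons_of_mem _ hq)
    have hr := h r List.mem_cons_self
    by_cases hT : r ∈ T
    · rw [b02_pos S l T r hT, b02_pos S l T' r (hr.mp hT), ih']
    · rw [b02_neg S l T r hT, b02_neg S l T' r (fun h' => hT (hr.mpr h')), ih']

theorem b02_pT (S : CS n H) (T : Finset (Fin n)) (x : H) :
    S.pT T x = b02_pl S (List.finRange n) T x := rfl

/-- the sign as a product over a list -/
def b02_sgl (l : List (Fin n)) (s : Fin n) (T : Finset (Fin n)) : ℤ :=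
  (l.map (fun r => if r < s ∧ r ∈ T then (-1 : ℤ) else 1)).prod

theorem b02_sg (s : Fin n) (T : Finset (Fin n)) : b02_sgl (List.finRange n) s T = sg s T := by
  unfold b02_sgl sg
  rw [← Fin.prod_univ_def, Finset.prod_ite, Finset.prod_const, Finset.prod_const_one, mul_one]
  congr 2
  ext r
  simp [and_comm]

theorem b02_sgl_one (l : List (Fin n)) (s : Fin n) (T : Finset (Fin n)) (h : ∀ r ∈ l, s < r) :
    b02_sgl l s T = 1 := by
  induction l with
  | nil => rfl
  | cons r l ih =>
    have ih' := ih fun q hq => h q (List.mem_cons_of_mem _ hq)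
    unfold b02_sgl at ih' ⊢
    rw [List.map_cons, List.prod_cons, ih', mul_one, if_neg]
    rintro ⟨h1, _⟩
    exact absurd h1 (not_lt.mpr (h r List.mem_cons_self).le)

theorem b02_sgl_cons (l : List (Fin n)) (s r : Fin n) (T : Finset (Fin n)) (h : r < s) :
    b02_sgl (r :: l) s T = if r ∈ T then - b02_sgl l s T else b02_sgl l s T := by
  unfold b02_sgl
  rw [List.map_cons, List.prod_cons]
  by_cases hT : r ∈ T
  · rw [if_pos hT, if_pos ⟨h, hT⟩, neg_one_mul]
  · rw [if_neg hT, if_neg fun h' => hT h'.2, one_mul]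

theorem b02_d0 (S : CS n H) (l : List (Fin n)) (s : Fin n) (hs : s ∉ l) (T : Finset (Fin n))
    (z : H) (h1 : S.d s z = 0) : S.d s (b02_pl S l T z) = 0 := by
  induction l with
  | nil => rw [b02_nil, h1]
  | cons r l ih =>
    have ih' := ih fun h => hs (List.mem_cons_of_mem _ h)
    have hr : s ≠ r := fun h => hs (h ▸ List.mem_cons_self)
    by_cases hT : r ∈ T
    · rw [b02_pos S l T r hT, b01_dp S s r hr, ih', map_zero, neg_zero]
    · rw [b02_neg S l T r hT, ih']

theorem b02_c0 (S : CS n H) (l : List (Fin n)) (s : Fin n) (T : Finset (Fin n))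
    (hs : ∀ r ∈ l, r ∈ T → s ≠ r) (z : H) : S.c s (b02_pl S l T z) = b02_pl S l T (S.c s z) := by
  induction l with
  | nil => rw [b02_nil, b02_nil]
  | cons r l ih =>
    have ih' := ih fun q hq => hs q (List.mem_cons_of_mem _ hq)
    by_cases hT : r ∈ T
    · rw [b02_pos S l T r hT, b02_pos S l T r hT, B01_cp,
        if_neg (hs r List.mem_cons_self hT), ih']
    · rw [b02_neg S l T r hT, b02_neg S l T r hT, ih']

theorem b02_dl (S : CS n H) (s : Fin n) (T : Finset (Fin n)) (z : H) (h1 : S.d s z = 0)
    (h2 : s ∈ T → S.d s (S.p s z) = z) (l : List (Fin n)) (hl : l.Pairwise (· < ·)) (hs : s ∈ l) :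
    S.d s (b02_pl S l T z) = if s ∈ T then b02_sgl l s T • b02_pl S l (T.erase s) z else 0 := by
  induction l with
  | nil => exact absurd hs (List.not_mem_nil)
  | cons r l ih =>
    rw [List.pairwise_cons] at hl
    obtain ⟨hl1, hl2⟩ := hl
    by_cases hsr : s = r
    · subst hsr
      have hsl : s ∉ l := fun h => lt_irrefl _ (hl1 s h)
      by_cases hT : s ∈ T
      · rw [if_pos hT, b02_pos S l T s hT]
        have hc : S.c s z = 0 := by
          rw [b01_c, h2 hT, h1, map_zero, sub_self, sub_zero]
        have hy : S.d s (b02_pl S l T z) = 0 := b02_d0 S l s hsl T z h1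
        have hcy : S.c s (b02_pl S l T z) = 0 := by
          rw [b02_c0 S l s T (fun r hr _ h => hsl (h ▸ hr)), hc, map_zero]
        have h := S.res s (b02_pl S l T z)
        rw [hy, hcy, map_zero, add_zero, add_zero] at h
        rw [h]
        have e1 : b02_sgl (s :: l) s T = 1 := by
          have := b02_sgl_one l s T hl1
          unfold b02_sgl at this ⊢
          rw [List.map_cons, List.prod_cons, this, mul_one, if_neg]
          rintro ⟨h1, _⟩
          exact lt_irrefl _ h1
        rw [e1, one_smul, b02_neg S l _ s (by simp)]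
        apply b02_congr
        intro r hr
        rw [Finset.mem_erase]
        exact ⟨fun h => ⟨fun h' => hsl (h' ▸ hr), h⟩, fun h => h.2⟩
      · rw [if_neg hT, b02_neg S l T s hT]
        exact b02_d0 S l s hsl T z h1
    · have hsl : s ∈ l := by
        rcases List.mem_cons.mp hs with h | h
        · exact absurd h hsr
        · exact h
      have ih' := ih hl2 hsl
      have hrs : r < s := hl1 s hsl
      rw [b02_sgl_cons l s r T hrs]
      by_cases hT : r ∈ T
      · rw [b02_pos S l T r hT, b01_dp S s r hsr, ih', if_pos hT]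
        by_cases hsT : s ∈ T
        · rw [if_pos hsT, if_pos hsT, b02_pos S l _ r (Finset.mem_erase.mpr ⟨Ne.symm hsr, hT⟩),
            map_zsmul, neg_smul]
        · rw [if_neg hsT, if_neg hsT, map_zero, neg_zero]
      · rw [b02_neg S l T r hT, ih', if_neg hT, b02_neg S l (T.erase s) r (fun h => hT (Finset.mem_of_mem_erase h))]

theorem B02_empty (S : CS n H) (x : H) : S.pT ∅ x = x := by
  unfold CS.pT
  simp

theorem B02_d (S : CS n H) (s : Fin n) (T : Finset (Fin n)) (z : H) (h1 : S.d s z = 0)
    (h2 : s ∈ T → S.d s (S.p s z) = z) :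
    S.d s (S.pT T z) = if s ∈ T then (sg s T) • S.pT (T.erase s) z else 0 := by
  rw [b02_pT, b02_pT, ← b02_sg]
  exact b02_dl S s T z h1 h2 _ (List.pairwise_lt_finRange n) (List.mem_finRange s)

end H95H
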