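import Pool.Agent.Lib.H95H.B02a

namespace H95H

variable {n : ℕ} {H : Type*} [AddCommGroup H] [Module ℂ H]

/-!
# Chunk B02: the products `pT T`

`pT T = ∏_{r ∈ finRange n} (if r ∈ T then p r else 1)` (composition, in this order). For a list `l`
put `pl l T = (l.map (fun r => if r ∈ T then S.p r else 1)).prod`.
* `B02_d`: for a list without duplicates and `z` with `d s z = 0`, and `d s (p s z) = z` if `s ∈ T`:
  for `s ∉ l`: `d s (pl l T z) = 0` (move `d s` to the right through `p r`, `r ≠ s`, `dp`).
  For `s ∈ l`: split `l = l₁ ++ s :: l₂` (`List.append_of_mem`, `s ∉ l₁, l₂`); moving `d s` through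
  `l₁` gives the sign `(-1)^{number of r ∈ l₁ with r ∈ T}`; at `s` (if `s ∈ T`):
  `d s (p s y) = y - p s (d s y) - c s y` with `y = pl l₂ T z`, `d s y = 0` and
  `c s y = pl l₂ T (c s z) = 0` (`B01_cp`, `c s z = z - d s (p s z) - p s (d s z) = 0`).
  If `s ∉ T` the factor is `1` and the result is `0`. For `finRange n` the elements before `s` are
  those `< s` (the list is sorted), and after removing the factor `p s` the product is
  `pT (T.erase s)`.
* `B02_p`: `p s` moved into its place: for `s ∉ T`, `p s (pl l₁ T y) = ± pl l₁ T (p s y)`; if `s ∈ T`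
  then `p s (p s y) = 0`.
* `B02_pr`: each factor `p r` shifts the label by `- e_r` (`p_pr`).
* `B02_c`: `c s` commutes with the `p r`, `r ≠ s` (`B01_cp`).
* `B02_empty`: all factors are `1`.
-/

theorem b02_ps (S : CS n H) (s : Fin n) (T : Finset (Fin n)) (z : H)
    (l : List (Fin n)) (hl : l.Pairwise (· < ·)) (hs : s ∈ l) :
    S.p s (b02_pl S l T z) = if s ∈ T then 0 else b02_sgl l s T • b02_pl S l (insert s T) z := by
  induction l with
  | nil => exact absurd hs (List.not_mem_nil)
  | cons r l ih =>
    rw [List.pairwise_cons] at hl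
    obtain ⟨hl1, hl2⟩ := hl
    by_cases hsr : s = r
    · subst hsr
      have hsl : s ∉ l := fun h => lt_irrefl _ (hl1 s h)
      by_cases hT : s ∈ T
      · rw [if_pos hT, b02_pos S l T s hT, B01_p2]
      · rw [if_neg hT, b02_neg S l T s hT, b02_pos S l _ s (Finset.mem_insert_self _ _)]
        have e1 : b02_sgl (s :: l) s T = 1 := by
          have := b02_sgl_one l s T hl1
          unfold b02_sgl at this ⊢
          rw [List.map_cons, List.prod_cons, this, mul_one, if_neg]
          rintro ⟨h1, _⟩
          exact lt_irrefl _ h1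
        rw [e1, one_smul]
        congr 1
        apply b02_congr
        intro r hr
        rw [Finset.mem_insert]
        exact ⟨fun h => Or.inr h, fun h => h.resolve_left fun h' => hsl (h' ▸ hr)⟩
    · have hsl : s ∈ l := by
        rcases List.mem_cons.mp hs with h | h
        · exact absurd h hsr
        · exact h
      have ih' := ih hl2 hsl
      have hrs : r < s := hl1 s hsl
      rw [b02_sgl_cons l s r T hrs]
      by_cases hT : r ∈ T
      · rw [b02_pos S l T r hT, b01_pp S s r, ih', if_pos hT]
        by_cases hsT : s ∈ T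
        · rw [if_pos hsT, if_pos hsT, map_zero, neg_zero]
        · rw [if_neg hsT, if_neg hsT, b02_pos S l _ r (Finset.mem_insert_of_mem hT),
            map_zsmul, neg_smul]
      · have hT' : r ∉ insert s T := by
          rw [Finset.mem_insert]
          rintro (h | h)
          · exact hsr h.symm
          · exact hT h
        rw [b02_neg S l T r hT, ih', if_neg hT, b02_neg S l (insert s T) r hT']

theorem B02_p (S : CS n H) (s : Fin n) (T : Finset (Fin n)) (z : H) :
    S.p s (S.pT T z) = if s ∈ T then 0 else (sg s T) • S.pT (insert s T) z := by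
  rw [b02_pT, b02_pT, ← b02_sg]
  exact b02_ps S s T z _ (List.pairwise_lt_finRange n) (List.mem_finRange s)

/-- the sum of the unit vectors over a list -/
def b02_indl (l : List (Fin n)) (T : Finset (Fin n)) : Fin n → ℤ :=
  (l.map (fun r => if r ∈ T then (Pi.single r 1 : Fin n → ℤ) else 0)).sum

theorem b02_prl (S : CS n H) (κ : Fin n → ℤ) (T : Finset (Fin n)) (z : H) (l : List (Fin n)) :
    S.pr (κ - b02_indl l T) (b02_pl S l T z) = b02_pl S l T (S.pr κ z) := by
  induction l with
  | nil =>
    rw [b02_nil, b02_nil]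
    unfold b02_indl
    simp
  | cons r l ih =>
    by_cases hT : r ∈ T
    · rw [b02_pos S l T r hT, b02_pos S l T r hT, ← ih, S.p_pr]
      congr 2
      unfold b02_indl
      rw [List.map_cons, List.sum_cons, if_pos hT, ← sub_sub, sub_right_comm]
    · rw [b02_neg S l T r hT, b02_neg S l T r hT, ← ih]
      congr 2
      unfold b02_indl
      rw [List.map_cons, List.sum_cons, if_neg hT, zero_add]

theorem b02_ind (T : Finset (Fin n)) : b02_indl (List.finRange n) T = indZ T := by
  unfold b02_indl indZ
  rw [← Fin.sum_univ_def]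
  funext i
  rw [Finset.sum_apply, Finset.sum_eq_single i]
  · by_cases h : i ∈ T
    · simp [h]
    · simp [h]
  · intro r _ hr
    by_cases h : r ∈ T
    · simp [h, Pi.single_eq_of_ne (Ne.symm hr)]
    · simp [h]
  · intro h
    exact absurd (Finset.mem_univ i) h

theorem B02_pr (S : CS n H) (κ : Fin n → ℤ) (T : Finset (Fin n)) (z : H) :
    S.pr (κ - indZ T) (S.pT T z) = S.pT T (S.pr κ z) := by
  rw [b02_pT, b02_pT, ← b02_ind]
  exact b02_prl S κ T z _

theorem B02_c (S : CS n H) (s : Fin n) (T : Finset (Fin n)) (hs : s ∉ T) (z : H) :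
    S.c s (S.pT T z) = S.pT T (S.c s z) := by
  rw [b02_pT, b02_pT]
  exact b02_c0 S _ s T (fun r _ hr h => hs (h ▸ hr)) z

end H95H
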