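import Pool.Agent.Lib.H95H.B02a

namespace H95H

variable {n : ℕ} {H : Type*} [AddCommGroup H] [Module ℂ H]

/-!
# Chunk B03: the cubes span

Let `pr κ' x = x`. For a finite set `A` of indices call `(T, R, z)` with `T ⊆ R ⊆ A` good if
`pr (κ' + indZ T) z = z` and for all `r ∈ A`: `d r z = 0`; `d r (p r z) = z` if `r ∈ R`;
`p r z = 0` and `c r z = z` if `r ∉ R`. Claim: `x` is a finite sum of `pT T z` with `(T, R, z)` good
for `A`. Induction on `A` (`Finset.induction_on`), `A = ∅`: `x = pT ∅ x`. Step: let `(T, R, z)` be good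
for `A`, `s ∉ A`. Write `z = z_a + p s z_b + z_c` with `z_a = d s (p s z)`, `z_b = d s z`,
`z_c = c s z` (`res`). Then `(T, insert s R, z_a)`, `(insert s T, insert s R, z_b)`, `(T, R, z_c)` are
good for `insert s A` by the relations (`B01`; e.g. `d s z_a = 0`,
`d s (p s z_a) = d s (p s (d s (p s z))) = z_a`; `p s z_c = 0`; for `r ∈ A` the operators `d r`,
`d r p r`, `p r`, `c r` commute or anticommute with `d s`, `p s`), and
`pT T (p s z_b) = ± pT (insert s T) z_b` (`B02_p` and the sign of moving `p s` from the right end of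
the product to its place: it is easiest to state the spanning set as the submodule spanned by
all `pT T z`, and to use that `pT T (p s y)` is `0` or `± pT (insert s T) y`).
For `A = univ` good means `z ∈ Q (κ' + indZ T) R`, `T ⊆ R`.
-/

theorem b03_swap (S : CS n H) (l : List (Fin n)) (T : Finset (Fin n)) (s : Fin n) (y : H) :
    ∃ ε : ℤ, b02_pl S l T (S.p s y) = ε • S.p s (b02_pl S l T y) := by
  induction l with
  | nil => exact ⟨1, by rw [b02_nil, b02_nil, one_smul]⟩
  | cons r l ih =>
    obtain ⟨ε, h⟩ := ih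
    by_cases hT : r ∈ T
    · refine ⟨-ε, ?_⟩
      rw [b02_pos S l T r hT, b02_pos S l T r hT, h, map_zsmul, b01_pp S r s, neg_smul, smul_neg]
    · refine ⟨ε, ?_⟩
      rw [b02_neg S l T r hT, b02_neg S l T r hT, h]

theorem b03_list (S : CS n H) (s : Fin n) (T : Finset (Fin n)) (hs : s ∉ T) (y : H)
    (l : List (Fin n)) (hl : l.Pairwise (· < ·)) (hsl : s ∈ l) :
    ∃ ε : ℤ, b02_pl S l T (S.p s y) = ε • b02_pl S l (insert s T) y := by
  induction l with
  | nil => exact absurd hsl (List.not_mem_nil)
  | cons r l ih =>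
    rw [List.pairwise_cons] at hl
    obtain ⟨hl1, hl2⟩ := hl
    by_cases hsr : s = r
    · subst hsr
      have hsl : s ∉ l := fun h => lt_irrefl _ (hl1 s h)
      obtain ⟨ε, h⟩ := b03_swap S l T s y
      refine ⟨ε, ?_⟩
      rw [b02_neg S l T s hs, h, b02_pos S l _ s (Finset.mem_insert_self _ _)]
      congr 2
      apply b02_congr
      intro r hr
      rw [Finset.mem_insert]
      exact ⟨fun h => Or.inr h, fun h => h.resolve_left fun h' => hsl (h' ▸ hr)⟩
    · have hsl : s ∈ l := by
        rcases List.mem_cons.mp hsl with h | h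
        · exact absurd h hsr
        · exact h
      obtain ⟨ε, h⟩ := ih hl2 hsl
      refine ⟨ε, ?_⟩
      by_cases hT : r ∈ T
      · rw [b02_pos S l T r hT, h, b02_pos S l _ r (Finset.mem_insert_of_mem hT), map_zsmul]
      · have hT' : r ∉ insert s T := by
          rw [Finset.mem_insert]
          rintro (h | h)
          · exact hsr h.symm
          · exact hT h
        rw [b02_neg S l T r hT, h, b02_neg S l _ r hT']

theorem B03_right (S : CS n H) (s : Fin n) (T : Finset (Fin n)) (hs : s ∉ T) (y : H) :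
    ∃ ε : ℤ, S.pT T (S.p s y) = ε • S.pT (insert s T) y := by
  obtain ⟨ε, h⟩ := b03_list S s T hs y _ (List.pairwise_lt_finRange n) (List.mem_finRange s)
  exact ⟨ε, by rw [b02_pT, b02_pT, h]⟩

end H95H
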