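import Pool.Agent.Lib.H95H.B03a

namespace H95H

variable {n : ℕ} {H : Type*} [AddCommGroup H] [Module ℂ H]

/-!
# Chunk B03: the cubes span

Let `pr κ' x = x`. For a finite set `A` of indices call `(T, R, z)` with `T ⊆ R ⊆ A` good if
`pr (κ' + indZ T) z = z` and for all `r ∈ A`: `d r z = 0`; `d r (p r z) = z` if `r ∈ R`;
`p r z = 0` and `c r z = z` if `r ∉ R`. Claim: `x` is a finite sum of `pT T z` with `(T, R, z)` good
for `A`. Induction on `A` (`Finset.induction_on`), `A = ∅`: `x = pT ∅ x`. Step: let `(T, R, z)` be good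
for `A`, `s ∉ A`. Write `z = z_a + p s z_b + z_c` with `z_a = d s (p s z)`, `z_b = d s z`,
`z_c = c s z` (`res`). Then `(T, insert s R, z_a)`, `(insert s T, insert s R, z_b)`, `(T, R, z_c)` are
good for `insert s A` by the relations (`B01`; e.g. `d s z_a = 0`,
`d s (p s z_a) = d s (p s (d s (p s z))) = z_a`; `p s z_c = 0`; for `r ∈ A` the operators `d r`,
`d r p r`, `p r`, `c r` commute or anticommute with `d s`, `p s`), and
`pT T (p s z_b) = ± pT (insert s T) z_b` (`B02_p` and the sign of moving `p s` from the right end of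
the product to its place: it is easiest to state the spanning set as the submodule spanned by
all `pT T z`, and to use that `pT T (p s y)` is `0` or `± pT (insert s T) y`).
For `A = univ` good means `z ∈ Q (κ' + indZ T) R`, `T ⊆ R`.
-/

/-- the submodule spanned by the good elements -/
def b03_M (S : CS n H) (κ' : Fin n → ℤ) (A : Finset (Fin n)) : Submodule ℂ H :=
  Submodule.span ℂ {w | ∃ (T R : Finset (Fin n)) (z : H), T ⊆ R ∧ R ⊆ A ∧
    S.pr (κ' + indZ T) z = z ∧ (∀ r ∈ A, S.d r z = 0) ∧ (∀ r ∈ R, S.d r (S.p r z) = z) ∧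
    (∀ r ∈ A, r ∉ R → S.p r z = 0) ∧ w = S.pT T z}

theorem b03_ind (T : Finset (Fin n)) (s : Fin n) (hs : s ∉ T) :
    indZ (insert s T) = indZ T + Pi.single s 1 := by
  funext r
  unfold indZ
  rw [Pi.add_apply]
  by_cases h : r = s
  · subst h
    simp [hs]
  · simp [h]

theorem b03_step (S : CS n H) (κ' : Fin n → ℤ) (A : Finset (Fin n)) (s : Fin n) (hs : s ∉ A) :
    b03_M S κ' A ≤ b03_M S κ' (insert s A) := by
  unfold b03_M
  rw [Submodule.span_le]
  rintro w ⟨T, R, z, hTR, hRA, h1, h2, h3, h4, rfl⟩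
  have hsR : s ∉ R := fun h => hs (hRA h)
  have hsT : s ∉ T := fun h => hsR (hTR h)
  have hneA : ∀ r ∈ A, r ≠ s := fun r hr h => hs (h ▸ hr)
  obtain ⟨ε, hε⟩ := B03_right S s T hsT (S.d s z)
  have e : S.pT T z = S.pT T (S.d s (S.p s z)) + ε • S.pT (insert s T) (S.d s z) +
      S.pT T (S.c s z) := by
    rw [← hε, ← map_add, ← map_add, S.res]
  show S.pT T z ∈ _
  rw [e]
  refine add_mem (add_mem (Submodule.subset_span ?_) (zsmul_mem (Submodule.subset_span ?_) ε))
    (Submodule.subset_span ?_)
  · refine ⟨T, insert s R, S.d s (S.p s z), hTR.trans (Finset.subset_insert _ _),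
      Finset.insert_subset_insert _ hRA, ?_, ?_, ?_, ?_, rfl⟩
    · conv_rhs => rw [← h1, S.p_pr, S.d_pr, sub_add_cancel]
    · intro r hr
      rcases Finset.mem_insert.mp hr with h | h
      · rw [h, B01_d2]
      · rw [b01_dd, b01_dp S r s (hneA r h), map_neg, neg_neg, h2 r h, map_zero, map_zero]
    · intro r hr
      rcases Finset.mem_insert.mp hr with h | h
      · rw [h, B01_pdp]
      · have hrs := hneA r (hRA h)
        rw [B01_a_d S r s hrs, B01_a_p S r s hrs, h3 r h]
    · intro r hr hrR
      rw [Finset.mem_insert, not_or] at hrR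
      have h : r ∈ A := (Finset.mem_insert.mp hr).resolve_left hrR.1
      rw [b01_pd S r s hrR.1, b01_pp, map_neg, neg_neg, h4 r h hrR.2, map_zero, map_zero]
  · refine ⟨insert s T, insert s R, S.d s z, Finset.insert_subset_insert _ hTR,
      Finset.insert_subset_insert _ hRA, ?_, ?_, ?_, ?_, rfl⟩
    · conv_rhs => rw [← h1, S.d_pr]
      rw [b03_ind T s hsT, add_assoc]
    · intro r hr
      rcases Finset.mem_insert.mp hr with h | h
      · rw [h, B01_d2]
      · rw [b01_dd, h2 r h, map_zero, neg_zero]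
    · intro r hr
      rcases Finset.mem_insert.mp hr with h | h
      · rw [h, B01_dpd]
      · have hrs := hneA r (hRA h)
        rw [B01_a_d S r s hrs, h3 r h]
    · intro r hr hrR
      rw [Finset.mem_insert, not_or] at hrR
      have h : r ∈ A := (Finset.mem_insert.mp hr).resolve_left hrR.1
      rw [b01_pd S r s hrR.1, h4 r h hrR.2, map_zero, neg_zero]
  · refine ⟨T, R, S.c s z, hTR, hRA.trans (Finset.subset_insert _ _), ?_, ?_, ?_, ?_, rfl⟩
    · rw [← B01_c_pr, h1]
    · intro r hr
      rcases Finset.mem_insert.mp hr with h | h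
      · rw [h, S.dc]
      · have := B01_cd S s r z
        rw [if_neg (hneA r h).symm, h2 r h, map_zero] at this
        exact this.symm
    · intro r hr
      have hrs := (hneA r (hRA hr)).symm
      have e1 := B01_cp S s r z
      have e2 := B01_cd S s r (S.p r z)
      rw [if_neg hrs] at e1 e2
      rw [← e1, ← e2, h3 r hr]
    · intro r hr hrR
      rcases Finset.mem_insert.mp hr with h | h
      · rw [h, S.pc]
      · have := B01_cp S s r z
        rw [if_neg (hneA r h).symm, h4 r h hrR, map_zero] at this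
        exact this.symm

theorem b03_all (S : CS n H) (κ' : Fin n → ℤ) (x : H) (hx : S.pr κ' x = x)
    (A : Finset (Fin n)) : x ∈ b03_M S κ' A := by
  induction A using Finset.induction_on with
  | empty =>
    apply Submodule.subset_span
    refine ⟨∅, ∅, x, Finset.Subset.refl _, Finset.Subset.refl _, ?_, ?_, ?_, ?_, ?_⟩
    · have : (indZ ∅ : Fin n → ℤ) = 0 := by
        funext r
        simp [indZ]
      rw [this, add_zero, hx]
    · intro r hr
      exact absurd hr (Finset.notMem_empty r)
    · intro r hr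
      exact absurd hr (Finset.notMem_empty r)
    · intro r hr
      exact absurd hr (Finset.notMem_empty r)
    · rw [B02_empty]
  | insert s A hs ih => exact b03_step S κ' A s hs ih

theorem B03_span (S : CS n H) (κ' : Fin n → ℤ) (x : H) (hx : S.pr κ' x = x) :
    x ∈ ⨆ R : Finset (Fin n), ⨆ T ∈ R.powerset, (S.Q (κ' + indZ T) R).map (S.pT T) := by
  have h := b03_all S κ' x hx Finset.univ
  unfold b03_M at h
  refine (Submodule.span_le.mpr ?_) h
  rintro w ⟨T, R, z, hTR, _, h1, h2, h3, h4, rfl⟩
  refine Submodule.mem_iSup_of_mem R (Submodule.mem_iSup_of_mem T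
    (Submodule.mem_iSup_of_mem (Finset.mem_powerset.mpr hTR) (Submodule.mem_map_of_mem ?_)))
  exact ⟨h1, fun r => h2 r (Finset.mem_univ r), h3, fun r hr => h4 r (Finset.mem_univ r) hr⟩

end H95H
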