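import Pool.Agent.Lib.H95H.P00

namespace H95H

variable {n : ℕ} {H : Type*} [AddCommGroup H] [Module ℂ H]

/-- indices of the basis of top corners -/
abbrev Ix (S : CS n H) : Type :=
  Σ x : ↥S.L × Finset (Fin n), Fin (Module.finrank ℂ ↥(S.Q x.1.1 x.2))

/-- the basis of top corners -/
noncomputable def zb (S : CS n H) [Module.Finite ℂ H] (i : Ix S) : H :=
  ((Module.finBasis ℂ ↥(S.Q i.1.1.1 i.1.2)) i.2 : H)

/-!
# Chunk B04: the top corners of different types are independent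

* `B04_zb_mem`: clear.
* `B04_li`: the subspaces `Q κ R` (`κ ∈ L`, `R`) are independent: for each `(κ, R)` the operator
  `pr κ ∘ ∏_{r ∈ R} (1 - c r) ∘ ∏_{r ∉ R} c r` is the identity on `Q κ R` and `0` on `Q κ' R'` for
  `(κ', R') ≠ (κ, R)` (`B01_Q_c`: `c r z` is `0` or `z` according to `r ∈ R'`; `pr_orth`). A linear
  combination `∑ a_i zb i = 0`; apply the operator for `(κ, R)` to get
  `∑_{i of type (κ, R)} a_i zb i = 0`, so these `a_i` vanish as `finBasis` is a basis. (One can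
  avoid products of operators by an induction separating one `r` at a time, or use
  `LinearIndependent` of `iSupIndep` submodules.)
* `B04_span`: `finBasis` spans `Q κ R`.
-/

theorem B04_zb_mem (S : CS n H) [Module.Finite ℂ H] (i : Ix S) :
    zb S i ∈ S.Q i.1.1.1 i.1.2 := by
  unfold zb
  exact ((Module.finBasis ℂ ↥(S.Q i.1.1.1 i.1.2)) i.2).2

theorem B04_span (S : CS n H) [Module.Finite ℂ H] (κ : Fin n → ℤ) (hκ : κ ∈ S.L)
    (R : Finset (Fin n)) (z : H) (hz : z ∈ S.Q κ R) :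
    z ∈ Submodule.span ℂ (Set.range fun m : Fin (Module.finrank ℂ ↥(S.Q κ R)) =>
      zb S ⟨(⟨κ, hκ⟩, R), m⟩) := by
  have h := (Module.finBasis ℂ ↥(S.Q κ R)).sum_repr ⟨z, hz⟩
  have h2 := congrArg (fun x : ↥(S.Q κ R) => (x : H)) h
  simp only [Submodule.coe_sum, Submodule.coe_smul] at h2
  rw [← h2]
  refine Submodule.sum_mem _ fun m _ => Submodule.smul_mem _ _ (Submodule.subset_span ?_)
  exact ⟨m, rfl⟩

theorem B04_zero (S : CS n H) (κ : Fin n → ℤ) (hκ : κ ∉ S.L) (R : Finset (Fin n)) (z : H)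
    (hz : z ∈ S.Q κ R) : z = 0 := by
  rw [← hz.1]
  exact S.pr_L κ hκ z

end H95H
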