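import Pool.Agent.Lib.H95H.B01
import Pool.Agent.Lib.H95H.B04a

namespace H95H

variable {n : ℕ} {H : Type*} [AddCommGroup H] [Module ℂ H]

/-!
# Chunk B04: the top corners of different types are independent

* `B04_zb_mem`: clear.
* `B04_li`: the subspaces `Q κ R` (`κ ∈ L`, `R`) are independent: for each `(κ, R)` the operator
  `pr κ ∘ ∏_{r ∈ R} (1 - c r) ∘ ∏_{r ∉ R} c r` is the identity on `Q κ R` and `0` on `Q κ' R'` for
  `(κ', R') ≠ (κ, R)` (`B01_Q_c`: `c r z` is `0` or `z` according to `r ∈ R'`; `pr_orth`). A linear
  combination `∑ a_i zb i = 0`; apply the operator for `(κ, R)` to get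
  `∑_{i of type (κ, R)} a_i zb i = 0`, so these `a_i` vanish as `finBasis` is a basis. (One can
  avoid products of operators by an induction separating one `r` at a time, or use
  `LinearIndependent` of `iSupIndep` submodules.)
* `B04_span`: `finBasis` spans `Q κ R`.
-/

/-- the product of the idempotents which separate the types -/
noncomputable def b04_op (S : CS n H) (l : List (Fin n)) (R : Finset (Fin n)) : H →ₗ[ℂ] H :=
  (l.map (fun r => if r ∈ R then (1 : H →ₗ[ℂ] H) - S.c r else S.c r)).prod

theorem b04_op_apply (S : CS n H) (l : List (Fin n)) (R : Finset (Fin n)) (κ : Fin n → ℤ)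
    (R' : Finset (Fin n)) (z : H) (hz : z ∈ S.Q κ R') :
    b04_op S l R z = if (∀ r ∈ l, (r ∈ R ↔ r ∈ R')) then z else 0 := by
  induction l with
  | nil =>
    unfold b04_op
    simp
  | cons r l ih =>
    have e : b04_op S (r :: l) R z =
        (if r ∈ R then (1 : H →ₗ[ℂ] H) - S.c r else S.c r) (b04_op S l R z) := by
      unfold b04_op
      rw [List.map_cons, List.prod_cons]
      rfl
    rw [e, ih]
    by_cases hl : ∀ q ∈ l, (q ∈ R ↔ q ∈ R')
    · rw [if_pos hl]
      have hc := B01_Q_c S κ R' z hz r
      by_cases h1 : r ∈ R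
      · by_cases h2 : r ∈ R'
        · rw [if_pos h2] at hc
          rw [if_pos h1, if_pos]
          · rw [LinearMap.sub_apply, hc, sub_zero]
            rfl
          · intro q hq
            rcases List.mem_cons.mp hq with h | h
            · rw [h]
              exact ⟨fun _ => h2, fun _ => h1⟩
            · exact hl q h
        · rw [if_neg h2] at hc
          rw [if_pos h1, if_neg]
          · rw [LinearMap.sub_apply, hc]
            exact sub_self z
          · intro h
            exact h2 ((h r List.mem_cons_self).mp h1)
      · by_cases h2 : r ∈ R'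
        · rw [if_pos h2] at hc
          rw [if_neg h1, if_neg]
          · exact hc
          · intro h
            exact h1 ((h r List.mem_cons_self).mpr h2)
        · rw [if_neg h2] at hc
          rw [if_neg h1, if_pos]
          · exact hc
          · intro q hq
            rcases List.mem_cons.mp hq with h | h
            · rw [h]
              exact ⟨fun h' => absurd h' h1, fun h' => absurd h' h2⟩
            · exact hl q h
    · rw [if_neg hl, map_zero, if_neg]
      intro h
      exact hl fun q hq => h q (List.mem_cons_of_mem _ hq)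

theorem b04_op_zb (S : CS n H) [Module.Finite ℂ H] (x : ↥S.L × Finset (Fin n)) (i : Ix S) :
    S.pr x.1.1 (b04_op S (List.finRange n) x.2 (zb S i)) = if i.1 = x then zb S i else 0 := by
  have hz := B04_zb_mem S i
  rw [b04_op_apply S _ x.2 _ _ _ hz]
  by_cases h1 : x.2 = i.1.2
  · rw [if_pos fun r _ => by rw [h1]]
    by_cases h2 : x.1 = i.1.1
    · rw [if_pos (Prod.ext h2.symm h1.symm), h2]
      exact hz.1
    · rw [if_neg fun h => h2 (by rw [h]), ← hz.1]
      exact S.pr_orth _ _ (fun h => h2 (Subtype.ext h)) _
  · rw [if_neg, map_zero, if_neg fun h => h1 (by rw [h])]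
    intro h
    exact h1 (Finset.ext fun r => h r (List.mem_finRange r))

theorem B04_li (S : CS n H) [Module.Finite ℂ H] : LinearIndependent ℂ (zb S) := by
  rw [Fintype.linearIndependent_iff]
  rintro g hg ⟨x0, m0⟩
  have h1 := congrArg (fun y => S.pr x0.1.1 (b04_op S (List.finRange n) x0.2 y)) hg
  simp only [map_sum, map_smul, map_zero, b04_op_zb] at h1
  rw [Fintype.sum_sigma, Finset.sum_eq_single x0] at h1
  · simp only [if_true] at h1
    have h2 : ∑ m, g ⟨x0, m⟩ • (Module.finBasis ℂ ↥(S.Q x0.1.1 x0.2)) m = 0 := by
      apply Subtype.ext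
      rw [Submodule.coe_sum, Submodule.coe_zero]
      exact h1
    exact Fintype.linearIndependent_iff.mp
      (Module.finBasis ℂ ↥(S.Q x0.1.1 x0.2)).linearIndependent _ h2 m0
  · intro x _ hx
    apply Finset.sum_eq_zero
    intro m _
    rw [if_neg hx, smul_zero]
  · intro h
    exact absurd (Finset.mem_univ _) h

end H95H
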