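import Pool.Agent.Lib.H95H.B02a
import Pool.Agent.Lib.H95H.B04b

namespace H95H

variable {n : ℕ} {H : Type*} [AddCommGroup H] [Module ℂ H]

/-- the comparison map from coordinates to `H` -/
noncomputable def Phi (S : CS n H) [Module.Finite ℂ H] :
    (Ix S → Finset (Fin n) → ℂ) →ₗ[ℂ] H where
  toFun f := ∑ i, ∑ T, f i T • S.pT T (zb S i)
  map_add' f g := by
    simp only [Pi.add_apply, add_smul, Finset.sum_add_distrib]
  map_smul' a f := by
    simp only [Pi.smul_apply, smul_eq_mul, mul_smul, Finset.smul_sum, RingHom.id_apply]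

/-- admissible coordinates -/
def adm (S : CS n H) : Submodule ℂ (Ix S → Finset (Fin n) → ℂ) where
  carrier := {f | ∀ i T, f i T ≠ 0 → T ⊆ i.1.2}
  add_mem' := by
    intro f g hf hg i T h
    by_cases h1 : f i T = 0
    · refine hg i T fun h2 => h ?_
      simp [h1, h2]
    · exact hf i T h1
  zero_mem' := by
    intro i T h
    simp at h
  smul_mem' := by
    intro a f hf i T h
    refine hf i T fun h2 => h ?_
    simp [h2]

/-!
# Chunk B05: the comparison map is injective on admissible coordinates

Let `f` be admissible, `f ≠ 0` and `Phi f = 0`. Choose `(i₀, T₀)` with `f i₀ T₀ ≠ 0` and `card T₀`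
maximal. Apply to `Phi f = 0` the product of the operators `d s`, `s ∈ T₀` (in any order, e.g. by
induction over `T₀`). By `B02_d` (the `zb i` are top corners of type `R_i`, `d s (zb i) = 0` and
`d s (p s (zb i)) = zb i` for `s ∈ R_i`) this operator sends `pT T (zb i)` to `0` if `T₀ ⊄ T`, and to
`± pT (T \ T₀) (zb i)` if `T₀ ⊆ T`, where the sign depends only on `T` and `T₀`. Terms with
`f i T ≠ 0` and `T₀ ⊊ T` do not occur by maximality, so we get `± ∑_i f i T₀ • zb i = 0`, and
`B04_li` gives `f i₀ T₀ = 0`, a contradiction.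
-/

/-- the product of the `d s` over a list -/
noncomputable def b05_D (S : CS n H) (l : List (Fin n)) : H →ₗ[ℂ] H := (l.map S.d).prod

theorem b05_key (S : CS n H) (T : Finset (Fin n)) (l : List (Fin n)) (hl : l.Nodup) :
    ∃ ε : ℤ, ε ≠ 0 ∧ ∀ (κ : Fin n → ℤ) (R : Finset (Fin n)) (z : H), z ∈ S.Q κ R → T ⊆ R →
      b05_D S l (S.pT T z) = if (∀ s ∈ l, s ∈ T) then ε • S.pT (T \ l.toFinset) z else 0 := by
  induction l with
  | nil =>
    refine ⟨1, one_ne_zero, fun κ R z _ _ => ?_⟩
    unfold b05_D
    simp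
  | cons s l ih =>
    rw [List.nodup_cons] at hl
    obtain ⟨ε, hε, h⟩ := ih hl.2
    refine ⟨ε * sg s (T \ l.toFinset), mul_ne_zero hε ?_, fun κ R z hz hT => ?_⟩
    · unfold sg
      exact pow_ne_zero _ (by norm_num)
    have e : b05_D S (s :: l) (S.pT T z) = S.d s (b05_D S l (S.pT T z)) := by
      unfold b05_D
      rw [List.map_cons, List.prod_cons]
      rfl
    rw [e, h κ R z hz hT]
    by_cases h1 : ∀ q ∈ l, q ∈ T
    · rw [if_pos h1, map_zsmul, B02_d S s _ z (hz.2.1 s)
        (fun hs => hz.2.2.1 s (hT (Finset.mem_sdiff.mp hs).1))]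
      by_cases h2 : s ∈ T
      · have e2 : (T \ l.toFinset).erase s = T \ (s :: l).toFinset := by
          ext q
          simp only [Finset.mem_erase, Finset.mem_sdiff, List.mem_toFinset, List.mem_cons]
          tauto
        rw [if_pos, if_pos, smul_smul, e2]
        · intro q hq
          rcases List.mem_cons.mp hq with h' | h'
          · rw [h']
            exact h2
          · exact h1 q h'
        · rw [Finset.mem_sdiff, List.mem_toFinset]
          exact ⟨h2, hl.1⟩
      · rw [if_neg, if_neg, smul_zero]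
        · intro h'
          exact h2 (h' s List.mem_cons_self)
        · intro h'
          exact h2 (Finset.mem_sdiff.mp h').1
    · rw [if_neg h1, map_zero, if_neg]
      intro h'
      exact h1 fun q hq => h' q (List.mem_cons_of_mem _ hq)

theorem B05_inj (S : CS n H) [Module.Finite ℂ H] (f : Ix S → Finset (Fin n) → ℂ)
    (hf : f ∈ adm S) (h : Phi S f = 0) : f = 0 := by
  by_contra hne
  have hex : ∃ x : Ix S × Finset (Fin n), f x.1 x.2 ≠ 0 := by
    by_contra hc
    push Not at hc
    apply hne
    funext i T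
    exact hc (i, T)
  obtain ⟨x0, hx0⟩ := hex
  classical
  obtain ⟨⟨i0, T0⟩, h0, hmax⟩ := Finset.exists_max_image
    (Finset.univ.filter fun x : Ix S × Finset (Fin n) => f x.1 x.2 ≠ 0)
    (fun x => x.2.card) ⟨x0, Finset.mem_filter.mpr ⟨Finset.mem_univ _, hx0⟩⟩
  rw [Finset.mem_filter] at h0
  obtain ⟨ε, hε, hD⟩ := b05_key S T0 T0.toList T0.nodup_toList
  have hA : ∀ i, ∑ T, f i T • b05_D S T0.toList (S.pT T (zb S i)) = (f i T0 * (ε : ℂ)) • zb S i := by
    intro i
    have hz := B04_zb_mem S i
    rw [Finset.sum_eq_single T0]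
    · by_cases h1 : f i T0 = 0
      · rw [h1, zero_mul, zero_smul, zero_smul]
      · rw [hD _ _ _ hz (hf i T0 h1), if_pos fun s hs => Finset.mem_toList.mp hs,
          Finset.toList_toFinset, Finset.sdiff_self, B02_empty, mul_smul, Int.cast_smul_eq_zsmul]
    · intro T _ hT
      by_cases h1 : f i T = 0
      · rw [h1, zero_smul]
      · obtain ⟨ε', _, hD'⟩ := b05_key S T T0.toList T0.nodup_toList
        rw [hD' _ _ _ hz (hf i T h1), if_neg, smul_zero]
        intro h'
        have hsub : T0 ⊆ T := fun s hs => h' s (Finset.mem_toList.mpr hs)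
        have hc : T.card ≤ T0.card :=
          hmax (i, T) (Finset.mem_filter.mpr ⟨Finset.mem_univ _, h1⟩)
        exact hT (Finset.eq_of_subset_of_card_le hsub hc).symm
    · intro h'
      exact absurd (Finset.mem_univ _) h'
  have hP : Phi S f = ∑ i, ∑ T, f i T • S.pT T (zb S i) := rfl
  have h2 := congrArg (b05_D S T0.toList) h
  rw [hP, map_zero, map_sum] at h2
  simp only [map_sum, map_smul] at h2
  rw [Finset.sum_congr rfl fun i _ => hA i] at h2
  have h3 := Fintype.linearIndependent_iff.mp (B04_li S) _ h2 i0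
  rcases mul_eq_zero.mp h3 with h4 | h4
  · exact h0.2 h4
  · exact hε (by exact_mod_cast h4)

end H95H
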