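import Pool.Agent.Lib.H95H.B02b
import Pool.Agent.Lib.H95H.B03b
import Pool.Agent.Lib.H95H.B05

namespace H95H

variable {n : ℕ} {H : Type*} [AddCommGroup H] [Module ℂ H]

/-- admissible coordinates with labels in `A` -/
def FA (S : CS n H) (A : Set (Fin n → ℤ)) : Submodule ℂ (Ix S → Finset (Fin n) → ℂ) where
  carrier := {f | ∀ i T, f i T ≠ 0 → T ⊆ i.1.2 ∧ i.1.1.1 - indZ T ∈ A}
  add_mem' := by
    intro f g hf hg i T h
    by_cases h1 : f i T = 0
    · refine hg i T fun h2 => h ?_
      simp [h1, h2]
    · exact hf i T h1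
  zero_mem' := by
    intro i T h
    simp at h
  smul_mem' := by
    intro a f hf i T h
    refine hf i T fun h2 => h ?_
    simp [h2]

/-!
# Chunk B06: the comparison map is onto

`⊆`: `pT T (zb i)` has label `κ_i - indZ T` (`B02_pr`), so it is in `HA A` if this label is in `A`
(`pr_orth`).
`⊇`: let `x ∈ HA A`; `x = ∑_{κ' ∈ L} pr κ' x` (`pr_sum`), where only `κ' ∈ A` contribute, and each
`pr κ' x` is, by `B03_span`, a sum of `pT T z` with `T ⊆ R`, `z ∈ Q (κ' + indZ T) R`; if
`κ' + indZ T ∉ L` then `z = 0` (`B04_zero`); otherwise `z` is a combination of `zb i` of this type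
(`B04_span`), and `pT T (zb i) = Phi (the function with value 1 at (i, T) and 0 elsewhere)`, which is
in `FA A` since `κ_i - indZ T = κ' ∈ A`.
-/

theorem b06_single (S : CS n H) [Module.Finite ℂ H] (i : Ix S) (T : Finset (Fin n)) :
    Phi S (Pi.single i (Pi.single T 1)) = S.pT T (zb S i) := by
  have hP : ∀ f, Phi S f = ∑ i, ∑ T, f i T • S.pT T (zb S i) := fun f => rfl
  rw [hP, Finset.sum_eq_single i, Finset.sum_eq_single T]
  · rw [Pi.single_eq_same, Pi.single_eq_same, one_smul]
  · intro T' _ hT'
    rw [Pi.single_eq_same, Pi.single_eq_of_ne hT', zero_smul]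
  · intro h
    exact absurd (Finset.mem_univ _) h
  · intro i' _ hi'
    apply Finset.sum_eq_zero
    intro T' _
    rw [Pi.single_eq_of_ne hi', Pi.zero_apply, zero_smul]
  · intro h
    exact absurd (Finset.mem_univ _) h

theorem B06_map (S : CS n H) [Module.Finite ℂ H] (A : Set (Fin n → ℤ)) :
    (FA S A).map (Phi S) = S.HA A := by
  apply le_antisymm
  · rintro _ ⟨f, hf, rfl⟩ κ hκ
    have hP : Phi S f = ∑ i, ∑ T, f i T • S.pT T (zb S i) := rfl
    rw [hP, map_sum]
    apply Finset.sum_eq_zero
    intro i _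
    rw [map_sum]
    apply Finset.sum_eq_zero
    intro T _
    rw [map_smul]
    by_cases h1 : f i T = 0
    · rw [h1, zero_smul]
    · have h2 := (hf i T h1).2
      have hz := (B04_zb_mem S i).1
      rw [← hz, ← B02_pr, S.pr_orth κ (i.1.1.1 - indZ T) (fun h => hκ (by rw [h]; exact h2)), smul_zero]
  · intro x hx
    rw [← S.pr_sum x]
    apply Submodule.sum_mem
    intro κ' _
    by_cases hA : κ' ∈ A
    · have h := B03_span S κ' (S.pr κ' x) (S.pr_idem κ' x)
      refine (iSup_le fun R => iSup_le fun T => iSup_le fun hT => ?_ :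
        (⨆ R : Finset (Fin n), ⨆ T ∈ R.powerset, (S.Q (κ' + indZ T) R).map (S.pT T)) ≤ _) h
      rw [Finset.mem_powerset] at hT
      rw [Submodule.map_le_iff_le_comap]
      intro z hz
      by_cases hL : κ' + indZ T ∈ S.L
      · refine (Submodule.span_le.mpr ?_) (B04_span S _ hL R z hz)
        rintro _ ⟨m, rfl⟩
        refine ⟨Pi.single ⟨(⟨κ' + indZ T, hL⟩, R), m⟩ (Pi.single T 1), ?_, b06_single S _ T⟩
        intro i T' h'
        by_cases hi : i = ⟨(⟨κ' + indZ T, hL⟩, R), m⟩
        · subst hi
          rw [Pi.single_eq_same] at h'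
          by_cases hT' : T' = T
          · subst hT'
            refine ⟨hT, ?_⟩
            show κ' + indZ T' - indZ T' ∈ A
            rw [add_sub_cancel_right]
            exact hA
          · rw [Pi.single_eq_of_ne hT'] at h'
            exact absurd rfl h'
        · rw [Pi.single_eq_of_ne hi] at h'
          exact absurd rfl h'
      · rw [B04_zero S _ hL R z hz]
        exact zero_mem _
    · rw [hx κ' hA]
      exact zero_mem _

end H95H
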