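import Pool.Agent.Lib.H95H.B05

namespace H95H

variable {n : ℕ} {H : Type*} [AddCommGroup H] [Module ℂ H]

/-- the boundary map on coordinates -/
noncomputable def bdI (S : CS n H) :
    (Ix S → Finset (Fin n) → ℂ) →ₗ[ℂ] (Ix S → Finset (Fin n) → ℂ) :=
  LinearMap.pi fun i => bd ∘ₗ LinearMap.proj i

/-!
# Chunk B07: the comparison map is a chain map

For `z = zb i` of type `R` and `T ⊆ R`, `B02_d` gives
`dS (pT T z) = ∑_s d s (pT T z) = ∑_{s ∈ T} sg s T • pT (T.erase s) z`. So
`dS (Phi f) = ∑_i ∑_T ∑_{s ∈ T} f i T * sg s T • pT (T.erase s) (zb i)`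
`= ∑_i ∑_{T'} (∑_{s ∉ T'} sg s T' * f i (insert s T')) • pT T' (zb i)` (reindex `T = insert s T'`,
`sg s (insert s T') = sg s T'`), which is `Phi (bdI f)`. Admissibility of `bdI f`: if
`bd (f i) T' ≠ 0` then some `f i (insert s T') ≠ 0`, so `T' ⊆ insert s T' ⊆ R_i`.
-/

theorem b07_bdI (S : CS n H) (f : Ix S → Finset (Fin n) → ℂ) (i : Ix S) (T : Finset (Fin n)) :
    bdI S f i T = ∑ s ∈ Tᶜ, ((sg s T : ℤ) : ℂ) * f i (insert s T) := rfl

theorem B07_adm (S : CS n H) (f : Ix S → Finset (Fin n) → ℂ) (hf : f ∈ adm S) :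
    bdI S f ∈ adm S := by
  intro i T h
  rw [b07_bdI] at h
  obtain ⟨s, _, hs⟩ := Finset.exists_ne_zero_of_sum_ne_zero h
  have h1 : f i (insert s T) ≠ 0 := fun h0 => hs (by rw [h0, mul_zero])
  exact (Finset.subset_insert s T).trans (hf i _ h1)

theorem b07_sg (s : Fin n) (T : Finset (Fin n)) : sg s (insert s T) = sg s T := by
  unfold sg
  rw [Finset.filter_insert, if_neg (lt_irrefl s)]

theorem b07_reindex {M : Type*} [AddCommMonoid M] (s : Fin n) (F : Finset (Fin n) → M) :
    ∑ T : Finset (Fin n), (if s ∈ T then F T else 0) =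
      ∑ T : Finset (Fin n), (if s ∈ T then 0 else F (insert s T)) := by
  rw [← Finset.sum_filter]
  have e : ∑ T : Finset (Fin n), (if s ∈ T then 0 else F (insert s T)) =
      ∑ T : Finset (Fin n), (if s ∉ T then F (insert s T) else 0) := by
    refine Finset.sum_congr rfl fun T _ => ?_
    by_cases h : s ∈ T
    · rw [if_pos h, if_neg (not_not.2 h)]
    · rw [if_neg h, if_pos h]
  rw [e, ← Finset.sum_filter]
  refine Finset.sum_nbij' (fun T => T.erase s) (fun T => insert s T) ?_ ?_ ?_ ?_ ?_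
  · intro T hT
    simp
  · intro T hT
    simp
  · intro T hT
    rw [Finset.mem_filter] at hT
    exact Finset.insert_erase hT.2
  · intro T hT
    rw [Finset.mem_filter] at hT
    exact Finset.erase_insert hT.2
  · intro T hT
    rw [Finset.mem_filter] at hT
    rw [Finset.insert_erase hT.2]

theorem b07_one (S : CS n H) [Module.Finite ℂ H] (f : Ix S → Finset (Fin n) → ℂ)
    (hf : f ∈ adm S) (i : Ix S) :
    S.dS (∑ T, f i T • S.pT T (zb S i)) = ∑ T, bdI S f i T • S.pT T (zb S i) := by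
  have hz := B04_zb_mem S i
  have h1 : ∀ T, S.dS (f i T • S.pT T (zb S i)) =
      ∑ s, (if s ∈ T then f i T • ((sg s T) • S.pT (T.erase s) (zb S i)) else 0) := by
    intro T
    rw [map_smul]
    by_cases h0 : f i T = 0
    · rw [h0, zero_smul]
      symm
      refine Finset.sum_eq_zero fun s _ => ?_
      rw [zero_smul, ite_self]
    · have hT := hf i T h0
      have e : S.dS (S.pT T (zb S i)) = ∑ s, S.d s (S.pT T (zb S i)) := by
        unfold CS.dS
        rw [LinearMap.sum_apply]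
      rw [e, Finset.smul_sum]
      refine Finset.sum_congr rfl fun s _ => ?_
      rw [B02_d S s T (zb S i) (hz.2.1 s) fun hs => hz.2.2.1 s (hT hs)]
      by_cases hs : s ∈ T
      · rw [if_pos hs, if_pos hs]
      · rw [if_neg hs, if_neg hs, smul_zero]
  rw [map_sum, Finset.sum_congr rfl fun T _ => h1 T, Finset.sum_comm]
  have h2 : ∀ s : Fin n, ∑ T : Finset (Fin n),
      (if s ∈ T then f i T • ((sg s T) • S.pT (T.erase s) (zb S i)) else 0) =
      ∑ T : Finset (Fin n), (if s ∈ T then 0 else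
        (((sg s T : ℤ) : ℂ) * f i (insert s T)) • S.pT T (zb S i)) := by
    intro s
    rw [b07_reindex s fun T => f i T • ((sg s T) • S.pT (T.erase s) (zb S i))]
    refine Finset.sum_congr rfl fun T _ => ?_
    by_cases hs : s ∈ T
    · rw [if_pos hs, if_pos hs]
    · rw [if_neg hs, if_neg hs, Finset.erase_insert hs, b07_sg, mul_comm, mul_smul,
        Int.cast_smul_eq_zsmul]
  rw [Finset.sum_congr rfl fun s _ => h2 s, Finset.sum_comm]
  refine Finset.sum_congr rfl fun T _ => ?_
  rw [b07_bdI, Finset.sum_smul]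
  have e : Tᶜ = Finset.univ.filter fun s => s ∉ T := by
    ext s
    simp
  rw [e, Finset.sum_filter]
  refine Finset.sum_congr rfl fun s _ => ?_
  by_cases hs : s ∈ T
  · rw [if_pos hs, if_neg (not_not.2 hs)]
  · rw [if_neg hs, if_pos hs]

theorem B07_chain (S : CS n H) [Module.Finite ℂ H] (f : Ix S → Finset (Fin n) → ℂ)
    (hf : f ∈ adm S) : S.dS (Phi S f) = Phi S (bdI S f) := by
  show S.dS (∑ i, ∑ T, f i T • S.pT T (zb S i)) = ∑ i, ∑ T, bdI S f i T • S.pT T (zb S i)
  rw [map_sum]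
  exact Finset.sum_congr rfl fun i _ => b07_one S f hf i

end H95H
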