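import Pool.Agent.Lib.H95H.B06
import Pool.Agent.Lib.H95H.B07

namespace H95H

variable {n : ℕ} {H : Type*} [AddCommGroup H] [Module ℂ H]

/-!
# Chunk B08: dimension count

Let `A` be a set of labels with `HA A` stable under `dS`, `t` an integer.
* `B08_ker`: `HA (At A t) ⊓ ker dS = (FA (At A t) ⊓ ker (bdI)).map Phi`, from `B06_map`, `B07_chain`,
  `B07_adm`, `B05_inj`. So its dimension is that of `FA (At A t) ⊓ ker bdI` (`B05_inj`:
  `Phi` is injective on `adm ⊇ FA`), and the latter is the product over `i : Ix S` of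
  `SZ κ_i R_i A t ⊓ ker bd` (`Submodule.pi`; dimension = sum over `i`).
* `B08_map`: `(HA (At A (t-1))).map dS = ((FA (At A (t-1))).map bdI).map Phi`, of dimension the sum
  over `i` of the dimensions of `(SZ κ_i R_i A (t-1)).map bd`.
* `B08_le`: for each `i`: `(SZ κ_i R_i A (t-1)).map bd ≤ SZ κ_i R_i A t ⊓ ker bd`, so that the natural
  subtractions behave. Indeed for `f ∈ SZ κ_i R_i A (t-1)` the vector
  `x = Phi (f placed at i)` is in `HA (At A (t-1)) ≤ HA A`, so `dS x ∈ HA A` by stability, and it is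
  `Phi (bd f placed at i)`, whose component of label `κ_i - indZ T'` is
  `bd f T' • pT T' (zb i)` (different `T'` give different labels), and `pT T' (zb i) ≠ 0` for
  `T' ⊆ R_i` by `B05_inj`. Hence `bd f T' ≠ 0` implies `κ_i - indZ T' ∈ A`; its total degree is
  `t - 1 + 1`. And `bd (bd f) = 0` (`B08_bdbd`: signs cancel in pairs).
* `B08_main`: combine; the sum over `i : Ix S` of a quantity depending only on `(κ_i, R_i)` is
  `∑_{κ ∈ L} ∑_R finrank (Q κ R) * ..` (`Fintype.sum_sigma`, `Finset.sum_coe_sort`).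
-/

/-- dimension of a product of subspaces -/
theorem b08_pi {ι M : Type*} [Fintype ι] [AddCommGroup M] [Module ℂ M] [Module.Finite ℂ M]
    (W : Submodule ℂ (ι → M)) (p : ι → Submodule ℂ M) (h : ∀ f, f ∈ W ↔ ∀ i, f i ∈ p i) :
    Module.finrank ℂ ↥W = ∑ i, Module.finrank ℂ ↥(p i) := by
  rw [← Module.finrank_pi_fintype ℂ]
  exact LinearEquiv.finrank_eq
    { toFun := fun f i => ⟨f.1 i, (h f.1).mp f.2 i⟩
      map_add' := fun f g => rfl
      map_smul' := fun c f => rfl
      invFun := fun g => ⟨fun i => (g i).1, (h _).mpr fun i => (g i).2⟩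
      left_inv := fun f => rfl
      right_inv := fun g => rfl }

theorem b08_FA_adm (S : CS n H) (A : Set (Fin n → ℤ)) : FA S A ≤ adm S :=
  fun _ hf i T h => (hf i T h).1

theorem b08_map_finrank (S : CS n H) [Module.Finite ℂ H]
    (W : Submodule ℂ (Ix S → Finset (Fin n) → ℂ)) (hW : W ≤ adm S) :
    Module.finrank ℂ ↥(W.map (Phi S)) = Module.finrank ℂ ↥W := by
  have hinj : Function.Injective ((Phi S).domRestrict W) := by
    rw [injective_iff_map_eq_zero]
    intro f hf
    apply Subtype.ext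
    exact B05_inj S f.1 (hW f.2) hf
  have e := LinearEquiv.finrank_eq (LinearEquiv.ofInjective _ hinj)
  rw [e, LinearMap.range_domRestrict]

theorem b08_FA_iff (S : CS n H) (A : Set (Fin n → ℤ)) (t : ℤ)
    (f : Ix S → Finset (Fin n) → ℂ) :
    f ∈ FA S (At A t) ↔ ∀ i, f i ∈ SZ i.1.1.1 i.1.2 A t := Iff.rfl

theorem B08_ker (S : CS n H) [Module.Finite ℂ H] (A : Set (Fin n → ℤ)) (t : ℤ) :
    Module.finrank ℂ ↥(S.HA (At A t) ⊓ LinearMap.ker S.dS) =
      ∑ i : Ix S, Module.finrank ℂ ↥(SZ i.1.1.1 i.1.2 A t ⊓ LinearMap.ker bd) := by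
  have e : S.HA (At A t) ⊓ LinearMap.ker S.dS =
      (FA S (At A t) ⊓ LinearMap.ker (bdI S)).map (Phi S) := by
    rw [← B06_map]
    apply le_antisymm
    · rintro _ ⟨⟨f, hf, rfl⟩, h2⟩
      refine ⟨f, ⟨hf, ?_⟩, rfl⟩
      have hadm := b08_FA_adm S _ hf
      rw [SetLike.mem_coe, LinearMap.mem_ker, B07_chain S f hadm] at h2
      exact B05_inj S _ (B07_adm S f hadm) h2
    · rintro _ ⟨f, ⟨hf, h2⟩, rfl⟩
      refine ⟨⟨f, hf, rfl⟩, ?_⟩
      have hadm := b08_FA_adm S _ hf
      rw [SetLike.mem_coe, LinearMap.mem_ker] at h2 ⊢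
      rw [B07_chain S f hadm, h2, map_zero]
  rw [e, b08_map_finrank S _ (inf_le_left.trans (b08_FA_adm S _))]
  apply b08_pi
  intro f
  constructor
  · rintro ⟨h1, h2⟩ i
    exact ⟨h1 i, congrFun h2 i⟩
  · intro h
    exact ⟨fun i => (h i).1, funext fun i => (h i).2⟩

end H95H
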