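import Pool.Agent.Lib.H95H.B08a

namespace H95H

variable {n : ℕ} {H : Type*} [AddCommGroup H] [Module ℂ H]

/-!
# Chunk B08: dimension count

Let `A` be a set of labels with `HA A` stable under `dS`, `t` an integer.
* `B08_ker`: `HA (At A t) ⊓ ker dS = (FA (At A t) ⊓ ker (bdI)).map Phi`, from `B06_map`, `B07_chain`,
  `B07_adm`, `B05_inj`. So its dimension is that of `FA (At A t) ⊓ ker bdI` (`B05_inj`:
  `Phi` is injective on `adm ⊇ FA`), and the latter is the product over `i : Ix S` of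
  `SZ κ_i R_i A t ⊓ ker bd` (`Submodule.pi`; dimension = sum over `i`).
* `B08_map`: `(HA (At A (t-1))).map dS = ((FA (At A (t-1))).map bdI).map Phi`, of dimension the sum
  over `i` of the dimensions of `(SZ κ_i R_i A (t-1)).map bd`.
* `B08_le`: for each `i`: `(SZ κ_i R_i A (t-1)).map bd ≤ SZ κ_i R_i A t ⊓ ker bd`, so that the natural
  subtractions behave. Indeed for `f ∈ SZ κ_i R_i A (t-1)` the vector
  `x = Phi (f placed at i)` is in `HA (At A (t-1)) ≤ HA A`, so `dS x ∈ HA A` by stability, and it is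
  `Phi (bd f placed at i)`, whose component of label `κ_i - indZ T'` is
  `bd f T' • pT T' (zb i)` (different `T'` give different labels), and `pT T' (zb i) ≠ 0` for
  `T' ⊆ R_i` by `B05_inj`. Hence `bd f T' ≠ 0` implies `κ_i - indZ T' ∈ A`; its total degree is
  `t - 1 + 1`. And `bd (bd f) = 0` (`B08_bdbd`: signs cancel in pairs).
* `B08_main`: combine; the sum over `i : Ix S` of a quantity depending only on `(κ_i, R_i)` is
  `∑_{κ ∈ L} ∑_R finrank (Q κ R) * ..` (`Fintype.sum_sigma`, `Finset.sum_coe_sort`).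
-/

theorem B08_map (S : CS n H) [Module.Finite ℂ H] (A : Set (Fin n → ℤ)) (t : ℤ) :
    Module.finrank ℂ ↥((S.HA (At A t)).map S.dS) =
      ∑ i : Ix S, Module.finrank ℂ ↥((SZ i.1.1.1 i.1.2 A t).map bd) := by
  have e : (S.HA (At A t)).map S.dS = ((FA S (At A t)).map (bdI S)).map (Phi S) := by
    rw [← B06_map]
    apply le_antisymm
    · rintro _ ⟨_, ⟨f, hf, rfl⟩, rfl⟩
      rw [B07_chain S f (b08_FA_adm S _ hf)]
      exact ⟨bdI S f, ⟨f, hf, rfl⟩, rfl⟩
    · rintro _ ⟨_, ⟨f, hf, rfl⟩, rfl⟩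
      rw [← B07_chain S f (b08_FA_adm S _ hf)]
      exact ⟨Phi S f, ⟨f, hf, rfl⟩, rfl⟩
  have hW : (FA S (At A t)).map (bdI S) ≤ adm S := by
    rintro _ ⟨f, hf, rfl⟩
    exact B07_adm S f (b08_FA_adm S _ hf)
  rw [e, b08_map_finrank S _ hW]
  apply b08_pi
  intro g
  constructor
  · rintro ⟨f, hf, rfl⟩ i
    exact ⟨f i, hf i, rfl⟩
  · intro h
    choose f hf1 hf2 using h
    exact ⟨f, hf1, funext hf2⟩

end H95H
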