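import Pool.Agent.Lib.H95H.B08a

namespace H95H

variable {n : ℕ} {H : Type*} [AddCommGroup H] [Module ℂ H]

/-!
# Chunk B08: dimension count

Let `A` be a set of labels with `HA A` stable under `dS`, `t` an integer.
* `B08_ker`: `HA (At A t) ⊓ ker dS = (FA (At A t) ⊓ ker (bdI)).map Phi`, from `B06_map`, `B07_chain`,
  `B07_adm`, `B05_inj`. So its dimension is that of `FA (At A t) ⊓ ker bdI` (`B05_inj`:
  `Phi` is injective on `adm ⊇ FA`), and the latter is the product over `i : Ix S` of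
  `SZ κ_i R_i A t ⊓ ker bd` (`Submodule.pi`; dimension = sum over `i`).
* `B08_map`: `(HA (At A (t-1))).map dS = ((FA (At A (t-1))).map bdI).map Phi`, of dimension the sum
  over `i` of the dimensions of `(SZ κ_i R_i A (t-1)).map bd`.
* `B08_le`: for each `i`: `(SZ κ_i R_i A (t-1)).map bd ≤ SZ κ_i R_i A t ⊓ ker bd`, so that the natural
  subtractions behave. Indeed for `f ∈ SZ κ_i R_i A (t-1)` the vector
  `x = Phi (f placed at i)` is in `HA (At A (t-1)) ≤ HA A`, so `dS x ∈ HA A` by stability, and it is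
  `Phi (bd f placed at i)`, whose component of label `κ_i - indZ T'` is
  `bd f T' • pT T' (zb i)` (different `T'` give different labels), and `pT T' (zb i) ≠ 0` for
  `T' ⊆ R_i` by `B05_inj`. Hence `bd f T' ≠ 0` implies `κ_i - indZ T' ∈ A`; its total degree is
  `t - 1 + 1`. And `bd (bd f) = 0` (`B08_bdbd`: signs cancel in pairs).
* `B08_main`: combine; the sum over `i : Ix S` of a quantity depending only on `(κ_i, R_i)` is
  `∑_{κ ∈ L} ∑_R finrank (Q κ R) * ..` (`Fintype.sum_sigma`, `Finset.sum_coe_sort`).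
-/

theorem b08_bd (f : Finset (Fin n) → ℂ) (T : Finset (Fin n)) :
    bd f T = ∑ s ∈ Tᶜ, ((sg s T : ℤ) : ℂ) * f (insert s T) := rfl

theorem b08_sg (s r : Fin n) (T : Finset (Fin n)) (hs : s ∉ T) :
    sg r (insert s T) = sg r T * (if s < r then -1 else 1) := by
  unfold sg
  rw [Finset.filter_insert]
  split_ifs with h
  · rw [Finset.card_insert_of_notMem (fun h' => hs (Finset.mem_filter.mp h').1), pow_succ]
  · rw [mul_one]

theorem B08_bdbd (f : Finset (Fin n) → ℂ) : bd (bd f) = 0 := by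
  funext T
  rw [b08_bd, Pi.zero_apply]
  obtain ⟨F, hF⟩ : ∃ F : Fin n → Fin n → ℂ, F = fun s r => if s ∉ T ∧ r ∉ T ∧ r ≠ s then
    ((sg s T : ℤ) : ℂ) * (((sg r (insert s T) : ℤ) : ℂ) * f (insert r (insert s T))) else 0 :=
    ⟨_, rfl⟩
  have e1 : ∑ s ∈ Tᶜ, ((sg s T : ℤ) : ℂ) * bd f (insert s T) = ∑ s, ∑ r, F s r := by
    rw [← Finset.sum_filter_add_sum_filter_not Finset.univ (fun s => s ∉ T)]
    have h0 : ∑ s ∈ Finset.univ.filter (fun s => ¬ (s ∉ T)), ∑ r, F s r = 0 := by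
      apply Finset.sum_eq_zero
      intro s hs
      apply Finset.sum_eq_zero
      intro r _
      rw [hF]
      exact if_neg fun h => (Finset.mem_filter.mp hs).2 h.1
    rw [h0, add_zero]
    have h1 : Tᶜ = Finset.univ.filter (fun s => s ∉ T) := by
      ext s
      simp
    rw [h1]
    apply Finset.sum_congr rfl
    intro s hs
    have hsT := (Finset.mem_filter.mp hs).2
    rw [b08_bd, Finset.mul_sum]
    have h2 : (insert s T)ᶜ = Finset.univ.filter (fun r => r ∉ T ∧ r ≠ s) := by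
      ext r
      simp only [Finset.mem_compl, Finset.mem_insert, not_or, Finset.mem_filter,
        Finset.mem_univ, true_and]
      tauto
    rw [h2, Finset.sum_filter]
    apply Finset.sum_congr rfl
    intro r _
    rw [hF]
    by_cases h : r ∉ T ∧ r ≠ s
    · rw [if_pos h]
      exact (if_pos ⟨hsT, h⟩).symm
    · rw [if_neg h]
      exact (if_neg fun h' => h h'.2).symm
  have e2 : ∀ s r, F r s = - F s r := by
    intro s r
    rw [hF]
    by_cases h : s ∉ T ∧ r ∉ T ∧ r ≠ s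
    · have h' : r ∉ T ∧ s ∉ T ∧ s ≠ r := ⟨h.2.1, h.1, h.2.2.symm⟩
      simp only [if_pos h, if_pos h']
      rw [b08_sg s r T h.1, b08_sg r s T h.2.1, Finset.insert_comm r s T]
      rcases lt_or_gt_of_ne h.2.2 with hlt | hlt
      · rw [if_pos hlt, if_neg (not_lt.mpr hlt.le)]
        push_cast
        ring
      · rw [if_pos hlt, if_neg (not_lt.mpr hlt.le)]
        push_cast
        ring
    · have h' : ¬ (r ∉ T ∧ s ∉ T ∧ s ≠ r) := fun h' => h ⟨h'.2.1, h'.1, h'.2.2.symm⟩
      simp only [if_neg h, if_neg h', neg_zero]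
  rw [e1]
  have e3 : ∑ s, ∑ r, F s r = - ∑ s, ∑ r, F s r := by
    conv_lhs => rw [Finset.sum_comm]
    rw [← Finset.sum_neg_distrib]
    apply Finset.sum_congr rfl
    intro s _
    rw [← Finset.sum_neg_distrib]
    exact Finset.sum_congr rfl fun r _ => e2 s r
  exact self_eq_neg.mp e3

theorem B08_le (S : CS n H) [Module.Finite ℂ H] (A : Set (Fin n → ℤ))
    (hA : ∀ x ∈ S.HA A, S.dS x ∈ S.HA A) (t : ℤ) (i : Ix S) :
    Module.finrank ℂ ↥((SZ i.1.1.1 i.1.2 A (t - 1)).map bd) ≤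
      Module.finrank ℂ ↥(SZ i.1.1.1 i.1.2 A t ⊓ LinearMap.ker bd) := by
  apply Submodule.finrank_mono
  rintro _ ⟨f, hf, rfl⟩
  refine ⟨?_, B08_bdbd f⟩
  obtain ⟨g, hg⟩ : ∃ g : Ix S → Finset (Fin n) → ℂ, g = Pi.single i f := ⟨_, rfl⟩
  have hgi : g i = f := by rw [hg, Pi.single_eq_same]
  have hgFA : g ∈ FA S (At A (t - 1)) := by
    intro j T hT
    by_cases hj : j = i
    · subst hj
      rw [hgi] at hT
      exact hf T hT
    · rw [hg, Pi.single_eq_of_ne hj] at hT
      exact absurd rfl hT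
  have hgA : g ∈ FA S A := fun j T hT => ⟨(hgFA j T hT).1, (hgFA j T hT).2.1⟩
  have hadm := b08_FA_adm S _ hgFA
  have hx : Phi S g ∈ S.HA A := by
    rw [← B06_map]
    exact ⟨g, hgA, rfl⟩
  have h2 := hA _ hx
  rw [B07_chain S g hadm, ← B06_map] at h2
  obtain ⟨h, hh, he⟩ := h2
  have h3 : h - bdI S g = 0 := by
    apply B05_inj S
    · exact sub_mem (b08_FA_adm S _ hh) (B07_adm S g hadm)
    · rw [map_sub, he, sub_self]
  have h4 : bdI S g = h := (sub_eq_zero.mp h3).symm
  intro T hT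
  have h5 : bdI S g i T ≠ 0 := by
    show bd (g i) T ≠ 0
    rw [hgi]
    exact hT
  have h6 := hh i T (by rw [← h4]; exact h5)
  refine ⟨h6.1, h6.2, ?_⟩
  have h7 : bd f T ≠ 0 := hT
  rw [b08_bd] at h7
  obtain ⟨s, hs, hs2⟩ := Finset.exists_ne_zero_of_sum_ne_zero h7
  have h8 : f (insert s T) ≠ 0 := fun h0 => hs2 (by rw [h0, mul_zero])
  have h9 := (hf _ h8).2.2
  have hsT : s ∉ T := Finset.mem_compl.mp hs
  rw [b03_ind T s hsT, ← sub_sub] at h9
  have h10 : ∑ r, (i.1.1.1 - indZ T - Pi.single s 1 : Fin n → ℤ) r =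
      ∑ r, (i.1.1.1 - indZ T : Fin n → ℤ) r - 1 := by
    have : ∑ r, (Pi.single s 1 : Fin n → ℤ) r = 1 := by
      rw [Finset.sum_eq_single s]
      · rw [Pi.single_eq_same]
      · intro r _ hr
        rw [Pi.single_eq_of_ne hr]
      · intro h'
        exact absurd (Finset.mem_univ _) h'
    simp only [Pi.sub_apply] at this ⊢
    rw [Finset.sum_sub_distrib, this]
  rw [h10] at h9
  linarith

end H95H
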