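import Pool.Agent.Lib.H95H.B08b
import Pool.Agent.Lib.H95H.B08c

namespace H95H

variable {n : ℕ} {H : Type*} [AddCommGroup H] [Module ℂ H]

/-!
# Chunk B08: dimension count

Let `A` be a set of labels with `HA A` stable under `dS`, `t` an integer.
* `B08_ker`: `HA (At A t) ⊓ ker dS = (FA (At A t) ⊓ ker (bdI)).map Phi`, from `B06_map`, `B07_chain`,
  `B07_adm`, `B05_inj`. So its dimension is that of `FA (At A t) ⊓ ker bdI` (`B05_inj`:
  `Phi` is injective on `adm ⊇ FA`), and the latter is the product over `i : Ix S` of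
  `SZ κ_i R_i A t ⊓ ker bd` (`Submodule.pi`; dimension = sum over `i`).
* `B08_map`: `(HA (At A (t-1))).map dS = ((FA (At A (t-1))).map bdI).map Phi`, of dimension the sum
  over `i` of the dimensions of `(SZ κ_i R_i A (t-1)).map bd`.
* `B08_le`: for each `i`: `(SZ κ_i R_i A (t-1)).map bd ≤ SZ κ_i R_i A t ⊓ ker bd`, so that the natural
  subtractions behave. Indeed for `f ∈ SZ κ_i R_i A (t-1)` the vector
  `x = Phi (f placed at i)` is in `HA (At A (t-1)) ≤ HA A`, so `dS x ∈ HA A` by stability, and it is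
  `Phi (bd f placed at i)`, whose component of label `κ_i - indZ T'` is
  `bd f T' • pT T' (zb i)` (different `T'` give different labels), and `pT T' (zb i) ≠ 0` for
  `T' ⊆ R_i` by `B05_inj`. Hence `bd f T' ≠ 0` implies `κ_i - indZ T' ∈ A`; its total degree is
  `t - 1 + 1`. And `bd (bd f) = 0` (`B08_bdbd`: signs cancel in pairs).
* `B08_main`: combine; the sum over `i : Ix S` of a quantity depending only on `(κ_i, R_i)` is
  `∑_{κ ∈ L} ∑_R finrank (Q κ R) * ..` (`Fintype.sum_sigma`, `Finset.sum_coe_sort`).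
-/

theorem B08_main (S : CS n H) [Module.Finite ℂ H] (A : Set (Fin n → ℤ))
    (hA : ∀ x ∈ S.HA A, S.dS x ∈ S.HA A) (t : ℤ) :
    Module.finrank ℂ ↥(S.HA (At A t) ⊓ LinearMap.ker S.dS) -
        Module.finrank ℂ ↥((S.HA (At A (t - 1))).map S.dS) =
      ∑ κ ∈ S.L, ∑ R : Finset (Fin n), Module.finrank ℂ ↥(S.Q κ R) * hz κ R A t := by
  rw [B08_ker, B08_map, ← Finset.sum_tsub_distrib _ fun i _ => B08_le S A hA t i,
    Fintype.sum_sigma, Fintype.sum_prod_type,
    ← Finset.sum_coe_sort S.L fun κ => ∑ R : Finset (Fin n), Module.finrank ℂ ↥(S.Q κ R) * hz κ R A t]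
  refine Finset.sum_congr rfl fun κ _ => Finset.sum_congr rfl fun R _ => ?_
  show ∑ _y : Fin (Module.finrank ℂ ↥(S.Q κ.1 R)), hz κ.1 R A t = _
  rw [Finset.sum_const, Finset.card_univ, Fintype.card_fin, smul_eq_mul]

end H95H
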