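import Pool.Agent.Lib.H95H.Defs

namespace H95H

variable {n : ℕ} {H : Type*} [AddCommGroup H] [Module ℂ H]

/-!
# Chunk B09: recovering the dimensions of the top corners

* `B09_comm`: let `a r` (`r : Fin n`) be commuting idempotent endomorphisms of a finite-dimensional
  space `Z`, `Y` a set. Then the dimension of `{z | a s z = z for s ∈ Y}` is the sum over `R ⊇ Y` of
  the dimensions of `{z | a r z = z for r ∈ R, a r z = 0 for r ∉ R}`. Proof: induction over the set
  of indices not yet decided: for a finite set `B` disjoint from `Y` show that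
  the dimension of `{z | a s z = z for s ∈ Y}` is the sum over `B' ⊆ B` of the dimensions of
  `{z | a s z = z for s ∈ Y ∪ B', a s z = 0 for s ∈ B \ B'}`: each step splits a space stable under
  `a s` as `ker ⊕ range` (`z = a s z + (z - a s z)`). At the end `B = Yᶜ`.
* `B09_Z`: for `z` of label `κ` (`pr κ z = z`): `dS z = 0` iff `d r z = 0` for all `r` (the `d r z` have
  the distinct labels `κ + e_r`). If `s` is an index, then there is `y` of label `κ - e_s` with
  `dS y = z` iff (all `d r z = 0` and) `d s (p s z) = z`: `→`: the component of `dS y = z` at the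
  label `κ - e_s + e_r` is `d r y`; it is `0` for `r ≠ s` and `d s y = z`, so
  `d s (p s z) = d s (p s (d s y)) = d s y = z` (`B01_dpd`); `←`: `y = p s z`, as
  `dS (p s z) = d s (p s z) + ∑_{r ≠ s} d r (p s z) = z - ∑ p s (d r z) = z`.
* `B09_main`: let `Z = {z | pr κ z = z, d r z = 0 for all r}`; the operators `a r = d r p r` map `Z` to
  `Z` (for `s ≠ r`: `d s (d r (p r z)) = d r (p r (d s z)) = 0`, `B01_a_d`; label: `d_pr`, `p_pr`), they are
  commuting idempotents on `Z`, and for `z ∈ Z`: `a r z = 0` iff `p r z = 0`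
  (`p r z = p r (d r (p r z))`, `B01_pdp`). Apply `B09_comm` on `Z`.
-/

/-- the simultaneous eigenspaces -/
noncomputable def b09_E {Z : Type*} [AddCommGroup Z] [Module ℂ Z] (a : Fin n → Z →ₗ[ℂ] Z)
    (U V : Finset (Fin n)) : Submodule ℂ Z :=
  (⨅ r ∈ U, LinearMap.ker (a r - LinearMap.id)) ⊓ (⨅ r ∈ V, LinearMap.ker (a r))

theorem b09_mem {Z : Type*} [AddCommGroup Z] [Module ℂ Z] (a : Fin n → Z →ₗ[ℂ] Z)
    (U V : Finset (Fin n)) (z : Z) :
    z ∈ b09_E a U V ↔ (∀ r ∈ U, a r z = z) ∧ (∀ r ∈ V, a r z = 0) := by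
  unfold b09_E
  rw [Submodule.mem_inf, Submodule.mem_iInf, Submodule.mem_iInf]
  simp only [Submodule.mem_iInf, LinearMap.mem_ker, LinearMap.sub_apply, LinearMap.id_apply,
    sub_eq_zero]

theorem b09_step {Z : Type*} [AddCommGroup Z] [Module ℂ Z] [Module.Finite ℂ Z]
    (a : Fin n → Z →ₗ[ℂ] Z) (hi : ∀ r z, a r (a r z) = a r z)
    (hc : ∀ r s z, a r (a s z) = a s (a r z)) (U V : Finset (Fin n)) (s : Fin n) :
    Module.finrank ℂ ↥(b09_E a U V) =
      Module.finrank ℂ ↥(b09_E a U (insert s V)) + Module.finrank ℂ ↥(b09_E a (insert s U) V) := by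
  rw [← Submodule.finrank_sup_add_finrank_inf_eq]
  have h1 : b09_E a U (insert s V) ⊓ b09_E a (insert s U) V = ⊥ := by
    rw [eq_bot_iff]
    rintro z ⟨h1, h2⟩
    rw [SetLike.mem_coe, b09_mem] at h1 h2
    rw [Submodule.mem_bot, ← h2.1 s (Finset.mem_insert_self _ _),
      h1.2 s (Finset.mem_insert_self _ _)]
  have h2 : b09_E a U (insert s V) ⊔ b09_E a (insert s U) V = b09_E a U V := by
    apply le_antisymm
    · apply sup_le
      · intro z hz
        rw [b09_mem] at hz ⊢
        exact ⟨hz.1, fun r hr => hz.2 r (Finset.mem_insert_of_mem hr)⟩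
      · intro z hz
        rw [b09_mem] at hz ⊢
        exact ⟨fun r hr => hz.1 r (Finset.mem_insert_of_mem hr), hz.2⟩
    · intro z hz
      rw [b09_mem] at hz
      rw [Submodule.mem_sup]
      refine ⟨z - a s z, ?_, a s z, ?_, sub_add_cancel _ _⟩
      · rw [b09_mem]
        refine ⟨fun r hr => ?_, fun r hr => ?_⟩
        · rw [map_sub, hc r s, hz.1 r hr]
        · rcases Finset.mem_insert.mp hr with h | h
          · rw [h, map_sub, hi, sub_self]
          · rw [map_sub, hc r s, hz.2 r h, map_zero, sub_self]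
      · rw [b09_mem]
        refine ⟨fun r hr => ?_, fun r hr => ?_⟩
        · rcases Finset.mem_insert.mp hr with h | h
          · rw [h, hi]
          · rw [hc r s, hz.1 r h]
        · rw [hc r s, hz.2 r hr, map_zero]
  rw [h1, h2, finrank_bot, add_zero]

theorem b09_sum {Z : Type*} [AddCommGroup Z] [Module ℂ Z] [Module.Finite ℂ Z]
    (a : Fin n → Z →ₗ[ℂ] Z) (hi : ∀ r z, a r (a r z) = a r z)
    (hc : ∀ r s z, a r (a s z) = a s (a r z)) (Y : Finset (Fin n)) (B : Finset (Fin n)) :
    Module.finrank ℂ ↥(b09_E a Y ∅) =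
      ∑ B' ∈ B.powerset, Module.finrank ℂ ↥(b09_E a (Y ∪ B') (B \ B')) := by
  induction B using Finset.induction_on with
  | empty =>
    rw [Finset.powerset_empty, Finset.sum_singleton, Finset.union_empty, Finset.sdiff_empty]
  | insert s B hs ih =>
    rw [ih, Finset.sum_powerset_insert hs, ← Finset.sum_add_distrib]
    refine Finset.sum_congr rfl fun B' hB' => ?_
    have hsB' : s ∉ B' := fun h => hs (Finset.mem_powerset.mp hB' h)
    have e1 : insert s B \ B' = insert s (B \ B') := by
      rw [Finset.insert_sdiff_of_notMem _ hsB']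
    have e2 : insert s B \ insert s B' = B \ B' := by
      ext q
      simp only [Finset.mem_sdiff, Finset.mem_insert]
      constructor
      · rintro ⟨h1, h2⟩
        rw [not_or] at h2
        exact ⟨h1.resolve_left h2.1, h2.2⟩
      · rintro ⟨h1, h2⟩
        refine ⟨Or.inr h1, ?_⟩
        rintro (h | h)
        · exact hs (h ▸ h1)
        · exact h2 h
    have e3 : Y ∪ insert s B' = insert s (Y ∪ B') := by
      rw [Finset.union_insert]
    rw [e1, e2, e3]
    exact b09_step a hi hc _ _ s

theorem B09_comm {Z : Type*} [AddCommGroup Z] [Module ℂ Z] [Module.Finite ℂ Z]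
    (a : Fin n → Z →ₗ[ℂ] Z) (hi : ∀ r z, a r (a r z) = a r z)
    (hc : ∀ r s z, a r (a s z) = a s (a r z)) (Y : Finset (Fin n)) :
    Module.finrank ℂ ↥(⨅ s ∈ Y, LinearMap.ker (a s - LinearMap.id)) =
      ∑ R ∈ Finset.univ.filter (fun R : Finset (Fin n) => Y ⊆ R),
        Module.finrank ℂ ↥((⨅ r ∈ R, LinearMap.ker (a r - LinearMap.id)) ⊓
          (⨅ r ∈ Rᶜ, LinearMap.ker (a r))) := by
  have e1 : (⨅ s ∈ Y, LinearMap.ker (a s - LinearMap.id)) = b09_E a Y ∅ := by
    unfold b09_E
    simp
  rw [e1, b09_sum a hi hc Y Yᶜ]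
  symm
  refine Finset.sum_nbij' (fun R => R \ Y) (fun B => Y ∪ B) ?_ ?_ ?_ ?_ ?_
  · intro R hR
    rw [Finset.mem_powerset]
    intro q hq
    rw [Finset.mem_compl]
    exact (Finset.mem_sdiff.mp hq).2
  · intro B hB
    rw [Finset.mem_filter]
    exact ⟨Finset.mem_univ _, Finset.subset_union_left⟩
  · intro R hR
    exact Finset.union_sdiff_of_subset (Finset.mem_filter.mp hR).2
  · intro B hB
    have hB' := Finset.mem_powerset.mp hB
    show (Y ∪ B) \ Y = B
    rw [Finset.union_sdiff_left]
    apply Finset.sdiff_eq_self_of_disjoint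
    rw [Finset.disjoint_left]
    intro q hq
    exact Finset.mem_compl.mp (hB' hq)
  · intro R hR
    have hR' := (Finset.mem_filter.mp hR).2
    have e2 : Y ∪ R \ Y = R := Finset.union_sdiff_of_subset hR'
    have e3 : Yᶜ \ (R \ Y) = Rᶜ := by
      ext q
      simp only [Finset.mem_sdiff, Finset.mem_compl, not_and, not_not]
      constructor
      · rintro ⟨h1, h2⟩ h3
        exact h1 (h2 h3)
      · intro h
        exact ⟨fun h' => h (hR' h'), fun h' => absurd h' h⟩
    rw [e2, e3]
    rfl

end H95H
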