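import Pool.Agent.Lib.H95H.B01

namespace H95H

variable {n : ℕ} {H : Type*} [AddCommGroup H] [Module ℂ H]

/-!
# Chunk B09: recovering the dimensions of the top corners

* `B09_comm`: let `a r` (`r : Fin n`) be commuting idempotent endomorphisms of a finite-dimensional
  space `Z`, `Y` a set. Then the dimension of `{z | a s z = z for s ∈ Y}` is the sum over `R ⊇ Y` of
  the dimensions of `{z | a r z = z for r ∈ R, a r z = 0 for r ∉ R}`. Proof: induction over the set
  of indices not yet decided: for a finite set `B` disjoint from `Y` show that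
  the dimension of `{z | a s z = z for s ∈ Y}` is the sum over `B' ⊆ B` of the dimensions of
  `{z | a s z = z for s ∈ Y ∪ B', a s z = 0 for s ∈ B \ B'}`: each step splits a space stable under
  `a s` as `ker ⊕ range` (`z = a s z + (z - a s z)`). At the end `B = Yᶜ`.
* `B09_Z`: for `z` of label `κ` (`pr κ z = z`): `dS z = 0` iff `d r z = 0` for all `r` (the `d r z` have
  the distinct labels `κ + e_r`). If `s` is an index, then there is `y` of label `κ - e_s` with
  `dS y = z` iff (all `d r z = 0` and) `d s (p s z) = z`: `→`: the component of `dS y = z` at the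
  label `κ - e_s + e_r` is `d r y`; it is `0` for `r ≠ s` and `d s y = z`, so
  `d s (p s z) = d s (p s (d s y)) = d s y = z` (`B01_dpd`); `←`: `y = p s z`, as
  `dS (p s z) = d s (p s z) + ∑_{r ≠ s} d r (p s z) = z - ∑ p s (d r z) = z`.
* `B09_main`: let `Z = {z | pr κ z = z, d r z = 0 for all r}`; the operators `a r = d r p r` map `Z` to
  `Z` (for `s ≠ r`: `d s (d r (p r z)) = d r (p r (d s z)) = 0`, `B01_a_d`; label: `d_pr`, `p_pr`), they are
  commuting idempotents on `Z`, and for `z ∈ Z`: `a r z = 0` iff `p r z = 0`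
  (`p r z = p r (d r (p r z))`, `B01_pdp`). Apply `B09_comm` on `Z`.
-/

theorem b09_dS (S : CS n H) (z : H) : S.dS z = ∑ r, S.d r z := by
  unfold CS.dS
  rw [LinearMap.sum_apply]

theorem b09_ne (κ : Fin n → ℤ) (r s : Fin n) (h : s ≠ r) :
    (κ + Pi.single r 1 : Fin n → ℤ) ≠ κ + Pi.single s 1 := by
  intro h'
  have h1 := congrFun (add_left_cancel h') r
  rw [Pi.single_eq_same, Pi.single_eq_of_ne h.symm] at h1
  exact one_ne_zero h1

theorem b09_comp (S : CS n H) (κ : Fin n → ℤ) (z : H) (hz : S.pr κ z = z) (r : Fin n) :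
    S.pr (κ + Pi.single r 1) (S.dS z) = S.d r z := by
  rw [b09_dS, map_sum, Finset.sum_eq_single r]
  · rw [← S.d_pr, hz]
  · intro s _ hs
    have e : S.d s z = S.pr (κ + Pi.single s 1) (S.d s z) := by
      rw [← S.d_pr, hz]
    rw [e]
    exact S.pr_orth _ _ (b09_ne κ r s hs) _
  · intro h
    exact absurd (Finset.mem_univ _) h

theorem B09_Z (S : CS n H) (κ : Fin n → ℤ) (z : H) (hz : S.pr κ z = z) :
    (S.dS z = 0 ↔ ∀ r, S.d r z = 0) ∧
    (S.dS z = 0 → ∀ s, (∃ y, S.pr (κ - Pi.single s 1) y = y ∧ S.dS y = z) ↔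
      S.d s (S.p s z) = z) := by
  have h1 : S.dS z = 0 ↔ ∀ r, S.d r z = 0 := by
    constructor
    · intro h r
      rw [← b09_comp S κ z hz r, h, map_zero]
    · intro h
      rw [b09_dS]
      exact Finset.sum_eq_zero fun r _ => h r
  refine ⟨h1, fun h0 s => ⟨?_, ?_⟩⟩
  · rintro ⟨y, hy1, hy2⟩
    have h2 := b09_comp S _ y hy1 s
    rw [sub_add_cancel, hy2, hz] at h2
    rw [h2, B01_dpd]
  · intro h
    refine ⟨S.p s z, ?_, ?_⟩
    · rw [← S.p_pr, hz]
    · rw [b09_dS, Finset.sum_eq_single s]
      · exact h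
      · intro r _ hr
        rw [b01_dp S r s hr, h1.mp h0 r, map_zero, neg_zero]
      · intro h'
        exact absurd (Finset.mem_univ _) h'

end H95H
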