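import Pool.Agent.Lib.H95H.B09a
import Pool.Agent.Lib.H95H.B09b

namespace H95H

variable {n : ℕ} {H : Type*} [AddCommGroup H] [Module ℂ H]

/-!
# Chunk B09: recovering the dimensions of the top corners

* `B09_comm`: let `a r` (`r : Fin n`) be commuting idempotent endomorphisms of a finite-dimensional
  space `Z`, `Y` a set. Then the dimension of `{z | a s z = z for s ∈ Y}` is the sum over `R ⊇ Y` of
  the dimensions of `{z | a r z = z for r ∈ R, a r z = 0 for r ∉ R}`. Proof: induction over the set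
  of indices not yet decided: for a finite set `B` disjoint from `Y` show that
  the dimension of `{z | a s z = z for s ∈ Y}` is the sum over `B' ⊆ B` of the dimensions of
  `{z | a s z = z for s ∈ Y ∪ B', a s z = 0 for s ∈ B \ B'}`: each step splits a space stable under
  `a s` as `ker ⊕ range` (`z = a s z + (z - a s z)`). At the end `B = Yᶜ`.
* `B09_Z`: for `z` of label `κ` (`pr κ z = z`): `dS z = 0` iff `d r z = 0` for all `r` (the `d r z` have
  the distinct labels `κ + e_r`). If `s` is an index, then there is `y` of label `κ - e_s` with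
  `dS y = z` iff (all `d r z = 0` and) `d s (p s z) = z`: `→`: the component of `dS y = z` at the
  label `κ - e_s + e_r` is `d r y`; it is `0` for `r ≠ s` and `d s y = z`, so
  `d s (p s z) = d s (p s (d s y)) = d s y = z` (`B01_dpd`); `←`: `y = p s z`, as
  `dS (p s z) = d s (p s z) + ∑_{r ≠ s} d r (p s z) = z - ∑ p s (d r z) = z`.
* `B09_main`: let `Z = {z | pr κ z = z, d r z = 0 for all r}`; the operators `a r = d r p r` map `Z` to
  `Z` (for `s ≠ r`: `d s (d r (p r z)) = d r (p r (d s z)) = 0`, `B01_a_d`; label: `d_pr`, `p_pr`), they are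
  commuting idempotents on `Z`, and for `z ∈ Z`: `a r z = 0` iff `p r z = 0`
  (`p r z = p r (d r (p r z))`, `B01_pdp`). Apply `B09_comm` on `Z`.
-/

/-- the cycles of label `κ` -/
def b09_Zk (S : CS n H) (κ : Fin n → ℤ) : Submodule ℂ H where
  carrier := {z | S.pr κ z = z ∧ ∀ r, S.d r z = 0}
  add_mem' := by
    rintro x y ⟨h1, h2⟩ ⟨g1, g2⟩
    exact ⟨by rw [map_add, h1, g1], fun r => by rw [map_add, h2, g2, add_zero]⟩
  zero_mem' := ⟨map_zero _, fun _ => map_zero _⟩
  smul_mem' := by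
    rintro c x ⟨h1, h2⟩
    exact ⟨by rw [map_smul, h1], fun r => by rw [map_smul, h2, smul_zero]⟩

theorem b09_stable (S : CS n H) (κ : Fin n → ℤ) (r : Fin n) (z : H) (hz : z ∈ b09_Zk S κ) :
    S.d r (S.p r z) ∈ b09_Zk S κ := by
  refine ⟨?_, fun s => ?_⟩
  · conv_rhs => rw [← hz.1, S.p_pr, S.d_pr, sub_add_cancel]
  · by_cases h : s = r
    · rw [h, B01_d2]
    · rw [← B01_a_d S r s (Ne.symm h), hz.2 s, map_zero, map_zero]

/-- the idempotents `d r p r` on the cycles -/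
def b09_a (S : CS n H) (κ : Fin n → ℤ) (r : Fin n) : ↥(b09_Zk S κ) →ₗ[ℂ] ↥(b09_Zk S κ) :=
  (S.d r ∘ₗ S.p r).restrict (b09_stable S κ r)

theorem b09_a_coe (S : CS n H) (κ : Fin n → ℤ) (r : Fin n) (z : ↥(b09_Zk S κ)) :
    ((b09_a S κ r z : ↥(b09_Zk S κ)) : H) = S.d r (S.p r (z : H)) := rfl

theorem b09_range (S : CS n H) (κ : Fin n → ℤ) (z : H) :
    z ∈ LinearMap.range (S.pr κ) ↔ S.pr κ z = z := by
  constructor
  · rintro ⟨y, rfl⟩
    exact S.pr_idem κ y
  · intro h
    exact ⟨z, h⟩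

theorem B09_main (S : CS n H) [Module.Finite ℂ H] (κ : Fin n → ℤ) (Y : Finset (Fin n)) :
    Module.finrank ℂ ↥(LinearMap.range (S.pr κ) ⊓ LinearMap.ker S.dS ⊓
        ⨅ s ∈ Y, (LinearMap.range (S.pr (κ - Pi.single s 1))).map S.dS) =
      ∑ R ∈ Finset.univ.filter (fun R : Finset (Fin n) => Y ⊆ R),
        Module.finrank ℂ ↥(S.Q κ R) := by
  have hi : ∀ r z, b09_a S κ r (b09_a S κ r z) = b09_a S κ r z := by
    intro r z
    apply Subtype.ext
    rw [b09_a_coe, b09_a_coe, B01_pdp]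
  have hc : ∀ r s z, b09_a S κ r (b09_a S κ s z) = b09_a S κ s (b09_a S κ r z) := by
    intro r s z
    by_cases h : r = s
    · rw [h]
    · apply Subtype.ext
      rw [b09_a_coe, b09_a_coe, b09_a_coe, b09_a_coe, B01_a_d S r s h, B01_a_p S r s h]
  have h1 := B09_comm (b09_a S κ) hi hc Y
  have e1 : LinearMap.range (S.pr κ) ⊓ LinearMap.ker S.dS ⊓
      (⨅ s ∈ Y, (LinearMap.range (S.pr (κ - Pi.single s 1))).map S.dS) =
      (⨅ s ∈ Y, LinearMap.ker (b09_a S κ s - LinearMap.id)).map (b09_Zk S κ).subtype := by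
    ext z
    rw [Submodule.mem_inf, Submodule.mem_inf, b09_range, LinearMap.mem_ker]
    simp only [Submodule.mem_iInf, Submodule.mem_map, LinearMap.mem_ker, LinearMap.sub_apply,
      LinearMap.id_apply, sub_eq_zero, b09_range]
    constructor
    · rintro ⟨⟨g1, g2⟩, g3⟩
      obtain ⟨k1, k2⟩ := B09_Z S κ z g1
      refine ⟨⟨z, g1, k1.mp g2⟩, fun s hs => ?_, rfl⟩
      apply Subtype.ext
      rw [b09_a_coe]
      exact (k2 g2 s).mp (g3 s hs)
    · rintro ⟨⟨y, g1, g2⟩, g3, rfl⟩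
      obtain ⟨k1, k2⟩ := B09_Z S κ y g1
      have g4 := k1.mpr g2
      refine ⟨⟨g1, g4⟩, fun s hs => ?_⟩
      exact (k2 g4 s).mpr (congrArg Subtype.val (g3 s hs))
  have e2 : ∀ R : Finset (Fin n), S.Q κ R =
      ((⨅ r ∈ R, LinearMap.ker (b09_a S κ r - LinearMap.id)) ⊓
          (⨅ r ∈ Rᶜ, LinearMap.ker (b09_a S κ r))).map (b09_Zk S κ).subtype := by
    intro R
    ext z
    simp only [Submodule.mem_inf, Submodule.mem_iInf, Submodule.mem_map, LinearMap.mem_ker,
      LinearMap.sub_apply, LinearMap.id_apply, sub_eq_zero]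
    constructor
    · rintro ⟨g1, g2, g3, g4⟩
      refine ⟨⟨z, g1, g2⟩, ⟨fun r hr => ?_, fun r hr => ?_⟩, rfl⟩
      · apply Subtype.ext
        rw [b09_a_coe]
        exact g3 r hr
      · apply Subtype.ext
        rw [b09_a_coe]
        show S.d r (S.p r z) = 0
        rw [g4 r (Finset.mem_compl.mp hr), map_zero]
    · rintro ⟨⟨y, g1, g2⟩, ⟨g3, g4⟩, rfl⟩
      refine ⟨g1, g2, fun r hr => congrArg Subtype.val (g3 r hr), fun r hr => ?_⟩
      have g5 : S.d r (S.p r y) = 0 := congrArg Subtype.val (g4 r (Finset.mem_compl.mpr hr))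
      show S.p r y = 0
      rw [← B01_pdp, g5, map_zero]
  rw [e1, Submodule.finrank_map_subtype_eq, h1]
  refine Finset.sum_congr rfl fun R _ => ?_
  rw [e2 R, Submodule.finrank_map_subtype_eq]

/-- if `Q κ R ≠ 0` and `r ∈ R` then the label `κ - e_r` occurs -/
theorem B09_lab (S : CS n H) (κ : Fin n → ℤ) (R : Finset (Fin n)) (z : H) (hz : z ∈ S.Q κ R)
    (hne : z ≠ 0) : κ ∈ S.L ∧ ∀ r ∈ R, ∃ y, S.pr (κ - Pi.single r 1) y ≠ 0 := by
  obtain ⟨h1, h2, h3, h4⟩ := hz
  refine ⟨?_, fun r hr => ⟨S.p r z, ?_⟩⟩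
  · by_contra h
    exact hne (by rw [← h1]; exact S.pr_L κ h z)
  · rw [← S.p_pr, h1]
    intro h
    exact hne (by rw [← h3 r hr, h, map_zero])

end H95H
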