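import Pool.Agent.Lib.H95H.Defs

namespace H95H
open MvPolynomial

variable {m n : ℕ}

/-!
# Chunk C01: relations of contraction and wedge multiplication

Everything is a case distinction for the value at a set `T`. Signs: for `a ≠ b` write
`sgn a (insert b T) = ± sgn a T` with `-` iff `pos b < pos a` (`b ∉ T`), and
`sgn a (T.erase b) = ± sgn a T` with `-` iff `pos b < pos a` (`b ∈ T`); `pos` is injective
(`a.2 < n`), so for `a ≠ b` exactly one of `pos b < pos a`, `pos a < pos b` holds, and this gives the
minus sign when two operations are exchanged. `sgn a (insert a T) = sgn a T`, `sgn a T * sgn a T = 1`.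
* `C01_aa` at `T`: zero unless `a, b ∉ T`, `a ≠ b`; then
  `sgn a T * sgn b (insert a T) * c (insert b (insert a T)) + sgn b T * sgn a (insert b T) * ..`.
* `C01_cc` similar with `erase`.
* `C01_ac`: for `a ≠ b` as before (`insert` and `erase` commute); for `a = b` one of the two terms is
  `0` and the other is `c T`.
* `C01_coann`, `C01_cocre`, `C01_coco`: by definition (`map_smul`, `map_zero`).
-/

theorem c01a_ins (a b : Fin m × Fin n) (T : Finset (Fin m × Fin n)) (hb : b ∉ T) :
    sgn a (insert b T) = (if pos b < pos a then -1 else 1) * sgn a T := by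
  unfold sgn
  rw [Finset.filter_insert]
  by_cases h : pos b < pos a
  · rw [if_pos h, if_pos h, Finset.card_insert_of_notMem (fun h1 => hb (Finset.mem_filter.1 h1).1),
      pow_succ]
    ring
  · rw [if_neg h, if_neg h, one_mul]

theorem c01a_era (a b : Fin m × Fin n) (T : Finset (Fin m × Fin n)) (hb : b ∈ T) :
    sgn a (T.erase b) = (if pos b < pos a then -1 else 1) * sgn a T := by
  have h1 := c01a_ins a b (T.erase b) (Finset.notMem_erase b T)
  rw [Finset.insert_erase hb] at h1
  rw [h1]
  by_cases h : pos b < pos a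
  · rw [if_pos h]
    ring
  · rw [if_neg h]
    ring

theorem c01a_sq (a : Fin m × Fin n) (T : Finset (Fin m × Fin n)) : sgn a T * sgn a T = 1 := by
  unfold sgn
  rw [← pow_add, ← two_mul, pow_mul]
  norm_num

theorem c01a_pos {a b : Fin m × Fin n} (h : a ≠ b) : pos a < pos b ∨ pos b < pos a := by
  rcases lt_trichotomy (pos a) (pos b) with h1 | h1 | h1
  · exact Or.inl h1
  · exfalso
    apply h
    unfold pos at h1
    have ha := a.2.2
    have hb := b.2.2
    have hn : 0 < n := lt_of_le_of_lt (Nat.zero_le _) ha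
    have h2 : a.1.1 = b.1.1 := by
      have e1 : (a.1.1 * n + a.2.1) / n = a.1.1 := by
        rw [mul_comm, Nat.mul_add_div hn, Nat.div_eq_of_lt ha, add_zero]
      have e2 : (b.1.1 * n + b.2.1) / n = b.1.1 := by
        rw [mul_comm, Nat.mul_add_div hn, Nat.div_eq_of_lt hb, add_zero]
      rw [← e1, ← e2, h1]
    rw [h2] at h1
    have h3 : a.2.1 = b.2.1 := by omega
    exact Prod.ext (Fin.ext h2) (Fin.ext h3)
  · exact Or.inr h1

/-- the signs of two exchanged operations are opposite -/
theorem c01a_sign {a b : Fin m × Fin n} (h : a ≠ b) :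
    ((if pos b < pos a then -1 else 1) : ℂ) = -(if pos a < pos b then -1 else 1) := by
  rcases c01a_pos h with h1 | h1
  · rw [if_neg (by omega), if_pos h1]
    norm_num
  · rw [if_pos h1, if_neg (by omega)]

theorem c01a_ann (a : Fin m × Fin n) (c : Kz m n) (T : Finset (Fin m × Fin n)) :
    ann a c T = if a ∈ T then 0 else sgn a T • c (insert a T) := rfl

theorem c01a_cre (a : Fin m × Fin n) (c : Kz m n) (T : Finset (Fin m × Fin n)) :
    cre a c T = if a ∈ T then sgn a T • c (T.erase a) else 0 := rfl

theorem C01_aa (a b : Fin m × Fin n) (c : Kz m n) : ann a (ann b c) + ann b (ann a c) = 0 := by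
  funext T
  rw [Pi.add_apply, Pi.zero_apply, c01a_ann, c01a_ann, c01a_ann, c01a_ann]
  by_cases hab : a = b
  · subst hab
    simp
  by_cases ha : a ∈ T
  · rw [if_pos ha, if_pos (Finset.mem_insert_of_mem ha), smul_zero, ite_self, add_zero]
  by_cases hb : b ∈ T
  · rw [if_pos hb, if_pos (Finset.mem_insert_of_mem hb), smul_zero, ite_self, add_zero]
  have h1 : b ∉ insert a T := by
    rw [Finset.mem_insert]
    rintro (h | h)
    · exact hab h.symm
    · exact hb h
  have h2 : a ∉ insert b T := by
    rw [Finset.mem_insert]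
    rintro (h | h)
    · exact hab h
    · exact ha h
  rw [if_neg ha, if_neg hb, if_neg h1, if_neg h2, c01a_ins b a T ha, c01a_ins a b T hb,
    c01a_sign hab, Finset.insert_comm b a T, smul_smul, smul_smul, ← add_smul]
  have e : sgn a T * ((if pos a < pos b then -1 else 1) * sgn b T) +
      sgn b T * (-(if pos a < pos b then -1 else 1) * sgn a T) = (0 : ℂ) := by ring
  rw [e, zero_smul]

theorem C01_cc (a b : Fin m × Fin n) (c : Kz m n) : cre a (cre b c) + cre b (cre a c) = 0 := by
  funext T
  rw [Pi.add_apply, Pi.zero_apply, c01a_cre, c01a_cre, c01a_cre, c01a_cre]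
  by_cases hab : a = b
  · subst hab
    simp
  by_cases ha : a ∈ T
  swap
  · rw [if_neg ha, if_neg (fun h => ha (Finset.mem_of_mem_erase h)), smul_zero, ite_self, add_zero]
  by_cases hb : b ∈ T
  swap
  · rw [if_neg hb, if_neg (fun h => hb (Finset.mem_of_mem_erase h)), smul_zero, ite_self, add_zero]
  have h1 : b ∈ T.erase a := Finset.mem_erase.2 ⟨fun h => hab h.symm, hb⟩
  have h2 : a ∈ T.erase b := Finset.mem_erase.2 ⟨hab, ha⟩
  rw [if_pos ha, if_pos hb, if_pos h1, if_pos h2, c01a_era b a T ha, c01a_era a b T hb,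
    c01a_sign hab, Finset.erase_right_comm, smul_smul, smul_smul, ← add_smul]
  have e : sgn a T * ((if pos a < pos b then -1 else 1) * sgn b T) +
      sgn b T * (-(if pos a < pos b then -1 else 1) * sgn a T) = (0 : ℂ) := by ring
  rw [e, zero_smul]

end H95H
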