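import Pool.Agent.Lib.H95H.C01a

namespace H95H

open MvPolynomial

variable {m n : ℕ}

/-!
# Chunk C01: relations of contraction and wedge multiplication

Everything is a case distinction for the value at a set `T`. Signs: for `a ≠ b` write
`sgn a (insert b T) = ± sgn a T` with `-` iff `pos b < pos a` (`b ∉ T`), and
`sgn a (T.erase b) = ± sgn a T` with `-` iff `pos b < pos a` (`b ∈ T`); `pos` is injective
(`a.2 < n`), so for `a ≠ b` exactly one of `pos b < pos a`, `pos a < pos b` holds, and this gives the
minus sign when two operations are exchanged. `sgn a (insert a T) = sgn a T`, `sgn a T * sgn a T = 1`.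
* `C01_aa` at `T`: zero unless `a, b ∉ T`, `a ≠ b`; then
  `sgn a T * sgn b (insert a T) * c (insert b (insert a T)) + sgn b T * sgn a (insert b T) * ..`.
* `C01_cc` similar with `erase`.
* `C01_ac`: for `a ≠ b` as before (`insert` and `erase` commute); for `a = b` one of the two terms is
  `0` and the other is `c T`.
* `C01_coann`, `C01_cocre`, `C01_coco`: by definition (`map_smul`, `map_zero`).
-/

theorem C01_ac (a b : Fin m × Fin n) (c : Kz m n) :
    ann a (cre b c) + cre b (ann a c) = if a = b then c else 0 := by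
  funext T
  rw [Pi.add_apply, c01a_ann, c01a_cre, c01a_cre, c01a_ann]
  by_cases hab : a = b
  · subst hab
    rw [if_pos rfl]
    by_cases ha : a ∈ T
    · rw [if_pos ha, if_pos ha, if_neg (Finset.notMem_erase a T), zero_add, c01a_era a a T ha,
        if_neg (lt_irrefl _), one_mul, smul_smul, c01a_sq, one_smul, Finset.insert_erase ha]
    · rw [if_neg ha, if_neg ha, if_pos (Finset.mem_insert_self a T), add_zero, c01a_ins a a T ha,
        if_neg (lt_irrefl _), one_mul, smul_smul, c01a_sq, one_smul, Finset.erase_insert ha]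
  · rw [if_neg hab, Pi.zero_apply]
    by_cases ha : a ∈ T
    · rw [if_pos ha, zero_add]
      by_cases hb : b ∈ T
      · rw [if_pos hb, if_pos (Finset.mem_erase.2 ⟨hab, ha⟩), smul_zero]
      · rw [if_neg hb]
    · rw [if_neg ha]
      by_cases hb : b ∈ T
      · rw [if_pos (Finset.mem_insert_of_mem hb), if_pos hb,
          if_neg (fun h => ha (Finset.mem_of_mem_erase h)), c01a_ins b a T ha, c01a_era a b T hb,
          c01a_sign hab, Finset.erase_insert_of_ne hab, smul_smul, smul_smul, ← add_smul]
        have e : sgn a T * ((if pos a < pos b then -1 else 1) * sgn b T) +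
            sgn b T * (-(if pos a < pos b then -1 else 1) * sgn a T) = (0 : ℂ) := by ring
        rw [e, zero_smul]
      · rw [if_neg hb, if_neg, smul_zero, add_zero]
        rw [Finset.mem_insert]
        rintro (h | h)
        · exact hab h.symm
        · exact hb h

theorem C01_coann (φ : Rg m n →ₗ[ℂ] Rg m n) (a : Fin m × Fin n) (c : Kz m n) :
    co φ (ann a c) = ann a (co φ c) := by
  funext T
  have h1 : ∀ (c : Kz m n) (T : Finset (Fin m × Fin n)), co φ c T = φ (c T) := fun _ _ => rfl
  rw [h1, c01a_ann, c01a_ann, h1]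
  by_cases ha : a ∈ T
  · rw [if_pos ha, if_pos ha, map_zero]
  · rw [if_neg ha, if_neg ha, map_smul]

theorem C01_cocre (φ : Rg m n →ₗ[ℂ] Rg m n) (a : Fin m × Fin n) (c : Kz m n) :
    co φ (cre a c) = cre a (co φ c) := by
  funext T
  have h1 : ∀ (c : Kz m n) (T : Finset (Fin m × Fin n)), co φ c T = φ (c T) := fun _ _ => rfl
  rw [h1, c01a_cre, c01a_cre, h1]
  by_cases ha : a ∈ T
  · rw [if_pos ha, if_pos ha, map_smul]
  · rw [if_neg ha, if_neg ha, map_zero]

theorem C01_coco (φ ψ : Rg m n →ₗ[ℂ] Rg m n) (c : Kz m n) :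
    co φ (co ψ c) = co (φ ∘ₗ ψ) c := rfl

end H95H
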