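import Pool.Agent.Lib.H95H.C01b

namespace H95H
open MvPolynomial

variable {m n : ℕ}

/-!
# Chunk C02: the Koszul and the de Rham differential

Write `koszul c = ∑_a co (mulX a) (ann a c)`, `deRham c = ∑_a co (dX a) (cre a c)`.
* `C02_kk`: `koszul (koszul c) = ∑_{a,b} co (X_a X_b) (ann a (ann b c))` (`C01_coann`, `C01_coco`);
  the sum is minus itself by exchanging `a`, `b` (`C01_aa`, `X_a X_b = X_b X_a`), so it is `0`
  (characteristic `0`: `x = -x → x = 0`, or pair up).
* `C02_rr`: the same with commuting partial derivatives (`pderiv` commute: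
  `MvPolynomial.pderiv_pderiv_comm` or check on monomials).
* `C02_kr`: `koszul (deRham c) + deRham (koszul c)
  = ∑_{a,b} [co (X_a ∂_b) (ann a (cre b c)) + co (∂_b X_a) (cre b (ann a c))]`. As
  `∂_b (X_a f) = X_a ∂_b f + δ_{ab} f` and `ann a (cre b c) = δ_{ab} c - cre b (ann a c)` this is
  `∑_a co (X_a ∂_a) c + ∑_a cre a (ann a c)`. At `T` the second sum is `(card T) • c T`
  (`cre a (ann a c) T = c T` if `a ∈ T`, else `0`) and the first is the Euler operator:
  on a monomial `X^α` it is `(∑_a α a) • X^α`. If `c ∈ MD ω` then every monomial `α` of `c T` has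
  `weight α + ∑_{a ∈ T} wt a = ω`, so `∑_a α a + card T = ∑_i ω.1 i`.
-/

theorem c02a_anti (F : (Fin m × Fin n) → (Fin m × Fin n) → Kz m n) (h : ∀ a b, F a b + F b a = 0) :
    ∑ a, ∑ b, F a b = 0 := by
  have h1 : ∑ a, ∑ b, F a b + ∑ a, ∑ b, F b a = 0 := by
    rw [← Finset.sum_add_distrib]
    refine Finset.sum_eq_zero fun a _ => ?_
    rw [← Finset.sum_add_distrib]
    exact Finset.sum_eq_zero fun b _ => h a b
  have h2 : ∑ a, ∑ b, F b a = ∑ a, ∑ b, F a b := Finset.sum_comm
  rw [h2, ← two_smul ℂ] at h1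
  exact (smul_eq_zero.1 h1).resolve_left two_ne_zero

theorem c02a_pd (a b : Fin m × Fin n) (f : Rg m n) :
    pderiv a (pderiv b f) = pderiv b (pderiv a f) := by
  classical
  have h : ⁅(pderiv a : Derivation ℂ (Rg m n) (Rg m n)),
      (pderiv b : Derivation ℂ (Rg m n) (Rg m n))⁆ = 0 := by
    apply MvPolynomial.derivation_ext
    intro i
    have h1 : ∀ a b : Fin m × Fin n,
        pderiv (R := ℂ) a (pderiv (R := ℂ) b (X i : Rg m n)) = 0 := by
      intro a b
      by_cases hb : i = b
      · subst hb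
        rw [pderiv_X_self, pderiv_one]
      · rw [pderiv_X_of_ne hb, map_zero]
    rw [Derivation.commutator_apply, h1, h1]
    simp
  have h2 := Derivation.commutator_apply (D1 := (pderiv a : Derivation ℂ (Rg m n) (Rg m n)))
    (D2 := (pderiv b : Derivation ℂ (Rg m n) (Rg m n))) (a := f)
  rw [h] at h2
  exact (sub_eq_zero.1 h2.symm)

theorem C02_kk (c : Kz m n) : koszul (koszul c) = 0 := by
  have hk : ∀ c : Kz m n, koszul c = ∑ a, co (mulX a) (ann a c) := by
    intro c
    unfold koszul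
    rw [LinearMap.sum_apply]
    rfl
  rw [hk (koszul c)]
  have h1 : ∀ a ∈ (Finset.univ : Finset (Fin m × Fin n)), co (mulX a) (ann a (koszul c)) =
      ∑ b, co (mulX a ∘ₗ mulX b) (ann a (ann b c)) := by
    intro a _
    rw [hk c, map_sum, map_sum]
    refine Finset.sum_congr rfl fun b _ => ?_
    rw [← C01_coann, C01_coco]
  rw [Finset.sum_congr rfl h1]
  apply c02a_anti
  intro a b
  have h2 : (mulX b ∘ₗ mulX a : Rg m n →ₗ[ℂ] Rg m n) = mulX a ∘ₗ mulX b := by
    apply LinearMap.ext
    intro f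
    unfold mulX
    simp only [LinearMap.comp_apply, LinearMap.mulLeft_apply]
    ring
  rw [h2, ← map_add, C01_aa, map_zero]

theorem C02_rr (c : Kz m n) : deRham (deRham c) = 0 := by
  have hk : ∀ c : Kz m n, deRham c = ∑ a, co (dX a) (cre a c) := by
    intro c
    unfold deRham
    rw [LinearMap.sum_apply]
    rfl
  rw [hk (deRham c)]
  have h1 : ∀ a ∈ (Finset.univ : Finset (Fin m × Fin n)), co (dX a) (cre a (deRham c)) =
      ∑ b, co (dX a ∘ₗ dX b) (cre a (cre b c)) := by
    intro a _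
    rw [hk c, map_sum, map_sum]
    refine Finset.sum_congr rfl fun b _ => ?_
    rw [← C01_cocre, C01_coco]
  rw [Finset.sum_congr rfl h1]
  apply c02a_anti
  intro a b
  have h2 : (dX b ∘ₗ dX a : Rg m n →ₗ[ℂ] Rg m n) = dX a ∘ₗ dX b := by
    apply LinearMap.ext
    intro f
    exact c02a_pd b a f
  rw [h2, ← map_add, C01_cc, map_zero]

end H95H
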