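import Pool.Agent.Lib.H95H.C01b

namespace H95H

open MvPolynomial

variable {m n : ℕ}

/-!
# Chunk C02: the Koszul and the de Rham differential

Write `koszul c = ∑_a co (mulX a) (ann a c)`, `deRham c = ∑_a co (dX a) (cre a c)`.
* `C02_kk`: `koszul (koszul c) = ∑_{a,b} co (X_a X_b) (ann a (ann b c))` (`C01_coann`, `C01_coco`);
  the sum is minus itself by exchanging `a`, `b` (`C01_aa`, `X_a X_b = X_b X_a`), so it is `0`
  (characteristic `0`: `x = -x → x = 0`, or pair up).
* `C02_rr`: the same with commuting partial derivatives (`pderiv` commute: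
  `MvPolynomial.pderiv_pderiv_comm` or check on monomials).
* `C02_kr`: `koszul (deRham c) + deRham (koszul c)
  = ∑_{a,b} [co (X_a ∂_b) (ann a (cre b c)) + co (∂_b X_a) (cre b (ann a c))]`. As
  `∂_b (X_a f) = X_a ∂_b f + δ_{ab} f` and `ann a (cre b c) = δ_{ab} c - cre b (ann a c)` this is
  `∑_a co (X_a ∂_a) c + ∑_a cre a (ann a c)`. At `T` the second sum is `(card T) • c T`
  (`cre a (ann a c) T = c T` if `a ∈ T`, else `0`) and the first is the Euler operator:
  on a monomial `X^α` it is `(∑_a α a) • X^α`. If `c ∈ MD ω` then every monomial `α` of `c T` has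
  `weight α + ∑_{a ∈ T} wt a = ω`, so `∑_a α a + card T = ∑_i ω.1 i`.
-/

/-- auxiliary: number of factors -/
theorem c02b_len (α : (Fin m × Fin n) →₀ ℕ) :
    ∑ i, (Finsupp.weight wt α : Wt m n).1 i = ∑ a, α a := by
  rw [Finsupp.weight_apply, Finsupp.sum_fintype _ _ (by intro a; simp)]
  have h1 : (∑ a : Fin m × Fin n, α a • (wt a : Wt m n)).1 = ∑ a : Fin m × Fin n, α a • (wt a : Wt m n).1 := by
    rw [Prod.fst_sum]
    rfl
  rw [h1]
  simp only [Finset.sum_apply, Pi.smul_apply, smul_eq_mul]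
  rw [Finset.sum_comm]
  refine Finset.sum_congr rfl fun a _ => ?_
  rw [← Finset.mul_sum]
  have h2 : ∑ i, (wt a : Wt m n).1 i = 1 := by
    simp [wt]
  rw [h2, mul_one]

theorem c02b_lenT (T : Finset (Fin m × Fin n)) :
    ∑ i, (∑ a ∈ T, (wt a : Wt m n)).1 i = T.card := by
  have h1 : (∑ a ∈ T, (wt a : Wt m n)).1 = ∑ a ∈ T, (wt a : Wt m n).1 := Prod.fst_sum
  rw [h1]
  simp only [Finset.sum_apply]
  rw [Finset.sum_comm, Finset.card_eq_sum_ones]
  refine Finset.sum_congr rfl fun a _ => ?_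
  simp [wt]

theorem c02b_euler (f : Rg m n) (N t : ℕ) (h : ∀ α, coeff α f ≠ 0 → ∑ a, α a + t = N) :
    ∑ a : Fin m × Fin n, (X a : Rg m n) * pderiv a f + (t : ℂ) • f = (N : ℂ) • f := by
  have hf : f = ∑ α ∈ f.support, monomial α (coeff α f) := (f.support_sum_monomial_coeff).symm
  have h1 : ∀ a : Fin m × Fin n, (X a : Rg m n) * pderiv a f =
      ∑ α ∈ f.support, (α a) • monomial α (coeff α f) := by
    intro a
    conv_lhs => rw [hf]
    rw [map_sum, Finset.mul_sum]
    refine Finset.sum_congr rfl fun α _ => ?_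
    exact X_mul_pderiv_monomial
  simp only [h1]
  rw [Finset.sum_comm]
  have h2 : ∀ α ∈ f.support, ∑ a : Fin m × Fin n, (α a) • monomial α (coeff α f) =
      (∑ a, α a) • monomial α (coeff α f) := by
    intro α _
    rw [← Finset.sum_smul]
  rw [Finset.sum_congr rfl h2]
  have h3 : (t : ℂ) • f = ∑ α ∈ f.support, t • monomial α (coeff α f) := by
    rw [← Finset.smul_sum, ← hf, Nat.cast_smul_eq_nsmul]
  have h4 : (N : ℂ) • f = ∑ α ∈ f.support, N • monomial α (coeff α f) := by
    rw [← Finset.smul_sum, ← hf, Nat.cast_smul_eq_nsmul]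
  rw [h3, h4, ← Finset.sum_add_distrib]
  refine Finset.sum_congr rfl fun α hα => ?_
  rw [← add_smul, h α (by simpa using hα)]

theorem c02b_dx (a b : Fin m × Fin n) :
    (dX b : Rg m n →ₗ[ℂ] Rg m n) ∘ₗ mulX a = mulX a ∘ₗ dX b + if a = b then LinearMap.id else 0 := by
  refine LinearMap.ext fun f => ?_
  have h1 : (dX b : Rg m n →ₗ[ℂ] Rg m n) (mulX a f) = pderiv b (X a * f) := rfl
  have h2 : (mulX a : Rg m n →ₗ[ℂ] Rg m n) (dX b f) = X a * pderiv b f := rfl
  rw [LinearMap.comp_apply, h1, LinearMap.add_apply, LinearMap.comp_apply, h2, pderiv_mul]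
  by_cases hab : a = b
  · subst hab
    simp [pderiv_X_self, add_comm]
  · rw [pderiv_X_of_ne hab]
    simp [hab]

theorem c02b_co_add (φ ψ : Rg m n →ₗ[ℂ] Rg m n) (c : Kz m n) :
    co (φ + ψ) c = co φ c + co ψ c := by
  funext T
  rfl

theorem c02b_sgn (a : Fin m × Fin n) (T : Finset (Fin m × Fin n)) : sgn a (T.erase a) = sgn a T := by
  unfold sgn
  congr 2
  ext b
  simp only [Finset.mem_filter, Finset.mem_erase]
  constructor
  · rintro ⟨⟨_, h1⟩, h2⟩
    exact ⟨h1, h2⟩
  · rintro ⟨h1, h2⟩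
    refine ⟨⟨?_, h1⟩, h2⟩
    rintro rfl
    exact lt_irrefl _ h2

theorem c02b_sgn_sq (a : Fin m × Fin n) (T : Finset (Fin m × Fin n)) : sgn a T * sgn a T = 1 := by
  unfold sgn
  rw [← pow_add, ← two_mul, pow_mul]
  norm_num

theorem c02b_num (c : Kz m n) (T : Finset (Fin m × Fin n)) :
    (∑ a : Fin m × Fin n, cre a (ann a c)) T = (T.card : ℂ) • c T := by
  rw [Finset.sum_apply]
  have h1 : ∀ a : Fin m × Fin n, (cre a (ann a c)) T = if a ∈ T then c T else 0 := by
    intro a
    by_cases ha : a ∈ T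
    · have h2 : (cre a (ann a c)) T = sgn a T • (ann a c) (T.erase a) := by
        change (if a ∈ T then sgn a T • (ann a c) (T.erase a) else 0) = _
        rw [if_pos ha]
      have h3 : (ann a c) (T.erase a) = sgn a (T.erase a) • c (insert a (T.erase a)) := by
        change (if a ∈ T.erase a then 0 else sgn a (T.erase a) • c (insert a (T.erase a))) = _
        rw [if_neg (Finset.notMem_erase a T)]
      rw [h2, h3, Finset.insert_erase ha, c02b_sgn, smul_smul, c02b_sgn_sq, one_smul, if_pos ha]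
    · rw [if_neg ha]
      change (if a ∈ T then sgn a T • (ann a c) (T.erase a) else 0) = _
      rw [if_neg ha]
  simp only [h1]
  rw [Finset.sum_ite_mem, Finset.univ_inter, Finset.sum_const, Nat.cast_smul_eq_nsmul]

theorem C02_kr (ω : Wt m n) (c : Kz m n) (hc : c ∈ MD ω) :
    koszul (deRham c) + deRham (koszul c) = ((∑ i, ω.1 i : ℕ) : ℂ) • c := by
  have hk : ∀ x : Kz m n, koszul x = ∑ a : Fin m × Fin n, co (mulX a) (ann a x) := by
    intro x
    simp [koszul, LinearMap.sum_apply]
  have hd : ∀ x : Kz m n, deRham x = ∑ b : Fin m × Fin n, co (dX b) (cre b x) := by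
    intro x
    simp [deRham, LinearMap.sum_apply]
  have e1 : koszul (deRham c) = ∑ a : Fin m × Fin n, ∑ b : Fin m × Fin n,
      co (mulX a ∘ₗ dX b) (ann a (cre b c)) := by
    rw [hd, map_sum]
    simp only [hk]
    rw [Finset.sum_comm]
    refine Finset.sum_congr rfl fun a _ => Finset.sum_congr rfl fun b _ => ?_
    rw [← C01_coann, C01_coco]
  have e2 : deRham (koszul c) = ∑ a : Fin m × Fin n, ∑ b : Fin m × Fin n,
      co (dX b ∘ₗ mulX a) (cre b (ann a c)) := by
    rw [hk, map_sum]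
    simp only [hd]
    refine Finset.sum_congr rfl fun a _ => Finset.sum_congr rfl fun b _ => ?_
    rw [← C01_cocre, C01_coco]
  have e3 : koszul (deRham c) + deRham (koszul c) =
      ∑ a : Fin m × Fin n, (co (mulX a ∘ₗ dX a) c + cre a (ann a c)) := by
    rw [e1, e2, ← Finset.sum_add_distrib]
    refine Finset.sum_congr rfl fun a _ => ?_
    rw [← Finset.sum_add_distrib]
    have h5 : ∀ b : Fin m × Fin n, co (mulX a ∘ₗ dX b) (ann a (cre b c)) +
        co (dX b ∘ₗ mulX a) (cre b (ann a c)) =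
        if b = a then co (mulX a ∘ₗ dX a) c + cre a (ann a c) else 0 := by
      intro b
      have h6 := C01_ac a b c
      rw [c02b_dx, c02b_co_add]
      by_cases hab : b = a
      · subst hab
        rw [if_pos rfl] at h6
        rw [if_pos rfl, if_pos rfl, ← add_assoc, ← map_add, h6]
        congr 1
      · rw [if_neg (fun h => hab h.symm)] at h6
        rw [if_neg (fun h => hab h.symm), if_neg hab, ← add_assoc, ← map_add, h6, map_zero, zero_add]
        funext T
        rfl
    simp only [h5]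
    rw [Finset.sum_ite_eq' Finset.univ a, if_pos (Finset.mem_univ a)]
  rw [e3, Finset.sum_add_distrib]
  funext T
  rw [Pi.add_apply, c02b_num, Pi.smul_apply, Finset.sum_apply]
  have e4 : ∀ a : Fin m × Fin n, (co (mulX a ∘ₗ dX a) c) T = (X a : Rg m n) * pderiv a (c T) :=
    fun a => rfl
  simp only [e4]
  refine c02b_euler (c T) (∑ i, ω.1 i) T.card fun α hα => ?_
  have h7 := hc T α hα
  rw [← h7, Prod.fst_add]
  simp only [Pi.add_apply]
  rw [Finset.sum_add_distrib, c02b_len, c02b_lenT]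

end H95H
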