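import Pool.Agent.Lib.H95H.A08b
import Pool.Agent.Lib.H95H.C01b

namespace H95H
open MvPolynomial

variable {m n : ℕ}

/-- the hermitian form on chains -/
noncomputable def hc (c c' : Kz m n) : ℂ := ∑ T, fis (c T) (c' T)

/-!
# Chunk C03: the hermitian form on chains, adjointness, weights

* `C03_herm`: from `A08_herm` (sum over the finitely many `T`; a chain is nonzero iff some `c T` is).
* `C03_adj`: `fis (X a * f) g = fis f (pderiv a g)` (`A08_X`), so it suffices that
  `hc (ann a c) c' = hc c (cre a c')`: both are `∑_{T ∌ a} sgn a T * fis (c (insert a T)) (c' T)`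
  (reindex `T ↔ insert a T`; the sign is real and `sgn a (insert a T) = sgn a T`), and that
  `hc (co (mulX a) c) c' = hc c (co (dX a) c')`; use `C01_coann`, additivity.
* `C03_koszul_MD`, `C03_deRham_MD`: `koszul c T = ∑_{a ∉ T} sgn a T X_a c (insert a T)`; a monomial of
  `X_a f` is `β + e_a` with `β` a monomial of `f`, and
  `weight (β + e_a) + ∑_{T} wt = weight β + ∑_{insert a T} wt`. Similarly
  `deRham c T = ∑_{a ∈ T} sgn a T ∂_a (c (T.erase a))` and a monomial of `∂_a f` is `β - e_a`.
* `C03_MD_fin`: a chain in `MD ω` is determined by its coefficients at pairs `(T, α)` with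
  `α (i, l) ≤ ω.1 i`; finitely many.
-/

theorem c03a_fis_zero (g : Rg m n) : fis (0 : Rg m n) g = 0 := by
  have h := A08_herm.smul (0 : ℂ) (0 : Rg m n) g
  rwa [zero_smul, zero_mul] at h

theorem c03a_fis_zero' (f : Rg m n) : fis f (0 : Rg m n) = 0 := by
  rw [A08_herm.symm (0 : Rg m n) f, c03a_fis_zero, map_zero]

theorem C03_herm : Herm (hc : Kz m n → Kz m n → ℂ) where
  add x y z := by
    unfold hc
    rw [← Finset.sum_add_distrib]
    exact Finset.sum_congr rfl fun T _ => A08_herm.add (x T) (y T) (z T)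
  smul c x y := by
    unfold hc
    rw [Finset.mul_sum]
    exact Finset.sum_congr rfl fun T _ => A08_herm.smul c (x T) (y T)
  symm x y := by
    unfold hc
    rw [map_sum]
    exact Finset.sum_congr rfl fun T _ => A08_herm.symm (x T) (y T)
  pos x hx := by
    unfold hc
    rw [Complex.re_sum]
    have h0 : ∀ T, 0 ≤ (fis (x T) (x T)).re := by
      intro T
      by_cases h : x T = 0
      · rw [h, c03a_fis_zero]
        simp
      · exact (A08_herm.pos (x T) h).le
    obtain ⟨T, hT⟩ : ∃ T, x T ≠ 0 := by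
      by_contra hcon
      push Not at hcon
      exact hx (funext hcon)
    exact Finset.sum_pos' (fun T _ => h0 T) ⟨T, Finset.mem_univ T, A08_herm.pos (x T) hT⟩

theorem c03a_hc_sum (ι : Type*) (s : Finset ι) (f : ι → Kz m n) (c' : Kz m n) :
    hc (∑ i ∈ s, f i) c' = ∑ i ∈ s, hc (f i) c' := by
  classical
  induction s using Finset.induction_on with
  | empty =>
    rw [Finset.sum_empty, Finset.sum_empty]
    unfold hc
    exact Finset.sum_eq_zero fun T _ => c03a_fis_zero _
  | insert i s hi ih =>
    rw [Finset.sum_insert hi, Finset.sum_insert hi, C03_herm.add, ih]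

theorem c03a_hc_sum' (ι : Type*) (s : Finset ι) (f : ι → Kz m n) (c : Kz m n) :
    hc c (∑ i ∈ s, f i) = ∑ i ∈ s, hc c (f i) := by
  rw [C03_herm.symm, c03a_hc_sum, map_sum]
  exact Finset.sum_congr rfl fun i _ => (C03_herm.symm (f i) c).symm

theorem c03a_sgn_conj (a : Fin m × Fin n) (T : Finset (Fin m × Fin n)) :
    starRingEnd ℂ (sgn a T) = sgn a T := by
  unfold sgn
  rw [map_pow, map_neg, map_one]

theorem c03a_annadj (a : Fin m × Fin n) (c d : Kz m n) : hc (ann a c) d = hc c (cre a d) := by
  have h1 : hc (ann a c) d = ∑ T ∈ Finset.univ.filter (fun T : Finset (Fin m × Fin n) => a ∉ T),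
      sgn a T * fis (c (insert a T)) (d T) := by
    unfold hc
    rw [Finset.sum_filter]
    refine Finset.sum_congr rfl fun T _ => ?_
    rw [c01a_ann]
    by_cases ha : a ∈ T
    · rw [if_pos ha, if_neg (not_not.2 ha), c03a_fis_zero]
    · rw [if_neg ha, if_pos ha, A08_herm.smul]
  have h2 : hc c (cre a d) = ∑ T ∈ Finset.univ.filter (fun T : Finset (Fin m × Fin n) => a ∈ T),
      sgn a T * fis (c T) (d (T.erase a)) := by
    unfold hc
    rw [Finset.sum_filter]
    refine Finset.sum_congr rfl fun T _ => ?_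
    rw [c01a_cre]
    by_cases ha : a ∈ T
    · rw [if_pos ha, if_pos ha, A08_herm.symm (sgn a T • d (T.erase a)) (c T), A08_herm.smul,
        map_mul, c03a_sgn_conj, ← A08_herm.symm (d (T.erase a)) (c T)]
    · rw [if_neg ha, if_neg ha, c03a_fis_zero']
  rw [h1, h2]
  refine Finset.sum_bij' (fun T _ => insert a T) (fun T _ => T.erase a) ?_ ?_ ?_ ?_ ?_
  · intro T _
    rw [Finset.mem_filter]
    exact ⟨Finset.mem_univ _, Finset.mem_insert_self a T⟩
  · intro T _
    rw [Finset.mem_filter]
    exact ⟨Finset.mem_univ _, Finset.notMem_erase a T⟩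
  · intro T hT
    exact Finset.erase_insert (Finset.mem_filter.1 hT).2
  · intro T hT
    exact Finset.insert_erase (Finset.mem_filter.1 hT).2
  · intro T hT
    have ha := (Finset.mem_filter.1 hT).2
    rw [Finset.erase_insert ha, c01a_ins a a T ha, if_neg (lt_irrefl _), one_mul]

theorem c03a_coadj (a : Fin m × Fin n) (c d : Kz m n) :
    hc (co (mulX a) c) d = hc c (co (dX a) d) := by
  unfold hc
  exact Finset.sum_congr rfl fun T _ => A08_X a (c T) (d T)

theorem C03_adj (c c' : Kz m n) : hc (koszul c) c' = hc c (deRham c') := by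
  have e1 : koszul c = ∑ a, co (mulX a) (ann a c) := by
    unfold koszul
    rw [LinearMap.sum_apply]
    rfl
  have e2 : deRham c' = ∑ a, co (dX a) (cre a c') := by
    unfold deRham
    rw [LinearMap.sum_apply]
    rfl
  rw [e1, e2, c03a_hc_sum, c03a_hc_sum']
  refine Finset.sum_congr rfl fun a _ => ?_
  rw [c03a_coadj, c03a_annadj, C01_cocre]

end H95H
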