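import Pool.Agent.Lib.H95H.C01a

namespace H95H

open MvPolynomial

variable {m n : ℕ}

/-!
# Chunk C03: the hermitian form on chains, adjointness, weights

* `C03_herm`: from `A08_herm` (sum over the finitely many `T`; a chain is nonzero iff some `c T` is).
* `C03_adj`: `fis (X a * f) g = fis f (pderiv a g)` (`A08_X`), so it suffices that
  `hc (ann a c) c' = hc c (cre a c')`: both are `∑_{T ∌ a} sgn a T * fis (c (insert a T)) (c' T)`
  (reindex `T ↔ insert a T`; the sign is real and `sgn a (insert a T) = sgn a T`), and that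
  `hc (co (mulX a) c) c' = hc c (co (dX a) c')`; use `C01_coann`, additivity.
* `C03_koszul_MD`, `C03_deRham_MD`: `koszul c T = ∑_{a ∉ T} sgn a T X_a c (insert a T)`; a monomial of
  `X_a f` is `β + e_a` with `β` a monomial of `f`, and
  `weight (β + e_a) + ∑_{T} wt = weight β + ∑_{insert a T} wt`. Similarly
  `deRham c T = ∑_{a ∈ T} sgn a T ∂_a (c (T.erase a))` and a monomial of `∂_a f` is `β - e_a`.
* `C03_MD_fin`: a chain in `MD ω` is determined by its coefficients at pairs `(T, α)` with
  `α (i, l) ≤ ω.1 i`; finitely many.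
-/

theorem c03b_single (a : Fin m × Fin n) :
    Finsupp.weight wt (Finsupp.single a 1) = (wt a : Wt m n) := by
  rw [Finsupp.weight_apply, Finsupp.sum_single_index (by simp), one_smul]

theorem c03b_mul (ω : Wt m n) (c : Kz m n) (hc : c ∈ MD ω) (a : Fin m × Fin n) :
    co (mulX a) (ann a c) ∈ MD ω := by
  classical
  intro T α h
  have h1 : co (mulX a) (ann a c) T = X a * ann a c T := rfl
  rw [h1, coeff_X_mul'] at h
  by_cases haα : a ∈ α.support
  · rw [if_pos haα, c01a_ann] at h
    by_cases ha : a ∈ T
    · rw [if_pos ha, coeff_zero] at h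
      exact absurd rfl h
    · rw [if_neg ha, coeff_smul] at h
      have h2 := hc (insert a T) (α - Finsupp.single a 1) (fun h3 => h (by rw [h3, smul_zero]))
      rw [Finset.sum_insert ha, ← add_assoc, ← c03b_single a, ← map_add,
        tsub_add_cancel_of_le (Finsupp.single_le_iff.2
          (Nat.one_le_iff_ne_zero.2 (Finsupp.mem_support_iff.1 haα)))] at h2
      exact h2
  · rw [if_neg haα] at h
    exact absurd rfl h

theorem c03b_d (ω : Wt m n) (c : Kz m n) (hc : c ∈ MD ω) (a : Fin m × Fin n) :
    co (dX a) (cre a c) ∈ MD ω := by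
  classical
  intro T α h
  have h1 : co (dX a) (cre a c) T = pderiv a (cre a c T) := rfl
  rw [h1, coeff_pderiv, c01a_cre] at h
  by_cases ha : a ∈ T
  · rw [if_pos ha, coeff_smul] at h
    have h2 := hc (T.erase a) (α + Finsupp.single a 1)
      (fun h3 => h (by rw [h3, smul_zero, zero_mul]))
    rw [map_add, c03b_single, add_assoc, Finset.add_sum_erase T wt ha] at h2
    exact h2
  · rw [if_neg ha, coeff_zero, zero_mul] at h
    exact absurd rfl h

theorem C03_koszul_MD (ω : Wt m n) (c : Kz m n) (hc : c ∈ MD ω) : koszul c ∈ MD ω := by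
  have e1 : koszul c = ∑ a, co (mulX a) (ann a c) := by
    unfold koszul
    rw [LinearMap.sum_apply]
    rfl
  rw [e1]
  exact Submodule.sum_mem _ fun a _ => c03b_mul ω c hc a

theorem C03_deRham_MD (ω : Wt m n) (c : Kz m n) (hc : c ∈ MD ω) : deRham c ∈ MD ω := by
  have e2 : deRham c = ∑ a, co (dX a) (cre a c) := by
    unfold deRham
    rw [LinearMap.sum_apply]
    rfl
  rw [e2]
  exact Submodule.sum_mem _ fun a _ => c03b_d ω c hc a

end H95H
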