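import Pool.Agent.Lib.H95H.Defs

namespace H95H

open MvPolynomial

variable {m n : ℕ}

/-!
# Chunk C03: the hermitian form on chains, adjointness, weights

* `C03_herm`: from `A08_herm` (sum over the finitely many `T`; a chain is nonzero iff some `c T` is).
* `C03_adj`: `fis (X a * f) g = fis f (pderiv a g)` (`A08_X`), so it suffices that
  `hc (ann a c) c' = hc c (cre a c')`: both are `∑_{T ∌ a} sgn a T * fis (c (insert a T)) (c' T)`
  (reindex `T ↔ insert a T`; the sign is real and `sgn a (insert a T) = sgn a T`), and that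
  `hc (co (mulX a) c) c' = hc c (co (dX a) c')`; use `C01_coann`, additivity.
* `C03_koszul_MD`, `C03_deRham_MD`: `koszul c T = ∑_{a ∉ T} sgn a T X_a c (insert a T)`; a monomial of
  `X_a f` is `β + e_a` with `β` a monomial of `f`, and
  `weight (β + e_a) + ∑_{T} wt = weight β + ∑_{insert a T} wt`. Similarly
  `deRham c T = ∑_{a ∈ T} sgn a T ∂_a (c (T.erase a))` and a monomial of `∂_a f` is `β - e_a`.
* `C03_MD_fin`: a chain in `MD ω` is determined by its coefficients at pairs `(T, α)` with
  `α (i, l) ≤ ω.1 i`; finitely many.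
-/

theorem c03c_le (ω : Wt m n) (c : Kz m n) (hc : c ∈ MD ω) (T : Finset (Fin m × Fin n))
    (α : (Fin m × Fin n) →₀ ℕ) (h : coeff α (c T) ≠ 0) (a : Fin m × Fin n) : α a ≤ ω.1 a.1 := by
  have h1 := hc T α h
  rw [← h1, Prod.fst_add, Pi.add_apply]
  refine le_trans ?_ (Nat.le_add_right _ _)
  rw [Finsupp.weight_apply, Finsupp.sum_fintype _ _ (by intro a; simp)]
  have h2 : (∑ a : Fin m × Fin n, α a • (wt a : Wt m n)).1 =
      ∑ a : Fin m × Fin n, α a • (wt a : Wt m n).1 := by
    rw [Prod.fst_sum]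
    rfl
  rw [h2, Finset.sum_apply]
  have h3 : α a = (fun b : Fin m × Fin n => (α b • (wt b : Wt m n).1) a.1) a := by
    simp [wt]
  calc α a = (fun b : Fin m × Fin n => (α b • (wt b : Wt m n).1) a.1) a := h3
    _ ≤ ∑ b : Fin m × Fin n, (α b • (wt b : Wt m n).1) a.1 :=
      Finset.single_le_sum (f := fun b : Fin m × Fin n => (α b • (wt b : Wt m n).1) a.1)
        (fun b _ => Nat.zero_le _) (Finset.mem_univ a)

theorem C03_MD_fin (ω : Wt m n) : Module.Finite ℂ ↥(MD ω : Submodule ℂ (Kz m n)) := by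
  classical
  obtain ⟨S, hS⟩ : ∃ S : Finset ((Fin m × Fin n) →₀ ℕ), S =
      Finset.Iic (Finsupp.equivFunOnFinite.symm (fun a : Fin m × Fin n => ω.1 a.1)) := ⟨_, rfl⟩
  obtain ⟨F, hF⟩ : ∃ F : Finset (Kz m n), F =
      (Finset.univ ×ˢ S).image (fun q => (Pi.single q.1 (monomial q.2 (1 : ℂ)) : Kz m n)) :=
    ⟨_, rfl⟩
  have hle : (MD ω : Submodule ℂ (Kz m n)) ≤ Submodule.span ℂ (F : Set (Kz m n)) := by
    intro c hc
    have e1 : c = ∑ T, (Pi.single T (c T) : Kz m n) := (Finset.univ_sum_single c).symm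
    rw [e1]
    refine Submodule.sum_mem _ fun T _ => ?_
    have e2 : (Pi.single T (c T) : Kz m n) =
        ∑ α ∈ (c T).support, coeff α (c T) • (Pi.single T (monomial α (1 : ℂ)) : Kz m n) := by
      have e3 : c T = ∑ α ∈ (c T).support, coeff α (c T) • (monomial α (1 : ℂ)) := by
        conv_lhs => rw [← (c T).support_sum_monomial_coeff]
        refine Finset.sum_congr rfl fun α _ => ?_
        rw [smul_monomial, smul_eq_mul, mul_one]
      conv_lhs => rw [e3]
      funext T'
      rw [Finset.sum_apply]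
      by_cases h : T' = T
      · subst h
        rw [Pi.single_eq_same]
        refine Finset.sum_congr rfl fun α _ => ?_
        rw [Pi.smul_apply, Pi.single_eq_same]
      · rw [Pi.single_eq_of_ne h]
        symm
        refine Finset.sum_eq_zero fun α _ => ?_
        rw [Pi.smul_apply, Pi.single_eq_of_ne h, smul_zero]
    rw [e2]
    refine Submodule.sum_mem _ fun α hα => Submodule.smul_mem _ _ (Submodule.subset_span ?_)
    rw [hF, Finset.mem_coe, Finset.mem_image]
    refine ⟨(T, α), Finset.mem_product.2 ⟨Finset.mem_univ _, ?_⟩, rfl⟩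
    rw [hS, Finset.mem_Iic]
    intro a
    exact c03c_le ω c hc T α (MvPolynomial.mem_support_iff.1 hα) a
  have hfin : FiniteDimensional ℂ ↥(Submodule.span ℂ (F : Set (Kz m n))) :=
    FiniteDimensional.span_finset ℂ F
  exact Submodule.finiteDimensional_of_le hle

/-- every value of a chain of weight `ω` is a homogeneous polynomial -/
theorem C03_MD_wt (ω : Wt m n) (c : Kz m n) (hc : c ∈ MD ω) (T : Finset (Fin m × Fin n)) :
    ∃ ω' : Wt m n, IsWeightedHomogeneous wt (c T) ω' ∧
      (c T ≠ 0 → ω' + ∑ a ∈ T, wt a = ω) := by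
  by_cases h : c T = 0
  · refine ⟨0, ?_, fun h1 => absurd h h1⟩
    rw [h]
    exact isWeightedHomogeneous_zero ℂ wt 0
  · obtain ⟨α, hα⟩ := MvPolynomial.ne_zero_iff.1 h
    refine ⟨Finsupp.weight wt α, ?_, fun _ => hc T α hα⟩
    intro β hβ
    have h1 := hc T α hα
    have h2 := hc T β hβ
    exact add_right_cancel (h2.trans h1.symm)

end H95H
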