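import Pool.Agent.Lib.H95H.A13a
import Pool.Agent.Lib.H95H.C03a

namespace H95H
open MvPolynomial

variable {n k : ℕ}

/-- integral label of a partition -/
def zl (lam : Fin n → ℕ) : Fin n → ℤ := fun r => (lam r : ℤ)

open Classical in
/-- the projection of chains to the label `κ` (zero if `κ` is not a partition) -/
noncomputable def prC (κ : Fin n → ℤ) : Kz (n + k) n →ₗ[ℂ] Kz (n + k) n :=
  if (∀ r, 0 ≤ κ r) ∧ Antitone κ then co (prV (fun r => (κ r).toNat)) else 0

/-!
# Chunk C04: the label projections on chains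

* `C04_zl`: for antitone `lam`, `prC (zl lam) = co (prV lam)`.
* `C04_cases`: `prC κ = 0` or `κ = zl lam` with `lam` antitone.
* `C04_MD`: `prC κ` maps `MD ω` to `MD ω`: `C03_MD_wt` (each value `c T` is homogeneous of some
  weight `ω'` with `ω' + ∑_T wt = ω` if nonzero) and `A13_wt` (the projection keeps the weight).
* `C04_idem`, `C04_orth`: `C01_coco`, `A13_self`, `prV_mem`, `A13_comp`.
* `C04_adj`: `A13_adj` for each `T`.
* `C04_sum`: `c ∈ MD ω`, `D = ∑ ω.1`: every monomial of `c T` has total row degree `≤ D`; `A13_sum`.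
* `C04_big`: `prC κ c = 0` for `c ∈ MD ω` if `κ ∉ (box n D).image zl` (if `κ = zl lam` with `lam`
  antitone not in the box then `∑ lam > D` and `A13_deg` applies to the homogeneous `c T`: all its
  monomials have total row degree `D - card T`), and also if `∑ κ > D`.
* `C04_deg`: more precisely, for `c ∈ MD ω`: `prC (zl lam) c T = 0` unless
  `∑ lam + card T = ∑ ω.1`.
* `C04_pieri`: `koszul c T = ∑_{a} X_a (ann a c) T` and `(ann a (co φ c)) = co φ (ann a c)`; if
  `prC κ' (koszul (prC κ c)) ≠ 0` then `κ = zl lam`, `κ' = zl mu` and there are `T`, `a` with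
  `prV mu (X a * prV lam (ann a c T)) ≠ 0`, so `mu = lam + e_r` by `A14_mulX`.
-/

theorem C04_zl (lam : Fin n → ℕ) (hlam : Antitone lam) :
    prC (k := k) (zl lam) = co (prV lam) := by
  have h1 : (∀ r, 0 ≤ zl lam r) ∧ Antitone (zl lam) := by
    constructor
    · intro r
      exact Int.natCast_nonneg _
    · intro r s hrs
      exact Int.ofNat_le.2 (hlam hrs)
  unfold prC
  rw [if_pos h1]
  congr 1

theorem C04_cases (κ : Fin n → ℤ) :
    prC (k := k) κ = 0 ∨ ∃ lam : Fin n → ℕ, Antitone lam ∧ κ = zl lam := by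
  by_cases h : (∀ r, 0 ≤ κ r) ∧ Antitone κ
  · refine Or.inr ⟨fun r => (κ r).toNat, ?_, ?_⟩
    · intro r s hrs
      exact Int.toNat_le_toNat (h.2 hrs)
    · funext r
      unfold zl
      exact (Int.toNat_of_nonneg (h.1 r)).symm
  · refine Or.inl ?_
    unfold prC
    rw [if_neg h]

theorem C04_idem (κ : Fin n → ℤ) (c : Kz (n + k) n) : prC κ (prC κ c) = prC κ c := by
  rcases C04_cases (k := k) κ with h | ⟨lam, hlam, rfl⟩
  · rw [h]
    rfl
  · rw [C04_zl lam hlam]
    funext T
    exact A13_self lam _ (prV_mem lam (c T))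

theorem C04_orth (κ κ' : Fin n → ℤ) (h : κ ≠ κ') (c : Kz (n + k) n) : prC κ (prC κ' c) = 0 := by
  rcases C04_cases (k := k) κ with h1 | ⟨lam, hlam, rfl⟩
  · rw [h1]
    rfl
  rcases C04_cases (k := k) κ' with h1 | ⟨mu, hmu, rfl⟩
  · rw [h1]
    simp
  have hne : lam ≠ mu := by
    rintro rfl
    exact h rfl
  rw [C04_zl lam hlam, C04_zl mu hmu]
  funext T
  exact A13_comp lam mu hlam hmu hne (c T)

theorem C04_adj (κ : Fin n → ℤ) (c c' : Kz (n + k) n) : hc (prC κ c) c' = hc c (prC κ c') := by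
  rcases C04_cases (k := k) κ with h1 | ⟨lam, hlam, rfl⟩
  · rw [h1]
    unfold hc
    refine Finset.sum_congr rfl fun T _ => ?_
    have h2 : ((0 : Kz (n + k) n →ₗ[ℂ] Kz (n + k) n) c) T = 0 := rfl
    have h3 : ((0 : Kz (n + k) n →ₗ[ℂ] Kz (n + k) n) c') T = 0 := rfl
    rw [h2, h3]
    have h4 : fis (0 : Rg (n + k) n) (c' T) = 0 := by
      have h5 := A08_herm.smul (0 : ℂ) (0 : Rg (n + k) n) (c' T)
      rwa [zero_smul, zero_mul] at h5
    have h6 : fis (c T) (0 : Rg (n + k) n) = 0 := by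
      rw [A08_herm.symm 0 (c T)]
      have h5 := A08_herm.smul (0 : ℂ) (0 : Rg (n + k) n) (c T)
      rw [zero_smul, zero_mul] at h5
      rw [h5, map_zero]
    rw [h4, h6]
  · rw [C04_zl lam hlam]
    unfold hc
    exact Finset.sum_congr rfl fun T _ => A13_adj lam (c T) (c' T)

end H95H
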