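import Pool.Agent.Lib.H95H.A13b
import Pool.Agent.Lib.H95H.C03c
import Pool.Agent.Lib.H95H.C04a

namespace H95H

open MvPolynomial

variable {n k : ℕ}

/-!
# Chunk C04: the label projections on chains

* `C04_zl`: for antitone `lam`, `prC (zl lam) = co (prV lam)`.
* `C04_cases`: `prC κ = 0` or `κ = zl lam` with `lam` antitone.
* `C04_MD`: `prC κ` maps `MD ω` to `MD ω`: `C03_MD_wt` (each value `c T` is homogeneous of some
  weight `ω'` with `ω' + ∑_T wt = ω` if nonzero) and `A13_wt` (the projection keeps the weight).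
* `C04_idem`, `C04_orth`: `C01_coco`, `A13_self`, `prV_mem`, `A13_comp`.
* `C04_adj`: `A13_adj` for each `T`.
* `C04_sum`: `c ∈ MD ω`, `D = ∑ ω.1`: every monomial of `c T` has total row degree `≤ D`; `A13_sum`.
* `C04_big`: `prC κ c = 0` for `c ∈ MD ω` if `κ ∉ (box n D).image zl` (if `κ = zl lam` with `lam`
  antitone not in the box then `∑ lam > D` and `A13_deg` applies to the homogeneous `c T`: all its
  monomials have total row degree `D - card T`), and also if `∑ κ > D`.
* `C04_deg`: more precisely, for `c ∈ MD ω`: `prC (zl lam) c T = 0` unless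
  `∑ lam + card T = ∑ ω.1`.
* `C04_pieri`: `koszul c T = ∑_{a} X_a (ann a c) T` and `(ann a (co φ c)) = co φ (ann a c)`; if
  `prC κ' (koszul (prC κ c)) ≠ 0` then `κ = zl lam`, `κ' = zl mu` and there are `T`, `a` with
  `prV mu (X a * prV lam (ann a c T)) ≠ 0`, so `mu = lam + e_r` by `A14_mulX`.
-/

theorem c04b_whd {m n : ℕ} {f : Rg m n} {w : Wt m n} (hf : IsWeightedHomogeneous wt f w)
    {α : (Fin m × Fin n) →₀ ℕ} (h : coeff α f ≠ 0) : Finsupp.weight wt α = w := hf h

theorem C04_MD (κ : Fin n → ℤ) (ω : Wt (n + k) n) (c : Kz (n + k) n) (hc : c ∈ MD ω) :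
    prC κ c ∈ MD ω := by
  rcases C04_cases (k := k) κ with h | ⟨lam, hlam, rfl⟩
  · rw [h]
    exact (MD ω).zero_mem
  · rw [C04_zl lam hlam]
    intro T α hα
    have h1 : coeff α (prV lam (c T)) ≠ 0 := hα
    obtain ⟨ω', hω', h2⟩ := C03_MD_wt ω c hc T
    have h3 : c T ≠ 0 := by
      intro h4
      rw [h4, map_zero] at h1
      simp at h1
    rw [c04b_whd (A13_wt lam (c T) ω' hω') h1]
    exact h2 h3

theorem C04_deg (lam : Fin n → ℕ) (hlam : Antitone lam) (ω : Wt (n + k) n) (c : Kz (n + k) n)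
    (hc : c ∈ MD ω) (T : Finset (Fin (n + k) × Fin n)) (h : ∑ r, lam r + T.card ≠ ∑ i, ω.1 i) :
    prC (zl lam) c T = 0 := by
  rw [C04_zl lam hlam]
  show prV lam (c T) = 0
  obtain ⟨ω', hω', h2⟩ := C03_MD_wt ω c hc T
  by_cases h3 : c T = 0
  · rw [h3, map_zero]
  · have h4 := h2 h3
    have h5 : ∑ i, ω'.1 i + T.card = ∑ i, ω.1 i := by
      rw [← h4]
      simp only [Prod.fst_add, Pi.add_apply, Finset.sum_add_distrib]
      congr 1
      rw [Prod.fst_sum]
      simp only [Finset.sum_apply]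
      rw [Finset.sum_comm]
      simp [wt]
    refine A13_deg lam hlam (c T) (∑ i, ω'.1 i) ?_ ?_
    · intro h6
      exact h (by rw [← h6, h5])
    · intro α hα
      rw [c04b_whd hω' hα]

end H95H
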