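import Pool.Agent.Lib.H95H.A13c
import Pool.Agent.Lib.H95H.C04b

namespace H95H

open MvPolynomial

variable {n k : ℕ}

open Classical in

/-!
# Chunk C04: the label projections on chains

* `C04_zl`: for antitone `lam`, `prC (zl lam) = co (prV lam)`.
* `C04_cases`: `prC κ = 0` or `κ = zl lam` with `lam` antitone.
* `C04_MD`: `prC κ` maps `MD ω` to `MD ω`: `C03_MD_wt` (each value `c T` is homogeneous of some
  weight `ω'` with `ω' + ∑_T wt = ω` if nonzero) and `A13_wt` (the projection keeps the weight).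
* `C04_idem`, `C04_orth`: `C01_coco`, `A13_self`, `prV_mem`, `A13_comp`.
* `C04_adj`: `A13_adj` for each `T`.
* `C04_sum`: `c ∈ MD ω`, `D = ∑ ω.1`: every monomial of `c T` has total row degree `≤ D`; `A13_sum`.
* `C04_big`: `prC κ c = 0` for `c ∈ MD ω` if `κ ∉ (box n D).image zl` (if `κ = zl lam` with `lam`
  antitone not in the box then `∑ lam > D` and `A13_deg` applies to the homogeneous `c T`: all its
  monomials have total row degree `D - card T`), and also if `∑ κ > D`.
* `C04_deg`: more precisely, for `c ∈ MD ω`: `prC (zl lam) c T = 0` unless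
  `∑ lam + card T = ∑ ω.1`.
* `C04_pieri`: `koszul c T = ∑_{a} X_a (ann a c) T` and `(ann a (co φ c)) = co φ (ann a c)`; if
  `prC κ' (koszul (prC κ c)) ≠ 0` then `κ = zl lam`, `κ' = zl mu` and there are `T`, `a` with
  `prV mu (X a * prV lam (ann a c T)) ≠ 0`, so `mu = lam + e_r` by `A14_mulX`.
-/

theorem C04_big (κ : Fin n → ℤ) (ω : Wt (n + k) n) (c : Kz (n + k) n) (hc : c ∈ MD ω)
    (h : κ ∉ (box n (∑ i, ω.1 i)).image zl) : prC κ c = 0 := by
  rcases C04_cases (k := k) κ with h1 | ⟨lam, hlam, rfl⟩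
  · rw [h1]
    rfl
  have h2 : ∃ i, ∑ i, ω.1 i < lam i := by
    by_contra h3
    push Not at h3
    apply h
    rw [Finset.mem_image]
    refine ⟨lam, ?_, rfl⟩
    unfold box
    rw [Finset.mem_filter, Fintype.mem_piFinset]
    exact ⟨fun i => Finset.mem_range.2 (Nat.lt_succ_of_le (h3 i)), fun r s hrs => hlam hrs⟩
  obtain ⟨i, hi⟩ := h2
  have h3 : lam i ≤ ∑ r, lam r :=
    Finset.single_le_sum (f := fun r => lam r) (fun _ _ => Nat.zero_le _) (Finset.mem_univ i)
  funext T
  exact C04_deg lam hlam ω c hc T (by omega)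

theorem C04_sum (ω : Wt (n + k) n) (c : Kz (n + k) n) (hc : c ∈ MD ω) :
    ∑ κ ∈ (box n (∑ i, ω.1 i)).image zl, prC κ c = c := by
  have hinj : Function.Injective (zl : (Fin n → ℕ) → (Fin n → ℤ)) := by
    intro a b hab
    funext r
    have h1 := congrFun hab r
    unfold zl at h1
    exact_mod_cast h1
  rw [Finset.sum_image fun a _ b _ hab => hinj hab]
  funext T
  rw [Finset.sum_apply]
  have h1 : ∀ lam ∈ box n (∑ i, ω.1 i), (prC (zl lam) c) T = prV lam (c T) := by
    intro lam hlam
    have hanti : Antitone lam := by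
      unfold box at hlam
      exact fun r s hrs => (Finset.mem_filter.1 hlam).2 r s hrs
    rw [C04_zl lam hanti]
    rfl
  rw [Finset.sum_congr rfl h1]
  refine A13_sum (c T) _ fun α hα => ?_
  have h2 := hc T α hα
  have h3 : ∑ i, ω.1 i = ∑ i, (Finsupp.weight wt α : Wt (n + k) n).1 i +
      ∑ i, (∑ a ∈ T, (wt a : Wt (n + k) n)).1 i := by
    rw [← h2, ← Finset.sum_add_distrib]
    rfl
  omega

end H95H
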