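import Pool.Agent.Lib.H95H.A14b
import Pool.Agent.Lib.H95H.C04a

namespace H95H

open MvPolynomial

variable {n k : ℕ}

open Classical in

/-!
# Chunk C04: the label projections on chains

* `C04_zl`: for antitone `lam`, `prC (zl lam) = co (prV lam)`.
* `C04_cases`: `prC κ = 0` or `κ = zl lam` with `lam` antitone.
* `C04_MD`: `prC κ` maps `MD ω` to `MD ω`: `C03_MD_wt` (each value `c T` is homogeneous of some
  weight `ω'` with `ω' + ∑_T wt = ω` if nonzero) and `A13_wt` (the projection keeps the weight).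
* `C04_idem`, `C04_orth`: `C01_coco`, `A13_self`, `prV_mem`, `A13_comp`.
* `C04_adj`: `A13_adj` for each `T`.
* `C04_sum`: `c ∈ MD ω`, `D = ∑ ω.1`: every monomial of `c T` has total row degree `≤ D`; `A13_sum`.
* `C04_big`: `prC κ c = 0` for `c ∈ MD ω` if `κ ∉ (box n D).image zl` (if `κ = zl lam` with `lam`
  antitone not in the box then `∑ lam > D` and `A13_deg` applies to the homogeneous `c T`: all its
  monomials have total row degree `D - card T`), and also if `∑ κ > D`.
* `C04_deg`: more precisely, for `c ∈ MD ω`: `prC (zl lam) c T = 0` unless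
  `∑ lam + card T = ∑ ω.1`.
* `C04_pieri`: `koszul c T = ∑_{a} X_a (ann a c) T` and `(ann a (co φ c)) = co φ (ann a c)`; if
  `prC κ' (koszul (prC κ c)) ≠ 0` then `κ = zl lam`, `κ' = zl mu` and there are `T`, `a` with
  `prV mu (X a * prV lam (ann a c T)) ≠ 0`, so `mu = lam + e_r` by `A14_mulX`.
-/

theorem C04_pieri (κ κ' : Fin n → ℤ) (c : Kz (n + k) n) (h : prC κ' (koszul (prC κ c)) ≠ 0) :
    ∃ r : Fin n, κ' = κ + Pi.single r 1 := by
  rcases C04_cases (k := k) κ with h1 | ⟨lam, hlam, rfl⟩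
  · exfalso
    apply h
    rw [h1]
    simp
  rcases C04_cases (k := k) κ' with h1 | ⟨mu, hmu, rfl⟩
  · exfalso
    apply h
    rw [h1]
    simp
  obtain ⟨T, hT⟩ := Function.ne_iff.1 h
  rw [C04_zl mu hmu] at hT
  have h2 : (co (prV mu) (koszul (prC (zl lam) c))) T =
      ∑ a : Fin (n + k) × Fin n, prV mu (X a * (ann a (prC (zl lam) c)) T) := by
    change prV mu ((koszul (prC (zl lam) c)) T) = _
    unfold koszul
    rw [LinearMap.sum_apply, Finset.sum_apply, map_sum]
    rfl
  rw [h2] at hT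
  obtain ⟨a, _, ha⟩ := Finset.exists_ne_zero_of_sum_ne_zero hT
  have h3 : (ann a (prC (zl lam) c)) T ∈ V (k := k) lam := by
    rw [C04_zl lam hlam, c01a_ann]
    split_ifs
    · exact Submodule.zero_mem _
    · exact Submodule.smul_mem _ _ (prV_mem lam _)
  obtain ⟨r, hr⟩ := A14_mulX lam mu hlam hmu a _ h3 ha
  refine ⟨r, ?_⟩
  rw [hr]
  funext s
  unfold zl
  simp only [Pi.add_apply, Pi.single_apply, Nat.cast_add]
  split_ifs <;> simp

end H95H
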