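import Pool.Agent.Lib.H95H.P01d

namespace H95H

variable {n : ℕ} {H : Type*} [AddCommGroup H] [Module ℂ H]

/-!
# Chunk P01: the components `d_r` and `P_r`

* `P01_pieriP`: `pr κ' (P (pr κ x)) ≠ 0 → ∃ r, κ = κ' + e_r`: with `y = pr κ' (P (pr κ x))`,
  `h y y = h (pr κ x) .. `: `h y y = h (pr κ' y') y`.. by adjointness
  `0 ≠ h (pr κ' (P (pr κ x))) y = conj (h (d (pr κ' y)) (pr κ x)) = conj (h (pr κ (d (pr κ' y))) x)`,
  so `pr κ (d (pr κ' y)) ≠ 0` and `pieri` applies.
* `P01_dr_pr`: `dr r (pr κ x) = pr (κ + e_r) (d (pr κ x))` for all `κ` (only the term `κ` of the sum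
  survives; if `κ ∉ L` both sides are `0`). Same for `Pr`.
* `P01_dr_comm`: `dr r (pr κ x) = pr (κ + e_r) (dr r x)`: write `x = ∑ pr κ' x`, and apply `P01_dr_pr`.
* `P01_dr_sum`: `∑ r, dr r x = d x`: for `x = pr κ x`,
  `d x = ∑_{κ' ∈ L} pr κ' (d (pr κ x))`, only the `κ' = κ + e_r` contribute (`pieri`), and these are
  distinct for distinct `r`; those `κ + e_r` which are not in `L` give `0` anyway.
* `P01_adj`: from `adj` and `pr_adj`, comparing term by term: `h (pr (κ + e_r) (d (pr κ x))) y =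
  h x (pr κ (P (pr (κ + e_r) y)))`, and reindex (`κ' = κ + e_r`; terms with labels outside `L`
  vanish). Alternatively through labels.
* `P01_dd`: `d_r d_s + d_s d_r = 0`: let `x = pr κ x`. The component of `0 = d (d x)` at the label
  `κ + e_r + e_s` is the sum of `d_{r'} (d_{s'} x)` over all ordered pairs with
  `e_{r'} + e_{s'} = e_r + e_s`, i.e. `{r', s'} = {r, s}` as multisets: for `r ≠ s` this is
  `d_r d_s x + d_s d_r x`, and for `r = s` it is `d_r d_r x`.
* `P01_PP` the same.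
* `P01_dP` (`r ≠ s`): the component of `d (P x) + P (d x) = D x` at the label `κ + e_r - e_s ≠ κ` is
  `d_r (P_s x) + P_s (d_r x)` since `e_{r'} - e_{s'} = e_r - e_s ≠ 0` forces `r' = r`, `s' = s`.
-/

theorem P01_dP (S : LHC n H) (r s : Fin n) (hrs : r ≠ s) (x : H) :
    S.dr r (S.Pr s x) + S.Pr s (S.dr r x) = 0 := by
  have key : ∀ κ x, (S.dr r ∘ₗ S.Pr s + S.Pr s ∘ₗ S.dr r) (S.pr κ x) = (0 : H →ₗ[ℂ] H) (S.pr κ x) := by
    intro κ x
    rw [LinearMap.add_apply, LinearMap.comp_apply, LinearMap.comp_apply, LinearMap.zero_apply]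
    set z := S.pr κ x with hz
    have hz1 : S.pr κ z = z := S.pr_idem κ x
    have h1 : ∑ p : Fin n × Fin n, (S.dr p.1 (S.Pr p.2 z) + S.Pr p.2 (S.dr p.1 z)) = S.D • z := by
      rw [Finset.sum_add_distrib, Fintype.sum_prod_type, Fintype.sum_prod_type_right]
      have e1 : ∀ r, ∑ s, S.dr r (S.Pr s z) = S.dr r (S.P z) := by
        intro r
        rw [← map_sum, P01_Pr_sum]
      have e2 : ∀ s, ∑ r, S.Pr s (S.dr r z) = S.Pr s (S.d z) := by
        intro s
        rw [← map_sum, P01_dr_sum]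
      rw [Finset.sum_congr rfl fun r _ => e1 r, Finset.sum_congr rfl fun s _ => e2 s, P01_dr_sum,
        P01_Pr_sum, S.dP]
    have h2 := P01_comp S (fun p : Fin n × Fin n => S.dr p.1 (S.Pr p.2 z) + S.Pr p.2 (S.dr p.1 z))
      (fun p => κ + Pi.single p.1 1 - Pi.single p.2 1) (fun p => by
        rw [map_add, ← P01_Pr_comm, ← P01_dr_comm, hz1]
        have e3 : κ + Pi.single p.1 1 - Pi.single p.2 1 = κ - Pi.single p.2 1 + Pi.single p.1 1 := by
          rw [sub_add_eq_add_sub]
        rw [e3, ← P01_dr_comm, ← P01_Pr_comm, hz1]) (κ + Pi.single r 1 - Pi.single s 1)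
    have h3 : κ + Pi.single r 1 - Pi.single s 1 ≠ κ := by
      intro h
      have h4 := congrFun h r
      rw [Pi.sub_apply, Pi.add_apply, Pi.single_eq_same, Pi.single_eq_of_ne hrs] at h4
      omega
    rw [h1, map_smul, hz, S.pr_orth _ _ h3, smul_zero, ← hz] at h2
    rw [Finset.sum_eq_single (r, s)] at h2
    · rw [if_pos rfl] at h2
      exact h2.symm
    · intro p _ hp
      rw [if_neg]
      intro h
      apply hp
      have h5 : (Pi.single p.1 1 : Fin n → ℤ) + Pi.single s 1 = Pi.single r 1 + Pi.single p.2 1 := by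
        have h6 : κ + Pi.single p.1 1 + Pi.single s 1 = κ + Pi.single r 1 + Pi.single p.2 1 := by
          rw [← sub_eq_sub_iff_add_eq_add]
          exact h
        rw [add_assoc, add_assoc] at h6
        exact add_left_cancel h6
      rcases P01_add_eq h5 with ⟨h7, h8⟩ | ⟨h7, h8⟩
      · exact Prod.ext h8 h7.symm
      · exact absurd h7.symm hrs
    · intro h
      exact absurd (Finset.mem_univ _) h
  exact P01_ext S key x

end H95H
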