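import Pool.Agent.Lib.H95H.Defs

namespace H95H

variable {n : ℕ} {H : Type*} [AddCommGroup H] [Module ℂ H]

/-!
# Chunk P02: from the hermitian complex to the cube system

* `P02_pseudo`: let `Δ` be an endomorphism of a finite-dimensional space with
  `Δ (Δ x) = 0 → Δ x = 0`. Then there is a polynomial `g` with `Δ g(Δ) Δ = Δ`. Proof: let `q` be a
  monic (or nonzero) polynomial with `q(Δ) = 0` (`minpoly`), write `q = X^e q'` with `q'(0) ≠ 0`
  (`Polynomial.exists_eq_pow_rootMultiplicity_mul_and_not_dvd` or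
  `Polynomial.exists_eq_X_pow_mul..`); then `Δ^e q'(Δ) = 0` and the hypothesis gives
  `Δ q'(Δ) = 0` (lower the exponent step by step). With
  `q' = q'(0) + X q''`: `q'(0) Δ = - Δ² q''(Δ)`, so `g = - q'' / q'(0)`.
* `P02_cube`: put `Δ r = dr r ∘ Pr r + Pr r ∘ dr r`. It commutes with `dr s`, `Pr s` for all `s`
  (for `s ≠ r`: two anticommutations; for `s = r`: `dr r ∘ dr r = 0`), and preserves labels.
  `h (Δ r x) x = h (Pr r x) (Pr r x) + h (dr r x) (dr r x)` (`P01_adj`, symmetry), so `Δ r x = 0`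
  implies `dr r x = 0` and `Pr r x = 0`. And `Δ r (Δ r x) = 0` implies
  `h (Δ r x) (Δ r x) = h (Δ r (Δ r x)) x = 0` (`Δ r` is self-adjoint), so `Δ r x = 0`.
  Let `g_r` be the polynomial of `P02_pseudo`, `G r = g_r(Δ r)` (commutes with everything that
  commutes with `Δ r`: `Polynomial.aeval` and `Commute`), `E r = Δ r ∘ G r` and
  `p r = Pr r ∘ G r`, `c r = 1 - E r`. Then `dr r (p r x) + p r (dr r x) = Δ r (G r x) = E r x`;
  `Δ r (c r x) = 0`, so `dr r (c r x) = 0` and `Pr r (c r x) = 0`, hence `p r (c r x) = 0`.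
  The other relations follow from `P01_dd`, `P01_PP`, `P01_dP` as `G r` commutes with all
  operators; `p r (pr κ x) = pr (κ - e_r) (p r x)` since `Δ r` commutes with `pr κ`.
  Last part: if `c r z = z` for all `r` then `dr r z = 0`, `Pr r z = 0` for all `r` (see above), so
  `D • z = d (P z) + P (d z) = 0` by `P01_dr_sum`, `P01_Pr_sum`.
-/

theorem P02_low (Δ : H →ₗ[ℂ] H) (h : ∀ x, Δ (Δ x) = 0 → Δ x = 0) (e : ℕ) :
    ∀ x, (Δ ^ (e + 1)) x = 0 → Δ x = 0 := by
  induction e with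
  | zero =>
    intro x hx
    rwa [zero_add, pow_one] at hx
  | succ e ih =>
    intro x hx
    refine h x (ih (Δ x) ?_)
    rw [pow_succ] at hx
    exact hx

theorem P02_pseudo [Module.Finite ℂ H] (Δ : H →ₗ[ℂ] H) (h : ∀ x, Δ (Δ x) = 0 → Δ x = 0) :
    ∃ g : Polynomial ℂ, ∀ x, Δ ((Polynomial.aeval Δ g) (Δ x)) = Δ x := by
  obtain ⟨q, hq0, hq⟩ : ∃ q : Polynomial ℂ, q ≠ 0 ∧ Polynomial.aeval Δ q = 0 :=
    ⟨minpoly ℂ Δ, minpoly.ne_zero (Algebra.IsIntegral.isIntegral Δ), minpoly.aeval ℂ Δ⟩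
  obtain ⟨q', hq', hnd⟩ := Polynomial.exists_eq_pow_rootMultiplicity_mul_and_not_dvd q hq0 0
  rw [Polynomial.C_0, sub_zero] at hq' hnd
  set e := Polynomial.rootMultiplicity 0 q with he
  have h0 : q'.coeff 0 ≠ 0 := fun h0 => hnd (Polynomial.X_dvd_iff.2 h0)
  have h1 : ∀ x, Δ (Polynomial.aeval Δ q' x) = 0 := by
    intro x
    apply P02_low Δ h e
    rw [hq', map_mul, map_pow, Polynomial.aeval_X] at hq
    have h2 := LinearMap.congr_fun hq x
    rw [Module.End.mul_apply, LinearMap.zero_apply] at h2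
    rw [pow_succ', Module.End.mul_apply, h2, map_zero]
  refine ⟨-(Polynomial.C (q'.coeff 0)⁻¹) * q'.divX, fun x => ?_⟩
  have h3 := h1 x
  have h4 : Polynomial.aeval Δ q' x = q'.coeff 0 • x + (Polynomial.aeval Δ q'.divX) (Δ x) := by
    conv_lhs => rw [← Polynomial.divX_mul_X_add q']
    rw [map_add, map_mul, Polynomial.aeval_X, Polynomial.aeval_C, LinearMap.add_apply, Module.End.mul_apply,
      Module.algebraMap_end_apply, add_comm]
  rw [h4, map_add, map_smul] at h3
  have h5 : Δ ((Polynomial.aeval Δ q'.divX) (Δ x)) = -(q'.coeff 0 • Δ x) := by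
    rw [eq_neg_iff_add_eq_zero, add_comm]
    exact h3
  rw [map_mul, map_neg, Polynomial.aeval_C, Module.End.mul_apply, LinearMap.neg_apply,
    Module.algebraMap_end_apply, map_neg, map_smul, h5, smul_neg, neg_neg, smul_smul, inv_mul_cancel₀ h0, one_smul]

end H95H
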