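import Pool.Agent.Lib.H95H.P01c
import Pool.Agent.Lib.H95H.P01e
import Pool.Agent.Lib.H95H.P02a

namespace H95H

variable {n : ℕ} {H : Type*} [AddCommGroup H] [Module ℂ H]

/-!
# Chunk P02: from the hermitian complex to the cube system

* `P02_pseudo`: let `Δ` be an endomorphism of a finite-dimensional space with
  `Δ (Δ x) = 0 → Δ x = 0`. Then there is a polynomial `g` with `Δ g(Δ) Δ = Δ`. Proof: let `q` be a
  monic (or nonzero) polynomial with `q(Δ) = 0` (`minpoly`), write `q = X^e q'` with `q'(0) ≠ 0`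
  (`Polynomial.exists_eq_pow_rootMultiplicity_mul_and_not_dvd` or
  `Polynomial.exists_eq_X_pow_mul..`); then `Δ^e q'(Δ) = 0` and the hypothesis gives
  `Δ q'(Δ) = 0` (lower the exponent step by step). With
  `q' = q'(0) + X q''`: `q'(0) Δ = - Δ² q''(Δ)`, so `g = - q'' / q'(0)`.
* `P02_cube`: put `Δ r = dr r ∘ Pr r + Pr r ∘ dr r`. It commutes with `dr s`, `Pr s` for all `s`
  (for `s ≠ r`: two anticommutations; for `s = r`: `dr r ∘ dr r = 0`), and preserves labels.
  `h (Δ r x) x = h (Pr r x) (Pr r x) + h (dr r x) (dr r x)` (`P01_adj`, symmetry), so `Δ r x = 0`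
  implies `dr r x = 0` and `Pr r x = 0`. And `Δ r (Δ r x) = 0` implies
  `h (Δ r x) (Δ r x) = h (Δ r (Δ r x)) x = 0` (`Δ r` is self-adjoint), so `Δ r x = 0`.
  Let `g_r` be the polynomial of `P02_pseudo`, `G r = g_r(Δ r)` (commutes with everything that
  commutes with `Δ r`: `Polynomial.aeval` and `Commute`), `E r = Δ r ∘ G r` and
  `p r = Pr r ∘ G r`, `c r = 1 - E r`. Then `dr r (p r x) + p r (dr r x) = Δ r (G r x) = E r x`;
  `Δ r (c r x) = 0`, so `dr r (c r x) = 0` and `Pr r (c r x) = 0`, hence `p r (c r x) = 0`.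
  The other relations follow from `P01_dd`, `P01_PP`, `P01_dP` as `G r` commutes with all
  operators; `p r (pr κ x) = pr (κ - e_r) (p r x)` since `Δ r` commutes with `pr κ`.
  Last part: if `c r z = z` for all `r` then `dr r z = 0`, `Pr r z = 0` for all `r` (see above), so
  `D • z = d (P z) + P (d z) = 0` by `P01_dr_sum`, `P01_Pr_sum`.
-/

theorem P02_comm (Δ A : Module.End ℂ H) (h : Commute Δ A) (p : Polynomial ℂ) :
    Commute (Polynomial.aeval Δ p) A := by
  rw [Polynomial.aeval_eq_sum_range]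
  exact Commute.sum_left _ _ _ fun i _ => (h.pow_left i).smul_left _

theorem P02_cube [Module.Finite ℂ H] (S : LHC n H) :
    ∃ C : CS n H, C.pr = S.pr ∧ C.L = S.L ∧ (∀ r, C.d r = S.dr r) ∧
      (S.D ≠ 0 → ∀ z, (∀ r, C.c r z = z) → z = 0) := by
  -- squares are zero
  have hdd : ∀ r x, S.dr r (S.dr r x) = 0 := by
    intro r x
    have h := P01_dd S r r x
    rw [← two_smul ℂ] at h
    exact (smul_eq_zero.1 h).resolve_left two_ne_zero
  have hPP : ∀ r x, S.Pr r (S.Pr r x) = 0 := by
    intro r x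
    have h := P01_PP S r r x
    rw [← two_smul ℂ] at h
    exact (smul_eq_zero.1 h).resolve_left two_ne_zero
  set Δ : Fin n → Module.End ℂ H := fun r => S.dr r * S.Pr r + S.Pr r * S.dr r with hΔ
  have hΔa : ∀ r x, Δ r x = S.dr r (S.Pr r x) + S.Pr r (S.dr r x) := fun r x => rfl
  -- Δ commutes with everything
  have cd : ∀ r s, Commute (Δ r) (S.dr s) := by
    intro r s
    refine LinearMap.ext fun x => ?_
    show Δ r (S.dr s x) = S.dr s (Δ r x)
    rw [hΔa, hΔa, map_add]
    rcases eq_or_ne s r with h | h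
    · subst h
      rw [hdd, map_zero, add_zero, hdd, zero_add]
    · have h1 : S.Pr r (S.dr s x) = -S.dr s (S.Pr r x) := by
        rw [eq_neg_iff_add_eq_zero, add_comm]
        exact P01_dP S s r h x
      have h2 : S.dr r (S.dr s (S.Pr r x)) = -S.dr s (S.dr r (S.Pr r x)) := by
        rw [eq_neg_iff_add_eq_zero]
        exact P01_dd S r s _
      have h3 : S.dr r (S.dr s x) = -S.dr s (S.dr r x) := by
        rw [eq_neg_iff_add_eq_zero]
        exact P01_dd S r s _
      have h4 : S.Pr r (S.dr s (S.dr r x)) = -S.dr s (S.Pr r (S.dr r x)) := by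
        rw [eq_neg_iff_add_eq_zero, add_comm]
        exact P01_dP S s r h _
      rw [h1, map_neg, h2, neg_neg, h3, map_neg, h4, neg_neg]
  have cP : ∀ r s, Commute (Δ r) (S.Pr s) := by
    intro r s
    refine LinearMap.ext fun x => ?_
    show Δ r (S.Pr s x) = S.Pr s (Δ r x)
    rw [hΔa, hΔa, map_add]
    rcases eq_or_ne s r with h | h
    · subst h
      rw [hPP, map_zero, zero_add, hPP, add_zero]
    · have h1 : S.Pr r (S.Pr s x) = -S.Pr s (S.Pr r x) := by
        rw [eq_neg_iff_add_eq_zero]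
        exact P01_PP S r s x
      have h2 : S.dr r (S.Pr s (S.Pr r x)) = -S.Pr s (S.dr r (S.Pr r x)) := by
        rw [eq_neg_iff_add_eq_zero]
        exact P01_dP S r s h.symm _
      have h3 : S.dr r (S.Pr s x) = -S.Pr s (S.dr r x) := by
        rw [eq_neg_iff_add_eq_zero]
        exact P01_dP S r s h.symm _
      have h4 : S.Pr r (S.Pr s (S.dr r x)) = -S.Pr s (S.Pr r (S.dr r x)) := by
        rw [eq_neg_iff_add_eq_zero]
        exact P01_PP S r s _
      rw [h1, map_neg, h2, neg_neg, h3, map_neg, h4, neg_neg]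
  have cpr : ∀ r κ, Commute (Δ r) (S.pr κ) := by
    intro r κ
    refine LinearMap.ext fun x => ?_
    show Δ r (S.pr κ x) = S.pr κ (Δ r x)
    rw [hΔa, hΔa, map_add, P01_Pr_comm, P01_dr_comm, P01_dr_comm, P01_Pr_comm, sub_add_cancel, add_sub_cancel_right]
  -- positivity
  have hadj' : ∀ r x y, S.h (S.Pr r x) y = S.h x (S.dr r y) := by
    intro r x y
    rw [S.herm.symm, ← P01_adj, ← S.herm.symm]
  have hsa : ∀ r x y, S.h (Δ r x) y = S.h x (Δ r y) := by
    intro r x y
    have ha : ∀ x y z, S.h x (y + z) = S.h x y + S.h x z := by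
      intro x y z
      rw [S.herm.symm, S.herm.add, map_add, ← S.herm.symm, ← S.herm.symm]
    rw [hΔa, hΔa, S.herm.add, ha, P01_adj, hadj', hadj', P01_adj]
  have hker : ∀ r x, Δ r x = 0 → S.dr r x = 0 ∧ S.Pr r x = 0 := by
    intro r x hx
    have h1 : S.h (Δ r x) x = S.h (S.Pr r x) (S.Pr r x) + S.h (S.dr r x) (S.dr r x) := by
      rw [hΔa, S.herm.add, P01_adj S r (S.Pr r x) x, hadj' r (S.dr r x) x]
    rw [hx, P01_hzero S.herm] at h1
    have h2 : (S.h (S.Pr r x) (S.Pr r x)).re + (S.h (S.dr r x) (S.dr r x)).re = 0 := by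
      rw [← Complex.add_re, ← h1, Complex.zero_re]
    have hnn : ∀ y, 0 ≤ (S.h y y).re := by
      intro y
      by_cases hy : y = 0
      · rw [hy, P01_hzero S.herm, Complex.zero_re]
      · exact (S.herm.pos y hy).le
    have h3 : (S.h (S.Pr r x) (S.Pr r x)).re = 0 := by
      linarith [hnn (S.Pr r x), hnn (S.dr r x)]
    have h4 : (S.h (S.dr r x) (S.dr r x)).re = 0 := by
      linarith [hnn (S.Pr r x), hnn (S.dr r x)]
    constructor
    · by_contra hne
      exact (S.herm.pos _ hne).ne' h4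
    · by_contra hne
      exact (S.herm.pos _ hne).ne' h3
  have hΔ2 : ∀ r x, Δ r (Δ r x) = 0 → Δ r x = 0 := by
    intro r x hx
    by_contra hne
    have h1 := S.herm.pos _ hne
    rw [← hsa, hx, P01_hzero S.herm, Complex.zero_re] at h1
    exact lt_irrefl _ h1
  choose g hg using fun r => P02_pseudo (Δ r) (hΔ2 r)
  set G : Fin n → Module.End ℂ H := fun r => Polynomial.aeval (Δ r) (g r) with hG
  have cG : ∀ r (A : Module.End ℂ H), Commute (Δ r) A → ∀ x, G r (A x) = A (G r x) := by
    intro r A hA x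
    have h1 : Commute (G r) A := by
      exact P02_comm (Δ r) A hA (g r)
    exact LinearMap.congr_fun h1 x
  have cΔ : ∀ r (A : Module.End ℂ H), Commute (Δ r) A → ∀ x, Δ r (A x) = A (Δ r x) := fun r A hA x =>
    LinearMap.congr_fun hA x
  have hself : ∀ r, Commute (Δ r) (Δ r) := fun r => Commute.refl _
  have hc0 : ∀ r x, Δ r (x - Δ r (G r x)) = 0 := by
    intro r x
    rw [map_sub, ← cG r _ (hself r), hg, sub_self]
  have cGG : ∀ r s x, G r (G s x) = G s (G r x) := by
    intro r s x
    refine cG r (G s) ?_ x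
    refine (P02_comm (Δ s) (Δ r) ?_ (g s)).symm
    exact ((cd s r).mul_right (cP s r)).add_right ((cP s r).mul_right (cd s r))
  refine ⟨{ pr := S.pr
            L := S.L
            pr_idem := S.pr_idem
            pr_orth := S.pr_orth
            pr_L := S.pr_L
            pr_sum := S.pr_sum
            d := S.dr
            p := fun r => S.Pr r ∘ₗ G r
            c := fun r => LinearMap.id - Δ r ∘ₗ G r
            dd := P01_dd S
            pp := ?_
            dp := ?_
            res := ?_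
            dc := ?_
            pc := ?_
            d_pr := P01_dr_comm S
            p_pr := ?_ }, rfl, rfl, fun r => rfl, ?_⟩
  · intro r s x
    show S.Pr r (G r (S.Pr s (G s x))) + S.Pr s (G s (S.Pr r (G r x))) = 0
    rw [cG r _ (cP r s), cG s _ (cP s r), cGG s r]
    exact P01_PP S r s _
  · intro r s hrs x
    show S.dr r (S.Pr s (G s x)) + S.Pr s (G s (S.dr r x)) = 0
    rw [cG s _ (cd s r)]
    exact P01_dP S r s hrs _
  · intro r x
    show S.dr r (S.Pr r (G r x)) + S.Pr r (G r (S.dr r x)) + (x - Δ r (G r x)) = x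
    rw [cG r _ (cd r r), hΔa]
    abel
  · intro r x
    exact (hker r _ (hc0 r x)).1
  · intro r x
    show S.Pr r (G r (x - Δ r (G r x))) = 0
    rw [← cG r _ (cP r r), (hker r _ (hc0 r x)).2, map_zero]
  · intro r κ x
    show S.Pr r (G r (S.pr κ x)) = S.pr (κ - Pi.single r 1) (S.Pr r (G r x))
    rw [cG r _ (cpr r κ), P01_Pr_comm]
  · intro hD z hz
    have h1 : ∀ r, Δ r z = 0 := by
      intro r
      have h2 : z - Δ r (G r z) = z := hz r
      have h3 := hc0 r z
      rwa [h2] at h3
    have h4 : S.d z = 0 := by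
      rw [← P01_dr_sum]
      exact Finset.sum_eq_zero fun r _ => (hker r z (h1 r)).1
    have h5 : S.P z = 0 := by
      rw [← P01_Pr_sum]
      exact Finset.sum_eq_zero fun r _ => (hker r z (h1 r)).2
    have h6 := S.dP z
    rw [h4, h5, map_zero, map_zero, add_zero] at h6
    exact (smul_eq_zero.1 h6.symm).resolve_left hD

end H95H
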