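import Pool.Agent.Lib.H95H.C02a
import Pool.Agent.Lib.H95H.C02b
import Pool.Agent.Lib.H95H.C03b
import Pool.Agent.Lib.H95H.C04c
import Pool.Agent.Lib.H95H.C04d
import Pool.Agent.Lib.H95H.P02b

namespace H95H
open MvPolynomial

variable {n k : ℕ}

/-!
# Chunk C05: the hermitian complex and the cube system of weight `ω`

* `C05_LHC`: on `H = ↥(MD ω)` take `h x y = hc x y`, `d = koszul`, `P = deRham`,
  `pr κ = prC κ`, all restricted (`LinearMap.restrict` with `C03_koszul_MD`, `C03_deRham_MD`,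
  `C04_MD`), `L = (box n D).image zl`, `D = ∑ ω.1`. The fields are `C03_herm`, `C03_adj`, `C04_adj`,
  `C04_idem`, `C04_orth`, `C04_big`, `C04_sum`, `C02_kk`, `C02_rr`, `C02_kr`, `C04_pieri`.
* `C05_CS`: `P02_cube` for this `LHC` (finite-dimensional by `C03_MD_fin`); `dS = ∑ d r = ∑ dr r = d`
  by `P01_dr_sum`.
-/

theorem C05_LHC (ω : Wt (n + k) n) :
    ∃ S : LHC n ↥(MD ω : Submodule ℂ (Kz (n + k) n)),
      (∀ κ x, ((S.pr κ x : ↥(MD ω)) : Kz (n + k) n) = prC κ x) ∧
      (∀ x, ((S.d x : ↥(MD ω)) : Kz (n + k) n) = koszul (x : Kz (n + k) n)) ∧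
      S.L = (box n (∑ i, ω.1 i)).image zl ∧ S.D = ((∑ i, ω.1 i : ℕ) : ℂ) := by
  have hk : ∀ x ∈ (MD ω : Submodule ℂ (Kz (n + k) n)), koszul x ∈ (MD ω : Submodule ℂ (Kz (n + k) n)) :=
    fun x hx => C03_koszul_MD ω x hx
  have hd : ∀ x ∈ (MD ω : Submodule ℂ (Kz (n + k) n)), deRham x ∈ (MD ω : Submodule ℂ (Kz (n + k) n)) :=
    fun x hx => C03_deRham_MD ω x hx
  have hp : ∀ κ : Fin n → ℤ, ∀ x ∈ (MD ω : Submodule ℂ (Kz (n + k) n)),
      prC κ x ∈ (MD ω : Submodule ℂ (Kz (n + k) n)) := fun κ x hx => C04_MD κ ω x hx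
  have hH := C03_herm (m := n + k) (n := n)
  refine ⟨{ h := fun x y => hc (x : Kz (n + k) n) (y : Kz (n + k) n)
            herm := ⟨fun x y z => hH.add _ _ _, fun c x y => hH.smul _ _ _, fun x y => hH.symm _ _,
              fun x hx => hH.pos _ (fun h0 => hx (Subtype.ext h0))⟩
            d := koszul.restrict hk
            P := deRham.restrict hd
            adj := fun x y => C03_adj _ _
            pr := fun κ => (prC κ).restrict (hp κ)
            L := (box n (∑ i, ω.1 i)).image zl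
            pr_adj := fun κ x y => C04_adj κ _ _
            pr_idem := fun κ x => Subtype.ext (C04_idem κ _)
            pr_orth := fun κ κ' h x => Subtype.ext (C04_orth κ κ' h _)
            pr_L := fun κ h x => Subtype.ext (C04_big κ ω x x.2 h)
            pr_sum := ?_
            D := ((∑ i, ω.1 i : ℕ) : ℂ)
            dd := fun x => Subtype.ext (C02_kk _)
            PP := fun x => Subtype.ext (C02_rr _)
            dP := fun x => Subtype.ext (C02_kr ω x x.2)
            pieri := ?_ }, fun κ x => rfl, fun x => rfl, rfl, rfl⟩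
  · intro x
    apply Subtype.ext
    rw [Submodule.coe_sum]
    exact C04_sum ω x x.2
  · intro κ κ' x h
    refine C04_pieri κ κ' (x : Kz (n + k) n) fun h0 => h ?_
    exact Subtype.ext h0

theorem C05_CS (ω : Wt (n + k) n) :
    ∃ S : CS n ↥(MD ω : Submodule ℂ (Kz (n + k) n)),
      (∀ κ x, ((S.pr κ x : ↥(MD ω)) : Kz (n + k) n) = prC κ x) ∧
      (∀ x, ((S.dS x : ↥(MD ω)) : Kz (n + k) n) = koszul (x : Kz (n + k) n)) ∧
      S.L = (box n (∑ i, ω.1 i)).image zl ∧
      (∑ i, ω.1 i ≠ 0 → ∀ z, (∀ r, S.c r z = z) → z = 0) := by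
  obtain ⟨S, h1, h2, h3, h4⟩ := C05_LHC (k := k) ω
  haveI := C03_MD_fin (m := n + k) (n := n) ω
  obtain ⟨C, c1, c2, c3, c4⟩ := P02_cube S
  refine ⟨C, ?_, ?_, ?_, ?_⟩
  · intro κ x
    rw [c1]
    exact h1 κ x
  · intro x
    rw [← h2, ← P01_dr_sum S x]
    unfold CS.dS
    rw [LinearMap.sum_apply]
    congr 1
    exact Finset.sum_congr rfl fun r _ => by rw [c3]
  · rw [c2, h3]
  · intro hne z hz
    refine c4 ?_ z hz
    rw [h4]
    exact_mod_cast hne

end H95H
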