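import Pool.Agent.Lib.H95H.A15
import Pool.Agent.Lib.H95H.C05

namespace H95H
open MvPolynomial

variable {n k : ℕ}

/-- labels of the highest weight polynomials contained in `W` -/
def Aset (W : Submodule ℂ (Rg (n + k) n)) : Set (Fin n → ℤ) :=
  {κ | ∃ lam : Fin n → ℕ, Antitone lam ∧ hw (k := k) lam ∈ W ∧ κ = zl lam}

/-- the cube system of weight `ω` -/
noncomputable def SS (ω : Wt (n + k) n) : CS n ↥(MD ω : Submodule ℂ (Kz (n + k) n)) :=
  Classical.choose (C05_CS ω)

theorem SS_pr (ω : Wt (n + k) n) (κ : Fin n → ℤ) (x : ↥(MD ω : Submodule ℂ (Kz (n + k) n))) :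
    (((SS ω).pr κ x : ↥(MD ω)) : Kz (n + k) n) = prC κ x :=
  (Classical.choose_spec (C05_CS ω)).1 κ x

theorem SS_dS (ω : Wt (n + k) n) (x : ↥(MD ω : Submodule ℂ (Kz (n + k) n))) :
    (((SS ω).dS x : ↥(MD ω)) : Kz (n + k) n) = koszul (x : Kz (n + k) n) :=
  (Classical.choose_spec (C05_CS ω)).2.1 x

theorem SS_L (ω : Wt (n + k) n) : (SS ω).L = (box n (∑ i, ω.1 i)).image zl :=
  (Classical.choose_spec (C05_CS ω)).2.2.1

theorem SS_c (ω : Wt (n + k) n) (h : ∑ i, ω.1 i ≠ 0)
    (z : ↥(MD ω : Submodule ℂ (Kz (n + k) n))) (hz : ∀ r, (SS ω).c r z = z) : z = 0 :=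
  (Classical.choose_spec (C05_CS ω)).2.2.2 h z hz

/-!
# Chunk F01: chains with coefficients in an invariant subspace

Let `W` be invariant, `D = ∑ ω.1`.
* `F01_Ch`: `Ch W j ω` is the image in `Kz` of `(SS ω).HA (At (Aset W) (D - j))`.
  `⊆`: let `c ∈ Ch W j ω` and `κ ∉ At (Aset W) (D - j)`; `prC κ c = 0`: if `κ = zl lam` with `lam`
  antitone (`C04_cases`), then at `T`: if `card T ≠ j`, `c T = 0`; if `card T = j` and
  `∑ lam ≠ D - j` use `C04_deg`; if `∑ lam = D - j` then `κ ∉ Aset W`, `hw lam ∉ W` and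
  `prV lam (c T) = 0` by `A15_mem`.
  `⊇`: let `c ∈ MD ω` with `prC κ c = 0` for `κ ∉ At (Aset W) (D - j)`. For `card T ≠ j`:
  `c T = ∑ prC κ c T` (`C04_sum`), a term with `κ ∉ At ..` is `0`, and a term with
  `κ = zl lam ∈ At ..` has `∑ lam = D - j ≠ D - card T`, so it is `0` by `C04_deg`. And `c T ∈ W` by
  `A15_mem`: if `hw lam ∉ W`, `lam` antitone, then `zl lam ∉ Aset W` (`zl` is injective), so
  `prV lam (c T) = prC (zl lam) c T = 0`.
* `F01_stab`: if `I` is an invariant ideal then `HA (Aset I)` is stable under `dS`: similarly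
  `x ∈ HA (Aset I)` iff all values of `x` lie in `I`, and `koszul` keeps this as `I` is an ideal.
* `F01_ker`, `F01_im`: kernel and image of `koszul` correspond (`SS_dS`; `Submodule.subtype` is
  injective), so dimensions agree.
-/

theorem f01a_zl_inj {lam lam' : Fin n → ℕ} (h : zl lam = zl lam') : lam = lam' := by
  funext r
  have h1 : (lam r : ℤ) = (lam' r : ℤ) := congrFun h r
  exact_mod_cast h1

theorem f01a_zl_mem (W : Submodule ℂ (Rg (n + k) n)) (lam : Fin n → ℕ) (h : hw (k := k) lam ∉ W) :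
    zl lam ∉ Aset W := by
  rintro ⟨lam', _, h2, h3⟩
  rw [← f01a_zl_inj h3] at h2
  exact h h2

theorem f01a_HA_iff (W : Submodule ℂ (Rg (n + k) n)) (hW : Inv W) (ω : Wt (n + k) n)
    (x : ↥(MD ω : Submodule ℂ (Kz (n + k) n))) :
    x ∈ (SS ω).HA (Aset W) ↔ ∀ T, (x : Kz (n + k) n) T ∈ W := by
  constructor
  · intro hx T
    rw [A15_mem W hW]
    intro lam hlam hnot
    have h1 : (SS ω).pr (zl lam) x = 0 := hx _ (f01a_zl_mem W lam hnot)
    have h2 : prC (zl lam) (x : Kz (n + k) n) = 0 := by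
      rw [← SS_pr, h1]
      rfl
    rw [C04_zl lam hlam] at h2
    exact congrFun h2 T
  · intro hx κ hκ
    apply Subtype.ext
    rw [SS_pr]
    rcases C04_cases (k := k) κ with h | ⟨lam, hlam, h⟩
    · rw [h]
      rfl
    · rw [h, C04_zl lam hlam]
      funext T
      have hnot : hw (k := k) lam ∉ W := fun h' => hκ ⟨lam, hlam, h', h⟩
      exact (A15_mem W hW _).1 (hx T) lam hlam hnot

theorem F01_Ch (W : Submodule ℂ (Rg (n + k) n)) (hW : Inv W) (j : ℕ) (ω : Wt (n + k) n) :
    Ch W j ω = ((SS ω).HA (At (Aset W) (((∑ i, ω.1 i : ℕ) : ℤ) - j))).map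
      (MD ω : Submodule ℂ (Kz (n + k) n)).subtype := by
  obtain ⟨D, hD⟩ : ∃ D : ℕ, D = ∑ i, ω.1 i := ⟨_, rfl⟩
  rw [← hD]
  apply le_antisymm
  · rintro c ⟨h1, h2, h3⟩
    refine ⟨⟨c, h3⟩, ?_, rfl⟩
    intro κ hκ
    apply Subtype.ext
    rw [SS_pr]
    show prC κ c = 0
    rcases C04_cases (k := k) κ with h | ⟨lam, hlam, h⟩
    · rw [h]
      rfl
    · funext T
      by_cases hT : T.card = j
      · by_cases hs : ∑ r, lam r + T.card = ∑ i, ω.1 i
        · rw [h, C04_zl lam hlam]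
          have hnot : hw (k := k) lam ∉ W := by
            intro h'
            apply hκ
            refine ⟨⟨lam, hlam, h', h⟩, ?_⟩
            have h4 : ∑ r, κ r = ((∑ r, lam r : ℕ) : ℤ) := by
              rw [h]
              unfold zl
              push_cast
              rfl
            rw [h4]
            omega
          exact (A15_mem W hW _).1 (h1 T) lam hlam hnot
        · rw [h]
          exact C04_deg lam hlam ω c h3 T hs
      · rw [h, C04_zl lam hlam]
        show prV lam (c T) = 0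
        rw [h2 T hT, map_zero]
  · rintro c ⟨x, hx, rfl⟩
    have hx' : x ∈ (SS ω).HA (Aset W) := by
      intro κ hκ
      exact hx κ fun h => hκ h.1
    refine ⟨fun T => (f01a_HA_iff W hW ω x).1 hx' T, ?_, x.2⟩
    intro T hT
    show (x : Kz (n + k) n) T = 0
    have h1 := C04_sum ω (x : Kz (n + k) n) x.2
    rw [← h1, Finset.sum_apply]
    refine Finset.sum_eq_zero fun κ hκ => ?_
    rw [Finset.mem_image] at hκ
    obtain ⟨lam, hlam, rfl⟩ := hκ
    have hanti : Antitone lam := fun r s hrs => (Finset.mem_filter.1 hlam).2 r s hrs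
    by_cases hA : zl lam ∈ At (Aset W) ((D : ℤ) - j)
    · refine C04_deg lam hanti ω _ x.2 T ?_
      intro h2
      have h4 : ∑ r, zl lam r = ((∑ r, lam r : ℕ) : ℤ) := by
        unfold zl
        push_cast
        rfl
      have h5 := hA.2
      rw [h4] at h5
      apply hT
      omega
    · have h2 := hx _ hA
      have h3 : prC (zl lam) (x : Kz (n + k) n) = 0 := by
        rw [← SS_pr, h2]
        rfl
      rw [h3]
      rfl

end H95H
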