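import Pool.Agent.Lib.H95H.F01a

namespace H95H

open MvPolynomial

variable {n k : ℕ}

/-!
# Chunk F01: chains with coefficients in an invariant subspace

Let `W` be invariant, `D = ∑ ω.1`.
* `F01_Ch`: `Ch W j ω` is the image in `Kz` of `(SS ω).HA (At (Aset W) (D - j))`.
  `⊆`: let `c ∈ Ch W j ω` and `κ ∉ At (Aset W) (D - j)`; `prC κ c = 0`: if `κ = zl lam` with `lam`
  antitone (`C04_cases`), then at `T`: if `card T ≠ j`, `c T = 0`; if `card T = j` and
  `∑ lam ≠ D - j` use `C04_deg`; if `∑ lam = D - j` then `κ ∉ Aset W`, `hw lam ∉ W` and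
  `prV lam (c T) = 0` by `A15_mem`.
  `⊇`: let `c ∈ MD ω` with `prC κ c = 0` for `κ ∉ At (Aset W) (D - j)`. For `card T ≠ j`:
  `c T = ∑ prC κ c T` (`C04_sum`), a term with `κ ∉ At ..` is `0`, and a term with
  `κ = zl lam ∈ At ..` has `∑ lam = D - j ≠ D - card T`, so it is `0` by `C04_deg`. And `c T ∈ W` by
  `A15_mem`: if `hw lam ∉ W`, `lam` antitone, then `zl lam ∉ Aset W` (`zl` is injective), so
  `prV lam (c T) = prC (zl lam) c T = 0`.
* `F01_stab`: if `I` is an invariant ideal then `HA (Aset I)` is stable under `dS`: similarly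
  `x ∈ HA (Aset I)` iff all values of `x` lie in `I`, and `koszul` keeps this as `I` is an ideal.
* `F01_ker`, `F01_im`: kernel and image of `koszul` correspond (`SS_dS`; `Submodule.subtype` is
  injective), so dimensions agree.
-/

theorem F01_stab (I : Ideal (Rg (n + k) n)) (hI : Inv (I.restrictScalars ℂ)) (ω : Wt (n + k) n) :
    ∀ x ∈ (SS ω).HA (Aset (I.restrictScalars ℂ)), (SS ω).dS x ∈ (SS ω).HA (Aset (I.restrictScalars ℂ)) := by
  intro x hx
  rw [f01a_HA_iff _ hI] at hx ⊢
  intro T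
  rw [SS_dS]
  have h1 : koszul (x : Kz (n + k) n) T = ∑ a, X a * (ann a (x : Kz (n + k) n)) T := by
    unfold koszul
    rw [LinearMap.sum_apply, Finset.sum_apply]
    rfl
  rw [h1, Submodule.restrictScalars_mem]
  refine Ideal.sum_mem _ fun a _ => Ideal.mul_mem_left _ _ ?_
  show (if a ∈ T then 0 else sgn a T • (x : Kz (n + k) n) (insert a T)) ∈ I
  split_ifs
  · exact I.zero_mem
  · exact (I.restrictScalars ℂ).smul_mem _ (hx _)

end H95H
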