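import Pool.Agent.Lib.H95H.F01a

namespace H95H

open MvPolynomial

variable {n k : ℕ}

/-!
# Chunk F01: chains with coefficients in an invariant subspace

Let `W` be invariant, `D = ∑ ω.1`.
* `F01_Ch`: `Ch W j ω` is the image in `Kz` of `(SS ω).HA (At (Aset W) (D - j))`.
  `⊆`: let `c ∈ Ch W j ω` and `κ ∉ At (Aset W) (D - j)`; `prC κ c = 0`: if `κ = zl lam` with `lam`
  antitone (`C04_cases`), then at `T`: if `card T ≠ j`, `c T = 0`; if `card T = j` and
  `∑ lam ≠ D - j` use `C04_deg`; if `∑ lam = D - j` then `κ ∉ Aset W`, `hw lam ∉ W` and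
  `prV lam (c T) = 0` by `A15_mem`.
  `⊇`: let `c ∈ MD ω` with `prC κ c = 0` for `κ ∉ At (Aset W) (D - j)`. For `card T ≠ j`:
  `c T = ∑ prC κ c T` (`C04_sum`), a term with `κ ∉ At ..` is `0`, and a term with
  `κ = zl lam ∈ At ..` has `∑ lam = D - j ≠ D - card T`, so it is `0` by `C04_deg`. And `c T ∈ W` by
  `A15_mem`: if `hw lam ∉ W`, `lam` antitone, then `zl lam ∉ Aset W` (`zl` is injective), so
  `prV lam (c T) = prC (zl lam) c T = 0`.
* `F01_stab`: if `I` is an invariant ideal then `HA (Aset I)` is stable under `dS`: similarly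
  `x ∈ HA (Aset I)` iff all values of `x` lie in `I`, and `koszul` keeps this as `I` is an ideal.
* `F01_ker`, `F01_im`: kernel and image of `koszul` correspond (`SS_dS`; `Submodule.subtype` is
  injective), so dimensions agree.
-/

theorem F01_ker (ω : Wt (n + k) n) (B : Submodule ℂ ↥(MD ω : Submodule ℂ (Kz (n + k) n))) :
    Module.finrank ℂ ↥(B.map (MD ω : Submodule ℂ (Kz (n + k) n)).subtype ⊓
      LinearMap.ker koszul) = Module.finrank ℂ ↥(B ⊓ LinearMap.ker (SS ω).dS) := by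
  have e : B.map (MD ω : Submodule ℂ (Kz (n + k) n)).subtype ⊓ LinearMap.ker koszul =
      (B ⊓ LinearMap.ker (SS ω).dS).map (MD ω : Submodule ℂ (Kz (n + k) n)).subtype := by
    ext x
    simp only [Submodule.mem_inf, Submodule.mem_map, LinearMap.mem_ker]
    constructor
    · rintro ⟨⟨y, hy, rfl⟩, h⟩
      refine ⟨y, ⟨hy, ?_⟩, rfl⟩
      apply Subtype.ext
      rw [SS_dS]
      exact h
    · rintro ⟨y, ⟨hy, h⟩, rfl⟩
      refine ⟨⟨y, hy, rfl⟩, ?_⟩
      show koszul (y : Kz (n + k) n) = 0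
      rw [← SS_dS, h]
      rfl
  rw [e, Submodule.finrank_map_subtype_eq]

theorem F01_im (ω : Wt (n + k) n) (B : Submodule ℂ ↥(MD ω : Submodule ℂ (Kz (n + k) n))) :
    (B.map (MD ω : Submodule ℂ (Kz (n + k) n)).subtype).map koszul =
      (B.map (SS ω).dS).map (MD ω : Submodule ℂ (Kz (n + k) n)).subtype := by
  ext x
  simp only [Submodule.mem_map]
  constructor
  · rintro ⟨_, ⟨y, hy, rfl⟩, rfl⟩
    exact ⟨(SS ω).dS y, ⟨y, hy, rfl⟩, SS_dS ω y⟩
  · rintro ⟨_, ⟨y, hy, rfl⟩, rfl⟩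
    exact ⟨(y : Kz (n + k) n), ⟨y, hy, rfl⟩, (SS_dS ω y).symm⟩

end H95H
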