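import Pool.Agent.Lib.H95H.B08d
import Pool.Agent.Lib.H95H.F01b
import Pool.Agent.Lib.H95H.F01c

namespace H95H

open MvPolynomial

variable {n k : ℕ}

/-!
# Chunk F01: chains with coefficients in an invariant subspace

Let `W` be invariant, `D = ∑ ω.1`.
* `F01_Ch`: `Ch W j ω` is the image in `Kz` of `(SS ω).HA (At (Aset W) (D - j))`.
  `⊆`: let `c ∈ Ch W j ω` and `κ ∉ At (Aset W) (D - j)`; `prC κ c = 0`: if `κ = zl lam` with `lam`
  antitone (`C04_cases`), then at `T`: if `card T ≠ j`, `c T = 0`; if `card T = j` and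
  `∑ lam ≠ D - j` use `C04_deg`; if `∑ lam = D - j` then `κ ∉ Aset W`, `hw lam ∉ W` and
  `prV lam (c T) = 0` by `A15_mem`.
  `⊇`: let `c ∈ MD ω` with `prC κ c = 0` for `κ ∉ At (Aset W) (D - j)`. For `card T ≠ j`:
  `c T = ∑ prC κ c T` (`C04_sum`), a term with `κ ∉ At ..` is `0`, and a term with
  `κ = zl lam ∈ At ..` has `∑ lam = D - j ≠ D - card T`, so it is `0` by `C04_deg`. And `c T ∈ W` by
  `A15_mem`: if `hw lam ∉ W`, `lam` antitone, then `zl lam ∉ Aset W` (`zl` is injective), so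
  `prV lam (c T) = prC (zl lam) c T = 0`.
* `F01_stab`: if `I` is an invariant ideal then `HA (Aset I)` is stable under `dS`: similarly
  `x ∈ HA (Aset I)` iff all values of `x` lie in `I`, and `koszul` keeps this as `I` is an ideal.
* `F01_ker`, `F01_im`: kernel and image of `koszul` correspond (`SS_dS`; `Submodule.subtype` is
  injective), so dimensions agree.
-/

/-- the Betti number through the cube system -/
theorem F01_betti (I : Ideal (Rg (n + k) n)) (hI : Inv (I.restrictScalars ℂ)) (j : ℕ)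
    (ω : Wt (n + k) n) :
    betti I j ω = ∑ κ ∈ (SS ω).L, ∑ R : Finset (Fin n), Module.finrank ℂ ↥((SS ω).Q κ R) *
      hz κ R (Aset (I.restrictScalars ℂ)) (((∑ i, ω.1 i : ℕ) : ℤ) - j) := by
  have : Module.Finite ℂ ↥(MD ω : Submodule ℂ (Kz (n + k) n)) := C03_MD_fin ω
  have e : (((∑ i, ω.1 i : ℕ) : ℤ) - ((j + 1 : ℕ) : ℤ)) = (((∑ i, ω.1 i : ℕ) : ℤ) - j) - 1 := by
    push_cast
    ring
  unfold betti
  rw [F01_Ch (I.restrictScalars ℂ) hI j ω, F01_Ch (I.restrictScalars ℂ) hI (j + 1) ω, F01_ker, F01_im, e,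
    Submodule.finrank_map_subtype_eq]
  exact B08_main (SS ω) (Aset (I.restrictScalars ℂ)) (F01_stab I hI ω) _

end H95H
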