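import Pool.Agent.Lib.H95H.F01a

namespace H95H
open MvPolynomial

variable {n k : ℕ}

/-!
# Chunk F02: the universal numbers

* `F02_ChV`: for antitone `κ`: `Ch (V κ) j ω` is the image of `range (pr (zl κ))` if
  `∑ κ + j = ∑ ω.1`, and `⊥` otherwise. From `F01_Ch` for `W = V κ` (`A05_V_inv`):
  `hw lam ∈ V κ` iff `lam = κ` (for antitone `lam`; `A05_hw_mem`, and `A12_orth`, `A05_hw_ne`), so
  `Aset (V κ) = {zl κ}`, and `HA (At {zl κ} t)` is `range (pr (zl κ))` if `∑ κ = t` (by `pr_sum`,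
  `pr_orth`, `pr_idem`) and `⊥` otherwise (all `pr` vanish).
* `F02_bnum`: for antitone `κ` and `Y ⊆ Rem κ`; for `s ∈ Y` the function `κ - e_s` is antitone and
  `zl (κ - e_s) = zl κ - e_s`, `∑ (κ - e_s) + (j + 1) = ∑ κ + j`. So if `∑ κ + j = ∑ ω.1`, by
  `F02_ChV` and `F01_im`, `bnum κ Y j ω` is the dimension of the image under the injective
  `(MD ω).subtype` of `range (pr κ) ⊓ ker dS ⊓ ⨅ (range (pr (κ - e_s))).map dS`
  (`Submodule.map_inf`, `Submodule.map_iInf` for injective maps; for `Y = ∅` the infimum is `⊤`),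
  so `B09_main` applies. Otherwise `Ch (V κ) j ω = ⊥` and the dimension is `0`.
-/

theorem f02a_Aset (κ : Fin n → ℕ) (hκ : Antitone κ) :
    Aset (V (k := k) κ) = {zl κ} := by
  ext κ'
  constructor
  · rintro ⟨lam, hlam, hm, rfl⟩
    by_contra hne
    have hne' : lam ≠ κ := by
      rintro rfl
      exact hne rfl
    have h0 := A12_orth lam κ hlam hκ hne' (hw lam) (A05_hw_mem lam) (hw lam) hm
    have h1 := (A08_herm (m := n + k) (n := n)).pos (hw lam) (A05_hw_ne lam)
    rw [h0] at h1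
    simp at h1
  · intro h
    rw [Set.mem_singleton_iff] at h
    exact ⟨κ, hκ, A05_hw_mem κ, h⟩

theorem f02a_range {H : Type*} [AddCommGroup H] [Module ℂ H] (S : CS n H) (κ : Fin n → ℤ) :
    S.HA {κ} = LinearMap.range (S.pr κ) := by
  ext x
  constructor
  · intro hx
    refine ⟨x, ?_⟩
    have h1 := S.pr_sum x
    by_cases hL : κ ∈ S.L
    · rw [Finset.sum_eq_single κ (fun b _ hb => hx b (by simpa using hb))
        (fun h => absurd hL h)] at h1
      exact h1
    · rw [Finset.sum_eq_zero (fun b hb => hx b (by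
        rintro rfl
        exact hL hb))] at h1
      rw [← h1, map_zero]
  · rintro ⟨y, rfl⟩ κ' hκ'
    exact S.pr_orth κ' κ (by simpa using hκ') y

theorem f02a_empty {H : Type*} [AddCommGroup H] [Module ℂ H] (S : CS n H) :
    S.HA (∅ : Set (Fin n → ℤ)) = ⊥ := by
  rw [eq_bot_iff]
  intro x hx
  rw [Submodule.mem_bot]
  rw [← S.pr_sum x]
  exact Finset.sum_eq_zero fun κ _ => hx κ (by simp)

theorem F02_ChV (κ : Fin n → ℕ) (hκ : Antitone κ) (j : ℕ) (ω : Wt (n + k) n) :
    Ch (V (k := k) κ) j ω = if ∑ r, κ r + j = ∑ i, ω.1 i then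
      (LinearMap.range ((SS ω).pr (zl κ))).map (MD ω : Submodule ℂ (Kz (n + k) n)).subtype
      else ⊥ := by
  rw [F01_Ch (V (k := k) κ) (A05_V_inv κ) j ω, f02a_Aset κ hκ]
  have hsum : (∑ r, zl κ r) = ((∑ r, κ r : ℕ) : ℤ) := by
    simp [zl]
  by_cases h : ∑ r, κ r + j = ∑ i, ω.1 i
  · rw [if_pos h, ← f02a_range]
    congr 2
    ext κ'
    simp only [At, Set.mem_setOf_eq, Set.mem_singleton_iff, and_iff_left_iff_imp]
    rintro rfl
    rw [hsum]
    have : ((∑ r, κ r : ℕ) : ℤ) + (j : ℤ) = ((∑ i, ω.1 i : ℕ) : ℤ) := by exact_mod_cast h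
    linarith
  · rw [if_neg h]
    have : At ({zl κ} : Set (Fin n → ℤ)) (((∑ i, ω.1 i : ℕ) : ℤ) - j) = ∅ := by
      ext κ'
      simp only [At, Set.mem_setOf_eq, Set.mem_singleton_iff, Set.mem_empty_iff_false, iff_false,
        not_and]
      rintro rfl h2
      rw [hsum] at h2
      apply h
      have : ((∑ r, κ r : ℕ) : ℤ) + (j : ℤ) = ((∑ i, ω.1 i : ℕ) : ℤ) := by linarith
      exact_mod_cast this
    rw [this, f02a_empty, Submodule.map_bot]

end H95H
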