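import Pool.Agent.Lib.H95H.B09c
import Pool.Agent.Lib.H95H.F01c
import Pool.Agent.Lib.H95H.F02a

namespace H95H

open MvPolynomial

variable {n k : ℕ}

/-!
# Chunk F02: the universal numbers

* `F02_ChV`: for antitone `κ`: `Ch (V κ) j ω` is the image of `range (pr (zl κ))` if
  `∑ κ + j = ∑ ω.1`, and `⊥` otherwise. From `F01_Ch` for `W = V κ` (`A05_V_inv`):
  `hw lam ∈ V κ` iff `lam = κ` (for antitone `lam`; `A05_hw_mem`, and `A12_orth`, `A05_hw_ne`), so
  `Aset (V κ) = {zl κ}`, and `HA (At {zl κ} t)` is `range (pr (zl κ))` if `∑ κ = t` (by `pr_sum`,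
  `pr_orth`, `pr_idem`) and `⊥` otherwise (all `pr` vanish).
* `F02_bnum`: for antitone `κ` and `Y ⊆ Rem κ`; for `s ∈ Y` the function `κ - e_s` is antitone and
  `zl (κ - e_s) = zl κ - e_s`, `∑ (κ - e_s) + (j + 1) = ∑ κ + j`. So if `∑ κ + j = ∑ ω.1`, by
  `F02_ChV` and `F01_im`, `bnum κ Y j ω` is the dimension of the image under the injective
  `(MD ω).subtype` of `range (pr κ) ⊓ ker dS ⊓ ⨅ (range (pr (κ - e_s))).map dS`
  (`Submodule.map_inf`, `Submodule.map_iInf` for injective maps; for `Y = ∅` the infimum is `⊤`),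
  so `B09_main` applies. Otherwise `Ch (V κ) j ω = ⊥` and the dimension is `0`.
-/

theorem f02b_anti (κ : Fin n → ℕ) (hκ : Antitone κ) (s : Fin n) (hs : s ∈ Rem κ) :
    Antitone (κ - Pi.single s 1) ∧ zl (κ - Pi.single s 1) = zl κ - Pi.single s 1 ∧
      ∑ r, (κ - Pi.single s 1 : Fin n → ℕ) r + 1 = ∑ r, κ r := by
  unfold Rem at hs
  rw [Finset.mem_filter] at hs
  obtain ⟨-, h1, h2⟩ := hs
  have h3 : ∀ r, (κ - Pi.single s 1 : Fin n → ℕ) r = if r = s then κ s - 1 else κ r := by
    intro r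
    rw [Pi.sub_apply]
    split_ifs with h
    · rw [h, Pi.single_eq_same]
    · rw [Pi.single_eq_of_ne h]
      rfl
  refine ⟨?_, ?_, ?_⟩
  · intro a b hab
    rw [h3, h3]
    have h4 := hκ hab
    split_ifs with ha hb hb
    · exact le_rfl
    · rw [ha] at h4
      omega
    · have h5 : s < b := lt_of_le_of_ne (hb ▸ hab) (Ne.symm ha)
      have h6 := h2 b h5
      omega
    · exact h4
  · funext r
    show (((κ - Pi.single s 1 : Fin n → ℕ) r : ℕ) : ℤ) = (κ r : ℤ) - (Pi.single s 1 : Fin n → ℤ) r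
    rw [h3]
    split_ifs with h
    · rw [h, Pi.single_eq_same]
      omega
    · rw [Pi.single_eq_of_ne h]
      simp
  · have h4 : ∀ r, (κ - Pi.single s 1 : Fin n → ℕ) r + (if r = s then 1 else 0) = κ r := by
      intro r
      rw [h3]
      split_ifs with h
      · rw [h]
        omega
      · rfl
    calc ∑ r, (κ - Pi.single s 1 : Fin n → ℕ) r + 1 = ∑ r, (κ - Pi.single s 1 : Fin n → ℕ) r + ∑ r, (if r = s then 1 else 0) := by
          rw [Finset.sum_ite_eq' Finset.univ s (fun _ => 1), if_pos (Finset.mem_univ s)]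
      _ = ∑ r, κ r := by
          rw [← Finset.sum_add_distrib]
          exact Finset.sum_congr rfl fun r _ => h4 r

theorem F02_bnum (κ : Fin n → ℕ) (hκ : Antitone κ) (Y : Finset (Fin n)) (hY : Y ⊆ Rem κ) (j : ℕ)
    (ω : Wt (n + k) n) :
    bnum κ Y j ω = if ∑ r, κ r + j = ∑ i, ω.1 i then
      ∑ R ∈ Finset.univ.filter (fun R : Finset (Fin n) => Y ⊆ R),
        Module.finrank ℂ ↥((SS ω).Q (zl κ) R)
      else 0 := by
  have : Module.Finite ℂ ↥(MD ω : Submodule ℂ (Kz (n + k) n)) := C03_MD_fin ω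
  split_ifs with h
  · rw [← B09_main (SS ω) (zl κ) Y, ← Submodule.finrank_map_subtype_eq (MD ω : Submodule ℂ (Kz (n + k) n))]
    unfold bnum
    have hV := F02_ChV (k := k) κ hκ j ω
    rw [if_pos h] at hV
    have hY' : ∀ s ∈ Y, (Ch (V (k := k) (κ - Pi.single s 1)) (j + 1) ω).map koszul =
        ((LinearMap.range ((SS ω).pr (zl κ - Pi.single s 1))).map (SS ω).dS).map
          (MD ω : Submodule ℂ (Kz (n + k) n)).subtype := by
      intro s hs
      obtain ⟨g1, g2, g3⟩ := f02b_anti κ hκ s (hY hs)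
      have g4 := F02_ChV (k := k) (κ - Pi.single s 1) g1 (j + 1) ω
      rw [if_pos (by omega), g2] at g4
      rw [g4, F01_im]
    have e : Ch (V (k := k) κ) j ω ⊓ LinearMap.ker koszul ⊓
        ⨅ s ∈ Y, (Ch (V (k := k) (κ - Pi.single s 1)) (j + 1) ω).map koszul =
        (LinearMap.range ((SS ω).pr (zl κ)) ⊓ LinearMap.ker (SS ω).dS ⊓
        ⨅ s ∈ Y, (LinearMap.range ((SS ω).pr (zl κ - Pi.single s 1))).map (SS ω).dS).map
          (MD ω : Submodule ℂ (Kz (n + k) n)).subtype := by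
      rw [hV]
      ext x
      simp only [Submodule.mem_inf, Submodule.mem_iInf]
      constructor
      · rintro ⟨⟨⟨y, hy, rfl⟩, h1⟩, h2⟩
        refine ⟨y, ?_, rfl⟩
        refine ⟨⟨hy, ?_⟩, ?_⟩
        · rw [SetLike.mem_coe, LinearMap.mem_ker]
          apply Subtype.ext
          rw [SS_dS]
          exact h1
        · rw [SetLike.mem_coe]
          simp only [Submodule.mem_iInf]
          intro s hs
          have h3 := h2 s hs
          rw [hY' s hs] at h3
          obtain ⟨z, hz, hzy⟩ := h3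
          have h4 : z = y := Subtype.ext hzy
          rw [← h4]
          exact hz
      · rintro ⟨y, ⟨⟨hy, h1⟩, h2⟩, rfl⟩
        refine ⟨⟨⟨y, hy, rfl⟩, ?_⟩, ?_⟩
        · rw [LinearMap.mem_ker]
          show koszul (y : Kz (n + k) n) = 0
          rw [SetLike.mem_coe, LinearMap.mem_ker] at h1
          rw [← SS_dS, h1]
          rfl
        · intro s hs
          rw [hY' s hs]
          rw [SetLike.mem_coe] at h2
          simp only [Submodule.mem_iInf] at h2
          exact ⟨y, h2 s hs, rfl⟩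
    rw [e]
  · unfold bnum
    have hV := F02_ChV (k := k) κ hκ j ω
    rw [if_neg h] at hV
    rw [hV, bot_inf_eq, bot_inf_eq, finrank_bot]

end H95H
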