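import Pool.Agent.Lib.H95H.B09c
import Pool.Agent.Lib.H95H.F01a

namespace H95H

open MvPolynomial

variable {n k : ℕ}

/-!
# Chunk F02: the universal numbers

* `F02_ChV`: for antitone `κ`: `Ch (V κ) j ω` is the image of `range (pr (zl κ))` if
  `∑ κ + j = ∑ ω.1`, and `⊥` otherwise. From `F01_Ch` for `W = V κ` (`A05_V_inv`):
  `hw lam ∈ V κ` iff `lam = κ` (for antitone `lam`; `A05_hw_mem`, and `A12_orth`, `A05_hw_ne`), so
  `Aset (V κ) = {zl κ}`, and `HA (At {zl κ} t)` is `range (pr (zl κ))` if `∑ κ = t` (by `pr_sum`,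
  `pr_orth`, `pr_idem`) and `⊥` otherwise (all `pr` vanish).
* `F02_bnum`: for antitone `κ` and `Y ⊆ Rem κ`; for `s ∈ Y` the function `κ - e_s` is antitone and
  `zl (κ - e_s) = zl κ - e_s`, `∑ (κ - e_s) + (j + 1) = ∑ κ + j`. So if `∑ κ + j = ∑ ω.1`, by
  `F02_ChV` and `F01_im`, `bnum κ Y j ω` is the dimension of the image under the injective
  `(MD ω).subtype` of `range (pr κ) ⊓ ker dS ⊓ ⨅ (range (pr (κ - e_s))).map dS`
  (`Submodule.map_inf`, `Submodule.map_iInf` for injective maps; for `Y = ∅` the infimum is `⊤`),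
  so `B09_main` applies. Otherwise `Ch (V κ) j ω = ⊥` and the dimension is `0`.
-/

/-- top corners of type `R` exist only for `R ⊆ Rem κ` -/
theorem F02_Rem (κ : Fin n → ℕ) (R : Finset (Fin n)) (ω : Wt (n + k) n)
    (h : Module.finrank ℂ ↥((SS ω).Q (zl κ) R) ≠ 0) :
    R ⊆ Rem κ ∧ ∑ r, κ r ≤ ∑ i, ω.1 i := by
  have h0 : (SS ω).Q (zl κ) R ≠ ⊥ := by
    intro h1
    rw [h1, finrank_bot] at h
    exact h rfl
  obtain ⟨z, hz, hne⟩ := Submodule.exists_mem_ne_zero_of_ne_bot h0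
  obtain ⟨h1, h2⟩ := B09_lab (SS ω) (zl κ) R z hz hne
  have hinj : ∀ a b : Fin n → ℕ, zl a = zl b → a = b := by
    intro a b hab
    funext r
    have h9 : (a r : ℤ) = b r := congrFun hab r
    exact_mod_cast h9
  have hκ : Antitone κ := by
    rw [SS_L, Finset.mem_image] at h1
    obtain ⟨mu, hmu, he⟩ := h1
    rw [← hinj mu κ he]
    unfold box at hmu
    rw [Finset.mem_filter] at hmu
    exact fun a b hab => hmu.2 a b hab
  constructor
  · intro r hr
    obtain ⟨y, hy⟩ := h2 r hr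
    have h3 : zl κ - Pi.single r 1 ∈ (SS ω).L := by
      by_contra h4
      exact hy ((SS ω).pr_L _ h4 y)
    rw [SS_L, Finset.mem_image] at h3
    obtain ⟨mu, hmu, he⟩ := h3
    unfold box at hmu
    rw [Finset.mem_filter] at hmu
    have h5 : ∀ s, (mu s : ℤ) = κ s - (Pi.single r 1 : Fin n → ℤ) s := fun s => congrFun he s
    have h6 := h5 r
    rw [Pi.single_eq_same] at h6
    unfold Rem
    rw [Finset.mem_filter]
    refine ⟨Finset.mem_univ _, by omega, fun s hs => ?_⟩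
    have h7 := h5 s
    rw [Pi.single_eq_of_ne (ne_of_gt hs)] at h7
    have h8 := hmu.2 r s hs.le
    omega
  · obtain ⟨h3, -⟩ := hz
    have h4 : prC (zl κ) (z : Kz (n + k) n) = z := by
      rw [← SS_pr, h3]
    have h5 : (z : Kz (n + k) n) ≠ 0 := fun h6 => hne (Subtype.ext h6)
    obtain ⟨T, hT⟩ := Function.ne_iff.mp h5
    by_contra h6
    refine hT ?_
    rw [← h4]
    exact C04_deg κ hκ ω z z.2 T (by omega)

end H95H
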