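import Pool.Agent.Lib.H95H.F01a

namespace H95H

open MvPolynomial

variable {n k : ℕ}

/-!
# Chunk F02: the universal numbers

* `F02_ChV`: for antitone `κ`: `Ch (V κ) j ω` is the image of `range (pr (zl κ))` if
  `∑ κ + j = ∑ ω.1`, and `⊥` otherwise. From `F01_Ch` for `W = V κ` (`A05_V_inv`):
  `hw lam ∈ V κ` iff `lam = κ` (for antitone `lam`; `A05_hw_mem`, and `A12_orth`, `A05_hw_ne`), so
  `Aset (V κ) = {zl κ}`, and `HA (At {zl κ} t)` is `range (pr (zl κ))` if `∑ κ = t` (by `pr_sum`,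
  `pr_orth`, `pr_idem`) and `⊥` otherwise (all `pr` vanish).
* `F02_bnum`: for antitone `κ` and `Y ⊆ Rem κ`; for `s ∈ Y` the function `κ - e_s` is antitone and
  `zl (κ - e_s) = zl κ - e_s`, `∑ (κ - e_s) + (j + 1) = ∑ κ + j`. So if `∑ κ + j = ∑ ω.1`, by
  `F02_ChV` and `F01_im`, `bnum κ Y j ω` is the dimension of the image under the injective
  `(MD ω).subtype` of `range (pr κ) ⊓ ker dS ⊓ ⨅ (range (pr (κ - e_s))).map dS`
  (`Submodule.map_inf`, `Submodule.map_iInf` for injective maps; for `Y = ∅` the infimum is `⊤`),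
  so `B09_main` applies. Otherwise `Ch (V κ) j ω = ⊥` and the dimension is `0`.
-/

theorem f02d_anti (κ : Fin n → ℕ) (hκ : Antitone κ) (R : Finset (Fin n)) (hR : R ⊆ Rem κ)
    (T : Finset (Fin n)) (hT : T ⊆ R) : Antitone (κ - ind T) ∧ zl (κ - ind T) = zl κ - indZ T ∧
      ∑ r, (zl κ - indZ T : Fin n → ℤ) r = (∑ r, (κ r : ℤ)) - T.card := by
  have h1 : ∀ r ∈ T, 1 ≤ κ r ∧ ∀ s, r < s → κ s < κ r := by
    intro r hr
    have h2 := hR (hT hr)
    unfold Rem at h2
    rw [Finset.mem_filter] at h2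
    exact h2.2
  have h3 : ∀ r, (κ - ind T : Fin n → ℕ) r = if r ∈ T then κ r - 1 else κ r := by
    intro r
    rw [Pi.sub_apply]
    unfold ind
    split_ifs
    · rfl
    · rfl
  refine ⟨?_, ?_, ?_⟩
  · intro a b hab
    rw [h3, h3]
    have h4 := hκ hab
    rcases eq_or_lt_of_le hab with h5 | h5
    · rw [h5]
    · split_ifs with hb ha ha
      · omega
      · omega
      · have h6 := (h1 a ha).2 b h5
        omega
      · exact h4
  · funext r
    show (((κ - ind T : Fin n → ℕ) r : ℕ) : ℤ) = (κ r : ℤ) - indZ T r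
    rw [h3]
    unfold indZ
    split_ifs with h
    · have := (h1 r h).1
      omega
    · simp
  · have h4 : ∀ r, (zl κ - indZ T : Fin n → ℤ) r = (κ r : ℤ) - (if r ∈ T then 1 else 0) := fun r => rfl
    rw [Finset.sum_congr rfl fun r _ => h4 r, Finset.sum_sub_distrib]
    congr 1
    rw [Finset.sum_ite_mem, Finset.univ_inter, Finset.sum_const, nsmul_eq_mul, mul_one]

theorem f02d_SZ (κ : Fin n → ℕ) (hκ : Antitone κ) (R : Finset (Fin n)) (hR : R ⊆ Rem κ)
    (W : Submodule ℂ (Rg (n + k) n)) (t : ℤ) (s : ℕ) (hs : (∑ r, (κ r : ℤ)) - t = s) :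
    SZ (zl κ) R (Aset W) t = SC κ R {lam | hw (k := k) lam ∈ W} s := by
  have h1 : ∀ T : Finset (Fin n), (T ⊆ R ∧ zl κ - indZ T ∈ At (Aset W) t) ↔
      (T ⊆ R ∧ T.card = s ∧ κ - ind T ∈ {lam | hw (k := k) lam ∈ W}) := by
    intro T
    constructor
    · rintro ⟨h2, ⟨lam, h3, h4, h5⟩, h6⟩
      obtain ⟨g1, g2, g3⟩ := f02d_anti κ hκ R hR T h2
      refine ⟨h2, by omega, ?_⟩
      have h7 : κ - ind T = lam := by
        funext r
        have h8 : (((κ - ind T : Fin n → ℕ) r : ℕ) : ℤ) = lam r := congrFun (g2.trans h5) r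
        exact_mod_cast h8
      rw [h7]
      exact h4
    · rintro ⟨h2, h3, h4⟩
      obtain ⟨g1, g2, g3⟩ := f02d_anti κ hκ R hR T h2
      exact ⟨h2, ⟨κ - ind T, g1, h4, g2.symm⟩, by omega⟩
  ext f
  constructor
  · intro hf T hT
    exact (h1 T).1 (hf T hT)
  · intro hf T hT
    exact (h1 T).2 (hf T hT)

/-- comparison of the two versions of simplicial homology -/
theorem F02_hz (κ : Fin n → ℕ) (hκ : Antitone κ) (R : Finset (Fin n)) (hR : R ⊆ Rem κ)
    (W : Submodule ℂ (Rg (n + k) n)) (t : ℤ) :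
    hz (zl κ) R (Aset W) t =
      if 0 ≤ (∑ r, (κ r : ℤ)) - t then
        hh κ R {lam | hw (k := k) lam ∈ W} ((∑ r, (κ r : ℤ)) - t).toNat
      else 0 := by
  split_ifs with h
  · unfold hz hh
    rw [f02d_SZ κ hκ R hR W t ((∑ r, (κ r : ℤ)) - t).toNat (by omega),
      f02d_SZ κ hκ R hR W (t - 1) (((∑ r, (κ r : ℤ)) - t).toNat + 1) (by push_cast; omega)]
  · unfold hz
    have h1 : SZ (zl κ) R (Aset W) t = ⊥ := by
      rw [eq_bot_iff]
      intro f hf
      rw [Submodule.mem_bot]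
      funext T
      by_contra hT
      obtain ⟨h2, h3, h4⟩ := hf T hT
      obtain ⟨g1, g2, g3⟩ := f02d_anti κ hκ R hR T h2
      omega
    rw [h1, bot_inf_eq, finrank_bot, Nat.zero_sub]

end H95H
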