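import Pool.Agent.Lib.H95H.F01d
import Pool.Agent.Lib.H95H.F02b
import Pool.Agent.Lib.H95H.F02c
import Pool.Agent.Lib.H95H.F02d

namespace H95H
open MvPolynomial

variable {n k : ℕ}

/-!
# Chunk F03: the main theorem

Take `q κ R j ω = if ∑ κ + j = ∑ ω.1 then finrank ((SS ω).Q (zl κ) R) else 0`.
* First part: `F02_bnum`; the terms with `R ⊄ Rem κ` vanish by `F02_Rem`.
* Second part: `F01_betti`. The labels in `L` are the `zl κ`, `κ ∈ box n D` (`SS_L`, `zl` injective,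
  elements of the box are antitone). The terms with `R ⊄ Rem κ` or `∑ κ > D` vanish (`F02_Rem`).
  For the others, `F02_hz` with `t = D - j`: put `s = ∑ κ - D + j` (an integer `≤ j`). If `s < 0` both
  sides are `0`; if `s ≥ 0` then in the sum over `s' ≤ j` of `q κ R (j - s') ω * hh κ R _ s'` only
  `s' = s` contributes, and it is `finrank Q * hh κ R _ s`.
* Third part: if `D ≠ 0` then `Q (zl κ) ∅ = 0`: an element `z` has `d r z = 0`, `p r z = 0`, so
  `c r z = z` (`res`) for all `r`, and `SS_c` applies.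
-/

theorem f03_zl_inj : Function.Injective (zl (n := n)) := by
  intro a b h
  funext r
  have h1 : ((a r : ℕ) : ℤ) = ((b r : ℕ) : ℤ) := congrFun h r
  exact_mod_cast h1

theorem f03_Q_empty (κ : Fin n → ℕ) (ω : Wt (n + k) n) (h : ∑ i, ω.1 i ≠ 0) :
    Module.finrank ℂ ↥((SS ω).Q (zl κ) ∅) = 0 := by
  have e : (SS ω).Q (zl κ) ∅ = ⊥ := by
    rw [Submodule.eq_bot_iff]
    intro z hz
    refine SS_c ω h z fun r => ?_
    have h1 := (SS ω).res r z
    rw [hz.2.2.2 r (Finset.notMem_empty r), hz.2.1 r, map_zero, map_zero, zero_add, zero_add] at h1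
    exact h1
  rw [e, finrank_bot]

theorem f03_term (κ : Fin n → ℕ) (hκ : Antitone κ) (R : Finset (Fin n)) (hR : R ⊆ Rem κ)
    (I : Ideal (Rg (n + k) n)) (j : ℕ) (ω : Wt (n + k) n) :
    Module.finrank ℂ ↥((SS ω).Q (zl κ) R) *
      hz (zl κ) R (Aset (I.restrictScalars ℂ)) (((∑ i, ω.1 i : ℕ) : ℤ) - j) =
    ∑ s ∈ Finset.range (j + 1),
      (if ∑ r, κ r + (j - s) = ∑ i, ω.1 i then Module.finrank ℂ ↥((SS ω).Q (zl κ) R) else 0) *
        hh κ R {lam | hw (k := k) lam ∈ I} s := by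
  by_cases h0 : Module.finrank ℂ ↥((SS ω).Q (zl κ) R) = 0
  · rw [h0, zero_mul]
    symm
    refine Finset.sum_eq_zero fun s _ => ?_
    rw [ite_self, zero_mul]
  have hle := (F02_Rem κ R ω h0).2
  rw [F02_hz κ hκ R hR (I.restrictScalars ℂ) (((∑ i, ω.1 i : ℕ) : ℤ) - j)]
  have eS : {lam | hw (k := k) lam ∈ I.restrictScalars ℂ} = {lam | hw (k := k) lam ∈ I} := rfl
  rw [eS]
  obtain ⟨K, hK⟩ : ∃ K : ℕ, K = ∑ r, κ r := ⟨_, rfl⟩
  have hK' : ∑ r, ((κ r : ℕ) : ℤ) = (K : ℤ) := by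
    rw [hK]
    push_cast
    rfl
  rw [hK']
  rw [← hK] at hle ⊢
  obtain ⟨D, hD⟩ : ∃ D : ℕ, D = ∑ i, ω.1 i := ⟨_, rfl⟩
  rw [← hD] at hle ⊢
  by_cases hs : 0 ≤ (K : ℤ) - ((D : ℤ) - j)
  · rw [if_pos hs]
    obtain ⟨s0, hs0⟩ : ∃ s0 : ℕ, (K : ℤ) - ((D : ℤ) - j) = s0 := ⟨_, (Int.toNat_of_nonneg hs).symm⟩
    rw [hs0, Int.toNat_natCast]
    rw [Finset.sum_eq_single s0]
    · rw [if_pos (by omega)]
    · intro s hs1 hs2
      rw [Finset.mem_range] at hs1
      rw [if_neg (by omega), zero_mul]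
    · intro h
      rw [Finset.mem_range] at h
      omega
  · rw [if_neg hs, mul_zero]
    symm
    refine Finset.sum_eq_zero fun s hs1 => ?_
    rw [Finset.mem_range] at hs1
    rw [if_neg (by omega), zero_mul]

theorem F03_main (n k : ℕ) :
    ∃ q : (Fin n → ℕ) → Finset (Fin n) → ℕ → Wt (n + k) n → ℕ,
      (∀ κ : Fin n → ℕ, Antitone κ → ∀ Y ⊆ Rem κ, ∀ (j : ℕ) (ω : Wt (n + k) n),
        bnum κ Y j ω = ∑ R ∈ (Rem κ).powerset.filter (fun R => Y ⊆ R), q κ R j ω) ∧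
      (∀ I : Ideal (Rg (n + k) n), Inv (I.restrictScalars ℂ) → ∀ (j : ℕ) (ω : Wt (n + k) n),
        betti I j ω = ∑ κ ∈ box n (∑ i, ω.1 i), ∑ R ∈ (Rem κ).powerset,
          ∑ s ∈ Finset.range (j + 1),
            q κ R (j - s) ω * hh κ R {lam | hw (k := k) lam ∈ I} s) ∧
      ∀ (κ : Fin n → ℕ) (j : ℕ) (ω : Wt (n + k) n), ∑ i, ω.1 i ≠ 0 → q κ ∅ j ω = 0 := by
  refine ⟨fun κ R j ω => if ∑ r, κ r + j = ∑ i, ω.1 i then
    Module.finrank ℂ ↥((SS ω).Q (zl κ) R) else 0, ?_, ?_, ?_⟩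
  · intro κ hκ Y hY j ω
    rw [F02_bnum κ hκ Y hY j ω]
    by_cases h : ∑ r, κ r + j = ∑ i, ω.1 i
    · simp only [if_pos h]
      symm
      refine Finset.sum_subset ?_ ?_
      · intro R hR
        rw [Finset.mem_filter] at hR ⊢
        exact ⟨Finset.mem_univ _, hR.2⟩
      · intro R hR hR'
        by_contra h0
        apply hR'
        rw [Finset.mem_filter] at hR ⊢
        exact ⟨Finset.mem_powerset.2 (F02_Rem κ R ω h0).1, hR.2⟩
    · simp only [if_neg h, Finset.sum_const_zero]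
  · intro I hI j ω
    rw [F01_betti I hI j ω, SS_L, Finset.sum_image fun a _ b _ h => f03_zl_inj h]
    refine Finset.sum_congr rfl fun κ hκ => ?_
    have hanti : Antitone κ := by
      unfold box at hκ
      rw [Finset.mem_filter] at hκ
      exact fun r s hrs => hκ.2 r s hrs
    have e1 : ∑ R : Finset (Fin n), Module.finrank ℂ ↥((SS ω).Q (zl κ) R) *
        hz (zl κ) R (Aset (I.restrictScalars ℂ)) (((∑ i, ω.1 i : ℕ) : ℤ) - j) =
        ∑ R ∈ (Rem κ).powerset, Module.finrank ℂ ↥((SS ω).Q (zl κ) R) *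
        hz (zl κ) R (Aset (I.restrictScalars ℂ)) (((∑ i, ω.1 i : ℕ) : ℤ) - j) := by
      symm
      refine Finset.sum_subset (Finset.subset_univ _) ?_
      intro R _ hR'
      have h0 : Module.finrank ℂ ↥((SS ω).Q (zl κ) R) = 0 := by
        by_contra h0
        exact hR' (Finset.mem_powerset.2 (F02_Rem κ R ω h0).1)
      rw [h0, zero_mul]
    rw [e1]
    refine Finset.sum_congr rfl fun R hR => ?_
    exact f03_term κ hanti R (Finset.mem_powerset.1 hR) I j ω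
  · intro κ j ω h
    simp only
    rw [f03_Q_empty κ ω h, ite_self]

end H95H
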