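import Pool.Agent.Lib.H95H.Defs

/-!
# Betti numbers in small definitions
-/

namespace H95H

/-- the dimension of a space of chains -/
noncomputable def dimK {m n : ℕ} (U : Submodule ℂ (Kz m n)) : ℕ := Module.finrank ℂ ↥U

/-- the cycles of homological degree `j` and weight `ω` with coefficients in `W` -/
noncomputable def Cyc {m n : ℕ} (W : Submodule ℂ (Rg m n)) (j : ℕ) (ω : Wt m n) :
    Submodule ℂ (Kz m n) := Ch W j ω ⊓ LinearMap.ker koszul

/-- the boundaries of the chains of degree `j + 1` and weight `ω` with coefficients in `W` -/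
noncomputable def Bdy {m n : ℕ} (W : Submodule ℂ (Rg m n)) (j : ℕ) (ω : Wt m n) :
    Submodule ℂ (Kz m n) := (Ch W (j + 1) ω).map koszul

/-- the dimension of the weight `ω` part of `Tor_j^S(I, ℂ)` -/
noncomputable def bettiN {m n : ℕ} (I : Ideal (Rg m n)) (j : ℕ) (ω : Wt m n) : ℕ :=
  dimK (Cyc (I.restrictScalars ℂ) j ω) - dimK (Bdy (I.restrictScalars ℂ) j ω)

/-- the dimension of the space of cycles in `Λ^j ⊗ V κ` of weight `ω` which for every `s ∈ Y` are
boundaries of elements of `Λ^{j+1} ⊗ V (κ - e_s)` -/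
noncomputable def bnumN {n k : ℕ} (κ : Fin n → ℕ) (Y : Finset (Fin n)) (j : ℕ)
    (ω : Wt (n + k) n) : ℕ :=
  dimK (Cyc (V (k := k) κ) j ω ⊓ ⨅ s ∈ Y, Bdy (V (k := k) (κ - Pi.single s 1)) j ω)

end H95H
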