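import Pool.Agent.Lib.H95H.T04c

namespace H95H

open MvPolynomial

variable {n k : ℕ}

/-!
# Chunk T04: the characters of the simple modules

* `T04_simple`: for antitone `κ` let `L` be the simple quotient of `KK κ` (`H03_kac`, `H03_good`, `H03_fin`,
  `G16_max`), `simp κ ω` the dimension of its weight space. `T04_uniq`: by `G17_uniq` all simple
  modules of weight `(κ, κ)` have the same dimension of weight spaces (a bijective homomorphism maps
  weight spaces onto weight spaces; `L` is good by `G05_quo` and has a lowest part by `G16_quot`).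
* `T04_char`: `G25_char` with `F κ'` chosen from `G25_exists` (for antitone `κ'`) and `ℓ κ' = simp κ' ω`.
* `T04_kac`: `T04_char` for `KK κ`: `kac κ ω` is the dimension of the weight space (`T02_wsp`, `T01_Ch`;
  if `∑ κ > ∑ ω.1` it is `0` by `T01_KV`), and `T03_K`. Here `D = ∑ ω.1 = ∑ ω.2` is needed for `G25_char`
  (`β = ω.2`); if `∑ ω.1 ≠ ∑ ω.2` then `MD ω = ⊥` and all weight spaces of `KK κ` and of its quotients and
  submodules for this weight are `0`, so both sides are `0`.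
* `T04_ell`: (i) if `∑ κ > D`: `kac κ ω = 0`, `simp κ ω = 0` (quotient of `KK κ`), and `Rel κ κ'` implies
  `∑ κ ≤ ∑ κ'` (`R_sum`), so `ellA f κ = 0` for all `f` by induction on `f`. (ii) if `∑ κ ≤ D` and
  `f ≥ D + 1 - ∑ κ` then `ellA f κ = simp κ ω`: induction on `f`; `κ ∈ box n D`, so the term `κ' = κ` occurs in
  `T04_kac` (`R_refl`), and the others have `∑ κ' > ∑ κ` (`R_sum`, `bs_sum`, `bs_inj`).
-/

theorem t04d_big (κ : Fin n → ℕ) (hκ : Antitone κ) (ω : Wt (n + k) n) (h : ∑ i, ω.1 i < ∑ r, κ r) :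
    simp' (k := k) κ ω = 0 := by
  unfold simp'
  rw [dif_pos hκ]
  have key : ∀ (N₀ : Submodule ℂ ↥(KV (k := k) κ)) (hN₀ : (KK k κ).Stab N₀),
      Module.finrank ℂ ↥(((KK k κ).quo N₀ hN₀).toG0.Wsp (fun i => (ω.1 i : ℤ)) (fun l => (ω.2 l : ℤ))) = 0 := by
    intro N₀ hN₀
    have hbot : ((KK k κ).quo N₀ hN₀).toG0.Wsp (fun i => (ω.1 i : ℤ)) (fun l => (ω.2 l : ℤ)) = ⊥ := by
      rw [Submodule.eq_bot_iff]
      intro v hv
      obtain ⟨u, hu, rfl⟩ := g04b_surj (g04a_mkQ (KK k κ) N₀ hN₀) (H03_good κ) (Submodule.mkQ_surjective N₀) _ _ v hv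
      have h1 := (H03_wtK κ ω u).1 hu
      have h2 : u = 0 := by
        apply Subtype.ext
        funext T
        exact T01_KV κ hκ ω u u.2 h1 T (by omega)
      rw [h2, map_zero]
    rw [hbot, finrank_bot]
  exact key _ _

theorem t04d_ind (ω : Wt (n + k) n) (f : ℕ) : ∀ κ : Fin n → ℕ, Antitone κ → ∑ i, ω.1 i + 1 ≤ f + ∑ r, κ r →
    ellA (k := k) ω f κ = (simp' (k := k) κ ω : ℤ) := by
  induction f with
  | zero =>
    intro κ hκ h
    rw [t04d_big κ hκ ω (by omega)]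
    rfl
  | succ f ih =>
    intro κ hκ h
    classical
    show (kac (k := k) κ ω : ℤ) -
      ∑ κ' ∈ (box n (∑ i, ω.1 i)).filter (fun κ' => κ' ≠ κ ∧ Rel ∅ (bs κ) (bs κ')), ellA (k := k) ω f κ' = _
    have h1 : ∀ κ' ∈ (box n (∑ i, ω.1 i)).filter (fun κ' => κ' ≠ κ ∧ Rel ∅ (bs κ) (bs κ')),
        ellA (k := k) ω f κ' = (simp' (k := k) κ' ω : ℤ) := by
      intro κ' hκ'
      rw [Finset.mem_filter] at hκ'
      have ha := g25c_anti hκ'.1
      apply ih κ' ha
      obtain ⟨-, -, h3, h4⟩ := R_sum ∅ (bs κ) (bs κ') (Finset.disjoint_empty_left _) hκ'.2.2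
      have h5 : ∑ r, κ r < ∑ r, κ' r := by
        rw [bs_sum κ hκ, bs_sum κ' ha] at h3 h4
        by_contra hlt
        exact hκ'.2.1 (bs_inj κ' κ ha hκ (h4 (by omega)).symm)
      omega
    rw [Finset.sum_congr rfl h1, T04_kac κ hκ ω]
    by_cases hb : κ ∈ box n (∑ i, ω.1 i)
    · have h2 : (box n (∑ i, ω.1 i)).filter (fun κ' => Rel ∅ (bs κ) (bs κ')) =
          insert κ ((box n (∑ i, ω.1 i)).filter (fun κ' => κ' ≠ κ ∧ Rel ∅ (bs κ) (bs κ'))) := by
        ext κ'
        simp only [Finset.mem_filter, Finset.mem_insert]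
        constructor
        · rintro ⟨h3, h4⟩
          by_cases h5 : κ' = κ
          · exact Or.inl h5
          · exact Or.inr ⟨h3, h5, h4⟩
        · rintro (rfl | ⟨h3, -, h4⟩)
          · exact ⟨hb, R_refl _ _⟩
          · exact ⟨h3, h4⟩
      have h3 : ∑ κ' ∈ (box n (∑ i, ω.1 i)).filter (fun κ' => Rel ∅ (bs κ) (bs κ')), simp' (k := k) κ' ω =
          simp' (k := k) κ ω + ∑ κ' ∈ (box n (∑ i, ω.1 i)).filter (fun κ' => κ' ≠ κ ∧ Rel ∅ (bs κ) (bs κ')), simp' (k := k) κ' ω := by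
        rw [h2, Finset.sum_insert (by simp)]
      rw [show (∑ κ' ∈ (box n (∑ i, ω.1 i)).filter (fun κ' => Rel ∅ (bs κ) (bs κ')), simp' (k := k) κ' ω) = _ from h3]
      push_cast
      ring
    · have h2 : (box n (∑ i, ω.1 i)).filter (fun κ' => Rel ∅ (bs κ) (bs κ')) =
          (box n (∑ i, ω.1 i)).filter (fun κ' => κ' ≠ κ ∧ Rel ∅ (bs κ) (bs κ')) := by
        ext κ'
        simp only [Finset.mem_filter]
        constructor
        · rintro ⟨h3, h4⟩
          exact ⟨h3, fun h5 => hb (h5 ▸ h3), h4⟩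
        · rintro ⟨h3, -, h4⟩
          exact ⟨h3, h4⟩
      rw [t04d_big κ hκ ω (g25c_box hκ hb), h2]
      push_cast
      ring

theorem T04_ell (κ : Fin n → ℕ) (hκ : Antitone κ) (ω : Wt (n + k) n) :
    ell (k := k) κ ω = (simp' (k := k) κ ω : ℤ) := by
  unfold ell
  exact t04d_ind ω _ κ hκ (by omega)

end H95H
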