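import Pool.Agent.Lib.H95H.G00

namespace H95H

/-!
# Chunk R10: bead sets

`bs γ` is the image of `r ↦ γ r + (n - 1 - r)`, which is strictly decreasing if `γ` is antitone.
* `bs_anti`: `γ s ≤ γ r` and `n - 1 - s < n - 1 - r` for `r < s`.
* `bs_card`: `Finset.card_image_of_injective`.
* `bs_inj`: two strictly decreasing functions on `Fin n` with the same range are equal (compose with
  `Fin.rev` and use `Finset.orderEmbOfFin_unique`, or induction).
* `bs_sum`: `Finset.sum_image` and `Finset.sum_add_distrib`.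
* `bs_surj`: let `f` be the decreasing enumeration of `V` (`V.orderEmbOfFin` composed with `Fin.rev`);
  `f r ≥ n - 1 - r` (strictly decreasing natural numbers), put `γ r = f r - (n - 1 - r)`; antitone as
  `f r ≥ f (r+1) + 1`.
* `bs_pos`: an element of `bs γ` is `γ r + (n - 1 - r)` for a unique `r` (only existence stated).
-/

theorem bs_anti {n : ℕ} (γ : Fin n → ℕ) (hγ : Antitone γ) :
    StrictAnti (fun r : Fin n => γ r + (n - 1 - r.1)) := by
  intro r s hrs
  have h1 := hγ hrs.le
  have h2 : r.1 < s.1 := hrs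
  have h3 := s.2
  show γ s + (n - 1 - s.1) < γ r + (n - 1 - r.1)
  omega

theorem bs_card {n : ℕ} (γ : Fin n → ℕ) (hγ : Antitone γ) : (bs γ).card = n := by
  unfold bs
  rw [Finset.card_image_of_injective _ (bs_anti γ hγ).injective]
  simp

theorem bs_inj {n : ℕ} (γ γ' : Fin n → ℕ) (hγ : Antitone γ) (hγ' : Antitone γ')
    (h : bs γ = bs γ') : γ = γ' := by
  have h1 : ∀ (γ : Fin n → ℕ), Antitone γ → ∀ x, x ∈ bs γ ↔
      x ∈ Set.range (fun r : Fin n => γ (Fin.rev r) + (n - 1 - (Fin.rev r).1)) := by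
    intro γ _ x
    unfold bs
    simp only [Finset.mem_image, Finset.mem_univ, true_and, Set.mem_range]
    constructor
    · rintro ⟨r, hr⟩; exact ⟨Fin.rev r, by rw [Fin.rev_rev]; exact hr⟩
    · rintro ⟨r, hr⟩; exact ⟨Fin.rev r, hr⟩
  have hm : ∀ (γ : Fin n → ℕ), Antitone γ →
      StrictMono (fun r : Fin n => γ (Fin.rev r) + (n - 1 - (Fin.rev r).1)) := by
    intro γ hγ r s hrs
    exact bs_anti γ hγ (Fin.rev_lt_rev.mpr hrs)
  have e := StrictMono.range_inj (hm γ hγ) (hm γ' hγ')
  have e2 := e.mp (by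
    ext x
    rw [← h1 γ hγ x, ← h1 γ' hγ' x, h])
  funext r
  have e3 := congrFun e2 (Fin.rev r)
  simp only [Fin.rev_rev] at e3
  omega

theorem bs_sum {n : ℕ} (γ : Fin n → ℕ) (hγ : Antitone γ) :
    ∑ x ∈ bs γ, x = ∑ r, γ r + ∑ r : Fin n, (n - 1 - r.1) := by
  unfold bs
  rw [Finset.sum_image (fun a _ b _ h => (bs_anti γ hγ).injective h), Finset.sum_add_distrib]

theorem bs_surj {n : ℕ} (V : Finset ℕ) (hV : V.card = n) :
    ∃ γ : Fin n → ℕ, Antitone γ ∧ bs γ = V := by
  classical
  let e := V.orderEmbOfFin hV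
  let f : Fin n → ℕ := fun r => e (Fin.rev r)
  have hf : StrictAnti f := fun r s hrs => e.strictMono (Fin.rev_lt_rev.mpr hrs)
  have hstep : ∀ r s : Fin n, r.1 ≤ s.1 → f s + (s.1 - r.1) ≤ f r := by
    intro r s
    obtain ⟨s, hs⟩ := s
    induction s with
    | zero =>
      intro h
      have h' : r.1 ≤ 0 := h
      have : r = ⟨0, hs⟩ := Fin.ext (by simp; omega)
      subst this
      simp
    | succ s ih =>
      intro h
      have h' : r.1 ≤ s + 1 := h
      rcases Nat.lt_or_ge r.1 (s + 1) with h1 | h1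
      · have h2 := ih (by omega) (by show r.1 ≤ s; omega)
        have h3 : f ⟨s + 1, hs⟩ < f ⟨s, by omega⟩ := hf (by show s < s + 1; omega)
        simp only at h2 ⊢
        omega
      · have : r = ⟨s + 1, hs⟩ := Fin.ext (by simp; omega)
        subst this
        simp
  have hlow : ∀ r : Fin n, n - 1 - r.1 ≤ f r := by
    intro r
    have hr := r.2
    have := hstep r ⟨n - 1, by omega⟩ (by show r.1 ≤ n - 1; omega)
    simp only at this
    omega
  refine ⟨fun r => f r - (n - 1 - r.1), ?_, ?_⟩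
  · intro r s hrs
    have h1 := hstep r s hrs
    have h2 := hlow r
    have h3 := hlow s
    have h4 : r.1 ≤ s.1 := hrs
    have h5 := s.2
    show f s - (n - 1 - s.1) ≤ f r - (n - 1 - r.1)
    omega
  · unfold bs
    have : (fun r : Fin n => f r - (n - 1 - r.1) + (n - 1 - r.1)) = f := by
      funext r
      have := hlow r
      omega
    rw [this]
    ext x
    simp only [Finset.mem_image, Finset.mem_univ, true_and]
    have hr := Finset.range_orderEmbOfFin V hV
    constructor
    · rintro ⟨r, rfl⟩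
      exact Finset.orderEmbOfFin_mem V hV (Fin.rev r)
    · intro hx
      have : x ∈ Set.range (V.orderEmbOfFin hV) := by rw [hr]; exact hx
      obtain ⟨r, hr'⟩ := this
      exact ⟨Fin.rev r, by show e (Fin.rev (Fin.rev r)) = x; rw [Fin.rev_rev]; exact hr'⟩

end H95H
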