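import Pool.Agent.Lib.H95H.G15a
import Pool.Agent.Lib.H95H.R10

namespace H95H

/-!
# Chunk R11: moving a bead

Let `f r = γ r + (n - 1 - r)`, strictly decreasing (`bs_anti`).
* `movA_bs`: `γ' = γ + e_r`, `t = f r + 1` (integers; `n - 1 - r` is a natural number as `r < n`), so
  `t - 1 = f r ∈ bs γ`. `bs γ'` is the image of `f` changed at `r` to `f r + 1 = t`; `γ'` is antitone, so
  its map is injective and `t` is not one of the `f s`, `s ≠ r`, and not `f r`; so `t ∉ bs γ`.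
* `movA_ex`: `t - 1 = f r` for some `r`; `γ' = γ + e_r`. Antitone: only `γ r + 1 ≤ γ s` for `s < r` must be
  checked: `f s > f r = t - 1` and `f s ≠ t` give `f s ≥ t + 1`, for `s = r - 1`:
  `γ (r-1) + (n - r) ≥ γ r + (n - 1 - r) + 2`, so `γ (r-1) ≥ γ r + 1`; and `γ s ≥ γ (r-1)`.
* `movB_bs`: `δ = δ' + e_s`, `t = δ s + (n-1-s)`, so `movA δ' δ t` in the sense of `movA_bs` (with
  `δ' s + (n-1-s) + 1 = t`): `t - 1 ∈ bs δ'`, `t ∉ bs δ'`, `bs δ = insert t ((bs δ').erase (t-1))`.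
* `movB_ex`: `t = f s`; `δ s ≥ 1`: otherwise `δ r = 0` for `r ≥ s` and `t = n - 1 - s`, and as `t ≥ 1`,
  `s + 1 < n` and `f (s+1) = t - 1 ∈ bs δ`. Put `δ' = δ - e_s`. Antitone: `δ r ≤ δ s - 1` for `r > s`:
  `f (s+1) < t` and `≠ t - 1`.
-/

theorem r11_mem {n : ℕ} (γ : Fin n → ℕ) (x : ℕ) : x ∈ bs γ ↔ ∃ r : Fin n, γ r + (n - 1 - r.1) = x := by
  simp [bs]

theorem movA_bs {n : ℕ} (γ γ' : Fin n → ℕ) (hγ : Antitone γ) (t : ℕ) (ht' : 1 ≤ t)
    (h : movA γ γ' (t : ℤ)) :
    t - 1 ∈ bs γ ∧ t ∉ bs γ ∧ bs γ' = insert t ((bs γ).erase (t - 1)) := by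
  classical
  obtain ⟨hγ', r, hr, ht⟩ := h
  have hrn := r.2
  have htr : t = γ r + (n - 1 - r.1) + 1 := by omega
  have hg : ∀ s, s ≠ r → γ' s = γ s := by
    intro s hs
    rw [hr]
    simp [Pi.single_eq_of_ne hs]
  have hgr : γ' r = γ r + 1 := by rw [hr]; simp
  have hinj := (bs_anti γ hγ).injective
  have hinj' := (bs_anti γ' hγ').injective
  have m1 : t - 1 ∈ bs γ := by rw [r11_mem]; exact ⟨r, by omega⟩
  have m2 : t ∉ bs γ := by
    rw [r11_mem]
    rintro ⟨s, hs⟩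
    by_cases hsr : s = r
    · subst hsr; omega
    · apply hsr
      apply hinj'
      show γ' s + (n - 1 - s.1) = γ' r + (n - 1 - r.1)
      rw [hg s hsr, hgr]
      omega
  refine ⟨m1, m2, ?_⟩
  ext x
  rw [Finset.mem_insert, Finset.mem_erase, r11_mem, r11_mem]
  constructor
  · rintro ⟨s, hs⟩
    by_cases hsr : s = r
    · subst hsr; left; omega
    · right
      rw [hg s hsr] at hs
      refine ⟨?_, s, hs⟩
      intro hx
      apply hsr
      apply hinj
      show γ s + (n - 1 - s.1) = γ r + (n - 1 - r.1)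
      omega
  · rintro (hx | ⟨hx, s, hs⟩)
    · exact ⟨r, by omega⟩
    · have hsr : s ≠ r := by
        rintro rfl
        omega
      exact ⟨s, by rw [hg s hsr]; exact hs⟩

theorem movA_ex {n : ℕ} (γ : Fin n → ℕ) (hγ : Antitone γ) (t : ℕ) (ht' : 1 ≤ t)
    (h1 : t - 1 ∈ bs γ) (h2 : t ∉ bs γ) : ∃ γ', movA γ γ' (t : ℤ) := by
  classical
  obtain ⟨r, hr⟩ := (r11_mem γ (t - 1)).mp h1
  have hrn := r.2
  refine ⟨γ + Pi.single r 1, ?_, r, rfl, by omega⟩
  intro a b hab
  have hγab := hγ hab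
  by_cases hb : b = r
  · subst hb
    by_cases ha : a = b
    · subst ha; exact le_rfl
    · have hlt : a < b := lt_of_le_of_ne hab ha
      have hlt' : a.1 < b.1 := hlt
      simp only [Pi.add_apply, Pi.single_eq_same, Pi.single_eq_of_ne ha, add_zero]
      have hne : γ a + (n - 1 - a.1) ≠ t := fun h => h2 ((r11_mem γ t).mpr ⟨a, h⟩)
      by_contra hc
      have heq : γ a = γ b := by omega
      -- then the index a with the same value: the index b - 1
      have hb1 : b.1 - 1 < n := by omega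
      have h3 := hγ (show a ≤ ⟨b.1 - 1, hb1⟩ from by show a.1 ≤ b.1 - 1; omega)
      have h4 := hγ (show (⟨b.1 - 1, hb1⟩ : Fin n) ≤ b from by show b.1 - 1 ≤ b.1; omega)
      apply h2
      rw [r11_mem]
      refine ⟨⟨b.1 - 1, hb1⟩, ?_⟩
      simp only
      omega
  · simp only [Pi.add_apply, Pi.single_eq_of_ne hb, add_zero]
    exact le_trans hγab (Nat.le_add_right _ _)

theorem movB_bs {n : ℕ} (δ δ' : Fin n → ℕ) (hδ : Antitone δ) (t : ℕ) (ht' : 1 ≤ t)
    (h : movB δ δ' (t : ℤ)) :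
    t ∈ bs δ ∧ t - 1 ∉ bs δ ∧ bs δ' = insert (t - 1) ((bs δ).erase t) := by
  classical
  obtain ⟨hδ', s, hs, ht⟩ := h
  have hsn := s.2
  have hA : movA δ' δ (t : ℤ) := by
    refine ⟨hδ, s, hs, ?_⟩
    have : δ s = δ' s + 1 := by rw [hs]; simp
    omega
  obtain ⟨m1, m2, m3⟩ := movA_bs δ' δ hδ' t ht' hA
  refine ⟨by rw [m3]; exact Finset.mem_insert_self _ _, ?_, ?_⟩
  · rw [m3, Finset.mem_insert, Finset.mem_erase]
    rintro (h | h)
    · omega
    · exact h.1 rfl
  · rw [m3, Finset.erase_insert, Finset.insert_erase m1]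
    rw [Finset.mem_erase]
    exact fun h => m2 h.2

theorem movB_ex {n : ℕ} (δ : Fin n → ℕ) (hδ : Antitone δ) (t : ℕ) (ht' : 1 ≤ t)
    (h1 : t ∈ bs δ) (h2 : t - 1 ∉ bs δ) : ∃ δ', movB δ δ' (t : ℤ) := by
  classical
  obtain ⟨s, hs⟩ := (r11_mem δ t).mp h1
  have hsn := s.2
  -- the next value is smaller
  have hnext : ∀ r : Fin n, s < r → δ r < δ s := by
    intro r hr
    have hr' : s.1 < r.1 := hr
    have hrn := r.2
    have hb1 : s.1 + 1 < n := by omega
    have h3 := hδ (show (⟨s.1 + 1, hb1⟩ : Fin n) ≤ r from by show s.1 + 1 ≤ r.1; omega)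
    have h4 := hδ (show s ≤ (⟨s.1 + 1, hb1⟩ : Fin n) from by show s.1 ≤ s.1 + 1; omega)
    by_contra hc
    apply h2
    rw [r11_mem]
    refine ⟨⟨s.1 + 1, hb1⟩, ?_⟩
    simp only
    omega
  have hpos : 1 ≤ δ s := by
    by_contra hc
    have h0 : δ s = 0 := by omega
    have hb1 : s.1 + 1 < n := by omega
    have := hnext ⟨s.1 + 1, hb1⟩ (by show s.1 < s.1 + 1; omega)
    omega
  refine ⟨Function.update δ s (δ s - 1), ?_, s, ?_, by omega⟩
  · intro a b hab
    have hδab := hδ hab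
    by_cases ha : a = s
    · subst ha
      by_cases hb : b = a
      · subst hb; exact le_rfl
      · rw [Function.update_self, Function.update_of_ne hb]
        have := hnext b (lt_of_le_of_ne hab (Ne.symm hb))
        omega
    · rw [Function.update_of_ne ha]
      by_cases hb : b = s
      · subst hb; rw [Function.update_self]; omega
      · rw [Function.update_of_ne hb]; exact hδab
  · funext x
    by_cases hx : x = s
    · subst hx; simp; omega
    · simp [Function.update_of_ne hx, Pi.single_eq_of_ne hx]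

end H95H
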