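import Pool.Agent.Lib.H95H.R08
import Pool.Agent.Lib.H95H.R11

namespace H95H

open MvPolynomial

variable {n k : ℕ}

/-- `V` arises from `V'` by moving the right ends of some arcs of length at least `2` to the left
ends -/
def LRel (V V' : Finset ℕ) : Prop :=
  ∃ A : Finset (ℕ × ℕ), (∀ a ∈ A, Arc ∅ V' a.1 a.2 ∧ a.1 + 1 < a.2) ∧
    V = (V' \ A.image Prod.snd) ∪ A.image Prod.fst

open Classical in
/-- the rows of `κ` whose bead is the right end of an arc of length `1` of `κ'` -/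
noncomputable def Rsh {n : ℕ} (κ' κ : Fin n → ℕ) : Finset (Fin n) :=
  Finset.univ.filter (fun r => 1 ≤ κ r + (n - 1 - r.1) ∧
    Arc ∅ (bs κ') (κ r + (n - 1 - r.1) - 1) (κ r + (n - 1 - r.1)))

/-!
# Chunk T03: the values of the admissible functions

Let `κ`, `κ'` be antitone and `f` admissible for `(κ', κ')`. Bead `r` of `κ` is `b r = κ r + (n - 1 - r)`.
The lemmas about arcs and beads are in the `R` files.
* `T03_comb`: `LRel (bs κ) (bs κ')` iff `Rel ∅ (bs κ) (bs κ')` and for no `r` with `κ + e_r` antitone we have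
  `Rel ∅ (bs (κ + e_r)) (bs κ')` and `Arc ∅ (bs κ') (b r) (b r + 1)`. (⇒) if `Arc (b r) (b r + 1)` then
  `b r ∈ bs κ`, `b r ∉ bs κ'`, so `b r` is the left end of an arc of `A`; arcs with the same left end are
  equal (`R_left`), so this arc is short, contradiction. (⇐) let `A` be as in `Rel`; suppose
  `(p, p + 1) ∈ A`. Then `p ∈ bs κ`, `p + 1 ∉ bs κ` (it is a right end of an arc of `A`, and not a left end,
  as it is in `bs κ'`). Let `r` be the row with `b r = p`: `κ + e_r` is antitone and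
  `bs (κ + e_r) = insert (p+1) ((bs κ).erase p)` arises from `A` without `(p, p + 1)`: contradiction.
* `T03_sub`: for `Y ⊆ Rem κ`: `Y ⊆ Rsh κ' κ` iff for all `s ∈ Y`, `Arc ∅ (bs κ') (b s - 1) (b s)` (`b s ≥ 1` as
  `κ s ≥ 1`).
* `T03_K`: `f (KK κ)` is `1` if `Rel ∅ (bs κ) (bs κ')` and `0` otherwise (`Adm`, `H03_kac`, `XX κ' κ' = ∅`,
  `VV κ κ = bs κ`, `wd κ κ = 0`).
* `T03_range`: `G25_sub` for `S = KK κ₁`, `H04_low`.
* `T03_ker`: `f (ker PM) + f (range PM) = f (KK κ)` for `PM = PM k κ κ₁`, `κ = κ₁ + e_s` (`hf.1` for the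
  sequence `ker → KV κ → range`), and `T03_K`, `T03_range`.
* `T03_main`: let `N = ⨆ NF i`. If `f (KK κ) = 0` then `f N = 0` (`G04_mono` or `G04_sub`) and `Rel` fails, so
  `LRel` fails. If `f (KK κ) = 1`: by `G23_sup` `f N = 1` iff some `f (NF i) = 1`. By `T03_range`
  (with `κ₁ = κ`) and `T03_ker` this is the case iff `Rel (κ + e_r)` and `Arc (b r) (b r + 1)` for some `r`, or
  `Arc (b s - 1) (b s)` fails for some `s ∈ Y` (note `κ = (κ - e_s) + e_s`). By `T03_comb` and `T03_sub` this is the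
  negation of `LRel ∧ Y ⊆ Rsh κ' κ`.
-/

theorem t03a_erase (V V' : Finset ℕ) (A : Finset (ℕ × ℕ)) (hA : ∀ a ∈ A, Arc ∅ V' a.1 a.2)
    (hV : V = (V' \ A.image Prod.snd) ∪ A.image Prod.fst) (p : ℕ) (ha : (p, p + 1) ∈ A) :
    Rel ∅ (insert (p + 1) (V.erase p)) V' := by
  classical
  have hd : Disjoint (∅ : Finset ℕ) V' := Finset.disjoint_empty_left _
  have harc := hA _ ha
  refine ⟨A.erase (p, p + 1), fun a h => hA a (Finset.mem_of_mem_erase h), ?_⟩
  ext x
  have hx := Finset.ext_iff.mp hV x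
  simp only [Finset.mem_union, Finset.mem_sdiff, Finset.mem_image] at hx
  simp only [Finset.mem_insert, Finset.mem_erase, Finset.mem_union, Finset.mem_sdiff,
    Finset.mem_image]
  rw [hx]
  constructor
  · rintro (rfl | ⟨hne, (h | ⟨a, haa, h⟩)⟩)
    · left
      refine ⟨harc.2.2.2.1, ?_⟩
      rintro ⟨a, ⟨hne, haa⟩, h'⟩
      have h4 := hA a haa
      rw [h'] at h4
      have h5 := R_right ∅ V' _ _ _ h4 harc
      exact hne (Prod.ext h5 h')
    · left
      refine ⟨h.1, ?_⟩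
      rintro ⟨a, ⟨_, haa⟩, h'⟩
      exact h.2 ⟨a, haa, h'⟩
    · right
      refine ⟨a, ⟨?_, haa⟩, h⟩
      intro heq
      rw [heq] at h
      exact hne h.symm
  · rintro (h | ⟨a, ⟨hne, haa⟩, h⟩)
    · by_cases hxp : x = p + 1
      · left; exact hxp
      · right
        refine ⟨?_, Or.inl ⟨h.1, ?_⟩⟩
        · rintro rfl
          exact harc.2.2.1 h.1
        · rintro ⟨a, haa, h'⟩
          refine h.2 ⟨a, ⟨?_, haa⟩, h'⟩
          intro heq
          rw [heq] at h'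
          exact hxp h'.symm
    · right
      refine ⟨?_, Or.inr ⟨a, haa, h⟩⟩
      rintro rfl
      have h4 := hA a haa
      rw [h] at h4
      have h5 := R_left ∅ V' hd _ _ _ h4 harc
      exact hne (Prod.ext h h5)

theorem T03_comb (κ κ' : Fin n → ℕ) (hκ : Antitone κ) (hκ' : Antitone κ') :
    LRel (bs κ) (bs κ') ↔ (Rel ∅ (bs κ) (bs κ') ∧ ∀ r : Fin n, Antitone (κ + Pi.single r 1) →
      ¬(Rel ∅ (bs (κ + Pi.single r 1)) (bs κ') ∧
        Arc ∅ (bs κ') (κ r + (n - 1 - r.1)) (κ r + (n - 1 - r.1) + 1))) := by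
  classical
  have hd : Disjoint (∅ : Finset ℕ) (bs κ') := Finset.disjoint_empty_left _
  constructor
  · rintro ⟨A, hA, hV⟩
    refine ⟨⟨A, fun a ha => (hA a ha).1, hV⟩, ?_⟩
    rintro r hr ⟨_, harc⟩
    have k := R_mem_iff ∅ (bs κ) (bs κ') hd A (fun a ha => (hA a ha).1) hV _ _ harc
    have h1 : κ r + (n - 1 - r.1) ∈ bs κ := (r11_mem κ _).mpr ⟨r, rfl⟩
    have h2 := hA _ (k.2.mpr h1)
    have h3 := h2.2
    simp only at h3
    omega
  · rintro ⟨⟨A, hA, hV⟩, hno⟩
    refine ⟨A, fun a ha => ⟨hA a ha, ?_⟩, hV⟩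
    by_contra hcon
    have harc := hA a ha
    have hlt := harc.1
    have ha2 : a.2 = a.1 + 1 := by omega
    have hae : a = (a.1, a.1 + 1) := Prod.ext rfl ha2
    have ha' : (a.1, a.1 + 1) ∈ A := by rw [← hae]; exact ha
    have harc' : Arc ∅ (bs κ') a.1 (a.1 + 1) := by rw [← ha2]; exact harc
    have k := R_mem_iff ∅ (bs κ) (bs κ') hd A hA hV a.1 (a.1 + 1) harc'
    have m1 : a.1 ∈ bs κ := k.2.mp ha'
    have m2 : a.1 + 1 ∉ bs κ := k.1.mp ha'
    obtain ⟨γ', hγ'⟩ := movA_ex κ hκ (a.1 + 1) (by omega) (by simpa using m1) m2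
    have hbs := movA_bs κ γ' hκ (a.1 + 1) (by omega) hγ'
    obtain ⟨hanti, r, hr, ht⟩ := hγ'
    have hrn := r.2
    have hbr : κ r + (n - 1 - r.1) = a.1 := by omega
    subst hr
    refine hno r hanti ⟨?_, ?_⟩
    · rw [hbs.2.2]
      have := t03a_erase (bs κ) (bs κ') A hA hV a.1 ha'
      simpa using this
    · rw [hbr]
      exact harc'

theorem T03_sub (κ κ' : Fin n → ℕ) (Y : Finset (Fin n)) (hY : Y ⊆ Rem κ) :
    Y ⊆ Rsh κ' κ ↔ ∀ s ∈ Y,
      Arc ∅ (bs κ') (κ s - 1 + (n - 1 - s.1)) (κ s - 1 + (n - 1 - s.1) + 1) := by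
  classical
  have key : ∀ s ∈ Y, (s ∈ Rsh κ' κ ↔
      Arc ∅ (bs κ') (κ s - 1 + (n - 1 - s.1)) (κ s - 1 + (n - 1 - s.1) + 1)) := by
    intro s hs
    have h1 : 1 ≤ κ s := by
      have := hY hs
      simp only [Rem, Finset.mem_filter] at this
      exact this.2.1
    have e1 : κ s + (n - 1 - s.1) - 1 = κ s - 1 + (n - 1 - s.1) := by omega
    have e2 : κ s + (n - 1 - s.1) = κ s - 1 + (n - 1 - s.1) + 1 := by omega
    simp only [Rsh, Finset.mem_filter, Finset.mem_univ, true_and]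
    rw [e1]
    constructor
    · intro h
      rw [← e2]
      exact h.2
    · intro h
      refine ⟨by omega, ?_⟩
      rw [← e2] at h
      exact h
  constructor
  · intro h s hs
    exact (key s hs).mp (h hs)
  · intro h s hs
    exact (key s hs).mpr (h s hs)

end H95H
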