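import Pool.Agent.Lib.H95H.T01c
import Pool.Agent.Lib.H95H.T03a

namespace H95H

open MvPolynomial

variable {n k : ℕ}

/-!
# Chunk T05: the main theorem

* `T05_bnum`: for `∑ κ + j = ∑ ω.1 = D`: `bnum κ Y j ω = dim (KV κ)_ω - dim (⨆ NF i)_ω` (`T02_main`), both are
  dimensions of weight spaces (`T02_wsp`) of modules in the principal block (`G23_kac` with
  `wd κ κ = 0`, `G22_sub`), so by `T04_char` the difference is
  `∑_{κ'} (F κ' (KK κ) - F κ' (⨆ NF i)) * simp κ' ω`, and `T03_main`. If `∑ ω.1 ≠ ∑ ω.2` everything is `0`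
  (`T04_deg`).
* `T05_q`: let `q` be as in `F03_main` (only the first property is used): for `Y ⊆ Rem κ`,
  `∑_{R ⊇ Y} q κ R j ω = ∑_{R ⊇ Y} Q R` where `R` runs over the subsets of `Rem κ` and
  `Q R = ∑_{κ'} [LRel, Rsh κ' κ = R] simp κ' ω`; here `LRel` implies `Rsh κ' κ ⊆ Rem κ`: the bead `b` of
  `r ∈ Rsh` is the right end of the arc `(b - 1, b)`; `b - 1 ∉ bs κ`, because `b - 1 ∉ bs κ'` and it is not
  the left end of an arc of `A` (such an arc would be `(b - 1, b)` by `R_left`, not long); so `r ∈ Rem κ`.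
  By downward induction on `Y` (from `Rem κ`) the two functions agree (Möbius inversion).
* `T05_q0`: if `∑ κ + j ≠ ∑ ω.1` then `bnum κ Y j ω = 0`, because `Ch (V κ) j ω = ⊥` (`V κ` is homogeneous of
  degree `∑ κ`), so `q κ R j ω = 0` for `R ⊆ Rem κ` (a sum of natural numbers).
* `T05_main`: in the second property of `F03_main` only `s = ∑ κ + j - D` (if `0 ≤ s ≤ j`, i.e.
  `D ≤ ∑ κ + j` and `∑ κ ≤ D`) contributes; insert `T05_q`; exchange the sums; `T04_ell`.
  (For `κ ∈ box n D` with `∑ κ > D` the contribution is zero on the left side; on the right side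
  `LRel (bs κ) (bs κ')` implies `∑ κ' ≥ ∑ κ > D` and `ell κ' ω = simp κ' ω = 0`.)
-/

theorem T05_q0 (κ : Fin n → ℕ) (hκ : Antitone κ) (Y : Finset (Fin n)) (j : ℕ)
    (ω : Wt (n + k) n) (hj : ∑ r, κ r + j ≠ ∑ i, ω.1 i) : bnum (k := k) κ Y j ω = 0 := by
  unfold bnum
  have h0 : Ch (V (k := k) κ) j ω = ⊥ := by
    rw [Submodule.eq_bot_iff]
    rintro c ⟨h1, h2, h3⟩
    funext T
    by_cases hT : T.card = j
    · exact T01_KV κ hκ ω c h1 h3 T (by rw [hT]; exact hj)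
    · exact h2 T hT
  have h3 : Ch (V (k := k) κ) j ω ⊓ LinearMap.ker koszul ⊓
      ⨅ s ∈ Y, (Ch (V (k := k) (κ - Pi.single s 1)) (j + 1) ω).map koszul = ⊥ := by
    rw [h0, bot_inf_eq, bot_inf_eq]
  rw [h3, finrank_bot]

theorem T05_Rsh (κ κ' : Fin n → ℕ) (hκ : Antitone κ) (hκ' : Antitone κ')
    (h : LRel (bs κ) (bs κ')) : Rsh κ' κ ⊆ Rem κ := by
  classical
  intro r hr
  unfold Rsh at hr
  rw [Finset.mem_filter] at hr
  obtain ⟨-, hb1, harc⟩ := hr
  obtain ⟨A, hA, hV⟩ := h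
  have hd : Disjoint (∅ : Finset ℕ) (bs κ') := Finset.disjoint_empty_left _
  set b := κ r + (n - 1 - r.1) with hb
  have hnot : b - 1 ∉ bs κ := by
    rw [hV, Finset.mem_union, not_or]
    constructor
    · intro h1
      exact harc.2.2.1 (Finset.mem_sdiff.1 h1).1
    · intro h1
      obtain ⟨a, ha, hab⟩ := Finset.mem_image.1 h1
      obtain ⟨h2, h3⟩ := hA a ha
      rw [hab] at h2 h3
      have h4 := R_left ∅ (bs κ') hd _ _ _ h2 harc
      omega
  have key : ∀ h : r.1 + 1 < n, κ ⟨r.1 + 1, h⟩ ≠ κ r := by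
    intro h hk
    apply hnot
    unfold bs
    rw [Finset.mem_image]
    refine ⟨⟨r.1 + 1, h⟩, Finset.mem_univ _, ?_⟩
    rw [hk]
    show κ r + (n - 1 - (r.1 + 1)) = b - 1
    omega
  unfold Rem
  rw [Finset.mem_filter]
  refine ⟨Finset.mem_univ _, ?_, ?_⟩
  · by_contra h0
    have h1 : κ r = 0 := by omega
    have h2 : r.1 + 1 < n := by omega
    apply key h2
    have h3 : κ ⟨r.1 + 1, h2⟩ ≤ κ r := hκ (by rw [Fin.le_def]; exact Nat.le_succ _)
    omega
  · intro s hs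
    by_contra h0
    have hs' : r.1 < s.1 := hs
    have h2 : r.1 + 1 < n := by omega
    apply key h2
    have h3 : κ ⟨r.1 + 1, h2⟩ ≤ κ r := hκ (by rw [Fin.le_def]; exact Nat.le_succ _)
    have h4 : κ s ≤ κ ⟨r.1 + 1, h2⟩ := hκ (by rw [Fin.le_def]; exact hs')
    omega

end H95H
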