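import Pool.Agent.Lib.H95H.T05a
import Pool.Agent.Lib.H95H.T05b

namespace H95H

open MvPolynomial

variable {n k : ℕ}

/-!
# Chunk T05: the main theorem

* `T05_bnum`: for `∑ κ + j = ∑ ω.1 = D`: `bnum κ Y j ω = dim (KV κ)_ω - dim (⨆ NF i)_ω` (`T02_main`), both are
  dimensions of weight spaces (`T02_wsp`) of modules in the principal block (`G23_kac` with
  `wd κ κ = 0`, `G22_sub`), so by `T04_char` the difference is
  `∑_{κ'} (F κ' (KK κ) - F κ' (⨆ NF i)) * simp κ' ω`, and `T03_main`. If `∑ ω.1 ≠ ∑ ω.2` everything is `0`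
  (`T04_deg`).
* `T05_q`: let `q` be as in `F03_main` (only the first property is used): for `Y ⊆ Rem κ`,
  `∑_{R ⊇ Y} q κ R j ω = ∑_{R ⊇ Y} Q R` where `R` runs over the subsets of `Rem κ` and
  `Q R = ∑_{κ'} [LRel, Rsh κ' κ = R] simp κ' ω`; here `LRel` implies `Rsh κ' κ ⊆ Rem κ`: the bead `b` of
  `r ∈ Rsh` is the right end of the arc `(b - 1, b)`; `b - 1 ∉ bs κ`, because `b - 1 ∉ bs κ'` and it is not
  the left end of an arc of `A` (such an arc would be `(b - 1, b)` by `R_left`, not long); so `r ∈ Rem κ`.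
  By downward induction on `Y` (from `Rem κ`) the two functions agree (Möbius inversion).
* `T05_q0`: if `∑ κ + j ≠ ∑ ω.1` then `bnum κ Y j ω = 0`, because `Ch (V κ) j ω = ⊥` (`V κ` is homogeneous of
  degree `∑ κ`), so `q κ R j ω = 0` for `R ⊆ Rem κ` (a sum of natural numbers).
* `T05_main`: in the second property of `F03_main` only `s = ∑ κ + j - D` (if `0 ≤ s ≤ j`, i.e.
  `D ≤ ∑ κ + j` and `∑ κ ≤ D`) contributes; insert `T05_q`; exchange the sums; `T04_ell`.
  (For `κ ∈ box n D` with `∑ κ > D` the contribution is zero on the left side; on the right side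
  `LRel (bs κ) (bs κ')` implies `∑ κ' ≥ ∑ κ > D` and `ell κ' ω = simp κ' ω = 0`.)
-/

open Classical in
open Classical in
theorem t05c_mob {α : Type} (E : Finset α) (a b : Finset α → ℕ)
    (h : ∀ Y ⊆ E, ∑ R ∈ E.powerset.filter (fun R => Y ⊆ R), a R = ∑ R ∈ E.powerset.filter (fun R => Y ⊆ R), b R) :
    ∀ (N : ℕ) (R : Finset α), R ⊆ E → (E \ R).card = N → a R = b R := by
  intro N
  induction N using Nat.strong_induction_on with
  | _ N ih =>
  intro R hR hc
  have h1 := h R hR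
  have h2 : E.powerset.filter (fun R' => R ⊆ R') = insert R (E.powerset.filter (fun R' => R ⊂ R')) := by
    ext R'
    simp only [Finset.mem_filter, Finset.mem_powerset, Finset.mem_insert]
    constructor
    · rintro ⟨h3, h4⟩
      rcases eq_or_ne R' R with h5 | h5
      · exact Or.inl h5
      · exact Or.inr ⟨h3, Finset.ssubset_iff_subset_ne.2 ⟨h4, fun h6 => h5 h6.symm⟩⟩
    · rintro (rfl | ⟨h3, h4⟩)
      · exact ⟨hR, Finset.Subset.refl _⟩
      · exact ⟨h3, h4.subset⟩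
  have h3 : R ∉ E.powerset.filter (fun R' => R ⊂ R') := by
    rw [Finset.mem_filter]
    rintro ⟨-, h4⟩
    exact h4.2 (Finset.Subset.refl _)
  rw [h2, Finset.sum_insert h3, Finset.sum_insert h3] at h1
  have h4 : ∑ R' ∈ E.powerset.filter (fun R' => R ⊂ R'), a R' = ∑ R' ∈ E.powerset.filter (fun R' => R ⊂ R'), b R' := by
    refine Finset.sum_congr rfl fun R' hR' => ?_
    rw [Finset.mem_filter, Finset.mem_powerset] at hR'
    refine ih (E \ R').card ?_ R' hR'.1 rfl
    rw [← hc]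
    apply Finset.card_lt_card
    rw [Finset.ssubset_iff_of_subset (Finset.sdiff_subset_sdiff (Finset.Subset.refl E) hR'.2.subset)]
    obtain ⟨x, hx1, hx2⟩ := Finset.exists_of_ssubset hR'.2
    refine ⟨x, Finset.mem_sdiff.2 ⟨hR'.1 hx1, hx2⟩, fun hx => (Finset.mem_sdiff.1 hx).2 hx1⟩
  omega

open Classical in
theorem T05_q (q : (Fin n → ℕ) → Finset (Fin n) → ℕ → Wt (n + k) n → ℕ)
    (hq : ∀ κ : Fin n → ℕ, Antitone κ → ∀ Y ⊆ Rem κ, ∀ (j : ℕ) (ω : Wt (n + k) n),
      bnum κ Y j ω = ∑ R ∈ (Rem κ).powerset.filter (fun R => Y ⊆ R), q κ R j ω)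
    (κ : Fin n → ℕ) (hκ : Antitone κ) (R : Finset (Fin n)) (hR : R ⊆ Rem κ) (j : ℕ)
    (ω : Wt (n + k) n) :
    q κ R j ω = if ∑ r, κ r + j = ∑ i, ω.1 i then
      ∑ κ' ∈ (box n (∑ i, ω.1 i)).filter (fun κ' => LRel (bs κ) (bs κ') ∧ Rsh κ' κ = R),
        simp' (k := k) κ' ω else 0 := by
  by_cases hj : ∑ r, κ r + j = ∑ i, ω.1 i
  · rw [if_pos hj]
    refine t05c_mob (Rem κ) (fun R => q κ R j ω) (fun R => ∑ κ' ∈ (box n (∑ i, ω.1 i)).filter
      (fun κ' => LRel (bs κ) (bs κ') ∧ Rsh κ' κ = R), simp' (k := k) κ' ω) ?_ _ R hR rfl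
    intro Y hY
    have h1 := hq κ hκ Y hY j ω
    refine Eq.trans (b := bnum κ Y j ω) ?_ ?_
    · rw [h1]
      refine Finset.sum_congr ?_ fun _ _ => rfl
      ext R'
      simp only [Finset.mem_filter]
    rw [T05_bnum κ hκ Y hY j ω hj]
    have h3 : ∀ R' : Finset (Fin n), (∑ κ' ∈ (box n (∑ i, ω.1 i)).filter
        (fun κ' => LRel (bs κ) (bs κ') ∧ Rsh κ' κ = R'), simp' (k := k) κ' ω) =
        ∑ κ' ∈ (box n (∑ i, ω.1 i)).filter (fun κ' => LRel (bs κ) (bs κ')),
          if Rsh κ' κ = R' then simp' (k := k) κ' ω else 0 := by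
      intro R'
      rw [← Finset.sum_filter, Finset.filter_filter]
    rw [Finset.sum_congr rfl fun R' _ => h3 R', Finset.sum_comm]
    rw [← Finset.filter_filter, Finset.sum_filter]
    refine Finset.sum_congr rfl fun κ' hκ' => ?_
    rw [Finset.mem_filter] at hκ'
    rw [Finset.sum_ite_eq]
    have h4 : Rsh κ' κ ⊆ Rem κ := T05_Rsh κ κ' hκ (g25c_anti hκ'.1) hκ'.2
    by_cases h6 : Y ⊆ Rsh κ' κ
    · rw [if_pos h6, if_pos]
      simp only [Finset.mem_filter, Finset.mem_powerset]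
      exact ⟨h4, h6⟩
    · rw [if_neg h6, if_neg]
      simp only [Finset.mem_filter]
      exact fun h => h6 h.2
  · rw [if_neg hj]
    refine t05c_mob (Rem κ) (fun R => q κ R j ω) (fun _ => 0) ?_ _ R hR rfl
    intro Y hY
    have h1 := hq κ hκ Y hY j ω
    rw [Finset.sum_const_zero]
    rw [T05_q0 κ hκ Y j ω hj] at h1
    rw [h1]
    refine Finset.sum_congr ?_ fun _ _ => rfl
    ext R'
    simp only [Finset.mem_filter]

end H95H
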