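import Pool.Agent.Lib.H95H.F03
import Pool.Agent.Lib.H95H.T04d
import Pool.Agent.Lib.H95H.T05c

namespace H95H

open MvPolynomial

variable {n k : ℕ}

/-!
# Chunk T05: the main theorem

* `T05_bnum`: for `∑ κ + j = ∑ ω.1 = D`: `bnum κ Y j ω = dim (KV κ)_ω - dim (⨆ NF i)_ω` (`T02_main`), both are
  dimensions of weight spaces (`T02_wsp`) of modules in the principal block (`G23_kac` with
  `wd κ κ = 0`, `G22_sub`), so by `T04_char` the difference is
  `∑_{κ'} (F κ' (KK κ) - F κ' (⨆ NF i)) * simp κ' ω`, and `T03_main`. If `∑ ω.1 ≠ ∑ ω.2` everything is `0`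
  (`T04_deg`).
* `T05_q`: let `q` be as in `F03_main` (only the first property is used): for `Y ⊆ Rem κ`,
  `∑_{R ⊇ Y} q κ R j ω = ∑_{R ⊇ Y} Q R` where `R` runs over the subsets of `Rem κ` and
  `Q R = ∑_{κ'} [LRel, Rsh κ' κ = R] simp κ' ω`; here `LRel` implies `Rsh κ' κ ⊆ Rem κ`: the bead `b` of
  `r ∈ Rsh` is the right end of the arc `(b - 1, b)`; `b - 1 ∉ bs κ`, because `b - 1 ∉ bs κ'` and it is not
  the left end of an arc of `A` (such an arc would be `(b - 1, b)` by `R_left`, not long); so `r ∈ Rem κ`.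
  By downward induction on `Y` (from `Rem κ`) the two functions agree (Möbius inversion).
* `T05_q0`: if `∑ κ + j ≠ ∑ ω.1` then `bnum κ Y j ω = 0`, because `Ch (V κ) j ω = ⊥` (`V κ` is homogeneous of
  degree `∑ κ`), so `q κ R j ω = 0` for `R ⊆ Rem κ` (a sum of natural numbers).
* `T05_main`: in the second property of `F03_main` only `s = ∑ κ + j - D` (if `0 ≤ s ≤ j`, i.e.
  `D ≤ ∑ κ + j` and `∑ κ ≤ D`) contributes; insert `T05_q`; exchange the sums; `T04_ell`.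
  (For `κ ∈ box n D` with `∑ κ > D` the contribution is zero on the left side; on the right side
  `LRel (bs κ) (bs κ')` implies `∑ κ' ≥ ∑ κ > D` and `ell κ' ω = simp κ' ω = 0`.)
-/

open Classical in
open Classical in
theorem t05d_term (q : (Fin n → ℕ) → Finset (Fin n) → ℕ → Wt (n + k) n → ℕ)
    (hq : ∀ κ : Fin n → ℕ, Antitone κ → ∀ Y ⊆ Rem κ, ∀ (j : ℕ) (ω : Wt (n + k) n),
      bnum κ Y j ω = ∑ R ∈ (Rem κ).powerset.filter (fun R => Y ⊆ R), q κ R j ω)
    (κ : Fin n → ℕ) (hκ : Antitone κ) (Lam : Set (Fin n → ℕ)) (j : ℕ) (ω : Wt (n + k) n) :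
    ∑ R ∈ (Rem κ).powerset, ∑ s ∈ Finset.range (j + 1), q κ R (j - s) ω * hh κ R Lam s =
      ∑ κ' ∈ box n (∑ i, ω.1 i), if LRel (bs κ) (bs κ') ∧ ∑ i, ω.1 i ≤ ∑ r, κ r + j then
        simp' (k := k) κ' ω * hh κ (Rsh κ' κ) Lam (∑ r, κ r + j - ∑ i, ω.1 i) else 0 := by
  set D := ∑ i, ω.1 i with hD
  by_cases hC : ∑ r, κ r ≤ D ∧ D ≤ ∑ r, κ r + j
  · obtain ⟨s0, hs0⟩ : ∃ s0, s0 = ∑ r, κ r + j - D := ⟨_, rfl⟩
    rw [← hs0]
    have h1 : ∀ R ∈ (Rem κ).powerset, ∑ s ∈ Finset.range (j + 1), q κ R (j - s) ω * hh κ R Lam s =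
        ∑ κ' ∈ box n D, if Rsh κ' κ = R then (if LRel (bs κ) (bs κ') then simp' (k := k) κ' ω * hh κ R Lam s0 else 0) else 0 := by
      intro R hR
      rw [Finset.sum_eq_single s0]
      · rw [T05_q q hq κ hκ R (Finset.mem_powerset.1 hR), if_pos (by omega), ← hD, Finset.sum_mul, Finset.sum_filter]
        refine Finset.sum_congr rfl fun κ' _ => ?_
        by_cases h2 : LRel (bs κ) (bs κ') <;> by_cases h3 : Rsh κ' κ = R <;> simp [h2, h3]
      · intro s hs hne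
        rw [Finset.mem_range] at hs
        rw [T05_q q hq κ hκ R (Finset.mem_powerset.1 hR), if_neg (by omega), zero_mul]
      · intro h
        rw [Finset.mem_range] at h
        omega
    rw [Finset.sum_congr rfl h1, Finset.sum_comm]
    refine Finset.sum_congr rfl fun κ' hκ' => ?_
    rw [Finset.sum_ite_eq]
    by_cases h2 : LRel (bs κ) (bs κ')
    · rw [if_pos (Finset.mem_powerset.2 (T05_Rsh κ κ' hκ (g25c_anti hκ') h2)), if_pos h2, if_pos ⟨h2, hC.2⟩]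
    · rw [if_neg h2, ite_self, if_neg (fun h => h2 h.1)]
  · have h1 : ∀ R ∈ (Rem κ).powerset, ∑ s ∈ Finset.range (j + 1), q κ R (j - s) ω * hh κ R Lam s = 0 := by
      intro R hR
      refine Finset.sum_eq_zero fun s hs => ?_
      rw [Finset.mem_range] at hs
      rw [T05_q q hq κ hκ R (Finset.mem_powerset.1 hR), if_neg (by omega), zero_mul]
    rw [Finset.sum_eq_zero h1]
    symm
    refine Finset.sum_eq_zero fun κ' hκ' => ?_
    by_cases h2 : LRel (bs κ) (bs κ') ∧ D ≤ ∑ r, κ r + j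
    · rw [if_pos h2]
      have ha := g25c_anti hκ'
      obtain ⟨A, hA, hV⟩ := h2.1
      have h3 : Rel ∅ (bs κ) (bs κ') := ⟨A, fun a ha => (hA a ha).1, hV⟩
      obtain ⟨-, -, h4, -⟩ := R_sum ∅ (bs κ) (bs κ') (Finset.disjoint_empty_left _) h3
      rw [bs_sum κ hκ, bs_sum κ' ha] at h4
      rw [t04d_big κ' ha ω (by omega), zero_mul]
    · rw [if_neg h2]

open Classical in
/-- The multigraded Betti numbers of all ideals which are invariant under `GL_m × GL_n`. -/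
theorem T05_main (n k : ℕ) (I : Ideal (Rg (n + k) n)) (hI : Inv (I.restrictScalars ℂ)) (j : ℕ)
    (ω : Wt (n + k) n) :
    (betti I j ω : ℤ) = ∑ κ' ∈ box n (∑ i, ω.1 i), ell (k := k) κ' ω *
      ∑ κ ∈ (box n (∑ i, ω.1 i)).filter
        (fun κ => LRel (bs κ) (bs κ') ∧ ∑ i, ω.1 i ≤ ∑ r, κ r + j),
        (hh κ (Rsh κ' κ) {lam | hw (k := k) lam ∈ I} (∑ r, κ r + j - ∑ i, ω.1 i) : ℤ) := by
  obtain ⟨q, hq1, hq2, -⟩ := F03_main n k
  rw [hq2 I hI j ω]
  have hq1' : ∀ κ : Fin n → ℕ, Antitone κ → ∀ Y ⊆ Rem κ, ∀ (j : ℕ) (ω : Wt (n + k) n),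
      bnum κ Y j ω = ∑ R ∈ (Rem κ).powerset.filter (fun R => Y ⊆ R), q κ R j ω := by
    intro κ hκ Y hY j ω
    rw [hq1 κ hκ Y hY j ω]
  rw [Finset.sum_congr rfl fun κ hκ => t05d_term q hq1' κ (g25c_anti hκ) {lam | hw (k := k) lam ∈ I} j ω]
  rw [Finset.sum_comm]
  push_cast
  refine Finset.sum_congr rfl fun κ' hκ' => ?_
  rw [T04_ell κ' (g25c_anti hκ') ω, Finset.mul_sum, Finset.sum_filter]

end H95H
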