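import Pool.Agent.Lib.H95H.Fin1
import Pool.Agent.Lib.H95H.T05d

/-!
# The final formula in small definitions
-/

namespace H95H

open MvPolynomial

variable {n k : ℕ}

/-- the dimension of the weight `ω` part of `Λ ⊗ V κ` -/
noncomputable def kacN {n k : ℕ} (κ : Fin n → ℕ) (ω : Wt (n + k) n) : ℕ :=
  if ∑ r, κ r ≤ ∑ i, ω.1 i then dimK (Ch (V (k := k) κ) (∑ i, ω.1 i - ∑ r, κ r) ω) else 0

open Classical in
/-- the partitions `κ'` of the box with `κ' ≠ κ` such that the beads of `κ` arise from those of `κ'` by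
moving right ends of arcs to the left ends -/
noncomputable def abv {n : ℕ} (N : ℕ) (κ : Fin n → ℕ) : Finset (Fin n → ℕ) :=
  (box n N).filter (fun κ' => κ' ≠ κ ∧ Rel ∅ (bs κ) (bs κ'))

/-- one step of the recursion `ell κ = kac κ - ∑_{κ' ∈ abv κ} ell κ'` -/
noncomputable def stp {n k : ℕ} (ω : Wt (n + k) n) (e : (Fin n → ℕ) → ℤ) : (Fin n → ℕ) → ℤ :=
  fun κ => (kacN (k := k) κ ω : ℤ) - ∑ κ' ∈ abv (∑ i, ω.1 i) κ, e κ'

/-- the solution of the recursion: after `D + 1` steps it is stable, where `D` is the degree -/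
noncomputable def ellN {n k : ℕ} (κ : Fin n → ℕ) (ω : Wt (n + k) n) : ℤ :=
  (stp ω)^[∑ i, ω.1 i + 1] (fun _ => 0) κ

open Classical in
/-- the partitions `κ` which arise from `κ'` by moving right ends of arcs of length at least two, with
`D ≤ |κ| + j` -/
noncomputable def blw {n : ℕ} (D j : ℕ) (κ' : Fin n → ℕ) : Finset (Fin n → ℕ) :=
  (box n D).filter (fun κ => LRel (bs κ) (bs κ') ∧ D ≤ ∑ r, κ r + j)

/-- the multiplicity of the character `ell κ'` -/
noncomputable def mul {n : ℕ} (Lam : Set (Fin n → ℕ)) (D j : ℕ) (κ' : Fin n → ℕ) : ℕ :=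
  ∑ κ ∈ blw D j κ', hh κ (Rsh κ' κ) Lam (∑ r, κ r + j - D)

theorem fin2_iter (ω : Wt (n + k) n) (f : ℕ) (κ : Fin n → ℕ) :
    (stp ω)^[f] (fun _ => 0) κ = ellA ω f κ := by
  induction f generalizing κ with
  | zero => rfl
  | succ f ih =>
    rw [Function.iterate_succ_apply']
    show (kacN (k := k) κ ω : ℤ) - ∑ κ' ∈ abv (∑ i, ω.1 i) κ, _ = _
    rw [ellA]
    congr 1
    refine Finset.sum_congr rfl fun κ' _ => ih κ'

open Classical in
/-- the partitions `κ'` of the box such that the beads of `κ` arise from those of `κ'` by moving right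
ends of arcs to the left ends -/
noncomputable def abw {n : ℕ} (N : ℕ) (κ : Fin n → ℕ) : Finset (Fin n → ℕ) :=
  (box n N).filter (fun κ' => Rel ∅ (bs κ) (bs κ'))

/-- `ellN` solves the recursion, and it is nonnegative -/
theorem fin2_rec (κ : Fin n → ℕ) (hκ : Antitone κ) (ω : Wt (n + k) n) :
    (kacN (k := k) κ ω : ℤ) = ∑ κ' ∈ abw (∑ i, ω.1 i) κ, ellN κ' ω ∧
      0 ≤ ellN (k := k) κ ω := by
  classical
  have he : ∀ κ' : Fin n → ℕ, Antitone κ' → ellN (k := k) κ' ω = (simp' (k := k) κ' ω : ℤ) := by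
    intro κ' h
    rw [← T04_ell κ' h ω, ellN, fin2_iter]
    rfl
  constructor
  · have h := T04_kac (k := k) κ hκ ω
    have h2 : kacN (k := k) κ ω = kac (k := k) κ ω := rfl
    rw [h2, h, Nat.cast_sum]
    refine Finset.sum_congr rfl fun κ' hκ' => ?_
    have h3 := Finset.mem_of_mem_filter κ' hκ'
    rw [box, Finset.mem_filter] at h3
    rw [he κ' fun r s hrs => h3.2 r s hrs]
  · rw [he κ hκ]
    exact Int.natCast_nonneg _

/-- the main theorem in terms of these definitions -/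
theorem fin2_main (n k : ℕ) (I : Ideal (Rg (n + k) n)) (hI : Inv (I.restrictScalars ℂ)) (j : ℕ)
    (ω : Wt (n + k) n) :
    (bettiN I j ω : ℤ) = ∑ κ' ∈ box n (∑ i, ω.1 i),
      (mul {lam | hw (k := k) lam ∈ I} (∑ i, ω.1 i) j κ' : ℤ) * ellN κ' ω := by
  have h := T05_main n k I hI j ω
  show (betti I j ω : ℤ) = _
  rw [h]
  refine Finset.sum_congr rfl fun κ' _ => ?_
  rw [mul_comm]
  congr 1
  · rw [mul, Nat.cast_sum]
    rfl
  · rw [ellN, fin2_iter]
    rfl

end H95H
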