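import Pool.Agent.Lib.H95H.A05
import Pool.Agent.Lib.H95H.A08a

/-!
# Stage 2, definitions: modules over the Lie superalgebra gl(m|n)
-/

namespace H95H

/-- A `gl_m × gl_n` module: `a i j` and `b l k` are the matrix units. -/
structure G0 (m n : ℕ) (M : Type) [AddCommGroup M] [Module ℂ M] where
  a : Fin m → Fin m → M →ₗ[ℂ] M
  b : Fin n → Fin n → M →ₗ[ℂ] M
  aa : ∀ i j k l v, a i j (a k l v) - a k l (a i j v) =
    (if j = k then a i l v else 0) - (if l = i then a k j v else 0)
  bb : ∀ i j k l v, b i j (b k l v) - b k l (b i j v) =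
    (if j = k then b i l v else 0) - (if l = i then b k j v else 0)
  ab : ∀ i j k l v, a i j (b k l v) = b k l (a i j v)

/-- A `gl(m|n)` module; `x i l` and `y i l` are the odd generators, in degree `+1` and `-1`. -/
structure GM (m n : ℕ) (M : Type) [AddCommGroup M] [Module ℂ M] extends G0 m n M where
  x : Fin m → Fin n → M →ₗ[ℂ] M
  y : Fin m → Fin n → M →ₗ[ℂ] M
  ax : ∀ i j k l v, a i j (x k l v) - x k l (a i j v) = if j = k then x i l v else 0
  bx : ∀ l q i p v, b l q (x i p v) - x i p (b l q v) = if q = p then x i l v else 0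
  ay : ∀ i j k l v, a i j (y k l v) - y k l (a i j v) = -(if i = k then y j l v else 0)
  by' : ∀ l q i p v, b l q (y i p v) - y i p (b l q v) = -(if l = p then y i q v else 0)
  xx : ∀ i l j q v, x i l (x j q v) + x j q (x i l v) = 0
  yy : ∀ i l j q v, y i l (y j q v) + y j q (y i l v) = 0
  xy : ∀ i l j q v, x i l (y j q v) + y j q (x i l v) =
    (if l = q then a i j v else 0) - (if i = j then b l q v else 0)

variable {m n k : ℕ}

section G0
variable {M : Type} [AddCommGroup M] [Module ℂ M]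

/-- subspaces stable under the even part -/
def G0.Stab (S : G0 m n M) (W : Submodule ℂ M) : Prop :=
  (∀ i j, ∀ v ∈ W, S.a i j v ∈ W) ∧ ∀ i j, ∀ v ∈ W, S.b i j v ∈ W

/-- weight spaces -/
def G0.Wsp (S : G0 m n M) (α : Fin m → ℤ) (β : Fin n → ℤ) : Submodule ℂ M where
  carrier := {v | (∀ i, S.a i i v = (α i : ℂ) • v) ∧ ∀ l, S.b l l v = (β l : ℂ) • v}
  add_mem' := by
    rintro u v ⟨h1, h2⟩ ⟨g1, g2⟩
    refine ⟨fun i => ?_, fun l => ?_⟩
    · rw [map_add, h1, g1, smul_add]
    · rw [map_add, h2, g2, smul_add]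
  zero_mem' := by
    refine ⟨fun i => ?_, fun l => ?_⟩
    · rw [map_zero, smul_zero]
    · rw [map_zero, smul_zero]
  smul_mem' := by
    rintro r v ⟨h1, h2⟩
    refine ⟨fun i => ?_, fun l => ?_⟩
    · rw [map_smul, h1, smul_comm]
    · rw [map_smul, h2, smul_comm]

/-- highest weight vectors -/
def G0.HW (S : G0 m n M) (α : Fin m → ℤ) (β : Fin n → ℤ) (v : M) : Prop :=
  v ∈ S.Wsp α β ∧ (∀ i j, i < j → S.a i j v = 0) ∧ ∀ l q, l < q → S.b l q v = 0

/-- There is a positive definite hermitian form for which `a i j` and `a j i` are adjoint (same for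
`b`), and the space is spanned by integral weight vectors. -/
def G0.Good (S : G0 m n M) : Prop :=
  (∃ h : M → M → ℂ, Herm h ∧ (∀ i j u v, h (S.a i j u) v = h u (S.a j i v)) ∧
    ∀ i j u v, h (S.b i j u) v = h u (S.b j i v)) ∧
  (⨆ α : Fin m → ℤ, ⨆ β : Fin n → ℤ, S.Wsp α β) = ⊤

/-- `W` is an irreducible `gl_m × gl_n` submodule of highest weight `(α, β)` -/
structure G0.Irr (S : G0 m n M) (α : Fin m → ℤ) (β : Fin n → ℤ) (W : Submodule ℂ M) : Prop where
  stab : S.Stab W
  hw : ∃ v ∈ W, v ≠ 0 ∧ S.HW α β v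
  irr : ∀ W' : Submodule ℂ M, W' ≤ W → S.Stab W' → W' = ⊥ ∨ W' = W

end G0

section GM
variable {M : Type} [AddCommGroup M] [Module ℂ M]

/-- submodules -/
def GM.Stab (S : GM m n M) (N : Submodule ℂ M) : Prop :=
  S.toG0.Stab N ∧ (∀ i l, ∀ v ∈ N, S.x i l v ∈ N) ∧ ∀ i l, ∀ v ∈ N, S.y i l v ∈ N

/-- `M` is generated by its lowest part `W`, irreducible over `gl_m × gl_n` and killed by `y` -/
structure GM.Low (S : GM m n M) (α : Fin m → ℤ) (β : Fin n → ℤ) (W : Submodule ℂ M) : Prop where
  irr : S.toG0.Irr α β W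
  yW : ∀ i l, ∀ w ∈ W, S.y i l w = 0
  gen : ∀ N : Submodule ℂ M, W ≤ N → (∀ i l, ∀ v ∈ N, S.x i l v ∈ N) → N = ⊤

/-- simple modules -/
def GM.Sim (S : GM m n M) : Prop := ∀ N : Submodule ℂ M, S.Stab N → N = ⊥ ∨ N = ⊤

/-- homomorphisms -/
def GHom {M' : Type} [AddCommGroup M'] [Module ℂ M'] (S : GM m n M) (S' : GM m n M')
    (f : M →ₗ[ℂ] M') : Prop :=
  (∀ i j v, f (S.a i j v) = S'.a i j (f v)) ∧ (∀ i j v, f (S.b i j v) = S'.b i j (f v)) ∧
  (∀ i l v, f (S.x i l v) = S'.x i l (f v)) ∧ ∀ i l v, f (S.y i l v) = S'.y i l (f v)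

/-- a nondegenerate contravariant hermitian form -/
def GM.Contra (S : GM m n M) : Prop :=
  ∃ B : M → M → ℂ, (∀ u v w, B (u + v) w = B u w + B v w) ∧ (∀ (r : ℂ) u v, B (r • u) v = r * B u v) ∧
    (∀ u v, B v u = starRingEnd ℂ (B u v)) ∧ (∀ u, (∀ v, B u v = 0) → u = 0) ∧
    (∀ i j u v, B (S.a i j u) v = B u (S.a j i v)) ∧ (∀ i j u v, B (S.b i j u) v = B u (S.b j i v)) ∧
    ∀ i l u v, B (S.x i l u) v = B u (S.y i l v)

/-- restriction to a submodule -/
def GM.res (S : GM m n M) (N : Submodule ℂ M) (hN : S.Stab N) : GM m n ↥N where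
  a i j := (S.a i j).restrict (hN.1.1 i j)
  b i j := (S.b i j).restrict (hN.1.2 i j)
  x i l := (S.x i l).restrict (hN.2.1 i l)
  y i l := (S.y i l).restrict (hN.2.2 i l)
  aa i j k l v := by
    apply Subtype.ext
    have := S.aa i j k l v
    by_cases h1 : j = k <;> by_cases h2 : l = i <;> simpa [h1, h2] using this
  bb i j k l v := by
    apply Subtype.ext
    have := S.bb i j k l v
    by_cases h1 : j = k <;> by_cases h2 : l = i <;> simpa [h1, h2] using this
  ab i j k l v := by
    apply Subtype.ext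
    simpa using S.ab i j k l v
  ax i j k l v := by
    apply Subtype.ext
    have := S.ax i j k l v
    by_cases h1 : j = k <;> simpa [h1] using this
  bx l q i p v := by
    apply Subtype.ext
    have := S.bx l q i p v
    by_cases h1 : q = p <;> simpa [h1] using this
  ay i j k l v := by
    apply Subtype.ext
    have := S.ay i j k l v
    by_cases h1 : i = k <;> simpa [h1] using this
  by' l q i p v := by
    apply Subtype.ext
    have := S.by' l q i p v
    by_cases h1 : l = p <;> simpa [h1] using this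
  xx i l j q v := by
    apply Subtype.ext
    simpa using S.xx i l j q v
  yy i l j q v := by
    apply Subtype.ext
    simpa using S.yy i l j q v
  xy i l j q v := by
    apply Subtype.ext
    have := S.xy i l j q v
    by_cases h1 : l = q <;> by_cases h2 : i = j <;> simpa [h1, h2] using this

/-- quotient by a submodule -/
def GM.quo (S : GM m n M) (N : Submodule ℂ M) (hN : S.Stab N) : GM m n (M ⧸ N) where
  a i j := N.mapQ N (S.a i j) (hN.1.1 i j)
  b i j := N.mapQ N (S.b i j) (hN.1.2 i j)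
  x i l := N.mapQ N (S.x i l) (hN.2.1 i l)
  y i l := N.mapQ N (S.y i l) (hN.2.2 i l)
  aa i j k l v := by
    obtain ⟨v, rfl⟩ := N.mkQ_surjective v
    have := congrArg N.mkQ (S.aa i j k l v)
    by_cases h1 : j = k <;> by_cases h2 : l = i <;> simpa [h1, h2] using this
  bb i j k l v := by
    obtain ⟨v, rfl⟩ := N.mkQ_surjective v
    have := congrArg N.mkQ (S.bb i j k l v)
    by_cases h1 : j = k <;> by_cases h2 : l = i <;> simpa [h1, h2] using this
  ab i j k l v := by
    obtain ⟨v, rfl⟩ := N.mkQ_surjective v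
    simpa using congrArg N.mkQ (S.ab i j k l v)
  ax i j k l v := by
    obtain ⟨v, rfl⟩ := N.mkQ_surjective v
    have := congrArg N.mkQ (S.ax i j k l v)
    by_cases h1 : j = k <;> simpa [h1] using this
  bx l q i p v := by
    obtain ⟨v, rfl⟩ := N.mkQ_surjective v
    have := congrArg N.mkQ (S.bx l q i p v)
    by_cases h1 : q = p <;> simpa [h1] using this
  ay i j k l v := by
    obtain ⟨v, rfl⟩ := N.mkQ_surjective v
    have := congrArg N.mkQ (S.ay i j k l v)
    by_cases h1 : i = k <;> simpa [h1] using this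
  by' l q i p v := by
    obtain ⟨v, rfl⟩ := N.mkQ_surjective v
    have := congrArg N.mkQ (S.by' l q i p v)
    by_cases h1 : l = p <;> simpa [h1] using this
  xx i l j q v := by
    obtain ⟨v, rfl⟩ := N.mkQ_surjective v
    simpa using congrArg N.mkQ (S.xx i l j q v)
  yy i l j q v := by
    obtain ⟨v, rfl⟩ := N.mkQ_surjective v
    simpa using congrArg N.mkQ (S.yy i l j q v)
  xy i l j q v := by
    obtain ⟨v, rfl⟩ := N.mkQ_surjective v
    have := congrArg N.mkQ (S.xy i l j q v)
    by_cases h1 : l = q <;> by_cases h2 : i = j <;> simpa [h1, h2] using this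

end GM

/-- integral version of `ext` -/
def pz {n : ℕ} (k : ℕ) (γ : Fin n → ℕ) : Fin (n + k) → ℤ := fun i => (ext k γ i : ℤ)

/-- integral version of a partition -/
def nz {n : ℕ} (γ : Fin n → ℕ) : Fin n → ℤ := fun r => (γ r : ℤ)

/-- `S` is a Kac module with lowest part of highest weight `(γ, δ)` -/
def GM.isKac {M : Type} [AddCommGroup M] [Module ℂ M] (S : GM (n + k) n M) (γ δ : Fin n → ℕ) :
    Prop :=
  ∃ W : Submodule ℂ M, S.Low (pz k γ) (nz δ) W ∧
    Module.finrank ℂ M = 2 ^ ((n + k) * n) * Module.finrank ℂ ↥W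

/-- `S` is generated by a lowest part of highest weight `(γ, δ)` -/
def GM.isLow {M : Type} [AddCommGroup M] [Module ℂ M] (S : GM (n + k) n M) (γ δ : Fin n → ℕ) :
    Prop :=
  ∃ W : Submodule ℂ M, S.Low (pz k γ) (nz δ) W

/-- the bead set of a partition with at most `n` rows -/
def bs {n : ℕ} (γ : Fin n → ℕ) : Finset ℕ :=
  Finset.univ.image (fun r : Fin n => γ r + (n - 1 - r.1))

end H95H
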