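import Pool.Agent.Lib.H95H.G00

/-!
# Stage 2, definitions: the tensor product with the natural module and the operator Omega

An element `(u, w)` of `(Fin m → M) × (Fin n → M)` stands for `∑ f_i ⊗ u_i + ∑ g^l ⊗ w_l`, where
`f_i` is the basis of `F` (even) and `g^l` the basis of the dual of `G` (odd);
`x_{il} g^l = f_i`, `y_{il} f_i = g^l`, and odd operators get a sign when they pass `g^l`.
-/

namespace H95H

variable {m n k : ℕ} {M : Type} [AddCommGroup M] [Module ℂ M]

/-- the operators `a i j` on the tensor product -/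
def vtA (S : GM m n M) (i j : Fin m) :
    ((Fin m → M) × (Fin n → M)) →ₗ[ℂ] ((Fin m → M) × (Fin n → M)) where
  toFun z := (fun p => (if p = i then z.1 j else 0) + S.a i j (z.1 p), fun l => S.a i j (z.2 l))
  map_add' z z' := by
    refine Prod.ext (funext fun p => ?_) (funext fun l => ?_)
    · by_cases h : p = i
      · simp only [h, if_true, Prod.fst_add, Pi.add_apply, map_add]
        abel
      · simp [h]
    · simp
  map_smul' r z := by
    refine Prod.ext (funext fun p => ?_) (funext fun l => ?_)
    · by_cases h : p = i <;> simp [h]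
    · simp

/-- the operators `b l q` on the tensor product -/
def vtB (S : GM m n M) (l q : Fin n) :
    ((Fin m → M) × (Fin n → M)) →ₗ[ℂ] ((Fin m → M) × (Fin n → M)) where
  toFun z := (fun p => S.b l q (z.1 p), fun p => -(if p = q then z.2 l else 0) + S.b l q (z.2 p))
  map_add' z z' := by
    refine Prod.ext (funext fun p => ?_) (funext fun p => ?_)
    · simp
    · by_cases h : p = q
      · simp only [h, if_true, Prod.snd_add, Pi.add_apply, map_add]
        abel
      · simp [h]
  map_smul' r z := by
    refine Prod.ext (funext fun p => ?_) (funext fun p => ?_)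
    · simp
    · by_cases h : p = q <;> simp [h]

/-- the operators `x i l` on the tensor product -/
def vtX (S : GM m n M) (i : Fin m) (l : Fin n) :
    ((Fin m → M) × (Fin n → M)) →ₗ[ℂ] ((Fin m → M) × (Fin n → M)) where
  toFun z := (fun p => (if p = i then z.2 l else 0) + S.x i l (z.1 p), fun p => -S.x i l (z.2 p))
  map_add' z z' := by
    refine Prod.ext (funext fun p => ?_) (funext fun p => ?_)
    · by_cases h : p = i
      · simp only [h, if_true, Prod.fst_add, Prod.snd_add, Pi.add_apply, map_add]
        abel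
      · simp [h]
    · simp only [Prod.snd_add, Pi.add_apply, map_add]
      abel
  map_smul' r z := by
    refine Prod.ext (funext fun p => ?_) (funext fun p => ?_)
    · by_cases h : p = i <;> simp [h]
    · simp

/-- the operators `y i l` on the tensor product -/
def vtY (S : GM m n M) (i : Fin m) (l : Fin n) :
    ((Fin m → M) × (Fin n → M)) →ₗ[ℂ] ((Fin m → M) × (Fin n → M)) where
  toFun z := (fun p => S.y i l (z.1 p), fun p => (if p = l then z.1 i else 0) - S.y i l (z.2 p))
  map_add' z z' := by
    refine Prod.ext (funext fun p => ?_) (funext fun p => ?_)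
    · simp
    · by_cases h : p = l
      · simp only [h, if_true, Prod.fst_add, Prod.snd_add, Pi.add_apply, map_add]
        abel
      · simp only [h, if_false, Prod.snd_add, Pi.add_apply, map_add]
        abel
  map_smul' r z := by
    refine Prod.ext (funext fun p => ?_) (funext fun p => ?_)
    · simp
    · by_cases h : p = l
      · simp [h, smul_sub]
      · simp [h]

/-- the operator Omega -/
noncomputable def GM.Om (S : GM m n M) :
    ((Fin m → M) × (Fin n → M)) →ₗ[ℂ] ((Fin m → M) × (Fin n → M)) where
  toFun z := (fun i => ∑ j, S.a j i (z.1 j) + ∑ p, S.y i p (z.2 p),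
    fun q => ∑ j, S.x j q (z.1 j) + ∑ p, S.b q p (z.2 p))
  map_add' z z' := by
    refine Prod.ext (funext fun p => ?_) (funext fun p => ?_)
    · simp only [Prod.fst_add, Prod.snd_add, Pi.add_apply, map_add, Finset.sum_add_distrib]
      abel
    · simp only [Prod.fst_add, Prod.snd_add, Pi.add_apply, map_add, Finset.sum_add_distrib]
      abel
  map_smul' r z := by
    refine Prod.ext (funext fun p => ?_) (funext fun p => ?_)
    · simp [Finset.smul_sum]
    · simp [Finset.smul_sum]

/-!
# Chunk G01: relations

Everything is checked componentwise (`Prod.ext`, `funext`), with a case distinction on the indices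
(`split_ifs` or `by_cases` + `simp`), from the relations of `S`. E.g. for `G01_xy` at the first
component `p`: `x i l (y j q z) + y j q (x i l z)` is
`(if p = i then (if l = q then z.1 j else 0) - y j q (z.2 l) else 0) + x i l (y j q (z.1 p)) +
 y j q ((if p = i then z.2 l else 0) + x i l (z.1 p))`, and the terms with `y j q (z.2 l)` cancel.
For `Om`: e.g. `G01_Om_x`: written out in the header of the file `PROOF2.md`.
-/

set_option linter.unusedSimpArgs false
set_option linter.unusedSectionVars false
set_option linter.unusedVariables false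

theorem g01a_A1 (S : GM m n M) (i j : Fin m) (z) (p) :
    (vtA S i j z).1 p = (if p = i then z.1 j else 0) + S.a i j (z.1 p) := rfl

theorem g01a_A2 (S : GM m n M) (i j : Fin m) (z) (p) : (vtA S i j z).2 p = S.a i j (z.2 p) := rfl

theorem g01a_B1 (S : GM m n M) (l q : Fin n) (z) (p) : (vtB S l q z).1 p = S.b l q (z.1 p) := rfl

theorem g01a_B2 (S : GM m n M) (l q : Fin n) (z) (p) :
    (vtB S l q z).2 p = -(if p = q then z.2 l else 0) + S.b l q (z.2 p) := rfl

theorem g01a_X1 (S : GM m n M) (i : Fin m) (l : Fin n) (z) (p) :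
    (vtX S i l z).1 p = (if p = i then z.2 l else 0) + S.x i l (z.1 p) := rfl

theorem g01a_X2 (S : GM m n M) (i : Fin m) (l : Fin n) (z) (p) : (vtX S i l z).2 p = -S.x i l (z.2 p) := rfl

theorem g01a_Y1 (S : GM m n M) (i : Fin m) (l : Fin n) (z) (p) : (vtY S i l z).1 p = S.y i l (z.1 p) := rfl

theorem g01a_Y2 (S : GM m n M) (i : Fin m) (l : Fin n) (z) (p) :
    (vtY S i l z).2 p = (if p = l then z.1 i else 0) - S.y i l (z.2 p) := rfl

theorem g01a_i1 {P : Prop} [Decidable P] (z : (Fin m → M) × (Fin n → M)) (s : Fin m) :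
    (if P then z else 0).1 s = if P then z.1 s else 0 := by
  by_cases h : P <;> simp [h]

theorem g01a_i2 {P : Prop} [Decidable P] (z : (Fin m → M) × (Fin n → M)) (s : Fin n) :
    (if P then z else 0).2 s = if P then z.2 s else 0 := by
  by_cases h : P <;> simp [h]

theorem g01a_map {N : Type} [AddCommGroup N] [Module ℂ N] (f : M →ₗ[ℂ] N) {P : Prop} [Decidable P] (v : M) :
    f (if P then v else 0) = if P then f v else 0 := by
  by_cases h : P <;> simp [h]

theorem g01a_ite_add {P : Prop} [Decidable P] (v w : M) :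
    (if P then v + w else 0) = (if P then v else 0) + (if P then w else 0) := by
  by_cases h : P <;> simp [h]

theorem g01a_ite_sub {P : Prop} [Decidable P] (v w : M) :
    (if P then v - w else 0) = (if P then v else 0) - (if P then w else 0) := by
  by_cases h : P <;> simp [h]

theorem g01a_ite_neg {P : Prop} [Decidable P] (v : M) :
    (if P then -v else 0) = -(if P then v else 0) := by
  by_cases h : P <;> simp [h]

theorem G01_aa (S : GM m n M) (i j p l : Fin m) (v) :
    vtA S i j (vtA S p l v) - vtA S p l (vtA S i j v) =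
      (if j = p then vtA S i l v else 0) - (if l = i then vtA S p j v else 0) := by
  refine Prod.ext (funext fun s => ?_) (funext fun s => ?_)
  ·
    have h0 := S.aa i j p l (v.1 s)
    simp only [Prod.fst_sub, Prod.snd_sub, Prod.fst_add, Prod.snd_add, Prod.fst_neg, Prod.snd_neg, Pi.sub_apply,
      Pi.add_apply, Pi.neg_apply, Prod.fst_zero, Prod.snd_zero, Pi.zero_apply, g01a_A1, g01a_A2, g01a_B1, g01a_B2,
      g01a_X1, g01a_X2, g01a_Y1, g01a_Y2, g01a_i1, g01a_i2, map_add, map_sub, map_neg, g01a_map, g01a_ite_add,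
      g01a_ite_sub, g01a_ite_neg]
    split_ifs at h0 ⊢ <;> first | linear_combination (norm := module) h0 | (exfalso; omega) | (subst_vars; linear_combination (norm := module) h0)
  ·
    have h0 := S.aa i j p l (v.2 s)
    simp only [Prod.fst_sub, Prod.snd_sub, Prod.fst_add, Prod.snd_add, Prod.fst_neg, Prod.snd_neg, Pi.sub_apply,
      Pi.add_apply, Pi.neg_apply, Prod.fst_zero, Prod.snd_zero, Pi.zero_apply, g01a_A1, g01a_A2, g01a_B1, g01a_B2,
      g01a_X1, g01a_X2, g01a_Y1, g01a_Y2, g01a_i1, g01a_i2, map_add, map_sub, map_neg, g01a_map, g01a_ite_add,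
      g01a_ite_sub, g01a_ite_neg]
    split_ifs at h0 ⊢ <;> first | linear_combination (norm := module) h0 | (exfalso; omega) | (subst_vars; linear_combination (norm := module) h0)

theorem G01_bb (S : GM m n M) (i j p l : Fin n) (v) :
    vtB S i j (vtB S p l v) - vtB S p l (vtB S i j v) =
      (if j = p then vtB S i l v else 0) - (if l = i then vtB S p j v else 0) := by
  refine Prod.ext (funext fun s => ?_) (funext fun s => ?_)
  ·
    have h0 := S.bb i j p l (v.1 s)
    simp only [Prod.fst_sub, Prod.snd_sub, Prod.fst_add, Prod.snd_add, Prod.fst_neg, Prod.snd_neg, Pi.sub_apply,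
      Pi.add_apply, Pi.neg_apply, Prod.fst_zero, Prod.snd_zero, Pi.zero_apply, g01a_A1, g01a_A2, g01a_B1, g01a_B2,
      g01a_X1, g01a_X2, g01a_Y1, g01a_Y2, g01a_i1, g01a_i2, map_add, map_sub, map_neg, g01a_map, g01a_ite_add,
      g01a_ite_sub, g01a_ite_neg]
    split_ifs at h0 ⊢ <;> first | linear_combination (norm := module) h0 | (exfalso; omega) | (subst_vars; linear_combination (norm := module) h0)
  ·
    have h0 := S.bb i j p l (v.2 s)
    simp only [Prod.fst_sub, Prod.snd_sub, Prod.fst_add, Prod.snd_add, Prod.fst_neg, Prod.snd_neg, Pi.sub_apply,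
      Pi.add_apply, Pi.neg_apply, Prod.fst_zero, Prod.snd_zero, Pi.zero_apply, g01a_A1, g01a_A2, g01a_B1, g01a_B2,
      g01a_X1, g01a_X2, g01a_Y1, g01a_Y2, g01a_i1, g01a_i2, map_add, map_sub, map_neg, g01a_map, g01a_ite_add,
      g01a_ite_sub, g01a_ite_neg]
    split_ifs at h0 ⊢ <;> first | linear_combination (norm := module) h0 | (exfalso; omega) | (subst_vars; linear_combination (norm := module) h0)

theorem G01_ab (S : GM m n M) (i j : Fin m) (p l : Fin n) (v) :
    vtA S i j (vtB S p l v) = vtB S p l (vtA S i j v) := by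
  refine Prod.ext (funext fun s => ?_) (funext fun s => ?_)
  ·
    have h0 := S.ab i j p l (v.1 s)
    simp only [Prod.fst_sub, Prod.snd_sub, Prod.fst_add, Prod.snd_add, Prod.fst_neg, Prod.snd_neg, Pi.sub_apply,
      Pi.add_apply, Pi.neg_apply, Prod.fst_zero, Prod.snd_zero, Pi.zero_apply, g01a_A1, g01a_A2, g01a_B1, g01a_B2,
      g01a_X1, g01a_X2, g01a_Y1, g01a_Y2, g01a_i1, g01a_i2, map_add, map_sub, map_neg, g01a_map, g01a_ite_add,
      g01a_ite_sub, g01a_ite_neg]
    split_ifs at h0 ⊢ <;> first | linear_combination (norm := module) h0 | (exfalso; omega) | (subst_vars; linear_combination (norm := module) h0)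
  ·
    have h0 := S.ab i j p l (v.2 s)
    simp only [Prod.fst_sub, Prod.snd_sub, Prod.fst_add, Prod.snd_add, Prod.fst_neg, Prod.snd_neg, Pi.sub_apply,
      Pi.add_apply, Pi.neg_apply, Prod.fst_zero, Prod.snd_zero, Pi.zero_apply, g01a_A1, g01a_A2, g01a_B1, g01a_B2,
      g01a_X1, g01a_X2, g01a_Y1, g01a_Y2, g01a_i1, g01a_i2, map_add, map_sub, map_neg, g01a_map, g01a_ite_add,
      g01a_ite_sub, g01a_ite_neg]
    split_ifs at h0 ⊢ <;> first | linear_combination (norm := module) h0 | (exfalso; omega) | (subst_vars; linear_combination (norm := module) h0)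

theorem G01_ax (S : GM m n M) (i j p : Fin m) (l : Fin n) (v) :
    vtA S i j (vtX S p l v) - vtX S p l (vtA S i j v) = if j = p then vtX S i l v else 0 := by
  refine Prod.ext (funext fun s => ?_) (funext fun s => ?_)
  ·
    have h0 := S.ax i j p l (v.1 s)
    simp only [Prod.fst_sub, Prod.snd_sub, Prod.fst_add, Prod.snd_add, Prod.fst_neg, Prod.snd_neg, Pi.sub_apply,
      Pi.add_apply, Pi.neg_apply, Prod.fst_zero, Prod.snd_zero, Pi.zero_apply, g01a_A1, g01a_A2, g01a_B1, g01a_B2,
      g01a_X1, g01a_X2, g01a_Y1, g01a_Y2, g01a_i1, g01a_i2, map_add, map_sub, map_neg, g01a_map, g01a_ite_add,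
      g01a_ite_sub, g01a_ite_neg]
    split_ifs at h0 ⊢ <;> first | linear_combination (norm := module) h0 | (exfalso; omega) | (subst_vars; linear_combination (norm := module) h0)
  ·
    have h0 := S.ax i j p l (v.2 s)
    simp only [Prod.fst_sub, Prod.snd_sub, Prod.fst_add, Prod.snd_add, Prod.fst_neg, Prod.snd_neg, Pi.sub_apply,
      Pi.add_apply, Pi.neg_apply, Prod.fst_zero, Prod.snd_zero, Pi.zero_apply, g01a_A1, g01a_A2, g01a_B1, g01a_B2,
      g01a_X1, g01a_X2, g01a_Y1, g01a_Y2, g01a_i1, g01a_i2, map_add, map_sub, map_neg, g01a_map, g01a_ite_add,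
      g01a_ite_sub, g01a_ite_neg]
    split_ifs at h0 ⊢ <;> first | linear_combination (norm := module) -h0 | (exfalso; omega) | (subst_vars; linear_combination (norm := module) -h0)

theorem G01_bx (S : GM m n M) (l q : Fin n) (i : Fin m) (p : Fin n) (v) :
    vtB S l q (vtX S i p v) - vtX S i p (vtB S l q v) = if q = p then vtX S i l v else 0 := by
  refine Prod.ext (funext fun s => ?_) (funext fun s => ?_)
  ·
    have h0 := S.bx l q i p (v.1 s)
    simp only [Prod.fst_sub, Prod.snd_sub, Prod.fst_add, Prod.snd_add, Prod.fst_neg, Prod.snd_neg, Pi.sub_apply,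
      Pi.add_apply, Pi.neg_apply, Prod.fst_zero, Prod.snd_zero, Pi.zero_apply, g01a_A1, g01a_A2, g01a_B1, g01a_B2,
      g01a_X1, g01a_X2, g01a_Y1, g01a_Y2, g01a_i1, g01a_i2, map_add, map_sub, map_neg, g01a_map, g01a_ite_add,
      g01a_ite_sub, g01a_ite_neg]
    split_ifs at h0 ⊢ <;> first | linear_combination (norm := module) h0 | (exfalso; omega) | (subst_vars; linear_combination (norm := module) h0)
  ·
    have h0 := S.bx l q i p (v.2 s)
    simp only [Prod.fst_sub, Prod.snd_sub, Prod.fst_add, Prod.snd_add, Prod.fst_neg, Prod.snd_neg, Pi.sub_apply,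
      Pi.add_apply, Pi.neg_apply, Prod.fst_zero, Prod.snd_zero, Pi.zero_apply, g01a_A1, g01a_A2, g01a_B1, g01a_B2,
      g01a_X1, g01a_X2, g01a_Y1, g01a_Y2, g01a_i1, g01a_i2, map_add, map_sub, map_neg, g01a_map, g01a_ite_add,
      g01a_ite_sub, g01a_ite_neg]
    split_ifs at h0 ⊢ <;> first | linear_combination (norm := module) -h0 | (exfalso; omega) | (subst_vars; linear_combination (norm := module) -h0)

end H95H
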