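import Pool.Agent.Lib.H95H.G01a

namespace H95H

variable {m n k : ℕ} {M : Type} [AddCommGroup M] [Module ℂ M]

/-!
# Chunk G01: relations

Everything is checked componentwise (`Prod.ext`, `funext`), with a case distinction on the indices
(`split_ifs` or `by_cases` + `simp`), from the relations of `S`. E.g. for `G01_xy` at the first
component `p`: `x i l (y j q z) + y j q (x i l z)` is
`(if p = i then (if l = q then z.1 j else 0) - y j q (z.2 l) else 0) + x i l (y j q (z.1 p)) +
 y j q ((if p = i then z.2 l else 0) + x i l (z.1 p))`, and the terms with `y j q (z.2 l)` cancel.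
For `Om`: e.g. `G01_Om_x`: written out in the header of the file `PROOF2.md`.
-/

set_option linter.unusedSimpArgs false
set_option linter.unusedSectionVars false
set_option linter.unusedVariables false

theorem G01_ay (S : GM m n M) (i j p : Fin m) (l : Fin n) (v) :
    vtA S i j (vtY S p l v) - vtY S p l (vtA S i j v) = -(if i = p then vtY S j l v else 0) := by
  refine Prod.ext (funext fun s => ?_) (funext fun s => ?_)
  ·
    have h0 := S.ay i j p l (v.1 s)
    simp only [Prod.fst_sub, Prod.snd_sub, Prod.fst_add, Prod.snd_add, Prod.fst_neg, Prod.snd_neg, Pi.sub_apply,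
      Pi.add_apply, Pi.neg_apply, Prod.fst_zero, Prod.snd_zero, Pi.zero_apply, g01a_A1, g01a_A2, g01a_B1, g01a_B2,
      g01a_X1, g01a_X2, g01a_Y1, g01a_Y2, g01a_i1, g01a_i2, map_add, map_sub, map_neg, g01a_map, g01a_ite_add,
      g01a_ite_sub, g01a_ite_neg]
    split_ifs at h0 ⊢ <;> first | linear_combination (norm := module) h0 | (exfalso; omega) | (subst_vars; linear_combination (norm := module) h0)
  ·
    have h0 := S.ay i j p l (v.2 s)
    simp only [Prod.fst_sub, Prod.snd_sub, Prod.fst_add, Prod.snd_add, Prod.fst_neg, Prod.snd_neg, Pi.sub_apply,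
      Pi.add_apply, Pi.neg_apply, Prod.fst_zero, Prod.snd_zero, Pi.zero_apply, g01a_A1, g01a_A2, g01a_B1, g01a_B2,
      g01a_X1, g01a_X2, g01a_Y1, g01a_Y2, g01a_i1, g01a_i2, map_add, map_sub, map_neg, g01a_map, g01a_ite_add,
      g01a_ite_sub, g01a_ite_neg]
    split_ifs at h0 ⊢ <;> first | linear_combination (norm := module) -h0 | (exfalso; omega) | (subst_vars; linear_combination (norm := module) -h0)

theorem G01_by (S : GM m n M) (l q : Fin n) (i : Fin m) (p : Fin n) (v) :
    vtB S l q (vtY S i p v) - vtY S i p (vtB S l q v) = -(if l = p then vtY S i q v else 0) := by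
  refine Prod.ext (funext fun s => ?_) (funext fun s => ?_)
  ·
    have h0 := S.by' l q i p (v.1 s)
    simp only [Prod.fst_sub, Prod.snd_sub, Prod.fst_add, Prod.snd_add, Prod.fst_neg, Prod.snd_neg, Pi.sub_apply,
      Pi.add_apply, Pi.neg_apply, Prod.fst_zero, Prod.snd_zero, Pi.zero_apply, g01a_A1, g01a_A2, g01a_B1, g01a_B2,
      g01a_X1, g01a_X2, g01a_Y1, g01a_Y2, g01a_i1, g01a_i2, map_add, map_sub, map_neg, g01a_map, g01a_ite_add,
      g01a_ite_sub, g01a_ite_neg]
    split_ifs at h0 ⊢ <;> first | linear_combination (norm := module) h0 | (exfalso; omega) | (subst_vars; linear_combination (norm := module) h0)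
  ·
    have h0 := S.by' l q i p (v.2 s)
    simp only [Prod.fst_sub, Prod.snd_sub, Prod.fst_add, Prod.snd_add, Prod.fst_neg, Prod.snd_neg, Pi.sub_apply,
      Pi.add_apply, Pi.neg_apply, Prod.fst_zero, Prod.snd_zero, Pi.zero_apply, g01a_A1, g01a_A2, g01a_B1, g01a_B2,
      g01a_X1, g01a_X2, g01a_Y1, g01a_Y2, g01a_i1, g01a_i2, map_add, map_sub, map_neg, g01a_map, g01a_ite_add,
      g01a_ite_sub, g01a_ite_neg]
    split_ifs at h0 ⊢ <;> first | linear_combination (norm := module) -h0 | (exfalso; omega) | (subst_vars; linear_combination (norm := module) -h0)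

theorem G01_xx (S : GM m n M) (i : Fin m) (l : Fin n) (j : Fin m) (q : Fin n) (v) :
    vtX S i l (vtX S j q v) + vtX S j q (vtX S i l v) = 0 := by
  refine Prod.ext (funext fun s => ?_) (funext fun s => ?_)
  ·
    have h0 := S.xx i l j q (v.1 s)
    simp only [Prod.fst_sub, Prod.snd_sub, Prod.fst_add, Prod.snd_add, Prod.fst_neg, Prod.snd_neg, Pi.sub_apply,
      Pi.add_apply, Pi.neg_apply, Prod.fst_zero, Prod.snd_zero, Pi.zero_apply, g01a_A1, g01a_A2, g01a_B1, g01a_B2,
      g01a_X1, g01a_X2, g01a_Y1, g01a_Y2, g01a_i1, g01a_i2, map_add, map_sub, map_neg, g01a_map, g01a_ite_add,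
      g01a_ite_sub, g01a_ite_neg]
    split_ifs at h0 ⊢ <;> first | linear_combination (norm := module) h0 | (exfalso; omega) | (subst_vars; linear_combination (norm := module) h0)
  ·
    have h0 := S.xx i l j q (v.2 s)
    simp only [Prod.fst_sub, Prod.snd_sub, Prod.fst_add, Prod.snd_add, Prod.fst_neg, Prod.snd_neg, Pi.sub_apply,
      Pi.add_apply, Pi.neg_apply, Prod.fst_zero, Prod.snd_zero, Pi.zero_apply, g01a_A1, g01a_A2, g01a_B1, g01a_B2,
      g01a_X1, g01a_X2, g01a_Y1, g01a_Y2, g01a_i1, g01a_i2, map_add, map_sub, map_neg, g01a_map, g01a_ite_add,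
      g01a_ite_sub, g01a_ite_neg]
    linear_combination (norm := module) h0

theorem G01_yy (S : GM m n M) (i : Fin m) (l : Fin n) (j : Fin m) (q : Fin n) (v) :
    vtY S i l (vtY S j q v) + vtY S j q (vtY S i l v) = 0 := by
  refine Prod.ext (funext fun s => ?_) (funext fun s => ?_)
  ·
    have h0 := S.yy i l j q (v.1 s)
    simp only [Prod.fst_sub, Prod.snd_sub, Prod.fst_add, Prod.snd_add, Prod.fst_neg, Prod.snd_neg, Pi.sub_apply,
      Pi.add_apply, Pi.neg_apply, Prod.fst_zero, Prod.snd_zero, Pi.zero_apply, g01a_A1, g01a_A2, g01a_B1, g01a_B2,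
      g01a_X1, g01a_X2, g01a_Y1, g01a_Y2, g01a_i1, g01a_i2, map_add, map_sub, map_neg, g01a_map, g01a_ite_add,
      g01a_ite_sub, g01a_ite_neg]
    linear_combination (norm := module) h0
  ·
    have h0 := S.yy i l j q (v.2 s)
    simp only [Prod.fst_sub, Prod.snd_sub, Prod.fst_add, Prod.snd_add, Prod.fst_neg, Prod.snd_neg, Pi.sub_apply,
      Pi.add_apply, Pi.neg_apply, Prod.fst_zero, Prod.snd_zero, Pi.zero_apply, g01a_A1, g01a_A2, g01a_B1, g01a_B2,
      g01a_X1, g01a_X2, g01a_Y1, g01a_Y2, g01a_i1, g01a_i2, map_add, map_sub, map_neg, g01a_map, g01a_ite_add,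
      g01a_ite_sub, g01a_ite_neg]
    split_ifs at h0 ⊢ <;> first | linear_combination (norm := module) h0 | (exfalso; omega) | (subst_vars; linear_combination (norm := module) h0)

theorem G01_xy (S : GM m n M) (i : Fin m) (l : Fin n) (j : Fin m) (q : Fin n) (v) :
    vtX S i l (vtY S j q v) + vtY S j q (vtX S i l v) =
      (if l = q then vtA S i j v else 0) - (if i = j then vtB S l q v else 0) := by
  refine Prod.ext (funext fun s => ?_) (funext fun s => ?_)
  ·
    have h0 := S.xy i l j q (v.1 s)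
    simp only [Prod.fst_sub, Prod.snd_sub, Prod.fst_add, Prod.snd_add, Prod.fst_neg, Prod.snd_neg, Pi.sub_apply,
      Pi.add_apply, Pi.neg_apply, Prod.fst_zero, Prod.snd_zero, Pi.zero_apply, g01a_A1, g01a_A2, g01a_B1, g01a_B2,
      g01a_X1, g01a_X2, g01a_Y1, g01a_Y2, g01a_i1, g01a_i2, map_add, map_sub, map_neg, g01a_map, g01a_ite_add,
      g01a_ite_sub, g01a_ite_neg]
    split_ifs at h0 ⊢ <;> first | linear_combination (norm := module) h0 | (exfalso; omega) | (subst_vars; linear_combination (norm := module) h0)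
  ·
    have h0 := S.xy i l j q (v.2 s)
    simp only [Prod.fst_sub, Prod.snd_sub, Prod.fst_add, Prod.snd_add, Prod.fst_neg, Prod.snd_neg, Pi.sub_apply,
      Pi.add_apply, Pi.neg_apply, Prod.fst_zero, Prod.snd_zero, Pi.zero_apply, g01a_A1, g01a_A2, g01a_B1, g01a_B2,
      g01a_X1, g01a_X2, g01a_Y1, g01a_Y2, g01a_i1, g01a_i2, map_add, map_sub, map_neg, g01a_map, g01a_ite_add,
      g01a_ite_sub, g01a_ite_neg]
    split_ifs at h0 ⊢ <;> first | linear_combination (norm := module) h0 | (exfalso; omega) | (subst_vars; linear_combination (norm := module) h0)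

/-- the tensor product with the natural module -/
def GM.vt (S : GM m n M) : GM m n ((Fin m → M) × (Fin n → M)) where
  a := vtA S
  b := vtB S
  x := vtX S
  y := vtY S
  aa := G01_aa S
  bb := G01_bb S
  ab := G01_ab S
  ax := G01_ax S
  bx := G01_bx S
  ay := G01_ay S
  by' := G01_by S
  xx := G01_xx S
  yy := G01_yy S
  xy := G01_xy S

end H95H
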