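import Pool.Agent.Lib.H95H.G01b

namespace H95H

variable {m n k : ℕ} {M : Type} [AddCommGroup M] [Module ℂ M]

/-!
# Chunk G02: Omega commutes with `gl(m|n)`

Write `(u, w)` as `∑ f_i ⊗ u_i + ∑ g^l ⊗ w_l`. By linearity check on `f_j ⊗ v` and `g^p ⊗ v`; or
componentwise. For `x_{il}` on `g^p ⊗ v`:
`x_{il} Ω(g^p ⊗ v) = f_i ⊗ b_{lp} v - ∑_q g^q ⊗ x_{il} b_{qp} v + ∑_j f_j ⊗ x_{il} y_{jp} v`, and
`Ω x_{il} (g^p ⊗ v) = δ_{lp} (∑_j f_j ⊗ a_{ij} v + ∑_q g^q ⊗ x_{iq} v) - ∑_q g^q ⊗ b_{qp} x_{il} v
- ∑_j f_j ⊗ y_{jp} x_{il} v`; they agree by `xy` (coefficient of `f_j`: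
`δ_{ij} b_{lp} + x_{il} y_{jp} = δ_{lp} a_{ij} - y_{jp} x_{il}`) and `bx` (coefficient of `g^q`).
The others are similar: on `f_j ⊗ v` use `ax`, `xx`; for `y` use `ay`, `by'`, `yy`, `xy`; for `a`, `b`
use `aa`, `bb`, `ax`, `ay`, `bx`, `by'`.
-/

theorem g02a_O1 (S : GM m n M) (z) (i) : (S.Om z).1 i = ∑ j, S.a j i (z.1 j) + ∑ p, S.y i p (z.2 p) := rfl

theorem g02a_O2 (S : GM m n M) (z) (q) : (S.Om z).2 q = ∑ j, S.x j q (z.1 j) + ∑ p, S.b q p (z.2 p) := rfl

theorem g02a_va (S : GM m n M) (i j z) : S.vt.a i j z = vtA S i j z := rfl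

theorem g02a_vb (S : GM m n M) (i j z) : S.vt.b i j z = vtB S i j z := rfl

theorem G02_a (S : GM m n M) (i j : Fin m) (z) : S.Om (S.vt.a i j z) = S.vt.a i j (S.Om z) := by
  rw [g02a_va, g02a_va]
  refine Prod.ext (funext fun s => ?_) (funext fun s => ?_)
  · have haa : ∀ c v, S.a i j (S.a c s v) = S.a c s (S.a i j v) + (if j = c then S.a i s v else 0)
        - (if s = i then S.a c j v else 0) := by
      intro c v
      have h := S.aa i j c s v
      rw [sub_eq_iff_eq_add] at h
      rw [h]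
      abel
    have hay : ∀ p v, S.a i j (S.y s p v) = S.y s p (S.a i j v) - (if i = s then S.y j p v else 0) := by
      intro c v
      have h := S.ay i j s c v
      rw [sub_eq_iff_eq_add] at h
      rw [h]
      abel
    simp only [g02a_O1, g02a_O2, g01a_A1, g01a_A2, map_add, map_sum, haa, hay, g01a_map, Finset.sum_add_distrib,
      Finset.sum_sub_distrib, Finset.sum_ite_eq, Finset.sum_ite_eq', Finset.mem_univ, if_true]
    by_cases h : s = i
    · simp only [if_pos h, if_pos h.symm]
      abel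
    · simp only [if_neg h, if_neg (Ne.symm h), Finset.sum_const_zero]
      abel
  · have hax : ∀ c v, S.a i j (S.x c s v) = S.x c s (S.a i j v) + (if j = c then S.x i s v else 0) := by
      intro c v
      have h := S.ax i j c s v
      rw [sub_eq_iff_eq_add] at h
      rw [h]
      abel
    have hab : ∀ p v, S.a i j (S.b s p v) = S.b s p (S.a i j v) := fun p v => S.ab i j s p v
    simp only [g02a_O1, g02a_O2, g01a_A1, g01a_A2, map_add, map_sum, hax, hab, g01a_map, Finset.sum_add_distrib,
      Finset.sum_sub_distrib, Finset.sum_ite_eq, Finset.sum_ite_eq', Finset.mem_univ, if_true]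
    abel

theorem G02_b (S : GM m n M) (i j : Fin n) (z) : S.Om (S.vt.b i j z) = S.vt.b i j (S.Om z) := by
  rw [g02a_vb, g02a_vb]
  refine Prod.ext (funext fun s => ?_) (funext fun s => ?_)
  · have hba : ∀ c v, S.b i j (S.a c s v) = S.a c s (S.b i j v) := fun c v => (S.ab c s i j v).symm
    have hby : ∀ p v, S.b i j (S.y s p v) = S.y s p (S.b i j v) - (if i = p then S.y s j v else 0) := by
      intro c v
      have h := S.by' i j s c v
      rw [sub_eq_iff_eq_add] at h
      rw [h]
      abel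
    simp only [g02a_O1, g02a_O2, g01a_B1, g01a_B2, map_add, map_sum, map_neg, hba, hby, g01a_map,
      Finset.sum_add_distrib, Finset.sum_sub_distrib, Finset.sum_neg_distrib, Finset.sum_ite_eq, Finset.sum_ite_eq',
      Finset.mem_univ, if_true]
    abel
  · have hbx : ∀ c v, S.b i j (S.x c s v) = S.x c s (S.b i j v) + (if j = s then S.x c i v else 0) := by
      intro c v
      have h := S.bx i j c s v
      rw [sub_eq_iff_eq_add] at h
      rw [h]
      abel
    have hbb : ∀ p v, S.b i j (S.b s p v) = S.b s p (S.b i j v) + (if j = s then S.b i p v else 0)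
        - (if p = i then S.b s j v else 0) := by
      intro p v
      have h := S.bb i j s p v
      rw [sub_eq_iff_eq_add] at h
      rw [h]
      abel
    simp only [g02a_O1, g02a_O2, g01a_B1, g01a_B2, map_add, map_sum, map_neg, hbx, hbb, g01a_map,
      Finset.sum_add_distrib, Finset.sum_sub_distrib, Finset.sum_neg_distrib, Finset.sum_ite_eq, Finset.sum_ite_eq',
      Finset.mem_univ, if_true]
    by_cases h : s = j
    · simp only [if_pos h, if_pos h.symm]
      abel
    · simp only [if_neg h, if_neg (Ne.symm h), Finset.sum_const_zero]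
      abel

end H95H
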