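import Pool.Agent.Lib.H95H.G02a

namespace H95H

variable {m n k : ℕ} {M : Type} [AddCommGroup M] [Module ℂ M]

/-!
# Chunk G02: Omega commutes with `gl(m|n)`

Write `(u, w)` as `∑ f_i ⊗ u_i + ∑ g^l ⊗ w_l`. By linearity check on `f_j ⊗ v` and `g^p ⊗ v`; or
componentwise. For `x_{il}` on `g^p ⊗ v`:
`x_{il} Ω(g^p ⊗ v) = f_i ⊗ b_{lp} v - ∑_q g^q ⊗ x_{il} b_{qp} v + ∑_j f_j ⊗ x_{il} y_{jp} v`, and
`Ω x_{il} (g^p ⊗ v) = δ_{lp} (∑_j f_j ⊗ a_{ij} v + ∑_q g^q ⊗ x_{iq} v) - ∑_q g^q ⊗ b_{qp} x_{il} v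
- ∑_j f_j ⊗ y_{jp} x_{il} v`; they agree by `xy` (coefficient of `f_j`:
`δ_{ij} b_{lp} + x_{il} y_{jp} = δ_{lp} a_{ij} - y_{jp} x_{il}`) and `bx` (coefficient of `g^q`).
The others are similar: on `f_j ⊗ v` use `ax`, `xx`; for `y` use `ay`, `by'`, `yy`, `xy`; for `a`, `b`
use `aa`, `bb`, `ax`, `ay`, `bx`, `by'`.
-/

theorem g02b_one {ι : Type*} [Fintype ι] [DecidableEq ι] {N : Type*} [AddCommGroup N] [Module ℂ N]
    (f : ι → M →ₗ[ℂ] N) (i : ι) (v : M) : ∑ j, f j (if j = i then v else 0) = f i v := by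
  rw [Finset.sum_eq_single i]
  · rw [if_pos rfl]
  · intro j _ hj
    rw [if_neg hj, map_zero]
  · intro h
    exact absurd (Finset.mem_univ i) h

theorem G02_x (S : GM m n M) (i : Fin m) (l : Fin n) (z) :
    S.Om (S.vt.x i l z) = S.vt.x i l (S.Om z) := by
  refine Prod.ext (funext fun p => ?_) (funext fun q => ?_)
  · show ∑ j, S.a j p ((if j = i then z.2 l else 0) + S.x i l (z.1 j)) +
        ∑ r, S.y p r (-S.x i l (z.2 r)) =
      (if p = i then ∑ j, S.x j l (z.1 j) + ∑ r, S.b l r (z.2 r) else 0) +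
        S.x i l (∑ j, S.a j p (z.1 j) + ∑ r, S.y p r (z.2 r))
    have h1 : ∀ j, S.a j p (S.x i l (z.1 j)) =
        S.x i l (S.a j p (z.1 j)) + if p = i then S.x j l (z.1 j) else 0 := by
      intro j
      rw [← S.ax j p i l (z.1 j)]
      abel
    have h2 : ∀ r, S.y p r (-S.x i l (z.2 r)) =
        S.x i l (S.y p r (z.2 r)) - (if r = l then S.a i p (z.2 r) else 0) +
          (if p = i then S.b l r (z.2 r) else 0) := by
      intro r
      have h3 := S.xy i l p r (z.2 r)
      have h4 : S.y p r (S.x i l (z.2 r)) = (if l = r then S.a i p (z.2 r) else 0) -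
          (if i = p then S.b l r (z.2 r) else 0) - S.x i l (S.y p r (z.2 r)) := by
        rw [← h3]
        abel
      rw [map_neg, h4]
      by_cases h5 : r = l <;> by_cases h6 : p = i <;>
        simp [h5, h6, Ne.symm, eq_comm] <;> abel
    simp only [map_add, Finset.sum_add_distrib, map_sum, h1, h2, Finset.sum_sub_distrib]
    rw [g02b_one (fun j => S.a j p) i (z.2 l)]
    have h7 : ∑ r, (if r = l then S.a i p (z.2 r) else 0) = S.a i p (z.2 l) := by
      rw [Finset.sum_ite_eq' Finset.univ l, if_pos (Finset.mem_univ l)]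
    rw [h7]
    by_cases h6 : p = i
    · simp only [h6, if_true]
      abel
    · simp only [h6, if_false, Finset.sum_const_zero]
      abel
  · show ∑ j, S.x j q ((if j = i then z.2 l else 0) + S.x i l (z.1 j)) +
        ∑ r, S.b q r (-S.x i l (z.2 r)) =
      -S.x i l (∑ j, S.x j q (z.1 j) + ∑ r, S.b q r (z.2 r))
    have h1 : ∀ j, S.x j q (S.x i l (z.1 j)) = -S.x i l (S.x j q (z.1 j)) := by
      intro j
      exact eq_neg_of_add_eq_zero_left (S.xx j q i l (z.1 j))
    have h2 : ∀ r, S.b q r (-S.x i l (z.2 r)) =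
        -S.x i l (S.b q r (z.2 r)) - (if r = l then S.x i q (z.2 r) else 0) := by
      intro r
      rw [← S.bx q r i l (z.2 r), map_neg]
      abel
    simp only [map_add, Finset.sum_add_distrib, map_sum, h1, h2, Finset.sum_sub_distrib,
      Finset.sum_neg_distrib]
    rw [g02b_one (fun j => S.x j q) i (z.2 l)]
    have h7 : ∑ r, (if r = l then S.x i q (z.2 r) else 0) = S.x i q (z.2 l) := by
      rw [Finset.sum_ite_eq' Finset.univ l, if_pos (Finset.mem_univ l)]
    rw [h7]
    abel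

theorem G02_y (S : GM m n M) (i : Fin m) (l : Fin n) (z) :
    S.Om (S.vt.y i l z) = S.vt.y i l (S.Om z) := by
  refine Prod.ext (funext fun p => ?_) (funext fun q => ?_)
  · show ∑ j, S.a j p (S.y i l (z.1 j)) +
        ∑ r, S.y p r ((if r = l then z.1 i else 0) - S.y i l (z.2 r)) =
      S.y i l (∑ j, S.a j p (z.1 j) + ∑ r, S.y p r (z.2 r))
    have h1 : ∀ j, S.a j p (S.y i l (z.1 j)) =
        S.y i l (S.a j p (z.1 j)) - if j = i then S.y p l (z.1 j) else 0 := by
      intro j
      have h3 := S.ay j p i l (z.1 j)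
      have h4 : S.a j p (S.y i l (z.1 j)) = S.y i l (S.a j p (z.1 j)) +
          -(if j = i then S.y p l (z.1 j) else 0) := by
        rw [← h3]
        abel
      rw [h4]
      abel
    have h2 : ∀ r, S.y p r (S.y i l (z.2 r)) = -S.y i l (S.y p r (z.2 r)) := by
      intro r
      exact eq_neg_of_add_eq_zero_left (S.yy p r i l (z.2 r))
    simp only [map_add, map_sub, Finset.sum_add_distrib, map_sum, h1, h2, Finset.sum_sub_distrib,
      Finset.sum_neg_distrib]
    rw [g02b_one (fun r => S.y p r) l (z.1 i)]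
    have h7 : ∑ j, (if j = i then S.y p l (z.1 j) else 0) = S.y p l (z.1 i) := by
      rw [Finset.sum_ite_eq' Finset.univ i, if_pos (Finset.mem_univ i)]
    rw [h7]
    abel
  · show ∑ j, S.x j q (S.y i l (z.1 j)) +
        ∑ r, S.b q r ((if r = l then z.1 i else 0) - S.y i l (z.2 r)) =
      (if q = l then ∑ j, S.a j i (z.1 j) + ∑ r, S.y i r (z.2 r) else 0) -
        S.y i l (∑ j, S.x j q (z.1 j) + ∑ r, S.b q r (z.2 r))
    have h1 : ∀ j, S.x j q (S.y i l (z.1 j)) =
        (if q = l then S.a j i (z.1 j) else 0) - (if j = i then S.b q l (z.1 j) else 0) -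
          S.y i l (S.x j q (z.1 j)) := by
      intro j
      rw [← S.xy j q i l (z.1 j)]
      abel
    have h2 : ∀ r, S.b q r (S.y i l (z.2 r)) =
        S.y i l (S.b q r (z.2 r)) - (if q = l then S.y i r (z.2 r) else 0) := by
      intro r
      have h3 := S.by' q r i l (z.2 r)
      have h4 : S.b q r (S.y i l (z.2 r)) = S.y i l (S.b q r (z.2 r)) +
          -(if q = l then S.y i r (z.2 r) else 0) := by
        rw [← h3]
        abel
      rw [h4]
      abel
    simp only [map_add, map_sub, Finset.sum_add_distrib, map_sum, h1, h2, Finset.sum_sub_distrib]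
    rw [g02b_one (fun r => S.b q r) l (z.1 i)]
    have h7 : ∑ j, (if j = i then S.b q l (z.1 j) else 0) = S.b q l (z.1 i) := by
      rw [Finset.sum_ite_eq' Finset.univ i, if_pos (Finset.mem_univ i)]
    rw [h7]
    by_cases h6 : q = l
    · simp only [h6, if_true]
      abel
    · simp only [h6, if_false, Finset.sum_const_zero]
      abel

/-- the generalised eigenspace of Omega -/
noncomputable def GM.Ft (S : GM m n M) (t : ℤ) : Submodule ℂ ((Fin m → M) × (Fin n → M)) :=
  Module.End.maxGenEigenspace S.Om (t : ℂ)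

/-- it is a submodule: commuting operators preserve generalised eigenspaces
(`Module.End.mapsTo_maxGenEigenspace_of_comm`) -/
theorem G02_stab (S : GM m n M) (t : ℤ) : S.vt.Stab (S.Ft t) := by
  have key : ∀ f : ((Fin m → M) × (Fin n → M)) →ₗ[ℂ] ((Fin m → M) × (Fin n → M)),
      (∀ z, S.Om (f z) = f (S.Om z)) → ∀ v ∈ S.Ft t, f v ∈ S.Ft t := by
    intro f hf v hv
    have hc : Commute S.Om f := LinearMap.ext hf
    exact Module.End.mapsTo_maxGenEigenspace_of_comm hc (t : ℂ) hv
  exact ⟨⟨fun i j => key _ (G02_a S i j), fun i j => key _ (G02_b S i j)⟩,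
    fun i l => key _ (G02_x S i l), fun i l => key _ (G02_y S i l)⟩

/-- the translation functor -/
noncomputable def GM.F (S : GM m n M) (t : ℤ) : GM m n ↥(S.Ft t) := S.vt.res (S.Ft t) (G02_stab S t)

end H95H
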