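import Pool.Agent.Lib.H95H.G02b

namespace H95H

variable {m n k : ℕ} {M : Type} [AddCommGroup M] [Module ℂ M]
  {M' : Type} [AddCommGroup M'] [Module ℂ M'] {M'' : Type} [AddCommGroup M''] [Module ℂ M'']

/-- the induced map on tensor products -/
def vtMap (m n : ℕ) (f : M →ₗ[ℂ] M') :
    ((Fin m → M) × (Fin n → M)) →ₗ[ℂ] ((Fin m → M') × (Fin n → M')) where
  toFun z := (fun i => f (z.1 i), fun l => f (z.2 l))
  map_add' z z' := by
    refine Prod.ext (funext fun p => ?_) (funext fun p => ?_) <;> simp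
  map_smul' r z := by
    refine Prod.ext (funext fun p => ?_) (funext fun p => ?_) <;> simp

/-!
# Chunk G03: functoriality and exactness of the translation functor

* `G03_hom`, `G03_Om`: componentwise from `hf`.
* `G03_maps`: `vtMap f` intertwines `(Om - t)^N`.
* `G03_surj`: let `z'` be in the generalised eigenspace of `S'`. Lift it to `z`, and decompose `z` into
  its components in the generalised eigenspaces of `S.Om` (finite-dimensional over `ℂ`:
  `Module.End.iSup_maxGenEigenspace_eq_top`). The images are in the generalised eigenspaces of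
  `S'.Om`, which are independent (`Module.End.independent_maxGenEigenspace`), so `z'` is the image
  of the `t`-component.
* `G03_exact`: if `z` is in the `t` generalised eigenspace of `S₂.Om` and `vtMap π z = 0` then all
  entries of `z` are in `ker π = range i`, so `z = vtMap i z₁`, and as `vtMap i` is injective and
  intertwines, `(Om - t)^N z₁ = 0`.
-/

theorem G03_hom {S : GM m n M} {S' : GM m n M'} {f : M →ₗ[ℂ] M'} (hf : GHom S S' f) :
    GHom S.vt S'.vt (vtMap m n f) := by
  obtain ⟨ha, hb, hx, hy⟩ := hf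
  refine ⟨fun i j v => ?_, fun i j v => ?_, fun i l v => ?_, fun i l v => ?_⟩
  · refine Prod.ext (funext fun p => ?_) (funext fun p => ?_)
    · show f ((if p = i then v.1 j else 0) + S.a i j (v.1 p)) =
        (if p = i then f (v.1 j) else 0) + S'.a i j (f (v.1 p))
      rw [map_add, ha]
      by_cases h : p = i <;> simp [h]
    · exact ha _ _ _
  · refine Prod.ext (funext fun p => ?_) (funext fun p => ?_)
    · exact hb _ _ _
    · show f (-(if p = j then v.2 i else 0) + S.b i j (v.2 p)) =
        -(if p = j then f (v.2 i) else 0) + S'.b i j (f (v.2 p))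
      rw [map_add, map_neg, hb]
      by_cases h : p = j <;> simp [h]
  · refine Prod.ext (funext fun p => ?_) (funext fun p => ?_)
    · show f ((if p = i then v.2 l else 0) + S.x i l (v.1 p)) =
        (if p = i then f (v.2 l) else 0) + S'.x i l (f (v.1 p))
      rw [map_add, hx]
      by_cases h : p = i <;> simp [h]
    · show f (-S.x i l (v.2 p)) = -S'.x i l (f (v.2 p))
      rw [map_neg, hx]
  · refine Prod.ext (funext fun p => ?_) (funext fun p => ?_)
    · exact hy _ _ _
    · show f ((if p = l then v.1 i else 0) - S.y i l (v.2 p)) =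
        (if p = l then f (v.1 i) else 0) - S'.y i l (f (v.2 p))
      rw [map_sub, hy]
      by_cases h : p = l <;> simp [h]

theorem G03_Om {S : GM m n M} {S' : GM m n M'} {f : M →ₗ[ℂ] M'} (hf : GHom S S' f) (z) :
    vtMap m n f (S.Om z) = S'.Om (vtMap m n f z) := by
  obtain ⟨ha, hb, hx, hy⟩ := hf
  refine Prod.ext (funext fun p => ?_) (funext fun p => ?_)
  · show f (∑ j, S.a j p (z.1 j) + ∑ r, S.y p r (z.2 r)) = ∑ j, S'.a j p (f (z.1 j)) + ∑ r, S'.y p r (f (z.2 r))
    rw [map_add, map_sum, map_sum]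
    simp only [ha, hy]
  · show f (∑ j, S.x j p (z.1 j) + ∑ r, S.b p r (z.2 r)) = ∑ j, S'.x j p (f (z.1 j)) + ∑ r, S'.b p r (f (z.2 r))
    rw [map_add, map_sum, map_sum]
    simp only [hx, hb]

theorem g03a_pow {S : GM m n M} {S' : GM m n M'} {f : M →ₗ[ℂ] M'} (hf : GHom S S' f) (μ : ℂ) (k : ℕ)
    (z : (Fin m → M) × (Fin n → M)) :
    vtMap m n f (((S.Om - μ • 1) ^ k) z) = ((S'.Om - μ • 1) ^ k) (vtMap m n f z) := by
  induction k generalizing z with
  | zero => rfl
  | succ k ih =>
    rw [pow_succ, pow_succ, Module.End.mul_apply, Module.End.mul_apply, ih]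
    congr 1
    show vtMap m n f (S.Om z - μ • z) = S'.Om (vtMap m n f z) - μ • vtMap m n f z
    rw [map_sub, G03_Om hf, map_smul]

theorem G03_maps {S : GM m n M} {S' : GM m n M'} {f : M →ₗ[ℂ] M'} (hf : GHom S S' f) (t : ℤ) :
    ∀ z ∈ S.Ft t, vtMap m n f z ∈ S'.Ft t := by
  intro z hz
  obtain ⟨k, hk⟩ := (Module.End.mem_maxGenEigenspace S.Om (t : ℂ) z).1 hz
  exact (Module.End.mem_maxGenEigenspace S'.Om (t : ℂ) _).2 ⟨k, by rw [← g03a_pow hf, hk, map_zero]⟩

/-- the translation functor on homomorphisms -/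
noncomputable def Fmap {S : GM m n M} {S' : GM m n M'} {f : M →ₗ[ℂ] M'} (hf : GHom S S' f) (t : ℤ) :
    ↥(S.Ft t) →ₗ[ℂ] ↥(S'.Ft t) :=
  (vtMap m n f).restrict (G03_maps hf t)

theorem G03_Fhom {S : GM m n M} {S' : GM m n M'} {f : M →ₗ[ℂ] M'} (hf : GHom S S' f) (t : ℤ) :
    GHom (S.F t) (S'.F t) (Fmap hf t) := by
  obtain ⟨ha, hb, hx, hy⟩ := G03_hom hf
  exact ⟨fun i j v => Subtype.ext (ha i j v.1), fun i j v => Subtype.ext (hb i j v.1),
    fun i l v => Subtype.ext (hx i l v.1), fun i l v => Subtype.ext (hy i l v.1)⟩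

theorem G03_inj {S : GM m n M} {S' : GM m n M'} {f : M →ₗ[ℂ] M'} (hf : GHom S S' f) (t : ℤ)
    (hi : Function.Injective f) : Function.Injective (Fmap hf t) := by
  intro z z' h
  have h1 : vtMap m n f z.1 = vtMap m n f z'.1 := congrArg Subtype.val h
  apply Subtype.ext
  exact Prod.ext (funext fun i => hi (congrFun (congrArg Prod.fst h1) i))
    (funext fun l => hi (congrFun (congrArg Prod.snd h1) l))

end H95H
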