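import Pool.Agent.Lib.H95H.G03a

namespace H95H

variable {m n k : ℕ} {M : Type} [AddCommGroup M] [Module ℂ M]
  {M' : Type} [AddCommGroup M'] [Module ℂ M'] {M'' : Type} [AddCommGroup M''] [Module ℂ M'']

/-!
# Chunk G03: functoriality and exactness of the translation functor

* `G03_hom`, `G03_Om`: componentwise from `hf`.
* `G03_maps`: `vtMap f` intertwines `(Om - t)^N`.
* `G03_surj`: let `z'` be in the generalised eigenspace of `S'`. Lift it to `z`, and decompose `z` into
  its components in the generalised eigenspaces of `S.Om` (finite-dimensional over `ℂ`: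
  `Module.End.iSup_maxGenEigenspace_eq_top`). The images are in the generalised eigenspaces of
  `S'.Om`, which are independent (`Module.End.independent_maxGenEigenspace`), so `z'` is the image
  of the `t`-component.
* `G03_exact`: if `z` is in the `t` generalised eigenspace of `S₂.Om` and `vtMap π z = 0` then all
  entries of `z` are in `ker π = range i`, so `z = vtMap i z₁`, and as `vtMap i` is injective and
  intertwines, `(Om - t)^N z₁ = 0`.
-/

/-- `Om - μ` -/
noncomputable def g03b_T (S : GM m n M) (μ : ℂ) : Module.End ℂ ((Fin m → M) × (Fin n → M)) :=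
  S.Om - μ • 1

theorem g03b_pow {S : GM m n M} {S' : GM m n M'} {f : M →ₗ[ℂ] M'} (hf : GHom S S' f) (μ : ℂ) (k : ℕ)
    (z : (Fin m → M) × (Fin n → M)) :
    vtMap m n f ((g03b_T S μ ^ k) z) = (g03b_T S' μ ^ k) (vtMap m n f z) := by
  induction k generalizing z with
  | zero => rfl
  | succ k ih =>
    rw [pow_succ, pow_succ, Module.End.mul_apply, Module.End.mul_apply, ih]
    congr 1
    show vtMap m n f (S.Om z - μ • z) = S'.Om (vtMap m n f z) - μ • vtMap m n f z
    rw [map_sub, G03_Om hf, map_smul]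

theorem g03b_mem (S : GM m n M) (μ : ℂ) (z : (Fin m → M) × (Fin n → M)) :
    z ∈ Module.End.maxGenEigenspace S.Om μ ↔ ∃ k : ℕ, (g03b_T S μ ^ k) z = 0 :=
  Module.End.mem_maxGenEigenspace _ _ _

theorem g03b_maps {S : GM m n M} {S' : GM m n M'} {f : M →ₗ[ℂ] M'} (hf : GHom S S' f) (μ : ℂ)
    (z : (Fin m → M) × (Fin n → M)) (hz : z ∈ Module.End.maxGenEigenspace S.Om μ) :
    vtMap m n f z ∈ Module.End.maxGenEigenspace S'.Om μ := by
  obtain ⟨k, hk⟩ := (g03b_mem S μ z).1 hz
  exact (g03b_mem S' μ _).2 ⟨k, by rw [← g03b_pow hf, hk, map_zero]⟩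

theorem G03_surj [Module.Finite ℂ M] {S : GM m n M} {S' : GM m n M'} {f : M →ₗ[ℂ] M'}
    (hf : GHom S S' f) (t : ℤ) (hs : Function.Surjective f) : Function.Surjective (Fmap hf t) := by
  rintro ⟨z', hz'⟩
  obtain ⟨z, hz⟩ : ∃ z, vtMap m n f z = z' := by
    choose g hg using hs
    exact ⟨(fun i => g (z'.1 i), fun l => g (z'.2 l)),
      Prod.ext (funext fun i => hg _) (funext fun l => hg _)⟩
  have htop : (⨆ μ : ℂ, Module.End.maxGenEigenspace S.Om μ) = ⊤ :=
    Module.End.iSup_maxGenEigenspace_eq_top S.Om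
  have hsplit : Module.End.maxGenEigenspace S.Om (t : ℂ) ⊔
      (⨆ μ : ℂ, ⨆ _ : μ ≠ (t : ℂ), Module.End.maxGenEigenspace S.Om μ) = ⊤ := by
    rw [eq_top_iff, ← htop]
    refine iSup_le fun μ => ?_
    by_cases h : μ = (t : ℂ)
    · rw [h]
      exact le_sup_left
    · exact le_sup_of_le_right (le_iSup₂_of_le μ h le_rfl)
  have hz1 : z ∈ Module.End.maxGenEigenspace S.Om (t : ℂ) ⊔
      (⨆ μ : ℂ, ⨆ _ : μ ≠ (t : ℂ), Module.End.maxGenEigenspace S.Om μ) := by
    rw [hsplit]
    exact Submodule.mem_top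
  obtain ⟨u, hu, w, hw, huw⟩ := Submodule.mem_sup.1 hz1
  have hw' : vtMap m n f w ∈ ⨆ μ : ℂ, ⨆ _ : μ ≠ (t : ℂ), Module.End.maxGenEigenspace S'.Om μ := by
    have h1 : (⨆ μ : ℂ, ⨆ _ : μ ≠ (t : ℂ), Module.End.maxGenEigenspace S.Om μ) ≤
        (⨆ μ : ℂ, ⨆ _ : μ ≠ (t : ℂ), Module.End.maxGenEigenspace S'.Om μ).comap (vtMap m n f) := by
      refine iSup₂_le fun μ h z hz => ?_
      exact (le_iSup₂_of_le (f := fun (μ : ℂ) (_ : μ ≠ (t : ℂ)) =>
        Module.End.maxGenEigenspace S'.Om μ) μ h le_rfl) (g03b_maps hf μ z hz)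
    exact h1 hw
  have hind := Module.End.independent_maxGenEigenspace S'.Om (t : ℂ)
  have h2 : z' - vtMap m n f u = vtMap m n f w := by
    rw [← hz, ← huw, map_add]
    abel
  have h3 : vtMap m n f w = 0 := by
    have h4 : vtMap m n f w ∈ Module.End.maxGenEigenspace S'.Om (t : ℂ) := by
      rw [← h2]
      exact Submodule.sub_mem _ hz' (g03b_maps hf _ u hu)
    exact Submodule.disjoint_def.1 hind _ h4 hw'
  refine ⟨⟨u, hu⟩, ?_⟩
  apply Subtype.ext
  show vtMap m n f u = z'
  rw [h3] at h2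
  exact (sub_eq_zero.1 h2).symm

theorem G03_exact {S : GM m n M} {S' : GM m n M'} {S'' : GM m n M''} {f : M →ₗ[ℂ] M'}
    {g : M' →ₗ[ℂ] M''} (hf : GHom S S' f) (hg : GHom S' S'' g) (t : ℤ)
    (hi : Function.Injective f) (he : LinearMap.range f = LinearMap.ker g) :
    LinearMap.range (Fmap hf t) = LinearMap.ker (Fmap hg t) := by
  ext z
  rw [LinearMap.mem_range, LinearMap.mem_ker]
  constructor
  · rintro ⟨y, rfl⟩
    apply Subtype.ext
    show vtMap m n g (vtMap m n f y.1) = 0
    have h1 : ∀ v, g (f v) = 0 := by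
      intro v
      have h2 : f v ∈ LinearMap.ker g := by
        rw [← he]
        exact LinearMap.mem_range_self f v
      exact h2
    exact Prod.ext (funext fun i => h1 _) (funext fun l => h1 _)
  · intro hz
    have hz0 : vtMap m n g z.1 = 0 := congrArg Subtype.val hz
    have h1 : ∀ v, g v = 0 → ∃ u, f u = v := by
      intro v hv
      have h2 : v ∈ LinearMap.range f := by
        rw [he]
        exact hv
      exact h2
    have h2 : ∀ i, ∃ u, f u = z.1.1 i := fun i => h1 _ (congrFun (congrArg Prod.fst hz0) i)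
    have h3 : ∀ l, ∃ u, f u = z.1.2 l := fun l => h1 _ (congrFun (congrArg Prod.snd hz0) l)
    choose u hu using h2
    choose w hw using h3
    have h4 : vtMap m n f (u, w) = z.1 := Prod.ext (funext hu) (funext hw)
    have h5 : (u, w) ∈ S.Ft t := by
      obtain ⟨k, hk⟩ := (g03b_mem S' (t : ℂ) z.1).1 z.2
      refine (g03b_mem S (t : ℂ) _).2 ⟨k, ?_⟩
      rw [← h4, ← g03b_pow hf] at hk
      have h6 : ∀ y : (Fin m → M) × (Fin n → M), vtMap m n f y = 0 → y = 0 := by
        intro y hy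
        have h7 : ∀ v, f v = 0 → v = 0 := fun v hv => hi (by rw [hv, map_zero])
        exact Prod.ext (funext fun i => h7 _ (congrFun (congrArg Prod.fst hy) i))
          (funext fun l => h7 _ (congrFun (congrArg Prod.snd hy) l))
      exact h6 _ hk
    exact ⟨⟨(u, w), h5⟩, Subtype.ext h4⟩

theorem G03_finite [Module.Finite ℂ M] (S : GM m n M) (t : ℤ) : Module.Finite ℂ ↥(S.Ft t) :=
  inferInstance

end H95H
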