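import Pool.Agent.Lib.H95H.G00

namespace H95H

variable {m n k : ℕ} {M : Type} [AddCommGroup M] [Module ℂ M]
  {M' : Type} [AddCommGroup M'] [Module ℂ M']

/-!
# Chunk G05: good modules

`Good`: a positive definite hermitian form with `a i j`, `a j i` adjoint (and `b`), and the space is
spanned by integral weight vectors.
* `G05_comp`: in a good module, a subspace `N` stable under all `a i i`, `b l l` contains the weight
  components of its elements; in the form: `N` is the supremum of the `N ⊓ Wsp α β`. (Commuting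
  diagonalisable operators; e.g. write `v = ∑ v_j` with `v_j` in distinct weight spaces
  and apply polynomials in `a i i`, `b l l` which are `1` at one weight and `0` at the others:
  for two distinct weights some coordinate differs; Lagrange interpolation. Or
  `Module.End` eigenspace API one operator at a time.)
* `G05_res`: restrict the form; `G05_comp`.
* `G05_quo`: for finite-dimensional `M` the orthogonal complement of `N` is stable and maps
  isomorphically onto `M ⧸ N` (`A10_proj` in `A10a.lean` gives the orthogonal projection; it is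
  not imported here, import it if needed); transport the form. The images of weight vectors are
  weight vectors.
* `G05_vt`: the form `∑ h (u i) (u' i) + ∑ h (w l) (w' l)`; `f_i ⊗ v` has weight `(α + e_i, β)` and
  `g^l ⊗ v` has weight `(α, β - e_l)`.
* `G05_F`: `G05_vt` and `G05_res`.
* `G05_iso`: transport through a bijective homomorphism.
-/

/-- components of an element of a stable subspace in distinct joint eigenspaces -/
theorem g05a_aux {ι κ : Type} [DecidableEq ι] (T : κ → M →ₗ[ℂ] M) (lam : ι → κ → ℂ)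
    (hinj : Function.Injective lam) (N : Submodule ℂ M) (hT : ∀ c, ∀ v ∈ N, T c v ∈ N) :
    ∀ (r : ℕ) (s : Finset ι), s.card = r → ∀ w : ι → M,
      (∀ i ∈ s, ∀ c, T c (w i) = lam i c • w i) → ∑ i ∈ s, w i ∈ N → ∀ j ∈ s, w j ∈ N := by
  intro r
  induction r with
  | zero =>
    intro s hs w _ _ j hj
    rw [Finset.card_eq_zero] at hs
    rw [hs] at hj
    exact absurd hj (Finset.notMem_empty j)
  | succ r ih =>
    intro s hs w hw hsum j hj
    by_cases hex : ∃ k ∈ s, k ≠ j
    · obtain ⟨k, hk, hkj⟩ := hex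
      have hne : lam j ≠ lam k := fun h => hkj (hinj h).symm
      obtain ⟨c, hc⟩ := Function.ne_iff.1 hne
      have hsum' : ∑ i ∈ s.erase k, (lam i c - lam k c) • w i ∈ N := by
        have h1 : T c (∑ i ∈ s, w i) - lam k c • ∑ i ∈ s, w i ∈ N :=
          N.sub_mem (hT c _ hsum) (N.smul_mem _ hsum)
        have h2 : T c (∑ i ∈ s, w i) - lam k c • ∑ i ∈ s, w i =
            ∑ i ∈ s, (lam i c - lam k c) • w i := by
          rw [map_sum, Finset.smul_sum, ← Finset.sum_sub_distrib]
          refine Finset.sum_congr rfl fun i hi => ?_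
          rw [hw i hi c, sub_smul]
        rw [h2, ← Finset.add_sum_erase s _ hk, sub_self, zero_smul, zero_add] at h1
        exact h1
      have h3 := ih (s.erase k) (by rw [Finset.card_erase_of_mem hk, hs]; rfl)
        (fun i => (lam i c - lam k c) • w i) (fun i hi d => by
          rw [map_smul, hw i (Finset.mem_of_mem_erase hi) d, smul_comm]) hsum' j
        (Finset.mem_erase.2 ⟨fun h => hkj h.symm, hj⟩)
      have h4 := N.smul_mem (lam j c - lam k c)⁻¹ h3
      rw [smul_smul, inv_mul_cancel₀ (sub_ne_zero.2 hc), one_smul] at h4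
      exact h4
    · push Not at hex
      have h1 : s = {j} := by
        ext i
        rw [Finset.mem_singleton]
        exact ⟨fun h => hex i h, fun h => h ▸ hj⟩
      rw [h1, Finset.sum_singleton] at hsum
      exact hsum

/-- the diagonal operators -/
def g05a_T (S : G0 m n M) : Fin m ⊕ Fin n → M →ₗ[ℂ] M :=
  Sum.elim (fun i => S.a i i) (fun l => S.b l l)

/-- the weights as functions -/
def g05a_lam (m n : ℕ) (p : (Fin m → ℤ) × (Fin n → ℤ)) : Fin m ⊕ Fin n → ℂ :=
  Sum.elim (fun i => (p.1 i : ℂ)) (fun l => (p.2 l : ℂ))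

theorem g05a_lam_inj (m n : ℕ) : Function.Injective (g05a_lam m n) := by
  rintro ⟨p, q⟩ ⟨p', q'⟩ h
  refine Prod.ext (funext fun i => ?_) (funext fun l => ?_)
  · have := congrFun h (Sum.inl i)
    simp only [g05a_lam, Sum.elim_inl] at this
    exact_mod_cast this
  · have := congrFun h (Sum.inr l)
    simp only [g05a_lam, Sum.elim_inr] at this
    exact_mod_cast this

theorem g05a_wsp (S : G0 m n M) (p : (Fin m → ℤ) × (Fin n → ℤ)) (v : M) (hv : v ∈ S.Wsp p.1 p.2)
    (c : Fin m ⊕ Fin n) : g05a_T S c v = g05a_lam m n p c • v := by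
  rcases c with i | l
  · exact hv.1 i
  · exact hv.2 l

/-- every vector of a good module is a finite sum of weight vectors -/
theorem g05a_dec (S : G0 m n M) (hS : S.Good) (v : M) :
    ∃ (s : Finset ((Fin m → ℤ) × (Fin n → ℤ))) (w : (Fin m → ℤ) × (Fin n → ℤ) → M),
      (∀ p, w p ∈ S.Wsp p.1 p.2) ∧ v = ∑ p ∈ s, w p := by
  classical
  have h1 : v ∈ ⨆ p : (Fin m → ℤ) × (Fin n → ℤ), S.Wsp p.1 p.2 := by
    rw [iSup_prod, hS.2]
    trivial
  rw [Submodule.mem_iSup_iff_exists_finsupp] at h1
  obtain ⟨f, hf, hv⟩ := h1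
  refine ⟨f.support, f, hf, ?_⟩
  rw [← hv]
  rfl

/-- the components of a vector in a stable subspace are in the subspace -/
theorem g05a_mem (S : G0 m n M) (N : Submodule ℂ M)
    (ha : ∀ i, ∀ v ∈ N, S.a i i v ∈ N) (hb : ∀ l, ∀ v ∈ N, S.b l l v ∈ N)
    (s : Finset ((Fin m → ℤ) × (Fin n → ℤ))) (w : (Fin m → ℤ) × (Fin n → ℤ) → M)
    (hw : ∀ p ∈ s, w p ∈ S.Wsp p.1 p.2) (hsum : ∑ p ∈ s, w p ∈ N) : ∀ p ∈ s, w p ∈ N := by
  classical
  refine g05a_aux (g05a_T S) (g05a_lam m n) (g05a_lam_inj m n) N ?_ s.card s rfl w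
    (fun p hp c => g05a_wsp S p _ (hw p hp) c) hsum
  rintro (i | l) v hv
  · exact ha i v hv
  · exact hb l v hv

theorem G05_comp (S : G0 m n M) (hS : S.Good) (N : Submodule ℂ M)
    (ha : ∀ i, ∀ v ∈ N, S.a i i v ∈ N) (hb : ∀ l, ∀ v ∈ N, S.b l l v ∈ N) :
    N = ⨆ α : Fin m → ℤ, ⨆ β : Fin n → ℤ, (N ⊓ S.Wsp α β) := by
  apply le_antisymm
  · intro v hv
    obtain ⟨s, w, hw, hvs⟩ := g05a_dec S hS v
    have h1 := g05a_mem S N ha hb s w (fun p _ => hw p) (hvs ▸ hv)
    rw [hvs]
    refine Submodule.sum_mem _ fun p hp => ?_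
    exact Submodule.mem_iSup_of_mem p.1 (Submodule.mem_iSup_of_mem p.2 ⟨h1 p hp, hw p⟩)
  · exact iSup_le fun α => iSup_le fun β => inf_le_left

end H95H
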