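import Pool.Agent.Lib.H95H.A10a
import Pool.Agent.Lib.H95H.G05a

namespace H95H

variable {m n k : ℕ} {M : Type} [AddCommGroup M] [Module ℂ M]
  {M' : Type} [AddCommGroup M'] [Module ℂ M']

/-!
# Chunk G05: good modules

`Good`: a positive definite hermitian form with `a i j`, `a j i` adjoint (and `b`), and the space is
spanned by integral weight vectors.
* `G05_comp`: in a good module, a subspace `N` stable under all `a i i`, `b l l` contains the weight
  components of its elements; in the form: `N` is the supremum of the `N ⊓ Wsp α β`. (Commuting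
  diagonalisable operators; e.g. write `v = ∑ v_j` with `v_j` in distinct weight spaces
  and apply polynomials in `a i i`, `b l l` which are `1` at one weight and `0` at the others:
  for two distinct weights some coordinate differs; Lagrange interpolation. Or
  `Module.End` eigenspace API one operator at a time.)
* `G05_res`: restrict the form; `G05_comp`.
* `G05_quo`: for finite-dimensional `M` the orthogonal complement of `N` is stable and maps
  isomorphically onto `M ⧸ N` (`A10_proj` in `A10a.lean` gives the orthogonal projection; it is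
  not imported here, import it if needed); transport the form. The images of weight vectors are
  weight vectors.
* `G05_vt`: the form `∑ h (u i) (u' i) + ∑ h (w l) (w' l)`; `f_i ⊗ v` has weight `(α + e_i, β)` and
  `g^l ⊗ v` has weight `(α, β - e_l)`.
* `G05_F`: `G05_vt` and `G05_res`.
* `G05_iso`: transport through a bijective homomorphism.
-/

section g05b
variable {E : Type*} [AddCommGroup E] [Module ℂ E] {h : E → E → ℂ}

theorem g05b_addR (hh : Herm h) (x y z : E) : h x (y + z) = h x y + h x z := by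
  rw [hh.symm, hh.add, map_add, ← hh.symm, ← hh.symm]

theorem g05b_smulR (hh : Herm h) (c : ℂ) (x y : E) : h x (c • y) = starRingEnd ℂ c * h x y := by
  rw [hh.symm, hh.smul, map_mul, ← hh.symm]

theorem g05b_zeroL (hh : Herm h) (x : E) : h 0 x = 0 := by
  have := hh.smul 0 0 x
  rwa [zero_smul, zero_mul] at this

theorem g05b_zeroR (hh : Herm h) (x : E) : h x 0 = 0 := by
  rw [hh.symm, g05b_zeroL hh, map_zero]

theorem g05b_negL (hh : Herm h) (x y : E) : h (-x) y = -h x y := by
  have := hh.smul (-1) x y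
  rw [neg_one_smul, neg_one_mul] at this
  exact this

theorem g05b_negR (hh : Herm h) (x y : E) : h x (-y) = -h x y := by
  rw [hh.symm, g05b_negL hh, map_neg, ← hh.symm]

theorem g05b_subR (hh : Herm h) (x y z : E) : h x (y - z) = h x y - h x z := by
  rw [sub_eq_add_neg, g05b_addR hh, g05b_negR hh, sub_eq_add_neg]

theorem g05b_sumL (hh : Herm h) {ι : Type*} (s : Finset ι) (f : ι → E) (y : E) :
    h (∑ i ∈ s, f i) y = ∑ i ∈ s, h (f i) y := by
  classical
  induction s using Finset.induction_on with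
  | empty => rw [Finset.sum_empty, Finset.sum_empty, g05b_zeroL hh]
  | insert a s ha ih => rw [Finset.sum_insert ha, Finset.sum_insert ha, hh.add, ih]

theorem g05b_self (hh : Herm h) (x : E) (hx : h x x = 0) : x = 0 := by
  by_contra hne
  have := hh.pos x hne
  rw [hx] at this
  simp at this

/-- pull back along an injective linear map -/
theorem g05b_pull {E' : Type*} [AddCommGroup E'] [Module ℂ E'] (hh : Herm h) (f : E' →ₗ[ℂ] E)
    (hf : ∀ x, f x = 0 → x = 0) : Herm (fun x y => h (f x) (f y)) where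
  add x y z := by
    show h (f (x + y)) (f z) = _
    rw [map_add, hh.add]
  smul c x y := by
    show h (f (c • x)) (f y) = _
    rw [map_smul, hh.smul]
  symm x y := hh.symm _ _
  pos x hx := hh.pos _ fun h0 => hx (hf x h0)

end g05b

theorem G05_res (S : GM m n M) (hS : S.toG0.Good) (N : Submodule ℂ M) (hN : S.Stab N) :
    (S.res N hN).toG0.Good := by
  obtain ⟨⟨h, hh, hA, hB⟩, htop⟩ := id hS
  refine ⟨⟨fun x y => h x.1 y.1, ?_, ?_, ?_⟩, ?_⟩
  · exact g05b_pull hh N.subtype fun x hx => Subtype.ext hx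
  · intro i j u v
    exact hA i j u.1 v.1
  · intro i j u v
    exact hB i j u.1 v.1
  · have h1 := G05_comp S.toG0 hS N (fun i v hv => hN.1.1 i i v hv) (fun l v hv => hN.1.2 l l v hv)
    apply Submodule.map_injective_of_injective N.injective_subtype
    rw [Submodule.map_top, Submodule.range_subtype, Submodule.map_iSup]
    simp only [Submodule.map_iSup]
    have h2 : ∀ (α : Fin m → ℤ) (β : Fin n → ℤ),
        Submodule.map N.subtype ((S.res N hN).toG0.Wsp α β) = N ⊓ S.toG0.Wsp α β := by
      intro α β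
      ext x
      constructor
      · rintro ⟨y, ⟨hy1, hy2⟩, rfl⟩
        exact ⟨y.2, fun i => congrArg Subtype.val (hy1 i), fun l => congrArg Subtype.val (hy2 l)⟩
      · rintro ⟨hx, hx1, hx2⟩
        exact ⟨⟨x, hx⟩, ⟨fun i => Subtype.ext (hx1 i), fun l => Subtype.ext (hx2 l)⟩, rfl⟩
    simp only [h2]
    exact h1.symm

theorem G05_quo [Module.Finite ℂ M] (S : GM m n M) (hS : S.toG0.Good) (N : Submodule ℂ M)
    (hN : S.Stab N) : (S.quo N hN).toG0.Good := by
  obtain ⟨⟨h, hh, hA, hB⟩, htop⟩ := id hS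
  obtain ⟨p, hp1, hp2⟩ := A10_proj h hh N
  -- `q = 1 - p`
  have hker : ∀ x ∈ N, x - p x = 0 := by
    intro x hx
    exact g05b_self hh _ (hp2 x _ (Submodule.sub_mem _ hx (hp1 x)))
  have huniq : ∀ x y, y ∈ N → (∀ w ∈ N, h w (x - y) = 0) → x - p x = x - y := by
    intro x y hy hxy
    have h1 : y - p x ∈ N := Submodule.sub_mem _ hy (hp1 x)
    have h2 : h (y - p x) (y - p x) = 0 := by
      have e : y - p x = (x - p x) - (x - y) := by abel
      have h3 : h (y - p x) ((x - p x) - (x - y)) = 0 := by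
        rw [g05b_subR hh, hp2 x _ h1, hxy _ h1, sub_zero]
      rw [← e] at h3
      exact h3
    have h3 := g05b_self hh _ h2
    rw [sub_eq_zero.1 h3]
  have hcomm : ∀ (T T' : M →ₗ[ℂ] M), (∀ u v, h (T u) v = h u (T' v)) → (∀ v ∈ N, T v ∈ N) →
      (∀ v ∈ N, T' v ∈ N) → ∀ x, T' x - p (T' x) = T' (x - p x) := by
    intro T T' hT hTN hTN' x
    rw [huniq (T' x) (T' (p x)) (hTN' _ (hp1 x)), map_sub]
    intro w hw
    rw [← map_sub, ← hT]
    exact hp2 x _ (hTN w hw)
  let q : M →ₗ[ℂ] M := LinearMap.id - p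
  have hq : ∀ x, q x = x - p x := fun x => rfl
  let q' : (M ⧸ N) →ₗ[ℂ] M := N.liftQ q (fun x hx => hker x hx)
  have hq' : ∀ x, q' (N.mkQ x) = x - p x := fun x => rfl
  have hinj : ∀ x, q' x = 0 → x = 0 := by
    intro x
    obtain ⟨x, rfl⟩ := N.mkQ_surjective x
    intro hx
    rw [hq'] at hx
    rw [sub_eq_zero.1 hx]
    exact (Submodule.Quotient.mk_eq_zero N).2 (hp1 x)
  have hcomm' : ∀ (T T' : M →ₗ[ℂ] M) (hTN : ∀ v ∈ N, T v ∈ N) (hTN' : ∀ v ∈ N, T' v ∈ N),
      (∀ u v, h (T u) v = h u (T' v)) → ∀ x, q' (N.mapQ N T' hTN' x) = T' (q' x) := by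
    intro T T' hTN hTN' hT x
    obtain ⟨x, rfl⟩ := N.mkQ_surjective x
    exact hcomm T T' hT hTN hTN' x
  refine ⟨⟨fun x y => h (q' x) (q' y), g05b_pull hh q' hinj, ?_, ?_⟩, ?_⟩
  · intro i j u v
    show h (q' (N.mapQ N (S.a i j) (hN.1.1 i j) u)) (q' v) =
      h (q' u) (q' (N.mapQ N (S.a j i) (hN.1.1 j i) v))
    rw [hcomm' (S.a j i) (S.a i j) (hN.1.1 j i) (hN.1.1 i j) (fun u v => hA j i u v),
      hcomm' (S.a i j) (S.a j i) (hN.1.1 i j) (hN.1.1 j i) (fun u v => hA i j u v), hA]
  · intro i j u v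
    show h (q' (N.mapQ N (S.b i j) (hN.1.2 i j) u)) (q' v) =
      h (q' u) (q' (N.mapQ N (S.b j i) (hN.1.2 j i) v))
    rw [hcomm' (S.b j i) (S.b i j) (hN.1.2 j i) (hN.1.2 i j) (fun u v => hB j i u v),
      hcomm' (S.b i j) (S.b j i) (hN.1.2 i j) (hN.1.2 j i) (fun u v => hB i j u v), hB]
  · rw [eq_top_iff]
    have h1 : Submodule.map N.mkQ ⊤ = ⊤ := by
      rw [Submodule.map_top, Submodule.range_mkQ]
    rw [← h1, ← htop, Submodule.map_iSup]
    simp only [Submodule.map_iSup]
    refine iSup_le fun α => iSup_le fun β => ?_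
    refine le_trans ?_ (le_iSup₂_of_le α β le_rfl)
    rintro x ⟨y, ⟨hy1, hy2⟩, rfl⟩
    refine ⟨fun i => ?_, fun l => ?_⟩
    · show N.mkQ (S.a i i y) = (α i : ℂ) • N.mkQ y
      rw [hy1 i, map_smul]
    · show N.mkQ (S.b l l y) = (β l : ℂ) • N.mkQ y
      rw [hy2 l, map_smul]

end H95H
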