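import Pool.Agent.Lib.H95H.G02b
import Pool.Agent.Lib.H95H.G05b

namespace H95H

variable {m n k : ℕ} {M : Type} [AddCommGroup M] [Module ℂ M]
  {M' : Type} [AddCommGroup M'] [Module ℂ M']

/-!
# Chunk G05: good modules

`Good`: a positive definite hermitian form with `a i j`, `a j i` adjoint (and `b`), and the space is
spanned by integral weight vectors.
* `G05_comp`: in a good module, a subspace `N` stable under all `a i i`, `b l l` contains the weight
  components of its elements; in the form: `N` is the supremum of the `N ⊓ Wsp α β`. (Commuting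
  diagonalisable operators; e.g. write `v = ∑ v_j` with `v_j` in distinct weight spaces
  and apply polynomials in `a i i`, `b l l` which are `1` at one weight and `0` at the others:
  for two distinct weights some coordinate differs; Lagrange interpolation. Or
  `Module.End` eigenspace API one operator at a time.)
* `G05_res`: restrict the form; `G05_comp`.
* `G05_quo`: for finite-dimensional `M` the orthogonal complement of `N` is stable and maps
  isomorphically onto `M ⧸ N` (`A10_proj` in `A10a.lean` gives the orthogonal projection; it is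
  not imported here, import it if needed); transport the form. The images of weight vectors are
  weight vectors.
* `G05_vt`: the form `∑ h (u i) (u' i) + ∑ h (w l) (w' l)`; `f_i ⊗ v` has weight `(α + e_i, β)` and
  `g^l ⊗ v` has weight `(α, β - e_l)`.
* `G05_F`: `G05_vt` and `G05_res`.
* `G05_iso`: transport through a bijective homomorphism.
-/

/-- `f_i ⊗ v` -/
def g05c_f (m n : ℕ) (i : Fin m) : M →ₗ[ℂ] ((Fin m → M) × (Fin n → M)) where
  toFun v := (Pi.single i v, 0)
  map_add' u v := by
    refine Prod.ext ?_ ?_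
    · exact Pi.single_add (f := fun _ : Fin m => M) i u v
    · simp
  map_smul' r v := by
    refine Prod.ext ?_ ?_
    · exact Pi.single_smul (f := fun _ : Fin m => M) i r v
    · simp

/-- `g^l ⊗ v` -/
def g05c_g (m n : ℕ) (l : Fin n) : M →ₗ[ℂ] ((Fin m → M) × (Fin n → M)) where
  toFun v := (0, Pi.single l v)
  map_add' u v := by
    refine Prod.ext ?_ ?_
    · simp
    · exact Pi.single_add (f := fun _ : Fin n => M) l u v
  map_smul' r v := by
    refine Prod.ext ?_ ?_
    · simp
    · exact Pi.single_smul (f := fun _ : Fin n => M) l r v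

theorem g05c_dec (z : (Fin m → M) × (Fin n → M)) :
    z = ∑ i, g05c_f m n i (z.1 i) + ∑ l, g05c_g m n l (z.2 l) := by
  refine Prod.ext ?_ ?_
  · rw [Prod.fst_add, Prod.fst_sum, Prod.fst_sum]
    show z.1 = ∑ i, Pi.single i (z.1 i) + ∑ l : Fin n, 0
    rw [Finset.sum_const_zero, add_zero]
    exact (Finset.univ_sum_single z.1).symm
  · rw [Prod.snd_add, Prod.snd_sum, Prod.snd_sum]
    show z.2 = ∑ i : Fin m, 0 + ∑ l, Pi.single l (z.2 l)
    rw [Finset.sum_const_zero, zero_add]
    exact (Finset.univ_sum_single z.2).symm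

theorem g05c_wf (S : GM m n M) (α : Fin m → ℤ) (β : Fin n → ℤ) (i : Fin m) (v : M)
    (hv : v ∈ S.toG0.Wsp α β) :
    g05c_f m n i v ∈ S.vt.toG0.Wsp (α + Pi.single i 1) β := by
  obtain ⟨h1, h2⟩ := hv
  refine ⟨fun j => ?_, fun l => ?_⟩
  · refine Prod.ext (funext fun p => ?_) (funext fun q => ?_)
    · show (if p = j then (Pi.single i v : Fin m → M) j else 0) + S.a j j ((Pi.single i v : Fin m → M) p) =
        (((α + Pi.single i 1 : Fin m → ℤ) j : ℤ) : ℂ) • (Pi.single i v : Fin m → M) p
      by_cases hp : p = i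
      · subst hp
        rw [Pi.single_eq_same, h1 j]
        by_cases hj : p = j
        · subst hj
          rw [if_pos rfl, Pi.single_eq_same, Pi.add_apply, Pi.single_eq_same]
          push_cast
          rw [add_smul, one_smul, add_comm]
        · rw [if_neg hj, zero_add, Pi.add_apply, Pi.single_eq_of_ne (Ne.symm hj), add_zero]
      · rw [Pi.single_eq_of_ne hp, map_zero, smul_zero, add_zero]
        by_cases hj : p = j
        · subst hj
          rw [if_pos rfl, Pi.single_eq_of_ne hp]
        · rw [if_neg hj]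
    · show S.a j j 0 = (((α + Pi.single i 1 : Fin m → ℤ) j : ℤ) : ℂ) • (0 : M)
      rw [map_zero, smul_zero]
  · refine Prod.ext (funext fun p => ?_) (funext fun q => ?_)
    · show S.b l l ((Pi.single i v : Fin m → M) p) = (β l : ℂ) • (Pi.single i v : Fin m → M) p
      by_cases hp : p = i
      · subst hp
        rw [Pi.single_eq_same, h2 l]
      · rw [Pi.single_eq_of_ne hp, map_zero, smul_zero]
    · show -(if q = l then (0 : M) else 0) + S.b l l 0 = (β l : ℂ) • (0 : M)
      rw [map_zero, smul_zero, ite_self, neg_zero, add_zero]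

theorem g05c_wg (S : GM m n M) (α : Fin m → ℤ) (β : Fin n → ℤ) (i : Fin n) (v : M)
    (hv : v ∈ S.toG0.Wsp α β) :
    g05c_g m n i v ∈ S.vt.toG0.Wsp α (β - Pi.single i 1) := by
  obtain ⟨h1, h2⟩ := hv
  refine ⟨fun j => ?_, fun j => ?_⟩
  · refine Prod.ext (funext fun p => ?_) (funext fun p => ?_)
    · show (if p = j then (0 : M) else 0) + S.a j j 0 = (α j : ℂ) • (0 : M)
      rw [map_zero, smul_zero, ite_self, add_zero]
    · show S.a j j ((Pi.single i v : Fin n → M) p) = (α j : ℂ) • (Pi.single i v : Fin n → M) p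
      by_cases hp : p = i
      · subst hp
        rw [Pi.single_eq_same, h1 j]
      · rw [Pi.single_eq_of_ne hp, map_zero, smul_zero]
  · refine Prod.ext (funext fun p => ?_) (funext fun p => ?_)
    · show S.b j j 0 = (((β - Pi.single i 1 : Fin n → ℤ) j : ℤ) : ℂ) • (0 : M)
      rw [map_zero, smul_zero]
    · show -(if p = j then (Pi.single i v : Fin n → M) j else 0) + S.b j j ((Pi.single i v : Fin n → M) p) =
        (((β - Pi.single i 1 : Fin n → ℤ) j : ℤ) : ℂ) • (Pi.single i v : Fin n → M) p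
      by_cases hp : p = i
      · subst hp
        rw [Pi.single_eq_same, h2 j]
        by_cases hj : p = j
        · subst hj
          rw [if_pos rfl, Pi.single_eq_same, Pi.sub_apply, Pi.single_eq_same]
          push_cast
          rw [sub_smul, one_smul]
          abel
        · rw [if_neg hj, neg_zero, zero_add, Pi.sub_apply, Pi.single_eq_of_ne (Ne.symm hj), sub_zero]
      · rw [Pi.single_eq_of_ne hp, map_zero, smul_zero, add_zero]
        by_cases hj : p = j
        · subst hj
          rw [if_pos rfl, Pi.single_eq_of_ne hp, neg_zero]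
        · rw [if_neg hj, neg_zero]

/-- the form on the tensor product -/
def g05c_h (m n : ℕ) (h : M → M → ℂ) (z z' : (Fin m → M) × (Fin n → M)) : ℂ :=
  ∑ i, h (z.1 i) (z'.1 i) + ∑ l, h (z.2 l) (z'.2 l)

theorem g05c_nonneg {h : M → M → ℂ} (hh : Herm h) (x : M) : 0 ≤ (h x x).re := by
  by_cases hx : x = 0
  · subst hx
    rw [g05b_zeroL hh]
    simp
  · exact (hh.pos x hx).le

theorem g05c_herm {h : M → M → ℂ} (hh : Herm h) : Herm (g05c_h m n h) where
  add x y z := by
    unfold g05c_h
    simp only [Prod.fst_add, Prod.snd_add, Pi.add_apply, hh.add, Finset.sum_add_distrib]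
    ring
  smul c x y := by
    unfold g05c_h
    simp only [Prod.smul_fst, Prod.smul_snd, Pi.smul_apply, hh.smul]
    rw [mul_add, Finset.mul_sum, Finset.mul_sum]
  symm x y := by
    unfold g05c_h
    rw [map_add, map_sum, map_sum]
    congr 1
    · exact Finset.sum_congr rfl fun i _ => hh.symm _ _
    · exact Finset.sum_congr rfl fun i _ => hh.symm _ _
  pos z hz := by
    unfold g05c_h
    rw [Complex.add_re, Complex.re_sum, Complex.re_sum]
    have h1 : 0 ≤ ∑ i, (h (z.1 i) (z.1 i)).re := Finset.sum_nonneg fun i _ => g05c_nonneg hh _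
    have h2 : 0 ≤ ∑ i, (h (z.2 i) (z.2 i)).re := Finset.sum_nonneg fun i _ => g05c_nonneg hh _
    by_contra hcon
    have h3 : ∑ i, (h (z.1 i) (z.1 i)).re = 0 := by linarith
    have h4 : ∑ i, (h (z.2 i) (z.2 i)).re = 0 := by linarith
    rw [Finset.sum_eq_zero_iff_of_nonneg fun i _ => g05c_nonneg hh _] at h3 h4
    apply hz
    refine Prod.ext (funext fun i => ?_) (funext fun l => ?_)
    · by_contra hne
      exact (hh.pos _ hne).ne' (h3 i (Finset.mem_univ i))
    · by_contra hne
      exact (hh.pos _ hne).ne' (h4 l (Finset.mem_univ l))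

theorem g05c_ite {h : M → M → ℂ} (hh : Herm h) {ι : Type*} [Fintype ι] [DecidableEq ι] (i : ι) (u : M)
    (v : ι → M) : ∑ p, h (if p = i then u else 0) (v p) = h u (v i) := by
  rw [Finset.sum_eq_single i]
  · rw [if_pos rfl]
  · intro p _ hp
    rw [if_neg hp, g05b_zeroL hh]
  · intro hi
    exact absurd (Finset.mem_univ i) hi

theorem g05c_iteR {h : M → M → ℂ} (hh : Herm h) {ι : Type*} [Fintype ι] [DecidableEq ι] (i : ι) (u : M)
    (v : ι → M) : ∑ p, h (v p) (if p = i then u else 0) = h (v i) u := by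
  rw [Finset.sum_eq_single i]
  · rw [if_pos rfl]
  · intro p _ hp
    rw [if_neg hp, g05b_zeroR hh]
  · intro hi
    exact absurd (Finset.mem_univ i) hi

theorem G05_vt (S : GM m n M) (hS : S.toG0.Good) : S.vt.toG0.Good := by
  obtain ⟨⟨h, hh, hA, hB⟩, htop⟩ := id hS
  refine ⟨⟨g05c_h m n h, g05c_herm hh, ?_, ?_⟩, ?_⟩
  · intro i j u v
    show ∑ p, h ((if p = i then u.1 j else 0) + S.a i j (u.1 p)) (v.1 p) +
        ∑ l, h (S.a i j (u.2 l)) (v.2 l) =
      ∑ p, h (u.1 p) ((if p = j then v.1 i else 0) + S.a j i (v.1 p)) +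
        ∑ l, h (u.2 l) (S.a j i (v.2 l))
    simp only [hh.add, g05b_addR hh, Finset.sum_add_distrib, hA]
    rw [g05c_ite hh, g05c_iteR hh]
  · intro i j u v
    show ∑ p, h (S.b i j (u.1 p)) (v.1 p) +
        ∑ l, h (-(if l = j then u.2 i else 0) + S.b i j (u.2 l)) (v.2 l) =
      ∑ p, h (u.1 p) (S.b j i (v.1 p)) +
        ∑ l, h (u.2 l) (-(if l = i then v.2 j else 0) + S.b j i (v.2 l))
    simp only [hh.add, g05b_addR hh, Finset.sum_add_distrib, hB, g05b_negL hh, g05b_negR hh,
      Finset.sum_neg_distrib]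
    rw [g05c_ite hh, g05c_iteR hh]
  · have hf : ∀ i v, g05c_f m n i v ∈ ⨆ α : Fin m → ℤ, ⨆ β : Fin n → ℤ, S.vt.toG0.Wsp α β := by
      intro i v
      have h1 : (⨆ α : Fin m → ℤ, ⨆ β : Fin n → ℤ, S.toG0.Wsp α β) ≤
          (⨆ α : Fin m → ℤ, ⨆ β : Fin n → ℤ, S.vt.toG0.Wsp α β).comap (g05c_f m n i) := by
        refine iSup_le fun α => iSup_le fun β => ?_
        intro w hw
        exact (le_iSup₂_of_le (f := fun (α : Fin m → ℤ) (β : Fin n → ℤ) => S.vt.toG0.Wsp α β)
          (α + Pi.single i 1) β le_rfl) (g05c_wf S α β i w hw)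
      rw [htop] at h1
      exact h1 Submodule.mem_top
    have hg : ∀ i v, g05c_g m n i v ∈ ⨆ α : Fin m → ℤ, ⨆ β : Fin n → ℤ, S.vt.toG0.Wsp α β := by
      intro i v
      have h1 : (⨆ α : Fin m → ℤ, ⨆ β : Fin n → ℤ, S.toG0.Wsp α β) ≤
          (⨆ α : Fin m → ℤ, ⨆ β : Fin n → ℤ, S.vt.toG0.Wsp α β).comap (g05c_g m n i) := by
        refine iSup_le fun α => iSup_le fun β => ?_
        intro w hw
        exact (le_iSup₂_of_le (f := fun (α : Fin m → ℤ) (β : Fin n → ℤ) => S.vt.toG0.Wsp α β)
          α (β - Pi.single i 1) le_rfl) (g05c_wg S α β i w hw)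
      rw [htop] at h1
      exact h1 Submodule.mem_top
    rw [eq_top_iff]
    intro z _
    rw [g05c_dec z]
    exact Submodule.add_mem _ (Submodule.sum_mem _ fun i _ => hf i _)
      (Submodule.sum_mem _ fun l _ => hg l _)

theorem G05_F (S : GM m n M) (hS : S.toG0.Good) (t : ℤ) : (S.F t).toG0.Good :=
  G05_res S.vt (G05_vt S hS) (S.Ft t) (G02_stab S t)

theorem G05_iso (S : GM m n M) (S' : GM m n M') (hS : S.toG0.Good) (e : M →ₗ[ℂ] M')
    (he : GHom S S' e) (hb : Function.Bijective e) : S'.toG0.Good := by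
  obtain ⟨⟨h, hh, hA, hB⟩, htop⟩ := id hS
  let E : M ≃ₗ[ℂ] M' := LinearEquiv.ofBijective e hb
  have hE : ∀ x, E x = e x := fun x => rfl
  have hEs : ∀ x, e (E.symm x) = x := fun x => E.apply_symm_apply x
  have hcomm : ∀ (T : M →ₗ[ℂ] M) (T' : M' →ₗ[ℂ] M'), (∀ v, e (T v) = T' (e v)) →
      ∀ x, E.symm (T' x) = T (E.symm x) := by
    intro T T' hT x
    rw [E.symm_apply_eq, hE, hT, hEs]
  refine ⟨⟨fun x y => h (E.symm x) (E.symm y), ?_, ?_, ?_⟩, ?_⟩
  · exact g05b_pull hh (E.symm : M' →ₗ[ℂ] M) fun x hx => by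
      have h1 : E.symm x = 0 := hx
      rw [← hEs x, h1, map_zero]
  · intro i j u v
    show h (E.symm (S'.a i j u)) (E.symm v) = h (E.symm u) (E.symm (S'.a j i v))
    rw [hcomm _ _ (he.1 i j), hcomm _ _ (he.1 j i), hA]
  · intro i j u v
    show h (E.symm (S'.b i j u)) (E.symm v) = h (E.symm u) (E.symm (S'.b j i v))
    rw [hcomm _ _ (he.2.1 i j), hcomm _ _ (he.2.1 j i), hB]
  · rw [eq_top_iff]
    intro x _
    have h1 : (⨆ α : Fin m → ℤ, ⨆ β : Fin n → ℤ, S.toG0.Wsp α β) ≤
        (⨆ α : Fin m → ℤ, ⨆ β : Fin n → ℤ, S'.toG0.Wsp α β).comap e := by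
      refine iSup_le fun α => iSup_le fun β => ?_
      rintro w ⟨hw1, hw2⟩
      refine (le_iSup₂_of_le (f := fun (α : Fin m → ℤ) (β : Fin n → ℤ) => S'.toG0.Wsp α β)
          α β le_rfl) ⟨fun i => ?_, fun l => ?_⟩
      · rw [← he.1, hw1, map_smul]
      · rw [← he.2.1, hw2, map_smul]
    rw [htop] at h1
    have h2 := h1 (Submodule.mem_top : E.symm x ∈ ⊤)
    rw [Submodule.mem_comap, hEs] at h2
    exact h2

end H95H
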