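import Pool.Agent.Lib.H95H.G03b
import Pool.Agent.Lib.H95H.G05c

namespace H95H

variable {m n k : ℕ}

/-- functions on finite-dimensional modules which are additive in short exact sequences -/
def AddFn (f : ∀ (M : Type) [AddCommGroup M] [Module ℂ M], GM m n M → ℕ) : Prop :=
  ∀ (M₁ M₂ M₃ : Type) [AddCommGroup M₁] [Module ℂ M₁] [AddCommGroup M₂] [Module ℂ M₂]
    [AddCommGroup M₃] [Module ℂ M₃] (S₁ : GM m n M₁) (S₂ : GM m n M₂) (S₃ : GM m n M₃)
    (i : M₁ →ₗ[ℂ] M₂) (π : M₂ →ₗ[ℂ] M₃),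
    Module.Finite ℂ M₂ → S₂.toG0.Good → GHom S₁ S₂ i → GHom S₂ S₃ π → Function.Injective i →
    Function.Surjective π → LinearMap.range i = LinearMap.ker π → f M₂ S₂ = f M₁ S₁ + f M₃ S₃

/-!
# Chunk G04: additive functions

* `G04_F`: `G03_Fhom`, `G03_inj`, `G03_surj`, `G03_exact`, `G03_finite`, `G05_F`.
* `G04_W`: the weight spaces form an exact functor on good modules: for a short exact sequence the
  sequence of weight spaces is exact; surjectivity: lift `v₃ ∈ Wsp` to `v₂` and take its component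
  of weight `(α, β)` (`G05_comp`: `v₂` is a finite sum of weight vectors; the images of the
  components of other weights sum to zero together with ..; weight vectors of different weights
  are independent). Then count dimensions (rank-nullity).
* `G04_zero`: for a trivial module (`Subsingleton M`) use the exact sequence `0 → M → M → M → 0` with
  zero maps: `f = f + f`.
* `G04_iso`: for a bijective homomorphism use the sequence `M → M' → (zero module)`; the zero
  module is `S'.quo ⊤`.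
* `G04_sub`: sequence `N → M → M ⧸ N`.
* `G04_mono`: consequences: `f (res N) ≤ f S`; and for `N ≤ N'`, `f (res N) ≤ f (res N')`; and
  `f (res (N ⊔ N')) ≤ f (res N) + f (res N')` (`N'/(N ⊓ N') ≃ (N ⊔ N')/N`).
-/

theorem G04_F (f : ∀ (M : Type) [AddCommGroup M] [Module ℂ M], GM m n M → ℕ) (hf : AddFn f) (t : ℤ) :
    AddFn (fun M _ _ (S : GM m n M) => f ↥(S.Ft t) (S.F t)) := by
  intro M₁ M₂ M₃ _ _ _ _ _ _ S₁ S₂ S₃ i π hfin hgood hi hπ hinj hsurj hex
  exact hf _ _ _ (S₁.F t) (S₂.F t) (S₃.F t) (Fmap hi t) (Fmap hπ t) (G03_finite S₂ t) (G05_F S₂ hgood t)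
    (G03_Fhom hi t) (G03_Fhom hπ t) (G03_inj hi t hinj) (G03_surj hπ t hsurj) (G03_exact hi hπ t hinj hex)

theorem G04_zero (f : ∀ (M : Type) [AddCommGroup M] [Module ℂ M], GM m n M → ℕ) (hf : AddFn f)
    (M : Type) [AddCommGroup M] [Module ℂ M] (S : GM m n M) (h : Subsingleton M) : f M S = 0 := by
  have hgood : S.toG0.Good := by
    refine ⟨⟨fun _ _ => 0, ⟨fun _ _ _ => (add_zero _).symm, fun _ _ _ => (mul_zero _).symm,
      fun _ _ => (map_zero _).symm, fun x hx => absurd (Subsingleton.elim x 0) hx⟩,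
      fun _ _ _ _ => rfl, fun _ _ _ _ => rfl⟩, ?_⟩
    exact Subsingleton.elim _ _
  have h1 := hf M M M S S S 0 0 inferInstance hgood
    ⟨fun _ _ _ => Subsingleton.elim _ _, fun _ _ _ => Subsingleton.elim _ _,
      fun _ _ _ => Subsingleton.elim _ _, fun _ _ _ => Subsingleton.elim _ _⟩
    ⟨fun _ _ _ => Subsingleton.elim _ _, fun _ _ _ => Subsingleton.elim _ _,
      fun _ _ _ => Subsingleton.elim _ _, fun _ _ _ => Subsingleton.elim _ _⟩
    (fun _ _ _ => Subsingleton.elim _ _) (fun x => ⟨x, Subsingleton.elim _ _⟩) (Subsingleton.elim _ _)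
  omega

theorem g04a_top {M : Type} [AddCommGroup M] [Module ℂ M] (S : GM m n M) : S.Stab ⊤ :=
  ⟨⟨fun _ _ _ _ => Submodule.mem_top, fun _ _ _ _ => Submodule.mem_top⟩,
    fun _ _ _ _ => Submodule.mem_top, fun _ _ _ _ => Submodule.mem_top⟩

theorem g04a_mkQ {M : Type} [AddCommGroup M] [Module ℂ M] (S : GM m n M) (N : Submodule ℂ M) (hN : S.Stab N) :
    GHom S (S.quo N hN) N.mkQ :=
  ⟨fun _ _ _ => rfl, fun _ _ _ => rfl, fun _ _ _ => rfl, fun _ _ _ => rfl⟩

theorem g04a_sub {M : Type} [AddCommGroup M] [Module ℂ M] (S : GM m n M) (N : Submodule ℂ M) (hN : S.Stab N) :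
    GHom (S.res N hN) S N.subtype :=
  ⟨fun _ _ _ => rfl, fun _ _ _ => rfl, fun _ _ _ => rfl, fun _ _ _ => rfl⟩

theorem G04_iso (f : ∀ (M : Type) [AddCommGroup M] [Module ℂ M], GM m n M → ℕ) (hf : AddFn f)
    (M M' : Type) [AddCommGroup M] [Module ℂ M] [AddCommGroup M'] [Module ℂ M']
    (S : GM m n M) (S' : GM m n M') (e : M →ₗ[ℂ] M') (he : GHom S S' e)
    (hb : Function.Bijective e) (hfin : Module.Finite ℂ M') (hg : S'.toG0.Good) :
    f M S = f M' S' := by
  have hsub : Subsingleton (M' ⧸ (⊤ : Submodule ℂ M')) := by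
    refine ⟨fun a b => ?_⟩
    obtain ⟨a, rfl⟩ := Submodule.mkQ_surjective _ a
    obtain ⟨b, rfl⟩ := Submodule.mkQ_surjective _ b
    exact (Submodule.Quotient.eq _).2 Submodule.mem_top
  have h0 := G04_zero f hf (M' ⧸ (⊤ : Submodule ℂ M')) (S'.quo ⊤ (g04a_top S')) hsub
  have h1 := hf M M' (M' ⧸ (⊤ : Submodule ℂ M')) S S' (S'.quo ⊤ (g04a_top S')) e (Submodule.mkQ ⊤) hfin hg he
    (g04a_mkQ S' ⊤ _) hb.1 (Submodule.mkQ_surjective _)
    (by rw [LinearMap.range_eq_top.2 hb.2, Submodule.ker_mkQ])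
  omega

theorem G04_sub (f : ∀ (M : Type) [AddCommGroup M] [Module ℂ M], GM m n M → ℕ) (hf : AddFn f)
    (M : Type) [AddCommGroup M] [Module ℂ M] (S : GM m n M) (hfin : Module.Finite ℂ M)
    (hg : S.toG0.Good) (N : Submodule ℂ M) (hN : S.Stab N) :
    f M S = f ↥N (S.res N hN) + f (M ⧸ N) (S.quo N hN) := by
  exact hf ↥N M (M ⧸ N) (S.res N hN) S (S.quo N hN) N.subtype N.mkQ hfin hg (g04a_sub S N hN) (g04a_mkQ S N hN)
    Subtype.val_injective (Submodule.mkQ_surjective _) (by rw [Submodule.range_subtype, Submodule.ker_mkQ])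

end H95H
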