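import Pool.Agent.Lib.H95H.G04a

namespace H95H

variable {m n k : ℕ}

/-!
# Chunk G04: additive functions

* `G04_F`: `G03_Fhom`, `G03_inj`, `G03_surj`, `G03_exact`, `G03_finite`, `G05_F`.
* `G04_W`: the weight spaces form an exact functor on good modules: for a short exact sequence the
  sequence of weight spaces is exact; surjectivity: lift `v₃ ∈ Wsp` to `v₂` and take its component
  of weight `(α, β)` (`G05_comp`: `v₂` is a finite sum of weight vectors; the images of the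
  components of other weights sum to zero together with ..; weight vectors of different weights
  are independent). Then count dimensions (rank-nullity).
* `G04_zero`: for a trivial module (`Subsingleton M`) use the exact sequence `0 → M → M → M → 0` with
  zero maps: `f = f + f`.
* `G04_iso`: for a bijective homomorphism use the sequence `M → M' → (zero module)`; the zero
  module is `S'.quo ⊤`.
* `G04_sub`: sequence `N → M → M ⧸ N`.
* `G04_mono`: consequences: `f (res N) ≤ f S`; and for `N ≤ N'`, `f (res N) ≤ f (res N')`; and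
  `f (res (N ⊔ N')) ≤ f (res N) + f (res N')` (`N'/(N ⊓ N') ≃ (N ⊔ N')/N`).
-/

theorem g04b_map {M₁ M₂ : Type} [AddCommGroup M₁] [Module ℂ M₁] [AddCommGroup M₂] [Module ℂ M₂]
    {S₁ : GM m n M₁} {S₂ : GM m n M₂} {f : M₁ →ₗ[ℂ] M₂} (hf : GHom S₁ S₂ f)
    (α : Fin m → ℤ) (β : Fin n → ℤ) (v : M₁) (hv : v ∈ S₁.toG0.Wsp α β) :
    f v ∈ S₂.toG0.Wsp α β := by
  refine ⟨fun i => ?_, fun l => ?_⟩
  · rw [← hf.1 i i v, hv.1 i, map_smul]
  · rw [← hf.2.1 l l v, hv.2 l, map_smul]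

theorem g04b_comap {M₁ M₂ : Type} [AddCommGroup M₁] [Module ℂ M₁] [AddCommGroup M₂] [Module ℂ M₂]
    {S₁ : GM m n M₁} {S₂ : GM m n M₂} {f : M₁ →ₗ[ℂ] M₂} (hf : GHom S₁ S₂ f)
    (hi : Function.Injective f) (α : Fin m → ℤ) (β : Fin n → ℤ) (v : M₁)
    (hv : f v ∈ S₂.toG0.Wsp α β) : v ∈ S₁.toG0.Wsp α β := by
  refine ⟨fun i => hi ?_, fun l => hi ?_⟩
  · rw [hf.1 i i v, hv.1 i, map_smul]
  · rw [hf.2.1 l l v, hv.2 l, map_smul]

theorem g04b_surj {M₂ M₃ : Type} [AddCommGroup M₂] [Module ℂ M₂] [AddCommGroup M₃] [Module ℂ M₃]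
    {S₂ : GM m n M₂} {S₃ : GM m n M₃} {f : M₂ →ₗ[ℂ] M₃} (hf : GHom S₂ S₃ f)
    (hg : S₂.toG0.Good) (hs : Function.Surjective f) (α : Fin m → ℤ) (β : Fin n → ℤ) (v : M₃)
    (hv : v ∈ S₃.toG0.Wsp α β) : ∃ u ∈ S₂.toG0.Wsp α β, f u = v := by
  classical
  obtain ⟨u, rfl⟩ := hs v
  obtain ⟨s, w, hw, hu⟩ := g05a_dec S₂.toG0 hg u
  set p₀ : (Fin m → ℤ) × (Fin n → ℤ) := (α, β) with hp₀
  -- the component of weight `(α, β)`
  set w' : (Fin m → ℤ) × (Fin n → ℤ) → M₂ := fun p => if p ∈ s then w p else 0 with hw'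
  have hw'2 : ∀ p, w' p ∈ S₂.toG0.Wsp p.1 p.2 := by
    intro p
    by_cases h : p ∈ s
    · simp only [hw', h, if_true]
      exact hw p
    · simp only [hw', h, if_false]
      exact Submodule.zero_mem _
  have hsum : u = ∑ p ∈ insert p₀ s, w' p := by
    rw [hu]
    have h1 : ∑ p ∈ insert p₀ s, w' p = ∑ p ∈ s, w' p := by
      refine (Finset.sum_subset (Finset.subset_insert _ _) fun p _ hp => ?_).symm
      simp only [hw', hp, if_false]
    rw [h1]
    refine Finset.sum_congr rfl fun p hp => ?_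
    simp only [hw', hp, if_true]
  refine ⟨w' p₀, hw'2 p₀, ?_⟩
  have h2 : ∑ p ∈ insert p₀ s, (f (w' p) - if p = p₀ then f u else 0) ∈ (⊥ : Submodule ℂ M₃) := by
    rw [Finset.sum_sub_distrib, Finset.sum_ite_eq' (insert p₀ s) p₀, if_pos (Finset.mem_insert_self _ _),
      ← map_sum, ← hsum, sub_self]
    exact Submodule.zero_mem _
  have h3 := g05a_mem S₃.toG0 ⊥ (fun i v hv => by
      rw [Submodule.mem_bot] at hv ⊢; rw [hv, map_zero]) (fun l v hv => by
      rw [Submodule.mem_bot] at hv ⊢; rw [hv, map_zero]) (insert p₀ s)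
    (fun p => f (w' p) - if p = p₀ then f u else 0) (fun p _ => by
      by_cases h : p = p₀
      · subst h
        simp only [if_true]
        exact Submodule.sub_mem _ (g04b_map hf _ _ _ (hw'2 _)) hv
      · simp only [h, if_false, sub_zero]
        exact g04b_map hf _ _ _ (hw'2 _)) h2 p₀ (Finset.mem_insert_self _ _)
  rw [Submodule.mem_bot] at h3
  simp only [if_true] at h3
  exact sub_eq_zero.1 h3

theorem G04_W (α : Fin m → ℤ) (β : Fin n → ℤ) :
    AddFn (fun M _ _ (S : GM m n M) => Module.finrank ℂ ↥(S.toG0.Wsp α β)) := by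
  intro M₁ M₂ M₃ _ _ _ _ _ _ S₁ S₂ S₃ i π hfin hg hi hπ hinj hsurj hex
  let I : ↥(S₁.toG0.Wsp α β) →ₗ[ℂ] ↥(S₂.toG0.Wsp α β) :=
    i.restrict (g04b_map hi α β)
  let P : ↥(S₂.toG0.Wsp α β) →ₗ[ℂ] ↥(S₃.toG0.Wsp α β) :=
    π.restrict (g04b_map hπ α β)
  have hI : Function.Injective I := by
    intro u v huv
    apply Subtype.ext
    apply hinj
    exact congrArg Subtype.val huv
  have hP : Function.Surjective P := by
    rintro ⟨v, hv⟩
    obtain ⟨u, hu, huv⟩ := g04b_surj hπ hg hsurj α β v hv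
    exact ⟨⟨u, hu⟩, Subtype.ext huv⟩
  have hIP : LinearMap.range I = LinearMap.ker P := by
    ext ⟨v, hv⟩
    constructor
    · rintro ⟨u, hu⟩
      have h1 : i u.1 = v := congrArg Subtype.val hu
      have h2 : i u.1 ∈ LinearMap.ker π := hex ▸ ⟨u.1, rfl⟩
      rw [LinearMap.mem_ker] at h2 ⊢
      apply Subtype.ext
      show π v = 0
      rw [← h1]
      exact h2
    · intro h
      have h1 : π v = 0 := congrArg Subtype.val h
      have h2 : v ∈ LinearMap.range i := by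
        rw [hex]
        exact h1
      obtain ⟨u, hu⟩ := h2
      exact ⟨⟨u, g04b_comap hi hinj α β u (by rw [hu]; exact hv)⟩, Subtype.ext hu⟩
  haveI : Module.Finite ℂ ↥(S₂.toG0.Wsp α β) := inferInstance
  have h1 := LinearMap.finrank_range_add_finrank_ker P
  have h2 : Module.finrank ℂ ↥(LinearMap.range P) = Module.finrank ℂ ↥(S₃.toG0.Wsp α β) := by
    rw [LinearMap.range_eq_top.2 hP]
    exact finrank_top _ _
  have h3 : Module.finrank ℂ ↥(LinearMap.ker P) = Module.finrank ℂ ↥(S₁.toG0.Wsp α β) := by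
    rw [← hIP]
    exact LinearMap.finrank_range_of_inj hI
  show Module.finrank ℂ ↥(S₂.toG0.Wsp α β) =
    Module.finrank ℂ ↥(S₁.toG0.Wsp α β) + Module.finrank ℂ ↥(S₃.toG0.Wsp α β)
  rw [← h1, h2, h3, add_comm]

end H95H
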