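import Pool.Agent.Lib.H95H.G04a

namespace H95H

variable {m n k : ℕ}

/-!
# Chunk G04: additive functions

* `G04_F`: `G03_Fhom`, `G03_inj`, `G03_surj`, `G03_exact`, `G03_finite`, `G05_F`.
* `G04_W`: the weight spaces form an exact functor on good modules: for a short exact sequence the
  sequence of weight spaces is exact; surjectivity: lift `v₃ ∈ Wsp` to `v₂` and take its component
  of weight `(α, β)` (`G05_comp`: `v₂` is a finite sum of weight vectors; the images of the
  components of other weights sum to zero together with ..; weight vectors of different weights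
  are independent). Then count dimensions (rank-nullity).
* `G04_zero`: for a trivial module (`Subsingleton M`) use the exact sequence `0 → M → M → M → 0` with
  zero maps: `f = f + f`.
* `G04_iso`: for a bijective homomorphism use the sequence `M → M' → (zero module)`; the zero
  module is `S'.quo ⊤`.
* `G04_sub`: sequence `N → M → M ⧸ N`.
* `G04_mono`: consequences: `f (res N) ≤ f S`; and for `N ≤ N'`, `f (res N) ≤ f (res N')`; and
  `f (res (N ⊔ N')) ≤ f (res N) + f (res N')` (`N'/(N ⊓ N') ≃ (N ⊔ N')/N`).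
-/

theorem g04c_range {M M' : Type} [AddCommGroup M] [Module ℂ M] [AddCommGroup M'] [Module ℂ M'] {S : GM m n M}
    {S' : GM m n M'} {i : M →ₗ[ℂ] M'} (hi : GHom S S' i) : S'.Stab (LinearMap.range i) := by
  obtain ⟨ha, hb, hx, hy⟩ := hi
  refine ⟨⟨?_, ?_⟩, ?_, ?_⟩
  · rintro a b _ ⟨v, rfl⟩
    exact ⟨S.a a b v, ha a b v⟩
  · rintro a b _ ⟨v, rfl⟩
    exact ⟨S.b a b v, hb a b v⟩
  · rintro a b _ ⟨v, rfl⟩
    exact ⟨S.x a b v, hx a b v⟩
  · rintro a b _ ⟨v, rfl⟩
    exact ⟨S.y a b v, hy a b v⟩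

theorem g04c_ker {M M' : Type} [AddCommGroup M] [Module ℂ M] [AddCommGroup M'] [Module ℂ M'] {S : GM m n M}
    {S' : GM m n M'} {i : M →ₗ[ℂ] M'} (hi : GHom S S' i) : S.Stab (LinearMap.ker i) := by
  obtain ⟨ha, hb, hx, hy⟩ := hi
  refine ⟨⟨?_, ?_⟩, ?_, ?_⟩
  · intro a b v hv
    rw [LinearMap.mem_ker] at hv ⊢
    rw [ha, hv, map_zero]
  · intro a b v hv
    rw [LinearMap.mem_ker] at hv ⊢
    rw [hb, hv, map_zero]
  · intro a b v hv
    rw [LinearMap.mem_ker] at hv ⊢
    rw [hx, hv, map_zero]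
  · intro a b v hv
    rw [LinearMap.mem_ker] at hv ⊢
    rw [hy, hv, map_zero]

theorem g04c_surj (f : ∀ (M : Type) [AddCommGroup M] [Module ℂ M], GM m n M → ℕ) (hf : AddFn f)
    {M M' : Type} [AddCommGroup M] [Module ℂ M] [AddCommGroup M'] [Module ℂ M'] {S : GM m n M}
    {S' : GM m n M'} {π : M →ₗ[ℂ] M'} (hπ : GHom S S' π) (hfin : Module.Finite ℂ M) (hg : S.toG0.Good)
    (hs : Function.Surjective π) : f M' S' ≤ f M S := by
  have h1 := hf _ M M' (S.res _ (g04c_ker hπ)) S S' (LinearMap.ker π).subtype π hfin hg (g04a_sub S _ _) hπ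
    Subtype.val_injective hs (by rw [Submodule.range_subtype])
  omega

theorem g04c_inj (f : ∀ (M : Type) [AddCommGroup M] [Module ℂ M], GM m n M → ℕ) (hf : AddFn f)
    {M M' : Type} [AddCommGroup M] [Module ℂ M] [AddCommGroup M'] [Module ℂ M'] {S : GM m n M}
    {S' : GM m n M'} {i : M →ₗ[ℂ] M'} (hi : GHom S S' i) (hfin : Module.Finite ℂ M') (hg : S'.toG0.Good)
    (hs : Function.Injective i) :
    f M' S' = f M S + f (M' ⧸ LinearMap.range i) (S'.quo (LinearMap.range i) (g04c_range hi)) :=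
  hf M M' _ S S' (S'.quo (LinearMap.range i) (g04c_range hi)) i (LinearMap.range i).mkQ hfin hg hi
    (g04a_mkQ S' _ _) hs (Submodule.mkQ_surjective _) (by rw [Submodule.ker_mkQ])

theorem g04c_incl {M : Type} [AddCommGroup M] [Module ℂ M] (S : GM m n M) {N N' : Submodule ℂ M} (hN : S.Stab N)
    (hN' : S.Stab N') (h : N ≤ N') : GHom (S.res N hN) (S.res N' hN') (Submodule.inclusion h) :=
  ⟨fun _ _ _ => rfl, fun _ _ _ => rfl, fun _ _ _ => rfl, fun _ _ _ => rfl⟩

theorem G04_sup (f : ∀ (M : Type) [AddCommGroup M] [Module ℂ M], GM m n M → ℕ) (hf : AddFn f)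
    (M : Type) [AddCommGroup M] [Module ℂ M] (S : GM m n M) (hfin : Module.Finite ℂ M)
    (hg : S.toG0.Good) (N N' : Submodule ℂ M) (hN : S.Stab N) (hN' : S.Stab N')
    (hNN : S.Stab (N ⊔ N')) :
    f ↥(N ⊔ N') (S.res _ hNN) ≤ f ↥N (S.res N hN) + f ↥N' (S.res N' hN') := by
  have hfs : Module.Finite ℂ ↥(N ⊔ N') := inferInstance
  have hgs : (S.res _ hNN).toG0.Good := G05_res S hg _ hNN
  have hfN' : Module.Finite ℂ ↥N' := inferInstance
  have hgN' : (S.res N' hN').toG0.Good := G05_res S hg _ hN'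
  have i1 := g04c_incl S hN hNN (le_sup_left : N ≤ N ⊔ N')
  have i2 := g04c_incl S hN' hNN (le_sup_right : N' ≤ N ⊔ N')
  have h1 := g04c_inj f hf i1 hfs hgs (Submodule.inclusion_injective _)
  have h2 : f _ ((S.res _ hNN).quo (LinearMap.range (Submodule.inclusion (le_sup_left : N ≤ N ⊔ N')))
      (g04c_range i1)) ≤ f ↥N' (S.res N' hN') := by
    refine g04c_surj f hf (π := (Submodule.mkQ _) ∘ₗ Submodule.inclusion (le_sup_right : N' ≤ N ⊔ N')) ?_ hfN' hgN' ?_
    · exact ⟨fun _ _ _ => rfl, fun _ _ _ => rfl, fun _ _ _ => rfl, fun _ _ _ => rfl⟩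
    · intro q
      obtain ⟨x, rfl⟩ := Submodule.mkQ_surjective _ q
      obtain ⟨u, hu, w, hw, huw⟩ := Submodule.mem_sup.1 x.2
      refine ⟨⟨w, hw⟩, ?_⟩
      show Submodule.Quotient.mk _ = Submodule.Quotient.mk _
      rw [Submodule.Quotient.eq]
      refine ⟨⟨-u, neg_mem hu⟩, ?_⟩
      apply Subtype.ext
      show -u = w - x.1
      rw [← huw]
      abel
  omega

theorem G04_mono (f : ∀ (M : Type) [AddCommGroup M] [Module ℂ M], GM m n M → ℕ) (hf : AddFn f)
    (M : Type) [AddCommGroup M] [Module ℂ M] (S : GM m n M) (hfin : Module.Finite ℂ M)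
    (hg : S.toG0.Good) (N N' : Submodule ℂ M) (hN : S.Stab N) (hN' : S.Stab N') (h : N ≤ N') :
    f ↥N (S.res N hN) ≤ f ↥N' (S.res N' hN') := by
  have hfN' : Module.Finite ℂ ↥N' := inferInstance
  have h1 := g04c_inj f hf (g04c_incl S hN hN' h) hfN' (G05_res S hg _ hN') (Submodule.inclusion_injective _)
  omega

end H95H
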