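import Pool.Agent.Lib.H95H.G00

namespace H95H

variable {m n k : ℕ} {M : Type} [AddCommGroup M] [Module ℂ M]

/-!
# Chunk G06: highest weight vectors in good modules

* `G06_hw`: let `N ≠ ⊥` be a finite-dimensional subspace stable under the even part. By `G05_comp`
  it contains nonzero weight vectors; as `N` is finite-dimensional only finitely many weights
  `(α, β)` occur (weight spaces are independent). Choose one with
  `∑ (m - i) α i + ∑ (n - l) β l` maximal. Then `a i j v` (`i < j`) has weight
  `(α + e_i - e_j, β)` of bigger value, so it is `0`; the same for `b`.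
* `G06_wt`: `a i j` maps `Wsp α β` to `Wsp (α + e_i - e_j) β` (from the relation `aa`).
* `G06_dom`: for a nonzero highest weight vector of a good module and `i < j`:
  `h (a j i v) (a j i v) = h v (a i j (a j i v)) = h v ((a i i - a j j) v) = (α i - α j) h v v`,
  and this is `≥ 0`, so `α j ≤ α i`. The same for `β`.
* `G06_perp`: in a good module, for a stable finite-dimensional `N` there is a stable complement
  inside any stable finite-dimensional `N' ≥ N`: `N' = N ⊔ N''`, `N ⊓ N'' = ⊥`
  (orthogonal complement for the hermitian form).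
-/

theorem G06_wtA (S : G0 m n M) (α : Fin m → ℤ) (β : Fin n → ℤ) (i j : Fin m) (v : M)
    (hv : v ∈ S.Wsp α β) : S.a i j v ∈ S.Wsp (α + Pi.single i 1 - Pi.single j 1) β := by
  refine ⟨fun p => ?_, fun l => ?_⟩
  · have h1 := S.aa p p i j v
    rw [hv.1 p, map_smul] at h1
    have h2 : S.a p p (S.a i j v) = (α p : ℂ) • S.a i j v +
        ((if p = i then S.a p j v else 0) - (if j = p then S.a i p v else 0)) := by
      rw [← h1]
      abel
    rw [h2]
    simp only [Pi.sub_apply, Pi.add_apply, Pi.single_apply]
    by_cases e1 : p = i <;> by_cases e2 : p = j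
    · subst e1
      subst e2
      simp
    · have e3 : ¬ j = p := fun h => e2 h.symm
      subst e1
      simp [e2, e3, add_smul]
    · subst e2
      simp [e1, sub_smul]
      abel
    · have e3 : ¬ j = p := fun h => e2 h.symm
      simp [e1, e2, e3]
  · rw [← S.ab i j l l v, hv.2 l, map_smul]

theorem G06_wtB (S : G0 m n M) (α : Fin m → ℤ) (β : Fin n → ℤ) (i j : Fin n) (v : M)
    (hv : v ∈ S.Wsp α β) : S.b i j v ∈ S.Wsp α (β + Pi.single i 1 - Pi.single j 1) := by
  refine ⟨fun p => ?_, fun p => ?_⟩
  · rw [S.ab p p i j v, hv.1 p, map_smul]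
  · have h1 := S.bb p p i j v
    rw [hv.2 p, map_smul] at h1
    have h2 : S.b p p (S.b i j v) = (β p : ℂ) • S.b i j v +
        ((if p = i then S.b p j v else 0) - (if j = p then S.b i p v else 0)) := by
      rw [← h1]
      abel
    rw [h2]
    simp only [Pi.sub_apply, Pi.add_apply, Pi.single_apply]
    by_cases e1 : p = i <;> by_cases e2 : p = j
    · subst e1
      subst e2
      simp
    · have e3 : ¬ j = p := fun h => e2 h.symm
      subst e1
      simp [e2, e3, add_smul]
    · subst e2
      simp [e1, sub_smul]
      abel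
    · have e3 : ¬ j = p := fun h => e2 h.symm
      simp [e1, e2, e3]

/-- Weight spaces of different weights are independent. -/
theorem G06_wt_ind (S : G0 m n M) (α α' : Fin m → ℤ) (β β' : Fin n → ℤ) (v : M)
    (h : v ∈ S.Wsp α β) (h' : v ∈ S.Wsp α' β') (hne : v ≠ 0) : α = α' ∧ β = β' := by
  constructor
  · funext i
    have h1 : ((α i : ℂ) - α' i) • v = 0 := by
      rw [sub_smul, ← h.1 i, ← h'.1 i, sub_self]
    have h2 := (smul_eq_zero.1 h1).resolve_right hne
    exact_mod_cast sub_eq_zero.1 h2
  · funext i
    have h1 : ((β i : ℂ) - β' i) • v = 0 := by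
      rw [sub_smul, ← h.2 i, ← h'.2 i, sub_self]
    have h2 := (smul_eq_zero.1 h1).resolve_right hne
    exact_mod_cast sub_eq_zero.1 h2

end H95H
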