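import Pool.Agent.Lib.H95H.G05a
import Pool.Agent.Lib.H95H.G06a

namespace H95H

variable {m n k : ℕ} {M : Type} [AddCommGroup M] [Module ℂ M]

/-!
# Chunk G06: highest weight vectors in good modules

* `G06_hw`: let `N ≠ ⊥` be a finite-dimensional subspace stable under the even part. By `G05_comp`
  it contains nonzero weight vectors; as `N` is finite-dimensional only finitely many weights
  `(α, β)` occur (weight spaces are independent). Choose one with
  `∑ (m - i) α i + ∑ (n - l) β l` maximal. Then `a i j v` (`i < j`) has weight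
  `(α + e_i - e_j, β)` of bigger value, so it is `0`; the same for `b`.
* `G06_wt`: `a i j` maps `Wsp α β` to `Wsp (α + e_i - e_j) β` (from the relation `aa`).
* `G06_dom`: for a nonzero highest weight vector of a good module and `i < j`:
  `h (a j i v) (a j i v) = h v (a i j (a j i v)) = h v ((a i i - a j j) v) = (α i - α j) h v v`,
  and this is `≥ 0`, so `α j ≤ α i`. The same for `β`.
* `G06_perp`: in a good module, for a stable finite-dimensional `N` there is a stable complement
  inside any stable finite-dimensional `N' ≥ N`: `N' = N ⊔ N''`, `N ⊓ N'' = ⊥`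
  (orthogonal complement for the hermitian form).
-/

/-- the height of a weight -/
def g06b_f (m n : ℕ) (α : Fin m → ℤ) (β : Fin n → ℤ) : ℤ :=
  ∑ i, ((m : ℤ) - i.1) * α i + ∑ l, ((n : ℤ) - l.1) * β l

theorem g06b_fA (α : Fin m → ℤ) (β : Fin n → ℤ) (i j : Fin m) :
    g06b_f m n (α + Pi.single i 1 - Pi.single j 1) β = g06b_f m n α β + (j.1 - i.1) := by
  unfold g06b_f
  simp only [Pi.sub_apply, Pi.add_apply, Pi.single_apply, mul_sub, mul_add, Finset.sum_add_distrib,
    Finset.sum_sub_distrib, mul_ite, mul_one, mul_zero, Finset.sum_ite_eq', Finset.mem_univ, if_true]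
  ring

theorem g06b_fB (α : Fin m → ℤ) (β : Fin n → ℤ) (i j : Fin n) :
    g06b_f m n α (β + Pi.single i 1 - Pi.single j 1) = g06b_f m n α β + (j.1 - i.1) := by
  unfold g06b_f
  simp only [Pi.sub_apply, Pi.add_apply, Pi.single_apply, mul_sub, mul_add, Finset.sum_add_distrib,
    Finset.sum_sub_distrib, mul_ite, mul_one, mul_zero, Finset.sum_ite_eq', Finset.mem_univ, if_true]
  ring

/-- the height operator -/
noncomputable def g06b_H (S : G0 m n M) : M →ₗ[ℂ] M :=
  ∑ i, ((m : ℂ) - i.1) • S.a i i + ∑ l, ((n : ℂ) - l.1) • S.b l l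

theorem g06b_Hv (S : G0 m n M) {α : Fin m → ℤ} {β : Fin n → ℤ} {v : M} (hv : v ∈ S.Wsp α β) :
    g06b_H S v = (g06b_f m n α β : ℂ) • v := by
  unfold g06b_H g06b_f
  rw [LinearMap.add_apply, LinearMap.sum_apply, LinearMap.sum_apply]
  push_cast
  rw [add_smul, Finset.sum_smul, Finset.sum_smul]
  congr 1
  · refine Finset.sum_congr rfl fun i _ => ?_
    rw [LinearMap.smul_apply, hv.1 i, smul_smul]
  · refine Finset.sum_congr rfl fun i _ => ?_
    rw [LinearMap.smul_apply, hv.2 i, smul_smul]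

theorem g06b_HN (S : G0 m n M) {N : Submodule ℂ M} (hN : S.Stab N) : ∀ v ∈ N, g06b_H S v ∈ N := by
  intro v hv
  unfold g06b_H
  rw [LinearMap.add_apply, LinearMap.sum_apply, LinearMap.sum_apply]
  refine N.add_mem (N.sum_mem fun i _ => ?_) (N.sum_mem fun i _ => ?_)
  · exact N.smul_mem _ (hN.1 i i v hv)
  · exact N.smul_mem _ (hN.2 i i v hv)

theorem G06_hw (S : G0 m n M) (hS : S.Good) (N : Submodule ℂ M) (hfin : Module.Finite ℂ ↥N)
    (hN : S.Stab N) (hne : N ≠ ⊥) : ∃ v ∈ N, v ≠ 0 ∧ ∃ α β, S.HW α β v := by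
  set Λ : Set ℤ := {t | ∃ (α : Fin m → ℤ) (β : Fin n → ℤ) (v : M), v ∈ N ∧ v ≠ 0 ∧ v ∈ S.Wsp α β ∧
    g06b_f m n α β = t} with hΛ
  have hΛf : Λ.Finite := by
    have h1 : ((fun t : ℤ => (t : ℂ)) ⁻¹' {μ | Module.End.HasEigenvalue ((g06b_H S).restrict (g06b_HN S hN)) μ}).Finite :=
      Set.Finite.preimage (fun a _ b _ h => Int.cast_injective h) (Module.End.finite_hasEigenvalue _)
    refine h1.subset ?_
    rintro t ⟨α, β, v, hv, hv0, hw, rfl⟩
    refine Module.End.hasEigenvalue_of_hasEigenvector (x := ⟨v, hv⟩) ⟨?_, fun h => hv0 (congrArg Subtype.val h)⟩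
    rw [Module.End.mem_eigenspace_iff]
    exact Subtype.ext (g06b_Hv S hw)
  have hΛn : Λ.Nonempty := by
    by_contra hcon
    rw [Set.not_nonempty_iff_eq_empty] at hcon
    apply hne
    rw [G05_comp S hS N (fun i v hv => hN.1 i i v hv) (fun l v hv => hN.2 l l v hv), eq_bot_iff]
    refine iSup_le fun α => iSup_le fun β => ?_
    rintro v ⟨hv, hw⟩
    by_contra hv0
    have : g06b_f m n α β ∈ Λ := ⟨α, β, v, hv, fun h => hv0 (by rw [h]; exact zero_mem _), hw, rfl⟩
    rw [hcon] at this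
    exact this
  obtain ⟨t, ht, hmax⟩ := Set.exists_max_image Λ id hΛf hΛn
  obtain ⟨α, β, v, hv, hv0, hw, hft⟩ := ht
  refine ⟨v, hv, hv0, α, β, hw, fun i j hij => ?_, fun l q hlq => ?_⟩
  · by_contra h0
    have h1 := hmax _ ⟨_, _, S.a i j v, hN.1 i j v hv, h0, G06_wtA S α β i j v hw, rfl⟩
    rw [g06b_fA] at h1
    simp only [id] at h1
    have h2 : (i.1 : ℤ) < j.1 := by exact_mod_cast hij
    omega
  · by_contra h0
    have h1 := hmax _ ⟨_, _, S.b l q v, hN.2 l q v hv, h0, G06_wtB S α β l q v hw, rfl⟩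
    rw [g06b_fB] at h1
    simp only [id] at h1
    have h2 : (l.1 : ℤ) < q.1 := by exact_mod_cast hlq
    omega

end H95H
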