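import Pool.Agent.Lib.H95H.A10a
import Pool.Agent.Lib.H95H.G00

namespace H95H

variable {m n k : ℕ} {M : Type} [AddCommGroup M] [Module ℂ M]

/-!
# Chunk G06: highest weight vectors in good modules

* `G06_hw`: let `N ≠ ⊥` be a finite-dimensional subspace stable under the even part. By `G05_comp`
  it contains nonzero weight vectors; as `N` is finite-dimensional only finitely many weights
  `(α, β)` occur (weight spaces are independent). Choose one with
  `∑ (m - i) α i + ∑ (n - l) β l` maximal. Then `a i j v` (`i < j`) has weight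
  `(α + e_i - e_j, β)` of bigger value, so it is `0`; the same for `b`.
* `G06_wt`: `a i j` maps `Wsp α β` to `Wsp (α + e_i - e_j) β` (from the relation `aa`).
* `G06_dom`: for a nonzero highest weight vector of a good module and `i < j`:
  `h (a j i v) (a j i v) = h v (a i j (a j i v)) = h v ((a i i - a j j) v) = (α i - α j) h v v`,
  and this is `≥ 0`, so `α j ≤ α i`. The same for `β`.
* `G06_perp`: in a good module, for a stable finite-dimensional `N` there is a stable complement
  inside any stable finite-dimensional `N' ≥ N`: `N' = N ⊔ N''`, `N ⊓ N'' = ⊥`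
  (orthogonal complement for the hermitian form).
-/

theorem G06_dom (S : G0 m n M) (hS : S.Good) (α : Fin m → ℤ) (β : Fin n → ℤ) (v : M)
    (hv : S.HW α β v) (hne : v ≠ 0) : Antitone α ∧ Antitone β := by
  obtain ⟨⟨h, hh, hA, hB⟩, -⟩ := hS
  obtain ⟨hw, hva, hvb⟩ := hv
  have hpos := hh.pos v hne
  have hnn : ∀ u, 0 ≤ (h u u).re := by
    intro u
    by_cases hu : u = 0
    · have h0 := hh.smul 0 0 u
      rw [zero_smul, zero_mul] at h0
      rw [hu] at h0 ⊢
      rw [h0]
      simp
    · exact (hh.pos u hu).le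
  constructor
  · intro i j hij
    rcases hij.lt_or_eq with hlt | heq
    · have h1 : S.a i j (S.a j i v) = ((α i : ℂ) - α j) • v := by
        have h2 := S.aa i j j i v
        rw [hva i j hlt, map_zero, if_pos rfl, if_pos rfl, sub_zero, hw.1 i, hw.1 j] at h2
        rw [h2, sub_smul]
      have h3 := hA j i v (S.a j i v)
      rw [h1, a10a_smul h hh] at h3
      have h4 := hnn (S.a j i v)
      have h5 : (starRingEnd ℂ ((α i : ℂ) - α j)) = (((α i - α j : ℤ) : ℝ) : ℂ) := by
        rw [map_sub, map_intCast, map_intCast]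
        push_cast
        rfl
      rw [h3, h5, Complex.re_ofReal_mul] at h4
      have h6 : (0 : ℝ) ≤ ((α i - α j : ℤ) : ℝ) := nonneg_of_mul_nonneg_left h4 hpos
      have h7 : 0 ≤ α i - α j := by exact_mod_cast h6
      omega
    · rw [heq]
  · intro i j hij
    rcases hij.lt_or_eq with hlt | heq
    · have h1 : S.b i j (S.b j i v) = ((β i : ℂ) - β j) • v := by
        have h2 := S.bb i j j i v
        rw [hvb i j hlt, map_zero, if_pos rfl, if_pos rfl, sub_zero, hw.2 i, hw.2 j] at h2
        rw [h2, sub_smul]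
      have h3 := hB j i v (S.b j i v)
      rw [h1, a10a_smul h hh] at h3
      have h4 := hnn (S.b j i v)
      have h5 : (starRingEnd ℂ ((β i : ℂ) - β j)) = (((β i - β j : ℤ) : ℝ) : ℂ) := by
        rw [map_sub, map_intCast, map_intCast]
        push_cast
        rfl
      rw [h3, h5, Complex.re_ofReal_mul] at h4
      have h6 : (0 : ℝ) ≤ ((β i - β j : ℤ) : ℝ) := nonneg_of_mul_nonneg_left h4 hpos
      have h7 : 0 ≤ β i - β j := by exact_mod_cast h6
      omega
    · rw [heq]

theorem G06_perp (S : G0 m n M) (hS : S.Good) (N N' : Submodule ℂ M)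
    (hfin : Module.Finite ℂ ↥N') (hN : S.Stab N) (hN' : S.Stab N') (h : N ≤ N') :
    ∃ N'' : Submodule ℂ M, S.Stab N'' ∧ N'' ≤ N' ∧ N ⊓ N'' = ⊥ ∧ N ⊔ N'' = N' := by
  obtain ⟨⟨g, hh, hA, hB⟩, -⟩ := hS
  have : Module.Finite ℂ ↥N := Submodule.finiteDimensional_of_le h
  obtain ⟨p, hp, hpo⟩ := A10_proj g hh N
  refine ⟨{ carrier := {v | v ∈ N' ∧ ∀ w ∈ N, g w v = 0}
            add_mem' := ?_
            zero_mem' := ?_
            smul_mem' := ?_ }, ⟨?_, ?_⟩, ?_, ?_, ?_⟩
  · rintro u v ⟨h1, h2⟩ ⟨h3, h4⟩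
    exact ⟨N'.add_mem h1 h3, fun w hw => by rw [a10a_add g hh, h2 w hw, h4 w hw, add_zero]⟩
  · exact ⟨N'.zero_mem, fun w _ => a10a_zero g hh w⟩
  · rintro c v ⟨h1, h2⟩
    exact ⟨N'.smul_mem c h1, fun w hw => by rw [a10a_smul g hh, h2 w hw, mul_zero]⟩
  · rintro i j v ⟨h1, h2⟩
    exact ⟨hN'.1 i j v h1, fun w hw => by rw [← hA j i w v]; exact h2 _ (hN.1 j i w hw)⟩
  · rintro i j v ⟨h1, h2⟩
    exact ⟨hN'.2 i j v h1, fun w hw => by rw [← hB j i w v]; exact h2 _ (hN.2 j i w hw)⟩
  · rintro v ⟨h1, -⟩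
    exact h1
  · rw [eq_bot_iff]
    rintro v ⟨h1, h2, h3⟩
    rw [Submodule.mem_bot]
    by_contra hv0
    have h4 := hh.pos v hv0
    rw [h3 v h1] at h4
    simp at h4
  · refine le_antisymm (sup_le h ?_) ?_
    · rintro v ⟨h1, -⟩
      exact h1
    · intro x hx
      have h1 : x = p x + (x - p x) := by abel
      rw [h1]
      exact Submodule.add_mem_sup (hp x) ⟨N'.sub_mem hx (h (hp x)), fun w hw => hpo x w hw⟩

end H95H
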