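import Pool.Agent.Lib.H95H.G06a

namespace H95H

variable {m n k : ℕ} {M : Type} [AddCommGroup M] [Module ℂ M]

/-!
# Chunk G07: cyclic submodules

Let `v` be a nonzero highest weight vector of weight `(α, β)` in a good module.
* `G07_lower`: let `N` be the smallest subspace containing `v` and stable under the lowering
  operators `a i j` (`j < i`), `b l q` (`q < l`). Then `N` is stable under all operators. Proof: let
  `N' = {u ∈ N | all a i j u, b l q u ∈ N}`; `v ∈ N'`, and if `u ∈ N'` and `g` is a lowering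
  operator then `g u ∈ N'`: for an operator `g'`, `g' (g u) = g (g' u) + [g', g] u`, where
  `g' u ∈ N`, `g (g' u) ∈ N`, and `[g', g]` is a combination of operators, `[g', g] u ∈ N`. So
  `N' = N`. Moreover `N ⊓ Wsp α β = ℂ v`, and every weight of `N` other than `(α, β)` is strictly
  smaller for `lev (α, β) = ∑ (m - i) α i + ∑ (n - l) β l` (the set of all `r • v + u` with `u` a sum of
  weight vectors of smaller level contains `v` and is stable under lowering operators).
* `G07_cyc`: `W = N` is irreducible: for a stable `W' ≤ W` choose a stable complement `W''` in `W`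
  (`G06_perp`); `v = v' + v''`, both are of weight `(α, β)` (compare components), so multiples of
  `v`; hence `v ∈ W'` or `v ∈ W''`, i.e. `W' = W` or `W'' = W`, and in the second case `W' = ⊥`.
* `G07_uniq`: let `W` be irreducible with highest weight vector `v ∈ W` of weight `(α, β)` and let
  `w ∈ W` be a nonzero highest weight vector of weight `(α', β')`. The smallest lowering-stable
  subspace containing `w` is stable (`G07_lower`), so it is `W ∋ v`, and the level of `(α, β)` is
  at most that of `(α', β')`; by symmetry they are equal, and then `v` is a multiple of `w` (the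
  only vectors of `N(w)` of that level are multiples of `w`).
-/

/-- the smallest subspace containing `v` and stable under lowering operators -/
def G0.low (S : G0 m n M) (v : M) : Submodule ℂ M :=
  sInf {N | v ∈ N ∧ (∀ i j, j < i → ∀ u ∈ N, S.a i j u ∈ N) ∧ ∀ l q, q < l → ∀ u ∈ N, S.b l q u ∈ N}

/-- the level operator -/
noncomputable def g07a_L (S : G0 m n M) : Module.End ℂ M :=
  ∑ i : Fin m, ((m : ℂ) - (i.1 : ℂ)) • S.a i i + ∑ l : Fin n, ((n : ℂ) - (l.1 : ℂ)) • S.b l l

theorem g07a_L_apply (S : G0 m n M) (u : M) : g07a_L S u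
    = ∑ i : Fin m, ((m : ℂ) - (i.1 : ℂ)) • S.a i i u + ∑ l : Fin n, ((n : ℂ) - (l.1 : ℂ)) • S.b l l u := by
  simp [g07a_L, LinearMap.add_apply, LinearMap.sum_apply]

theorem g07a_LA (S : G0 m n M) (i j : Fin m) (u : M) :
    g07a_L S (S.a i j u) = S.a i j (g07a_L S u) + ((j.1 : ℂ) - (i.1 : ℂ)) • S.a i j u := by
  have h1 : ∀ k : Fin m, ((m : ℂ) - (k.1 : ℂ)) • S.a k k (S.a i j u)
      = ((m : ℂ) - (k.1 : ℂ)) • S.a i j (S.a k k u) + (if k = i then ((m : ℂ) - (k.1 : ℂ)) • S.a k j u else 0)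
        - (if j = k then ((m : ℂ) - (k.1 : ℂ)) • S.a i k u else 0) := by
    intro k
    have h := S.aa k k i j u
    rw [sub_eq_iff_eq_add] at h
    rw [h]
    split_ifs <;> module
  rw [g07a_L_apply, g07a_L_apply]
  simp only [h1]
  rw [Finset.sum_sub_distrib, Finset.sum_add_distrib, Finset.sum_ite_eq', if_pos (Finset.mem_univ _),
    Finset.sum_ite_eq, if_pos (Finset.mem_univ _), map_add, map_sum, map_sum]
  simp only [map_smul]
  have h2 : ∀ l : Fin n, S.b l l (S.a i j u) = S.a i j (S.b l l u) := fun l => (S.ab i j l l u).symm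
  simp only [h2]
  module

theorem g07a_LB (S : G0 m n M) (i j : Fin n) (u : M) :
    g07a_L S (S.b i j u) = S.b i j (g07a_L S u) + ((j.1 : ℂ) - (i.1 : ℂ)) • S.b i j u := by
  have h1 : ∀ k : Fin n, ((n : ℂ) - (k.1 : ℂ)) • S.b k k (S.b i j u)
      = ((n : ℂ) - (k.1 : ℂ)) • S.b i j (S.b k k u) + (if k = i then ((n : ℂ) - (k.1 : ℂ)) • S.b k j u else 0)
        - (if j = k then ((n : ℂ) - (k.1 : ℂ)) • S.b i k u else 0) := by
    intro k
    have h := S.bb k k i j u
    rw [sub_eq_iff_eq_add] at h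
    rw [h]
    split_ifs <;> module
  rw [g07a_L_apply, g07a_L_apply]
  simp only [h1]
  rw [Finset.sum_sub_distrib, Finset.sum_add_distrib, Finset.sum_ite_eq', if_pos (Finset.mem_univ _),
    Finset.sum_ite_eq, if_pos (Finset.mem_univ _), map_add, map_sum, map_sum]
  simp only [map_smul]
  have h2 : ∀ l : Fin m, S.a l l (S.b i j u) = S.b i j (S.a l l u) := fun l => S.ab l l i j u
  simp only [h2]
  module

/-- the level of a weight -/
def g07a_lev (α : Fin m → ℤ) (β : Fin n → ℤ) : ℤ :=
  ∑ i : Fin m, ((m : ℤ) - i) * α i + ∑ l : Fin n, ((n : ℤ) - l) * β l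

theorem g07a_wsp (S : G0 m n M) (α : Fin m → ℤ) (β : Fin n → ℤ) (u : M) (hu : u ∈ S.Wsp α β) :
    u ∈ (g07a_L S).eigenspace ((g07a_lev α β : ℤ) : ℂ) := by
  rw [Module.End.mem_eigenspace_iff, g07a_L_apply]
  simp only [hu.1, hu.2, smul_smul]
  rw [← Finset.sum_smul, ← Finset.sum_smul, ← add_smul]
  congr 1
  unfold g07a_lev
  push_cast
  rfl

/-- the span of the eigenspaces of smaller level -/
noncomputable def g07a_D (S : G0 m n M) (c0 : ℤ) : Submodule ℂ M :=
  ⨆ c : ℤ, ⨆ _ : c < c0, (g07a_L S).eigenspace (c : ℂ)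

theorem g07a_D_A (S : G0 m n M) (c0 : ℤ) (i j : Fin m) (hij : j < i) : ∀ u ∈ g07a_D S c0, S.a i j u ∈ g07a_D S c0 := by
  have h : g07a_D S c0 ≤ (g07a_D S c0).comap (S.a i j) := by
    refine iSup_le fun c => iSup_le fun hc => fun u hu => ?_
    rw [Submodule.mem_comap]
    have h1 : S.a i j u ∈ (g07a_L S).eigenspace ((c + ((j.1 : ℤ) - (i.1 : ℤ)) : ℤ) : ℂ) := by
      rw [Module.End.mem_eigenspace_iff] at hu ⊢
      rw [g07a_LA, hu, map_smul, ← add_smul]
      push_cast
      rfl
    exact Submodule.mem_iSup_of_mem _ (Submodule.mem_iSup_of_mem (by omega) h1)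
  exact fun u hu => h hu

theorem g07a_D_B (S : G0 m n M) (c0 : ℤ) (i j : Fin n) (hij : j < i) : ∀ u ∈ g07a_D S c0, S.b i j u ∈ g07a_D S c0 := by
  have h : g07a_D S c0 ≤ (g07a_D S c0).comap (S.b i j) := by
    refine iSup_le fun c => iSup_le fun hc => fun u hu => ?_
    rw [Submodule.mem_comap]
    have h1 : S.b i j u ∈ (g07a_L S).eigenspace ((c + ((j.1 : ℤ) - (i.1 : ℤ)) : ℤ) : ℂ) := by
      rw [Module.End.mem_eigenspace_iff] at hu ⊢
      rw [g07a_LB, hu, map_smul, ← add_smul]
      push_cast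
      rfl
    exact Submodule.mem_iSup_of_mem _ (Submodule.mem_iSup_of_mem (by omega) h1)
  exact fun u hu => h hu

theorem g07a_low_mem (S : G0 m n M) (v : M) : v ∈ S.low v ∧ (∀ i j, j < i → ∀ u ∈ S.low v, S.a i j u ∈ S.low v) ∧
    ∀ l q, q < l → ∀ u ∈ S.low v, S.b l q u ∈ S.low v := by
  refine ⟨?_, fun i j hij u hu => ?_, fun i j hij u hu => ?_⟩
  · exact Submodule.mem_sInf.2 fun N hN => hN.1
  · exact Submodule.mem_sInf.2 fun N hN => hN.2.1 i j hij u (Submodule.mem_sInf.1 hu N hN)
  · exact Submodule.mem_sInf.2 fun N hN => hN.2.2 i j hij u (Submodule.mem_sInf.1 hu N hN)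

theorem g07a_low_le (S : G0 m n M) (v : M) (N : Submodule ℂ M) (h1 : v ∈ N)
    (h2 : ∀ i j, j < i → ∀ u ∈ N, S.a i j u ∈ N) (h3 : ∀ l q, q < l → ∀ u ∈ N, S.b l q u ∈ N) : S.low v ≤ N :=
  sInf_le ⟨h1, h2, h3⟩

theorem g07a_stab (S : G0 m n M) (α : Fin m → ℤ) (β : Fin n → ℤ) (v : M) (hv : S.HW α β v) : S.Stab (S.low v) := by
  obtain ⟨l1, l2, l3⟩ := g07a_low_mem S v
  let N' : Submodule ℂ M :=
    { carrier := {u | u ∈ S.low v ∧ (∀ i j, S.a i j u ∈ S.low v) ∧ ∀ i j, S.b i j u ∈ S.low v}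
      add_mem' := by
        rintro x y ⟨hx1, hx2, hx3⟩ ⟨hy1, hy2, hy3⟩
        refine ⟨Submodule.add_mem _ hx1 hy1, fun i j => ?_, fun i j => ?_⟩
        · rw [map_add]; exact Submodule.add_mem _ (hx2 i j) (hy2 i j)
        · rw [map_add]; exact Submodule.add_mem _ (hx3 i j) (hy3 i j)
      zero_mem' := by
        refine ⟨Submodule.zero_mem _, fun i j => ?_, fun i j => ?_⟩
        · rw [map_zero]; exact Submodule.zero_mem _
        · rw [map_zero]; exact Submodule.zero_mem _
      smul_mem' := by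
        rintro r x ⟨hx1, hx2, hx3⟩
        refine ⟨Submodule.smul_mem _ _ hx1, fun i j => ?_, fun i j => ?_⟩
        · rw [map_smul]; exact Submodule.smul_mem _ _ (hx2 i j)
        · rw [map_smul]; exact Submodule.smul_mem _ _ (hx3 i j) }
  have hle : S.low v ≤ N' := by
    apply g07a_low_le
    · refine ⟨l1, fun i j => ?_, fun i j => ?_⟩
      · rcases lt_trichotomy i j with h | h | h
        · rw [hv.2.1 i j h]; exact Submodule.zero_mem _
        · subst h
          rw [hv.1.1 i]; exact Submodule.smul_mem _ _ l1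
        · exact l2 i j h v l1
      · rcases lt_trichotomy i j with h | h | h
        · rw [hv.2.2 i j h]; exact Submodule.zero_mem _
        · subst h
          rw [hv.1.2 i]; exact Submodule.smul_mem _ _ l1
        · exact l3 i j h v l1
    · rintro p q hpq u ⟨hu1, hu2, hu3⟩
      refine ⟨l2 p q hpq u hu1, fun i j => ?_, fun i j => ?_⟩
      · have h := S.aa i j p q u
        rw [sub_eq_iff_eq_add] at h
        rw [h]
        refine Submodule.add_mem _ (Submodule.sub_mem _ ?_ ?_) (l2 p q hpq _ (hu2 i j))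
        · split_ifs
          · exact hu2 _ _
          · exact Submodule.zero_mem _
        · split_ifs
          · exact hu2 _ _
          · exact Submodule.zero_mem _
      · rw [← S.ab]
        exact l2 p q hpq _ (hu3 i j)
    · rintro p q hpq u ⟨hu1, hu2, hu3⟩
      refine ⟨l3 p q hpq u hu1, fun i j => ?_, fun i j => ?_⟩
      · rw [S.ab]
        exact l3 p q hpq _ (hu2 i j)
      · have h := S.bb i j p q u
        rw [sub_eq_iff_eq_add] at h
        rw [h]
        refine Submodule.add_mem _ (Submodule.sub_mem _ ?_ ?_) (l3 p q hpq _ (hu3 i j))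
        · split_ifs
          · exact hu3 _ _
          · exact Submodule.zero_mem _
        · split_ifs
          · exact hu3 _ _
          · exact Submodule.zero_mem _
  exact ⟨fun i j u hu => (hle hu).2.1 i j, fun i j u hu => (hle hu).2.2 i j⟩

theorem g07a_form (S : G0 m n M) (α : Fin m → ℤ) (β : Fin n → ℤ) (v : M) (hv : S.HW α β v) :
    ∀ u ∈ S.low v, ∃ r : ℂ, ∃ d ∈ g07a_D S (g07a_lev α β), u = r • v + d := by
  have hle : S.low v ≤ Submodule.span ℂ {v} ⊔ g07a_D S (g07a_lev α β) := by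
    have hve := g07a_wsp S α β v hv.1
    rw [Module.End.mem_eigenspace_iff] at hve
    apply g07a_low_le
    · exact Submodule.mem_sup_left (Submodule.mem_span_singleton_self v)
    · intro i j hij u hu
      obtain ⟨y, hy, z, hz, rfl⟩ := Submodule.mem_sup.1 hu
      obtain ⟨r, rfl⟩ := Submodule.mem_span_singleton.1 hy
      rw [map_add, map_smul]
      refine Submodule.mem_sup_right (Submodule.add_mem _ (Submodule.smul_mem _ _ ?_) (g07a_D_A S _ i j hij z hz))
      have h1 : S.a i j v ∈ (g07a_L S).eigenspace ((g07a_lev α β + ((j.1 : ℤ) - (i.1 : ℤ)) : ℤ) : ℂ) := by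
        rw [Module.End.mem_eigenspace_iff, g07a_LA, hve, map_smul, ← add_smul]
        push_cast
        rfl
      exact Submodule.mem_iSup_of_mem _ (Submodule.mem_iSup_of_mem (by omega) h1)
    · intro i j hij u hu
      obtain ⟨y, hy, z, hz, rfl⟩ := Submodule.mem_sup.1 hu
      obtain ⟨r, rfl⟩ := Submodule.mem_span_singleton.1 hy
      rw [map_add, map_smul]
      refine Submodule.mem_sup_right (Submodule.add_mem _ (Submodule.smul_mem _ _ ?_) (g07a_D_B S _ i j hij z hz))
      have h1 : S.b i j v ∈ (g07a_L S).eigenspace ((g07a_lev α β + ((j.1 : ℤ) - (i.1 : ℤ)) : ℤ) : ℂ) := by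
        rw [Module.End.mem_eigenspace_iff, g07a_LB, hve, map_smul, ← add_smul]
        push_cast
        rfl
      exact Submodule.mem_iSup_of_mem _ (Submodule.mem_iSup_of_mem (by omega) h1)
  intro u hu
  obtain ⟨y, hy, z, hz, rfl⟩ := Submodule.mem_sup.1 (hle hu)
  obtain ⟨r, rfl⟩ := Submodule.mem_span_singleton.1 hy
  exact ⟨r, z, hz, rfl⟩

/-- independence -/
theorem g07a_D_disj (S : G0 m n M) (c0 c : ℤ) (hc : c0 ≤ c) (u : M) (h1 : u ∈ (g07a_L S).eigenspace (c : ℂ))
    (h2 : u ∈ g07a_D S c0) : u = 0 := by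
  have hind := Module.End.eigenspaces_iSupIndep (g07a_L S) (c : ℂ)
  have hle : g07a_D S c0 ≤ ⨆ j : ℂ, ⨆ _ : j ≠ (c : ℂ), (g07a_L S).eigenspace j := by
    refine iSup_le fun c' => iSup_le fun hc' => ?_
    refine le_iSup_of_le (c' : ℂ) (le_iSup_of_le ?_ le_rfl)
    intro h
    have : c' = c := by exact_mod_cast h
    omega
  exact Submodule.disjoint_def.1 hind u h1 (hle h2)

theorem G07_lower (S : G0 m n M) (α : Fin m → ℤ) (β : Fin n → ℤ) (v : M) (hv : S.HW α β v) :
    S.Stab (S.low v) ∧ (∀ u ∈ S.low v, u ∈ S.Wsp α β → ∃ r : ℂ, u = r • v) ∧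
    ∀ α' β', ∀ u ∈ S.low v, u ∈ S.Wsp α' β' → u ≠ 0 → (α' ≠ α ∨ β' ≠ β) →
      ∑ i : Fin m, ((m : ℤ) - i) * α' i + ∑ l : Fin n, ((n : ℤ) - l) * β' l <
        ∑ i : Fin m, ((m : ℤ) - i) * α i + ∑ l : Fin n, ((n : ℤ) - l) * β l := by
  refine ⟨g07a_stab S α β v hv, fun u hu hw => ?_, fun α' β' u hu hw hne hne' => ?_⟩
  · obtain ⟨r, d, hd, hud⟩ := g07a_form S α β v hv u hu
    refine ⟨r, ?_⟩
    have h1 : d ∈ (g07a_L S).eigenspace ((g07a_lev α β : ℤ) : ℂ) := by
      have : d = u - r • v := by rw [hud]; abel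
      rw [this]
      exact Submodule.sub_mem _ (g07a_wsp S α β u hw) (Submodule.smul_mem _ _ (g07a_wsp S α β v hv.1))
    have h2 := g07a_D_disj S _ _ le_rfl d h1 hd
    rw [hud, h2, add_zero]
  · change g07a_lev α' β' < g07a_lev α β
    by_contra hcon
    rw [not_lt] at hcon
    obtain ⟨r, d, hd, hud⟩ := g07a_form S α β v hv u hu
    rcases hcon.eq_or_lt with heq | hlt
    · have h1 : d ∈ (g07a_L S).eigenspace ((g07a_lev α β : ℤ) : ℂ) := by
        have : d = u - r • v := by rw [hud]; abel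
        rw [this]
        refine Submodule.sub_mem _ ?_ (Submodule.smul_mem _ _ (g07a_wsp S α β v hv.1))
        rw [heq]
        exact g07a_wsp S α' β' u hw
      have h2 := g07a_D_disj S _ _ le_rfl d h1 hd
      rw [h2, add_zero] at hud
      have h3 : u ∈ S.Wsp α β := by
        rw [hud]
        exact Submodule.smul_mem _ _ hv.1
      obtain ⟨h4, h5⟩ := G06_wt_ind S α' α β' β u hw h3 hne
      rcases hne' with h | h
      · exact h h4
      · exact h h5
    · have h1 := g07a_wsp S α' β' u hw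
      have h2 : u ∈ g07a_D S (g07a_lev α' β') := by
        rw [hud]
        refine Submodule.add_mem _ (Submodule.smul_mem _ _ ?_) ?_
        · exact Submodule.mem_iSup_of_mem _ (Submodule.mem_iSup_of_mem hlt (g07a_wsp S α β v hv.1))
        · have hmono : g07a_D S (g07a_lev α β) ≤ g07a_D S (g07a_lev α' β') :=
            iSup_le fun c => iSup_le fun hc => le_iSup_of_le c (le_iSup_of_le (hc.trans hlt) le_rfl)
          exact hmono hd
      exact hne (g07a_D_disj S _ _ le_rfl u h1 h2)

end H95H
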