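import Pool.Agent.Lib.H95H.G06c
import Pool.Agent.Lib.H95H.G07a

namespace H95H

variable {m n k : ℕ} {M : Type} [AddCommGroup M] [Module ℂ M]

/-!
# Chunk G07: cyclic submodules

Let `v` be a nonzero highest weight vector of weight `(α, β)` in a good module.
* `G07_lower`: let `N` be the smallest subspace containing `v` and stable under the lowering
  operators `a i j` (`j < i`), `b l q` (`q < l`). Then `N` is stable under all operators. Proof: let
  `N' = {u ∈ N | all a i j u, b l q u ∈ N}`; `v ∈ N'`, and if `u ∈ N'` and `g` is a lowering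
  operator then `g u ∈ N'`: for an operator `g'`, `g' (g u) = g (g' u) + [g', g] u`, where
  `g' u ∈ N`, `g (g' u) ∈ N`, and `[g', g]` is a combination of operators, `[g', g] u ∈ N`. So
  `N' = N`. Moreover `N ⊓ Wsp α β = ℂ v`, and every weight of `N` other than `(α, β)` is strictly
  smaller for `lev (α, β) = ∑ (m - i) α i + ∑ (n - l) β l` (the set of all `r • v + u` with `u` a sum of
  weight vectors of smaller level contains `v` and is stable under lowering operators).
* `G07_cyc`: `W = N` is irreducible: for a stable `W' ≤ W` choose a stable complement `W''` in `W`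
  (`G06_perp`); `v = v' + v''`, both are of weight `(α, β)` (compare components), so multiples of
  `v`; hence `v ∈ W'` or `v ∈ W''`, i.e. `W' = W` or `W'' = W`, and in the second case `W' = ⊥`.
* `G07_uniq`: let `W` be irreducible with highest weight vector `v ∈ W` of weight `(α, β)` and let
  `w ∈ W` be a nonzero highest weight vector of weight `(α', β')`. The smallest lowering-stable
  subspace containing `w` is stable (`G07_lower`), so it is `W ∋ v`, and the level of `(α, β)` is
  at most that of `(α', β')`; by symmetry they are equal, and then `v` is a multiple of `w` (the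
  only vectors of `N(w)` of that level are multiples of `w`).
-/

theorem G07_cyc (S : G0 m n M) (hS : S.Good) (hfin : Module.Finite ℂ M) (α : Fin m → ℤ)
    (β : Fin n → ℤ) (v : M) (hv : S.HW α β v) (hne : v ≠ 0) :
    S.Irr α β (S.low v) ∧ v ∈ S.low v ∧ ∀ N : Submodule ℂ M, S.Stab N → v ∈ N → S.low v ≤ N := by
  have hst := g07a_stab S α β v hv
  obtain ⟨l1, l2, l3⟩ := g07a_low_mem S v
  have hmin : ∀ N : Submodule ℂ M, S.Stab N → v ∈ N → S.low v ≤ N := fun N hN hvN =>
    g07a_low_le S v N hvN (fun i j _ u hu => hN.1 i j u hu) (fun i j _ u hu => hN.2 i j u hu)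
  refine ⟨⟨hst, ⟨v, l1, hne, hv⟩, fun W' hW' hsW' => ?_⟩, l1, hmin⟩
  obtain ⟨N'', hsN, hNle, hinf, hsup⟩ := G06_perp S hS W' (S.low v) inferInstance hsW' hst hW'
  have hv2 : v ∈ W' ⊔ N'' := by rw [hsup]; exact l1
  obtain ⟨v1, hv1, v2, hv2', hvv⟩ := Submodule.mem_sup.1 hv2
  have hzero : ∀ x y : M, x ∈ W' → y ∈ N'' → x + y = 0 → x = 0 := by
    intro x y hx hy hxy
    have h1 : x ∈ W' ⊓ N'' := by
      refine ⟨hx, ?_⟩
      have : x = -y := eq_neg_of_add_eq_zero_left hxy
      rw [this]
      exact Submodule.neg_mem _ hy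
    rw [hinf] at h1
    exact (Submodule.mem_bot ℂ).1 h1
  have hw1 : v1 ∈ S.Wsp α β := by
    refine ⟨fun i => ?_, fun l => ?_⟩
    · have h1 := hv.1.1 i
      rw [← hvv, map_add, smul_add] at h1
      have h2 := hzero (S.a i i v1 - (α i : ℂ) • v1) (S.a i i v2 - (α i : ℂ) • v2)
        (Submodule.sub_mem _ (hsW'.1 i i v1 hv1) (Submodule.smul_mem _ _ hv1))
        (Submodule.sub_mem _ (hsN.1 i i v2 hv2') (Submodule.smul_mem _ _ hv2')) (by
          rw [sub_add_sub_comm, h1, sub_self])
      exact sub_eq_zero.1 h2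
    · have h1 := hv.1.2 l
      rw [← hvv, map_add, smul_add] at h1
      have h2 := hzero (S.b l l v1 - (β l : ℂ) • v1) (S.b l l v2 - (β l : ℂ) • v2)
        (Submodule.sub_mem _ (hsW'.2 l l v1 hv1) (Submodule.smul_mem _ _ hv1))
        (Submodule.sub_mem _ (hsN.2 l l v2 hv2') (Submodule.smul_mem _ _ hv2')) (by
          rw [sub_add_sub_comm, h1, sub_self])
      exact sub_eq_zero.1 h2
  obtain ⟨r, hr⟩ := (G07_lower S α β v hv).2.1 v1 (hW' hv1) hw1
  by_cases hr0 : r = 0
  · left
    rw [hr0, zero_smul] at hr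
    rw [hr, zero_add] at hvv
    have h1 : S.low v ≤ N'' := hmin N'' hsN (by rw [← hvv]; exact hv2')
    rw [eq_bot_iff, ← hinf]
    exact le_inf le_rfl (hW'.trans h1)
  · right
    refine le_antisymm hW' (hmin W' hsW' ?_)
    have : v = r⁻¹ • v1 := by rw [hr, smul_smul, inv_mul_cancel₀ hr0, one_smul]
    rw [this]
    exact Submodule.smul_mem _ _ hv1

end H95H
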