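import Pool.Agent.Lib.H95H.G07a

namespace H95H

variable {m n k : ℕ} {M : Type} [AddCommGroup M] [Module ℂ M]

/-!
# Chunk G07: cyclic submodules

Let `v` be a nonzero highest weight vector of weight `(α, β)` in a good module.
* `G07_lower`: let `N` be the smallest subspace containing `v` and stable under the lowering
  operators `a i j` (`j < i`), `b l q` (`q < l`). Then `N` is stable under all operators. Proof: let
  `N' = {u ∈ N | all a i j u, b l q u ∈ N}`; `v ∈ N'`, and if `u ∈ N'` and `g` is a lowering
  operator then `g u ∈ N'`: for an operator `g'`, `g' (g u) = g (g' u) + [g', g] u`, where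
  `g' u ∈ N`, `g (g' u) ∈ N`, and `[g', g]` is a combination of operators, `[g', g] u ∈ N`. So
  `N' = N`. Moreover `N ⊓ Wsp α β = ℂ v`, and every weight of `N` other than `(α, β)` is strictly
  smaller for `lev (α, β) = ∑ (m - i) α i + ∑ (n - l) β l` (the set of all `r • v + u` with `u` a sum of
  weight vectors of smaller level contains `v` and is stable under lowering operators).
* `G07_cyc`: `W = N` is irreducible: for a stable `W' ≤ W` choose a stable complement `W''` in `W`
  (`G06_perp`); `v = v' + v''`, both are of weight `(α, β)` (compare components), so multiples of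
  `v`; hence `v ∈ W'` or `v ∈ W''`, i.e. `W' = W` or `W'' = W`, and in the second case `W' = ⊥`.
* `G07_uniq`: let `W` be irreducible with highest weight vector `v ∈ W` of weight `(α, β)` and let
  `w ∈ W` be a nonzero highest weight vector of weight `(α', β')`. The smallest lowering-stable
  subspace containing `w` is stable (`G07_lower`), so it is `W ∋ v`, and the level of `(α, β)` is
  at most that of `(α', β')`; by symmetry they are equal, and then `v` is a multiple of `w` (the
  only vectors of `N(w)` of that level are multiples of `w`).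
-/

theorem G07_uniq (S : G0 m n M) (hS : S.Good) (hfin : Module.Finite ℂ M) (α α' : Fin m → ℤ)
    (β β' : Fin n → ℤ) (W : Submodule ℂ M) (hW : S.Irr α β W) (v w : M) (hv : v ∈ W)
    (hv' : S.HW α β v) (hvne : v ≠ 0) (hw : w ∈ W) (hw' : S.HW α' β' w) (hwne : w ≠ 0) :
    α' = α ∧ β' = β ∧ ∃ r : ℂ, w = r • v := by
  have hlow : ∀ (γ : Fin m → ℤ) (δ : Fin n → ℤ) (x : M), x ∈ W → S.HW γ δ x → x ≠ 0 → S.low x = W := by
    intro γ δ x hx hxw hxne
    obtain ⟨l1, _, _⟩ := g07a_low_mem S x
    have hle : S.low x ≤ W := g07a_low_le S x W hx (fun i j _ u hu => hW.stab.1 i j u hu)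
      (fun i j _ u hu => hW.stab.2 i j u hu)
    rcases hW.irr (S.low x) hle (g07a_stab S γ δ x hxw) with h | h
    · exfalso
      rw [h] at l1
      exact hxne ((Submodule.mem_bot ℂ).1 l1)
    · exact h
  have h1 := hlow α β v hv hv' hvne
  have h2 := hlow α' β' w hw hw' hwne
  have hveq : α' = α ∧ β' = β := by
    by_contra hcon
    have hcon1 : α' ≠ α ∨ β' ≠ β := by
      by_contra hcon'
      push Not at hcon'
      exact hcon hcon'
    have hcon2 : α ≠ α' ∨ β ≠ β' := hcon1.imp Ne.symm Ne.symm
    have g1 := (G07_lower S α β v hv').2.2 α' β' w (by rw [h1]; exact hw) hw'.1 hwne hcon1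
    have g2 := (G07_lower S α' β' w hw').2.2 α β v (by rw [h2]; exact hv) hv'.1 hvne hcon2
    exact lt_asymm g1 g2
  obtain ⟨rfl, rfl⟩ := hveq
  exact ⟨rfl, rfl, (G07_lower S α' β' v hv').2.1 w (by rw [h1]; exact hw) hw'.1⟩

end H95H
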