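import Pool.Agent.Lib.H95H.G00

namespace H95H

variable {m n k : ℕ} {M : Type} [AddCommGroup M] [Module ℂ M]

/-!
# Chunk G08: the `gl_m × gl_n` modules `F ⊗ M` and `G^* ⊗ M`

`u : Fin m → M` stands for `∑ f_i ⊗ u_i`, `w : Fin n → M` for `∑ g^l ⊗ w_l`. All statements are
checked componentwise from the relations (`funext`, case distinctions).
-/

/-- `a i j` on `F ⊗ M` -/
def fA (S : G0 m n M) (i j : Fin m) : (Fin m → M) →ₗ[ℂ] (Fin m → M) where
  toFun u := fun p => (if p = i then u j else 0) + S.a i j (u p)
  map_add' u u' := by
    funext p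
    by_cases h : p = i
    · simp only [h, if_true, Pi.add_apply, map_add]
      abel
    · simp [h]
  map_smul' r u := by
    funext p
    by_cases h : p = i <;> simp [h]

/-- `b l q` on `F ⊗ M` -/
def fB (S : G0 m n M) (l q : Fin n) : (Fin m → M) →ₗ[ℂ] (Fin m → M) where
  toFun u := fun p => S.b l q (u p)
  map_add' u u' := by
    funext p
    simp
  map_smul' r u := by
    funext p
    simp

/-- `a i j` on `G^* ⊗ M` -/
def gA (S : G0 m n M) (i j : Fin m) : (Fin n → M) →ₗ[ℂ] (Fin n → M) where
  toFun w := fun p => S.a i j (w p)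
  map_add' u u' := by
    funext p
    simp
  map_smul' r u := by
    funext p
    simp

/-- `b l q` on `G^* ⊗ M` -/
def gB (S : G0 m n M) (l q : Fin n) : (Fin n → M) →ₗ[ℂ] (Fin n → M) where
  toFun w := fun p => -(if p = q then w l else 0) + S.b l q (w p)
  map_add' u u' := by
    funext p
    by_cases h : p = q
    · simp only [h, if_true, Pi.add_apply, map_add]
      abel
    · simp [h]
  map_smul' r u := by
    funext p
    by_cases h : p = q <;> simp [h]

/-- the Casimir type operator on `F ⊗ M` -/
def tF (S : G0 m n M) : (Fin m → M) →ₗ[ℂ] (Fin m → M) where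
  toFun u := fun i => ∑ j, S.a j i (u j)
  map_add' u u' := by
    funext p
    simp [Finset.sum_add_distrib]
  map_smul' r u := by
    funext p
    simp [Finset.smul_sum]

/-- the Casimir type operator on `G^* ⊗ M` -/
def tG (S : G0 m n M) : (Fin n → M) →ₗ[ℂ] (Fin n → M) where
  toFun w := fun q => ∑ p, S.b q p (w p)
  map_add' u u' := by
    funext p
    simp [Finset.sum_add_distrib]
  map_smul' r u := by
    funext p
    simp [Finset.smul_sum]

set_option linter.unusedSimpArgs false
set_option linter.unusedSectionVars false
set_option linter.unusedVariables false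

theorem g08a_fA (S : G0 m n M) (i j : Fin m) (u) (p) : fA S i j u p = (if p = i then u j else 0) + S.a i j (u p) := rfl

theorem g08a_fB (S : G0 m n M) (l q : Fin n) (u : Fin m → M) (p) : fB S l q u p = S.b l q (u p) := rfl

theorem g08a_gA (S : G0 m n M) (i j : Fin m) (u : Fin n → M) (p) : gA S i j u p = S.a i j (u p) := rfl

theorem g08a_gB (S : G0 m n M) (l q : Fin n) (u : Fin n → M) (p) :
    gB S l q u p = -(if p = q then u l else 0) + S.b l q (u p) := rfl

theorem g08a_i {ι : Type} {P : Prop} [Decidable P] (z : ι → M) (s : ι) :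
    (if P then z else 0) s = if P then z s else 0 := by
  by_cases h : P <;> simp [h]

theorem g08a_map {N : Type} [AddCommGroup N] [Module ℂ N] (f : M →ₗ[ℂ] N) {P : Prop} [Decidable P] (v : M) :
    f (if P then v else 0) = if P then f v else 0 := by
  by_cases h : P <;> simp [h]

theorem g08a_ite_add {P : Prop} [Decidable P] (v w : M) :
    (if P then v + w else 0) = (if P then v else 0) + (if P then w else 0) := by
  by_cases h : P <;> simp [h]

theorem g08a_ite_neg {P : Prop} [Decidable P] (v : M) :
    (if P then -v else 0) = -(if P then v else 0) := by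
  by_cases h : P <;> simp [h]

theorem G08_faa (S : G0 m n M) (i j p l : Fin m) (v) :
    fA S i j (fA S p l v) - fA S p l (fA S i j v) =
      (if j = p then fA S i l v else 0) - (if l = i then fA S p j v else 0) := by
  funext s
  have h := S.aa i j p l (v s)
  simp only [Pi.sub_apply, Pi.add_apply, Pi.neg_apply, Pi.zero_apply, g08a_fA, g08a_fB, g08a_gA, g08a_gB, g08a_i,
    map_add, map_sub, map_neg, g08a_map, g08a_ite_add, g08a_ite_neg]
  split_ifs at h ⊢ <;> first | linear_combination (norm := module) h | (exfalso; omega) | (subst_vars; linear_combination (norm := module) h)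

theorem G08_fbb (S : G0 m n M) (i j p l : Fin n) (v) :
    fB (m := m) S i j (fB S p l v) - fB S p l (fB S i j v) =
      (if j = p then fB S i l v else 0) - (if l = i then fB S p j v else 0) := by
  funext s
  have h := S.bb i j p l (v s)
  simp only [Pi.sub_apply, Pi.add_apply, Pi.neg_apply, Pi.zero_apply, g08a_fA, g08a_fB, g08a_gA, g08a_gB, g08a_i,
    map_add, map_sub, map_neg, g08a_map, g08a_ite_add, g08a_ite_neg]
  split_ifs at h ⊢ <;> first | linear_combination (norm := module) h | (exfalso; omega) | (subst_vars; linear_combination (norm := module) h)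

theorem G08_fab (S : G0 m n M) (i j : Fin m) (p l : Fin n) (v) :
    fA S i j (fB S p l v) = fB S p l (fA S i j v) := by
  funext s
  have h := S.ab i j p l (v s)
  simp only [Pi.sub_apply, Pi.add_apply, Pi.neg_apply, Pi.zero_apply, g08a_fA, g08a_fB, g08a_gA, g08a_gB, g08a_i,
    map_add, map_sub, map_neg, g08a_map, g08a_ite_add, g08a_ite_neg]
  split_ifs at h ⊢ <;> first | linear_combination (norm := module) h | (exfalso; omega) | (subst_vars; linear_combination (norm := module) h)

theorem G08_gaa (S : G0 m n M) (i j p l : Fin m) (v) :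
    gA S i j (gA S p l v) - gA S p l (gA S i j v) =
      (if j = p then gA S i l v else 0) - (if l = i then gA S p j v else 0) := by
  funext s
  have h := S.aa i j p l (v s)
  simp only [Pi.sub_apply, Pi.add_apply, Pi.neg_apply, Pi.zero_apply, g08a_fA, g08a_fB, g08a_gA, g08a_gB, g08a_i,
    map_add, map_sub, map_neg, g08a_map, g08a_ite_add, g08a_ite_neg]
  split_ifs at h ⊢ <;> first | linear_combination (norm := module) h | (exfalso; omega) | (subst_vars; linear_combination (norm := module) h)

theorem G08_gbb (S : G0 m n M) (i j p l : Fin n) (v) :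
    gB S i j (gB S p l v) - gB S p l (gB S i j v) =
      (if j = p then gB S i l v else 0) - (if l = i then gB S p j v else 0) := by
  funext s
  have h := S.bb i j p l (v s)
  simp only [Pi.sub_apply, Pi.add_apply, Pi.neg_apply, Pi.zero_apply, g08a_fA, g08a_fB, g08a_gA, g08a_gB, g08a_i,
    map_add, map_sub, map_neg, g08a_map, g08a_ite_add, g08a_ite_neg]
  split_ifs at h ⊢ <;> first | linear_combination (norm := module) h | (exfalso; omega) | (subst_vars; linear_combination (norm := module) h)

theorem G08_gab (S : G0 m n M) (i j : Fin m) (p l : Fin n) (v) :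
    gA S i j (gB S p l v) = gB S p l (gA S i j v) := by
  funext s
  have h := S.ab i j p l (v s)
  simp only [Pi.sub_apply, Pi.add_apply, Pi.neg_apply, Pi.zero_apply, g08a_fA, g08a_fB, g08a_gA, g08a_gB, g08a_i,
    map_add, map_sub, map_neg, g08a_map, g08a_ite_add, g08a_ite_neg]
  split_ifs at h ⊢ <;> first | linear_combination (norm := module) h | (exfalso; omega) | (subst_vars; linear_combination (norm := module) h)

/-- the module `F ⊗ M` -/
def G0.fv (S : G0 m n M) : G0 m n (Fin m → M) where
  a := fA S
  b := fB S
  aa := G08_faa S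
  bb := G08_fbb S
  ab := G08_fab S

/-- the module `G^* ⊗ M` -/
def G0.gv (S : G0 m n M) : G0 m n (Fin n → M) where
  a := gA S
  b := gB S
  aa := G08_gaa S
  bb := G08_gbb S
  ab := G08_gab S

end H95H
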