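import Pool.Agent.Lib.H95H.G05b
import Pool.Agent.Lib.H95H.G08a

namespace H95H

variable {m n k : ℕ} {M : Type} [AddCommGroup M] [Module ℂ M]

/-!
# Chunk G08: the `gl_m × gl_n` modules `F ⊗ M` and `G^* ⊗ M`

`u : Fin m → M` stands for `∑ f_i ⊗ u_i`, `w : Fin n → M` for `∑ g^l ⊗ w_l`. All statements are
checked componentwise from the relations (`funext`, case distinctions).
-/

set_option linter.unusedSimpArgs false
set_option linter.unusedSectionVars false
set_option linter.unusedVariables false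

theorem g08b_tF (S : G0 m n M) (u) (i) : tF S u i = ∑ j, S.a j i (u j) := rfl

theorem g08b_tG (S : G0 m n M) (w) (q) : tG S w q = ∑ p, S.b q p (w p) := rfl

theorem g08b_fa (S : G0 m n M) (i j u) : S.fv.a i j u = fA S i j u := rfl

theorem g08b_fb (S : G0 m n M) (i j) (u : Fin m → M) : S.fv.b i j u = fB S i j u := rfl

theorem g08b_ga (S : G0 m n M) (i j) (u : Fin n → M) : S.gv.a i j u = gA S i j u := rfl

theorem g08b_gb (S : G0 m n M) (i j) (u : Fin n → M) : S.gv.b i j u = gB S i j u := rfl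

/-- the form on tuples -/
theorem g08b_herm {ι : Type} [Fintype ι] {h : M → M → ℂ} (hh : Herm h) :
    Herm (fun u v : ι → M => ∑ i, h (u i) (v i)) where
  add x y z := by
    simp only [Pi.add_apply, hh.add, Finset.sum_add_distrib]
  smul c x y := by
    simp only [Pi.smul_apply, hh.smul, Finset.mul_sum]
  symm x y := by
    rw [map_sum]
    exact Finset.sum_congr rfl fun i _ => hh.symm _ _
  pos x hx := by
    have hx' : ∃ i, x i ≠ 0 := by
      by_contra hcon
      push Not at hcon
      exact hx (funext hcon)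
    obtain ⟨i, hi⟩ := hx'
    rw [Complex.re_sum]
    refine Finset.sum_pos' (fun j _ => ?_) ⟨i, Finset.mem_univ _, hh.pos _ hi⟩
    by_cases hj : x j = 0
    · rw [hj, g05b_zeroL hh]
      simp
    · exact (hh.pos _ hj).le

theorem g08b_sumR {h : M → M → ℂ} (hh : Herm h) {ι : Type*} (s : Finset ι) (x : M) (f : ι → M) :
    h x (∑ i ∈ s, f i) = ∑ i ∈ s, h x (f i) := by
  rw [hh.symm, g05b_sumL hh, map_sum]
  exact Finset.sum_congr rfl fun i _ => (hh.symm _ _).symm

theorem g08b_iteL {h : M → M → ℂ} (hh : Herm h) {P : Prop} [Decidable P] (x y : M) :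
    h (if P then x else 0) y = if P then h x y else 0 := by
  by_cases hp : P <;> simp [hp, g05b_zeroL hh]

theorem g08b_iteR {h : M → M → ℂ} (hh : Herm h) {P : Prop} [Decidable P] (x y : M) :
    h x (if P then y else 0) = if P then h x y else 0 := by
  by_cases hp : P <;> simp [hp, g05b_zeroR hh]

/-- tuples with weight vectors as entries span -/
theorem g08b_span {ι : Type} [Fintype ι] [DecidableEq ι] (T : Submodule ℂ (ι → M)) (S : G0 m n M)
    (hS : (⨆ α : Fin m → ℤ, ⨆ β : Fin n → ℤ, S.Wsp α β) = ⊤)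
    (h : ∀ i α β, ∀ v ∈ S.Wsp α β, (Pi.single i v : ι → M) ∈ T) : T = ⊤ := by
  have h1 : ∀ i (v : M), (Pi.single i v : ι → M) ∈ T := by
    intro i v
    have hv : v ∈ (⨆ α : Fin m → ℤ, ⨆ β : Fin n → ℤ, S.Wsp α β) := by rw [hS]; exact Submodule.mem_top
    have hle : (⨆ α : Fin m → ℤ, ⨆ β : Fin n → ℤ, S.Wsp α β) ≤ T.comap (LinearMap.single ℂ (fun _ : ι => M) i) :=
      iSup_le fun α => iSup_le fun β => fun v hv => h i α β v hv
    exact hle hv
  rw [eq_top_iff]
  intro u _
  have h2 : u = ∑ i, (Pi.single i (u i) : ι → M) := by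
    funext j
    rw [Finset.sum_apply]
    simp [Pi.single_apply]
  rw [h2]
  exact Submodule.sum_mem _ fun i _ => h1 i (u i)

theorem g08b_wF (S : G0 m n M) (i : Fin m) (α β) (v : M) (hv : v ∈ S.Wsp α β) :
    (Pi.single i v : Fin m → M) ∈ S.fv.Wsp (α + Pi.single i 1) β := by
  obtain ⟨h1, h2⟩ := hv
  refine ⟨fun c => ?_, fun l => ?_⟩
  · rw [g08b_fa]
    funext p
    rw [g08a_fA]
    by_cases hp : p = i
    · subst hp
      simp only [Pi.single_eq_same, Pi.smul_apply, Pi.add_apply, h1 c]
      by_cases hc : p = c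
      · subst hc
        simp only [if_true, Pi.single_eq_same]
        push_cast
        module
      · rw [if_neg hc, Pi.single_eq_of_ne (Ne.symm hc)]
        push_cast
        module
    · simp only [Pi.smul_apply, Pi.single_eq_of_ne hp, map_zero, smul_zero, add_zero]
      by_cases hc : p = c
      · subst hc
        rw [if_pos rfl, Pi.single_eq_of_ne hp]
      · rw [if_neg hc]
  · rw [g08b_fb]
    funext p
    rw [g08a_fB]
    by_cases hp : p = i
    · subst hp
      simp only [Pi.single_eq_same, Pi.smul_apply, h2 l]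
    · simp only [Pi.smul_apply, Pi.single_eq_of_ne hp, map_zero, smul_zero]

theorem g08b_wG (S : G0 m n M) (i : Fin n) (α β) (v : M) (hv : v ∈ S.Wsp α β) :
    (Pi.single i v : Fin n → M) ∈ S.gv.Wsp α (β - Pi.single i 1) := by
  obtain ⟨h1, h2⟩ := hv
  refine ⟨fun c => ?_, fun c => ?_⟩
  · rw [g08b_ga]
    funext p
    rw [g08a_gA]
    by_cases hp : p = i
    · subst hp
      simp only [Pi.single_eq_same, Pi.smul_apply, h1 c]
    · simp only [Pi.smul_apply, Pi.single_eq_of_ne hp, map_zero, smul_zero]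
  · rw [g08b_gb]
    funext p
    rw [g08a_gB]
    by_cases hp : p = i
    · subst hp
      simp only [Pi.single_eq_same, Pi.smul_apply, Pi.sub_apply, h2 c]
      by_cases hc : p = c
      · subst hc
        simp only [if_true, Pi.single_eq_same]
        push_cast
        module
      · rw [if_neg hc, Pi.single_eq_of_ne (Ne.symm hc)]
        push_cast
        module
    · simp only [Pi.smul_apply, Pi.single_eq_of_ne hp, map_zero, smul_zero, add_zero]
      by_cases hc : p = c
      · subst hc
        rw [if_pos rfl, Pi.single_eq_of_ne hp, neg_zero]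
      · rw [if_neg hc, neg_zero]

theorem G08_tF_a (S : G0 m n M) (i j : Fin m) (u) : tF S (S.fv.a i j u) = S.fv.a i j (tF S u) := by
  rw [g08b_fa, g08b_fa]
  funext s
  have haa : ∀ c v, S.a i j (S.a c s v) = S.a c s (S.a i j v) + (if j = c then S.a i s v else 0)
      - (if s = i then S.a c j v else 0) := by
    intro c v
    have h := S.aa i j c s v
    rw [sub_eq_iff_eq_add] at h
    rw [h]
    abel
  simp only [g08b_tF, g08a_fA, map_add, map_sum, haa, g08a_map, Finset.sum_add_distrib,
    Finset.sum_sub_distrib, Finset.sum_ite_eq, Finset.sum_ite_eq', Finset.mem_univ, if_true]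
  by_cases h : s = i
  · simp only [if_pos h]
    abel
  · simp only [if_neg h, Finset.sum_const_zero]
    abel

theorem G08_tF_b (S : G0 m n M) (i j : Fin n) (u) : tF S (S.fv.b i j u) = S.fv.b i j (tF S u) := by
  rw [g08b_fb, g08b_fb]
  funext s
  simp only [g08b_tF, g08a_fB, map_sum, S.ab]

theorem G08_tG_a (S : G0 m n M) (i j : Fin m) (u) : tG S (S.gv.a i j u) = S.gv.a i j (tG S u) := by
  rw [g08b_ga, g08b_ga]
  funext s
  simp only [g08b_tG, g08a_gA, map_sum, S.ab]

theorem G08_tG_b (S : G0 m n M) (i j : Fin n) (u) : tG S (S.gv.b i j u) = S.gv.b i j (tG S u) := by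
  rw [g08b_gb, g08b_gb]
  funext s
  have hbb : ∀ p v, S.b i j (S.b s p v) = S.b s p (S.b i j v) + (if j = s then S.b i p v else 0)
      - (if p = i then S.b s j v else 0) := by
    intro p v
    have h := S.bb i j s p v
    rw [sub_eq_iff_eq_add] at h
    rw [h]
    abel
  simp only [g08b_tG, g08a_gB, map_add, map_sum, map_neg, hbb, g08a_map, Finset.sum_add_distrib,
    Finset.sum_sub_distrib, Finset.sum_neg_distrib, Finset.sum_ite_eq, Finset.sum_ite_eq', Finset.mem_univ, if_true]
  by_cases h : s = j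
  · simp only [if_pos h, if_pos h.symm]
    abel
  · simp only [if_neg h, if_neg (Ne.symm h), Finset.sum_const_zero]
    abel

/-- Both are good; `tF` and `tG` are self-adjoint for positive definite forms (used for
diagonalisability). -/
theorem G08_good (S : G0 m n M) (hS : S.Good) :
    S.fv.Good ∧ S.gv.Good ∧
    (∃ h : (Fin m → M) → (Fin m → M) → ℂ, Herm h ∧ ∀ u v, h (tF S u) v = h u (tF S v)) ∧
    ∃ h : (Fin n → M) → (Fin n → M) → ℂ, Herm h ∧ ∀ u v, h (tG S u) v = h u (tG S v) := by
  obtain ⟨⟨h, hh, hA, hB⟩, hsp⟩ := hS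
  refine ⟨⟨⟨_, g08b_herm hh, fun i j u v => ?_, fun i j u v => ?_⟩, ?_⟩, ⟨⟨_, g08b_herm hh, fun i j u v => ?_,
    fun i j u v => ?_⟩, ?_⟩, ⟨_, g08b_herm hh, fun u v => ?_⟩, ⟨_, g08b_herm hh, fun u v => ?_⟩⟩
  · rw [g08b_fa, g08b_fa]
    simp only [g08a_fA, hh.add, g05b_addR hh, g08b_iteL hh, g08b_iteR hh, Finset.sum_add_distrib, hA,
      Finset.sum_ite_eq', Finset.mem_univ, if_true]
  · rw [g08b_fb, g08b_fb]
    simp only [g08a_fB, hB]
  · refine g08b_span _ S hsp fun i α β v hv => ?_
    exact Submodule.mem_iSup_of_mem _ (Submodule.mem_iSup_of_mem _ (g08b_wF S i α β v hv))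
  · rw [g08b_ga, g08b_ga]
    simp only [g08a_gA, hA]
  · rw [g08b_gb, g08b_gb]
    simp only [g08a_gB, hh.add, g05b_addR hh, g05b_negL hh, g05b_negR hh, g08b_iteL hh, g08b_iteR hh,
      Finset.sum_add_distrib, Finset.sum_neg_distrib, hB, Finset.sum_ite_eq', Finset.mem_univ, if_true]
  · refine g08b_span _ S hsp fun i α β v hv => ?_
    exact Submodule.mem_iSup_of_mem _ (Submodule.mem_iSup_of_mem _ (g08b_wG S i α β v hv))
  · simp only [g08b_tF, g05b_sumL hh, g08b_sumR hh, hA]
    rw [Finset.sum_comm]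
  · simp only [g08b_tG, g05b_sumL hh, g08b_sumR hh, hB]
    rw [Finset.sum_comm]

end H95H
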