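import Pool.Agent.Lib.H95H.G07c
import Pool.Agent.Lib.H95H.G08b

namespace H95H

variable {m n k : ℕ} {M : Type} [AddCommGroup M] [Module ℂ M]

/-!
# Chunk G09: highest weight vectors in `F ⊗ W` and `G^* ⊗ W`

Let `W` be irreducible of highest weight `(α, β)`, `v ∈ W` its highest weight vector.
* `G09_F`: let `u : Fin m → M` be a nonzero highest weight vector of `F ⊗ M` with all `u i ∈ W`. Let
  `r` be the largest index with `u r ≠ 0`. For `i < j` the `r`-component of `a i j u = 0` is
  `(if r = i then u j else 0) + a i j (u r)`; if `i = r` then `j > r` and `u j = 0`; so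
  `a i j (u r) = 0`; also `b l q (u r) = 0` for `l < q`. So `u r` is a highest weight vector of `W`
  (its weight is the weight of `u` minus `e_r`), hence a multiple of `v` and of weight `(α, β)`
  (`G07_uniq`); so `u` has weight `(α + e_r, β)`. For `j < r`, the `j`-component of
  `a j r u = 0` is `u r + a j r (u j)`, so `a j r (u j) = - u r`. The `r`-component of `tF u` is
  `∑_j a j r (u j) = a r r (u r) + ∑_{j<r} (- u r) = (α r - r) • u r` (terms with `j > r` vanish). Now
  `tF u - (α r - r) • u` is again a highest weight vector of weight `(α + e_r, β)` with entries in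
  `W` (`G08_tF_a`, `G08_tF_b`, `tF` preserves `W`-valued vectors) and its entries with index `≥ r`
  vanish; if it were nonzero, the first part would give the weight `(α + e_{r'}, β)` with
  `r' < r`, a contradiction. So `tF u = (α r - r) • u`.
* `G09_G`: symmetric, with the smallest index `s` with `w s ≠ 0`: for `l < q` the `s`-component of
  `b l q w = 0` is `-(if s = q then w l else 0) + b l q (w s)`, and `w l = 0` if `q = s` (`l < s`). So
  `w s` is a multiple of `v`, the weight is `(α, β - e_s)`. For `p > s` the `p`-component of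
  `b s p w = 0` is `- w s + b s p (w p)`, so `b s p (w p) = w s` and the `s`-component of `tG w` is
  `∑_p b s p (w p) = β s • w s + (n - 1 - s) • w s`.
-/

/-- the leading entry of a highest weight vector -/
theorem g09a_first (S : G0 m n M) (hS : S.Good) (hfin : Module.Finite ℂ M) (α α' : Fin m → ℤ)
    (β β' : Fin n → ℤ) (W : Submodule ℂ M) (hW : S.Irr α β W) (u : Fin m → M)
    (hu : ∀ i, u i ∈ W) (hne : u ≠ 0) (hhw : S.fv.HW α' β' u) :
    ∃ r : Fin m, α' = α + Pi.single r 1 ∧ β' = β ∧ u r ≠ 0 ∧ (∀ j, r < j → u j = 0) ∧ S.HW α β (u r) := by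
  classical
  have hne' : (Finset.univ.filter fun i => u i ≠ 0).Nonempty := by
    by_contra hcon
    rw [Finset.not_nonempty_iff_eq_empty] at hcon
    apply hne
    funext i
    by_contra hi
    have : i ∈ (Finset.univ.filter fun i => u i ≠ 0) := Finset.mem_filter.2 ⟨Finset.mem_univ _, hi⟩
    rw [hcon] at this
    simp at this
  set r := (Finset.univ.filter fun i => u i ≠ 0).max' hne' with hr
  have hr0 : u r ≠ 0 := (Finset.mem_filter.1 (Finset.max'_mem _ hne')).2
  have hr1 : ∀ j, r < j → u j = 0 := by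
    intro j hj
    by_contra hcon
    exact absurd (Finset.le_max' _ j (Finset.mem_filter.2 ⟨Finset.mem_univ _, hcon⟩)) (not_le.2 hj)
  obtain ⟨⟨hwa, hwb⟩, ha, hb⟩ := hhw
  have ha' : ∀ i j, i < j → S.a i j (u r) = 0 := by
    intro i j hij
    have h := congrFun (ha i j hij) r
    rw [g08b_fa, g08a_fA] at h
    by_cases hri : r = i
    · rw [if_pos hri, hr1 j (by rw [hri]; exact hij), zero_add] at h
      exact h
    · rw [if_neg hri, zero_add] at h
      exact h
  have hb' : ∀ i j, i < j → S.b i j (u r) = 0 := by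
    intro i j hij
    have h := congrFun (hb i j hij) r
    rw [g08b_fb, g08a_fB] at h
    exact h
  have hw' : u r ∈ S.Wsp (α' - Pi.single r 1) β' := by
    refine ⟨fun i => ?_, fun l => ?_⟩
    · have h := congrFun (hwa i) r
      rw [g08b_fa, g08a_fA, Pi.smul_apply] at h
      have h2 : S.a i i (u r) = (α' i : ℂ) • u r - (if r = i then u i else 0) := by
        rw [← h]
        abel
      rw [h2, Pi.sub_apply]
      by_cases hri : r = i
      · rw [if_pos hri, ← hri, Pi.single_eq_same]
        push_cast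
        module
      · rw [if_neg hri, Pi.single_eq_of_ne (Ne.symm hri)]
        push_cast
        module
    · have h := congrFun (hwb l) r
      rw [g08b_fb, g08a_fB, Pi.smul_apply] at h
      exact h
  obtain ⟨v, hv, hvne, hvw⟩ := hW.hw
  obtain ⟨h1, h2, _⟩ := G07_uniq S hS hfin α (α' - Pi.single r 1) β β' W hW v (u r) hv hvw hvne (hu r)
    ⟨hw', ha', hb'⟩ hr0
  refine ⟨r, ?_, h2, hr0, hr1, ?_⟩
  · rw [← h1]
    abel
  · rw [← h1, ← h2]
    exact ⟨hw', ha', hb'⟩

theorem G09_F (S : G0 m n M) (hS : S.Good) (hfin : Module.Finite ℂ M) (α α' : Fin m → ℤ)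
    (β β' : Fin n → ℤ) (W : Submodule ℂ M) (hW : S.Irr α β W) (u : Fin m → M)
    (hu : ∀ i, u i ∈ W) (hne : u ≠ 0) (hhw : S.fv.HW α' β' u) :
    ∃ r : Fin m, α' = α + Pi.single r 1 ∧ β' = β ∧ u r ≠ 0 ∧ (∀ j, r < j → u j = 0) ∧
      S.HW α β (u r) ∧ tF S u = ((α r - r.1 : ℤ) : ℂ) • u := by
  classical
  obtain ⟨r, h1, h2, h3, h4, h5⟩ := g09a_first S hS hfin α α' β β' W hW u hu hne hhw
  refine ⟨r, h1, h2, h3, h4, h5, ?_⟩
  set c : ℂ := ((α r - r.1 : ℤ) : ℂ) with hc
  by_contra hcon
  set u' : Fin m → M := tF S u - c • u with hu'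
  have hu'ne : u' ≠ 0 := fun h => hcon (sub_eq_zero.1 h)
  have hstab := hW.stab
  have htW : ∀ i, tF S u i ∈ W := by
    intro i
    rw [g08b_tF]
    exact Submodule.sum_mem _ fun j _ => hstab.1 j i _ (hu j)
  have hu'W : ∀ i, u' i ∈ W := fun i => Submodule.sub_mem _ (htW i) (Submodule.smul_mem _ _ (hu i))
  have hhw' : S.fv.HW α' β' u' := by
    obtain ⟨hw, ha, hb⟩ := hhw
    refine ⟨?_, fun i j hij => ?_, fun i j hij => ?_⟩
    · refine Submodule.sub_mem _ ?_ (Submodule.smul_mem _ _ hw)
      refine ⟨fun i => ?_, fun l => ?_⟩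
      · rw [← G08_tF_a, hw.1 i, map_smul]
      · rw [← G08_tF_b, hw.2 l, map_smul]
    · rw [hu', map_sub, map_smul, ← G08_tF_a, ha i j hij, map_zero, smul_zero, sub_zero]
    · rw [hu', map_sub, map_smul, ← G08_tF_b, hb i j hij, map_zero, smul_zero, sub_zero]
  obtain ⟨r', g1, _, g3, _, _⟩ := g09a_first S hS hfin α α' β β' W hW u' hu'W hu'ne hhw'
  have hrr : r' = r := by
    rw [h1] at g1
    have g4 := congrFun (add_left_cancel g1) r
    rw [Pi.single_eq_same] at g4
    by_contra hne'
    rw [Pi.single_eq_of_ne (Ne.symm hne')] at g4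
    exact one_ne_zero g4
  apply g3
  rw [hrr]
  -- the entry at `r`
  have hterm : ∀ j, S.a j r (u j) = (if j < r then -u r else 0) + (if j = r then (α r : ℂ) • u r else 0) := by
    intro j
    rcases lt_trichotomy j r with hj | hj | hj
    · rw [if_pos hj, if_neg hj.ne, add_zero]
      have h := congrFun (hhw.2.1 j r hj) j
      rw [g08b_fa, g08a_fA, if_pos rfl] at h
      exact eq_neg_of_add_eq_zero_right h
    · rw [hj, if_neg (lt_irrefl _), if_pos rfl, zero_add]
      exact h5.1.1 r
    · rw [if_neg (not_lt.2 hj.le), if_neg hj.ne', h4 j hj, map_zero, add_zero]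
  have hcard : (Finset.univ.filter fun j : Fin m => j < r).card = r.1 := by
    have : (Finset.univ.filter fun j : Fin m => j < r) = Finset.Iio r := by
      ext j
      simp
    rw [this, Fin.card_Iio]
  rw [hu', Pi.sub_apply, Pi.smul_apply, g08b_tF]
  simp only [hterm]
  rw [Finset.sum_add_distrib, Finset.sum_ite_eq', if_pos (Finset.mem_univ _), ← Finset.sum_filter,
    Finset.sum_const, hcard, hc]
  push_cast
  module

end H95H
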