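import Pool.Agent.Lib.H95H.G09b
import Pool.Agent.Lib.H95H.G10a

namespace H95H

variable {m n k : ℕ} {M : Type} [AddCommGroup M] [Module ℂ M]

/-!
# Chunk G10: existence of the components of `F ⊗ W` and `G^* ⊗ W`

Let `W` be irreducible of highest weight `(α, β)`, `v ∈ W` its highest weight vector, and let
`α + e_r` be antitone. Put `c j = α j - j`. Claim: `c r` is an eigenvalue of `tF` on `W`-valued vectors.
Suppose not. `tF` maps the finite-dimensional space `E = {u | ∀ i, u i ∈ W}` to itself, so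
`c r - tF` is invertible on `E`; let `R` be its inverse; it commutes with the operators of `S.fv`. For
`j ≤ r` put `ξ^j = R (f_j ⊗ v)` where `f_j ⊗ v = Pi.single j v`. Its weight is `(α + e_j, β)`, the weights
of `W` have level at most that of `(α, β)` with equality only for multiples of `v` (`G07_lower` with
`W = S.low v`), so `(ξ^j)_i = 0` for `i > j` and `(ξ^j)_j = G_j • v` for a number `G_j`
(`(ξ^j)_i` has weight `(α + e_j - e_i, β)`). For `i < j` (with `j ≤ r`): `a i j` applied to `f_j ⊗ v` is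
`f_i ⊗ v`, so `a i j ξ^j = ξ^i`; compare the `i`-components: `(ξ^j)_j + a i j (ξ^j)_i = (ξ^i)_i`, i.e.
`a i j ((ξ^j)_i) = (G_i - G_j) • v`. The `j`-component of `(c r - tF) ξ^j = f_j ⊗ v` is
`c r • (ξ^j)_j - ∑_i a i j ((ξ^j)_i) = v`, i.e.
`(c r - α j) G_j - ∑_{i<j} (G_i - G_j) = 1`, i.e. `(c r - c j) G_j = 1 + ∑_{i<j} G_i` (`*`).
For `j < r`: `c j > c r`, and `c j - c r ≥ 2` unless `j = r - 1` and `α (r-1) = α r`, which is
excluded because `α + e_r` is antitone. So with `H_j = 1 + ∑_{i<j} G_i` we get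
`H_{j+1} = H_j (1 + 1/(c r - c j)) = H_j (c j - c r - 1)/(c j - c r) ≠ 0`, so `H_r ≠ 0` by induction; but
(`*`) for `j = r` says `0 = H_r`. Contradiction.
So the eigenspace of `tF` for `c r` in `E` is nonzero; it is stable (`G08_tF_a`, `G08_tF_b`), so by
`G06_hw` (for `S.fv`, good by `G08_good`) it contains a highest weight vector; by `G09_F` its weight
is `(α + e_s, β)` with `α s - s = α r - r`, and `α` is antitone (`G06_dom`), so `s = r`.

`G10_G` (for `β - e_s` antitone): the same with `d l = β l + (n - 1 - l)`, `ξ^l = R (g^l ⊗ v)`,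
`R = (d s - tG)⁻¹`, `(ξ^l)_p = 0` for `p < l`, `(ξ^l)_l = G_l • v`; for `p > l`,
`b l p (g^l ⊗ v) = - g^p ⊗ v` gives (component `p`) `b l p ((ξ^l)_p) - (ξ^l)_l = - (ξ^p)_p`, i.e.
`b l p ((ξ^l)_p) = (G_l - G_p) • v`; the `l`-component of `(d s - tG) ξ^l = g^l ⊗ v` is
`(d s - β l) G_l - ∑_{p>l} (G_l - G_p) = 1`, i.e. `(d s - d l) G_l = 1 - ∑_{p>l} G_p`. For `l > s`,
`d s - d l ≥ 2` (as `β - e_s` is antitone), and `H_{l-1} = H_l (1 - 1/(d s - d l)) ≠ 0` for
`H_l = 1 - ∑_{p>l} G_p`; contradiction for `l = s`.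
-/

theorem g10b_num {m : ℕ} (G : Fin m → ℂ) (c : Fin m → ℤ) (r : Fin m)
    (hc : ∀ j, r < j → c r - c j ≠ 0 ∧ c r - c j - 1 ≠ 0)
    (hG : ∀ j, ((c r - c j : ℤ) : ℂ) * G j =
      1 - ∑ i ∈ Finset.univ.filter (fun i : Fin m => j < i), G i) : False := by
  refine g10a_num (fun i => -G i.rev) (fun i => -c i.rev) r.rev (fun j hj => ?_) (fun j => ?_)
  · have h1 : r < j.rev := by
      rw [← Fin.rev_lt_rev, Fin.rev_rev]
      exact hj
    obtain ⟨h2, h3⟩ := hc _ h1
    simp only [Fin.rev_rev]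
    constructor
    · intro h
      apply h2
      omega
    · intro h
      apply h3
      omega
  · have h1 := hG j.rev
    simp only [Fin.rev_rev]
    have h2 : ∑ i ∈ Finset.univ.filter (fun i : Fin m => i < j), -G i.rev =
        -∑ i ∈ Finset.univ.filter (fun i : Fin m => j.rev < i), G i := by
      rw [Finset.sum_neg_distrib]
      congr 1
      apply Finset.sum_equiv Fin.revPerm
      · intro i
        simp only [Finset.mem_filter, Finset.mem_univ, true_and, Fin.revPerm_apply,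
          Fin.rev_lt_rev]
      · intro i _
        rfl
    rw [h2]
    push_cast at h1 ⊢
    linear_combination h1

theorem g10b_ga (S : G0 m n M) (i j : Fin m) (u : Fin n → M) (p : Fin n) :
    S.gv.a i j u p = S.a i j (u p) := rfl

theorem g10b_gb (S : G0 m n M) (i j : Fin n) (u : Fin n → M) (p : Fin n) :
    S.gv.b i j u p = -(if p = j then u i else 0) + S.b i j (u p) := rfl

theorem g10b_tG (S : G0 m n M) (u : Fin n → M) (p : Fin n) :
    tG S u p = ∑ j, S.b p j (u j) := rfl

theorem g10b_stab (S : G0 m n M) (W : Submodule ℂ M) (hW : S.Stab W) :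
    S.gv.Stab (g10aE n W) := by
  refine ⟨fun i j u hu p => ?_, fun i j u hu p => ?_⟩
  · rw [g10b_ga]
    exact hW.1 i j _ (hu p)
  · rw [g10b_gb]
    refine W.add_mem (W.neg_mem ?_) (hW.2 i j _ (hu p))
    split_ifs
    · exact hu i
    · exact W.zero_mem

theorem g10b_tGE (S : G0 m n M) (W : Submodule ℂ M) (hW : S.Stab W) (u : Fin n → M)
    (hu : u ∈ g10aE n W) : tG S u ∈ g10aE n W := by
  intro p
  rw [g10b_tG]
  exact W.sum_mem fun j _ => hW.2 p j _ (hu j)

theorem g10b_rel (S : G0 m n M) (hS : S.Good) (hfin : Module.Finite ℂ M) (α : Fin m → ℤ)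
    (β : Fin n → ℤ) (W : Submodule ℂ M) (hW : S.Irr α β W) (v : M) (hvW : v ∈ W) (hv : v ≠ 0)
    (hhw : S.HW α β v) (c : ℤ)
    (hno : ∀ u ∈ g10aE n W, tG S u = (c : ℂ) • u → u = 0) :
    ∃ G : Fin n → ℂ, ∀ j : Fin n, ((c - (β j + (n - 1 - j.1)) : ℤ) : ℂ) * G j =
      1 - ∑ i ∈ Finset.univ.filter (fun i : Fin n => j < i), G i := by
  classical
  have hlow := g10a_low S hS hfin α β W hW v hvW hv hhw
  have hL := G07_lower S α β v hhw
  let T : ↥(g10aE n W) →ₗ[ℂ] ↥(g10aE n W) :=
    ((c : ℂ) • LinearMap.id - tG S).restrict (fun u hu => by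
      simp only [LinearMap.sub_apply, LinearMap.smul_apply, LinearMap.id_apply]
      exact (g10aE n W).sub_mem ((g10aE n W).smul_mem _ hu) (g10b_tGE S W hW.stab u hu))
  have hT : ∀ u : ↥(g10aE n W), ((T u : ↥(g10aE n W)) : Fin n → M) =
      (c : ℂ) • (u : Fin n → M) - tG S (u : Fin n → M) := fun u => rfl
  have hTinj : Function.Injective T := by
    rw [injective_iff_map_eq_zero]
    intro u hu
    have h1 : (c : ℂ) • (u : Fin n → M) - tG S (u : Fin n → M) = 0 := by
      rw [← hT, hu]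
      rfl
    apply Subtype.ext
    exact hno u.1 u.2 (sub_eq_zero.1 h1).symm
  have hTsur : Function.Surjective T := LinearMap.injective_iff_surjective.1 hTinj
  have hsing : ∀ j : Fin n, (Pi.single j v : Fin n → M) ∈ g10aE n W := by
    intro j i
    by_cases h : i = j
    · subst h
      rw [Pi.single_eq_same]
      exact hvW
    · rw [Pi.single_eq_of_ne h]
      exact W.zero_mem
  have hex : ∀ j : Fin n, ∃ u : Fin n → M, u ∈ g10aE n W ∧
      (c : ℂ) • u - tG S u = Pi.single j v := by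
    intro j
    obtain ⟨u, hu⟩ := hTsur ⟨Pi.single j v, hsing j⟩
    refine ⟨u.1, u.2, ?_⟩
    rw [← hT, hu]
  choose ξ hξE hξ using hex
  have huniq : ∀ u ∈ g10aE n W, ∀ u' ∈ g10aE n W,
      (c : ℂ) • u - tG S u = (c : ℂ) • u' - tG S u' → u = u' := by
    intro u hu u' hu' h
    have h1 : u - u' = 0 := by
      apply hno _ ((g10aE n W).sub_mem hu hu')
      rw [map_sub, smul_sub]
      have h4 : (c : ℂ) • u - tG S u - ((c : ℂ) • u' - tG S u') = 0 := sub_eq_zero.2 h
      have h5 : tG S u - tG S u' = (c : ℂ) • u - (c : ℂ) • u' -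
          ((c : ℂ) • u - tG S u - ((c : ℂ) • u' - tG S u')) := by abel
      rw [h5, h4, sub_zero]
    exact sub_eq_zero.1 h1
  have hvW2 := hhw.1
  have hwb : ∀ j p : Fin n, S.gv.b p p (ξ j) = ((β p - if p = j then 1 else 0 : ℤ) : ℂ) • ξ j := by
    intro j p
    apply huniq _ ((g10b_stab S W hW.stab).2 p p _ (hξE j)) _ ((g10aE n W).smul_mem _ (hξE j))
    rw [G08_tG_b, ← map_smul, ← map_sub, hξ, map_smul, smul_comm, ← smul_sub, hξ]
    funext q
    rw [g10b_gb]
    by_cases hq : q = j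
    · subst hq
      rw [Pi.smul_apply, Pi.single_eq_same, hvW2.2 p]
      by_cases hp : p = q
      · subst hp
        rw [if_pos rfl, if_pos rfl, Pi.single_eq_same]
        push_cast
        rw [sub_smul, one_smul]
        abel
      · rw [if_neg (Ne.symm hp), if_neg hp, neg_zero, zero_add]
        simp
    · rw [Pi.smul_apply, Pi.single_eq_of_ne hq, map_zero, smul_zero, add_zero]
      by_cases hp : q = p
      · subst hp
        rw [if_pos rfl, Pi.single_eq_of_ne hq, neg_zero]
      · rw [if_neg hp, neg_zero]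
  have hwa : ∀ (j : Fin n) (l : Fin m), S.gv.a l l (ξ j) = ((α l : ℤ) : ℂ) • ξ j := by
    intro j l
    apply huniq _ ((g10b_stab S W hW.stab).1 l l _ (hξE j)) _ ((g10aE n W).smul_mem _ (hξE j))
    rw [G08_tG_a, ← map_smul, ← map_sub, hξ, map_smul, smul_comm, ← smul_sub, hξ]
    funext q
    rw [g10b_ga]
    by_cases hq : q = j
    · subst hq
      rw [Pi.smul_apply, Pi.single_eq_same, hvW2.1 l]
    · rw [Pi.smul_apply, Pi.single_eq_of_ne hq, map_zero, smul_zero]
  have hcomp : ∀ j i : Fin n, ξ j i ∈ S.Wsp α (β - Pi.single j 1 + Pi.single i 1) := by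
    intro j i
    refine ⟨fun l => ?_, fun p => ?_⟩
    · have h1 := congrFun (hwa j l) i
      rw [g10b_ga, Pi.smul_apply] at h1
      exact h1
    · have h1 := congrFun (hwb j p) i
      rw [g10b_gb, Pi.smul_apply] at h1
      have h2 : S.b p p (ξ j i) = ((β p - if p = j then 1 else 0 : ℤ) : ℂ) • ξ j i +
          (if i = p then ξ j p else 0) := by
        rw [← h1]
        abel
      rw [h2]
      have h3 : (if i = p then ξ j p else 0) = ((if i = p then (1 : ℤ) else 0 : ℤ) : ℂ) • ξ j i := by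
        by_cases h : i = p
        · subst h
          simp
        · simp [h]
      rw [h3, ← add_smul]
      congr 1
      simp only [Pi.add_apply, Pi.sub_apply, Pi.single_apply]
      have h4 : (if i = p then (1 : ℤ) else 0) = if p = i then 1 else 0 := by
        by_cases h : i = p
        · simp [h]
        · rw [if_neg h, if_neg (Ne.symm h)]
      rw [h4]
      push_cast
      ring
  have hmem : ∀ j i : Fin n, ξ j i ∈ S.low v := fun j i => hlow ▸ hξE j i
  have hzero : ∀ j i : Fin n, i < j → ξ j i = 0 := by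
    intro j i hji
    by_contra hne
    have hne2 : β - Pi.single j 1 + Pi.single i 1 ≠ β := by
      intro h
      have h1 := congrFun h i
      simp only [Pi.add_apply, Pi.sub_apply, Pi.single_apply, if_true] at h1
      rw [if_neg (ne_of_lt hji)] at h1
      omega
    have h1 := hL.2.2 _ _ _ (hmem j i) (hcomp j i) hne (Or.inr hne2)
    have h2 : ∑ p : Fin n, ((n : ℤ) - p) * (β - Pi.single j 1 + Pi.single i 1 : Fin n → ℤ) p =
        ∑ p : Fin n, ((n : ℤ) - p) * β p - ((n : ℤ) - j) + ((n : ℤ) - i) := by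
      have h3 : ∀ p : Fin n, ((n : ℤ) - p) * (β - Pi.single j 1 + Pi.single i 1 : Fin n → ℤ) p =
          ((n : ℤ) - p) * β p - (if p = j then ((n : ℤ) - p) else 0) +
            (if p = i then ((n : ℤ) - p) else 0) := by
        intro p
        simp only [Pi.add_apply, Pi.sub_apply, Pi.single_apply]
        split_ifs <;> ring
      rw [Finset.sum_congr rfl fun p _ => h3 p, Finset.sum_add_distrib, Finset.sum_sub_distrib,
        Finset.sum_ite_eq', Finset.sum_ite_eq']
      simp
    rw [h2] at h1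
    have h4 : (i.1 : ℤ) < (j.1 : ℤ) := by exact_mod_cast hji
    omega
  have hG : ∀ j : Fin n, ∃ g : ℂ, ξ j j = g • v := by
    intro j
    apply hL.2.1 _ (hmem j j)
    have h1 := hcomp j j
    rwa [sub_add_cancel] at h1
  choose G hG using hG
  refine ⟨G, fun j => ?_⟩
  have hij : ∀ i : Fin n, j < i → S.b j i (ξ j i) = (G j - G i) • v := by
    intro i hi
    have h1 : S.gv.b j i (ξ j) = -ξ i := by
      apply huniq _ ((g10b_stab S W hW.stab).2 j i _ (hξE j)) _ ((g10aE n W).neg_mem (hξE i))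
      rw [G08_tG_b, ← map_smul, ← map_sub, hξ, map_neg, smul_neg, ← neg_sub', hξ]
      funext q
      rw [g10b_gb]
      have h2 : S.b j i ((Pi.single j v : Fin n → M) q) = 0 := by
        by_cases hq : q = j
        · subst hq
          rw [Pi.single_eq_same]
          exact hhw.2.2 q i hi
        · rw [Pi.single_eq_of_ne hq, map_zero]
      rw [h2, add_zero, Pi.single_eq_same, Pi.neg_apply]
      by_cases hq : q = i
      · subst hq
        rw [if_pos rfl, Pi.single_eq_same]
      · rw [if_neg hq, Pi.single_eq_of_ne hq]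
    have h2 := congrFun h1 i
    rw [g10b_gb, if_pos rfl, Pi.neg_apply, hG j, hG i] at h2
    have h3 : S.b j i (ξ j i) = G j • v + (-(G j • v) + S.b j i (ξ j i)) := by abel
    rw [h3, h2, sub_smul]
    abel
  have h1 := congrFun (hξ j) j
  rw [Pi.sub_apply, Pi.smul_apply, Pi.single_eq_same, g10b_tG, hG j] at h1
  have h2 : ∑ i, S.b j i (ξ j i) =
      ((β j : ℂ) * G j) • v + ∑ i ∈ Finset.univ.filter (fun i : Fin n => j < i), (G j - G i) • v := by
    rw [Finset.sum_filter, ← Finset.add_sum_erase Finset.univ (fun i => S.b j i (ξ j i))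
        (Finset.mem_univ j),
      ← Finset.add_sum_erase Finset.univ (fun i => if j < i then (G j - G i) • v else 0)
        (Finset.mem_univ j)]
    simp only [lt_irrefl, if_false, zero_add]
    congr 1
    · rw [hG j, map_smul, hvW2.2 j, smul_smul, mul_comm]
    · apply Finset.sum_congr rfl
      intro i hi
      rcases lt_trichotomy j i with h | h | h
      · rw [if_pos h, hij i h]
      · exact absurd h.symm (Finset.ne_of_mem_erase hi)
      · rw [if_neg (not_lt.2 h.le), hzero j i h, map_zero]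
  rw [h2, ← Finset.sum_smul, smul_smul, ← add_smul, ← sub_smul] at h1
  have h3 : ((c : ℂ) * G j - ((β j : ℂ) * G j +
      ∑ i ∈ Finset.univ.filter (fun i : Fin n => j < i), (G j - G i))) = 1 := by
    by_contra hne
    apply hv
    have h4 : (((c : ℂ) * G j - ((β j : ℂ) * G j +
      ∑ i ∈ Finset.univ.filter (fun i : Fin n => j < i), (G j - G i))) - 1) • v = 0 := by
      rw [sub_smul, h1, one_smul, sub_self]
    exact (smul_eq_zero.1 h4).resolve_left (sub_ne_zero.2 hne)
  rw [Finset.sum_sub_distrib, Finset.sum_const, nsmul_eq_mul] at h3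
  have h5 : ((Finset.univ.filter (fun i : Fin n => j < i)).card : ℂ) = (n : ℂ) - 1 - j.1 := by
    rw [Finset.filter_lt_eq_Ioi, Fin.card_Ioi]
    have h6 : n - 1 - j.1 + (1 + j.1) = n := by omega
    have h7 : ((n - 1 - j.1 : ℕ) : ℂ) + (1 + (j.1 : ℂ)) = n := by exact_mod_cast h6
    linear_combination h7
  rw [h5] at h3
  push_cast
  linear_combination h3

theorem G10_G (S : G0 m n M) (hS : S.Good) (hfin : Module.Finite ℂ M) (α : Fin m → ℤ)
    (β : Fin n → ℤ) (W : Submodule ℂ M) (hW : S.Irr α β W) (s : Fin n)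
    (hs : Antitone (β - Pi.single s 1)) :
    ∃ w : Fin n → M, w ≠ 0 ∧ (∀ i, w i ∈ W) ∧ S.gv.HW α (β - Pi.single s 1) w ∧
      tG S w = ((β s + (n - 1 - s.1 : ℤ) : ℤ) : ℂ) • w := by
  obtain ⟨v, hvW, hv, hhw⟩ := hW.hw
  have hex : ∃ u ∈ g10aE n W, tG S u = ((β s + (n - 1 - s.1 : ℤ) : ℤ) : ℂ) • u ∧ u ≠ 0 := by
    by_contra hno
    push Not at hno
    obtain ⟨G, hG⟩ := g10b_rel S hS hfin α β W hW v hvW hv hhw (β s + (n - 1 - s.1))
      (fun u hu h => hno u hu h)
    refine g10b_num G (fun j => β j + (n - 1 - j.1)) s (fun j hj => ?_) hG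
    have h1 := hs hj.le
    simp only [Pi.sub_apply, Pi.single_apply, if_true] at h1
    rw [if_neg (ne_of_gt hj)] at h1
    have h2 : (s.1 : ℤ) < (j.1 : ℤ) := by exact_mod_cast hj
    constructor <;> omega
  let N : Submodule ℂ (Fin n → M) :=
    g10aE n W ⊓ LinearMap.ker (tG S - ((β s + (n - 1 - s.1 : ℤ) : ℤ) : ℂ) • LinearMap.id)
  have hNmem : ∀ u, u ∈ N ↔ u ∈ g10aE n W ∧
      tG S u = ((β s + (n - 1 - s.1 : ℤ) : ℤ) : ℂ) • u := by
    intro u
    rw [Submodule.mem_inf, LinearMap.mem_ker, LinearMap.sub_apply, LinearMap.smul_apply,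
      LinearMap.id_apply, sub_eq_zero]
  have hNstab : S.gv.Stab N := by
    refine ⟨fun i j u hu => ?_, fun i j u hu => ?_⟩
    · rw [hNmem] at hu ⊢
      refine ⟨(g10b_stab S W hW.stab).1 i j u hu.1, ?_⟩
      rw [G08_tG_a, hu.2, map_smul]
    · rw [hNmem] at hu ⊢
      refine ⟨(g10b_stab S W hW.stab).2 i j u hu.1, ?_⟩
      rw [G08_tG_b, hu.2, map_smul]
  have hNne : N ≠ ⊥ := by
    obtain ⟨u, hu, h1, h2⟩ := hex
    intro h
    apply h2
    have h3 : u ∈ N := (hNmem u).2 ⟨hu, h1⟩
    rw [h] at h3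
    exact (Submodule.mem_bot ℂ).1 h3
  obtain ⟨u, huN, hune, α', β', huhw⟩ :=
    G06_hw S.gv (G08_good S hS).2.1 N inferInstance hNstab hNne
  rw [hNmem] at huN
  obtain ⟨r, hr1, hr2, hr3, hr4, hr5, hr6⟩ := G09_G S hS hfin α α' β β' W hW u huN.1 hune huhw
  have h1 : ((β s + (n - 1 - s.1 : ℤ) : ℤ) : ℂ) = ((β r + (n - 1 - r.1 : ℤ) : ℤ) : ℂ) := by
    by_contra hne
    apply hune
    have h2 : (((β s + (n - 1 - s.1 : ℤ) : ℤ) : ℂ) - ((β r + (n - 1 - r.1 : ℤ) : ℤ) : ℂ)) • u =
        0 := by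
      rw [sub_smul, ← huN.2, ← hr6, sub_self]
    exact (smul_eq_zero.1 h2).resolve_left (sub_ne_zero.2 hne)
  have h2 : β s + (n - 1 - s.1 : ℤ) = β r + (n - 1 - r.1 : ℤ) := by exact_mod_cast h1
  have hanti := (G06_dom S hS α β v hhw hv).2
  have hsr : r = s := by
    rcases lt_trichotomy r s with h | h | h
    · have h3 := hanti h.le
      have h4 : (r.1 : ℤ) < (s.1 : ℤ) := by exact_mod_cast h
      omega
    · exact h
    · have h3 := hanti h.le
      have h4 : (s.1 : ℤ) < (r.1 : ℤ) := by exact_mod_cast h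
      omega
  subst hsr
  refine ⟨u, hune, huN.1, ?_, huN.2⟩
  rw [← hr1, ← hr2]
  exact huhw

end H95H
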