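import Pool.Agent.Lib.H95H.G10a

namespace H95H

variable {m n k : ℕ} {M : Type} [AddCommGroup M] [Module ℂ M]

/-- the eigenspace of `tF` in `F ⊗ W` (shifted by `n`) -/
def EF (S : G0 m n M) (W : Submodule ℂ M) (t : ℤ) : Submodule ℂ (Fin m → M) where
  carrier := {u | (∀ i, u i ∈ W) ∧ tF S u = ((t - n : ℤ) : ℂ) • u}
  add_mem' := by
    rintro u v ⟨h1, h2⟩ ⟨g1, g2⟩
    exact ⟨fun i => W.add_mem (h1 i) (g1 i), by rw [map_add, h2, g2, smul_add]⟩
  zero_mem' := ⟨fun i => W.zero_mem, by rw [map_zero, smul_zero]⟩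
  smul_mem' := by
    rintro r v ⟨h1, h2⟩
    exact ⟨fun i => W.smul_mem r (h1 i), by rw [map_smul, h2, smul_comm]⟩

/-- the eigenspace of `tG` in `G^* ⊗ W` -/
def EG (S : G0 m n M) (W : Submodule ℂ M) (t : ℤ) : Submodule ℂ (Fin n → M) where
  carrier := {u | (∀ i, u i ∈ W) ∧ tG S u = (t : ℂ) • u}
  add_mem' := by
    rintro u v ⟨h1, h2⟩ ⟨g1, g2⟩
    exact ⟨fun i => W.add_mem (h1 i) (g1 i), by rw [map_add, h2, g2, smul_add]⟩
  zero_mem' := ⟨fun i => W.zero_mem, by rw [map_zero, smul_zero]⟩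
  smul_mem' := by
    rintro r v ⟨h1, h2⟩
    exact ⟨fun i => W.smul_mem r (h1 i), by rw [map_smul, h2, smul_comm]⟩

/-!
# Chunk G11: the eigenspaces are irreducible

* `G11_F`: if `t - n = α r - r` with `α + e_r` antitone then `EF S W t` is irreducible of highest
  weight `(α + e_r, β)`. It is stable (`G08_tF_a`, `G08_tF_b`), contains a highest weight vector
  of this weight (`G10_F`), and two highest weight vectors `u`, `u'` in it are proportional: by
  `G09_F` both have top index `s` with `α s - s = t - n`, i.e. `s = r` (`α` antitone), and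
  `u r = c v`, `u' r = c' v`; then `c' u - c u'` would be a highest weight vector with smaller top
  index, so it is zero. A stable proper nonzero subspace and its complement (`G06_perp`) would each
  contain a highest weight vector (`G06_hw`).
* `G11_F0`: if `EF S W t ≠ ⊥` it contains a highest weight vector, and `G09_F`, `G06_dom` (antitone
  weight) give the index `r`.
* `G11_Fspan`: `tF` is self-adjoint for a positive definite form (`G08_good`), hence diagonalisable on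
  the finite-dimensional space of `W`-valued vectors; each eigenspace is stable and contains a
  highest weight vector, so the eigenvalue is an integer `α r - r` by `G09_F`.
* `G11_dimF`: the eigenspaces are independent, so dimensions add up.
The same for `G`.
-/

theorem g11a_h {E : Type} [AddCommGroup E] [Module ℂ E] (h : E → E → ℂ) (hh : Herm h)
    (T : E →ₗ[ℂ] E) (hT : ∀ u v, h (T u) v = h u (T v)) (μ : ℂ) (w : E) (hw : T w = μ • w)
    (v : E) (hv : T v - μ • v = w) : w = 0 := by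
  by_contra hne
  have h1 : h w w ≠ 0 := by
    intro h0
    have h2 := hh.pos w hne
    rw [h0, Complex.zero_re] at h2
    exact lt_irrefl _ h2
  have hr : ∀ (r : ℂ) u v, h u (r • v) = starRingEnd ℂ r * h u v := by
    intro r u v
    rw [hh.symm (r • v) u, hh.smul, map_mul, ← hh.symm v u]
  have h3 : μ = starRingEnd ℂ μ := by
    have h4 := hT w w
    rw [hw, hh.smul, hr] at h4
    exact mul_right_cancel₀ h1 h4
  have h5 : h w w = h (T v) w - h (μ • v) w := by
    have h6 : h (T v) w = h (w + μ • v) w := by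
      rw [← hv]
      congr 1
      abel
    rw [h6, hh.add, add_sub_cancel_right]
  rw [hT, hw, hr, hh.smul, ← h3, sub_self] at h5
  exact h1 h5

theorem g11a_span {M' : Type} [AddCommGroup M'] [Module ℂ M'] [Module.Finite ℂ M']
    (S' : G0 m n M') (hS' : S'.Good) (E : Submodule ℂ M') (hE : S'.Stab E) (T : M' →ₗ[ℂ] M')
    (hTE : ∀ u ∈ E, T u ∈ E) (hTa : ∀ i j u, T (S'.a i j u) = S'.a i j (T u))
    (hTb : ∀ i j u, T (S'.b i j u) = S'.b i j (T u)) (h : M' → M' → ℂ) (hh : Herm h)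
    (hT : ∀ u v, h (T u) v = h u (T v))
    (hkey : ∀ u ∈ E, u ≠ 0 → ∀ α β, S'.HW α β u → ∃ c : ℤ, T u = (c : ℂ) • u)
    (F : ℤ → Submodule ℂ M') (hF : ∀ (c : ℤ) (u : M'), u ∈ E → T u = (c : ℂ) • u → u ∈ F c) :
    ∀ u ∈ E, u ∈ ⨆ c, F c := by
  have hmem : ∀ (μ : ℂ) (u : M'), u ∈ E → T u = μ • u → u ∈ ⨆ c, F c := by
    intro μ u hu huμ
    by_cases hu0 : u = 0
    · rw [hu0]
      exact zero_mem _
    let N : Submodule ℂ M' := E ⊓ LinearMap.ker (T - μ • LinearMap.id)
    have hNmem : ∀ u, u ∈ N ↔ u ∈ E ∧ T u = μ • u := by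
      intro u
      rw [Submodule.mem_inf, LinearMap.mem_ker, LinearMap.sub_apply, LinearMap.smul_apply,
        LinearMap.id_apply, sub_eq_zero]
    have hNstab : S'.Stab N := by
      refine ⟨fun i j u hu => ?_, fun i j u hu => ?_⟩
      · rw [hNmem] at hu ⊢
        exact ⟨hE.1 i j u hu.1, by rw [hTa, hu.2, map_smul]⟩
      · rw [hNmem] at hu ⊢
        exact ⟨hE.2 i j u hu.1, by rw [hTb, hu.2, map_smul]⟩
    have hNne : N ≠ ⊥ := by
      intro h3
      have h4 : u ∈ N := (hNmem u).2 ⟨hu, huμ⟩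
      rw [h3] at h4
      exact hu0 ((Submodule.mem_bot ℂ).1 h4)
    obtain ⟨v, hvN, hvne, α', β', hvhw⟩ := G06_hw S' hS' N inferInstance hNstab hNne
    rw [hNmem] at hvN
    obtain ⟨c, hc⟩ := hkey v hvN.1 hvne α' β' hvhw
    have h5 : μ = (c : ℂ) := by
      by_contra hne
      apply hvne
      have h6 : (μ - (c : ℂ)) • v = 0 := by rw [sub_smul, ← hvN.2, ← hc, sub_self]
      exact (smul_eq_zero.1 h6).resolve_left (sub_ne_zero.2 hne)
    rw [h5] at huμ
    exact Submodule.mem_iSup_of_mem c (hF c u hu huμ)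
  let T' : Module.End ℂ ↥E := T.restrict hTE
  have hT' : ∀ u : ↥E, ((T' u : ↥E) : M') = T (u : M') := fun u => rfl
  have hgen : ∀ μ : ℂ, T'.maxGenEigenspace μ ≤ (⨆ c, F c).comap E.subtype := by
    intro μ x hx
    rw [Module.End.mem_maxGenEigenspace] at hx
    obtain ⟨k, hk⟩ := hx
    have h7 : ∀ k : ℕ, ((T' - μ • (1 : Module.End ℂ ↥E)) ^ k) x = 0 →
        ((T' - μ • (1 : Module.End ℂ ↥E))) x = 0 := by
      intro k
      induction k with
      | zero =>
        intro h0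
        rw [pow_zero, Module.End.one_apply] at h0
        rw [h0, map_zero]
      | succ k ih =>
        intro h0
        rcases k with _ | k
        · rw [zero_add, pow_one] at h0
          exact h0
        · apply ih
          rw [pow_succ', pow_succ', Module.End.mul_apply, Module.End.mul_apply] at h0
          rw [pow_succ', Module.End.mul_apply]
          set v := ((T' - μ • (1 : Module.End ℂ ↥E)) ^ k) x with hv
          have h8 : ∀ z : ↥E, (((T' - μ • (1 : Module.End ℂ ↥E)) z : ↥E) : M') =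
              T (z : M') - μ • (z : M') := fun z => rfl
          apply Subtype.ext
          have h9 : T (((T' - μ • (1 : Module.End ℂ ↥E)) v : ↥E) : M') =
              μ • (((T' - μ • (1 : Module.End ℂ ↥E)) v : ↥E) : M') := by
            have h10 := congrArg Subtype.val h0
            rw [h8] at h10
            exact sub_eq_zero.1 h10
          exact g11a_h h hh T hT μ _ h9 (v : M') (h8 v).symm
    have h8 := h7 k hk
    have h9 : T (x : M') - μ • (x : M') = 0 := congrArg Subtype.val h8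
    exact hmem μ x x.2 (sub_eq_zero.1 h9)
  intro u hu
  have h1 : (⟨u, hu⟩ : ↥E) ∈ ⨆ μ : ℂ, T'.maxGenEigenspace μ := by
    rw [Module.End.iSup_maxGenEigenspace_eq_top T']
    exact Submodule.mem_top
  exact (iSup_le hgen) h1

theorem g11a_irr {M' : Type} [AddCommGroup M'] [Module ℂ M'] [Module.Finite ℂ M']
    (S' : G0 m n M') (hS' : S'.Good) (N : Submodule ℂ M') (hN : S'.Stab N) (α : Fin m → ℤ)
    (β : Fin n → ℤ) (hex : ∃ v ∈ N, v ≠ 0 ∧ S'.HW α β v)
    (hprop : ∀ u ∈ N, u ≠ 0 → ∀ u' ∈ N, u' ≠ 0 → (∃ α β, S'.HW α β u) → (∃ α β, S'.HW α β u') →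
      ∃ r : ℂ, u' = r • u) : S'.Irr α β N := by
  refine ⟨hN, hex, fun W' hle hW' => ?_⟩
  by_cases h1 : W' = ⊥
  · exact Or.inl h1
  · right
    obtain ⟨N'', hN''s, hN''le, hinf, hsup⟩ := G06_perp S' hS' W' N inferInstance hW' hN hle
    by_cases h2 : N'' = ⊥
    · rw [h2, sup_bot_eq] at hsup
      exact hsup
    · exfalso
      obtain ⟨u, hu, hune, hu'⟩ := G06_hw S' hS' W' inferInstance hW' h1
      obtain ⟨v, hv, hvne, hv'⟩ := G06_hw S' hS' N'' inferInstance hN''s h2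
      obtain ⟨r, hr⟩ := hprop u (hle hu) hune v (hN''le hv) hvne hu' hv'
      have h3 : v ∈ W' ⊓ N'' := ⟨by rw [hr]; exact W'.smul_mem r hu, hv⟩
      rw [hinf] at h3
      exact hvne ((Submodule.mem_bot ℂ).1 h3)

theorem g11a_EFstab (S : G0 m n M) (W : Submodule ℂ M) (hW : S.Stab W) (t : ℤ) :
    S.fv.Stab (EF S W t) := by
  refine ⟨fun i j u hu => ⟨(g10a_stab S W hW).1 i j u hu.1, ?_⟩,
    fun i j u hu => ⟨(g10a_stab S W hW).2 i j u hu.1, ?_⟩⟩
  · rw [G08_tF_a, hu.2, map_smul]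
  · rw [G08_tF_b, hu.2, map_smul]

theorem g11a_eig {E : Type} [AddCommGroup E] [Module ℂ E] (T : E →ₗ[ℂ] E) (c d : ℤ) (u : E)
    (hu : u ≠ 0) (h1 : T u = (c : ℂ) • u) (h2 : T u = (d : ℂ) • u) : c = d := by
  have h3 : ((c : ℂ) - (d : ℂ)) • u = 0 := by rw [sub_smul, ← h1, ← h2, sub_self]
  have h4 := (smul_eq_zero.1 h3).resolve_right hu
  exact_mod_cast sub_eq_zero.1 h4

theorem G11_F (S : G0 m n M) (hS : S.Good) (hfin : Module.Finite ℂ M) (α : Fin m → ℤ)
    (β : Fin n → ℤ) (W : Submodule ℂ M) (hW : S.Irr α β W) (t : ℤ) (r : Fin m)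
    (hr : Antitone (α + Pi.single r 1)) (ht : t - n = α r - r.1) :
    S.fv.Irr (α + Pi.single r 1) β (EF S W t) := by
  have hgood := (G08_good S hS).1
  have hα : Antitone α := by
    obtain ⟨v₀, _, hv₀, hhw⟩ := hW.hw
    exact (G06_dom S hS α β v₀ hhw hv₀).1
  -- the top index
  have htop : ∀ u ∈ EF S W t, u ≠ 0 → ∀ α' β', S.fv.HW α' β' u →
      α' = α + Pi.single r 1 ∧ β' = β ∧ u r ≠ 0 ∧ S.HW α β (u r) := by
    intro u hu hune α' β' hhw
    obtain ⟨s, h1, h2, h3, _, h5, h6⟩ := G09_F S hS hfin α α' β β' W hW u hu.1 hune hhw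
    have h7 := g11a_eig (tF S) _ _ u hune hu.2 h6
    have hsr : s = r := by
      rcases lt_trichotomy s r with h | h | h
      · have h8 := hα h.le
        have h9 : (s.1 : ℤ) < (r.1 : ℤ) := by exact_mod_cast h
        omega
      · exact h
      · have h8 := hα h.le
        have h9 : (r.1 : ℤ) < (s.1 : ℤ) := by exact_mod_cast h
        omega
    subst hsr
    exact ⟨h1, h2, h3, h5⟩
  refine g11a_irr S.fv hgood (EF S W t) (g11a_EFstab S W hW.stab t) _ _ ?_ ?_
  · obtain ⟨u, hune, huW, hhw, hu⟩ := G10_F S hS hfin α β W hW r hr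
    refine ⟨u, ⟨huW, ?_⟩, hune, hhw⟩
    rw [hu, ht]
  · rintro u hu hune u' hu' hune' ⟨α₁, β₁, h1⟩ ⟨α₂, β₂, h2⟩
    obtain ⟨ha1, hb1, hc1, hd1⟩ := htop u hu hune _ _ h1
    obtain ⟨ha2, hb2, hc2, hd2⟩ := htop u' hu' hune' _ _ h2
    obtain ⟨_, _, ρ, hρ⟩ := G07_uniq S hS hfin α α β β W hW (u r) (u' r) (hu.1 r) hd1 hc1
      (hu'.1 r) hd2 hc2
    refine ⟨ρ, ?_⟩
    by_contra hne
    have h3 : u' - ρ • u ≠ 0 := sub_ne_zero.2 hne
    have h4 : u' - ρ • u ∈ EF S W t := (EF S W t).sub_mem hu' ((EF S W t).smul_mem ρ hu)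
    rw [ha1, hb1] at h1
    rw [ha2, hb2] at h2
    have h5 : S.fv.HW (α + Pi.single r 1) β (u' - ρ • u) := by
      refine ⟨Submodule.sub_mem _ h2.1 (Submodule.smul_mem _ ρ h1.1), fun i j hij => ?_,
        fun l q hlq => ?_⟩
      · rw [map_sub, map_smul, h2.2.1 i j hij, h1.2.1 i j hij, smul_zero, sub_zero]
      · rw [map_sub, map_smul, h2.2.2 l q hlq, h1.2.2 l q hlq, smul_zero, sub_zero]
    obtain ⟨_, _, h6, _⟩ := htop _ h4 h3 _ _ h5
    apply h6
    rw [Pi.sub_apply, Pi.smul_apply, hρ, sub_self]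

theorem G11_F0 (S : G0 m n M) (hS : S.Good) (hfin : Module.Finite ℂ M) (α : Fin m → ℤ)
    (β : Fin n → ℤ) (W : Submodule ℂ M) (hW : S.Irr α β W) (t : ℤ) (h : EF S W t ≠ ⊥) :
    ∃ r : Fin m, Antitone (α + Pi.single r 1) ∧ t - n = α r - r.1 := by
  have hgood := (G08_good S hS).1
  obtain ⟨u, hu, hune, α', β', hhw⟩ := G06_hw S.fv hgood (EF S W t) inferInstance
    (g11a_EFstab S W hW.stab t) h
  obtain ⟨s, h1, _, _, _, _, h6⟩ := G09_F S hS hfin α α' β β' W hW u hu.1 hune hhw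
  refine ⟨s, ?_, g11a_eig (tF S) _ _ u hune hu.2 h6⟩
  rw [← h1]
  exact (G06_dom S.fv hgood α' β' u hhw hune).1

theorem G11_Fspan (S : G0 m n M) (hS : S.Good) (hfin : Module.Finite ℂ M) (α : Fin m → ℤ)
    (β : Fin n → ℤ) (W : Submodule ℂ M) (hW : S.Irr α β W) (u : Fin m → M)
    (hu : ∀ i, u i ∈ W) : u ∈ ⨆ t : ℤ, EF S W t := by
  obtain ⟨hgood, _, ⟨h, hh, hT⟩, _⟩ := G08_good S hS
  have h1 := g11a_span S.fv hgood (g10aE m W) (g10a_stab S W hW.stab) (tF S)
    (g10a_tFE S W hW.stab) (G08_tF_a S) (G08_tF_b S) h hh hT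
    (fun v hv hvne α' β' hhw => by
      obtain ⟨s, _, _, _, _, _, h6⟩ := G09_F S hS hfin α α' β β' W hW v hv hvne hhw
      exact ⟨_, h6⟩)
    (fun c => EF S W (c + n)) (fun c v hv hvc => ⟨hv, by rw [hvc, add_sub_cancel_right]⟩) u hu
  have h2 : (⨆ c : ℤ, EF S W (c + n)) ≤ ⨆ t : ℤ, EF S W t :=
    iSup_le fun c => le_iSup (fun t : ℤ => EF S W t) (c + n)
  exact h2 h1

end H95H
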