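import Pool.Agent.Lib.H95H.G10b
import Pool.Agent.Lib.H95H.G11a

namespace H95H

variable {m n k : ℕ} {M : Type} [AddCommGroup M] [Module ℂ M]

/-!
# Chunk G11: the eigenspaces are irreducible

* `G11_F`: if `t - n = α r - r` with `α + e_r` antitone then `EF S W t` is irreducible of highest
  weight `(α + e_r, β)`. It is stable (`G08_tF_a`, `G08_tF_b`), contains a highest weight vector
  of this weight (`G10_F`), and two highest weight vectors `u`, `u'` in it are proportional: by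
  `G09_F` both have top index `s` with `α s - s = t - n`, i.e. `s = r` (`α` antitone), and
  `u r = c v`, `u' r = c' v`; then `c' u - c u'` would be a highest weight vector with smaller top
  index, so it is zero. A stable proper nonzero subspace and its complement (`G06_perp`) would each
  contain a highest weight vector (`G06_hw`).
* `G11_F0`: if `EF S W t ≠ ⊥` it contains a highest weight vector, and `G09_F`, `G06_dom` (antitone
  weight) give the index `r`.
* `G11_Fspan`: `tF` is self-adjoint for a positive definite form (`G08_good`), hence diagonalisable on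
  the finite-dimensional space of `W`-valued vectors; each eigenspace is stable and contains a
  highest weight vector, so the eigenvalue is an integer `α r - r` by `G09_F`.
* `G11_dimF`: the eigenspaces are independent, so dimensions add up.
The same for `G`.
-/

theorem g11b_EGstab (S : G0 m n M) (W : Submodule ℂ M) (hW : S.Stab W) (t : ℤ) :
    S.gv.Stab (EG S W t) := by
  refine ⟨fun i j u hu => ⟨(g10b_stab S W hW).1 i j u hu.1, ?_⟩,
    fun i j u hu => ⟨(g10b_stab S W hW).2 i j u hu.1, ?_⟩⟩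
  · rw [G08_tG_a, hu.2, map_smul]
  · rw [G08_tG_b, hu.2, map_smul]

theorem G11_G (S : G0 m n M) (hS : S.Good) (hfin : Module.Finite ℂ M) (α : Fin m → ℤ)
    (β : Fin n → ℤ) (W : Submodule ℂ M) (hW : S.Irr α β W) (t : ℤ) (s : Fin n)
    (hs : Antitone (β - Pi.single s 1)) (ht : t = β s + (n - 1 - s.1)) :
    S.gv.Irr α (β - Pi.single s 1) (EG S W t) := by
  have hgood := (G08_good S hS).2.1
  have hβ : Antitone β := by
    obtain ⟨v₀, _, hv₀, hhw⟩ := hW.hw
    exact (G06_dom S hS α β v₀ hhw hv₀).2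
  have htop : ∀ u ∈ EG S W t, u ≠ 0 → ∀ α' β', S.gv.HW α' β' u →
      α' = α ∧ β' = β - Pi.single s 1 ∧ u s ≠ 0 ∧ S.HW α β (u s) := by
    intro u hu hune α' β' hhw
    obtain ⟨r, h1, h2, h3, _, h5, h6⟩ := G09_G S hS hfin α α' β β' W hW u hu.1 hune hhw
    have h7 := g11a_eig (tG S) _ _ u hune hu.2 h6
    have hrs : r = s := by
      rcases lt_trichotomy r s with h | h | h
      · have h8 := hβ h.le
        have h9 : (r.1 : ℤ) < (s.1 : ℤ) := by exact_mod_cast h
        omega
      · exact h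
      · have h8 := hβ h.le
        have h9 : (s.1 : ℤ) < (r.1 : ℤ) := by exact_mod_cast h
        omega
    subst hrs
    exact ⟨h1, h2, h3, h5⟩
  refine g11a_irr S.gv hgood (EG S W t) (g11b_EGstab S W hW.stab t) _ _ ?_ ?_
  · obtain ⟨u, hune, huW, hhw, hu⟩ := G10_G S hS hfin α β W hW s hs
    refine ⟨u, ⟨huW, ?_⟩, hune, hhw⟩
    rw [hu, ht]
  · rintro u hu hune u' hu' hune' ⟨α₁, β₁, h1⟩ ⟨α₂, β₂, h2⟩
    obtain ⟨ha1, hb1, hc1, hd1⟩ := htop u hu hune _ _ h1
    obtain ⟨ha2, hb2, hc2, hd2⟩ := htop u' hu' hune' _ _ h2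
    obtain ⟨_, _, ρ, hρ⟩ := G07_uniq S hS hfin α α β β W hW (u s) (u' s) (hu.1 s) hd1 hc1
      (hu'.1 s) hd2 hc2
    refine ⟨ρ, ?_⟩
    by_contra hne
    have h3 : u' - ρ • u ≠ 0 := sub_ne_zero.2 hne
    have h4 : u' - ρ • u ∈ EG S W t := (EG S W t).sub_mem hu' ((EG S W t).smul_mem ρ hu)
    rw [ha1, hb1] at h1
    rw [ha2, hb2] at h2
    have h5 : S.gv.HW α (β - Pi.single s 1) (u' - ρ • u) := by
      refine ⟨Submodule.sub_mem _ h2.1 (Submodule.smul_mem _ ρ h1.1), fun i j hij => ?_,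
        fun l q hlq => ?_⟩
      · rw [map_sub, map_smul, h2.2.1 i j hij, h1.2.1 i j hij, smul_zero, sub_zero]
      · rw [map_sub, map_smul, h2.2.2 l q hlq, h1.2.2 l q hlq, smul_zero, sub_zero]
    obtain ⟨_, _, h6, _⟩ := htop _ h4 h3 _ _ h5
    apply h6
    rw [Pi.sub_apply, Pi.smul_apply, hρ, sub_self]

theorem G11_G0 (S : G0 m n M) (hS : S.Good) (hfin : Module.Finite ℂ M) (α : Fin m → ℤ)
    (β : Fin n → ℤ) (W : Submodule ℂ M) (hW : S.Irr α β W) (t : ℤ) (h : EG S W t ≠ ⊥) :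
    ∃ s : Fin n, Antitone (β - Pi.single s 1) ∧ t = β s + (n - 1 - s.1) := by
  have hgood := (G08_good S hS).2.1
  obtain ⟨u, hu, hune, α', β', hhw⟩ := G06_hw S.gv hgood (EG S W t) inferInstance
    (g11b_EGstab S W hW.stab t) h
  obtain ⟨s, _, h2, _, _, _, h6⟩ := G09_G S hS hfin α α' β β' W hW u hu.1 hune hhw
  refine ⟨s, ?_, g11a_eig (tG S) _ _ u hune hu.2 h6⟩
  rw [← h2]
  exact (G06_dom S.gv hgood α' β' u hhw hune).2

theorem G11_Gspan (S : G0 m n M) (hS : S.Good) (hfin : Module.Finite ℂ M) (α : Fin m → ℤ)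
    (β : Fin n → ℤ) (W : Submodule ℂ M) (hW : S.Irr α β W) (w : Fin n → M)
    (hw : ∀ i, w i ∈ W) : w ∈ ⨆ t : ℤ, EG S W t := by
  obtain ⟨_, hgood, _, ⟨h, hh, hT⟩⟩ := G08_good S hS
  exact g11a_span S.gv hgood (g10aE n W) (g10b_stab S W hW.stab) (tG S)
    (g10b_tGE S W hW.stab) (G08_tG_a S) (G08_tG_b S) h hh hT
    (fun v hv hvne α' β' hhw => by
      obtain ⟨s, _, _, _, _, _, h6⟩ := G09_G S hS hfin α α' β β' W hW v hv hvne hhw
      exact ⟨_, h6⟩)
    (fun c => EG S W c) (fun c v hv hvc => ⟨hv, hvc⟩) w hw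

end H95H
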