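import Pool.Agent.Lib.H95H.G00

namespace H95H

variable {m n k : ℕ} {M : Type} [AddCommGroup M] [Module ℂ M]
  {M' : Type} [AddCommGroup M'] [Module ℂ M']

/-- the smallest subspace containing `W` and stable under the `x i l` -/
def GM.gen (S : GM m n M) (W : Submodule ℂ M) : Submodule ℂ M :=
  sInf {N | W ≤ N ∧ ∀ i l, ∀ v ∈ N, S.x i l v ∈ N}

/-!
# Chunk G12: subspaces generated under the `x i l`

* `G12_le`, `G12_x`, `G12_min`: definition.
* `G12_finrank`: list the `m n` operators `x i l` as `x_1, .., x_N`; by anticommutation (`xx`, so also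
  `x_a (x_a v) = 0`) the sum of the images of `W` under the ordered products `x_T`, `T` a subset, is
  stable under all `x`, so it equals `gen W`, and its dimension is at most `2 ^ N * dim W`.
* `G12_stab`: if `W` is stable under the even part and killed by `y`, then `gen W` is a submodule. Let
  `N' = {v ∈ gen W | all a v, b v, y v ∈ gen W}`; it contains `W` and is stable under `x`:
  `a (x v) = x (a v) + [a, x] v` with `[a, x]` an `x`; `y (x v) = - x (y v) + (a v or b v)`. So
  `N' = gen W`.
* `G12_sup`, `G12_iSup`: both inclusions by minimality.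
* `G12_map`: `⊆`: the preimage of `gen' (map f W)` contains `W` and is `x`-stable; `⊇`: the image is
  `x`-stable.
* `G12_deg`: put `D v = ∑_l b l l v`. If `D w = d w` on `W` then `gen W` is the sum of `W` and of
  eigenvectors of `D` with eigenvalues `d + 1, d + 2, ..`: the set of `w + u` with `w ∈ W`, `u` a sum
  of such eigenvectors in `gen W` is `x`-stable (`∑_l [b l l, x i p] = x i p` by `bx`). Then compare
  eigencomponents.
* `G12_low`: the consequences for a module with lowest part `W`: with `d = ∑ β`.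
-/

theorem G12_le (S : GM m n M) (W : Submodule ℂ M) : W ≤ S.gen W :=
  le_sInf fun _ hN => hN.1

theorem G12_x (S : GM m n M) (W : Submodule ℂ M) (i : Fin m) (l : Fin n) :
    ∀ v ∈ S.gen W, S.x i l v ∈ S.gen W := by
  intro v hv
  rw [GM.gen, Submodule.mem_sInf] at hv ⊢
  exact fun N hN => hN.2 i l v (hv N hN)

theorem G12_min (S : GM m n M) (W N : Submodule ℂ M) (h : W ≤ N)
    (hx : ∀ i l, ∀ v ∈ N, S.x i l v ∈ N) : S.gen W ≤ N :=
  sInf_le ⟨h, hx⟩

/-- the span of the ordered products applied to `W` -/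
def g12a_V (S : GM m n M) (W : Submodule ℂ M) : List (Fin m × Fin n) → Submodule ℂ M
  | [] => W
  | p :: L => g12a_V S W L ⊔ (g12a_V S W L).map (S.x p.1 p.2)

theorem g12a_le (S : GM m n M) (W : Submodule ℂ M) (L : List (Fin m × Fin n)) :
    W ≤ g12a_V S W L := by
  induction L with
  | nil => exact le_rfl
  | cons p L ih => exact ih.trans le_sup_left

theorem g12a_stab (S : GM m n M) (W : Submodule ℂ M) (L : List (Fin m × Fin n)) :
    ∀ q ∈ L, ∀ v ∈ g12a_V S W L, S.x q.1 q.2 v ∈ g12a_V S W L := by
  induction L with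
  | nil =>
    intro q hq
    exact absurd hq (by simp)
  | cons p L ih =>
    intro q hq v hv
    rw [g12a_V, Submodule.mem_sup] at hv
    obtain ⟨u, hu, w, ⟨w', hw', rfl⟩, rfl⟩ := hv
    rw [map_add]
    rcases List.mem_cons.1 hq with rfl | hq
    · have h1 : S.x q.1 q.2 (S.x q.1 q.2 w') = 0 := by
        have h2 := S.xx q.1 q.2 q.1 q.2 w'
        rw [← two_smul ℂ] at h2
        exact (smul_eq_zero.1 h2).resolve_left two_ne_zero
      rw [h1, add_zero]
      exact Submodule.mem_sup_right ⟨u, hu, rfl⟩
    · refine Submodule.add_mem _ (Submodule.mem_sup_left (ih q hq u hu)) ?_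
      have h2 : S.x q.1 q.2 (S.x p.1 p.2 w') = S.x p.1 p.2 (-(S.x q.1 q.2 w')) := by
        rw [map_neg]
        exact eq_neg_of_add_eq_zero_left (S.xx q.1 q.2 p.1 p.2 w')
      rw [h2]
      exact Submodule.mem_sup_right ⟨_, Submodule.neg_mem _ (ih q hq w' hw'), rfl⟩

theorem g12a_fin (S : GM m n M) (W : Submodule ℂ M) (hfin : Module.Finite ℂ ↥W)
    (L : List (Fin m × Fin n)) :
    Module.Finite ℂ ↥(g12a_V S W L) ∧
    Module.finrank ℂ ↥(g12a_V S W L) ≤ 2 ^ L.length * Module.finrank ℂ ↥W := by
  induction L with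
  | nil => exact ⟨hfin, by rw [List.length_nil, pow_zero, one_mul]; exact le_rfl⟩
  | cons p L ih =>
    haveI := ih.1
    have h1 : Module.Finite ℂ ↥((g12a_V S W L).map (S.x p.1 p.2)) := Module.Finite.map _ _
    refine ⟨Submodule.finite_sup _ _, ?_⟩
    have h2 := Submodule.finrank_add_le_finrank_add_finrank (g12a_V S W L)
      ((g12a_V S W L).map (S.x p.1 p.2))
    have h3 := Submodule.finrank_map_le (S.x p.1 p.2) (g12a_V S W L)
    rw [g12a_V, List.length_cons, pow_succ]
    have h4 := ih.2
    calc _ ≤ _ := h2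
      _ ≤ 2 ^ L.length * Module.finrank ℂ ↥W + 2 ^ L.length * Module.finrank ℂ ↥W :=
        Nat.add_le_add h4 (h3.trans h4)
      _ = 2 ^ L.length * 2 * Module.finrank ℂ ↥W := by ring

theorem G12_finrank (S : GM m n M) (W : Submodule ℂ M) (hfin : Module.Finite ℂ ↥W) :
    Module.Finite ℂ ↥(S.gen W) ∧
    Module.finrank ℂ ↥(S.gen W) ≤ 2 ^ (m * n) * Module.finrank ℂ ↥W := by
  have h1 := g12a_fin S W hfin (Finset.univ : Finset (Fin m × Fin n)).toList
  have h2 : S.gen W ≤ g12a_V S W (Finset.univ : Finset (Fin m × Fin n)).toList := by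
    refine G12_min S W _ (g12a_le S W _) fun i l v hv => ?_
    exact g12a_stab S W _ (i, l) (Finset.mem_toList.2 (Finset.mem_univ _)) v hv
  haveI := h1.1
  have h3 : (Finset.univ : Finset (Fin m × Fin n)).toList.length = m * n := by
    rw [Finset.length_toList, Finset.card_univ, Fintype.card_prod, Fintype.card_fin,
      Fintype.card_fin]
  refine ⟨Submodule.finiteDimensional_of_le h2, (Submodule.finrank_mono h2).trans ?_⟩
  rw [← h3]
  exact h1.2

end H95H
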