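import Pool.Agent.Lib.H95H.G12a

namespace H95H

variable {m n k : ℕ} {M : Type} [AddCommGroup M] [Module ℂ M]
  {M' : Type} [AddCommGroup M'] [Module ℂ M']

/-!
# Chunk G12: subspaces generated under the `x i l`

* `G12_le`, `G12_x`, `G12_min`: definition.
* `G12_finrank`: list the `m n` operators `x i l` as `x_1, .., x_N`; by anticommutation (`xx`, so also
  `x_a (x_a v) = 0`) the sum of the images of `W` under the ordered products `x_T`, `T` a subset, is
  stable under all `x`, so it equals `gen W`, and its dimension is at most `2 ^ N * dim W`.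
* `G12_stab`: if `W` is stable under the even part and killed by `y`, then `gen W` is a submodule. Let
  `N' = {v ∈ gen W | all a v, b v, y v ∈ gen W}`; it contains `W` and is stable under `x`:
  `a (x v) = x (a v) + [a, x] v` with `[a, x]` an `x`; `y (x v) = - x (y v) + (a v or b v)`. So
  `N' = gen W`.
* `G12_sup`, `G12_iSup`: both inclusions by minimality.
* `G12_map`: `⊆`: the preimage of `gen' (map f W)` contains `W` and is `x`-stable; `⊇`: the image is
  `x`-stable.
* `G12_deg`: put `D v = ∑_l b l l v`. If `D w = d w` on `W` then `gen W` is the sum of `W` and of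
  eigenvectors of `D` with eigenvalues `d + 1, d + 2, ..`: the set of `w + u` with `w ∈ W`, `u` a sum
  of such eigenvectors in `gen W` is `x`-stable (`∑_l [b l l, x i p] = x i p` by `bx`). Then compare
  eigencomponents.
* `G12_low`: the consequences for a module with lowest part `W`: with `d = ∑ β`.
-/

/-- The same if `y` only maps `W` into `gen W`. -/
theorem G12_stab' (S : GM m n M) (W : Submodule ℂ M) (hW : S.toG0.Stab W)
    (hy : ∀ i l, ∀ w ∈ W, S.y i l w ∈ S.gen W) : S.Stab (S.gen W) := by
  have hle := G12_le S W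
  have hx := G12_x S W
  have hA : ∀ v ∈ S.gen W, (∀ i j, S.a i j v ∈ S.gen W) ∧ (∀ l q, S.b l q v ∈ S.gen W) := by
    let N : Submodule ℂ M :=
      { carrier := {v | v ∈ S.gen W ∧ (∀ i j, S.a i j v ∈ S.gen W) ∧
          ∀ l q, S.b l q v ∈ S.gen W}
        add_mem' := by
          rintro u v ⟨h1, h2, h3⟩ ⟨g1, g2, g3⟩
          exact ⟨add_mem h1 g1, fun i j => by rw [map_add]; exact add_mem (h2 i j) (g2 i j),
            fun i j => by rw [map_add]; exact add_mem (h3 i j) (g3 i j)⟩
        zero_mem' := ⟨zero_mem _, fun i j => by rw [map_zero]; exact zero_mem _,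
          fun i j => by rw [map_zero]; exact zero_mem _⟩
        smul_mem' := by
          rintro r v ⟨h1, h2, h3⟩
          exact ⟨Submodule.smul_mem _ r h1,
            fun i j => by rw [map_smul]; exact Submodule.smul_mem _ r (h2 i j),
            fun i j => by rw [map_smul]; exact Submodule.smul_mem _ r (h3 i j)⟩ }
    have hN : S.gen W ≤ N := by
      refine G12_min S W N (fun w hw => ⟨hle hw, fun i j => hle (hW.1 i j w hw),
        fun l q => hle (hW.2 l q w hw)⟩) ?_
      rintro i l v ⟨h1, h2, h3⟩
      refine ⟨hx i l v h1, fun p q => ?_, fun p q => ?_⟩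
      · rw [sub_eq_iff_eq_add.1 (S.ax p q i l v)]
        refine add_mem ?_ (hx i l _ (h2 p q))
        by_cases h : q = i
        · rw [if_pos h]
          exact hx p l v h1
        · rw [if_neg h]
          exact zero_mem _
      · rw [sub_eq_iff_eq_add.1 (S.bx p q i l v)]
        refine add_mem ?_ (hx i l _ (h3 p q))
        by_cases h : q = l
        · rw [if_pos h]
          exact hx i p v h1
        · rw [if_neg h]
          exact zero_mem _
    exact fun v hv => (hN hv).2
  have hY : ∀ v ∈ S.gen W, ∀ i l, S.y i l v ∈ S.gen W := by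
    let N : Submodule ℂ M :=
      { carrier := {v | v ∈ S.gen W ∧ ∀ i l, S.y i l v ∈ S.gen W}
        add_mem' := by
          rintro u v ⟨h1, h2⟩ ⟨g1, g2⟩
          exact ⟨add_mem h1 g1, fun i j => by rw [map_add]; exact add_mem (h2 i j) (g2 i j)⟩
        zero_mem' := ⟨zero_mem _, fun i j => by rw [map_zero]; exact zero_mem _⟩
        smul_mem' := by
          rintro r v ⟨h1, h2⟩
          exact ⟨Submodule.smul_mem _ r h1,
            fun i j => by rw [map_smul]; exact Submodule.smul_mem _ r (h2 i j)⟩ }
    have hN : S.gen W ≤ N := by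
      refine G12_min S W N (fun w hw => ⟨hle hw, fun i l => hy i l w hw⟩) ?_
      rintro i l v ⟨h1, h2⟩
      refine ⟨hx i l v h1, fun p q => ?_⟩
      have h3 := S.xy i l p q v
      rw [add_comm] at h3
      rw [eq_sub_of_add_eq h3]
      refine sub_mem (sub_mem ?_ ?_) (hx i l _ (h2 p q))
      · by_cases h : l = q
        · rw [if_pos h]
          exact (hA v h1).1 _ _
        · rw [if_neg h]
          exact zero_mem _
      · by_cases h : i = p
        · rw [if_pos h]
          exact (hA v h1).2 _ _
        · rw [if_neg h]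
          exact zero_mem _
    exact fun v hv => (hN hv).2
  exact ⟨⟨fun i j v hv => (hA v hv).1 i j, fun l q v hv => (hA v hv).2 l q⟩, hx,
    fun i l v hv => hY v hv i l⟩

theorem G12_stab (S : GM m n M) (W : Submodule ℂ M) (hW : S.toG0.Stab W)
    (hy : ∀ i l, ∀ w ∈ W, S.y i l w = 0) : S.Stab (S.gen W) :=
  G12_stab' S W hW fun i l w hw => by
    rw [hy i l w hw]
    exact zero_mem _

theorem g12b_mono (S : GM m n M) {W W' : Submodule ℂ M} (h : W ≤ W') : S.gen W ≤ S.gen W' :=
  G12_min S W _ (h.trans (G12_le S W')) (G12_x S W')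

theorem G12_sup (S : GM m n M) (W W' : Submodule ℂ M) : S.gen (W ⊔ W') = S.gen W ⊔ S.gen W' := by
  apply le_antisymm
  · refine G12_min S _ _ (sup_le_sup (G12_le S W) (G12_le S W')) fun i l v hv => ?_
    rw [Submodule.mem_sup] at hv
    obtain ⟨u, hu, w, hw, rfl⟩ := hv
    rw [map_add]
    exact Submodule.add_mem_sup (G12_x S W i l u hu) (G12_x S W' i l w hw)
  · exact sup_le (g12b_mono S le_sup_left) (g12b_mono S le_sup_right)

theorem G12_iSup {ι : Type} (S : GM m n M) (W : ι → Submodule ℂ M) :
    S.gen (⨆ i, W i) = ⨆ i, S.gen (W i) := by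
  apply le_antisymm
  · refine G12_min S _ _ (iSup_mono fun i => G12_le S (W i)) fun i l v hv => ?_
    have h1 : (⨆ i, S.gen (W i)) ≤ (⨆ i, S.gen (W i)).comap (S.x i l) := by
      refine iSup_le fun j v hv => ?_
      exact Submodule.mem_iSup_of_mem j (G12_x S (W j) i l v hv)
    exact h1 hv
  · exact iSup_le fun i => g12b_mono S (le_iSup W i)

theorem G12_map (S : GM m n M) (S' : GM m n M') (f : M →ₗ[ℂ] M') (hf : GHom S S' f)
    (W : Submodule ℂ M) : (S.gen W).map f = S'.gen (W.map f) := by
  apply le_antisymm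
  · rw [Submodule.map_le_iff_le_comap]
    refine G12_min S W _ ?_ ?_
    · rw [← Submodule.map_le_iff_le_comap]
      exact G12_le S' (W.map f)
    · intro i l v hv
      rw [Submodule.mem_comap] at hv ⊢
      rw [hf.2.2.1 i l v]
      exact G12_x S' _ i l _ hv
  · refine G12_min S' _ _ (Submodule.map_mono (G12_le S W)) ?_
    rintro i l _ ⟨v, hv, rfl⟩
    exact ⟨S.x i l v, G12_x S W i l v hv, hf.2.2.1 i l v⟩

end H95H
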