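import Pool.Agent.Lib.H95H.G05a
import Pool.Agent.Lib.H95H.G12a

namespace H95H

variable {m n k : ℕ} {M : Type} [AddCommGroup M] [Module ℂ M]
  {M' : Type} [AddCommGroup M'] [Module ℂ M']

/-!
# Chunk G12: subspaces generated under the `x i l`

* `G12_le`, `G12_x`, `G12_min`: definition.
* `G12_finrank`: list the `m n` operators `x i l` as `x_1, .., x_N`; by anticommutation (`xx`, so also
  `x_a (x_a v) = 0`) the sum of the images of `W` under the ordered products `x_T`, `T` a subset, is
  stable under all `x`, so it equals `gen W`, and its dimension is at most `2 ^ N * dim W`.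
* `G12_stab`: if `W` is stable under the even part and killed by `y`, then `gen W` is a submodule. Let
  `N' = {v ∈ gen W | all a v, b v, y v ∈ gen W}`; it contains `W` and is stable under `x`:
  `a (x v) = x (a v) + [a, x] v` with `[a, x]` an `x`; `y (x v) = - x (y v) + (a v or b v)`. So
  `N' = gen W`.
* `G12_sup`, `G12_iSup`: both inclusions by minimality.
* `G12_map`: `⊆`: the preimage of `gen' (map f W)` contains `W` and is `x`-stable; `⊇`: the image is
  `x`-stable.
* `G12_deg`: put `D v = ∑_l b l l v`. If `D w = d w` on `W` then `gen W` is the sum of `W` and of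
  eigenvectors of `D` with eigenvalues `d + 1, d + 2, ..`: the set of `w + u` with `w ∈ W`, `u` a sum
  of such eigenvectors in `gen W` is `x`-stable (`∑_l [b l l, x i p] = x i p` by `bx`). Then compare
  eigencomponents.
* `G12_low`: the consequences for a module with lowest part `W`: with `d = ∑ β`.
-/

/-- the degree operator -/
def g12c_D (S : G0 m n M) : M →ₗ[ℂ] M := ∑ l, S.b l l

theorem g12c_D_apply (S : G0 m n M) (v : M) : g12c_D S v = ∑ l, S.b l l v := by
  rw [g12c_D, LinearMap.sum_apply]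

theorem g12c_Dx (S : GM m n M) (i : Fin m) (p : Fin n) (v : M) :
    g12c_D S.toG0 (S.x i p v) = S.x i p (g12c_D S.toG0 v) + S.x i p v := by
  rw [g12c_D_apply, g12c_D_apply, map_sum]
  have h1 : ∀ l ∈ (Finset.univ : Finset (Fin n)), S.b l l (S.x i p v) =
      S.x i p (S.b l l v) + if l = p then S.x i l v else 0 := by
    intro l _
    rw [← S.bx l l i p v]
    abel
  rw [Finset.sum_congr rfl h1, Finset.sum_add_distrib, Finset.sum_ite_eq' Finset.univ p,
    if_pos (Finset.mem_univ _)]

theorem g12c_Db (S : G0 m n M) (l q : Fin n) (v : M) :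
    g12c_D S (S.b l q v) = S.b l q (g12c_D S v) := by
  rw [g12c_D_apply, g12c_D_apply, map_sum]
  have h1 : ∀ p ∈ (Finset.univ : Finset (Fin n)), S.b p p (S.b l q v) =
      S.b l q (S.b p p v) + ((if p = l then S.b p q v else 0) - if p = q then S.b l p v else 0) := by
    intro p _
    have h2 := S.bb p p l q v
    rw [sub_eq_iff_eq_add.1 h2, add_comm]
    simp only [eq_comm (a := q) (b := p)]
  rw [Finset.sum_congr rfl h1, Finset.sum_add_distrib, Finset.sum_sub_distrib,
    Finset.sum_ite_eq' Finset.univ l, if_pos (Finset.mem_univ _),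
    Finset.sum_ite_eq' Finset.univ q, if_pos (Finset.mem_univ _), sub_self, add_zero]

theorem g12c_Da (S : G0 m n M) (i j : Fin m) (v : M) :
    g12c_D S (S.a i j v) = S.a i j (g12c_D S v) := by
  rw [g12c_D_apply, g12c_D_apply, map_sum]
  exact Finset.sum_congr rfl fun p _ => (S.ab i j p p v).symm

/-- eigenspaces of the degree operator -/
def g12c_E (S : G0 m n M) (c : ℤ) : Submodule ℂ M where
  carrier := {v | g12c_D S v = (c : ℂ) • v}
  add_mem' := by
    intro u v h1 h2
    show g12c_D S (u + v) = (c : ℂ) • (u + v)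
    rw [map_add, smul_add, h1, h2]
  zero_mem' := by
    show g12c_D S 0 = (c : ℂ) • 0
    rw [map_zero, smul_zero]
  smul_mem' := by
    intro r v h
    show g12c_D S (r • v) = (c : ℂ) • (r • v)
    rw [map_smul, h, smul_comm]

/-- the graded pieces of `W + (higher degrees)` -/
noncomputable def g12c_F (S : G0 m n M) (W : Submodule ℂ M) (d c : ℤ) : Submodule ℂ M :=
  if c = d then W else if d < c then g12c_E S c else ⊥

theorem g12c_F_eig (S : G0 m n M) (W : Submodule ℂ M) (d : ℤ)
    (hd : ∀ w ∈ W, g12c_D S w = (d : ℂ) • w) (c : ℤ) (v : M) (hv : v ∈ g12c_F S W d c) :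
    g12c_D S v = (c : ℂ) • v := by
  unfold g12c_F at hv
  split_ifs at hv with h1 h2
  · subst h1
    exact hd v hv
  · exact hv
  · rw [Submodule.mem_bot] at hv
    rw [hv, map_zero, smul_zero]

theorem g12c_gen (S : GM m n M) (W : Submodule ℂ M) (d : ℤ)
    (hd : ∀ w ∈ W, g12c_D S.toG0 w = (d : ℂ) • w) : S.gen W ≤ ⨆ c, g12c_F S.toG0 W d c := by
  refine G12_min S W _ ?_ fun i l v hv => ?_
  · refine le_trans ?_ (le_iSup _ d)
    rw [g12c_F, if_pos rfl]
  · have h1 : (⨆ c, g12c_F S.toG0 W d c) ≤ (⨆ c, g12c_F S.toG0 W d c).comap (S.x i l) := by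
      refine iSup_le fun c v hv => ?_
      rw [Submodule.mem_comap]
      have h2 := g12c_F_eig S.toG0 W d hd c v hv
      by_cases hc : d ≤ c
      · refine Submodule.mem_iSup_of_mem (c + 1) ?_
        rw [g12c_F, if_neg (by omega), if_pos (by omega)]
        show g12c_D S.toG0 (S.x i l v) = ((c + 1 : ℤ) : ℂ) • S.x i l v
        rw [g12c_Dx, h2, map_smul]
        push_cast
        rw [add_smul, one_smul]
      · rw [g12c_F, if_neg (by omega), if_neg (by omega), Submodule.mem_bot] at hv
        rw [hv, map_zero]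
        exact zero_mem _
    exact h1 hv

theorem G12_deg (S : GM m n M) (W : Submodule ℂ M) (d : ℤ)
    (hd : ∀ w ∈ W, ∑ l, S.b l l w = (d : ℂ) • w) (v : M) (hv : v ∈ S.gen W) (e : ℤ)
    (he : ∑ l, S.b l l v = (e : ℂ) • v) (hne : v ≠ 0) : d ≤ e ∧ (e = d → v ∈ W) := by
  classical
  have hd' : ∀ w ∈ W, g12c_D S.toG0 w = (d : ℂ) • w := fun w hw => by
    rw [g12c_D_apply]
    exact hd w hw
  have he' : g12c_D S.toG0 v = (e : ℂ) • v := by
    rw [g12c_D_apply]
    exact he
  have h1 := g12c_gen S W d hd' hv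
  rw [Submodule.mem_iSup_iff_exists_finsupp] at h1
  obtain ⟨f, hf, hfv⟩ := h1
  have hfv' : ∑ c ∈ insert e f.support, f c = v := by
    rw [← hfv]
    refine (Finset.sum_subset (Finset.subset_insert _ _) fun c _ hc => ?_).symm
    exact Finsupp.notMem_support_iff.1 hc
  have h2 : ∑ c ∈ insert e f.support, (f c - if c = e then v else 0) ∈ (⊥ : Submodule ℂ M) := by
    rw [Finset.sum_sub_distrib, Finset.sum_ite_eq' _ e, if_pos (Finset.mem_insert_self _ _), hfv',
      sub_self]
    exact zero_mem _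
  have h3 := g05a_aux (ι := ℤ) (κ := Unit) (fun _ => g12c_D S.toG0) (fun c _ => (c : ℂ))
    (fun a b h => Int.cast_injective (congrFun h ())) ⊥
    (fun _ u hu => by rw [Submodule.mem_bot] at hu ⊢; rw [hu, map_zero])
    _ (insert e f.support) rfl (fun c => f c - if c = e then v else 0) (fun c _ _ => by
      have h4 := g12c_F_eig S.toG0 W d hd' c (f c) (hf c)
      by_cases hc : c = e
      · subst hc
        simp only [if_true]
        rw [map_sub, h4, he', smul_sub]
      · simp only [hc, if_false, sub_zero]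
        exact h4) h2 e (Finset.mem_insert_self _ _)
  rw [Submodule.mem_bot] at h3
  simp only [if_true] at h3
  have h4 : f e = v := sub_eq_zero.1 h3
  have h5 := hf e
  rw [h4] at h5
  refine ⟨?_, fun hed => ?_⟩
  · by_contra hlt
    rw [g12c_F, if_neg (by omega), if_neg (by omega), Submodule.mem_bot] at h5
    exact hne h5
  · rw [g12c_F, if_pos hed] at h5
    exact h5

/-- On an irreducible `W` of highest weight `(α, β)` the operator `∑_l b l l` is `∑ β`. -/
theorem G12_irr_deg (S : G0 m n M) (hS : S.Good) (hfin : Module.Finite ℂ M) (α : Fin m → ℤ)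
    (β : Fin n → ℤ) (W : Submodule ℂ M) (hW : S.Irr α β W) :
    ∀ w ∈ W, ∑ l, S.b l l w = ((∑ l, β l : ℤ) : ℂ) • w := by
  obtain ⟨v₀, hv₀, hne, hwt⟩ := hW.hw
  have h1 : v₀ ∈ W ⊓ g12c_E S (∑ l, β l) := by
    refine ⟨hv₀, ?_⟩
    show g12c_D S v₀ = ((∑ l, β l : ℤ) : ℂ) • v₀
    rw [g12c_D_apply, Finset.sum_congr rfl fun l _ => hwt.1.2 l, ← Finset.sum_smul]
    push_cast
    rfl
  have h2 : S.Stab (W ⊓ g12c_E S (∑ l, β l)) := by
    refine ⟨fun i j v hv => ⟨hW.stab.1 i j v hv.1, ?_⟩, fun l q v hv => ⟨hW.stab.2 l q v hv.1, ?_⟩⟩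
    · show g12c_D S (S.a i j v) = _ • S.a i j v
      rw [g12c_Da, show g12c_D S v = _ from hv.2, map_smul]
    · show g12c_D S (S.b l q v) = _ • S.b l q v
      rw [g12c_Db, show g12c_D S v = _ from hv.2, map_smul]
  intro w hw
  rcases hW.irr _ inf_le_left h2 with h | h
  · rw [h, Submodule.mem_bot] at h1
    exact absurd h1 hne
  · rw [← h] at hw
    rw [← g12c_D_apply]
    exact hw.2

/-- In a module with lowest part `W` all weights `(α', β')` have `∑ β' ≥ ∑ β`, with equality only
on `W`. -/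
theorem G12_low (S : GM m n M) (hS : S.toG0.Good) (hfin : Module.Finite ℂ M) (α : Fin m → ℤ)
    (β : Fin n → ℤ) (W : Submodule ℂ M) (hW : S.Low α β W) (α' : Fin m → ℤ) (β' : Fin n → ℤ)
    (v : M) (hv : v ∈ S.toG0.Wsp α' β') (hne : v ≠ 0) :
    ∑ l, β l ≤ ∑ l, β' l ∧ (∑ l, β' l = ∑ l, β l → v ∈ W) := by
  have h1 : S.gen W = ⊤ := hW.gen _ (G12_le S W) (G12_x S W)
  refine G12_deg S W (∑ l, β l) (G12_irr_deg S.toG0 hS hfin α β W hW.irr) v
    (h1 ▸ Submodule.mem_top) (∑ l, β' l) ?_ hne
  rw [Finset.sum_congr rfl fun l _ => hv.2 l, ← Finset.sum_smul]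
  push_cast
  rfl

end H95H
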