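import Pool.Agent.Lib.H95H.G02b
import Pool.Agent.Lib.H95H.G11b
import Pool.Agent.Lib.H95H.G12b

namespace H95H

variable {m n k : ℕ} {M : Type} [AddCommGroup M] [Module ℂ M]

/-- `u ↦ ∑ f_i ⊗ u_i` -/
def iF (m n : ℕ) (M : Type) [AddCommGroup M] [Module ℂ M] :
    (Fin m → M) →ₗ[ℂ] ((Fin m → M) × (Fin n → M)) := LinearMap.inl ℂ _ _

/-- `w ↦ ∑ g^l ⊗ w_l` -/
def iG (m n : ℕ) (M : Type) [AddCommGroup M] [Module ℂ M] :
    (Fin n → M) →ₗ[ℂ] ((Fin m → M) × (Fin n → M)) := LinearMap.inr ℂ _ _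

/-- vectors with entries in `W` -/
def vW (m : ℕ) {M : Type} [AddCommGroup M] [Module ℂ M] (W : Submodule ℂ M) :
    Submodule ℂ (Fin m → M) where
  carrier := {u | ∀ i, u i ∈ W}
  add_mem' := fun hu hv i => W.add_mem (hu i) (hv i)
  zero_mem' := fun _ => W.zero_mem
  smul_mem' := fun r _ hu i => W.smul_mem r (hu i)

/-- the submodule of `(F + G^*) ⊗ M` generated by `G^* ⊗ W` -/
def AG (S : GM m n M) (W : Submodule ℂ M) : Submodule ℂ ((Fin m → M) × (Fin n → M)) :=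
  S.vt.gen ((vW n W).map (iG m n M))

/-- the submodule generated by the eigenspace `EG S W t` -/
def AGt (S : GM m n M) (W : Submodule ℂ M) (t : ℤ) : Submodule ℂ ((Fin m → M) × (Fin n → M)) :=
  S.vt.gen ((EG S.toG0 W t).map (iG m n M))

/-!
# Chunk G13: the tensor product of a Kac module with the natural module, first part

Let `S` have lowest part `W` (`S.Low α β W`), `D = 2 ^ (m * n)`, `w = dim W`.
* `G13_OmG`: as `y W = 0`, `Om (0, w) = (0, tG w)` for `w ∈ vW n W`.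
* `G13_AGt`: `(0, w) ∈ Ft t` for `w ∈ EG t` (an eigenvector), and `Ft t` is stable under `x`, so
  `AGt ≤ Ft t`. The subspaces `(vW n W).map iG`, `(EG ..).map iG` are stable under the even part
  and killed by `y` (`y i l (0, w) = (y i l w, - y i l w) = 0`), so `AG`, `AGt` are submodules
  (`G12_stab`).
* `G13_AG_sup`: `AG = ⨆ t, AGt` by `G11_Gspan`, `G12_iSup`.
* `G13_OmF`: for `u ∈ vW m W`: `Om (u, 0) = (tF u, (∑_j x j q (u j))_q)`, and modulo `AG` the vector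
  `(0, (∑_j x j q (u j))_q)` is `n • (u, 0)`: for each `q`, `j`:
  `x j q (g^q ⊗ u_j) = f_j ⊗ u_j - g^q ⊗ x j q u_j` (definition of `vtX`) and it is in `AG`; sum over
  `q` and `j`.
* `G13_yF`: `y i l (u, 0) = (0, g^l ⊗ u_i) ∈ AG`.
* `G13_top`: `gen ((vW m W).map iF ⊔ (vW n W).map iG) = ⊤`: for `u`: `x i l (f_j ⊗ z) = f_j ⊗ x i l z`, so
  the set of `z` with `f_j ⊗ z ∈ gen` contains `W` and is `x`-stable: everything (`Low.gen`). For
  `g^p ⊗ z`: `x i l (g^p ⊗ z) = δ_{lp} f_i ⊗ z - g^p ⊗ x i l z`, so again the set of `z` with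
  `g^p ⊗ z ∈ gen` is `x`-stable.
-/

theorem g13a_a (S : GM m n M) (i j : Fin m) (w : Fin n → M) :
    S.vt.a i j (iG m n M w) = iG m n M (S.toG0.gv.a i j w) := by
  refine Prod.ext (funext fun p => ?_) rfl
  change (if p = i then (0 : M) else 0) + S.a i j 0 = 0
  rw [map_zero, ite_self, add_zero]

theorem g13a_b (S : GM m n M) (i j : Fin n) (w : Fin n → M) :
    S.vt.b i j (iG m n M w) = iG m n M (S.toG0.gv.b i j w) := by
  refine Prod.ext (funext fun p => ?_) rfl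
  change S.b i j 0 = 0
  rw [map_zero]

theorem g13a_y (S : GM m n M) (W : Submodule ℂ M) (hy : ∀ i l, ∀ w ∈ W, S.y i l w = 0)
    (w : Fin n → M) (hw : w ∈ vW n W) (i : Fin m) (l : Fin n) :
    S.vt.y i l (iG m n M w) = 0 := by
  refine Prod.ext (funext fun p => ?_) (funext fun p => ?_)
  · change S.y i l 0 = 0
    rw [map_zero]
  · change (if p = l then (0 : M) else 0) - S.y i l (w p) = 0
    rw [hy i l _ (hw p), ite_self, sub_zero]

theorem g13a_stabW (S : G0 m n M) (W : Submodule ℂ M) (hW : S.Stab W) :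
    S.gv.Stab (vW n W) := by
  refine ⟨fun i j u hu p => hW.1 i j _ (hu p), fun i j u hu p => ?_⟩
  change -(if p = j then u i else 0) + S.b i j (u p) ∈ W
  refine W.add_mem (W.neg_mem ?_) (hW.2 i j _ (hu p))
  split_ifs
  · exact hu i
  · exact W.zero_mem

theorem g13a_stabE (S : G0 m n M) (W : Submodule ℂ M) (hW : S.Stab W) (t : ℤ) :
    S.gv.Stab (EG S W t) := by
  have h1 := g13a_stabW S W hW
  refine ⟨fun i j u hu => ⟨h1.1 i j u hu.1, ?_⟩, fun i j u hu => ⟨h1.2 i j u hu.1, ?_⟩⟩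
  · rw [G08_tG_a, hu.2, map_smul]
  · rw [G08_tG_b, hu.2, map_smul]

theorem g13a_stabM (S : GM m n M) (E : Submodule ℂ (Fin n → M)) (hE : S.toG0.gv.Stab E) :
    S.vt.toG0.Stab (E.map (iG m n M)) := by
  refine ⟨fun i j z hz => ?_, fun i j z hz => ?_⟩
  · obtain ⟨w, hw, rfl⟩ := hz
    exact ⟨_, hE.1 i j w hw, (g13a_a S i j w).symm⟩
  · obtain ⟨w, hw, rfl⟩ := hz
    exact ⟨_, hE.2 i j w hw, (g13a_b S i j w).symm⟩

theorem G13_OmG (S : GM m n M) (W : Submodule ℂ M) (hy : ∀ i l, ∀ w ∈ W, S.y i l w = 0)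
    (w : Fin n → M) (hw : w ∈ vW n W) : S.Om (iG m n M w) = iG m n M (tG S.toG0 w) := by
  refine Prod.ext (funext fun i => ?_) (funext fun q => ?_)
  · change ∑ j, S.a j i 0 + ∑ p, S.y i p (w p) = 0
    rw [Finset.sum_eq_zero fun j _ => map_zero (S.a j i),
      Finset.sum_eq_zero fun p _ => hy i p _ (hw p), add_zero]
  · change ∑ j, S.x j q 0 + ∑ p, S.b q p (w p) = ∑ p, S.b q p (w p)
    rw [Finset.sum_eq_zero fun j _ => map_zero (S.x j q), zero_add]

theorem G13_AGt (S : GM m n M) (α : Fin m → ℤ) (β : Fin n → ℤ) (W : Submodule ℂ M)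
    (hW : S.Low α β W) (t : ℤ) : AGt S W t ≤ S.Ft t ∧ S.vt.Stab (AGt S W t) ∧ AGt S W t ≤ AG S W := by
  refine ⟨?_, ?_, ?_⟩
  · refine G12_min _ _ _ ?_ (G02_stab S t).2.1
    rintro z ⟨w, hw, rfl⟩
    rw [GM.Ft, Module.End.mem_maxGenEigenspace]
    refine ⟨1, ?_⟩
    rw [pow_one, LinearMap.sub_apply, G13_OmG S W hW.yW w hw.1, hw.2, map_smul]
    simp
  · refine G12_stab S.vt _ (g13a_stabM S _ (g13a_stabE S.toG0 W hW.irr.stab t)) ?_
    rintro i l z ⟨w, hw, rfl⟩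
    exact g13a_y S W hW.yW w hw.1 i l
  · refine G12_min _ _ _ ?_ (G12_x _ _)
    refine le_trans (Submodule.map_mono ?_) (G12_le _ _)
    exact fun w hw => hw.1

theorem G13_AG (S : GM m n M) (α : Fin m → ℤ) (β : Fin n → ℤ) (W : Submodule ℂ M)
    (hW : S.Low α β W) : S.vt.Stab (AG S W) := by
  refine G12_stab S.vt _ (g13a_stabM S _ (g13a_stabW S.toG0 W hW.irr.stab)) ?_
  rintro i l z ⟨w, hw, rfl⟩
  exact g13a_y S W hW.yW w hw i l

theorem G13_AG_sup (S : GM m n M) (hS : S.toG0.Good) (hfin : Module.Finite ℂ M)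
    (α : Fin m → ℤ) (β : Fin n → ℤ) (W : Submodule ℂ M) (hW : S.Low α β W) :
    AG S W = ⨆ t : ℤ, AGt S W t := by
  have h1 : vW n W = ⨆ t : ℤ, EG S.toG0 W t := by
    apply le_antisymm
    · intro w hw
      exact G11_Gspan S.toG0 hS hfin α β W hW.irr w hw
    · exact iSup_le fun t w hw => hw.1
  have h2 : ∀ t : ℤ, AGt S W t = S.vt.gen ((EG S.toG0 W t).map (iG m n M)) := fun _ => rfl
  rw [AG, h1, Submodule.map_iSup, G12_iSup]
  exact iSup_congr fun t => (h2 t).symm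

end H95H
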