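import Pool.Agent.Lib.H95H.G13a

namespace H95H

variable {m n k : ℕ} {M : Type} [AddCommGroup M] [Module ℂ M]

/-!
# Chunk G13: the tensor product of a Kac module with the natural module, first part

Let `S` have lowest part `W` (`S.Low α β W`), `D = 2 ^ (m * n)`, `w = dim W`.
* `G13_OmG`: as `y W = 0`, `Om (0, w) = (0, tG w)` for `w ∈ vW n W`.
* `G13_AGt`: `(0, w) ∈ Ft t` for `w ∈ EG t` (an eigenvector), and `Ft t` is stable under `x`, so
  `AGt ≤ Ft t`. The subspaces `(vW n W).map iG`, `(EG ..).map iG` are stable under the even part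
  and killed by `y` (`y i l (0, w) = (y i l w, - y i l w) = 0`), so `AG`, `AGt` are submodules
  (`G12_stab`).
* `G13_AG_sup`: `AG = ⨆ t, AGt` by `G11_Gspan`, `G12_iSup`.
* `G13_OmF`: for `u ∈ vW m W`: `Om (u, 0) = (tF u, (∑_j x j q (u j))_q)`, and modulo `AG` the vector
  `(0, (∑_j x j q (u j))_q)` is `n • (u, 0)`: for each `q`, `j`:
  `x j q (g^q ⊗ u_j) = f_j ⊗ u_j - g^q ⊗ x j q u_j` (definition of `vtX`) and it is in `AG`; sum over
  `q` and `j`.
* `G13_yF`: `y i l (u, 0) = (0, g^l ⊗ u_i) ∈ AG`.
* `G13_top`: `gen ((vW m W).map iF ⊔ (vW n W).map iG) = ⊤`: for `u`: `x i l (f_j ⊗ z) = f_j ⊗ x i l z`, so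
  the set of `z` with `f_j ⊗ z ∈ gen` contains `W` and is `x`-stable: everything (`Low.gen`). For
  `g^p ⊗ z`: `x i l (g^p ⊗ z) = δ_{lp} f_i ⊗ z - g^p ⊗ x i l z`, so again the set of `z` with
  `g^p ⊗ z ∈ gen` is `x`-stable.
-/

theorem g13b_singleW (W : Submodule ℂ M) (q : Fin n) (z : M) (hz : z ∈ W) :
    (Pi.single q z : Fin n → M) ∈ vW n W := by
  intro p
  by_cases h : p = q
  · subst h
    rw [Pi.single_eq_same]
    exact hz
  · rw [Pi.single_eq_of_ne h]
    exact W.zero_mem

theorem g13b_mem (S : GM m n M) (W : Submodule ℂ M) (q : Fin n) (z : M) (hz : z ∈ W) :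
    iG m n M (Pi.single q z) ∈ AG S W :=
  G12_le _ _ ⟨_, g13b_singleW W q z hz, rfl⟩

theorem G13_OmF (S : GM m n M) (W : Submodule ℂ M) (u : Fin m → M) (hu : u ∈ vW m W) :
    S.Om (iF m n M u) - iF m n M (tF S.toG0 u + (n : ℂ) • u) ∈ AG S W := by
  have h1 : S.Om (iF m n M u) - iF m n M (tF S.toG0 u + (n : ℂ) • u) =
      -∑ q : Fin n, ∑ j : Fin m, S.vt.x j q (iG m n M (Pi.single q (u j))) := by
    refine Prod.ext (funext fun p => ?_) (funext fun p => ?_)
    · rw [Prod.fst_neg, Prod.fst_sum, Pi.neg_apply, Finset.sum_apply]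
      have h2 : ∀ q : Fin n, (∑ j : Fin m, S.vt.x j q (iG m n M (Pi.single q (u j)))).1 p = u p := by
        intro q
        rw [Prod.fst_sum, Finset.sum_apply]
        have h3 : ∀ j : Fin m, (S.vt.x j q (iG m n M (Pi.single q (u j)))).1 p =
            if p = j then u j else 0 := by
          intro j
          change (if p = j then (Pi.single q (u j) : Fin n → M) q else 0) + S.x j q 0 = _
          rw [map_zero, add_zero, Pi.single_eq_same]
        rw [Finset.sum_congr rfl fun j _ => h3 j]
        simp
      rw [Finset.sum_congr rfl fun q _ => h2 q, Finset.sum_const, Finset.card_univ,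
        Fintype.card_fin]
      change (∑ j, S.a j p (u j) + ∑ q, S.y p q 0) - (∑ j, S.a j p (u j) + (n : ℂ) • u p) = _
      rw [Finset.sum_eq_zero fun q _ => map_zero (S.y p q), add_zero, sub_add_cancel_left,
        Nat.cast_smul_eq_nsmul]
    · rw [Prod.snd_neg, Prod.snd_sum, Pi.neg_apply, Finset.sum_apply]
      have h2 : ∀ q : Fin n, (∑ j : Fin m, S.vt.x j q (iG m n M (Pi.single q (u j)))).2 p =
          if p = q then -∑ j, S.x j q (u j) else 0 := by
        intro q
        rw [Prod.snd_sum, Finset.sum_apply]
        have h3 : ∀ j : Fin m, (S.vt.x j q (iG m n M (Pi.single q (u j)))).2 p =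
            if p = q then -S.x j q (u j) else 0 := by
          intro j
          change -S.x j q ((Pi.single q (u j) : Fin n → M) p) = _
          by_cases h : p = q
          · subst h
            rw [Pi.single_eq_same, if_pos rfl]
          · rw [Pi.single_eq_of_ne h, if_neg h, map_zero, neg_zero]
        rw [Finset.sum_congr rfl fun j _ => h3 j]
        by_cases h : p = q
        · simp [h]
        · simp [h]
      rw [Finset.sum_congr rfl fun q _ => h2 q]
      change (∑ j, S.x j p (u j) + ∑ q, S.b p q 0) - 0 = _
      rw [Finset.sum_eq_zero fun q _ => map_zero (S.b p q), add_zero, sub_zero]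
      simp
  rw [h1]
  refine (AG S W).neg_mem ((AG S W).sum_mem fun q _ => (AG S W).sum_mem fun j _ => ?_)
  exact G12_x _ _ j q _ (g13b_mem S W q (u j) (hu j))

theorem G13_yF (S : GM m n M) (W : Submodule ℂ M) (hy : ∀ i l, ∀ w ∈ W, S.y i l w = 0)
    (u : Fin m → M) (hu : u ∈ vW m W) (i : Fin m) (l : Fin n) :
    S.vt.y i l (iF m n M u) ∈ AG S W := by
  have h1 : S.vt.y i l (iF m n M u) = iG m n M (Pi.single l (u i)) := by
    refine Prod.ext (funext fun p => ?_) (funext fun p => ?_)
    · exact hy i l _ (hu p)
    · change (if p = l then u i else 0) - S.y i l 0 = (Pi.single l (u i) : Fin n → M) p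
      rw [map_zero, sub_zero, Pi.single_apply]
  rw [h1]
  exact g13b_mem S W l (u i) (hu i)

theorem G13_top (S : GM m n M) (α : Fin m → ℤ) (β : Fin n → ℤ) (W : Submodule ℂ M)
    (hW : S.Low α β W) :
    S.vt.gen ((vW m W).map (iF m n M) ⊔ (vW n W).map (iG m n M)) = ⊤ := by
  set G := S.vt.gen ((vW m W).map (iF m n M) ⊔ (vW n W).map (iG m n M)) with hG
  have hle : (vW m W).map (iF m n M) ⊔ (vW n W).map (iG m n M) ≤ G := G12_le _ _
  have hx : ∀ i l, ∀ v ∈ G, S.vt.x i l v ∈ G := G12_x _ _
  have hF : ∀ (z : M) (j : Fin m), iF m n M (Pi.single j z) ∈ G := by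
    let N : Submodule ℂ M :=
      { carrier := {z | ∀ j : Fin m, iF m n M (Pi.single j z) ∈ G}
        add_mem' := by
          intro u v hu hv j
          rw [Pi.single_add, map_add]
          exact G.add_mem (hu j) (hv j)
        zero_mem' := by
          intro j
          rw [Pi.single_zero, map_zero]
          exact G.zero_mem
        smul_mem' := by
          intro r u hu j
          rw [Pi.single_smul, map_smul]
          exact G.smul_mem r (hu j) }
    have hN : N = ⊤ := by
      apply hW.gen N
      · intro w hw j
        exact hle (Submodule.mem_sup_left ⟨_, fun p => by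
          by_cases h : p = j
          · subst h
            rw [Pi.single_eq_same]
            exact hw
          · rw [Pi.single_eq_of_ne h]
            exact W.zero_mem, rfl⟩)
      · intro i l z hz j
        have h1 : S.vt.x i l (iF m n M (Pi.single j z)) = iF m n M (Pi.single j (S.x i l z)) := by
          refine Prod.ext (funext fun p => ?_) (funext fun p => ?_)
          · change (if p = i then (0 : M) else 0) + S.x i l ((Pi.single j z : Fin m → M) p) =
              (Pi.single j (S.x i l z) : Fin m → M) p
            rw [ite_self, zero_add]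
            by_cases h : p = j
            · subst h
              rw [Pi.single_eq_same, Pi.single_eq_same]
            · rw [Pi.single_eq_of_ne h, Pi.single_eq_of_ne h, map_zero]
          · change -S.x i l 0 = 0
            rw [map_zero, neg_zero]
        rw [← h1]
        exact hx i l _ (hz j)
    intro z
    have h2 : z ∈ N := hN ▸ Submodule.mem_top
    exact h2
  have hGG : ∀ (z : M) (q : Fin n), iG m n M (Pi.single q z) ∈ G := by
    let N : Submodule ℂ M :=
      { carrier := {z | ∀ j : Fin n, iG m n M (Pi.single j z) ∈ G}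
        add_mem' := by
          intro u v hu hv j
          rw [Pi.single_add, map_add]
          exact G.add_mem (hu j) (hv j)
        zero_mem' := by
          intro j
          rw [Pi.single_zero, map_zero]
          exact G.zero_mem
        smul_mem' := by
          intro r u hu j
          rw [Pi.single_smul, map_smul]
          exact G.smul_mem r (hu j) }
    have hN : N = ⊤ := by
      apply hW.gen N
      · intro w hw j
        exact hle (Submodule.mem_sup_right ⟨_, g13b_singleW W j w hw, rfl⟩)
      · intro i l z hz j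
        have h1 : iG m n M (Pi.single j (S.x i l z)) =
            iF m n M (Pi.single i (if l = j then z else 0)) -
              S.vt.x i l (iG m n M (Pi.single j z)) := by
          refine Prod.ext (funext fun p => ?_) (funext fun p => ?_)
          · change (0 : M) = (Pi.single i (if l = j then z else 0) : Fin m → M) p -
              ((if p = i then (Pi.single j z : Fin n → M) l else 0) + S.x i l 0)
            rw [map_zero, add_zero, Pi.single_apply, Pi.single_apply, sub_self]
          · change (Pi.single j (S.x i l z) : Fin n → M) p =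
              0 - -S.x i l ((Pi.single j z : Fin n → M) p)
            rw [zero_sub, neg_neg]
            by_cases h : p = j
            · subst h
              rw [Pi.single_eq_same, Pi.single_eq_same]
            · rw [Pi.single_eq_of_ne h, Pi.single_eq_of_ne h, map_zero]
        rw [h1]
        exact G.sub_mem (hF _ _) (hx i l _ (hz j))
    intro z
    have h2 : z ∈ N := hN ▸ Submodule.mem_top
    exact h2
  rw [eq_top_iff]
  rintro ⟨u, w⟩ -
  have h1 : ((u, w) : (Fin m → M) × (Fin n → M)) =
      ∑ j, iF m n M (Pi.single j (u j)) + ∑ q, iG m n M (Pi.single q (w q)) := by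
    rw [← map_sum, ← map_sum, Finset.univ_sum_single, Finset.univ_sum_single]
    refine Prod.ext ?_ ?_
    · change u = u + 0
      rw [add_zero]
    · change w = 0 + w
      rw [zero_add]
  rw [h1]
  exact G.add_mem (G.sum_mem fun j _ => hF _ _) (G.sum_mem fun q _ => hGG _ _)

end H95H
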