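import Pool.Agent.Lib.H95H.G13b

namespace H95H

variable {m n k : ℕ} {M : Type} [AddCommGroup M] [Module ℂ M]

/-!
# Chunk G14: dimensions

Let `S` be good, finite-dimensional, with lowest part `W`, and `dim M = D w` with
`D = 2 ^ (m * n)`, `w = dim W`. Then `dim ((Fin m → M) × (Fin n → M)) = (m + n) D w`. By `G12_finrank`
`dim AG ≤ D n w`, and the quotient by `AG` is generated by the image of `(vW m W).map iF`
(`G13_top`, `G12_map`, the image of the other part is `0`), so it has dimension `≤ D m w`. Hence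
both are equalities (`G14_AG`, `G14_quo`).
* `G14_AGt`: `AG = ⨆ AGt` (`G13_AG_sup`), `dim AGt ≤ D dim EG_t` (`G12_finrank`), and
  `∑_t dim EG_t = n w` (the `EG_t` are independent eigenspaces of `tG` in the space `vW n W` of
  dimension `n w`, which they span by `G11_Gspan`; finitely many are nonzero). So
  `D n w = dim AG ≤ ∑ dim AGt ≤ D n w`, and `dim AGt = D dim EG_t` for all `t`.
* `G14_AFt`: the same in the quotient `Q = ((..) ⧸ AG)`, for the subspaces generated by the images of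
  `(EF t).map iF`.
-/

/-- `W`-valued vectors -/
def g14a_equiv (n : ℕ) (W : Submodule ℂ M) : ↥(vW n W) ≃ₗ[ℂ] (Fin n → ↥W) where
  toFun u i := ⟨u.1 i, u.2 i⟩
  invFun u := ⟨fun i => (u i).1, fun i => (u i).2⟩
  map_add' _ _ := rfl
  map_smul' _ _ := rfl
  left_inv _ := rfl
  right_inv _ := rfl

theorem g14a_finrank (n : ℕ) (W : Submodule ℂ M) [Module.Finite ℂ M] :
    Module.finrank ℂ ↥(vW n W) = n * Module.finrank ℂ ↥W := by
  rw [(g14a_equiv n W).finrank_eq, Module.finrank_pi_fintype]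
  simp

theorem g14a_total (m n : ℕ) (M : Type) [AddCommGroup M] [Module ℂ M] [Module.Finite ℂ M] :
    Module.finrank ℂ ((Fin m → M) × (Fin n → M)) = (m + n) * Module.finrank ℂ M := by
  rw [Module.finrank_prod, Module.finrank_pi_fintype, Module.finrank_pi_fintype]
  simp [add_mul]

theorem g14a_mkQ (S : GM m n M) (N : Submodule ℂ M) (hN : S.Stab N) :
    GHom S (S.quo N hN) N.mkQ :=
  ⟨fun _ _ _ => rfl, fun _ _ _ => rfl, fun _ _ _ => rfl, fun _ _ _ => rfl⟩

theorem g14a_top (S : GM m n M) (α : Fin m → ℤ) (β : Fin n → ℤ) (W : Submodule ℂ M)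
    (hW : S.Low α β W) :
    (S.vt.quo (AG S W) (G13_AG S α β W hW)).gen
      (((vW m W).map (iF m n M)).map (AG S W).mkQ) = ⊤ := by
  have h1 := G12_map S.vt (S.vt.quo (AG S W) (G13_AG S α β W hW)) (AG S W).mkQ
    (g14a_mkQ _ _ _) ((vW m W).map (iF m n M) ⊔ (vW n W).map (iG m n M))
  rw [G13_top S α β W hW, Submodule.map_top, Submodule.range_mkQ, Submodule.map_sup] at h1
  have h2 : ((vW n W).map (iG m n M)).map (AG S W).mkQ = ⊥ := by
    rw [eq_bot_iff, Submodule.map_le_iff_le_comap]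
    intro z hz
    rw [Submodule.mem_comap, Submodule.mem_bot, Submodule.mkQ_apply, Submodule.Quotient.mk_eq_zero]
    exact G12_le _ _ hz
  rw [h2, sup_bot_eq] at h1
  exact h1.symm

theorem g14a_bot (S : GM m n M) : S.gen ⊥ = ⊥ := by
  rw [eq_bot_iff]
  refine G12_min S ⊥ ⊥ le_rfl fun i l v hv => ?_
  rw [(Submodule.mem_bot ℂ).1 hv, map_zero]
  exact Submodule.zero_mem _

theorem g14a_AG_le (S : GM m n M) (hfin : Module.Finite ℂ M) (W : Submodule ℂ M) :
    Module.finrank ℂ ↥(AG S W) ≤ 2 ^ (m * n) * (n * Module.finrank ℂ ↥W) := by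
  have h1 := (G12_finrank S.vt ((vW n W).map (iG m n M)) inferInstance).2
  have h2 : Module.finrank ℂ ↥((vW n W).map (iG m n M)) ≤ n * Module.finrank ℂ ↥W := by
    rw [← g14a_finrank]
    exact Submodule.finrank_map_le _ _
  exact h1.trans (Nat.mul_le_mul_left _ h2)

theorem G14_AG (S : GM m n M) (hS : S.toG0.Good) (hfin : Module.Finite ℂ M) (α : Fin m → ℤ)
    (β : Fin n → ℤ) (W : Submodule ℂ M) (hW : S.Low α β W)
    (hd : Module.finrank ℂ M = 2 ^ (m * n) * Module.finrank ℂ ↥W) :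
    Module.finrank ℂ ↥(AG S W) = 2 ^ (m * n) * (n * Module.finrank ℂ ↥W) := by
  apply le_antisymm (g14a_AG_le S hfin W)
  have h1 := (G12_finrank (S.vt.quo (AG S W) (G13_AG S α β W hW))
    (((vW m W).map (iF m n M)).map (AG S W).mkQ) inferInstance).2
  rw [g14a_top S α β W hW, finrank_top] at h1
  have h2 : Module.finrank ℂ ↥(((vW m W).map (iF m n M)).map (AG S W).mkQ) ≤
      m * Module.finrank ℂ ↥W := by
    rw [← g14a_finrank]
    exact (Submodule.finrank_map_le _ _).trans (Submodule.finrank_map_le _ _)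
  have h3 := Submodule.finrank_quotient_add_finrank (AG S W)
  rw [g14a_total, hd] at h3
  have h4 := h1.trans (Nat.mul_le_mul_left _ h2)
  have h5 : (m + n) * (2 ^ (m * n) * Module.finrank ℂ ↥W) =
      2 ^ (m * n) * (m * Module.finrank ℂ ↥W) + 2 ^ (m * n) * (n * Module.finrank ℂ ↥W) := by
    ring
  rw [h5] at h3
  omega

/-- finite suprema of subspaces -/
theorem g14a_sup_le {E : Type} [AddCommGroup E] [Module ℂ E] [Module.Finite ℂ E]
    (V : ℤ → Submodule ℂ E) (T : Finset ℤ) :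
    Module.finrank ℂ ↥(⨆ t ∈ T, V t) ≤ ∑ t ∈ T, Module.finrank ℂ ↥(V t) := by
  classical
  induction T using Finset.induction_on with
  | empty => simp
  | insert a T ha ih =>
    rw [Finset.iSup_insert, Finset.sum_insert ha]
    exact (Submodule.finrank_add_le_finrank_add_finrank _ _).trans (Nat.add_le_add_left ih _)

/-- independent subspaces -/
theorem g14a_indep {E : Type} [AddCommGroup E] [Module ℂ E] [Module.Finite ℂ E]
    (V : ℤ → Submodule ℂ E) (hV : iSupIndep V) (T : Finset ℤ) :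
    ∑ t ∈ T, Module.finrank ℂ ↥(V t) = Module.finrank ℂ ↥(⨆ t ∈ T, V t) := by
  classical
  induction T using Finset.induction_on with
  | empty =>
    have h1 : (⨆ t ∈ (∅ : Finset ℤ), V t) = ⊥ := by simp
    rw [h1, finrank_bot, Finset.sum_empty]
  | insert a T ha ih =>
    rw [Finset.iSup_insert, Finset.sum_insert ha, ih]
    have h1 := Submodule.finrank_sup_add_finrank_inf_eq (V a) (⨆ t ∈ T, V t)
    have h2 : V a ⊓ (⨆ t ∈ T, V t) = ⊥ := by
      rw [← disjoint_iff]
      refine (hV a).mono_right ?_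
      refine iSup₂_le fun t ht => ?_
      exact le_iSup₂_of_le t (fun h => ha (h ▸ ht)) le_rfl
    rw [h2, finrank_bot, add_zero] at h1
    exact h1.symm

theorem g14a_eig {E : Type} [AddCommGroup E] [Module ℂ E] (f : E →ₗ[ℂ] E) (c : ℤ) (V : ℤ → Submodule ℂ E)
    (hV : ∀ t, ∀ v ∈ V t, f v = ((t + c : ℤ) : ℂ) • v) : iSupIndep V := by
  have h1 := (Module.End.eigenspaces_iSupIndep f).comp
    (f := fun t : ℤ => ((t + c : ℤ) : ℂ)) (fun a b hab => by
      have h2 : ((a + c : ℤ) : ℂ) = ((b + c : ℤ) : ℂ) := hab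
      have h3 : (a + c : ℤ) = b + c := by exact_mod_cast h2
      omega)
  refine h1.mono fun t v hv => ?_
  exact Module.End.mem_eigenspace_iff.2 (hV t v hv)

/-- equality of dimensions, summand by summand -/
theorem g14a_sum (T : Finset ℤ) (f g : ℤ → ℕ) (h : ∀ t ∈ T, f t ≤ g t)
    (hs : ∑ t ∈ T, g t ≤ ∑ t ∈ T, f t) : ∀ t ∈ T, f t = g t := by
  have h1 : ∑ t ∈ T, f t = ∑ t ∈ T, g t := le_antisymm (Finset.sum_le_sum h) hs
  exact (Finset.sum_eq_sum_iff_of_le h).1 h1

theorem G14_AGt (S : GM m n M) (hS : S.toG0.Good) (hfin : Module.Finite ℂ M) (α : Fin m → ℤ)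
    (β : Fin n → ℤ) (W : Submodule ℂ M) (hW : S.Low α β W)
    (hd : Module.finrank ℂ M = 2 ^ (m * n) * Module.finrank ℂ ↥W) (t : ℤ) :
    Module.finrank ℂ ↥(AGt S W t) = 2 ^ (m * n) * Module.finrank ℂ ↥(EG S.toG0 W t) := by
  classical
  let T : Finset ℤ := Finset.univ.image (fun s : Fin n => β s + (n - 1 - s.1 : ℤ))
  have hT : ∀ t, t ∉ T → EG S.toG0 W t = ⊥ := by
    intro t ht
    by_contra hne
    obtain ⟨s, -, hs⟩ := G11_G0 S.toG0 hS hfin α β W hW.irr t hne
    exact ht (Finset.mem_image.2 ⟨s, Finset.mem_univ _, hs.symm⟩)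
  have hT2 : ∀ t, t ∉ T → AGt S W t = ⊥ := by
    intro t ht
    rw [AGt, hT t ht, Submodule.map_bot, g14a_bot]
  have hAG : AG S W = ⨆ t ∈ T, AGt S W t := by
    rw [G13_AG_sup S hS hfin α β W hW]
    apply le_antisymm
    · refine iSup_le fun t => ?_
      by_cases ht : t ∈ T
      · exact le_iSup₂_of_le t ht le_rfl
      · rw [hT2 t ht]
        exact bot_le
    · exact iSup₂_le fun t _ => le_iSup (fun t => AGt S W t) t
  have hle : ∀ t ∈ T, Module.finrank ℂ ↥(AGt S W t) ≤
      2 ^ (m * n) * Module.finrank ℂ ↥(EG S.toG0 W t) := by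
    intro t _
    refine (G12_finrank S.vt _ inferInstance).2.trans (Nat.mul_le_mul_left _ ?_)
    exact Submodule.finrank_map_le _ _
  have hind : iSupIndep (fun t => EG S.toG0 W t) :=
    g14a_eig (tG S.toG0) 0 _ (fun t v hv => by
      rw [hv.2, add_zero])
  have hsum : ∑ t ∈ T, Module.finrank ℂ ↥(EG S.toG0 W t) ≤ n * Module.finrank ℂ ↥W := by
    rw [g14a_indep _ hind, ← g14a_finrank]
    refine Submodule.finrank_mono ?_
    exact iSup₂_le fun t _ w hw => hw.1
  have hs : ∑ t ∈ T, 2 ^ (m * n) * Module.finrank ℂ ↥(EG S.toG0 W t) ≤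
      ∑ t ∈ T, Module.finrank ℂ ↥(AGt S W t) := by
    rw [← Finset.mul_sum]
    refine (Nat.mul_le_mul_left _ hsum).trans ?_
    rw [← G14_AG S hS hfin α β W hW hd, hAG]
    exact g14a_sup_le _ _
  by_cases ht : t ∈ T
  · exact g14a_sum T _ _ hle hs t ht
  · rw [hT2 t ht, hT t ht, finrank_bot, finrank_bot, mul_zero]

/-- the image of `EF S W t` in the quotient by `AG` -/
def UFt (S : GM m n M) (W : Submodule ℂ M) (t : ℤ) :
    Submodule ℂ (((Fin m → M) × (Fin n → M)) ⧸ AG S W) :=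
  ((EF S.toG0 W t).map (iF m n M)).map (AG S W).mkQ

end H95H
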