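import Pool.Agent.Lib.H95H.G14a

namespace H95H

variable {m n k : ℕ} {M : Type} [AddCommGroup M] [Module ℂ M]

/-!
# Chunk G14: dimensions

Let `S` be good, finite-dimensional, with lowest part `W`, and `dim M = D w` with
`D = 2 ^ (m * n)`, `w = dim W`. Then `dim ((Fin m → M) × (Fin n → M)) = (m + n) D w`. By `G12_finrank`
`dim AG ≤ D n w`, and the quotient by `AG` is generated by the image of `(vW m W).map iF`
(`G13_top`, `G12_map`, the image of the other part is `0`), so it has dimension `≤ D m w`. Hence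
both are equalities (`G14_AG`, `G14_quo`).
* `G14_AGt`: `AG = ⨆ AGt` (`G13_AG_sup`), `dim AGt ≤ D dim EG_t` (`G12_finrank`), and
  `∑_t dim EG_t = n w` (the `EG_t` are independent eigenspaces of `tG` in the space `vW n W` of
  dimension `n w`, which they span by `G11_Gspan`; finitely many are nonzero). So
  `D n w = dim AG ≤ ∑ dim AGt ≤ D n w`, and `dim AGt = D dim EG_t` for all `t`.
* `G14_AFt`: the same in the quotient `Q = ((..) ⧸ AG)`, for the subspaces generated by the images of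
  `(EF t).map iF`.
-/

theorem g14b_quo_finrank (S : GM m n M) (hS : S.toG0.Good) (hfin : Module.Finite ℂ M)
    (α : Fin m → ℤ) (β : Fin n → ℤ) (W : Submodule ℂ M) (hW : S.Low α β W)
    (hd : Module.finrank ℂ M = 2 ^ (m * n) * Module.finrank ℂ ↥W) :
    Module.finrank ℂ (((Fin m → M) × (Fin n → M)) ⧸ AG S W) =
      2 ^ (m * n) * (m * Module.finrank ℂ ↥W) := by
  have h3 := Submodule.finrank_quotient_add_finrank (AG S W)
  rw [g14a_total, hd, G14_AG S hS hfin α β W hW hd] at h3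
  have h5 : (m + n) * (2 ^ (m * n) * Module.finrank ℂ ↥W) =
      2 ^ (m * n) * (m * Module.finrank ℂ ↥W) + 2 ^ (m * n) * (n * Module.finrank ℂ ↥W) := by
    ring
  rw [h5] at h3
  omega

theorem g14b_sup (S : GM m n M) (hS : S.toG0.Good) (hfin : Module.Finite ℂ M) (α : Fin m → ℤ)
    (β : Fin n → ℤ) (W : Submodule ℂ M) (hW : S.Low α β W) :
    (⨆ t : ℤ, (S.vt.quo (AG S W) (G13_AG S α β W hW)).gen (UFt S W t)) = ⊤ := by
  have h1 : vW m W = ⨆ t : ℤ, EF S.toG0 W t := by
    apply le_antisymm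
    · intro w hw
      exact G11_Fspan S.toG0 hS hfin α β W hW.irr w hw
    · exact iSup_le fun t w hw => hw.1
  rw [← G12_iSup, ← g14a_top S α β W hW]
  congr 1
  rw [h1, Submodule.map_iSup, Submodule.map_iSup]
  rfl

/-- injectivity of `EF S W t → (..) ⧸ AG`, and the dimension of the submodule generated -/
theorem G14_AFt (S : GM m n M) (hS : S.toG0.Good) (hfin : Module.Finite ℂ M) (α : Fin m → ℤ)
    (β : Fin n → ℤ) (W : Submodule ℂ M) (hW : S.Low α β W)
    (hd : Module.finrank ℂ M = 2 ^ (m * n) * Module.finrank ℂ ↥W) (t : ℤ) :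
    Module.finrank ℂ ↥(UFt S W t) = Module.finrank ℂ ↥(EF S.toG0 W t) ∧
    Module.finrank ℂ ↥((S.vt.quo (AG S W) (G13_AG S α β W hW)).gen (UFt S W t)) =
      2 ^ (m * n) * Module.finrank ℂ ↥(EF S.toG0 W t) := by
  classical
  let T : Finset ℤ := Finset.univ.image (fun r : Fin m => α r - r.1 + n)
  have hT : ∀ t, t ∉ T → EF S.toG0 W t = ⊥ := by
    intro t ht
    by_contra hne
    obtain ⟨s, -, hs⟩ := G11_F0 S.toG0 hS hfin α β W hW.irr t hne
    exact ht (Finset.mem_image.2 ⟨s, Finset.mem_univ _, by rw [← hs]; ring⟩)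
  have hT2 : ∀ t, t ∉ T → UFt S W t = ⊥ := by
    intro t ht
    rw [UFt, hT t ht, Submodule.map_bot, Submodule.map_bot]
  have hT3 : ∀ t, t ∉ T → (S.vt.quo (AG S W) (G13_AG S α β W hW)).gen (UFt S W t) = ⊥ := by
    intro t ht
    rw [hT2 t ht, g14a_bot]
  have hle1 : ∀ t, Module.finrank ℂ ↥(UFt S W t) ≤ Module.finrank ℂ ↥(EF S.toG0 W t) := by
    intro t
    exact (Submodule.finrank_map_le _ _).trans (Submodule.finrank_map_le _ _)
  have hle2 : ∀ t, Module.finrank ℂ
      ↥((S.vt.quo (AG S W) (G13_AG S α β W hW)).gen (UFt S W t)) ≤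
      2 ^ (m * n) * Module.finrank ℂ ↥(UFt S W t) := by
    intro t
    exact (G12_finrank (S.vt.quo (AG S W) (G13_AG S α β W hW)) (UFt S W t) inferInstance).2
  have hind : iSupIndep (fun t => EF S.toG0 W t) :=
    g14a_eig (tF S.toG0) (-n) _ (fun t v hv => by
      rw [hv.2, sub_eq_add_neg])
  have hsum : ∑ t ∈ T, Module.finrank ℂ ↥(EF S.toG0 W t) ≤ m * Module.finrank ℂ ↥W := by
    rw [g14a_indep _ hind, ← g14a_finrank]
    refine Submodule.finrank_mono ?_
    exact iSup₂_le fun t _ w hw => hw.1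
  have htop : (⊤ : Submodule ℂ (((Fin m → M) × (Fin n → M)) ⧸ AG S W)) =
      ⨆ t ∈ T, (S.vt.quo (AG S W) (G13_AG S α β W hW)).gen (UFt S W t) := by
    rw [← g14b_sup S hS hfin α β W hW]
    apply le_antisymm
    · refine iSup_le fun t => ?_
      by_cases ht : t ∈ T
      · exact le_iSup₂_of_le t ht le_rfl
      · rw [hT3 t ht]
        exact bot_le
    · exact iSup₂_le fun t _ =>
        le_iSup (fun t => (S.vt.quo (AG S W) (G13_AG S α β W hW)).gen (UFt S W t)) t
  have hs : ∑ t ∈ T, 2 ^ (m * n) * Module.finrank ℂ ↥(EF S.toG0 W t) ≤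
      ∑ t ∈ T, Module.finrank ℂ ↥((S.vt.quo (AG S W) (G13_AG S α β W hW)).gen (UFt S W t)) := by
    rw [← Finset.mul_sum]
    refine (Nat.mul_le_mul_left _ hsum).trans ?_
    rw [← g14b_quo_finrank S hS hfin α β W hW hd, ← finrank_top, htop]
    exact g14a_sup_le _ _
  by_cases ht : t ∈ T
  · have h1 := g14a_sum T _ _ (fun t _ => (hle2 t).trans (Nat.mul_le_mul_left _ (hle1 t))) hs t ht
    refine ⟨le_antisymm (hle1 t) ?_, h1⟩
    have h2 := hle2 t
    rw [h1] at h2
    exact Nat.le_of_mul_le_mul_left h2 (by positivity)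
  · rw [hT3 t ht, hT2 t ht, hT t ht]
    simp

theorem G14_sup (S : GM m n M) (hS : S.toG0.Good) (hfin : Module.Finite ℂ M) (α : Fin m → ℤ)
    (β : Fin n → ℤ) (W : Submodule ℂ M) (hW : S.Low α β W) :
    (⨆ t : ℤ, (S.vt.quo (AG S W) (G13_AG S α β W hW)).gen (UFt S W t)) = ⊤ :=
  g14b_sup S hS hfin α β W hW

end H95H
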