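import Pool.Agent.Lib.H95H.G00

namespace H95H

variable {m n k : ℕ} {M : Type} [AddCommGroup M] [Module ℂ M]
  {M' : Type} [AddCommGroup M'] [Module ℂ M']

/-- a bead of the first partition moves from `t - 1` to `t` -/
def movA {n : ℕ} (γ γ' : Fin n → ℕ) (t : ℤ) : Prop :=
  Antitone γ' ∧ ∃ r : Fin n, γ' = γ + Pi.single r 1 ∧ t = (γ r : ℤ) + (n - 1 - r.1) + 1

/-- a bead of the second partition moves from `t` to `t - 1` -/
def movB {n : ℕ} (δ δ' : Fin n → ℕ) (t : ℤ) : Prop :=
  Antitone δ' ∧ ∃ s : Fin n, δ = δ' + Pi.single s 1 ∧ t = (δ s : ℤ) + (n - 1 - s.1)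

/-!
# Chunk G15: the translation functor on a Kac module

* `G15_iso`: `Low`, dimensions and so `isKac` are transported by bijective homomorphisms.
* `G15_K2`: take `N = comap` of `AGt S W t` under the inclusion of `Ft t` (`G13_AGt`).
  (i) `AG ⊓ Ft t = AGt`: `AG = ⨆ AGs` with `AGs ≤ Ft s`, and the `Ft s` are independent
  (`Module.End.independent_maxGenEigenspace`).
  (ii) In `Q = (..) ⧸ AG` the operator induced by `Om` is multiplication by `s` on `UFt s`
  (`G13_OmF`: `tF u + n u = s u`), hence on the submodule generated by `UFt s` (`Om` commutes with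
  `x`). These span `Q` (`G14_sup`), so the image of `Ft t` in `Q` (which is contained in the
  generalised `t`-eigenspace) is contained in `gen (UFt t)`; it is equal to it, since an element of
  `gen (UFt t)` lifts to `z`, whose components in the other generalised eigenspaces map to `0`
  (as in `G03_surj`).
  (iii) So `(F t) ⧸ N` is isomorphic to `gen (UFt t)` as a module, and `N` to `AGt`.
  If `movB δ δ' t` then `EG S W t` is irreducible of highest weight `(γ, δ')` (`G11_G`), and `AGt` is a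
  Kac module with lowest part `(EG ..).map iG` (killed by `y`: `G13`; dimension: `G14_AGt`; note that
  `iG` is injective and intertwines `S.gv` with `S.vt`). If no `δ'` with `movB δ δ' t` exists and
  `t ≥ 1`, then `EG = ⊥` by `G11_G0`: an index `s` with `nz δ - e_s` antitone and
  `t = δ s + (n - 1 - s) ≥ 1` has `δ s ≥ 1` (if `δ s = 0` then `s = n - 1`, because `δ` is antitone
  and `δ - e_s` too, and `t = 0`). So `AGt = ⊥`. The same for the quotient with `EF`: `G11_F`, `G11_F0`;
  for `t ≥ 1` the index `r : Fin (n + k)` with `pz γ + e_r` antitone, `t - n = pz γ r - r` satisfies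
  `r < n` (otherwise `pz γ r = 0` and `t = n - r ≤ 0`).
* `G15_neg`: for `t < 0` both `EG` and `EF` vanish: `t = δ s + (n-1-s) ≥ 0`, and
  `t = pz γ r + n - r`: for `r ≤ n` it is `≥ 0`, and for `r > n`, `pz γ r = pz γ (r-1) = 0` and
  `pz γ + e_r` is not antitone.
-/

/-- surjective images of modules with lowest part -/
theorem g15a_low (S : GM m n M) (S' : GM m n M') (f : M →ₗ[ℂ] M') (hf : GHom S S' f)
    (hs : Function.Surjective f) (hne : Nontrivial M') (α : Fin m → ℤ) (β : Fin n → ℤ)
    (W : Submodule ℂ M) (hW : S.Low α β W) : S'.Low α β (W.map f) := by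
  obtain ⟨ha, hb, hx, hy⟩ := hf
  have hker : ¬ W ≤ LinearMap.ker f := by
    intro h
    have h1 : LinearMap.ker f = ⊤ := by
      refine hW.gen _ h fun i l v hv => ?_
      rw [LinearMap.mem_ker] at hv ⊢
      rw [hx, hv, map_zero]
    obtain ⟨z, hz⟩ := exists_ne (0 : M')
    obtain ⟨v, rfl⟩ := hs z
    apply hz
    have h2 : v ∈ LinearMap.ker f := by rw [h1]; exact Submodule.mem_top
    exact h2
  have hkW : LinearMap.ker f ⊓ W = ⊥ := by
    have hst : S.toG0.Stab (LinearMap.ker f ⊓ W) := by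
      constructor
      · rintro i j v ⟨h1, h2⟩
        refine ⟨?_, hW.irr.stab.1 i j v h2⟩
        show f (S.a i j v) = 0
        rw [ha, show f v = 0 from h1, map_zero]
      · rintro i j v ⟨h1, h2⟩
        refine ⟨?_, hW.irr.stab.2 i j v h2⟩
        show f (S.b i j v) = 0
        rw [hb, show f v = 0 from h1, map_zero]
    rcases hW.irr.irr _ inf_le_right hst with h | h
    · exact h
    · exact absurd (inf_eq_right.1 h) hker
  refine ⟨⟨⟨?_, ?_⟩, ?_, ?_⟩, ?_, ?_⟩
  · rintro i j _ ⟨v, hv, rfl⟩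
    exact ⟨S.a i j v, hW.irr.stab.1 i j v hv, ha i j v⟩
  · rintro i j _ ⟨v, hv, rfl⟩
    exact ⟨S.b i j v, hW.irr.stab.2 i j v hv, hb i j v⟩
  · obtain ⟨v, hv, hv0, ⟨hwa, hwb⟩, h1, h2⟩ := hW.irr.hw
    refine ⟨f v, ⟨v, hv, rfl⟩, fun h0 => ?_, ⟨fun i => ?_, fun l => ?_⟩, fun i j hij => ?_,
      fun l q hlq => ?_⟩
    · apply hv0
      have h3 : v ∈ LinearMap.ker f ⊓ W := ⟨h0, hv⟩
      rw [hkW] at h3
      exact h3
    · rw [← ha, hwa, map_smul]
    · rw [← hb, hwb, map_smul]
    · rw [← ha, h1 i j hij, map_zero]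
    · rw [← hb, h2 l q hlq, map_zero]
  · intro W' hW' hst
    have hst' : S.toG0.Stab (W ⊓ W'.comap f) := by
      constructor
      · rintro i j v ⟨h1, h2⟩
        refine ⟨hW.irr.stab.1 i j v h1, ?_⟩
        show f (S.a i j v) ∈ W'
        rw [ha]
        exact hst.1 i j _ h2
      · rintro i j v ⟨h1, h2⟩
        refine ⟨hW.irr.stab.2 i j v h1, ?_⟩
        show f (S.b i j v) ∈ W'
        rw [hb]
        exact hst.2 i j _ h2
    rcases hW.irr.irr _ inf_le_left hst' with h | h
    · left
      rw [eq_bot_iff]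
      intro z hz
      obtain ⟨v, hv, rfl⟩ := hW' hz
      have h3 : v ∈ W ⊓ W'.comap f := ⟨hv, hz⟩
      rw [h, Submodule.mem_bot] at h3
      rw [h3, map_zero]
      exact zero_mem _
    · right
      apply le_antisymm hW'
      rw [Submodule.map_le_iff_le_comap]
      exact inf_eq_left.1 h
  · rintro i l _ ⟨v, hv, rfl⟩
    rw [← hy, hW.yW i l v hv, map_zero]
  · intro N hN hNx
    have h1 : N.comap f = ⊤ := by
      refine hW.gen _ (Submodule.map_le_iff_le_comap.1 hN) fun i l v hv => ?_
      show f (S.x i l v) ∈ N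
      rw [hx]
      exact hNx i l _ hv
    rw [eq_top_iff]
    intro z _
    obtain ⟨v, rfl⟩ := hs z
    have h2 : v ∈ N.comap f := by rw [h1]; exact Submodule.mem_top
    exact h2

theorem G15_iso (S : GM (n + k) n M) (S' : GM (n + k) n M') (e : M →ₗ[ℂ] M') (he : GHom S S' e)
    (hb : Function.Bijective e) (γ δ : Fin n → ℕ) :
    (S.isKac γ δ → S'.isKac γ δ) ∧ (S.isLow γ δ → S'.isLow γ δ) ∧ (S.Sim → S'.Sim) := by
  have hne : ∀ W : Submodule ℂ M, S.Low (pz k γ) (nz δ) W → Nontrivial M' := by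
    intro W hW
    obtain ⟨v, -, hv0, -⟩ := hW.irr.hw
    exact ⟨⟨e v, 0, fun h => hv0 (hb.1 (by rw [h, map_zero]))⟩⟩
  have hlow : ∀ W : Submodule ℂ M, S.Low (pz k γ) (nz δ) W →
      S'.Low (pz k γ) (nz δ) (W.map e) := fun W hW =>
    g15a_low S S' e he hb.2 (hne W hW) _ _ W hW
  refine ⟨?_, ?_, ?_⟩
  · rintro ⟨W, hW, hd⟩
    refine ⟨W.map e, hlow W hW, ?_⟩
    have h1 : Module.finrank ℂ M = Module.finrank ℂ M' := (LinearEquiv.ofBijective e hb).finrank_eq
    have h2 : Module.finrank ℂ ↥W = Module.finrank ℂ ↥(W.map e) :=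
      (Submodule.equivMapOfInjective e hb.1 W).finrank_eq
    rw [← h1, ← h2]
    exact hd
  · rintro ⟨W, hW⟩
    exact ⟨W.map e, hlow W hW⟩
  · intro hsim N hN
    obtain ⟨ha, hbb, hx, hy⟩ := he
    have hst : S.Stab (N.comap e) := by
      refine ⟨⟨fun i j v hv => ?_, fun i j v hv => ?_⟩, fun i l v hv => ?_, fun i l v hv => ?_⟩
      · show e (S.a i j v) ∈ N
        rw [ha]
        exact hN.1.1 i j _ hv
      · show e (S.b i j v) ∈ N
        rw [hbb]
        exact hN.1.2 i j _ hv
      · show e (S.x i l v) ∈ N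
        rw [hx]
        exact hN.2.1 i l _ hv
      · show e (S.y i l v) ∈ N
        rw [hy]
        exact hN.2.2 i l _ hv
    have hmap : (N.comap e).map e = N := Submodule.map_comap_eq_of_surjective hb.2 N
    rcases hsim _ hst with h | h
    · left
      rw [← hmap, h, Submodule.map_bot]
    · right
      rw [← hmap, h, Submodule.map_top, LinearMap.range_eq_top]
      exact hb.2

end H95H
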