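import Pool.Agent.Lib.H95H.G14b
import Pool.Agent.Lib.H95H.G15a

namespace H95H

variable {m n k : ℕ} {M : Type} [AddCommGroup M] [Module ℂ M]
  {M' : Type} [AddCommGroup M'] [Module ℂ M']

/-!
# Chunk G15: the translation functor on a Kac module

* `G15_iso`: `Low`, dimensions and so `isKac` are transported by bijective homomorphisms.
* `G15_K2`: take `N = comap` of `AGt S W t` under the inclusion of `Ft t` (`G13_AGt`).
  (i) `AG ⊓ Ft t = AGt`: `AG = ⨆ AGs` with `AGs ≤ Ft s`, and the `Ft s` are independent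
  (`Module.End.independent_maxGenEigenspace`).
  (ii) In `Q = (..) ⧸ AG` the operator induced by `Om` is multiplication by `s` on `UFt s`
  (`G13_OmF`: `tF u + n u = s u`), hence on the submodule generated by `UFt s` (`Om` commutes with
  `x`). These span `Q` (`G14_sup`), so the image of `Ft t` in `Q` (which is contained in the
  generalised `t`-eigenspace) is contained in `gen (UFt t)`; it is equal to it, since an element of
  `gen (UFt t)` lifts to `z`, whose components in the other generalised eigenspaces map to `0`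
  (as in `G03_surj`).
  (iii) So `(F t) ⧸ N` is isomorphic to `gen (UFt t)` as a module, and `N` to `AGt`.
  If `movB δ δ' t` then `EG S W t` is irreducible of highest weight `(γ, δ')` (`G11_G`), and `AGt` is a
  Kac module with lowest part `(EG ..).map iG` (killed by `y`: `G13`; dimension: `G14_AGt`; note that
  `iG` is injective and intertwines `S.gv` with `S.vt`). If no `δ'` with `movB δ δ' t` exists and
  `t ≥ 1`, then `EG = ⊥` by `G11_G0`: an index `s` with `nz δ - e_s` antitone and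
  `t = δ s + (n - 1 - s) ≥ 1` has `δ s ≥ 1` (if `δ s = 0` then `s = n - 1`, because `δ` is antitone
  and `δ - e_s` too, and `t = 0`). So `AGt = ⊥`. The same for the quotient with `EF`: `G11_F`, `G11_F0`;
  for `t ≥ 1` the index `r : Fin (n + k)` with `pz γ + e_r` antitone, `t - n = pz γ r - r` satisfies
  `r < n` (otherwise `pz γ r = 0` and `t = n - r ≤ 0`).
* `G15_neg`: for `t < 0` both `EG` and `EF` vanish: `t = δ s + (n-1-s) ≥ 0`, and
  `t = pz γ r + n - r`: for `r ≤ n` it is `≥ 0`, and for `r > n`, `pz γ r = pz γ (r-1) = 0` and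
  `pz γ + e_r` is not antitone.
-/

/-- transport of irreducible submodules of the even part -/
theorem g15b_irr {E E' : Type} [AddCommGroup E] [Module ℂ E] [AddCommGroup E'] [Module ℂ E']
    {m n : ℕ} (S : G0 m n E) (S' : G0 m n E') (φ : E →ₗ[ℂ] E')
    (ha : ∀ i j v, φ (S.a i j v) = S'.a i j (φ v)) (hb : ∀ i j v, φ (S.b i j v) = S'.b i j (φ v))
    (α : Fin m → ℤ) (β : Fin n → ℤ) (W : Submodule ℂ E) (hW : S.Irr α β W)
    (hne : W.map φ ≠ ⊥) : S'.Irr α β (W.map φ) := by
  have hinj : ∀ w ∈ W, φ w = 0 → w = 0 := by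
    have hst : S.Stab (W ⊓ LinearMap.ker φ) := by
      refine ⟨fun i j u hu => ⟨hW.stab.1 i j u hu.1, ?_⟩,
        fun i j u hu => ⟨hW.stab.2 i j u hu.1, ?_⟩⟩
      · have h1 : φ u = 0 := hu.2
        change φ (S.a i j u) = 0
        rw [ha, h1, map_zero]
      · have h1 : φ u = 0 := hu.2
        change φ (S.b i j u) = 0
        rw [hb, h1, map_zero]
    rcases hW.irr _ inf_le_left hst with h | h
    · intro w hw hw0
      have h1 : w ∈ W ⊓ LinearMap.ker φ := ⟨hw, hw0⟩
      rw [h] at h1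
      exact (Submodule.mem_bot ℂ).1 h1
    · exfalso
      apply hne
      rw [eq_bot_iff]
      rintro z ⟨w, hw, rfl⟩
      have h1 : w ∈ W ⊓ LinearMap.ker φ := by
        rw [h]
        exact hw
      exact h1.2
  refine ⟨⟨?_, ?_⟩, ?_, ?_⟩
  · rintro i j z ⟨w, hw, rfl⟩
    exact ⟨_, hW.stab.1 i j w hw, ha i j w⟩
  · rintro i j z ⟨w, hw, rfl⟩
    exact ⟨_, hW.stab.2 i j w hw, hb i j w⟩
  · obtain ⟨v, hvW, hv, hhw⟩ := hW.hw
    refine ⟨φ v, ⟨v, hvW, rfl⟩, fun h => hv (hinj v hvW h), ⟨fun i => ?_, fun l => ?_⟩,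
      fun i j hij => ?_, fun l q hlq => ?_⟩
    · rw [← ha, hhw.1.1 i, map_smul]
    · rw [← hb, hhw.1.2 l, map_smul]
    · rw [← ha, hhw.2.1 i j hij, map_zero]
    · rw [← hb, hhw.2.2 l q hlq, map_zero]
  · intro W' hle hst
    have hst2 : S.Stab (W ⊓ W'.comap φ) := by
      refine ⟨fun i j u hu => ⟨hW.stab.1 i j u hu.1, ?_⟩,
        fun i j u hu => ⟨hW.stab.2 i j u hu.1, ?_⟩⟩
      · change φ (S.a i j u) ∈ W'
        rw [ha]
        exact hst.1 i j _ hu.2
      · change φ (S.b i j u) ∈ W'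
        rw [hb]
        exact hst.2 i j _ hu.2
    rcases hW.irr _ inf_le_left hst2 with h | h
    · left
      rw [eq_bot_iff]
      intro z hz
      obtain ⟨w, hw, rfl⟩ := hle hz
      have h1 : w ∈ W ⊓ W'.comap φ := ⟨hw, hz⟩
      rw [h] at h1
      rw [(Submodule.mem_bot ℂ).1 h1, map_zero]
      exact Submodule.zero_mem _
    · right
      apply le_antisymm hle
      rintro z ⟨w, hw, rfl⟩
      have h1 : w ∈ W ⊓ W'.comap φ := by
        rw [h]
        exact hw
      exact h1.2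

/-- the submodule generated by an irreducible subspace killed by `y` -/
theorem g15b_low {m n : ℕ} {E : Type} [AddCommGroup E] [Module ℂ E] (S : GM m n E) (α : Fin m → ℤ)
    (β : Fin n → ℤ) (W A : Submodule ℂ E) (hA : S.Stab A) (hgen : A = S.gen W)
    (hW : S.toG0.Irr α β W) (hy : ∀ i l, ∀ w ∈ W, S.y i l w = 0) :
    (S.res A hA).Low α β (W.comap A.subtype) := by
  have hle : W ≤ A := hgen ▸ G12_le S W
  refine ⟨⟨⟨?_, ?_⟩, ?_, ?_⟩, ?_, ?_⟩
  · exact fun i j v hv => hW.stab.1 i j _ hv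
  · exact fun i j v hv => hW.stab.2 i j _ hv
  · obtain ⟨v, hvW, hv, hhw⟩ := hW.hw
    refine ⟨⟨v, hle hvW⟩, hvW, fun h => hv (congrArg Subtype.val h),
      ⟨fun i => Subtype.ext (hhw.1.1 i), fun l => Subtype.ext (hhw.1.2 l)⟩,
      fun i j hij => Subtype.ext (hhw.2.1 i j hij), fun l q hlq => Subtype.ext (hhw.2.2 l q hlq)⟩
  · intro W' hle' hst
    have h1 : S.toG0.Stab (W'.map A.subtype) := by
      refine ⟨?_, ?_⟩
      · rintro i j z ⟨w, hw, rfl⟩
        exact ⟨_, hst.1 i j w hw, rfl⟩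
      · rintro i j z ⟨w, hw, rfl⟩
        exact ⟨_, hst.2 i j w hw, rfl⟩
    have h2 : W'.map A.subtype ≤ W := by
      rintro z ⟨w, hw, rfl⟩
      exact hle' hw
    rcases hW.irr _ h2 h1 with h | h
    · left
      rw [eq_bot_iff]
      intro z hz
      have h3 : A.subtype z ∈ W'.map A.subtype := ⟨z, hz, rfl⟩
      rw [h] at h3
      exact (Submodule.mem_bot ℂ).2 (Subtype.ext ((Submodule.mem_bot ℂ).1 h3))
    · right
      apply le_antisymm hle'
      intro z hz
      have h3 : A.subtype z ∈ W'.map A.subtype := by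
        rw [h]
        exact hz
      obtain ⟨w, hw, hwz⟩ := h3
      have h4 : w = z := Subtype.ext hwz
      exact h4 ▸ hw
  · exact fun i l w hw => Subtype.ext (hy i l _ hw)
  · intro N hN hx
    have h1 : S.gen W ≤ N.map A.subtype := by
      apply G12_min
      · intro w hw
        exact ⟨⟨w, hle hw⟩, hN hw, rfl⟩
      · rintro i l z ⟨w, hw, rfl⟩
        exact ⟨_, hx i l w hw, rfl⟩
    rw [eq_top_iff]
    intro z _
    have h2 : A.subtype z ∈ N.map A.subtype := h1 (hgen ▸ z.2)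
    obtain ⟨w, hw, hwz⟩ := h2
    have h4 : w = z := Subtype.ext hwz
    exact h4 ▸ hw

theorem g15b_comap_finrank {E : Type} [AddCommGroup E] [Module ℂ E] (W A : Submodule ℂ E)
    (hle : W ≤ A) : Module.finrank ℂ ↥(W.comap A.subtype) = Module.finrank ℂ ↥W :=
  (Submodule.comapSubtypeEquivOfLe hle).finrank_eq

theorem g15b_map_finrank {E E' : Type} [AddCommGroup E] [Module ℂ E] [AddCommGroup E']
    [Module ℂ E'] (φ : E →ₗ[ℂ] E') (hφ : Function.Injective φ) (W : Submodule ℂ E) :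
    Module.finrank ℂ ↥(W.map φ) = Module.finrank ℂ ↥W :=
  (Submodule.equivMapOfInjective φ hφ W).finrank_eq.symm

/-- a family of parts of generalised eigenspaces -/
theorem g15b_indep {E : Type} [AddCommGroup E] [Module ℂ E] (f : Module.End ℂ E)
    (V : ℤ → Submodule ℂ E) (hV : ∀ t, V t ≤ f.maxGenEigenspace (t : ℂ)) (t : ℤ) (z : E)
    (hz : z ∈ ⨆ s, V s) (hzt : z ∈ f.maxGenEigenspace (t : ℂ)) : z ∈ V t := by
  rw [iSup_split_single V t] at hz
  obtain ⟨a, ha, b, hb, rfl⟩ := Submodule.mem_sup.1 hz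
  have h1 : b ∈ f.maxGenEigenspace (t : ℂ) := by
    have h2 := Submodule.sub_mem _ hzt (hV t ha)
    rwa [add_sub_cancel_left] at h2
  have h2 : b ∈ ⨆ (μ : ℂ) (_ : μ ≠ (t : ℂ)), f.maxGenEigenspace μ := by
    refine (iSup₂_le fun s hs => ?_ : (⨆ (i : ℤ) (_ : i ≠ t), V i) ≤ _) hb
    exact le_iSup₂_of_le (s : ℂ) (fun h => hs (by exact_mod_cast h)) (hV s)
  have h3 := (Module.End.independent_maxGenEigenspace f (t : ℂ)).le_bot ⟨h1, h2⟩
  rw [(Submodule.mem_bot ℂ).1 h3, add_zero]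
  exact ha

/-- lifting generalised eigenvectors -/
theorem g15b_lift {E E' : Type} [AddCommGroup E] [Module ℂ E] [AddCommGroup E'] [Module ℂ E']
    [Module.Finite ℂ E] (f : Module.End ℂ E) (f' : Module.End ℂ E') (π : E →ₗ[ℂ] E')
    (hπ : ∀ v, π (f v) = f' (π v)) (hs : Function.Surjective π) (t : ℂ) (b : E')
    (hb : b ∈ f'.maxGenEigenspace t) : ∃ z ∈ f.maxGenEigenspace t, π z = b := by
  have hpow : ∀ (μ : ℂ) (k : ℕ) (v : E), π (((f - μ • (1 : Module.End ℂ E)) ^ k) v) =
      ((f' - μ • (1 : Module.End ℂ E')) ^ k) (π v) := by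
    intro μ k
    induction k with
    | zero => intro v; rfl
    | succ k ih =>
      intro v
      rw [pow_succ, pow_succ, Module.End.mul_apply, Module.End.mul_apply, ih]
      congr 1
      rw [LinearMap.sub_apply, LinearMap.sub_apply, map_sub, hπ]
      simp
  have hmap : ∀ (μ : ℂ) (v : E), v ∈ f.maxGenEigenspace μ → π v ∈ f'.maxGenEigenspace μ := by
    intro μ v hv
    rw [Module.End.mem_maxGenEigenspace] at hv ⊢
    obtain ⟨k, hk⟩ := hv
    exact ⟨k, by rw [← hpow, hk, map_zero]⟩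
  obtain ⟨z, rfl⟩ := hs b
  have h1 : z ∈ ⨆ μ : ℂ, f.maxGenEigenspace μ := by
    rw [Module.End.iSup_maxGenEigenspace_eq_top]
    exact Submodule.mem_top
  rw [iSup_split_single _ t] at h1
  obtain ⟨a, ha, c, hc, rfl⟩ := Submodule.mem_sup.1 h1
  refine ⟨a, ha, ?_⟩
  have h2 : π c ∈ f'.maxGenEigenspace t := by
    have h3 := Submodule.sub_mem _ hb (hmap t a ha)
    rwa [map_add, add_sub_cancel_left] at h3
  have h3 : π c ∈ ⨆ (μ : ℂ) (_ : μ ≠ t), f'.maxGenEigenspace μ := by
    have h4 : (⨆ (μ : ℂ) (_ : μ ≠ t), f.maxGenEigenspace μ) ≤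
        (⨆ (μ : ℂ) (_ : μ ≠ t), f'.maxGenEigenspace μ).comap π := by
      refine iSup₂_le fun μ hμ v hv => ?_
      exact (le_iSup₂_of_le μ hμ le_rfl : f'.maxGenEigenspace μ ≤ _) (hmap μ v hv)
    exact h4 hc
  have h4 := (Module.End.independent_maxGenEigenspace f' t).le_bot ⟨h2, h3⟩
  rw [map_add, (Submodule.mem_bot ℂ).1 h4, add_zero]

section K2
variable {m' : ℕ}

theorem g15b_Fa (S : GM m' n M) (i j : Fin m') (u : Fin m' → M) :
    S.vt.a i j (iF m' n M u) = iF m' n M (S.toG0.fv.a i j u) := by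
  refine Prod.ext rfl (funext fun p => ?_)
  change S.a i j 0 = 0
  rw [map_zero]

theorem g15b_Fb (S : GM m' n M) (i j : Fin n) (u : Fin m' → M) :
    S.vt.b i j (iF m' n M u) = iF m' n M (S.toG0.fv.b i j u) := by
  refine Prod.ext rfl (funext fun p => ?_)
  change -(if p = j then (0 : M) else 0) + S.b i j 0 = 0
  rw [map_zero, ite_self, neg_zero, add_zero]

/-- `Om` maps `AG` to itself -/
theorem g15b_OmAG (S : GM m' n M) (α : Fin m' → ℤ) (β : Fin n → ℤ) (W : Submodule ℂ M)
    (hW : S.Low α β W) : AG S W ≤ (AG S W).comap S.Om := by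
  refine G12_min _ _ _ ?_ ?_
  · rintro z ⟨w, hw, rfl⟩
    rw [Submodule.mem_comap, G13_OmG S W hW.yW w hw]
    refine G12_le _ _ ⟨tG S.toG0 w, fun p => ?_, rfl⟩
    change ∑ q, S.b p q (w q) ∈ W
    exact W.sum_mem fun q _ => hW.irr.stab.2 p q _ (hw q)
  · intro i l v hv
    rw [Submodule.mem_comap] at hv ⊢
    rw [G02_x]
    exact G12_x _ _ i l _ hv

theorem g15b_AG_inf (S : GM m' n M) (hS : S.toG0.Good) (hfin : Module.Finite ℂ M)
    (α : Fin m' → ℤ) (β : Fin n → ℤ) (W : Submodule ℂ M) (hW : S.Low α β W) (t : ℤ)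
    (z : (Fin m' → M) × (Fin n → M)) (hz : z ∈ AG S W) (hzt : z ∈ S.Ft t) : z ∈ AGt S W t := by
  rw [G13_AG_sup S hS hfin α β W hW] at hz
  exact g15b_indep S.Om (fun t => AGt S W t) (fun t => (G13_AGt S α β W hW t).1) t z hz hzt

/-- `Om` on the quotient -/
theorem g15b_OmB (S : GM m' n M) (α : Fin m' → ℤ) (β : Fin n → ℤ) (W : Submodule ℂ M)
    (hW : S.Low α β W) (t : ℤ) :
    (S.vt.quo (AG S W) (G13_AG S α β W hW)).gen (UFt S W t) ≤
      Module.End.maxGenEigenspace ((AG S W).mapQ (AG S W) S.Om (g15b_OmAG S α β W hW)) (t : ℂ) := by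
  have h1 : (S.vt.quo (AG S W) (G13_AG S α β W hW)).gen (UFt S W t) ≤
      LinearMap.ker ((AG S W).mapQ (AG S W) S.Om (g15b_OmAG S α β W hW) -
        (t : ℂ) • LinearMap.id) := by
    refine G12_min _ _ _ ?_ ?_
    · rintro z ⟨w, ⟨u, hu, rfl⟩, rfl⟩
      rw [LinearMap.mem_ker, LinearMap.sub_apply, Submodule.mkQ_apply, Submodule.mapQ_apply,
        LinearMap.smul_apply, LinearMap.id_apply, ← Submodule.Quotient.mk_smul,
        ← Submodule.Quotient.mk_sub, Submodule.Quotient.mk_eq_zero]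
      have h2 := G13_OmF S W u hu.1
      have h3 : tF S.toG0 u + (n : ℂ) • u = (t : ℂ) • u := by
        rw [hu.2, ← add_smul]
        push_cast
        rw [sub_add_cancel]
      rw [h3, map_smul] at h2
      exact h2
    · intro i l v hv
      obtain ⟨z, rfl⟩ := (AG S W).mkQ_surjective v
      rw [LinearMap.mem_ker, LinearMap.sub_apply, LinearMap.smul_apply, LinearMap.id_apply,
        sub_eq_zero] at hv ⊢
      have h2 : (S.vt.quo (AG S W) (G13_AG S α β W hW)).x i l ((AG S W).mkQ z) =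
        (AG S W).mkQ (S.vt.x i l z) := rfl
      have h3 : ∀ z, (AG S W).mapQ (AG S W) S.Om (g15b_OmAG S α β W hW) ((AG S W).mkQ z) =
        (AG S W).mkQ (S.Om z) := fun _ => rfl
      rw [h2, h3, G02_x]
      have h4 : (AG S W).mkQ (S.vt.x i l (S.Om z)) =
        (S.vt.quo (AG S W) (G13_AG S α β W hW)).x i l ((AG S W).mkQ (S.Om z)) := rfl
      rw [h4, ← h3, hv, map_smul, h2]
  intro v hv
  rw [Module.End.mem_maxGenEigenspace]
  refine ⟨1, ?_⟩
  rw [pow_one]
  exact h1 hv

theorem g15b_mem (S : GM m' n M) (hS : S.toG0.Good) (hfin : Module.Finite ℂ M)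
    (α : Fin m' → ℤ) (β : Fin n → ℤ) (W : Submodule ℂ M) (hW : S.Low α β W) (t : ℤ)
    (z : (Fin m' → M) × (Fin n → M)) (hz : z ∈ S.Ft t) :
    (AG S W).mkQ z ∈ (S.vt.quo (AG S W) (G13_AG S α β W hW)).gen (UFt S W t) := by
  have h1 : (AG S W).mkQ z ∈ ⨆ t : ℤ, (S.vt.quo (AG S W) (G13_AG S α β W hW)).gen (UFt S W t) := by
    rw [G14_sup S hS hfin α β W hW]
    exact Submodule.mem_top
  refine g15b_indep ((AG S W).mapQ (AG S W) S.Om (g15b_OmAG S α β W hW)) _
    (fun t => g15b_OmB S α β W hW t) t _ h1 ?_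
  have hz' : z ∈ Module.End.maxGenEigenspace S.Om (t : ℂ) := hz
  rw [Module.End.mem_maxGenEigenspace] at hz' ⊢
  obtain ⟨k, hk⟩ := hz'
  refine ⟨k, ?_⟩
  have hpow : ∀ (k : ℕ) (v), (AG S W).mkQ
      (((S.Om - (t : ℂ) • (1 : Module.End ℂ ((Fin m' → M) × (Fin n → M)))) ^ k) v) =
      (((AG S W).mapQ (AG S W) S.Om (g15b_OmAG S α β W hW) - (t : ℂ) •
        (1 : Module.End ℂ (((Fin m' → M) × (Fin n → M)) ⧸ AG S W)) :
        Module.End ℂ (((Fin m' → M) × (Fin n → M)) ⧸ AG S W)) ^ k) ((AG S W).mkQ v) := by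
    intro k
    induction k with
    | zero => intro v; rfl
    | succ k ih =>
      intro v
      rw [pow_succ, pow_succ, Module.End.mul_apply, Module.End.mul_apply, ih]
      rfl
  rw [← hpow, hk, map_zero]

theorem g15b_surj (S : GM m' n M) (hfin : Module.Finite ℂ M)
    (α : Fin m' → ℤ) (β : Fin n → ℤ) (W : Submodule ℂ M) (hW : S.Low α β W) (t : ℤ)
    (b : ((Fin m' → M) × (Fin n → M)) ⧸ AG S W)
    (hb : b ∈ (S.vt.quo (AG S W) (G13_AG S α β W hW)).gen (UFt S W t)) :
    ∃ z ∈ S.Ft t, (AG S W).mkQ z = b :=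
  g15b_lift S.Om ((AG S W).mapQ (AG S W) S.Om (g15b_OmAG S α β W hW)) (AG S W).mkQ
    (fun _ => rfl) (AG S W).mkQ_surjective (t : ℂ) b (g15b_OmB S α β W hW t hb)

end K2

/-- `movB` and the eigenspaces of `tG` -/
theorem g15b_EG0 (S : G0 (n + k) n M) (hS : S.Good) (hfin : Module.Finite ℂ M)
    (γ δ : Fin n → ℕ) (W : Submodule ℂ M) (hW : S.Irr (pz k γ) (nz δ) W) (t : ℤ) (ht : 1 ≤ t)
    (h : ∀ δ', ¬movB δ δ' t) : EG S W t = ⊥ := by
  by_contra hne
  obtain ⟨s, hs, hts⟩ := G11_G0 S hS hfin _ _ W hW t hne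
  have hts' : t = (δ s : ℤ) + (n - 1 - s.1) := hts
  have hpos : 1 ≤ δ s := by
    by_contra h0
    have h1 : δ s = 0 := by omega
    rw [h1] at hts'
    have h2 : s.1 + 1 < n := by omega
    have h3 : s ≤ (⟨s.1 + 1, h2⟩ : Fin n) := by
      rw [Fin.le_def]
      exact Nat.le_succ _
    have h4 := hs h3
    have h5 : (⟨s.1 + 1, h2⟩ : Fin n) ≠ s := by
      intro h6
      have h7 := congrArg Fin.val h6
      simp only at h7
      omega
    simp only [Pi.sub_apply, Pi.single_apply, if_true, if_neg h5, nz, h1] at h4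
    omega
  apply h (fun i => if i = s then δ s - 1 else δ i)
  refine ⟨fun i j hij => ?_, s, ?_, hts'⟩
  · have h1 := hs hij
    simp only [Pi.sub_apply, Pi.single_apply, nz] at h1
    simp only
    by_cases hi : i = s
    · by_cases hj : j = s
      · simp [hi, hj]
      · rw [if_pos hi, if_neg hj]
        rw [if_pos hi, if_neg hj, hi] at h1
        omega
    · by_cases hj : j = s
      · rw [if_neg hi, if_pos hj]
        rw [if_neg hi, if_pos hj, hj] at h1
        omega
      · rw [if_neg hi, if_neg hj]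
        rw [if_neg hi, if_neg hj] at h1
        omega
  · funext i
    simp only [Pi.add_apply, Pi.single_apply]
    by_cases hi : i = s
    · rw [if_pos hi, if_pos hi, hi]
      omega
    · rw [if_neg hi, if_neg hi, add_zero]

theorem g15b_EF0 (S : G0 (n + k) n M) (hS : S.Good) (hfin : Module.Finite ℂ M)
    (γ δ : Fin n → ℕ) (W : Submodule ℂ M) (hW : S.Irr (pz k γ) (nz δ) W) (t : ℤ) (ht : 1 ≤ t)
    (h : ∀ γ', ¬movA γ γ' t) : EF S W t = ⊥ := by
  by_contra hne
  obtain ⟨r, hr, htr⟩ := G11_F0 S hS hfin _ _ W hW t hne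
  by_cases hrn : r.1 < n
  · have h1 : pz k γ r = (γ ⟨r.1, hrn⟩ : ℤ) := by
      simp only [pz, ext, dif_pos hrn]
    rw [h1] at htr
    apply h (γ + Pi.single ⟨r.1, hrn⟩ 1)
    refine ⟨fun i j hij => ?_, ⟨r.1, hrn⟩, rfl, by simp only; omega⟩
    have h2 : Fin.castAdd k i ≤ Fin.castAdd k j := hij
    have h3 := hr h2
    have h4 : ∀ i : Fin n, (pz k γ + Pi.single r 1 : Fin (n + k) → ℤ) (Fin.castAdd k i) =
        (((γ + Pi.single ⟨r.1, hrn⟩ 1 : Fin n → ℕ) i : ℕ) : ℤ) := by
      intro i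
      simp only [Pi.add_apply, Pi.single_apply, pz, ext, Fin.val_castAdd, i.2, dif_pos,
        Fin.ext_iff]
      split_ifs <;> push_cast <;> rfl
    rw [h4, h4] at h3
    exact_mod_cast h3
  · have h1 : pz k γ r = 0 := by
      simp only [pz, ext, dif_neg hrn, Nat.cast_zero]
    rw [h1] at htr
    omega

theorem G15_K2 (S : GM (n + k) n M) (hS : S.toG0.Good) (hfin : Module.Finite ℂ M)
    (γ δ : Fin n → ℕ) (hγ : Antitone γ) (hδ : Antitone δ) (hK : S.isKac γ δ) (t : ℤ) (ht : 1 ≤ t) :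
    ∃ (N : Submodule ℂ ↥(S.Ft t)) (hN : (S.F t).Stab N),
      ((∀ δ', movB δ δ' t → ((S.F t).res N hN).isKac γ δ') ∧ ((∀ δ', ¬movB δ δ' t) → N = ⊥)) ∧
      ((∀ γ', movA γ γ' t → ((S.F t).quo N hN).isKac γ' δ) ∧ ((∀ γ', ¬movA γ γ' t) → N = ⊤)) := by
  obtain ⟨W, hW, hd⟩ := hK
  obtain ⟨hAF, hAst, hAAG⟩ := G13_AGt S _ _ W hW t
  have hNst : (S.F t).Stab ((AGt S W t).comap (S.Ft t).subtype) :=
    ⟨⟨fun i j v hv => hAst.1.1 i j _ hv, fun i j v hv => hAst.1.2 i j _ hv⟩,
      fun i l v hv => hAst.2.1 i l _ hv, fun i l v hv => hAst.2.2 i l _ hv⟩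
  refine ⟨(AGt S W t).comap (S.Ft t).subtype, hNst, ⟨?_, ?_⟩, ?_, ?_⟩
  · -- the submodule is a Kac module
    rintro δ' ⟨hδ', s, hs1, hs2⟩
    have hnz : nz δ - Pi.single s 1 = nz δ' := by
      funext i
      simp only [Pi.sub_apply, nz, hs1, Pi.add_apply, Pi.single_apply]
      split_ifs <;> push_cast <;> ring
    have hanti : Antitone (nz δ - Pi.single s 1) := by
      rw [hnz]
      intro i j hij
      have h1 := hδ' hij
      simp only [nz]
      exact_mod_cast h1
    have hEG := G11_G S.toG0 hS hfin _ _ W hW.irr t s hanti hs2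
    rw [hnz] at hEG
    have hinj : Function.Injective (iG (n + k) n M) := LinearMap.inr_injective
    have hne : (EG S.toG0 W t).map (iG (n + k) n M) ≠ ⊥ := by
      obtain ⟨v, hv, hv0, -⟩ := hEG.hw
      intro h1
      have h2 : iG (n + k) n M v ∈ (EG S.toG0 W t).map (iG (n + k) n M) := ⟨v, hv, rfl⟩
      rw [h1] at h2
      exact hv0 (hinj (((Submodule.mem_bot ℂ).1 h2).trans (map_zero _).symm))
    have hirr := g15b_irr S.toG0.gv S.vt.toG0 (iG (n + k) n M)
      (fun i j v => (g13a_a S i j v).symm) (fun i j v => (g13a_b S i j v).symm) _ _ _ hEG hne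
    have hy : ∀ i l, ∀ w ∈ (EG S.toG0 W t).map (iG (n + k) n M), S.vt.y i l w = 0 := by
      rintro i l z ⟨w, hw, rfl⟩
      exact g13a_y S W hW.yW w hw.1 i l
    have hlow := g15b_low S.vt _ _ _ (AGt S W t) hAst rfl hirr hy
    have hkac : (S.vt.res (AGt S W t) hAst).isKac γ δ' := by
      refine ⟨_, hlow, ?_⟩
      rw [G14_AGt S hS hfin _ _ W hW hd t, g15b_comap_finrank _ (AGt S W t) (G12_le _ _),
        g15b_map_finrank _ hinj]
    refine (G15_iso (S.vt.res (AGt S W t) hAst)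
      ((S.F t).res ((AGt S W t).comap (S.Ft t).subtype) hNst)
      ((Submodule.comapSubtypeEquivOfLe hAF).symm : ↥(AGt S W t) →ₗ[ℂ]
        ↥((AGt S W t).comap (S.Ft t).subtype)) ⟨?_, ?_, ?_, ?_⟩
      (Submodule.comapSubtypeEquivOfLe hAF).symm.bijective γ δ').1 hkac
    · exact fun _ _ _ => rfl
    · exact fun _ _ _ => rfl
    · exact fun _ _ _ => rfl
    · exact fun _ _ _ => rfl
  · intro h
    have h1 : AGt S W t = ⊥ := by
      rw [AGt, g15b_EG0 S.toG0 hS hfin γ δ W hW.irr t ht h, Submodule.map_bot, g14a_bot]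
    rw [h1, eq_bot_iff]
    intro z hz
    exact (Submodule.mem_bot ℂ).2 (Subtype.ext ((Submodule.mem_bot ℂ).1 hz))
  · -- the quotient is a Kac module
    rintro γ' ⟨hγ', r, hr1, hr2⟩
    have hpz : pz k γ + Pi.single (Fin.castAdd k r) 1 = pz k γ' := by
      funext i
      simp only [Pi.add_apply, pz, ext, hr1, Pi.single_apply, Fin.ext_iff, Fin.val_castAdd]
      by_cases hi : i.1 < n
      · simp only [hi, dif_pos]
        split_ifs <;> push_cast <;> ring
      · simp only [hi, dif_neg, not_false_eq_true]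
        have h1 : i.1 ≠ r.1 := by
          have := r.2
          omega
        rw [if_neg h1]
        simp
    have hanti : Antitone (pz k γ + Pi.single (Fin.castAdd k r) 1) := by
      rw [hpz]
      intro i j hij
      have hij' : i.1 ≤ j.1 := hij
      simp only [pz, ext]
      by_cases hj : j.1 < n
      · have hi : i.1 < n := by omega
        simp only [hi, hj, dif_pos]
        have h1 : (⟨i.1, hi⟩ : Fin n) ≤ ⟨j.1, hj⟩ := hij'
        exact_mod_cast hγ' h1
      · simp only [hj, dif_neg, not_false_eq_true]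
        positivity
    have hval : t - n = pz k γ (Fin.castAdd k r) - (Fin.castAdd k r).1 := by
      simp only [pz, ext, Fin.val_castAdd, r.2, dif_pos]
      rw [hr2]
      ring
    have hEF := G11_F S.toG0 hS hfin _ _ W hW.irr t (Fin.castAdd k r) hanti hval
    rw [hpz] at hEF
    have hfr := G14_AFt S hS hfin _ _ W hW hd t
    have hpos : 0 < Module.finrank ℂ ↥(EF S.toG0 W t) := by
      obtain ⟨v, hv, hv0, -⟩ := hEF.hw
      rw [Module.finrank_pos_iff]
      exact ⟨⟨⟨v, hv⟩, 0, fun h => hv0 (congrArg Subtype.val h)⟩⟩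
    have hne : (EF S.toG0 W t).map ((AG S W).mkQ ∘ₗ iF (n + k) n M) ≠ ⊥ := by
      intro h1
      rw [Submodule.map_comp] at h1
      have h2 := hfr.1
      rw [UFt, h1, finrank_bot] at h2
      omega
    have hirr := g15b_irr S.toG0.fv (S.vt.quo (AG S W) (G13_AG S _ _ W hW)).toG0
      ((AG S W).mkQ ∘ₗ iF (n + k) n M)
      (fun i j v => by
        rw [LinearMap.comp_apply, LinearMap.comp_apply, ← g15b_Fa]
        rfl)
      (fun i j v => by
        rw [LinearMap.comp_apply, LinearMap.comp_apply, ← g15b_Fb]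
        rfl) _ _ _ hEF hne
    rw [Submodule.map_comp] at hirr
    have hy : ∀ i l, ∀ w ∈ UFt S W t,
        (S.vt.quo (AG S W) (G13_AG S _ _ W hW)).y i l w = 0 := by
      rintro i l z ⟨w, ⟨u, hu, rfl⟩, rfl⟩
      have h1 : (S.vt.quo (AG S W) (G13_AG S _ _ W hW)).y i l ((AG S W).mkQ (iF (n + k) n M u)) =
        (AG S W).mkQ (S.vt.y i l (iF (n + k) n M u)) := rfl
      rw [h1, Submodule.mkQ_apply, Submodule.Quotient.mk_eq_zero]
      exact G13_yF S W hW.yW u hu.1 i l
    have hBst : (S.vt.quo (AG S W) (G13_AG S _ _ W hW)).Stab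
        ((S.vt.quo (AG S W) (G13_AG S _ _ W hW)).gen (UFt S W t)) :=
      G12_stab _ _ hirr.stab hy
    have hlow := g15b_low (S.vt.quo (AG S W) (G13_AG S _ _ W hW)) _ _ (UFt S W t) _ hBst rfl hirr hy
    have hkac : ((S.vt.quo (AG S W) (G13_AG S _ _ W hW)).res _ hBst).isKac γ' δ := by
      refine ⟨_, hlow, ?_⟩
      rw [hfr.2, g15b_comap_finrank _ _ (G12_le _ _), hfr.1]
    -- the isomorphism
    let g : ↥(S.Ft t) →ₗ[ℂ] ↥((S.vt.quo (AG S W) (G13_AG S _ _ W hW)).gen (UFt S W t)) :=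
      LinearMap.codRestrict _ ((AG S W).mkQ ∘ₗ (S.Ft t).subtype)
        (fun z => g15b_mem S hS hfin _ _ W hW t z.1 z.2)
    have hg : ∀ z, (g z).1 = (AG S W).mkQ z.1 := fun _ => rfl
    have hker : (AGt S W t).comap (S.Ft t).subtype = LinearMap.ker g := by
      ext z
      rw [Submodule.mem_comap, LinearMap.mem_ker]
      constructor
      · intro hz
        apply Subtype.ext
        rw [hg, Submodule.mkQ_apply]
        exact (Submodule.Quotient.mk_eq_zero _).2 (hAAG hz)
      · intro hz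
        have h1 := congrArg Subtype.val hz
        rw [hg, Submodule.mkQ_apply] at h1
        exact g15b_AG_inf S hS hfin _ _ W hW t z.1 ((Submodule.Quotient.mk_eq_zero _).1 h1) z.2
    let e : (↥(S.Ft t) ⧸ (AGt S W t).comap (S.Ft t).subtype) →ₗ[ℂ]
        ↥((S.vt.quo (AG S W) (G13_AG S _ _ W hW)).gen (UFt S W t)) :=
      Submodule.liftQ _ g hker.le
    have he : ∀ z, e (Submodule.mkQ _ z) = g z := fun _ => rfl
    have hebij : Function.Bijective e := by
      constructor
      · rw [← LinearMap.ker_eq_bot]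
        exact Submodule.ker_liftQ_eq_bot _ _ _ hker.ge
      · intro b
        obtain ⟨z, hz, hzb⟩ := g15b_surj S hfin _ _ W hW t b.1 b.2
        exact ⟨Submodule.mkQ _ ⟨z, hz⟩, Subtype.ext hzb⟩
    have hehom : GHom ((S.F t).quo _ hNst)
        ((S.vt.quo (AG S W) (G13_AG S _ _ W hW)).res _ hBst) e := by
      refine ⟨fun i j v => ?_, fun i j v => ?_, fun i l v => ?_, fun i l v => ?_⟩
      · obtain ⟨z, rfl⟩ := Submodule.mkQ_surjective _ v
        rfl
      · obtain ⟨z, rfl⟩ := Submodule.mkQ_surjective _ v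
        rfl
      · obtain ⟨z, rfl⟩ := Submodule.mkQ_surjective _ v
        rfl
      · obtain ⟨z, rfl⟩ := Submodule.mkQ_surjective _ v
        rfl
    have hkac2 : ((S.F t).quo _ hNst).isKac γ' δ := by
      let e2 := LinearEquiv.ofBijective e hebij
      refine (G15_iso ((S.vt.quo (AG S W) (G13_AG S _ _ W hW)).res _ hBst)
        ((S.F t).quo _ hNst) (e2.symm : _ →ₗ[ℂ] _) ⟨?_, ?_, ?_, ?_⟩ e2.symm.bijective γ' δ).1 hkac
      · intro i j v
        apply hebij.1
        rw [hehom.1]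
        change e2 (e2.symm _) = _
        rw [e2.apply_symm_apply]
        congr 1
        exact (e2.apply_symm_apply v).symm
      · intro i j v
        apply hebij.1
        rw [hehom.2.1]
        change e2 (e2.symm _) = _
        rw [e2.apply_symm_apply]
        congr 1
        exact (e2.apply_symm_apply v).symm
      · intro i j v
        apply hebij.1
        rw [hehom.2.2.1]
        change e2 (e2.symm _) = _
        rw [e2.apply_symm_apply]
        congr 1
        exact (e2.apply_symm_apply v).symm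
      · intro i j v
        apply hebij.1
        rw [hehom.2.2.2]
        change e2 (e2.symm _) = _
        rw [e2.apply_symm_apply]
        congr 1
        exact (e2.apply_symm_apply v).symm
    exact hkac2
  · intro h
    have h1 : UFt S W t = ⊥ := by
      rw [UFt, g15b_EF0 S.toG0 hS hfin γ δ W hW.irr t ht h, Submodule.map_bot, Submodule.map_bot]
    rw [eq_top_iff]
    intro z _
    have h2 := g15b_mem S hS hfin _ _ W hW t z.1 z.2
    rw [h1, g14a_bot, Submodule.mem_bot, Submodule.mkQ_apply, Submodule.Quotient.mk_eq_zero] at h2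
    exact g15b_AG_inf S hS hfin _ _ W hW t z.1 h2 z.2

end H95H
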