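import Pool.Agent.Lib.H95H.G15b

namespace H95H

variable {m n k : ℕ} {M : Type} [AddCommGroup M] [Module ℂ M]
  {M' : Type} [AddCommGroup M'] [Module ℂ M']

/-!
# Chunk G15: the translation functor on a Kac module

* `G15_iso`: `Low`, dimensions and so `isKac` are transported by bijective homomorphisms.
* `G15_K2`: take `N = comap` of `AGt S W t` under the inclusion of `Ft t` (`G13_AGt`).
  (i) `AG ⊓ Ft t = AGt`: `AG = ⨆ AGs` with `AGs ≤ Ft s`, and the `Ft s` are independent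
  (`Module.End.independent_maxGenEigenspace`).
  (ii) In `Q = (..) ⧸ AG` the operator induced by `Om` is multiplication by `s` on `UFt s`
  (`G13_OmF`: `tF u + n u = s u`), hence on the submodule generated by `UFt s` (`Om` commutes with
  `x`). These span `Q` (`G14_sup`), so the image of `Ft t` in `Q` (which is contained in the
  generalised `t`-eigenspace) is contained in `gen (UFt t)`; it is equal to it, since an element of
  `gen (UFt t)` lifts to `z`, whose components in the other generalised eigenspaces map to `0`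
  (as in `G03_surj`).
  (iii) So `(F t) ⧸ N` is isomorphic to `gen (UFt t)` as a module, and `N` to `AGt`.
  If `movB δ δ' t` then `EG S W t` is irreducible of highest weight `(γ, δ')` (`G11_G`), and `AGt` is a
  Kac module with lowest part `(EG ..).map iG` (killed by `y`: `G13`; dimension: `G14_AGt`; note that
  `iG` is injective and intertwines `S.gv` with `S.vt`). If no `δ'` with `movB δ δ' t` exists and
  `t ≥ 1`, then `EG = ⊥` by `G11_G0`: an index `s` with `nz δ - e_s` antitone and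
  `t = δ s + (n - 1 - s) ≥ 1` has `δ s ≥ 1` (if `δ s = 0` then `s = n - 1`, because `δ` is antitone
  and `δ - e_s` too, and `t = 0`). So `AGt = ⊥`. The same for the quotient with `EF`: `G11_F`, `G11_F0`;
  for `t ≥ 1` the index `r : Fin (n + k)` with `pz γ + e_r` antitone, `t - n = pz γ r - r` satisfies
  `r < n` (otherwise `pz γ r = 0` and `t = n - r ≤ 0`).
* `G15_neg`: for `t < 0` both `EG` and `EF` vanish: `t = δ s + (n-1-s) ≥ 0`, and
  `t = pz γ r + n - r`: for `r ≤ n` it is `≥ 0`, and for `r > n`, `pz γ r = pz γ (r-1) = 0` and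
  `pz γ + e_r` is not antitone.
-/

theorem g15c_mod {V ι : Type} [AddCommGroup V] [Module ℂ V] (A B : ι → Submodule ℂ V)
    (hAB : ∀ s, A s ≤ B s) (hB : iSupIndep B) (t : ι) : B t ⊓ ⨆ s, A s ≤ A t := by
  classical
  rintro v ⟨h1, h2⟩
  have h3 : (⨆ s, A s) ≤ A t ⊔ ⨆ s, ⨆ (_ : s ≠ t), B s := by
    refine iSup_le fun s => ?_
    by_cases hs : s = t
    · rw [hs]
      exact le_sup_left
    · exact (hAB s).trans ((le_iSup₂ (f := fun s (_ : s ≠ t) => B s) s hs).trans le_sup_right)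
  obtain ⟨a, ha, c, hc, hac⟩ := Submodule.mem_sup.1 (h3 h2)
  have h4 : c ∈ B t := by
    have h5 : c = v - a := by rw [← hac]; abel
    rw [h5]
    exact (B t).sub_mem h1 (hAB t ha)
  have h6 := (hB t).le_bot ⟨h4, hc⟩
  rw [Submodule.mem_bot] at h6
  rw [← hac, h6, add_zero]
  exact ha

theorem g15c_indep {V : Type} [AddCommGroup V] [Module ℂ V] (T : Module.End ℂ V) :
    iSupIndep fun s : ℤ => Module.End.maxGenEigenspace T (s : ℂ) :=
  (Module.End.independent_maxGenEigenspace T).comp (f := fun s : ℤ => (s : ℂ)) Int.cast_injective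

theorem g15c_zero (S : GM m n M) (hS : S.toG0.Good) (hfin : Module.Finite ℂ M)
    (α : Fin m → ℤ) (β : Fin n → ℤ) (W : Submodule ℂ M) (hW : S.Low α β W) (t : ℤ)
    (hF : EF S.toG0 W t = ⊥) (hG : EG S.toG0 W t = ⊥) : S.Ft t = ⊥ := by
  have hAG := G13_AG S α β W hW
  have hiG : iG m n M = LinearMap.inr ℂ (Fin m → M) (Fin n → M) := rfl
  -- AG is stable under Om
  have hgen : ∀ U : Submodule ℂ ((Fin m → M) × (Fin n → M)), U ≤ S.vt.gen U := fun U => G12_le S.vt U
  have hOm : ∀ z ∈ AG S W, S.Om z ∈ AG S W := by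
    have h1 : AG S W ≤ (AG S W).comap S.Om := by
      refine G12_min S.vt _ _ ?_ fun i l v hv => ?_
      · rintro _ ⟨w, hw, rfl⟩
        show S.Om (iG m n M w) ∈ AG S W
        rw [G13_OmG S W hW.yW w hw]
        refine hgen _ ⟨tG S.toG0 w, fun q => ?_, rfl⟩
        show ∑ p, S.b q p (w p) ∈ W
        exact W.sum_mem fun p _ => hW.irr.stab.2 q p _ (hw p)
      · show S.Om (S.vt.x i l v) ∈ AG S W
        rw [G02_x S i l v]
        exact hAG.2.1 i l _ hv
    exact fun z hz => h1 hz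
  let Q := S.vt.quo (AG S W) hAG
  let TQ : (((Fin m → M) × (Fin n → M)) ⧸ AG S W) →ₗ[ℂ] (((Fin m → M) × (Fin n → M)) ⧸ AG S W) :=
    (AG S W).mapQ (AG S W) S.Om hOm
  have hTQ : ∀ z, TQ ((AG S W).mkQ z) = (AG S W).mkQ (S.Om z) := fun z => rfl
  have hTx : ∀ (i : Fin m) (l : Fin n) (z : ((Fin m → M) × (Fin n → M)) ⧸ AG S W),
      TQ (Q.x i l z) = Q.x i l (TQ z) := by
    intro i l z
    obtain ⟨z, rfl⟩ := (AG S W).mkQ_surjective z
    show (AG S W).mkQ (S.Om (S.vt.x i l z)) = (AG S W).mkQ (S.vt.x i l (S.Om z))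
    rw [G02_x S i l z]
  have hP : ∀ s : ℤ, Q.gen (UFt S W s) ≤ Module.End.eigenspace TQ (s : ℂ) := by
    intro s
    refine G12_min Q _ _ ?_ fun i l v hv => ?_
    · rintro _ ⟨_, ⟨u, hu, rfl⟩, rfl⟩
      obtain ⟨hu1, hu2⟩ := hu
      rw [Module.End.mem_eigenspace_iff, hTQ]
      have h1 := G13_OmF S W u hu1
      rw [hu2] at h1
      have h2 : iF m n M (((s - n : ℤ) : ℂ) • u + (n : ℂ) • u) = (s : ℂ) • iF m n M u := by
        rw [← add_smul, map_smul]
        congr 1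
        push_cast
        ring
      rw [h2] at h1
      have h3 := (Submodule.Quotient.mk_eq_zero (AG S W)).2 h1
      have h4 : (AG S W).mkQ (S.Om (iF m n M u) - (s : ℂ) • iF m n M u) = 0 := h3
      rw [map_sub, map_smul] at h4
      exact sub_eq_zero.1 h4
    · rw [Module.End.mem_eigenspace_iff] at hv ⊢
      rw [hTx, hv, map_smul]
  have hle : ∀ s : ℤ, Q.gen (UFt S W s) ≤ Module.End.maxGenEigenspace TQ (s : ℂ) := fun s =>
    (hP s).trans Module.End.eigenspace_le_maxGenEigenspace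
  have hU : UFt S W t = ⊥ := by
    unfold UFt
    rw [hF, Submodule.map_bot, Submodule.map_bot]
  have hgU : Q.gen (UFt S W t) = ⊥ := by
    rw [eq_bot_iff]
    refine G12_min Q _ _ (by rw [hU]) fun i l v hv => ?_
    rw [Submodule.mem_bot] at hv ⊢
    rw [hv, map_zero]
  have hAt : AGt S W t = ⊥ := by
    rw [eq_bot_iff]
    unfold AGt
    refine G12_min S.vt _ _ (by rw [hG, Submodule.map_bot]) fun i l v hv => ?_
    rw [Submodule.mem_bot] at hv ⊢
    rw [hv, map_zero]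
  rw [eq_bot_iff]
  intro z hz
  have hzQ : (AG S W).mkQ z ∈ Module.End.maxGenEigenspace TQ (t : ℂ) := by
    obtain ⟨r, hr⟩ := (Module.End.mem_maxGenEigenspace S.Om (t : ℂ) z).1 hz
    refine (Module.End.mem_maxGenEigenspace TQ (t : ℂ) _).2 ⟨r, ?_⟩
    have hpow : ∀ (r : ℕ) (z : (Fin m → M) × (Fin n → M)),
        ((TQ - (t : ℂ) • 1) ^ r) ((AG S W).mkQ z) = (AG S W).mkQ (((S.Om - (t : ℂ) • 1) ^ r) z) := by
      intro r
      induction r with
      | zero => intro z; rfl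
      | succ r ih =>
        intro z
        rw [pow_succ, pow_succ]
        show ((TQ - (t : ℂ) • 1) ^ r) ((TQ - (t : ℂ) • 1) ((AG S W).mkQ z)) =
          (AG S W).mkQ (((S.Om - (t : ℂ) • 1) ^ r) ((S.Om - (t : ℂ) • 1) z))
        rw [← ih]
        congr 1
    rw [hpow, hr, map_zero]
  have h1 : (AG S W).mkQ z ∈ Q.gen (UFt S W t) := by
    refine g15c_mod (fun s : ℤ => Q.gen (UFt S W s))
      (fun s : ℤ => Module.End.maxGenEigenspace TQ (s : ℂ)) hle (g15c_indep TQ) t ⟨hzQ, ?_⟩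
    show (AG S W).mkQ z ∈ ⨆ s : ℤ, (S.vt.quo (AG S W) (G13_AG S α β W hW)).gen (UFt S W s)
    rw [G14_sup S hS hfin α β W hW]
    exact Submodule.mem_top
  rw [hgU, Submodule.mem_bot] at h1
  have h2 : z ∈ AG S W := (Submodule.Quotient.mk_eq_zero (AG S W)).1 h1
  have h3 : z ∈ AGt S W t := by
    refine g15c_mod (fun s : ℤ => AGt S W s) (fun s : ℤ => S.Ft s)
      (fun s => (G13_AGt S α β W hW s).1) (g15c_indep S.Om) t ⟨hz, ?_⟩
    show z ∈ ⨆ s : ℤ, AGt S W s
    rw [← G13_AG_sup S hS hfin α β W hW]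
    exact h2
  rw [hAt] at h3
  exact h3

theorem G15_neg (S : GM (n + k) n M) (hS : S.toG0.Good) (hfin : Module.Finite ℂ M)
    (γ δ : Fin n → ℕ) (hγ : Antitone γ) (hδ : Antitone δ) (hK : S.isKac γ δ) (t : ℤ) (ht : t < 0) :
    S.Ft t = ⊥ := by
  obtain ⟨W, hW, hd⟩ := hK
  refine g15c_zero S hS hfin _ _ W hW t ?_ ?_
  · by_contra hne
    obtain ⟨r, hr, htr⟩ := G11_F0 S.toG0 hS hfin _ _ W hW.irr t hne
    have hrn : n < r.1 := by
      have h0 : (0 : ℤ) ≤ pz k γ r := by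
        unfold pz
        exact Int.natCast_nonneg _
      omega
    have hr' : r.1 - 1 < n + k := by
      have := r.2
      omega
    have h1 := hr (show (⟨r.1 - 1, hr'⟩ : Fin (n + k)) ≤ r from by
      rw [Fin.le_def]
      show r.1 - 1 ≤ r.1
      omega)
    have h2 : pz k γ r = 0 := by
      unfold pz ext
      rw [dif_neg (by omega)]
      rfl
    have h3 : pz k γ ⟨r.1 - 1, hr'⟩ = 0 := by
      unfold pz ext
      rw [dif_neg (by show ¬ r.1 - 1 < n; omega)]
      rfl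
    rw [Pi.add_apply, Pi.add_apply, h2, h3, Pi.single_eq_same, Pi.single_eq_of_ne (by
      intro h
      have := congrArg Fin.val h
      simp only at this
      omega)] at h1
    omega
  · by_contra hne
    obtain ⟨s, hs, hts⟩ := G11_G0 S.toG0 hS hfin _ _ W hW.irr t hne
    have h0 : (0 : ℤ) ≤ nz δ s := by
      unfold nz
      exact Int.natCast_nonneg _
    have := s.2
    omega

/-- only the first bead moves -/
theorem G15_A (S : GM (n + k) n M) (hS : S.toG0.Good) (hfin : Module.Finite ℂ M)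
    (γ δ γ' : Fin n → ℕ) (hγ : Antitone γ) (hδ : Antitone δ) (hK : S.isKac γ δ) (t : ℤ)
    (ht : 1 ≤ t) (h : movA γ γ' t) (h' : ∀ δ', ¬movB δ δ' t) : (S.F t).isKac γ' δ := by
  obtain ⟨N, hN, ⟨-, h1⟩, h2, -⟩ := G15_K2 S hS hfin γ δ hγ hδ hK t ht
  have hN0 := h1 h'
  let e := Submodule.quotEquivOfEqBot N hN0
  have he : ∀ v, e (N.mkQ v) = v := fun v => Submodule.quotEquivOfEqBot_apply_mk N hN0 v
  refine (G15_iso ((S.F t).quo N hN) (S.F t) (e : (↥(S.Ft t) ⧸ N) →ₗ[ℂ] ↥(S.Ft t)) ?_ e.bijective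
    γ' δ).1 (h2 γ' h)
  refine ⟨fun i j v => ?_, fun i j v => ?_, fun i l v => ?_, fun i l v => ?_⟩
  · obtain ⟨v, rfl⟩ := N.mkQ_surjective v
    show e (N.mkQ ((S.F t).a i j v)) = (S.F t).a i j (e (N.mkQ v))
    rw [he, he]
  · obtain ⟨v, rfl⟩ := N.mkQ_surjective v
    show e (N.mkQ ((S.F t).b i j v)) = (S.F t).b i j (e (N.mkQ v))
    rw [he, he]
  · obtain ⟨v, rfl⟩ := N.mkQ_surjective v
    show e (N.mkQ ((S.F t).x i l v)) = (S.F t).x i l (e (N.mkQ v))
    rw [he, he]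
  · obtain ⟨v, rfl⟩ := N.mkQ_surjective v
    show e (N.mkQ ((S.F t).y i l v)) = (S.F t).y i l (e (N.mkQ v))
    rw [he, he]

/-- only the second bead moves -/
theorem G15_B (S : GM (n + k) n M) (hS : S.toG0.Good) (hfin : Module.Finite ℂ M)
    (γ δ δ' : Fin n → ℕ) (hγ : Antitone γ) (hδ : Antitone δ) (hK : S.isKac γ δ) (t : ℤ)
    (ht : 1 ≤ t) (h : movB δ δ' t) (h' : ∀ γ', ¬movA γ γ' t) : (S.F t).isKac γ δ' := by
  obtain ⟨N, hN, ⟨h1, -⟩, -, h2⟩ := G15_K2 S hS hfin γ δ hγ hδ hK t ht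
  have hN1 := h2 h'
  refine (G15_iso ((S.F t).res N hN) (S.F t) N.subtype ⟨fun i j v => rfl, fun i j v => rfl,
    fun i l v => rfl, fun i l v => rfl⟩ ⟨Subtype.val_injective, fun v => ⟨⟨v, ?_⟩, rfl⟩⟩ γ δ').1
    (h1 δ' h)
  rw [hN1]
  exact Submodule.mem_top

/-- no bead moves -/
theorem G15_0 (S : GM (n + k) n M) (hS : S.toG0.Good) (hfin : Module.Finite ℂ M)
    (γ δ : Fin n → ℕ) (hγ : Antitone γ) (hδ : Antitone δ) (hK : S.isKac γ δ) (t : ℤ)
    (ht : 1 ≤ t) (h : ∀ γ', ¬movA γ γ' t) (h' : ∀ δ', ¬movB δ δ' t) : S.Ft t = ⊥ := by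
  obtain ⟨N, hN, ⟨-, h1⟩, -, h2⟩ := G15_K2 S hS hfin γ δ hγ hδ hK t ht
  have hN0 := h1 h'
  have hN1 := h2 h
  rw [eq_bot_iff]
  intro z hz
  have h3 : (⟨z, hz⟩ : ↥(S.Ft t)) ∈ N := by
    rw [hN1]
    exact Submodule.mem_top
  rw [hN0, Submodule.mem_bot] at h3
  exact congrArg Subtype.val h3

end H95H
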