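import Pool.Agent.Lib.H95H.G12c

namespace H95H

variable {m n k : ℕ} {M : Type} [AddCommGroup M] [Module ℂ M]
  {M' : Type} [AddCommGroup M'] [Module ℂ M']

/-!
# Chunk G16: modules with lowest part

Let `S` be good, finite-dimensional with lowest part `W` (`S.Low α β W`), `D = ∑_l b l l`; `D = ∑ β =: d`
on `W` (`G12_irr_deg`), and the eigenvalues of `D` on `M` are integers `≥ d`, the eigenvectors for
`d` are in `W` (`G12_low`, `G12_deg` with `S.gen W = ⊤`).
* `G16_proper`: a submodule `N ≠ ⊤` has `N ⊓ W = ⊥`: otherwise, being stable under the even part,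
  `N ⊓ W = W` and `N = ⊤` by `gen`.
* `G16_simple`: if there is a nondegenerate contravariant form `B` then `S` is simple: let `N` be a
  submodule, `N ≠ ⊤`. It is the sum of its weight components (`G05_comp`) and its components with
  `D`-eigenvalue `d` lie in `N ⊓ W = ⊥`; so `N` is spanned by `D`-eigenvectors with eigenvalues `> d`,
  which are `B`-orthogonal to `W` (`D` is self-adjoint for `B`). So
  `N' = {u | ∀ v ∈ N, B u v = 0}` contains `W`; it is a submodule by contravariance; so `N' = ⊤` and
  `N = ⊥` by nondegeneracy (and symmetry).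
* `G16_quot`: a nonzero quotient (surjective homomorphism onto a nontrivial module) of `S` has
  lowest part the image of `W`: it is nonzero as it generates; irreducible as an image of `W`; killed
  by `y`; the image of the highest weight vector is a highest weight vector; if it were zero then
  the kernel would meet `W`, so contain `W`.
* `G16_max`: the sum `N₀` of all submodules `N ≠ ⊤` is a submodule `≠ ⊤`: each such `N` has zero
  component for the eigenvalue `d` of `D`, hence so has the sum. The quotient by `N₀` is simple.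
* `G16_sim_low`: a simple, good, finite-dimensional nonzero module has a lowest part: let `d` be the
  smallest eigenvalue of `D` (integral by goodness), `M_d` the eigenspace; it is stable under the
  even part and killed by `y` (which lowers `D` by one, `by'`); take a highest weight vector
  `v ∈ M_d` (`G06_hw`), `W = S.toG0.low v` (`G07_cyc`); `S.gen W` is a submodule (`G12_stab`), nonzero,
  so it is `⊤`.
-/

theorem G16_proper (S : GM m n M) (hS : S.toG0.Good) (hfin : Module.Finite ℂ M) (α : Fin m → ℤ)
    (β : Fin n → ℤ) (W : Submodule ℂ M) (hW : S.Low α β W) (N : Submodule ℂ M) (hN : S.Stab N)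
    (h : N ≠ ⊤) : N ⊓ W = ⊥ := by
  have hst : S.toG0.Stab (N ⊓ W) := by
    constructor
    · rintro i j v ⟨h1, h2⟩
      exact ⟨hN.1.1 i j v h1, hW.irr.stab.1 i j v h2⟩
    · rintro i j v ⟨h1, h2⟩
      exact ⟨hN.1.2 i j v h1, hW.irr.stab.2 i j v h2⟩
  rcases hW.irr.irr _ inf_le_right hst with h1 | h1
  · exact h1
  · exact absurd (hW.gen N (inf_eq_right.1 h1) hN.2.1) h

/-- the weights of a proper submodule are bigger -/
theorem g16a_lt (S : GM m n M) (hS : S.toG0.Good) (hfin : Module.Finite ℂ M) (α : Fin m → ℤ)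
    (β : Fin n → ℤ) (W : Submodule ℂ M) (hW : S.Low α β W) (N : Submodule ℂ M) (hN : S.Stab N)
    (h : N ≠ ⊤) (α' : Fin m → ℤ) (β' : Fin n → ℤ) (v : M) (hv : v ∈ N) (hw : v ∈ S.toG0.Wsp α' β')
    (hne : v ≠ 0) : ∑ l, β l < ∑ l, β' l := by
  obtain ⟨h1, h2⟩ := G12_low S hS hfin α β W hW α' β' v hw hne
  rcases h1.lt_or_eq with h3 | h3
  · exact h3
  · exfalso
    apply hne
    have h4 : v ∈ N ⊓ W := ⟨hv, h2 h3.symm⟩
    rw [G16_proper S hS hfin α β W hW N hN h] at h4
    exact h4

theorem g16a_D (S : G0 m n M) {α : Fin m → ℤ} {β : Fin n → ℤ} {v : M} (hv : v ∈ S.Wsp α β) :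
    ∑ l, S.b l l v = ((∑ l, β l : ℤ) : ℂ) • v := by
  rw [Finset.sum_congr rfl fun l _ => hv.2 l, ← Finset.sum_smul]
  push_cast
  rfl

theorem G16_simple (S : GM m n M) (hS : S.toG0.Good) (hfin : Module.Finite ℂ M) (α : Fin m → ℤ)
    (β : Fin n → ℤ) (W : Submodule ℂ M) (hW : S.Low α β W) (hC : S.Contra) : S.Sim := by
  intro N hN
  by_cases hNt : N = ⊤
  · exact Or.inr hNt
  left
  obtain ⟨B, hadd, hsmul, hsymm, hnd, hBa, hBb, hBx⟩ := hC
  have haddR : ∀ u v w, B u (v + w) = B u v + B u w := by
    intro u v w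
    rw [hsymm (v + w) u, hadd, map_add, ← hsymm, ← hsymm]
  have hsmulR : ∀ (r : ℂ) u v, B u (r • v) = starRingEnd ℂ r * B u v := by
    intro r u v
    rw [hsymm (r • v) u, hsmul, map_mul, ← hsymm]
  have hzL : ∀ v, B 0 v = 0 := by
    intro v
    have := hsmul 0 0 v
    rwa [zero_smul, zero_mul] at this
  have hzR : ∀ v, B v 0 = 0 := by
    intro v
    have := hsmulR 0 v 0
    rwa [zero_smul, map_zero, zero_mul] at this
  have hsumL : ∀ (f : Fin n → M) (v : M), B (∑ l, f l) v = ∑ l, B (f l) v := by
    intro f v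
    have : ∀ s : Finset (Fin n), B (∑ l ∈ s, f l) v = ∑ l ∈ s, B (f l) v := by
      intro s
      induction s using Finset.induction_on with
      | empty => rw [Finset.sum_empty, Finset.sum_empty, hzL]
      | insert a s ha ih => rw [Finset.sum_insert ha, Finset.sum_insert ha, hadd, ih]
    exact this _
  have hsumR : ∀ (f : Fin n → M) (v : M), B v (∑ l, f l) = ∑ l, B v (f l) := by
    intro f v
    rw [hsymm (∑ l, f l) v, hsumL, map_sum]
    exact Finset.sum_congr rfl fun l _ => (hsymm _ _).symm
  have hwv : ∀ w ∈ W, ∀ v ∈ N, B w v = 0 := by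
    intro w hw
    let P : Submodule ℂ M :=
      { carrier := {v | B w v = 0}
        add_mem' := fun {a b} ha hb => by
          show B w (a + b) = 0
          rw [haddR, show B w a = 0 from ha, show B w b = 0 from hb, add_zero]
        zero_mem' := hzR w
        smul_mem' := fun r a ha => by
          show B w (r • a) = 0
          rw [hsmulR, show B w a = 0 from ha, mul_zero] }
    have hle : N ≤ P := by
      rw [G05_comp S.toG0 hS N (fun i => hN.1.1 i i) (fun l => hN.1.2 l l)]
      refine iSup_le fun α' => iSup_le fun β' => ?_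
      rintro v ⟨hvN, hvw⟩
      show B w v = 0
      by_cases hv0 : v = 0
      · rw [hv0, hzR]
      have hlt := g16a_lt S hS hfin α β W hW N hN hNt α' β' v hvN hvw hv0
      have h1 := G12_irr_deg S.toG0 hS hfin α β W hW.irr w hw
      have h2 := g16a_D S.toG0 hvw
      have h3 : B (∑ l, S.b l l w) v = B w (∑ l, S.b l l v) := by
        rw [hsumL, hsumR]
        exact Finset.sum_congr rfl fun l _ => hBb l l w v
      rw [h1, h2, hsmul, hsmulR, map_intCast] at h3
      have h4 : (((∑ l, β l : ℤ) : ℂ) - ((∑ l, β' l : ℤ) : ℂ)) * B w v = 0 := by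
        rw [sub_mul, h3, sub_self]
      refine (mul_eq_zero.1 h4).resolve_left fun h5 => ?_
      have h6 : ((∑ l, β l : ℤ) : ℂ) = ((∑ l, β' l : ℤ) : ℂ) := sub_eq_zero.1 h5
      have h7 : (∑ l, β l : ℤ) = ∑ l, β' l := by exact_mod_cast h6
      omega
    exact fun v hv => hle hv
  let N' : Submodule ℂ M :=
    { carrier := {u | ∀ v ∈ N, B u v = 0}
      add_mem' := fun {a b} ha hb v hv => by rw [hadd, ha v hv, hb v hv, add_zero]
      zero_mem' := fun v _ => hzL v
      smul_mem' := fun r a ha v hv => by rw [hsmul, ha v hv, mul_zero] }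
  have hN' : N' = ⊤ := by
    refine hW.gen N' (fun w hw v hv => hwv w hw v hv) fun i l u hu v hv => ?_
    rw [hBx]
    exact hu _ (hN.2.2 i l v hv)
  rw [eq_bot_iff]
  intro v hv
  rw [Submodule.mem_bot]
  apply hnd
  intro u
  rw [hsymm u v]
  have h1 : u ∈ N' := by rw [hN']; exact Submodule.mem_top
  rw [h1 v hv, map_zero]

end H95H
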