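import Pool.Agent.Lib.H95H.G06b
import Pool.Agent.Lib.H95H.G07b
import Pool.Agent.Lib.H95H.G12b
import Pool.Agent.Lib.H95H.G15a
import Pool.Agent.Lib.H95H.G16a

namespace H95H

variable {m n k : ℕ} {M : Type} [AddCommGroup M] [Module ℂ M]
  {M' : Type} [AddCommGroup M'] [Module ℂ M']

/-!
# Chunk G16: modules with lowest part

Let `S` be good, finite-dimensional with lowest part `W` (`S.Low α β W`), `D = ∑_l b l l`; `D = ∑ β =: d`
on `W` (`G12_irr_deg`), and the eigenvalues of `D` on `M` are integers `≥ d`, the eigenvectors for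
`d` are in `W` (`G12_low`, `G12_deg` with `S.gen W = ⊤`).
* `G16_proper`: a submodule `N ≠ ⊤` has `N ⊓ W = ⊥`: otherwise, being stable under the even part,
  `N ⊓ W = W` and `N = ⊤` by `gen`.
* `G16_simple`: if there is a nondegenerate contravariant form `B` then `S` is simple: let `N` be a
  submodule, `N ≠ ⊤`. It is the sum of its weight components (`G05_comp`) and its components with
  `D`-eigenvalue `d` lie in `N ⊓ W = ⊥`; so `N` is spanned by `D`-eigenvectors with eigenvalues `> d`,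
  which are `B`-orthogonal to `W` (`D` is self-adjoint for `B`). So
  `N' = {u | ∀ v ∈ N, B u v = 0}` contains `W`; it is a submodule by contravariance; so `N' = ⊤` and
  `N = ⊥` by nondegeneracy (and symmetry).
* `G16_quot`: a nonzero quotient (surjective homomorphism onto a nontrivial module) of `S` has
  lowest part the image of `W`: it is nonzero as it generates; irreducible as an image of `W`; killed
  by `y`; the image of the highest weight vector is a highest weight vector; if it were zero then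
  the kernel would meet `W`, so contain `W`.
* `G16_max`: the sum `N₀` of all submodules `N ≠ ⊤` is a submodule `≠ ⊤`: each such `N` has zero
  component for the eigenvalue `d` of `D`, hence so has the sum. The quotient by `N₀` is simple.
* `G16_sim_low`: a simple, good, finite-dimensional nonzero module has a lowest part: let `d` be the
  smallest eigenvalue of `D` (integral by goodness), `M_d` the eigenspace; it is stable under the
  even part and killed by `y` (which lowers `D` by one, `by'`); take a highest weight vector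
  `v ∈ M_d` (`G06_hw`), `W = S.toG0.low v` (`G07_cyc`); `S.gen W` is a submodule (`G12_stab`), nonzero,
  so it is `⊤`.
-/

theorem G16_quot (S : GM m n M) (S' : GM m n M') (f : M →ₗ[ℂ] M') (hf : GHom S S' f)
    (hs : Function.Surjective f) (hne : Nontrivial M') (α : Fin m → ℤ) (β : Fin n → ℤ)
    (W : Submodule ℂ M) (hW : S.Low α β W) : S'.Low α β (W.map f) :=
  g15a_low S S' f hf hs hne α β W hW

/-- the operator `∑ b l l` -/
noncomputable def g16b_D (S : G0 m n M) : M →ₗ[ℂ] M := ∑ l, S.b l l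

theorem g16b_Dv (S : G0 m n M) (v : M) : g16b_D S v = ∑ l, S.b l l v := by
  unfold g16b_D
  rw [LinearMap.sum_apply]

theorem G16_max (S : GM m n M) (hS : S.toG0.Good) (hfin : Module.Finite ℂ M) (α : Fin m → ℤ)
    (β : Fin n → ℤ) (W : Submodule ℂ M) (hW : S.Low α β W) :
    ∃ (N₀ : Submodule ℂ M) (hN₀ : S.Stab N₀), N₀ ≠ ⊤ ∧ (∀ N, S.Stab N → N ≠ ⊤ → N ≤ N₀) ∧
      (S.quo N₀ hN₀).Sim := by
  obtain ⟨N₀, hN₀⟩ : ∃ N₀ : Submodule ℂ M, N₀ = sSup {N | S.Stab N ∧ N ≠ ⊤} := ⟨_, rfl⟩
  have key : ∀ T : M →ₗ[ℂ] M, (∀ N, S.Stab N → ∀ v ∈ N, T v ∈ N) → ∀ v ∈ N₀, T v ∈ N₀ := by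
    intro T hT
    rw [hN₀]
    have h1 : sSup {N | S.Stab N ∧ N ≠ ⊤} ≤ (sSup {N | S.Stab N ∧ N ≠ ⊤}).comap T :=
      sSup_le fun N hN v hv => (le_sSup hN : N ≤ _) (hT N hN.1 v hv)
    exact fun v hv => h1 hv
  have hst : S.Stab N₀ :=
    ⟨⟨fun i j => key _ fun N hN => hN.1.1 i j, fun i j => key _ fun N hN => hN.1.2 i j⟩,
      fun i l => key _ fun N hN => hN.2.1 i l, fun i l => key _ fun N hN => hN.2.2 i l⟩
  have hmax : ∀ N, S.Stab N → N ≠ ⊤ → N ≤ N₀ := fun N hN hNt => by
    rw [hN₀]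
    exact le_sSup ⟨hN, hNt⟩
  refine ⟨N₀, hst, ?_, hmax, ?_⟩
  · intro htop
    obtain ⟨v₀, hv₀W, hv₀, -⟩ := hW.irr.hw
    have hD0 : v₀ ∈ Module.End.eigenspace (g16b_D S.toG0) ((∑ l, β l : ℤ) : ℂ) := by
      rw [Module.End.mem_eigenspace_iff, g16b_Dv]
      exact G12_irr_deg S.toG0 hS hfin α β W hW.irr v₀ hv₀W
    have hle : N₀ ≤
        ⨆ μ : ℂ, ⨆ (_ : μ ≠ ((∑ l, β l : ℤ) : ℂ)), Module.End.eigenspace (g16b_D S.toG0) μ := by
      rw [hN₀]
      refine sSup_le ?_
      rintro N ⟨hN, hNt⟩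
      rw [G05_comp S.toG0 hS N (fun i => hN.1.1 i i) (fun l => hN.1.2 l l)]
      refine iSup_le fun α' => iSup_le fun β' => ?_
      rintro v ⟨hvN, hvw⟩
      by_cases hv0 : v = 0
      · rw [hv0]
        exact zero_mem _
      have hlt := g16a_lt S hS hfin α β W hW N hN hNt α' β' v hvN hvw hv0
      have hne : ((∑ l, β' l : ℤ) : ℂ) ≠ ((∑ l, β l : ℤ) : ℂ) := by
        intro h
        have : (∑ l, β' l : ℤ) = ∑ l, β l := by exact_mod_cast h
        omega
      refine (le_iSup₂ (f := fun (μ : ℂ) (_ : μ ≠ ((∑ l, β l : ℤ) : ℂ)) =>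
        Module.End.eigenspace (g16b_D S.toG0) μ) _ hne) ?_
      rw [Module.End.mem_eigenspace_iff, g16b_Dv]
      exact g16a_D S.toG0 hvw
    have hdis := (Module.End.eigenspaces_iSupIndep (g16b_D S.toG0)) ((∑ l, β l : ℤ) : ℂ)
    have h2 := hdis.le_bot ⟨hD0, hle (by rw [htop]; exact Submodule.mem_top)⟩
    exact hv₀ h2
  · intro N hN
    have hcs : S.Stab (N.comap N₀.mkQ) := by
      refine ⟨⟨fun i j v hv => ?_, fun i j v hv => ?_⟩, fun i l v hv => ?_, fun i l v hv => ?_⟩
      · exact hN.1.1 i j _ hv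
      · exact hN.1.2 i j _ hv
      · exact hN.2.1 i l _ hv
      · exact hN.2.2 i l _ hv
    have hmap : (N.comap N₀.mkQ).map N₀.mkQ = N :=
      Submodule.map_comap_eq_of_surjective N₀.mkQ_surjective N
    by_cases ht : N.comap N₀.mkQ = ⊤
    · right
      rw [← hmap, ht, Submodule.map_top, LinearMap.range_eq_top]
      exact N₀.mkQ_surjective
    · left
      have h1 : N.comap N₀.mkQ ≤ N₀ := hmax _ hcs ht
      rw [← hmap, eq_bot_iff]
      refine (Submodule.map_mono h1).trans ?_
      rintro _ ⟨v, hv, rfl⟩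
      exact (Submodule.Quotient.mk_eq_zero N₀).2 hv

theorem G16_sim_low (S : GM m n M) (hS : S.toG0.Good) (hfin : Module.Finite ℂ M)
    (hne : Nontrivial M) (hsim : S.Sim) : ∃ α β W, S.Low α β W := by
  classical
  set D := g16b_D S.toG0 with hD
  have hDv : ∀ v, D v = ∑ l, S.b l l v := fun v => g16b_Dv S.toG0 v
  set Λ : Set ℤ := {t | ∃ v : M, v ≠ 0 ∧ D v = (t : ℂ) • v} with hΛ
  have hΛf : Λ.Finite := by
    have h1 : ((fun t : ℤ => (t : ℂ)) ⁻¹' {μ | Module.End.HasEigenvalue D μ}).Finite :=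
      Set.Finite.preimage (fun a _ b _ h => Int.cast_injective h) (Module.End.finite_hasEigenvalue _)
    refine h1.subset ?_
    rintro t ⟨v, hv0, hv⟩
    exact Module.End.hasEigenvalue_of_hasEigenvector (x := v)
      ⟨Module.End.mem_eigenspace_iff.2 hv, hv0⟩
  have hΛn : Λ.Nonempty := by
    by_contra hcon
    rw [Set.not_nonempty_iff_eq_empty] at hcon
    have h1 : (⊤ : Submodule ℂ M) ≤ ⊥ := by
      rw [← hS.2]
      refine iSup_le fun α' => iSup_le fun β' => ?_
      intro v hv
      by_contra hv0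
      have : (∑ l, β' l : ℤ) ∈ Λ := ⟨v, fun h => hv0 (by rw [h]; exact zero_mem _), by
        rw [hDv]
        exact g16a_D S.toG0 hv⟩
      rw [hcon] at this
      exact this
    obtain ⟨z, hz⟩ := exists_ne (0 : M)
    exact hz (h1 (Submodule.mem_top (x := z)))
  obtain ⟨d, ⟨v₁, hv₁, hdv₁⟩, hmin⟩ := Set.exists_min_image Λ id hΛf hΛn
  set P := Module.End.eigenspace D (d : ℂ) with hP
  have hPm : ∀ v, v ∈ P ↔ D v = (d : ℂ) • v := fun v => Module.End.mem_eigenspace_iff
  have hsum1 : ∀ (v : M) (i j : Fin n), ∑ l, (if l = i then S.b l j v else 0) = S.b i j v := by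
    intro v i j
    rw [Finset.sum_ite_eq' Finset.univ i, if_pos (Finset.mem_univ i)]
  have hsum2 : ∀ (v : M) (i j : Fin n), ∑ l, (if j = l then S.b i l v else 0) = S.b i j v := by
    intro v i j
    rw [Finset.sum_ite_eq Finset.univ j, if_pos (Finset.mem_univ j)]
  have hPst : S.toG0.Stab P := by
    constructor
    · intro i j v hv
      rw [hPm] at hv ⊢
      rw [hDv] at hv ⊢
      rw [← map_smul, ← hv, map_sum]
      exact Finset.sum_congr rfl fun l _ => (S.ab i j l l v).symm
    · intro i j v hv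
      rw [hPm] at hv ⊢
      rw [hDv] at hv ⊢
      rw [← map_smul, ← hv, map_sum, ← sub_eq_zero, ← Finset.sum_sub_distrib,
        Finset.sum_congr rfl fun l _ => S.bb l l i j v, Finset.sum_sub_distrib, hsum1, hsum2, sub_self]
  have hPy : ∀ i l, ∀ v ∈ P, S.y i l v = 0 := by
    intro i p v hv
    by_contra hne0
    have h1 : D (S.y i p v) = ((d - 1 : ℤ) : ℂ) • S.y i p v := by
      rw [hPm, hDv] at hv
      rw [hDv]
      have h2 : ∑ l, S.b l l (S.y i p v) = S.y i p (∑ l, S.b l l v) - S.y i p v := by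
        rw [map_sum, ← sub_eq_zero]
        have h3 : ∑ l, (S.b l l (S.y i p v) - S.y i p (S.b l l v)) = - S.y i p v := by
          rw [Finset.sum_congr rfl fun l _ => S.by' l l i p v, Finset.sum_neg_distrib]
          congr 1
          rw [Finset.sum_ite_eq' Finset.univ p (fun l => S.y i l v), if_pos (Finset.mem_univ p)]
        rw [Finset.sum_sub_distrib] at h3
        have h4 : ∑ l, S.b l l (S.y i p v) - (∑ l, S.y i p (S.b l l v) - S.y i p v) =
            (∑ l, S.b l l (S.y i p v) - ∑ l, S.y i p (S.b l l v)) + S.y i p v := by abel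
        rw [h4, h3]
        abel
      rw [h2, hv, map_smul]
      push_cast
      rw [sub_smul, one_smul]
    have h5 := hmin (d - 1) ⟨_, hne0, h1⟩
    simp only [id] at h5
    omega
  have hPne : P ≠ ⊥ := by
    intro h
    apply hv₁
    have : v₁ ∈ P := (hPm v₁).2 hdv₁
    rw [h] at this
    exact this
  obtain ⟨v, hvP, hv0, α, β, hvw⟩ := G06_hw S.toG0 hS P inferInstance hPst hPne
  obtain ⟨hirr, hvlow, hlow⟩ := G07_cyc S.toG0 hS hfin α β v hvw hv0
  have hle : S.toG0.low v ≤ P := hlow P hPst hvP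
  refine ⟨α, β, S.toG0.low v, hirr, fun i l w hw => hPy i l w (hle hw), fun N hN hNx => ?_⟩
  have hgst : S.Stab (S.gen (S.toG0.low v)) :=
    G12_stab S _ hirr.stab fun i l w hw => hPy i l w (hle hw)
  rcases hsim _ hgst with h | h
  · exfalso
    apply hv0
    have h1 : v ∈ S.gen (S.toG0.low v) := G12_le S _ hvlow
    rw [h] at h1
    exact h1
  · rw [eq_top_iff, ← h]
    exact G12_min S _ N hN hNx

end H95H
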