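import Pool.Agent.Lib.H95H.G07a
import Pool.Agent.Lib.H95H.G12b
import Pool.Agent.Lib.H95H.G12c

namespace H95H

variable {m n k : ℕ} {M : Type} [AddCommGroup M] [Module ℂ M]
  {M' : Type} [AddCommGroup M'] [Module ℂ M']

/-- the product of two modules -/
def GM.prd (S : GM m n M) (S' : GM m n M') : GM m n (M × M') where
  a i j := (S.a i j).prodMap (S'.a i j)
  b i j := (S.b i j).prodMap (S'.b i j)
  x i l := (S.x i l).prodMap (S'.x i l)
  y i l := (S.y i l).prodMap (S'.y i l)
  aa i j k l v := by
    refine Prod.ext ?_ ?_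
    · have := S.aa i j k l v.1
      by_cases h1 : j = k <;> by_cases h2 : l = i <;> simpa [h1, h2] using this
    · have := S'.aa i j k l v.2
      by_cases h1 : j = k <;> by_cases h2 : l = i <;> simpa [h1, h2] using this
  bb i j k l v := by
    refine Prod.ext ?_ ?_
    · have := S.bb i j k l v.1
      by_cases h1 : j = k <;> by_cases h2 : l = i <;> simpa [h1, h2] using this
    · have := S'.bb i j k l v.2
      by_cases h1 : j = k <;> by_cases h2 : l = i <;> simpa [h1, h2] using this
  ab i j k l v := by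
    refine Prod.ext ?_ ?_
    · simpa using S.ab i j k l v.1
    · simpa using S'.ab i j k l v.2
  ax i j k l v := by
    refine Prod.ext ?_ ?_
    · have := S.ax i j k l v.1
      by_cases h1 : j = k <;> simpa [h1] using this
    · have := S'.ax i j k l v.2
      by_cases h1 : j = k <;> simpa [h1] using this
  bx l q i p v := by
    refine Prod.ext ?_ ?_
    · have := S.bx l q i p v.1
      by_cases h1 : q = p <;> simpa [h1] using this
    · have := S'.bx l q i p v.2
      by_cases h1 : q = p <;> simpa [h1] using this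
  ay i j k l v := by
    refine Prod.ext ?_ ?_
    · have := S.ay i j k l v.1
      by_cases h1 : i = k <;> simpa [h1] using this
    · have := S'.ay i j k l v.2
      by_cases h1 : i = k <;> simpa [h1] using this
  by' l q i p v := by
    refine Prod.ext ?_ ?_
    · have := S.by' l q i p v.1
      by_cases h1 : l = p <;> simpa [h1] using this
    · have := S'.by' l q i p v.2
      by_cases h1 : l = p <;> simpa [h1] using this
  xx i l j q v := by
    refine Prod.ext ?_ ?_
    · simpa using S.xx i l j q v.1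
    · simpa using S'.xx i l j q v.2
  yy i l j q v := by
    refine Prod.ext ?_ ?_
    · simpa using S.yy i l j q v.1
    · simpa using S'.yy i l j q v.2
  xy i l j q v := by
    refine Prod.ext ?_ ?_
    · have := S.xy i l j q v.1
      by_cases h1 : l = q <;> by_cases h2 : i = j <;> simpa [h1, h2] using this
    · have := S'.xy i l j q v.2
      by_cases h1 : l = q <;> by_cases h2 : i = j <;> simpa [h1, h2] using this

/-!
# Chunk G17: uniqueness of simple modules, contravariant forms

* `G17_uniq`: let `S`, `S'` be simple with lowest parts `W`, `W'` of the same highest weight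
  `(α, β)`, with highest weight vectors `v`, `v'`. In the product let `D` be the submodule
  `(S.prd S').gen ((S.prd S').toG0.low (v, v'))` (`G07_lower`, `G12_stab`). A vector of `D` of weight
  `(α, β)` is a multiple of `(v, v')`: by `G12_deg` it lies in the part `low (v, v')`, and then
  `G07_lower`. The first projection `D → M` has image a nonzero submodule, so it is onto; its kernel
  is `{(0, u') ∈ D}`, which corresponds to a submodule of `M'`: if it is all of `M'` then
  `(0, v') ∈ D` has weight `(α, β)` and is not a multiple of `(v, v')`. So it is `⊥`. The same for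
  the second projection. So `D` is the graph of a bijective homomorphism.
* `G17_tau`: the twisted module: choose `h` from goodness. By Riesz (finite dimension; from `A10_proj`
  or nondegeneracy and dimension count) every operator has an adjoint for `h`; put
  `x' i l = (y i l)†`, `y' i l = (x i l)†`, and the same `a`, `b`. The relations follow by taking
  adjoints.
* `G17_contra`: let `S` be simple, nontrivial. Its twist `S'` is simple (the orthogonal complement
  of a submodule of `S'` is a submodule of `S`), and `W` is a lowest part of `S'` too: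
  `y' w = (x)† w = 0` for `w ∈ W` because `h (x u) w = 0` for all `u` (`D = ∑ b l l` has eigenvalues
  `> d` on `x M`, `D` self-adjoint); it generates because `S'` is simple (`G12_stab`). By
  `G17_uniq` there is a bijective homomorphism `ψ : S → S'`. It maps `W` to `W` (eigenspace of `D` for
  the smallest eigenvalue) and is a scalar there (Schur: `G07_uniq`; highest weight vector goes to a
  multiple, and `W` is generated by it); rescale so that `ψ = 1` on `W`. Then
  `B u v = h u (ψ v)` is contravariant: `B (x u) v = h (x u) (ψ v) = h u (y' (ψ v)) = h u (ψ (y v))`.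
  It is nondegenerate. Hermitian symmetry: `B' u v = conj (B v u)` has
  `B' (x u) v = conj (h v (ψ (x u))) = conj (h v (x' (ψ u))) = conj (h (y v) (ψ u)) = B' u (y v)`, so
  `B - B'` is contravariant; it vanishes on `W × W`; on `W × M` because of `D`; and then on all
  `(x .. x w, v)`, i.e. everywhere (`{u | ∀ v, (B - B') u v = 0}` contains `W` and is `x`-stable).
-/

theorem g17a_low_le (S : G0 m n M) (v : M) (N : Submodule ℂ M) (hN : S.Stab N) (hv : v ∈ N) :
    S.low v ≤ N :=
  sInf_le ⟨hv, fun i j _ u hu => hN.1 i j u hu, fun l q _ u hu => hN.2 l q u hu⟩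

theorem g17a_prod (S : GM m n M) (S' : GM m n M') (W : Submodule ℂ M) (W' : Submodule ℂ M')
    (hW : S.toG0.Stab W) (hW' : S'.toG0.Stab W') : (S.prd S').toG0.Stab (W.prod W') :=
  ⟨fun i j _ hv => ⟨hW.1 i j _ hv.1, hW'.1 i j _ hv.2⟩,
    fun i j _ hv => ⟨hW.2 i j _ hv.1, hW'.2 i j _ hv.2⟩⟩

theorem g17a_mem_low (S : G0 m n M) (v : M) : v ∈ S.low v := by
  rw [G0.low, Submodule.mem_sInf]
  exact fun N hN => hN.1

theorem g17a_single (S : GM m n M) (S' : GM m n M') (α : Fin m → ℤ) (β : Fin n → ℤ) (v : M)
    (v' : M') (h : S.toG0.HW α β v) (h' : S'.toG0.HW α β v') :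
    (S.prd S').toG0.HW α β (v, v') := by
  refine ⟨⟨fun i => ?_, fun l => ?_⟩, fun i j hij => ?_, fun l q hlq => ?_⟩
  · exact Prod.ext (h.1.1 i) (h'.1.1 i)
  · exact Prod.ext (h.1.2 l) (h'.1.2 l)
  · exact Prod.ext (h.2.1 i j hij) (h'.2.1 i j hij)
  · exact Prod.ext (h.2.2 l q hlq) (h'.2.2 l q hlq)

theorem G17_uniq (S : GM m n M) (hS : S.toG0.Good) (hfin : Module.Finite ℂ M) (S' : GM m n M')
    (hS' : S'.toG0.Good) (hfin' : Module.Finite ℂ M') (α : Fin m → ℤ) (β : Fin n → ℤ)
    (W : Submodule ℂ M) (hW : S.Low α β W) (W' : Submodule ℂ M') (hW' : S'.Low α β W')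
    (hsim : S.Sim) (hsim' : S'.Sim) : ∃ e : M →ₗ[ℂ] M', GHom S S' e ∧ Function.Bijective e := by
  obtain ⟨v, hvW, hv, hhw⟩ := hW.irr.hw
  obtain ⟨v', hvW', hv', hhw'⟩ := hW'.irr.hw
  have hz := g17a_single S S' α β v v' hhw hhw'
  obtain ⟨hL1, hL2, -⟩ := G07_lower (S.prd S').toG0 α β (v, v') hz
  have hstab := g17a_prod S S' W W' hW.irr.stab hW'.irr.stab
  have hle : (S.prd S').toG0.low (v, v') ≤ W.prod W' :=
    g17a_low_le _ _ _ hstab ⟨hvW, hvW'⟩
  set W0 := (S.prd S').toG0.low (v, v') with hW0
  have hy : ∀ i l, ∀ w ∈ W0, (S.prd S').y i l w = 0 := by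
    intro i l w hw
    have h1 := hle hw
    exact Prod.ext (hW.yW i l _ h1.1) (hW'.yW i l _ h1.2)
  have hD := G12_stab (S.prd S') W0 hL1 hy
  set D := (S.prd S').gen W0 with hDdef
  have hzD : (v, v') ∈ D := G12_le _ _ (g17a_mem_low _ _)
  have hdeg : ∀ w ∈ W0, ∑ l, (S.prd S').b l l w = ((∑ l, β l : ℤ) : ℂ) • w := by
    intro w hw
    have h1 := hle hw
    have h2 := G12_irr_deg S.toG0 hS hfin α β W hW.irr w.1 h1.1
    have h3 := G12_irr_deg S'.toG0 hS' hfin' α β W' hW'.irr w.2 h1.2
    refine Prod.ext ?_ ?_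
    · rw [Prod.fst_sum]
      exact h2
    · rw [Prod.snd_sum]
      exact h3
  have hmult : ∀ z ∈ D, z ∈ (S.prd S').toG0.Wsp α β → ∃ r : ℂ, z = r • (v, v') := by
    intro z hzD hzw
    by_cases hz0 : z = 0
    · exact ⟨0, by rw [hz0, zero_smul]⟩
    have h1 : ∑ l, (S.prd S').b l l z = ((∑ l, β l : ℤ) : ℂ) • z := by
      have h2 : ∀ l, (S.prd S').b l l z = ((β l : ℤ) : ℂ) • z := fun l => hzw.2 l
      rw [Finset.sum_congr rfl fun l _ => h2 l, ← Finset.sum_smul]
      push_cast
      rfl
    exact hL2 z ((G12_deg _ W0 _ hdeg z hzD _ h1 hz0).2 rfl) hzw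
  -- the two kernels
  have hker1 : ∀ u' : M', ((0 : M), u') ∈ D → u' = 0 := by
    have hst : S'.Stab (D.comap (LinearMap.inr ℂ M M')) := by
      refine ⟨⟨fun i j u hu => ?_, fun i j u hu => ?_⟩, fun i l u hu => ?_, fun i l u hu => ?_⟩
      · have h1 := hD.1.1 i j _ hu
        have h2 : (S.prd S').a i j (LinearMap.inr ℂ M M' u) =
            LinearMap.inr ℂ M M' (S'.a i j u) := Prod.ext (map_zero (S.a i j)) rfl
        rw [h2] at h1
        exact h1
      · have h1 := hD.1.2 i j _ hu
        have h2 : (S.prd S').b i j (LinearMap.inr ℂ M M' u) =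
            LinearMap.inr ℂ M M' (S'.b i j u) := Prod.ext (map_zero (S.b i j)) rfl
        rw [h2] at h1
        exact h1
      · have h1 := hD.2.1 i l _ hu
        have h2 : (S.prd S').x i l (LinearMap.inr ℂ M M' u) =
            LinearMap.inr ℂ M M' (S'.x i l u) := Prod.ext (map_zero (S.x i l)) rfl
        rw [h2] at h1
        exact h1
      · have h1 := hD.2.2 i l _ hu
        have h2 : (S.prd S').y i l (LinearMap.inr ℂ M M' u) =
            LinearMap.inr ℂ M M' (S'.y i l u) := Prod.ext (map_zero (S.y i l)) rfl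
        rw [h2] at h1
        exact h1
    rcases hsim' _ hst with h | h
    · intro u' hu'
      have h1 : u' ∈ D.comap (LinearMap.inr ℂ M M') := hu'
      rw [h] at h1
      exact (Submodule.mem_bot ℂ).1 h1
    · exfalso
      have h1 : v' ∈ D.comap (LinearMap.inr ℂ M M') := h ▸ Submodule.mem_top
      have h2 : ((0 : M), v') ∈ D := h1
      have h3 : ((0 : M), v') ∈ (S.prd S').toG0.Wsp α β :=
        ⟨fun i => Prod.ext (by
            change S.a i i 0 = _
            rw [map_zero]
            exact (smul_zero _).symm) (hhw'.1.1 i),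
          fun l => Prod.ext (by
            change S.b l l 0 = _
            rw [map_zero]
            exact (smul_zero _).symm) (hhw'.1.2 l)⟩
      obtain ⟨r, hr⟩ := hmult _ h2 h3
      have h4 : (0 : M) = r • v := congrArg Prod.fst hr
      have h5 : v' = r • v' := congrArg Prod.snd hr
      have h6 : r = 0 := (smul_eq_zero.1 h4.symm).resolve_right hv
      rw [h6, zero_smul] at h5
      exact hv' h5
  have hker2 : ∀ u : M, (u, (0 : M')) ∈ D → u = 0 := by
    have hst : S.Stab (D.comap (LinearMap.inl ℂ M M')) := by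
      refine ⟨⟨fun i j u hu => ?_, fun i j u hu => ?_⟩, fun i l u hu => ?_, fun i l u hu => ?_⟩
      · have h1 := hD.1.1 i j _ hu
        have h2 : (S.prd S').a i j (LinearMap.inl ℂ M M' u) =
            LinearMap.inl ℂ M M' (S.a i j u) := Prod.ext rfl (map_zero (S'.a i j))
        rw [h2] at h1
        exact h1
      · have h1 := hD.1.2 i j _ hu
        have h2 : (S.prd S').b i j (LinearMap.inl ℂ M M' u) =
            LinearMap.inl ℂ M M' (S.b i j u) := Prod.ext rfl (map_zero (S'.b i j))
        rw [h2] at h1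
        exact h1
      · have h1 := hD.2.1 i l _ hu
        have h2 : (S.prd S').x i l (LinearMap.inl ℂ M M' u) =
            LinearMap.inl ℂ M M' (S.x i l u) := Prod.ext rfl (map_zero (S'.x i l))
        rw [h2] at h1
        exact h1
      · have h1 := hD.2.2 i l _ hu
        have h2 : (S.prd S').y i l (LinearMap.inl ℂ M M' u) =
            LinearMap.inl ℂ M M' (S.y i l u) := Prod.ext rfl (map_zero (S'.y i l))
        rw [h2] at h1
        exact h1
    rcases hsim _ hst with h | h
    · intro u hu
      have h1 : u ∈ D.comap (LinearMap.inl ℂ M M') := hu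
      rw [h] at h1
      exact (Submodule.mem_bot ℂ).1 h1
    · exfalso
      have h1 : v ∈ D.comap (LinearMap.inl ℂ M M') := h ▸ Submodule.mem_top
      have h2 : (v, (0 : M')) ∈ D := h1
      have h3 : (v, (0 : M')) ∈ (S.prd S').toG0.Wsp α β :=
        ⟨fun i => Prod.ext (hhw.1.1 i) (by
            change S'.a i i 0 = _
            rw [map_zero]
            exact (smul_zero _).symm),
          fun l => Prod.ext (hhw.1.2 l) (by
            change S'.b l l 0 = _
            rw [map_zero]
            exact (smul_zero _).symm)⟩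
      obtain ⟨r, hr⟩ := hmult _ h2 h3
      have h4 : (0 : M') = r • v' := congrArg Prod.snd hr
      have h5 : v = r • v := congrArg Prod.fst hr
      have h6 : r = 0 := (smul_eq_zero.1 h4.symm).resolve_right hv'
      rw [h6, zero_smul] at h5
      exact hv h5
  -- the two projections are onto
  have hsur1 : ∀ u : M, ∃ u' : M', (u, u') ∈ D := by
    have hst : S.Stab (D.map (LinearMap.fst ℂ M M')) := by
      refine ⟨⟨fun i j u hu => ?_, fun i j u hu => ?_⟩, fun i l u hu => ?_, fun i l u hu => ?_⟩
      · obtain ⟨z, hz, rfl⟩ := hu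
        exact ⟨_, hD.1.1 i j z hz, rfl⟩
      · obtain ⟨z, hz, rfl⟩ := hu
        exact ⟨_, hD.1.2 i j z hz, rfl⟩
      · obtain ⟨z, hz, rfl⟩ := hu
        exact ⟨_, hD.2.1 i l z hz, rfl⟩
      · obtain ⟨z, hz, rfl⟩ := hu
        exact ⟨_, hD.2.2 i l z hz, rfl⟩
    rcases hsim _ hst with h | h
    · exfalso
      have h1 : v ∈ D.map (LinearMap.fst ℂ M M') := ⟨_, hzD, rfl⟩
      rw [h] at h1
      exact hv ((Submodule.mem_bot ℂ).1 h1)
    · intro u
      have h1 : u ∈ D.map (LinearMap.fst ℂ M M') := h ▸ Submodule.mem_top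
      obtain ⟨z, hz, rfl⟩ := h1
      exact ⟨z.2, hz⟩
  have hsur2 : ∀ u' : M', ∃ u : M, (u, u') ∈ D := by
    have hst : S'.Stab (D.map (LinearMap.snd ℂ M M')) := by
      refine ⟨⟨fun i j u hu => ?_, fun i j u hu => ?_⟩, fun i l u hu => ?_, fun i l u hu => ?_⟩
      · obtain ⟨z, hz, rfl⟩ := hu
        exact ⟨_, hD.1.1 i j z hz, rfl⟩
      · obtain ⟨z, hz, rfl⟩ := hu
        exact ⟨_, hD.1.2 i j z hz, rfl⟩
      · obtain ⟨z, hz, rfl⟩ := hu
        exact ⟨_, hD.2.1 i l z hz, rfl⟩
      · obtain ⟨z, hz, rfl⟩ := hu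
        exact ⟨_, hD.2.2 i l z hz, rfl⟩
    rcases hsim' _ hst with h | h
    · exfalso
      have h1 : v' ∈ D.map (LinearMap.snd ℂ M M') := ⟨_, hzD, rfl⟩
      rw [h] at h1
      exact hv' ((Submodule.mem_bot ℂ).1 h1)
    · intro u
      have h1 : u ∈ D.map (LinearMap.snd ℂ M M') := h ▸ Submodule.mem_top
      obtain ⟨z, hz, rfl⟩ := h1
      exact ⟨z.1, hz⟩
  choose e he using hsur1
  have huniq : ∀ u u', (u, u') ∈ D → e u = u' := by
    intro u u' h
    have h1 := D.sub_mem (he u) h
    have h2 : ((u, e u) : M × M') - (u, u') = (0, e u - u') := Prod.ext (sub_self _) rfl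
    rw [h2] at h1
    exact sub_eq_zero.1 (hker1 _ h1)
  refine ⟨{ toFun := e
            map_add' := fun u w => huniq _ _ (D.add_mem (he u) (he w))
            map_smul' := fun r u => huniq _ _ (D.smul_mem r (he u)) }, ⟨?_, ?_, ?_, ?_⟩, ?_, ?_⟩
  · exact fun i j u => huniq _ _ (hD.1.1 i j _ (he u))
  · exact fun i j u => huniq _ _ (hD.1.2 i j _ (he u))
  · exact fun i l u => huniq _ _ (hD.2.1 i l _ (he u))
  · exact fun i l u => huniq _ _ (hD.2.2 i l _ (he u))
  · intro u w h
    have h0 : e u = e w := h
    have h1 := D.sub_mem (he u) (he w)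
    have h2 : ((u, e u) : M × M') - (w, e w) = (u - w, 0) := Prod.ext rfl (by
      change e u - e w = 0
      rw [h0, sub_self])
    rw [h2] at h1
    exact sub_eq_zero.1 (hker2 _ h1)
  · intro u'
    obtain ⟨u, hu⟩ := hsur2 u'
    exact ⟨u, huniq _ _ hu⟩

end H95H
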