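import Pool.Agent.Lib.H95H.A10a
import Pool.Agent.Lib.H95H.G00

namespace H95H

variable {m n k : ℕ} {M : Type} [AddCommGroup M] [Module ℂ M]
  {M' : Type} [AddCommGroup M'] [Module ℂ M']

/-!
# Chunk G17: uniqueness of simple modules, contravariant forms

* `G17_uniq`: let `S`, `S'` be simple with lowest parts `W`, `W'` of the same highest weight
  `(α, β)`, with highest weight vectors `v`, `v'`. In the product let `D` be the submodule
  `(S.prd S').gen ((S.prd S').toG0.low (v, v'))` (`G07_lower`, `G12_stab`). A vector of `D` of weight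
  `(α, β)` is a multiple of `(v, v')`: by `G12_deg` it lies in the part `low (v, v')`, and then
  `G07_lower`. The first projection `D → M` has image a nonzero submodule, so it is onto; its kernel
  is `{(0, u') ∈ D}`, which corresponds to a submodule of `M'`: if it is all of `M'` then
  `(0, v') ∈ D` has weight `(α, β)` and is not a multiple of `(v, v')`. So it is `⊥`. The same for
  the second projection. So `D` is the graph of a bijective homomorphism.
* `G17_tau`: the twisted module: choose `h` from goodness. By Riesz (finite dimension; from `A10_proj`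
  or nondegeneracy and dimension count) every operator has an adjoint for `h`; put
  `x' i l = (y i l)†`, `y' i l = (x i l)†`, and the same `a`, `b`. The relations follow by taking
  adjoints.
* `G17_contra`: let `S` be simple, nontrivial. Its twist `S'` is simple (the orthogonal complement
  of a submodule of `S'` is a submodule of `S`), and `W` is a lowest part of `S'` too:
  `y' w = (x)† w = 0` for `w ∈ W` because `h (x u) w = 0` for all `u` (`D = ∑ b l l` has eigenvalues
  `> d` on `x M`, `D` self-adjoint); it generates because `S'` is simple (`G12_stab`). By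
  `G17_uniq` there is a bijective homomorphism `ψ : S → S'`. It maps `W` to `W` (eigenspace of `D` for
  the smallest eigenvalue) and is a scalar there (Schur: `G07_uniq`; highest weight vector goes to a
  multiple, and `W` is generated by it); rescale so that `ψ = 1` on `W`. Then
  `B u v = h u (ψ v)` is contravariant: `B (x u) v = h (x u) (ψ v) = h u (y' (ψ v)) = h u (ψ (y v))`.
  It is nondegenerate. Hermitian symmetry: `B' u v = conj (B v u)` has
  `B' (x u) v = conj (h v (ψ (x u))) = conj (h v (x' (ψ u))) = conj (h (y v) (ψ u)) = B' u (y v)`, so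
  `B - B'` is contravariant; it vanishes on `W × W`; on `W × M` because of `D`; and then on all
  `(x .. x w, v)`, i.e. everywhere (`{u | ∀ v, (B - B') u v = 0}` contains `W` and is `x`-stable).
-/

/-- adjoints exist in finite dimension -/
theorem g17b_adj (hfin : Module.Finite ℂ M) (h : M → M → ℂ) (hh : Herm h) (T : M →ₗ[ℂ] M) :
    ∃ T' : M →ₗ[ℂ] M, ∀ u v, h (T u) v = h u (T' v) := by
  classical
  let b := Module.finBasis ℂ M
  let L : M →ₗ[ℂ] (Fin (Module.finrank ℂ M) → ℂ) :=
    { toFun := fun x i => h x (b i)
      map_add' := by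
        intro x y
        funext i
        simp [hh.add]
      map_smul' := by
        intro c x
        funext i
        simp [hh.smul] }
  have hLi : ∀ x i, L x i = h x (b i) := fun _ _ => rfl
  have hkey : ∀ x y : M, ∀ c : M →ₗ[ℂ] ℂ, (∀ i, c (b i) = starRingEnd ℂ (h x (b i))) →
      c y = starRingEnd ℂ (h x y) := by
    intro x y c hc
    let c2 : M →ₗ[ℂ] ℂ :=
      { toFun := fun y => starRingEnd ℂ (h x y)
        map_add' := by
          intro y z
          rw [a10a_add h hh, map_add]
        map_smul' := by
          intro r y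
          rw [a10a_smul h hh, map_mul]
          simp }
    have h1 : c = c2 := b.ext fun i => hc i
    rw [h1]
    rfl
  have hinj : Function.Injective L := by
    rw [injective_iff_map_eq_zero]
    intro x hx
    by_contra hne
    have h1 := hkey x x 0 (fun i => by
      have h2 := congrFun hx i
      rw [hLi] at h2
      rw [h2]
      simp)
    have h3 := hh.pos x hne
    have h4 : h x x = 0 := by
      have h5 := congrArg (starRingEnd ℂ) h1
      simpa using h5.symm
    rw [h4] at h3
    simp at h3
  let e := LinearEquiv.ofInjectiveOfFinrankEq L hinj (by simp)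
  have he : ∀ z i, h (e.symm z) (b i) = z i := by
    intro z i
    have h1 : e (e.symm z) = L (e.symm z) := rfl
    rw [e.apply_symm_apply] at h1
    exact (congrFun h1 i).symm
  let R : M →ₗ[ℂ] (Fin (Module.finrank ℂ M) → ℂ) :=
    { toFun := fun v i => h v (T (b i))
      map_add' := by
        intro x y
        funext i
        simp [hh.add]
      map_smul' := by
        intro c x
        funext i
        simp [hh.smul] }
  refine ⟨e.symm.toLinearMap ∘ₗ R, fun u v => ?_⟩
  let c : M →ₗ[ℂ] ℂ :=
    { toFun := fun u => h (T u) v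
      map_add' := by
        intro y z
        rw [map_add, hh.add]
      map_smul' := by
        intro r y
        rw [map_smul, hh.smul]
        rfl }
  have h1 := hkey (e.symm (R v)) u c (fun i => by
    rw [he]
    change h (T (b i)) v = starRingEnd ℂ (h v (T (b i)))
    exact hh.symm _ _)
  change c u = _
  rw [h1]
  exact (hh.symm _ _).symm

theorem G17_tau (S : GM m n M) (hfin : Module.Finite ℂ M) (h : M → M → ℂ) (hh : Herm h)
    (ha : ∀ i j u v, h (S.a i j u) v = h u (S.a j i v))
    (hb : ∀ i j u v, h (S.b i j u) v = h u (S.b j i v)) :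
    ∃ S' : GM m n M, S'.a = S.a ∧ S'.b = S.b ∧
      (∀ i l u v, h (S.x i l u) v = h u (S'.y i l v)) ∧
      ∀ i l u v, h (S.y i l u) v = h u (S'.x i l v) := by
  have hex1 : ∀ i l, ∃ T' : M →ₗ[ℂ] M, ∀ u v, h (S.x i l u) v = h u (T' v) :=
    fun i l => g17b_adj hfin h hh (S.x i l)
  have hex2 : ∀ i l, ∃ T' : M →ₗ[ℂ] M, ∀ u v, h (S.y i l u) v = h u (T' v) :=
    fun i l => g17b_adj hfin h hh (S.y i l)
  choose Y hY using hex1
  choose X hX using hex2
  have p2 : ∀ u v w, h u (v + w) = h u v + h u w := a10a_add h hh
  have z2 : ∀ u, h u 0 = 0 := a10a_zero h hh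
  have z1 : ∀ u, h 0 u = 0 := fun u => by
    have h1 := hh.smul 0 u u
    simpa using h1
  have n2 : ∀ u v, h u (-v) = -h u v := fun u v => by
    have h1 := a10a_smul h hh (-1) u v
    simpa using h1
  have n1 : ∀ u v, h (-v) u = -h v u := fun u v => by
    have h1 := hh.smul (-1) v u
    simpa using h1
  have s2 : ∀ u v w, h u (v - w) = h u v - h u w := fun u v w => by
    rw [sub_eq_add_neg, p2, n2, sub_eq_add_neg]
  have s1 : ∀ u v w, h (v - w) u = h v u - h w u := fun u v w => by
    rw [sub_eq_add_neg, hh.add, n1, sub_eq_add_neg]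
  have hext : ∀ v w, (∀ u, h u v = h u w) → v = w := by
    intro v w hvw
    by_contra hne
    have h1 := hh.pos (v - w) (sub_ne_zero.2 hne)
    rw [s2, hvw, sub_self] at h1
    simp at h1
  refine ⟨{ a := S.a, b := S.b, aa := S.aa, bb := S.bb, ab := S.ab, x := X, y := Y,
            ax := ?_, bx := ?_, ay := ?_, by' := ?_, xx := ?_, yy := ?_, xy := ?_ },
    rfl, rfl, hY, hX⟩
  · intro i j k l v
    apply hext
    intro u
    have h1 := congrArg (fun z => h z v) (S.ay j i k l u)
    simp only [s1, n1] at h1
    rw [s2, ← ha j i, ← hX, ← hX, ← ha j i]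
    by_cases hjk : j = k
    · simp only [hjk, if_true] at h1 ⊢
      rw [← hX, ← neg_sub, h1, neg_neg]
    · simp only [hjk, if_false, z1, neg_zero] at h1 ⊢
      rw [z2, ← neg_sub, h1, neg_zero]
  · intro l q i p v
    apply hext
    intro u
    have h1 := congrArg (fun z => h z v) (S.by' q l i p u)
    simp only [s1, n1] at h1
    rw [s2, ← hb q l, ← hX, ← hX, ← hb q l]
    by_cases hjk : q = p
    · simp only [hjk, if_true] at h1 ⊢
      rw [← hX, ← neg_sub, h1, neg_neg]
    · simp only [hjk, if_false, z1, neg_zero] at h1 ⊢
      rw [z2, ← neg_sub, h1, neg_zero]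
  · intro i j k l v
    apply hext
    intro u
    have h1 := congrArg (fun z => h z v) (S.ax j i k l u)
    simp only [s1] at h1
    rw [s2, ← ha j i, ← hY, ← hY, ← ha j i, n2]
    by_cases hjk : i = k
    · simp only [hjk, if_true] at h1 ⊢
      rw [← hY, ← neg_sub, h1]
    · simp only [hjk, if_false, z1] at h1 ⊢
      rw [z2, ← neg_sub, h1]
  · intro l q i p v
    apply hext
    intro u
    have h1 := congrArg (fun z => h z v) (S.bx q l i p u)
    simp only [s1] at h1
    rw [s2, ← hb q l, ← hY, ← hY, ← hb q l, n2]
    by_cases hjk : l = p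
    · simp only [hjk, if_true] at h1 ⊢
      rw [← hY, ← neg_sub, h1]
    · simp only [hjk, if_false, z1] at h1 ⊢
      rw [z2, ← neg_sub, h1]
  · intro i l j q v
    apply hext
    intro u
    rw [p2, ← hX, ← hX, ← hX, ← hX, ← hh.add, S.yy, z1, z2]
  · intro i l j q v
    apply hext
    intro u
    rw [p2, ← hY, ← hY, ← hY, ← hY, ← hh.add, S.xx, z1, z2]
  · intro i l j q v
    apply hext
    intro u
    have h1 := congrArg (fun z => h z v) (S.xy j q i l u)
    simp only [s1, hh.add] at h1
    rw [p2, s2, ← hX, ← hY, ← hY, ← hX, h1]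
    congr 1
    · by_cases hlq : l = q
      · rw [if_pos hlq, if_pos hlq.symm, ha]
      · rw [if_neg hlq, if_neg (Ne.symm hlq), z1, z2]
    · by_cases hij : i = j
      · rw [if_pos hij, if_pos hij.symm, hb]
      · rw [if_neg hij, if_neg (Ne.symm hij), z1, z2]

end H95H
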