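import Pool.Agent.Lib.H95H.G07c
import Pool.Agent.Lib.H95H.G16b
import Pool.Agent.Lib.H95H.G17a
import Pool.Agent.Lib.H95H.G17b

namespace H95H

variable {m n k : ℕ} {M : Type} [AddCommGroup M] [Module ℂ M]
  {M' : Type} [AddCommGroup M'] [Module ℂ M']

/-!
# Chunk G17: uniqueness of simple modules, contravariant forms

* `G17_uniq`: let `S`, `S'` be simple with lowest parts `W`, `W'` of the same highest weight
  `(α, β)`, with highest weight vectors `v`, `v'`. In the product let `D` be the submodule
  `(S.prd S').gen ((S.prd S').toG0.low (v, v'))` (`G07_lower`, `G12_stab`). A vector of `D` of weight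
  `(α, β)` is a multiple of `(v, v')`: by `G12_deg` it lies in the part `low (v, v')`, and then
  `G07_lower`. The first projection `D → M` has image a nonzero submodule, so it is onto; its kernel
  is `{(0, u') ∈ D}`, which corresponds to a submodule of `M'`: if it is all of `M'` then
  `(0, v') ∈ D` has weight `(α, β)` and is not a multiple of `(v, v')`. So it is `⊥`. The same for
  the second projection. So `D` is the graph of a bijective homomorphism.
* `G17_tau`: the twisted module: choose `h` from goodness. By Riesz (finite dimension; from `A10_proj`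
  or nondegeneracy and dimension count) every operator has an adjoint for `h`; put
  `x' i l = (y i l)†`, `y' i l = (x i l)†`, and the same `a`, `b`. The relations follow by taking
  adjoints.
* `G17_contra`: let `S` be simple, nontrivial. Its twist `S'` is simple (the orthogonal complement
  of a submodule of `S'` is a submodule of `S`), and `W` is a lowest part of `S'` too:
  `y' w = (x)† w = 0` for `w ∈ W` because `h (x u) w = 0` for all `u` (`D = ∑ b l l` has eigenvalues
  `> d` on `x M`, `D` self-adjoint); it generates because `S'` is simple (`G12_stab`). By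
  `G17_uniq` there is a bijective homomorphism `ψ : S → S'`. It maps `W` to `W` (eigenspace of `D` for
  the smallest eigenvalue) and is a scalar there (Schur: `G07_uniq`; highest weight vector goes to a
  multiple, and `W` is generated by it); rescale so that `ψ = 1` on `W`. Then
  `B u v = h u (ψ v)` is contravariant: `B (x u) v = h (x u) (ψ v) = h u (y' (ψ v)) = h u (ψ (y v))`.
  It is nondegenerate. Hermitian symmetry: `B' u v = conj (B v u)` has
  `B' (x u) v = conj (h v (ψ (x u))) = conj (h v (x' (ψ u))) = conj (h (y v) (ψ u)) = B' u (y v)`, so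
  `B - B'` is contravariant; it vanishes on `W × W`; on `W × M` because of `D`; and then on all
  `(x .. x w, v)`, i.e. everywhere (`{u | ∀ v, (B - B') u v = 0}` contains `W` and is `x`-stable).
-/

theorem g17c_eq (T T' : G0 m n M) (ha : T'.a = T.a) (hb : T'.b = T.b) : T' = T := by
  cases T
  cases T'
  simp only at ha hb
  subst ha
  subst hb
  rfl

theorem G17_contra (S : GM m n M) (hS : S.toG0.Good) (hfin : Module.Finite ℂ M)
    (hne : Nontrivial M) (hsim : S.Sim) : S.Contra := by
  classical
  obtain ⟨α, β, W, hW⟩ := G16_sim_low S hS hfin hne hsim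
  obtain ⟨⟨h, hh, ha, hb⟩, hspan⟩ := hS
  have hS : S.toG0.Good := ⟨⟨h, hh, ha, hb⟩, hspan⟩
  have p2 : ∀ u v w, h u (v + w) = h u v + h u w := a10a_add h hh
  have z2 : ∀ u, h u 0 = 0 := a10a_zero h hh
  have z1 : ∀ u, h 0 u = 0 := fun u => by
    have h1 := hh.smul 0 u u
    simpa using h1
  have m2 : ∀ (c : ℂ) u v, h u (c • v) = starRingEnd ℂ c * h u v := a10a_smul h hh
  have n2 : ∀ u v, h u (-v) = -h u v := fun u v => by
    have h1 := m2 (-1) u v
    simpa using h1
  have s2 : ∀ u v w, h u (v - w) = h u v - h u w := fun u v w => by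
    rw [sub_eq_add_neg, p2, n2, sub_eq_add_neg]
  have hpos : ∀ u, h u u = 0 → u = 0 := by
    intro u hu
    by_contra hne
    have h1 := hh.pos u hne
    rw [hu] at h1
    simp at h1
  have hzs : ∀ u v, h u v = 0 → h v u = 0 := by
    intro u v huv
    rw [hh.symm u v, huv, map_zero]
  obtain ⟨S', hSa, hSb, hX, hY⟩ := G17_tau S hfin h hh ha hb
  have hG0 : S'.toG0 = S.toG0 := g17c_eq _ _ hSa hSb
  have hS' : S'.toG0.Good := hG0 ▸ hS
  -- the operator `D`
  have hDadj : ∀ u v, h (∑ l, S.b l l u) v = h u (∑ l, S.b l l v) := by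
    have h1 : ∀ (s : Finset (Fin n)) u v, h (∑ l ∈ s, S.b l l u) v = h u (∑ l ∈ s, S.b l l v) := by
      intro s u v
      induction s using Finset.induction_on with
      | empty => simp [z1, z2]
      | insert l s hl ih => rw [Finset.sum_insert hl, Finset.sum_insert hl, hh.add, p2, ih, hb]
    exact h1 _
  have horth : ∀ (d e : ℤ) u w, ∑ l, S.b l l u = (e : ℂ) • u → ∑ l, S.b l l w = (d : ℂ) • w →
      d ≠ e → h u w = 0 := by
    intro d e u w hu hw hde
    have h1 := hDadj u w
    rw [hu, hw, hh.smul, m2] at h1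
    have h2 : starRingEnd ℂ (d : ℂ) = (d : ℂ) := by simp
    rw [h2] at h1
    have h3 : ((e : ℂ) - (d : ℂ)) * h u w = 0 := by
      rw [sub_mul, h1, sub_self]
    rcases mul_eq_zero.1 h3 with h4 | h4
    · exfalso
      apply hde
      have h5 : (e : ℂ) = (d : ℂ) := sub_eq_zero.1 h4
      exact_mod_cast h5.symm
    · exact h4
  have hWd : ∀ w ∈ W, ∑ l, S.b l l w = ((∑ l, β l : ℤ) : ℂ) • w :=
    G12_irr_deg S.toG0 hS hfin α β W hW.irr
  have hwt : ∀ (α' : Fin m → ℤ) (β' : Fin n → ℤ) u, u ∈ S.toG0.Wsp α' β' →
      ∑ l, S.b l l u = ((∑ l, β' l : ℤ) : ℂ) • u := by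
    intro α' β' u hu
    rw [Finset.sum_congr rfl fun l _ => hu.2 l, ← Finset.sum_smul]
    push_cast
    rfl
  have htop : ∀ N : Submodule ℂ M, (∀ α' β', S.toG0.Wsp α' β' ≤ N) → N = ⊤ := by
    intro N hN
    rw [eq_top_iff, ← hspan]
    exact iSup_le fun α' => iSup_le fun β' => hN α' β'
  -- `y'` kills `W`
  have hyW : ∀ i l, ∀ w ∈ W, S'.y i l w = 0 := by
    intro i l w hw
    apply hpos
    have h1 : ∀ u, h (S.x i l u) w = 0 := by
      let N : Submodule ℂ M :=
        { carrier := {u | h (S.x i l u) w = 0}
          add_mem' := by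
            intro u v hu hv
            change h (S.x i l (u + v)) w = 0
            rw [map_add, hh.add, hu, hv, add_zero]
          zero_mem' := by
            change h (S.x i l 0) w = 0
            rw [map_zero, z1]
          smul_mem' := by
            intro r u hu
            change h (S.x i l (r • u)) w = 0
            rw [map_smul, hh.smul, hu, mul_zero] }
      have hN : N = ⊤ := by
        apply htop
        intro α' β' u hu
        change h (S.x i l u) w = 0
        by_cases hu0 : u = 0
        · rw [hu0, map_zero, z1]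
        have h2 := (G12_low S hS hfin α β W hW α' β' u hu hu0).1
        apply horth (∑ l, β l) (∑ l, β' l + 1) _ _ _ (hWd w hw) (by omega)
        have h3 := hwt α' β' u hu
        have h4 : ∀ q, S.b q q (S.x i l u) = S.x i l (S.b q q u) +
            (if q = l then S.x i q u else 0) := by
          intro q
          rw [← S.bx q q i l u]
          abel
        rw [Finset.sum_congr rfl fun q _ => h4 q, Finset.sum_add_distrib, ← map_sum, h3,
          Finset.sum_ite_eq', if_pos (Finset.mem_univ _), map_smul]
        push_cast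
        rw [add_smul, one_smul]
      intro u
      have h2 : u ∈ N := hN ▸ Submodule.mem_top
      exact h2
    rw [← hX]
    exact h1 _
  -- `S'` is simple
  have hsim' : S'.Sim := by
    intro N hN
    let N' : Submodule ℂ M :=
      { carrier := {u | ∀ v ∈ N, h u v = 0}
        add_mem' := by
          intro u v hu hv w hw
          rw [hh.add, hu w hw, hv w hw, add_zero]
        zero_mem' := by
          intro w _
          exact z1 w
        smul_mem' := by
          intro r u hu w hw
          rw [hh.smul, hu w hw, mul_zero] }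
    have hNst : S.Stab N' := by
      refine ⟨⟨fun i j u hu v hv => ?_, fun i j u hu v hv => ?_⟩, fun i l u hu v hv => ?_,
        fun i l u hu v hv => ?_⟩
      · rw [ha]
        have h1 := hN.1.1 j i v hv
        rw [hSa] at h1
        exact hu _ h1
      · rw [hb]
        have h1 := hN.1.2 j i v hv
        rw [hSb] at h1
        exact hu _ h1
      · rw [hX]
        exact hu _ (hN.2.2 i l v hv)
      · rw [hY]
        exact hu _ (hN.2.1 i l v hv)
    rcases hsim N' hNst with h1 | h1
    · right
      rw [eq_top_iff]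
      intro u _
      obtain ⟨p, hp1, hp2⟩ := A10_proj h hh N
      have h2 : u - p u ∈ N' := fun v hv => hzs _ _ (hp2 u v hv)
      rw [h1] at h2
      have h3 := sub_eq_zero.1 ((Submodule.mem_bot ℂ).1 h2)
      rw [h3]
      exact hp1 u
    · left
      rw [eq_bot_iff]
      intro u hu
      have h2 : u ∈ N' := h1 ▸ Submodule.mem_top
      exact (Submodule.mem_bot ℂ).2 (hpos u (h2 u hu))
  obtain ⟨v, hvW, hv, hhw⟩ := hW.irr.hw
  have hW' : S'.Low α β W := by
    refine ⟨hG0 ▸ hW.irr, hyW, fun N hN hx => ?_⟩
    have hst : S'.toG0.Stab W := hG0 ▸ hW.irr.stab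
    rcases hsim' _ (G12_stab S' W hst hyW) with h1 | h1
    · exfalso
      have h2 := G12_le S' W hvW
      rw [h1] at h2
      exact hv ((Submodule.mem_bot ℂ).1 h2)
    · rw [eq_top_iff, ← h1]
      exact G12_min S' W N hN hx
  obtain ⟨ψ, hψ, hψb⟩ := G17_uniq S hS hfin S' hS' hfin α β W hW W hW' hsim hsim'
  obtain ⟨hψa, hψb', hψx, hψy⟩ := hψ
  rw [hSa] at hψa
  rw [hSb] at hψb'
  have hψwt : ∀ (α' : Fin m → ℤ) (β' : Fin n → ℤ) u, u ∈ S.toG0.Wsp α' β' →
      ψ u ∈ S.toG0.Wsp α' β' := by
    intro α' β' u hu
    refine ⟨fun i => ?_, fun l => ?_⟩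
    · rw [← hψa, hu.1 i, map_smul]
    · rw [← hψb', hu.2 l, map_smul]
  have hψv : S.toG0.HW α β (ψ v) := by
    refine ⟨hψwt _ _ _ hhw.1, fun i j hij => ?_, fun l q hlq => ?_⟩
    · rw [← hψa, hhw.2.1 i j hij, map_zero]
    · rw [← hψb', hhw.2.2 l q hlq, map_zero]
  have hψv0 : ψ v ≠ 0 := by
    intro h1
    apply hv
    apply hψb.1
    rw [h1, map_zero]
  have hψvW : ψ v ∈ W := (G12_low S hS hfin α β W hW α β (ψ v) hψv.1 hψv0).2 rfl
  obtain ⟨-, -, r, hr⟩ := G07_uniq S.toG0 hS hfin α α β β W hW.irr v (ψ v) hvW hhw hv hψvW hψv hψv0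
  have hr0 : r ≠ 0 := by
    intro h1
    rw [h1, zero_smul] at hr
    exact hψv0 hr
  -- normalised
  obtain ⟨φ, hφ⟩ : ∃ φ : M →ₗ[ℂ] M, φ = r⁻¹ • ψ := ⟨_, rfl⟩
  have hφa : ∀ i j u, φ (S.a i j u) = S.a i j (φ u) := by
    intro i j u
    rw [hφ, LinearMap.smul_apply, LinearMap.smul_apply, map_smul, hψa]
  have hφb : ∀ i j u, φ (S.b i j u) = S.b i j (φ u) := by
    intro i j u
    rw [hφ, LinearMap.smul_apply, LinearMap.smul_apply, map_smul, hψb']
  have hφx : ∀ i l u, φ (S.x i l u) = S'.x i l (φ u) := by
    intro i j u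
    rw [hφ, LinearMap.smul_apply, LinearMap.smul_apply, map_smul, hψx]
  have hφy : ∀ i l u, φ (S.y i l u) = S'.y i l (φ u) := by
    intro i j u
    rw [hφ, LinearMap.smul_apply, LinearMap.smul_apply, map_smul, hψy]
  have hφv : φ v = v := by
    rw [hφ, LinearMap.smul_apply, hr, smul_smul, inv_mul_cancel₀ hr0, one_smul]
  have hφs : Function.Surjective φ := by
    intro u
    obtain ⟨w, hw⟩ := hψb.2 (r • u)
    exact ⟨w, by rw [hφ, LinearMap.smul_apply, hw, smul_smul, inv_mul_cancel₀ hr0, one_smul]⟩
  have hφW : ∀ w ∈ W, φ w = w := by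
    have hst : S.toG0.Stab (W ⊓ LinearMap.ker (φ - LinearMap.id)) := by
      refine ⟨fun i j u hu => ?_, fun i j u hu => ?_⟩
      · obtain ⟨h1, h2⟩ := hu
        refine ⟨hW.irr.stab.1 i j u h1, ?_⟩
        rw [SetLike.mem_coe, LinearMap.mem_ker, LinearMap.sub_apply, LinearMap.id_apply,
          sub_eq_zero] at h2 ⊢
        rw [hφa, h2]
      · obtain ⟨h1, h2⟩ := hu
        refine ⟨hW.irr.stab.2 i j u h1, ?_⟩
        rw [SetLike.mem_coe, LinearMap.mem_ker, LinearMap.sub_apply, LinearMap.id_apply,
          sub_eq_zero] at h2 ⊢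
        rw [hφb, h2]
    have hvm : v ∈ W ⊓ LinearMap.ker (φ - LinearMap.id) := by
      refine ⟨hvW, ?_⟩
      rw [SetLike.mem_coe, LinearMap.mem_ker, LinearMap.sub_apply, LinearMap.id_apply, hφv, sub_self]
    rcases hW.irr.irr _ inf_le_left hst with h1 | h1
    · rw [h1] at hvm
      exact absurd ((Submodule.mem_bot ℂ).1 hvm) hv
    · intro w hw
      rw [← h1] at hw
      have h2 := hw.2
      rw [SetLike.mem_coe, LinearMap.mem_ker, LinearMap.sub_apply, LinearMap.id_apply,
        sub_eq_zero] at h2
      exact h2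
  have hφwt : ∀ (α' : Fin m → ℤ) (β' : Fin n → ℤ) u, u ∈ S.toG0.Wsp α' β' →
      φ u ∈ S.toG0.Wsp α' β' := by
    intro α' β' u hu
    rw [hφ, LinearMap.smul_apply]
    exact Submodule.smul_mem _ _ (hψwt _ _ _ hu)
  -- hermitian symmetry
  have hsym : ∀ u w, h u (φ w) = h (φ u) w := by
    let U : Submodule ℂ M :=
      { carrier := {u | ∀ w, h u (φ w) = h (φ u) w}
        add_mem' := by
          intro u v hu hv w
          rw [map_add, hh.add, hh.add, hu w, hv w]
        zero_mem' := by
          intro w
          rw [map_zero, z1, z1]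
        smul_mem' := by
          intro r u hu w
          rw [map_smul, hh.smul, hh.smul, hu w] }
    have hWU : W ≤ U := by
      intro w hw
      let V : Submodule ℂ M :=
        { carrier := {u | h w (φ u) = h w u}
          add_mem' := by
            intro u v hu hv
            change h w (φ (u + v)) = h w (u + v)
            rw [map_add, p2, p2, hu, hv]
          zero_mem' := by
            change h w (φ 0) = h w 0
            rw [map_zero]
          smul_mem' := by
            intro r u hu
            change h w (φ (r • u)) = h w (r • u)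
            rw [map_smul, m2, m2, hu] }
      have hV : V = ⊤ := by
        apply htop
        intro α' β' u hu
        change h w (φ u) = h w u
        by_cases hu0 : u = 0
        · rw [hu0, map_zero]
        obtain ⟨h2, h3⟩ := G12_low S hS hfin α β W hW α' β' u hu hu0
        by_cases he : ∑ l, β' l = ∑ l, β l
        · rw [hφW u (h3 he)]
        · rw [horth _ _ _ _ (hWd w hw) (hwt _ _ _ (hφwt _ _ _ hu)) he,
            horth _ _ _ _ (hWd w hw) (hwt _ _ _ hu) he]
      intro u
      have h2 : u ∈ V := hV ▸ Submodule.mem_top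
      rw [hφW w hw]
      exact h2
    have hU : U = ⊤ := by
      apply hW.gen U hWU
      intro i l u hu w
      rw [hX, ← hφy, hu, hφx, hh.symm w, ← hY, ← hh.symm]
    intro u
    have h2 : u ∈ U := hU ▸ Submodule.mem_top
    exact h2
  refine ⟨fun u w => h u (φ w), fun u v w => hh.add _ _ _, fun r u w => hh.smul _ _ _, ?_, ?_, ?_,
    ?_, ?_⟩
  · intro u w
    change h w (φ u) = starRingEnd ℂ (h u (φ w))
    rw [hsym w u]
    exact hh.symm _ _
  · intro u hu
    obtain ⟨w, hw⟩ := hφs u
    have h1 := hu w
    simp only [hw] at h1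
    exact hpos u h1
  · intro i j u w
    simp only
    rw [ha, hφa]
  · intro i j u w
    simp only
    rw [hb, hφb]
  · intro i l u w
    simp only
    rw [hX, hφy]

end H95H
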