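import Pool.Agent.Lib.H95H.G02a
import Pool.Agent.Lib.H95H.G02b

namespace H95H

variable {m n k : ℕ} {M : Type} [AddCommGroup M] [Module ℂ M]
  {M' : Type} [AddCommGroup M'] [Module ℂ M']

/-!
# Chunk G18: the translation functor on simple modules

* `G18_contra`: if `S` has a nondegenerate contravariant form `B` then so has `S.F t`: on the tensor
  product take `B' (u, w) (u', w') = ∑ B (u i) (u' i) + ∑ B (w l) (w' l)`; contravariance:
  `vtX`, `vtY` are adjoint (`f_i = x g^l`, `g^l = y f_i` pair equally, and the sign in front of `x`,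
  `y` on the second component is the same), `Om` is self-adjoint
  (`∑ B (a j i u_j) u'_i = ∑ B u_j (a i j u'_i)`, etc.). Generalised eigenspaces of the self-adjoint
  `Om` for different eigenvalues (here also the complex conjugate eigenvalue enters; the
  eigenvalue `t` is real) are orthogonal, and the whole space is their sum, so
  the restriction to `Ft t` is nondegenerate: if `z ∈ Ft t` is orthogonal to `Ft t` it is
  orthogonal to everything. (For an eigenvalue `c` that is not real: `Ft` of `c` is orthogonal to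
  `Ft t` as `conj c ≠ t`.)
* `G18_sim`: let `S` be simple and a quotient of a Kac module `S₀` of weight `(γ, δ)` via the
  surjective `f`, and suppose `(S₀.F t).isKac γ' δ'`. If `S.Ft t ≠ ⊥` then `S.F t` is simple with
  lowest part of highest weight `(γ', δ')`: `Fmap` is surjective (`G03_surj`), so `G16_quot` gives the
  lowest part, `G17_contra`, `G18_contra` the form, and `G16_simple` simplicity.
* `G18_ind`: every module with lowest part of highest weight `(γ, δ)` is a quotient of a Kac module
  of the same weight: this needs the induced module; see chunk `G19`. Not used here.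
* `G18_nonzero`: if `S.isLow γ δ` and `movB δ δ' t` then `S.Ft t ≠ ⊥`: `G10_G` gives a nonzero `w` with
  entries in `W` and `tG w = t w`; `Om (0, w) = (0, tG w) = t (0, w)` (`G13_OmG`).
-/

/-- the form on the tensor product -/
noncomputable def g18a_B (m n : ℕ) (B : M → M → ℂ) (z z' : (Fin m → M) × (Fin n → M)) : ℂ :=
  ∑ i, B (z.1 i) (z'.1 i) + ∑ l, B (z.2 l) (z'.2 l)

theorem g18a_orth {V : Type} [AddCommGroup V] [Module ℂ V] (T : Module.End ℂ V) (h : V → V → ℂ) (t μ : ℂ)
    (hne : μ ≠ t) (hadj : ∀ u v, h ((T - t • 1) u) v = h u ((T - t • 1) v)) (h0 : ∀ v, h 0 v = 0)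
    {u v : V} {k : ℕ} (hu : ((T - t • 1) ^ k) u = 0) {l : ℕ} (hv : ((T - μ • 1) ^ l) v = 0) : h u v = 0 := by
  have hadjk : ∀ (k : ℕ) (u v : V), h (((T - t • 1) ^ k) u) v = h u (((T - t • 1) ^ k) v) := by
    intro k
    induction k with
    | zero =>
      intro u v
      rfl
    | succ k ih =>
      intro u v
      rw [pow_succ, Module.End.mul_apply, ih, hadj, ← Module.End.mul_apply, ← pow_succ', ← pow_succ]
  have hcop : IsCoprime ((Polynomial.X - Polynomial.C t) ^ k : Polynomial ℂ) ((Polynomial.X - Polynomial.C μ) ^ l) := by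
    refine IsCoprime.pow ?_
    exact Polynomial.isCoprime_X_sub_C_of_isUnit_sub (sub_ne_zero.mpr hne.symm).isUnit
  obtain ⟨a, b, hab⟩ := hcop
  have h1 := congrArg (fun p : Polynomial ℂ => (Polynomial.aeval T p) v) hab
  simp only [map_add, map_mul, map_pow, map_sub, Polynomial.aeval_X, Polynomial.aeval_C, map_one,
    LinearMap.add_apply, Module.End.mul_apply, Module.End.one_apply] at h1
  have e : ∀ c : ℂ, (algebraMap ℂ (Module.End ℂ V)) c = c • (1 : Module.End ℂ V) := fun c =>
    Algebra.algebraMap_eq_smul_one c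
  rw [e, e, hv, map_zero, add_zero] at h1
  have hcomm : (Polynomial.aeval T a) (((T - t • 1) ^ k) v) = ((T - t • 1) ^ k) ((Polynomial.aeval T a) v) := by
    have h2 : Commute (Polynomial.aeval T a) ((T - t • (1 : Module.End ℂ V)) ^ k) := by
      have h3 : (T - t • (1 : Module.End ℂ V)) ^ k = Polynomial.aeval T ((Polynomial.X - Polynomial.C t) ^ k) := by
        simp [e]
      rw [h3]
      exact (Commute.all a _).map (Polynomial.aeval T)
    exact congrArg (fun F : Module.End ℂ V => F v) h2.eq
  rw [hcomm] at h1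
  rw [← h1, ← hadjk, hu, h0]

theorem G18_contra (S : GM m n M) (hfin : Module.Finite ℂ M) (hC : S.Contra) (t : ℤ) :
    (S.F t).Contra := by
  classical
  obtain ⟨B, hadd, hsm, hherm, hnd, ha, hb, hx⟩ := hC
  have hadd' : ∀ u v w, B w (u + v) = B w u + B w v := by
    intro u v w
    rw [hherm, hadd, map_add, ← hherm, ← hherm]
  have hsm' : ∀ (r : ℂ) u v, B u (r • v) = starRingEnd ℂ r * B u v := by
    intro r u v
    rw [hherm, hsm, map_mul, ← hherm]
  have h0 : ∀ v, B 0 v = 0 := by
    intro v
    have h1 := hsm 0 0 v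
    rwa [zero_smul, zero_mul] at h1
  have h0' : ∀ v, B v 0 = 0 := by
    intro v
    rw [hherm, h0, map_zero]
  have hneg : ∀ u v, B (-u) v = -B u v := by
    intro u v
    rw [← neg_one_smul ℂ, hsm, neg_one_mul]
  have hneg' : ∀ u v, B u (-v) = -B u v := by
    intro u v
    rw [hherm, hneg, map_neg, ← hherm]
  have hsub' : ∀ u v w, B w (u - v) = B w u - B w v := by
    intro u v w
    rw [sub_eq_add_neg, hadd', hneg', ← sub_eq_add_neg]
  have hy : ∀ i l u v, B (S.y i l u) v = B u (S.x i l v) := by
    intro i l u v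
    rw [hherm, ← hx, ← hherm]
  have hsum : ∀ {ι : Type} (s : Finset ι) (f : ι → M) (v : M), B (∑ i ∈ s, f i) v = ∑ i ∈ s, B (f i) v := by
    intro ι s f v
    induction s using Finset.induction_on with
    | empty => simp [h0]
    | insert a s ha ih => rw [Finset.sum_insert ha, Finset.sum_insert ha, hadd, ih]
  have hsum' : ∀ {ι : Type} (s : Finset ι) (f : ι → M) (v : M), B v (∑ i ∈ s, f i) = ∑ i ∈ s, B v (f i) := by
    intro ι s f v
    induction s using Finset.induction_on with
    | empty => simp [h0']
    | insert a s ha ih => rw [Finset.sum_insert ha, Finset.sum_insert ha, hadd', ih]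
  have hite : ∀ (c : Prop) [Decidable c] (u v : M), B (if c then u else 0) v = if c then B u v else 0 := by
    intro c _ u v
    split_ifs
    · rfl
    · exact h0 v
  have hite' : ∀ (c : Prop) [Decidable c] (u v : M), B v (if c then u else 0) = if c then B v u else 0 := by
    intro c _ u v
    split_ifs
    · rfl
    · exact h0' v
  -- the form on the tensor product
  have vadd : ∀ u v w, g18a_B m n B (u + v) w = g18a_B m n B u w + g18a_B m n B v w := by
    intro u v w
    simp only [g18a_B, Prod.fst_add, Prod.snd_add, Pi.add_apply, hadd, Finset.sum_add_distrib]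
    ring
  have vsm : ∀ (r : ℂ) u v, g18a_B m n B (r • u) v = r * g18a_B m n B u v := by
    intro r u v
    simp only [g18a_B, Prod.smul_fst, Prod.smul_snd, Pi.smul_apply, hsm, ← Finset.mul_sum]
    ring
  have vherm : ∀ u v, g18a_B m n B v u = starRingEnd ℂ (g18a_B m n B u v) := by
    intro u v
    simp only [g18a_B, map_add, map_sum]
    congr 1
    · exact Finset.sum_congr rfl fun i _ => hherm _ _
    · exact Finset.sum_congr rfl fun i _ => hherm _ _
  have vadd' : ∀ u v w, g18a_B m n B w (u + v) = g18a_B m n B w u + g18a_B m n B w v := by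
    intro u v w
    rw [vherm, vadd, map_add, ← vherm, ← vherm]
  have vsm' : ∀ (r : ℂ) u v, g18a_B m n B u (r • v) = starRingEnd ℂ r * g18a_B m n B u v := by
    intro r u v
    rw [vherm, vsm, map_mul, ← vherm]
  have v0 : ∀ v, g18a_B m n B 0 v = 0 := by
    intro v
    have h1 := vsm 0 0 v
    rwa [zero_smul, zero_mul] at h1
  have vnd : ∀ u, (∀ v, g18a_B m n B u v = 0) → u = 0 := by
    intro u hu
    refine Prod.ext (funext fun i => hnd _ fun v => ?_) (funext fun l => hnd _ fun v => ?_)
    · have h1 := hu (Pi.single i v, 0)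
      simp only [g18a_B, Pi.zero_apply, h0', Finset.sum_const_zero, add_zero] at h1
      rw [Finset.sum_eq_single i] at h1
      · simpa using h1
      · intro j _ hj
        rw [Pi.single_eq_of_ne hj, h0']
      · simp
    · have h1 := hu (0, Pi.single l v)
      simp only [g18a_B, Pi.zero_apply, h0', Finset.sum_const_zero, zero_add] at h1
      rw [Finset.sum_eq_single l] at h1
      · simpa using h1
      · intro j _ hj
        rw [Pi.single_eq_of_ne hj, h0']
      · simp
  have va : ∀ i j u v, g18a_B m n B (S.vt.a i j u) v = g18a_B m n B u (S.vt.a j i v) := by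
    intro i j u v
    show g18a_B m n B (vtA S i j u) v = g18a_B m n B u (vtA S j i v)
    simp only [g18a_B, g01a_A1, g01a_A2, hadd, hadd', Finset.sum_add_distrib, hite, hite', ha,
      Finset.sum_ite_eq', Finset.mem_univ, if_true]
  have vb : ∀ i j u v, g18a_B m n B (S.vt.b i j u) v = g18a_B m n B u (S.vt.b j i v) := by
    intro i j u v
    show g18a_B m n B (vtB S i j u) v = g18a_B m n B u (vtB S j i v)
    simp only [g18a_B, g01a_B1, g01a_B2, hadd, hadd', hneg, hneg', Finset.sum_add_distrib, hite, hite', hb,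
      Finset.sum_neg_distrib, Finset.sum_ite_eq', Finset.mem_univ, if_true]
  have vx : ∀ i l u v, g18a_B m n B (S.vt.x i l u) v = g18a_B m n B u (S.vt.y i l v) := by
    intro i l u v
    show g18a_B m n B (vtX S i l u) v = g18a_B m n B u (vtY S i l v)
    simp only [g18a_B, g01a_X1, g01a_X2, g01a_Y1, g01a_Y2, hadd, hsub', hneg, Finset.sum_add_distrib, hite, hite',
      hx, Finset.sum_neg_distrib, Finset.sum_sub_distrib, Finset.sum_ite_eq', Finset.mem_univ, if_true]
    ring
  have vOm : ∀ u v, g18a_B m n B (S.Om u) v = g18a_B m n B u (S.Om v) := by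
    intro u v
    simp only [g18a_B, g02a_O1, g02a_O2, hadd, hadd', hsum, hsum', ha, hb, hx, hy, Finset.sum_add_distrib]
    rw [Finset.sum_comm (f := fun i j => B (u.1 j) (S.a i j (v.1 i))),
      Finset.sum_comm (f := fun i p => B (u.2 p) (S.x i p (v.1 i))),
      Finset.sum_comm (f := fun q j => B (u.1 j) (S.y j q (v.2 q))),
      Finset.sum_comm (f := fun q p => B (u.2 p) (S.b p q (v.2 q)))]
    ring
  have hadj : ∀ u v, g18a_B m n B ((S.Om - (t : ℂ) • 1) u) v = g18a_B m n B u ((S.Om - (t : ℂ) • 1) v) := by
    intro u v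
    have e1 : (S.Om - (t : ℂ) • 1) u = S.Om u + (-(t : ℂ)) • u := by
      simp [sub_eq_add_neg]
    have e2 : (S.Om - (t : ℂ) • 1) v = S.Om v + (-(t : ℂ)) • v := by
      simp [sub_eq_add_neg]
    rw [e1, e2, vadd, vadd', vOm, vsm, vsm']
    simp
  refine ⟨fun u v => g18a_B m n B u.1 v.1, fun u v w => vadd _ _ _, fun r u v => vsm _ _ _, fun u v => vherm _ _,
    ?_, fun i j u v => va i j _ _, fun i j u v => vb i j _ _, fun i l u v => vx i l _ _⟩
  intro u hu
  apply Subtype.ext
  apply vnd
  intro v
  let K : Submodule ℂ ((Fin m → M) × (Fin n → M)) :=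
    { carrier := {v | g18a_B m n B u.1 v = 0}
      add_mem' := by
        intro v w hv hw
        show g18a_B m n B u.1 (v + w) = 0
        rw [vadd', hv, hw, add_zero]
      zero_mem' := by
        show g18a_B m n B u.1 0 = 0
        rw [vherm, v0, map_zero]
      smul_mem' := by
        intro r v hv
        show g18a_B m n B u.1 (r • v) = 0
        rw [vsm', hv, mul_zero] }
  have hK : (⊤ : Submodule ℂ ((Fin m → M) × (Fin n → M))) ≤ K := by
    rw [← Module.End.iSup_maxGenEigenspace_eq_top S.Om]
    refine iSup_le fun μ => ?_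
    intro v hv
    by_cases hμ : μ = (t : ℂ)
    · subst hμ
      exact hu ⟨v, hv⟩
    · obtain ⟨l, hl⟩ := (Module.End.mem_maxGenEigenspace S.Om μ v).1 hv
      obtain ⟨k, hk⟩ := (Module.End.mem_maxGenEigenspace S.Om (t : ℂ) u.1).1 u.2
      exact g18a_orth S.Om (g18a_B m n B) (t : ℂ) μ hμ hadj v0 hk hl
  exact hK Submodule.mem_top

end H95H
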