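import Pool.Agent.Lib.H95H.G03b
import Pool.Agent.Lib.H95H.G05c
import Pool.Agent.Lib.H95H.G13a
import Pool.Agent.Lib.H95H.G17c
import Pool.Agent.Lib.H95H.G18a

namespace H95H

variable {m n k : ℕ} {M : Type} [AddCommGroup M] [Module ℂ M]
  {M' : Type} [AddCommGroup M'] [Module ℂ M']

/-!
# Chunk G18: the translation functor on simple modules

* `G18_contra`: if `S` has a nondegenerate contravariant form `B` then so has `S.F t`: on the tensor
  product take `B' (u, w) (u', w') = ∑ B (u i) (u' i) + ∑ B (w l) (w' l)`; contravariance: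
  `vtX`, `vtY` are adjoint (`f_i = x g^l`, `g^l = y f_i` pair equally, and the sign in front of `x`,
  `y` on the second component is the same), `Om` is self-adjoint
  (`∑ B (a j i u_j) u'_i = ∑ B u_j (a i j u'_i)`, etc.). Generalised eigenspaces of the self-adjoint
  `Om` for different eigenvalues (here also the complex conjugate eigenvalue enters; the
  eigenvalue `t` is real) are orthogonal, and the whole space is their sum, so
  the restriction to `Ft t` is nondegenerate: if `z ∈ Ft t` is orthogonal to `Ft t` it is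
  orthogonal to everything. (For an eigenvalue `c` that is not real: `Ft` of `c` is orthogonal to
  `Ft t` as `conj c ≠ t`.)
* `G18_sim`: let `S` be simple and a quotient of a Kac module `S₀` of weight `(γ, δ)` via the
  surjective `f`, and suppose `(S₀.F t).isKac γ' δ'`. If `S.Ft t ≠ ⊥` then `S.F t` is simple with
  lowest part of highest weight `(γ', δ')`: `Fmap` is surjective (`G03_surj`), so `G16_quot` gives the
  lowest part, `G17_contra`, `G18_contra` the form, and `G16_simple` simplicity.
* `G18_ind`: every module with lowest part of highest weight `(γ, δ)` is a quotient of a Kac module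
  of the same weight: this needs the induced module; see chunk `G19`. Not used here.
* `G18_nonzero`: if `S.isLow γ δ` and `movB δ δ' t` then `S.Ft t ≠ ⊥`: `G10_G` gives a nonzero `w` with
  entries in `W` and `tG w = t w`; `Om (0, w) = (0, tG w) = t (0, w)` (`G13_OmG`).
-/

theorem G18_sim (S₀ : GM (n + k) n M') (hS₀ : S₀.toG0.Good) (hfin₀ : Module.Finite ℂ M')
    (S : GM (n + k) n M) (hS : S.toG0.Good) (f : M' →ₗ[ℂ] M) (hf : GHom S₀ S f)
    (hs : Function.Surjective f) (hsim : S.Sim) (t : ℤ) (γ' δ' : Fin n → ℕ)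
    (hK : (S₀.F t).isKac γ' δ') (hne : S.Ft t ≠ ⊥) : (S.F t).Sim ∧ (S.F t).isLow γ' δ' := by
  have hfin : Module.Finite ℂ M := Module.Finite.of_surjective f hs
  have hnt : Nontrivial ↥(S.Ft t) := Submodule.nontrivial_iff_ne_bot.mpr hne
  have hntM : Nontrivial M := by
    by_contra h
    rw [not_nontrivial_iff_subsingleton] at h
    apply hne
    rw [Submodule.eq_bot_iff]
    intro z _
    exact Subsingleton.elim _ _
  obtain ⟨W, hW, _⟩ := hK
  have hsurj := G03_surj hf t hs
  have hlow := G16_quot (S₀.F t) (S.F t) (Fmap hf t) (G03_Fhom hf t) hsurj hnt (pz k γ') (nz δ') W hW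
  have hC := G18_contra S hfin (G17_contra S hS hfin hntM hsim) t
  exact ⟨G16_simple (S.F t) (G05_F S hS t) (G03_finite S t) _ _ _ hlow hC, ⟨_, hlow⟩⟩

theorem G18_nonzero (S : GM (n + k) n M) (hS : S.toG0.Good) (hfin : Module.Finite ℂ M)
    (γ δ δ' : Fin n → ℕ) (hL : S.isLow γ δ) (t : ℤ) (h : movB δ δ' t) : S.Ft t ≠ ⊥ := by
  obtain ⟨W, hW⟩ := hL
  obtain ⟨hanti, s, hδ, ht⟩ := h
  have hs : Antitone (nz δ - Pi.single s 1) := by
    have e : nz δ - Pi.single s 1 = nz δ' := by
      funext r
      have h1 := congrFun hδ r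
      rw [Pi.add_apply] at h1
      show (δ r : ℤ) - (Pi.single s 1 : Fin n → ℤ) r = (δ' r : ℤ)
      by_cases hr : r = s
      · subst hr
        rw [Pi.single_eq_same] at h1 ⊢
        omega
      · rw [Pi.single_eq_of_ne hr] at h1 ⊢
        omega
    rw [e]
    intro i j hij
    show (δ' j : ℤ) ≤ (δ' i : ℤ)
    exact_mod_cast hanti hij
  obtain ⟨w, hw0, hwW, _, hwt⟩ := G10_G S.toG0 hS hfin (pz k γ) (nz δ) W hW.irr s hs
  intro hbot
  have h1 : S.Om (iG (n + k) n M w) = (t : ℂ) • iG (n + k) n M w := by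
    rw [G13_OmG S W hW.yW w hwW, hwt, map_smul]
    congr 1
    rw [ht]
    rfl
  have h2 : iG (n + k) n M w ∈ S.Ft t := by
    refine (Module.End.mem_maxGenEigenspace S.Om (t : ℂ) _).2 ⟨1, ?_⟩
    rw [pow_one]
    show S.Om (iG (n + k) n M w) - (t : ℂ) • iG (n + k) n M w = 0
    rw [h1, sub_self]
  rw [hbot, Submodule.mem_bot] at h2
  exact hw0 (congrArg Prod.snd h2)

theorem G18_zero (S₀ : GM (n + k) n M') (hfin₀ : Module.Finite ℂ M')
    (S : GM (n + k) n M) (f : M' →ₗ[ℂ] M) (hf : GHom S₀ S f) (hs : Function.Surjective f) (t : ℤ)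
    (h0 : S₀.Ft t = ⊥) : S.Ft t = ⊥ := by
  rw [Submodule.eq_bot_iff]
  intro z hz
  obtain ⟨y, hy⟩ := G03_surj hf t hs ⟨z, hz⟩
  have h1 : y = 0 := by
    apply Subtype.ext
    exact (Submodule.eq_bot_iff _).mp h0 _ y.2
  rw [h1, map_zero] at hy
  exact (congrArg Subtype.val hy).symm

end H95H
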