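import Pool.Agent.Lib.H95H.C01a

namespace H95H

variable {m n k : ℕ} {M : Type} [AddCommGroup M] [Module ℂ M]
  {M' : Type} [AddCommGroup M'] [Module ℂ M']

/-- elements of `Λ(ℂ^{m × n}) ⊗ M` -/
abbrev LM (m n : ℕ) (M : Type) := Finset (Fin m × Fin n) → M

/-- contraction -/
noncomputable def annM (a : Fin m × Fin n) : LM m n M →ₗ[ℂ] LM m n M where
  toFun c := fun T => if a ∈ T then 0 else sgn a T • c (insert a T)
  map_add' c c' := by
    funext T
    by_cases h : a ∈ T <;> simp [h]
  map_smul' r c := by
    funext T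
    by_cases h : a ∈ T
    · simp [h]
    · simp only [h, if_false, Pi.smul_apply, RingHom.id_apply]
      rw [smul_comm]

/-- wedge multiplication -/
noncomputable def creM (a : Fin m × Fin n) : LM m n M →ₗ[ℂ] LM m n M where
  toFun c := fun T => if a ∈ T then sgn a T • c (T.erase a) else 0
  map_add' c c' := by
    funext T
    by_cases h : a ∈ T <;> simp [h]
  map_smul' r c := by
    funext T
    by_cases h : a ∈ T
    · simp only [h, if_true, Pi.smul_apply, RingHom.id_apply]
      rw [smul_comm]
    · simp [h]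

/-- apply a linear map to all coefficients -/
noncomputable def coM (φ : M →ₗ[ℂ] M) : LM m n M →ₗ[ℂ] LM m n M where
  toFun c := fun T => φ (c T)
  map_add' c c' := by funext T; simp
  map_smul' r c := by funext T; simp

/-- the degree zero part -/
noncomputable def e0 (m n : ℕ) (M : Type) [AddCommGroup M] [Module ℂ M] : M →ₗ[ℂ] LM m n M :=
  LinearMap.single ℂ (fun _ => M) ∅

/-!
# Chunk G19: induced modules

* `G19_aa`, `G19_cc`, `G19_ac`, `G19_coann`, `G19_cocre`, `G19_coco`: the same statements for `M = Rg m n`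
  are `C01_aa`, .. in `C01a.lean`, `C01b.lean`; port the proofs (they use nothing about the
  coefficients; `import Pool.Agent.Lib.H95H.C01b` is allowed if you want to quote sign lemmas).
* `G19_span`: by induction on `T.card` all `Pi.single T w` are in `N`:
  `creM a (Pi.single (T.erase a) w) = sgn a T • Pi.single T w` for `a ∈ T`; and every element of
  `LM m n M` is the sum of its `Pi.single T (c T)`.
* The relations. Put `E i j = ∑ l, cre (i,l) ann (j,l)`, `G l q = ∑ i, cre (i,l) ann (i,q)`. From `G19_ac`
  etc.: `[E i j, cre (p,l)] = δ_{jp} cre (i,l)`, `[E i j, ann (p,l)] = -δ_{ip} ann (j,l)`,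
  `[G l q, cre (i,p)] = δ_{qp} cre (i,l)`, `[G l q, ann (i,p)] = -δ_{lp} ann (i,q)`, and `co` commutes
  with `ann`, `cre`. `G19_iax`, `G19_ibx`, `G19_ixx` are immediate.
  `G19_ixy`: `{cre (i,l), ∑_p ann (p,q) co (a p j)} = δ_{lq} co (a i j)`,
  `{cre (i,l), - ∑_r ann (j,r) co (b r q)} = - δ_{ij} co (b l q)`,
  `{cre (i,l), ∑_{p,r} cre (p,r) ann (j,r) ann (p,q)} = δ_{lq} E i j - δ_{ij} G l q`.
  The others can be done with the following trick (or directly): let `T` be an operator on
  `LM m n M` that commutes or anticommutes with all `cre a` and vanishes on the range of `e0`; then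
  `T = 0` (`G19_span` for the kernel). Take `T = [a i j, a p l] - ..` (`iaa`), `ibb`, `iab`
  (they commute with `cre` by `iax`, `ibx`; on `e0 w` they follow from the relations of `S`),
  `T = [a i j, y p l] + δ_{ip} y j l` (`iay`, anticommutes with `cre` by `ixy`, `iax`, `iaa`, `iab`),
  `iby`, and `T = {y, y'}` (`iyy`, commutes with `cre` by `ixy`, `iay`, `iby`). Note `ann a (e0 w) = 0`,
  so `y (e0 w) = 0`, `a i j (e0 w) = e0 (S.a i j w)`, `b l q (e0 w) = e0 (S.b l q w)`.
* `G19_univ`: for `T = {a_1, .., a_r}` in reading order let `x_T = x_{a_1} .. x_{a_r}` on `M'`, and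
  `φ z = ∑_T x_T (f (z T))`. Then `φ (cre_a z) = x_a (φ z)` (anticommutation of the `x`; for `a ∈ T`,
  `x_a x_T = 0`). The set of `z` with `φ (a i j z) = a i j (φ z)` for all `i j`, and the same for `b` and
  `y`, contains the range of `e0` and is stable under `cre`: so it is everything (`G19_span`).
-/

theorem g19a_ann (a : Fin m × Fin n) (c : LM m n M) (T : Finset (Fin m × Fin n)) :
    annM a c T = if a ∈ T then 0 else sgn a T • c (insert a T) := rfl

theorem g19a_cre (a : Fin m × Fin n) (c : LM m n M) (T : Finset (Fin m × Fin n)) :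
    creM a c T = if a ∈ T then sgn a T • c (T.erase a) else 0 := rfl

theorem G19_aa (a b : Fin m × Fin n) (c : LM m n M) : annM a (annM b c) + annM b (annM a c) = 0 := by
  funext T
  rw [Pi.add_apply, Pi.zero_apply, g19a_ann, g19a_ann, g19a_ann, g19a_ann]
  by_cases hab : a = b
  · subst hab
    simp
  by_cases ha : a ∈ T
  · rw [if_pos ha, if_pos (Finset.mem_insert_of_mem ha), smul_zero, ite_self, add_zero]
  by_cases hb : b ∈ T
  · rw [if_pos hb, if_pos (Finset.mem_insert_of_mem hb), smul_zero, ite_self, add_zero]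
  have h1 : b ∉ insert a T := by
    rw [Finset.mem_insert]
    rintro (h | h)
    · exact hab h.symm
    · exact hb h
  have h2 : a ∉ insert b T := by
    rw [Finset.mem_insert]
    rintro (h | h)
    · exact hab h
    · exact ha h
  rw [if_neg ha, if_neg hb, if_neg h1, if_neg h2, c01a_ins b a T ha, c01a_ins a b T hb,
    c01a_sign hab, Finset.insert_comm b a T, smul_smul, smul_smul, ← add_smul]
  have e : sgn a T * ((if pos a < pos b then -1 else 1) * sgn b T) +
      sgn b T * (-(if pos a < pos b then -1 else 1) * sgn a T) = (0 : ℂ) := by ring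
  rw [e, zero_smul]

theorem G19_cc (a b : Fin m × Fin n) (c : LM m n M) : creM a (creM b c) + creM b (creM a c) = 0 := by
  funext T
  rw [Pi.add_apply, Pi.zero_apply, g19a_cre, g19a_cre, g19a_cre, g19a_cre]
  by_cases hab : a = b
  · subst hab
    simp
  by_cases ha : a ∈ T
  swap
  · rw [if_neg ha, if_neg (fun h => ha (Finset.mem_of_mem_erase h)), smul_zero, ite_self, add_zero]
  by_cases hb : b ∈ T
  swap
  · rw [if_neg hb, if_neg (fun h => hb (Finset.mem_of_mem_erase h)), smul_zero, ite_self, add_zero]
  have h1 : b ∈ T.erase a := Finset.mem_erase.2 ⟨fun h => hab h.symm, hb⟩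
  have h2 : a ∈ T.erase b := Finset.mem_erase.2 ⟨hab, ha⟩
  rw [if_pos ha, if_pos hb, if_pos h1, if_pos h2, c01a_era b a T ha, c01a_era a b T hb,
    c01a_sign hab, Finset.erase_right_comm, smul_smul, smul_smul, ← add_smul]
  have e : sgn a T * ((if pos a < pos b then -1 else 1) * sgn b T) +
      sgn b T * (-(if pos a < pos b then -1 else 1) * sgn a T) = (0 : ℂ) := by ring
  rw [e, zero_smul]

theorem G19_ac (a b : Fin m × Fin n) (c : LM m n M) :
    annM a (creM b c) + creM b (annM a c) = if a = b then c else 0 := by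
  funext T
  rw [Pi.add_apply, g19a_ann, g19a_cre, g19a_cre, g19a_ann]
  by_cases hab : a = b
  · subst hab
    rw [if_pos rfl]
    by_cases ha : a ∈ T
    · rw [if_pos ha, if_pos ha, if_neg (Finset.notMem_erase a T), zero_add, c01a_era a a T ha,
        if_neg (lt_irrefl _), one_mul, smul_smul, c01a_sq, one_smul, Finset.insert_erase ha]
    · rw [if_neg ha, if_neg ha, if_pos (Finset.mem_insert_self a T), add_zero, c01a_ins a a T ha,
        if_neg (lt_irrefl _), one_mul, smul_smul, c01a_sq, one_smul, Finset.erase_insert ha]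
  · rw [if_neg hab, Pi.zero_apply]
    by_cases ha : a ∈ T
    · rw [if_pos ha, zero_add]
      by_cases hb : b ∈ T
      · rw [if_pos hb, if_pos (Finset.mem_erase.2 ⟨hab, ha⟩), smul_zero]
      · rw [if_neg hb]
    · rw [if_neg ha]
      by_cases hb : b ∈ T
      · rw [if_pos (Finset.mem_insert_of_mem hb), if_pos hb,
          if_neg (fun h => ha (Finset.mem_of_mem_erase h)), c01a_ins b a T ha, c01a_era a b T hb,
          c01a_sign hab, Finset.erase_insert_of_ne hab, smul_smul, smul_smul, ← add_smul]
        have e : sgn a T * ((if pos a < pos b then -1 else 1) * sgn b T) +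
            sgn b T * (-(if pos a < pos b then -1 else 1) * sgn a T) = (0 : ℂ) := by ring
        rw [e, zero_smul]
      · rw [if_neg hb, if_neg, smul_zero, add_zero]
        rw [Finset.mem_insert]
        rintro (h | h)
        · exact hab h.symm
        · exact hb h

theorem G19_coann (φ : M →ₗ[ℂ] M) (a : Fin m × Fin n) (c : LM m n M) :
    coM φ (annM a c) = annM a (coM φ c) := by
  funext T
  have h1 : ∀ (c : LM m n M) (T : Finset (Fin m × Fin n)), coM φ c T = φ (c T) := fun _ _ => rfl
  rw [h1, g19a_ann, g19a_ann, h1]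
  by_cases ha : a ∈ T
  · rw [if_pos ha, if_pos ha, map_zero]
  · rw [if_neg ha, if_neg ha, map_smul]

theorem G19_cocre (φ : M →ₗ[ℂ] M) (a : Fin m × Fin n) (c : LM m n M) :
    coM φ (creM a c) = creM a (coM φ c) := by
  funext T
  have h1 : ∀ (c : LM m n M) (T : Finset (Fin m × Fin n)), coM φ c T = φ (c T) := fun _ _ => rfl
  rw [h1, g19a_cre, g19a_cre, h1]
  by_cases ha : a ∈ T
  · rw [if_pos ha, if_pos ha, map_smul]
  · rw [if_neg ha, if_neg ha, map_zero]

theorem G19_ann0 (a : Fin m × Fin n) (w : M) : annM a (e0 m n M w) = 0 := by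
  funext T
  rw [g19a_ann]
  by_cases ha : a ∈ T
  · rw [if_pos ha]
    rfl
  · rw [if_neg ha]
    have h : e0 m n M w (insert a T) = 0 := by
      simp [e0, Pi.single_apply, Finset.insert_ne_empty]
    rw [h, smul_zero]
    rfl

end H95H
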