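import Pool.Agent.Lib.H95H.G00
import Pool.Agent.Lib.H95H.G19a

namespace H95H

variable {m n k : ℕ} {M : Type} [AddCommGroup M] [Module ℂ M]
  {M' : Type} [AddCommGroup M'] [Module ℂ M']

/-!
# Chunk G19: induced modules

* `G19_aa`, `G19_cc`, `G19_ac`, `G19_coann`, `G19_cocre`, `G19_coco`: the same statements for `M = Rg m n`
  are `C01_aa`, .. in `C01a.lean`, `C01b.lean`; port the proofs (they use nothing about the
  coefficients; `import Pool.Agent.Lib.H95H.C01b` is allowed if you want to quote sign lemmas).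
* `G19_span`: by induction on `T.card` all `Pi.single T w` are in `N`:
  `creM a (Pi.single (T.erase a) w) = sgn a T • Pi.single T w` for `a ∈ T`; and every element of
  `LM m n M` is the sum of its `Pi.single T (c T)`.
* The relations. Put `E i j = ∑ l, cre (i,l) ann (j,l)`, `G l q = ∑ i, cre (i,l) ann (i,q)`. From `G19_ac`
  etc.: `[E i j, cre (p,l)] = δ_{jp} cre (i,l)`, `[E i j, ann (p,l)] = -δ_{ip} ann (j,l)`,
  `[G l q, cre (i,p)] = δ_{qp} cre (i,l)`, `[G l q, ann (i,p)] = -δ_{lp} ann (i,q)`, and `co` commutes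
  with `ann`, `cre`. `G19_iax`, `G19_ibx`, `G19_ixx` are immediate.
  `G19_ixy`: `{cre (i,l), ∑_p ann (p,q) co (a p j)} = δ_{lq} co (a i j)`,
  `{cre (i,l), - ∑_r ann (j,r) co (b r q)} = - δ_{ij} co (b l q)`,
  `{cre (i,l), ∑_{p,r} cre (p,r) ann (j,r) ann (p,q)} = δ_{lq} E i j - δ_{ij} G l q`.
  The others can be done with the following trick (or directly): let `T` be an operator on
  `LM m n M` that commutes or anticommutes with all `cre a` and vanishes on the range of `e0`; then
  `T = 0` (`G19_span` for the kernel). Take `T = [a i j, a p l] - ..` (`iaa`), `ibb`, `iab`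
  (they commute with `cre` by `iax`, `ibx`; on `e0 w` they follow from the relations of `S`),
  `T = [a i j, y p l] + δ_{ip} y j l` (`iay`, anticommutes with `cre` by `ixy`, `iax`, `iaa`, `iab`),
  `iby`, and `T = {y, y'}` (`iyy`, commutes with `cre` by `ixy`, `iay`, `iby`). Note `ann a (e0 w) = 0`,
  so `y (e0 w) = 0`, `a i j (e0 w) = e0 (S.a i j w)`, `b l q (e0 w) = e0 (S.b l q w)`.
* `G19_univ`: for `T = {a_1, .., a_r}` in reading order let `x_T = x_{a_1} .. x_{a_r}` on `M'`, and
  `φ z = ∑_T x_T (f (z T))`. Then `φ (cre_a z) = x_a (φ z)` (anticommutation of the `x`; for `a ∈ T`,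
  `x_a x_T = 0`). The set of `z` with `φ (a i j z) = a i j (φ z)` for all `i j`, and the same for `b` and
  `y`, contains the range of `e0` and is stable under `cre`: so it is everything (`G19_span`).
-/

theorem g19b_cre (a : Fin m × Fin n) (T : Finset (Fin m × Fin n)) (ha : a ∈ T) (w : M) :
    creM a (Pi.single (M := fun _ => M) (T.erase a) w) = sgn a T • (Pi.single (M := fun _ => M) T w : LM m n M) := by
  funext U
  show (if a ∈ U then sgn a U • (Pi.single (M := fun _ => M) (T.erase a) w : LM m n M) (U.erase a) else 0) = sgn a T • (Pi.single (M := fun _ => M) T w : LM m n M) U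
  by_cases hU : a ∈ U
  · rw [if_pos hU]
    by_cases h : U = T
    · subst h
      rw [Pi.single_eq_same, Pi.single_eq_same]
    · have h2 : U.erase a ≠ T.erase a := by
        intro e
        apply h
        rw [← Finset.insert_erase hU, ← Finset.insert_erase ha, e]
      rw [Pi.single_eq_of_ne h2, Pi.single_eq_of_ne h, smul_zero, smul_zero]
  · rw [if_neg hU]
    have h : U ≠ T := by
      rintro rfl
      exact hU ha
    rw [Pi.single_eq_of_ne h, smul_zero]

theorem g19b_sq (a : Fin m × Fin n) (T : Finset (Fin m × Fin n)) : sgn a T * sgn a T = 1 := by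
  unfold sgn
  rw [← pow_add, ← two_mul, pow_mul]
  norm_num

theorem G19_span (N : Submodule ℂ (LM m n M)) (h0 : ∀ w, e0 m n M w ∈ N)
    (hx : ∀ a, ∀ v ∈ N, creM a v ∈ N) : N = ⊤ := by
  have h1 : ∀ (c : ℕ) (T : Finset (Fin m × Fin n)), T.card = c → ∀ w : M,
      (Pi.single (M := fun _ => M) T w : LM m n M) ∈ N := by
    intro c
    induction c with
    | zero =>
      intro T hT w
      rw [Finset.card_eq_zero] at hT
      subst hT
      exact h0 w
    | succ c ih =>
      intro T hT w
      obtain ⟨a, ha⟩ : T.Nonempty := by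
        rw [← Finset.card_pos]
        omega
      have h2 := hx a _ (ih (T.erase a) (by rw [Finset.card_erase_of_mem ha, hT]; rfl) w)
      rw [g19b_cre a T ha w] at h2
      have h3 := N.smul_mem (sgn a T) h2
      rwa [smul_smul, g19b_sq, one_smul] at h3
  rw [eq_top_iff]
  intro v _
  have h4 : v = ∑ T, (Pi.single (M := fun _ => M) T (v T) : LM m n M) := by
    funext U
    rw [Finset.sum_apply, Finset.sum_eq_single U]
    · rw [Pi.single_eq_same]
    · intro T _ hT
      rw [Pi.single_eq_of_ne (Ne.symm hT)]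
    · intro h
      exact absurd (Finset.mem_univ U) h
  rw [h4]
  exact N.sum_mem fun T _ => h1 _ T rfl _

/-- `a i j` on `Λ ⊗ M` -/
noncomputable def iA (S : G0 m n M) (i j : Fin m) : LM m n M →ₗ[ℂ] LM m n M :=
  coM (S.a i j) + ∑ l : Fin n, creM (i, l) ∘ₗ annM (j, l)

/-- `b l q` on `Λ ⊗ M` -/
noncomputable def iB (S : G0 m n M) (l q : Fin n) : LM m n M →ₗ[ℂ] LM m n M :=
  coM (S.b l q) + ∑ i : Fin m, creM (i, l) ∘ₗ annM (i, q)

/-- `x i l` on `Λ ⊗ M` -/
noncomputable def iX (_S : G0 m n M) (i : Fin m) (l : Fin n) : LM m n M →ₗ[ℂ] LM m n M :=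
  creM (i, l)

/-- `y j q` on `Λ ⊗ M` -/
noncomputable def iY (S : G0 m n M) (j : Fin m) (q : Fin n) : LM m n M →ₗ[ℂ] LM m n M :=
  ∑ i : Fin m, annM (i, q) ∘ₗ coM (S.a i j) - ∑ l : Fin n, annM (j, l) ∘ₗ coM (S.b l q) +
    ∑ i : Fin m, ∑ l : Fin n, creM (i, l) ∘ₗ annM (j, l) ∘ₗ annM (i, q)

end H95H
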