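import Pool.Agent.Lib.H95H.G19b

namespace H95H

variable {m n k : ℕ} {M : Type} [AddCommGroup M] [Module ℂ M]
  {M' : Type} [AddCommGroup M'] [Module ℂ M']

/-!
# Chunk G19: induced modules

* `G19_aa`, `G19_cc`, `G19_ac`, `G19_coann`, `G19_cocre`, `G19_coco`: the same statements for `M = Rg m n`
  are `C01_aa`, .. in `C01a.lean`, `C01b.lean`; port the proofs (they use nothing about the
  coefficients; `import Pool.Agent.Lib.H95H.C01b` is allowed if you want to quote sign lemmas).
* `G19_span`: by induction on `T.card` all `Pi.single T w` are in `N`: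
  `creM a (Pi.single (T.erase a) w) = sgn a T • Pi.single T w` for `a ∈ T`; and every element of
  `LM m n M` is the sum of its `Pi.single T (c T)`.
* The relations. Put `E i j = ∑ l, cre (i,l) ann (j,l)`, `G l q = ∑ i, cre (i,l) ann (i,q)`. From `G19_ac`
  etc.: `[E i j, cre (p,l)] = δ_{jp} cre (i,l)`, `[E i j, ann (p,l)] = -δ_{ip} ann (j,l)`,
  `[G l q, cre (i,p)] = δ_{qp} cre (i,l)`, `[G l q, ann (i,p)] = -δ_{lp} ann (i,q)`, and `co` commutes
  with `ann`, `cre`. `G19_iax`, `G19_ibx`, `G19_ixx` are immediate.
  `G19_ixy`: `{cre (i,l), ∑_p ann (p,q) co (a p j)} = δ_{lq} co (a i j)`,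
  `{cre (i,l), - ∑_r ann (j,r) co (b r q)} = - δ_{ij} co (b l q)`,
  `{cre (i,l), ∑_{p,r} cre (p,r) ann (j,r) ann (p,q)} = δ_{lq} E i j - δ_{ij} G l q`.
  The others can be done with the following trick (or directly): let `T` be an operator on
  `LM m n M` that commutes or anticommutes with all `cre a` and vanishes on the range of `e0`; then
  `T = 0` (`G19_span` for the kernel). Take `T = [a i j, a p l] - ..` (`iaa`), `ibb`, `iab`
  (they commute with `cre` by `iax`, `ibx`; on `e0 w` they follow from the relations of `S`),
  `T = [a i j, y p l] + δ_{ip} y j l` (`iay`, anticommutes with `cre` by `ixy`, `iax`, `iaa`, `iab`),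
  `iby`, and `T = {y, y'}` (`iyy`, commutes with `cre` by `ixy`, `iay`, `iby`). Note `ann a (e0 w) = 0`,
  so `y (e0 w) = 0`, `a i j (e0 w) = e0 (S.a i j w)`, `b l q (e0 w) = e0 (S.b l q w)`.
* `G19_univ`: for `T = {a_1, .., a_r}` in reading order let `x_T = x_{a_1} .. x_{a_r}` on `M'`, and
  `φ z = ∑_T x_T (f (z T))`. Then `φ (cre_a z) = x_a (φ z)` (anticommutation of the `x`; for `a ∈ T`,
  `x_a x_T = 0`). The set of `z` with `φ (a i j z) = a i j (φ z)` for all `i j`, and the same for `b` and
  `y`, contains the range of `e0` and is stable under `cre`: so it is everything (`G19_span`).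
-/

theorem g19c_one (a b c : Fin m × Fin n) (v : LM m n M) :
    creM a (annM b (creM c v)) - creM c (creM a (annM b v)) = if b = c then creM a v else 0 := by
  have h1 := G19_ac b c v
  have h2 : annM b (creM c v) = (if b = c then v else 0) - creM c (annM b v) := by
    rw [← h1]; abel
  have h3 := G19_cc a c (annM b v)
  have h4 : creM a (creM c (annM b v)) = - creM c (creM a (annM b v)) := by
    rw [← add_eq_zero_iff_eq_neg]; exact h3
  rw [h2, map_sub, h4]
  by_cases hbc : b = c
  · simp [hbc]
  · simp [hbc]

theorem g19c_one' (_a b c : Fin m × Fin n) (v : LM m n M) :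
    creM c (annM b v) + annM b (creM c v) = if b = c then v else 0 := by
  rw [← G19_ac b c v]; abel

theorem g19c_two (a b c d : Fin m × Fin n) (v : LM m n M) :
    creM c (creM a (annM b (annM d v))) + creM a (annM b (annM d (creM c v))) =
      (if d = c then creM a (annM b v) else 0) - (if b = c then creM a (annM d v) else 0) := by
  have h2 : annM d (creM c v) = (if d = c then v else 0) - creM c (annM d v) := by
    rw [← G19_ac d c v]; abel
  have h3 : annM b (creM c (annM d v)) = (if b = c then annM d v else 0) -
      creM c (annM b (annM d v)) := by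
    rw [← G19_ac b c (annM d v)]; abel
  have h5 : creM a (creM c (annM b (annM d v))) = - creM c (creM a (annM b (annM d v))) := by
    rw [← add_eq_zero_iff_eq_neg]; exact G19_cc a c _
  rw [h2, map_sub, h3, map_sub, map_sub, h5]
  by_cases hdc : d = c <;> by_cases hbc : b = c <;> simp [hdc, hbc]

theorem G19_iax (S : G0 m n M) (i j p : Fin m) (l : Fin n) (v) :
    iA S i j (iX S p l v) - iX S p l (iA S i j v) = if j = p then iX S i l v else 0 := by
  have e : iA S i j (iX S p l v) - iX S p l (iA S i j v) =
      ∑ x : Fin n, (creM (i, x) (annM (j, x) (creM (p, l) v)) -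
        creM (p, l) (creM (i, x) (annM (j, x) v))) := by
    simp only [iA, iX, LinearMap.add_apply, LinearMap.sum_apply, LinearMap.comp_apply, map_add,
      map_sum, Finset.sum_sub_distrib, G19_cocre]
    abel
  rw [e, Finset.sum_congr rfl fun x _ => g19c_one (i, x) (j, x) (p, l) v]
  by_cases h : j = p
  · subst h
    rw [Finset.sum_eq_single l]
    · simp [iX]
    · intro x _ hx
      rw [if_neg]
      intro h'
      exact hx (Prod.ext_iff.mp h').2
    · intro h'; exact absurd (Finset.mem_univ _) h'
  · rw [if_neg h]
    refine Finset.sum_eq_zero fun x _ => ?_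
    rw [if_neg]
    intro h'
    exact h (Prod.ext_iff.mp h').1

theorem G19_ibx (S : G0 m n M) (l q : Fin n) (i : Fin m) (p : Fin n) (v) :
    iB S l q (iX S i p v) - iX S i p (iB S l q v) = if q = p then iX S i l v else 0 := by
  have e : iB S l q (iX S i p v) - iX S i p (iB S l q v) =
      ∑ x : Fin m, (creM (x, l) (annM (x, q) (creM (i, p) v)) -
        creM (i, p) (creM (x, l) (annM (x, q) v))) := by
    simp only [iB, iX, LinearMap.add_apply, LinearMap.sum_apply, LinearMap.comp_apply, map_add,
      map_sum, Finset.sum_sub_distrib, G19_cocre]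
    abel
  rw [e, Finset.sum_congr rfl fun x _ => g19c_one (x, l) (x, q) (i, p) v]
  by_cases h : q = p
  · subst h
    rw [Finset.sum_eq_single i]
    · simp [iX]
    · intro x _ hx
      rw [if_neg]
      intro h'
      exact hx (Prod.ext_iff.mp h').1
    · intro h'; exact absurd (Finset.mem_univ _) h'
  · rw [if_neg h]
    refine Finset.sum_eq_zero fun x _ => ?_
    rw [if_neg]
    intro h'
    exact h (Prod.ext_iff.mp h').2

theorem G19_ixx (S : G0 m n M) (i : Fin m) (l : Fin n) (j : Fin m) (q : Fin n) (v) :
    iX S i l (iX S j q v) + iX S j q (iX S i l v) = 0 :=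
  G19_cc (i, l) (j, q) v

theorem G19_ixy (S : G0 m n M) (i : Fin m) (l : Fin n) (j : Fin m) (q : Fin n) (v) :
    iX S i l (iY S j q v) + iY S j q (iX S i l v) =
      (if l = q then iA S i j v else 0) - (if i = j then iB S l q v else 0) := by
  have e : iX S i l (iY S j q v) + iY S j q (iX S i l v) =
      ∑ p : Fin m, (creM (i, l) (annM (p, q) (coM (S.a p j) v)) +
        annM (p, q) (creM (i, l) (coM (S.a p j) v))) -
      ∑ r : Fin n, (creM (i, l) (annM (j, r) (coM (S.b r q) v)) +
        annM (j, r) (creM (i, l) (coM (S.b r q) v))) +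
      ∑ p : Fin m, ∑ r : Fin n, (creM (i, l) (creM (p, r) (annM (j, r) (annM (p, q) v))) +
        creM (p, r) (annM (j, r) (annM (p, q) (creM (i, l) v)))) := by
    simp only [iY, iX, LinearMap.add_apply, LinearMap.sub_apply, LinearMap.sum_apply,
      LinearMap.comp_apply, map_add, map_sub, map_sum, Finset.sum_add_distrib, G19_cocre]
    abel
  have e1 : ∑ p : Fin m, (creM (i, l) (annM (p, q) (coM (S.a p j) v)) +
        annM (p, q) (creM (i, l) (coM (S.a p j) v))) = if l = q then coM (S.a i j) v else 0 := by
    rw [Finset.sum_congr rfl fun p _ => g19c_one' (p, q) (p, q) (i, l) (coM (S.a p j) v)]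
    by_cases h : l = q
    · subst h
      rw [Finset.sum_eq_single i]
      · simp
      · intro x _ hx
        rw [if_neg]
        intro h'
        exact hx (Prod.ext_iff.mp h').1
      · intro h'; exact absurd (Finset.mem_univ _) h'
    · rw [if_neg h]
      refine Finset.sum_eq_zero fun x _ => ?_
      rw [if_neg]
      intro h'
      exact h (Prod.ext_iff.mp h').2.symm
  have e2 : ∑ r : Fin n, (creM (i, l) (annM (j, r) (coM (S.b r q) v)) +
        annM (j, r) (creM (i, l) (coM (S.b r q) v))) = if i = j then coM (S.b l q) v else 0 := by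
    rw [Finset.sum_congr rfl fun r _ => g19c_one' (j, r) (j, r) (i, l) (coM (S.b r q) v)]
    by_cases h : i = j
    · subst h
      rw [Finset.sum_eq_single l]
      · simp
      · intro x _ hx
        rw [if_neg]
        intro h'
        exact hx (Prod.ext_iff.mp h').2
      · intro h'; exact absurd (Finset.mem_univ _) h'
    · rw [if_neg h]
      refine Finset.sum_eq_zero fun x _ => ?_
      rw [if_neg]
      intro h'
      exact h (Prod.ext_iff.mp h').1.symm
  have e3 : ∑ p : Fin m, ∑ r : Fin n, (creM (i, l) (creM (p, r) (annM (j, r) (annM (p, q) v))) +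
        creM (p, r) (annM (j, r) (annM (p, q) (creM (i, l) v)))) =
      (if l = q then ∑ r : Fin n, creM (i, r) (annM (j, r) v) else 0) -
      (if i = j then ∑ p : Fin m, creM (p, l) (annM (p, q) v) else 0) := by
    rw [Finset.sum_congr rfl fun p _ => Finset.sum_congr rfl fun r _ =>
      g19c_two (p, r) (j, r) (i, l) (p, q) v]
    simp only [Finset.sum_sub_distrib]
    congr 1
    · by_cases h : l = q
      · subst h
        rw [if_pos rfl, Finset.sum_eq_single i]
        · simp
        · intro x _ hx
          refine Finset.sum_eq_zero fun r _ => ?_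
          rw [if_neg]
          intro h'
          exact hx (Prod.ext_iff.mp h').1
        · intro h'; exact absurd (Finset.mem_univ _) h'
      · rw [if_neg h]
        refine Finset.sum_eq_zero fun x _ => Finset.sum_eq_zero fun r _ => ?_
        rw [if_neg]
        intro h'
        exact h (Prod.ext_iff.mp h').2.symm
    · by_cases h : i = j
      · subst h
        rw [if_pos rfl]
        refine Finset.sum_congr rfl fun p _ => ?_
        rw [Finset.sum_eq_single l]
        · simp
        · intro x _ hx
          rw [if_neg]
          intro h'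
          exact hx (Prod.ext_iff.mp h').2
        · intro h'; exact absurd (Finset.mem_univ _) h'
      · rw [if_neg h]
        refine Finset.sum_eq_zero fun x _ => Finset.sum_eq_zero fun r _ => ?_
        rw [if_neg]
        intro h'
        exact h (Prod.ext_iff.mp h').1.symm
  rw [e, e1, e2, e3]
  simp only [iA, iB, LinearMap.add_apply, LinearMap.sum_apply, LinearMap.comp_apply]
  by_cases h1 : l = q <;> by_cases h2 : i = j <;> simp [h1, h2] <;> abel

end H95H
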