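import Pool.Agent.Lib.H95H.G19c

namespace H95H

variable {m n k : ℕ} {M : Type} [AddCommGroup M] [Module ℂ M]
  {M' : Type} [AddCommGroup M'] [Module ℂ M']

/-!
# Chunk G19: induced modules

* `G19_aa`, `G19_cc`, `G19_ac`, `G19_coann`, `G19_cocre`, `G19_coco`: the same statements for `M = Rg m n`
  are `C01_aa`, .. in `C01a.lean`, `C01b.lean`; port the proofs (they use nothing about the
  coefficients; `import Pool.Agent.Lib.H95H.C01b` is allowed if you want to quote sign lemmas).
* `G19_span`: by induction on `T.card` all `Pi.single T w` are in `N`: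
  `creM a (Pi.single (T.erase a) w) = sgn a T • Pi.single T w` for `a ∈ T`; and every element of
  `LM m n M` is the sum of its `Pi.single T (c T)`.
* The relations. Put `E i j = ∑ l, cre (i,l) ann (j,l)`, `G l q = ∑ i, cre (i,l) ann (i,q)`. From `G19_ac`
  etc.: `[E i j, cre (p,l)] = δ_{jp} cre (i,l)`, `[E i j, ann (p,l)] = -δ_{ip} ann (j,l)`,
  `[G l q, cre (i,p)] = δ_{qp} cre (i,l)`, `[G l q, ann (i,p)] = -δ_{lp} ann (i,q)`, and `co` commutes
  with `ann`, `cre`. `G19_iax`, `G19_ibx`, `G19_ixx` are immediate.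
  `G19_ixy`: `{cre (i,l), ∑_p ann (p,q) co (a p j)} = δ_{lq} co (a i j)`,
  `{cre (i,l), - ∑_r ann (j,r) co (b r q)} = - δ_{ij} co (b l q)`,
  `{cre (i,l), ∑_{p,r} cre (p,r) ann (j,r) ann (p,q)} = δ_{lq} E i j - δ_{ij} G l q`.
  The others can be done with the following trick (or directly): let `T` be an operator on
  `LM m n M` that commutes or anticommutes with all `cre a` and vanishes on the range of `e0`; then
  `T = 0` (`G19_span` for the kernel). Take `T = [a i j, a p l] - ..` (`iaa`), `ibb`, `iab`
  (they commute with `cre` by `iax`, `ibx`; on `e0 w` they follow from the relations of `S`),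
  `T = [a i j, y p l] + δ_{ip} y j l` (`iay`, anticommutes with `cre` by `ixy`, `iax`, `iaa`, `iab`),
  `iby`, and `T = {y, y'}` (`iyy`, commutes with `cre` by `ixy`, `iay`, `iby`). Note `ann a (e0 w) = 0`,
  so `y (e0 w) = 0`, `a i j (e0 w) = e0 (S.a i j w)`, `b l q (e0 w) = e0 (S.b l q w)`.
* `G19_univ`: for `T = {a_1, .., a_r}` in reading order let `x_T = x_{a_1} .. x_{a_r}` on `M'`, and
  `φ z = ∑_T x_T (f (z T))`. Then `φ (cre_a z) = x_a (φ z)` (anticommutation of the `x`; for `a ∈ T`,
  `x_a x_T = 0`). The set of `z` with `φ (a i j z) = a i j (φ z)` for all `i j`, and the same for `b` and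
  `y`, contains the range of `e0` and is stable under `cre`: so it is everything (`G19_span`).
-/

theorem g19d_zero (T : LM m n M →ₗ[ℂ] LM m n M) (h0 : ∀ w, T (e0 m n M w) = 0)
    (hx : ∀ a v, T v = 0 → T (creM a v) = 0) (v : LM m n M) : T v = 0 := by
  have h := G19_span (LinearMap.ker T) (fun w => by rw [LinearMap.mem_ker]; exact h0 w)
    (fun a v hv => by rw [LinearMap.mem_ker] at hv ⊢; exact hx a v hv)
  have : v ∈ LinearMap.ker T := by rw [h]; exact Submodule.mem_top
  rwa [LinearMap.mem_ker] at this

theorem g19d_co0 (φ : M →ₗ[ℂ] M) (w : M) : coM (m := m) (n := n) φ (e0 m n M w) = e0 m n M (φ w) := by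
  funext T
  show φ ((e0 m n M w) T) = (e0 m n M (φ w)) T
  unfold e0
  by_cases h : T = ∅
  · subst h; simp
  · simp [LinearMap.single_apply, h]

theorem g19d_A0 (S : G0 m n M) (i j : Fin m) (w : M) :
    iA S i j (e0 m n M w) = e0 m n M (S.a i j w) := by
  simp only [iA, LinearMap.add_apply, LinearMap.sum_apply, LinearMap.comp_apply, G19_ann0, map_zero,
    Finset.sum_const_zero, add_zero, g19d_co0]

theorem g19d_B0 (S : G0 m n M) (i j : Fin n) (w : M) :
    iB S i j (e0 m n M w) = e0 m n M (S.b i j w) := by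
  simp only [iB, LinearMap.add_apply, LinearMap.sum_apply, LinearMap.comp_apply, G19_ann0, map_zero,
    Finset.sum_const_zero, add_zero, g19d_co0]

theorem g19d_ax (S : G0 m n M) (i j p : Fin m) (l : Fin n) (v : LM m n M) :
    iA S i j (creM (p, l) v) = creM (p, l) (iA S i j v) +
      (if j = p then (1 : ℂ) else 0) • creM (i, l) v := by
  have := G19_iax S i j p l v
  simp only [iX] at this
  have e : (if j = p then (1 : ℂ) else 0) • creM (i, l) v = if j = p then creM (i, l) v else 0 := by
    split_ifs <;> simp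
  rw [e, ← this]; abel

theorem g19d_bx (S : G0 m n M) (l q : Fin n) (i : Fin m) (p : Fin n) (v : LM m n M) :
    iB S l q (creM (i, p) v) = creM (i, p) (iB S l q v) +
      (if q = p then (1 : ℂ) else 0) • creM (i, l) v := by
  have := G19_ibx S l q i p v
  simp only [iX] at this
  have e : (if q = p then (1 : ℂ) else 0) • creM (i, l) v = if q = p then creM (i, l) v else 0 := by
    split_ifs <;> simp
  rw [e, ← this]; abel

/-- `if` as a scalar -/
theorem g19d_ite {N : Type} [AddCommGroup N] [Module ℂ N] (P : Prop) [Decidable P] (x : N) :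
    (if P then x else 0) = (if P then (1 : ℂ) else 0) • x := by
  split_ifs <;> simp

theorem g19d_aaT (S : G0 m n M) (i j p l : Fin m) : ∀ v,
    (iA S i j ∘ₗ iA S p l - iA S p l ∘ₗ iA S i j -
      ((if j = p then (1 : ℂ) else 0) • iA S i l - (if l = i then (1 : ℂ) else 0) • iA S p j)) v = 0 := by
  refine g19d_zero _ ?_ ?_
  · intro w
    simp only [LinearMap.sub_apply, LinearMap.comp_apply, LinearMap.smul_apply, g19d_A0]
    have h := S.aa i j p l w
    rw [g19d_ite, g19d_ite (l = i)] at h
    have h2 := congrArg (e0 m n M) h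
    rw [map_sub, map_sub, map_smul, map_smul] at h2
    rw [h2]; abel
  · rintro ⟨c, d⟩ v hv
    simp only [LinearMap.sub_apply, LinearMap.comp_apply, LinearMap.smul_apply, g19d_ax, map_add,
      map_smul] at hv ⊢
    have hv2 := congrArg (creM (c, d)) hv
    simp only [map_sub, map_zero, map_smul] at hv2
    rw [← hv2]
    module

theorem G19_iaa (S : G0 m n M) (i j p l : Fin m) (v) :
    iA S i j (iA S p l v) - iA S p l (iA S i j v) =
      (if j = p then iA S i l v else 0) - (if l = i then iA S p j v else 0) := by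
  have h := g19d_aaT S i j p l v
  simp only [LinearMap.sub_apply, LinearMap.comp_apply, LinearMap.smul_apply] at h
  rw [g19d_ite (j = p), g19d_ite (l = i)]
  exact sub_eq_zero.mp h

theorem g19d_bbT (S : G0 m n M) (i j p l : Fin n) : ∀ v,
    (iB S i j ∘ₗ iB S p l - iB S p l ∘ₗ iB S i j -
      ((if j = p then (1 : ℂ) else 0) • iB S i l - (if l = i then (1 : ℂ) else 0) • iB S p j)) v = 0 := by
  refine g19d_zero _ ?_ ?_
  · intro w
    simp only [LinearMap.sub_apply, LinearMap.comp_apply, LinearMap.smul_apply, g19d_B0]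
    have h := S.bb i j p l w
    rw [g19d_ite, g19d_ite (l = i)] at h
    have h2 := congrArg (e0 m n M) h
    rw [map_sub, map_sub, map_smul, map_smul] at h2
    rw [h2]; abel
  · rintro ⟨c, d⟩ v hv
    simp only [LinearMap.sub_apply, LinearMap.comp_apply, LinearMap.smul_apply, g19d_bx, map_add,
      map_smul] at hv ⊢
    have hv2 := congrArg (creM (c, d)) hv
    simp only [map_sub, map_zero, map_smul] at hv2
    rw [← hv2]
    module

theorem G19_ibb (S : G0 m n M) (i j p l : Fin n) (v) :
    iB S i j (iB S p l v) - iB S p l (iB S i j v) =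
      (if j = p then iB S i l v else 0) - (if l = i then iB S p j v else 0) := by
  have h := g19d_bbT S i j p l v
  simp only [LinearMap.sub_apply, LinearMap.comp_apply, LinearMap.smul_apply] at h
  rw [g19d_ite (j = p), g19d_ite (l = i)]
  exact sub_eq_zero.mp h

theorem g19d_abT (S : G0 m n M) (i j : Fin m) (p l : Fin n) : ∀ v,
    (iA S i j ∘ₗ iB S p l - iB S p l ∘ₗ iA S i j) v = 0 := by
  refine g19d_zero _ ?_ ?_
  · intro w
    simp only [LinearMap.sub_apply, LinearMap.comp_apply, g19d_A0, g19d_B0]
    rw [S.ab, sub_self]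
  · rintro ⟨c, d⟩ v hv
    simp only [LinearMap.sub_apply, LinearMap.comp_apply, g19d_bx, g19d_ax, map_add,
      map_smul] at hv ⊢
    have hv2 := congrArg (creM (c, d)) hv
    simp only [map_sub, map_zero] at hv2
    rw [← hv2]
    module

theorem G19_iab (S : G0 m n M) (i j : Fin m) (p l : Fin n) (v) :
    iA S i j (iB S p l v) = iB S p l (iA S i j v) := by
  have h := g19d_abT S i j p l v
  simp only [LinearMap.sub_apply, LinearMap.comp_apply] at h
  exact sub_eq_zero.mp h

end H95H
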