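import Pool.Agent.Lib.H95H.G19d

namespace H95H

variable {m n k : ℕ} {M : Type} [AddCommGroup M] [Module ℂ M]
  {M' : Type} [AddCommGroup M'] [Module ℂ M']

/-!
# Chunk G19: induced modules

* `G19_aa`, `G19_cc`, `G19_ac`, `G19_coann`, `G19_cocre`, `G19_coco`: the same statements for `M = Rg m n`
  are `C01_aa`, .. in `C01a.lean`, `C01b.lean`; port the proofs (they use nothing about the
  coefficients; `import Pool.Agent.Lib.H95H.C01b` is allowed if you want to quote sign lemmas).
* `G19_span`: by induction on `T.card` all `Pi.single T w` are in `N`: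
  `creM a (Pi.single (T.erase a) w) = sgn a T • Pi.single T w` for `a ∈ T`; and every element of
  `LM m n M` is the sum of its `Pi.single T (c T)`.
* The relations. Put `E i j = ∑ l, cre (i,l) ann (j,l)`, `G l q = ∑ i, cre (i,l) ann (i,q)`. From `G19_ac`
  etc.: `[E i j, cre (p,l)] = δ_{jp} cre (i,l)`, `[E i j, ann (p,l)] = -δ_{ip} ann (j,l)`,
  `[G l q, cre (i,p)] = δ_{qp} cre (i,l)`, `[G l q, ann (i,p)] = -δ_{lp} ann (i,q)`, and `co` commutes
  with `ann`, `cre`. `G19_iax`, `G19_ibx`, `G19_ixx` are immediate.
  `G19_ixy`: `{cre (i,l), ∑_p ann (p,q) co (a p j)} = δ_{lq} co (a i j)`,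
  `{cre (i,l), - ∑_r ann (j,r) co (b r q)} = - δ_{ij} co (b l q)`,
  `{cre (i,l), ∑_{p,r} cre (p,r) ann (j,r) ann (p,q)} = δ_{lq} E i j - δ_{ij} G l q`.
  The others can be done with the following trick (or directly): let `T` be an operator on
  `LM m n M` that commutes or anticommutes with all `cre a` and vanishes on the range of `e0`; then
  `T = 0` (`G19_span` for the kernel). Take `T = [a i j, a p l] - ..` (`iaa`), `ibb`, `iab`
  (they commute with `cre` by `iax`, `ibx`; on `e0 w` they follow from the relations of `S`),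
  `T = [a i j, y p l] + δ_{ip} y j l` (`iay`, anticommutes with `cre` by `ixy`, `iax`, `iaa`, `iab`),
  `iby`, and `T = {y, y'}` (`iyy`, commutes with `cre` by `ixy`, `iay`, `iby`). Note `ann a (e0 w) = 0`,
  so `y (e0 w) = 0`, `a i j (e0 w) = e0 (S.a i j w)`, `b l q (e0 w) = e0 (S.b l q w)`.
* `G19_univ`: for `T = {a_1, .., a_r}` in reading order let `x_T = x_{a_1} .. x_{a_r}` on `M'`, and
  `φ z = ∑_T x_T (f (z T))`. Then `φ (cre_a z) = x_a (φ z)` (anticommutation of the `x`; for `a ∈ T`,
  `x_a x_T = 0`). The set of `z` with `φ (a i j z) = a i j (φ z)` for all `i j`, and the same for `b` and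
  `y`, contains the range of `e0` and is stable under `cre`: so it is everything (`G19_span`).
-/

theorem g19e_co_e0 (φ : M →ₗ[ℂ] M) (w : M) : coM φ (e0 m n M w) = e0 m n M (φ w) := by
  funext T
  show φ ((Pi.single (M := fun _ => M) ∅ w : LM m n M) T) = (Pi.single (M := fun _ => M) ∅ (φ w) : LM m n M) T
  by_cases h : T = ∅
  · subst h
    simp
  · simp [h]

theorem g19e_A0 (S : G0 m n M) (i j : Fin m) (w : M) : iA S i j (e0 m n M w) = e0 m n M (S.a i j w) := by
  simp [iA, G19_ann0, g19e_co_e0]

theorem g19e_B0 (S : G0 m n M) (l q : Fin n) (w : M) : iB S l q (e0 m n M w) = e0 m n M (S.b l q w) := by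
  simp [iB, G19_ann0, g19e_co_e0]

theorem g19e_Y0 (S : G0 m n M) (j : Fin m) (q : Fin n) (w : M) : iY S j q (e0 m n M w) = 0 := by
  simp [iY, G19_ann0, g19e_co_e0]

theorem g19e_YX (S : G0 m n M) (p r : Fin m) (l s : Fin n) (v) :
    iY S p l (iX S r s v) = -iX S r s (iY S p l v) + (if s = l then iA S r p v else 0)
      - (if r = p then iB S s l v else 0) := by
  have h := G19_ixy S r s p l v
  rw [add_sub_assoc, ← h]
  abel

theorem g19e_AX (S : G0 m n M) (i j p : Fin m) (l : Fin n) (v) :
    iA S i j (iX S p l v) = iX S p l (iA S i j v) + if j = p then iX S i l v else 0 := by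
  rw [← G19_iax S i j p l v]
  abel

theorem g19e_BX (S : G0 m n M) (l q : Fin n) (i : Fin m) (p : Fin n) (v) :
    iB S l q (iX S i p v) = iX S i p (iB S l q v) + if q = p then iX S i l v else 0 := by
  rw [← G19_ibx S l q i p v]
  abel

theorem g19e_AA (S : G0 m n M) (i j p l : Fin m) (v) :
    iA S i j (iA S p l v) = iA S p l (iA S i j v) +
      (if j = p then iA S i l v else 0) - (if l = i then iA S p j v else 0) := by
  rw [add_sub_assoc, ← G19_iaa S i j p l v]
  abel

theorem g19e_BB (S : G0 m n M) (i j p l : Fin n) (v) :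
    iB S i j (iB S p l v) = iB S p l (iB S i j v) +
      (if j = p then iB S i l v else 0) - (if l = i then iB S p j v else 0) := by
  rw [add_sub_assoc, ← G19_ibb S i j p l v]
  abel

theorem g19e_zero (T : LM m n M →ₗ[ℂ] LM m n M) (S : G0 m n M) (h0 : ∀ w, T (e0 m n M w) = 0)
    (hx : ∀ r s v, T v = 0 → T (iX S r s v) = 0) (v) : T v = 0 := by
  have h := G19_span (LinearMap.ker T) (fun w => LinearMap.mem_ker.mpr (h0 w))
    (fun a v hv => LinearMap.mem_ker.mpr (hx a.1 a.2 v (LinearMap.mem_ker.mp hv)))
  have h1 : v ∈ LinearMap.ker T := by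
    rw [h]
    exact Submodule.mem_top
  exact h1

theorem g19e_ite {V W : Type} [AddCommGroup V] [Module ℂ V] [AddCommGroup W] [Module ℂ W] (T : V →ₗ[ℂ] W)
    (c : Prop) [Decidable c] (v : V) : T (if c then v else 0) = if c then T v else 0 := by
  split_ifs <;> simp

theorem G19_iay (S : G0 m n M) (i j p : Fin m) (l : Fin n) (v) :
    iA S i j (iY S p l v) - iY S p l (iA S i j v) = -(if i = p then iY S j l v else 0) := by
  have h := g19e_zero (iA S i j ∘ₗ iY S p l - iY S p l ∘ₗ iA S i j + if i = p then iY S j l else 0) S ?_ ?_ v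
  · by_cases hip : i = p
    · simp only [hip, if_true, LinearMap.add_apply, LinearMap.sub_apply, LinearMap.comp_apply] at h ⊢
      exact eq_neg_of_add_eq_zero_left h
    · simp only [hip, if_false, LinearMap.sub_apply, LinearMap.comp_apply, add_zero, neg_zero] at h ⊢
      exact h
  · intro w
    by_cases hip : i = p
    · simp [hip, g19e_A0, g19e_Y0]
    · simp [hip, g19e_A0, g19e_Y0]
  · intro r s v hv
    have hv1 := congrArg (iX S r s) hv
    have e : (if i = p then iY S j l else 0) (iX S r s v) = if i = p then iY S j l (iX S r s v) else 0 := by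
      split_ifs <;> simp
    have e' : (if i = p then iY S j l else 0) v = if i = p then iY S j l v else 0 := by
      split_ifs <;> simp
    simp only [LinearMap.add_apply, LinearMap.sub_apply, LinearMap.comp_apply, e', map_add, map_sub, map_zero,
      g19e_ite] at hv1
    simp only [LinearMap.add_apply, LinearMap.sub_apply, LinearMap.comp_apply, e, g19e_YX, g19e_AX, map_add,
      map_sub, map_neg, g19e_ite, g19e_AA S i j r p v, G19_iab S i j s l v]
    split_ifs at hv1 ⊢ <;> subst_vars <;>
      first
        | (exfalso; first | exact absurd rfl ‹_› | exact absurd rfl (by assumption) | tauto)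
        | linear_combination (norm := module) -(1 : ℂ) • hv1

theorem G19_iby (S : G0 m n M) (l q : Fin n) (i : Fin m) (p : Fin n) (v) :
    iB S l q (iY S i p v) - iY S i p (iB S l q v) = -(if l = p then iY S i q v else 0) := by
  have h := g19e_zero (iB S l q ∘ₗ iY S i p - iY S i p ∘ₗ iB S l q + if l = p then iY S i q else 0) S ?_ ?_ v
  · by_cases hip : l = p
    · simp only [hip, if_true, LinearMap.add_apply, LinearMap.sub_apply, LinearMap.comp_apply] at h ⊢
      exact eq_neg_of_add_eq_zero_left h
    · simp only [hip, if_false, LinearMap.sub_apply, LinearMap.comp_apply, add_zero, neg_zero] at h ⊢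
      exact h
  · intro w
    by_cases hip : l = p
    · simp [hip, g19e_B0, g19e_Y0]
    · simp [hip, g19e_B0, g19e_Y0]
  · intro r s v hv
    have hv1 := congrArg (iX S r s) hv
    have e : (if l = p then iY S i q else 0) (iX S r s v) = if l = p then iY S i q (iX S r s v) else 0 := by
      split_ifs <;> simp
    have e' : (if l = p then iY S i q else 0) v = if l = p then iY S i q v else 0 := by
      split_ifs <;> simp
    simp only [LinearMap.add_apply, LinearMap.sub_apply, LinearMap.comp_apply, e', map_add, map_sub, map_zero,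
      g19e_ite] at hv1
    simp only [LinearMap.add_apply, LinearMap.sub_apply, LinearMap.comp_apply, e, g19e_YX, g19e_BX, map_add,
      map_sub, map_neg, g19e_ite, g19e_BB S l q s p v, ← G19_iab S r i l q v]
    split_ifs at hv1 ⊢ <;> subst_vars <;>
      first
        | (exfalso; first | exact absurd rfl ‹_› | exact absurd rfl (by assumption) | tauto)
        | linear_combination (norm := module) -(1 : ℂ) • hv1

theorem g19e_YA (S : G0 m n M) (i j p : Fin m) (l : Fin n) (v) :
    iY S p l (iA S i j v) = iA S i j (iY S p l v) + if i = p then iY S j l v else 0 := by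
  rw [← neg_neg (if i = p then iY S j l v else 0), ← G19_iay S i j p l v]
  abel

theorem g19e_YB (S : G0 m n M) (l q : Fin n) (i : Fin m) (p : Fin n) (v) :
    iY S i p (iB S l q v) = iB S l q (iY S i p v) + if l = p then iY S i q v else 0 := by
  rw [← neg_neg (if l = p then iY S i q v else 0), ← G19_iby S l q i p v]
  abel

theorem G19_iyy (S : G0 m n M) (i : Fin m) (l : Fin n) (j : Fin m) (q : Fin n) (v) :
    iY S i l (iY S j q v) + iY S j q (iY S i l v) = 0 := by
  have h := g19e_zero (iY S i l ∘ₗ iY S j q + iY S j q ∘ₗ iY S i l) S ?_ ?_ v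
  · exact h
  · intro w
    simp [g19e_Y0]
  · intro r s v hv
    have hv1 := congrArg (iX S r s) hv
    simp only [LinearMap.add_apply, LinearMap.comp_apply, map_add, map_zero] at hv1
    simp only [LinearMap.add_apply, LinearMap.comp_apply, g19e_YX, g19e_YA, g19e_YB, map_add,
      map_sub, map_neg, g19e_ite]
    split_ifs at hv1 ⊢ <;> subst_vars <;>
      first
        | (exfalso; first | exact absurd rfl ‹_› | exact absurd rfl (by assumption) | tauto)
        | linear_combination (norm := module) (1 : ℂ) • hv1

/-- the module induced from a `gl_m × gl_n` module on which `y` acts by zero -/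
noncomputable def G0.ind (S : G0 m n M) : GM m n (LM m n M) where
  a := iA S
  b := iB S
  x := iX S
  y := iY S
  aa := G19_iaa S
  bb := G19_ibb S
  ab := G19_iab S
  ax := G19_iax S
  bx := G19_ibx S
  ay := G19_iay S
  by' := G19_iby S
  xx := G19_ixx S
  yy := G19_iyy S
  xy := G19_ixy S

end H95H
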