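import Pool.Agent.Lib.H95H.G19e

namespace H95H

variable {m n k : ℕ} {M : Type} [AddCommGroup M] [Module ℂ M]
  {M' : Type} [AddCommGroup M'] [Module ℂ M']

/-!
# Chunk G19: induced modules

* `G19_aa`, `G19_cc`, `G19_ac`, `G19_coann`, `G19_cocre`, `G19_coco`: the same statements for `M = Rg m n`
  are `C01_aa`, .. in `C01a.lean`, `C01b.lean`; port the proofs (they use nothing about the
  coefficients; `import Pool.Agent.Lib.H95H.C01b` is allowed if you want to quote sign lemmas).
* `G19_span`: by induction on `T.card` all `Pi.single T w` are in `N`: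
  `creM a (Pi.single (T.erase a) w) = sgn a T • Pi.single T w` for `a ∈ T`; and every element of
  `LM m n M` is the sum of its `Pi.single T (c T)`.
* The relations. Put `E i j = ∑ l, cre (i,l) ann (j,l)`, `G l q = ∑ i, cre (i,l) ann (i,q)`. From `G19_ac`
  etc.: `[E i j, cre (p,l)] = δ_{jp} cre (i,l)`, `[E i j, ann (p,l)] = -δ_{ip} ann (j,l)`,
  `[G l q, cre (i,p)] = δ_{qp} cre (i,l)`, `[G l q, ann (i,p)] = -δ_{lp} ann (i,q)`, and `co` commutes
  with `ann`, `cre`. `G19_iax`, `G19_ibx`, `G19_ixx` are immediate.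
  `G19_ixy`: `{cre (i,l), ∑_p ann (p,q) co (a p j)} = δ_{lq} co (a i j)`,
  `{cre (i,l), - ∑_r ann (j,r) co (b r q)} = - δ_{ij} co (b l q)`,
  `{cre (i,l), ∑_{p,r} cre (p,r) ann (j,r) ann (p,q)} = δ_{lq} E i j - δ_{ij} G l q`.
  The others can be done with the following trick (or directly): let `T` be an operator on
  `LM m n M` that commutes or anticommutes with all `cre a` and vanishes on the range of `e0`; then
  `T = 0` (`G19_span` for the kernel). Take `T = [a i j, a p l] - ..` (`iaa`), `ibb`, `iab`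
  (they commute with `cre` by `iax`, `ibx`; on `e0 w` they follow from the relations of `S`),
  `T = [a i j, y p l] + δ_{ip} y j l` (`iay`, anticommutes with `cre` by `ixy`, `iax`, `iaa`, `iab`),
  `iby`, and `T = {y, y'}` (`iyy`, commutes with `cre` by `ixy`, `iay`, `iby`). Note `ann a (e0 w) = 0`,
  so `y (e0 w) = 0`, `a i j (e0 w) = e0 (S.a i j w)`, `b l q (e0 w) = e0 (S.b l q w)`.
* `G19_univ`: for `T = {a_1, .., a_r}` in reading order let `x_T = x_{a_1} .. x_{a_r}` on `M'`, and
  `φ z = ∑_T x_T (f (z T))`. Then `φ (cre_a z) = x_a (φ z)` (anticommutation of the `x`; for `a ∈ T`,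
  `x_a x_T = 0`). The set of `z` with `φ (a i j z) = a i j (φ z)` for all `i j`, and the same for `b` and
  `y`, contains the range of `e0` and is stable under `cre`: so it is everything (`G19_span`).
-/

open Classical in
/-- the factor of the ordered product at position `k` -/
noncomputable def g19f_D (S' : GM m n M') (T : Finset (Fin m × Fin n)) (k : ℕ) : M' →ₗ[ℂ] M' :=
  if h : ∃ a ∈ T, pos a = k then S'.x h.choose.1 h.choose.2 else LinearMap.id

/-- the ordered product of the `x a`, `a ∈ T`, `pos a < k` -/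
noncomputable def g19f_X (S' : GM m n M') (T : Finset (Fin m × Fin n)) : ℕ → (M' →ₗ[ℂ] M')
  | 0 => LinearMap.id
  | k + 1 => g19f_X S' T k ∘ₗ g19f_D S' T k

theorem g19f_inj {a b : Fin m × Fin n} (h : pos a = pos b) : a = b := by
  by_contra hne
  rcases c01a_pos hne with h1 | h1 <;> omega

theorem g19f_D_mem (S' : GM m n M') {T : Finset (Fin m × Fin n)} {a : Fin m × Fin n} (ha : a ∈ T) :
    g19f_D S' T (pos a) = S'.x a.1 a.2 := by
  have h : ∃ b ∈ T, pos b = pos a := ⟨a, ha, rfl⟩
  have h1 : h.choose = a := g19f_inj h.choose_spec.2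
  rw [g19f_D, dif_pos h, h1]

theorem g19f_D_not (S' : GM m n M') {T : Finset (Fin m × Fin n)} {k : ℕ} (h : ∀ a ∈ T, pos a ≠ k) :
    g19f_D S' T k = LinearMap.id := by
  rw [g19f_D, dif_neg]
  rintro ⟨a, ha, hk⟩
  exact h a ha hk

theorem g19f_D_ins (S' : GM m n M') {T : Finset (Fin m × Fin n)} {a : Fin m × Fin n} {k : ℕ} (hk : pos a ≠ k) :
    g19f_D S' (insert a T) k = g19f_D S' T k := by
  by_cases h : ∃ b ∈ T, pos b = k
  · obtain ⟨b, hb, rfl⟩ := h
    rw [g19f_D_mem S' hb, g19f_D_mem S' (Finset.mem_insert_of_mem hb)]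
  · push Not at h
    rw [g19f_D_not S' h, g19f_D_not S']
    intro b hb
    rcases Finset.mem_insert.mp hb with rfl | hb
    · exact hk
    · exact h b hb

theorem g19f_X_ins (S' : GM m n M') {T : Finset (Fin m × Fin n)} {a : Fin m × Fin n} {k : ℕ} (hk : k ≤ pos a) :
    g19f_X S' (insert a T) k = g19f_X S' T k := by
  induction k with
  | zero => rfl
  | succ k ih =>
    show g19f_X S' (insert a T) k ∘ₗ g19f_D S' (insert a T) k = g19f_X S' T k ∘ₗ g19f_D S' T k
    rw [ih (by omega), g19f_D_ins S' (by omega)]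

theorem g19f_anti (S' : GM m n M') (a b : Fin m × Fin n) (v : M') :
    S'.x a.1 a.2 (S'.x b.1 b.2 v) = -S'.x b.1 b.2 (S'.x a.1 a.2 v) :=
  eq_neg_of_add_eq_zero_left (S'.xx a.1 a.2 b.1 b.2 v)

theorem g19f_sq (S' : GM m n M') (a : Fin m × Fin n) (v : M') :
    S'.x a.1 a.2 (S'.x a.1 a.2 v) = 0 := by
  have h := S'.xx a.1 a.2 a.1 a.2 v
  rw [← two_smul ℂ] at h
  exact (smul_eq_zero.mp h).resolve_left two_ne_zero

theorem g19f_comm (S' : GM m n M') {T : Finset (Fin m × Fin n)} {a : Fin m × Fin n} {k : ℕ} (hk : k ≤ pos a) :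
    ∀ v, S'.x a.1 a.2 (g19f_X S' T k v)
      = (-1 : ℂ) ^ (T.filter (fun b => pos b < k)).card • g19f_X S' T k (S'.x a.1 a.2 v) := by
  induction k with
  | zero =>
    intro v
    simp [g19f_X]
  | succ k ih =>
    intro v
    show S'.x a.1 a.2 (g19f_X S' T k (g19f_D S' T k v)) = _ • g19f_X S' T k (g19f_D S' T k _)
    rw [ih (by omega)]
    by_cases h : ∃ b ∈ T, pos b = k
    · obtain ⟨b, hb, rfl⟩ := h
      have hc : (T.filter (fun c => pos c < pos b + 1)).card = (T.filter (fun c => pos c < pos b)).card + 1 := by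
        have h1 : T.filter (fun c => pos c < pos b + 1) = insert b (T.filter (fun c => pos c < pos b)) := by
          ext c
          simp only [Finset.mem_filter, Finset.mem_insert]
          constructor
          · rintro ⟨h2, h3⟩
            by_cases h4 : pos c = pos b
            · exact Or.inl (g19f_inj h4)
            · exact Or.inr ⟨h2, by omega⟩
          · rintro (rfl | ⟨h2, h3⟩)
            · exact ⟨hb, by omega⟩
            · exact ⟨h2, by omega⟩
        rw [h1, Finset.card_insert_of_notMem (by simp)]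
      rw [g19f_D_mem S' hb, hc, g19f_anti S' a b, map_neg, pow_succ]
      module
    · push Not at h
      have hc : (T.filter (fun c => pos c < k + 1)) = (T.filter (fun c => pos c < k)) := by
        ext c
        simp only [Finset.mem_filter]
        constructor
        · rintro ⟨h2, h3⟩
          have := h c h2
          exact ⟨h2, by omega⟩
        · rintro ⟨h2, h3⟩
          exact ⟨h2, by omega⟩
      rw [g19f_D_not S' h, hc]
      rfl

theorem g19f_ins (S' : GM m n M') {T : Finset (Fin m × Fin n)} {a : Fin m × Fin n} (ha : a ∉ T) {k : ℕ}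
    (hk : pos a < k) (v) :
    S'.x a.1 a.2 (g19f_X S' T k v) = sgn a T • g19f_X S' (insert a T) k v := by
  induction k generalizing v with
  | zero => omega
  | succ k ih =>
    show S'.x a.1 a.2 (g19f_X S' T k (g19f_D S' T k v))
      = sgn a T • g19f_X S' (insert a T) k (g19f_D S' (insert a T) k v)
    by_cases h : pos a = k
    · subst h
      rw [g19f_comm S' le_rfl, g19f_D_mem S' (Finset.mem_insert_self a T), g19f_X_ins S' le_rfl,
        g19f_D_not S' (fun b hb hne => ha (by rw [← g19f_inj hne]; exact hb))]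
      rfl
    · rw [ih (by omega), g19f_D_ins S' h]

theorem g19f_mem (S' : GM m n M') {T : Finset (Fin m × Fin n)} {a : Fin m × Fin n} (ha : a ∈ T) {k : ℕ}
    (hk : pos a < k) (v) :
    S'.x a.1 a.2 (g19f_X S' T k v) = 0 := by
  induction k generalizing v with
  | zero => omega
  | succ k ih =>
    show S'.x a.1 a.2 (g19f_X S' T k (g19f_D S' T k v)) = 0
    by_cases h : pos a = k
    · subst h
      rw [g19f_comm S' le_rfl, g19f_D_mem S' ha, g19f_sq, map_zero, smul_zero]
    · exact ih (by omega) _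

theorem g19f_X_empty (S' : GM m n M') (k : ℕ) (v) : g19f_X S' ∅ k v = v := by
  induction k with
  | zero => rfl
  | succ k ih =>
    show g19f_X S' ∅ k (g19f_D S' ∅ k v) = v
    rw [g19f_D_not S' (by simp)]
    exact ih

theorem g19f_pos_lt (a : Fin m × Fin n) : pos a < m * n := by
  have h1 := a.1.2
  have h2 := a.2.2
  show a.1.1 * n + a.2.1 < m * n
  have h3 : (a.1.1 + 1) * n ≤ m * n := Nat.mul_le_mul_right n h1
  rw [add_mul, one_mul] at h3
  omega

/-- the map -/
noncomputable def g19f_phi (S' : GM m n M') (f : M →ₗ[ℂ] M') : LM m n M →ₗ[ℂ] M' :=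
  ∑ T : Finset (Fin m × Fin n), g19f_X S' T (m * n) ∘ₗ f ∘ₗ LinearMap.proj T

theorem g19f_phi_apply (S' : GM m n M') (f : M →ₗ[ℂ] M') (z : LM m n M) :
    g19f_phi S' f z = ∑ T : Finset (Fin m × Fin n), g19f_X S' T (m * n) (f (z T)) := by
  simp [g19f_phi, LinearMap.sum_apply]

theorem g19f_phi_e0 (S' : GM m n M') (f : M →ₗ[ℂ] M') (w : M) : g19f_phi S' f (e0 m n M w) = f w := by
  rw [g19f_phi_apply, Finset.sum_eq_single ∅]
  · have h : (e0 m n M w) ∅ = w := by
      show (Pi.single (M := fun _ => M) ∅ w : LM m n M) ∅ = w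
      simp
    rw [h, g19f_X_empty]
  · intro T _ hT
    have h : (e0 m n M w) T = 0 := by
      show (Pi.single (M := fun _ => M) ∅ w : LM m n M) T = 0
      simp [hT]
    rw [h, map_zero, map_zero]
  · simp

theorem g19f_phi_X (S' : GM m n M') (f : M →ₗ[ℂ] M') (a : Fin m × Fin n) (z : LM m n M) :
    g19f_phi S' f (creM a z) = S'.x a.1 a.2 (g19f_phi S' f z) := by
  rw [g19f_phi_apply, g19f_phi_apply, map_sum]
  have e1 : ∀ T : Finset (Fin m × Fin n), g19f_X S' T (m * n) (f ((creM a z) T))
      = if a ∈ T then sgn a T • g19f_X S' T (m * n) (f (z (T.erase a))) else 0 := by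
    intro T
    show g19f_X S' T (m * n) (f (if a ∈ T then sgn a T • z (T.erase a) else 0)) = _
    by_cases h : a ∈ T
    · rw [if_pos h, if_pos h, map_smul, map_smul]
    · rw [if_neg h, if_neg h, map_zero, map_zero]
  have e2 : ∀ T : Finset (Fin m × Fin n), S'.x a.1 a.2 (g19f_X S' T (m * n) (f (z T)))
      = if a ∉ T then sgn a T • g19f_X S' (insert a T) (m * n) (f (z T)) else 0 := by
    intro T
    by_cases h : a ∈ T
    · rw [if_neg (not_not.mpr h), g19f_mem S' h (g19f_pos_lt a)]
    · rw [if_pos h, g19f_ins S' h (g19f_pos_lt a)]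
  rw [Finset.sum_congr rfl fun T _ => e1 T, Finset.sum_congr rfl fun T _ => e2 T,
    ← Finset.sum_filter, ← Finset.sum_filter]
  refine Finset.sum_nbij' (fun T => T.erase a) (fun T => insert a T) ?_ ?_ ?_ ?_ ?_
  · intro T hT
    simp
  · intro T hT
    simp
  · intro T hT
    exact Finset.insert_erase (Finset.mem_filter.mp hT).2
  · intro T hT
    exact Finset.erase_insert (Finset.mem_filter.mp hT).2
  · intro T hT
    have ha := (Finset.mem_filter.mp hT).2
    have h1 : sgn a (T.erase a) = sgn a T := by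
      rw [c01a_era a a T ha, if_neg (lt_irrefl _), one_mul]
    show _ = sgn a (T.erase a) • g19f_X S' (insert a (T.erase a)) (m * n) (f (z (T.erase a)))
    rw [h1, Finset.insert_erase ha]

theorem g19f_zero (T : LM m n M →ₗ[ℂ] M') (h0 : ∀ w, T (e0 m n M w) = 0)
    (hx : ∀ a v, T v = 0 → T (creM a v) = 0) (v) : T v = 0 := by
  have h := G19_span (LinearMap.ker T) (fun w => LinearMap.mem_ker.mpr (h0 w))
    (fun a v hv => LinearMap.mem_ker.mpr (hx a v (LinearMap.mem_ker.mp hv)))
  have h1 : v ∈ LinearMap.ker T := by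
    rw [h]
    exact Submodule.mem_top
  exact h1

theorem G19_univ (S : G0 m n M) (S' : GM m n M') (f : M →ₗ[ℂ] M')
    (ha : ∀ i j v, f (S.a i j v) = S'.a i j (f v)) (hb : ∀ i j v, f (S.b i j v) = S'.b i j (f v))
    (hy : ∀ i l v, S'.y i l (f v) = 0) :
    ∃ φ : LM m n M →ₗ[ℂ] M', GHom S.ind S' φ ∧ ∀ w, φ (e0 m n M w) = f w := by
  set φ := g19f_phi S' f with hφ
  have hX : ∀ r s v, φ (iX S r s v) = S'.x r s (φ v) := fun r s v => g19f_phi_X S' f (r, s) v
  have h0 : ∀ w, φ (e0 m n M w) = f w := g19f_phi_e0 S' f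
  have hA : ∀ i j v, φ (iA S i j v) = S'.a i j (φ v) := by
    intro i j v
    have h := g19f_zero (φ ∘ₗ iA S i j - S'.a i j ∘ₗ φ) ?_ ?_ v
    · exact sub_eq_zero.mp h
    · intro w
      show φ (iA S i j (e0 m n M w)) - S'.a i j (φ (e0 m n M w)) = 0
      rw [g19e_A0, h0, h0, ha, sub_self]
    · rintro ⟨r, s⟩ v hv
      have hv1 : φ (iA S i j v) - S'.a i j (φ v) = 0 := hv
      have e := S'.ax i j r s (φ v)
      have e2 := hX i s v
      have hv2 := congrArg (S'.x r s) hv1
      rw [map_sub, map_zero] at hv2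
      show φ (iA S i j (iX S r s v)) - S'.a i j (φ (iX S r s v)) = 0
      rw [g19e_AX, map_add, hX, hX, g19e_ite]
      split_ifs at e ⊢
      · rw [e2]
        linear_combination (norm := module) hv2 - e
      · linear_combination (norm := module) hv2 - e
  have hB : ∀ l q v, φ (iB S l q v) = S'.b l q (φ v) := by
    intro l q v
    have h := g19f_zero (φ ∘ₗ iB S l q - S'.b l q ∘ₗ φ) ?_ ?_ v
    · exact sub_eq_zero.mp h
    · intro w
      show φ (iB S l q (e0 m n M w)) - S'.b l q (φ (e0 m n M w)) = 0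
      rw [g19e_B0, h0, h0, hb, sub_self]
    · rintro ⟨r, s⟩ v hv
      have hv1 : φ (iB S l q v) - S'.b l q (φ v) = 0 := hv
      have e := S'.bx l q r s (φ v)
      have e2 := hX r l v
      have hv2 := congrArg (S'.x r s) hv1
      rw [map_sub, map_zero] at hv2
      show φ (iB S l q (iX S r s v)) - S'.b l q (φ (iX S r s v)) = 0
      rw [g19e_BX, map_add, hX, hX, g19e_ite]
      split_ifs at e ⊢
      · rw [e2]
        linear_combination (norm := module) hv2 - e
      · linear_combination (norm := module) hv2 - e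
  have hY : ∀ p l v, φ (iY S p l v) = S'.y p l (φ v) := by
    intro p l v
    have h := g19f_zero (φ ∘ₗ iY S p l - S'.y p l ∘ₗ φ) ?_ ?_ v
    · exact sub_eq_zero.mp h
    · intro w
      show φ (iY S p l (e0 m n M w)) - S'.y p l (φ (e0 m n M w)) = 0
      rw [g19e_Y0, h0, hy, map_zero, sub_self]
    · rintro ⟨r, s⟩ v hv
      have hv1 : φ (iY S p l v) - S'.y p l (φ v) = 0 := hv
      have e := S'.xy r s p l (φ v)
      have hv2 := congrArg (S'.x r s) hv1
      rw [map_sub, map_zero] at hv2
      show φ (iY S p l (iX S r s v)) - S'.y p l (φ (iX S r s v)) = 0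
      rw [g19e_YX, map_sub, map_add, map_neg, hX, hX, g19e_ite, g19e_ite, hA, hB]
      split_ifs at e ⊢ <;> linear_combination (norm := module) -(1 : ℂ) • hv2 - e
  exact ⟨φ, ⟨hA, hB, hX, hY⟩, h0⟩

end H95H
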