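import Pool.Agent.Lib.H95H.G19e

namespace H95H

variable {m n k : ℕ} {M : Type} [AddCommGroup M] [Module ℂ M]
  {M' : Type} [AddCommGroup M'] [Module ℂ M']

/-- restriction of a `gl_m × gl_n` module to a stable subspace -/
def G0.res (S : G0 m n M) (W : Submodule ℂ M) (hW : S.Stab W) : G0 m n ↥W where
  a i j := (S.a i j).restrict (hW.1 i j)
  b i j := (S.b i j).restrict (hW.2 i j)
  aa i j k l v := by
    apply Subtype.ext
    have := S.aa i j k l v
    by_cases h1 : j = k <;> by_cases h2 : l = i <;> simpa [h1, h2] using this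
  bb i j k l v := by
    apply Subtype.ext
    have := S.bb i j k l v
    by_cases h1 : j = k <;> by_cases h2 : l = i <;> simpa [h1, h2] using this
  ab i j k l v := by
    apply Subtype.ext
    simpa using S.ab i j k l v

/-- exchange of the two factors -/
def G0.swp (S : G0 m n M) : G0 n m M where
  a := S.b
  b := S.a
  aa := S.bb
  bb := S.aa
  ab i j k l v := (S.ab k l i j v).symm

/-!
# Chunk G20: induced modules are Kac modules

* `G20_good`: the form `∑_T h (z T) (z' T)`; `annM a` and `creM a` are adjoint (the subsets containing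
  `a` correspond to those which do not, with the same sign `sgn a T`), so `a i j` and `a j i` are
  adjoint. If `w` has weight `(α, β)` then `Pi.single T w` has weight
  `(α + ∑_{a ∈ T} e_{a.1}, β + ∑_{a ∈ T} e_{a.2})`.
* `G20_finrank`: `Finset (Fin m × Fin n)` has `2 ^ (m * n)` elements.
* `G20_low`: `W₀ = range e0`: `a i j (e0 w) = e0 (S.a i j w)` (`G19_ann0`); it is irreducible because
  `e0` is injective and intertwines; `y (e0 w) = 0`; generation is `G19_span`.
* `G20_kac`: `G20_low`, `G20_finrank`.
* `G20_res`: submodules of `W` correspond to submodules of `⊤ ≤ ↥W`; restriction of the form;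
  `G05_comp` for the weight spaces.
* `G20_cover`: take the lowest part `W` of `S`, and `φ` from `G19_univ` with `f` the inclusion of `W`. Its
  range contains `W` and is stable under `x`, so it is `⊤`.
* `G20_iso`: a Kac module is isomorphic to the module induced from its lowest part: `φ` is
  surjective between spaces of the same finite dimension.
-/

theorem g20_mem (a : Fin m × Fin n) (T : Finset (Fin m × Fin n)) : sgn a (T.erase a) = sgn a T := by
  unfold sgn
  congr 2
  ext b
  simp only [Finset.mem_filter, Finset.mem_erase]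
  constructor
  · rintro ⟨⟨_, h2⟩, h3⟩
    exact ⟨h2, h3⟩
  · rintro ⟨h2, h3⟩
    refine ⟨⟨?_, h2⟩, h3⟩
    rintro rfl
    exact lt_irrefl _ h3

theorem g20_sq (a : Fin m × Fin n) (T : Finset (Fin m × Fin n)) : sgn a T * sgn a T = 1 := by
  unfold sgn
  rw [← pow_add, ← two_mul, pow_mul]
  norm_num

theorem g20_conj (a : Fin m × Fin n) (T : Finset (Fin m × Fin n)) :
    starRingEnd ℂ (sgn a T) = sgn a T := by
  unfold sgn
  rw [map_pow, map_neg, map_one]

theorem g20_ann (a : Fin m × Fin n) (c : LM m n M) (T : Finset (Fin m × Fin n)) :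
    annM a c T = if a ∈ T then 0 else sgn a T • c (insert a T) := rfl

theorem g20_cre (a : Fin m × Fin n) (c : LM m n M) (T : Finset (Fin m × Fin n)) :
    creM a c T = if a ∈ T then sgn a T • c (T.erase a) else 0 := rfl

/-- a hermitian form: the second variable -/
theorem g20_smul_right {h : M → M → ℂ} (hh : Herm h) (r : ℂ) (x y : M) :
    h x (r • y) = starRingEnd ℂ r * h x y := by
  rw [hh.symm (r • y) x, hh.smul, map_mul, ← hh.symm]

theorem g20_zero_left {h : M → M → ℂ} (hh : Herm h) (y : M) : h 0 y = 0 := by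
  have := hh.smul 0 0 y
  rwa [zero_smul, zero_mul] at this

theorem g20_zero_right {h : M → M → ℂ} (hh : Herm h) (y : M) : h y 0 = 0 := by
  rw [hh.symm 0 y, g20_zero_left hh, map_zero]

theorem g20_add_right {h : M → M → ℂ} (hh : Herm h) (x y z : M) :
    h x (y + z) = h x y + h x z := by
  rw [hh.symm (y + z) x, hh.add, map_add, ← hh.symm, ← hh.symm]

/-- the form on the induced module -/
noncomputable def g20H (m n : ℕ) (h : M → M → ℂ) (z z' : LM m n M) : ℂ := ∑ T, h (z T) (z' T)

theorem g20_herm {h : M → M → ℂ} (hh : Herm h) : Herm (g20H m n h) := by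
  refine ⟨fun x y z => ?_, fun c x y => ?_, fun x y => ?_, fun x hx => ?_⟩
  · unfold g20H
    rw [← Finset.sum_add_distrib]
    exact Finset.sum_congr rfl fun T _ => hh.add _ _ _
  · unfold g20H
    rw [Finset.mul_sum]
    exact Finset.sum_congr rfl fun T _ => hh.smul _ _ _
  · unfold g20H
    rw [map_sum]
    exact Finset.sum_congr rfl fun T _ => hh.symm _ _
  · unfold g20H
    rw [Complex.re_sum]
    obtain ⟨T, hT⟩ := Function.ne_iff.1 hx
    refine Finset.sum_pos' (fun T' _ => ?_) ⟨T, Finset.mem_univ T, hh.pos _ hT⟩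
    by_cases h0 : x T' = 0
    · rw [h0, g20_zero_left hh]
      exact le_refl _
    · exact (hh.pos _ h0).le

theorem g20_adj {h : M → M → ℂ} (hh : Herm h) (a : Fin m × Fin n) (u v : LM m n M) :
    g20H m n h (annM a u) v = g20H m n h u (creM a v) := by
  classical
  unfold g20H
  have e1 : ∑ T, h (annM a u T) (v T) =
      ∑ T ∈ Finset.univ.filter (fun T => a ∉ T), sgn a T * h (u (insert a T)) (v T) := by
    rw [Finset.sum_filter]
    refine Finset.sum_congr rfl fun T _ => ?_
    rw [g20_ann]
    by_cases hT : a ∈ T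
    · rw [if_pos hT, if_neg (not_not.2 hT), g20_zero_left hh]
    · rw [if_neg hT, if_pos hT, hh.smul]
  have e2 : ∑ T, h (u T) (creM a v T) =
      ∑ T ∈ Finset.univ.filter (fun T => a ∈ T), sgn a T * h (u T) (v (T.erase a)) := by
    rw [Finset.sum_filter]
    refine Finset.sum_congr rfl fun T _ => ?_
    rw [g20_cre]
    by_cases hT : a ∈ T
    · rw [if_pos hT, if_pos hT, g20_smul_right hh, g20_conj]
    · rw [if_neg hT, if_neg hT, g20_zero_right hh]
  rw [e1, e2]
  refine Finset.sum_bij' (fun T _ => insert a T) (fun T _ => T.erase a) ?_ ?_ ?_ ?_ ?_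
  · intro T hT
    simp
  · intro T hT
    simp
  · intro T hT
    rw [Finset.mem_filter] at hT
    exact Finset.erase_insert hT.2
  · intro T hT
    rw [Finset.mem_filter] at hT
    exact Finset.insert_erase hT.2
  · intro T hT
    rw [Finset.mem_filter] at hT
    have h1 : (insert a T).erase a = T := Finset.erase_insert hT.2
    have h2 := g20_mem a (insert a T)
    rw [h1] at h2
    rw [h1, h2]

theorem g20_adj' {h : M → M → ℂ} (hh : Herm h) (a : Fin m × Fin n) (u v : LM m n M) :
    g20H m n h (creM a u) v = g20H m n h u (annM a v) := by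
  have h1 := g20_herm (m := m) (n := n) hh
  rw [h1.symm, ← g20_adj hh, ← h1.symm]

theorem g20_co {h : M → M → ℂ} (φ ψ : M →ₗ[ℂ] M) (hφ : ∀ u v, h (φ u) v = h u (ψ v)) (u v : LM m n M) :
    g20H m n h (coM φ u) v = g20H m n h u (coM ψ v) :=
  Finset.sum_congr rfl fun T _ => hφ _ _

theorem g20_sum_left {h : M → M → ℂ} (hh : Herm h) {ι : Type*} (s : Finset ι) (f : ι → M) (y : M) :
    h (∑ i ∈ s, f i) y = ∑ i ∈ s, h (f i) y := by
  classical
  induction s using Finset.induction_on with
  | empty => rw [Finset.sum_empty, Finset.sum_empty, g20_zero_left hh]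
  | insert i s his ih => rw [Finset.sum_insert his, Finset.sum_insert his, hh.add, ih]

theorem g20_sum_right {h : M → M → ℂ} (hh : Herm h) {ι : Type*} (s : Finset ι) (f : ι → M) (y : M) :
    h y (∑ i ∈ s, f i) = ∑ i ∈ s, h y (f i) := by
  classical
  induction s using Finset.induction_on with
  | empty => rw [Finset.sum_empty, Finset.sum_empty, g20_zero_right hh]
  | insert i s his ih => rw [Finset.sum_insert his, Finset.sum_insert his, g20_add_right hh, ih]

theorem g20_ca_single (a : Fin m × Fin n) (T : Finset (Fin m × Fin n)) (w : M) :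
    creM a (annM a (Pi.single T w)) = (if a ∈ T then (1 : ℂ) else 0) • (Pi.single T w : LM m n M) := by
  classical
  funext T'
  rw [g20_cre, Pi.smul_apply]
  by_cases hT' : a ∈ T'
  · rw [if_pos hT', g20_ann, if_neg (Finset.notMem_erase a T'), Finset.insert_erase hT', g20_mem, ← mul_smul, g20_sq, one_smul]
    by_cases hTT : T' = T
    · subst hTT
      rw [if_pos hT', one_smul]
    · rw [Pi.single_eq_of_ne hTT, smul_zero]
  · rw [if_neg hT']
    by_cases hTT : T' = T
    · subst hTT
      rw [if_neg hT', zero_smul]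
    · rw [Pi.single_eq_of_ne hTT, smul_zero]

theorem g20_co_single (φ : M →ₗ[ℂ] M) (T : Finset (Fin m × Fin n)) (w : M) :
    coM φ (Pi.single T w) = (Pi.single T (φ w) : LM m n M) := by
  funext T'
  show φ ((Pi.single T w : LM m n M) T') = _
  by_cases hTT : T' = T
  · subst hTT
    rw [Pi.single_eq_same, Pi.single_eq_same]
  · rw [Pi.single_eq_of_ne hTT, Pi.single_eq_of_ne hTT, map_zero]

theorem g20_wsp (S : G0 m n M) {α : Fin m → ℤ} {β : Fin n → ℤ} {w : M} (hw : w ∈ S.Wsp α β)
    (T : Finset (Fin m × Fin n)) : (Pi.single T w : LM m n M) ∈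
      S.ind.toG0.Wsp (fun i => α i + ∑ l : Fin n, if (i, l) ∈ T then 1 else 0)
        (fun l => β l + ∑ i : Fin m, if (i, l) ∈ T then 1 else 0) := by
  refine ⟨fun i => ?_, fun l => ?_⟩
  · show iA S i i (Pi.single T w) = _
    unfold iA
    rw [LinearMap.add_apply, LinearMap.sum_apply, g20_co_single, hw.1 i]
    simp only [LinearMap.comp_apply, g20_ca_single]
    rw [← Finset.sum_smul, Pi.single_smul', ← add_smul]
    congr 1
    push_cast
    simp
  · show iB S l l (Pi.single T w) = _
    unfold iB
    rw [LinearMap.add_apply, LinearMap.sum_apply, g20_co_single, hw.2 l]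
    simp only [LinearMap.comp_apply, g20_ca_single]
    rw [← Finset.sum_smul, Pi.single_smul', ← add_smul]
    congr 1
    push_cast
    simp

theorem G20_good (S : G0 m n M) (hS : S.Good) : S.ind.toG0.Good := by
  classical
  obtain ⟨⟨h, hh, ha, hb⟩, hW⟩ := hS
  have hH := g20_herm (m := m) (n := n) hh
  refine ⟨⟨g20H m n h, hH, fun i j u v => ?_, fun i j u v => ?_⟩, ?_⟩
  · show g20H m n h (iA S i j u) v = g20H m n h u (iA S j i v)
    unfold iA
    rw [LinearMap.add_apply, LinearMap.add_apply, hH.add, g20_add_right hH, LinearMap.sum_apply, LinearMap.sum_apply,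
      g20_sum_left hH, g20_sum_right hH, g20_co _ _ (ha i j)]
    congr 1
    refine Finset.sum_congr rfl fun l _ => ?_
    rw [LinearMap.comp_apply, LinearMap.comp_apply, g20_adj' hh, g20_adj hh]
  · show g20H m n h (iB S i j u) v = g20H m n h u (iB S j i v)
    unfold iB
    rw [LinearMap.add_apply, LinearMap.add_apply, hH.add, g20_add_right hH, LinearMap.sum_apply, LinearMap.sum_apply,
      g20_sum_left hH, g20_sum_right hH, g20_co _ _ (hb i j)]
    congr 1
    refine Finset.sum_congr rfl fun l _ => ?_
    rw [LinearMap.comp_apply, LinearMap.comp_apply, g20_adj' hh, g20_adj hh]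
  · rw [eq_top_iff]
    intro z _
    have hz : z = ∑ T, Pi.single T (z T) := (Finset.univ_sum_single z).symm
    rw [hz]
    refine Submodule.sum_mem _ fun T _ => ?_
    have h1 : z T ∈ (⨆ α : Fin m → ℤ, ⨆ β : Fin n → ℤ, S.Wsp α β) := by
      rw [hW]
      exact Submodule.mem_top
    have h2 : (⨆ α : Fin m → ℤ, ⨆ β : Fin n → ℤ, S.Wsp α β) ≤
        (⨆ α : Fin m → ℤ, ⨆ β : Fin n → ℤ, S.ind.toG0.Wsp α β).comap (LinearMap.single ℂ (fun _ => M) T) := by
      refine iSup_le fun α => iSup_le fun β => fun w hw => ?_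
      rw [Submodule.mem_comap]
      exact Submodule.mem_iSup_of_mem _ (Submodule.mem_iSup_of_mem _ (g20_wsp S hw T))
    exact h2 h1

end H95H
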