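import Pool.Agent.Lib.H95H.G19e

namespace H95H

variable {m n k : ℕ} {M : Type} [AddCommGroup M] [Module ℂ M]
  {M' : Type} [AddCommGroup M'] [Module ℂ M']

/-!
# Chunk G20: induced modules are Kac modules

* `G20_good`: the form `∑_T h (z T) (z' T)`; `annM a` and `creM a` are adjoint (the subsets containing
  `a` correspond to those which do not, with the same sign `sgn a T`), so `a i j` and `a j i` are
  adjoint. If `w` has weight `(α, β)` then `Pi.single T w` has weight
  `(α + ∑_{a ∈ T} e_{a.1}, β + ∑_{a ∈ T} e_{a.2})`.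
* `G20_finrank`: `Finset (Fin m × Fin n)` has `2 ^ (m * n)` elements.
* `G20_low`: `W₀ = range e0`: `a i j (e0 w) = e0 (S.a i j w)` (`G19_ann0`); it is irreducible because
  `e0` is injective and intertwines; `y (e0 w) = 0`; generation is `G19_span`.
* `G20_kac`: `G20_low`, `G20_finrank`.
* `G20_res`: submodules of `W` correspond to submodules of `⊤ ≤ ↥W`; restriction of the form;
  `G05_comp` for the weight spaces.
* `G20_cover`: take the lowest part `W` of `S`, and `φ` from `G19_univ` with `f` the inclusion of `W`. Its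
  range contains `W` and is stable under `x`, so it is `⊤`.
* `G20_iso`: a Kac module is isomorphic to the module induced from its lowest part: `φ` is
  surjective between spaces of the same finite dimension.
-/

theorem g20b_co (φ : M →ₗ[ℂ] M) (w : M) : coM φ (e0 m n M w) = e0 m n M (φ w) := by
  funext T
  show φ (e0 m n M w T) = e0 m n M (φ w) T
  by_cases h : T = ∅
  · subst h
    simp [e0]
  · simp [e0, Pi.single_apply, h]

theorem g20b_A (S : G0 m n M) (i j : Fin m) (w : M) :
    iA S i j (e0 m n M w) = e0 m n M (S.a i j w) := by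
  simp [iA, g20b_co, G19_ann0]

theorem g20b_B (S : G0 m n M) (l q : Fin n) (w : M) :
    iB S l q (e0 m n M w) = e0 m n M (S.b l q w) := by
  simp [iB, g20b_co, G19_ann0]

theorem g20b_Y (S : G0 m n M) (j : Fin m) (q : Fin n) (w : M) :
    iY S j q (e0 m n M w) = 0 := by
  simp [iY, g20b_co, G19_ann0]

theorem g20b_inj (w : M) (h : e0 m n M w = 0) : w = 0 := by
  have := congrFun h ∅
  simpa [e0] using this

theorem G20_finrank (m n : ℕ) (M : Type) [AddCommGroup M] [Module ℂ M] [Module.Finite ℂ M] :
    Module.Finite ℂ (LM m n M) ∧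
    Module.finrank ℂ (LM m n M) = 2 ^ (m * n) * Module.finrank ℂ M := by
  refine ⟨inferInstance, ?_⟩
  rw [Module.finrank_pi_fintype, Finset.sum_const, Finset.card_univ, Fintype.card_finset,
    Fintype.card_prod, Fintype.card_fin, Fintype.card_fin, smul_eq_mul]

theorem G20_low (S : G0 m n M) (α : Fin m → ℤ) (β : Fin n → ℤ) (hI : S.Irr α β ⊤) :
    S.ind.Low α β (LinearMap.range (e0 m n M)) := by
  refine ⟨⟨⟨?_, ?_⟩, ?_, ?_⟩, ?_, ?_⟩
  · rintro i j _ ⟨w, rfl⟩
    exact ⟨S.a i j w, (g20b_A S i j w).symm⟩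
  · rintro i j _ ⟨w, rfl⟩
    exact ⟨S.b i j w, (g20b_B S i j w).symm⟩
  · obtain ⟨v, -, hv, ⟨h1, h2⟩, h3, h4⟩ := hI.hw
    refine ⟨e0 m n M v, ⟨v, rfl⟩, fun h => hv (g20b_inj v h), ⟨⟨fun i => ?_, fun l => ?_⟩, ?_, ?_⟩⟩
    · show iA S i i (e0 m n M v) = _
      rw [g20b_A, h1 i, map_smul]
    · show iB S l l (e0 m n M v) = _
      rw [g20b_B, h2 l, map_smul]
    · intro i j hij
      show iA S i j (e0 m n M v) = _
      rw [g20b_A, h3 i j hij, map_zero]
    · intro i j hij
      show iB S i j (e0 m n M v) = _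
      rw [g20b_B, h4 i j hij, map_zero]
  · intro W' hle hst
    have hst2 : S.Stab (W'.comap (e0 m n M)) := by
      refine ⟨fun i j v hv => ?_, fun i j v hv => ?_⟩
      · have := hst.1 i j _ hv
        rw [Submodule.mem_comap, ← g20b_A]
        exact this
      · have := hst.2 i j _ hv
        rw [Submodule.mem_comap, ← g20b_B]
        exact this
    rcases hI.irr _ le_top hst2 with h | h
    · left
      rw [eq_bot_iff]
      intro z hz
      obtain ⟨w, rfl⟩ := hle hz
      have : w ∈ W'.comap (e0 m n M) := hz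
      rw [h, Submodule.mem_bot] at this
      rw [this, map_zero]
      exact Submodule.zero_mem _
    · right
      apply le_antisymm hle
      rintro _ ⟨w, rfl⟩
      have : w ∈ W'.comap (e0 m n M) := by
        rw [h]
        exact Submodule.mem_top
      exact this
  · rintro i l _ ⟨w, rfl⟩
    exact g20b_Y S i l w
  · intro N hle hx
    exact G19_span N (fun w => hle ⟨w, rfl⟩) fun a v hv => hx a.1 a.2 v hv

theorem G20_kac (S : G0 (n + k) n M) (hfin : Module.Finite ℂ M) (γ δ : Fin n → ℕ)
    (hI : S.Irr (pz k γ) (nz δ) ⊤) : S.ind.isKac γ δ := by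
  refine ⟨_, G20_low S _ _ hI, ?_⟩
  rw [(G20_finrank (n + k) n M).2, LinearMap.finrank_range_of_inj]
  intro v w h
  rw [← sub_eq_zero]
  apply g20b_inj (m := n + k) (n := n)
  rw [map_sub, h, sub_self]

end H95H
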