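import Pool.Agent.Lib.H95H.G05b
import Pool.Agent.Lib.H95H.G19f
import Pool.Agent.Lib.H95H.G20a
import Pool.Agent.Lib.H95H.G20b

namespace H95H

variable {m n k : ℕ} {M : Type} [AddCommGroup M] [Module ℂ M]
  {M' : Type} [AddCommGroup M'] [Module ℂ M']

/-!
# Chunk G20: induced modules are Kac modules

* `G20_good`: the form `∑_T h (z T) (z' T)`; `annM a` and `creM a` are adjoint (the subsets containing
  `a` correspond to those which do not, with the same sign `sgn a T`), so `a i j` and `a j i` are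
  adjoint. If `w` has weight `(α, β)` then `Pi.single T w` has weight
  `(α + ∑_{a ∈ T} e_{a.1}, β + ∑_{a ∈ T} e_{a.2})`.
* `G20_finrank`: `Finset (Fin m × Fin n)` has `2 ^ (m * n)` elements.
* `G20_low`: `W₀ = range e0`: `a i j (e0 w) = e0 (S.a i j w)` (`G19_ann0`); it is irreducible because
  `e0` is injective and intertwines; `y (e0 w) = 0`; generation is `G19_span`.
* `G20_kac`: `G20_low`, `G20_finrank`.
* `G20_res`: submodules of `W` correspond to submodules of `⊤ ≤ ↥W`; restriction of the form;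
  `G05_comp` for the weight spaces.
* `G20_cover`: take the lowest part `W` of `S`, and `φ` from `G19_univ` with `f` the inclusion of `W`. Its
  range contains `W` and is stable under `x`, so it is `⊤`.
* `G20_iso`: a Kac module is isomorphic to the module induced from its lowest part: `φ` is
  surjective between spaces of the same finite dimension.
-/

theorem g20c_wmem (S : G0 m n M) (W : Submodule ℂ M) (hW : S.Stab W) (α : Fin m → ℤ) (β : Fin n → ℤ) (w : ↥W) :
    w ∈ (S.res W hW).Wsp α β ↔ (w : M) ∈ S.Wsp α β := by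
  constructor
  · rintro ⟨h1, h2⟩
    exact ⟨fun i => congrArg Subtype.val (h1 i), fun l => congrArg Subtype.val (h2 l)⟩
  · rintro ⟨h1, h2⟩
    exact ⟨fun i => Subtype.ext (h1 i), fun l => Subtype.ext (h2 l)⟩

theorem G20_res (S : G0 m n M) (hS : S.Good) (α : Fin m → ℤ) (β : Fin n → ℤ)
    (W : Submodule ℂ M) (hW : S.Irr α β W) :
    (S.res W hW.stab).Good ∧ (S.res W hW.stab).Irr α β ⊤ := by
  obtain ⟨⟨h, hh, hA, hB⟩, hSup⟩ := hS
  refine ⟨⟨⟨fun x y => h x.1 y.1, g05b_pull hh W.subtype fun x hx => Subtype.ext hx, fun i j u v => hA i j u.1 v.1,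
    fun i j u v => hB i j u.1 v.1⟩, ?_⟩, ⟨⟨fun _ _ _ _ => Submodule.mem_top, fun _ _ _ _ => Submodule.mem_top⟩, ?_, ?_⟩⟩
  · have h1 := G05_comp S ⟨⟨h, hh, hA, hB⟩, hSup⟩ W (fun i v hv => hW.stab.1 i i v hv) (fun l v hv => hW.stab.2 l l v hv)
    apply Submodule.map_injective_of_injective W.injective_subtype
    rw [Submodule.map_top, Submodule.range_subtype, Submodule.map_iSup]
    simp only [Submodule.map_iSup]
    conv_rhs => rw [h1]
    refine iSup_congr fun α => iSup_congr fun β => ?_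
    ext v
    constructor
    · rintro ⟨w, hw, rfl⟩
      exact ⟨w.2, (g20c_wmem S W hW.stab α β w).1 hw⟩
    · rintro ⟨h2, h3⟩
      exact ⟨⟨v, h2⟩, (g20c_wmem S W hW.stab α β ⟨v, h2⟩).2 h3, rfl⟩
  · obtain ⟨v, hvW, hv0, hv1, hv2, hv3⟩ := hW.hw
    refine ⟨⟨v, hvW⟩, Submodule.mem_top, fun h0 => hv0 (congrArg Subtype.val h0), ?_, ?_, ?_⟩
    · exact (g20c_wmem S W hW.stab α β ⟨v, hvW⟩).2 hv1
    · intro i j hij
      exact Subtype.ext (hv2 i j hij)
    · intro i j hij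
      exact Subtype.ext (hv3 i j hij)
  · intro W' _ hW'
    have h1 : S.Stab (W'.map W.subtype) := by
      refine ⟨?_, ?_⟩
      · rintro i j _ ⟨w, hw, rfl⟩
        exact ⟨_, hW'.1 i j w hw, rfl⟩
      · rintro i j _ ⟨w, hw, rfl⟩
        exact ⟨_, hW'.2 i j w hw, rfl⟩
    rcases hW.irr (W'.map W.subtype) (Submodule.map_subtype_le _ _) h1 with h2 | h2
    · left
      apply Submodule.map_injective_of_injective W.injective_subtype
      rw [h2, Submodule.map_bot]
    · right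
      apply Submodule.map_injective_of_injective W.injective_subtype
      rw [h2, Submodule.map_top, Submodule.range_subtype]

theorem g20c_cover (S : GM (n + k) n M) (hS : S.toG0.Good) (γ δ : Fin n → ℕ) (W : Submodule ℂ M)
    (hL : S.Low (pz k γ) (nz δ) W) :
    ∃ (hW : S.toG0.Stab W) (φ : LM (n + k) n ↥W →ₗ[ℂ] M),
      (S.toG0.res W hW).Good ∧ (S.toG0.res W hW).Irr (pz k γ) (nz δ) ⊤ ∧
      GHom (S.toG0.res W hW).ind S φ ∧ Function.Surjective φ ∧ W ≠ ⊥ := by
  obtain ⟨h1, h2⟩ := G20_res S.toG0 hS (pz k γ) (nz δ) W hL.irr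
  obtain ⟨φ, hφ, h0⟩ := G19_univ (S.toG0.res W hL.irr.stab) S W.subtype (fun _ _ _ => rfl) (fun _ _ _ => rfl)
    (fun i l v => hL.yW i l v.1 v.2)
  refine ⟨hL.irr.stab, φ, h1, h2, hφ, ?_, ?_⟩
  · rw [← LinearMap.range_eq_top]
    refine hL.gen _ ?_ ?_
    · intro w hw
      exact ⟨e0 (n + k) n ↥W ⟨w, hw⟩, h0 _⟩
    · rintro i l _ ⟨z, rfl⟩
      exact ⟨_, hφ.2.2.1 i l z⟩
  · obtain ⟨v, hvW, hv0, -⟩ := hL.irr.hw
    intro hb
    rw [hb] at hvW
    exact hv0 ((Submodule.mem_bot ℂ).1 hvW)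

theorem G20_cover (S : GM (n + k) n M) (hS : S.toG0.Good) (hfin : Module.Finite ℂ M)
    (γ δ : Fin n → ℕ) (hL : S.isLow γ δ) :
    ∃ (W : Submodule ℂ M) (hW : S.toG0.Stab W) (φ : LM (n + k) n ↥W →ₗ[ℂ] M),
      (S.toG0.res W hW).Good ∧ (S.toG0.res W hW).Irr (pz k γ) (nz δ) ⊤ ∧
      GHom (S.toG0.res W hW).ind S φ ∧ Function.Surjective φ ∧ W ≠ ⊥ := by
  obtain ⟨W, hW⟩ := hL
  exact ⟨W, g20c_cover S hS γ δ W hW⟩

theorem G20_iso (S : GM (n + k) n M) (hS : S.toG0.Good) (hfin : Module.Finite ℂ M)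
    (γ δ : Fin n → ℕ) (hL : S.isKac γ δ) :
    ∃ (W : Submodule ℂ M) (hW : S.toG0.Stab W) (φ : LM (n + k) n ↥W →ₗ[ℂ] M),
      (S.toG0.res W hW).Good ∧ (S.toG0.res W hW).Irr (pz k γ) (nz δ) ⊤ ∧
      GHom (S.toG0.res W hW).ind S φ ∧ Function.Bijective φ := by
  obtain ⟨W, hW, hdim⟩ := hL
  obtain ⟨hWs, φ, h1, h2, h3, h4, -⟩ := g20c_cover S hS γ δ W hW
  refine ⟨W, hWs, φ, h1, h2, h3, ?_, h4⟩
  have h5 := G20_finrank (n + k) n ↥W
  have h6 := h5.1
  have h7 : Module.finrank ℂ (LM (n + k) n ↥W) = Module.finrank ℂ M := by rw [h5.2, hdim]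
  exact (LinearMap.injective_iff_surjective_of_finrank_eq_finrank h7).2 h4

end H95H
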