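import Pool.Agent.Lib.H95H.G20a

namespace H95H

variable {m n k : ℕ} {M : Type} [AddCommGroup M] [Module ℂ M]
  {M' : Type} [AddCommGroup M'] [Module ℂ M']

/-!
# Chunk G21: the singular vector and the cap lemma

Situation: `γ₂ = γ + e_r`, `δ₂ = δ + e_s` antitone, and both new boxes have the same content: the bead
`r` of `γ` and the bead `s` of `δ` are at `t - 1` (`movA γ γ₂ t`, `movB δ₂ δ t`).

* `G21_sing`: let `W = ⊤ ≤ M` be irreducible for `S`. By `G11_F` the subspace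
  `E = EF S ⊤ (γ r - r + n)` of `Fin (n + k) → M` is irreducible for `S.fv` of highest weight
  `(pz γ + e_r, nz δ) = (pz γ₂, nz δ)`, and `tF S = γ r - r` on `E`. Now apply `G10_F` to the module
  `S.fv.swp : G0 n (n + k) (Fin (n + k) → M)`, its irreducible subspace `E` of highest weight
  `(nz δ, pz γ₂)` and the index `s`: there is `u : Fin n → (Fin (n + k) → M)`, `u ≠ 0`, with all `u q ∈ E`,
  a highest weight vector of weight `(nz δ₂, pz γ₂)` for `S.fv.swp.fv`, and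
  `tF (S.fv.swp) u = (δ s - s) • u`, i.e. `∑_q b q l (u q j) = (δ s - s) • u l j`. Put
  `U = ∑_{q, j} creM (j, q) (e0 (u q j))`; its value at `{(j, q)}` is `u q j` (the sign is `1`), so `U ≠ 0`.
  `z ↦ ∑_{q, j} creM (j, q) (e0 (z q j))` intertwines the operators of `S.fv.swp.fv` and of `S.ind`
  (`ax`, `bx`), so `U` is a highest weight vector of weight `(pz γ₂, nz δ₂)`. And
  `y p l U = ∑_{q,j} y p l (x j q (e0 (u q j))) = ∑_{q,j} (δ_{ql} a j p - δ_{jp} b q l) (e0 (u q j))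
   = e0 (∑_j a j p (u l j) - ∑_q b q l (u q p)) = e0 ((γ r - r) u l p - (δ s - s) u l p) = 0`.
* `G21_sub`: let `S` be a Kac module of weight `(γ, δ)`, `N` a submodule with lowest part `W₂` of weight
  `(γ₂, δ₂)`. Then `t ∉ bs δ`, so no `δ'` has `movB δ δ' t`, and `S.F t` is a Kac module of weight
  `(γ₂, δ)` (`G15_A`) with lowest part `W'`. `G10_G` for `W₂` and the index `s` gives a nonzero
  `w : Fin n → N`, highest weight vector of weight `(pz γ₂, nz δ)`, `tG w = t • w`, so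
  `(0, w) ∈ S.Ft t` (`G13_OmG`). By `G12_low` for `S.F t` it lies in `W'`. The subspace
  `P = {z ∈ Ft t | all entries in N}` is a submodule of `S.F t`; `P ⊓ W' ≠ ⊥`, so `W' ≤ P` (irreducible)
  and `P = ⊤` (`Low.gen`).
* `G21_zero`: `Fmap` of the projection is surjective (`G03_surj`) and it is zero by `G21_sub`.
* `G21_cap`: let `S` be simple with lowest part of weight `(γ, δ)`. By `G20_cover` it is a quotient, via
  `φ`, of `S₀ = (S.toG0.res W hW).ind`, a Kac module (`G20_kac`, `G20_good`). Let `U` be the singular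
  vector of `S₀` and `N = S₀.gen (S₀.toG0.low U)` (`G07_cyc`, `G12_stab`; `y` kills `low U`: the set of
  vectors killed by all `y` is stable under the even part); `N` is a submodule of `S₀` with
  `(S₀.res N).isLow γ₂ δ₂`. `φ(N)` is a submodule of `S`; it is `≠ ⊤`, because all weights `(α, β)` of
  `N` have `∑ β ≥ ∑ δ₂ > ∑ δ` (`G12_low`), so the highest weight vector of `S` is not in `φ(N)`
  (weights of the image are weights of `N`). So `φ(N) = ⊥`, `φ` factors through `S₀.quo N`, and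
  `S.Ft t` is the image of `(S₀.quo N).Ft t = ⊥` (`G21_zero`, `G03_surj`).
-/

theorem g21a_wsp (S : G0 m n M) (α : Fin m → ℤ) (β : Fin n → ℤ) : S.swp.Wsp β α = S.Wsp α β := by
  ext v
  constructor
  · rintro ⟨h1, h2⟩
    exact ⟨h2, h1⟩
  · rintro ⟨h1, h2⟩
    exact ⟨h2, h1⟩

theorem g21a_stab (S : G0 m n M) (W : Submodule ℂ M) : S.swp.Stab W ↔ S.Stab W := by
  constructor
  · rintro ⟨h1, h2⟩
    exact ⟨h2, h1⟩
  · rintro ⟨h1, h2⟩
    exact ⟨h2, h1⟩

theorem g21a_hw (S : G0 m n M) (α : Fin m → ℤ) (β : Fin n → ℤ) (v : M) : S.swp.HW β α v ↔ S.HW α β v := by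
  unfold G0.HW
  rw [g21a_wsp]
  constructor
  · rintro ⟨h1, h2, h3⟩
    exact ⟨h1, h3, h2⟩
  · rintro ⟨h1, h2, h3⟩
    exact ⟨h1, h3, h2⟩

theorem G21_swp (S : G0 m n M) (hS : S.Good) : S.swp.Good ∧
    (∀ α β v, S.swp.HW β α v ↔ S.HW α β v) ∧ ∀ α β W, S.swp.Irr β α W ↔ S.Irr α β W := by
  obtain ⟨⟨h, hh, hA, hB⟩, hSup⟩ := hS
  refine ⟨⟨⟨h, hh, hB, hA⟩, ?_⟩, fun α β v => g21a_hw S α β v, fun α β W => ⟨?_, ?_⟩⟩
  · rw [iSup_comm, ← hSup]
    refine iSup_congr fun α => iSup_congr fun β => ?_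
    exact g21a_wsp S α β
  · intro hI
    obtain ⟨v, h1, h2, h3⟩ := hI.hw
    exact ⟨(g21a_stab S W).1 hI.stab, ⟨v, h1, h2, (g21a_hw S α β v).1 h3⟩,
      fun W' h4 h5 => hI.irr W' h4 ((g21a_stab S W').2 h5)⟩
  · intro hI
    obtain ⟨v, h1, h2, h3⟩ := hI.hw
    exact ⟨(g21a_stab S W).2 hI.stab, ⟨v, h1, h2, (g21a_hw S α β v).2 h3⟩,
      fun W' h4 h5 => hI.irr W' h4 ((g21a_stab S W').1 h5)⟩

end H95H
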