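import Pool.Agent.Lib.H95H.G11a
import Pool.Agent.Lib.H95H.G15a
import Pool.Agent.Lib.H95H.G21a

namespace H95H

variable {m n k : ℕ} {M : Type} [AddCommGroup M] [Module ℂ M]
  {M' : Type} [AddCommGroup M'] [Module ℂ M']

/-!
# Chunk G21: the singular vector and the cap lemma

Situation: `γ₂ = γ + e_r`, `δ₂ = δ + e_s` antitone, and both new boxes have the same content: the bead
`r` of `γ` and the bead `s` of `δ` are at `t - 1` (`movA γ γ₂ t`, `movB δ₂ δ t`).

* `G21_sing`: let `W = ⊤ ≤ M` be irreducible for `S`. By `G11_F` the subspace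
  `E = EF S ⊤ (γ r - r + n)` of `Fin (n + k) → M` is irreducible for `S.fv` of highest weight
  `(pz γ + e_r, nz δ) = (pz γ₂, nz δ)`, and `tF S = γ r - r` on `E`. Now apply `G10_F` to the module
  `S.fv.swp : G0 n (n + k) (Fin (n + k) → M)`, its irreducible subspace `E` of highest weight
  `(nz δ, pz γ₂)` and the index `s`: there is `u : Fin n → (Fin (n + k) → M)`, `u ≠ 0`, with all `u q ∈ E`,
  a highest weight vector of weight `(nz δ₂, pz γ₂)` for `S.fv.swp.fv`, and
  `tF (S.fv.swp) u = (δ s - s) • u`, i.e. `∑_q b q l (u q j) = (δ s - s) • u l j`. Put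
  `U = ∑_{q, j} creM (j, q) (e0 (u q j))`; its value at `{(j, q)}` is `u q j` (the sign is `1`), so `U ≠ 0`.
  `z ↦ ∑_{q, j} creM (j, q) (e0 (z q j))` intertwines the operators of `S.fv.swp.fv` and of `S.ind`
  (`ax`, `bx`), so `U` is a highest weight vector of weight `(pz γ₂, nz δ₂)`. And
  `y p l U = ∑_{q,j} y p l (x j q (e0 (u q j))) = ∑_{q,j} (δ_{ql} a j p - δ_{jp} b q l) (e0 (u q j))
   = e0 (∑_j a j p (u l j) - ∑_q b q l (u q p)) = e0 ((γ r - r) u l p - (δ s - s) u l p) = 0`.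
* `G21_sub`: let `S` be a Kac module of weight `(γ, δ)`, `N` a submodule with lowest part `W₂` of weight
  `(γ₂, δ₂)`. Then `t ∉ bs δ`, so no `δ'` has `movB δ δ' t`, and `S.F t` is a Kac module of weight
  `(γ₂, δ)` (`G15_A`) with lowest part `W'`. `G10_G` for `W₂` and the index `s` gives a nonzero
  `w : Fin n → N`, highest weight vector of weight `(pz γ₂, nz δ)`, `tG w = t • w`, so
  `(0, w) ∈ S.Ft t` (`G13_OmG`). By `G12_low` for `S.F t` it lies in `W'`. The subspace
  `P = {z ∈ Ft t | all entries in N}` is a submodule of `S.F t`; `P ⊓ W' ≠ ⊥`, so `W' ≤ P` (irreducible)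
  and `P = ⊤` (`Low.gen`).
* `G21_zero`: `Fmap` of the projection is surjective (`G03_surj`) and it is zero by `G21_sub`.
* `G21_cap`: let `S` be simple with lowest part of weight `(γ, δ)`. By `G20_cover` it is a quotient, via
  `φ`, of `S₀ = (S.toG0.res W hW).ind`, a Kac module (`G20_kac`, `G20_good`). Let `U` be the singular
  vector of `S₀` and `N = S₀.gen (S₀.toG0.low U)` (`G07_cyc`, `G12_stab`; `y` kills `low U`: the set of
  vectors killed by all `y` is stable under the even part); `N` is a submodule of `S₀` with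
  `(S₀.res N).isLow γ₂ δ₂`. `φ(N)` is a submodule of `S`; it is `≠ ⊤`, because all weights `(α, β)` of
  `N` have `∑ β ≥ ∑ δ₂ > ∑ δ` (`G12_low`), so the highest weight vector of `S` is not in `φ(N)`
  (weights of the image are weights of `N`). So `φ(N) = ⊥`, `φ` factors through `S₀.quo N`, and
  `S.Ft t` is the image of `(S₀.quo N).Ft t = ⊥` (`G21_zero`, `G03_surj`).
-/

/-- the vector `∑ f_j ∧ g_q ⊗ z q j` -/
noncomputable def g21b_T (m n : ℕ) (M : Type) [AddCommGroup M] [Module ℂ M] (z : Fin n → Fin m → M) : LM m n M :=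
  ∑ q : Fin n, ∑ j : Fin m, creM (j, q) (e0 m n M (z q j))

theorem g21b_co (φ : M →ₗ[ℂ] M) (w : M) : coM φ (e0 m n M w) = e0 m n M (φ w) := by
  funext T
  show φ ((Pi.single ∅ w : LM m n M) T) = (Pi.single ∅ (φ w) : LM m n M) T
  by_cases h : T = ∅
  · subst h
    rw [Pi.single_eq_same, Pi.single_eq_same]
  · rw [Pi.single_eq_of_ne h, Pi.single_eq_of_ne h, map_zero]

theorem g21b_A (S : G0 m n M) (i j : Fin m) (w : M) : iA S i j (e0 m n M w) = e0 m n M (S.a i j w) := by
  unfold iA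
  rw [LinearMap.add_apply, g21b_co, LinearMap.sum_apply]
  rw [Finset.sum_eq_zero, add_zero]
  intro l _
  rw [LinearMap.comp_apply, G19_ann0, map_zero]

theorem g21b_B (S : G0 m n M) (i j : Fin n) (w : M) : iB S i j (e0 m n M w) = e0 m n M (S.b i j w) := by
  unfold iB
  rw [LinearMap.add_apply, g21b_co, LinearMap.sum_apply]
  rw [Finset.sum_eq_zero, add_zero]
  intro l _
  rw [LinearMap.comp_apply, G19_ann0, map_zero]

theorem g21b_Y (S : G0 m n M) (i : Fin m) (l : Fin n) (w : M) : iY S i l (e0 m n M w) = 0 := by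
  unfold iY
  rw [LinearMap.add_apply, LinearMap.sub_apply, LinearMap.sum_apply, LinearMap.sum_apply, LinearMap.sum_apply]
  rw [Finset.sum_eq_zero, Finset.sum_eq_zero, Finset.sum_eq_zero, sub_zero, add_zero]
  · intro p _
    rw [LinearMap.sum_apply, Finset.sum_eq_zero]
    intro q _
    rw [LinearMap.comp_apply, LinearMap.comp_apply, G19_ann0, map_zero, map_zero]
  · intro q _
    rw [LinearMap.comp_apply, g21b_co, G19_ann0]
  · intro q _
    rw [LinearMap.comp_apply, g21b_co, G19_ann0]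

theorem g21b_iA (S : G0 m n M) (i j : Fin m) (z : Fin n → Fin m → M) :
    iA S i j (g21b_T m n M z) = g21b_T m n M (S.fv.swp.fv.b i j z) := by
  unfold g21b_T
  rw [map_sum]
  refine Finset.sum_congr rfl fun q _ => ?_
  rw [map_sum]
  have h1 : ∀ p : Fin m, iA S i j (creM (p, q) (e0 m n M (z q p))) =
      creM (p, q) (e0 m n M (S.a i j (z q p))) + if j = p then creM (i, q) (e0 m n M (z q p)) else 0 := by
    intro p
    have h2 := G19_iax S i j p q (e0 m n M (z q p))
    rw [sub_eq_iff_eq_add] at h2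
    have h3 : iA S i j (creM (p, q) (e0 m n M (z q p))) = _ := h2
    rw [h3, g21b_A, add_comm]
    rfl
  have h4 : ∀ p : Fin m, creM (p, q) (e0 m n M (S.fv.swp.fv.b i j z q p)) =
      creM (p, q) (e0 m n M (S.a i j (z q p))) + if p = i then creM (i, q) (e0 m n M (z q j)) else 0 := by
    intro p
    have h5 : S.fv.swp.fv.b i j z q p = (if p = i then z q j else 0) + S.a i j (z q p) := rfl
    rw [h5, map_add, map_add, add_comm]
    by_cases h : p = i
    · rw [if_pos h, if_pos h, h]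
    · rw [if_neg h, if_neg h, map_zero, map_zero]
  rw [Finset.sum_congr rfl fun p _ => h1 p, Finset.sum_congr rfl fun p _ => h4 p, Finset.sum_add_distrib,
    Finset.sum_add_distrib, Finset.sum_ite_eq, Finset.sum_ite_eq', if_pos (Finset.mem_univ _), if_pos (Finset.mem_univ _)]

theorem g21b_iB (S : G0 m n M) (l p : Fin n) (z : Fin n → Fin m → M) :
    iB S l p (g21b_T m n M z) = g21b_T m n M (S.fv.swp.fv.a l p z) := by
  unfold g21b_T
  rw [Finset.sum_comm]
  conv_rhs => rw [Finset.sum_comm]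
  rw [map_sum]
  refine Finset.sum_congr rfl fun i _ => ?_
  rw [map_sum]
  have h1 : ∀ q : Fin n, iB S l p (creM (i, q) (e0 m n M (z q i))) =
      creM (i, q) (e0 m n M (S.b l p (z q i))) + if p = q then creM (i, l) (e0 m n M (z q i)) else 0 := by
    intro q
    have h2 := G19_ibx S l p i q (e0 m n M (z q i))
    rw [sub_eq_iff_eq_add] at h2
    have h3 : iB S l p (creM (i, q) (e0 m n M (z q i))) = _ := h2
    rw [h3, g21b_B, add_comm]
    rfl
  have h4 : ∀ q : Fin n, creM (i, q) (e0 m n M (S.fv.swp.fv.a l p z q i)) =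
      creM (i, q) (e0 m n M (S.b l p (z q i))) + if q = l then creM (i, l) (e0 m n M (z p i)) else 0 := by
    intro q
    have h5 : S.fv.swp.fv.a l p z q i = (if q = l then z p else 0) i + S.b l p (z q i) := rfl
    rw [h5, map_add, map_add, add_comm]
    by_cases h : q = l
    · rw [if_pos h, if_pos h, h]
    · rw [if_neg h, if_neg h, Pi.zero_apply, map_zero, map_zero]
  rw [Finset.sum_congr rfl fun q _ => h1 q, Finset.sum_congr rfl fun q _ => h4 q, Finset.sum_add_distrib,
    Finset.sum_add_distrib, Finset.sum_ite_eq, Finset.sum_ite_eq', if_pos (Finset.mem_univ _), if_pos (Finset.mem_univ _)]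

theorem g21b_smul (r : ℂ) (z : Fin n → Fin m → M) : g21b_T m n M (r • z) = r • g21b_T m n M z := by
  unfold g21b_T
  rw [Finset.smul_sum]
  refine Finset.sum_congr rfl fun q _ => ?_
  rw [Finset.smul_sum]
  refine Finset.sum_congr rfl fun j _ => ?_
  rw [Pi.smul_apply, Pi.smul_apply, map_smul, map_smul]

theorem g21b_zero : g21b_T m n M 0 = 0 := by
  have h := g21b_smul (M := M) (m := m) (n := n) 0 0
  rwa [zero_smul, zero_smul] at h

/-- the value at a singleton -/
theorem g21b_val (z : Fin n → Fin m → M) (j : Fin m) (q : Fin n) : g21b_T m n M z {(j, q)} = sgn (j, q) {(j, q)} • z q j := by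
  unfold g21b_T
  rw [Finset.sum_apply, Finset.sum_eq_single q]
  · rw [Finset.sum_apply, Finset.sum_eq_single j]
    · show (if (j, q) ∈ ({(j, q)} : Finset (Fin m × Fin n)) then
        sgn (j, q) {(j, q)} • (Pi.single ∅ (z q j) : LM m n M) (({(j, q)} : Finset (Fin m × Fin n)).erase (j, q)) else 0) = _
      rw [if_pos (Finset.mem_singleton_self _), Finset.erase_singleton, Pi.single_eq_same]
    · intro p _ hp
      show (if (p, q) ∈ ({(j, q)} : Finset (Fin m × Fin n)) then _ else 0) = _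
      rw [if_neg]
      intro h
      exact hp (congrArg Prod.fst (Finset.mem_singleton.1 h))
    · intro h
      exact absurd (Finset.mem_univ _) h
  · intro p _ hp
    rw [Finset.sum_apply, Finset.sum_eq_zero]
    intro i _
    show (if (i, p) ∈ ({(j, q)} : Finset (Fin m × Fin n)) then _ else 0) = _
    rw [if_neg]
    intro h
    exact hp (congrArg Prod.snd (Finset.mem_singleton.1 h))
  · intro h
    exact absurd (Finset.mem_univ _) h

theorem g21b_ne {z : Fin n → Fin m → M} (h : z ≠ 0) : g21b_T m n M z ≠ 0 := by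
  intro h0
  apply h
  funext q j
  have h1 := g21b_val z j q
  rw [h0] at h1
  have h2 : sgn (j, q) ({(j, q)} : Finset (Fin m × Fin n)) ≠ 0 := by
    unfold sgn
    exact pow_ne_zero _ (neg_ne_zero.2 one_ne_zero)
  have h3 : sgn (j, q) ({(j, q)} : Finset (Fin m × Fin n)) • z q j = 0 := h1.symm
  exact (smul_eq_zero.1 h3).resolve_left h2

theorem g21b_iY (S : G0 m n M) (p : Fin m) (l : Fin n) (z : Fin n → Fin m → M) :
    iY S p l (g21b_T m n M z) = e0 m n M (∑ j, S.a j p (z l j) - ∑ q, S.b q l (z q p)) := by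
  unfold g21b_T
  rw [map_sum]
  have h1 : ∀ (q : Fin n) (j : Fin m), iY S p l (creM (j, q) (e0 m n M (z q j))) =
      (if q = l then e0 m n M (S.a j p (z q j)) else 0) - if j = p then e0 m n M (S.b q l (z q j)) else 0 := by
    intro q j
    have h2 := G19_ixy S j q p l (e0 m n M (z q j))
    rw [g21b_Y, map_zero, zero_add, g21b_A, g21b_B] at h2
    exact h2
  have h3 : ∀ q : Fin n, iY S p l (∑ j, creM (j, q) (e0 m n M (z q j))) =
      (if q = l then ∑ j, e0 m n M (S.a j p (z q j)) else 0) - e0 m n M (S.b q l (z q p)) := by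
    intro q
    rw [map_sum, Finset.sum_congr rfl fun j _ => h1 q j, Finset.sum_sub_distrib, Finset.sum_ite_eq',
      if_pos (Finset.mem_univ _)]
    by_cases h : q = l
    · simp only [if_pos h]
    · simp only [if_neg h, Finset.sum_const_zero]
  rw [Finset.sum_congr rfl fun q _ => h3 q, Finset.sum_sub_distrib, Finset.sum_ite_eq', if_pos (Finset.mem_univ _),
    map_sub, map_sum, map_sum]

theorem g21b_pz (γ : Fin n → ℕ) (r : Fin n) :
    pz k (γ + Pi.single r 1) = pz k γ + Pi.single (Fin.castAdd k r) 1 := by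
  funext i
  show ((ext k (γ + Pi.single r 1) i : ℕ) : ℤ) = ((ext k γ i : ℕ) : ℤ) + (Pi.single (Fin.castAdd k r) 1 : Fin (n + k) → ℤ) i
  unfold ext
  by_cases h : i.1 < n
  · rw [dif_pos h, dif_pos h, Pi.add_apply, Nat.cast_add]
    congr 1
    by_cases h2 : (⟨i.1, h⟩ : Fin n) = r
    · have h3 : i = Fin.castAdd k r := Fin.ext (show i.1 = r.1 from congrArg (fun q : Fin n => q.1) h2)
      rw [h2, h3, Pi.single_eq_same, Pi.single_eq_same, Nat.cast_one]
    · have h3 : i ≠ Fin.castAdd k r := fun h4 => h2 (Fin.ext (show i.1 = r.1 from congrArg (fun q : Fin (n + k) => q.1) h4))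
      rw [Pi.single_eq_of_ne h2, Pi.single_eq_of_ne h3, Nat.cast_zero]
  · rw [dif_neg h, dif_neg h]
    have h3 : i ≠ Fin.castAdd k r := by
      rintro rfl
      exact h r.2
    rw [Pi.single_eq_of_ne h3, Nat.cast_zero, add_zero]

theorem g21b_pz1 (γ : Fin n → ℕ) (r : Fin n) : pz k γ (Fin.castAdd k r) = γ r := by
  show ((ext k γ (Fin.castAdd k r) : ℕ) : ℤ) = γ r
  unfold ext
  rw [dif_pos (show (Fin.castAdd k r).1 < n from r.2)]
  rfl

theorem g21b_pza {γ : Fin n → ℕ} (h : Antitone γ) : Antitone (pz k γ) := by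
  intro i j hij
  show ((ext k γ j : ℕ) : ℤ) ≤ ((ext k γ i : ℕ) : ℤ)
  rw [Nat.cast_le]
  unfold ext
  by_cases h2 : j.1 < n
  · have h1 : i.1 < n := lt_of_le_of_lt hij h2
    rw [dif_pos h1, dif_pos h2]
    exact h (show (⟨i.1, h1⟩ : Fin n) ≤ ⟨j.1, h2⟩ from hij)
  · rw [dif_neg h2]
    exact Nat.zero_le _

theorem g21b_nz (δ : Fin n → ℕ) (s : Fin n) : nz (δ + Pi.single s 1) = nz δ + Pi.single s 1 := by
  funext i
  show (((δ + Pi.single s 1 : Fin n → ℕ) i : ℕ) : ℤ) = (δ i : ℤ) + (Pi.single s 1 : Fin n → ℤ) i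
  rw [Pi.add_apply, Nat.cast_add]
  congr 1
  by_cases h2 : i = s
  · rw [h2, Pi.single_eq_same, Pi.single_eq_same, Nat.cast_one]
  · rw [Pi.single_eq_of_ne h2, Pi.single_eq_of_ne h2, Nat.cast_zero]

theorem g21b_nza {γ : Fin n → ℕ} (h : Antitone γ) : Antitone (nz γ) := by
  intro i j hij
  exact Nat.cast_le.2 (h hij)

theorem G21_sing (S : G0 (n + k) n M) (hS : S.Good) (hfin : Module.Finite ℂ M)
    (γ δ γ₂ δ₂ : Fin n → ℕ) (hγ : Antitone γ) (hδ₂ : Antitone δ₂) (t : ℤ)
    (hI : S.Irr (pz k γ) (nz δ) ⊤) (hA : movA γ γ₂ t) (hB : movB δ₂ δ t) :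
    ∃ U : LM (n + k) n M, U ≠ 0 ∧ S.ind.toG0.HW (pz k γ₂) (nz δ₂) U ∧
      ∀ i l, S.ind.y i l U = 0 := by
  obtain ⟨hγ₂, r, er, tr⟩ := hA
  obtain ⟨hδ, s, es, ts⟩ := hB
  have hpz : pz k γ₂ = pz k γ + Pi.single (Fin.castAdd k r) 1 := by rw [er, g21b_pz]
  have hnz : nz δ₂ = nz δ + Pi.single s 1 := by rw [es, g21b_nz]
  have hrs : (γ r : ℤ) - r.1 = (δ s : ℤ) - s.1 := by
    have h1 : (δ₂ s : ℤ) = δ s + 1 := by
      rw [es, Pi.add_apply, Pi.single_eq_same]
      push_cast
      rfl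
    rw [h1] at ts
    omega
  have hanti1 : Antitone (pz k γ + Pi.single (Fin.castAdd k r) 1) := by
    rw [← hpz]
    exact g21b_pza hγ₂
  have hanti2 : Antitone (nz δ + Pi.single s 1) := by
    rw [← hnz]
    exact g21b_nza hδ₂
  have hE := G11_F S hS hfin (pz k γ) (nz δ) ⊤ hI ((γ r : ℤ) - r.1 + n) (Fin.castAdd k r) hanti1 (by
    rw [g21b_pz1]
    show (γ r : ℤ) - r.1 + n - n = γ r - r.1
    omega)
  rw [← hpz] at hE
  have hfv := (G08_good S hS).1
  obtain ⟨hsw1, hsw2, hsw3⟩ := G21_swp S.fv hfv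
  have hE' := (hsw3 (pz k γ₂) (nz δ) _).2 hE
  have hfin' : Module.Finite ℂ (Fin (n + k) → M) := Module.Finite.pi
  obtain ⟨u, hu0, huE, huH, huT⟩ := G10_F S.fv.swp hsw1 hfin' (nz δ) (pz k γ₂) _ hE' s hanti2
  rw [← hnz] at huH
  obtain ⟨⟨w1, w2⟩, r1, r2⟩ := huH
  refine ⟨g21b_T (n + k) n M u, g21b_ne hu0, ⟨⟨fun i => ?_, fun l => ?_⟩, fun i j hij => ?_, fun l q hlq => ?_⟩, fun i l => ?_⟩
  · show iA S i i (g21b_T (n + k) n M u) = _
    rw [g21b_iA, w2 i, g21b_smul]
  · show iB S l l (g21b_T (n + k) n M u) = _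
    rw [g21b_iB, w1 l, g21b_smul]
  · show iA S i j (g21b_T (n + k) n M u) = _
    rw [g21b_iA, r2 i j hij, g21b_zero]
  · show iB S l q (g21b_T (n + k) n M u) = _
    rw [g21b_iB, r1 l q hlq, g21b_zero]
  · show iY S i l (g21b_T (n + k) n M u) = _
    rw [g21b_iY]
    have h1 : ∑ j, S.a j i (u l j) = (((γ r : ℤ) - r.1 : ℤ) : ℂ) • u l i := by
      have h2 := congrFun (huE l).2 i
      have h3 : ∑ j, S.a j i (u l j) = _ := h2
      rw [h3, Pi.smul_apply]
      congr 2
      omega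
    have h2 : ∑ q, S.b q l (u q i) = (((δ s : ℤ) - s.1 : ℤ) : ℂ) • u l i := by
      have h3 := congrFun (congrFun huT l) i
      have h4 : (∑ q, S.fv.b q l (u q)) i = _ := h3
      rw [Finset.sum_apply] at h4
      have h5 : ∑ q, S.b q l (u q i) = _ := h4
      rw [h5]
      rfl
    rw [h1, h2, hrs, sub_self, map_zero]

end H95H
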