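import Pool.Agent.Lib.H95H.G03b
import Pool.Agent.Lib.H95H.G05c
import Pool.Agent.Lib.H95H.G12c
import Pool.Agent.Lib.H95H.G15c
import Pool.Agent.Lib.H95H.G21b

namespace H95H

variable {m n k : ℕ} {M : Type} [AddCommGroup M] [Module ℂ M]
  {M' : Type} [AddCommGroup M'] [Module ℂ M']

/-!
# Chunk G21: the singular vector and the cap lemma

Situation: `γ₂ = γ + e_r`, `δ₂ = δ + e_s` antitone, and both new boxes have the same content: the bead
`r` of `γ` and the bead `s` of `δ` are at `t - 1` (`movA γ γ₂ t`, `movB δ₂ δ t`).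

* `G21_sing`: let `W = ⊤ ≤ M` be irreducible for `S`. By `G11_F` the subspace
  `E = EF S ⊤ (γ r - r + n)` of `Fin (n + k) → M` is irreducible for `S.fv` of highest weight
  `(pz γ + e_r, nz δ) = (pz γ₂, nz δ)`, and `tF S = γ r - r` on `E`. Now apply `G10_F` to the module
  `S.fv.swp : G0 n (n + k) (Fin (n + k) → M)`, its irreducible subspace `E` of highest weight
  `(nz δ, pz γ₂)` and the index `s`: there is `u : Fin n → (Fin (n + k) → M)`, `u ≠ 0`, with all `u q ∈ E`,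
  a highest weight vector of weight `(nz δ₂, pz γ₂)` for `S.fv.swp.fv`, and
  `tF (S.fv.swp) u = (δ s - s) • u`, i.e. `∑_q b q l (u q j) = (δ s - s) • u l j`. Put
  `U = ∑_{q, j} creM (j, q) (e0 (u q j))`; its value at `{(j, q)}` is `u q j` (the sign is `1`), so `U ≠ 0`.
  `z ↦ ∑_{q, j} creM (j, q) (e0 (z q j))` intertwines the operators of `S.fv.swp.fv` and of `S.ind`
  (`ax`, `bx`), so `U` is a highest weight vector of weight `(pz γ₂, nz δ₂)`. And
  `y p l U = ∑_{q,j} y p l (x j q (e0 (u q j))) = ∑_{q,j} (δ_{ql} a j p - δ_{jp} b q l) (e0 (u q j))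
   = e0 (∑_j a j p (u l j) - ∑_q b q l (u q p)) = e0 ((γ r - r) u l p - (δ s - s) u l p) = 0`.
* `G21_sub`: let `S` be a Kac module of weight `(γ, δ)`, `N` a submodule with lowest part `W₂` of weight
  `(γ₂, δ₂)`. Then `t ∉ bs δ`, so no `δ'` has `movB δ δ' t`, and `S.F t` is a Kac module of weight
  `(γ₂, δ)` (`G15_A`) with lowest part `W'`. `G10_G` for `W₂` and the index `s` gives a nonzero
  `w : Fin n → N`, highest weight vector of weight `(pz γ₂, nz δ)`, `tG w = t • w`, so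
  `(0, w) ∈ S.Ft t` (`G13_OmG`). By `G12_low` for `S.F t` it lies in `W'`. The subspace
  `P = {z ∈ Ft t | all entries in N}` is a submodule of `S.F t`; `P ⊓ W' ≠ ⊥`, so `W' ≤ P` (irreducible)
  and `P = ⊤` (`Low.gen`).
* `G21_zero`: `Fmap` of the projection is surjective (`G03_surj`) and it is zero by `G21_sub`.
* `G21_cap`: let `S` be simple with lowest part of weight `(γ, δ)`. By `G20_cover` it is a quotient, via
  `φ`, of `S₀ = (S.toG0.res W hW).ind`, a Kac module (`G20_kac`, `G20_good`). Let `U` be the singular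
  vector of `S₀` and `N = S₀.gen (S₀.toG0.low U)` (`G07_cyc`, `G12_stab`; `y` kills `low U`: the set of
  vectors killed by all `y` is stable under the even part); `N` is a submodule of `S₀` with
  `(S₀.res N).isLow γ₂ δ₂`. `φ(N)` is a submodule of `S`; it is `≠ ⊤`, because all weights `(α, β)` of
  `N` have `∑ β ≥ ∑ δ₂ > ∑ δ` (`G12_low`), so the highest weight vector of `S` is not in `φ(N)`
  (weights of the image are weights of `N`). So `φ(N) = ⊥`, `φ` factors through `S₀.quo N`, and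
  `S.Ft t` is the image of `(S₀.quo N).Ft t = ⊥` (`G21_zero`, `G03_surj`).
-/

theorem g21c_nomov {δ δ₂ : Fin n → ℕ} {t : ℤ} (hδ₂ : Antitone δ₂) (hB : movB δ₂ δ t) : ∀ δ', ¬movB δ δ' t := by
  rintro δ' ⟨-, s', e', t'⟩
  obtain ⟨hδ, s, es, ts⟩ := hB
  have h1 : (δ₂ s : ℤ) = δ s + 1 := by
    rw [es, Pi.add_apply, Pi.single_eq_same]
    push_cast
    rfl
  have h2 : (δ s' : ℤ) - s'.1 = δ s + 1 - s.1 := by omega
  rcases lt_trichotomy s' s with h | h | h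
  · have h3 : δ₂ s ≤ δ₂ s' := hδ₂ h.le
    have h4 : δ₂ s' = δ s' := by
      rw [es, Pi.add_apply, Pi.single_eq_of_ne h.ne, add_zero]
    have h5 : s'.1 < s.1 := h
    have h6 : (δ₂ s : ℤ) ≤ δ s' := by
      rw [← h4]
      exact_mod_cast h3
    omega
  · rw [h] at h2
    omega
  · have h3 : δ s' ≤ δ s := hδ h.le
    have h5 : s.1 < s'.1 := h
    omega

/-- vectors with entries in `N` -/
def g21c_Q (m n : ℕ) (N : Submodule ℂ M) : Submodule ℂ ((Fin m → M) × (Fin n → M)) where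
  carrier := {z | (∀ i, z.1 i ∈ N) ∧ ∀ l, z.2 l ∈ N}
  add_mem' := fun h h' => ⟨fun i => N.add_mem (h.1 i) (h'.1 i), fun l => N.add_mem (h.2 l) (h'.2 l)⟩
  zero_mem' := ⟨fun _ => N.zero_mem, fun _ => N.zero_mem⟩
  smul_mem' := fun r _ h => ⟨fun i => N.smul_mem r (h.1 i), fun l => N.smul_mem r (h.2 l)⟩

theorem g21c_ite (N : Submodule ℂ M) {P : Prop} [Decidable P] {v : M} (h : v ∈ N) : (if P then v else 0) ∈ N := by
  split_ifs
  · exact h
  · exact N.zero_mem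

theorem g21c_Qstab (S : GM m n M) (N : Submodule ℂ M) (hN : S.Stab N) : S.vt.Stab (g21c_Q m n N) := by
  obtain ⟨⟨ha, hb⟩, hx, hy⟩ := hN
  refine ⟨⟨fun i j z hz => ⟨fun p => ?_, fun p => ?_⟩, fun i j z hz => ⟨fun p => ?_, fun p => ?_⟩⟩,
    fun i j z hz => ⟨fun p => ?_, fun p => ?_⟩, fun i j z hz => ⟨fun p => ?_, fun p => ?_⟩⟩
  · exact N.add_mem (g21c_ite N (hz.1 j)) (ha i j _ (hz.1 p))
  · exact ha i j _ (hz.2 p)
  · exact hb i j _ (hz.1 p)
  · exact N.add_mem (N.neg_mem (g21c_ite N (hz.2 i))) (hb i j _ (hz.2 p))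
  · exact N.add_mem (g21c_ite N (hz.2 j)) (hx i j _ (hz.1 p))
  · exact N.neg_mem (hx i j _ (hz.2 p))
  · exact hy i j _ (hz.1 p)
  · exact N.sub_mem (g21c_ite N (hz.1 i)) (hy i j _ (hz.2 p))

theorem G21_sub (S : GM (n + k) n M) (hS : S.toG0.Good) (hfin : Module.Finite ℂ M)
    (γ δ γ₂ δ₂ : Fin n → ℕ) (hγ : Antitone γ) (hδ₂ : Antitone δ₂) (hK : S.isKac γ δ) (t : ℤ)
    (ht : 1 ≤ t) (hA : movA γ γ₂ t) (hB : movB δ₂ δ t) (N : Submodule ℂ M) (hN : S.Stab N)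
    (hL : (S.res N hN).isLow γ₂ δ₂) : ∀ z ∈ S.Ft t, (∀ i, z.1 i ∈ N) ∧ ∀ l, z.2 l ∈ N := by
  have hno := g21c_nomov hδ₂ hB
  obtain ⟨hδ, s, es, ts⟩ := hB
  obtain ⟨W', hW', -⟩ := G15_A S hS hfin γ δ γ₂ hγ hδ hK t ht hA hno
  obtain ⟨W₂, hW₂⟩ := hL
  have hnz : nz δ₂ - Pi.single s 1 = nz δ := by
    rw [es, g21b_nz, add_sub_cancel_right]
  have hanti : Antitone (nz δ₂ - Pi.single s 1) := by
    rw [hnz]
    exact g21b_nza hδ
  obtain ⟨w, hw0, hwW, hwH, hwT⟩ := G10_G (S.res N hN).toG0 (G05_res S hS N hN) inferInstance (pz k γ₂) (nz δ₂) W₂ hW₂.irr s hanti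
  rw [hnz] at hwH
  have hval : ((nz δ₂ s + (n - 1 - s.1 : ℤ) : ℤ) : ℂ) = (t : ℂ) := by
    rw [ts]
    rfl
  rw [hval] at hwT
  -- the vector in `Ft`
  have hOm := G13_OmG (S.res N hN) W₂ hW₂.yW w (fun i => hwW i)
  rw [hwT, map_smul] at hOm
  have hmem : iG (n + k) n ↥N w ∈ (S.res N hN).Ft t := by
    unfold GM.Ft
    rw [Module.End.mem_maxGenEigenspace]
    refine ⟨1, ?_⟩
    rw [pow_one]
    show (S.res N hN).Om (iG (n + k) n ↥N w) - (t : ℂ) • iG (n + k) n ↥N w = 0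
    rw [hOm, sub_self]
  have hf : GHom (S.res N hN) S N.subtype := ⟨fun _ _ _ => rfl, fun _ _ _ => rfl, fun _ _ _ => rfl, fun _ _ _ => rfl⟩
  have hz₀ := G03_maps hf t _ hmem
  obtain ⟨z₀, ez₀⟩ : ∃ z₀, z₀ = vtMap (n + k) n N.subtype (iG (n + k) n ↥N w) := ⟨_, rfl⟩
  rw [← ez₀] at hz₀
  have z1 : z₀.1 = 0 := by
    rw [ez₀]
    funext i
    rfl
  have z2 : ∀ l, z₀.2 l = (w l : M) := by
    intro l
    rw [ez₀]
    rfl
  obtain ⟨⟨ww1, ww2⟩, -, -⟩ := hwH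
  have hwsp : (⟨z₀, hz₀⟩ : ↥(S.Ft t)) ∈ (S.F t).toG0.Wsp (pz k γ₂) (nz δ) := by
    refine ⟨fun i => Subtype.ext ?_, fun l => Subtype.ext ?_⟩
    · show vtA S i i z₀ = (pz k γ₂ i : ℂ) • z₀
      refine Prod.ext (funext fun p => ?_) (funext fun p => ?_)
      · show (if p = i then z₀.1 i else 0) + S.a i i (z₀.1 p) = (pz k γ₂ i : ℂ) • z₀.1 p
        rw [z1, Pi.zero_apply, Pi.zero_apply, map_zero, smul_zero, add_zero, ite_self]
      · show S.a i i (z₀.2 p) = (pz k γ₂ i : ℂ) • z₀.2 p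
        rw [z2]
        exact congrArg Subtype.val (congrFun (ww1 i) p)
    · show vtB S l l z₀ = (nz δ l : ℂ) • z₀
      refine Prod.ext (funext fun p => ?_) (funext fun p => ?_)
      · show S.b l l (z₀.1 p) = (nz δ l : ℂ) • z₀.1 p
        rw [z1, Pi.zero_apply, map_zero, smul_zero]
      · show -(if p = l then z₀.2 l else 0) + S.b l l (z₀.2 p) = (nz δ l : ℂ) • z₀.2 p
        rw [z2, z2]
        have h1 := congrArg Subtype.val (congrFun (ww2 l) p)
        have h2 : ((-(if p = l then w l else 0) + (S.res N hN).b l l (w p) : ↥N) : M) = (nz δ l : ℂ) • (w p : M) := h1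
        rw [← h2]
        by_cases h : p = l
        · rw [if_pos h, if_pos h]
          rfl
        · rw [if_neg h, if_neg h]
          rfl
  have hne : (⟨z₀, hz₀⟩ : ↥(S.Ft t)) ≠ 0 := by
    intro h
    apply hw0
    have h1 : z₀ = 0 := congrArg Subtype.val h
    funext l
    apply Subtype.ext
    rw [← z2, h1]
    rfl
  have hfinF : Module.Finite ℂ ↥(S.Ft t) := G03_finite S t
  have hW₀ := (G12_low (S.F t) (G05_F S hS t) hfinF (pz k γ₂) (nz δ) W' hW' (pz k γ₂) (nz δ) _ hwsp hne).2 rfl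
  -- the submodule
  obtain ⟨P, hP⟩ : ∃ P : Submodule ℂ ↥(S.Ft t), P = (g21c_Q (n + k) n N).comap (S.Ft t).subtype := ⟨_, rfl⟩
  have hQ := g21c_Qstab S N hN
  have hPs : (S.F t).Stab P := by
    rw [hP]
    exact ⟨⟨fun i j v hv => hQ.1.1 i j _ hv, fun i j v hv => hQ.1.2 i j _ hv⟩, fun i l v hv => hQ.2.1 i l _ hv,
      fun i l v hv => hQ.2.2 i l _ hv⟩
  have hy₀ : (⟨z₀, hz₀⟩ : ↥(S.Ft t)) ∈ P := by
    rw [hP]
    refine ⟨fun i => ?_, fun l => ?_⟩
    · show z₀.1 i ∈ N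
      rw [z1]
      exact N.zero_mem
    · show z₀.2 l ∈ N
      rw [z2]
      exact (w l).2
  have hinf : P ⊓ W' = W' := by
    refine (hW'.irr.irr (P ⊓ W') inf_le_right ⟨fun i j v hv => ⟨hPs.1.1 i j v hv.1, hW'.irr.stab.1 i j v hv.2⟩,
      fun i j v hv => ⟨hPs.1.2 i j v hv.1, hW'.irr.stab.2 i j v hv.2⟩⟩).resolve_left ?_
    intro h
    exact hne ((Submodule.eq_bot_iff _).1 h _ ⟨hy₀, hW₀⟩)
  have htop : P = ⊤ := hW'.gen P (inf_eq_right.1 hinf) hPs.2.1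
  intro z hz
  have h1 : (⟨z, hz⟩ : ↥(S.Ft t)) ∈ P := by
    rw [htop]
    trivial
  rw [hP] at h1
  exact h1

theorem G21_zero (S : GM (n + k) n M) (hfin : Module.Finite ℂ M) (t : ℤ)
    (N : Submodule ℂ M) (hN : S.Stab N) (h : ∀ z ∈ S.Ft t, (∀ i, z.1 i ∈ N) ∧ ∀ l, z.2 l ∈ N) :
    (S.quo N hN).Ft t = ⊥ := by
  have hf : GHom S (S.quo N hN) N.mkQ := ⟨fun _ _ _ => rfl, fun _ _ _ => rfl, fun _ _ _ => rfl, fun _ _ _ => rfl⟩
  rw [Submodule.eq_bot_iff]
  intro z hz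
  obtain ⟨y, hy⟩ := G03_surj hf t N.mkQ_surjective ⟨z, hz⟩
  have h1 : vtMap (n + k) n N.mkQ y.1 = z := congrArg Subtype.val hy
  obtain ⟨h2, h3⟩ := h y.1 y.2
  rw [← h1]
  refine Prod.ext (funext fun i => ?_) (funext fun l => ?_)
  · show N.mkQ (y.1.1 i) = 0
    exact (Submodule.Quotient.mk_eq_zero N).2 (h2 i)
  · show N.mkQ (y.1.2 l) = 0
    exact (Submodule.Quotient.mk_eq_zero N).2 (h3 l)

end H95H
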