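import Pool.Agent.Lib.H95H.G18b
import Pool.Agent.Lib.H95H.G20c
import Pool.Agent.Lib.H95H.G21c

namespace H95H

variable {m n k : ℕ} {M : Type} [AddCommGroup M] [Module ℂ M]
  {M' : Type} [AddCommGroup M'] [Module ℂ M']

/-!
# Chunk G21: the singular vector and the cap lemma

Situation: `γ₂ = γ + e_r`, `δ₂ = δ + e_s` antitone, and both new boxes have the same content: the bead
`r` of `γ` and the bead `s` of `δ` are at `t - 1` (`movA γ γ₂ t`, `movB δ₂ δ t`).

* `G21_sing`: let `W = ⊤ ≤ M` be irreducible for `S`. By `G11_F` the subspace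
  `E = EF S ⊤ (γ r - r + n)` of `Fin (n + k) → M` is irreducible for `S.fv` of highest weight
  `(pz γ + e_r, nz δ) = (pz γ₂, nz δ)`, and `tF S = γ r - r` on `E`. Now apply `G10_F` to the module
  `S.fv.swp : G0 n (n + k) (Fin (n + k) → M)`, its irreducible subspace `E` of highest weight
  `(nz δ, pz γ₂)` and the index `s`: there is `u : Fin n → (Fin (n + k) → M)`, `u ≠ 0`, with all `u q ∈ E`,
  a highest weight vector of weight `(nz δ₂, pz γ₂)` for `S.fv.swp.fv`, and
  `tF (S.fv.swp) u = (δ s - s) • u`, i.e. `∑_q b q l (u q j) = (δ s - s) • u l j`. Put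
  `U = ∑_{q, j} creM (j, q) (e0 (u q j))`; its value at `{(j, q)}` is `u q j` (the sign is `1`), so `U ≠ 0`.
  `z ↦ ∑_{q, j} creM (j, q) (e0 (z q j))` intertwines the operators of `S.fv.swp.fv` and of `S.ind`
  (`ax`, `bx`), so `U` is a highest weight vector of weight `(pz γ₂, nz δ₂)`. And
  `y p l U = ∑_{q,j} y p l (x j q (e0 (u q j))) = ∑_{q,j} (δ_{ql} a j p - δ_{jp} b q l) (e0 (u q j))
   = e0 (∑_j a j p (u l j) - ∑_q b q l (u q p)) = e0 ((γ r - r) u l p - (δ s - s) u l p) = 0`.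
* `G21_sub`: let `S` be a Kac module of weight `(γ, δ)`, `N` a submodule with lowest part `W₂` of weight
  `(γ₂, δ₂)`. Then `t ∉ bs δ`, so no `δ'` has `movB δ δ' t`, and `S.F t` is a Kac module of weight
  `(γ₂, δ)` (`G15_A`) with lowest part `W'`. `G10_G` for `W₂` and the index `s` gives a nonzero
  `w : Fin n → N`, highest weight vector of weight `(pz γ₂, nz δ)`, `tG w = t • w`, so
  `(0, w) ∈ S.Ft t` (`G13_OmG`). By `G12_low` for `S.F t` it lies in `W'`. The subspace
  `P = {z ∈ Ft t | all entries in N}` is a submodule of `S.F t`; `P ⊓ W' ≠ ⊥`, so `W' ≤ P` (irreducible)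
  and `P = ⊤` (`Low.gen`).
* `G21_zero`: `Fmap` of the projection is surjective (`G03_surj`) and it is zero by `G21_sub`.
* `G21_cap`: let `S` be simple with lowest part of weight `(γ, δ)`. By `G20_cover` it is a quotient, via
  `φ`, of `S₀ = (S.toG0.res W hW).ind`, a Kac module (`G20_kac`, `G20_good`). Let `U` be the singular
  vector of `S₀` and `N = S₀.gen (S₀.toG0.low U)` (`G07_cyc`, `G12_stab`; `y` kills `low U`: the set of
  vectors killed by all `y` is stable under the even part); `N` is a submodule of `S₀` with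
  `(S₀.res N).isLow γ₂ δ₂`. `φ(N)` is a submodule of `S`; it is `≠ ⊤`, because all weights `(α, β)` of
  `N` have `∑ β ≥ ∑ δ₂ > ∑ δ` (`G12_low`), so the highest weight vector of `S` is not in `φ(N)`
  (weights of the image are weights of `N`). So `φ(N) = ⊥`, `φ` factors through `S₀.quo N`, and
  `S.Ft t` is the image of `(S₀.quo N).Ft t = ⊥` (`G21_zero`, `G03_surj`).
-/

/-- the even module generated by a singular vector is killed by the operators `y` -/
theorem g21d_y (S : GM m n M) (hS : S.toG0.Good) (hfin : Module.Finite ℂ M) (α : Fin m → ℤ)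
    (β : Fin n → ℤ) (v : M) (hv : S.toG0.HW α β v) (hne : v ≠ 0) (hy : ∀ i l, S.y i l v = 0) :
    ∀ i l, ∀ w ∈ S.toG0.low v, S.y i l w = 0 := by
  have hK : S.toG0.Stab (⨅ i, ⨅ l, LinearMap.ker (S.y i l)) := by
    refine ⟨fun i j v hv => ?_, fun i j v hv => ?_⟩
    · simp only [Submodule.mem_iInf, LinearMap.mem_ker] at hv ⊢
      intro p l
      have h := S.ay i j p l v
      rw [hv, map_zero] at h
      by_cases hip : i = p
      · rw [if_pos hip, hv, neg_zero, zero_sub, neg_eq_zero] at h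
        exact h
      · rw [if_neg hip, neg_zero, zero_sub, neg_eq_zero] at h
        exact h
    · simp only [Submodule.mem_iInf, LinearMap.mem_ker] at hv ⊢
      intro p l
      have h := S.by' i j p l v
      rw [hv, map_zero] at h
      by_cases hip : i = l
      · rw [if_pos hip, hv, neg_zero, zero_sub, neg_eq_zero] at h
        exact h
      · rw [if_neg hip, neg_zero, zero_sub, neg_eq_zero] at h
        exact h
  have h1 := (G07_cyc S.toG0 hS hfin α β v hv hne).2.2 _ hK (by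
    simp only [Submodule.mem_iInf, LinearMap.mem_ker]
    exact hy)
  intro i l w hw
  have h2 := h1 hw
  simp only [Submodule.mem_iInf, LinearMap.mem_ker] at h2
  exact h2 i l

/-- a singular vector generates a module with lowest part -/
theorem g21d_gen (S : GM m n M) (hS : S.toG0.Good) (hfin : Module.Finite ℂ M) (α : Fin m → ℤ)
    (β : Fin n → ℤ) (v : M) (hv : S.toG0.HW α β v) (hne : v ≠ 0) (hy : ∀ i l, S.y i l v = 0) :
    ∃ (N : Submodule ℂ M) (hN : S.Stab N) (W : Submodule ℂ ↥N), v ∈ N ∧ (S.res N hN).Low α β W := by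
  obtain ⟨hI, hmem, hmin⟩ := G07_cyc S.toG0 hS hfin α β v hv hne
  have hy' := g21d_y S hS hfin α β v hv hne hy
  have hN : S.Stab (S.gen (S.toG0.low v)) := G12_stab S _ hI.stab hy'
  have hle := G12_le S (S.toG0.low v)
  refine ⟨S.gen (S.toG0.low v), hN, (S.toG0.low v).comap (S.gen (S.toG0.low v)).subtype, hle hmem, ?_⟩
  refine ⟨⟨⟨fun i j u hu => ?_, fun i j u hu => ?_⟩, ⟨⟨v, hle hmem⟩, hmem, ?_, ?_⟩, ?_⟩, ?_, ?_⟩
  · exact hI.stab.1 i j _ hu
  · exact hI.stab.2 i j _ hu
  · intro h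
    exact hne (congrArg Subtype.val h)
  · obtain ⟨⟨c1, c2⟩, c3, c4⟩ := hv
    exact ⟨⟨fun i => Subtype.ext (c1 i), fun l => Subtype.ext (c2 l)⟩, fun i j h => Subtype.ext (c3 i j h),
      fun i j h => Subtype.ext (c4 i j h)⟩
  · intro W' hW' hst
    have h1 := hI.irr (W'.map (S.gen (S.toG0.low v)).subtype) (by
      rintro _ ⟨u, hu, rfl⟩
      exact hW' hu) (by
      refine ⟨?_, ?_⟩
      · rintro i j _ ⟨u, hu, rfl⟩
        exact ⟨_, hst.1 i j u hu, rfl⟩
      · rintro i j _ ⟨u, hu, rfl⟩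
        exact ⟨_, hst.2 i j u hu, rfl⟩)
    rcases h1 with h1 | h1
    · left
      rw [eq_bot_iff]
      intro u hu
      have h2 : (u : M) ∈ W'.map (S.gen (S.toG0.low v)).subtype := ⟨u, hu, rfl⟩
      rw [h1, Submodule.mem_bot] at h2
      exact (Submodule.mem_bot ℂ).2 (Subtype.ext h2)
    · right
      refine le_antisymm hW' fun u hu => ?_
      have h2 : (u : M) ∈ W'.map (S.gen (S.toG0.low v)).subtype := by
        rw [h1]
        exact hu
      obtain ⟨u', hu', h3⟩ := h2
      have h4 : u' = u := Subtype.ext h3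
      rw [← h4]
      exact hu'
  · intro i l w hw
    exact Subtype.ext (hy' i l _ hw)
  · intro N' hle' hx
    have h1 := G12_min S (S.toG0.low v) (N'.map (S.gen (S.toG0.low v)).subtype) (fun u hu => ⟨⟨u, hle hu⟩, hle' hu, rfl⟩)
      (by
        rintro i l _ ⟨u, hu, rfl⟩
        exact ⟨_, hx i l u hu, rfl⟩)
    rw [eq_top_iff]
    intro u _
    obtain ⟨u', hu', h3⟩ := h1 u.2
    have h4 : u' = u := Subtype.ext h3
    rw [← h4]
    exact hu'

theorem G21_cap (S : GM (n + k) n M) (hS : S.toG0.Good) (hfin : Module.Finite ℂ M)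
    (hsim : S.Sim) (γ δ γ₂ δ₂ : Fin n → ℕ) (hγ : Antitone γ) (hδ₂ : Antitone δ₂)
    (hL : S.isLow γ δ) (t : ℤ) (ht : 1 ≤ t) (hA : movA γ γ₂ t) (hB : movB δ₂ δ t) :
    S.Ft t = ⊥ := by
  obtain ⟨W, hW, φ, g1, g2, g3, g4, g5⟩ := G20_cover S hS hfin γ δ hL
  have hWf : Module.Finite ℂ ↥W := inferInstance
  have k1 := G20_kac (S.toG0.res W hW) hWf γ δ g2
  have k2 := G20_good (S.toG0.res W hW) g1
  have k3 := (G20_finrank (n + k) n ↥W).1
  obtain ⟨U, hU0, hUw, hUy⟩ := G21_sing (S.toG0.res W hW) g1 hWf γ δ γ₂ δ₂ hγ hδ₂ t g2 hA hB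
  obtain ⟨N, hN, W₂, hUN, hlow⟩ := g21d_gen (S.toG0.res W hW).ind k2 k3 _ _ U hUw hU0 hUy
  have h1 := G21_sub (S.toG0.res W hW).ind k2 k3 γ δ γ₂ δ₂ hγ hδ₂ k1 t ht hA hB N hN ⟨W₂, hlow⟩
  have h2 := G21_zero (S.toG0.res W hW).ind k3 t N hN h1
  obtain ⟨c1, c2, c3, c4⟩ := g3
  have hst : S.Stab (N.map φ) := by
    refine ⟨⟨?_, ?_⟩, ?_, ?_⟩
    · rintro i j _ ⟨u, hu, rfl⟩
      exact ⟨_, hN.1.1 i j u hu, c1 i j u⟩
    · rintro i j _ ⟨u, hu, rfl⟩
      exact ⟨_, hN.1.2 i j u hu, c2 i j u⟩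
    · rintro i j _ ⟨u, hu, rfl⟩
      exact ⟨_, hN.2.1 i j u hu, c3 i j u⟩
    · rintro i j _ ⟨u, hu, rfl⟩
      exact ⟨_, hN.2.2 i j u hu, c4 i j u⟩
  have hbot : N.map φ = ⊥ := by
    rcases hsim _ hst with h | h
    · exact h
    · exfalso
      obtain ⟨W₁, hW₁⟩ := hL
      obtain ⟨v, hv1, hv2, hv3⟩ := hW₁.irr.hw
      have hnt : Nontrivial M := ⟨v, 0, hv2⟩
      have hsur : Function.Surjective (φ.comp N.subtype) := by
        intro u
        have hu : u ∈ N.map φ := by
          rw [h]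
          exact Submodule.mem_top
        obtain ⟨u', hu', rfl⟩ := hu
        exact ⟨⟨u', hu'⟩, rfl⟩
      have h3 := G16_quot ((S.toG0.res W hW).ind.res N hN) S (φ.comp N.subtype)
        ⟨fun i j v => c1 i j v.1, fun i j v => c2 i j v.1, fun i j v => c3 i j v.1, fun i j v => c4 i j v.1⟩
        hsur hnt _ _ W₂ hlow
      have h4 := (G12_low S hS hfin _ _ _ h3 _ _ v hv3.1 hv2).1
      obtain ⟨-, s, hs, -⟩ := hB
      have h5 : ∑ l, nz δ₂ l = ∑ l, nz δ l + 1 := by
        have e : ∀ l, nz δ₂ l = nz δ l + (Pi.single s 1 : Fin n → ℤ) l := by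
          intro l
          rw [hs]
          simp only [nz, Pi.add_apply]
          by_cases hl : l = s
          · subst hl
            simp
          · rw [Pi.single_eq_of_ne hl, Pi.single_eq_of_ne hl]
            simp
        simp only [e, Finset.sum_add_distrib]
        rw [Finset.sum_pi_single']
        simp
      linarith
  have hle : N ≤ LinearMap.ker φ := by
    intro u hu
    rw [LinearMap.mem_ker]
    have h3 : φ u ∈ N.map φ := ⟨u, hu, rfl⟩
    rw [hbot] at h3
    exact h3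
  refine G18_zero ((S.toG0.res W hW).ind.quo N hN) inferInstance S (N.liftQ φ hle) ⟨?_, ?_, ?_, ?_⟩ ?_ t h2
  · intro i j v
    obtain ⟨v, rfl⟩ := N.mkQ_surjective v
    exact c1 i j v
  · intro i j v
    obtain ⟨v, rfl⟩ := N.mkQ_surjective v
    exact c2 i j v
  · intro i j v
    obtain ⟨v, rfl⟩ := N.mkQ_surjective v
    exact c3 i j v
  · intro i j v
    obtain ⟨v, rfl⟩ := N.mkQ_surjective v
    exact c4 i j v
  · intro u
    obtain ⟨u', rfl⟩ := g4 u
    exact ⟨N.mkQ u', rfl⟩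

end H95H
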