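import Pool.Agent.Lib.H95H.GW

namespace H95H

variable {m n k : ℕ} {M : Type} [AddCommGroup M] [Module ℂ M]
  {M' : Type} [AddCommGroup M'] [Module ℂ M']

/-- All singular vectors of weight `(α, β)` with `∑ β ≤ N₀` in quotients of `S` have the weight of some
`(γ, δ)` in the block `ω`. -/
def GM.LP (S : GM (n + k) n M) (ω : ℕ → ℤ) (N₀ : ℕ) : Prop :=
  ∀ (M' : Type) [AddCommGroup M'] [Module ℂ M'] (S' : GM (n + k) n M') (π : M →ₗ[ℂ] M'),
    GHom S S' π → Function.Surjective π → ∀ (α : Fin (n + k) → ℤ) (β : Fin n → ℤ) (v : M'),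
    v ≠ 0 → S'.toG0.HW α β v → (∀ i l, S'.y i l v = 0) → ∑ l, β l ≤ (N₀ : ℤ) →
    ∃ γ δ : Fin n → ℕ, Antitone γ ∧ Antitone δ ∧ α = pz k γ ∧ β = nz δ ∧ wd γ δ = ω

/-- the module is in the block `ω` -/
def GM.Lk (S : GM (n + k) n M) (ω : ℕ → ℤ) : Prop := ∀ N₀ : ℕ, S.LP ω N₀

/-!
# Chunk G22: linkage

* `G22_quo`: compose the surjections.
* `G22_sub`: let `π : N → M'` be surjective with kernel `N₁`; let `N₂` be the image of `N₁` in `M`. Then
  `N ⧸ N₁ ≃ M'` embeds into `M ⧸ N₂`; a singular vector of `M'` gives one of `S.quo N₂`.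
* `G22_ext`: let `π : M₂ → M'` be surjective, `v ∈ M'` singular. Put `P = π (i M₁)`, a submodule of `S'`. If
  `v ∉ P`, its image in `M' ⧸ P` is singular and nonzero, and `M' ⧸ P` is a quotient of `M₃`
  (`π` maps `ker = i M₁` into `P`). If `v ∈ P`, then it is a singular vector of `S'.res P`, a quotient
  of `M₁`.
* `G22_kac`: induction on `N₀`, for all Kac modules at the same time (also `γ`, `δ` vary). Let `v` be a
  singular vector of weight `(α, β)` in the quotient `S'` of the Kac module `S`; `S'` is good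
  and finite-dimensional (it is isomorphic to a quotient `S.quo (ker π)`; `G05_quo`, `G05_iso`).
  `α`, `β` are antitone (`G06_dom`), `low v` is irreducible (`G07_cyc`) and killed by `y`.
  (1) `β ≥ 0`: otherwise the last entry is `β (n-1) < 0`; `β - e_{n-1}` is antitone, `G10_G` gives
  `w ≠ 0` with entries in `low v` and `tG w = t w`, `t = β (n-1) < 0`, so `(0, w) ∈ S'.Ft t`
  (`G13_OmG`); but `S.Ft t = ⊥` by `G15_neg` and `S'.Ft t` is its image (`G03_surj`).
  (If `n = 0` there is nothing to do: `γ = δ` is the empty function and `α`: here `m = k`; the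
  Kac module is its own lowest part, see (2).)
  (2) if `β = 0`: `S'` is a quotient of `S`, so it has lowest part `π W` of weight
  `(pz γ, nz δ)` (`G16_quot`); `∑ δ ≤ ∑ β = 0` by `G12_low`, so `∑ δ = ∑ β` and `v ∈ π W`, and by
  `G07_uniq` its weight is `(pz γ, nz δ)`.
  (3) otherwise `β = nz δ''`, `δ'' ≠ 0`. Let `s` be the last index with `δ'' s ≥ 1`, `δ₁ = δ'' - e_s`
  (antitone), `t = δ'' s + (n - 1 - s) ≥ 1`. `G10_G` gives `w ≠ 0` with entries in `low v`, a highest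
  weight vector of weight `(α, nz δ₁)`, `(0, w) ∈ S'.Ft t`, and it is killed by `y`
  (`vtY` has entries `y (w p) = 0`). `S'.F t` is a quotient of `S.F t` (`Fmap`, `G03_surj`), which by
  `G15_K2` has a submodule `N` that is zero or a Kac module of weight `(γ, δ')`, with quotient
  zero or a Kac module of weight `(γ', δ)`, `movB δ δ' t`, `movA γ γ' t`; all these are
  antitone. `wd γ δ' = wd γ' δ = wd γ δ - 1_{t-1} + 1_t` (`bs δ' = bs δ - t + (t-1)`,
  `bs γ' = bs γ - (t-1) + t`). By the induction hypothesis (`∑ δ₁ = ∑ β - 1 ≤ N₀ - 1`) and `G22_ext`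
  there are antitone `γ₁`, `δ₁'` with `(α, nz δ₁) = (pz γ₁, nz δ₁')` and
  `wd γ₁ δ₁ = wd γ δ - 1_{t-1} + 1_t`. As `bs δ'' = bs δ₁ - (t-1) + t`, `wd γ₁ δ'' = wd γ δ`.
-/

theorem G22_quo (S : GM (n + k) n M) (S' : GM (n + k) n M') (ω : ℕ → ℤ) (N₀ : ℕ)
    (h : S.LP ω N₀) (π : M →ₗ[ℂ] M') (hπ : GHom S S' π) (hs : Function.Surjective π) :
    S'.LP ω N₀ := by
  intro M'' _ _ S'' ρ hρ hρs α β v hv hw hy hb
  refine h M'' S'' (ρ ∘ₗ π) ⟨?_, ?_, ?_, ?_⟩ (hρs.comp hs) α β v hv hw hy hb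
  · intro i j v
    rw [LinearMap.comp_apply, hπ.1, hρ.1, LinearMap.comp_apply]
  · intro i j v
    rw [LinearMap.comp_apply, hπ.2.1, hρ.2.1, LinearMap.comp_apply]
  · intro i j v
    rw [LinearMap.comp_apply, hπ.2.2.1, hρ.2.2.1, LinearMap.comp_apply]
  · intro i j v
    rw [LinearMap.comp_apply, hπ.2.2.2, hρ.2.2.2, LinearMap.comp_apply]

theorem G22_sub (S : GM (n + k) n M) (ω : ℕ → ℤ) (N₀ : ℕ) (h : S.LP ω N₀) (N : Submodule ℂ M)
    (hN : S.Stab N) : (S.res N hN).LP ω N₀ := by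
  intro M'' _ _ S'' π hπ hs α β v hv hw hy hb
  set N₂ : Submodule ℂ M := (LinearMap.ker π).map N.subtype with hN₂
  have key : ∀ z : ↥N, N₂.mkQ (z : M) = 0 ↔ π z = 0 := by
    intro z
    rw [Submodule.mkQ_apply, Submodule.Quotient.mk_eq_zero]
    constructor
    · rintro ⟨z', hz', e⟩
      have : z' = z := Subtype.ext e
      rw [← this]
      exact hz'
    · intro hz
      exact ⟨z, hz, rfl⟩
  have hst : S.Stab N₂ := by
    refine ⟨⟨?_, ?_⟩, ?_, ?_⟩
    · rintro i j _ ⟨z, hz, rfl⟩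
      refine ⟨(S.res N hN).a i j z, ?_, rfl⟩
      change π _ = 0
      rw [hπ.1]
      rw [show π z = 0 from hz, map_zero]
    · rintro i j _ ⟨z, hz, rfl⟩
      refine ⟨(S.res N hN).b i j z, ?_, rfl⟩
      change π _ = 0
      rw [hπ.2.1]
      rw [show π z = 0 from hz, map_zero]
    · rintro i j _ ⟨z, hz, rfl⟩
      refine ⟨(S.res N hN).x i j z, ?_, rfl⟩
      change π _ = 0
      rw [hπ.2.2.1]
      rw [show π z = 0 from hz, map_zero]
    · rintro i j _ ⟨z, hz, rfl⟩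
      refine ⟨(S.res N hN).y i j z, ?_, rfl⟩
      change π _ = 0
      rw [hπ.2.2.2]
      rw [show π z = 0 from hz, map_zero]
  obtain ⟨w, rfl⟩ := hs v
  refine h (M ⧸ N₂) (S.quo N₂ hst) N₂.mkQ ⟨fun _ _ _ => rfl, fun _ _ _ => rfl,
    fun _ _ _ => rfl, fun _ _ _ => rfl⟩ N₂.mkQ_surjective α β (N₂.mkQ (w : M)) ?_ ?_ ?_ hb
  · intro h0
    exact hv ((key w).1 h0)
  · obtain ⟨⟨h1, h2⟩, h3, h4⟩ := hw
    refine ⟨⟨?_, ?_⟩, ?_, ?_⟩
    · intro i
      have : N₂.mkQ (((S.res N hN).a i i w - (α i : ℂ) • w : ↥N) : M) = 0 := by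
        rw [key, map_sub, map_smul, hπ.1, h1, sub_self]
      change N₂.mkQ (S.a i i (w : M)) = _
      rw [← sub_eq_zero, ← map_smul, ← map_sub]
      exact this
    · intro i
      have : N₂.mkQ (((S.res N hN).b i i w - (β i : ℂ) • w : ↥N) : M) = 0 := by
        rw [key, map_sub, map_smul, hπ.2.1, h2, sub_self]
      change N₂.mkQ (S.b i i (w : M)) = _
      rw [← sub_eq_zero, ← map_smul, ← map_sub]
      exact this
    · intro i j hij
      have : N₂.mkQ (((S.res N hN).a i j w : ↥N) : M) = 0 := by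
        rw [key, hπ.1, h3 i j hij]
      exact this
    · intro i j hij
      have : N₂.mkQ (((S.res N hN).b i j w : ↥N) : M) = 0 := by
        rw [key, hπ.2.1, h4 i j hij]
      exact this
  · intro i l
    have : N₂.mkQ (((S.res N hN).y i l w : ↥N) : M) = 0 := by
      rw [key, hπ.2.2.2, hy]
    exact this

end H95H
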