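import Pool.Agent.Lib.H95H.G22a

namespace H95H

variable {m n k : ℕ} {M : Type} [AddCommGroup M] [Module ℂ M]
  {M' : Type} [AddCommGroup M'] [Module ℂ M']

/-!
# Chunk G22: linkage

* `G22_quo`: compose the surjections.
* `G22_sub`: let `π : N → M'` be surjective with kernel `N₁`; let `N₂` be the image of `N₁` in `M`. Then
  `N ⧸ N₁ ≃ M'` embeds into `M ⧸ N₂`; a singular vector of `M'` gives one of `S.quo N₂`.
* `G22_ext`: let `π : M₂ → M'` be surjective, `v ∈ M'` singular. Put `P = π (i M₁)`, a submodule of `S'`. If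
  `v ∉ P`, its image in `M' ⧸ P` is singular and nonzero, and `M' ⧸ P` is a quotient of `M₃`
  (`π` maps `ker = i M₁` into `P`). If `v ∈ P`, then it is a singular vector of `S'.res P`, a quotient
  of `M₁`.
* `G22_kac`: induction on `N₀`, for all Kac modules at the same time (also `γ`, `δ` vary). Let `v` be a
  singular vector of weight `(α, β)` in the quotient `S'` of the Kac module `S`; `S'` is good
  and finite-dimensional (it is isomorphic to a quotient `S.quo (ker π)`; `G05_quo`, `G05_iso`).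
  `α`, `β` are antitone (`G06_dom`), `low v` is irreducible (`G07_cyc`) and killed by `y`.
  (1) `β ≥ 0`: otherwise the last entry is `β (n-1) < 0`; `β - e_{n-1}` is antitone, `G10_G` gives
  `w ≠ 0` with entries in `low v` and `tG w = t w`, `t = β (n-1) < 0`, so `(0, w) ∈ S'.Ft t`
  (`G13_OmG`); but `S.Ft t = ⊥` by `G15_neg` and `S'.Ft t` is its image (`G03_surj`).
  (If `n = 0` there is nothing to do: `γ = δ` is the empty function and `α`: here `m = k`; the
  Kac module is its own lowest part, see (2).)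
  (2) if `β = 0`: `S'` is a quotient of `S`, so it has lowest part `π W` of weight
  `(pz γ, nz δ)` (`G16_quot`); `∑ δ ≤ ∑ β = 0` by `G12_low`, so `∑ δ = ∑ β` and `v ∈ π W`, and by
  `G07_uniq` its weight is `(pz γ, nz δ)`.
  (3) otherwise `β = nz δ''`, `δ'' ≠ 0`. Let `s` be the last index with `δ'' s ≥ 1`, `δ₁ = δ'' - e_s`
  (antitone), `t = δ'' s + (n - 1 - s) ≥ 1`. `G10_G` gives `w ≠ 0` with entries in `low v`, a highest
  weight vector of weight `(α, nz δ₁)`, `(0, w) ∈ S'.Ft t`, and it is killed by `y`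
  (`vtY` has entries `y (w p) = 0`). `S'.F t` is a quotient of `S.F t` (`Fmap`, `G03_surj`), which by
  `G15_K2` has a submodule `N` that is zero or a Kac module of weight `(γ, δ')`, with quotient
  zero or a Kac module of weight `(γ', δ)`, `movB δ δ' t`, `movA γ γ' t`; all these are
  antitone. `wd γ δ' = wd γ' δ = wd γ δ - 1_{t-1} + 1_t` (`bs δ' = bs δ - t + (t-1)`,
  `bs γ' = bs γ - (t-1) + t`). By the induction hypothesis (`∑ δ₁ = ∑ β - 1 ≤ N₀ - 1`) and `G22_ext`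
  there are antitone `γ₁`, `δ₁'` with `(α, nz δ₁) = (pz γ₁, nz δ₁')` and
  `wd γ₁ δ₁ = wd γ δ - 1_{t-1} + 1_t`. As `bs δ'' = bs δ₁ - (t-1) + t`, `wd γ₁ δ'' = wd γ δ`.
-/

theorem G22_ext {M₁ M₂ M₃ : Type} [AddCommGroup M₁] [Module ℂ M₁] [AddCommGroup M₂]
    [Module ℂ M₂] [AddCommGroup M₃] [Module ℂ M₃] (S₁ : GM (n + k) n M₁) (S₂ : GM (n + k) n M₂)
    (S₃ : GM (n + k) n M₃) (i : M₁ →ₗ[ℂ] M₂) (π : M₂ →ₗ[ℂ] M₃) (hi : GHom S₁ S₂ i)
    (hπ : GHom S₂ S₃ π) (hs : Function.Surjective π) (he : LinearMap.ker π ≤ LinearMap.range i)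
    (ω : ℕ → ℤ) (N₀ : ℕ) (h₁ : S₁.LP ω N₀) (h₃ : S₃.LP ω N₀) : S₂.LP ω N₀ := by
  intro M'' _ _ S'' ρ hρ hρs α β v hv hw hy hb
  set P : Submodule ℂ M'' := (LinearMap.range i).map ρ with hP
  have hmem : ∀ z, ρ (i z) ∈ P := fun z => ⟨i z, ⟨z, rfl⟩, rfl⟩
  have hst : S''.Stab P := by
    refine ⟨⟨?_, ?_⟩, ?_, ?_⟩
    · rintro a b _ ⟨_, ⟨z, rfl⟩, rfl⟩
      have := hmem (S₁.a a b z)
      rwa [hi.1, hρ.1] at this
    · rintro a b _ ⟨_, ⟨z, rfl⟩, rfl⟩
      have := hmem (S₁.b a b z)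
      rwa [hi.2.1, hρ.2.1] at this
    · rintro a b _ ⟨_, ⟨z, rfl⟩, rfl⟩
      have := hmem (S₁.x a b z)
      rwa [hi.2.2.1, hρ.2.2.1] at this
    · rintro a b _ ⟨_, ⟨z, rfl⟩, rfl⟩
      have := hmem (S₁.y a b z)
      rwa [hi.2.2.2, hρ.2.2.2] at this
  by_cases hvP : v ∈ P
  · set f : M₁ →ₗ[ℂ] ↥P := (ρ ∘ₗ i).codRestrict P hmem with hf
    refine h₁ ↥P (S''.res P hst) f ⟨?_, ?_, ?_, ?_⟩ ?_ α β ⟨v, hvP⟩ ?_ ?_ ?_ hb
    · intro a b z
      apply Subtype.ext
      change ρ (i (S₁.a a b z)) = S''.a a b (ρ (i z))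
      rw [hi.1, hρ.1]
    · intro a b z
      apply Subtype.ext
      change ρ (i (S₁.b a b z)) = S''.b a b (ρ (i z))
      rw [hi.2.1, hρ.2.1]
    · intro a b z
      apply Subtype.ext
      change ρ (i (S₁.x a b z)) = S''.x a b (ρ (i z))
      rw [hi.2.2.1, hρ.2.2.1]
    · intro a b z
      apply Subtype.ext
      change ρ (i (S₁.y a b z)) = S''.y a b (ρ (i z))
      rw [hi.2.2.2, hρ.2.2.2]
    · rintro ⟨_, ⟨_, ⟨z, rfl⟩, rfl⟩⟩
      exact ⟨z, rfl⟩
    · intro h0
      exact hv (congrArg Subtype.val h0)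
    · obtain ⟨⟨h1, h2⟩, h3, h4⟩ := hw
      refine ⟨⟨?_, ?_⟩, ?_, ?_⟩
      · intro a
        apply Subtype.ext
        exact h1 a
      · intro a
        apply Subtype.ext
        exact h2 a
      · intro a b hab
        apply Subtype.ext
        exact h3 a b hab
      · intro a b hab
        apply Subtype.ext
        exact h4 a b hab
    · intro a b
      apply Subtype.ext
      exact hy a b
  · have hker : LinearMap.ker π ≤ LinearMap.ker (P.mkQ ∘ₗ ρ) := by
      intro z hz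
      obtain ⟨z', rfl⟩ := he hz
      change P.mkQ (ρ (i z')) = 0
      rw [Submodule.mkQ_apply, Submodule.Quotient.mk_eq_zero]
      exact hmem z'
    set f : M₃ →ₗ[ℂ] (M'' ⧸ P) := (LinearMap.ker π).liftQ (P.mkQ ∘ₗ ρ) hker ∘ₗ
      (π.quotKerEquivOfSurjective hs).symm.toLinearMap with hf
    have hfπ : ∀ z, f (π z) = P.mkQ (ρ z) := by
      intro z
      have : (π.quotKerEquivOfSurjective hs).symm (π z) = (LinearMap.ker π).mkQ z := by
        rw [LinearEquiv.symm_apply_eq]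
        rfl
      rw [hf, LinearMap.comp_apply, LinearEquiv.coe_coe, this]
      rfl
    refine h₃ (M'' ⧸ P) (S''.quo P hst) f ⟨?_, ?_, ?_, ?_⟩ ?_ α β (P.mkQ v) ?_ ?_ ?_ hb
    · intro a b z
      obtain ⟨z, rfl⟩ := hs z
      rw [← hπ.1, hfπ, hfπ, hρ.1]
      rfl
    · intro a b z
      obtain ⟨z, rfl⟩ := hs z
      rw [← hπ.2.1, hfπ, hfπ, hρ.2.1]
      rfl
    · intro a b z
      obtain ⟨z, rfl⟩ := hs z
      rw [← hπ.2.2.1, hfπ, hfπ, hρ.2.2.1]
      rfl
    · intro a b z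
      obtain ⟨z, rfl⟩ := hs z
      rw [← hπ.2.2.2, hfπ, hfπ, hρ.2.2.2]
      rfl
    · intro z
      obtain ⟨z, rfl⟩ := P.mkQ_surjective z
      obtain ⟨z, rfl⟩ := hρs z
      exact ⟨π z, hfπ z⟩
    · intro h0
      rw [Submodule.mkQ_apply, Submodule.Quotient.mk_eq_zero] at h0
      exact hvP h0
    · obtain ⟨⟨h1, h2⟩, h3, h4⟩ := hw
      refine ⟨⟨?_, ?_⟩, ?_, ?_⟩
      · intro a
        change P.mkQ (S''.a a a v) = _
        rw [h1, map_smul]
      · intro a
        change P.mkQ (S''.b a a v) = _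
        rw [h2, map_smul]
      · intro a b hab
        change P.mkQ (S''.a a b v) = _
        rw [h3 a b hab, map_zero]
      · intro a b hab
        change P.mkQ (S''.b a b v) = _
        rw [h4 a b hab, map_zero]
    · intro a b
      change P.mkQ (S''.y a b v) = _
      rw [hy, map_zero]

end H95H
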