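import Pool.Agent.Lib.H95H.GW
import Pool.Agent.Lib.H95H.R11

namespace H95H

variable {m n k : ℕ} {M : Type} [AddCommGroup M] [Module ℂ M]
  {M' : Type} [AddCommGroup M'] [Module ℂ M']

/-!
# Chunk G22: linkage

* `G22_quo`: compose the surjections.
* `G22_sub`: let `π : N → M'` be surjective with kernel `N₁`; let `N₂` be the image of `N₁` in `M`. Then
  `N ⧸ N₁ ≃ M'` embeds into `M ⧸ N₂`; a singular vector of `M'` gives one of `S.quo N₂`.
* `G22_ext`: let `π : M₂ → M'` be surjective, `v ∈ M'` singular. Put `P = π (i M₁)`, a submodule of `S'`. If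
  `v ∉ P`, its image in `M' ⧸ P` is singular and nonzero, and `M' ⧸ P` is a quotient of `M₃`
  (`π` maps `ker = i M₁` into `P`). If `v ∈ P`, then it is a singular vector of `S'.res P`, a quotient
  of `M₁`.
* `G22_kac`: induction on `N₀`, for all Kac modules at the same time (also `γ`, `δ` vary). Let `v` be a
  singular vector of weight `(α, β)` in the quotient `S'` of the Kac module `S`; `S'` is good
  and finite-dimensional (it is isomorphic to a quotient `S.quo (ker π)`; `G05_quo`, `G05_iso`).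
  `α`, `β` are antitone (`G06_dom`), `low v` is irreducible (`G07_cyc`) and killed by `y`.
  (1) `β ≥ 0`: otherwise the last entry is `β (n-1) < 0`; `β - e_{n-1}` is antitone, `G10_G` gives
  `w ≠ 0` with entries in `low v` and `tG w = t w`, `t = β (n-1) < 0`, so `(0, w) ∈ S'.Ft t`
  (`G13_OmG`); but `S.Ft t = ⊥` by `G15_neg` and `S'.Ft t` is its image (`G03_surj`).
  (If `n = 0` there is nothing to do: `γ = δ` is the empty function and `α`: here `m = k`; the
  Kac module is its own lowest part, see (2).)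
  (2) if `β = 0`: `S'` is a quotient of `S`, so it has lowest part `π W` of weight
  `(pz γ, nz δ)` (`G16_quot`); `∑ δ ≤ ∑ β = 0` by `G12_low`, so `∑ δ = ∑ β` and `v ∈ π W`, and by
  `G07_uniq` its weight is `(pz γ, nz δ)`.
  (3) otherwise `β = nz δ''`, `δ'' ≠ 0`. Let `s` be the last index with `δ'' s ≥ 1`, `δ₁ = δ'' - e_s`
  (antitone), `t = δ'' s + (n - 1 - s) ≥ 1`. `G10_G` gives `w ≠ 0` with entries in `low v`, a highest
  weight vector of weight `(α, nz δ₁)`, `(0, w) ∈ S'.Ft t`, and it is killed by `y`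
  (`vtY` has entries `y (w p) = 0`). `S'.F t` is a quotient of `S.F t` (`Fmap`, `G03_surj`), which by
  `G15_K2` has a submodule `N` that is zero or a Kac module of weight `(γ, δ')`, with quotient
  zero or a Kac module of weight `(γ', δ)`, `movB δ δ' t`, `movA γ γ' t`; all these are
  antitone. `wd γ δ' = wd γ' δ = wd γ δ - 1_{t-1} + 1_t` (`bs δ' = bs δ - t + (t-1)`,
  `bs γ' = bs γ - (t-1) + t`). By the induction hypothesis (`∑ δ₁ = ∑ β - 1 ≤ N₀ - 1`) and `G22_ext`
  there are antitone `γ₁`, `δ₁'` with `(α, nz δ₁) = (pz γ₁, nz δ₁')` and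
  `wd γ₁ δ₁ = wd γ δ - 1_{t-1} + 1_t`. As `bs δ'' = bs δ₁ - (t-1) + t`, `wd γ₁ δ'' = wd γ δ`.
-/

theorem G22_wdA (γ δ γ' : Fin n → ℕ) (hγ : Antitone γ) (t : ℤ) (ht : 1 ≤ t) (h : movA γ γ' t) :
    ∀ p : ℕ, wd γ' δ p = wd γ δ p - (if (p : ℤ) = t - 1 then 1 else 0) +
      (if (p : ℤ) = t then 1 else 0) := by
  obtain ⟨T, rfl⟩ : ∃ T : ℕ, t = (T : ℤ) := ⟨t.toNat, by omega⟩
  obtain ⟨m1, m2, m3⟩ := movA_bs γ γ' hγ T (by omega) h
  intro p
  unfold wd
  rw [m3]
  by_cases h1 : p = T
  · subst h1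
    rw [if_pos (Finset.mem_insert_self _ _), if_neg m2,
      if_neg (show ¬((p : ℤ) = (p : ℤ) - 1) by omega), if_pos rfl]
    ring
  · by_cases h2 : p = T - 1
    · subst h2
      rw [if_neg (by
        intro hm
        rcases Finset.mem_insert.1 hm with hm | hm
        · exact h1 hm
        · exact (Finset.mem_erase.1 hm).1 rfl), if_pos m1,
        if_pos (show ((T - 1 : ℕ) : ℤ) = (T : ℤ) - 1 by omega),
        if_neg (show ¬(((T - 1 : ℕ) : ℤ) = (T : ℤ)) by omega)]
      ring
    · rw [if_neg (show ¬((p : ℤ) = (T : ℤ) - 1) by omega), if_neg (show ¬((p : ℤ) = (T : ℤ)) by omega)]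
      have : p ∈ insert T ((bs γ).erase (T - 1)) ↔ p ∈ bs γ := by
        rw [Finset.mem_insert, Finset.mem_erase]
        constructor
        · rintro (h | h)
          · exact absurd h h1
          · exact h.2
        · intro h
          exact Or.inr ⟨h2, h⟩
      simp only [this]
      ring

theorem G22_wdB (γ δ δ' : Fin n → ℕ) (hδ : Antitone δ) (t : ℤ) (ht : 1 ≤ t) (h : movB δ δ' t) :
    ∀ p : ℕ, wd γ δ' p = wd γ δ p - (if (p : ℤ) = t - 1 then 1 else 0) +
      (if (p : ℤ) = t then 1 else 0) := by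
  obtain ⟨T, rfl⟩ : ∃ T : ℕ, t = (T : ℤ) := ⟨t.toNat, by omega⟩
  obtain ⟨m1, m2, m3⟩ := movB_bs δ δ' hδ T (by omega) h
  intro p
  unfold wd
  rw [m3]
  by_cases h1 : p = T - 1
  · subst h1
    rw [if_pos (Finset.mem_insert_self _ _), if_neg m2,
      if_pos (show ((T - 1 : ℕ) : ℤ) = (T : ℤ) - 1 by omega),
      if_neg (show ¬(((T - 1 : ℕ) : ℤ) = (T : ℤ)) by omega)]
    ring
  · by_cases h2 : p = T
    · subst h2
      rw [if_neg (show ¬(p ∈ insert (p - 1) ((bs δ).erase p)) by
        intro hm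
        rcases Finset.mem_insert.1 hm with hm | hm
        · exact h1 hm
        · exact (Finset.mem_erase.1 hm).1 rfl), if_pos m1,
        if_neg (show ¬((p : ℤ) = (p : ℤ) - 1) by omega), if_pos rfl]
      ring
    · rw [if_neg (show ¬((p : ℤ) = (T : ℤ) - 1) by omega), if_neg (show ¬((p : ℤ) = (T : ℤ)) by omega)]
      have : p ∈ insert (T - 1) ((bs δ).erase T) ↔ p ∈ bs δ := by
        rw [Finset.mem_insert, Finset.mem_erase]
        constructor
        · rintro (h | h)
          · exact absurd h h1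
          · exact h.2
        · intro h
          exact Or.inr ⟨h2, h⟩
      simp only [this]
      ring

end H95H
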