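import Pool.Agent.Lib.H95H.G15c
import Pool.Agent.Lib.H95H.G18b
import Pool.Agent.Lib.H95H.G22b
import Pool.Agent.Lib.H95H.G22c

namespace H95H

variable {m n k : ℕ} {M : Type} [AddCommGroup M] [Module ℂ M]
  {M' : Type} [AddCommGroup M'] [Module ℂ M']

/-!
# Chunk G22: linkage

* `G22_quo`: compose the surjections.
* `G22_sub`: let `π : N → M'` be surjective with kernel `N₁`; let `N₂` be the image of `N₁` in `M`. Then
  `N ⧸ N₁ ≃ M'` embeds into `M ⧸ N₂`; a singular vector of `M'` gives one of `S.quo N₂`.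
* `G22_ext`: let `π : M₂ → M'` be surjective, `v ∈ M'` singular. Put `P = π (i M₁)`, a submodule of `S'`. If
  `v ∉ P`, its image in `M' ⧸ P` is singular and nonzero, and `M' ⧸ P` is a quotient of `M₃`
  (`π` maps `ker = i M₁` into `P`). If `v ∈ P`, then it is a singular vector of `S'.res P`, a quotient
  of `M₁`.
* `G22_kac`: induction on `N₀`, for all Kac modules at the same time (also `γ`, `δ` vary). Let `v` be a
  singular vector of weight `(α, β)` in the quotient `S'` of the Kac module `S`; `S'` is good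
  and finite-dimensional (it is isomorphic to a quotient `S.quo (ker π)`; `G05_quo`, `G05_iso`).
  `α`, `β` are antitone (`G06_dom`), `low v` is irreducible (`G07_cyc`) and killed by `y`.
  (1) `β ≥ 0`: otherwise the last entry is `β (n-1) < 0`; `β - e_{n-1}` is antitone, `G10_G` gives
  `w ≠ 0` with entries in `low v` and `tG w = t w`, `t = β (n-1) < 0`, so `(0, w) ∈ S'.Ft t`
  (`G13_OmG`); but `S.Ft t = ⊥` by `G15_neg` and `S'.Ft t` is its image (`G03_surj`).
  (If `n = 0` there is nothing to do: `γ = δ` is the empty function and `α`: here `m = k`; the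
  Kac module is its own lowest part, see (2).)
  (2) if `β = 0`: `S'` is a quotient of `S`, so it has lowest part `π W` of weight
  `(pz γ, nz δ)` (`G16_quot`); `∑ δ ≤ ∑ β = 0` by `G12_low`, so `∑ δ = ∑ β` and `v ∈ π W`, and by
  `G07_uniq` its weight is `(pz γ, nz δ)`.
  (3) otherwise `β = nz δ''`, `δ'' ≠ 0`. Let `s` be the last index with `δ'' s ≥ 1`, `δ₁ = δ'' - e_s`
  (antitone), `t = δ'' s + (n - 1 - s) ≥ 1`. `G10_G` gives `w ≠ 0` with entries in `low v`, a highest
  weight vector of weight `(α, nz δ₁)`, `(0, w) ∈ S'.Ft t`, and it is killed by `y`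
  (`vtY` has entries `y (w p) = 0`). `S'.F t` is a quotient of `S.F t` (`Fmap`, `G03_surj`), which by
  `G15_K2` has a submodule `N` that is zero or a Kac module of weight `(γ, δ')`, with quotient
  zero or a Kac module of weight `(γ', δ)`, `movB δ δ' t`, `movA γ γ' t`; all these are
  antitone. `wd γ δ' = wd γ' δ = wd γ δ - 1_{t-1} + 1_t` (`bs δ' = bs δ - t + (t-1)`,
  `bs γ' = bs γ - (t-1) + t`). By the induction hypothesis (`∑ δ₁ = ∑ β - 1 ≤ N₀ - 1`) and `G22_ext`
  there are antitone `γ₁`, `δ₁'` with `(α, nz δ₁) = (pz γ₁, nz δ₁')` and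
  `wd γ₁ δ₁ = wd γ δ - 1_{t-1} + 1_t`. As `bs δ'' = bs δ₁ - (t-1) + t`, `wd γ₁ δ'' = wd γ δ`.
-/

/-- the kernel of a homomorphism is a submodule -/
theorem g22d_ker (S : GM m n M) (S' : GM m n M') (f : M →ₗ[ℂ] M') (hf : GHom S S' f) :
    S.Stab (LinearMap.ker f) := by
  obtain ⟨h1, h2, h3, h4⟩ := hf
  refine ⟨⟨fun i j v hv => ?_, fun i j v hv => ?_⟩, fun i l v hv => ?_, fun i l v hv => ?_⟩
  · rw [LinearMap.mem_ker] at hv ⊢
    rw [h1, hv, map_zero]
  · rw [LinearMap.mem_ker] at hv ⊢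
    rw [h2, hv, map_zero]
  · rw [LinearMap.mem_ker] at hv ⊢
    rw [h3, hv, map_zero]
  · rw [LinearMap.mem_ker] at hv ⊢
    rw [h4, hv, map_zero]

/-- quotients of good modules are good -/
theorem g22d_good (S : GM m n M) (S' : GM m n M') (hS : S.toG0.Good) (hfin : Module.Finite ℂ M)
    (f : M →ₗ[ℂ] M') (hf : GHom S S' f) (hs : Function.Surjective f) : S'.toG0.Good := by
  have hk := g22d_ker S S' f hf
  refine G05_iso (S.quo (LinearMap.ker f) hk) S' (G05_quo S hS _ hk)
    (f.quotKerEquivOfSurjective hs).toLinearMap ?_ (f.quotKerEquivOfSurjective hs).bijective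
  obtain ⟨h1, h2, h3, h4⟩ := hf
  refine ⟨fun i j v => ?_, fun i j v => ?_, fun i j v => ?_, fun i j v => ?_⟩
  · obtain ⟨v, rfl⟩ := (LinearMap.ker f).mkQ_surjective v
    exact h1 i j v
  · obtain ⟨v, rfl⟩ := (LinearMap.ker f).mkQ_surjective v
    exact h2 i j v
  · obtain ⟨v, rfl⟩ := (LinearMap.ker f).mkQ_surjective v
    exact h3 i j v
  · obtain ⟨v, rfl⟩ := (LinearMap.ker f).mkQ_surjective v
    exact h4 i j v

/-- the module generated by a singular vector is killed by the odd operators `y` -/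
theorem g22d_y (S : GM m n M) (hS : S.toG0.Good) (hfin : Module.Finite ℂ M) (α : Fin m → ℤ)
    (β : Fin n → ℤ) (v : M) (hv : S.toG0.HW α β v) (hne : v ≠ 0) (hy : ∀ i l, S.y i l v = 0) :
    ∀ i l, ∀ w ∈ S.toG0.low v, S.y i l w = 0 := by
  have hK : S.toG0.Stab (⨅ i, ⨅ l, LinearMap.ker (S.y i l)) := by
    refine ⟨fun i j v hv => ?_, fun i j v hv => ?_⟩
    · simp only [Submodule.mem_iInf, LinearMap.mem_ker] at hv ⊢
      intro p l
      have h := S.ay i j p l v
      rw [hv, map_zero] at h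
      by_cases hip : i = p
      · rw [if_pos hip, hv, neg_zero, zero_sub, neg_eq_zero] at h
        exact h
      · rw [if_neg hip, neg_zero, zero_sub, neg_eq_zero] at h
        exact h
    · simp only [Submodule.mem_iInf, LinearMap.mem_ker] at hv ⊢
      intro p l
      have h := S.by' i j p l v
      rw [hv, map_zero] at h
      by_cases hip : i = l
      · rw [if_pos hip, hv, neg_zero, zero_sub, neg_eq_zero] at h
        exact h
      · rw [if_neg hip, neg_zero, zero_sub, neg_eq_zero] at h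
        exact h
  have h1 := (G07_cyc S.toG0 hS hfin α β v hv hne).2.2 _ hK (by
    simp only [Submodule.mem_iInf, LinearMap.mem_ker]
    exact hy)
  intro i l w hw
  have h2 := h1 hw
  simp only [Submodule.mem_iInf, LinearMap.mem_ker] at h2
  exact h2 i l

/-- the translation of a singular vector -/
theorem g22d_step (S : GM m n M) (hS : S.toG0.Good) (hfin : Module.Finite ℂ M) (α : Fin m → ℤ)
    (β : Fin n → ℤ) (v : M) (hv : S.toG0.HW α β v) (hne : v ≠ 0) (hy : ∀ i l, S.y i l v = 0) (s : Fin n)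
    (hs : Antitone (β - Pi.single s 1)) (t : ℤ) (ht : t = β s + (n - 1 - s.1)) :
    ∃ z : ↥(S.Ft t), z ≠ 0 ∧ (S.F t).toG0.HW α (β - Pi.single s 1) z ∧ ∀ i l, (S.F t).y i l z = 0 := by
  subst ht
  obtain ⟨hI, hmem, hmin⟩ := G07_cyc S.toG0 hS hfin α β v hv hne
  have hy' := g22d_y S hS hfin α β v hv hne hy
  obtain ⟨w, hw0, hwm, hwh, hwt⟩ := G10_G S.toG0 hS hfin α β (S.toG0.low v) hI s hs
  have hwV : w ∈ vW n (S.toG0.low v) := hwm
  have hz : iG m n M w ∈ S.Ft (β s + (n - 1 - s.1)) := by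
    rw [GM.Ft, Module.End.mem_maxGenEigenspace]
    refine ⟨1, ?_⟩
    rw [pow_one, LinearMap.sub_apply, G13_OmG S _ hy' w hwV, hwt, map_smul]
    simp
  have hinj : ∀ u : Fin n → M, iG m n M u = 0 → u = 0 := fun u hu => (Prod.ext_iff.1 hu).2
  refine ⟨⟨iG m n M w, hz⟩, ?_, ?_, ?_⟩
  · intro h
    exact hw0 (hinj w (congrArg Subtype.val h))
  · obtain ⟨⟨c1, c2⟩, c3, c4⟩ := hwh
    refine ⟨⟨fun i => Subtype.ext ?_, fun l => Subtype.ext ?_⟩, fun i j hij => Subtype.ext ?_,
      fun i j hij => Subtype.ext ?_⟩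
    · show S.vt.a i i (iG m n M w) = (α i : ℂ) • iG m n M w
      rw [g13a_a, c1, map_smul]
    · show S.vt.b l l (iG m n M w) = (((β - Pi.single s 1 : Fin n → ℤ) l : ℤ) : ℂ) • iG m n M w
      rw [g13a_b, c2, map_smul]
    · show S.vt.a i j (iG m n M w) = 0
      rw [g13a_a, c3 i j hij, map_zero]
    · show S.vt.b i j (iG m n M w) = 0
      rw [g13a_b, c4 i j hij, map_zero]
  · intro i l
    apply Subtype.ext
    exact g13a_y S _ hy' w hwV i l

theorem g22d_LP (S : GM (n + k) n M) (h : Subsingleton M) (ω : ℕ → ℤ) (N₀ : ℕ) : S.LP ω N₀ := by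
  intro M' _ _ S' π hπ hs α β v hv
  obtain ⟨u, rfl⟩ := hs v
  exact absurd (by rw [Subsingleton.elim u 0, map_zero]) hv

/-- decreasing the last entry -/
theorem g22d_last (β : Fin n → ℤ) (hβ : Antitone β) (s : Fin n) (hs : ∀ l, s < l → β l < β s) :
    Antitone (β - Pi.single s 1) := by
  intro a b hab
  simp only [Pi.sub_apply]
  have h1 := hβ hab
  by_cases ha : a = s
  · subst ha
    by_cases hb : b = a
    · subst hb
      exact le_rfl
    · have h2 := hs b (lt_of_le_of_ne hab (Ne.symm hb))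
      rw [Pi.single_eq_same, Pi.single_eq_of_ne hb]
      linarith
  · rw [Pi.single_eq_of_ne ha]
    by_cases hb : b = s
    · subst hb
      rw [Pi.single_eq_same]
      linarith
    · rw [Pi.single_eq_of_ne hb]
      linarith

theorem g22d_main (N₀ : ℕ)
    (ih : ∀ N₁ : ℕ, N₀ = N₁ + 1 → ∀ (M : Type) [AddCommGroup M] [Module ℂ M] (S : GM (n + k) n M),
      S.toG0.Good → Module.Finite ℂ M → ∀ γ δ : Fin n → ℕ, Antitone γ → Antitone δ → S.isKac γ δ →
      S.LP (wd γ δ) N₁)
    (M : Type) [AddCommGroup M] [Module ℂ M] (S : GM (n + k) n M)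
    (hS : S.toG0.Good) (hfin : Module.Finite ℂ M) (γ δ : Fin n → ℕ) (hγ : Antitone γ)
    (hδ : Antitone δ) (hK : S.isKac γ δ) : S.LP (wd γ δ) N₀ := by
  intro M' _ _ S' π hπ hs α β v hv0 hHW hy hsum
  have hfin' : Module.Finite ℂ M' := Module.Finite.of_surjective π hs
  have hS' := g22d_good S S' hS hfin π hπ hs
  obtain ⟨hα, hβ⟩ := G06_dom S'.toG0 hS' α β v hHW hv0
  -- the entries of β are nonnegative
  have hpos : ∀ l, 0 ≤ β l := by
    by_contra hneg
    push Not at hneg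
    obtain ⟨l, hl⟩ := hneg
    have hn : 0 < n := Fin.pos l
    obtain ⟨s, hs1⟩ : ∃ s : Fin n, s.1 = n - 1 := ⟨⟨n - 1, by omega⟩, rfl⟩
    have hls : l ≤ s := by
      rw [Fin.le_def]
      have := l.2
      omega
    have hβs : β s < 0 := lt_of_le_of_lt (hβ hls) hl
    obtain ⟨z, hz0, -, -⟩ := g22d_step S' hS' hfin' α β v hHW hv0 hy s
      (g22d_last β hβ s (fun b hb => by
        exfalso
        rw [Fin.lt_def] at hb
        have := b.2
        omega)) _ rfl
    have ht : β s + ((n : ℤ) - 1 - (s.1 : ℤ)) < 0 := by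
      have : (s.1 : ℤ) = (n : ℤ) - 1 := by omega
      linarith
    have h1 := G15_neg S hS hfin γ δ hγ hδ hK _ ht
    have h2 := G18_zero S hfin S' π hπ hs _ h1
    apply hz0
    apply Subtype.ext
    exact (Submodule.mem_bot ℂ).1 (h2.le z.2)
  by_cases hβ0 : ∀ l, β l = 0
  · -- the lowest part
    obtain ⟨W, hW, -⟩ := hK
    have hnt : Nontrivial M' := ⟨v, 0, hv0⟩
    have hL := G16_quot S S' π hπ hs hnt _ _ W hW
    obtain ⟨h1, h2⟩ := G12_low S' hS' hfin' _ _ _ hL α β v hHW.1 hv0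
    have h3 : ∑ l, β l = 0 := Finset.sum_eq_zero fun l _ => hβ0 l
    have h4 : 0 ≤ ∑ l, nz δ l := Finset.sum_nonneg fun l _ => Int.natCast_nonneg _
    have h5 := h2 (by linarith)
    obtain ⟨u, hu1, hu2, hu3⟩ := hL.irr.hw
    obtain ⟨h6, h7, -⟩ := G07_uniq S'.toG0 hS' hfin' _ α _ β _ hL.irr u v hu1 hu3 hu2 h5 hHW hv0
    exact ⟨γ, δ, hγ, hδ, h6, h7, rfl⟩
  · push Not at hβ0
    obtain ⟨δ'', hδ''⟩ : ∃ δ'' : Fin n → ℕ, β = nz δ'' :=
      ⟨fun l => (β l).toNat, funext fun l => (Int.toNat_of_nonneg (hpos l)).symm⟩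
    have hne : (Finset.univ.filter fun l => β l ≠ 0).Nonempty := by
      obtain ⟨l, hl⟩ := hβ0
      exact ⟨l, by simp [hl]⟩
    obtain ⟨s, hsd⟩ : ∃ s, s = (Finset.univ.filter fun l => β l ≠ 0).max' hne := ⟨_, rfl⟩
    have hs0 : β s ≠ 0 := by
      have h := Finset.max'_mem _ hne
      rw [← hsd] at h
      exact (Finset.mem_filter.1 h).2
    have hs1 : 1 ≤ β s := by
      have := hpos s
      omega
    have hs2 : ∀ l, s < l → β l = 0 := by
      intro l hl
      by_contra h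
      have := Finset.le_max' (Finset.univ.filter fun l => β l ≠ 0) l (by simp [h])
      rw [← hsd] at this
      exact absurd hl (not_lt.2 this)
    have hanti : Antitone (β - Pi.single s 1) := g22d_last β hβ s (fun l hl => by rw [hs2 l hl]; omega)
    obtain ⟨t, htd⟩ : ∃ t : ℤ, t = β s + (n - 1 - s.1) := ⟨_, rfl⟩
    have ht1 : 1 ≤ t := by
      have := s.2
      omega
    have hsum' : ∑ l, (β - Pi.single s 1 : Fin n → ℤ) l = ∑ l, β l - 1 := by
      simp only [Pi.sub_apply, Finset.sum_sub_distrib]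
      rw [Finset.sum_pi_single']
      simp
    have hsum1 : β s ≤ ∑ l, β l := Finset.single_le_sum (fun l _ => hpos l) (Finset.mem_univ s)
    obtain ⟨N₁, hN₁⟩ : ∃ N₁, N₀ = N₁ + 1 := ⟨N₀ - 1, by omega⟩
    obtain ⟨z, hz0, hzH, hzy⟩ := g22d_step S' hS' hfin' α β v hHW hv0 hy s hanti t htd
    obtain ⟨ω₁, hω₁⟩ : ∃ ω₁ : ℕ → ℤ, ω₁ = fun p : ℕ => wd γ δ p - (if (p : ℤ) = t - 1 then 1 else 0) +
      (if (p : ℤ) = t then 1 else 0) := ⟨_, rfl⟩
    have hLP : (S.F t).LP ω₁ N₁ := by
      obtain ⟨N, hN, ⟨a1, a2⟩, a3, a4⟩ := G15_K2 S hS hfin γ δ hγ hδ hK t ht1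
      have hF := G05_F S hS t
      have hFf := G03_finite S t
      refine G22_ext ((S.F t).res N hN) (S.F t) ((S.F t).quo N hN) N.subtype N.mkQ
        ⟨fun _ _ _ => rfl, fun _ _ _ => rfl, fun _ _ _ => rfl, fun _ _ _ => rfl⟩
        ⟨fun _ _ _ => rfl, fun _ _ _ => rfl, fun _ _ _ => rfl, fun _ _ _ => rfl⟩
        N.mkQ_surjective (by rw [Submodule.ker_mkQ, Submodule.range_subtype]) ω₁ N₁ ?_ ?_
      · by_cases hB : ∃ δ', movB δ δ' t
        · obtain ⟨δ', hB⟩ := hB
          have e : wd γ δ' = ω₁ := by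
            rw [hω₁]
            exact funext (G22_wdB γ δ δ' hδ t ht1 hB)
          rw [← e]
          exact ih N₁ hN₁ ↥N ((S.F t).res N hN) (G05_res (S.F t) hF N hN) inferInstance γ δ' hγ hB.1 (a1 δ' hB)
        · push Not at hB
          refine g22d_LP _ ?_ _ _
          rw [a2 hB]
          infer_instance
      · by_cases hA : ∃ γ', movA γ γ' t
        · obtain ⟨γ', hA⟩ := hA
          have e : wd γ' δ = ω₁ := by
            rw [hω₁]
            exact funext (G22_wdA γ δ γ' hγ t ht1 hA)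
          rw [← e]
          exact ih N₁ hN₁ _ ((S.F t).quo N hN) (G05_quo (S.F t) hF N hN) inferInstance γ' δ hA.1 hδ (a3 γ' hA)
        · push Not at hA
          refine g22d_LP _ ?_ _ _
          exact Submodule.Quotient.subsingleton_iff.2 (a4 hA)
    obtain ⟨γ₁, δ₁, hγ₁, hδ₁, e1, e2, e3⟩ := hLP ↥(S'.Ft t) (S'.F t) (Fmap hπ t) (G03_Fhom hπ t)
      (G03_surj hπ t hs) α (β - Pi.single s 1) z hz0 hzH hzy (by rw [hsum']; omega)
    have hδ''a : Antitone δ'' := by
      intro a b hab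
      have := hβ hab
      rw [hδ''] at this
      simp only [nz] at this
      exact_mod_cast this
    have hδs : δ'' = δ₁ + Pi.single s 1 := by
      funext l
      have h1 := congrFun e2 l
      rw [hδ''] at h1
      simp only [Pi.sub_apply, nz] at h1
      by_cases hl : l = s
      · subst hl
        rw [Pi.single_eq_same] at h1
        rw [Pi.add_apply, Pi.single_eq_same]
        omega
      · rw [Pi.single_eq_of_ne hl] at h1
        rw [Pi.add_apply, Pi.single_eq_of_ne hl]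
        omega
    have hmov : movB δ'' δ₁ t := by
      refine ⟨hδ₁, s, hδs, ?_⟩
      rw [htd, hδ'']
      rfl
    refine ⟨γ₁, δ'', hγ₁, hδ''a, e1, hδ'', ?_⟩
    funext p
    have h1 := G22_wdB γ₁ δ'' δ₁ hδ''a t ht1 hmov p
    rw [e3, hω₁] at h1
    simp only at h1
    linarith

theorem G22_kac (N₀ : ℕ) (M : Type) [AddCommGroup M] [Module ℂ M] (S : GM (n + k) n M)
    (hS : S.toG0.Good) (hfin : Module.Finite ℂ M) (γ δ : Fin n → ℕ) (hγ : Antitone γ)
    (hδ : Antitone δ) (hK : S.isKac γ δ) : S.LP (wd γ δ) N₀ := by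
  induction N₀ generalizing M S γ δ with
  | zero => exact g22d_main 0 (fun N₁ h => absurd h (by omega)) M S hS hfin γ δ hγ hδ hK
  | succ N₁ ih =>
    refine g22d_main (N₁ + 1) (fun N₂ h => ?_) M S hS hfin γ δ hγ hδ hK
    obtain rfl : N₁ = N₂ := by omega
    intro M _ _ S hS hfin γ δ hγ hδ hK
    exact ih M S hS hfin γ δ hγ hδ hK

end H95H
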