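import Mathlib

/-!
# Part R: combinatorics of arcs (cap diagrams), definitions

`X` = blocked positions, `V` = positions of the down arrows, a position outside `X` and `V` is free.
The arc joins `q ∈ V` with the nearest free `p < q` such that the word on `[p, q]` without `X`
is balanced.
-/

namespace H95H

/-- `X` are the blocked positions, `V` the positions of the down arrows. The arc `(p, q)` joins `q` in
`V` with the nearest free `p` on its left such that the word on `[p, q]` is balanced. -/
def Arc (X V : Finset ℕ) (p q : ℕ) : Prop :=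
  p < q ∧ p ∉ X ∧ p ∉ V ∧ q ∈ V ∧
  2 * (V.filter (fun x => p ≤ x ∧ x ≤ q)).card = ((Finset.Icc p q).filter (fun x => x ∉ X)).card ∧
  ∀ p', p < p' → p' < q → p' ∉ X → p' ∉ V →
    2 * (V.filter (fun x => p' ≤ x ∧ x ≤ q)).card ≠ ((Finset.Icc p' q).filter (fun x => x ∉ X)).card

/-- `V` arises from `V'` by moving the right ends of some arcs to the left ends -/
def Rel (X V V' : Finset ℕ) : Prop :=
  ∃ A : Finset (ℕ × ℕ), (∀ a ∈ A, Arc X V' a.1 a.2) ∧
    V = (V' \ A.image Prod.snd) ∪ A.image Prod.fst

/-- value of a position -/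
def vl (X V : Finset ℕ) (x : ℕ) : ℤ := if x ∈ X then 0 else if x ∈ V then 1 else -1

/-- the balance of the word on `[p, q]` -/
def ht (X V : Finset ℕ) (p q : ℕ) : ℤ := ∑ x ∈ Finset.Icc p q, vl X V x

end H95H
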