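import Pool.Agent.Lib.H95H.G04a
import Pool.Agent.Lib.H95H.G22d
import Pool.Agent.Lib.H95H.R00

namespace H95H

variable {n k : ℕ}

/-- `f` is additive, on Kac modules in the block of `(γ', δ')` it is the indicator of `Rel`, and on
simple modules in this block it is the indicator of the simple module of weight `(γ', δ')`. -/
def Adm (f : ∀ (M : Type) [AddCommGroup M] [Module ℂ M], GM (n + k) n M → ℕ)
    (γ' δ' : Fin n → ℕ) : Prop :=
  AddFn f ∧
  (∀ (M : Type) [AddCommGroup M] [Module ℂ M] (S : GM (n + k) n M), Module.Finite ℂ M →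
    S.toG0.Good → ∀ γ δ : Fin n → ℕ, Antitone γ → Antitone δ → wd γ δ = wd γ' δ' → S.isKac γ δ →
    (Rel (XX γ' δ') (VV γ δ) (VV γ' δ') → f M S = 1) ∧
    (¬Rel (XX γ' δ') (VV γ δ) (VV γ' δ') → f M S = 0)) ∧
  (∀ (M : Type) [AddCommGroup M] [Module ℂ M] (S : GM (n + k) n M), Module.Finite ℂ M →
    S.toG0.Good → Nontrivial M → S.Sim → ∀ γ δ : Fin n → ℕ, Antitone γ → Antitone δ →
    wd γ δ = wd γ' δ' → S.isLow γ δ →
    (γ = γ' ∧ δ = δ' → f M S = 1) ∧ (¬(γ = γ' ∧ δ = δ') → f M S = 0))

/-!
# Chunk G23: additive functions are determined by their values on simple modules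

* `G23_agree`: strong induction on `finrank M`. If `M` is trivial both are `0` (`G04_zero`). Otherwise
  let `N` be a maximal element of the set of submodules `≠ ⊤` (finite dimension); `S.quo N` is simple
  and nontrivial; by `G16_sim_low` it has a lowest part with highest weight vector `v` of weight
  `(α, β)`, `v` is killed by `y`, so by `Lk` (with `N₀ = (∑ β).toNat`) `α = pz γ`, `β = nz δ` with
  antitone `γ`, `δ` in the block. `f S = f N + f (S.quo N)` (`G04_sub`), the same for `g`; `S.res N` is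
  in the block (`G22_sub`), good (`G05_res`), of smaller dimension.
* `G23_kac`: `G22_kac` for all `N₀`.
* `G23_sup`: if `f S ≤ 1` then on the supremum of finitely many submodules `f` is the maximum of the
  values: `f (⨆ N_i) ≤ ∑ f (N_i)` (`G04_sup`, induction) and `f (N_i) ≤ f (⨆ N_i) ≤ f S ≤ 1`
  (`G04_mono`). The supremum of submodules is a submodule.
-/

theorem g23_bot {m : ℕ} {M : Type} [AddCommGroup M] [Module ℂ M] (S : GM m n M) : S.Stab ⊥ := by
  refine ⟨⟨?_, ?_⟩, ?_, ?_⟩ <;>
  · intro i j v hv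
    rw [(Submodule.mem_bot ℂ).1 hv, map_zero]
    exact Submodule.zero_mem _

theorem g23_comap {m : ℕ} {M : Type} [AddCommGroup M] [Module ℂ M] (S : GM m n M) (N : Submodule ℂ M) (hN : S.Stab N)
    (P : Submodule ℂ (M ⧸ N)) (hP : (S.quo N hN).Stab P) : S.Stab (P.comap N.mkQ) :=
  ⟨⟨fun i j v hv => hP.1.1 i j (N.mkQ v) hv, fun i j v hv => hP.1.2 i j (N.mkQ v) hv⟩,
    fun i j v hv => hP.2.1 i j (N.mkQ v) hv, fun i j v hv => hP.2.2 i j (N.mkQ v) hv⟩

theorem G23_agree (f g : ∀ (M : Type) [AddCommGroup M] [Module ℂ M], GM (n + k) n M → ℕ)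
    (hf : AddFn f) (hg : AddFn g) (ω : ℕ → ℤ)
    (h : ∀ (M : Type) [AddCommGroup M] [Module ℂ M] (S : GM (n + k) n M), Module.Finite ℂ M →
      S.toG0.Good → Nontrivial M → S.Sim → ∀ γ δ : Fin n → ℕ, Antitone γ → Antitone δ →
      wd γ δ = ω → S.isLow γ δ → f M S = g M S)
    (M : Type) [AddCommGroup M] [Module ℂ M] (S : GM (n + k) n M) (hfin : Module.Finite ℂ M)
    (hS : S.toG0.Good) (hL : S.Lk ω) : f M S = g M S := by
  have key : ∀ d : ℕ, ∀ (M : Type) [AddCommGroup M] [Module ℂ M] (S : GM (n + k) n M), Module.Finite ℂ M →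
      S.toG0.Good → S.Lk ω → Module.finrank ℂ M = d → f M S = g M S := by
    intro d
    induction d using Nat.strong_induction_on with
    | _ d ih =>
      intro M _ _ S hfin hS hL hd
      rcases subsingleton_or_nontrivial M with hM | hM
      · rw [G04_zero f hf M S hM, G04_zero g hg M S hM]
      · obtain ⟨N, ⟨hN, hNt⟩, hmax⟩ := (wellFounded_gt (α := Submodule ℂ M)).has_min
          {N | S.Stab N ∧ N ≠ ⊤} ⟨⊥, g23_bot S, bot_ne_top⟩
        have hsim : (S.quo N hN).Sim := by
          intro P hP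
          have h1 := g23_comap S N hN P hP
          by_cases h2 : P.comap N.mkQ = ⊤
          · right
            rw [eq_top_iff]
            intro z _
            obtain ⟨v, rfl⟩ := N.mkQ_surjective z
            have h3 : v ∈ P.comap N.mkQ := by
              rw [h2]
              exact Submodule.mem_top
            exact h3
          · left
            have h3 : N ≤ P.comap N.mkQ := by
              intro v hv
              rw [Submodule.mem_comap, Submodule.mkQ_apply, (Submodule.Quotient.mk_eq_zero N).2 hv]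
              exact P.zero_mem
            have h4 : ¬ N < P.comap N.mkQ := fun hlt => hmax _ ⟨h1, h2⟩ hlt
            have h5 : N = P.comap N.mkQ := by
              by_contra hne
              exact h4 (lt_of_le_of_ne h3 hne)
            rw [eq_bot_iff]
            intro z hz
            obtain ⟨v, rfl⟩ := N.mkQ_surjective z
            have h6 : v ∈ N := by
              rw [h5]
              exact hz
            rw [Submodule.mem_bot, Submodule.mkQ_apply, (Submodule.Quotient.mk_eq_zero N).2 h6]
        have hnt : Nontrivial (M ⧸ N) := Submodule.Quotient.nontrivial_iff.2 hNt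
        have hgq : (S.quo N hN).toG0.Good := G05_quo S hS N hN
        have hfq : Module.Finite ℂ (M ⧸ N) := inferInstance
        obtain ⟨α, β, W, hW⟩ := G16_sim_low (S.quo N hN) hgq hfq hnt hsim
        obtain ⟨v, hvW, hv0, hvH⟩ := hW.irr.hw
        obtain ⟨γ, δ, hγ, hδ, hα, hβ, hwd⟩ := hL (∑ l, β l).toNat (M ⧸ N) (S.quo N hN) N.mkQ (g04a_mkQ S N hN)
          N.mkQ_surjective α β v hv0 hvH (fun i l => hW.yW i l v hvW) (Int.self_le_toNat _)
        subst hα hβ
        have h7 := h (M ⧸ N) (S.quo N hN) hfq hgq hnt hsim γ δ hγ hδ hwd ⟨W, hW⟩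
        have h8 : f ↥N (S.res N hN) = g ↥N (S.res N hN) := by
          refine ih (Module.finrank ℂ ↥N) ?_ ↥N (S.res N hN) inferInstance (G05_res S hS N hN)
            (fun N₀ => G22_sub S ω N₀ (hL N₀) N hN) rfl
          rw [← hd]
          exact Submodule.finrank_lt hNt
        rw [G04_sub f hf M S hfin hS N hN, G04_sub g hg M S hfin hS N hN, h7, h8]
  exact key _ M S hfin hS hL rfl

theorem G23_kac (M : Type) [AddCommGroup M] [Module ℂ M] (S : GM (n + k) n M)
    (hS : S.toG0.Good) (hfin : Module.Finite ℂ M) (γ δ : Fin n → ℕ) (hγ : Antitone γ)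
    (hδ : Antitone δ) (hK : S.isKac γ δ) : S.Lk (wd γ δ) :=
  fun N₀ => G22_kac N₀ M S hS hfin γ δ hγ hδ hK

end H95H
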