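import Pool.Agent.Lib.H95H.G04c
import Pool.Agent.Lib.H95H.G23a

namespace H95H

variable {n k : ℕ}

/-!
# Chunk G23: additive functions are determined by their values on simple modules

* `G23_agree`: strong induction on `finrank M`. If `M` is trivial both are `0` (`G04_zero`). Otherwise
  let `N` be a maximal element of the set of submodules `≠ ⊤` (finite dimension); `S.quo N` is simple
  and nontrivial; by `G16_sim_low` it has a lowest part with highest weight vector `v` of weight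
  `(α, β)`, `v` is killed by `y`, so by `Lk` (with `N₀ = (∑ β).toNat`) `α = pz γ`, `β = nz δ` with
  antitone `γ`, `δ` in the block. `f S = f N + f (S.quo N)` (`G04_sub`), the same for `g`; `S.res N` is
  in the block (`G22_sub`), good (`G05_res`), of smaller dimension.
* `G23_kac`: `G22_kac` for all `N₀`.
* `G23_sup`: if `f S ≤ 1` then on the supremum of finitely many submodules `f` is the maximum of the
  values: `f (⨆ N_i) ≤ ∑ f (N_i)` (`G04_sup`, induction) and `f (N_i) ≤ f (⨆ N_i) ≤ f S ≤ 1`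
  (`G04_mono`). The supremum of submodules is a submodule.
-/

theorem g23b_le {ι M : Type} [AddCommGroup M] [Module ℂ M] (T : M →ₗ[ℂ] M) (N : ι → Submodule ℂ M)
    (h : ∀ i, ∀ v ∈ N i, T v ∈ N i) : ∀ v ∈ ⨆ i, N i, T v ∈ ⨆ i, N i := by
  have h1 : (⨆ i, N i) ≤ (⨆ i, N i).comap T :=
    iSup_le fun i v hv => Submodule.mem_iSup_of_mem i (h i v hv)
  exact fun v hv => h1 hv

theorem G23_stab_iSup {m : ℕ} {ι M : Type} [AddCommGroup M] [Module ℂ M] (S : GM m n M)
    (N : ι → Submodule ℂ M) (hN : ∀ i, S.Stab (N i)) : S.Stab (⨆ i, N i) :=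
  ⟨⟨fun i j => g23b_le (S.a i j) N fun k => (hN k).1.1 i j, fun i j => g23b_le (S.b i j) N fun k => (hN k).1.2 i j⟩,
    fun i j => g23b_le (S.x i j) N fun k => (hN k).2.1 i j, fun i j => g23b_le (S.y i j) N fun k => (hN k).2.2 i j⟩

theorem g23b_congr (f : ∀ (M : Type) [AddCommGroup M] [Module ℂ M], GM (n + k) n M → ℕ) (M : Type) [AddCommGroup M]
    [Module ℂ M] (S : GM (n + k) n M) {P Q : Submodule ℂ M} (h : P = Q) (hP : S.Stab P) (hQ : S.Stab Q) :
    f ↥P (S.res P hP) = f ↥Q (S.res Q hQ) := by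
  subst h
  rfl

theorem g23b_sum (f : ∀ (M : Type) [AddCommGroup M] [Module ℂ M], GM (n + k) n M → ℕ)
    (hf : AddFn f) (M : Type) [AddCommGroup M] [Module ℂ M] (S : GM (n + k) n M)
    (hfin : Module.Finite ℂ M) (hS : S.toG0.Good) {ι : Type}
    (N : ι → Submodule ℂ M) (hN : ∀ i, S.Stab (N i)) (s : Finset ι) :
    ∀ h : S.Stab (⨆ i ∈ s, N i), f ↥(⨆ i ∈ s, N i) (S.res _ h) ≤ ∑ i ∈ s, f ↥(N i) (S.res (N i) (hN i)) := by
  classical
  induction s using Finset.induction_on with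
  | empty =>
    intro h
    have h1 : (⨆ i ∈ (∅ : Finset ι), N i) = ⊥ := by simp
    have h2 : Subsingleton ↥(⨆ i ∈ (∅ : Finset ι), N i) := by
      rw [h1]
      infer_instance
    rw [G04_zero f hf _ _ h2]
    exact Nat.zero_le _
  | insert a s ha ih =>
    intro h
    have h1 : (⨆ i ∈ insert a s, N i) = N a ⊔ ⨆ i ∈ s, N i := Finset.iSup_insert a s N
    have h2 : S.Stab (⨆ i ∈ s, N i) := by
      refine G23_stab_iSup S (fun i => ⨆ (_ : i ∈ s), N i) fun i => ?_
      by_cases hi : i ∈ s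
      · have e : (⨆ (_ : i ∈ s), N i) = N i := by simp [hi]
        rw [e]
        exact hN i
      · have e : (⨆ (_ : i ∈ s), N i) = ⊥ := by simp [hi]
        rw [e]
        exact g23_bot S
    have h3 : S.Stab (N a ⊔ ⨆ i ∈ s, N i) := h1 ▸ h
    rw [g23b_congr f M S h1 h h3, Finset.sum_insert ha]
    exact (G04_sup f hf M S hfin hS (N a) _ (hN a) h2 h3).trans (Nat.add_le_add_left (ih h2) _)

theorem G23_sup (f : ∀ (M : Type) [AddCommGroup M] [Module ℂ M], GM (n + k) n M → ℕ)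
    (hf : AddFn f) (M : Type) [AddCommGroup M] [Module ℂ M] (S : GM (n + k) n M)
    (hfin : Module.Finite ℂ M) (hS : S.toG0.Good) (h1 : f M S ≤ 1) {ι : Type} [Fintype ι]
    (N : ι → Submodule ℂ M) (hN : ∀ i, S.Stab (N i)) :
    ((∃ i, f ↥(N i) (S.res (N i) (hN i)) = 1) →
      f ↥(⨆ i, N i) (S.res (⨆ i, N i) (G23_stab_iSup S N hN)) = 1) ∧
    ((∀ i, f ↥(N i) (S.res (N i) (hN i)) = 0) →
      f ↥(⨆ i, N i) (S.res (⨆ i, N i) (G23_stab_iSup S N hN)) = 0) := by
  constructor
  · rintro ⟨i, hi⟩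
    have h2 := G04_mono f hf M S hfin hS (N i) (⨆ i, N i) (hN i) (G23_stab_iSup S N hN) (le_iSup N i)
    have h3 := G04_sub f hf M S hfin hS (⨆ i, N i) (G23_stab_iSup S N hN)
    omega
  · intro h
    have e : (⨆ i, N i) = ⨆ i ∈ (Finset.univ : Finset ι), N i := by simp
    have h2 : S.Stab (⨆ i ∈ (Finset.univ : Finset ι), N i) := e ▸ G23_stab_iSup S N hN
    have h3 := g23b_sum f hf M S hfin hS N hN Finset.univ h2
    rw [g23b_congr f M S e (G23_stab_iSup S N hN) h2]
    have h4 : ∑ i, f ↥(N i) (S.res (N i) (hN i)) = 0 := Finset.sum_eq_zero fun i _ => h i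
    omega

end H95H
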