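import Pool.Agent.Lib.H95H.G00

/-!
# Stage 2, definitions: blocks (`Arc` and `Rel` are in `R00.lean`)
-/

namespace H95H

/-- the block of `(γ, δ)` -/
def wd {n : ℕ} (γ δ : Fin n → ℕ) : ℕ → ℤ := fun p =>
  (if p ∈ bs γ then 1 else 0) - (if p ∈ bs δ then 1 else 0)

/-- the positions with exactly one bead -/
def XX {n : ℕ} (γ δ : Fin n → ℕ) : Finset ℕ := symmDiff (bs γ) (bs δ)

/-- the positions with two beads -/
def VV {n : ℕ} (γ δ : Fin n → ℕ) : Finset ℕ := bs γ ∩ bs δ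

end H95H
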