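import Pool.Agent.Lib.H95H.R11

namespace H95H

/-!
# Chunk R12: consequences for moves

* `movA_iff`, `movB_iff`: from `R11`.
* `movA_uniq`, `movB_uniq`: `bs_inj` and `movA_bs`, `movB_bs` (both new partitions are antitone).
* `bs_swap`: `(bs γ).image σ` has `n` elements (`bs_card`, `σ` injective); `bs_surj`.
* `movA_swap`: if `t - 1 ∈ bs γ`, `t ∉ bs γ` then `(bs γ).image σ = insert t ((bs γ).erase (t - 1))` for
  `σ = swap (t - 1) t`; the same for `movB_swap`; `bs_same`: if both or none of `t - 1`, `t` are in `bs γ`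
  then `(bs γ).image σ = bs γ`.
-/

theorem movA_iff {n : ℕ} (γ : Fin n → ℕ) (hγ : Antitone γ) (t : ℕ) (ht' : 1 ≤ t) :
    (∃ γ', movA γ γ' (t : ℤ)) ↔ (t - 1 ∈ bs γ ∧ t ∉ bs γ) := by
  constructor
  · rintro ⟨γ', h⟩
    have := movA_bs γ γ' hγ t ht' h
    exact ⟨this.1, this.2.1⟩
  · rintro ⟨h1, h2⟩
    exact movA_ex γ hγ t ht' h1 h2

theorem movB_iff {n : ℕ} (δ : Fin n → ℕ) (hδ : Antitone δ) (t : ℕ) (ht' : 1 ≤ t) :
    (∃ δ', movB δ δ' (t : ℤ)) ↔ (t ∈ bs δ ∧ t - 1 ∉ bs δ) := by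
  constructor
  · rintro ⟨γ', h⟩
    have := movB_bs δ γ' hδ t ht' h
    exact ⟨this.1, this.2.1⟩
  · rintro ⟨h1, h2⟩
    exact movB_ex δ hδ t ht' h1 h2

theorem movA_uniq {n : ℕ} (γ γ' γ'' : Fin n → ℕ) (hγ : Antitone γ) (t : ℕ) (ht' : 1 ≤ t)
    (h : movA γ γ' (t : ℤ)) (h' : movA γ γ'' (t : ℤ)) : γ' = γ'' := by
  refine bs_inj γ' γ'' h.1 h'.1 ?_
  rw [(movA_bs γ γ' hγ t ht' h).2.2, (movA_bs γ γ'' hγ t ht' h').2.2]

theorem movB_uniq {n : ℕ} (δ δ' δ'' : Fin n → ℕ) (hδ : Antitone δ) (t : ℕ) (ht' : 1 ≤ t)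
    (h : movB δ δ' (t : ℤ)) (h' : movB δ δ'' (t : ℤ)) : δ' = δ'' := by
  refine bs_inj δ' δ'' h.1 h'.1 ?_
  rw [(movB_bs δ δ' hδ t ht' h).2.2, (movB_bs δ δ'' hδ t ht' h').2.2]

theorem bs_swap {n : ℕ} (γ : Fin n → ℕ) (hγ : Antitone γ) (t : ℕ) :
    ∃ γ₁ : Fin n → ℕ, Antitone γ₁ ∧ bs γ₁ = (bs γ).image (Equiv.swap (t - 1) t) := by
  refine bs_surj _ ?_
  rw [Finset.card_image_of_injective _ (Equiv.injective _), bs_card γ hγ]

theorem r12_img (S : Finset ℕ) (t x : ℕ) :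
    x ∈ S.image (Equiv.swap (t - 1) t) ↔ Equiv.swap (t - 1) t x ∈ S := by
  rw [Finset.mem_image]
  constructor
  · rintro ⟨a, ha, rfl⟩
    rw [Equiv.swap_apply_self]; exact ha
  · intro h
    exact ⟨_, h, Equiv.swap_apply_self _ _ _⟩

theorem r12_move (S : Finset ℕ) (a b : ℕ) (hab : a ≠ b) (ha : a ∈ S) (hb : b ∉ S) (t : ℕ)
    (h : (a = t - 1 ∧ b = t) ∨ (a = t ∧ b = t - 1)) :
    insert b (S.erase a) = S.image (Equiv.swap (t - 1) t) := by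
  ext x
  rw [r12_img, Finset.mem_insert, Finset.mem_erase]
  have hsw : Equiv.swap (t - 1) t x = if x = a then b else if x = b then a else x := by
    rcases h with ⟨h1, h2⟩ | ⟨h1, h2⟩
    · subst h1; subst h2; rw [Equiv.swap_apply_def]
    · subst h1; subst h2
      rw [Equiv.swap_comm, Equiv.swap_apply_def]
  rw [hsw]
  by_cases hxa : x = a
  · subst hxa
    simp [hab, hb]
  · by_cases hxb : x = b
    · subst hxb
      simp [ha, hxa]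
    · simp [hxa, hxb]

theorem movA_swap {n : ℕ} (γ γ' : Fin n → ℕ) (hγ : Antitone γ) (t : ℕ) (ht' : 1 ≤ t)
    (h : movA γ γ' (t : ℤ)) : bs γ' = (bs γ).image (Equiv.swap (t - 1) t) := by
  obtain ⟨h1, h2, h3⟩ := movA_bs γ γ' hγ t ht' h
  rw [h3]
  exact r12_move _ _ _ (by omega) h1 h2 t (Or.inl ⟨rfl, rfl⟩)

theorem movB_swap {n : ℕ} (δ δ' : Fin n → ℕ) (hδ : Antitone δ) (t : ℕ) (ht' : 1 ≤ t)
    (h : movB δ δ' (t : ℤ)) : bs δ' = (bs δ).image (Equiv.swap (t - 1) t) := by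
  obtain ⟨h1, h2, h3⟩ := movB_bs δ δ' hδ t ht' h
  rw [h3]
  exact r12_move _ _ _ (by omega) h1 h2 t (Or.inr ⟨rfl, rfl⟩)

theorem bs_same {n : ℕ} (γ : Fin n → ℕ) (t : ℕ) (h : t - 1 ∈ bs γ ↔ t ∈ bs γ) :
    (bs γ).image (Equiv.swap (t - 1) t) = bs γ := by
  ext x
  rw [r12_img, Equiv.swap_apply_def]
  split_ifs with h1 h2
  · subst h1; exact h.symm
  · subst h2; exact h
  · rfl

end H95H
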