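import Pool.Agent.Lib.H95H.G15c
import Pool.Agent.Lib.H95H.GW
import Pool.Agent.Lib.H95H.R12

namespace H95H

variable {n k : ℕ}

/-- `t` is such that the translation functor `F t` only moves a blocked position: there is a cross
(bead of the first partition only) at `t - 1` and `t` is free, or a circle (bead of the second
partition only) at `t` and `t - 1` is free. -/
def Swp (ω : ℕ → ℤ) (t : ℕ) : Prop :=
  1 ≤ t ∧ ((ω (t - 1) = 1 ∧ ω t = 0) ∨ (ω (t - 1) = 0 ∧ ω t = -1))

/-!
# Chunk G24: the admissible functions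

The combinatorial lemmas about beads and arcs are in the `R` files (import what you need; `R_swap`,
`R_cap`, `R_min`, `R_noarc`, `R_exists`, `bs_inj`, `movA_iff`, ..). The symbol of a position `p` is
cross if `p ∈ bs γ, p ∉ bs δ` (`wd = 1`), circle if `p ∉ bs γ, p ∈ bs δ` (`wd = -1`), and otherwise
it is free: `p ∈ VV γ δ` (two beads) or empty. `XX γ δ` is the set of crosses and circles.

* `G24_swp_kac`: cross at `t - 1`: if `t` is empty then `movA` is possible and `movB` not (`G15_A`), if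
  `t ∈ VV` then `movB` is possible and `movA` not (`G15_B`). Circle at `t`: if `t - 1` is empty then
  only `movB` is possible, if `t - 1 ∈ VV` only `movA`. In all four cases the new bead sets are the
  images of the old ones under the transposition of `t - 1` and `t`.
* `G24_swp_sim`: `G20_cover` gives the Kac module `S₀` and `φ : S₀ → S`; `G24_swp_kac` for `S₀`, and
  `G18_sim`. (The partitions `γ₁`, `δ₁` with the given bead sets are unique, `bs_inj`.)
* `G24_swap`: let `f = f' ∘ F t`; additive by `G04_F`. On Kac modules: `G24_swp_kac` and `R_swap` (`XX`,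
  `VV` of the new pairs are the images of the old ones, `F t` of a module is good and finite). On
  a simple module `L` of weight `(γ, δ)` in the block: if `L.Ft t = ⊥` then `f L = 0` (`G04_zero`),
  otherwise `L.F t` is simple with the transposed weight, and `f L` is `1` if
  `(γ, δ) = (γ', δ')` and `0` otherwise. It remains to exclude that `L.Ft t = ⊥` for some simple `L` of
  weight `(γ', δ')`. Suppose so. Then `f = 0` on all simple modules of weight `(γ', δ')` (`G17_uniq`,
  `G04_iso`), so on all simple modules of the block, so on all good finite-dimensional modules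
  in the block (`G23_agree` with `g = 0`), in particular (`G23_kac`) for the Kac module `S₀` covering
  `L`. But `f S₀ = 1` by `R_refl`. Contradiction.
* `G24_cap_kac`: let `t - 1` and `t` be free. If `t - 1` is empty and `t ∈ VV γ δ`: only `movB` is
  possible; if `t - 1 ∈ VV` and `t` is empty: only `movA`. In both cases the new first bead set has
  `t` and not `t - 1`, the second has `t - 1` and not `t`. In the other cases `F t` is zero
  (`G15_0`).
* `G24_cap`: let `t - 1` be empty and `t ∈ VV γ' δ'`, `δ₁` obtained from `δ'` by moving the bead `t` to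
  `t - 1`. `f = f' ∘ F t`. Kac modules: `G24_cap_kac`, `R_cap`. Simple modules `L` of weight `(γ, δ)` in
  the block: if `t - 1` is empty and `t ∈ VV γ δ` then `L.Ft t ≠ ⊥` (`G18_nonzero`) and it is simple of
  the weight described above (`G20_cover`, `G24_cap_kac`, `G18_sim`), which is `(γ', δ₁)` iff
  `(γ, δ) = (γ', δ')`. If `t - 1 ∈ VV γ δ` and `t` is empty then `L.Ft t = ⊥` by `G21_cap` (with `γ₂`, `δ₂`
  obtained by moving the beads from `t - 1` to `t`). Otherwise `L.Ft t = ⊥` by `G18_zero`,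
  `G20_cover` and `G24_cap_kac`. In the last two cases `(γ, δ) ≠ (γ', δ')` and `f L = 0`.
* `G24_base`: `f S = finrank (Wsp (pz γ') (nz δ'))` (`G04_W`). By the hypothesis `hno` and `R_min`,
  `R_noarc`: for antitone `γ`, `δ` in the block with `∑ δ ≤ ∑ δ'` we get `∑ bs δ ≤ ∑ bs δ'`, so
  `∑ VV γ δ ≤ ∑ VV γ' δ'` (`bs δ` is the disjoint union of `VV` and the circles, the circles are the
  same), so `VV γ δ = VV γ' δ'` and `(γ, δ) = (γ', δ')` (`wd_inj`). Let `S` be a module with lowest part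
  `W` of weight `(γ, δ)` in the block (Kac or simple). If `(γ, δ) ≠ (γ', δ')` then `∑ δ > ∑ δ'` and
  `Wsp = ⊥` by `G12_low`, so `f S = 0`. If they are equal, a vector of this weight lies in `W`
  (`G12_low`) and is a multiple of the highest weight vector (`W = low v`, `G07_cyc`, `G07_lower`): the
  dimension is `1`. `Rel` is equality by `R_noarc`.
* `G24_main`: let `C` be an upper bound of `bs γ' ∪ bs δ'`. Induction on `(VV γ' δ').card` and inside on
  `∑_{crosses x} (C - x) + ∑_{circles o} o`. (a) If some cross has an element of `VV γ' δ'` to its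
  right, take the largest such cross, at `t - 1`. Position `t` is not a cross (it would be larger)
  and not a circle (separation), so it is free: `Swp`, and `G24_swap` with the transposed pair: the
  number of elements of `VV` is the same, the second number is smaller (`t ≤ C`), the bound `C` and
  the separation persist. (b) Otherwise, if some circle has an empty position to its left, take
  the smallest such circle, at `t`; `t - 1` is not a circle and not a cross (separation), so it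
  is free: `G24_swap`. (c) Otherwise, if there are an empty position `p` and `q ∈ VV` with `p < q`,
  then `R_exists` gives an arc `(p', q')` with only blocked positions in between; a cross
  in between would have `q'` to its right, a circle would have `p'` to its left; so `q' = p' + 1`. Put
  `t = q'`. `G24_cap`: the new pair has one element of `VV` less; it has a new circle at `t - 1`
  and a new cross at `t`; all crosses are `> t` (not (a)) and all circles are `< t - 1` (not (b)), so the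
  separation persists. (d) Otherwise `G24_base`.
-/

/-- only the bead of the first partition can move -/
theorem g24a_A (M : Type) [AddCommGroup M] [Module ℂ M] (S : GM (n + k) n M)
    (hS : S.toG0.Good) (hfin : Module.Finite ℂ M) (γ δ γ₁ δ₁ : Fin n → ℕ) (hγ : Antitone γ)
    (hδ : Antitone δ) (hγ₁ : Antitone γ₁) (hδ₁ : Antitone δ₁) (t : ℕ) (ht : 1 ≤ t)
    (h1 : bs γ₁ = insert t ((bs γ).erase (t - 1))) (h2 : bs δ₁ = bs δ) (hK : S.isKac γ δ)
    (a1 : t - 1 ∈ bs γ) (a2 : t ∉ bs γ) (a3 : ¬(t ∈ bs δ ∧ t - 1 ∉ bs δ)) : (S.F t).isKac γ₁ δ₁ := by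
  obtain ⟨γ', h⟩ := movA_ex γ hγ t ht a1 a2
  have h3 : ∀ δ', ¬movB δ δ' (t : ℤ) := fun δ' hd => a3 ((movB_iff δ hδ t ht).1 ⟨δ', hd⟩)
  have h4 := G15_A S hS hfin γ δ γ' hγ hδ hK (t : ℤ) (by omega) h h3
  have h5 : γ' = γ₁ := bs_inj _ _ h.1 hγ₁ (by rw [h1, (movA_bs γ γ' hγ t ht h).2.2])
  have h6 : δ = δ₁ := bs_inj _ _ hδ hδ₁ h2.symm
  rw [← h5, ← h6]
  exact h4

/-- only the bead of the second partition can move -/
theorem g24a_B (M : Type) [AddCommGroup M] [Module ℂ M] (S : GM (n + k) n M)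
    (hS : S.toG0.Good) (hfin : Module.Finite ℂ M) (γ δ γ₁ δ₁ : Fin n → ℕ) (hγ : Antitone γ)
    (hδ : Antitone δ) (hγ₁ : Antitone γ₁) (hδ₁ : Antitone δ₁) (t : ℕ) (ht : 1 ≤ t)
    (h1 : bs γ₁ = bs γ) (h2 : bs δ₁ = insert (t - 1) ((bs δ).erase t)) (hK : S.isKac γ δ)
    (a1 : t ∈ bs δ) (a2 : t - 1 ∉ bs δ) (a3 : ¬(t - 1 ∈ bs γ ∧ t ∉ bs γ)) : (S.F t).isKac γ₁ δ₁ := by
  obtain ⟨δ', h⟩ := movB_ex δ hδ t ht a1 a2
  have h3 : ∀ γ', ¬movA γ γ' (t : ℤ) := fun γ' hd => a3 ((movA_iff γ hγ t ht).1 ⟨γ', hd⟩)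
  have h4 := G15_B S hS hfin γ δ δ' hγ hδ hK (t : ℤ) (by omega) h h3
  have h5 : δ' = δ₁ := bs_inj _ _ h.1 hδ₁ (by rw [h2, (movB_bs δ δ' hδ t ht h).2.2])
  have h6 : γ = γ₁ := bs_inj _ _ hγ hγ₁ h1.symm
  rw [← h5, ← h6]
  exact h4

theorem g24a_wd1 {n : ℕ} (γ δ : Fin n → ℕ) (p : ℕ) : wd γ δ p = 1 ↔ p ∈ bs γ ∧ p ∉ bs δ := by
  unfold wd
  by_cases h1 : p ∈ bs γ <;> by_cases h2 : p ∈ bs δ <;> simp [h1, h2]

theorem g24a_wdm {n : ℕ} (γ δ : Fin n → ℕ) (p : ℕ) : wd γ δ p = -1 ↔ p ∉ bs γ ∧ p ∈ bs δ := by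
  unfold wd
  by_cases h1 : p ∈ bs γ <;> by_cases h2 : p ∈ bs δ <;> simp [h1, h2]

theorem g24a_wd0 {n : ℕ} (γ δ : Fin n → ℕ) (p : ℕ) : wd γ δ p = 0 ↔ (p ∈ bs γ ↔ p ∈ bs δ) := by
  unfold wd
  by_cases h1 : p ∈ bs γ <;> by_cases h2 : p ∈ bs δ <;> simp [h1, h2]

theorem G24_swp_kac (M : Type) [AddCommGroup M] [Module ℂ M] (S : GM (n + k) n M)
    (hS : S.toG0.Good) (hfin : Module.Finite ℂ M) (γ δ γ₁ δ₁ : Fin n → ℕ) (hγ : Antitone γ)
    (hδ : Antitone δ) (hγ₁ : Antitone γ₁) (hδ₁ : Antitone δ₁) (t : ℕ) (ht : Swp (wd γ δ) t)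
    (h1 : bs γ₁ = (bs γ).image (Equiv.swap (t - 1) t))
    (h2 : bs δ₁ = (bs δ).image (Equiv.swap (t - 1) t)) (hK : S.isKac γ δ) :
    (S.F t).isKac γ₁ δ₁ := by
  obtain ⟨ht1, ht2⟩ := ht
  have hne : t - 1 ≠ t := by omega
  rcases ht2 with ⟨c1, c2⟩ | ⟨c1, c2⟩
  · rw [g24a_wd1] at c1
    rw [g24a_wd0] at c2
    by_cases h : t ∈ bs γ
    · have hd := c2.1 h
      refine g24a_B M S hS hfin γ δ γ₁ δ₁ hγ hδ hγ₁ hδ₁ t ht1 ?_ ?_ hK hd c1.2 fun hh => hh.2 h
      · rw [h1, bs_same γ t (by simp [c1.1, h])]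
      · rw [h2, ← r12_move (bs δ) t (t - 1) (Ne.symm hne) hd c1.2 t (Or.inr ⟨rfl, rfl⟩)]
    · have hd : t ∉ bs δ := fun hh => h (c2.2 hh)
      refine g24a_A M S hS hfin γ δ γ₁ δ₁ hγ hδ hγ₁ hδ₁ t ht1 ?_ ?_ hK c1.1 h fun hh => hd hh.1
      · rw [h1, ← r12_move (bs γ) (t - 1) t hne c1.1 h t (Or.inl ⟨rfl, rfl⟩)]
      · rw [h2, bs_same δ t (by simp [c1.2, hd])]
  · rw [g24a_wd0] at c1
    rw [g24a_wdm] at c2
    by_cases h : t - 1 ∈ bs γ
    · have hd := c1.1 h
      refine g24a_A M S hS hfin γ δ γ₁ δ₁ hγ hδ hγ₁ hδ₁ t ht1 ?_ ?_ hK h c2.1 fun hh => hh.2 hd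
      · rw [h1, ← r12_move (bs γ) (t - 1) t hne h c2.1 t (Or.inl ⟨rfl, rfl⟩)]
      · rw [h2, bs_same δ t (by simp [hd, c2.2])]
    · have hd : t - 1 ∉ bs δ := fun hh => h (c1.2 hh)
      refine g24a_B M S hS hfin γ δ γ₁ δ₁ hγ hδ hγ₁ hδ₁ t ht1 ?_ ?_ hK c2.2 hd fun hh => h hh.1
      · rw [h1, bs_same γ t (by simp [h, c2.1])]
      · rw [h2, ← r12_move (bs δ) t (t - 1) (Ne.symm hne) c2.2 hd t (Or.inr ⟨rfl, rfl⟩)]

end H95H
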