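import Pool.Agent.Lib.H95H.R03

namespace H95H

/-!
# Chunk R04: the minimal element of a block, sums

* `R_refl`: `A = ∅`.
* `R_min`: `#(V \ V') = #(V' \ V)` and an element of `V \ V'` is outside `X` (disjointness) and `V'`, so it
  is bigger than every element of `V'` (`hmin` and it is different from it). If `V \ V'` is nonempty
  then `∑ (V \ V') > ∑ (V' \ V)`: with `M` = the maximum of `V' \ V` (also nonempty),
  `∑ (V' \ V) ≤ # * M < # * (M + 1) ≤ ∑ (V \ V')`. Subtract the common part.
* `R_noarc`: an arc `(p, q)` for `V'` contradicts `hmin`, so `A = ∅`.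
* `R_sum`: let `A` be the set of arcs. `Prod.snd` is injective on `A` (`R_right`) with image in `V'`,
  `Prod.fst` is injective on `A` (`R_left`) with image disjoint from `V'` and `X`. So the cardinals
  agree, and `∑ V = ∑ V' - ∑ a.2 + ∑ a.1` with `a.1 < a.2`.
-/

theorem R_refl (X V : Finset ℕ) : Rel X V V := ⟨∅, by simp, by simp⟩

theorem R_min (X V V' : Finset ℕ) (hd : Disjoint X V) (hc : V.card = V'.card)
    (hmin : ∀ p q, p ∉ X → p ∉ V' → q ∈ V' → ¬ p < q) (hs : ∑ x ∈ V, x ≤ ∑ x ∈ V', x) : V = V' := by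
  classical
  have hcard : (V \ V').card = (V' \ V).card := by
    have h1 := Finset.card_sdiff_add_card_inter V V'
    have h2 := Finset.card_sdiff_add_card_inter V' V
    rw [Finset.inter_comm] at h2
    omega
  have hsum1 : ∑ x ∈ V, x = ∑ x ∈ V \ V', x + ∑ x ∈ V ∩ V', x := by
    rw [← Finset.sum_sdiff (Finset.inter_subset_left : V ∩ V' ⊆ V), Finset.sdiff_inter_self_left]
  have hsum2 : ∑ x ∈ V', x = ∑ x ∈ V' \ V, x + ∑ x ∈ V ∩ V', x := by
    rw [← Finset.sum_sdiff (Finset.inter_subset_right : V ∩ V' ⊆ V'), Finset.sdiff_inter_self_right]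
  by_cases hne : (V' \ V).Nonempty
  · exfalso
    obtain ⟨M, hM, hmax⟩ := (V' \ V).exists_max_image id hne
    have h1 : ∑ x ∈ V' \ V, x ≤ (V' \ V).card • M :=
      Finset.sum_le_card_nsmul _ _ _ (fun x hx => hmax x hx)
    have h2 : (V \ V').card • (M + 1) ≤ ∑ x ∈ V \ V', x := by
      refine Finset.card_nsmul_le_sum _ _ _ (fun x hx => ?_)
      rw [Finset.mem_sdiff] at hx hM
      have hxX : x ∉ X := fun h => (Finset.disjoint_left.mp hd h) hx.1
      have h3 := hmin x M hxX hx.2 hM.1
      have h4 : x ≠ M := by rintro rfl; exact hx.2 hM.1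
      omega
    have hpos : 0 < (V' \ V).card := hne.card_pos
    rw [hcard] at h2
    simp only [smul_eq_mul, mul_add, mul_one] at h1 h2
    omega
  · rw [Finset.not_nonempty_iff_eq_empty] at hne
    have hsub : V' ⊆ V := Finset.sdiff_eq_empty_iff_subset.mp hne
    exact (Finset.eq_of_subset_of_card_le hsub hc.le).symm

theorem R_noarc (X V V' : Finset ℕ) (hmin : ∀ p q, p ∉ X → p ∉ V' → q ∈ V' → ¬ p < q) :
    Rel X V V' ↔ V = V' := by
  constructor
  · rintro ⟨A, hA, hV⟩
    have : A = ∅ := by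
      rw [Finset.eq_empty_iff_forall_notMem]
      intro a ha
      obtain ⟨h1, h2, h3, h4, -⟩ := hA a ha
      exact hmin _ _ h2 h3 h4 h1
    subst this
    simpa using hV
  · rintro rfl
    exact R_refl X V

theorem R_sum (X V V' : Finset ℕ) (hd' : Disjoint X V') (h : Rel X V V') :
    V.card = V'.card ∧ Disjoint X V ∧ ∑ x ∈ V, x ≤ ∑ x ∈ V', x ∧
      (∑ x ∈ V, x = ∑ x ∈ V', x → V = V') := by
  classical
  obtain ⟨A, hA, hV⟩ := h
  have hsnd : Set.InjOn Prod.snd (A : Set (ℕ × ℕ)) := by
    intro a ha b hb hab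
    refine Prod.ext ?_ hab
    have h1 := hA a ha
    have h2 := hA b hb
    rw [← hab] at h2
    exact R_right X V' _ _ _ h1 h2
  have hfst : Set.InjOn Prod.fst (A : Set (ℕ × ℕ)) := by
    intro a ha b hb hab
    refine Prod.ext hab ?_
    have h1 := hA a ha
    have h2 := hA b hb
    rw [← hab] at h2
    exact R_left X V' hd' _ _ _ h1 h2
  have hsub : A.image Prod.snd ⊆ V' := by
    intro x hx
    obtain ⟨a, ha, rfl⟩ := Finset.mem_image.mp hx
    exact (hA a ha).2.2.2.1
  have hdis : Disjoint (V' \ A.image Prod.snd) (A.image Prod.fst) := by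
    rw [Finset.disjoint_left]
    intro x hx hx'
    obtain ⟨a, ha, rfl⟩ := Finset.mem_image.mp hx'
    exact (hA a ha).2.2.1 (Finset.mem_sdiff.mp hx).1
  have hc : V.card = V'.card := by
    rw [hV, Finset.card_union_of_disjoint hdis, Finset.card_image_of_injOn hfst,
      Finset.card_sdiff_of_subset hsub, Finset.card_image_of_injOn hsnd]
    have := Finset.card_le_card hsub
    rw [Finset.card_image_of_injOn hsnd] at this
    omega
  have hsV : ∑ x ∈ V, x = ∑ x ∈ V' \ A.image Prod.snd, x + ∑ a ∈ A, a.1 := by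
    rw [hV, Finset.sum_union hdis, Finset.sum_image hfst]
  have hsV' : ∑ x ∈ V', x = ∑ x ∈ V' \ A.image Prod.snd, x + ∑ a ∈ A, a.2 := by
    rw [← Finset.sum_sdiff hsub, Finset.sum_image hsnd]
  have hle : ∑ a ∈ A, a.1 ≤ ∑ a ∈ A, a.2 := Finset.sum_le_sum fun a ha => (hA a ha).1.le
  refine ⟨hc, ?_, by omega, ?_⟩
  · rw [Finset.disjoint_left]
    intro x hx hxV
    rw [hV, Finset.mem_union, Finset.mem_sdiff] at hxV
    rcases hxV with h | h
    · exact (Finset.disjoint_left.mp hd' hx) h.1
    · obtain ⟨a, ha, rfl⟩ := Finset.mem_image.mp h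
      exact (hA a ha).2.1 hx
  · intro heq
    by_cases hne : A.Nonempty
    · exfalso
      have := Finset.sum_lt_sum_of_nonempty hne (fun a ha => (hA a ha).1)
      omega
    · rw [Finset.not_nonempty_iff_eq_empty] at hne
      subst hne
      simpa using hV

end H95H
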