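import Pool.Agent.Lib.H95H.R05

namespace H95H

/-!
# Chunk R05b: moving a blocked position, the relation

With `σ = swap (t - 1) t` (an involution, so `(X.image σ).image σ = X`). (←) of `R_swap` for `(X, V, V')` is
(→) for `(X.image σ, V.image σ, V'.image σ)` (its hypothesis: `t - 1 ∈ X.image σ ↔ t ∈ X`). For (→) (here
(Rel → Rel of the images)) map the set `A` of arcs by `σ × σ` (`R_swap_arc`), and
`Finset.image_union`, `Finset.image_sdiff` (`σ` is injective).
-/

theorem r05b_inv (t : ℕ) (S : Finset ℕ) :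
    (S.image (Equiv.swap (t - 1) t)).image (Equiv.swap (t - 1) t) = S := by
  ext x
  simp

theorem r05b_one (X V V' : Finset ℕ) (t : ℕ) (ht' : 1 ≤ t) (hX : (t - 1 ∈ X) ↔ (t ∉ X))
    (hd' : Disjoint X V') (h : Rel X V V') :
    Rel (X.image (Equiv.swap (t - 1) t)) (V.image (Equiv.swap (t - 1) t))
      (V'.image (Equiv.swap (t - 1) t)) := by
  classical
  obtain ⟨A, hA, hV⟩ := h
  refine ⟨A.image (fun a => (Equiv.swap (t - 1) t a.1, Equiv.swap (t - 1) t a.2)), ?_, ?_⟩
  · intro a ha
    obtain ⟨b, hb, rfl⟩ := Finset.mem_image.mp ha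
    exact R_swap_arc X V' t ht' hX hd' b.1 b.2 (hA b hb)
  · have e1 : (A.image (fun a => (Equiv.swap (t - 1) t a.1, Equiv.swap (t - 1) t a.2))).image
        Prod.snd = (A.image Prod.snd).image (Equiv.swap (t - 1) t) := by
      rw [Finset.image_image, Finset.image_image]; rfl
    have e2 : (A.image (fun a => (Equiv.swap (t - 1) t a.1, Equiv.swap (t - 1) t a.2))).image
        Prod.fst = (A.image Prod.fst).image (Equiv.swap (t - 1) t) := by
      rw [Finset.image_image, Finset.image_image]; rfl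
    rw [e1, e2, hV, Finset.image_union, Finset.image_sdiff _ _ (Equiv.injective _)]

theorem R_swap (X V V' : Finset ℕ) (t : ℕ) (ht' : 1 ≤ t) (hX : (t - 1 ∈ X) ↔ (t ∉ X))
    (hd' : Disjoint X V') :
    Rel (X.image (Equiv.swap (t - 1) t)) (V.image (Equiv.swap (t - 1) t))
      (V'.image (Equiv.swap (t - 1) t)) ↔ Rel X V V' := by
  constructor
  · intro h
    have h1 : t - 1 ∈ X.image (Equiv.swap (t - 1) t) ↔ t ∈ X := by
      have := r05_mem X t t
      rwa [Equiv.swap_apply_right] at this
    have h2 : t ∈ X.image (Equiv.swap (t - 1) t) ↔ t - 1 ∈ X := by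
      have := r05_mem X t (t - 1)
      rwa [Equiv.swap_apply_left] at this
    have h3 := r05b_one _ _ _ t ht' (by rw [h1, h2]; tauto)
      ((Finset.disjoint_image (Equiv.injective _)).mpr hd') h
    rwa [r05b_inv, r05b_inv, r05b_inv] at h3
  · exact r05b_one X V V' t ht' hX hd'

end H95H
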