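import Pool.Agent.Lib.H95H.GW
import Pool.Agent.Lib.H95H.R10

namespace H95H

/-!
# Chunk R13: blocks

`wd γ δ p = [p ∈ bs γ] - [p ∈ bs δ]`, `XX = symmDiff`, `VV = intersection`.
* `mem_XX`: `p ∈ XX γ δ ↔ wd γ δ p ≠ 0` (four cases). `wd_XX` follows (`Finset.ext`).
* `bs_of_wd`: `p ∈ bs γ ↔ (wd γ δ p = 1 ∨ p ∈ VV γ δ)`, `p ∈ bs δ ↔ (wd γ δ p = -1 ∨ p ∈ VV γ δ)`.
* `wd_inj`: by `bs_of_wd`, `bs γ = bs γ'` and `bs δ = bs δ'`; `bs_inj`.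
* `wd_eq_zero`: `XX = ∅`, so `bs γ = bs δ`.
* `VV_card`: `#VV = #(bs γ) - #{p ∈ bs γ | p ∉ bs δ}`, and the last set is `{p | wd γ δ p = 1}`,
  which is the same for both pairs; `bs_card`.
* `VV_sum`: `∑ bs γ = ∑ VV + ∑ {p | wd = 1}`, so `∑ VV γ δ + ∑ r, γ' r = ∑ VV γ' δ' + ∑ r, γ r` (`bs_sum`).
* `wd_swap`: `wd γ₁ δ₁ p = wd γ δ (σ p)` if `bs γ₁ = (bs γ).image σ`, `bs δ₁ = (bs δ).image σ` (`σ` is an
  involution); then `XX`, `VV` are the images.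
-/

theorem wd_zero {n : ℕ} (κ : Fin n → ℕ) : wd κ κ = fun _ => 0 := by
  funext p; simp [wd]

theorem XX_self {n : ℕ} (κ : Fin n → ℕ) : XX κ κ = ∅ := by
  simp [XX]

theorem VV_self {n : ℕ} (κ : Fin n → ℕ) : VV κ κ = bs κ := by
  simp [VV]

theorem mem_XX {n : ℕ} (γ δ : Fin n → ℕ) (p : ℕ) : p ∈ XX γ δ ↔ wd γ δ p ≠ 0 := by
  unfold XX wd
  rw [Finset.mem_symmDiff]
  by_cases h1 : p ∈ bs γ <;> by_cases h2 : p ∈ bs δ <;> simp [h1, h2]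

theorem XX_VV_disj {n : ℕ} (γ δ : Fin n → ℕ) : Disjoint (XX γ δ) (VV γ δ) := by
  rw [Finset.disjoint_left]
  intro x hx hx'
  unfold XX at hx
  unfold VV at hx'
  rw [Finset.mem_symmDiff] at hx
  rw [Finset.mem_inter] at hx'
  tauto

theorem bs_of_wd {n : ℕ} (γ δ : Fin n → ℕ) (p : ℕ) :
    (p ∈ bs γ ↔ (wd γ δ p = 1 ∨ p ∈ VV γ δ)) ∧ (p ∈ bs δ ↔ (wd γ δ p = -1 ∨ p ∈ VV γ δ)) := by
  unfold VV wd
  rw [Finset.mem_inter]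
  by_cases h1 : p ∈ bs γ <;> by_cases h2 : p ∈ bs δ <;> simp [h1, h2]

theorem wd_XX {n : ℕ} (γ δ γ' δ' : Fin n → ℕ) (h : wd γ δ = wd γ' δ') : XX γ δ = XX γ' δ' := by
  ext p
  rw [mem_XX, mem_XX, h]

theorem wd_inj {n : ℕ} (γ δ γ' δ' : Fin n → ℕ) (hγ : Antitone γ) (hδ : Antitone δ)
    (hγ' : Antitone γ') (hδ' : Antitone δ') (h : wd γ δ = wd γ' δ') (hV : VV γ δ = VV γ' δ') :
    γ = γ' ∧ δ = δ' := by
  constructor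
  · refine bs_inj γ γ' hγ hγ' ?_
    ext p
    rw [(bs_of_wd γ δ p).1, (bs_of_wd γ' δ' p).1, h, hV]
  · refine bs_inj δ δ' hδ hδ' ?_
    ext p
    rw [(bs_of_wd γ δ p).2, (bs_of_wd γ' δ' p).2, h, hV]

theorem wd_eq_zero {n : ℕ} (γ δ : Fin n → ℕ) (hγ : Antitone γ) (hδ : Antitone δ)
    (h : wd γ δ = fun _ => 0) : γ = δ := by
  refine bs_inj γ δ hγ hδ ?_
  ext p
  rw [(bs_of_wd γ δ p).1, (bs_of_wd γ δ p).2, h]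
  simp

end H95H
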