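import Pool.Agent.Lib.H95H.R12
import Pool.Agent.Lib.H95H.R13

namespace H95H

/-!
# Chunk R14: blocks, cardinals, sums and swaps (see the header of R13)

* `VV_card`: `bs γ` is the disjoint union of `VV γ δ` and `{p ∈ bs γ | p ∉ bs δ}`, and the last set is
  the set of `p` with `wd γ δ p = 1`, which is the same for `(γ', δ')`; `bs_card`.
* `VV_sum`: the same with sums, and `bs_sum`.
* `VV_ex`: existence: given the block of `(γ, δ)` and a set `V` disjoint from `XX γ δ` with the right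
  number of elements, `V ∪ {p | wd = 1}` and `V ∪ {p | wd = -1}` have `n` elements; `bs_surj`.
* `wd_swap`: `wd γ₁ δ₁ p = wd γ δ (σ p)`; `p ∈ S.image σ ↔ σ p ∈ S`.
-/

theorem r14_split {n : ℕ} (γ δ : Fin n → ℕ) :
    bs γ = VV γ δ ∪ (bs γ).filter (fun p => p ∉ bs δ) ∧
    Disjoint (VV γ δ) ((bs γ).filter (fun p => p ∉ bs δ)) := by
  constructor
  · ext p
    simp only [VV, Finset.mem_union, Finset.mem_inter, Finset.mem_filter]
    tauto
  · rw [Finset.disjoint_left]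
    intro p hp hp'
    simp only [VV, Finset.mem_inter, Finset.mem_filter] at hp hp'
    exact hp'.2 hp.2

theorem r14_one {n : ℕ} (γ δ : Fin n → ℕ) (p : ℕ) :
    p ∈ (bs γ).filter (fun p => p ∉ bs δ) ↔ wd γ δ p = 1 := by
  unfold wd
  by_cases h1 : p ∈ bs γ <;> by_cases h2 : p ∈ bs δ <;> simp [h1, h2]

theorem r14_one' {n : ℕ} (γ δ : Fin n → ℕ) (p : ℕ) :
    p ∈ (bs δ).filter (fun p => p ∉ bs γ) ↔ wd γ δ p = -1 := by
  unfold wd
  by_cases h1 : p ∈ bs γ <;> by_cases h2 : p ∈ bs δ <;> simp [h1, h2]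

theorem r14_eq {n : ℕ} (γ δ γ' δ' : Fin n → ℕ) (h : wd γ δ = wd γ' δ') :
    (bs γ).filter (fun p => p ∉ bs δ) = (bs γ').filter (fun p => p ∉ bs δ') := by
  ext p
  rw [r14_one, r14_one, h]

theorem VV_card {n : ℕ} (γ δ γ' δ' : Fin n → ℕ) (hγ : Antitone γ) (hγ' : Antitone γ')
    (h : wd γ δ = wd γ' δ') : (VV γ δ).card = (VV γ' δ').card := by
  have h1 := bs_card γ hγ
  have h2 := bs_card γ' hγ'
  rw [(r14_split γ δ).1, Finset.card_union_of_disjoint (r14_split γ δ).2] at h1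
  rw [(r14_split γ' δ').1, Finset.card_union_of_disjoint (r14_split γ' δ').2] at h2
  rw [r14_eq γ δ γ' δ' h] at h1
  omega

theorem VV_sum {n : ℕ} (γ δ γ' δ' : Fin n → ℕ) (hγ : Antitone γ) (hγ' : Antitone γ')
    (h : wd γ δ = wd γ' δ') :
    ∑ x ∈ VV γ δ, x + ∑ r, γ' r = ∑ x ∈ VV γ' δ', x + ∑ r, γ r := by
  have h1 := bs_sum γ hγ
  have h2 := bs_sum γ' hγ'
  rw [(r14_split γ δ).1, Finset.sum_union (r14_split γ δ).2] at h1
  rw [(r14_split γ' δ').1, Finset.sum_union (r14_split γ' δ').2] at h2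
  rw [r14_eq γ δ γ' δ' h] at h1
  omega

theorem VV_ex {n : ℕ} (γ δ : Fin n → ℕ) (hγ : Antitone γ) (hδ : Antitone δ) (V : Finset ℕ)
    (hd : Disjoint (XX γ δ) V) (hc : V.card = (VV γ δ).card) :
    ∃ γ' δ' : Fin n → ℕ, Antitone γ' ∧ Antitone δ' ∧ wd γ' δ' = wd γ δ ∧ VV γ' δ' = V := by
  classical
  have hX1 : ∀ p, p ∈ (bs γ).filter (fun p => p ∉ bs δ) → p ∈ XX γ δ := by
    intro p hp
    rw [mem_XX, (r14_one γ δ p).mp hp]; norm_num
  have hX2 : ∀ p, p ∈ (bs δ).filter (fun p => p ∉ bs γ) → p ∈ XX γ δ := by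
    intro p hp
    rw [mem_XX, (r14_one' γ δ p).mp hp]; norm_num
  have d1 : Disjoint V ((bs γ).filter (fun p => p ∉ bs δ)) := by
    rw [Finset.disjoint_left]
    intro p hp hp'
    exact (Finset.disjoint_left.mp hd (hX1 p hp')) hp
  have d2 : Disjoint V ((bs δ).filter (fun p => p ∉ bs γ)) := by
    rw [Finset.disjoint_left]
    intro p hp hp'
    exact (Finset.disjoint_left.mp hd (hX2 p hp')) hp
  have c1 : (V ∪ (bs γ).filter (fun p => p ∉ bs δ)).card = n := by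
    rw [Finset.card_union_of_disjoint d1, hc,
      ← Finset.card_union_of_disjoint (r14_split γ δ).2, ← (r14_split γ δ).1, bs_card γ hγ]
  have c2 : (V ∪ (bs δ).filter (fun p => p ∉ bs γ)).card = n := by
    have e : VV γ δ = VV δ γ := by unfold VV; rw [Finset.inter_comm]
    rw [Finset.card_union_of_disjoint d2, hc, e,
      ← Finset.card_union_of_disjoint (r14_split δ γ).2, ← (r14_split δ γ).1, bs_card δ hδ]
  obtain ⟨γ', hγ', e1⟩ := bs_surj _ c1
  obtain ⟨δ', hδ', e2⟩ := bs_surj _ c2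
  refine ⟨γ', δ', hγ', hδ', ?_, ?_⟩
  · funext p
    have w1 := r14_one γ δ p
    have w2 := r14_one' γ δ p
    have hx := mem_XX γ δ p
    have hdp : p ∈ XX γ δ → p ∉ V := fun h => Finset.disjoint_left.mp hd h
    show (if p ∈ bs γ' then (1 : ℤ) else 0) - (if p ∈ bs δ' then 1 else 0) = wd γ δ p
    simp only [e1, e2, Finset.mem_union, w1, w2]
    by_cases hp : p ∈ V
    · have h0 : wd γ δ p = 0 := by
        by_contra hne
        exact hdp (hx.mpr hne) hp
      simp [hp, h0]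
    · have h3 : wd γ δ p = 0 ∨ wd γ δ p = 1 ∨ wd γ δ p = -1 := by
        unfold wd
        split_ifs <;> simp
      rcases h3 with h3 | h3 | h3 <;> simp [hp, h3]
  · ext p
    unfold VV
    rw [Finset.mem_inter, e1, e2, Finset.mem_union, Finset.mem_union, r14_one, r14_one']
    constructor
    · rintro ⟨h1 | h1, h2 | h2⟩
      · exact h1
      · exact h1
      · exact h2
      · rw [h1] at h2; norm_num at h2
    · intro h; exact ⟨Or.inl h, Or.inl h⟩

theorem wd_swap {n : ℕ} (γ δ γ₁ δ₁ : Fin n → ℕ) (t : ℕ)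
    (h1 : bs γ₁ = (bs γ).image (Equiv.swap (t - 1) t))
    (h2 : bs δ₁ = (bs δ).image (Equiv.swap (t - 1) t)) :
    wd γ₁ δ₁ = (fun p => wd γ δ (Equiv.swap (t - 1) t p)) ∧
    XX γ₁ δ₁ = (XX γ δ).image (Equiv.swap (t - 1) t) ∧
    VV γ₁ δ₁ = (VV γ δ).image (Equiv.swap (t - 1) t) := by
  have e : wd γ₁ δ₁ = (fun p => wd γ δ (Equiv.swap (t - 1) t p)) := by
    funext p
    unfold wd
    rw [h1, h2]
    simp only [r12_img]
  refine ⟨e, ?_, ?_⟩
  · ext p
    rw [mem_XX, e, r12_img, mem_XX]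
  · ext p
    rw [r12_img]
    unfold VV
    rw [Finset.mem_inter, Finset.mem_inter, h1, h2, r12_img, r12_img]

end H95H
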