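import Pool.Agent.Lib.H95H.G23a
import Pool.Agent.Lib.H95H.G24b
import Pool.Agent.Lib.H95H.R04
import Pool.Agent.Lib.H95H.R05b
import Pool.Agent.Lib.H95H.R14

namespace H95H

variable {n k : ℕ}

/-!
# Chunk G24: the admissible functions

The combinatorial lemmas about beads and arcs are in the `R` files (import what you need; `R_swap`,
`R_cap`, `R_min`, `R_noarc`, `R_exists`, `bs_inj`, `movA_iff`, ..). The symbol of a position `p` is
cross if `p ∈ bs γ, p ∉ bs δ` (`wd = 1`), circle if `p ∉ bs γ, p ∈ bs δ` (`wd = -1`), and otherwise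
it is free: `p ∈ VV γ δ` (two beads) or empty. `XX γ δ` is the set of crosses and circles.

* `G24_swp_kac`: cross at `t - 1`: if `t` is empty then `movA` is possible and `movB` not (`G15_A`), if
  `t ∈ VV` then `movB` is possible and `movA` not (`G15_B`). Circle at `t`: if `t - 1` is empty then
  only `movB` is possible, if `t - 1 ∈ VV` only `movA`. In all four cases the new bead sets are the
  images of the old ones under the transposition of `t - 1` and `t`.
* `G24_swp_sim`: `G20_cover` gives the Kac module `S₀` and `φ : S₀ → S`; `G24_swp_kac` for `S₀`, and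
  `G18_sim`. (The partitions `γ₁`, `δ₁` with the given bead sets are unique, `bs_inj`.)
* `G24_swap`: let `f = f' ∘ F t`; additive by `G04_F`. On Kac modules: `G24_swp_kac` and `R_swap` (`XX`,
  `VV` of the new pairs are the images of the old ones, `F t` of a module is good and finite). On
  a simple module `L` of weight `(γ, δ)` in the block: if `L.Ft t = ⊥` then `f L = 0` (`G04_zero`),
  otherwise `L.F t` is simple with the transposed weight, and `f L` is `1` if
  `(γ, δ) = (γ', δ')` and `0` otherwise. It remains to exclude that `L.Ft t = ⊥` for some simple `L` of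
  weight `(γ', δ')`. Suppose so. Then `f = 0` on all simple modules of weight `(γ', δ')` (`G17_uniq`,
  `G04_iso`), so on all simple modules of the block, so on all good finite-dimensional modules
  in the block (`G23_agree` with `g = 0`), in particular (`G23_kac`) for the Kac module `S₀` covering
  `L`. But `f S₀ = 1` by `R_refl`. Contradiction.
* `G24_cap_kac`: let `t - 1` and `t` be free. If `t - 1` is empty and `t ∈ VV γ δ`: only `movB` is
  possible; if `t - 1 ∈ VV` and `t` is empty: only `movA`. In both cases the new first bead set has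
  `t` and not `t - 1`, the second has `t - 1` and not `t`. In the other cases `F t` is zero
  (`G15_0`).
* `G24_cap`: let `t - 1` be empty and `t ∈ VV γ' δ'`, `δ₁` obtained from `δ'` by moving the bead `t` to
  `t - 1`. `f = f' ∘ F t`. Kac modules: `G24_cap_kac`, `R_cap`. Simple modules `L` of weight `(γ, δ)` in
  the block: if `t - 1` is empty and `t ∈ VV γ δ` then `L.Ft t ≠ ⊥` (`G18_nonzero`) and it is simple of
  the weight described above (`G20_cover`, `G24_cap_kac`, `G18_sim`), which is `(γ', δ₁)` iff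
  `(γ, δ) = (γ', δ')`. If `t - 1 ∈ VV γ δ` and `t` is empty then `L.Ft t = ⊥` by `G21_cap` (with `γ₂`, `δ₂`
  obtained by moving the beads from `t - 1` to `t`). Otherwise `L.Ft t = ⊥` by `G18_zero`,
  `G20_cover` and `G24_cap_kac`. In the last two cases `(γ, δ) ≠ (γ', δ')` and `f L = 0`.
* `G24_base`: `f S = finrank (Wsp (pz γ') (nz δ'))` (`G04_W`). By the hypothesis `hno` and `R_min`,
  `R_noarc`: for antitone `γ`, `δ` in the block with `∑ δ ≤ ∑ δ'` we get `∑ bs δ ≤ ∑ bs δ'`, so
  `∑ VV γ δ ≤ ∑ VV γ' δ'` (`bs δ` is the disjoint union of `VV` and the circles, the circles are the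
  same), so `VV γ δ = VV γ' δ'` and `(γ, δ) = (γ', δ')` (`wd_inj`). Let `S` be a module with lowest part
  `W` of weight `(γ, δ)` in the block (Kac or simple). If `(γ, δ) ≠ (γ', δ')` then `∑ δ > ∑ δ'` and
  `Wsp = ⊥` by `G12_low`, so `f S = 0`. If they are equal, a vector of this weight lies in `W`
  (`G12_low`) and is a multiple of the highest weight vector (`W = low v`, `G07_cyc`, `G07_lower`): the
  dimension is `1`. `Rel` is equality by `R_noarc`.
* `G24_main`: let `C` be an upper bound of `bs γ' ∪ bs δ'`. Induction on `(VV γ' δ').card` and inside on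
  `∑_{crosses x} (C - x) + ∑_{circles o} o`. (a) If some cross has an element of `VV γ' δ'` to its
  right, take the largest such cross, at `t - 1`. Position `t` is not a cross (it would be larger)
  and not a circle (separation), so it is free: `Swp`, and `G24_swap` with the transposed pair: the
  number of elements of `VV` is the same, the second number is smaller (`t ≤ C`), the bound `C` and
  the separation persist. (b) Otherwise, if some circle has an empty position to its left, take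
  the smallest such circle, at `t`; `t - 1` is not a circle and not a cross (separation), so it
  is free: `G24_swap`. (c) Otherwise, if there are an empty position `p` and `q ∈ VV` with `p < q`,
  then `R_exists` gives an arc `(p', q')` with only blocked positions in between; a cross
  in between would have `q'` to its right, a circle would have `p'` to its left; so `q' = p' + 1`. Put
  `t = q'`. `G24_cap`: the new pair has one element of `VV` less; it has a new circle at `t - 1`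
  and a new cross at `t`; all crosses are `> t` (not (a)) and all circles are `< t - 1` (not (b)), so the
  separation persists. (d) Otherwise `G24_base`.
-/

/-- the zero function is additive -/
theorem g24c_zero (m n : ℕ) :
    AddFn (fun (M : Type) (_ : AddCommGroup M) (_ : Module ℂ M) (_ : GM m n M) => 0) := by
  intro M₁ M₂ M₃ _ _ _ _ _ _ S₁ S₂ S₃ i π _ _ _ _ _ _ _
  rfl

/-- exactly one of the two positions is blocked -/
theorem g24c_X (γ δ : Fin n → ℕ) (t : ℕ) (ht : Swp (wd γ δ) t) :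
    (t - 1 ∈ XX γ δ) ↔ (t ∉ XX γ δ) := by
  rw [mem_XX, mem_XX]
  obtain ⟨_, h | h⟩ := ht
  · rw [h.1, h.2]
    simp
  · rw [h.1, h.2]
    simp

theorem g24c_img (s : Equiv.Perm ℕ) {A B : Finset ℕ} (h : A.image s = B.image s) : A = B :=
  Finset.image_injective s.injective h

theorem G24_swap (f : ∀ (M : Type) [AddCommGroup M] [Module ℂ M], GM (n + k) n M → ℕ)
    (γ' δ' γ₁ δ₁ : Fin n → ℕ) (hγ' : Antitone γ') (hδ' : Antitone δ') (hγ₁ : Antitone γ₁)
    (hδ₁ : Antitone δ₁) (t : ℕ) (ht : Swp (wd γ' δ') t)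
    (h1 : bs γ₁ = (bs γ').image (Equiv.swap (t - 1) t))
    (h2 : bs δ₁ = (bs δ').image (Equiv.swap (t - 1) t)) (h : Adm f γ₁ δ₁) :
    Adm (fun M _ _ (S : GM (n + k) n M) => f ↥(S.Ft t) (S.F t)) γ' δ' := by
  obtain ⟨hf1, hf2, hf3⟩ := h
  obtain ⟨w1, w2, w3⟩ := wd_swap γ' δ' γ₁ δ₁ t h1 h2
  have hX := g24c_X γ' δ' t ht
  have ht1 : 1 ≤ t := ht.1
  have hg := G04_F f hf1 (t : ℤ)
  -- the Kac modules
  have hK : ∀ (M : Type) [AddCommGroup M] [Module ℂ M] (S : GM (n + k) n M), Module.Finite ℂ M →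
      S.toG0.Good → ∀ γ δ : Fin n → ℕ, Antitone γ → Antitone δ → wd γ δ = wd γ' δ' → S.isKac γ δ →
      (Rel (XX γ' δ') (VV γ δ) (VV γ' δ') → f ↥(S.Ft t) (S.F t) = 1) ∧
      (¬Rel (XX γ' δ') (VV γ δ) (VV γ' δ') → f ↥(S.Ft t) (S.F t) = 0) := by
    intro M _ _ S hfin hS γ δ hγ hδ hw hKac
    obtain ⟨γ₂, hγ₂, b1⟩ := bs_swap γ hγ t
    obtain ⟨δ₂, hδ₂, b2⟩ := bs_swap δ hδ t
    obtain ⟨v1, v2, v3⟩ := wd_swap γ δ γ₂ δ₂ t b1 b2
    have hk := G24_swp_kac M S hS hfin γ δ γ₂ δ₂ hγ hδ hγ₂ hδ₂ t (hw ▸ ht) b1 b2 hKac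
    have hw2 : wd γ₂ δ₂ = wd γ₁ δ₁ := by rw [v1, w1, hw]
    have h3 := hf2 ↥(S.Ft t) (S.F t) (G03_finite S t) (G05_F S hS t) γ₂ δ₂ hγ₂ hδ₂ hw2 hk
    rw [w2, w3, v3, R_swap _ _ _ t ht1 hX (XX_VV_disj γ' δ')] at h3
    exact h3
  -- simple modules with nonzero translate
  have hA : ∀ (M : Type) [AddCommGroup M] [Module ℂ M] (S : GM (n + k) n M), Module.Finite ℂ M →
      S.toG0.Good → Nontrivial M → S.Sim → ∀ γ δ : Fin n → ℕ, Antitone γ → Antitone δ →
      wd γ δ = wd γ' δ' → S.isLow γ δ → S.Ft t ≠ ⊥ →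
      (γ = γ' ∧ δ = δ' → f ↥(S.Ft t) (S.F t) = 1) ∧ (¬(γ = γ' ∧ δ = δ') → f ↥(S.Ft t) (S.F t) = 0) := by
    intro M _ _ S hfin hS hnt hsim γ δ hγ hδ hw hL hne
    obtain ⟨γ₂, hγ₂, b1⟩ := bs_swap γ hγ t
    obtain ⟨δ₂, hδ₂, b2⟩ := bs_swap δ hδ t
    obtain ⟨v1, v2, v3⟩ := wd_swap γ δ γ₂ δ₂ t b1 b2
    have hw2 : wd γ₂ δ₂ = wd γ₁ δ₁ := by rw [v1, w1, hw]
    rcases G24_swp_sim M S hS hfin hsim γ δ γ₂ δ₂ hγ hδ hγ₂ hδ₂ t (hw ▸ ht) b1 b2 hL with h0 | ⟨h3, h4⟩
    · exact absurd h0 hne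
    · have hnt2 : Nontrivial ↥(S.Ft t) := Submodule.nontrivial_iff_ne_bot.2 hne
      have h5 := hf3 ↥(S.Ft t) (S.F t) (G03_finite S t) (G05_F S hS t) hnt2 h3 γ₂ δ₂ hγ₂ hδ₂ hw2 h4
      have e : (γ₂ = γ₁ ∧ δ₂ = δ₁) ↔ (γ = γ' ∧ δ = δ') := by
        constructor
        · rintro ⟨rfl, rfl⟩
          exact ⟨bs_inj γ γ' hγ hγ' (g24c_img _ (b1.symm.trans h1)),
            bs_inj δ δ' hδ hδ' (g24c_img _ (b2.symm.trans h2))⟩
        · rintro ⟨rfl, rfl⟩
          exact ⟨bs_inj γ₂ γ₁ hγ₂ hγ₁ (b1.trans h1.symm), bs_inj δ₂ δ₁ hδ₂ hδ₁ (b2.trans h2.symm)⟩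
      rw [e] at h5
      exact h5
  have h0 : ∀ (M : Type) [AddCommGroup M] [Module ℂ M] (S : GM (n + k) n M), S.Ft t = ⊥ →
      f ↥(S.Ft t) (S.F t) = 0 := by
    intro M _ _ S hS0
    refine G04_zero f hf1 ↥(S.Ft t) (S.F t) ?_
    rw [hS0]
    infer_instance
  refine ⟨hg, hK, ?_⟩
  intro M _ _ S hfin hS hnt hsim γ δ hγ hδ hw hL
  by_cases hne : S.Ft t = ⊥
  · refine ⟨?_, fun _ => h0 M S hne⟩
    rintro ⟨rfl, rfl⟩
    exfalso
    have hall : ∀ (M' : Type) [AddCommGroup M'] [Module ℂ M'] (S' : GM (n + k) n M'), Module.Finite ℂ M' →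
        S'.toG0.Good → Nontrivial M' → S'.Sim → ∀ α β : Fin n → ℕ, Antitone α → Antitone β →
        wd α β = wd γ δ → S'.isLow α β → f ↥(S'.Ft t) (S'.F t) = 0 := by
      intro M' _ _ S' hfin' hS' hnt' hsim' α β hα hβ hwd hL'
      by_cases hne' : S'.Ft t = ⊥
      · exact h0 M' S' hne'
      · by_cases hab : α = γ ∧ β = δ
        · exfalso
          obtain ⟨rfl, rfl⟩ := hab
          obtain ⟨W, hW⟩ := hL
          obtain ⟨W', hW'⟩ := hL'
          obtain ⟨e, he, hb⟩ := G17_uniq S hS hfin S' hS' hfin' _ _ W hW W' hW' hsim hsim'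
          have h6 := G04_iso _ hg M M' S S' e he hb hfin' hS'
          have h7 := (hA M' S' hfin' hS' hnt' hsim' α β hα hβ hwd ⟨W', hW'⟩ hne').1 ⟨rfl, rfl⟩
          have h8 := h0 M S hne

          omega
        · exact (hA M' S' hfin' hS' hnt' hsim' α β hα hβ hwd hL' hne').2 hab
    obtain ⟨W, hW, φ, g1, g2, g3, g4, g5⟩ := G20_cover S hS hfin γ δ hL
    have hWf : Module.Finite ℂ ↥W := inferInstance
    have k1 := G20_kac (S.toG0.res W hW) hWf γ δ g2
    have k2 := G20_good (S.toG0.res W hW) g1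
    have k3 := (G20_finrank (n + k) n ↥W).1
    have k4 := G23_agree (fun M _ _ (S : GM (n + k) n M) => f ↥(S.Ft t) (S.F t)) (fun _ _ _ _ => 0) hg
      (g24c_zero (n + k) n) (wd γ δ) (fun M' _ _ S' a1 a2 a3 a4 α β a5 a6 a7 a8 => hall M' S' a1 a2 a3 a4 α β a5 a6 a7 a8)
      (LM (n + k) n ↥W) (S.toG0.res W hW).ind k3 k2 (G23_kac _ _ k2 k3 γ δ hγ hδ k1)
    have k5 := (hK (LM (n + k) n ↥W) (S.toG0.res W hW).ind k3 k2 γ δ hγ hδ rfl k1).1 (R_refl _ _)

    omega
  · exact hA M S hfin hS hnt hsim γ δ hγ hδ hw hL hne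

end H95H
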