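import Pool.Agent.Lib.H95H.G24a

namespace H95H

variable {n k : ℕ}

/-!
# Chunk G24: the admissible functions

The combinatorial lemmas about beads and arcs are in the `R` files (import what you need; `R_swap`,
`R_cap`, `R_min`, `R_noarc`, `R_exists`, `bs_inj`, `movA_iff`, ..). The symbol of a position `p` is
cross if `p ∈ bs γ, p ∉ bs δ` (`wd = 1`), circle if `p ∉ bs γ, p ∈ bs δ` (`wd = -1`), and otherwise
it is free: `p ∈ VV γ δ` (two beads) or empty. `XX γ δ` is the set of crosses and circles.

* `G24_swp_kac`: cross at `t - 1`: if `t` is empty then `movA` is possible and `movB` not (`G15_A`), if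
  `t ∈ VV` then `movB` is possible and `movA` not (`G15_B`). Circle at `t`: if `t - 1` is empty then
  only `movB` is possible, if `t - 1 ∈ VV` only `movA`. In all four cases the new bead sets are the
  images of the old ones under the transposition of `t - 1` and `t`.
* `G24_swp_sim`: `G20_cover` gives the Kac module `S₀` and `φ : S₀ → S`; `G24_swp_kac` for `S₀`, and
  `G18_sim`. (The partitions `γ₁`, `δ₁` with the given bead sets are unique, `bs_inj`.)
* `G24_swap`: let `f = f' ∘ F t`; additive by `G04_F`. On Kac modules: `G24_swp_kac` and `R_swap` (`XX`,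
  `VV` of the new pairs are the images of the old ones, `F t` of a module is good and finite). On
  a simple module `L` of weight `(γ, δ)` in the block: if `L.Ft t = ⊥` then `f L = 0` (`G04_zero`),
  otherwise `L.F t` is simple with the transposed weight, and `f L` is `1` if
  `(γ, δ) = (γ', δ')` and `0` otherwise. It remains to exclude that `L.Ft t = ⊥` for some simple `L` of
  weight `(γ', δ')`. Suppose so. Then `f = 0` on all simple modules of weight `(γ', δ')` (`G17_uniq`,
  `G04_iso`), so on all simple modules of the block, so on all good finite-dimensional modules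
  in the block (`G23_agree` with `g = 0`), in particular (`G23_kac`) for the Kac module `S₀` covering
  `L`. But `f S₀ = 1` by `R_refl`. Contradiction.
* `G24_cap_kac`: let `t - 1` and `t` be free. If `t - 1` is empty and `t ∈ VV γ δ`: only `movB` is
  possible; if `t - 1 ∈ VV` and `t` is empty: only `movA`. In both cases the new first bead set has
  `t` and not `t - 1`, the second has `t - 1` and not `t`. In the other cases `F t` is zero
  (`G15_0`).
* `G24_cap`: let `t - 1` be empty and `t ∈ VV γ' δ'`, `δ₁` obtained from `δ'` by moving the bead `t` to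
  `t - 1`. `f = f' ∘ F t`. Kac modules: `G24_cap_kac`, `R_cap`. Simple modules `L` of weight `(γ, δ)` in
  the block: if `t - 1` is empty and `t ∈ VV γ δ` then `L.Ft t ≠ ⊥` (`G18_nonzero`) and it is simple of
  the weight described above (`G20_cover`, `G24_cap_kac`, `G18_sim`), which is `(γ', δ₁)` iff
  `(γ, δ) = (γ', δ')`. If `t - 1 ∈ VV γ δ` and `t` is empty then `L.Ft t = ⊥` by `G21_cap` (with `γ₂`, `δ₂`
  obtained by moving the beads from `t - 1` to `t`). Otherwise `L.Ft t = ⊥` by `G18_zero`,
  `G20_cover` and `G24_cap_kac`. In the last two cases `(γ, δ) ≠ (γ', δ')` and `f L = 0`.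
* `G24_base`: `f S = finrank (Wsp (pz γ') (nz δ'))` (`G04_W`). By the hypothesis `hno` and `R_min`,
  `R_noarc`: for antitone `γ`, `δ` in the block with `∑ δ ≤ ∑ δ'` we get `∑ bs δ ≤ ∑ bs δ'`, so
  `∑ VV γ δ ≤ ∑ VV γ' δ'` (`bs δ` is the disjoint union of `VV` and the circles, the circles are the
  same), so `VV γ δ = VV γ' δ'` and `(γ, δ) = (γ', δ')` (`wd_inj`). Let `S` be a module with lowest part
  `W` of weight `(γ, δ)` in the block (Kac or simple). If `(γ, δ) ≠ (γ', δ')` then `∑ δ > ∑ δ'` and
  `Wsp = ⊥` by `G12_low`, so `f S = 0`. If they are equal, a vector of this weight lies in `W`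
  (`G12_low`) and is a multiple of the highest weight vector (`W = low v`, `G07_cyc`, `G07_lower`): the
  dimension is `1`. `Rel` is equality by `R_noarc`.
* `G24_main`: let `C` be an upper bound of `bs γ' ∪ bs δ'`. Induction on `(VV γ' δ').card` and inside on
  `∑_{crosses x} (C - x) + ∑_{circles o} o`. (a) If some cross has an element of `VV γ' δ'` to its
  right, take the largest such cross, at `t - 1`. Position `t` is not a cross (it would be larger)
  and not a circle (separation), so it is free: `Swp`, and `G24_swap` with the transposed pair: the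
  number of elements of `VV` is the same, the second number is smaller (`t ≤ C`), the bound `C` and
  the separation persist. (b) Otherwise, if some circle has an empty position to its left, take
  the smallest such circle, at `t`; `t - 1` is not a circle and not a cross (separation), so it
  is free: `G24_swap`. (c) Otherwise, if there are an empty position `p` and `q ∈ VV` with `p < q`,
  then `R_exists` gives an arc `(p', q')` with only blocked positions in between; a cross
  in between would have `q'` to its right, a circle would have `p'` to its left; so `q' = p' + 1`. Put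
  `t = q'`. `G24_cap`: the new pair has one element of `VV` less; it has a new circle at `t - 1`
  and a new cross at `t`; all crosses are `> t` (not (a)) and all circles are `< t - 1` (not (b)), so the
  separation persists. (d) Otherwise `G24_base`.
-/

theorem G24_cap_kac (M : Type) [AddCommGroup M] [Module ℂ M] (S : GM (n + k) n M)
    (hS : S.toG0.Good) (hfin : Module.Finite ℂ M) (γ δ : Fin n → ℕ) (hγ : Antitone γ)
    (hδ : Antitone δ) (t : ℕ) (ht : 1 ≤ t) (h1 : wd γ δ (t - 1) = 0) (h2 : wd γ δ t = 0)
    (hK : S.isKac γ δ) :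
    ((t - 1 ∈ VV γ δ ↔ t ∉ VV γ δ) → ∀ γ₁ δ₁ : Fin n → ℕ, Antitone γ₁ → Antitone δ₁ →
      bs γ₁ = insert t ((bs γ).erase (t - 1)) → bs δ₁ = insert (t - 1) ((bs δ).erase t) →
      (S.F t).isKac γ₁ δ₁) ∧
    ((t - 1 ∈ VV γ δ ↔ t ∈ VV γ δ) → S.Ft t = ⊥) := by
  rw [g24a_wd0] at h1 h2
  have hV : ∀ p, p ∈ VV γ δ ↔ p ∈ bs γ ∧ p ∈ bs δ := fun p => Finset.mem_inter
  constructor
  · intro hv γ₁ δ₁ hγ₁ hδ₁ e1 e2
    rw [hV, hV] at hv
    by_cases h : t - 1 ∈ bs γ
    · have hd := h1.1 h
      have h3 : t ∉ bs γ := fun h4 => hv.1 ⟨h, hd⟩ ⟨h4, h2.1 h4⟩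
      have h4 : t ∉ bs δ := fun h5 => h3 (h2.2 h5)
      refine g24a_A M S hS hfin γ δ γ₁ δ₁ hγ hδ hγ₁ hδ₁ t ht e1 ?_ hK h h3 fun hh => h4 hh.1
      rw [e2, Finset.erase_eq_of_notMem h4, Finset.insert_eq_of_mem hd]
    · have hd : t - 1 ∉ bs δ := fun h5 => h (h1.2 h5)
      have h3 : t ∈ bs γ := by
        by_contra h4
        exact h (hv.2 fun h5 => h4 h5.1).1
      have h4 := h2.1 h3
      refine g24a_B M S hS hfin γ δ γ₁ δ₁ hγ hδ hγ₁ hδ₁ t ht ?_ e2 hK h4 hd fun hh => h hh.1
      rw [e1, Finset.erase_eq_of_notMem h, Finset.insert_eq_of_mem h3]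
  · intro hv
    rw [hV, hV] at hv
    refine G15_0 S hS hfin γ δ hγ hδ hK (t : ℤ) (by omega) (fun γ' h => ?_) (fun δ' h => ?_)
    · obtain ⟨a1, a2⟩ := (movA_iff γ hγ t ht).1 ⟨γ', h⟩
      exact a2 (hv.1 ⟨a1, h1.1 a1⟩).1
    · obtain ⟨a1, a2⟩ := (movB_iff δ hδ t ht).1 ⟨δ', h⟩
      exact a2 (hv.2 ⟨h2.2 a1, a1⟩).2

end H95H
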