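import Pool.Agent.Lib.H95H.R06

namespace H95H

/-!
# Chunk R07: removing an arc of length one, the relation

(→) Let `A` be the set of arcs for `Rel X V V'`. If `(t-1, t) ∈ A` then `t ∉ V`, `t - 1 ∈ V` (no other arc of `A`
has an endpoint in `{t-1, t}`: `R_cap_end`), and `A.erase (t-1, t)` works for the right side
(`R_cap_arc`). If not, `t ∈ V`, `t - 1 ∉ V` and `A` itself works.
(←) Let `A₁` be a set of arcs for the right side; no endpoint is in `{t-1, t}`. If `t ∈ V` (so
`t - 1 ∉ V`) take `A = A₁`, if `t - 1 ∈ V` (so `t ∉ V`) take `A = insert (t-1, t) A₁`.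
Check the membership of every position `x` (`Finset.ext`; cases `x = t - 1`, `x = t`, other).
-/

theorem R_cap (X V V' : Finset ℕ) (t : ℕ) (ht' : 1 ≤ t) (h1 : t - 1 ∉ X) (h2 : t ∉ X)
    (h3 : t - 1 ∉ V') (h4 : t ∈ V') (hd' : Disjoint X V') :
    Rel X V V' ↔ ((t - 1 ∈ V ↔ t ∉ V) ∧
      Rel (insert (t - 1) (insert t X)) ((V.erase (t - 1)).erase t) (V'.erase t)) := by
  classical
  constructor
  · rintro ⟨A, hA, hV⟩
    have hend : ∀ a ∈ A, a = (t - 1, t) ∨ (a.1 ≠ t - 1 ∧ a.1 ≠ t ∧ a.2 ≠ t - 1 ∧ a.2 ≠ t) := by
      intro a ha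
      rcases R_cap_end X V' t ht' h1 h2 h3 h4 hd' a.1 a.2 (hA a ha) with h | h
      · left; exact Prod.ext h.1 h.2
      · right; exact h
    have hm1 : t - 1 ∈ V ↔ (t - 1, t) ∈ A := by
      rw [hV, Finset.mem_union, Finset.mem_sdiff, Finset.mem_image, Finset.mem_image]
      constructor
      · rintro (h | ⟨a, ha, h⟩)
        · exact absurd h.1 h3
        · rcases hend a ha with h' | h'
          · rwa [h'] at ha
          · exact absurd h h'.1
      · intro h; right; exact ⟨_, h, rfl⟩
    have hm2 : t ∈ V ↔ (t - 1, t) ∉ A := by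
      rw [hV, Finset.mem_union, Finset.mem_sdiff, Finset.mem_image, Finset.mem_image]
      constructor
      · rintro (h | ⟨a, ha, h⟩) h'
        · exact h.2 ⟨_, h', rfl⟩
        · exact (hA a ha).2.2.1 (h ▸ h4)
      · intro h
        left
        refine ⟨h4, ?_⟩
        rintro ⟨a, ha, h'⟩
        rcases hend a ha with h'' | h''
        · rw [h''] at ha; exact h ha
        · exact h''.2.2.2 h'
    refine ⟨by rw [hm1, hm2]; tauto, A.erase (t - 1, t), ?_, ?_⟩
    · intro a ha
      rw [Finset.mem_erase] at ha
      rcases hend a ha.2 with h | h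
      · exact absurd h ha.1
      · exact (R_cap_arc X V' t ht' h1 h2 h3 h4 hd' a.1 a.2).mpr ⟨hA a ha.2, h⟩
    · ext x
      simp only [Finset.mem_erase, Finset.mem_union, Finset.mem_sdiff, Finset.mem_image]
      by_cases hx1 : x = t - 1
      · subst hx1
        constructor
        · rintro ⟨-, h, -⟩; exact absurd rfl h
        · rintro (h | ⟨a, ha, h⟩)
          · exact absurd h.1.2 h3
          · rcases hend a ha.2 with h' | h'
            · exact absurd h' ha.1
            · exact absurd h h'.1
      · by_cases hx2 : x = t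
        · subst hx2
          constructor
          · rintro ⟨h, -⟩; exact absurd rfl h
          · rintro (h | ⟨a, ha, h⟩)
            · exact absurd rfl h.1.1
            · rcases hend a ha.2 with h' | h'
              · exact absurd h' ha.1
              · exact absurd h h'.2.1
        · rw [hV, Finset.mem_union, Finset.mem_sdiff, Finset.mem_image, Finset.mem_image]
          constructor
          · rintro ⟨-, -, (h | ⟨a, ha, h⟩)⟩
            · left
              refine ⟨⟨hx2, h.1⟩, ?_⟩
              rintro ⟨a, ha, h'⟩
              exact h.2 ⟨a, ha.2, h'⟩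
            · right
              refine ⟨a, ⟨?_, ha⟩, h⟩
              rintro rfl
              exact hx1 h.symm
          · rintro (h | ⟨a, ha, h⟩)
            · refine ⟨hx2, hx1, Or.inl ⟨h.1.2, ?_⟩⟩
              rintro ⟨a, ha, h'⟩
              refine h.2 ⟨a, ⟨?_, ha⟩, h'⟩
              rintro rfl
              exact hx2 h'.symm
            · exact ⟨hx2, hx1, Or.inr ⟨a, ha.2, h⟩⟩
  · rintro ⟨hiff, A, hA, hV⟩
    have hA' : ∀ a ∈ A, Arc X V' a.1 a.2 ∧ a.1 ≠ t - 1 ∧ a.1 ≠ t ∧ a.2 ≠ t - 1 ∧ a.2 ≠ t :=
      fun a ha => (R_cap_arc X V' t ht' h1 h2 h3 h4 hd' a.1 a.2).mp (hA a ha)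
    have hmem : ∀ x, x ≠ t - 1 → x ≠ t →
        (x ∈ V ↔ ((x ∈ V' ∧ ¬ ∃ a ∈ A, a.2 = x) ∨ ∃ a ∈ A, a.1 = x)) := by
      intro x hx1 hx2
      have h := Finset.ext_iff.mp hV x
      simp only [Finset.mem_erase, Finset.mem_union, Finset.mem_sdiff, Finset.mem_image] at h
      constructor
      · intro hx
        rcases h.mp ⟨hx2, hx1, hx⟩ with h' | h'
        · exact Or.inl ⟨h'.1.2, h'.2⟩
        · exact Or.inr h'
      · rintro (h' | h')
        · exact (h.mpr (Or.inl ⟨⟨hx2, h'.1⟩, h'.2⟩)).2.2
        · exact (h.mpr (Or.inr h')).2.2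
    by_cases htV : t ∈ V
    · have ht1 : t - 1 ∉ V := fun h => (hiff.mp h) htV
      refine ⟨A, fun a ha => (hA' a ha).1, ?_⟩
      ext x
      simp only [Finset.mem_union, Finset.mem_sdiff, Finset.mem_image]
      by_cases hx1 : x = t - 1
      · subst hx1
        constructor
        · intro h; exact absurd h ht1
        · rintro (h | ⟨a, ha, h⟩)
          · exact absurd h.1 h3
          · exact absurd h (hA' a ha).2.1
      · by_cases hx2 : x = t
        · subst hx2
          constructor
          · intro _
            left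
            refine ⟨h4, ?_⟩
            rintro ⟨a, ha, h⟩
            exact (hA' a ha).2.2.2.2 h
          · intro _; exact htV
        · exact hmem x hx1 hx2
    · have ht1 : t - 1 ∈ V := hiff.mpr htV
      refine ⟨insert (t - 1, t) A, ?_, ?_⟩
      · intro a ha
        rw [Finset.mem_insert] at ha
        rcases ha with rfl | ha
        · exact R_cap_short X V' t ht' h1 h2 h3 h4 hd'
        · exact (hA' a ha).1
      · ext x
        simp only [Finset.mem_union, Finset.mem_sdiff, Finset.mem_image, Finset.mem_insert]
        by_cases hx1 : x = t - 1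
        · subst hx1
          constructor
          · intro _; right; exact ⟨_, Or.inl rfl, rfl⟩
          · intro _; exact ht1
        · by_cases hx2 : x = t
          · subst hx2
            constructor
            · intro h; exact absurd h htV
            · rintro (h | ⟨a, ha, h⟩)
              · exact absurd ⟨_, Or.inl rfl, rfl⟩ h.2
              · rcases ha with rfl | ha
                · exact absurd h.symm hx1
                · exact absurd h (hA' a ha).2.2.1
          · rw [hmem x hx1 hx2]
            constructor
            · rintro (h | ⟨a, ha, h⟩)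
              · left
                refine ⟨h.1, ?_⟩
                rintro ⟨a, ha | ha, h'⟩
                · subst ha; exact hx2 h'.symm
                · exact h.2 ⟨a, ha, h'⟩
              · right; exact ⟨a, Or.inr ha, h⟩
            · rintro (h | ⟨a, ha, h⟩)
              · left
                refine ⟨h.1, ?_⟩
                rintro ⟨a, ha, h'⟩
                exact h.2 ⟨a, Or.inr ha, h'⟩
              · right
                rcases ha with rfl | ha
                · exact absurd h.symm hx1
                · exact ⟨a, ha, h⟩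

end H95H
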