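import Pool.Agent.Lib.H95H.G21d
import Pool.Agent.Lib.H95H.G23a
import Pool.Agent.Lib.H95H.G24d
import Pool.Agent.Lib.H95H.R07
import Pool.Agent.Lib.H95H.R13

namespace H95H

variable {n k : ℕ}

/-!
# Chunk G24: the admissible functions

The combinatorial lemmas about beads and arcs are in the `R` files (import what you need; `R_swap`,
`R_cap`, `R_min`, `R_noarc`, `R_exists`, `bs_inj`, `movA_iff`, ..). The symbol of a position `p` is
cross if `p ∈ bs γ, p ∉ bs δ` (`wd = 1`), circle if `p ∉ bs γ, p ∈ bs δ` (`wd = -1`), and otherwise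
it is free: `p ∈ VV γ δ` (two beads) or empty. `XX γ δ` is the set of crosses and circles.

* `G24_swp_kac`: cross at `t - 1`: if `t` is empty then `movA` is possible and `movB` not (`G15_A`), if
  `t ∈ VV` then `movB` is possible and `movA` not (`G15_B`). Circle at `t`: if `t - 1` is empty then
  only `movB` is possible, if `t - 1 ∈ VV` only `movA`. In all four cases the new bead sets are the
  images of the old ones under the transposition of `t - 1` and `t`.
* `G24_swp_sim`: `G20_cover` gives the Kac module `S₀` and `φ : S₀ → S`; `G24_swp_kac` for `S₀`, and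
  `G18_sim`. (The partitions `γ₁`, `δ₁` with the given bead sets are unique, `bs_inj`.)
* `G24_swap`: let `f = f' ∘ F t`; additive by `G04_F`. On Kac modules: `G24_swp_kac` and `R_swap` (`XX`,
  `VV` of the new pairs are the images of the old ones, `F t` of a module is good and finite). On
  a simple module `L` of weight `(γ, δ)` in the block: if `L.Ft t = ⊥` then `f L = 0` (`G04_zero`),
  otherwise `L.F t` is simple with the transposed weight, and `f L` is `1` if
  `(γ, δ) = (γ', δ')` and `0` otherwise. It remains to exclude that `L.Ft t = ⊥` for some simple `L` of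
  weight `(γ', δ')`. Suppose so. Then `f = 0` on all simple modules of weight `(γ', δ')` (`G17_uniq`,
  `G04_iso`), so on all simple modules of the block, so on all good finite-dimensional modules
  in the block (`G23_agree` with `g = 0`), in particular (`G23_kac`) for the Kac module `S₀` covering
  `L`. But `f S₀ = 1` by `R_refl`. Contradiction.
* `G24_cap_kac`: let `t - 1` and `t` be free. If `t - 1` is empty and `t ∈ VV γ δ`: only `movB` is
  possible; if `t - 1 ∈ VV` and `t` is empty: only `movA`. In both cases the new first bead set has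
  `t` and not `t - 1`, the second has `t - 1` and not `t`. In the other cases `F t` is zero
  (`G15_0`).
* `G24_cap`: let `t - 1` be empty and `t ∈ VV γ' δ'`, `δ₁` obtained from `δ'` by moving the bead `t` to
  `t - 1`. `f = f' ∘ F t`. Kac modules: `G24_cap_kac`, `R_cap`. Simple modules `L` of weight `(γ, δ)` in
  the block: if `t - 1` is empty and `t ∈ VV γ δ` then `L.Ft t ≠ ⊥` (`G18_nonzero`) and it is simple of
  the weight described above (`G20_cover`, `G24_cap_kac`, `G18_sim`), which is `(γ', δ₁)` iff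
  `(γ, δ) = (γ', δ')`. If `t - 1 ∈ VV γ δ` and `t` is empty then `L.Ft t = ⊥` by `G21_cap` (with `γ₂`, `δ₂`
  obtained by moving the beads from `t - 1` to `t`). Otherwise `L.Ft t = ⊥` by `G18_zero`,
  `G20_cover` and `G24_cap_kac`. In the last two cases `(γ, δ) ≠ (γ', δ')` and `f L = 0`.
* `G24_base`: `f S = finrank (Wsp (pz γ') (nz δ'))` (`G04_W`). By the hypothesis `hno` and `R_min`,
  `R_noarc`: for antitone `γ`, `δ` in the block with `∑ δ ≤ ∑ δ'` we get `∑ bs δ ≤ ∑ bs δ'`, so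
  `∑ VV γ δ ≤ ∑ VV γ' δ'` (`bs δ` is the disjoint union of `VV` and the circles, the circles are the
  same), so `VV γ δ = VV γ' δ'` and `(γ, δ) = (γ', δ')` (`wd_inj`). Let `S` be a module with lowest part
  `W` of weight `(γ, δ)` in the block (Kac or simple). If `(γ, δ) ≠ (γ', δ')` then `∑ δ > ∑ δ'` and
  `Wsp = ⊥` by `G12_low`, so `f S = 0`. If they are equal, a vector of this weight lies in `W`
  (`G12_low`) and is a multiple of the highest weight vector (`W = low v`, `G07_cyc`, `G07_lower`): the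
  dimension is `1`. `Rel` is equality by `R_noarc`.
* `G24_main`: let `C` be an upper bound of `bs γ' ∪ bs δ'`. Induction on `(VV γ' δ').card` and inside on
  `∑_{crosses x} (C - x) + ∑_{circles o} o`. (a) If some cross has an element of `VV γ' δ'` to its
  right, take the largest such cross, at `t - 1`. Position `t` is not a cross (it would be larger)
  and not a circle (separation), so it is free: `Swp`, and `G24_swap` with the transposed pair: the
  number of elements of `VV` is the same, the second number is smaller (`t ≤ C`), the bound `C` and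
  the separation persist. (b) Otherwise, if some circle has an empty position to its left, take
  the smallest such circle, at `t`; `t - 1` is not a circle and not a cross (separation), so it
  is free: `G24_swap`. (c) Otherwise, if there are an empty position `p` and `q ∈ VV` with `p < q`,
  then `R_exists` gives an arc `(p', q')` with only blocked positions in between; a cross
  in between would have `q'` to its right, a circle would have `p'` to its left; so `q' = p' + 1`. Put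
  `t = q'`. `G24_cap`: the new pair has one element of `VV` less; it has a new circle at `t - 1`
  and a new cross at `t`; all crosses are `> t` (not (a)) and all circles are `< t - 1` (not (b)), so the
  separation persists. (d) Otherwise `G24_base`.
-/

/-- bead sets after the move -/
theorem g24e_ex {n : ℕ} (γ : Fin n → ℕ) (hγ : Antitone γ) (a b : ℕ)
    (h : a ∈ bs γ ∨ b ∈ bs γ) (h' : ¬(a ∈ bs γ ∧ b ∈ bs γ)) :
    ∃ γ₁ : Fin n → ℕ, Antitone γ₁ ∧ bs γ₁ = insert b ((bs γ).erase a) := by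
  have hc := bs_card γ hγ
  obtain ⟨γ₁, h1, h2⟩ := bs_surj (n := n) (insert b ((bs γ).erase a)) (by
    by_cases ha : a ∈ bs γ
    · have hb : b ∉ bs γ := fun hb => h' ⟨ha, hb⟩
      have hb' : b ∉ (bs γ).erase a := fun hb' => hb (Finset.mem_of_mem_erase hb')
      rw [Finset.card_insert_of_notMem hb', Finset.card_erase_of_mem ha, hc]
      have : 0 < (bs γ).card := Finset.card_pos.mpr ⟨a, ha⟩
      omega
    · have hb : b ∈ bs γ := h.resolve_left ha
      rw [Finset.erase_eq_of_notMem ha, Finset.insert_eq_of_mem hb, hc])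
  exact ⟨γ₁, h1, h2⟩

/-- invariants of a pair after the move -/
theorem g24e_inv {n : ℕ} (γ δ γ₁ δ₁ : Fin n → ℕ) (t : ℕ) (ht : 1 ≤ t)
    (hX1 : t - 1 ∈ bs γ ↔ t - 1 ∈ bs δ) (hX2 : t ∈ bs γ ↔ t ∈ bs δ)
    (h1 : bs γ₁ = insert t ((bs γ).erase (t - 1)))
    (h2 : bs δ₁ = insert (t - 1) ((bs δ).erase t)) :
    VV γ₁ δ₁ = ((VV γ δ).erase (t - 1)).erase t ∧
    XX γ₁ δ₁ = insert (t - 1) (insert t (XX γ δ)) ∧
    ∀ p, wd γ₁ δ₁ p = if p = t then 1 else if p = t - 1 then -1 else wd γ δ p := by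
  have hne : t - 1 ≠ t := by omega
  refine ⟨?_, ?_, ?_⟩
  · ext p
    simp only [VV, h1, h2, Finset.mem_inter, Finset.mem_insert, Finset.mem_erase]
    by_cases hp : p = t
    · subst hp
      simp [hne.symm]
    · by_cases hp' : p = t - 1
      · subst hp'
        simp [hne]
      · simp [hp, hp']
  · ext p
    simp only [XX, h1, h2, Finset.mem_symmDiff, Finset.mem_insert, Finset.mem_erase]
    by_cases hp : p = t
    · subst hp
      simp [hne.symm]
    · by_cases hp' : p = t - 1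
      · subst hp'
        simp [hne]
      · simp [hp, hp']
  · intro p
    simp only [wd, h1, h2, Finset.mem_insert, Finset.mem_erase]
    by_cases hp : p = t
    · subst hp
      simp [hne.symm]
    · by_cases hp' : p = t - 1
      · subst hp'
        simp [hne]
      · simp [hp, hp']

theorem g24e_zero {n : ℕ} (γ δ : Fin n → ℕ) (p : ℕ) (h : wd γ δ p = 0) :
    p ∈ bs γ ↔ p ∈ bs δ := by
  unfold wd at h
  by_cases h1 : p ∈ bs γ <;> by_cases h2 : p ∈ bs δ <;> simp_all

theorem g24e_prop {a b : Prop} (h : ¬(a ↔ ¬b)) : a ↔ b := by tauto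

theorem g24e_prop' {a b : Prop} (h : ¬(a ↔ ¬b)) : ¬(¬a ∧ b) := by tauto

theorem g24e_or {a b a' b' : Prop} (e1 : a ↔ a') (e2 : b ↔ b') (h : a ∧ a' ↔ ¬(b ∧ b')) :
    (a ∨ b) ∧ ¬(a ∧ b) ∧ (b' ∨ a') ∧ ¬(b' ∧ a') := by tauto

theorem G24_cap (f : ∀ (M : Type) [AddCommGroup M] [Module ℂ M], GM (n + k) n M → ℕ)
    (γ' δ' δ₁ : Fin n → ℕ) (hγ' : Antitone γ') (hδ' : Antitone δ') (t : ℕ) (ht : 1 ≤ t)
    (h1 : t - 1 ∉ bs γ') (h2 : t - 1 ∉ bs δ') (h3 : t ∈ bs γ') (h4 : t ∈ bs δ')
    (h5 : movB δ' δ₁ t) (h : Adm f γ' δ₁) :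
    Adm (fun M _ _ (S : GM (n + k) n M) => f ↥(S.Ft t) (S.F t)) γ' δ' := by
  have hne : t - 1 ≠ t := by omega
  obtain ⟨hadd, hkac, hsim⟩ := h
  have hδ₁ : Antitone δ₁ := h5.1
  have hbs₁ : bs δ₁ = insert (t - 1) ((bs δ').erase t) := (movB_bs δ' δ₁ hδ' t ht h5).2.2
  have hbg : bs γ' = insert t ((bs γ').erase (t - 1)) := by
    rw [Finset.erase_eq_of_notMem h1, Finset.insert_eq_of_mem h3]
  have hV1 : t - 1 ∉ VV γ' δ' := by simp [VV, h1]
  have hV2 : t ∈ VV γ' δ' := by simp [VV, h3, h4]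
  have hw1 : wd γ' δ' (t - 1) = 0 := by simp [wd, h1, h2]
  have hw2 : wd γ' δ' t = 0 := by simp [wd, h3, h4]
  have hX1 : t - 1 ∉ XX γ' δ' := by
    rw [mem_XX, hw1]
    simp
  have hX2 : t ∉ XX γ' δ' := by
    rw [mem_XX, hw2]
    simp
  have hinv' := g24e_inv γ' δ' γ' δ₁ t ht (by simp [h1, h2]) (by simp [h3, h4]) hbg hbs₁
  rw [Finset.erase_eq_of_notMem hV1] at hinv'
  have hcapiff : ∀ V, Rel (XX γ' δ') V (VV γ' δ') ↔ ((t - 1 ∈ V ↔ t ∉ V) ∧
      Rel (XX γ' δ₁) ((V.erase (t - 1)).erase t) (VV γ' δ₁)) := by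
    intro V
    rw [hinv'.1, hinv'.2.1]
    exact R_cap (XX γ' δ') V (VV γ' δ') t ht hX1 hX2 hV1 hV2 (XX_VV_disj γ' δ')
  -- the new pair
  have hnew : ∀ γ δ : Fin n → ℕ, Antitone γ → Antitone δ → wd γ δ = wd γ' δ' →
      (t - 1 ∈ VV γ δ ↔ t ∉ VV γ δ) → ∃ γ₂ δ₂ : Fin n → ℕ, Antitone γ₂ ∧ Antitone δ₂ ∧
        bs γ₂ = insert t ((bs γ).erase (t - 1)) ∧ bs δ₂ = insert (t - 1) ((bs δ).erase t) ∧
        wd γ₂ δ₂ = wd γ' δ₁ ∧ VV γ₂ δ₂ = ((VV γ δ).erase (t - 1)).erase t := by
    intro γ δ hγ hδ hwd hc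
    have e1 : t - 1 ∈ bs γ ↔ t - 1 ∈ bs δ := g24e_zero γ δ _ (by rw [hwd, hw1])
    have e2 : t ∈ bs γ ↔ t ∈ bs δ := g24e_zero γ δ _ (by rw [hwd, hw2])
    simp only [VV, Finset.mem_inter] at hc
    obtain ⟨c1, c2, c3, c4⟩ := g24e_or e1 e2 hc
    obtain ⟨γ₂, hγ₂, hb₂⟩ := g24e_ex γ hγ (t - 1) t c1 c2
    obtain ⟨δ₂, hδ₂, hb₂'⟩ := g24e_ex δ hδ t (t - 1) c3 c4
    have hinv := g24e_inv γ δ γ₂ δ₂ t ht e1 e2 hb₂ hb₂'
    refine ⟨γ₂, δ₂, hγ₂, hδ₂, hb₂, hb₂', ?_, hinv.1⟩
    funext p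
    rw [hinv.2.2 p, hinv'.2.2 p, hwd]
  refine ⟨G04_F f hadd t, ?_, ?_⟩
  · intro M _ _ S hfin hS γ δ hγ hδ hwd hK
    have hck := G24_cap_kac M S hS hfin γ δ hγ hδ t ht (by rw [hwd, hw1]) (by rw [hwd, hw2]) hK
    rw [hcapiff]
    by_cases hc : (t - 1 ∈ VV γ δ ↔ t ∉ VV γ δ)
    · obtain ⟨γ₂, δ₂, hγ₂, hδ₂, hb₂, hb₂', hwd₂, hVV₂⟩ := hnew γ δ hγ hδ hwd hc
      have hK₂ := hck.1 hc γ₂ δ₂ hγ₂ hδ₂ hb₂ hb₂'
      have := hfin
      have hfin₂ : Module.Finite ℂ ↥(S.Ft t) := inferInstance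
      have hk := hkac ↥(S.Ft t) (S.F t) hfin₂ (G05_F S hS t) γ₂ δ₂ hγ₂ hδ₂ hwd₂ hK₂
      rw [hVV₂] at hk
      refine ⟨fun hr => hk.1 hr.2, fun hr => hk.2 fun hr' => hr ⟨hc, hr'⟩⟩
    · have hbot : S.Ft t = ⊥ := hck.2 (g24e_prop hc)
      refine ⟨fun hr => absurd hr.1 hc, fun _ => ?_⟩
      exact G04_zero f hadd _ _ (by rw [hbot]; infer_instance)
  · intro M _ _ S hfin hS hnt hsimS γ δ hγ hδ hwd hL
    have e1 : t - 1 ∈ bs γ ↔ t - 1 ∈ bs δ := g24e_zero γ δ _ (by rw [hwd, hw1])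
    have e2 : t ∈ bs γ ↔ t ∈ bs δ := g24e_zero γ δ _ (by rw [hwd, hw2])
    obtain ⟨W, hW, φ, hgood, hirr, hφ, hsurj, -⟩ := G20_cover S hS hfin γ δ hL
    have := hfin
    have hfinW : Module.Finite ℂ ↥W := inferInstance
    have hfin₀ := (G20_finrank (n + k) n ↥W).1
    have hS₀ := G20_good (S.toG0.res W hW) hgood
    have hK₀ := G20_kac (S.toG0.res W hW) hfinW γ δ hirr
    have hck := G24_cap_kac _ (S.toG0.res W hW).ind hS₀ hfin₀ γ δ hγ hδ t ht
      (by rw [hwd, hw1]) (by rw [hwd, hw2]) hK₀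
    have hzero : S.Ft t = ⊥ → f ↥(S.Ft t) (S.F t) = 0 := fun hbot =>
      G04_zero f hadd _ _ (by rw [hbot]; infer_instance)
    by_cases hc : (t - 1 ∈ VV γ δ ↔ t ∉ VV γ δ)
    · by_cases hc2 : t ∈ VV γ δ
      · have hc1 : t - 1 ∉ VV γ δ := fun h => (hc.1 h) hc2
        have htg : t ∈ bs γ := (Finset.mem_inter.1 hc2).1
        have htd : t ∈ bs δ := (Finset.mem_inter.1 hc2).2
        have hg1 : t - 1 ∉ bs γ := fun h => hc1 (Finset.mem_inter.2 ⟨h, e1.1 h⟩)
        have hd1 : t - 1 ∉ bs δ := fun h => hg1 (e1.2 h)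
        obtain ⟨δ₃, h₃⟩ := movB_ex δ hδ t ht htd hd1
        have hnz : S.Ft t ≠ ⊥ := G18_nonzero S hS hfin γ δ δ₃ hL t h₃
        obtain ⟨γ₂, δ₂, hγ₂, hδ₂, hb₂, hb₂', hwd₂, hVV₂⟩ := hnew γ δ hγ hδ hwd hc
        have hK₂ := hck.1 hc γ₂ δ₂ hγ₂ hδ₂ hb₂ hb₂'
        obtain ⟨hs₂, hl₂⟩ := G18_sim (S.toG0.res W hW).ind hS₀ hfin₀ S hS φ hφ hsurj hsimS t γ₂ δ₂
          hK₂ hnz
        have hfin₂ : Module.Finite ℂ ↥(S.Ft t) := inferInstance
        have hnt₂ : Nontrivial ↥(S.Ft t) := (Submodule.nontrivial_iff_ne_bot).2 hnz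
        have hk := hsim ↥(S.Ft t) (S.F t) hfin₂ (G05_F S hS t) hnt₂ hs₂ γ₂ δ₂ hγ₂ hδ₂ hwd₂ hl₂
        have hgg : γ₂ = γ := bs_inj γ₂ γ hγ₂ hγ (by
          rw [hb₂, Finset.erase_eq_of_notMem hg1, Finset.insert_eq_of_mem htg])
        have hdd : δ₂ = δ₁ ↔ δ = δ' := by
          constructor
          · intro he
            apply bs_inj δ δ' hδ hδ'
            have h6 : insert (t - 1) ((bs δ).erase t) = insert (t - 1) ((bs δ').erase t) := by
              rw [← hb₂', ← hbs₁, he]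
            ext p
            have h7 := Finset.ext_iff.1 h6 p
            simp only [Finset.mem_insert, Finset.mem_erase] at h7
            by_cases hp : p = t
            · subst hp
              simp [htd, h4]
            · by_cases hp' : p = t - 1
              · subst hp'
                simp [hd1, h2]
              · simpa [hp, hp'] using h7
          · intro he
            apply bs_inj δ₂ δ₁ hδ₂ hδ₁
            rw [hb₂', hbs₁, he]
        have hiff : (γ₂ = γ' ∧ δ₂ = δ₁) ↔ (γ = γ' ∧ δ = δ') := by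
          rw [hgg, hdd]
        exact ⟨fun he => hk.1 (hiff.2 he), fun he => hk.2 (fun he' => he (hiff.1 he'))⟩
      · have hc1 : t - 1 ∈ VV γ δ := hc.2 hc2
        have hg1 : t - 1 ∈ bs γ := (Finset.mem_inter.1 hc1).1
        have hd1 : t - 1 ∈ bs δ := (Finset.mem_inter.1 hc1).2
        have htg : t ∉ bs γ := fun h => hc2 (Finset.mem_inter.2 ⟨h, e2.1 h⟩)
        have htd : t ∉ bs δ := fun h => htg (e2.2 h)
        obtain ⟨γ₂, hA⟩ := movA_ex γ hγ t ht hg1 htg
        obtain ⟨δ₂, hδ₂, s, hs1, hs2⟩ := movA_ex δ hδ t ht hd1 htd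
        have hB : movB δ₂ δ (t : ℤ) := by
          refine ⟨hδ, s, hs1, ?_⟩
          rw [hs1, hs2]
          simp only [Pi.add_apply, Pi.single_eq_same]
          push_cast
          ring
        have hbot : S.Ft t = ⊥ := G21_cap S hS hfin hsimS γ δ γ₂ δ₂ hγ hδ₂ hL t (by exact_mod_cast ht)
          hA hB
        refine ⟨fun he => absurd hV2 ?_, fun _ => hzero hbot⟩
        rw [← he.1, ← he.2]
        exact hc2
    · have hbot : S.Ft t = ⊥ := G18_zero (S.toG0.res W hW).ind hfin₀ S φ hφ hsurj t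
        (hck.2 (g24e_prop hc))
      refine ⟨fun he => ?_, fun _ => hzero hbot⟩
      have h6 := g24e_prop' hc
      rw [he.1, he.2] at h6
      exact absurd ⟨hV1, hV2⟩ h6

end H95H
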