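import Pool.Agent.Lib.H95H.G04b
import Pool.Agent.Lib.H95H.G23a
import Pool.Agent.Lib.H95H.R04
import Pool.Agent.Lib.H95H.R14

namespace H95H

variable {n k : ℕ}

/-!
# Chunk G24: the admissible functions

The combinatorial lemmas about beads and arcs are in the `R` files (import what you need; `R_swap`,
`R_cap`, `R_min`, `R_noarc`, `R_exists`, `bs_inj`, `movA_iff`, ..). The symbol of a position `p` is
cross if `p ∈ bs γ, p ∉ bs δ` (`wd = 1`), circle if `p ∉ bs γ, p ∈ bs δ` (`wd = -1`), and otherwise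
it is free: `p ∈ VV γ δ` (two beads) or empty. `XX γ δ` is the set of crosses and circles.

* `G24_swp_kac`: cross at `t - 1`: if `t` is empty then `movA` is possible and `movB` not (`G15_A`), if
  `t ∈ VV` then `movB` is possible and `movA` not (`G15_B`). Circle at `t`: if `t - 1` is empty then
  only `movB` is possible, if `t - 1 ∈ VV` only `movA`. In all four cases the new bead sets are the
  images of the old ones under the transposition of `t - 1` and `t`.
* `G24_swp_sim`: `G20_cover` gives the Kac module `S₀` and `φ : S₀ → S`; `G24_swp_kac` for `S₀`, and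
  `G18_sim`. (The partitions `γ₁`, `δ₁` with the given bead sets are unique, `bs_inj`.)
* `G24_swap`: let `f = f' ∘ F t`; additive by `G04_F`. On Kac modules: `G24_swp_kac` and `R_swap` (`XX`,
  `VV` of the new pairs are the images of the old ones, `F t` of a module is good and finite). On
  a simple module `L` of weight `(γ, δ)` in the block: if `L.Ft t = ⊥` then `f L = 0` (`G04_zero`),
  otherwise `L.F t` is simple with the transposed weight, and `f L` is `1` if
  `(γ, δ) = (γ', δ')` and `0` otherwise. It remains to exclude that `L.Ft t = ⊥` for some simple `L` of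
  weight `(γ', δ')`. Suppose so. Then `f = 0` on all simple modules of weight `(γ', δ')` (`G17_uniq`,
  `G04_iso`), so on all simple modules of the block, so on all good finite-dimensional modules
  in the block (`G23_agree` with `g = 0`), in particular (`G23_kac`) for the Kac module `S₀` covering
  `L`. But `f S₀ = 1` by `R_refl`. Contradiction.
* `G24_cap_kac`: let `t - 1` and `t` be free. If `t - 1` is empty and `t ∈ VV γ δ`: only `movB` is
  possible; if `t - 1 ∈ VV` and `t` is empty: only `movA`. In both cases the new first bead set has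
  `t` and not `t - 1`, the second has `t - 1` and not `t`. In the other cases `F t` is zero
  (`G15_0`).
* `G24_cap`: let `t - 1` be empty and `t ∈ VV γ' δ'`, `δ₁` obtained from `δ'` by moving the bead `t` to
  `t - 1`. `f = f' ∘ F t`. Kac modules: `G24_cap_kac`, `R_cap`. Simple modules `L` of weight `(γ, δ)` in
  the block: if `t - 1` is empty and `t ∈ VV γ δ` then `L.Ft t ≠ ⊥` (`G18_nonzero`) and it is simple of
  the weight described above (`G20_cover`, `G24_cap_kac`, `G18_sim`), which is `(γ', δ₁)` iff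
  `(γ, δ) = (γ', δ')`. If `t - 1 ∈ VV γ δ` and `t` is empty then `L.Ft t = ⊥` by `G21_cap` (with `γ₂`, `δ₂`
  obtained by moving the beads from `t - 1` to `t`). Otherwise `L.Ft t = ⊥` by `G18_zero`,
  `G20_cover` and `G24_cap_kac`. In the last two cases `(γ, δ) ≠ (γ', δ')` and `f L = 0`.
* `G24_base`: `f S = finrank (Wsp (pz γ') (nz δ'))` (`G04_W`). By the hypothesis `hno` and `R_min`,
  `R_noarc`: for antitone `γ`, `δ` in the block with `∑ δ ≤ ∑ δ'` we get `∑ bs δ ≤ ∑ bs δ'`, so
  `∑ VV γ δ ≤ ∑ VV γ' δ'` (`bs δ` is the disjoint union of `VV` and the circles, the circles are the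
  same), so `VV γ δ = VV γ' δ'` and `(γ, δ) = (γ', δ')` (`wd_inj`). Let `S` be a module with lowest part
  `W` of weight `(γ, δ)` in the block (Kac or simple). If `(γ, δ) ≠ (γ', δ')` then `∑ δ > ∑ δ'` and
  `Wsp = ⊥` by `G12_low`, so `f S = 0`. If they are equal, a vector of this weight lies in `W`
  (`G12_low`) and is a multiple of the highest weight vector (`W = low v`, `G07_cyc`, `G07_lower`): the
  dimension is `1`. `Rel` is equality by `R_noarc`.
* `G24_main`: let `C` be an upper bound of `bs γ' ∪ bs δ'`. Induction on `(VV γ' δ').card` and inside on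
  `∑_{crosses x} (C - x) + ∑_{circles o} o`. (a) If some cross has an element of `VV γ' δ'` to its
  right, take the largest such cross, at `t - 1`. Position `t` is not a cross (it would be larger)
  and not a circle (separation), so it is free: `Swp`, and `G24_swap` with the transposed pair: the
  number of elements of `VV` is the same, the second number is smaller (`t ≤ C`), the bound `C` and
  the separation persist. (b) Otherwise, if some circle has an empty position to its left, take
  the smallest such circle, at `t`; `t - 1` is not a circle and not a cross (separation), so it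
  is free: `G24_swap`. (c) Otherwise, if there are an empty position `p` and `q ∈ VV` with `p < q`,
  then `R_exists` gives an arc `(p', q')` with only blocked positions in between; a cross
  in between would have `q'` to its right, a circle would have `p'` to its left; so `q' = p' + 1`. Put
  `t = q'`. `G24_cap`: the new pair has one element of `VV` less; it has a new circle at `t - 1`
  and a new cross at `t`; all crosses are `> t` (not (a)) and all circles are `< t - 1` (not (b)), so the
  separation persists. (d) Otherwise `G24_base`.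
-/

theorem g24f_wd_neg (γ δ : Fin n → ℕ) (p : ℕ) : wd δ γ p = - wd γ δ p := by
  unfold wd
  ring

theorem g24f_eq (γ δ γ' δ' : Fin n → ℕ) (hγ : Antitone γ) (hδ : Antitone δ) (hγ' : Antitone γ')
    (hδ' : Antitone δ') (hwd : wd γ δ = wd γ' δ')
    (hno : ∀ p q, p ∉ XX γ' δ' → p ∉ VV γ' δ' → q ∈ VV γ' δ' → ¬p < q)
    (hs : ∑ r, δ r ≤ ∑ r, δ' r) : γ = γ' ∧ δ = δ' := by
  have h1 : wd δ γ = wd δ' γ' := by
    funext p
    rw [g24f_wd_neg γ δ, g24f_wd_neg γ' δ', hwd]
  have h2 := VV_sum δ γ δ' γ' hδ hδ' h1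
  have h3 : ∀ a b : Fin n → ℕ, VV b a = VV a b := fun a b => Finset.inter_comm _ _
  rw [h3 γ δ, h3 γ' δ'] at h2
  have h4 : VV γ δ = VV γ' δ' := by
    refine R_min (XX γ' δ') _ _ ?_ (VV_card γ δ γ' δ' hγ hγ' hwd) hno (by omega)
    rw [← wd_XX γ δ γ' δ' hwd]
    exact XX_VV_disj γ δ
  exact wd_inj γ δ γ' δ' hγ hδ hγ' hδ' hwd h4

theorem g24f_one {m : ℕ} {M : Type} [AddCommGroup M] [Module ℂ M] (S : GM m n M)
    (hS : S.toG0.Good) (hfin : Module.Finite ℂ M) (α : Fin m → ℤ) (β : Fin n → ℤ)
    (W : Submodule ℂ M) (hW : S.Low α β W) : Module.finrank ℂ ↥(S.toG0.Wsp α β) = 1 := by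
  obtain ⟨v, hvW, hne, hv⟩ := hW.irr.hw
  obtain ⟨c1, c2, c3⟩ := G07_cyc S.toG0 hS hfin α β v hv hne
  have hlow : S.toG0.low v = W := by
    have h1 := c3 W hW.irr.stab hvW
    rcases hW.irr.irr _ h1 c1.stab with h2 | h2
    · exfalso
      rw [h2] at c2
      exact hne ((Submodule.mem_bot ℂ).1 c2)
    · exact h2
  rw [finrank_eq_one_iff_of_nonzero' (⟨v, hv.1⟩ : ↥(S.toG0.Wsp α β)) (by
    intro h
    exact hne (congrArg Subtype.val h))]
  rintro ⟨u, hu⟩
  by_cases hu0 : u = 0
  · refine ⟨0, ?_⟩
    apply Subtype.ext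
    simp [hu0]
  · have h1 := (G12_low S hS hfin α β W hW α β u hu hu0).2 rfl
    rw [← hlow] at h1
    obtain ⟨r, hr⟩ := (G07_lower S.toG0 α β v hv).2.1 u h1 hu
    refine ⟨r, ?_⟩
    apply Subtype.ext
    simp [hr]

theorem g24f_key (γ' δ' : Fin n → ℕ) (hγ' : Antitone γ') (hδ' : Antitone δ')
    (hno : ∀ p q, p ∉ XX γ' δ' → p ∉ VV γ' δ' → q ∈ VV γ' δ' → ¬p < q)
    (M : Type) [AddCommGroup M] [Module ℂ M] (S : GM (n + k) n M) (hfin : Module.Finite ℂ M)
    (hS : S.toG0.Good) (γ δ : Fin n → ℕ) (hγ : Antitone γ) (hδ : Antitone δ)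
    (hwd : wd γ δ = wd γ' δ') (hlow : S.isLow γ δ) :
    (γ = γ' ∧ δ = δ' → Module.finrank ℂ ↥(S.toG0.Wsp (pz k γ') (nz δ')) = 1) ∧
    (¬(γ = γ' ∧ δ = δ') → Module.finrank ℂ ↥(S.toG0.Wsp (pz k γ') (nz δ')) = 0) := by
  obtain ⟨W, hW⟩ := hlow
  constructor
  · rintro ⟨rfl, rfl⟩
    exact g24f_one S hS hfin _ _ W hW
  · intro hne
    have hbot : S.toG0.Wsp (pz k γ') (nz δ') = ⊥ := by
      by_contra hcon
      obtain ⟨v, hv, hv0⟩ := Submodule.exists_mem_ne_zero_of_ne_bot hcon
      have h1 := (G12_low S hS hfin _ _ W hW _ _ v hv hv0).1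
      unfold nz at h1
      have h2 : ∑ r, δ r ≤ ∑ r, δ' r := by exact_mod_cast h1
      exact hne (g24f_eq γ δ γ' δ' hγ hδ hγ' hδ' hwd hno h2)
    rw [hbot]
    exact finrank_bot ℂ M

theorem G24_base (γ' δ' : Fin n → ℕ) (hγ' : Antitone γ') (hδ' : Antitone δ')
    (hno : ∀ p q, p ∉ XX γ' δ' → p ∉ VV γ' δ' → q ∈ VV γ' δ' → ¬p < q) :
    Adm (fun M _ _ (S : GM (n + k) n M) =>
      Module.finrank ℂ ↥(S.toG0.Wsp (pz k γ') (nz δ'))) γ' δ' := by
  refine ⟨G04_W _ _, ?_, ?_⟩
  · intro M _ _ S hfin hS γ δ hγ hδ hwd hK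
    have h1 := g24f_key γ' δ' hγ' hδ' hno M S hfin hS γ δ hγ hδ hwd (by
      obtain ⟨W, hW, _⟩ := hK
      exact ⟨W, hW⟩)
    have h2 : Rel (XX γ' δ') (VV γ δ) (VV γ' δ') ↔ (γ = γ' ∧ δ = δ') := by
      rw [R_noarc _ _ _ hno]
      constructor
      · intro h3
        exact wd_inj γ δ γ' δ' hγ hδ hγ' hδ' hwd h3
      · rintro ⟨rfl, rfl⟩
        rfl
    rw [h2]
    exact h1
  · intro M _ _ S hfin hS _ _ γ δ hγ hδ hwd hL
    exact g24f_key γ' δ' hγ' hδ' hno M S hfin hS γ δ hγ hδ hwd hL

end H95H
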