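import Pool.Agent.Lib.H95H.G24c
import Pool.Agent.Lib.H95H.G24e
import Pool.Agent.Lib.H95H.G24f

namespace H95H

variable {n k : ℕ}

/-!
# Chunk G24: the admissible functions

The combinatorial lemmas about beads and arcs are in the `R` files (import what you need; `R_swap`,
`R_cap`, `R_min`, `R_noarc`, `R_exists`, `bs_inj`, `movA_iff`, ..). The symbol of a position `p` is
cross if `p ∈ bs γ, p ∉ bs δ` (`wd = 1`), circle if `p ∉ bs γ, p ∈ bs δ` (`wd = -1`), and otherwise
it is free: `p ∈ VV γ δ` (two beads) or empty. `XX γ δ` is the set of crosses and circles.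

* `G24_swp_kac`: cross at `t - 1`: if `t` is empty then `movA` is possible and `movB` not (`G15_A`), if
  `t ∈ VV` then `movB` is possible and `movA` not (`G15_B`). Circle at `t`: if `t - 1` is empty then
  only `movB` is possible, if `t - 1 ∈ VV` only `movA`. In all four cases the new bead sets are the
  images of the old ones under the transposition of `t - 1` and `t`.
* `G24_swp_sim`: `G20_cover` gives the Kac module `S₀` and `φ : S₀ → S`; `G24_swp_kac` for `S₀`, and
  `G18_sim`. (The partitions `γ₁`, `δ₁` with the given bead sets are unique, `bs_inj`.)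
* `G24_swap`: let `f = f' ∘ F t`; additive by `G04_F`. On Kac modules: `G24_swp_kac` and `R_swap` (`XX`,
  `VV` of the new pairs are the images of the old ones, `F t` of a module is good and finite). On
  a simple module `L` of weight `(γ, δ)` in the block: if `L.Ft t = ⊥` then `f L = 0` (`G04_zero`),
  otherwise `L.F t` is simple with the transposed weight, and `f L` is `1` if
  `(γ, δ) = (γ', δ')` and `0` otherwise. It remains to exclude that `L.Ft t = ⊥` for some simple `L` of
  weight `(γ', δ')`. Suppose so. Then `f = 0` on all simple modules of weight `(γ', δ')` (`G17_uniq`,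
  `G04_iso`), so on all simple modules of the block, so on all good finite-dimensional modules
  in the block (`G23_agree` with `g = 0`), in particular (`G23_kac`) for the Kac module `S₀` covering
  `L`. But `f S₀ = 1` by `R_refl`. Contradiction.
* `G24_cap_kac`: let `t - 1` and `t` be free. If `t - 1` is empty and `t ∈ VV γ δ`: only `movB` is
  possible; if `t - 1 ∈ VV` and `t` is empty: only `movA`. In both cases the new first bead set has
  `t` and not `t - 1`, the second has `t - 1` and not `t`. In the other cases `F t` is zero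
  (`G15_0`).
* `G24_cap`: let `t - 1` be empty and `t ∈ VV γ' δ'`, `δ₁` obtained from `δ'` by moving the bead `t` to
  `t - 1`. `f = f' ∘ F t`. Kac modules: `G24_cap_kac`, `R_cap`. Simple modules `L` of weight `(γ, δ)` in
  the block: if `t - 1` is empty and `t ∈ VV γ δ` then `L.Ft t ≠ ⊥` (`G18_nonzero`) and it is simple of
  the weight described above (`G20_cover`, `G24_cap_kac`, `G18_sim`), which is `(γ', δ₁)` iff
  `(γ, δ) = (γ', δ')`. If `t - 1 ∈ VV γ δ` and `t` is empty then `L.Ft t = ⊥` by `G21_cap` (with `γ₂`, `δ₂`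
  obtained by moving the beads from `t - 1` to `t`). Otherwise `L.Ft t = ⊥` by `G18_zero`,
  `G20_cover` and `G24_cap_kac`. In the last two cases `(γ, δ) ≠ (γ', δ')` and `f L = 0`.
* `G24_base`: `f S = finrank (Wsp (pz γ') (nz δ'))` (`G04_W`). By the hypothesis `hno` and `R_min`,
  `R_noarc`: for antitone `γ`, `δ` in the block with `∑ δ ≤ ∑ δ'` we get `∑ bs δ ≤ ∑ bs δ'`, so
  `∑ VV γ δ ≤ ∑ VV γ' δ'` (`bs δ` is the disjoint union of `VV` and the circles, the circles are the
  same), so `VV γ δ = VV γ' δ'` and `(γ, δ) = (γ', δ')` (`wd_inj`). Let `S` be a module with lowest part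
  `W` of weight `(γ, δ)` in the block (Kac or simple). If `(γ, δ) ≠ (γ', δ')` then `∑ δ > ∑ δ'` and
  `Wsp = ⊥` by `G12_low`, so `f S = 0`. If they are equal, a vector of this weight lies in `W`
  (`G12_low`) and is a multiple of the highest weight vector (`W = low v`, `G07_cyc`, `G07_lower`): the
  dimension is `1`. `Rel` is equality by `R_noarc`.
* `G24_main`: let `C` be an upper bound of `bs γ' ∪ bs δ'`. Induction on `(VV γ' δ').card` and inside on
  `∑_{crosses x} (C - x) + ∑_{circles o} o`. (a) If some cross has an element of `VV γ' δ'` to its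
  right, take the largest such cross, at `t - 1`. Position `t` is not a cross (it would be larger)
  and not a circle (separation), so it is free: `Swp`, and `G24_swap` with the transposed pair: the
  number of elements of `VV` is the same, the second number is smaller (`t ≤ C`), the bound `C` and
  the separation persist. (b) Otherwise, if some circle has an empty position to its left, take
  the smallest such circle, at `t`; `t - 1` is not a circle and not a cross (separation), so it
  is free: `G24_swap`. (c) Otherwise, if there are an empty position `p` and `q ∈ VV` with `p < q`,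
  then `R_exists` gives an arc `(p', q')` with only blocked positions in between; a cross
  in between would have `q'` to its right, a circle would have `p'` to its left; so `q' = p' + 1`. Put
  `t = q'`. `G24_cap`: the new pair has one element of `VV` less; it has a new circle at `t - 1`
  and a new cross at `t`; all crosses are `> t` (not (a)) and all circles are `< t - 1` (not (b)), so the
  separation persists. (d) Otherwise `G24_base`.
-/

/-- weight of a position -/
def g24g_F (C : ℕ) (w : ℤ) (p : ℕ) : ℕ := if w = 1 then C - p else if w = -1 then p else 0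

/-- the measure for the inner induction -/
def g24g_s (C : ℕ) (ω : ℕ → ℤ) : ℕ := ∑ p ∈ Finset.range (C + 1), g24g_F C (ω p) p

theorem g24g_s_lt (C : ℕ) (ω : ℕ → ℤ) (t : ℕ) (htC : t ≤ C) (ht : Swp ω t) :
    g24g_s C (fun p => ω (Equiv.swap (t - 1) t p)) < g24g_s C ω := by
  obtain ⟨ht1, ht2⟩ := ht
  have hmem : ∀ p ∈ Finset.range (C + 1), Equiv.swap (t - 1) t p ∈ Finset.range (C + 1) := by
    intro p hp
    rw [Finset.mem_range] at hp ⊢
    rw [Equiv.swap_apply_def]
    split_ifs <;> omega
  have h1 : g24g_s C (fun p => ω (Equiv.swap (t - 1) t p)) =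
      ∑ p ∈ Finset.range (C + 1), g24g_F C (ω p) (Equiv.swap (t - 1) t p) := by
    unfold g24g_s
    refine Finset.sum_nbij' (i := Equiv.swap (t - 1) t) (j := Equiv.swap (t - 1) t) hmem hmem ?_ ?_ ?_
    · intro p _
      exact Equiv.swap_apply_self _ _ _
    · intro p _
      exact Equiv.swap_apply_self _ _ _
    · intro p _
      rw [Equiv.swap_apply_self]
  rw [h1]
  unfold g24g_s
  refine Finset.sum_lt_sum ?_ ?_
  · intro p _
    rw [Equiv.swap_apply_def]
    split_ifs with h2 h3
    · subst h2
      unfold g24g_F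
      rcases ht2 with ⟨h4, h5⟩ | ⟨h4, h5⟩
      · rw [h4]
        simp only [if_true]
        omega
      · rw [h4]
        simp
    · subst h3
      unfold g24g_F
      rcases ht2 with ⟨h4, h5⟩ | ⟨h4, h5⟩
      · rw [h5]
        simp
      · rw [h5]
        simp
    · exact le_rfl
  · rcases ht2 with ⟨h4, h5⟩ | ⟨h4, h5⟩
    · refine ⟨t - 1, Finset.mem_range.2 (by omega), ?_⟩
      rw [Equiv.swap_apply_left, h4]
      unfold g24g_F
      simp only [if_true]
      omega
    · refine ⟨t, Finset.mem_range.2 (by omega), ?_⟩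
      rw [Equiv.swap_apply_right, h5]
      unfold g24g_F
      simp
      omega

theorem g24g_aux (C : ℕ) : ∀ a b : ℕ, ∀ γ' δ' : Fin n → ℕ, Antitone γ' → Antitone δ' →
    (∀ p q, wd γ' δ' p = -1 → wd γ' δ' q = 1 → p < q) →
    (∀ x ∈ bs γ', x ≤ C) → (∀ x ∈ bs δ', x ≤ C) → (VV γ' δ').card = a →
    g24g_s C (wd γ' δ') = b →
    ∃ f : (∀ (M : Type) [AddCommGroup M] [Module ℂ M], GM (n + k) n M → ℕ), Adm f γ' δ' := by
  intro a
  induction a using Nat.strong_induction_on with
  | _ a iha =>
  intro b
  induction b using Nat.strong_induction_on with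
  | _ b ihb =>
  intro γ' δ' hγ hδ hsep hCγ hCδ ha hb
  have step : ∀ t, t ≤ C → Swp (wd γ' δ') t →
      ∃ f : (∀ (M : Type) [AddCommGroup M] [Module ℂ M], GM (n + k) n M → ℕ), Adm f γ' δ' := by
    intro t htC ht
    obtain ⟨γ₁, hγ₁, e1⟩ := bs_swap γ' hγ t
    obtain ⟨δ₁, hδ₁, e2⟩ := bs_swap δ' hδ t
    obtain ⟨w1, w2, w3⟩ := wd_swap γ' δ' γ₁ δ₁ t e1 e2
    have hlt : g24g_s C (wd γ₁ δ₁) < b := by
      rw [w1, ← hb]
      exact g24g_s_lt C _ t htC ht
    have ht1 := ht.1
    have hsep₁ : ∀ p q, wd γ₁ δ₁ p = -1 → wd γ₁ δ₁ q = 1 → p < q := by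
      intro p q hp hq
      rw [w1] at hp hq
      simp only at hp hq
      have h3 := hsep _ _ hp hq
      rw [Equiv.swap_apply_def] at h3 hp
      rw [Equiv.swap_apply_def] at h3 hq
      by_contra hcon
      have h4 : (p = t ∧ q = t - 1) ∨ p = q := by
        split_ifs at h3 <;> omega
      rcases h4 with ⟨h4, h5⟩ | h4
      · subst h4
        have h6 : wd γ' δ' (p - 1) = -1 := by
          rw [if_neg (by omega), if_pos rfl] at hp
          exact hp
        rcases ht.2 with ⟨h7, _⟩ | ⟨h7, _⟩ <;> rw [h6] at h7 <;> norm_num at h7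
      · subst h4
        rw [hp] at hq
        norm_num at hq
    have hb1 : ∀ x ∈ bs γ₁, x ≤ C := by
      intro x hx
      rw [e1, r12_img] at hx
      have h3 := hCγ _ hx
      rw [Equiv.swap_apply_def] at h3
      split_ifs at h3 <;> omega
    have hb2 : ∀ x ∈ bs δ₁, x ≤ C := by
      intro x hx
      rw [e2, r12_img] at hx
      have h3 := hCδ _ hx
      rw [Equiv.swap_apply_def] at h3
      split_ifs at h3 <;> omega
    have hcard : (VV γ₁ δ₁).card = a := by
      rw [w3, Finset.card_image_of_injective _ (Equiv.injective _), ha]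
    obtain ⟨f, hf⟩ := ihb _ hlt γ₁ δ₁ hγ₁ hδ₁ hsep₁ hb1 hb2 hcard rfl
    exact ⟨_, G24_swap f γ' δ' γ₁ δ₁ hγ hδ hγ₁ hδ₁ t ht e1 e2 hf⟩
  have hw : ∀ p, wd γ' δ' p = 1 ∨ wd γ' δ' p = 0 ∨ wd γ' δ' p = -1 := by
    intro p
    unfold wd
    split_ifs <;> simp
  have hVC : ∀ q ∈ VV γ' δ', q ≤ C := fun q hq => hCγ q (Finset.mem_inter.1 hq).1
  -- crosses with a double bead on the right
  by_cases hA : ∃ x, wd γ' δ' x = 1 ∧ ∃ q ∈ VV γ' δ', x < q
  · have hfin : ∃ x, (wd γ' δ' x = 1 ∧ ∃ q ∈ VV γ' δ', x < q) ∧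
        ∀ y, (wd γ' δ' y = 1 ∧ ∃ q ∈ VV γ' δ', y < q) → y ≤ x := by
      classical
      obtain ⟨x0, hx0⟩ := hA
      let S := (Finset.range (C + 1)).filter (fun x => wd γ' δ' x = 1 ∧ ∃ q ∈ VV γ' δ', x < q)
      have hmem : ∀ x, (wd γ' δ' x = 1 ∧ ∃ q ∈ VV γ' δ', x < q) → x ∈ S := by
        intro x hx
        refine Finset.mem_filter.2 ⟨Finset.mem_range.2 ?_, hx⟩
        obtain ⟨_, q, hq, hxq⟩ := hx
        have := hVC q hq
        omega
      obtain ⟨x, hx, hmax⟩ := S.exists_max_image id ⟨x0, hmem x0 hx0⟩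
      exact ⟨x, (Finset.mem_filter.1 hx).2, fun y hy => hmax y (hmem y hy)⟩
    obtain ⟨x, ⟨hx1, q, hq, hxq⟩, hmax⟩ := hfin
    have hqX : wd γ' δ' q = 0 := by
      have h3 := Finset.disjoint_right.1 (XX_VV_disj γ' δ') hq
      rw [mem_XX, not_not] at h3
      exact h3
    refine step (x + 1) ?_ ⟨by omega, Or.inl ⟨by simpa using hx1, ?_⟩⟩
    · have := hVC q hq
      omega
    · rcases hw (x + 1) with h3 | h3 | h3
      · exfalso
        have h4 : x + 1 ≠ q := by
          rintro rfl
          rw [h3] at hqX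
          norm_num at hqX
        have h5 := hmax (x + 1) ⟨h3, q, hq, by omega⟩
        omega
      · exact h3
      · exfalso
        have := hsep _ _ h3 hx1
        omega
  by_cases hB : ∃ o, wd γ' δ' o = -1 ∧ ∃ e, e ∉ XX γ' δ' ∧ e ∉ VV γ' δ' ∧ e < o
  · classical
    obtain ⟨ho1, e, he1, he2, he3⟩ := Nat.find_spec hB
    have hmin : ∀ m, m < Nat.find hB → ¬ (wd γ' δ' m = -1 ∧ ∃ e, e ∉ XX γ' δ' ∧ e ∉ VV γ' δ' ∧ e < m) :=
      fun m hm => Nat.find_min hB hm
    set o := Nat.find hB with ho
    have hoC : o ≤ C := by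
      have h3 := (bs_of_wd γ' δ' o).2.2 (Or.inl ho1)
      exact hCδ o h3
    have heX : wd γ' δ' e = 0 := by
      rw [mem_XX, not_not] at he1
      exact he1
    refine step o hoC ⟨by omega, Or.inr ⟨?_, ho1⟩⟩
    rcases hw (o - 1) with h3 | h3 | h3
    · exfalso
      have := hsep _ _ ho1 h3
      omega
    · exact h3
    · exfalso
      have h4 : e ≠ o - 1 := by
        rintro rfl
        rw [h3] at heX
        norm_num at heX
      exact hmin (o - 1) (by omega) ⟨h3, e, he1, he2, by omega⟩
  by_cases hD : ∃ p q, p ∉ XX γ' δ' ∧ p ∉ VV γ' δ' ∧ q ∈ VV γ' δ' ∧ p < q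
  · obtain ⟨p0, q0, hp0, hp0', hq0, hpq0⟩ := hD
    obtain ⟨p, q, _, _, harc, hbet⟩ := R_exists (XX γ' δ') (VV γ' δ') (XX_VV_disj γ' δ') p0 q0
      hp0 hp0' hq0 hpq0
    obtain ⟨hpq, hpX, hpV, hqV, _, _⟩ := harc
    have hq1 : q = p + 1 := by
      by_contra hne
      have hx := hbet (p + 1) (by omega) (by omega)
      rw [mem_XX] at hx
      rcases hw (p + 1) with h3 | h3 | h3
      · exact hA ⟨p + 1, h3, q, hqV, by omega⟩
      · exact hx h3
      · exact hB ⟨p + 1, h3, p, hpX, hpV, by omega⟩
    have hpwd : wd γ' δ' p = 0 := by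
      rw [mem_XX, not_not] at hpX
      exact hpX
    have hpγ : p ∉ bs γ' := by
      rw [(bs_of_wd γ' δ' p).1, hpwd]
      rintro (h3 | h3)
      · norm_num at h3
      · exact hpV h3
    have hpδ : p ∉ bs δ' := by
      rw [(bs_of_wd γ' δ' p).2, hpwd]
      rintro (h3 | h3)
      · norm_num at h3
      · exact hpV h3
    have hqγ : q ∈ bs γ' := (Finset.mem_inter.1 hqV).1
    have hqδ : q ∈ bs δ' := (Finset.mem_inter.1 hqV).2
    have hqp : q - 1 = p := by omega
    obtain ⟨δ₁, hmov⟩ := movB_ex δ' hδ q (by omega) hqδ (by rw [hqp]; exact hpδ)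
    obtain ⟨_, _, m3⟩ := movB_bs δ' δ₁ hδ q (by omega) hmov
    rw [hqp] at m3
    have hVV : VV γ' δ₁ = (VV γ' δ').erase q := by
      ext x
      unfold VV
      rw [m3, Finset.mem_inter, Finset.mem_insert, Finset.mem_erase, Finset.mem_erase,
        Finset.mem_inter]
      constructor
      · rintro ⟨h3, h4 | h4⟩
        · rw [h4] at h3
          exact absurd h3 hpγ
        · exact ⟨h4.1, h3, h4.2⟩
      · rintro ⟨h3, h4, h5⟩
        exact ⟨h4, Or.inr ⟨h3, h5⟩⟩
    have hcard : (VV γ' δ₁).card < a := by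
      rw [hVV, Finset.card_erase_of_mem hqV, ← ha]
      have := Finset.card_pos.2 ⟨q, hqV⟩
      omega
    have hwd1 : ∀ x, x ≠ p → x ≠ q → wd γ' δ₁ x = wd γ' δ' x := by
      intro x hx1 hx2
      unfold wd
      have h3 : x ∈ bs δ₁ ↔ x ∈ bs δ' := by
        rw [m3, Finset.mem_insert, Finset.mem_erase]
        tauto
      simp only [h3]
    have hwdp : wd γ' δ₁ p = -1 := by
      unfold wd
      rw [if_neg hpγ, if_pos (by rw [m3]; exact Finset.mem_insert_self _ _)]
      norm_num
    have hwdq : wd γ' δ₁ q = 1 := by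
      unfold wd
      have h3 : q ∉ bs δ₁ := by
        rw [m3, Finset.mem_insert, Finset.mem_erase]
        rintro (h4 | h4)
        · omega
        · exact h4.1 rfl
      rw [if_pos hqγ, if_neg h3]
      norm_num
    have hcr : ∀ x, wd γ' δ' x = 1 → q < x := by
      intro x hx
      by_contra hle
      have h3 : x ≠ q := by
        rintro rfl
        have h4 := Finset.disjoint_right.1 (XX_VV_disj γ' δ') hqV
        rw [mem_XX, not_not, hx] at h4
        norm_num at h4
      exact hA ⟨x, hx, q, hqV, by omega⟩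
    have hci : ∀ x, wd γ' δ' x = -1 → x < p := by
      intro x hx
      by_contra hle
      have h3 : x ≠ p := by
        rintro rfl
        rw [hx] at hpwd
        norm_num at hpwd
      exact hB ⟨x, hx, p, hpX, hpV, by omega⟩
    have hsep₁ : ∀ x y, wd γ' δ₁ x = -1 → wd γ' δ₁ y = 1 → x < y := by
      intro x y hx hy
      have h3 : x ≤ p := by
        by_cases h4 : x = p
        · omega
        · by_cases h5 : x = q
          · subst h5
            rw [hwdq] at hx
            norm_num at hx
          · rw [hwd1 x h4 h5] at hx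
            exact (hci x hx).le
      have h6 : q ≤ y := by
        by_cases h4 : y = q
        · omega
        · by_cases h5 : y = p
          · subst h5
            rw [hwdp] at hy
            norm_num at hy
          · rw [hwd1 y h5 h4] at hy
            exact (hcr y hy).le
      omega
    have hb2 : ∀ x ∈ bs δ₁, x ≤ C := by
      intro x hx
      rw [m3, Finset.mem_insert, Finset.mem_erase] at hx
      rcases hx with h3 | h3
      · have := hCδ q hqδ
        omega
      · exact hCδ x h3.2
    obtain ⟨f, hf⟩ := iha _ hcard _ γ' δ₁ hγ hmov.1 hsep₁ hCγ hb2 rfl rfl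
    exact ⟨_, G24_cap f γ' δ' δ₁ hγ hδ q (by omega) (by rw [hqp]; exact hpγ)
      (by rw [hqp]; exact hpδ) hqγ hqδ hmov hf⟩
  · refine ⟨_, G24_base γ' δ' hγ hδ fun p q hp hp' hq hpq => hD ⟨p, q, hp, hp', hq, hpq⟩⟩

theorem G24_main (γ' δ' : Fin n → ℕ) (hγ' : Antitone γ') (hδ' : Antitone δ')
    (hsep : ∀ p q, wd γ' δ' p = -1 → wd γ' δ' q = 1 → p < q) :
    ∃ f : (∀ (M : Type) [AddCommGroup M] [Module ℂ M], GM (n + k) n M → ℕ), Adm f γ' δ' :=
  g24g_aux ((bs γ' ∪ bs δ').sup id) _ _ γ' δ' hγ' hδ' hsep
    (fun x hx => Finset.le_sup (f := id) (Finset.mem_union_left _ hx))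
    (fun x hx => Finset.le_sup (f := id) (Finset.mem_union_right _ hx)) rfl rfl

end H95H
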