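import Pool.Agent.Lib.H95H.G24g

namespace H95H

variable {n k : ℕ}

/-!
# Chunk G25: the principal block

* `G25_exists`: `G24_main` for `γ' = δ' = κ'`: `wd = 0`, so the separation is trivial.
* `G25_agree`: two admissible functions for `(κ', κ')` agree on all good finite-dimensional modules
  in the block (`G23_agree`).
* `G25_sub`: let `S` be a Kac module of weight `(κ₁, κ₁)`, `κ = κ₁ + e_r` antitone, `q = κ r + (n-1-r)` the
  bead `r` of `κ` (so `q ≥ 1`, `q - 1 ∈ bs κ₁`, `q ∉ bs κ₁`), `N` a submodule of `S` with lowest part of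
  weight `(κ, κ)`. `f N ≤ f S ≤ 1` (`G04_mono`) and `f N ≤ f S'` for the Kac module `S'` of weight
  `(κ, κ)` covering `N` (`G20_cover`; for a surjective homomorphism `f` decreases: `G04_sub` for the
  kernel and `G04_iso`). So if `f N ≠ 0` then `f N = 1` and `Rel ∅ (bs κ₁) (bs κ')`, `Rel ∅ (bs κ) (bs κ')`;
  as `bs κ₁ = insert (q-1) ((bs κ).erase q)`, `R_short` gives `Arc ∅ (bs κ') (q-1) q`.
  Conversely, suppose `Arc ∅ (bs κ') (q-1) q` and `Rel ∅ (bs κ) (bs κ')`. Then `q ∈ bs κ'`, `q - 1 ∉ bs κ'`;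
  let `δ₁` be obtained from `κ'` by moving the bead `q` to `q - 1` (`movB κ' δ₁ q`). The pair `(κ', δ₁)`
  has one circle at `q - 1` and one cross at `q`, so it is separated; let `f'` be admissible for it
  (`G24_main`). By `G24_cap`, `f'' = f' ∘ F q` is admissible for `(κ', κ')`, so it agrees with `f` on
  `S` and on `S.res N` (`G23_kac`, `G22_sub`, `G25_agree`). By `G21_sub` (with `γ = δ = κ₁`,
  `γ₂ = δ₂ = κ`, `t = q`) and `G21_zero`, `(S.quo N).Ft q = ⊥`, so `f'' (S.quo N) = 0` and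
  `f'' S = f'' N`. So `f N = f'' N = f'' S = f S = 1`, as `Rel ∅ (bs κ₁) (bs κ')` by `R_short'`.
* `G25_char`: both sides are additive functions of `S` (`G04_W`; sums and multiples of additive
  functions are additive). By `G23_agree` it is enough to look at simple modules `S` of weight
  `(γ, δ)` in the block `0`; then `γ = δ = κ` (`wd_eq_zero`). If `κ ∈ box n D` the right side is `ℓ κ`
  and so is the left side. If not, then some entry of `κ` is `> D`, so `∑ κ > D = ∑ β`, the left side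
  is `0` by `G12_low`, and so is the right side.
-/

theorem G25_exists (κ' : Fin n → ℕ) (hκ' : Antitone κ') :
    ∃ f : (∀ (M : Type) [AddCommGroup M] [Module ℂ M], GM (n + k) n M → ℕ), Adm f κ' κ' := by
  refine G24_main κ' κ' hκ' hκ' ?_
  intro p q h
  rw [wd_zero] at h
  norm_num at h

theorem G25_agree (f g : ∀ (M : Type) [AddCommGroup M] [Module ℂ M], GM (n + k) n M → ℕ)
    (κ' : Fin n → ℕ) (hf : Adm f κ' κ') (hg : Adm g κ' κ')
    (M : Type) [AddCommGroup M] [Module ℂ M] (S : GM (n + k) n M) (hfin : Module.Finite ℂ M)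
    (hS : S.toG0.Good) (hL : S.Lk (fun _ => 0)) : f M S = g M S := by
  refine G23_agree f g hf.1 hg.1 (fun _ => 0) ?_ M S hfin hS hL
  intro M' _ _ S' hfin' hS' hne hsim γ δ hγ hδ hwd hlow
  have h1 := hf.2.2 M' S' hfin' hS' hne hsim γ δ hγ hδ (by rw [hwd, wd_zero]) hlow
  have h2 := hg.2.2 M' S' hfin' hS' hne hsim γ δ hγ hδ (by rw [hwd, wd_zero]) hlow
  by_cases h : γ = κ' ∧ δ = κ'
  · rw [h1.1 h, h2.1 h]
  · rw [h1.2 h, h2.2 h]

end H95H
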