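import Pool.Agent.Lib.H95H.R03

namespace H95H

/-!
# Chunk R08: removing a box along an arc of length one

* `R_short`: let `A`, `A₁` be the sets of arcs for `V`, `V₁`. `A` is determined by `V`: for an arc `a` of
  `(X, V')`, `a ∈ A ↔ a.2 ∉ V ↔ a.1 ∈ V` (`R_right`, `R_left`, and `a.1 ∉ V'`, `a.2 ∈ V'`). `V₁` and `V`
  differ only at `q - 1`, `q`. Since `q - 1 ∈ V₁`, `q - 1 ∉ V`: either `q - 1 ∈ V'`, then `q - 1 = a.2` for an
  `a ∈ A` (because `q - 1 ∉ V`), `a ∉ A₁` (because `q - 1 ∈ V₁`), so `a.1 ∈ V` and `a.1 ∉ V₁`, so `a.1 = q`,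
  but `a.1 < a.2 = q - 1`, contradiction. Or `q - 1 ∉ V'`: then `q - 1 = a.1` for an `a ∈ A₁`, `a ∉ A`, so
  `a.2 ∈ V`, `a.2 ∉ V₁`, so `a.2 = q`, and `a = (q - 1, q)`.
* `R_short'`: the arc `a = (q-1, q)` is not in `A` as `q ∈ V`; so `q - 1 ∉ V`; and `insert a A` gives
  `insert (q-1) (V.erase q)`.
-/

theorem R_mem_iff (X V V' : Finset ℕ) (hd' : Disjoint X V') (A : Finset (ℕ × ℕ))
    (hA : ∀ a ∈ A, Arc X V' a.1 a.2) (hV : V = (V' \ A.image Prod.snd) ∪ A.image Prod.fst)
    (p q : ℕ) (h : Arc X V' p q) : ((p, q) ∈ A ↔ q ∉ V) ∧ ((p, q) ∈ A ↔ p ∈ V) := by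
  classical
  subst hV
  simp only [Finset.mem_union, Finset.mem_sdiff, Finset.mem_image]
  constructor
  · constructor
    · rintro h1 (h2 | ⟨a, ha, h2⟩)
      · exact h2.2 ⟨_, h1, rfl⟩
      · have := (hA a ha).2.2.1
        rw [h2] at this
        exact this h.2.2.2.1
    · intro h1
      by_contra h2
      apply h1
      left
      refine ⟨h.2.2.2.1, ?_⟩
      rintro ⟨a, ha, h3⟩
      have h4 := hA a ha
      rw [h3] at h4
      have h5 := R_right X V' _ _ _ h4 h
      apply h2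
      have : a = (p, q) := Prod.ext h5 h3
      rwa [this] at ha
  · constructor
    · intro h1
      right
      exact ⟨_, h1, rfl⟩
    · rintro (h2 | ⟨a, ha, h2⟩)
      · exact absurd h2.1 h.2.2.1
      · have h4 := hA a ha
        rw [h2] at h4
        have h5 := R_left X V' hd' _ _ _ h4 h
        have : a = (p, q) := Prod.ext h2 h5
        rwa [this] at ha

theorem R_short (X V V₁ V' : Finset ℕ) (hd' : Disjoint X V') (h : Rel X V V') (h1 : Rel X V₁ V')
    (q : ℕ) (hq : q ∈ V) (hq1 : 1 ≤ q) (hq2 : q - 1 ∉ V) (hV₁ : V₁ = insert (q - 1) (V.erase q)) :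
    Arc X V' (q - 1) q := by
  classical
  obtain ⟨A, hA, hV⟩ := h
  obtain ⟨A₁, hA₁, hVA₁⟩ := h1
  have m0 : q - 1 ∈ V₁ := by rw [hV₁]; exact Finset.mem_insert_self _ _
  have m1 : ∀ x, x ≠ q → x ≠ q - 1 → (x ∈ V₁ ↔ x ∈ V) := by
    intro x hx1 hx2
    rw [hV₁]
    simp [hx1, hx2]
  have m2 : q ∉ V₁ := by
    rw [hV₁]
    simp only [Finset.mem_insert, Finset.mem_erase, not_or]
    refine ⟨by omega, fun h => h.1 rfl⟩
  by_cases hc : q - 1 ∈ V'
  · exfalso
    have h3 : q - 1 ∈ A.image Prod.snd := by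
      by_contra hcon
      apply hq2
      rw [hV]
      exact Finset.mem_union_left _ (Finset.mem_sdiff.mpr ⟨hc, hcon⟩)
    obtain ⟨a, ha, h4⟩ := Finset.mem_image.mp h3
    have harc := hA a ha
    have k1 := R_mem_iff X V V' hd' A hA hV a.1 a.2 harc
    have k2 := R_mem_iff X V₁ V' hd' A₁ hA₁ hVA₁ a.1 a.2 harc
    have haV : a.1 ∈ V := k1.2.mp ha
    have hnot : (a.1, a.2) ∉ A₁ := fun h => (k2.1.mp h) (by rw [h4]; exact m0)
    have haV₁ : a.1 ∉ V₁ := fun h => hnot (k2.2.mpr h)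
    have hlt := harc.1
    have := m1 a.1 (by omega) (by omega)
    exact haV₁ (this.mpr haV)
  · have h3 : q - 1 ∈ A₁.image Prod.fst := by
      have := m0
      rw [hVA₁, Finset.mem_union, Finset.mem_sdiff] at this
      rcases this with h | h
      · exact absurd h.1 hc
      · exact h
    obtain ⟨a, ha, h4⟩ := Finset.mem_image.mp h3
    have harc := hA₁ a ha
    have k1 := R_mem_iff X V V' hd' A hA hV a.1 a.2 harc
    have k2 := R_mem_iff X V₁ V' hd' A₁ hA₁ hVA₁ a.1 a.2 harc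
    have hnot : (a.1, a.2) ∉ A := fun h => hq2 (by rw [← h4]; exact k1.2.mp h)
    have haV : a.2 ∈ V := by
      by_contra h
      exact hnot (k1.1.mpr h)
    have haV₁ : a.2 ∉ V₁ := k2.1.mp ha
    have hlt := harc.1
    have heq : a.2 = q := by
      by_contra hne
      exact haV₁ ((m1 a.2 hne (by omega)).mpr haV)
    rw [h4, heq] at harc
    exact harc

theorem R_short' (X V V' : Finset ℕ) (hd' : Disjoint X V') (q : ℕ) (hq1 : 1 ≤ q)
    (ha : Arc X V' (q - 1) q) (h : Rel X V V') (hq : q ∈ V) :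
    Rel X (insert (q - 1) (V.erase q)) V' ∧ q - 1 ∉ V := by
  classical
  obtain ⟨A, hA, hV⟩ := h
  have k := R_mem_iff X V V' hd' A hA hV (q - 1) q ha
  have hnot : (q - 1, q) ∉ A := fun h => (k.1.mp h) hq
  have hqV : q - 1 ∉ V := fun h => hnot (k.2.mpr h)
  refine ⟨⟨insert (q - 1, q) A, ?_, ?_⟩, hqV⟩
  · intro a haa
    rw [Finset.mem_insert] at haa
    rcases haa with rfl | haa
    · exact ha
    · exact hA a haa
  · ext x
    have hx := Finset.ext_iff.mp hV x
    simp only [Finset.mem_union, Finset.mem_sdiff, Finset.mem_image] at hx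
    simp only [Finset.mem_insert, Finset.mem_erase, Finset.mem_union, Finset.mem_sdiff,
      Finset.mem_image]
    rw [hx]
    constructor
    · rintro (rfl | ⟨hne, (h | ⟨a, haa, h⟩)⟩)
      · right; exact ⟨_, Or.inl rfl, rfl⟩
      · left
        refine ⟨h.1, ?_⟩
        rintro ⟨a, haa | haa, h'⟩
        · subst haa; exact hne h'.symm
        · exact h.2 ⟨a, haa, h'⟩
      · right; exact ⟨a, Or.inr haa, h⟩
    · rintro (h | ⟨a, haa | haa, h⟩)
      · right
        refine ⟨?_, Or.inl ⟨h.1, ?_⟩⟩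
        · rintro rfl
          exact h.2 ⟨_, Or.inl rfl, rfl⟩
        · rintro ⟨a, haa, h'⟩
          exact h.2 ⟨a, Or.inr haa, h'⟩
      · left; rw [← h, haa]
      · by_cases hxq : x = q - 1
        · left; exact hxq
        · right
          refine ⟨?_, Or.inr ⟨a, haa, h⟩⟩
          rintro rfl
          have := (hA a haa).2.2.1
          rw [h] at this
          exact this ha.2.2.2.1

end H95H
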