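import Pool.Agent.Lib.H95H.G04c
import Pool.Agent.Lib.H95H.G25a
import Pool.Agent.Lib.H95H.R08

namespace H95H

variable {n k : ℕ}

/-!
# Chunk G25: the principal block

* `G25_exists`: `G24_main` for `γ' = δ' = κ'`: `wd = 0`, so the separation is trivial.
* `G25_agree`: two admissible functions for `(κ', κ')` agree on all good finite-dimensional modules
  in the block (`G23_agree`).
* `G25_sub`: let `S` be a Kac module of weight `(κ₁, κ₁)`, `κ = κ₁ + e_r` antitone, `q = κ r + (n-1-r)` the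
  bead `r` of `κ` (so `q ≥ 1`, `q - 1 ∈ bs κ₁`, `q ∉ bs κ₁`), `N` a submodule of `S` with lowest part of
  weight `(κ, κ)`. `f N ≤ f S ≤ 1` (`G04_mono`) and `f N ≤ f S'` for the Kac module `S'` of weight
  `(κ, κ)` covering `N` (`G20_cover`; for a surjective homomorphism `f` decreases: `G04_sub` for the
  kernel and `G04_iso`). So if `f N ≠ 0` then `f N = 1` and `Rel ∅ (bs κ₁) (bs κ')`, `Rel ∅ (bs κ) (bs κ')`;
  as `bs κ₁ = insert (q-1) ((bs κ).erase q)`, `R_short` gives `Arc ∅ (bs κ') (q-1) q`.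
  Conversely, suppose `Arc ∅ (bs κ') (q-1) q` and `Rel ∅ (bs κ) (bs κ')`. Then `q ∈ bs κ'`, `q - 1 ∉ bs κ'`;
  let `δ₁` be obtained from `κ'` by moving the bead `q` to `q - 1` (`movB κ' δ₁ q`). The pair `(κ', δ₁)`
  has one circle at `q - 1` and one cross at `q`, so it is separated; let `f'` be admissible for it
  (`G24_main`). By `G24_cap`, `f'' = f' ∘ F q` is admissible for `(κ', κ')`, so it agrees with `f` on
  `S` and on `S.res N` (`G23_kac`, `G22_sub`, `G25_agree`). By `G21_sub` (with `γ = δ = κ₁`,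
  `γ₂ = δ₂ = κ`, `t = q`) and `G21_zero`, `(S.quo N).Ft q = ⊥`, so `f'' (S.quo N) = 0` and
  `f'' S = f'' N`. So `f N = f'' N = f'' S = f S = 1`, as `Rel ∅ (bs κ₁) (bs κ')` by `R_short'`.
* `G25_char`: both sides are additive functions of `S` (`G04_W`; sums and multiples of additive
  functions are additive). By `G23_agree` it is enough to look at simple modules `S` of weight
  `(γ, δ)` in the block `0`; then `γ = δ = κ` (`wd_eq_zero`). If `κ ∈ box n D` the right side is `ℓ κ`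
  and so is the left side. If not, then some entry of `κ` is `> D`, so `∑ κ > D = ∑ β`, the left side
  is `0` by `G12_low`, and so is the right side.
-/

theorem g25b_movA (κ₁ : Fin n → ℕ) (r : Fin n) (h₂ : Antitone (κ₁ + Pi.single r 1)) :
    movA κ₁ (κ₁ + Pi.single r 1) ((κ₁ r + (n - 1 - r.1) + 1 : ℕ) : ℤ) := by
  refine ⟨h₂, r, rfl, ?_⟩
  have hr := r.2
  have e : ((n - 1 - r.1 : ℕ) : ℤ) = (n : ℤ) - 1 - (r.1 : ℤ) := by omega
  push_cast
  rw [e]

theorem g25b_movB (κ₁ : Fin n → ℕ) (r : Fin n) (h₁ : Antitone κ₁) :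
    movB (κ₁ + Pi.single r 1) κ₁ ((κ₁ r + (n - 1 - r.1) + 1 : ℕ) : ℤ) := by
  refine ⟨h₁, r, rfl, ?_⟩
  have hr := r.2
  have e : ((n - 1 - r.1 : ℕ) : ℤ) = (n : ℤ) - 1 - (r.1 : ℤ) := by omega
  rw [Pi.add_apply, Pi.single_eq_same]
  push_cast
  rw [e]
  ring

theorem g25b_le (f : ∀ (M : Type) [AddCommGroup M] [Module ℂ M], GM (n + k) n M → ℕ)
    (hf : AddFn f) (M : Type) [AddCommGroup M] [Module ℂ M] (S : GM (n + k) n M) (hfin : Module.Finite ℂ M)
    (hS : S.toG0.Good) (κ : Fin n → ℕ) (hL : S.isLow κ κ) :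
    ∃ (M' : Type) (_ : AddCommGroup M') (_ : Module ℂ M') (S' : GM (n + k) n M'), Module.Finite ℂ M' ∧
      S'.toG0.Good ∧ S'.isKac κ κ ∧ f M S ≤ f M' S' := by
  obtain ⟨W, hW, φ, hgood, hirr, hφ, hsurj, -⟩ := G20_cover S hS hfin κ κ hL
  have hWfin : Module.Finite ℂ ↥W := inferInstance
  refine ⟨_, _, _, (S.toG0.res W hW).ind, (G20_finrank _ _ _).1, G20_good _ hgood, G20_kac _ hWfin κ κ hirr, ?_⟩
  exact g04c_surj f hf hφ (G20_finrank _ _ _).1 (G20_good _ hgood) hsurj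

theorem G25_sub (f : ∀ (M : Type) [AddCommGroup M] [Module ℂ M], GM (n + k) n M → ℕ)
    (κ' : Fin n → ℕ) (hκ' : Antitone κ') (hf : Adm f κ' κ')
    (M : Type) [AddCommGroup M] [Module ℂ M] (S : GM (n + k) n M) (hfin : Module.Finite ℂ M)
    (hS : S.toG0.Good) (κ₁ : Fin n → ℕ) (r : Fin n) (h₁ : Antitone κ₁)
    (h₂ : Antitone (κ₁ + Pi.single r 1)) (hK : S.isKac κ₁ κ₁) (N : Submodule ℂ M) (hN : S.Stab N)
    (hL : (S.res N hN).isLow (κ₁ + Pi.single r 1) (κ₁ + Pi.single r 1)) :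
    ((Rel ∅ (bs (κ₁ + Pi.single r 1)) (bs κ') ∧
      Arc ∅ (bs κ') (κ₁ r + (n - 1 - r.1)) (κ₁ r + (n - 1 - r.1) + 1)) →
      f ↥N (S.res N hN) = 1) ∧
    (¬(Rel ∅ (bs (κ₁ + Pi.single r 1)) (bs κ') ∧
      Arc ∅ (bs κ') (κ₁ r + (n - 1 - r.1)) (κ₁ r + (n - 1 - r.1) + 1)) →
      f ↥N (S.res N hN) = 0) := by
  set κ := κ₁ + Pi.single r 1 with hκ
  set q := κ₁ r + (n - 1 - r.1) + 1 with hq
  have hq1 : 1 ≤ q := by omega
  have hqm : κ₁ r + (n - 1 - r.1) = q - 1 := by omega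
  rw [hqm]
  have hA : movA κ₁ κ (q : ℤ) := g25b_movA κ₁ r h₂
  have hB : movB κ κ₁ (q : ℤ) := g25b_movB κ₁ r h₁
  obtain ⟨hq2, hq3, hbs⟩ := movB_bs κ κ₁ h₂ q hq1 hB
  have hd : Disjoint (∅ : Finset ℕ) (bs κ') := Finset.disjoint_empty_left _
  have hwd : ∀ μ ν : Fin n → ℕ, wd μ μ = wd ν ν := fun μ ν => by rw [wd_zero, wd_zero]
  -- the value on a Kac module
  have hkac : ∀ (M' : Type) [AddCommGroup M'] [Module ℂ M'] (S' : GM (n + k) n M') (μ : Fin n → ℕ), Module.Finite ℂ M' →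
      S'.toG0.Good → Antitone μ → S'.isKac μ μ → (Rel ∅ (bs μ) (bs κ') → f M' S' = 1) ∧ (¬Rel ∅ (bs μ) (bs κ') → f M' S' = 0) := by
    intro M' _ _ S' μ hfin' hS' hμ hK'
    have h := hf.2.1 M' S' hfin' hS' μ μ hμ hμ (hwd _ _) hK'
    rwa [XX_self, VV_self, VV_self] at h
  have hfS := hkac M S κ₁ hfin hS h₁ hK
  have hfinN : Module.Finite ℂ ↥N := inferInstance
  have hgN : (S.res N hN).toG0.Good := G05_res S hS N hN
  constructor
  · rintro ⟨hrel, harc⟩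
    have hqκ : q ∈ bs κ' := harc.2.2.2.1
    have hqκ' : q - 1 ∉ bs κ' := harc.2.2.1
    obtain ⟨δ₁, hδ₁⟩ := movB_ex κ' hκ' q hq1 hqκ hqκ'
    have hδa : Antitone δ₁ := hδ₁.1
    have hw := G22_wdB κ' κ' δ₁ hκ' q (by exact_mod_cast hq1) hδ₁
    obtain ⟨f', hf'⟩ := G24_main (k := k) κ' δ₁ hκ' hδa (by
      intro p p' h1 h2
      have hz : ∀ x, wd κ' κ' x = 0 := fun x => by rw [wd_zero]
      rw [hw, hz] at h1 h2
      have e1 : (p : ℤ) = q - 1 := by
        by_contra hne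
        rw [if_neg hne] at h1
        split_ifs at h1 <;> omega
      have e2 : (p' : ℤ) = q := by
        by_contra hne
        rw [if_neg hne] at h2
        split_ifs at h2 <;> omega
      omega)
    have hcap := G24_cap f' κ' κ' δ₁ hκ' hκ' q hq1 hqκ' hqκ' hqκ hqκ hδ₁ hf'
    have hLk : S.Lk (fun _ => 0) := by
      have := G23_kac M S hS hfin κ₁ κ₁ h₁ h₁ hK
      rwa [wd_zero] at this
    have hLkN : (S.res N hN).Lk (fun _ => 0) := fun N₀ => G22_sub S _ N₀ (hLk N₀) N hN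
    have e1 := G25_agree f _ κ' hf hcap M S hfin hS hLk
    have e2 := G25_agree f _ κ' hf hcap ↥N (S.res N hN) hfinN hgN hLkN
    have e3 := G04_sub _ hcap.1 M S hfin hS N hN
    have hbot : (S.quo N hN).Ft (q : ℤ) = ⊥ :=
      G21_zero S hfin (q : ℤ) N hN (G21_sub S hS hfin κ₁ κ₁ κ κ h₁ h₂ hK (q : ℤ) (by exact_mod_cast hq1) hA hB N hN hL)
    have e4 : f' ↥((S.quo N hN).Ft (q : ℤ)) ((S.quo N hN).F (q : ℤ)) = 0 := by
      apply G04_zero f' hf'.1
      rw [hbot]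
      exact inferInstance
    rw [← e1, ← e2] at e3
    have e5 : f M S = f ↥N (S.res N hN) + 0 := by
      rw [← e4]
      exact e3
    rw [add_zero] at e5
    rw [← e5]
    apply hfS.1
    rw [hbs]
    exact (R_short' ∅ (bs κ) (bs κ') hd q hq1 harc hrel hq2).1
  · intro hno
    by_contra h0
    obtain ⟨M', i1, i2, S', hfin', hS', hK', hle⟩ := g25b_le f hf.1 ↥N (S.res N hN) hfinN hgN κ hL
    have h3 : Rel ∅ (bs κ) (bs κ') := by
      by_contra hr
      have := (hkac M' S' κ hfin' hS' h₂ hK').2 hr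
      omega
    have h4 : Rel ∅ (bs κ₁) (bs κ') := by
      by_contra hr
      have h5 := hfS.2 hr
      have h6 := G04_sub f hf.1 M S hfin hS N hN
      omega
    exact hno ⟨h3, R_short ∅ (bs κ) (bs κ₁) (bs κ') hd h3 h4 q hq2 hq1 hq3 hbs⟩

end H95H
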