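import Pool.Agent.Lib.H95H.G04b
import Pool.Agent.Lib.H95H.G23a
import Pool.Agent.Lib.H95H.R13

namespace H95H

variable {n k : ℕ}

/-!
# Chunk G25: the principal block

* `G25_exists`: `G24_main` for `γ' = δ' = κ'`: `wd = 0`, so the separation is trivial.
* `G25_agree`: two admissible functions for `(κ', κ')` agree on all good finite-dimensional modules
  in the block (`G23_agree`).
* `G25_sub`: let `S` be a Kac module of weight `(κ₁, κ₁)`, `κ = κ₁ + e_r` antitone, `q = κ r + (n-1-r)` the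
  bead `r` of `κ` (so `q ≥ 1`, `q - 1 ∈ bs κ₁`, `q ∉ bs κ₁`), `N` a submodule of `S` with lowest part of
  weight `(κ, κ)`. `f N ≤ f S ≤ 1` (`G04_mono`) and `f N ≤ f S'` for the Kac module `S'` of weight
  `(κ, κ)` covering `N` (`G20_cover`; for a surjective homomorphism `f` decreases: `G04_sub` for the
  kernel and `G04_iso`). So if `f N ≠ 0` then `f N = 1` and `Rel ∅ (bs κ₁) (bs κ')`, `Rel ∅ (bs κ) (bs κ')`;
  as `bs κ₁ = insert (q-1) ((bs κ).erase q)`, `R_short` gives `Arc ∅ (bs κ') (q-1) q`.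
  Conversely, suppose `Arc ∅ (bs κ') (q-1) q` and `Rel ∅ (bs κ) (bs κ')`. Then `q ∈ bs κ'`, `q - 1 ∉ bs κ'`;
  let `δ₁` be obtained from `κ'` by moving the bead `q` to `q - 1` (`movB κ' δ₁ q`). The pair `(κ', δ₁)`
  has one circle at `q - 1` and one cross at `q`, so it is separated; let `f'` be admissible for it
  (`G24_main`). By `G24_cap`, `f'' = f' ∘ F q` is admissible for `(κ', κ')`, so it agrees with `f` on
  `S` and on `S.res N` (`G23_kac`, `G22_sub`, `G25_agree`). By `G21_sub` (with `γ = δ = κ₁`,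
  `γ₂ = δ₂ = κ`, `t = q`) and `G21_zero`, `(S.quo N).Ft q = ⊥`, so `f'' (S.quo N) = 0` and
  `f'' S = f'' N`. So `f N = f'' N = f'' S = f S = 1`, as `Rel ∅ (bs κ₁) (bs κ')` by `R_short'`.
* `G25_char`: both sides are additive functions of `S` (`G04_W`; sums and multiples of additive
  functions are additive). By `G23_agree` it is enough to look at simple modules `S` of weight
  `(γ, δ)` in the block `0`; then `γ = δ = κ` (`wd_eq_zero`). If `κ ∈ box n D` the right side is `ℓ κ`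
  and so is the left side. If not, then some entry of `κ` is `> D`, so `∑ κ > D = ∑ β`, the left side
  is `0` by `G12_low`, and so is the right side.
-/

theorem g25c_anti {D : ℕ} {κ' : Fin n → ℕ} (h : κ' ∈ box n D) : Antitone κ' := by
  unfold box at h
  rw [Finset.mem_filter] at h
  exact fun r s hrs => h.2 r s hrs

theorem g25c_box {D : ℕ} {κ : Fin n → ℕ} (hκ : Antitone κ) (h : κ ∉ box n D) : D < ∑ r, κ r := by
  by_contra hle
  push Not at hle
  apply h
  unfold box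
  rw [Finset.mem_filter]
  refine ⟨?_, fun r s hrs => hκ hrs⟩
  rw [Fintype.mem_piFinset]
  intro r
  rw [Finset.mem_range]
  have := Finset.single_le_sum (f := κ) (fun i _ => Nat.zero_le _) (Finset.mem_univ r)
  omega

theorem G25_char (α : Fin (n + k) → ℤ) (β : Fin n → ℤ) (D : ℕ) (hD : ∑ l, β l = D)
    (F : (Fin n → ℕ) → ∀ (M : Type) [AddCommGroup M] [Module ℂ M], GM (n + k) n M → ℕ)
    (hF : ∀ κ' : Fin n → ℕ, Antitone κ' → Adm (F κ') κ' κ') (ℓ : (Fin n → ℕ) → ℕ)
    (hℓ : ∀ (M : Type) [AddCommGroup M] [Module ℂ M] (S : GM (n + k) n M), Module.Finite ℂ M →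
      S.toG0.Good → Nontrivial M → S.Sim → ∀ κ' : Fin n → ℕ, Antitone κ' → S.isLow κ' κ' →
      Module.finrank ℂ ↥(S.toG0.Wsp α β) = ℓ κ')
    (M : Type) [AddCommGroup M] [Module ℂ M] (S : GM (n + k) n M) (hfin : Module.Finite ℂ M)
    (hS : S.toG0.Good) (hL : S.Lk (fun _ => 0)) :
    Module.finrank ℂ ↥(S.toG0.Wsp α β) = ∑ κ' ∈ box n D, F κ' M S * ℓ κ' := by
  refine G23_agree (fun M _ _ (S : GM (n + k) n M) => Module.finrank ℂ ↥(S.toG0.Wsp α β))
    (fun M _ _ (S : GM (n + k) n M) => ∑ κ' ∈ box n D, F κ' M S * ℓ κ') (G04_W α β) ?_ (fun _ => 0) ?_ M S hfin hS hL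
  · intro M₁ M₂ M₃ _ _ _ _ _ _ S₁ S₂ S₃ i π hfin2 hS2 hi hπ hinj hsurj hex
    show ∑ κ' ∈ box n D, F κ' M₂ S₂ * ℓ κ' = ∑ κ' ∈ box n D, F κ' M₁ S₁ * ℓ κ' + ∑ κ' ∈ box n D, F κ' M₃ S₃ * ℓ κ'
    rw [← Finset.sum_add_distrib]
    refine Finset.sum_congr rfl fun κ' hκ' => ?_
    rw [(hF κ' (g25c_anti hκ')).1 M₁ M₂ M₃ S₁ S₂ S₃ i π hfin2 hS2 hi hπ hinj hsurj hex, add_mul]
  · intro M' _ _ S' hfin' hS' hne hsim γ δ hγ hδ hwd hlow
    obtain rfl := wd_eq_zero γ δ hγ hδ hwd
    show Module.finrank ℂ ↥(S'.toG0.Wsp α β) = ∑ κ' ∈ box n D, F κ' M' S' * ℓ κ'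
    have hval : ∀ κ' ∈ box n D, F κ' M' S' * ℓ κ' = if κ' = γ then ℓ γ else 0 := by
      intro κ' hκ'
      have h1 := (hF κ' (g25c_anti hκ')).2.2 M' S' hfin' hS' hne hsim γ γ hγ hδ (by rw [wd_zero, wd_zero]) hlow
      by_cases h : κ' = γ
      · subst h
        rw [h1.1 ⟨rfl, rfl⟩, if_pos rfl, one_mul]
      · rw [h1.2 (fun h' => h h'.1.symm), if_neg h, zero_mul]
    rw [Finset.sum_congr rfl hval, Finset.sum_ite_eq']
    by_cases hb : γ ∈ box n D
    · rw [if_pos hb]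
      exact hℓ M' S' hfin' hS' hne hsim γ hγ hlow
    · rw [if_neg hb]
      have hbot : S'.toG0.Wsp α β = ⊥ := by
        rw [Submodule.eq_bot_iff]
        intro v hv
        by_contra hv0
        obtain ⟨W, hW⟩ := hlow
        have h2 := (G12_low S' hS' hfin' (pz k γ) (nz γ) W hW α β v hv hv0).1
        have h3 := g25c_box hγ hb
        rw [hD] at h2
        have h4 : ∑ l, nz γ l = ((∑ r, γ r : ℕ) : ℤ) := by
          unfold nz
          push_cast
          rfl
        rw [h4] at h2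
        omega
      rw [hbot, finrank_bot]

end H95H
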