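import Pool.Agent.Lib.H95H.G00

namespace H95H

open MvPolynomial

variable {m n k : ℕ}

/-- the polarisation operator `∑_l X_{il} ∂_{jl}` -/
noncomputable def polA (i j : Fin m) : Rg m n →ₗ[ℂ] Rg m n := ∑ l : Fin n, mulX (i, l) ∘ₗ dX (j, l)

/-- the polarisation operator `∑_i X_{il} ∂_{iq}` -/
noncomputable def polB (l q : Fin n) : Rg m n →ₗ[ℂ] Rg m n := ∑ i : Fin m, mulX (i, l) ∘ₗ dX (i, q)

/-!
# Chunk H01: the polynomial ring as a `gl_m × gl_n` module

* `H01_aa`, `H01_bb`, `H01_ab`: `polA`, `polB` are derivations, and so are the commutators; a derivation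
  of a polynomial ring is determined by its values on the variables
  (`MvPolynomial.derivation_ext` or induction); `polA i j X_{pl} = δ_{jp} X_{il}`,
  `polB l q X_{ip} = δ_{qp} X_{il}`. Or directly from `∂_a X_b = X_b ∂_a + δ_{ab}`.
* `H01_good`: the form `fis` (`A08_herm`); `A08_X`: multiplication by `X_a` is adjoint to `∂_a`, so
  `polA i j` is adjoint to `polA j i` (use `A08_X` twice, with the symmetry of the form). A monomial
  `α` is a vector of weight `(∑_l α(i,l))_i, (∑_i α(i,l))_l`.
* `H01_hw`: `lead r` is killed by `polA i j` (`i < j`) and by `polB l q` (`l < q`): e.g. because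
  `act A B (lead r) = lead r` for unipotent `A`, `B` of the right shape (`A04_lead_act`: `LU1` lower
  unipotent `A = 1 + s E_{ji}`, `act A 1 f = f(A X)` replaces `X_{jl}` by `X_{jl} + s X_{il}`; the
  coefficient of `s` is `polA i j f`); or by the derivation property and equal rows or columns.
  The weight is `A05_hw_wt`.
-/

theorem h01a_comm (a b : Fin m × Fin n) (v : Rg m n) :
    pderiv a (X b * v) = X b * pderiv a v + (if a = b then v else 0) := by
  rw [Derivation.leibniz, smul_eq_mul, smul_eq_mul, pderiv_X]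
  by_cases h : a = b
  · rw [if_pos h, h, Pi.single_eq_same]
    ring
  · rw [if_neg h, Pi.single_eq_of_ne (Ne.symm h)]
    ring

theorem h01a_pd (a b : Fin m × Fin n) (v : Rg m n) : pderiv a (pderiv b v) = pderiv b (pderiv a v) := by
  have h : ⁅(pderiv a : Derivation ℂ (Rg m n) (Rg m n)), (pderiv b : Derivation ℂ (Rg m n) (Rg m n))⁆ = 0 := by
    apply MvPolynomial.derivation_ext
    intro c
    rw [Derivation.commutator_apply, pderiv_X, pderiv_X]
    have h3 : ∀ a b : Fin m × Fin n, pderiv a ((Pi.single b 1 : Fin m × Fin n → Rg m n) c) = 0 := by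
      intro a b
      rw [Pi.single_apply]
      split_ifs
      · exact Derivation.map_one_eq_zero _
      · exact map_zero _
    rw [h3, h3, sub_self]
    rfl
  have h2 := congrArg (fun D : Derivation ℂ (Rg m n) (Rg m n) => D v) h
  simp only [Derivation.commutator_apply, Derivation.zero_apply] at h2
  exact sub_eq_zero.1 h2

theorem h01a_gen {ι ι' : Type} [Fintype ι] [Fintype ι'] (a b : ι → Fin m × Fin n) (c d : ι' → Fin m × Fin n)
    (v : Rg m n) :
    (∑ q, mulX (a q) ∘ₗ dX (b q)) ((∑ r, mulX (c r) ∘ₗ dX (d r)) v) -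
      (∑ r, mulX (c r) ∘ₗ dX (d r)) ((∑ q, mulX (a q) ∘ₗ dX (b q)) v) =
      ∑ q, ∑ r, ((if b q = c r then (X (a q) : Rg m n) * pderiv (d r) v else 0) -
        (if d r = a q then (X (c r) : Rg m n) * pderiv (b q) v else 0)) := by
  have e1 : ∀ w : Rg m n, (∑ q, mulX (a q) ∘ₗ dX (b q)) w = ∑ q, X (a q) * pderiv (b q) w := by
    intro w
    rw [LinearMap.sum_apply]
    rfl
  have e2 : ∀ w : Rg m n, (∑ r, mulX (c r) ∘ₗ dX (d r)) w = ∑ r, X (c r) * pderiv (d r) w := by
    intro w
    rw [LinearMap.sum_apply]
    rfl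
  rw [e1, e2, e2, e1]
  simp only [map_sum, Finset.mul_sum]
  rw [Finset.sum_comm (f := fun (r : ι') (q : ι) => X (c r) * pderiv (d r) (X (a q) * pderiv (b q) v)),
    ← Finset.sum_sub_distrib]
  refine Finset.sum_congr rfl fun q _ => ?_
  rw [← Finset.sum_sub_distrib]
  refine Finset.sum_congr rfl fun r _ => ?_
  rw [h01a_comm, h01a_comm, h01a_pd (d r) (b q)]
  by_cases h1 : b q = c r <;> by_cases h2 : d r = a q <;> simp only [h1, h2, if_true, if_false] <;> ring

theorem H01_aa (i j p l : Fin m) (v : Rg m n) : polA i j (polA p l v) - polA p l (polA i j v) =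
    (if j = p then polA i l v else 0) - (if l = i then polA p j v else 0) := by
  have h := h01a_gen (fun q : Fin n => ((i, q) : Fin m × Fin n)) (fun q => (j, q)) (fun r : Fin n => (p, r))
    (fun r => (l, r)) v
  have e : ∀ (i l : Fin m) (v : Rg m n), polA i l v = ∑ q : Fin n, X (i, q) * pderiv (l, q) v := by
    intro i l v
    unfold polA
    rw [LinearMap.sum_apply]
    rfl
  unfold polA at e ⊢
  rw [h, e, e]
  simp only [Prod.mk.injEq, Finset.sum_sub_distrib]
  congr 1
  · by_cases h1 : j = p
    · simp [h1]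
    · simp [h1]
  · by_cases h1 : l = i
    · rw [Finset.sum_comm]
      simp [h1]
    · simp [h1]

theorem H01_bb (i j p l : Fin n) (v : Rg m n) : polB i j (polB p l v) - polB p l (polB i j v) =
    (if j = p then polB i l v else 0) - (if l = i then polB p j v else 0) := by
  have h := h01a_gen (fun q : Fin m => ((q, i) : Fin m × Fin n)) (fun q => (q, j)) (fun r : Fin m => (r, p))
    (fun r => (r, l)) v
  have e : ∀ (i l : Fin n) (v : Rg m n), polB i l v = ∑ q : Fin m, X (q, i) * pderiv (q, l) v := by
    intro i l v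
    unfold polB
    rw [LinearMap.sum_apply]
    rfl
  unfold polB at e ⊢
  rw [h, e, e]
  simp only [Prod.mk.injEq, Finset.sum_sub_distrib]
  congr 1
  · by_cases h1 : j = p
    · simp [h1]
    · simp [h1]
  · by_cases h1 : l = i
    · rw [Finset.sum_comm]
      simp [h1]
    · simp [h1]

theorem H01_ab (i j : Fin m) (p l : Fin n) (v : Rg m n) :
    polA i j (polB p l v) = polB p l (polA i j v) := by
  have h := h01a_gen (fun q : Fin n => ((i, q) : Fin m × Fin n)) (fun q => (j, q)) (fun r : Fin m => (r, p))
    (fun r => (r, l)) v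
  unfold polA polB
  rw [← sub_eq_zero, h]
  simp only [Prod.mk.injEq, Finset.sum_sub_distrib]
  have h1 : ∑ q : Fin n, ∑ r : Fin m, (if j = r ∧ q = p then X (i, q) * pderiv (r, l) v else 0) =
      X (i, p) * pderiv (j, l) v := by
    rw [Finset.sum_eq_single p, Finset.sum_eq_single j]
    · simp
    · intro b _ hb
      rw [if_neg fun h => hb h.1.symm]
    · intro h
      exact absurd (Finset.mem_univ _) h
    · intro b _ hb
      exact Finset.sum_eq_zero fun r _ => if_neg fun h => hb h.2
    · intro h
      exact absurd (Finset.mem_univ _) h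
  have h2 : ∑ q : Fin n, ∑ r : Fin m, (if r = i ∧ l = q then X (r, p) * pderiv (j, q) v else 0) =
      X (i, p) * pderiv (j, l) v := by
    rw [Finset.sum_eq_single l, Finset.sum_eq_single i]
    · simp
    · intro b _ hb
      rw [if_neg fun h => hb h.1]
    · intro h
      exact absurd (Finset.mem_univ _) h
    · intro b _ hb
      exact Finset.sum_eq_zero fun r _ => if_neg fun h => hb h.2.symm
    · intro h
      exact absurd (Finset.mem_univ _) h
  rw [h1, h2, sub_self]

/-- the polynomial ring as a `gl_m × gl_n` module -/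
noncomputable def GR (m n : ℕ) : G0 m n (Rg m n) where
  a := polA
  b := polB
  aa := H01_aa
  bb := H01_bb
  ab := H01_ab

end H95H
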