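import Pool.Agent.Lib.H95H.A08b
import Pool.Agent.Lib.H95H.G05b
import Pool.Agent.Lib.H95H.H01a

namespace H95H

open MvPolynomial

variable {m n k : ℕ}

/-!
# Chunk H01: the polynomial ring as a `gl_m × gl_n` module

* `H01_aa`, `H01_bb`, `H01_ab`: `polA`, `polB` are derivations, and so are the commutators; a derivation
  of a polynomial ring is determined by its values on the variables
  (`MvPolynomial.derivation_ext` or induction); `polA i j X_{pl} = δ_{jp} X_{il}`,
  `polB l q X_{ip} = δ_{qp} X_{il}`. Or directly from `∂_a X_b = X_b ∂_a + δ_{ab}`.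
* `H01_good`: the form `fis` (`A08_herm`); `A08_X`: multiplication by `X_a` is adjoint to `∂_a`, so
  `polA i j` is adjoint to `polA j i` (use `A08_X` twice, with the symmetry of the form). A monomial
  `α` is a vector of weight `(∑_l α(i,l))_i, (∑_i α(i,l))_l`.
* `H01_hw`: `lead r` is killed by `polA i j` (`i < j`) and by `polB l q` (`l < q`): e.g. because
  `act A B (lead r) = lead r` for unipotent `A`, `B` of the right shape (`A04_lead_act`: `LU1` lower
  unipotent `A = 1 + s E_{ji}`, `act A 1 f = f(A X)` replaces `X_{jl}` by `X_{jl} + s X_{il}`; the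
  coefficient of `s` is `polA i j f`); or by the derivation property and equal rows or columns.
  The weight is `A05_hw_wt`.
-/

theorem h01b_polA (i j : Fin m) (f : Rg m n) :
    polA i j f = ∑ l : Fin n, X (i, l) * pderiv (j, l) f := by
  unfold polA
  rw [LinearMap.sum_apply]
  rfl

theorem h01b_polB (l q : Fin n) (f : Rg m n) :
    polB l q f = ∑ i : Fin m, X (i, l) * pderiv (i, q) f := by
  unfold polB
  rw [LinearMap.sum_apply]
  rfl

theorem h01b_fisR (a : Fin m × Fin n) (f g : Rg m n) :
    fis f (X a * g) = fis (pderiv a f) g := by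
  rw [A08_herm.symm (X a * g) f, A08_X, ← A08_herm.symm]

theorem h01b_sumR {ι : Type*} (s : Finset ι) (f : Rg m n) (g : ι → Rg m n) :
    fis f (∑ i ∈ s, g i) = ∑ i ∈ s, fis f (g i) := by
  rw [A08_herm.symm (∑ i ∈ s, g i) f, g05b_sumL A08_herm, map_sum]
  exact Finset.sum_congr rfl fun i _ => (A08_herm.symm (g i) f).symm

theorem h01b_adjA (i j : Fin m) (u v : Rg m n) : fis (polA i j u) v = fis u (polA j i v) := by
  rw [h01b_polA, h01b_polA, g05b_sumL A08_herm, h01b_sumR]
  exact Finset.sum_congr rfl fun l _ => by rw [A08_X, h01b_fisR]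

theorem h01b_adjB (l q : Fin n) (u v : Rg m n) : fis (polB l q u) v = fis u (polB q l v) := by
  rw [h01b_polB, h01b_polB, g05b_sumL A08_herm, h01b_sumR]
  exact Finset.sum_congr rfl fun i _ => by rw [A08_X, h01b_fisR]

theorem h01b_monA (i : Fin m) (α : (Fin m × Fin n) →₀ ℕ) (r : ℂ) :
    polA i i (monomial α r) = ((∑ l : Fin n, α (i, l) : ℕ) : ℂ) • monomial α r := by
  rw [h01b_polA, Nat.cast_sum, Finset.sum_smul]
  refine Finset.sum_congr rfl fun l _ => ?_
  rw [X_mul_pderiv_monomial, Nat.cast_smul_eq_nsmul]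

theorem h01b_monB (l : Fin n) (α : (Fin m × Fin n) →₀ ℕ) (r : ℂ) :
    polB l l (monomial α r) = ((∑ i : Fin m, α (i, l) : ℕ) : ℂ) • monomial α r := by
  rw [h01b_polB, Nat.cast_sum, Finset.sum_smul]
  refine Finset.sum_congr rfl fun i _ => ?_
  rw [X_mul_pderiv_monomial, Nat.cast_smul_eq_nsmul]

theorem H01_good : (GR m n).Good := by
  refine ⟨⟨fis, A08_herm, h01b_adjA, h01b_adjB⟩, ?_⟩
  rw [eq_top_iff]
  intro f _
  rw [← f.support_sum_monomial_coeff]
  refine Submodule.sum_mem _ fun α _ => ?_
  refine Submodule.mem_iSup_of_mem (fun i => ((∑ l : Fin n, α (i, l) : ℕ) : ℤ)) ?_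
  refine Submodule.mem_iSup_of_mem (fun l => ((∑ i : Fin m, α (i, l) : ℕ) : ℤ)) ?_
  refine ⟨fun i => ?_, fun l => ?_⟩
  · show polA i i (monomial α _) = _
    rw [h01b_monA]
    norm_cast
  · show polB l l (monomial α _) = _
    rw [h01b_monB]
    norm_cast

/-- the product rule -/
theorem H01_mulA (i j : Fin m) (f g : Rg m n) : polA i j (f * g) = polA i j f * g + f * polA i j g := by
  rw [h01b_polA, h01b_polA, h01b_polA, Finset.sum_mul, Finset.mul_sum, ← Finset.sum_add_distrib]
  refine Finset.sum_congr rfl fun l _ => ?_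
  rw [pderiv_mul]
  ring

theorem H01_mulB (l q : Fin n) (f g : Rg m n) : polB l q (f * g) = polB l q f * g + f * polB l q g := by
  rw [h01b_polB, h01b_polB, h01b_polB, Finset.sum_mul, Finset.mul_sum, ← Finset.sum_add_distrib]
  refine Finset.sum_congr rfl fun i _ => ?_
  rw [pderiv_mul]
  ring

end H95H
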