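import Pool.Agent.Lib.H95H.A02b
import Pool.Agent.Lib.H95H.H01b

namespace H95H

open MvPolynomial

variable {m n k : ℕ}

/-!
# Chunk H01: the polynomial ring as a `gl_m × gl_n` module

* `H01_aa`, `H01_bb`, `H01_ab`: `polA`, `polB` are derivations, and so are the commutators; a derivation
  of a polynomial ring is determined by its values on the variables
  (`MvPolynomial.derivation_ext` or induction); `polA i j X_{pl} = δ_{jp} X_{il}`,
  `polB l q X_{ip} = δ_{qp} X_{il}`. Or directly from `∂_a X_b = X_b ∂_a + δ_{ab}`.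
* `H01_good`: the form `fis` (`A08_herm`); `A08_X`: multiplication by `X_a` is adjoint to `∂_a`, so
  `polA i j` is adjoint to `polA j i` (use `A08_X` twice, with the symmetry of the form). A monomial
  `α` is a vector of weight `(∑_l α(i,l))_i, (∑_i α(i,l))_l`.
* `H01_hw`: `lead r` is killed by `polA i j` (`i < j`) and by `polB l q` (`l < q`): e.g. because
  `act A B (lead r) = lead r` for unipotent `A`, `B` of the right shape (`A04_lead_act`: `LU1` lower
  unipotent `A = 1 + s E_{ji}`, `act A 1 f = f(A X)` replaces `X_{jl}` by `X_{jl} + s X_{il}`; the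
  coefficient of `s` is `polA i j f`); or by the derivation property and equal rows or columns.
  The weight is `A05_hw_wt`.
-/

theorem h01c_coeff (a : Fin m × Fin n) (f : Rg m n) (d : (Fin m × Fin n) →₀ ℕ) :
    coeff d (X a * pderiv a f) = (d a : ℂ) * coeff d f := by
  induction f using MvPolynomial.induction_on' with
  | monomial s r =>
    rw [X_mul_pderiv_monomial, coeff_smul, coeff_monomial]
    split_ifs with h
    · subst h
      rw [nsmul_eq_mul]
    · rw [smul_zero, mul_zero]
  | add p q hp hq => rw [map_add, mul_add, coeff_add, hp, hq, coeff_add, mul_add]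

theorem h01c_coeffA (i : Fin m) (f : Rg m n) (d : (Fin m × Fin n) →₀ ℕ) :
    coeff d (polA i i f) = ((∑ l : Fin n, d (i, l) : ℕ) : ℂ) * coeff d f := by
  rw [h01b_polA, coeff_sum, Nat.cast_sum, Finset.sum_mul]
  exact Finset.sum_congr rfl fun l _ => h01c_coeff _ _ _

theorem h01c_coeffB (l : Fin n) (f : Rg m n) (d : (Fin m × Fin n) →₀ ℕ) :
    coeff d (polB l l f) = ((∑ i : Fin m, d (i, l) : ℕ) : ℂ) * coeff d f := by
  rw [h01b_polB, coeff_sum, Nat.cast_sum, Finset.sum_mul]
  exact Finset.sum_congr rfl fun i _ => h01c_coeff _ _ _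

theorem h01c_wt1 (d : (Fin m × Fin n) →₀ ℕ) (i : Fin m) :
    (Finsupp.weight wt d : Wt m n).1 i = ∑ l : Fin n, d (i, l) := by
  rw [a02b_wt1, Fintype.sum_prod_type, Finset.sum_eq_single i]
  · exact Finset.sum_congr rfl fun l _ => if_pos rfl
  · intro i' _ hi'
    exact Finset.sum_eq_zero fun l _ => if_neg hi'
  · intro h
    exact absurd (Finset.mem_univ _) h

theorem h01c_wt2 (d : (Fin m × Fin n) →₀ ℕ) (l : Fin n) :
    (Finsupp.weight wt d : Wt m n).2 l = ∑ i : Fin m, d (i, l) := by
  rw [a02b_wt2, Fintype.sum_prod_type]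
  refine Finset.sum_congr rfl fun i _ => ?_
  rw [Finset.sum_eq_single l]
  · exact if_pos rfl
  · intro l' _ hl'
    exact if_neg hl'
  · intro h
    exact absurd (Finset.mem_univ _) h

/-- weight spaces and weighted homogeneous polynomials -/
theorem H01_wt (ω : Wt m n) (f : Rg m n) : IsWeightedHomogeneous wt f ω ↔
    f ∈ (GR m n).Wsp (fun i => (ω.1 i : ℤ)) (fun l => (ω.2 l : ℤ)) := by
  constructor
  · intro h
    refine ⟨fun i => ?_, fun l => ?_⟩
    · show polA i i f = _
      ext d
      rw [h01c_coeffA, coeff_smul, smul_eq_mul]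
      by_cases h0 : coeff d f = 0
      · rw [h0, mul_zero, mul_zero]
      · rw [← h01c_wt1, h h0, Int.cast_natCast]
    · show polB l l f = _
      ext d
      rw [h01c_coeffB, coeff_smul, smul_eq_mul]
      by_cases h0 : coeff d f = 0
      · rw [h0, mul_zero, mul_zero]
      · rw [← h01c_wt2, h h0, Int.cast_natCast]
  · rintro ⟨h1, h2⟩ d hd
    refine Prod.ext (funext fun i => ?_) (funext fun l => ?_)
    · have h3 : polA i i f = ((ω.1 i : ℤ) : ℂ) • f := h1 i
      have h4 := congrArg (coeff d) h3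
      rw [h01c_coeffA, coeff_smul, smul_eq_mul, ← h01c_wt1, Int.cast_natCast] at h4
      exact_mod_cast mul_right_cancel₀ hd h4
    · have h3 : polB l l f = ((ω.2 l : ℤ) : ℂ) • f := h2 l
      have h4 := congrArg (coeff d) h3
      rw [h01c_coeffB, coeff_smul, smul_eq_mul, ← h01c_wt2, Int.cast_natCast] at h4
      exact_mod_cast mul_right_cancel₀ hd h4

/-- powers of a derivation on a product with a variable -/
theorem h01c_pow (D : Rg m n →ₗ[ℂ] Rg m n) (hD : ∀ f g, D (f * g) = D f * g + f * D g)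
    (f x y : Rg m n) (hx : D x = y) (hy : D y = 0) (k : ℕ) :
    (D ^ (k + 1)) (f * x) = (D ^ (k + 1)) f * x + ((k + 1 : ℕ) : ℂ) • ((D ^ k) f * y) := by
  induction k with
  | zero =>
    rw [zero_add, pow_one, pow_zero, hD, hx]
    simp
  | succ k ih =>
    rw [pow_succ' D (k + 1), Module.End.mul_apply, ih, map_add, map_smul, hD, hD, hx, hy,
      mul_zero, add_zero, Module.End.mul_apply, ← Module.End.mul_apply D (D ^ k), ← pow_succ']
    rw [Nat.cast_succ (k + 1), add_smul, one_smul]
    ring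

/-- the exponential of a locally nilpotent derivation -/
theorem h01c_exp (D : Rg m n →ₗ[ℂ] Rg m n) (hD : ∀ f g, D (f * g) = D f * g + f * D g)
    (E : ℂ → Rg m n →ₐ[ℂ] Rg m n) (Y : Fin m × Fin n → Rg m n) (h1 : ∀ p, D (X p) = Y p)
    (h2 : ∀ p, D (Y p) = 0) (h3 : ∀ s p, E s (X p) = X p + s • Y p) (f : Rg m n) :
    ∃ N, ∀ N' ≥ N, ∀ s, E s f =
      ∑ k ∈ Finset.range N', s ^ k • (((k.factorial : ℂ))⁻¹ • (D ^ k) f) := by
  induction f using MvPolynomial.induction_on with
  | C c =>
    have h4 : D (C c) = 0 := by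
      have h5 : D 1 = 0 := by
        have h6 := hD 1 1
        rw [mul_one, mul_one, one_mul] at h6
        have h7 : D 1 + D 1 = D 1 + 0 := by rw [← h6, add_zero]
        exact add_left_cancel h7
      have h8 : (C c : Rg m n) = c • 1 := by rw [smul_eq_C_mul, mul_one]
      rw [h8, map_smul, h5, smul_zero]
    refine ⟨1, fun N' hN' s => ?_⟩
    rw [Finset.sum_eq_single 0]
    · rw [pow_zero, one_smul, Nat.factorial_zero, Nat.cast_one, inv_one, one_smul, pow_zero]
      show E s (C c) = C c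
      rw [algHom_C, algebraMap_eq]
    · intro k _ hk
      obtain ⟨k, rfl⟩ := Nat.exists_eq_succ_of_ne_zero hk
      rw [Nat.succ_eq_add_one, pow_succ D k, Module.End.mul_apply, h4, map_zero, smul_zero,
        smul_zero]
    · intro h
      exact absurd (Finset.mem_range.2 (by omega)) h
  | add f g hf hg =>
    obtain ⟨N1, hN1⟩ := hf
    obtain ⟨N2, hN2⟩ := hg
    refine ⟨max N1 N2, fun N' hN' s => ?_⟩
    rw [map_add, hN1 N' (le_trans (le_max_left _ _) hN') s,
      hN2 N' (le_trans (le_max_right _ _) hN') s, ← Finset.sum_add_distrib]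
    exact Finset.sum_congr rfl fun k _ => by rw [map_add, smul_add, smul_add]
  | mul_X f p hf =>
    obtain ⟨N, hN⟩ := hf
    refine ⟨N + 1, fun N' hN' s => ?_⟩
    obtain ⟨N', rfl⟩ : ∃ M, N' = M + 1 := ⟨N' - 1, by omega⟩
    rw [map_mul, h3, mul_add, Finset.sum_range_succ']
    have e1 : ∀ k ∈ Finset.range N', s ^ (k + 1) • (((k + 1).factorial : ℂ)⁻¹ •
        (D ^ (k + 1)) (f * X p)) =
        (s ^ (k + 1) • (((k + 1).factorial : ℂ)⁻¹ • (D ^ (k + 1)) f)) * X p +
          (s ^ k • ((k.factorial : ℂ)⁻¹ • (D ^ k) f)) * (s • Y p) := by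
      intro k _
      rw [h01c_pow D hD f (X p) (Y p) (h1 p) (h2 p) k, smul_add, smul_add, smul_mul_assoc,
        smul_mul_assoc]
      congr 1
      rw [smul_mul_assoc, smul_mul_assoc, mul_smul_comm, smul_smul, smul_smul, smul_smul,
        smul_smul]
      congr 1
      have hk : ((k : ℂ) + 1) ≠ 0 := by exact_mod_cast Nat.succ_ne_zero k
      have hk' : (k.factorial : ℂ) ≠ 0 := by exact_mod_cast Nat.factorial_ne_zero k
      rw [Nat.factorial_succ]
      push_cast
      field_simp
      ring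
    rw [Finset.sum_congr rfl e1, Finset.sum_add_distrib, ← Finset.sum_mul, ← Finset.sum_mul,
      ← hN N' (by omega) s]
    have e2 := hN (N' + 1) (by omega) s
    rw [Finset.sum_range_succ'] at e2
    have e3 : (s ^ 0 • (((Nat.factorial 0 : ℕ) : ℂ)⁻¹ • (D ^ 0) (f * X p))) =
        (s ^ 0 • (((Nat.factorial 0 : ℕ) : ℂ)⁻¹ • (D ^ 0) f)) * X p := by
      simp
    rw [e3]
    conv_lhs => rw [e2]
    rw [← e2]
    conv_rhs => rw [add_right_comm, ← add_mul, ← e2]

theorem h01c_actA (i j : Fin m) (s : ℂ) (p : Fin m × Fin n) :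
    act (Matrix.transvection i j s) (1 : Matrix (Fin n) (Fin n) ℂ) (X p : Rg m n) =
      X p + s • (if p.1 = i then X (j, p.2) else 0) := by
  rw [A01_act_X]
  have e1 : ∀ k : Fin m, ∑ l : Fin n, C (Matrix.transvection i j s p.1 k *
      (1 : Matrix (Fin n) (Fin n) ℂ) l p.2) * (X (k, l) : Rg m n) =
      C (Matrix.transvection i j s p.1 k) * X (k, p.2) := by
    intro k
    rw [Finset.sum_eq_single p.2]
    · rw [Matrix.one_apply_eq, mul_one]
    · intro l _ hl
      rw [Matrix.one_apply_ne hl, mul_zero, C_0, zero_mul]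
    · intro h
      exact absurd (Finset.mem_univ _) h
  rw [Finset.sum_congr rfl fun k _ => e1 k]
  unfold Matrix.transvection
  have e2 : ∀ k : Fin m, C ((1 + Matrix.single i j s : Matrix (Fin m) (Fin m) ℂ) p.1 k) *
      (X (k, p.2) : Rg m n) = (if p.1 = k then X (k, p.2) else 0) +
      (if j = k then s • (if p.1 = i then X (k, p.2) else 0) else 0) := by
    intro k
    rw [Matrix.add_apply, C_add, add_mul, Matrix.one_apply, Matrix.single_apply]
    congr 1
    · split_ifs
      · rw [C_1, one_mul]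
      · rw [C_0, zero_mul]
    · by_cases h1 : i = p.1
      · by_cases h2 : j = k
        · rw [if_pos ⟨h1, h2⟩, if_pos h2, if_pos h1.symm, smul_eq_C_mul]
        · rw [if_neg (fun h => h2 h.2), if_neg h2, C_0, zero_mul]
      · rw [if_neg (fun h => h1 h.1), if_neg (Ne.symm h1), smul_zero, ite_self, C_0, zero_mul]
  rw [Finset.sum_congr rfl fun k _ => e2 k, Finset.sum_add_distrib, Finset.sum_ite_eq,
    Finset.sum_ite_eq, if_pos (Finset.mem_univ _), if_pos (Finset.mem_univ _)]

theorem h01c_actB (i j : Fin n) (s : ℂ) (p : Fin m × Fin n) :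
    act (1 : Matrix (Fin m) (Fin m) ℂ) (Matrix.transvection i j s) (X p : Rg m n) =
      X p + s • (if p.2 = j then X (p.1, i) else 0) := by
  rw [A01_act_X]
  have e1 : ∑ k : Fin m, ∑ l : Fin n, C ((1 : Matrix (Fin m) (Fin m) ℂ) p.1 k *
      Matrix.transvection i j s l p.2) * (X (k, l) : Rg m n) =
      ∑ l : Fin n, C (Matrix.transvection i j s l p.2) * X (p.1, l) := by
    rw [Finset.sum_eq_single p.1]
    · refine Finset.sum_congr rfl fun l _ => ?_
      rw [Matrix.one_apply_eq, one_mul]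
    · intro k _ hk
      refine Finset.sum_eq_zero fun l _ => ?_
      rw [Matrix.one_apply_ne (Ne.symm hk), zero_mul, C_0, zero_mul]
    · intro h
      exact absurd (Finset.mem_univ _) h
  rw [e1]
  unfold Matrix.transvection
  have e2 : ∀ l : Fin n, C ((1 + Matrix.single i j s : Matrix (Fin n) (Fin n) ℂ) l p.2) *
      (X (p.1, l) : Rg m n) = (if l = p.2 then X (p.1, l) else 0) +
      (if i = l then s • (if p.2 = j then X (p.1, l) else 0) else 0) := by
    intro l
    rw [Matrix.add_apply, C_add, add_mul, Matrix.one_apply, Matrix.single_apply]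
    congr 1
    · split_ifs
      · rw [C_1, one_mul]
      · rw [C_0, zero_mul]
    · by_cases h1 : j = p.2
      · by_cases h2 : i = l
        · rw [if_pos ⟨h2, h1⟩, if_pos h2, if_pos h1.symm, smul_eq_C_mul]
        · rw [if_neg (fun h => h2 h.1), if_neg h2, C_0, zero_mul]
      · rw [if_neg (fun h => h1 h.2), if_neg (Ne.symm h1), smul_zero, ite_self, C_0, zero_mul]
  rw [Finset.sum_congr rfl fun l _ => e2 l, Finset.sum_add_distrib, Finset.sum_ite_eq',
    Finset.sum_ite_eq, if_pos (Finset.mem_univ _), if_pos (Finset.mem_univ _)]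

theorem h01c_polAX (i j : Fin m) (p : Fin m × Fin n) :
    polA j i (X p : Rg m n) = if p.1 = i then X (j, p.2) else 0 := by
  rw [h01b_polA]
  by_cases h : p.1 = i
  · rw [if_pos h, Finset.sum_eq_single p.2]
    · rw [← h, Prod.mk.eta, pderiv_X_self, mul_one]
    · intro l _ hl
      rw [pderiv_X_of_ne, mul_zero]
      intro hp
      rw [hp] at hl
      exact hl rfl
    · intro h'
      exact absurd (Finset.mem_univ _) h'
  · rw [if_neg h]
    refine Finset.sum_eq_zero fun l _ => ?_
    rw [pderiv_X_of_ne, mul_zero]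
    intro hp
    rw [hp] at h
    exact h rfl

theorem h01c_polBX (i j : Fin n) (p : Fin m × Fin n) :
    polB i j (X p : Rg m n) = if p.2 = j then X (p.1, i) else 0 := by
  rw [h01b_polB]
  by_cases h : p.2 = j
  · rw [if_pos h, Finset.sum_eq_single p.1]
    · rw [← h, Prod.mk.eta, pderiv_X_self, mul_one]
    · intro l _ hl
      rw [pderiv_X_of_ne, mul_zero]
      intro hp
      rw [hp] at hl
      exact hl rfl
    · intro h'
      exact absurd (Finset.mem_univ _) h'
  · rw [if_neg h]
    refine Finset.sum_eq_zero fun l _ => ?_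
    rw [pderiv_X_of_ne, mul_zero]
    intro hp
    rw [hp] at h
    exact h rfl

/-- a transvection is the exponential of a polarisation operator -/
theorem h01c_expA (i j : Fin m) (hij : i ≠ j) (f : Rg m n) : ∃ N, ∀ N' ≥ N, ∀ s : ℂ,
    act (Matrix.transvection i j s) (1 : Matrix (Fin n) (Fin n) ℂ) f =
      ∑ k ∈ Finset.range N', s ^ k • (((k.factorial : ℂ))⁻¹ • ((polA j i) ^ k) f) := by
  refine h01c_exp (polA j i) (H01_mulA j i)
    (fun s => act (Matrix.transvection i j s) (1 : Matrix (Fin n) (Fin n) ℂ))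
    (fun p => if p.1 = i then X (j, p.2) else 0) (h01c_polAX i j) (fun p => ?_)
    (fun s p => h01c_actA i j s p) f
  show polA j i (if p.1 = i then X (j, p.2) else 0) = 0
  split_ifs with h
  · rw [h01c_polAX, if_neg (Ne.symm hij)]
  · rw [map_zero]

theorem h01c_expB (i j : Fin n) (hij : i ≠ j) (f : Rg m n) : ∃ N, ∀ N' ≥ N, ∀ s : ℂ,
    act (1 : Matrix (Fin m) (Fin m) ℂ) (Matrix.transvection i j s) f =
      ∑ k ∈ Finset.range N', s ^ k • (((k.factorial : ℂ))⁻¹ • ((polB i j) ^ k) f) := by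
  refine h01c_exp (polB i j) (H01_mulB i j)
    (fun s => act (1 : Matrix (Fin m) (Fin m) ℂ) (Matrix.transvection i j s))
    (fun p => if p.2 = j then X (p.1, i) else 0) (h01c_polBX i j) (fun p => ?_)
    (fun s p => h01c_actB i j s p) f
  show polB i j (if p.2 = j then X (p.1, i) else 0) = 0
  split_ifs with h
  · rw [h01c_polBX, if_neg hij]
  · rw [map_zero]

/-- a polynomial fixed by all `E s` is killed by `D` -/
theorem h01c_kill (D : Rg m n →ₗ[ℂ] Rg m n) (E : ℂ → Rg m n →ₐ[ℂ] Rg m n) (f : Rg m n)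
    (h : ∃ N, ∀ N' ≥ N, ∀ s, E s f =
      ∑ k ∈ Finset.range N', s ^ k • (((k.factorial : ℂ))⁻¹ • (D ^ k) f))
    (W : Submodule ℂ (Rg m n)) (hW : ∀ s, E s f ∈ W) (k : ℕ) : (D ^ k) f ∈ W := by
  obtain ⟨N, hN⟩ := h
  have h1 := A02_interp W (max N (k + 1)) (fun k => ((k.factorial : ℂ))⁻¹ • (D ^ k) f)
    (fun t _ => by rw [← hN _ (le_max_left _ _) t]; exact hW t) k
    (lt_of_lt_of_le (Nat.lt_succ_self k) (le_max_right _ _))
  have hk' : (k.factorial : ℂ) ≠ 0 := by exact_mod_cast Nat.factorial_ne_zero k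
  have h2 := W.smul_mem (k.factorial : ℂ) h1
  rwa [smul_smul, mul_inv_cancel₀ hk', one_smul] at h2

theorem h01c_one (D : Rg m n →ₗ[ℂ] Rg m n) (E : ℂ → Rg m n →ₐ[ℂ] Rg m n) (f : Rg m n)
    (h : ∃ N, ∀ N' ≥ N, ∀ s, E s f =
      ∑ k ∈ Finset.range N', s ^ k • (((k.factorial : ℂ))⁻¹ • (D ^ k) f))
    (hf : ∀ s, E s f = f) : D f = 0 := by
  obtain ⟨N, hN⟩ := h
  have h1 := A02_interp (⊥ : Submodule ℂ (Rg m n)) (max N 2)
    (fun k => if k = 0 then 0 else ((k.factorial : ℂ))⁻¹ • (D ^ k) f) (fun t _ => by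
      rw [Submodule.mem_bot]
      have h2 := hN (max N 2) (le_max_left _ _) t
      have h3 : max N 2 = (max N 2 - 1) + 1 := by
        have := le_max_right N 2
        omega
      rw [hf, h3, Finset.sum_range_succ'] at h2
      rw [h3, Finset.sum_range_succ']
      simp only [Nat.add_eq_zero_iff, one_ne_zero, and_false, if_false, if_true, smul_zero,
        add_zero]
      have h4 : t ^ 0 • (((Nat.factorial 0 : ℕ) : ℂ)⁻¹ • (D ^ 0) f) = f := by simp
      rw [h4] at h2
      have h5 : 0 + f = ∑ k ∈ Finset.range (max N 2 - 1),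
          t ^ (k + 1) • (((k + 1).factorial : ℂ)⁻¹ • (D ^ (k + 1)) f) + f := by
        rw [zero_add]
        exact h2
      exact (add_right_cancel h5).symm) 1
    (lt_of_lt_of_le (by norm_num) (le_max_right _ _))
  rw [if_neg one_ne_zero, Submodule.mem_bot, Nat.factorial_one, Nat.cast_one, inv_one, one_smul,
    pow_one] at h1
  exact h1

theorem H01_hw (κ : Fin n → ℕ) (hκ : Antitone κ) :
    (GR (n + k) n).HW (pz k κ) (nz κ) (hw (k := k) κ) := by
  refine ⟨(H01_wt (ext k κ, κ) (hw κ)).1 (A05_hw_wt κ hκ), fun i j hij => ?_, fun l q hlq => ?_⟩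
  · show polA i j (hw κ) = 0
    refine h01c_one (polA i j) _ _ (h01c_expA j i (ne_of_gt hij) (hw κ)) fun s => ?_
    refine A05_hw_act _ _ ⟨fun p => ?_, fun p p' hp => ?_⟩ ⟨fun p => Matrix.one_apply_eq p,
      fun p p' hp => Matrix.one_apply_ne (ne_of_gt hp)⟩ κ
    · rw [Matrix.transvection, Matrix.add_apply, Matrix.one_apply_eq, Matrix.single_apply, if_neg,
        add_zero]
      rintro ⟨h1, h2⟩
      exact absurd (h1.trans h2.symm) (ne_of_gt hij)
    · rw [Matrix.transvection, Matrix.add_apply, Matrix.one_apply_ne (ne_of_lt hp),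
        Matrix.single_apply, if_neg, add_zero]
      rintro ⟨h1, h2⟩
      rw [← h1, ← h2] at hp
      exact absurd hp (not_lt.2 (le_of_lt hij))
  · show polB l q (hw κ) = 0
    refine h01c_one (polB l q) _ _ (h01c_expB l q (ne_of_lt hlq) (hw κ)) fun s => ?_
    refine A05_hw_act _ _ ⟨fun p => Matrix.one_apply_eq p,
      fun p p' hp => Matrix.one_apply_ne (ne_of_lt hp)⟩ ⟨fun p => ?_, fun p p' hp => ?_⟩ κ
    · rw [Matrix.transvection, Matrix.add_apply, Matrix.one_apply_eq, Matrix.single_apply, if_neg,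
        add_zero]
      rintro ⟨h1, h2⟩
      exact absurd (h1.trans h2.symm) (ne_of_lt hlq)
    · rw [Matrix.transvection, Matrix.add_apply, Matrix.one_apply_ne (ne_of_gt hp),
        Matrix.single_apply, if_neg, add_zero]
      rintro ⟨h1, h2⟩
      rw [← h1, ← h2] at hp
      exact absurd hp (not_lt.2 (le_of_lt hlq))

end H95H
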