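import Pool.Agent.Lib.H95H.H02b

namespace H95H

open MvPolynomial

variable {m n k : ℕ}

/-!
# Chunk H02: invariant subspaces and submodules; `V κ` is irreducible

* `H02_stab`: let `W` be `Inv` and `f ∈ W`. For `i ≠ j` and `s ∈ ℂ`, `A = 1 + s E_{ji}` is invertible and
  `act A 1 f` is obtained from `f` by `X_{jl} ↦ X_{jl} + s X_{il}`; it is a polynomial in `s` with
  coefficients in `Rg`, whose coefficient of `s` is `polA i j f`. By `A02_interp` all coefficients are
  in `W`. For `i = j`: the weight components of `f` are in `W` (`A02_comp_mem`), `f` is their finite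
  sum, and `polA i i` acts on them by scalars (`H01_wt`). The same for `polB` with
  `B = 1 + s E_{ij}`.
* `H02_inv`: let `W` be stable under all `polA`, `polB`. Then `W` is `Inv`: (i) for `i ≠ j`,
  `act (1 + s E_{ji}) 1 f = ∑_k s^k/k! (polA i j)^k f` (a finite sum; both sides are algebra
  homomorphisms in `f` by the Leibniz rule, and agree on the variables; `(polA i j)^k f = 0` for
  `k` larger than the degree), so it is in `W`; the same for `act 1 (1 + s E_{ij})` with `polB`.
  (ii) diagonal matrices: `W` contains the weight components of its elements (`G05_comp` and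
  `H01_good`), and `act` of diagonal matrices multiplies them by scalars. (iii) every invertible
  matrix is a product of transvections and a diagonal matrix
  (`Matrix.Pivot.exists_list_transvec_mul_diagonal_mul_list_transvec`); `act` is multiplicative
  (`A01_act_act`; `act A B = act A 1 ∘ act 1 B` up to order).
* `H02_irr`: stable by `H02_stab` (`A05_V_inv`); `hw κ` is a highest weight vector (`H01_hw`,
  `A05_hw_mem`, `A05_hw_ne`). Let `W' ≤ V κ` be stable, `W' ≠ ⊥`. By `H02_inv` it is `Inv`, so by
  `A07_exists` it contains some `hw lam`, `lam` antitone. `hw lam ∈ V κ ⊓ V lam`, so `lam = κ` (otherwise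
  `fis (hw lam) (hw lam) = 0` by `A12_orth`, but the form is positive definite). Then `V κ ≤ W'`.
* `H02_pr`: `prV κ` commutes with `polA`, `polB`: `V κ` and its orthogonal complement are stable
  (`polA i j` is adjoint to `polA j i`); use `A13_unique`.
* `H02_ru`: let `f` be killed by all `polB l q`, `l < q`, with `polB l l f = μ l • f`, `μ` antitone. Then
  `f ∈ V μ`. By `A13_sum` (with `N` large) it is enough to show that `g = prV λ f = 0` for antitone
  `λ ≠ μ`. `g ∈ V λ` has the same properties (`H02_pr`). Suppose `g ≠ 0`. The space `N` of all `g' ∈ V λ` with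
  `polB l q g' = 0` (`l < q`), `polB l l g' = μ l • g'` is finite-dimensional (`A10_V_fin`), nonzero and
  stable under all `polA i j`; it is the sum of its weight components (`G05_comp` for the operators
  `polA i i`, `polB l l`), so there is a weight vector `g' ≠ 0` in it of weight `(α, nz μ)` with
  `∑ (m - i) α i` maximal; `polA i j g'`, `i < j`, is in `N` of larger weight, so it is `0`. So `g'` is a
  highest weight vector in `V λ`, and `μ = λ` by `G07_uniq` (applied to the module `(GR).res (V λ)`,
  which is finite-dimensional: `G20_res`).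
-/

/-- a diagonal substitution acts by scalars on weight vectors -/
theorem h02c_diag (α : Fin m → ℤ) (β : Fin n → ℤ) (f : Rg m n) (hf : f ∈ (GR m n).Wsp α β)
    (a : Fin m → ℂ) (b : Fin n → ℂ) :
    ∃ c : ℂ, act (Matrix.diagonal a) (Matrix.diagonal b) f = c • f := by
  refine ⟨(∏ i, a i ^ (α i).toNat) * ∏ l, b l ^ (β l).toNat, ?_⟩
  have h1 : ∀ d, coeff d f ≠ 0 → (∀ i, ∑ l, d (i, l) = (α i).toNat) ∧
      ∀ l, ∑ i, d (i, l) = (β l).toNat := by
    intro d hd
    refine ⟨fun i => ?_, fun l => ?_⟩
    · have h3 : polA i i f = (α i : ℂ) • f := hf.1 i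
      have h4 := congrArg (coeff d) h3
      rw [h01c_coeffA, coeff_smul, smul_eq_mul] at h4
      have h5 : ((∑ l, d (i, l) : ℕ) : ℤ) = α i := by exact_mod_cast mul_right_cancel₀ hd h4
      omega
    · have h3 : polB l l f = (β l : ℂ) • f := hf.2 l
      have h4 := congrArg (coeff d) h3
      rw [h01c_coeffB, coeff_smul, smul_eq_mul] at h4
      have h5 : ((∑ i, d (i, l) : ℕ) : ℤ) = β l := by exact_mod_cast mul_right_cancel₀ hd h4
      omega
  conv_lhs => rw [← f.support_sum_monomial_coeff]
  conv_rhs => rw [← f.support_sum_monomial_coeff]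
  rw [map_sum, Finset.smul_sum]
  refine Finset.sum_congr rfl fun d hd => ?_
  obtain ⟨h2, h3⟩ := h1 d (mem_support_iff.1 hd)
  rw [a02b_act_mon]
  congr 1
  have h4 : ∏ p : Fin m × Fin n, (a p.1 * b p.2) ^ d p =
      (∏ p : Fin m × Fin n, a p.1 ^ d p) * ∏ p : Fin m × Fin n, b p.2 ^ d p := by
    rw [← Finset.prod_mul_distrib]
    exact Finset.prod_congr rfl fun p _ => mul_pow _ _ _
  rw [h4]
  congr 1
  · rw [Fintype.prod_prod_type]
    refine Finset.prod_congr rfl fun i _ => ?_
    rw [← h2 i, ← Finset.prod_pow_eq_pow_sum]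
  · rw [Fintype.prod_prod_type_right]
    refine Finset.prod_congr rfl fun l _ => ?_
    rw [← h3 l, ← Finset.prod_pow_eq_pow_sum]

theorem h02c_mem (W : Submodule ℂ (Rg m n)) (hW : (GR m n).Stab W) (a : Fin m → ℂ)
    (b : Fin n → ℂ) (f : Rg m n) (hf : f ∈ W) :
    act (Matrix.diagonal a) (Matrix.diagonal b) f ∈ W := by
  have h1 := G05_comp (GR m n) H01_good W (fun i v hv => hW.1 i i v hv)
    (fun l v hv => hW.2 l l v hv)
  have h2 : W ≤ W.comap (act (Matrix.diagonal a) (Matrix.diagonal b)).toLinearMap := by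
    conv_lhs => rw [h1]
    refine iSup_le fun α => iSup_le fun β => ?_
    rintro g ⟨hg1, hg2⟩
    obtain ⟨c, hc⟩ := h02c_diag α β g hg2 a b
    show act (Matrix.diagonal a) (Matrix.diagonal b) g ∈ W
    rw [hc]
    exact W.smul_mem c hg1
  exact h2 hf

theorem h02c_A (W : Submodule ℂ (Rg m n)) (hW : (GR m n).Stab W)
    (A : Matrix (Fin m) (Fin m) ℂ) (hA : A.det ≠ 0) : ∀ f ∈ W, act A 1 f ∈ W := by
  refine Matrix.diagonal_transvection_induction_of_det_ne_zero
    (fun A => ∀ f ∈ W, act A (1 : Matrix (Fin n) (Fin n) ℂ) f ∈ W) A hA ?_ ?_ ?_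
  · intro a _ f hf
    have h1 := h02c_mem W hW a (fun _ => 1) f hf
    rwa [show (Matrix.diagonal (fun _ => (1 : ℂ)) : Matrix (Fin n) (Fin n) ℂ) = 1 from
      Matrix.diagonal_one] at h1
  · intro t f hf
    exact H02_expA W hW t.i t.j t.hij t.c f hf
  · intro A B _ _ hA hB f hf
    have h1 := hB _ (hA f hf)
    rwa [A01_act_act, mul_one] at h1

theorem h02c_B (W : Submodule ℂ (Rg m n)) (hW : (GR m n).Stab W)
    (B : Matrix (Fin n) (Fin n) ℂ) (hB : B.det ≠ 0) : ∀ f ∈ W, act 1 B f ∈ W := by
  refine Matrix.diagonal_transvection_induction_of_det_ne_zero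
    (fun B => ∀ f ∈ W, act (1 : Matrix (Fin m) (Fin m) ℂ) B f ∈ W) B hB ?_ ?_ ?_
  · intro b _ f hf
    have h1 := h02c_mem W hW (fun _ => 1) b f hf
    rwa [show (Matrix.diagonal (fun _ => (1 : ℂ)) : Matrix (Fin m) (Fin m) ℂ) = 1 from
      Matrix.diagonal_one] at h1
  · intro t f hf
    exact H02_expB W hW t.i t.j t.hij t.c f hf
  · intro A B _ _ hA hB f hf
    have h1 := hA _ (hB f hf)
    rwa [A01_act_act, mul_one] at h1

theorem H02_inv (W : Submodule ℂ (Rg m n)) (hW : (GR m n).Stab W) : Inv W := by
  intro A B hA hB f hf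
  rw [Matrix.isUnit_iff_isUnit_det, isUnit_iff_ne_zero] at hA hB
  have h1 := h02c_A W hW A hA _ (h02c_B W hW B hB f hf)
  rwa [A01_act_act, one_mul, one_mul] at h1

end H95H
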