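import Pool.Agent.Lib.H95H.A07
import Pool.Agent.Lib.H95H.A13a
import Pool.Agent.Lib.H95H.H02a
import Pool.Agent.Lib.H95H.H02c

namespace H95H

open MvPolynomial

variable {m n k : ℕ}

/-!
# Chunk H02: invariant subspaces and submodules; `V κ` is irreducible

* `H02_stab`: let `W` be `Inv` and `f ∈ W`. For `i ≠ j` and `s ∈ ℂ`, `A = 1 + s E_{ji}` is invertible and
  `act A 1 f` is obtained from `f` by `X_{jl} ↦ X_{jl} + s X_{il}`; it is a polynomial in `s` with
  coefficients in `Rg`, whose coefficient of `s` is `polA i j f`. By `A02_interp` all coefficients are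
  in `W`. For `i = j`: the weight components of `f` are in `W` (`A02_comp_mem`), `f` is their finite
  sum, and `polA i i` acts on them by scalars (`H01_wt`). The same for `polB` with
  `B = 1 + s E_{ij}`.
* `H02_inv`: let `W` be stable under all `polA`, `polB`. Then `W` is `Inv`: (i) for `i ≠ j`,
  `act (1 + s E_{ji}) 1 f = ∑_k s^k/k! (polA i j)^k f` (a finite sum; both sides are algebra
  homomorphisms in `f` by the Leibniz rule, and agree on the variables; `(polA i j)^k f = 0` for
  `k` larger than the degree), so it is in `W`; the same for `act 1 (1 + s E_{ij})` with `polB`.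
  (ii) diagonal matrices: `W` contains the weight components of its elements (`G05_comp` and
  `H01_good`), and `act` of diagonal matrices multiplies them by scalars. (iii) every invertible
  matrix is a product of transvections and a diagonal matrix
  (`Matrix.Pivot.exists_list_transvec_mul_diagonal_mul_list_transvec`); `act` is multiplicative
  (`A01_act_act`; `act A B = act A 1 ∘ act 1 B` up to order).
* `H02_irr`: stable by `H02_stab` (`A05_V_inv`); `hw κ` is a highest weight vector (`H01_hw`,
  `A05_hw_mem`, `A05_hw_ne`). Let `W' ≤ V κ` be stable, `W' ≠ ⊥`. By `H02_inv` it is `Inv`, so by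
  `A07_exists` it contains some `hw lam`, `lam` antitone. `hw lam ∈ V κ ⊓ V lam`, so `lam = κ` (otherwise
  `fis (hw lam) (hw lam) = 0` by `A12_orth`, but the form is positive definite). Then `V κ ≤ W'`.
* `H02_pr`: `prV κ` commutes with `polA`, `polB`: `V κ` and its orthogonal complement are stable
  (`polA i j` is adjoint to `polA j i`); use `A13_unique`.
* `H02_ru`: let `f` be killed by all `polB l q`, `l < q`, with `polB l l f = μ l • f`, `μ` antitone. Then
  `f ∈ V μ`. By `A13_sum` (with `N` large) it is enough to show that `g = prV λ f = 0` for antitone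
  `λ ≠ μ`. `g ∈ V λ` has the same properties (`H02_pr`). Suppose `g ≠ 0`. The space `N` of all `g' ∈ V λ` with
  `polB l q g' = 0` (`l < q`), `polB l l g' = μ l • g'` is finite-dimensional (`A10_V_fin`), nonzero and
  stable under all `polA i j`; it is the sum of its weight components (`G05_comp` for the operators
  `polA i i`, `polB l l`), so there is a weight vector `g' ≠ 0` in it of weight `(α, nz μ)` with
  `∑ (m - i) α i` maximal; `polA i j g'`, `i < j`, is in `N` of larger weight, so it is `0`. So `g'` is a
  highest weight vector in `V λ`, and `μ = λ` by `G07_uniq` (applied to the module `(GR).res (V λ)`,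
  which is finite-dimensional: `G20_res`).
-/

theorem H02_irr (κ : Fin n → ℕ) (hκ : Antitone κ) :
    (GR (n + k) n).Irr (pz k κ) (nz κ) (V (k := k) κ) := by
  refine ⟨H02_stab _ (A05_V_inv κ), ⟨hw κ, A05_hw_mem κ, A05_hw_ne κ, H01_hw κ hκ⟩, ?_⟩
  intro W' hW' hstab
  by_cases hne : W' = ⊥
  · exact Or.inl hne
  · right
    have hinv := H02_inv W' hstab
    obtain ⟨lam, hlam, hmem⟩ := A07_exists W' hinv hne
    have heq : lam = κ := by
      by_contra hcon
      have h1 := A12_orth κ lam hκ hlam (Ne.symm hcon) _ (hW' hmem) _ (A05_hw_mem lam)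
      exact A05_hw_ne lam (g05b_self A08_herm _ h1)
    subst heq
    refine le_antisymm hW' ?_
    unfold V
    rw [Submodule.span_le]
    rintro _ ⟨A, B, hA, hB, rfl⟩
    exact hinv A B hA hB _ hmem

theorem H02_pr (κ : Fin n → ℕ) (f : Rg (n + k) n) :
    (∀ i j, prV κ (polA i j f) = polA i j (prV κ f)) ∧
    ∀ l q, prV κ (polB l q f) = polB l q (prV κ f) := by
  have hst := H02_stab _ (A05_V_inv (k := k) κ)
  refine ⟨fun i j => ?_, fun l q => ?_⟩
  · refine A13_unique κ _ _ (hst.1 i j _ (prV_mem κ f)) fun g hg => ?_
    rw [← map_sub, ← h01b_adjA]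
    exact prV_orth κ f _ (hst.1 j i _ hg)
  · refine A13_unique κ _ _ (hst.2 l q _ (prV_mem κ f)) fun g hg => ?_
    rw [← map_sub, ← h01b_adjB]
    exact prV_orth κ f _ (hst.2 q l _ hg)

end H95H
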