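import Pool.Agent.Lib.H95H.A13c
import Pool.Agent.Lib.H95H.G06b
import Pool.Agent.Lib.H95H.G07c
import Pool.Agent.Lib.H95H.G20c
import Pool.Agent.Lib.H95H.H02d

namespace H95H

open MvPolynomial

variable {m n k : ℕ}

/-!
# Chunk H02: invariant subspaces and submodules; `V κ` is irreducible

* `H02_stab`: let `W` be `Inv` and `f ∈ W`. For `i ≠ j` and `s ∈ ℂ`, `A = 1 + s E_{ji}` is invertible and
  `act A 1 f` is obtained from `f` by `X_{jl} ↦ X_{jl} + s X_{il}`; it is a polynomial in `s` with
  coefficients in `Rg`, whose coefficient of `s` is `polA i j f`. By `A02_interp` all coefficients are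
  in `W`. For `i = j`: the weight components of `f` are in `W` (`A02_comp_mem`), `f` is their finite
  sum, and `polA i i` acts on them by scalars (`H01_wt`). The same for `polB` with
  `B = 1 + s E_{ij}`.
* `H02_inv`: let `W` be stable under all `polA`, `polB`. Then `W` is `Inv`: (i) for `i ≠ j`,
  `act (1 + s E_{ji}) 1 f = ∑_k s^k/k! (polA i j)^k f` (a finite sum; both sides are algebra
  homomorphisms in `f` by the Leibniz rule, and agree on the variables; `(polA i j)^k f = 0` for
  `k` larger than the degree), so it is in `W`; the same for `act 1 (1 + s E_{ij})` with `polB`.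
  (ii) diagonal matrices: `W` contains the weight components of its elements (`G05_comp` and
  `H01_good`), and `act` of diagonal matrices multiplies them by scalars. (iii) every invertible
  matrix is a product of transvections and a diagonal matrix
  (`Matrix.Pivot.exists_list_transvec_mul_diagonal_mul_list_transvec`); `act` is multiplicative
  (`A01_act_act`; `act A B = act A 1 ∘ act 1 B` up to order).
* `H02_irr`: stable by `H02_stab` (`A05_V_inv`); `hw κ` is a highest weight vector (`H01_hw`,
  `A05_hw_mem`, `A05_hw_ne`). Let `W' ≤ V κ` be stable, `W' ≠ ⊥`. By `H02_inv` it is `Inv`, so by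
  `A07_exists` it contains some `hw lam`, `lam` antitone. `hw lam ∈ V κ ⊓ V lam`, so `lam = κ` (otherwise
  `fis (hw lam) (hw lam) = 0` by `A12_orth`, but the form is positive definite). Then `V κ ≤ W'`.
* `H02_pr`: `prV κ` commutes with `polA`, `polB`: `V κ` and its orthogonal complement are stable
  (`polA i j` is adjoint to `polA j i`); use `A13_unique`.
* `H02_ru`: let `f` be killed by all `polB l q`, `l < q`, with `polB l l f = μ l • f`, `μ` antitone. Then
  `f ∈ V μ`. By `A13_sum` (with `N` large) it is enough to show that `g = prV λ f = 0` for antitone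
  `λ ≠ μ`. `g ∈ V λ` has the same properties (`H02_pr`). Suppose `g ≠ 0`. The space `N` of all `g' ∈ V λ` with
  `polB l q g' = 0` (`l < q`), `polB l l g' = μ l • g'` is finite-dimensional (`A10_V_fin`), nonzero and
  stable under all `polA i j`; it is the sum of its weight components (`G05_comp` for the operators
  `polA i i`, `polB l l`), so there is a weight vector `g' ≠ 0` in it of weight `(α, nz μ)` with
  `∑ (m - i) α i` maximal; `polA i j g'`, `i < j`, is in `N` of larger weight, so it is `0`. So `g'` is a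
  highest weight vector in `V λ`, and `μ = λ` by `G07_uniq` (applied to the module `(GR).res (V λ)`,
  which is finite-dimensional: `G20_res`).
-/

/-- the action of `gl_m` only -/
noncomputable def h02e_G (m n : ℕ) : G0 m 0 (Rg m n) where
  a := polA
  b := fun l _ => l.elim0
  aa := H01_aa
  bb := fun i => i.elim0
  ab := fun _ _ p => p.elim0

theorem h02e_good : (h02e_G m n).Good := by
  refine ⟨⟨fis, A08_herm, h01b_adjA, fun i => i.elim0⟩, ?_⟩
  rw [eq_top_iff, ← (H01_good (m := m) (n := n)).2]
  refine iSup_le fun α => iSup_le fun β => ?_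
  refine le_trans ?_ (le_iSup_of_le α (le_iSup_of_le (fun l => l.elim0) le_rfl))
  intro v hv
  exact ⟨hv.1, fun l => l.elim0⟩

/-- vectors in `W` with the given properties for the second factor -/
def h02e_N (W : Submodule ℂ (Rg m n)) (μ : Fin n → ℕ) : Submodule ℂ (Rg m n) where
  carrier := {f | f ∈ W ∧ (∀ l q : Fin n, l < q → polB l q f = 0) ∧
    ∀ l : Fin n, polB l l f = (μ l : ℂ) • f}
  add_mem' := by
    rintro f g ⟨h1, h2, h3⟩ ⟨h1', h2', h3'⟩
    refine ⟨W.add_mem h1 h1', fun l q hlq => ?_, fun l => ?_⟩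
    · rw [map_add, h2 l q hlq, h2' l q hlq, add_zero]
    · rw [map_add, h3, h3', smul_add]
  zero_mem' := ⟨W.zero_mem, fun l q _ => map_zero _, fun l => by rw [map_zero, smul_zero]⟩
  smul_mem' := by
    rintro r f ⟨h1, h2, h3⟩
    refine ⟨W.smul_mem r h1, fun l q hlq => ?_, fun l => ?_⟩
    · rw [map_smul, h2 l q hlq, smul_zero]
    · rw [map_smul, h3, smul_comm]

theorem h02e_fin {E : Type} [AddCommGroup E] [Module ℂ E] (N W : Submodule ℂ E) (h : N ≤ W)
    (hW : Module.Finite ℂ ↥W) : Module.Finite ℂ ↥N :=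
  Module.Finite.of_injective (Submodule.inclusion h) (Submodule.inclusion_injective h)

theorem h02e_zero (μ lam : Fin n → ℕ) (hlam : Antitone lam) (hne : lam ≠ μ)
    (f : Rg (n + k) n) (h1 : ∀ l q : Fin n, l < q → polB l q f = 0)
    (h2 : ∀ l : Fin n, polB l l f = (μ l : ℂ) • f) : prV lam f = 0 := by
  by_contra hcon
  have hst := H02_stab _ (A05_V_inv (k := k) lam)
  have hIrr := H02_irr (k := k) lam hlam
  have hfinV := A10_V_fin (k := k) lam
  have hN : (h02e_G (n + k) n).Stab (h02e_N (V (k := k) lam) μ) := by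
    refine ⟨fun i j f hf => ?_, fun l => l.elim0⟩
    refine ⟨hst.1 i j f hf.1, fun l q hlq => ?_, fun l => ?_⟩
    · show polB l q (polA i j f) = 0
      rw [← H01_ab, hf.2.1 l q hlq, map_zero]
    · show polB l l (polA i j f) = _
      rw [← H01_ab, hf.2.2 l, map_smul]
      rfl
  have hmem : prV lam f ∈ h02e_N (V (k := k) lam) μ := by
    refine ⟨prV_mem lam f, fun l q hlq => ?_, fun l => ?_⟩
    · rw [← (H02_pr lam f).2, h1 l q hlq, map_zero]
    · rw [← (H02_pr lam f).2, h2 l, map_smul]
  obtain ⟨v, hvN, hv0, α, β, hv⟩ := G06_hw (h02e_G (n + k) n) h02e_good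
    (h02e_N (V (k := k) lam) μ) (h02e_fin _ _ (fun f hf => hf.1) hfinV) hN
    (fun h => hcon (by
      have h3 := hmem
      rw [h, Submodule.mem_bot] at h3
      exact h3))
  have hHW : (GR (n + k) n).HW α (nz μ) v := by
    refine ⟨⟨hv.1.1, fun l => ?_⟩, hv.2.1, hvN.2.1⟩
    show polB l l v = ((nz μ l : ℤ) : ℂ) • v
    rw [hvN.2.2 l]
    unfold nz
    norm_cast
  obtain ⟨hg, hI⟩ := G20_res (GR (n + k) n) H01_good (pz k lam) (nz lam) _ hIrr
  have hlift : ∀ (α : Fin (n + k) → ℤ) (β : Fin n → ℤ) (v : Rg (n + k) n)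
      (hvV : v ∈ V (k := k) lam), (GR (n + k) n).HW α β v →
      ((GR (n + k) n).res _ hIrr.stab).HW α β ⟨v, hvV⟩ := by
    intro α β v hvV hv
    refine ⟨⟨fun i => Subtype.ext (hv.1.1 i), fun l => Subtype.ext (hv.1.2 l)⟩,
      fun i j hij => Subtype.ext (hv.2.1 i j hij), fun l q hlq => Subtype.ext (hv.2.2 l q hlq)⟩
  have h3 := G07_uniq ((GR (n + k) n).res _ hIrr.stab) hg hfinV (pz k lam) α (nz lam) (nz μ) ⊤ hI
    ⟨hw lam, A05_hw_mem lam⟩ ⟨v, hvN.1⟩ Submodule.mem_top
    (hlift _ _ _ _ (H01_hw lam hlam)) (fun h => A05_hw_ne lam (congrArg Subtype.val h))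
    Submodule.mem_top (hlift _ _ _ _ hHW) (fun h => hv0 (congrArg Subtype.val h))
  apply hne
  funext l
  have h4 := congrFun h3.2.1 l
  unfold nz at h4
  exact_mod_cast h4.symm

theorem H02_ru (μ : Fin n → ℕ) (hμ : Antitone μ) (f : Rg (n + k) n)
    (h1 : ∀ l q : Fin n, l < q → polB l q f = 0)
    (h2 : ∀ l : Fin n, polB l l f = (μ l : ℂ) • f) : f ∈ V (k := k) μ := by
  classical
  have h3 := A13_sum f (f.support.sup fun α => ∑ i, (Finsupp.weight wt α : Wt (n + k) n).1 i)
    fun α hα => Finset.le_sup (f := fun α => ∑ i, (Finsupp.weight wt α : Wt (n + k) n).1 i)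
      (mem_support_iff.2 hα)
  rw [← h3]
  refine Submodule.sum_mem _ fun lam hlam => ?_
  by_cases hne : lam = μ
  · rw [hne]
    exact prV_mem μ f
  · have hanti : Antitone lam := fun r s hrs => (Finset.mem_filter.1 hlam).2 r s hrs
    rw [h02e_zero μ lam hanti hne f h1 h2]
    exact Submodule.zero_mem _

end H95H
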