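import Pool.Agent.Lib.H95H.A10b
import Pool.Agent.Lib.H95H.G20a
import Pool.Agent.Lib.H95H.H02a

namespace H95H

open MvPolynomial

variable {m n k : ℕ}

/-- chains with coefficients in `V κ` -/
def KV {n k : ℕ} (κ : Fin n → ℕ) : Submodule ℂ (Kz (n + k) n) where
  carrier := {c | ∀ T, c T ∈ V (k := k) κ}
  add_mem' := fun hc hc' T => (V (k := k) κ).add_mem (hc T) (hc' T)
  zero_mem' := fun _ => (V (k := k) κ).zero_mem
  smul_mem' := fun r _ hc T => (V (k := k) κ).smul_mem r (hc T)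

/-!
# Chunk H03: the Kac modules `Λ ⊗ V κ`

`Kz m n` is `LM m n (Rg m n)`, and `cre`, `ann`, `co` are `creM`, `annM`, `coM` for `M = Rg m n` (by `rfl`).
* `H03_stab`: `coM` of an operator preserving `V κ` preserves `KV κ`, and so do `cre`, `ann`.
* `H03_good`: `G20_good`, `H01_good`, `G05_res`. `H03_fin`: `A10_V_fin`.
* `H03_kac`: `KV κ` is isomorphic (as a module) to the module induced from `(GR).res (V κ)`: the map
  `LM (n+k) n ↥(V κ) → ↥(KV κ)`, `z ↦ (T ↦ (z T : Rg))`. Use `G20_kac`, `G20_res`, `G15_iso`.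
* `H03_wt`: a chain is in `MD ω` iff it is in the weight space: `iA i i c T = polA i i (c T) +
  (number of a ∈ T with a.1 = i) • c T` (`creM (i,l) (annM (i,l) c) T = c T` if `(i,l) ∈ T` and `0`
  otherwise), and `H01_wt`.
-/

theorem h03a_cre (κ : Fin n → ℕ) (a : Fin (n + k) × Fin n) (z : LM (n + k) n (Rg (n + k) n))
    (hz : z ∈ KV (k := k) κ) : creM a z ∈ KV (k := k) κ := by
  intro T
  show (if a ∈ T then sgn a T • z (T.erase a) else 0) ∈ V (k := k) κ
  split_ifs
  · exact (V (k := k) κ).smul_mem _ (hz _)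
  · exact (V (k := k) κ).zero_mem

theorem h03a_ann (κ : Fin n → ℕ) (a : Fin (n + k) × Fin n) (z : LM (n + k) n (Rg (n + k) n))
    (hz : z ∈ KV (k := k) κ) : annM a z ∈ KV (k := k) κ := by
  intro T
  show (if a ∈ T then 0 else sgn a T • z (insert a T)) ∈ V (k := k) κ
  split_ifs
  · exact (V (k := k) κ).zero_mem
  · exact (V (k := k) κ).smul_mem _ (hz _)

theorem h03a_co (κ : Fin n → ℕ) (φ : Rg (n + k) n →ₗ[ℂ] Rg (n + k) n)
    (hφ : ∀ f ∈ V (k := k) κ, φ f ∈ V (k := k) κ) (z : LM (n + k) n (Rg (n + k) n))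
    (hz : z ∈ KV (k := k) κ) : coM φ z ∈ KV (k := k) κ := fun T => hφ _ (hz T)

theorem H03_stab (κ : Fin n → ℕ) : (GR (n + k) n).ind.Stab (KV (k := k) κ) := by
  have hst := H02_stab _ (A05_V_inv (k := k) κ)
  refine ⟨⟨fun i j z hz => ?_, fun l q z hz => ?_⟩, fun i l z hz => h03a_cre κ _ z hz,
    fun i l z hz => ?_⟩
  · show iA (GR (n + k) n) i j z ∈ KV (k := k) κ
    unfold iA
    rw [LinearMap.add_apply, LinearMap.sum_apply]
    exact Submodule.add_mem _ (h03a_co κ _ (hst.1 i j) z hz)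
      (Submodule.sum_mem _ fun l _ => h03a_cre κ _ _ (h03a_ann κ _ z hz))
  · show iB (GR (n + k) n) l q z ∈ KV (k := k) κ
    unfold iB
    rw [LinearMap.add_apply, LinearMap.sum_apply]
    exact Submodule.add_mem _ (h03a_co κ _ (hst.2 l q) z hz)
      (Submodule.sum_mem _ fun i _ => h03a_cre κ _ _ (h03a_ann κ _ z hz))
  · show iY (GR (n + k) n) i l z ∈ KV (k := k) κ
    unfold iY
    rw [LinearMap.add_apply, LinearMap.sub_apply, LinearMap.sum_apply, LinearMap.sum_apply,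
      LinearMap.sum_apply]
    refine Submodule.add_mem _ (Submodule.sub_mem _ ?_ ?_) ?_
    · exact Submodule.sum_mem _ fun i _ => h03a_ann κ _ _ (h03a_co κ _ (hst.1 _ _) z hz)
    · exact Submodule.sum_mem _ fun i _ => h03a_ann κ _ _ (h03a_co κ _ (hst.2 _ _) z hz)
    · refine Submodule.sum_mem _ fun i _ => ?_
      rw [LinearMap.sum_apply]
      exact Submodule.sum_mem _ fun l _ => h03a_cre κ _ _ (h03a_ann κ _ _ (h03a_ann κ _ z hz))

/-- the module `Λ ⊗ V κ` -/
noncomputable def KK (k : ℕ) (κ : Fin n → ℕ) : GM (n + k) n ↥(KV (k := k) κ) :=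
  (GR (n + k) n).ind.res (KV κ) (H03_stab κ)

theorem H03_good (κ : Fin n → ℕ) : (KK k κ).toG0.Good :=
  G05_res _ (G20_good _ H01_good) _ _

theorem H03_fin (κ : Fin n → ℕ) : Module.Finite ℂ ↥(KV (k := k) κ) := by
  have := A10_V_fin (k := k) κ
  let e : ↥(KV (k := k) κ) →ₗ[ℂ] (Finset (Fin (n + k) × Fin n) → ↥(V (k := k) κ)) :=
    { toFun := fun z T => ⟨z.1 T, z.2 T⟩
      map_add' := fun _ _ => rfl
      map_smul' := fun _ _ => rfl }
  refine Module.Finite.of_injective e fun z z' h => ?_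
  apply Subtype.ext
  funext T
  exact congrArg Subtype.val (congrFun h T)

end H95H
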