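import Pool.Agent.Lib.H95H.G15a
import Pool.Agent.Lib.H95H.G20c
import Pool.Agent.Lib.H95H.H02d
import Pool.Agent.Lib.H95H.H03a

namespace H95H

open MvPolynomial

variable {m n k : ℕ}

/-!
# Chunk H03: the Kac modules `Λ ⊗ V κ`

`Kz m n` is `LM m n (Rg m n)`, and `cre`, `ann`, `co` are `creM`, `annM`, `coM` for `M = Rg m n` (by `rfl`).
* `H03_stab`: `coM` of an operator preserving `V κ` preserves `KV κ`, and so do `cre`, `ann`.
* `H03_good`: `G20_good`, `H01_good`, `G05_res`. `H03_fin`: `A10_V_fin`.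
* `H03_kac`: `KV κ` is isomorphic (as a module) to the module induced from `(GR).res (V κ)`: the map
  `LM (n+k) n ↥(V κ) → ↥(KV κ)`, `z ↦ (T ↦ (z T : Rg))`. Use `G20_kac`, `G20_res`, `G15_iso`.
* `H03_wt`: a chain is in `MD ω` iff it is in the weight space: `iA i i c T = polA i i (c T) +
  (number of a ∈ T with a.1 = i) • c T` (`creM (i,l) (annM (i,l) c) T = c T` if `(i,l) ∈ T` and `0`
  otherwise), and `H01_wt`.
-/

/-- the module `V κ` -/
noncomputable def h03b_V (k : ℕ) (κ : Fin n → ℕ) : G0 (n + k) n ↥(V (k := k) κ) :=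
  (GR (n + k) n).res (V (k := k) κ) (H02_stab _ (A05_V_inv κ))

/-- the inclusion -/
noncomputable def h03b_i (k : ℕ) (κ : Fin n → ℕ) :
    LM (n + k) n ↥(V (k := k) κ) →ₗ[ℂ] LM (n + k) n (Rg (n + k) n) where
  toFun z := fun T => (z T : Rg (n + k) n)
  map_add' _ _ := rfl
  map_smul' _ _ := rfl

theorem h03b_cre (κ : Fin n → ℕ) (a : Fin (n + k) × Fin n) (z : LM (n + k) n ↥(V (k := k) κ)) :
    h03b_i k κ (creM a z) = creM a (h03b_i k κ z) := by
  funext T
  show ((if a ∈ T then sgn a T • z (T.erase a) else 0 : ↥(V (k := k) κ)) : Rg (n + k) n) =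
    if a ∈ T then sgn a T • (z (T.erase a) : Rg (n + k) n) else 0
  split_ifs <;> rfl

theorem h03b_ann (κ : Fin n → ℕ) (a : Fin (n + k) × Fin n) (z : LM (n + k) n ↥(V (k := k) κ)) :
    h03b_i k κ (annM a z) = annM a (h03b_i k κ z) := by
  funext T
  show ((if a ∈ T then 0 else sgn a T • z (insert a T) : ↥(V (k := k) κ)) : Rg (n + k) n) =
    if a ∈ T then 0 else sgn a T • (z (insert a T) : Rg (n + k) n)
  split_ifs <;> rfl

theorem h03b_coA (κ : Fin n → ℕ) (i j : Fin (n + k)) (z : LM (n + k) n ↥(V (k := k) κ)) :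
    h03b_i k κ (coM ((h03b_V k κ).a i j) z) = coM ((GR (n + k) n).a i j) (h03b_i k κ z) := rfl

theorem h03b_coB (κ : Fin n → ℕ) (l q : Fin n) (z : LM (n + k) n ↥(V (k := k) κ)) :
    h03b_i k κ (coM ((h03b_V k κ).b l q) z) = coM ((GR (n + k) n).b l q) (h03b_i k κ z) := rfl

/-- the isomorphism -/
noncomputable def h03b_e (k : ℕ) (κ : Fin n → ℕ) : LM (n + k) n ↥(V (k := k) κ) →ₗ[ℂ] ↥(KV (k := k) κ) where
  toFun z := ⟨h03b_i k κ z, fun T => (z T).2⟩
  map_add' _ _ := rfl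
  map_smul' _ _ := rfl

theorem h03b_hom (κ : Fin n → ℕ) : GHom (h03b_V k κ).ind (KK k κ) (h03b_e k κ) := by
  refine ⟨fun i j z => ?_, fun l q z => ?_, fun i l z => ?_, fun i l z => ?_⟩
  · apply Subtype.ext
    show h03b_i k κ (iA (h03b_V k κ) i j z) = iA (GR (n + k) n) i j (h03b_i k κ z)
    unfold iA
    rw [LinearMap.add_apply, LinearMap.add_apply, LinearMap.sum_apply, LinearMap.sum_apply,
      map_add, map_sum, h03b_coA]
    congr 1
    refine Finset.sum_congr rfl fun l _ => ?_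
    rw [LinearMap.comp_apply, LinearMap.comp_apply, h03b_cre, h03b_ann]
  · apply Subtype.ext
    show h03b_i k κ (iB (h03b_V k κ) l q z) = iB (GR (n + k) n) l q (h03b_i k κ z)
    unfold iB
    rw [LinearMap.add_apply, LinearMap.add_apply, LinearMap.sum_apply, LinearMap.sum_apply,
      map_add, map_sum, h03b_coB]
    congr 1
    refine Finset.sum_congr rfl fun i _ => ?_
    rw [LinearMap.comp_apply, LinearMap.comp_apply, h03b_cre, h03b_ann]
  · apply Subtype.ext
    exact h03b_cre κ (i, l) z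
  · apply Subtype.ext
    show h03b_i k κ (iY (h03b_V k κ) i l z) = iY (GR (n + k) n) i l (h03b_i k κ z)
    unfold iY
    simp only [LinearMap.add_apply, LinearMap.sub_apply, LinearMap.sum_apply, map_add, map_sub,
      map_sum, LinearMap.comp_apply, h03b_cre, h03b_ann, h03b_coA, h03b_coB]

theorem H03_kac (κ : Fin n → ℕ) (hκ : Antitone κ) : (KK k κ).isKac κ κ := by
  have hIrr := H02_irr (k := k) κ hκ
  obtain ⟨hg, hI⟩ := G20_res (GR (n + k) n) H01_good (pz k κ) (nz κ) _ hIrr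
  have h1 : (h03b_V k κ).ind.isKac κ κ := G20_kac _ (A10_V_fin κ) κ κ hI
  refine (G15_iso (h03b_V k κ).ind (KK k κ) (h03b_e k κ) (h03b_hom κ) ⟨?_, ?_⟩ κ κ).1 h1
  · intro z z' h
    funext T
    apply Subtype.ext
    exact congrFun (congrArg Subtype.val h) T
  · intro c
    exact ⟨fun T => ⟨c.1 T, c.2 T⟩, rfl⟩

end H95H
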