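import Pool.Agent.Lib.H95H.H03a

namespace H95H

open MvPolynomial

variable {m n k : ℕ}

/-!
# Chunk H03: the Kac modules `Λ ⊗ V κ`

`Kz m n` is `LM m n (Rg m n)`, and `cre`, `ann`, `co` are `creM`, `annM`, `coM` for `M = Rg m n` (by `rfl`).
* `H03_stab`: `coM` of an operator preserving `V κ` preserves `KV κ`, and so do `cre`, `ann`.
* `H03_good`: `G20_good`, `H01_good`, `G05_res`. `H03_fin`: `A10_V_fin`.
* `H03_kac`: `KV κ` is isomorphic (as a module) to the module induced from `(GR).res (V κ)`: the map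
  `LM (n+k) n ↥(V κ) → ↥(KV κ)`, `z ↦ (T ↦ (z T : Rg))`. Use `G20_kac`, `G20_res`, `G15_iso`.
* `H03_wt`: a chain is in `MD ω` iff it is in the weight space: `iA i i c T = polA i i (c T) +
  (number of a ∈ T with a.1 = i) • c T` (`creM (i,l) (annM (i,l) c) T = c T` if `(i,l) ∈ T` and `0`
  otherwise), and `H01_wt`.
-/

theorem h03c_ca (a : Fin m × Fin n) (c : LM m n (Rg m n)) (T : Finset (Fin m × Fin n)) :
    creM a (annM a c) T = if a ∈ T then c T else 0 := by
  by_cases h : a ∈ T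
  · rw [if_pos h]
    have h1 := congrFun (G19_ac a a c) T
    rw [if_pos rfl, Pi.add_apply] at h1
    have h2 : annM a (creM a c) T = 0 := if_pos h
    rwa [h2, zero_add] at h1
  · rw [if_neg h]
    exact if_neg h

theorem h03c_s1 (T : Finset (Fin m × Fin n)) (i : Fin m) :
    (∑ a ∈ T, (wt a : Wt m n)).1 i = ∑ l : Fin n, if (i, l) ∈ T then 1 else 0 := by
  rw [Prod.fst_sum, Finset.sum_apply]
  have e1 : ∀ a : Fin m × Fin n, (wt a : Wt m n).1 i = if a.1 = i then 1 else 0 := by
    intro a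
    show (Pi.single a.1 1 : Fin m → ℕ) i = _
    rw [Pi.single_apply]
    simp only [eq_comm]
  rw [Finset.sum_congr rfl fun a _ => e1 a]
  have e2 : ∑ a ∈ T, (if a.1 = i then 1 else 0) =
      ∑ a : Fin m × Fin n, if a ∈ T then (if a.1 = i then 1 else 0) else 0 := by
    rw [Finset.sum_ite_mem, Finset.univ_inter]
  rw [e2, Fintype.sum_prod_type, Finset.sum_eq_single i]
  · refine Finset.sum_congr rfl fun l _ => ?_
    rw [if_pos rfl]
  · intro i' _ hi'
    refine Finset.sum_eq_zero fun l _ => ?_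
    rw [if_neg hi', ite_self]
  · intro h
    exact absurd (Finset.mem_univ _) h

theorem h03c_s2 (T : Finset (Fin m × Fin n)) (l : Fin n) :
    (∑ a ∈ T, (wt a : Wt m n)).2 l = ∑ i : Fin m, if (i, l) ∈ T then 1 else 0 := by
  rw [Prod.snd_sum, Finset.sum_apply]
  have e1 : ∀ a : Fin m × Fin n, (wt a : Wt m n).2 l = if a.2 = l then 1 else 0 := by
    intro a
    show (Pi.single a.2 1 : Fin n → ℕ) l = _
    rw [Pi.single_apply]
    simp only [eq_comm]
  rw [Finset.sum_congr rfl fun a _ => e1 a]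
  have e2 : ∑ a ∈ T, (if a.2 = l then 1 else 0) =
      ∑ a : Fin m × Fin n, if a ∈ T then (if a.2 = l then 1 else 0) else 0 := by
    rw [Finset.sum_ite_mem, Finset.univ_inter]
  rw [e2, Fintype.sum_prod_type_right, Finset.sum_eq_single l]
  · refine Finset.sum_congr rfl fun i _ => ?_
    rw [if_pos rfl]
  · intro l' _ hl'
    refine Finset.sum_eq_zero fun i _ => ?_
    rw [if_neg hl', ite_self]
  · intro h
    exact absurd (Finset.mem_univ _) h

theorem h03c_coA (i : Fin m) (c : LM m n (Rg m n)) (T : Finset (Fin m × Fin n))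
    (d : (Fin m × Fin n) →₀ ℕ) : coeff d (iA (GR m n) i i c T) =
      (((Finsupp.weight wt d + ∑ a ∈ T, wt a : Wt m n).1 i : ℕ) : ℂ) * coeff d (c T) := by
  have e1 : iA (GR m n) i i c T = polA i i (c T) + ∑ l : Fin n, if (i, l) ∈ T then c T else 0 := by
    unfold iA
    rw [LinearMap.add_apply, LinearMap.sum_apply, Pi.add_apply, Finset.sum_apply]
    congr 1
    exact Finset.sum_congr rfl fun l _ => h03c_ca _ _ _
  rw [e1, coeff_add, h01c_coeffA, ← h01c_wt1, Prod.fst_add, Pi.add_apply, h03c_s1, Nat.cast_add,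
    add_mul, coeff_sum, Nat.cast_sum, Finset.sum_mul]
  congr 1
  refine Finset.sum_congr rfl fun l _ => ?_
  split_ifs
  · rw [Nat.cast_one, one_mul]
  · rw [Nat.cast_zero, zero_mul, coeff_zero]

theorem h03c_coB (l : Fin n) (c : LM m n (Rg m n)) (T : Finset (Fin m × Fin n))
    (d : (Fin m × Fin n) →₀ ℕ) : coeff d (iB (GR m n) l l c T) =
      (((Finsupp.weight wt d + ∑ a ∈ T, wt a : Wt m n).2 l : ℕ) : ℂ) * coeff d (c T) := by
  have e1 : iB (GR m n) l l c T = polB l l (c T) + ∑ i : Fin m, if (i, l) ∈ T then c T else 0 := by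
    unfold iB
    rw [LinearMap.add_apply, LinearMap.sum_apply, Pi.add_apply, Finset.sum_apply]
    congr 1
    exact Finset.sum_congr rfl fun i _ => h03c_ca _ _ _
  rw [e1, coeff_add, h01c_coeffB, ← h01c_wt2, Prod.snd_add, Pi.add_apply, h03c_s2, Nat.cast_add,
    add_mul, coeff_sum, Nat.cast_sum, Finset.sum_mul]
  congr 1
  refine Finset.sum_congr rfl fun i _ => ?_
  split_ifs
  · rw [Nat.cast_one, one_mul]
  · rw [Nat.cast_zero, zero_mul, coeff_zero]

theorem H03_wt (ω : Wt m n) (c : Kz m n) : c ∈ MD ω ↔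
    c ∈ (GR m n).ind.toG0.Wsp (fun i => (ω.1 i : ℤ)) (fun l => (ω.2 l : ℤ)) := by
  constructor
  · intro h
    refine ⟨fun i => ?_, fun l => ?_⟩
    · show iA (GR m n) i i c = _
      funext T
      ext d
      rw [h03c_coA, Pi.smul_apply, coeff_smul, smul_eq_mul]
      by_cases h0 : coeff d (c T) = 0
      · rw [h0, mul_zero, mul_zero]
      · rw [h T d h0, Int.cast_natCast]
    · show iB (GR m n) l l c = _
      funext T
      ext d
      rw [h03c_coB, Pi.smul_apply, coeff_smul, smul_eq_mul]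
      by_cases h0 : coeff d (c T) = 0
      · rw [h0, mul_zero, mul_zero]
      · rw [h T d h0, Int.cast_natCast]
  · rintro ⟨h1, h2⟩ T d hd
    refine Prod.ext (funext fun i => ?_) (funext fun l => ?_)
    · have h3 : iA (GR m n) i i c = ((ω.1 i : ℤ) : ℂ) • c := h1 i
      have h4 := congrArg (coeff d) (congrFun h3 T)
      rw [h03c_coA, Pi.smul_apply, coeff_smul, smul_eq_mul, Int.cast_natCast] at h4
      exact_mod_cast mul_right_cancel₀ hd h4
    · have h3 : iB (GR m n) l l c = ((ω.2 l : ℤ) : ℂ) • c := h2 l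
      have h4 := congrArg (coeff d) (congrFun h3 T)
      rw [h03c_coB, Pi.smul_apply, coeff_smul, smul_eq_mul, Int.cast_natCast] at h4
      exact_mod_cast mul_right_cancel₀ hd h4

theorem H03_wtK (κ : Fin n → ℕ) (ω : Wt (n + k) n) (c : ↥(KV (k := k) κ)) :
    c ∈ (KK k κ).toG0.Wsp (fun i => (ω.1 i : ℤ)) (fun l => (ω.2 l : ℤ)) ↔
      (c : Kz (n + k) n) ∈ MD ω := by
  rw [H03_wt]
  constructor
  · rintro ⟨h1, h2⟩
    exact ⟨fun i => congrArg Subtype.val (h1 i), fun l => congrArg Subtype.val (h2 l)⟩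
  · rintro ⟨h1, h2⟩
    exact ⟨fun i => Subtype.ext (h1 i), fun l => Subtype.ext (h2 l)⟩

end H95H
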