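import Pool.Agent.Lib.H95H.C01b
import Pool.Agent.Lib.H95H.G19e
import Pool.Agent.Lib.H95H.H01a

namespace H95H

open MvPolynomial

variable {m n k : ℕ}

/-- the sign twist -/
noncomputable def tw : Kz m n →ₗ[ℂ] Kz m n where
  toFun c := fun T => ((-1 : ℂ) ^ T.card) • c T
  map_add' c c' := by funext T; simp
  map_smul' r c := by
    funext T
    simp only [Pi.smul_apply, RingHom.id_apply]
    rw [smul_comm]

/-!
# Chunk H04: the de Rham differential is a homomorphism

* `H04_dR`: `D = deRham ∘ tw`. (i) `D (cre a c) = cre a (D c)`: `tw (cre a c) = - cre a (tw c)` and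
  `deRham (cre a c) = - cre a (deRham c)` (`C01_cc`, `C01_cocre`). (ii) `D` commutes with `iA i j` and
  `iB l q`, and with `iY`: by `G19_span` it is enough to check this on `e0 f` (the set of `c` with
  `D (iA c) = iA (D c)` is stable under `cre` by (i) and `G19_iax`; the same for `iY` with `G19_ixy`, once
  `iA`, `iB` are done). `D (e0 f) = ∑_a cre a (e0 (∂_a f))`. `iA i j (D (e0 f)) =
  ∑_a ([iA i j, cre a] e0 (∂_a f) + cre a (e0 (polA i j (∂_a f))))
  = ∑_l cre (i,l) e0 (∂_{jl} f) + ∑_a cre a (e0 (polA i j ∂_a f))` and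
  `∂_a (polA i j f) = polA i j (∂_a f) + δ_{a.1 = i} ∂_{(j, a.2)} f`: equal to
  `D (e0 (polA i j f))`. The same for `iB`. `iY j q (D (e0 f)) = ∑_{i,l} (δ_{lq} iA i j - δ_{ij} iB l q)
  (e0 (∂_{il} f)) = e0 (∑_i polA i j (∂_{iq} f) - ∑_l polB l q (∂_{jl} f)) = 0`, as both sums are
  `∑_{i,l} X_{il} ∂_{jl} ∂_{iq} f`; and `iY j q (e0 f) = 0`.
* `H04_pr`: `co (prV κ)` commutes with `cre`, `ann` and with `coM (polA ..)`, `coM (polB ..)` (`H02_pr`).
* `H04_PM`: composition.
* `H04_ne`: let `κ = κ₁ + e_r`, both antitone. Let `w i = det (minor of the first r + 1 rows without row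
  i, first r columns) * (product of the powers lead_s ^ (e s))` where `e` is the minimum of the
  exponents of `hw κ` and `hw κ₁`. Expanding `lead r` along its last column
  (`Matrix.det_succ_column`, column `Fin.last r`): `hw κ = ∑_{i ≤ r} ± X_{(i, r)} * w i`
  (`hw κ = lead r * ∏ lead_s ^ (e s)`). The column weight of `w i` is `κ₁` and `w i` is killed by
  `polB l q`, `l < q` (`polB` is a derivation, `H01_mulB`, and it kills every minor on an initial set of
  columns: it replaces column `q` by column `l < q`, two equal columns). So `w i ∈ V κ₁`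
  (`H02_ru`). As `fis (hw κ) (hw κ) ≠ 0` there is `i` with `fis (X_{ir} * w i) (hw κ) ≠ 0`, i.e.
  `fis (w i) (∂_{ir} (hw κ)) ≠ 0` (`A08_X`), so `prV κ₁ (∂_{ir} (hw κ)) ≠ 0`, which is up to sign the
  value at `{(i, r)}` of the image of `e0 (hw κ)`.
* `H04_low`: the range of `PM κ κ₁` is a nontrivial quotient of `KK κ` (`G16_quot`, `H03_kac`): apply
  `G16_quot` to the map `KV κ → range`.
-/

theorem h04a_co_e0 (φ : Rg m n →ₗ[ℂ] Rg m n) (f : Rg m n) :
    coM φ (e0 m n (Rg m n) f) = e0 m n (Rg m n) (φ f) := by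
  funext T
  show φ (e0 m n (Rg m n) f T) = _
  by_cases h : T = ∅
  · subst h; simp [e0]
  · simp [e0, h]

theorem h04a_tw_cre (a : Fin m × Fin n) (c : Kz m n) : tw (cre a c) = -cre a (tw c) := by
  funext T
  show ((-1 : ℂ) ^ T.card) • cre a c T = -(cre a (tw c) T)
  rw [c01a_cre, c01a_cre]
  by_cases h : a ∈ T
  · rw [if_pos h, if_pos h]
    show _ = -(sgn a T • (((-1 : ℂ) ^ (T.erase a).card) • c (T.erase a)))
    have hc : T.card = (T.erase a).card + 1 := (Finset.card_erase_add_one h).symm
    rw [hc, pow_succ, smul_smul, smul_smul, ← neg_smul]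
    congr 1
    ring
  · rw [if_neg h, if_neg h, smul_zero, neg_zero]

theorem h04a_dR_apply (c : Kz m n) : deRham c = ∑ a : Fin m × Fin n, co (dX a) (cre a c) := by
  simp [deRham, LinearMap.sum_apply]

theorem h04a_dR_cre (a : Fin m × Fin n) (c : Kz m n) : deRham (cre a c) = -cre a (deRham c) := by
  rw [h04a_dR_apply, h04a_dR_apply, map_sum, ← Finset.sum_neg_distrib]
  refine Finset.sum_congr rfl fun b _ => ?_
  have h := C01_cc b a c
  rw [eq_neg_of_add_eq_zero_left h, map_neg, C01_cocre]

/-- the operator `D` -/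
noncomputable def h04a_D (m n : ℕ) : Kz m n →ₗ[ℂ] Kz m n := deRham ∘ₗ tw

theorem h04a_D_cre (a : Fin m × Fin n) (c : Kz m n) : h04a_D m n (cre a c) = cre a (h04a_D m n c) := by
  show deRham (tw (cre a c)) = cre a (deRham (tw c))
  rw [h04a_tw_cre, map_neg, h04a_dR_cre, neg_neg]

theorem h04a_D_iX (S : G0 m n (Rg m n)) (i : Fin m) (l : Fin n) (c : LM m n (Rg m n)) :
    h04a_D m n (iX S i l c) = iX S i l (h04a_D m n c) := h04a_D_cre (i, l) c

theorem h04a_D_e0 (f : Rg m n) :
    h04a_D m n (e0 m n (Rg m n) f) = ∑ a : Fin m × Fin n, creM a (e0 m n (Rg m n) (dX a f)) := by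
  show deRham (tw (e0 m n (Rg m n) f)) = _
  have h1 : tw (e0 m n (Rg m n) f) = e0 m n (Rg m n) f := by
    funext T
    show ((-1 : ℂ) ^ T.card) • (e0 m n (Rg m n) f) T = _
    by_cases h : T = ∅
    · subst h; simp
    · simp [e0, h]
  rw [h1, h04a_dR_apply]
  refine Finset.sum_congr rfl fun a _ => ?_
  rw [C01_cocre]
  show creM a (coM (dX a) (e0 m n (Rg m n) f)) = _
  rw [h04a_co_e0]

theorem h04a_iA_e0 (S : G0 m n (Rg m n)) (i j : Fin m) (f : Rg m n) :
    iA S i j (e0 m n (Rg m n) f) = e0 m n (Rg m n) (S.a i j f) := by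
  simp [iA, LinearMap.sum_apply, G19_ann0, h04a_co_e0]

theorem h04a_iB_e0 (S : G0 m n (Rg m n)) (l q : Fin n) (f : Rg m n) :
    iB S l q (e0 m n (Rg m n) f) = e0 m n (Rg m n) (S.b l q f) := by
  simp [iB, LinearMap.sum_apply, G19_ann0, h04a_co_e0]

theorem h04a_iY_e0 (S : G0 m n (Rg m n)) (j : Fin m) (q : Fin n) (f : Rg m n) :
    iY S j q (e0 m n (Rg m n) f) = 0 := by
  simp [iY, LinearMap.sum_apply, G19_ann0, h04a_co_e0]

theorem h04a_polA (i j : Fin m) (f : Rg m n) : polA i j f = ∑ l : Fin n, X (i, l) * pderiv (j, l) f := by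
  simp [polA, LinearMap.sum_apply, mulX, dX]

theorem h04a_polB (l q : Fin n) (f : Rg m n) : polB l q f = ∑ i : Fin m, X (i, l) * pderiv (i, q) f := by
  simp [polB, LinearMap.sum_apply, mulX, dX]

theorem h04a_comm (a b : Fin m × Fin n) (f : Rg m n) : pderiv a (pderiv b f) = pderiv b (pderiv a f) := by
  have h : ⁅(pderiv a : Derivation ℂ (Rg m n) (Rg m n)), (pderiv b : Derivation ℂ (Rg m n) (Rg m n))⁆ = 0 := by
    apply MvPolynomial.derivation_ext
    intro c
    rw [Derivation.commutator_apply, Derivation.zero_apply, pderiv_X, pderiv_X]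
    by_cases h1 : c = a <;> by_cases h2 : c = b <;> simp [h1, h2, Pi.single_apply] <;> split_ifs <;> simp
  have h2 := congrArg (fun D : Derivation ℂ (Rg m n) (Rg m n) => D f) h
  simp only [Derivation.commutator_apply, Derivation.zero_apply] at h2
  exact sub_eq_zero.1 h2

theorem h04a_lei (a b : Fin m × Fin n) (g : Rg m n) :
    pderiv a (X b * g) = X b * pderiv a g + if a = b then g else 0 := by
  rw [Derivation.leibniz, smul_eq_mul, smul_eq_mul, pderiv_X]
  by_cases h : a = b
  · subst h; simp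
  · rw [if_neg h, Pi.single_eq_of_ne (Ne.symm h), mul_zero]

theorem h04a_dA (a : Fin m × Fin n) (i j : Fin m) (f : Rg m n) :
    dX a (polA i j f) = polA i j (dX a f) + if a.1 = i then dX (j, a.2) f else 0 := by
  show pderiv a (polA i j f) = polA i j (pderiv a f) + if a.1 = i then pderiv (j, a.2) f else 0
  rw [h04a_polA, h04a_polA, map_sum]
  have h1 : ∀ l : Fin n, pderiv a (X (i, l) * pderiv (j, l) f) =
      X (i, l) * pderiv (j, l) (pderiv a f) + if a = (i, l) then pderiv (j, l) f else 0 := fun l => by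
    rw [h04a_lei, h04a_comm]
  rw [Finset.sum_congr rfl fun l _ => h1 l, Finset.sum_add_distrib]
  congr 1
  obtain ⟨p, q⟩ := a
  by_cases h : p = i
  · subst h
    simp
  · rw [if_neg h]
    exact Finset.sum_eq_zero fun l _ => if_neg fun h' => h (congrArg Prod.fst h')

theorem h04a_dB (a : Fin m × Fin n) (l q : Fin n) (f : Rg m n) :
    dX a (polB l q f) = polB l q (dX a f) + if a.2 = l then dX (a.1, q) f else 0 := by
  show pderiv a (polB l q f) = polB l q (pderiv a f) + if a.2 = l then pderiv (a.1, q) f else 0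
  rw [h04a_polB, h04a_polB, map_sum]
  have h1 : ∀ i : Fin m, pderiv a (X (i, l) * pderiv (i, q) f) =
      X (i, l) * pderiv (i, q) (pderiv a f) + if a = (i, l) then pderiv (i, q) f else 0 := fun i => by
    rw [h04a_lei, h04a_comm]
  rw [Finset.sum_congr rfl fun l _ => h1 l, Finset.sum_add_distrib]
  congr 1
  obtain ⟨p, r⟩ := a
  by_cases h : r = l
  · subst h
    simp
  · rw [if_neg h]
    exact Finset.sum_eq_zero fun i _ => if_neg fun h' => h (congrArg Prod.snd h')

theorem h04a_iA_cre (S : G0 m n (Rg m n)) (i j p : Fin m) (l : Fin n) (v : LM m n (Rg m n)) :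
    iA S i j (creM (p, l) v) = creM (p, l) (iA S i j v) + if j = p then creM (i, l) v else 0 := by
  have h := G19_iax S i j p l v
  rw [sub_eq_iff_eq_add'] at h
  exact h

theorem h04a_iB_cre (S : G0 m n (Rg m n)) (l q : Fin n) (i : Fin m) (p : Fin n) (v : LM m n (Rg m n)) :
    iB S l q (creM (i, p) v) = creM (i, p) (iB S l q v) + if q = p then creM (i, l) v else 0 := by
  have h := G19_ibx S l q i p v
  rw [sub_eq_iff_eq_add'] at h
  exact h

theorem h04a_iY_cre (S : G0 m n (Rg m n)) (i : Fin m) (l : Fin n) (j : Fin m) (q : Fin n) (v : LM m n (Rg m n)) :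
    iY S j q (creM (i, l) v) = -creM (i, l) (iY S j q v) +
      ((if l = q then iA S i j v else 0) - (if i = j then iB S l q v else 0)) := by
  have h := G19_ixy S i l j q v
  rw [← h]
  show iY S j q (creM (i, l) v) = -creM (i, l) (iY S j q v) + (creM (i, l) (iY S j q v) + iY S j q (creM (i, l) v))
  abel

theorem h04a_A (i j : Fin m) (c : LM m n (Rg m n)) :
    h04a_D m n (iA (GR m n) i j c) = iA (GR m n) i j (h04a_D m n c) := by
  let N : Submodule ℂ (LM m n (Rg m n)) :=
    LinearMap.eqLocus (h04a_D m n ∘ₗ iA (GR m n) i j) (iA (GR m n) i j ∘ₗ h04a_D m n)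
  have hN : N = ⊤ := by
    refine G19_span N ?_ ?_
    · intro f
      show h04a_D m n (iA (GR m n) i j (e0 m n (Rg m n) f)) = iA (GR m n) i j (h04a_D m n (e0 m n (Rg m n) f))
      rw [h04a_iA_e0, h04a_D_e0, h04a_D_e0, map_sum]
      show ∑ a, creM a (e0 m n (Rg m n) (dX a (polA i j f))) = _
      have h1 : ∀ a : Fin m × Fin n, iA (GR m n) i j (creM a (e0 m n (Rg m n) (dX a f))) =
          creM a (e0 m n (Rg m n) (polA i j (dX a f))) +
            if j = a.1 then creM (i, a.2) (e0 m n (Rg m n) (dX a f)) else 0 := fun a => by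
        obtain ⟨p, l⟩ := a
        rw [h04a_iA_cre, h04a_iA_e0]
        rfl
      have h2 : ∀ a : Fin m × Fin n, creM a (e0 m n (Rg m n) (dX a (polA i j f))) =
          creM a (e0 m n (Rg m n) (polA i j (dX a f))) +
            if a.1 = i then creM a (e0 m n (Rg m n) (dX (j, a.2) f)) else 0 := fun a => by
        rw [h04a_dA, map_add, map_add]
        by_cases h : a.1 = i
        · rw [if_pos h, if_pos h]
        · rw [if_neg h, if_neg h, map_zero, map_zero]
      rw [Finset.sum_congr rfl fun a _ => h1 a, Finset.sum_congr rfl fun a _ => h2 a, Finset.sum_add_distrib,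
        Finset.sum_add_distrib]
      congr 1
      rw [Fintype.sum_prod_type, Fintype.sum_prod_type]
      simp only
      rw [Finset.sum_comm, Finset.sum_comm (f := fun x y => if j = x then creM (i, y) (e0 m n (Rg m n) (dX (x, y) f)) else 0)]
      refine Finset.sum_congr rfl fun q _ => ?_
      rw [Finset.sum_ite_eq', Finset.sum_ite_eq]
      simp
    · intro a v hv
      obtain ⟨p, l⟩ := a
      have hv' : h04a_D m n (iA (GR m n) i j v) = iA (GR m n) i j (h04a_D m n v) := hv
      show h04a_D m n (iA (GR m n) i j (creM (p, l) v)) = iA (GR m n) i j (h04a_D m n (cre (p, l) v))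
      rw [h04a_iA_cre, map_add, h04a_D_cre]
      show h04a_D m n (cre (p, l) (iA (GR m n) i j v)) + _ = iA (GR m n) i j (creM (p, l) (h04a_D m n v))
      rw [h04a_D_cre, hv', h04a_iA_cre]
      congr 1
      by_cases h : j = p
      · rw [if_pos h, if_pos h]
        exact h04a_D_cre (i, l) v
      · rw [if_neg h, if_neg h, map_zero]
  have : c ∈ N := by rw [hN]; trivial
  exact this

theorem h04a_B (l q : Fin n) (c : LM m n (Rg m n)) :
    h04a_D m n (iB (GR m n) l q c) = iB (GR m n) l q (h04a_D m n c) := by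
  let N : Submodule ℂ (LM m n (Rg m n)) :=
    LinearMap.eqLocus (h04a_D m n ∘ₗ iB (GR m n) l q) (iB (GR m n) l q ∘ₗ h04a_D m n)
  have hN : N = ⊤ := by
    refine G19_span N ?_ ?_
    · intro f
      show h04a_D m n (iB (GR m n) l q (e0 m n (Rg m n) f)) = iB (GR m n) l q (h04a_D m n (e0 m n (Rg m n) f))
      rw [h04a_iB_e0, h04a_D_e0, h04a_D_e0, map_sum]
      show ∑ a, creM a (e0 m n (Rg m n) (dX a (polB l q f))) = _
      have h1 : ∀ a : Fin m × Fin n, iB (GR m n) l q (creM a (e0 m n (Rg m n) (dX a f))) =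
          creM a (e0 m n (Rg m n) (polB l q (dX a f))) +
            if q = a.2 then creM (a.1, l) (e0 m n (Rg m n) (dX a f)) else 0 := fun a => by
        obtain ⟨p, r⟩ := a
        rw [h04a_iB_cre, h04a_iB_e0]
        rfl
      have h2 : ∀ a : Fin m × Fin n, creM a (e0 m n (Rg m n) (dX a (polB l q f))) =
          creM a (e0 m n (Rg m n) (polB l q (dX a f))) +
            if a.2 = l then creM a (e0 m n (Rg m n) (dX (a.1, q) f)) else 0 := fun a => by
        rw [h04a_dB, map_add, map_add]
        by_cases h : a.2 = l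
        · rw [if_pos h, if_pos h]
        · rw [if_neg h, if_neg h, map_zero, map_zero]
      rw [Finset.sum_congr rfl fun a _ => h1 a, Finset.sum_congr rfl fun a _ => h2 a, Finset.sum_add_distrib,
        Finset.sum_add_distrib]
      congr 1
      rw [Fintype.sum_prod_type, Fintype.sum_prod_type]
      refine Finset.sum_congr rfl fun i _ => ?_
      simp only
      rw [Finset.sum_ite_eq', Finset.sum_ite_eq]
      simp
    · intro a v hv
      obtain ⟨p, r⟩ := a
      have hv' : h04a_D m n (iB (GR m n) l q v) = iB (GR m n) l q (h04a_D m n v) := hv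
      show h04a_D m n (iB (GR m n) l q (creM (p, r) v)) = iB (GR m n) l q (h04a_D m n (cre (p, r) v))
      rw [h04a_iB_cre, map_add, h04a_D_cre]
      show h04a_D m n (cre (p, r) (iB (GR m n) l q v)) + _ = iB (GR m n) l q (creM (p, r) (h04a_D m n v))
      rw [h04a_D_cre, hv', h04a_iB_cre]
      congr 1
      by_cases h : q = r
      · rw [if_pos h, if_pos h]
        exact h04a_D_cre (p, l) v
      · rw [if_neg h, if_neg h, map_zero]
  have : c ∈ N := by rw [hN]; trivial
  exact this

theorem h04a_Y (j : Fin m) (q : Fin n) (c : LM m n (Rg m n)) :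
    h04a_D m n (iY (GR m n) j q c) = iY (GR m n) j q (h04a_D m n c) := by
  let N : Submodule ℂ (LM m n (Rg m n)) :=
    LinearMap.eqLocus (h04a_D m n ∘ₗ iY (GR m n) j q) (iY (GR m n) j q ∘ₗ h04a_D m n)
  have hN : N = ⊤ := by
    refine G19_span N ?_ ?_
    · intro f
      show h04a_D m n (iY (GR m n) j q (e0 m n (Rg m n) f)) = iY (GR m n) j q (h04a_D m n (e0 m n (Rg m n) f))
      rw [h04a_iY_e0, map_zero, h04a_D_e0, map_sum]
      symm
      have h1 : ∀ a : Fin m × Fin n, iY (GR m n) j q (creM a (e0 m n (Rg m n) (dX a f))) =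
          e0 m n (Rg m n) ((if a.2 = q then polA a.1 j (dX a f) else 0) -
            (if a.1 = j then polB a.2 q (dX a f) else 0)) := fun a => by
        obtain ⟨p, r⟩ := a
        rw [h04a_iY_cre, h04a_iY_e0, map_zero, neg_zero, zero_add, h04a_iA_e0, h04a_iB_e0, map_sub]
        congr 1
        · by_cases h : r = q
          · rw [if_pos h, if_pos h]; rfl
          · rw [if_neg h, if_neg h, map_zero]
        · by_cases h : p = j
          · rw [if_pos h, if_pos h]; rfl
          · rw [if_neg h, if_neg h, map_zero]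
      rw [Finset.sum_congr rfl fun a _ => h1 a, ← map_sum]
      convert map_zero (e0 m n (Rg m n))
      rw [Finset.sum_sub_distrib, sub_eq_zero, Fintype.sum_prod_type, Fintype.sum_prod_type]
      simp only
      have e1 : ∀ i : Fin m, ∑ y : Fin n, (if y = q then polA i j (dX (i, y) f) else 0) =
          ∑ l : Fin n, X (i, l) * pderiv (j, l) (pderiv (i, q) f) := fun i => by
        rw [Finset.sum_ite_eq']
        simp only [Finset.mem_univ, if_true]
        exact h04a_polA _ _ _
      rw [Finset.sum_congr rfl fun i _ => e1 i, Finset.sum_comm]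
      rw [Finset.sum_comm (f := fun x y => if x = j then polB y q (dX (x, y) f) else 0)]
      refine Finset.sum_congr rfl fun l _ => ?_
      rw [Finset.sum_ite_eq']
      simp only [Finset.mem_univ, if_true]
      refine Eq.trans ?_ (h04a_polB _ _ _).symm
      refine Finset.sum_congr rfl fun i _ => ?_
      rw [h04a_comm]
      rfl
    · intro a v hv
      obtain ⟨p, r⟩ := a
      have hv' : h04a_D m n (iY (GR m n) j q v) = iY (GR m n) j q (h04a_D m n v) := hv
      show h04a_D m n (iY (GR m n) j q (creM (p, r) v)) = iY (GR m n) j q (h04a_D m n (cre (p, r) v))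
      rw [h04a_iY_cre, map_add, map_neg, h04a_D_cre]
      show -(h04a_D m n (cre (p, r) (iY (GR m n) j q v))) + _ = iY (GR m n) j q (creM (p, r) (h04a_D m n v))
      rw [h04a_D_cre, hv', h04a_iY_cre, map_sub]
      congr 1
      congr 1
      · by_cases h : r = q
        · rw [if_pos h, if_pos h, h04a_A]
        · rw [if_neg h, if_neg h, map_zero]
      · by_cases h : p = j
        · rw [if_pos h, if_pos h, h04a_B]
        · rw [if_neg h, if_neg h, map_zero]
  have : c ∈ N := by rw [hN]; trivial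
  exact this

theorem H04_dR : GHom (GR m n).ind (GR m n).ind (deRham ∘ₗ tw : Kz m n →ₗ[ℂ] Kz m n) :=
  ⟨h04a_A, h04a_B, h04a_D_iX (GR m n), h04a_Y⟩

end H95H
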