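import Pool.Agent.Lib.H95H.H02d
import Pool.Agent.Lib.H95H.H03a
import Pool.Agent.Lib.H95H.H04a

namespace H95H

open MvPolynomial

variable {m n k : ℕ}

/-!
# Chunk H04: the de Rham differential is a homomorphism

* `H04_dR`: `D = deRham ∘ tw`. (i) `D (cre a c) = cre a (D c)`: `tw (cre a c) = - cre a (tw c)` and
  `deRham (cre a c) = - cre a (deRham c)` (`C01_cc`, `C01_cocre`). (ii) `D` commutes with `iA i j` and
  `iB l q`, and with `iY`: by `G19_span` it is enough to check this on `e0 f` (the set of `c` with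
  `D (iA c) = iA (D c)` is stable under `cre` by (i) and `G19_iax`; the same for `iY` with `G19_ixy`, once
  `iA`, `iB` are done). `D (e0 f) = ∑_a cre a (e0 (∂_a f))`. `iA i j (D (e0 f)) =
  ∑_a ([iA i j, cre a] e0 (∂_a f) + cre a (e0 (polA i j (∂_a f))))
  = ∑_l cre (i,l) e0 (∂_{jl} f) + ∑_a cre a (e0 (polA i j ∂_a f))` and
  `∂_a (polA i j f) = polA i j (∂_a f) + δ_{a.1 = i} ∂_{(j, a.2)} f`: equal to
  `D (e0 (polA i j f))`. The same for `iB`. `iY j q (D (e0 f)) = ∑_{i,l} (δ_{lq} iA i j - δ_{ij} iB l q)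
  (e0 (∂_{il} f)) = e0 (∑_i polA i j (∂_{iq} f) - ∑_l polB l q (∂_{jl} f)) = 0`, as both sums are
  `∑_{i,l} X_{il} ∂_{jl} ∂_{iq} f`; and `iY j q (e0 f) = 0`.
* `H04_pr`: `co (prV κ)` commutes with `cre`, `ann` and with `coM (polA ..)`, `coM (polB ..)` (`H02_pr`).
* `H04_PM`: composition.
* `H04_ne`: let `κ = κ₁ + e_r`, both antitone. Let `w i = det (minor of the first r + 1 rows without row
  i, first r columns) * (product of the powers lead_s ^ (e s))` where `e` is the minimum of the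
  exponents of `hw κ` and `hw κ₁`. Expanding `lead r` along its last column
  (`Matrix.det_succ_column`, column `Fin.last r`): `hw κ = ∑_{i ≤ r} ± X_{(i, r)} * w i`
  (`hw κ = lead r * ∏ lead_s ^ (e s)`). The column weight of `w i` is `κ₁` and `w i` is killed by
  `polB l q`, `l < q` (`polB` is a derivation, `H01_mulB`, and it kills every minor on an initial set of
  columns: it replaces column `q` by column `l < q`, two equal columns). So `w i ∈ V κ₁`
  (`H02_ru`). As `fis (hw κ) (hw κ) ≠ 0` there is `i` with `fis (X_{ir} * w i) (hw κ) ≠ 0`, i.e.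
  `fis (w i) (∂_{ir} (hw κ)) ≠ 0` (`A08_X`), so `prV κ₁ (∂_{ir} (hw κ)) ≠ 0`, which is up to sign the
  value at `{(i, r)}` of the image of `e0 (hw κ)`.
* `H04_low`: the range of `PM κ κ₁` is a nontrivial quotient of `KK κ` (`G16_quot`, `H03_kac`): apply
  `G16_quot` to the map `KV κ → range`.
-/

theorem h04b_cre (κ : Fin n → ℕ) (a : Fin (n + k) × Fin n) (c : Kz (n + k) n) :
    co (prV (k := k) κ) (creM a c) = creM a (co (prV κ) c) := C01_cocre (prV κ) a c

theorem h04b_ann (κ : Fin n → ℕ) (a : Fin (n + k) × Fin n) (c : Kz (n + k) n) :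
    co (prV (k := k) κ) (annM a c) = annM a (co (prV κ) c) := C01_coann (prV κ) a c

theorem h04b_A (κ : Fin n → ℕ) (i j : Fin (n + k)) (c : Kz (n + k) n) :
    co (prV (k := k) κ) (coM ((GR (n + k) n).a i j) c) = coM ((GR (n + k) n).a i j) (co (prV κ) c) := by
  funext T
  exact (H02_pr κ (c T)).1 i j

theorem h04b_B (κ : Fin n → ℕ) (l q : Fin n) (c : Kz (n + k) n) :
    co (prV (k := k) κ) (coM ((GR (n + k) n).b l q) c) = coM ((GR (n + k) n).b l q) (co (prV κ) c) := by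
  funext T
  exact (H02_pr κ (c T)).2 l q

theorem H04_pr (κ : Fin n → ℕ) :
    GHom (GR (n + k) n).ind (GR (n + k) n).ind (co (prV (k := k) κ)) := by
  refine ⟨fun i j v => ?_, fun l q v => ?_, fun i l v => ?_, fun j q v => ?_⟩
  · show co (prV (k := k) κ) (iA (GR (n + k) n) i j v) = iA (GR (n + k) n) i j (co (prV (k := k) κ) v)
    simp only [iA, LinearMap.add_apply, LinearMap.sum_apply, LinearMap.comp_apply, map_add, map_sum,
      h04b_A, h04b_cre, h04b_ann]
  · show co (prV (k := k) κ) (iB (GR (n + k) n) l q v) = iB (GR (n + k) n) l q (co (prV (k := k) κ) v)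
    simp only [iB, LinearMap.add_apply, LinearMap.sum_apply, LinearMap.comp_apply, map_add, map_sum,
      h04b_B, h04b_cre, h04b_ann]
  · exact h04b_cre κ (i, l) v
  · show co (prV (k := k) κ) (iY (GR (n + k) n) j q v) = iY (GR (n + k) n) j q (co (prV (k := k) κ) v)
    simp only [iY, LinearMap.add_apply, LinearMap.sub_apply, LinearMap.sum_apply,
      LinearMap.comp_apply, map_add, map_sub, map_sum, h04b_A, h04b_B, h04b_cre, h04b_ann]

theorem H04_mem (κ₁ : Fin n → ℕ) (c : Kz (n + k) n) : co (prV (k := k) κ₁) c ∈ KV (k := k) κ₁ :=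
  fun T => prV_mem κ₁ (c T)

/-- the map `Λ ⊗ V κ → Λ ⊗ V κ₁` induced by the de Rham differential -/
noncomputable def PM (k : ℕ) (κ κ₁ : Fin n → ℕ) : ↥(KV (k := k) κ) →ₗ[ℂ] ↥(KV (k := k) κ₁) :=
  LinearMap.codRestrict (KV κ₁) (co (prV (k := k) κ₁) ∘ₗ deRham ∘ₗ tw ∘ₗ (KV κ).subtype)
    (fun c => H04_mem κ₁ _)

theorem H04_PM (κ κ₁ : Fin n → ℕ) : GHom (KK k κ) (KK k κ₁) (PM k κ κ₁) := by
  have h1 := H04_pr (k := k) κ₁
  have h2 := H04_dR (m := n + k) (n := n)
  refine ⟨fun i j v => ?_, fun l q v => ?_, fun i l v => ?_, fun j q v => ?_⟩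
  · apply Subtype.ext
    show co (prV (k := k) κ₁) ((deRham ∘ₗ tw) ((GR (n + k) n).ind.a i j v)) =
      (GR (n + k) n).ind.a i j (co (prV (k := k) κ₁) ((deRham ∘ₗ tw) v))
    rw [h2.1, h1.1]
  · apply Subtype.ext
    show co (prV (k := k) κ₁) ((deRham ∘ₗ tw) ((GR (n + k) n).ind.b l q v)) =
      (GR (n + k) n).ind.b l q (co (prV (k := k) κ₁) ((deRham ∘ₗ tw) v))
    rw [h2.2.1, h1.2.1]
  · apply Subtype.ext
    show co (prV (k := k) κ₁) ((deRham ∘ₗ tw) ((GR (n + k) n).ind.x i l v)) =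
      (GR (n + k) n).ind.x i l (co (prV (k := k) κ₁) ((deRham ∘ₗ tw) v))
    rw [h2.2.2.1, h1.2.2.1]
  · apply Subtype.ext
    show co (prV (k := k) κ₁) ((deRham ∘ₗ tw) ((GR (n + k) n).ind.y j q v)) =
      (GR (n + k) n).ind.y j q (co (prV (k := k) κ₁) ((deRham ∘ₗ tw) v))
    rw [h2.2.2.2, h1.2.2.2]

end H95H
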