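import Pool.Agent.Lib.H95H.H02e
import Pool.Agent.Lib.H95H.H04b

namespace H95H

open MvPolynomial

variable {m n k : ℕ}

/-!
# Chunk H04: the de Rham differential is a homomorphism

* `H04_dR`: `D = deRham ∘ tw`. (i) `D (cre a c) = cre a (D c)`: `tw (cre a c) = - cre a (tw c)` and
  `deRham (cre a c) = - cre a (deRham c)` (`C01_cc`, `C01_cocre`). (ii) `D` commutes with `iA i j` and
  `iB l q`, and with `iY`: by `G19_span` it is enough to check this on `e0 f` (the set of `c` with
  `D (iA c) = iA (D c)` is stable under `cre` by (i) and `G19_iax`; the same for `iY` with `G19_ixy`, once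
  `iA`, `iB` are done). `D (e0 f) = ∑_a cre a (e0 (∂_a f))`. `iA i j (D (e0 f)) =
  ∑_a ([iA i j, cre a] e0 (∂_a f) + cre a (e0 (polA i j (∂_a f))))
  = ∑_l cre (i,l) e0 (∂_{jl} f) + ∑_a cre a (e0 (polA i j ∂_a f))` and
  `∂_a (polA i j f) = polA i j (∂_a f) + δ_{a.1 = i} ∂_{(j, a.2)} f`: equal to
  `D (e0 (polA i j f))`. The same for `iB`. `iY j q (D (e0 f)) = ∑_{i,l} (δ_{lq} iA i j - δ_{ij} iB l q)
  (e0 (∂_{il} f)) = e0 (∑_i polA i j (∂_{iq} f) - ∑_l polB l q (∂_{jl} f)) = 0`, as both sums are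
  `∑_{i,l} X_{il} ∂_{jl} ∂_{iq} f`; and `iY j q (e0 f) = 0`.
* `H04_pr`: `co (prV κ)` commutes with `cre`, `ann` and with `coM (polA ..)`, `coM (polB ..)` (`H02_pr`).
* `H04_PM`: composition.
* `H04_ne`: let `κ = κ₁ + e_r`, both antitone. Let `w i = det (minor of the first r + 1 rows without row
  i, first r columns) * (product of the powers lead_s ^ (e s))` where `e` is the minimum of the
  exponents of `hw κ` and `hw κ₁`. Expanding `lead r` along its last column
  (`Matrix.det_succ_column`, column `Fin.last r`): `hw κ = ∑_{i ≤ r} ± X_{(i, r)} * w i`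
  (`hw κ = lead r * ∏ lead_s ^ (e s)`). The column weight of `w i` is `κ₁` and `w i` is killed by
  `polB l q`, `l < q` (`polB` is a derivation, `H01_mulB`, and it kills every minor on an initial set of
  columns: it replaces column `q` by column `l < q`, two equal columns). So `w i ∈ V κ₁`
  (`H02_ru`). As `fis (hw κ) (hw κ) ≠ 0` there is `i` with `fis (X_{ir} * w i) (hw κ) ≠ 0`, i.e.
  `fis (w i) (∂_{ir} (hw κ)) ≠ 0` (`A08_X`), so `prV κ₁ (∂_{ir} (hw κ)) ≠ 0`, which is up to sign the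
  value at `{(i, r)}` of the image of `e0 (hw κ)`.
* `H04_low`: the range of `PM κ κ₁` is a nontrivial quotient of `KK κ` (`G16_quot`, `H03_kac`): apply
  `G16_quot` to the map `KV κ → range`.
-/

theorem h04c_prod {ι : Type*} [DecidableEq ι] (D : Rg m n →ₗ[ℂ] Rg m n)
    (hD : ∀ f g, D (f * g) = D f * g + f * D g) (s : Finset ι) (f : ι → Rg m n) :
    D (∏ i ∈ s, f i) = ∑ i ∈ s, D (f i) * ∏ j ∈ s.erase i, f j := by
  have hD1 : D 1 = 0 := by
    have h := hD 1 1
    rw [mul_one, mul_one, one_mul] at h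
    exact left_eq_add.1 h
  induction s using Finset.induction_on with
  | empty => rw [Finset.prod_empty, Finset.sum_empty, hD1]
  | insert a s ha ih =>
    rw [Finset.prod_insert ha, hD, ih, Finset.sum_insert ha, Finset.erase_insert ha, Finset.mul_sum]
    congr 1
    refine Finset.sum_congr rfl fun i hi => ?_
    have hia : i ≠ a := fun h => ha (h ▸ hi)
    rw [Finset.erase_insert_of_ne (Ne.symm hia), Finset.prod_insert
      (fun h => ha (Finset.mem_of_mem_erase h))]
    ring

theorem h04c_det (D : Rg m n →ₗ[ℂ] Rg m n) (hD : ∀ f g, D (f * g) = D f * g + f * D g) (t : ℕ)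
    (M : Matrix (Fin t) (Fin t) (Rg m n)) :
    D M.det = ∑ b : Fin t, (M.updateCol b (fun a => D (M a b))).det := by
  rw [Matrix.det_apply, map_sum]
  have h1 : ∀ b : Fin t, (M.updateCol b (fun a => D (M a b))).det =
      ∑ σ : Equiv.Perm (Fin t), Equiv.Perm.sign σ •
        (D (M (σ b) b) * ∏ b' ∈ Finset.univ.erase b, M (σ b') b') := by
    intro b
    rw [Matrix.det_apply]
    refine Finset.sum_congr rfl fun σ _ => ?_
    congr 1
    rw [← Finset.mul_prod_erase Finset.univ _ (Finset.mem_univ b), Matrix.updateCol_self]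
    congr 1
    refine Finset.prod_congr rfl fun b' hb' => ?_
    rw [Matrix.updateCol_ne (Finset.ne_of_mem_erase hb')]
  rw [Finset.sum_congr rfl fun b _ => h1 b, Finset.sum_comm]
  refine Finset.sum_congr rfl fun σ _ => ?_
  rw [← Finset.smul_sum]
  have h2 : ∀ x : Rg m n, D (Equiv.Perm.sign σ • x) = Equiv.Perm.sign σ • D x := by
    intro x
    rcases Int.units_eq_one_or (Equiv.Perm.sign σ) with h | h
    · rw [h, one_smul, one_smul]
    · rw [h, Units.neg_smul, one_smul, Units.neg_smul, one_smul, map_neg]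
  rw [h2, h04c_prod D hD]

/-- a minor on the first `t` columns -/
noncomputable def h04c_mn (m n t : ℕ) (ht : t ≤ n) (ρ : Fin t → Fin m) :
    Matrix (Fin t) (Fin t) (Rg m n) := Matrix.of fun a b => X (ρ a, Fin.castLE ht b)

theorem h04c_mn1 (t : ℕ) (ht : t ≤ n) (ρ : Fin t → Fin m) (l q : Fin n) (hlq : l < q) :
    polB l q (h04c_mn m n t ht ρ).det = 0 := by
  rw [h04c_det _ (H01_mulB l q)]
  refine Finset.sum_eq_zero fun b _ => ?_
  have e : ∀ a, polB l q (h04c_mn m n t ht ρ a b) =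
      if Fin.castLE ht b = q then X (ρ a, l) else 0 := fun a => h01c_polBX l q (ρ a, Fin.castLE ht b)
  by_cases hb : Fin.castLE ht b = q
  · have hl : l.1 < t := by
      have h1 : l.1 < q.1 := hlq
      have h2 : b.1 = q.1 := congrArg Fin.val hb
      have := b.2
      omega
    have hne : b ≠ ⟨l.1, hl⟩ := by
      intro h
      have h1 : l.1 < q.1 := hlq
      have h2 : b.1 = q.1 := congrArg Fin.val hb
      have h3 : b.1 = l.1 := congrArg Fin.val h
      omega
    refine Matrix.det_zero_of_column_eq hne fun a => ?_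
    rw [Matrix.updateCol_self, Matrix.updateCol_ne (Ne.symm hne), e, if_pos hb]
    rfl
  · refine Matrix.det_eq_zero_of_column_eq_zero b fun a => ?_
    rw [Matrix.updateCol_self, e, if_neg hb]

theorem h04c_mn2 (t : ℕ) (ht : t ≤ n) (ρ : Fin t → Fin m) (l : Fin n) :
    polB l l (h04c_mn m n t ht ρ).det =
      (if l.1 < t then (1 : ℂ) else 0) • (h04c_mn m n t ht ρ).det := by
  rw [h04c_det _ (H01_mulB l l)]
  have e : ∀ a b, polB l l (h04c_mn m n t ht ρ a b) =
      if Fin.castLE ht b = l then X (ρ a, l) else 0 := fun a b => h01c_polBX l l (ρ a, Fin.castLE ht b)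
  have h0 : ∀ b : Fin t, Fin.castLE ht b ≠ l → ((h04c_mn m n t ht ρ).updateCol b
      (fun a => polB l l (h04c_mn m n t ht ρ a b))).det = 0 := by
    intro b hb
    refine Matrix.det_eq_zero_of_column_eq_zero b fun a => ?_
    rw [Matrix.updateCol_self, e, if_neg hb]
  by_cases hl : l.1 < t
  · rw [if_pos hl, one_smul, Finset.sum_eq_single (⟨l.1, hl⟩ : Fin t)]
    · congr 1
      ext1 a b
      by_cases hb : b = ⟨l.1, hl⟩
      · rw [hb, Matrix.updateCol_self, e]
        have h1 : Fin.castLE ht ⟨l.1, hl⟩ = l := Fin.ext rfl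
        show (if Fin.castLE ht ⟨l.1, hl⟩ = l then X (ρ a, l) else 0) =
          (X (ρ a, Fin.castLE ht ⟨l.1, hl⟩) : Rg m n)
        rw [h1]
        exact if_pos rfl
      · rw [Matrix.updateCol_ne hb]
    · intro b _ hb
      refine h0 b fun h => hb (Fin.ext ?_)
      have h2 : b.1 = l.1 := congrArg Fin.val h
      exact h2
    · intro h
      exact absurd (Finset.mem_univ _) h
  · rw [if_neg hl, zero_smul]
    refine Finset.sum_eq_zero fun b _ => h0 b fun h => hl ?_
    have h2 : b.1 = l.1 := congrArg Fin.val h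
    rw [← h2]
    exact b.2

theorem h04c_lead (s : Fin n) : lead (k := k) s =
    (h04c_mn (n + k) n (s.1 + 1) s.2 (fun a => Fin.castAdd k (Fin.castLE s.2 a))).det := rfl

theorem h04c_lead1 (s l q : Fin n) (hlq : l < q) : polB l q (lead (k := k) s) = 0 := by
  rw [h04c_lead]
  exact h04c_mn1 _ _ _ l q hlq

theorem h04c_lead2 (s l : Fin n) :
    polB l l (lead (k := k) s) = (if l ≤ s then (1 : ℂ) else 0) • lead (k := k) s := by
  rw [h04c_lead, h04c_mn2]
  congr 1
  by_cases h : l ≤ s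
  · rw [if_pos h, if_pos (Nat.lt_succ_of_le h)]
  · rw [if_neg h, if_neg (fun h' => h (Nat.le_of_lt_succ h'))]

theorem h04c_mul (D : Rg m n →ₗ[ℂ] Rg m n) (hD : ∀ f g, D (f * g) = D f * g + f * D g)
    (f g : Rg m n) (x y : ℂ) (hf : D f = x • f) (hg : D g = y • g) : D (f * g) = (x + y) • (f * g) := by
  rw [hD, hf, hg, add_smul, smul_mul_assoc, mul_smul_comm]

theorem h04c_eig (D : Rg m n →ₗ[ℂ] Rg m n) (hD : ∀ f g, D (f * g) = D f * g + f * D g)
    {ι : Type*} [DecidableEq ι] (s : Finset ι) (f : ι → Rg m n) (x : ι → ℂ) (e : ι → ℕ)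
    (hf : ∀ i, D (f i) = x i • f i) :
    D (∏ i ∈ s, f i ^ e i) = (∑ i ∈ s, (e i : ℂ) * x i) • ∏ i ∈ s, f i ^ e i := by
  have hD1 : D 1 = (0 : ℂ) • 1 := by
    have h := hD 1 1
    rw [mul_one, mul_one, one_mul] at h
    rw [zero_smul]
    exact left_eq_add.1 h
  have hp : ∀ i (t : ℕ), D (f i ^ t) = ((t : ℂ) * x i) • f i ^ t := by
    intro i t
    induction t with
    | zero => rw [pow_zero, hD1, Nat.cast_zero, zero_mul]
    | succ t ih =>
      rw [pow_succ, h04c_mul D hD _ _ _ _ ih (hf i)]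
      congr 1
      push_cast
      ring
  induction s using Finset.induction_on with
  | empty => rw [Finset.prod_empty, Finset.sum_empty, hD1]
  | insert a s ha ih =>
    rw [Finset.prod_insert ha, Finset.sum_insert ha, h04c_mul D hD _ _ _ _ (hp a _) ih]

/-- the common factor -/
noncomputable def h04c_P (k : ℕ) (κ₁ : Fin n → ℕ) (r : Fin n) : Rg (n + k) n :=
  ∏ s : Fin n, lead (k := k) s ^ (if s = r then κ₁ r - nxt κ₁ r else
    (κ₁ + Pi.single r 1 : Fin n → ℕ) s - nxt (κ₁ + Pi.single r 1) s)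

theorem h04c_hw (κ₁ : Fin n → ℕ) (r : Fin n) (h₁ : Antitone κ₁) :
    hw (k := k) (κ₁ + Pi.single r 1) = lead r * h04c_P k κ₁ r := by
  have h1 : lead (k := k) r = ∏ s : Fin n, (if s = r then lead (k := k) s else 1) := by
    rw [Finset.prod_ite_eq' Finset.univ r, if_pos (Finset.mem_univ r)]
  rw [h1, h04c_P, hw, ← Finset.prod_mul_distrib]
  refine Finset.prod_congr rfl fun s _ => ?_
  by_cases hs : s = r
  · subst hs
    rw [if_pos rfl, if_pos rfl, ← pow_succ']
    congr 1
    have h2 : nxt (κ₁ + Pi.single s 1) s = nxt κ₁ s := by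
      unfold nxt
      split_ifs with h
      · have h3 : (⟨s.1 + 1, h⟩ : Fin n) ≠ s := fun h' => by
          have := congrArg Fin.val h'
          simp at this
        rw [Pi.add_apply, Pi.single_eq_of_ne h3, add_zero]
      · rfl
    have h4 : nxt κ₁ s ≤ κ₁ s := by
      unfold nxt
      split_ifs with h
      · exact h₁ (by show s.1 ≤ s.1 + 1; omega)
      · exact Nat.zero_le _
    rw [h2, Pi.add_apply, Pi.single_eq_same]
    omega
  · rw [if_neg hs, if_neg hs, one_mul]

theorem h04c_P1 (κ₁ : Fin n → ℕ) (r l q : Fin n) (hlq : l < q) :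
    polB l q (h04c_P k κ₁ r) = 0 := by
  rw [h04c_P, h04c_eig _ (H01_mulB l q) Finset.univ (fun s => lead (k := k) s) (fun _ => 0) _
    (fun s => by rw [zero_smul]; exact h04c_lead1 s l q hlq)]
  simp

theorem h04c_P2 (κ₁ : Fin n → ℕ) (r l : Fin n) (h₁ : Antitone κ₁)
    (h₂ : Antitone (κ₁ + Pi.single r 1)) :
    polB l l (h04c_P k κ₁ r) =
      (((κ₁ + Pi.single r 1 : Fin n → ℕ) l : ℂ) - (if l ≤ r then (1 : ℂ) else 0)) • h04c_P k κ₁ r := by
  obtain ⟨x, hx⟩ : ∃ x : ℂ, polB l l (h04c_P k κ₁ r) = x • h04c_P k κ₁ r :=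
    ⟨_, h04c_eig _ (H01_mulB l l) Finset.univ (fun s => lead (k := k) s)
      (fun s => if l ≤ s then (1 : ℂ) else 0) _ (fun s => h04c_lead2 s l)⟩
  have h3 := h04c_mul _ (H01_mulB l l) _ _ _ _ (h04c_lead2 (k := k) r l) hx
  rw [← h04c_hw κ₁ r h₁] at h3
  have h4 : polB l l (hw (k := k) (κ₁ + Pi.single r 1)) =
      (((nz (κ₁ + Pi.single r 1) l : ℤ) : ℂ)) • hw (k := k) (κ₁ + Pi.single r 1) :=
    (H01_hw (k := k) (κ₁ + Pi.single r 1) h₂).1.2 l
  rw [h3] at h4
  have h5 := smul_left_injective ℂ (A05_hw_ne (k := k) (κ₁ + Pi.single r 1)) h4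
  rw [hx]
  congr 1
  have h6 : ((nz (κ₁ + Pi.single r 1) l : ℤ) : ℂ) = (((κ₁ + Pi.single r 1 : Fin n → ℕ) l : ℕ) : ℂ) := by
    simp [nz]
  rw [h6] at h5
  rw [← h5]
  ring

theorem h04c_w (κ₁ : Fin n → ℕ) (r : Fin n) (h₁ : Antitone κ₁)
    (h₂ : Antitone (κ₁ + Pi.single r 1)) (ht : r.1 ≤ n) (ρ : Fin r.1 → Fin (n + k)) :
    (h04c_mn (n + k) n r.1 ht ρ).det * h04c_P k κ₁ r ∈ V (k := k) κ₁ := by
  refine H02_ru κ₁ h₁ _ (fun l q hlq => ?_) fun l => ?_
  · rw [H01_mulB, h04c_mn1 _ _ _ l q hlq, h04c_P1 κ₁ r l q hlq, zero_mul, mul_zero, add_zero]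
  · rw [h04c_mul _ (H01_mulB l l) _ _ _ _ (h04c_mn2 _ _ _ l) (h04c_P2 κ₁ r l h₁ h₂)]
    congr 1
    rcases lt_trichotomy l r with h | h | h
    · have h' : l.1 < r.1 := h
      rw [if_pos h', if_pos h.le, Pi.add_apply, Pi.single_eq_of_ne (ne_of_lt h)]
      push_cast
      ring
    · subst h
      rw [if_neg (lt_irrefl _), if_pos le_rfl, Pi.add_apply, Pi.single_eq_same]
      push_cast
      ring
    · have h' : ¬ l.1 < r.1 := not_lt.2 (le_of_lt h)
      rw [if_neg h', if_neg (not_le.2 h), Pi.add_apply, Pi.single_eq_of_ne (ne_of_gt h)]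
      push_cast
      ring

theorem H04_ne (κ₁ : Fin n → ℕ) (r : Fin n) (h₁ : Antitone κ₁) (h₂ : Antitone (κ₁ + Pi.single r 1)) :
    PM k (κ₁ + Pi.single r 1) κ₁ ≠ 0 := by
  intro h0
  set κ := κ₁ + Pi.single r 1 with hκ
  -- all the derivatives of the highest weight polynomial have trivial projection
  have hz : ∀ a : Fin (n + k) × Fin n, prV (k := k) κ₁ (pderiv a (hw (k := k) κ)) = 0 := by
    intro a
    have hm : e0 (n + k) n (Rg (n + k) n) (hw (k := k) κ) ∈ KV (k := k) κ := by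
      intro T
      by_cases hT : T = ∅
      · subst hT
        simpa [e0] using A05_hw_mem (k := k) κ
      · have : e0 (n + k) n (Rg (n + k) n) (hw (k := k) κ) T = 0 := by simp [e0, hT]
        rw [this]
        exact Submodule.zero_mem _
    have h1 := congrArg (fun f : ↥(KV (k := k) κ) →ₗ[ℂ] ↥(KV (k := k) κ₁) =>
      ((f ⟨_, hm⟩ : ↥(KV (k := k) κ₁)) : Kz (n + k) n) {a}) h0
    have h2 : prV (k := k) κ₁ ((h04a_D (n + k) n (e0 (n + k) n (Rg (n + k) n) (hw (k := k) κ))) {a}) = 0 := h1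
    rw [h04a_D_e0, Finset.sum_apply, Finset.sum_eq_single a] at h2
    · have h3 : creM a (e0 (n + k) n (Rg (n + k) n) (dX a (hw (k := k) κ))) {a} =
          pderiv a (hw (k := k) κ) := by
        show (if a ∈ ({a} : Finset _) then sgn a {a} • e0 (n + k) n (Rg (n + k) n)
          (dX a (hw (k := k) κ)) (({a} : Finset _).erase a) else 0) = _
        rw [if_pos (Finset.mem_singleton_self a)]
        have h4 : sgn a ({a} : Finset (Fin (n + k) × Fin n)) = 1 := by
          simp [sgn, Finset.filter_singleton]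
        rw [h4, one_smul, Finset.erase_singleton]
        simp [e0, dX]
      rw [h3] at h2
      exact h2
    · intro b _ hb
      show (if b ∈ ({a} : Finset _) then sgn b {a} • e0 (n + k) n (Rg (n + k) n)
          (dX b (hw (k := k) κ)) (({a} : Finset _).erase b) else 0) = _
      rw [if_neg (fun h => hb (Finset.mem_singleton.1 h))]
    · intro h
      exact absurd (Finset.mem_univ _) h
  -- so the derivatives are orthogonal to V κ₁
  have horth : ∀ (a : Fin (n + k) × Fin n) (g : Rg (n + k) n), g ∈ V (k := k) κ₁ →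
      fis (X a * g) (hw (k := k) κ) = 0 := by
    intro a g hg
    rw [A08_X]
    have h := prV_orth κ₁ (pderiv a (hw (k := k) κ)) g hg
    rwa [hz a, sub_zero] at h
  -- the expansion
  have hpos := (A08_herm (m := n + k) (n := n)).pos (hw (k := k) κ) (A05_hw_ne κ)
  have hexp : fis (hw (k := k) κ) (hw (k := k) κ) = 0 := by
    have h1 : hw (k := k) κ = ∑ i : Fin (r.1 + 1), ((-1 : ℂ) ^ (i.1 + r.1)) •
        (X (Fin.castAdd k (Fin.castLE r.2 i), r) *
          ((h04c_mn (n + k) n r.1 r.2.le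
            (fun a => Fin.castAdd k (Fin.castLE r.2 (i.succAbove a)))).det * h04c_P k κ₁ r)) := by
      rw [hκ, h04c_hw κ₁ r h₁, lead, Matrix.det_succ_column _ (Fin.last r.1), Finset.sum_mul]
      refine Finset.sum_congr rfl fun i _ => ?_
      have h2 : (Matrix.of fun a b : Fin (r.1 + 1) =>
          (X (Fin.castAdd k (Fin.castLE r.2 a), Fin.castLE r.2 b) : Rg (n + k) n)).submatrix
            i.succAbove (Fin.last r.1).succAbove =
          h04c_mn (n + k) n r.1 r.2.le (fun a => Fin.castAdd k (Fin.castLE r.2 (i.succAbove a))) := by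
        ext1 a b
        simp only [Matrix.submatrix_apply, Matrix.of_apply, h04c_mn, Fin.succAbove_last]
        rfl
      rw [h2]
      have h3 : (Matrix.of fun a b : Fin (r.1 + 1) =>
          (X (Fin.castAdd k (Fin.castLE r.2 a), Fin.castLE r.2 b) : Rg (n + k) n)) i (Fin.last r.1) =
          X (Fin.castAdd k (Fin.castLE r.2 i), r) := by
        simp only [Matrix.of_apply]
        congr 1
      rw [h3, Fin.val_last, smul_eq_C_mul, map_pow, map_neg, C_1]
      ring
    have h4 : fis (hw (k := k) κ) (hw (k := k) κ) = fis (∑ i : Fin (r.1 + 1), ((-1 : ℂ) ^ (i.1 + r.1)) •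
        (X (Fin.castAdd k (Fin.castLE r.2 i), r) *
          ((h04c_mn (n + k) n r.1 r.2.le
            (fun a => Fin.castAdd k (Fin.castLE r.2 (i.succAbove a)))).det * h04c_P k κ₁ r)))
          (hw (k := k) κ) := congrArg (fun f => fis f (hw (k := k) κ)) h1
    rw [h4, g05b_sumL A08_herm]
    refine Finset.sum_eq_zero fun i _ => ?_
    rw [(A08_herm (m := n + k) (n := n)).smul, horth _ _ (h04c_w κ₁ r h₁ h₂ _ _), mul_zero]
  rw [hexp, Complex.zero_re] at hpos
  exact lt_irrefl _ hpos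

end H95H
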