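import Pool.Agent.Lib.H95H.G16b
import Pool.Agent.Lib.H95H.H03b
import Pool.Agent.Lib.H95H.H04c

namespace H95H

open MvPolynomial

variable {m n k : ℕ}

/-!
# Chunk H04: the de Rham differential is a homomorphism

* `H04_dR`: `D = deRham ∘ tw`. (i) `D (cre a c) = cre a (D c)`: `tw (cre a c) = - cre a (tw c)` and
  `deRham (cre a c) = - cre a (deRham c)` (`C01_cc`, `C01_cocre`). (ii) `D` commutes with `iA i j` and
  `iB l q`, and with `iY`: by `G19_span` it is enough to check this on `e0 f` (the set of `c` with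
  `D (iA c) = iA (D c)` is stable under `cre` by (i) and `G19_iax`; the same for `iY` with `G19_ixy`, once
  `iA`, `iB` are done). `D (e0 f) = ∑_a cre a (e0 (∂_a f))`. `iA i j (D (e0 f)) =
  ∑_a ([iA i j, cre a] e0 (∂_a f) + cre a (e0 (polA i j (∂_a f))))
  = ∑_l cre (i,l) e0 (∂_{jl} f) + ∑_a cre a (e0 (polA i j ∂_a f))` and
  `∂_a (polA i j f) = polA i j (∂_a f) + δ_{a.1 = i} ∂_{(j, a.2)} f`: equal to
  `D (e0 (polA i j f))`. The same for `iB`. `iY j q (D (e0 f)) = ∑_{i,l} (δ_{lq} iA i j - δ_{ij} iB l q)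
  (e0 (∂_{il} f)) = e0 (∑_i polA i j (∂_{iq} f) - ∑_l polB l q (∂_{jl} f)) = 0`, as both sums are
  `∑_{i,l} X_{il} ∂_{jl} ∂_{iq} f`; and `iY j q (e0 f) = 0`.
* `H04_pr`: `co (prV κ)` commutes with `cre`, `ann` and with `coM (polA ..)`, `coM (polB ..)` (`H02_pr`).
* `H04_PM`: composition.
* `H04_ne`: let `κ = κ₁ + e_r`, both antitone. Let `w i = det (minor of the first r + 1 rows without row
  i, first r columns) * (product of the powers lead_s ^ (e s))` where `e` is the minimum of the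
  exponents of `hw κ` and `hw κ₁`. Expanding `lead r` along its last column
  (`Matrix.det_succ_column`, column `Fin.last r`): `hw κ = ∑_{i ≤ r} ± X_{(i, r)} * w i`
  (`hw κ = lead r * ∏ lead_s ^ (e s)`). The column weight of `w i` is `κ₁` and `w i` is killed by
  `polB l q`, `l < q` (`polB` is a derivation, `H01_mulB`, and it kills every minor on an initial set of
  columns: it replaces column `q` by column `l < q`, two equal columns). So `w i ∈ V κ₁`
  (`H02_ru`). As `fis (hw κ) (hw κ) ≠ 0` there is `i` with `fis (X_{ir} * w i) (hw κ) ≠ 0`, i.e.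
  `fis (w i) (∂_{ir} (hw κ)) ≠ 0` (`A08_X`), so `prV κ₁ (∂_{ir} (hw κ)) ≠ 0`, which is up to sign the
  value at `{(i, r)}` of the image of `e0 (hw κ)`.
* `H04_low`: the range of `PM κ κ₁` is a nontrivial quotient of `KK κ` (`G16_quot`, `H03_kac`): apply
  `G16_quot` to the map `KV κ → range`.
-/

theorem H04_stab (κ κ₁ : Fin n → ℕ) : (KK k κ₁).Stab (LinearMap.range (PM k κ κ₁)) ∧
    (KK k κ).Stab (LinearMap.ker (PM k κ κ₁)) := by
  obtain ⟨ha, hb, hx, hy⟩ := H04_PM (k := k) κ κ₁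
  refine ⟨⟨⟨?_, ?_⟩, ?_, ?_⟩, ⟨⟨?_, ?_⟩, ?_, ?_⟩⟩
  · rintro i j v ⟨u, rfl⟩
    exact ⟨_, ha i j u⟩
  · rintro i j v ⟨u, rfl⟩
    exact ⟨_, hb i j u⟩
  · rintro i j v ⟨u, rfl⟩
    exact ⟨_, hx i j u⟩
  · rintro i j v ⟨u, rfl⟩
    exact ⟨_, hy i j u⟩
  · intro i j v hv
    rw [LinearMap.mem_ker] at hv ⊢
    rw [ha, hv, map_zero]
  · intro i j v hv
    rw [LinearMap.mem_ker] at hv ⊢
    rw [hb, hv, map_zero]
  · intro i j v hv
    rw [LinearMap.mem_ker] at hv ⊢
    rw [hx, hv, map_zero]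
  · intro i j v hv
    rw [LinearMap.mem_ker] at hv ⊢
    rw [hy, hv, map_zero]

theorem H04_low (κ₁ : Fin n → ℕ) (r : Fin n) (h₁ : Antitone κ₁)
    (h₂ : Antitone (κ₁ + Pi.single r 1)) :
    ((KK k κ₁).res (LinearMap.range (PM k (κ₁ + Pi.single r 1) κ₁)) (H04_stab _ _).1).isLow
      (κ₁ + Pi.single r 1) (κ₁ + Pi.single r 1) := by
  obtain ⟨W, hW, -⟩ := H03_kac (k := k) (κ₁ + Pi.single r 1) h₂
  obtain ⟨ha, hb, hx, hy⟩ := H04_PM (k := k) (κ₁ + Pi.single r 1) κ₁
  refine ⟨W.map (PM k (κ₁ + Pi.single r 1) κ₁).rangeRestrict,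
    G16_quot (KK k (κ₁ + Pi.single r 1))
      ((KK k κ₁).res (LinearMap.range (PM k (κ₁ + Pi.single r 1) κ₁)) (H04_stab _ _).1)
      (PM k (κ₁ + Pi.single r 1) κ₁).rangeRestrict
      ?_ (LinearMap.surjective_rangeRestrict _) ?_ _ _ W hW⟩
  · refine ⟨fun i j v => Subtype.ext (ha i j v), fun i j v => Subtype.ext (hb i j v),
      fun i j v => Subtype.ext (hx i j v), fun i j v => Subtype.ext (hy i j v)⟩
  · have h := H04_ne (k := k) κ₁ r h₁ h₂
    by_contra hc
    apply h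
    ext v : 1
    have hs : Subsingleton ↥(LinearMap.range (PM k (κ₁ + Pi.single r 1) κ₁)) :=
      not_nontrivial_iff_subsingleton.1 hc
    have := congrArg Subtype.val (hs.elim ((PM k (κ₁ + Pi.single r 1) κ₁).rangeRestrict v) 0)
    exact this

end H95H
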