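import Pool.Agent.Lib.H95H.A08a

namespace H95H

/-- A finite-dimensional hermitian complex with labels `κ ∈ ℤ^n`, with `P = d^*`, `dP + Pd` scalar,
and such that `d` raises the label by some unit vector. -/
structure LHC (n : ℕ) (H : Type*) [AddCommGroup H] [Module ℂ H] where
  h : H → H → ℂ
  herm : Herm h
  d : H →ₗ[ℂ] H
  P : H →ₗ[ℂ] H
  adj : ∀ x y, h (d x) y = h x (P y)
  pr : (Fin n → ℤ) → H →ₗ[ℂ] H
  L : Finset (Fin n → ℤ)
  pr_adj : ∀ κ x y, h (pr κ x) y = h x (pr κ y)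
  pr_idem : ∀ κ x, pr κ (pr κ x) = pr κ x
  pr_orth : ∀ κ κ', κ ≠ κ' → ∀ x, pr κ (pr κ' x) = 0
  pr_L : ∀ κ, κ ∉ L → ∀ x, pr κ x = 0
  pr_sum : ∀ x, ∑ κ ∈ L, pr κ x = x
  D : ℂ
  dd : ∀ x, d (d x) = 0
  PP : ∀ x, P (P x) = 0
  dP : ∀ x, d (P x) + P (d x) = D • x
  pieri : ∀ κ κ' x, pr κ' (d (pr κ x)) ≠ 0 → ∃ r : Fin n, κ' = κ + Pi.single r 1

/-- Cube systems: labelled spaces with `n` anticommuting pairs of operators `d r` (raising the
label by `e_r`) and `p r` (lowering it), with `d r p r + p r d r = 1 - c r` and `c r` killing both. -/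
structure CS (n : ℕ) (H : Type*) [AddCommGroup H] [Module ℂ H] where
  pr : (Fin n → ℤ) → H →ₗ[ℂ] H
  L : Finset (Fin n → ℤ)
  pr_idem : ∀ κ x, pr κ (pr κ x) = pr κ x
  pr_orth : ∀ κ κ', κ ≠ κ' → ∀ x, pr κ (pr κ' x) = 0
  pr_L : ∀ κ, κ ∉ L → ∀ x, pr κ x = 0
  pr_sum : ∀ x, ∑ κ ∈ L, pr κ x = x
  d : Fin n → H →ₗ[ℂ] H
  p : Fin n → H →ₗ[ℂ] H
  c : Fin n → H →ₗ[ℂ] H
  dd : ∀ r s x, d r (d s x) + d s (d r x) = 0
  pp : ∀ r s x, p r (p s x) + p s (p r x) = 0
  dp : ∀ r s, r ≠ s → ∀ x, d r (p s x) + p s (d r x) = 0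
  res : ∀ r x, d r (p r x) + p r (d r x) + c r x = x
  dc : ∀ r x, d r (c r x) = 0
  pc : ∀ r x, p r (c r x) = 0
  d_pr : ∀ r κ x, d r (pr κ x) = pr (κ + Pi.single r 1) (d r x)
  p_pr : ∀ r κ x, p r (pr κ x) = pr (κ - Pi.single r 1) (p r x)

namespace CS

variable {n : ℕ} {H : Type*} [AddCommGroup H] [Module ℂ H]

/-- the top corners of the cubes of type `R` with label `κ` -/
def Q (S : CS n H) (κ : Fin n → ℤ) (R : Finset (Fin n)) : Submodule ℂ H where
  carrier := {z | S.pr κ z = z ∧ (∀ r, S.d r z = 0) ∧ (∀ r ∈ R, S.d r (S.p r z) = z) ∧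
    ∀ r, r ∉ R → S.p r z = 0}
  add_mem' := by
    rintro x y ⟨h1, h2, h3, h4⟩ ⟨g1, g2, g3, g4⟩
    refine ⟨by rw [map_add, h1, g1], fun r => by rw [map_add, h2, g2, add_zero], fun r hr => ?_,
      fun r hr => by rw [map_add, h4 r hr, g4 r hr, add_zero]⟩
    rw [map_add, map_add, h3 r hr, g3 r hr]
  zero_mem' := by
    refine ⟨map_zero _, fun r => map_zero _, fun r _ => ?_, fun r _ => map_zero _⟩
    rw [map_zero, map_zero]
  smul_mem' := by
    rintro a x ⟨h1, h2, h3, h4⟩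
    refine ⟨by rw [map_smul, h1], fun r => by rw [map_smul, h2, smul_zero], fun r hr => ?_,
      fun r hr => by rw [map_smul, h4 r hr, smul_zero]⟩
    rw [map_smul, map_smul, h3 r hr]

/-- the total differential -/
noncomputable def dS (S : CS n H) : H →ₗ[ℂ] H := ∑ r, S.d r

/-- the part with labels in `A` -/
def HA (S : CS n H) (A : Set (Fin n → ℤ)) : Submodule ℂ H where
  carrier := {x | ∀ κ, κ ∉ A → S.pr κ x = 0}
  add_mem' := by
    intro x y hx hy κ hκ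
    rw [map_add, hx κ hκ, hy κ hκ, add_zero]
  zero_mem' := by
    intro κ _
    exact map_zero _
  smul_mem' := by
    intro a x hx κ hκ
    rw [map_smul, hx κ hκ, smul_zero]

/-- the product of the `p r`, `r ∈ T`, in increasing order -/
noncomputable def pT (S : CS n H) (T : Finset (Fin n)) : H →ₗ[ℂ] H :=
  ((List.finRange n).map (fun r => if r ∈ T then S.p r else (1 : H →ₗ[ℂ] H))).prod

end CS

/-- integral indicator -/
def indZ {n : ℕ} (T : Finset (Fin n)) : Fin n → ℤ := fun r => if r ∈ T then 1 else 0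

/-- labels of total degree `t` -/
def At {n : ℕ} (A : Set (Fin n → ℤ)) (t : ℤ) : Set (Fin n → ℤ) := {κ | κ ∈ A ∧ ∑ r, κ r = t}

/-- integral version of the chain spaces -/
def SZ {n : ℕ} (κ : Fin n → ℤ) (R : Finset (Fin n)) (A : Set (Fin n → ℤ)) (t : ℤ) :
    Submodule ℂ (Finset (Fin n) → ℂ) where
  carrier := {f | ∀ T, f T ≠ 0 → T ⊆ R ∧ κ - indZ T ∈ At A t}
  add_mem' := by
    intro f g hf hg T h
    by_cases h1 : f T = 0
    · refine hg T fun h2 => h ?_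
      simp [h1, h2]
    · exact hf T h1
  zero_mem' := by
    intro T h
    simp at h
  smul_mem' := by
    intro r f hf T h
    refine hf T fun h2 => h ?_
    simp [h2]

/-- dimension of the homology of the integral version -/
noncomputable def hz {n : ℕ} (κ : Fin n → ℤ) (R : Finset (Fin n)) (A : Set (Fin n → ℤ)) (t : ℤ) :
    ℕ :=
  Module.finrank ℂ ↥(SZ κ R A t ⊓ LinearMap.ker bd) -
    Module.finrank ℂ ↥((SZ κ R A (t - 1)).map bd)

end H95H
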