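import Pool.Agent.Lib.H95H.P00

namespace H95H

variable {n : ℕ} {H : Type*} [AddCommGroup H] [Module ℂ H]

/-- the part of `d` which raises the label by `e_r` -/
noncomputable def LHC.dr (S : LHC n H) (r : Fin n) : H →ₗ[ℂ] H :=
  ∑ κ ∈ S.L, S.pr (κ + Pi.single r 1) ∘ₗ S.d ∘ₗ S.pr κ

/-- the part of `P` which lowers the label by `e_r` -/
noncomputable def LHC.Pr (S : LHC n H) (r : Fin n) : H →ₗ[ℂ] H :=
  ∑ κ ∈ S.L, S.pr (κ - Pi.single r 1) ∘ₗ S.P ∘ₗ S.pr κ

/-!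
# Chunk P01: the components `d_r` and `P_r`

* `P01_pieriP`: `pr κ' (P (pr κ x)) ≠ 0 → ∃ r, κ = κ' + e_r`: with `y = pr κ' (P (pr κ x))`,
  `h y y = h (pr κ x) .. `: `h y y = h (pr κ' y') y`.. by adjointness
  `0 ≠ h (pr κ' (P (pr κ x))) y = conj (h (d (pr κ' y)) (pr κ x)) = conj (h (pr κ (d (pr κ' y))) x)`,
  so `pr κ (d (pr κ' y)) ≠ 0` and `pieri` applies.
* `P01_dr_pr`: `dr r (pr κ x) = pr (κ + e_r) (d (pr κ x))` for all `κ` (only the term `κ` of the sum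
  survives; if `κ ∉ L` both sides are `0`). Same for `Pr`.
* `P01_dr_comm`: `dr r (pr κ x) = pr (κ + e_r) (dr r x)`: write `x = ∑ pr κ' x`, and apply `P01_dr_pr`.
* `P01_dr_sum`: `∑ r, dr r x = d x`: for `x = pr κ x`,
  `d x = ∑_{κ' ∈ L} pr κ' (d (pr κ x))`, only the `κ' = κ + e_r` contribute (`pieri`), and these are
  distinct for distinct `r`; those `κ + e_r` which are not in `L` give `0` anyway.
* `P01_adj`: from `adj` and `pr_adj`, comparing term by term: `h (pr (κ + e_r) (d (pr κ x))) y =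
  h x (pr κ (P (pr (κ + e_r) y)))`, and reindex (`κ' = κ + e_r`; terms with labels outside `L`
  vanish). Alternatively through labels.
* `P01_dd`: `d_r d_s + d_s d_r = 0`: let `x = pr κ x`. The component of `0 = d (d x)` at the label
  `κ + e_r + e_s` is the sum of `d_{r'} (d_{s'} x)` over all ordered pairs with
  `e_{r'} + e_{s'} = e_r + e_s`, i.e. `{r', s'} = {r, s}` as multisets: for `r ≠ s` this is
  `d_r d_s x + d_s d_r x`, and for `r = s` it is `d_r d_r x`.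
* `P01_PP` the same.
* `P01_dP` (`r ≠ s`): the component of `d (P x) + P (d x) = D x` at the label `κ + e_r - e_s ≠ κ` is
  `d_r (P_s x) + P_s (d_r x)` since `e_{r'} - e_{s'} = e_r - e_s ≠ 0` forces `r' = r`, `s' = s`.
-/

/-- the part of `T` which shifts the label by `v` -/
noncomputable def LHC.sh (S : LHC n H) (T : H →ₗ[ℂ] H) (v : Fin n → ℤ) : H →ₗ[ℂ] H :=
  ∑ κ ∈ S.L, S.pr (κ + v) ∘ₗ T ∘ₗ S.pr κ

theorem P01_sh_apply (S : LHC n H) (T : H →ₗ[ℂ] H) (v : Fin n → ℤ) (x : H) :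
    S.sh T v x = ∑ κ ∈ S.L, S.pr (κ + v) (T (S.pr κ x)) := by
  rw [LHC.sh, LinearMap.sum_apply]
  rfl

theorem P01_sh_pr (S : LHC n H) (T : H →ₗ[ℂ] H) (v κ : Fin n → ℤ) (x : H) :
    S.sh T v (S.pr κ x) = S.pr (κ + v) (T (S.pr κ x)) := by
  rw [P01_sh_apply]
  by_cases h : κ ∈ S.L
  · rw [Finset.sum_eq_single κ]
    · rw [S.pr_idem]
    · intro κ' _ hne
      rw [S.pr_orth κ' κ hne, map_zero, map_zero]
    · intro h'
      exact absurd h h'
  · rw [S.pr_L κ h x, map_zero, map_zero]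
    refine Finset.sum_eq_zero fun κ' _ => ?_
    rw [map_zero, map_zero, map_zero]

theorem P01_pr_sh (S : LHC n H) (T : H →ₗ[ℂ] H) (v κ : Fin n → ℤ) (x : H) :
    S.pr (κ + v) (S.sh T v x) = S.pr (κ + v) (T (S.pr κ x)) := by
  rw [P01_sh_apply, map_sum]
  by_cases h : κ ∈ S.L
  · rw [Finset.sum_eq_single κ]
    · rw [S.pr_idem]
    · intro κ' _ hne
      exact S.pr_orth (κ + v) (κ' + v) (fun e => hne (add_right_cancel e).symm) _
    · intro h'
      exact absurd h h'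
  · rw [S.pr_L κ h x, map_zero, map_zero]
    refine Finset.sum_eq_zero fun κ' h' => ?_
    refine S.pr_orth (κ + v) (κ' + v) (fun e => h ?_) _
    rw [add_right_cancel e]
    exact h'

theorem P01_dr_sh (S : LHC n H) (r : Fin n) : S.dr r = S.sh S.d (Pi.single r 1) := rfl

theorem P01_Pr_sh (S : LHC n H) (r : Fin n) : S.Pr r = S.sh S.P (-Pi.single r 1) := by
  unfold LHC.Pr LHC.sh
  simp only [sub_eq_add_neg]

theorem P01_dr_comm (S : LHC n H) (r : Fin n) (κ : Fin n → ℤ) (x : H) :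
    S.dr r (S.pr κ x) = S.pr (κ + Pi.single r 1) (S.dr r x) := by
  rw [P01_dr_sh, P01_sh_pr, P01_pr_sh]

theorem P01_Pr_comm (S : LHC n H) (r : Fin n) (κ : Fin n → ℤ) (x : H) :
    S.Pr r (S.pr κ x) = S.pr (κ - Pi.single r 1) (S.Pr r x) := by
  rw [P01_Pr_sh, sub_eq_add_neg, P01_sh_pr, P01_pr_sh]

end H95H
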