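import Pool.Agent.Lib.H95H.P01a

namespace H95H

variable {n : ℕ} {H : Type*} [AddCommGroup H] [Module ℂ H]

/-!
# Chunk P01: the components `d_r` and `P_r`

* `P01_pieriP`: `pr κ' (P (pr κ x)) ≠ 0 → ∃ r, κ = κ' + e_r`: with `y = pr κ' (P (pr κ x))`,
  `h y y = h (pr κ x) .. `: `h y y = h (pr κ' y') y`.. by adjointness
  `0 ≠ h (pr κ' (P (pr κ x))) y = conj (h (d (pr κ' y)) (pr κ x)) = conj (h (pr κ (d (pr κ' y))) x)`,
  so `pr κ (d (pr κ' y)) ≠ 0` and `pieri` applies.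
* `P01_dr_pr`: `dr r (pr κ x) = pr (κ + e_r) (d (pr κ x))` for all `κ` (only the term `κ` of the sum
  survives; if `κ ∉ L` both sides are `0`). Same for `Pr`.
* `P01_dr_comm`: `dr r (pr κ x) = pr (κ + e_r) (dr r x)`: write `x = ∑ pr κ' x`, and apply `P01_dr_pr`.
* `P01_dr_sum`: `∑ r, dr r x = d x`: for `x = pr κ x`,
  `d x = ∑_{κ' ∈ L} pr κ' (d (pr κ x))`, only the `κ' = κ + e_r` contribute (`pieri`), and these are
  distinct for distinct `r`; those `κ + e_r` which are not in `L` give `0` anyway.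
* `P01_adj`: from `adj` and `pr_adj`, comparing term by term: `h (pr (κ + e_r) (d (pr κ x))) y =
  h x (pr κ (P (pr (κ + e_r) y)))`, and reindex (`κ' = κ + e_r`; terms with labels outside `L`
  vanish). Alternatively through labels.
* `P01_dd`: `d_r d_s + d_s d_r = 0`: let `x = pr κ x`. The component of `0 = d (d x)` at the label
  `κ + e_r + e_s` is the sum of `d_{r'} (d_{s'} x)` over all ordered pairs with
  `e_{r'} + e_{s'} = e_r + e_s`, i.e. `{r', s'} = {r, s}` as multisets: for `r ≠ s` this is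
  `d_r d_s x + d_s d_r x`, and for `r = s` it is `d_r d_r x`.
* `P01_PP` the same.
* `P01_dP` (`r ≠ s`): the component of `d (P x) + P (d x) = D x` at the label `κ + e_r - e_s ≠ κ` is
  `d_r (P_s x) + P_s (d_r x)` since `e_{r'} - e_{s'} = e_r - e_s ≠ 0` forces `r' = r`, `s' = s`.
-/

theorem P01_ext (S : LHC n H) {A B : H →ₗ[ℂ] H} (h : ∀ κ x, A (S.pr κ x) = B (S.pr κ x)) (x : H) :
    A x = B x := by
  calc A x = A (∑ κ ∈ S.L, S.pr κ x) := by rw [S.pr_sum]
    _ = B (∑ κ ∈ S.L, S.pr κ x) := by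
      rw [map_sum, map_sum]
      exact Finset.sum_congr rfl fun κ _ => h κ x
    _ = B x := by rw [S.pr_sum]

theorem P01_ext2 (S : LHC n H) {x y : H} (h : ∀ κ, S.pr κ x = S.pr κ y) : x = y := by
  calc x = ∑ κ ∈ S.L, S.pr κ x := (S.pr_sum x).symm
    _ = ∑ κ ∈ S.L, S.pr κ y := Finset.sum_congr rfl fun κ _ => h κ
    _ = y := S.pr_sum y

theorem P01_sh_sum (S : LHC n H) (T : H →ₗ[ℂ] H) (v : Fin n → Fin n → ℤ) (hv : Function.Injective v)
    (hT : ∀ κ κ' x, S.pr κ' (T (S.pr κ x)) ≠ 0 → ∃ r, κ' = κ + v r) (x : H) :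
    ∑ r, S.sh T (v r) x = T x := by
  have key : ∀ κ x, (∑ r, S.sh T (v r)) (S.pr κ x) = T (S.pr κ x) := by
    intro κ x
    rw [LinearMap.sum_apply]
    have e : ∀ r, S.sh T (v r) (S.pr κ x) = S.pr (κ + v r) (T (S.pr κ x)) := fun r =>
      P01_sh_pr S T (v r) κ x
    rw [Finset.sum_congr rfl fun r _ => e r]
    refine P01_ext2 S fun κ' => ?_
    rw [map_sum]
    by_cases h : ∃ r, κ' = κ + v r
    · obtain ⟨r, rfl⟩ := h
      rw [Finset.sum_eq_single r]
      · rw [S.pr_idem]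
      · intro r' _ hne
        exact S.pr_orth _ _ (fun e => hne (hv (add_left_cancel e)).symm) _
      · intro h
        exact absurd (Finset.mem_univ _) h
    · have h0 : S.pr κ' (T (S.pr κ x)) = 0 := by
        by_contra hne
        exact h (hT κ κ' x hne)
      rw [h0]
      exact Finset.sum_eq_zero fun r _ => S.pr_orth _ _ (fun e => h ⟨r, e⟩) _
  have h1 := P01_ext S (A := ∑ r, S.sh T (v r)) (B := T) key x
  rwa [LinearMap.sum_apply] at h1

theorem P01_single_inj {r s : Fin n} (h : (Pi.single r 1 : Fin n → ℤ) = Pi.single s 1) : r = s := by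
  by_contra hne
  have h1 := congrFun h r
  rw [Pi.single_eq_same, Pi.single_eq_of_ne hne] at h1
  exact one_ne_zero h1

theorem P01_pieriP (S : LHC n H) (κ κ' : Fin n → ℤ) (x : H) (h : S.pr κ' (S.P (S.pr κ x)) ≠ 0) :
    ∃ r : Fin n, κ' = κ + -Pi.single r 1 := by
  set y := S.pr κ' (S.P (S.pr κ x)) with hy
  have h1 : S.h y y = starRingEnd ℂ (S.h (S.pr κ (S.d (S.pr κ' y))) x) := by
    calc S.h y y = S.h (S.pr κ' (S.P (S.pr κ x))) y := by rw [← hy]
      _ = S.h (S.P (S.pr κ x)) (S.pr κ' y) := S.pr_adj _ _ _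
      _ = starRingEnd ℂ (S.h (S.pr κ' y) (S.P (S.pr κ x))) := S.herm.symm _ _
      _ = starRingEnd ℂ (S.h (S.pr κ (S.d (S.pr κ' y))) x) := by
          rw [← S.adj, S.pr_adj κ]
  have h2 : S.pr κ (S.d (S.pr κ' y)) ≠ 0 := by
    intro h0
    have h3 := S.herm.pos y h
    have h4 : S.h (0 : H) x = 0 := by
      have h5 := S.herm.smul 0 (0 : H) x
      rw [zero_smul, zero_mul] at h5
      exact h5
    rw [h1, h0, h4, map_zero] at h3
    simp at h3
  obtain ⟨r, hr⟩ := S.pieri κ' κ y h2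
  refine ⟨r, ?_⟩
  rw [hr, add_neg_cancel_right]

theorem P01_dr_sum (S : LHC n H) (x : H) : ∑ r, S.dr r x = S.d x :=
  P01_sh_sum S S.d (fun r => Pi.single r 1) (fun _ _ h => P01_single_inj h) (fun κ κ' x h => S.pieri κ κ' x h) x

theorem P01_Pr_sum (S : LHC n H) (x : H) : ∑ r, S.Pr r x = S.P x := by
  simp only [P01_Pr_sh]
  exact P01_sh_sum S S.P (fun r => -Pi.single r 1) (fun _ _ h => P01_single_inj (neg_injective h))
    (fun κ κ' x h => P01_pieriP S κ κ' x h) x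

end H95H
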