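import Pool.Agent.Lib.H95H.P01a

namespace H95H

variable {n : ℕ} {H : Type*} [AddCommGroup H] [Module ℂ H]

/-!
# Chunk P01: the components `d_r` and `P_r`

* `P01_pieriP`: `pr κ' (P (pr κ x)) ≠ 0 → ∃ r, κ = κ' + e_r`: with `y = pr κ' (P (pr κ x))`,
  `h y y = h (pr κ x) .. `: `h y y = h (pr κ' y') y`.. by adjointness
  `0 ≠ h (pr κ' (P (pr κ x))) y = conj (h (d (pr κ' y)) (pr κ x)) = conj (h (pr κ (d (pr κ' y))) x)`,
  so `pr κ (d (pr κ' y)) ≠ 0` and `pieri` applies.
* `P01_dr_pr`: `dr r (pr κ x) = pr (κ + e_r) (d (pr κ x))` for all `κ` (only the term `κ` of the sum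
  survives; if `κ ∉ L` both sides are `0`). Same for `Pr`.
* `P01_dr_comm`: `dr r (pr κ x) = pr (κ + e_r) (dr r x)`: write `x = ∑ pr κ' x`, and apply `P01_dr_pr`.
* `P01_dr_sum`: `∑ r, dr r x = d x`: for `x = pr κ x`,
  `d x = ∑_{κ' ∈ L} pr κ' (d (pr κ x))`, only the `κ' = κ + e_r` contribute (`pieri`), and these are
  distinct for distinct `r`; those `κ + e_r` which are not in `L` give `0` anyway.
* `P01_adj`: from `adj` and `pr_adj`, comparing term by term: `h (pr (κ + e_r) (d (pr κ x))) y =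
  h x (pr κ (P (pr (κ + e_r) y)))`, and reindex (`κ' = κ + e_r`; terms with labels outside `L`
  vanish). Alternatively through labels.
* `P01_dd`: `d_r d_s + d_s d_r = 0`: let `x = pr κ x`. The component of `0 = d (d x)` at the label
  `κ + e_r + e_s` is the sum of `d_{r'} (d_{s'} x)` over all ordered pairs with
  `e_{r'} + e_{s'} = e_r + e_s`, i.e. `{r', s'} = {r, s}` as multisets: for `r ≠ s` this is
  `d_r d_s x + d_s d_r x`, and for `r = s` it is `d_r d_r x`.
* `P01_PP` the same.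
* `P01_dP` (`r ≠ s`): the component of `d (P x) + P (d x) = D x` at the label `κ + e_r - e_s ≠ κ` is
  `d_r (P_s x) + P_s (d_r x)` since `e_{r'} - e_{s'} = e_r - e_s ≠ 0` forces `r' = r`, `s' = s`.
-/

theorem P01_hzero {h : H → H → ℂ} (hh : Herm h) (y : H) : h 0 y = 0 := by
  have h5 := hh.smul 0 (0 : H) y
  rw [zero_smul, zero_mul] at h5
  exact h5

theorem P01_hsum {h : H → H → ℂ} (hh : Herm h) {ι : Type*} (s : Finset ι) (f : ι → H) (y : H) :
    h (∑ i ∈ s, f i) y = ∑ i ∈ s, h (f i) y := by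
  classical
  induction s using Finset.induction_on with
  | empty => rw [Finset.sum_empty, Finset.sum_empty, P01_hzero hh]
  | insert a s ha ih => rw [Finset.sum_insert ha, Finset.sum_insert ha, hh.add, ih]

theorem P01_hsum' {h : H → H → ℂ} (hh : Herm h) {ι : Type*} (s : Finset ι) (f : ι → H) (x : H) :
    h x (∑ i ∈ s, f i) = ∑ i ∈ s, h x (f i) := by
  rw [hh.symm, P01_hsum hh, map_sum]
  exact Finset.sum_congr rfl fun i _ => (hh.symm _ _).symm

theorem P01_adj (S : LHC n H) (r : Fin n) (x y : H) : S.h (S.dr r x) y = S.h x (S.Pr r y) := by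
  have e1 : S.dr r x = ∑ κ ∈ S.L, S.pr (κ + Pi.single r 1) (S.d (S.pr κ x)) := P01_sh_apply S S.d _ x
  have e2 : S.h x (S.Pr r y) = ∑ κ ∈ S.L, S.h x (S.pr κ (S.Pr r y)) := by
    rw [← P01_hsum' S.herm, S.pr_sum]
  rw [e1, P01_hsum S.herm, e2]
  refine Finset.sum_congr rfl fun κ _ => ?_
  have e3 : S.pr κ (S.Pr r y) = S.pr κ (S.P (S.pr (κ + Pi.single r 1) y)) := by
    have h := P01_pr_sh S S.P (-Pi.single r 1) (κ + Pi.single r 1) y
    rw [add_neg_cancel_right, ← P01_Pr_sh] at h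
    exact h
  rw [e3, S.pr_adj, S.adj, S.pr_adj]

end H95H
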