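import Pool.Agent.Lib.H95H.P01b

namespace H95H

variable {n : ℕ} {H : Type*} [AddCommGroup H] [Module ℂ H]

/-!
# Chunk P01: the components `d_r` and `P_r`

* `P01_pieriP`: `pr κ' (P (pr κ x)) ≠ 0 → ∃ r, κ = κ' + e_r`: with `y = pr κ' (P (pr κ x))`,
  `h y y = h (pr κ x) .. `: `h y y = h (pr κ' y') y`.. by adjointness
  `0 ≠ h (pr κ' (P (pr κ x))) y = conj (h (d (pr κ' y)) (pr κ x)) = conj (h (pr κ (d (pr κ' y))) x)`,
  so `pr κ (d (pr κ' y)) ≠ 0` and `pieri` applies.
* `P01_dr_pr`: `dr r (pr κ x) = pr (κ + e_r) (d (pr κ x))` for all `κ` (only the term `κ` of the sum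
  survives; if `κ ∉ L` both sides are `0`). Same for `Pr`.
* `P01_dr_comm`: `dr r (pr κ x) = pr (κ + e_r) (dr r x)`: write `x = ∑ pr κ' x`, and apply `P01_dr_pr`.
* `P01_dr_sum`: `∑ r, dr r x = d x`: for `x = pr κ x`,
  `d x = ∑_{κ' ∈ L} pr κ' (d (pr κ x))`, only the `κ' = κ + e_r` contribute (`pieri`), and these are
  distinct for distinct `r`; those `κ + e_r` which are not in `L` give `0` anyway.
* `P01_adj`: from `adj` and `pr_adj`, comparing term by term: `h (pr (κ + e_r) (d (pr κ x))) y =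
  h x (pr κ (P (pr (κ + e_r) y)))`, and reindex (`κ' = κ + e_r`; terms with labels outside `L`
  vanish). Alternatively through labels.
* `P01_dd`: `d_r d_s + d_s d_r = 0`: let `x = pr κ x`. The component of `0 = d (d x)` at the label
  `κ + e_r + e_s` is the sum of `d_{r'} (d_{s'} x)` over all ordered pairs with
  `e_{r'} + e_{s'} = e_r + e_s`, i.e. `{r', s'} = {r, s}` as multisets: for `r ≠ s` this is
  `d_r d_s x + d_s d_r x`, and for `r = s` it is `d_r d_r x`.
* `P01_PP` the same.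
* `P01_dP` (`r ≠ s`): the component of `d (P x) + P (d x) = D x` at the label `κ + e_r - e_s ≠ κ` is
  `d_r (P_s x) + P_s (d_r x)` since `e_{r'} - e_{s'} = e_r - e_s ≠ 0` forces `r' = r`, `s' = s`.
-/

theorem P01_comp (S : LHC n H) {ι : Type*} [Fintype ι] (T : ι → H) (lab : ι → Fin n → ℤ)
    (h : ∀ i, S.pr (lab i) (T i) = T i) (κ : Fin n → ℤ) :
    S.pr κ (∑ i, T i) = ∑ i, if lab i = κ then T i else 0 := by
  rw [map_sum]
  refine Finset.sum_congr rfl fun i _ => ?_
  by_cases e : lab i = κ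
  · rw [if_pos e, ← e, h i]
  · rw [if_neg e, ← h i]
    exact S.pr_orth _ _ (fun e' => e e'.symm) _

theorem P01_add_eq {r s r' s' : Fin n}
    (h : (Pi.single s' 1 : Fin n → ℤ) + Pi.single r' 1 = Pi.single s 1 + Pi.single r 1) :
    (r' = r ∧ s' = s) ∨ (r' = s ∧ s' = r) := by
  by_cases h1 : r' = r
  · subst h1
    exact Or.inl ⟨rfl, P01_single_inj (add_right_cancel h)⟩
  · by_cases h2 : r' = s
    · subst h2
      rw [add_comm] at h
      exact Or.inr ⟨rfl, P01_single_inj (add_left_cancel h)⟩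
    · exfalso
      have h3 := congrFun h r'
      rw [Pi.add_apply, Pi.add_apply, Pi.single_eq_same, Pi.single_eq_of_ne h1, Pi.single_eq_of_ne h2] at h3
      have h4 : (0 : ℤ) ≤ (Pi.single s' 1 : Fin n → ℤ) r' := by
        by_cases h5 : r' = s'
        · subst h5
          rw [Pi.single_eq_same]
          exact zero_le_one
        · rw [Pi.single_eq_of_ne h5]
      omega

theorem P01_two (S : LHC n H) (T : H →ₗ[ℂ] H) (v : Fin n → Fin n → ℤ)
    (hv : ∀ r s r' s', v s' + v r' = v s + v r → (r' = r ∧ s' = s) ∨ (r' = s ∧ s' = r))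
    (hs : ∀ x, ∑ r, S.sh T (v r) x = T x) (hT : ∀ x, T (T x) = 0) (r s : Fin n) (x : H) :
    S.sh T (v r) (S.sh T (v s) x) + S.sh T (v s) (S.sh T (v r) x) = 0 := by
  have key : ∀ κ x, (S.sh T (v r) ∘ₗ S.sh T (v s) + S.sh T (v s) ∘ₗ S.sh T (v r)) (S.pr κ x) =
      (0 : H →ₗ[ℂ] H) (S.pr κ x) := by
    intro κ x
    rw [LinearMap.add_apply, LinearMap.comp_apply, LinearMap.comp_apply, LinearMap.zero_apply]
    set z := S.pr κ x with hz
    have hz1 : S.pr κ z = z := S.pr_idem κ x
    have hc : ∀ r κ x, S.sh T (v r) (S.pr κ x) = S.pr (κ + v r) (S.sh T (v r) x) := by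
      intro r κ x
      rw [P01_sh_pr, P01_pr_sh]
    have h1 : ∑ p : Fin n × Fin n, S.sh T (v p.1) (S.sh T (v p.2) z) = 0 := by
      rw [Fintype.sum_prod_type]
      have e : ∀ r, ∑ s, S.sh T (v r) (S.sh T (v s) z) = S.sh T (v r) (T z) := by
        intro r
        rw [← map_sum, hs]
      rw [Finset.sum_congr rfl fun r _ => e r, hs, hT]
    have h2 := P01_comp S (fun p : Fin n × Fin n => S.sh T (v p.1) (S.sh T (v p.2) z))
      (fun p => κ + v p.2 + v p.1) (fun p => by rw [← hc, ← hc, hz1]) (κ + v s + v r)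
    rw [h1, map_zero] at h2
    have h3 : ∀ p : Fin n × Fin n, κ + v p.2 + v p.1 = κ + v s + v r ↔ p = (r, s) ∨ p = (s, r) := by
      intro p
      constructor
      · intro h
        rw [add_assoc, add_assoc] at h
        rcases hv r s p.1 p.2 (add_left_cancel h) with ⟨h4, h5⟩ | ⟨h4, h5⟩
        · exact Or.inl (Prod.ext h4 h5)
        · exact Or.inr (Prod.ext h4 h5)
      · rintro (rfl | rfl)
        · rfl
        · exact add_right_comm _ _ _
    have h6 : ∑ p : Fin n × Fin n, (if κ + v p.2 + v p.1 = κ + v s + v r then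
        S.sh T (v p.1) (S.sh T (v p.2) z) else 0) =
        ∑ p ∈ ({(r, s), (s, r)} : Finset (Fin n × Fin n)), S.sh T (v p.1) (S.sh T (v p.2) z) := by
      rw [← Finset.sum_filter]
      refine Finset.sum_congr ?_ fun _ _ => rfl
      ext p
      rw [Finset.mem_filter, Finset.mem_insert, Finset.mem_singleton, h3 p]
      exact ⟨fun h => h.2, fun h => ⟨Finset.mem_univ _, h⟩⟩
    rw [h6] at h2
    by_cases hrs : r = s
    · subst hrs
      rw [Finset.pair_eq_singleton, Finset.sum_singleton] at h2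
      have h7 : S.sh T (v r) (S.sh T (v r) z) = 0 := h2.symm
      rw [h7, add_zero]
    · rw [Finset.sum_pair (fun e => hrs (Prod.ext_iff.1 e).1)] at h2
      exact h2.symm
  exact P01_ext S key x

theorem P01_dd (S : LHC n H) (r s : Fin n) (x : H) :
    S.dr r (S.dr s x) + S.dr s (S.dr r x) = 0 :=
  P01_two S S.d (fun r => Pi.single r 1) (fun _ _ _ _ h => P01_add_eq h) (P01_dr_sum S) S.dd r s x

theorem P01_PP (S : LHC n H) (r s : Fin n) (x : H) :
    S.Pr r (S.Pr s x) + S.Pr s (S.Pr r x) = 0 := by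
  rw [P01_Pr_sh, P01_Pr_sh]
  refine P01_two S S.P (fun r => -Pi.single r 1) (fun r s r' s' h => P01_add_eq ?_) (fun x => ?_) S.PP r s x
  · have h1 : -((Pi.single s' 1 : Fin n → ℤ) + Pi.single r' 1) = -(Pi.single s 1 + Pi.single r 1) := by
      rw [neg_add, neg_add]
      exact h
    exact neg_injective h1
  · have h2 := P01_Pr_sum S x
    simp only [P01_Pr_sh] at h2
    exact h2

end H95H
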