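import Pool.Agent.Lib.H95H.R00

namespace H95H

/-!
# Chunk R01: the balance

* `R_ht`: `∑ x ∈ Icc p q` of `vl` is (number of `V` in `[p,q]`) - (number of free in `[p,q]`), and
  `#([p,q] \ X)` is the sum of these two numbers (`V` is disjoint from `X`). So
  `ht = 2 #(V ∩ [p,q]) - #([p,q] \ X)`.
* `R_ht_left`: `Icc p q = insert p (Icc (p+1) q)` (`Finset.sum_Ioc_add_eq_sum_Icc` or
  `Nat.Icc_insert_succ_left`).
* `R_ht_add`: split `Icc p q` at `r`.
* `R_ivt`: discrete intermediate value theorem: if `ht p0 q ≤ 0` for some `p0 < q` and `q ∈ V`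
  (so `ht q q = 1`), take the largest `p < q` with `ht p q ≤ 0` (`Nat.findGreatest`, or induction).
  Then `ht p' q ≥ 1` for `p < p' ≤ q`, `ht p q = vl p + ht (p+1) q`, so `vl p = -1` and `ht p q = 0`.
-/

theorem R_ht (X V : Finset ℕ) (hd : Disjoint X V) (p q : ℕ) :
    ht X V p q = 2 * ((V.filter (fun x => p ≤ x ∧ x ≤ q)).card : ℤ) -
      (((Finset.Icc p q).filter (fun x => x ∉ X)).card : ℤ) := by
  have e1 : (V.filter (fun x => p ≤ x ∧ x ≤ q)) = (Finset.Icc p q).filter (fun x => x ∈ V) := by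
    ext x; simp only [Finset.mem_filter, Finset.mem_Icc]; tauto
  rw [e1, Finset.card_filter, Finset.card_filter]
  push_cast
  rw [Finset.mul_sum, ← Finset.sum_sub_distrib]
  refine Finset.sum_congr rfl fun x _ => ?_
  unfold vl
  by_cases h1 : x ∈ X
  · have h2 : x ∉ V := fun h => (Finset.disjoint_left.mp hd h1) h
    simp [h1, h2]
  · by_cases h2 : x ∈ V <;> simp [h1, h2]

theorem R_ht_self (X V : Finset ℕ) (q : ℕ) : ht X V q q = vl X V q := by
  simp [ht]

theorem R_ht_left (X V : Finset ℕ) (p q : ℕ) (h : p < q) :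
    ht X V p q = vl X V p + ht X V (p + 1) q := by
  unfold ht
  rw [← Finset.insert_Icc_add_one_left_eq_Icc (le_of_lt h), Finset.sum_insert]
  simp

theorem R_ht_add (X V : Finset ℕ) (p r q : ℕ) (h : p ≤ r) (h' : r < q) :
    ht X V p q = ht X V p r + ht X V (r + 1) q := by
  unfold ht
  rw [← Finset.sum_union]
  · congr 1
    ext x
    simp only [Finset.mem_Icc, Finset.mem_union]
    omega
  · rw [Finset.disjoint_left]
    intro x hx hx'
    simp only [Finset.mem_Icc] at hx hx'
    omega

theorem R_ivt (X V : Finset ℕ) (p0 q : ℕ) (hd : Disjoint X V) (hq : q ∈ V) (h : p0 < q)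
    (h0 : ht X V p0 q ≤ 0) :
    ∃ p, p0 ≤ p ∧ p < q ∧ p ∉ X ∧ p ∉ V ∧ ht X V p q = 0 ∧
      ∀ p', p < p' → p' ≤ q → 1 ≤ ht X V p' q := by
  classical
  have hqq : ht X V q q = 1 := by
    rw [R_ht_self]; unfold vl
    have : q ∉ X := fun h => (Finset.disjoint_left.mp hd h) hq
    simp [this, hq]
  -- largest p < q with ht p q ≤ 0
  let S := (Finset.range q).filter (fun p => ht X V p q ≤ 0)
  have hS : p0 ∈ S := by simp [S, h, h0]
  obtain ⟨p, hpS, hmax⟩ := S.exists_max_image id ⟨p0, hS⟩
  have hp1 : p < q := by simpa using (Finset.mem_filter.mp hpS).1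
  have hp2 : ht X V p q ≤ 0 := (Finset.mem_filter.mp hpS).2
  have hpos : ∀ p', p < p' → p' ≤ q → 1 ≤ ht X V p' q := by
    intro p' h1 h2
    by_contra hc
    have hc' : ht X V p' q ≤ 0 := by omega
    have hlt : p' < q := by
      rcases lt_or_eq_of_le h2 with h | h
      · exact h
      · subst h; omega
    have := hmax p' (by simp [S, hlt, hc'])
    simp only [id] at this
    omega
  have h3 := hpos (p + 1) (by omega) (by omega)
  have h4 := R_ht_left X V p q hp1
  have h5 : vl X V p = -1 := by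
    have : vl X V p = 0 ∨ vl X V p = 1 ∨ vl X V p = -1 := by
      unfold vl; split_ifs <;> simp
    rcases this with h | h | h
    · omega
    · omega
    · exact h
  have h6 : p ∉ X ∧ p ∉ V := by
    unfold vl at h5
    constructor
    · intro h; simp [h] at h5
    · intro h
      have : p ∉ X := fun h' => (Finset.disjoint_left.mp hd h') h
      simp [h, this] at h5
  have := hmax p0 hS
  simp only [id] at this
  exact ⟨p, this, hp1, h6.1, h6.2, by omega, hpos⟩

end H95H
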