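import Pool.Agent.Lib.H95H.R01

namespace H95H

/-!
# Chunk R02: a characterisation of arcs by positivity

`R_arc_iff`: (→) `ht p q = 0` by `R_ht`. If some `p'` with `p < p' ≤ q` had `ht p' q ≤ 0` then `p' < q`
(`ht q q = 1`) and `R_ivt` gives a free `p''`, `p' ≤ p'' < q`, with `ht p'' q = 0`, contradicting the
last condition of `Arc` (`R_ht`). (←) from `R_ht`: for free `p'` in `(p, q)`, `ht p' q ≥ 1` is not `0`.
`R_arc_ivt`: `R_ivt` in terms of arcs.
-/

theorem r02_bal (X V : Finset ℕ) (hd : Disjoint X V) (p q : ℕ) :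
    2 * (V.filter (fun x => p ≤ x ∧ x ≤ q)).card = ((Finset.Icc p q).filter (fun x => x ∉ X)).card ↔
      ht X V p q = 0 := by
  rw [R_ht X V hd]
  omega

theorem R_arc_iff (X V : Finset ℕ) (hd : Disjoint X V) (p q : ℕ) :
    Arc X V p q ↔ p < q ∧ p ∉ X ∧ p ∉ V ∧ q ∈ V ∧ ht X V p q = 0 ∧
      ∀ p', p < p' → p' ≤ q → 1 ≤ ht X V p' q := by
  constructor
  · rintro ⟨h1, h2, h3, h4, h5, h6⟩
    refine ⟨h1, h2, h3, h4, (r02_bal X V hd p q).mp h5, ?_⟩
    intro p' hp hq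
    by_contra hc
    have hc' : ht X V p' q ≤ 0 := by omega
    have hlt : p' < q := by
      rcases lt_or_eq_of_le hq with h | h
      · exact h
      · subst h
        rw [R_ht_self] at hc'
        unfold vl at hc'
        have : p' ∉ X := fun h => (Finset.disjoint_left.mp hd h) h4
        simp [this, h4] at hc'
    obtain ⟨p2, g1, g2, g3, g4, g5, -⟩ := R_ivt X V p' q hd h4 hlt hc'
    exact h6 p2 (by omega) g2 g3 g4 ((r02_bal X V hd p2 q).mpr g5)
  · rintro ⟨h1, h2, h3, h4, h5, h6⟩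
    refine ⟨h1, h2, h3, h4, (r02_bal X V hd p q).mpr h5, ?_⟩
    intro p' hp hq _ _ hb
    have := (r02_bal X V hd p' q).mp hb
    have := h6 p' hp hq.le
    omega

theorem R_arc_ivt (X V : Finset ℕ) (hd : Disjoint X V) (p0 q : ℕ) (hq : q ∈ V) (h : p0 < q)
    (h0 : ht X V p0 q ≤ 0) : ∃ p, p0 ≤ p ∧ Arc X V p q := by
  obtain ⟨p, g1, g2, g3, g4, g5, g6⟩ := R_ivt X V p0 q hd hq h h0
  exact ⟨p, g1, (R_arc_iff X V hd p q).mpr ⟨g2, g3, g4, hq, g5, g6⟩⟩

end H95H
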