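import Pool.Agent.Lib.H95H.R02

namespace H95H

/-!
# Chunk R03: uniqueness of the endpoints, nested down arrows

* `R_right`: if `p < p'` then the condition for `p'` (free, `p < p' < q`) in the arc `(p, q)` contradicts
  the balance of `(p', q)`. By symmetry `p = p'`.
* `R_left`: if `q < q'` then `ht p q' = ht p q + ht (q+1) q'` (`R_ht_add`), i.e. `0 = 0 + ht (q+1) q'`,
  but `1 ≤ ht (q+1) q'` by `R_arc_iff` for `(p, q')`.
* `R_count`: `ht (p+1) r + ht (r+1) q = ht (p+1) q = ht p q - vl p = 1` and `1 ≤ ht (r+1) q`, so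
  `ht (p+1) r ≤ 0`; `p + 1 < r` because `ht r r = 1`. Apply `R_arc_ivt` with `p0 = p + 1`.
* `R_exists`: let `p'` be the largest free position in `[p, q)` and `q'` the smallest element of `V`
  with `q' > p'`. Strictly between `p'` and `q'` there is no free position and no element of `V`.
  Then `ht x q' = 1` for `p' < x ≤ q'` (all values except that of `q'` are `0`) and `ht p' q' = 0`.
-/

theorem R_right (X V : Finset ℕ) (p p' q : ℕ) (h : Arc X V p q) (h' : Arc X V p' q) : p = p' := by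
  obtain ⟨h1, h2, h3, h4, h5, h6⟩ := h
  obtain ⟨g1, g2, g3, g4, g5, g6⟩ := h'
  rcases lt_trichotomy p p' with hlt | heq | hgt
  · exact absurd g5 (h6 p' hlt g1 g2 g3)
  · exact heq
  · exact absurd h5 (g6 p hgt h1 h2 h3)

theorem R_left (X V : Finset ℕ) (hd : Disjoint X V) (p q q' : ℕ) (h : Arc X V p q)
    (h' : Arc X V p q') : q = q' := by
  have aux : ∀ q q', Arc X V p q → Arc X V p q' → ¬ q < q' := by
    intro q q' h h' hlt
    obtain ⟨h1, h2, h3, h4, h5, h6⟩ := (R_arc_iff X V hd p q).mp h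
    obtain ⟨g1, g2, g3, g4, g5, g6⟩ := (R_arc_iff X V hd p q').mp h'
    have e := R_ht_add X V p q q' h1.le hlt
    have := g6 (q + 1) (by omega) (by omega)
    omega
  rcases lt_trichotomy q q' with hlt | heq | hgt
  · exact absurd hlt (aux q q' h h')
  · exact heq
  · exact absurd hgt (aux q' q h' h)

theorem R_count (X V : Finset ℕ) (hd : Disjoint X V) (p q r : ℕ) (h : Arc X V p q) (hr : r ∈ V)
    (h1 : p < r) (h2 : r < q) : ∃ p', p < p' ∧ Arc X V p' r := by
  obtain ⟨a1, a2, a3, a4, a5, a6⟩ := (R_arc_iff X V hd p q).mp h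
  have hX : r ∉ X := fun h => (Finset.disjoint_left.mp hd h) hr
  have e1 := R_ht_left X V p q a1
  have e2 : vl X V p = -1 := by simp [vl, a2, a3]
  have e3 := R_ht_add X V (p + 1) r q (by omega) h2
  have e4 := a6 (r + 1) (by omega) (by omega)
  have e5 : ht X V (p + 1) r ≤ 0 := by omega
  have e6 : p + 1 < r := by
    rcases lt_or_eq_of_le (Nat.succ_le_of_lt h1) with h | h
    · exact h
    · exfalso
      have : p + 1 = r := h
      rw [this, R_ht_self] at e5
      simp [vl, hX, hr] at e5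
  obtain ⟨p', g1, g2⟩ := R_arc_ivt X V hd (p + 1) r hr e6 e5
  exact ⟨p', by omega, g2⟩

theorem R_exists (X V : Finset ℕ) (hd : Disjoint X V) (p q : ℕ) (hp : p ∉ X) (hp' : p ∉ V)
    (hq : q ∈ V) (hpq : p < q) :
    ∃ p' q', p ≤ p' ∧ q' ≤ q ∧ Arc X V p' q' ∧ ∀ x, p' < x → x < q' → x ∈ X := by
  classical
  let S := (Finset.range q).filter (fun x => x ∉ X ∧ x ∉ V)
  have hS : p ∈ S := by simp [S, hpq, hp, hp']
  obtain ⟨p1, hp1, hmax⟩ := S.exists_max_image id ⟨p, hS⟩
  obtain ⟨b1, b2, b3⟩ : p1 < q ∧ p1 ∉ X ∧ p1 ∉ V := by simpa [S] using hp1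
  let T := V.filter (fun x => p1 < x)
  have hT : q ∈ T := by simp [T, hq, b1]
  obtain ⟨q1, hq1, hmin⟩ := T.exists_min_image id ⟨q, hT⟩
  obtain ⟨c1, c2⟩ : q1 ∈ V ∧ p1 < q1 := by simpa [T] using hq1
  have c3 : q1 ≤ q := hmin q hT
  have hbet : ∀ x, p1 < x → x < q1 → x ∈ X := by
    intro x hx1 hx2
    by_contra hx
    by_cases hv : x ∈ V
    · have := hmin x (by simp [T, hv, hx1])
      simp only [id] at this
      omega
    · have := hmax x (by simp [S, hx, hv]; omega)
      simp only [id] at this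
      omega
  have hqX : q1 ∉ X := fun h => (Finset.disjoint_left.mp hd h) c1
  have hone : ∀ x, p1 < x → x ≤ q1 → ht X V x q1 = 1 := by
    intro x hx1 hx2
    unfold ht
    rw [Finset.sum_eq_single q1]
    · simp [vl, hqX, c1]
    · intro y hy hne
      simp only [Finset.mem_Icc] at hy
      have := hbet y (by omega) (by omega)
      simp [vl, this]
    · intro h; exact absurd (by simp [hx2]) h
  refine ⟨p1, q1, hmax p hS, c3, ?_, hbet⟩
  rw [R_arc_iff X V hd]
  refine ⟨c2, b2, b3, c1, ?_, fun p' h1 h2 => (hone p' h1 h2).ge⟩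
  rw [R_ht_left X V p1 q1 c2, hone (p1 + 1) (by omega) (by omega)]
  simp [vl, b2, b3]

end H95H
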