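import Pool.Agent.Lib.H95H.R02

namespace H95H

/-!
# Chunk R05: moving a blocked position

Let exactly one of `t - 1`, `t` be in `X` and `σ = swap (t - 1) t`. For `x, y ∉ X`:
`x ≤ y ↔ σ x ≤ σ y` (`x`, `y` are not both in `{t - 1, t}` unless equal).
* `R_swap_ht`: `∑ x ∈ Icc p q` of `vl` is the sum over `Icc p q \ X`. The map `σ` is a bijection from
  `Icc p q \ X` to `Icc (σ p) (σ q) \ σ X` (for `p, q ∉ X`) which preserves the value:
  `σ x ∈ X.image σ ↔ x ∈ X`, the same for `V`.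
* `R_swap_arc`: from `R_ht` and `R_swap_ht`, with the definition of `Arc` (the condition on `p'` is only for
  free `p'`, so `p' ∉ X`; and every free position of the new configuration is `σ p'`).
* `R_swap`: (←) and (→) map the set `A` of arcs by `σ × σ`; `σ` is an involution.
-/

theorem R_swap_le (X : Finset ℕ) (t : ℕ) (ht' : 1 ≤ t) (hX : (t - 1 ∈ X) ↔ (t ∉ X)) (x y : ℕ)
    (hx : x ∉ X) (hy : y ∉ X) : Equiv.swap (t - 1) t x ≤ Equiv.swap (t - 1) t y ↔ x ≤ y := by
  have key : ¬ (x = t - 1 ∧ y = t) ∧ ¬ (x = t ∧ y = t - 1) := by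
    constructor
    · rintro ⟨rfl, rfl⟩; exact hx (hX.mpr hy)
    · rintro ⟨rfl, rfl⟩; exact hy (hX.mpr hx)
  rw [Equiv.swap_apply_def, Equiv.swap_apply_def]
  split_ifs <;> omega

theorem r05_mem (S : Finset ℕ) (t x : ℕ) :
    Equiv.swap (t - 1) t x ∈ S.image (Equiv.swap (t - 1) t) ↔ x ∈ S := by
  simp

theorem r05_vl (X V : Finset ℕ) (t x : ℕ) :
    vl (X.image (Equiv.swap (t - 1) t)) (V.image (Equiv.swap (t - 1) t)) (Equiv.swap (t - 1) t x) =
      vl X V x := by
  unfold vl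
  simp only [r05_mem]

theorem R_swap_ht (X V : Finset ℕ) (t : ℕ) (ht' : 1 ≤ t) (hX : (t - 1 ∈ X) ↔ (t ∉ X)) (p q : ℕ)
    (hp : p ∉ X) (hq : q ∉ X) :
    ht (X.image (Equiv.swap (t - 1) t)) (V.image (Equiv.swap (t - 1) t))
      (Equiv.swap (t - 1) t p) (Equiv.swap (t - 1) t q) = ht X V p q := by
  classical
  set σ := Equiv.swap (t - 1) t with hσ
  have hinv : ∀ x, σ (σ x) = x := fun x => Equiv.swap_apply_self _ _ x
  have e1 : ∀ (X V : Finset ℕ) (p q : ℕ),
      ht X V p q = ∑ x ∈ (Finset.Icc p q).filter (fun x => x ∉ X), vl X V x := by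
    intro X V p q
    unfold ht
    rw [Finset.sum_filter]
    refine Finset.sum_congr rfl fun x _ => ?_
    by_cases h : x ∈ X
    · simp [vl, h]
    · simp [h]
  rw [e1, e1]
  symm
  refine Finset.sum_bij (fun x _ => σ x) ?_ ?_ ?_ ?_
  · intro x hx
    simp only [Finset.mem_filter, Finset.mem_Icc] at hx ⊢
    refine ⟨⟨(R_swap_le X t ht' hX p x hp hx.2).mpr hx.1.1,
      (R_swap_le X t ht' hX x q hx.2 hq).mpr hx.1.2⟩, ?_⟩
    intro h
    exact hx.2 ((r05_mem X t x).mp h)
  · intro a _ b _ h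
    exact σ.injective h
  · intro y hy
    simp only [Finset.mem_filter, Finset.mem_Icc] at hy
    have hyX : σ y ∉ X := by
      intro h
      apply hy.2
      rw [← hinv y]
      exact (r05_mem X t (σ y)).mpr h
    refine ⟨σ y, ?_, hinv y⟩
    simp only [Finset.mem_filter, Finset.mem_Icc]
    refine ⟨⟨?_, ?_⟩, hyX⟩
    · rw [← R_swap_le X t ht' hX p (σ y) hp hyX]
      have := hinv y
      rw [hσ] at this hy ⊢
      rw [this]
      exact hy.1.1
    · rw [← R_swap_le X t ht' hX (σ y) q hyX hq]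
      have := hinv y
      rw [hσ] at this hy ⊢
      rw [this]
      exact hy.1.2
  · intro x _
    exact (r05_vl X V t x).symm

theorem R_swap_arc (X V : Finset ℕ) (t : ℕ) (ht' : 1 ≤ t) (hX : (t - 1 ∈ X) ↔ (t ∉ X))
    (hd : Disjoint X V) (p q : ℕ) (h : Arc X V p q) :
    Arc (X.image (Equiv.swap (t - 1) t)) (V.image (Equiv.swap (t - 1) t))
      (Equiv.swap (t - 1) t p) (Equiv.swap (t - 1) t q) := by
  classical
  obtain ⟨h1, h2, h3, h4, h5, h6⟩ := h
  have hqX : q ∉ X := fun h => (Finset.disjoint_left.mp hd h) h4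
  have hd2 : Disjoint (X.image (Equiv.swap (t - 1) t)) (V.image (Equiv.swap (t - 1) t)) :=
    (Finset.disjoint_image (Equiv.injective _)).mpr hd
  have hinv : ∀ x, Equiv.swap (t - 1) t (Equiv.swap (t - 1) t x) = x :=
    fun x => Equiv.swap_apply_self _ _ x
  refine ⟨?_, ?_, ?_, ?_, ?_, ?_⟩
  · have h7 := R_swap_le X t ht' hX q p hqX h2
    by_contra hc
    have := h7.mp (not_lt.mp hc)
    omega
  · intro h; exact h2 ((r05_mem X t p).mp h)
  · intro h; exact h3 ((r05_mem V t p).mp h)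
  · exact (r05_mem V t q).mpr h4
  · rw [r02_bal _ _ hd2, R_swap_ht X V t ht' hX p q h2 hqX]
    exact (r02_bal X V hd p q).mp h5
  · intro p' g1 g2 g3 g4 g5
    rw [r02_bal _ _ hd2] at g5
    have k1 : Equiv.swap (t - 1) t p' ∉ X := fun h => g3 (by
      rw [← hinv p']; exact (r05_mem X t _).mpr h)
    have k2 : Equiv.swap (t - 1) t p' ∉ V := fun h => g4 (by
      rw [← hinv p']; exact (r05_mem V t _).mpr h)
    have k3 := R_swap_ht X V t ht' hX (Equiv.swap (t - 1) t p') q k1 hqX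
    rw [hinv] at k3
    rw [k3] at g5
    refine h6 (Equiv.swap (t - 1) t p') ?_ ?_ k1 k2 ((r02_bal X V hd _ q).mpr g5)
    · have k4 := R_swap_le X t ht' hX (Equiv.swap (t - 1) t p') p k1 h2
      rw [hinv] at k4
      by_contra hc
      have := k4.mpr (not_lt.mp hc)
      omega
    · have k4 := R_swap_le X t ht' hX q (Equiv.swap (t - 1) t p') hqX k1
      rw [hinv] at k4
      by_contra hc
      have := k4.mpr (not_lt.mp hc)
      omega

end H95H
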