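import Pool.Agent.Lib.H95H.R03

namespace H95H

/-!
# Chunk R06: removing an arc of length one

Let `t - 1, t ∉ X`, `t - 1 ∉ V'`, `t ∈ V'`, and `X₁ = insert (t-1) (insert t X)`, `V₁ = V'.erase t`. Then
`vl X V' (t-1) = -1`, `vl X V' t = 1`, `vl X₁ V₁ = 0` at both, and the values agree elsewhere.
* `R_cap_short`: `(t-1, t)` is an arc of `(X, V')` (`R_arc_iff`: `ht (t-1) t = 0`, `ht t t = 1`).
* `R_cap_ht`: if `p ≠ t`, `q ≠ t - 1` then `Icc p q` contains both or none of `t - 1`, `t`, so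
  `ht X₁ V₁ p q = ht X V' p q`.
* `R_cap_arc`: for `(p, q) ≠ (t-1, t)`: `Arc X V' p q ↔ Arc X₁ V₁ p q`, both imply
  `p, q ∉ {t - 1, t}` (in the first case because of `R_cap_short` and uniqueness `R_right`, `R_left`; `t ∈ V'`
  is not a left end, `t - 1 ∉ V'` is not a right end). Use `R_arc_iff`: `ht` agrees for `p' ≠ t`; for `p' = t`
  (`p < t ≤ q`, so `t < q`, `p < t - 1`): in the direction (→) `ht X₁ V₁ t q = ht X₁ V₁ (t+1) q =
  ht X V' (t+1) q ≥ 1`; in the direction (←): `ht X V' t q = 1 + ht X V' (t+1) q =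
  1 + ht X₁ V₁ (t+1) q ≥ 1`.
-/

theorem R_cap_short (X V' : Finset ℕ) (t : ℕ) (ht' : 1 ≤ t) (h1 : t - 1 ∉ X) (h2 : t ∉ X)
    (h3 : t - 1 ∉ V') (h4 : t ∈ V') (hd' : Disjoint X V') : Arc X V' (t - 1) t := by
  rw [R_arc_iff X V' hd']
  have e1 : ht X V' t t = 1 := by rw [R_ht_self]; simp [vl, h2, h4]
  refine ⟨by omega, h1, h3, h4, ?_, ?_⟩
  · rw [R_ht_left X V' (t - 1) t (by omega)]
    have : t - 1 + 1 = t := by omega
    rw [this, e1]
    simp [vl, h1, h3]
  · intro p' g1 g2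
    have : p' = t := by omega
    subst this
    exact e1.ge

theorem R_cap_ht (X V' : Finset ℕ) (t : ℕ) (ht' : 1 ≤ t) (h1 : t - 1 ∉ X) (h2 : t ∉ X)
    (h3 : t - 1 ∉ V') (h4 : t ∈ V') (p q : ℕ) (hp : p ≠ t) (hq : q ≠ t - 1) :
    ht (insert (t - 1) (insert t X)) (V'.erase t) p q = ht X V' p q := by
  classical
  unfold ht
  have hval : ∀ x, x ≠ t - 1 → x ≠ t →
      vl (insert (t - 1) (insert t X)) (V'.erase t) x = vl X V' x := by
    intro x hx1 hx2
    simp [vl, hx1, hx2]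
  by_cases hin : p ≤ t - 1 ∧ t ≤ q
  · have e1 : (Finset.Icc p q) = ((Finset.Icc p q) \ {t - 1, t}) ∪ {t - 1, t} := by
      rw [Finset.sdiff_union_of_subset]
      intro x hx
      simp only [Finset.mem_insert, Finset.mem_singleton] at hx
      rw [Finset.mem_Icc]
      omega
    rw [e1, Finset.sum_union Finset.sdiff_disjoint, Finset.sum_union Finset.sdiff_disjoint]
    have hne : t - 1 ≠ t := by omega
    rw [Finset.sum_pair hne, Finset.sum_pair hne]
    have v1 : vl (insert (t - 1) (insert t X)) (V'.erase t) (t - 1) = 0 := by simp [vl]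
    have v2 : vl (insert (t - 1) (insert t X)) (V'.erase t) t = 0 := by simp [vl]
    have v3 : vl X V' (t - 1) = -1 := by simp [vl, h1, h3]
    have v4 : vl X V' t = 1 := by simp [vl, h2, h4]
    rw [v1, v2, v3, v4]
    simp only [add_zero, Int.reduceNeg, Int.reduceAdd]
    refine Finset.sum_congr rfl fun x hx => ?_
    simp only [Finset.mem_sdiff, Finset.mem_insert, Finset.mem_singleton, not_or] at hx
    exact hval x hx.2.1 hx.2.2
  · refine Finset.sum_congr rfl fun x hx => ?_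
    rw [Finset.mem_Icc] at hx
    exact hval x (by omega) (by omega)

/-- an arc with one endpoint in `{t - 1, t}` is `(t - 1, t)` -/
theorem r06_end (X V' : Finset ℕ) (t : ℕ) (ht' : 1 ≤ t) (h1 : t - 1 ∉ X) (h2 : t ∉ X)
    (h3 : t - 1 ∉ V') (h4 : t ∈ V') (hd' : Disjoint X V') (p q : ℕ) (h : Arc X V' p q) :
    (p = t - 1 ∧ q = t) ∨ (p ≠ t - 1 ∧ p ≠ t ∧ q ≠ t - 1 ∧ q ≠ t) := by
  have hs := R_cap_short X V' t ht' h1 h2 h3 h4 hd'
  by_cases hp : p = t - 1
  · left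
    subst hp
    exact ⟨rfl, R_left X V' hd' _ _ _ h hs⟩
  · by_cases hq : q = t
    · left
      subst hq
      exact ⟨R_right X V' _ _ _ h hs, rfl⟩
    · right
      refine ⟨hp, ?_, ?_, hq⟩
      · rintro rfl; exact h.2.2.1 h4
      · rintro rfl; exact h3 h.2.2.2.1

theorem R_cap_arc (X V' : Finset ℕ) (t : ℕ) (ht' : 1 ≤ t) (h1 : t - 1 ∉ X) (h2 : t ∉ X)
    (h3 : t - 1 ∉ V') (h4 : t ∈ V') (hd' : Disjoint X V') (p q : ℕ) :
    Arc (insert (t - 1) (insert t X)) (V'.erase t) p q ↔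
      (Arc X V' p q ∧ p ≠ t - 1 ∧ p ≠ t ∧ q ≠ t - 1 ∧ q ≠ t) := by
  classical
  have hd2 : Disjoint (insert (t - 1) (insert t X)) (V'.erase t) := by
    rw [Finset.disjoint_left]
    intro x hx hx'
    rw [Finset.mem_erase] at hx'
    simp only [Finset.mem_insert] at hx
    rcases hx with rfl | rfl | hx
    · exact h3 hx'.2
    · exact hx'.1 rfl
    · exact (Finset.disjoint_left.mp hd' hx) hx'.2
  constructor
  · intro h
    rw [R_arc_iff _ _ hd2] at h
    obtain ⟨a1, a2, a3, a4, a5, a6⟩ := h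
    simp only [Finset.mem_insert, not_or] at a2
    rw [Finset.mem_erase] at a3 a4
    have hq1 : q ≠ t - 1 := by rintro rfl; exact h3 a4.2
    have a3' : p ∉ V' := fun h => a3 ⟨a2.2.1, h⟩
    refine ⟨?_, a2.1, a2.2.1, hq1, a4.1⟩
    rw [R_arc_iff X V' hd']
    refine ⟨a1, a2.2.2, a3', a4.2, ?_, ?_⟩
    · rw [← R_cap_ht X V' t ht' h1 h2 h3 h4 p q a2.2.1 hq1]; exact a5
    · intro p' g1 g2
      by_cases hp' : p' = t
      · subst hp'
        have hlt : p' < q := lt_of_le_of_ne g2 (Ne.symm a4.1)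
        rw [R_ht_left X V' p' q hlt,
          ← R_cap_ht X V' p' ht' h1 h2 h3 h4 (p' + 1) q (by omega) hq1]
        have := a6 (p' + 1) (by omega) (by omega)
        have v4 : vl X V' p' = 1 := by simp [vl, h2, h4]
        omega
      · rw [← R_cap_ht X V' t ht' h1 h2 h3 h4 p' q hp' hq1]
        exact a6 p' g1 g2
  · rintro ⟨h, b1, b2, b3, b4⟩
    rw [R_arc_iff X V' hd'] at h
    obtain ⟨a1, a2, a3, a4, a5, a6⟩ := h
    rw [R_arc_iff _ _ hd2]
    refine ⟨a1, by simp [b1, b2, a2], by simp [b2, a3], by simp [b4, a4], ?_, ?_⟩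
    · rw [R_cap_ht X V' t ht' h1 h2 h3 h4 p q b2 b3]; exact a5
    · intro p' g1 g2
      by_cases hp' : p' = t
      · subst hp'
        have hlt : p' < q := lt_of_le_of_ne g2 (Ne.symm b4)
        rw [R_ht_left _ _ p' q hlt,
          R_cap_ht X V' p' ht' h1 h2 h3 h4 (p' + 1) q (by omega) b3]
        have := a6 (p' + 1) (by omega) (by omega)
        have v4 : vl (insert (p' - 1) (insert p' X)) (V'.erase p') p' = 0 := by simp [vl]
        omega
      · rw [R_cap_ht X V' t ht' h1 h2 h3 h4 p' q hp' b3]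
        exact a6 p' g1 g2

/-- an arc with one endpoint in `{t - 1, t}` is `(t - 1, t)` -/
theorem R_cap_end (X V' : Finset ℕ) (t : ℕ) (ht' : 1 ≤ t) (h1 : t - 1 ∉ X) (h2 : t ∉ X)
    (h3 : t - 1 ∉ V') (h4 : t ∈ V') (hd' : Disjoint X V') (p q : ℕ) (h : Arc X V' p q) :
    (p = t - 1 ∧ q = t) ∨ (p ≠ t - 1 ∧ p ≠ t ∧ q ≠ t - 1 ∧ q ≠ t) :=
  r06_end X V' t ht' h1 h2 h3 h4 hd' p q h

end H95H
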