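import Pool.Agent.Lib.H95H.P00

namespace H95H

open MvPolynomial

variable {n k : ℕ}

/-!
# Chunk T01: cubes, and orthogonal complements

* `T01_cs`: all `d r z = 0`: `dS z = ∑ d r z` and `d r z` has label `κ + e_r`. `z = pr κ (dS y) = d s y` by
  labels. Put `y' = p s z`; its label is `κ - e_s`. `res` for `y`, then `d s`: `d s (d s (p s y)) = 0` (`dd`),
  `d s (c s y) = 0` (`dc`), so `d s (p s (d s y)) = d s y`, i.e. `d s y' = z`. For `r ≠ s`:
  `d r y' = - p s (d r z) = 0`.
* `T01_perp`: `z ↦ z - p z` with `p` from `A10_proj` for `N` maps `E` onto the orthogonal complement `U`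
  of `N` in `E` and has kernel `N` on `E`.
* `T01_KV`: for `c ∈ KV κ ⊓ MD ω` only the `T` with `∑ κ + T.card = ∑ ω.1` have `c T ≠ 0` (elements of
  `V κ` are homogeneous of degree `∑ κ`: `C04_deg` with `prC (zl κ) c = c`, or `A13_deg`).
-/

theorem T01_cs {H : Type*} [AddCommGroup H] [Module ℂ H] (S : CS n H) (κ : Fin n → ℤ) (s : Fin n)
    (y z : H) (hz : S.pr κ z = z) (hd : S.dS z = 0) (hy : S.pr (κ - Pi.single s 1) y = y)
    (hzy : z = S.pr κ (S.dS y)) :
    ∃ y', S.pr (κ - Pi.single s 1) y' = y' ∧ S.dS y' = z := by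
  have hlab : ∀ r, S.d r z = S.pr (κ + Pi.single r 1) (S.d r z) := by
    intro r
    rw [← S.d_pr, hz]
  have hsinj : ∀ r r' : Fin n, r ≠ r' → (Pi.single r 1 : Fin n → ℤ) ≠ Pi.single r' 1 := by
    intro r r' hne he
    have h := congrFun he r
    rw [Pi.single_eq_same, Pi.single_eq_of_ne hne] at h
    exact one_ne_zero h
  have hdz : ∀ r, S.d r z = 0 := by
    intro r
    have h1 : S.pr (κ + Pi.single r 1) (S.dS z) = S.d r z := by
      unfold CS.dS
      rw [LinearMap.sum_apply, map_sum, Finset.sum_eq_single r]
      · exact (hlab r).symm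
      · intro r' _ hne
        rw [hlab r']
        refine S.pr_orth _ _ (fun he => ?_) _
        exact hsinj r r' hne.symm (add_left_cancel he)
      · intro h
        exact absurd (Finset.mem_univ r) h
    rw [← h1, hd, map_zero]
  have hzs : z = S.d s y := by
    have hy' : ∀ r, S.d r y = S.pr (κ - Pi.single s 1 + Pi.single r 1) (S.d r y) := by
      intro r
      rw [← S.d_pr, hy]
    rw [hzy]
    unfold CS.dS
    rw [LinearMap.sum_apply, map_sum, Finset.sum_eq_single s]
    · have h1 := hy' s
      rw [sub_add_cancel] at h1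
      exact h1.symm
    · intro r' _ hne
      rw [hy' r']
      refine S.pr_orth _ _ (fun he => ?_) _
      apply hsinj s r' hne.symm
      have h2 : κ + Pi.single s 1 = κ + Pi.single r' 1 := by
        calc κ + Pi.single s 1 = (κ - Pi.single s 1 + Pi.single r' 1) + Pi.single s 1 := by rw [← he]
          _ = κ + Pi.single r' 1 := by abel
      exact add_left_cancel h2
    · intro h
      exact absurd (Finset.mem_univ s) h
  refine ⟨S.p s z, ?_, ?_⟩
  · rw [← S.p_pr, hz]
  · have hds : S.d s (S.p s z) = z := by
      have h1 := congrArg (S.d s) (S.res s y)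
      rw [map_add, map_add, S.dc, add_zero] at h1
      have h2 : S.d s (S.d s (S.p s y)) = 0 := by
        have h3 := S.dd s s (S.p s y)
        have h4 : (2 : ℂ) • S.d s (S.d s (S.p s y)) = 0 := by
          rw [two_smul]
          exact h3
        rcases smul_eq_zero.1 h4 with h5 | h5
        · exact absurd h5 two_ne_zero
        · exact h5
      rw [h2, zero_add, ← hzs] at h1
      exact h1
    unfold CS.dS
    rw [LinearMap.sum_apply, Finset.sum_eq_single s]
    · exact hds
    · intro r _ hne
      have h1 := S.dp r s hne z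
      rw [hdz r, map_zero, add_zero] at h1
      exact h1
    · intro h
      exact absurd (Finset.mem_univ s) h

end H95H
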