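import Pool.Agent.Lib.H95H.A10a

namespace H95H

open MvPolynomial

variable {n k : ℕ}

/-!
# Chunk T01: cubes, and orthogonal complements

* `T01_cs`: all `d r z = 0`: `dS z = ∑ d r z` and `d r z` has label `κ + e_r`. `z = pr κ (dS y) = d s y` by
  labels. Put `y' = p s z`; its label is `κ - e_s`. `res` for `y`, then `d s`: `d s (d s (p s y)) = 0` (`dd`),
  `d s (c s y) = 0` (`dc`), so `d s (p s (d s y)) = d s y`, i.e. `d s y' = z`. For `r ≠ s`:
  `d r y' = - p s (d r z) = 0`.
* `T01_perp`: `z ↦ z - p z` with `p` from `A10_proj` for `N` maps `E` onto the orthogonal complement `U`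
  of `N` in `E` and has kernel `N` on `E`.
* `T01_KV`: for `c ∈ KV κ ⊓ MD ω` only the `T` with `∑ κ + T.card = ∑ ω.1` have `c T ≠ 0` (elements of
  `V κ` are homogeneous of degree `∑ κ`: `C04_deg` with `prC (zl κ) c = c`, or `A13_deg`).
-/

theorem T01_perp {E : Type*} [AddCommGroup E] [Module ℂ E] (h : E → E → ℂ) (hh : Herm h)
    (K N U : Submodule ℂ E) [Module.Finite ℂ ↥K] (hN : N ≤ K)
    (hU : ∀ z, z ∈ U ↔ z ∈ K ∧ ∀ c ∈ N, h z c = 0) :
    Module.finrank ℂ ↥U + Module.finrank ℂ ↥N = Module.finrank ℂ ↥K := by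
  have hNfin : Module.Finite ℂ ↥N := Submodule.finiteDimensional_of_le hN
  have hUK : U ≤ K := fun z hz => ((hU z).1 hz).1
  have hUfin : Module.Finite ℂ ↥U := Submodule.finiteDimensional_of_le hUK
  obtain ⟨p, hp, hp'⟩ := A10_proj h hh N
  have hinf : U ⊓ N = ⊥ := by
    rw [eq_bot_iff]
    intro z hz
    rw [Submodule.mem_inf] at hz
    have h0 := ((hU z).1 hz.1).2 z hz.2
    rw [Submodule.mem_bot]
    by_contra hne
    have h1 := hh.pos z hne
    rw [h0] at h1
    simp at h1
  have hsup : U ⊔ N = K := by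
    apply le_antisymm (sup_le hUK hN)
    intro z hz
    have e : z = (z - p z) + p z := by abel
    rw [e]
    refine Submodule.add_mem_sup ?_ (hp z)
    rw [hU]
    refine ⟨K.sub_mem hz (hN (hp z)), ?_⟩
    intro c hc
    rw [hh.symm, hp' z c hc, map_zero]
  have := Submodule.finrank_sup_add_finrank_inf_eq U N
  rw [hinf, hsup, finrank_bot, add_zero] at this
  exact this.symm

end H95H
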