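import Pool.Agent.Lib.H95H.C04b
import Pool.Agent.Lib.H95H.H03a

namespace H95H

open MvPolynomial

variable {n k : ℕ}

/-!
# Chunk T01: cubes, and orthogonal complements

* `T01_cs`: all `d r z = 0`: `dS z = ∑ d r z` and `d r z` has label `κ + e_r`. `z = pr κ (dS y) = d s y` by
  labels. Put `y' = p s z`; its label is `κ - e_s`. `res` for `y`, then `d s`: `d s (d s (p s y)) = 0` (`dd`),
  `d s (c s y) = 0` (`dc`), so `d s (p s (d s y)) = d s y`, i.e. `d s y' = z`. For `r ≠ s`: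
  `d r y' = - p s (d r z) = 0`.
* `T01_perp`: `z ↦ z - p z` with `p` from `A10_proj` for `N` maps `E` onto the orthogonal complement `U`
  of `N` in `E` and has kernel `N` on `E`.
* `T01_KV`: for `c ∈ KV κ ⊓ MD ω` only the `T` with `∑ κ + T.card = ∑ ω.1` have `c T ≠ 0` (elements of
  `V κ` are homogeneous of degree `∑ κ`: `C04_deg` with `prC (zl κ) c = c`, or `A13_deg`).
-/

theorem T01_KV (κ : Fin n → ℕ) (hκ : Antitone κ) (ω : Wt (n + k) n) (c : Kz (n + k) n)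
    (hc : c ∈ KV (k := k) κ) (hω : c ∈ MD ω) (T : Finset (Fin (n + k) × Fin n))
    (h : ∑ r, κ r + T.card ≠ ∑ i, ω.1 i) : c T = 0 := by
  have h1 := C04_deg κ hκ ω c hω T h
  rw [C04_zl κ hκ] at h1
  have h2 : (co (prV (k := k) κ) c) T = prV κ (c T) := rfl
  rw [h2, A13_self κ (c T) (hc T)] at h1
  exact h1

theorem T01_Ch (κ : Fin n → ℕ) (hκ : Antitone κ) (j : ℕ) (ω : Wt (n + k) n)
    (hj : ∑ r, κ r + j = ∑ i, ω.1 i) : Ch (V (k := k) κ) j ω = KV (k := k) κ ⊓ MD ω := by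
  apply le_antisymm
  · rintro c ⟨h1, -, h3⟩
    exact ⟨h1, h3⟩
  · rintro c ⟨h1, h3⟩
    refine ⟨h1, fun T hT => ?_, h3⟩
    refine T01_KV κ hκ ω c h1 h3 T ?_
    omega

end H95H
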