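import Pool.Agent.Lib.H95H.G04b
import Pool.Agent.Lib.H95H.H03c
import Pool.Agent.Lib.H95H.H04d

namespace H95H

open MvPolynomial

variable {n k : ℕ}

/-- index set of the family `NF` -/
abbrev IT {n : ℕ} (κ : Fin n → ℕ) (Y : Finset (Fin n)) : Type :=
  {r : Fin n // Antitone (κ + Pi.single r 1)} ⊕ {s : Fin n // s ∈ Y}

/-- The images of the maps `KV (κ + e_r) → KV κ` and, for `s ∈ Y`, the kernels of
`KV κ → KV (κ - e_s)`. -/
noncomputable def NF (k : ℕ) {n : ℕ} (κ : Fin n → ℕ) (Y : Finset (Fin n)) :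
    IT κ Y → Submodule ℂ ↥(KV (k := k) κ)
  | Sum.inl r => LinearMap.range (PM k (κ + Pi.single r.1 1) κ)
  | Sum.inr s => LinearMap.ker (PM k κ (κ - Pi.single s.1 1))

/-!
# Chunk T02: the universal numbers as codimensions

Let `κ` be antitone, `Y ⊆ Rem κ`, `∑ κ + j = ∑ ω.1 =: D`. `K = KV κ ⊓ MD ω`, `N = (⨆ NF i) ⊓ MD ω` (in `Kz`),
`U` the space in the definition of `bnum κ Y j ω`.
* `T02_stab`: `H04_stab`.
* `T02_wt`: the `NF i` are submodules of the good module `KK κ`, so they (and their supremum) are the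
  sums of their weight components (`G05_comp`, `H03_wtK`): a component of weight `ω` of a sum
  `∑ c_i`, `c_i ∈ NF i`, is the sum of the components, which are in `NF i ⊓ MD ω`.
* `T02_rg`: `PM` preserves weights, so the weight component of `PM y` is `PM` of the weight
  component of `y` (`C03_deRham_MD`, `C04_MD`; the whole chain space is spanned by the weight
  components).
* `T02_perp`: `z ∈ U` iff `z ∈ K` and `hc z c = 0` for all `c ∈ N`. Use `T01_Ch` for `κ` and `κ - e_s`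
  (`∑ (κ - e_s) + (j + 1) = D`, antitone as `s ∈ Rem κ`); on `KV μ ⊓ MD ω` the twist `tw` is the scalar
  `(-1)^(D - ∑ μ)` (`T01_KV`).
  (⇒) By `T02_wt` it is enough to treat `c ∈ NF i ⊓ MD ω`. `c = PM y`, `y ∈ KV (κ + e_r) ⊓ MD ω`
  (`T02_rg`): `hc z (prC κ (deRham (tw y))) = hc z (deRham (tw y)) = hc (koszul z) (tw y) = 0`
  (`C03_adj`, `C04_adj`). `c ∈ ker PM κ (κ - e_s)`: `z = koszul y`, `y ∈ KV (κ - e_s) ⊓ MD ω`:
  `hc (koszul y) c = hc y (deRham c) = hc (prC y) (deRham c) = hc y (prC (deRham c)) = 0`.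
  (⇐) (i) `koszul z = 0`: `koszul z = ∑ prC κ'' (koszul z)` (`C04_sum`, `C03_koszul_MD`), and only
  `κ'' = zl κ + e_r`, antitone, contribute (`C04_pieri`, `C04_cases`). For such `r` let
  `x = prC (zl (κ + e_r)) (koszul z) ∈ KV (κ + e_r) ⊓ MD ω`; `hc x x = hc (koszul z) x = hc z (deRham x) =
  hc z (prC κ (deRham x)) = ± hc z (PM x) = 0`. So `x = 0`.
  (ii) let `s ∈ Y`, `κ_s = κ - e_s`, `Im = {prC κ (koszul y) | y ∈ KV κ_s ⊓ MD ω} ≤ K`. Let `z = z₁ + z₂`,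
  `z₁ ∈ Im`, `z₂ ⊥ Im` (`A10_proj`). For all `y`: `0 = hc (koszul y) z₂ = hc y (deRham z₂)`, so the
  component `prC κ_s (deRham z₂)`, which is in `KV κ_s ⊓ MD ω`, is `0`, i.e. `z₂ ∈ ker PM κ κ_s ⊓ MD ω`, so
  `hc z z₂ = 0` and `hc z₂ z₂ = hc z z₂ - hc z₁ z₂ = 0`. So `z = prC κ (koszul y)`. Now `T01_cs` for
  `SS ω` (`SS_pr`, `SS_dS`) gives `y'` with `koszul y' = z`, `prC κ_s y' = y'`.
* `T02_main`: `T01_perp` with `hc` (`C03_herm`), `C03_MD_fin`.
* `T02_wsp`: `Wsp` of `KK κ`, `(KK κ).res N` and `MD ω`: `H03_wtK`.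
-/

/-- the component of a vector of weight `q` -/
theorem t02a_pick {m n : ℕ} {M : Type} [AddCommGroup M] [Module ℂ M] (S : G0 m n M)
    (s : Finset ((Fin m → ℤ) × (Fin n → ℤ))) (w : (Fin m → ℤ) × (Fin n → ℤ) → M)
    (hw : ∀ p ∈ s, w p ∈ S.Wsp p.1 p.2) (q : (Fin m → ℤ) × (Fin n → ℤ)) (v : M)
    (hv : v ∈ S.Wsp q.1 q.2) (hsum : ∑ p ∈ s, w p = v) :
    v = if q ∈ s then w q else 0 := by
  classical
  set w' : (Fin m → ℤ) × (Fin n → ℤ) → M := fun p =>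
    (if p ∈ s then w p else 0) - (if p = q then v else 0) with hw'
  have h1 : ∑ p ∈ insert q s, w' p ∈ (⊥ : Submodule ℂ M) := by
    rw [Submodule.mem_bot, hw', Finset.sum_sub_distrib, Finset.sum_ite_eq' (insert q s) q,
      if_pos (Finset.mem_insert_self q s)]
    have h2 : ∑ p ∈ insert q s, (if p ∈ s then w p else 0) = ∑ p ∈ s, w p := by
      rw [← Finset.sum_filter]
      congr 1
      ext p
      simp only [Finset.mem_filter, Finset.mem_insert]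
      tauto
    rw [h2, hsum, sub_self]
  have h3 := g05a_mem S ⊥ (fun i v hv => by
    rw [Submodule.mem_bot] at hv ⊢
    rw [hv, map_zero]) (fun i v hv => by
    rw [Submodule.mem_bot] at hv ⊢
    rw [hv, map_zero]) (insert q s) w' (fun p _ => by
      rw [hw']
      refine Submodule.sub_mem _ ?_ ?_
      · by_cases hp : p ∈ s
        · rw [if_pos hp]
          exact hw p hp
        · rw [if_neg hp]
          exact Submodule.zero_mem _
      · by_cases hp : p = q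
        · rw [if_pos hp, hp]
          exact hv
        · rw [if_neg hp]
          exact Submodule.zero_mem _) h1 q (Finset.mem_insert_self q s)
  rw [Submodule.mem_bot, hw'] at h3
  simp only [if_true] at h3
  exact (sub_eq_zero.1 h3).symm

theorem T02_stab (κ : Fin n → ℕ) (Y : Finset (Fin n)) (i : IT κ Y) :
    (KK k κ).Stab (NF k κ Y i) := by
  rcases i with r | s
  · exact (H04_stab (κ + Pi.single r.1 1) κ).1
  · exact (H04_stab κ (κ - Pi.single s.1 1)).2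

theorem T02_wt (κ : Fin n → ℕ) (Y : Finset (Fin n)) (ω : Wt (n + k) n) :
    ((⨆ i, NF k κ Y i).map (KV (k := k) κ).subtype) ⊓ MD ω =
      ⨆ i, ((NF k κ Y i).map (KV (k := k) κ).subtype) ⊓ MD ω := by
  apply le_antisymm
  · rintro c ⟨⟨v, hv, rfl⟩, hω⟩
    have hvω : v ∈ (KK k κ).toG0.Wsp (fun i => (ω.1 i : ℤ)) (fun l => (ω.2 l : ℤ)) :=
      (H03_wtK κ ω v).2 hω
    set q : (Fin (n + k) → ℤ) × (Fin n → ℤ) := (fun i => (ω.1 i : ℤ), fun l => (ω.2 l : ℤ)) with hq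
    have hle : (⨆ i, NF k κ Y i) ≤ ⨆ p : (Fin (n + k) → ℤ) × (Fin n → ℤ),
        ⨆ i, (NF k κ Y i ⊓ (KK k κ).toG0.Wsp p.1 p.2) := by
      refine iSup_le fun i => ?_
      conv_lhs => rw [G05_comp (KK k κ).toG0 (H03_good κ) (NF k κ Y i)
        (fun j v hv => (T02_stab κ Y i).1.1 j j v hv) (fun j v hv => (T02_stab κ Y i).1.2 j j v hv)]
      refine iSup_le fun α => iSup_le fun β => ?_
      refine le_trans ?_ (le_iSup _ (α, β))
      exact le_iSup (fun i => NF k κ Y i ⊓ (KK k κ).toG0.Wsp α β) i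
    obtain ⟨f, hf, hfs⟩ := (Submodule.mem_iSup_iff_exists_finsupp _ v).1 (hle hv)
    have hf2 : ∀ p ∈ f.support, f p ∈ (KK k κ).toG0.Wsp p.1 p.2 := by
      intro p _
      have h1 : (⨆ i, (NF k κ Y i ⊓ (KK k κ).toG0.Wsp p.1 p.2)) ≤ (KK k κ).toG0.Wsp p.1 p.2 :=
        iSup_le fun i => inf_le_right
      exact h1 (hf p)
    have h3 := t02a_pick (KK k κ).toG0 f.support f hf2 q v hvω hfs
    have h4 : v ∈ ⨆ i, (NF k κ Y i ⊓ (KK k κ).toG0.Wsp q.1 q.2) := by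
      rw [h3]
      by_cases hqs : q ∈ f.support
      · rw [if_pos hqs]
        exact hf q
      · rw [if_neg hqs]
        exact Submodule.zero_mem _
    have h5 : (⨆ i, (NF k κ Y i ⊓ (KK k κ).toG0.Wsp q.1 q.2)).map (KV (k := k) κ).subtype ≤
        ⨆ i, ((NF k κ Y i).map (KV (k := k) κ).subtype) ⊓ MD ω := by
      rw [Submodule.map_iSup]
      refine iSup_mono fun i => ?_
      rintro _ ⟨u, ⟨hu1, hu2⟩, rfl⟩
      exact ⟨⟨u, hu1, rfl⟩, (H03_wtK κ ω u).1 hu2⟩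
    exact h5 ⟨v, h4, rfl⟩
  · refine iSup_le fun i => ?_
    exact inf_le_inf_right _ (Submodule.map_mono (le_iSup _ i))

theorem T02_rg (κ κ₁ : Fin n → ℕ) (ω : Wt (n + k) n) (c : ↥(KV (k := k) κ₁))
    (hc : c ∈ LinearMap.range (PM k κ κ₁)) (hω : (c : Kz (n + k) n) ∈ MD ω) :
    ∃ y : ↥(KV (k := k) κ), (y : Kz (n + k) n) ∈ MD ω ∧ PM k κ κ₁ y = c := by
  obtain ⟨u, rfl⟩ := hc
  obtain ⟨s, w, hw, hu⟩ := g05a_dec (KK k κ).toG0 (H03_good κ) u
  set q : (Fin (n + k) → ℤ) × (Fin n → ℤ) := (fun i => (ω.1 i : ℤ), fun l => (ω.2 l : ℤ)) with hq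
  have hv : PM k κ κ₁ u ∈ (KK k κ₁).toG0.Wsp q.1 q.2 := (H03_wtK κ₁ ω _).2 hω
  have hsum : ∑ p ∈ s, PM k κ κ₁ (w p) = PM k κ κ₁ u := by
    rw [← map_sum, ← hu]
  have h3 := t02a_pick (KK k κ₁).toG0 s (fun p => PM k κ κ₁ (w p))
    (fun p _ => g04b_map (H04_PM κ κ₁) p.1 p.2 (w p) (hw p)) q _ hv hsum
  by_cases hqs : q ∈ s
  · refine ⟨w q, (H03_wtK κ ω _).1 (hw q), ?_⟩
    rw [h3, if_pos hqs]
  · refine ⟨0, (MD ω).zero_mem, ?_⟩
    rw [h3, if_neg hqs, map_zero]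

end H95H
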