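import Pool.Agent.Lib.H95H.F02b
import Pool.Agent.Lib.H95H.T01a
import Pool.Agent.Lib.H95H.T01c
import Pool.Agent.Lib.H95H.T02a

namespace H95H

open MvPolynomial

variable {n k : ℕ}

/-!
# Chunk T02: the universal numbers as codimensions

Let `κ` be antitone, `Y ⊆ Rem κ`, `∑ κ + j = ∑ ω.1 =: D`. `K = KV κ ⊓ MD ω`, `N = (⨆ NF i) ⊓ MD ω` (in `Kz`),
`U` the space in the definition of `bnum κ Y j ω`.
* `T02_stab`: `H04_stab`.
* `T02_wt`: the `NF i` are submodules of the good module `KK κ`, so they (and their supremum) are the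
  sums of their weight components (`G05_comp`, `H03_wtK`): a component of weight `ω` of a sum
  `∑ c_i`, `c_i ∈ NF i`, is the sum of the components, which are in `NF i ⊓ MD ω`.
* `T02_rg`: `PM` preserves weights, so the weight component of `PM y` is `PM` of the weight
  component of `y` (`C03_deRham_MD`, `C04_MD`; the whole chain space is spanned by the weight
  components).
* `T02_perp`: `z ∈ U` iff `z ∈ K` and `hc z c = 0` for all `c ∈ N`. Use `T01_Ch` for `κ` and `κ - e_s`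
  (`∑ (κ - e_s) + (j + 1) = D`, antitone as `s ∈ Rem κ`); on `KV μ ⊓ MD ω` the twist `tw` is the scalar
  `(-1)^(D - ∑ μ)` (`T01_KV`).
  (⇒) By `T02_wt` it is enough to treat `c ∈ NF i ⊓ MD ω`. `c = PM y`, `y ∈ KV (κ + e_r) ⊓ MD ω`
  (`T02_rg`): `hc z (prC κ (deRham (tw y))) = hc z (deRham (tw y)) = hc (koszul z) (tw y) = 0`
  (`C03_adj`, `C04_adj`). `c ∈ ker PM κ (κ - e_s)`: `z = koszul y`, `y ∈ KV (κ - e_s) ⊓ MD ω`:
  `hc (koszul y) c = hc y (deRham c) = hc (prC y) (deRham c) = hc y (prC (deRham c)) = 0`.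
  (⇐) (i) `koszul z = 0`: `koszul z = ∑ prC κ'' (koszul z)` (`C04_sum`, `C03_koszul_MD`), and only
  `κ'' = zl κ + e_r`, antitone, contribute (`C04_pieri`, `C04_cases`). For such `r` let
  `x = prC (zl (κ + e_r)) (koszul z) ∈ KV (κ + e_r) ⊓ MD ω`; `hc x x = hc (koszul z) x = hc z (deRham x) =
  hc z (prC κ (deRham x)) = ± hc z (PM x) = 0`. So `x = 0`.
  (ii) let `s ∈ Y`, `κ_s = κ - e_s`, `Im = {prC κ (koszul y) | y ∈ KV κ_s ⊓ MD ω} ≤ K`. Let `z = z₁ + z₂`,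
  `z₁ ∈ Im`, `z₂ ⊥ Im` (`A10_proj`). For all `y`: `0 = hc (koszul y) z₂ = hc y (deRham z₂)`, so the
  component `prC κ_s (deRham z₂)`, which is in `KV κ_s ⊓ MD ω`, is `0`, i.e. `z₂ ∈ ker PM κ κ_s ⊓ MD ω`, so
  `hc z z₂ = 0` and `hc z₂ z₂ = hc z z₂ - hc z₁ z₂ = 0`. So `z = prC κ (koszul y)`. Now `T01_cs` for
  `SS ω` (`SS_pr`, `SS_dS`) gives `y'` with `koszul y' = z`, `prC κ_s y' = y'`.
* `T02_main`: `T01_perp` with `hc` (`C03_herm`), `C03_MD_fin`.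
* `T02_wsp`: `Wsp` of `KK κ`, `(KK κ).res N` and `MD ω`: `H03_wtK`.
-/

theorem t02b_pr (κ : Fin n → ℕ) (hκ : Antitone κ) (c : Kz (n + k) n) (hc : c ∈ KV (k := k) κ) :
    prC (zl κ) c = c := by
  rw [C04_zl κ hκ]
  funext T
  exact A13_self κ (c T) (hc T)

theorem t02b_mem (κ : Fin n → ℕ) (hκ : Antitone κ) (c : Kz (n + k) n) :
    prC (zl κ) c ∈ KV (k := k) κ := by
  rw [C04_zl κ hκ]
  exact H04_mem κ c

theorem t02b_tw (κ : Fin n → ℕ) (hκ : Antitone κ) (ω : Wt (n + k) n) (c : Kz (n + k) n)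
    (hc : c ∈ KV (k := k) κ) (hω : c ∈ MD ω) :
    tw c = ((-1 : ℂ) ^ (∑ i, ω.1 i - ∑ r, κ r)) • c := by
  funext T
  show ((-1 : ℂ) ^ T.card) • c T = ((-1 : ℂ) ^ (∑ i, ω.1 i - ∑ r, κ r)) • c T
  by_cases h : ∑ r, κ r + T.card = ∑ i, ω.1 i
  · have e : ∑ i, ω.1 i - ∑ r, κ r = T.card := by omega
    rw [e]
  · rw [T01_KV κ hκ ω c hc hω T h, smul_zero, smul_zero]

theorem t02b_PM (κ κ₁ : Fin n → ℕ) (hκ : Antitone κ) (hκ₁ : Antitone κ₁) (ω : Wt (n + k) n)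
    (c : ↥(KV (k := k) κ)) (hω : (c : Kz (n + k) n) ∈ MD ω) :
    (PM k κ κ₁ c : Kz (n + k) n) =
      ((-1 : ℂ) ^ (∑ i, ω.1 i - ∑ r, κ r)) • prC (zl κ₁) (deRham (c : Kz (n + k) n)) := by
  show co (prV (k := k) κ₁) (deRham (tw (c : Kz (n + k) n))) = _
  rw [t02b_tw κ hκ ω c c.2 hω, map_smul, map_smul, C04_zl κ₁ hκ₁]

theorem t02b_zero (x : Kz (n + k) n) (h : hc x x = 0) : x = 0 := g05b_self C03_herm x h

theorem t02b_neg (N : ℕ) : ((-1 : ℂ) ^ N) ≠ 0 := pow_ne_zero N (by norm_num)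

/-- from the description to the orthogonality -/
theorem t02b_mp (κ : Fin n → ℕ) (hκ : Antitone κ) (Y : Finset (Fin n)) (hY : Y ⊆ Rem κ)
    (ω : Wt (n + k) n) (z : Kz (n + k) n) (hz : z ∈ KV (k := k) κ) (hk : koszul z = 0)
    (hy : ∀ s ∈ Y, ∃ y ∈ KV (k := k) (κ - Pi.single s 1), koszul y = z)
    (c : Kz (n + k) n) (hcN : c ∈ ((⨆ i, NF k κ Y i).map (KV (k := k) κ).subtype) ⊓ MD ω) :
    hc z c = 0 := by
  rw [T02_wt] at hcN
  refine Submodule.iSup_induction (motive := fun c => hc z c = 0) _ hcN ?_ ?_ ?_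
  · rintro (r | s) c ⟨hc1, hc2⟩
    · obtain ⟨c', hc', rfl⟩ := hc1
      obtain ⟨y, hyω, hyc⟩ := T02_rg (κ + Pi.single r.1 1) κ ω c' hc' hc2
      have e : ((KV (k := k) κ).subtype c') = prC (zl κ) (deRham (tw (y : Kz (n + k) n))) := by
        rw [← hyc, C04_zl κ hκ]
        rfl
      rw [e, ← C04_adj, t02b_pr κ hκ z hz, ← C03_adj, hk]
      exact g05b_zeroL C03_herm _
    · obtain ⟨c', hc', rfl⟩ := hc1
      obtain ⟨y, hy1, hy2⟩ := hy s.1 s.2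
      obtain ⟨ha, -, -⟩ := f02b_anti κ hκ s.1 (hY s.2)
      have h0 : (PM k κ (κ - Pi.single s.1 1) c' : Kz (n + k) n) = 0 :=
        congrArg Subtype.val (LinearMap.mem_ker.1 hc')
      rw [t02b_PM κ _ hκ ha ω c' hc2] at h0
      have h1 : prC (zl (κ - Pi.single s.1 1)) (deRham (c' : Kz (n + k) n)) = 0 := by
        rcases smul_eq_zero.1 h0 with h | h
        · exact absurd h (t02b_neg _)
        · exact h
      show hc z (c' : Kz (n + k) n) = 0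
      rw [← hy2, C03_adj, ← t02b_pr _ ha y hy1, C04_adj, h1]
      exact g05b_zeroR C03_herm _
  · exact g05b_zeroR C03_herm _
  · intro a b ha hb
    rw [g05b_addR C03_herm, ha, hb, add_zero]

/-- orthogonality implies that `z` is a cycle -/
theorem t02b_cyc (κ : Fin n → ℕ) (hκ : Antitone κ) (Y : Finset (Fin n))
    (ω : Wt (n + k) n) (z : Kz (n + k) n) (hz : z ∈ KV (k := k) κ) (hω : z ∈ MD ω)
    (ho : ∀ c ∈ ((⨆ i, NF k κ Y i).map (KV (k := k) κ).subtype) ⊓ MD ω, hc z c = 0) :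
    koszul z = 0 := by
  have hkω := C03_koszul_MD ω z hω
  rw [← C04_sum ω (koszul z) hkω]
  refine Finset.sum_eq_zero fun κ' _ => ?_
  by_contra hne
  have hz' := t02b_pr κ hκ z hz
  have hne' : prC κ' (koszul (prC (zl κ) z)) ≠ 0 := by rwa [hz']
  obtain ⟨r, hr⟩ := C04_pieri (zl κ) κ' z hne'
  rcases C04_cases (k := k) κ' with h | ⟨lam, hlam, h⟩
  · exact hne (by rw [h]; rfl)
  have hzl : zl (κ + Pi.single r 1) = zl κ + Pi.single r 1 := by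
    funext t
    simp only [zl, Pi.add_apply]
    push_cast
    congr 1
    by_cases htr : t = r
    · subst htr
      simp
    · rw [Pi.single_eq_of_ne htr, Pi.single_eq_of_ne htr]
      simp
  have hlam' : lam = κ + Pi.single r 1 := by
    apply f01a_zl_inj
    rw [← h, hr, hzl]
  rw [hlam'] at hlam h
  set κ₁ := κ + Pi.single r 1 with hκ₁
  rw [h] at hne
  apply hne
  set x := prC (zl κ₁) (koszul z) with hx
  have hxK : x ∈ KV (k := k) κ₁ := t02b_mem κ₁ hlam _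
  have hxω : x ∈ MD ω := C04_MD _ ω _ hkω
  have hd : hc z (prC (zl κ) (deRham x)) = 0 := by
    have h1 := ho (PM k κ₁ κ ⟨x, hxK⟩ : Kz (n + k) n) ⟨⟨PM k κ₁ κ ⟨x, hxK⟩, ?_, rfl⟩, ?_⟩
    · rw [t02b_PM κ₁ κ hlam hκ ω ⟨x, hxK⟩ hxω, g05b_smulR C03_herm] at h1
      rcases mul_eq_zero.1 h1 with h2 | h2
      · exact absurd ((map_eq_zero _).1 h2) (t02b_neg _)
      · exact h2
    · exact (le_iSup (NF k κ Y) (Sum.inl ⟨r, hlam⟩)) ⟨⟨x, hxK⟩, rfl⟩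
    · rw [t02b_PM κ₁ κ hlam hκ ω ⟨x, hxK⟩ hxω]
      exact (MD ω).smul_mem _ (C04_MD _ ω _ (C03_deRham_MD ω x hxω))
  apply t02b_zero
  have h2 : hc x x = hc (koszul z) x := by
    conv_lhs => rw [hx]
    rw [C04_adj, t02b_pr κ₁ hlam x hxK]
  rw [h2, C03_adj, ← hz', C04_adj]
  exact hd

/-- orthogonality implies that `z` is a boundary from the label `κ - e_s` -/
theorem t02b_bd (κ : Fin n → ℕ) (hκ : Antitone κ) (Y : Finset (Fin n)) (hY : Y ⊆ Rem κ)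
    (ω : Wt (n + k) n) (z : Kz (n + k) n) (hz : z ∈ KV (k := k) κ) (hω : z ∈ MD ω)
    (ho : ∀ c ∈ ((⨆ i, NF k κ Y i).map (KV (k := k) κ).subtype) ⊓ MD ω, hc z c = 0)
    (s : Fin n) (hs : s ∈ Y) :
    ∃ y ∈ KV (k := k) (κ - Pi.single s 1) ⊓ MD ω, koszul y = z := by
  obtain ⟨ha, hzl, -⟩ := f02b_anti κ hκ s (hY hs)
  set κ₁ := κ - Pi.single s 1 with hκ₁
  have hk := t02b_cyc κ hκ Y ω z hz hω ho
  have hfin := C03_MD_fin (m := n + k) (n := n) ω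
  have hE : Module.Finite ℂ ↥(KV (k := k) κ₁ ⊓ MD ω) := Submodule.finiteDimensional_of_le inf_le_right
  set Im : Submodule ℂ (Kz (n + k) n) := (KV (k := k) κ₁ ⊓ MD ω).map (prC (zl κ) ∘ₗ koszul) with hIm
  have hImle : Im ≤ KV (k := k) κ ⊓ MD ω := by
    rintro _ ⟨y, hy, rfl⟩
    exact ⟨t02b_mem κ hκ _, C04_MD _ ω _ (C03_koszul_MD ω y hy.2)⟩
  have hImfin : Module.Finite ℂ ↥Im := Submodule.finiteDimensional_of_le (hImle.trans inf_le_right)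
  obtain ⟨p, hp, hp'⟩ := A10_proj (hc : Kz (n + k) n → Kz (n + k) n → ℂ) C03_herm Im
  have hz₂K : z - p z ∈ KV (k := k) κ := Submodule.sub_mem _ hz (hImle (hp z)).1
  have hz₂ω : z - p z ∈ MD ω := Submodule.sub_mem _ hω (hImle (hp z)).2
  have hy0 : ∀ y ∈ KV (k := k) κ₁ ⊓ MD ω, hc y (deRham (z - p z)) = 0 := by
    intro y hy
    have h1 := hp' z (prC (zl κ) (koszul y)) ⟨y, hy, rfl⟩
    rw [C04_adj, t02b_pr κ hκ _ hz₂K, C03_adj] at h1
    exact h1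
  have hx0 : prC (zl κ₁) (deRham (z - p z)) = 0 := by
    set x := prC (zl κ₁) (deRham (z - p z)) with hx
    have hxK : x ∈ KV (k := k) κ₁ := t02b_mem κ₁ ha _
    have hxω : x ∈ MD ω := C04_MD _ ω _ (C03_deRham_MD ω _ hz₂ω)
    apply t02b_zero
    have h1 : hc x x = hc x (deRham (z - p z)) := by
      conv_lhs =>
        arg 2
        rw [hx]
      rw [← C04_adj, t02b_pr κ₁ ha x hxK]
    rw [h1]
    exact hy0 x ⟨hxK, hxω⟩
  have hker : (⟨z - p z, hz₂K⟩ : ↥(KV (k := k) κ)) ∈ ⨆ i, NF k κ Y i := by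
    refine (le_iSup (NF k κ Y) (Sum.inr ⟨s, hs⟩)) ?_
    show _ ∈ LinearMap.ker (PM k κ (κ - Pi.single s 1))
    rw [LinearMap.mem_ker]
    apply Subtype.ext
    rw [t02b_PM κ _ hκ ha ω _ hz₂ω]
    show _ • prC (zl κ₁) (deRham (z - p z)) = 0
    rw [hx0, smul_zero]
  have h1 : hc z (z - p z) = 0 := ho _ ⟨⟨_, hker, rfl⟩, hz₂ω⟩
  have h2 : hc (p z) (z - p z) = 0 := hp' z _ (hp z)
  have h3 : z - p z = 0 := by
    apply t02b_zero
    have e : z - p z = z + (-(p z)) := sub_eq_add_neg _ _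
    calc hc (z - p z) (z - p z) = hc (z + (-(p z))) (z - p z) := by rw [← e]
      _ = hc z (z - p z) + hc (-(p z)) (z - p z) := C03_herm.add _ _ _
      _ = 0 := by rw [h1, g05b_negL C03_herm, h2, neg_zero, add_zero]
  have h4 : z ∈ Im := by
    rw [sub_eq_zero.1 h3]
    exact hp z
  obtain ⟨y, ⟨hyK, hyω⟩, hyz⟩ := h4
  obtain ⟨y', g1, g2⟩ := T01_cs (SS ω) (zl κ) s ⟨y, hyω⟩ ⟨z, hω⟩ (Subtype.ext (by
      rw [SS_pr]
      exact t02b_pr κ hκ z hz)) (Subtype.ext (by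
      rw [SS_dS]
      exact hk)) (Subtype.ext (by
      rw [SS_pr, ← hzl]
      exact t02b_pr κ₁ ha y hyK)) (Subtype.ext (by
      rw [SS_pr, SS_dS]
      exact hyz.symm))
  refine ⟨y', ⟨?_, y'.2⟩, ?_⟩
  · have h5 := congrArg Subtype.val g1
    rw [SS_pr, ← hzl] at h5
    rw [← h5]
    exact t02b_mem κ₁ ha _
  · have h5 := congrArg Subtype.val g2
    rw [SS_dS] at h5
    exact h5

theorem T02_perp (κ : Fin n → ℕ) (hκ : Antitone κ) (Y : Finset (Fin n)) (hY : Y ⊆ Rem κ) (j : ℕ)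
    (ω : Wt (n + k) n) (hj : ∑ r, κ r + j = ∑ i, ω.1 i) (z : Kz (n + k) n) :
    z ∈ (Ch (V (k := k) κ) j ω ⊓ LinearMap.ker koszul ⊓
      ⨅ s ∈ Y, (Ch (V (k := k) (κ - Pi.single s 1)) (j + 1) ω).map koszul) ↔
    z ∈ KV (k := k) κ ⊓ MD ω ∧
      ∀ c ∈ ((⨆ i, NF k κ Y i).map (KV (k := k) κ).subtype) ⊓ MD ω, hc z c = 0 := by
  rw [T01_Ch κ hκ j ω hj]
  have hCh : ∀ s ∈ Y, Ch (V (k := k) (κ - Pi.single s 1)) (j + 1) ω =
      KV (k := k) (κ - Pi.single s 1) ⊓ MD ω := by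
    intro s hs
    obtain ⟨ha, -, hsum⟩ := f02b_anti κ hκ s (hY hs)
    exact T01_Ch _ ha (j + 1) ω (by omega)
  constructor
  · intro h
    rw [Submodule.mem_inf, Submodule.mem_inf] at h
    obtain ⟨⟨h1, h2⟩, h3⟩ := h
    refine ⟨h1, fun c hc => ?_⟩
    refine t02b_mp κ hκ Y hY ω z h1.1 (LinearMap.mem_ker.1 h2) ?_ c hc
    intro s hs
    have h4 := (Submodule.mem_iInf _).1 ((Submodule.mem_iInf _).1 h3 s) hs
    rw [hCh s hs] at h4
    obtain ⟨y, hy, hyz⟩ := h4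
    exact ⟨y, hy.1, hyz⟩
  · rintro ⟨h1, h2⟩
    rw [Submodule.mem_inf, Submodule.mem_inf]
    refine ⟨⟨h1, LinearMap.mem_ker.2 (t02b_cyc κ hκ Y ω z h1.1 h1.2 h2)⟩, ?_⟩
    rw [Submodule.mem_iInf]
    intro s
    rw [Submodule.mem_iInf]
    intro hs
    rw [hCh s hs]
    obtain ⟨y, hy, hyz⟩ := t02b_bd κ hκ Y hY ω z h1.1 h1.2 h2 s hs
    exact ⟨y, hy, hyz⟩

end H95H
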