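import Pool.Agent.Lib.H95H.G23b
import Pool.Agent.Lib.H95H.T01b
import Pool.Agent.Lib.H95H.T02b

namespace H95H

open MvPolynomial

variable {n k : ℕ}

/-!
# Chunk T02: the universal numbers as codimensions

Let `κ` be antitone, `Y ⊆ Rem κ`, `∑ κ + j = ∑ ω.1 =: D`. `K = KV κ ⊓ MD ω`, `N = (⨆ NF i) ⊓ MD ω` (in `Kz`),
`U` the space in the definition of `bnum κ Y j ω`.
* `T02_stab`: `H04_stab`.
* `T02_wt`: the `NF i` are submodules of the good module `KK κ`, so they (and their supremum) are the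
  sums of their weight components (`G05_comp`, `H03_wtK`): a component of weight `ω` of a sum
  `∑ c_i`, `c_i ∈ NF i`, is the sum of the components, which are in `NF i ⊓ MD ω`.
* `T02_rg`: `PM` preserves weights, so the weight component of `PM y` is `PM` of the weight
  component of `y` (`C03_deRham_MD`, `C04_MD`; the whole chain space is spanned by the weight
  components).
* `T02_perp`: `z ∈ U` iff `z ∈ K` and `hc z c = 0` for all `c ∈ N`. Use `T01_Ch` for `κ` and `κ - e_s`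
  (`∑ (κ - e_s) + (j + 1) = D`, antitone as `s ∈ Rem κ`); on `KV μ ⊓ MD ω` the twist `tw` is the scalar
  `(-1)^(D - ∑ μ)` (`T01_KV`).
  (⇒) By `T02_wt` it is enough to treat `c ∈ NF i ⊓ MD ω`. `c = PM y`, `y ∈ KV (κ + e_r) ⊓ MD ω`
  (`T02_rg`): `hc z (prC κ (deRham (tw y))) = hc z (deRham (tw y)) = hc (koszul z) (tw y) = 0`
  (`C03_adj`, `C04_adj`). `c ∈ ker PM κ (κ - e_s)`: `z = koszul y`, `y ∈ KV (κ - e_s) ⊓ MD ω`:
  `hc (koszul y) c = hc y (deRham c) = hc (prC y) (deRham c) = hc y (prC (deRham c)) = 0`.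
  (⇐) (i) `koszul z = 0`: `koszul z = ∑ prC κ'' (koszul z)` (`C04_sum`, `C03_koszul_MD`), and only
  `κ'' = zl κ + e_r`, antitone, contribute (`C04_pieri`, `C04_cases`). For such `r` let
  `x = prC (zl (κ + e_r)) (koszul z) ∈ KV (κ + e_r) ⊓ MD ω`; `hc x x = hc (koszul z) x = hc z (deRham x) =
  hc z (prC κ (deRham x)) = ± hc z (PM x) = 0`. So `x = 0`.
  (ii) let `s ∈ Y`, `κ_s = κ - e_s`, `Im = {prC κ (koszul y) | y ∈ KV κ_s ⊓ MD ω} ≤ K`. Let `z = z₁ + z₂`,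
  `z₁ ∈ Im`, `z₂ ⊥ Im` (`A10_proj`). For all `y`: `0 = hc (koszul y) z₂ = hc y (deRham z₂)`, so the
  component `prC κ_s (deRham z₂)`, which is in `KV κ_s ⊓ MD ω`, is `0`, i.e. `z₂ ∈ ker PM κ κ_s ⊓ MD ω`, so
  `hc z z₂ = 0` and `hc z₂ z₂ = hc z z₂ - hc z₁ z₂ = 0`. So `z = prC κ (koszul y)`. Now `T01_cs` for
  `SS ω` (`SS_pr`, `SS_dS`) gives `y'` with `koszul y' = z`, `prC κ_s y' = y'`.
* `T02_main`: `T01_perp` with `hc` (`C03_herm`), `C03_MD_fin`.
* `T02_wsp`: `Wsp` of `KK κ`, `(KK κ).res N` and `MD ω`: `H03_wtK`.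
-/

theorem T02_main (κ : Fin n → ℕ) (hκ : Antitone κ) (Y : Finset (Fin n)) (hY : Y ⊆ Rem κ) (j : ℕ)
    (ω : Wt (n + k) n) (hj : ∑ r, κ r + j = ∑ i, ω.1 i) :
    bnum (k := k) κ Y j ω +
      Module.finrank ℂ ↥(((⨆ i, NF k κ Y i).map (KV (k := k) κ).subtype) ⊓ MD ω) =
    Module.finrank ℂ ↥(KV (k := k) κ ⊓ MD ω) := by
  have hfin := C03_MD_fin (m := n + k) (n := n) ω
  have hK : Module.Finite ℂ ↥(KV (k := k) κ ⊓ MD ω) := Submodule.finiteDimensional_of_le inf_le_right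
  unfold bnum
  refine T01_perp (hc : Kz (n + k) n → Kz (n + k) n → ℂ) C03_herm (KV (k := k) κ ⊓ MD ω)
    (((⨆ i, NF k κ Y i).map (KV (k := k) κ).subtype) ⊓ MD ω) _ ?_ ?_
  · refine inf_le_inf_right _ ?_
    rintro _ ⟨u, -, rfl⟩
    exact u.2
  · exact T02_perp κ hκ Y hY j ω hj

theorem T02_wsp (κ : Fin n → ℕ) (Y : Finset (Fin n)) (ω : Wt (n + k) n) :
    Module.finrank ℂ ↥((KK k κ).toG0.Wsp (fun i => (ω.1 i : ℤ)) (fun l => (ω.2 l : ℤ))) =
      Module.finrank ℂ ↥(KV (k := k) κ ⊓ MD ω) ∧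
    Module.finrank ℂ ↥(((KK k κ).res (⨆ i, NF k κ Y i)
      (G23_stab_iSup _ _ (T02_stab κ Y))).toG0.Wsp (fun i => (ω.1 i : ℤ)) (fun l => (ω.2 l : ℤ))) =
      Module.finrank ℂ ↥(((⨆ i, NF k κ Y i).map (KV (k := k) κ).subtype) ⊓ MD ω) := by
  constructor
  · have e : ((KK k κ).toG0.Wsp (fun i => (ω.1 i : ℤ)) (fun l => (ω.2 l : ℤ))).map (KV (k := k) κ).subtype =
        KV (k := k) κ ⊓ MD ω := by
      ext c
      constructor
      · rintro ⟨u, hu, rfl⟩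
        exact ⟨u.2, (H03_wtK κ ω u).1 hu⟩
      · rintro ⟨h1, h2⟩
        exact ⟨⟨c, h1⟩, (H03_wtK κ ω ⟨c, h1⟩).2 h2, rfl⟩
    rw [← e]
    exact (Submodule.equivMapOfInjective _ (KV (k := k) κ).injective_subtype _).finrank_eq
  · set N := ⨆ i, NF k κ Y i with hN
    have e : ((((KK k κ).res N (G23_stab_iSup _ _ (T02_stab κ Y))).toG0.Wsp (fun i => (ω.1 i : ℤ))
        (fun l => (ω.2 l : ℤ))).map N.subtype).map (KV (k := k) κ).subtype =
        (N.map (KV (k := k) κ).subtype) ⊓ MD ω := by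
      ext c
      constructor
      · rintro ⟨u, ⟨v, hv, rfl⟩, rfl⟩
        refine ⟨⟨v, v.2, rfl⟩, ?_⟩
        refine (H03_wtK κ ω _).1 ⟨fun i => ?_, fun l => ?_⟩
        · exact congrArg Subtype.val (hv.1 i)
        · exact congrArg Subtype.val (hv.2 l)
      · rintro ⟨⟨u, hu, rfl⟩, h2⟩
        refine ⟨u, ⟨⟨u, hu⟩, ?_, rfl⟩, rfl⟩
        have h3 := (H03_wtK κ ω u).2 h2
        exact ⟨fun i => Subtype.ext (h3.1 i), fun l => Subtype.ext (h3.2 l)⟩
    rw [← e]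
    exact ((Submodule.equivMapOfInjective _ N.injective_subtype _).finrank_eq).trans
      (Submodule.equivMapOfInjective _ (KV (k := k) κ).injective_subtype _).finrank_eq

end H95H
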