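import Pool.Agent.Lib.H95H.G25b
import Pool.Agent.Lib.H95H.H04d

namespace H95H

open MvPolynomial

variable {n k : ℕ}

/-!
# Chunk T03: the values of the admissible functions

Let `κ`, `κ'` be antitone and `f` admissible for `(κ', κ')`. Bead `r` of `κ` is `b r = κ r + (n - 1 - r)`.
The lemmas about arcs and beads are in the `R` files.
* `T03_comb`: `LRel (bs κ) (bs κ')` iff `Rel ∅ (bs κ) (bs κ')` and for no `r` with `κ + e_r` antitone we have
  `Rel ∅ (bs (κ + e_r)) (bs κ')` and `Arc ∅ (bs κ') (b r) (b r + 1)`. (⇒) if `Arc (b r) (b r + 1)` then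
  `b r ∈ bs κ`, `b r ∉ bs κ'`, so `b r` is the left end of an arc of `A`; arcs with the same left end are
  equal (`R_left`), so this arc is short, contradiction. (⇐) let `A` be as in `Rel`; suppose
  `(p, p + 1) ∈ A`. Then `p ∈ bs κ`, `p + 1 ∉ bs κ` (it is a right end of an arc of `A`, and not a left end,
  as it is in `bs κ'`). Let `r` be the row with `b r = p`: `κ + e_r` is antitone and
  `bs (κ + e_r) = insert (p+1) ((bs κ).erase p)` arises from `A` without `(p, p + 1)`: contradiction.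
* `T03_sub`: for `Y ⊆ Rem κ`: `Y ⊆ Rsh κ' κ` iff for all `s ∈ Y`, `Arc ∅ (bs κ') (b s - 1) (b s)` (`b s ≥ 1` as
  `κ s ≥ 1`).
* `T03_K`: `f (KK κ)` is `1` if `Rel ∅ (bs κ) (bs κ')` and `0` otherwise (`Adm`, `H03_kac`, `XX κ' κ' = ∅`,
  `VV κ κ = bs κ`, `wd κ κ = 0`).
* `T03_range`: `G25_sub` for `S = KK κ₁`, `H04_low`.
* `T03_ker`: `f (ker PM) + f (range PM) = f (KK κ)` for `PM = PM k κ κ₁`, `κ = κ₁ + e_s` (`hf.1` for the
  sequence `ker → KV κ → range`), and `T03_K`, `T03_range`.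
* `T03_main`: let `N = ⨆ NF i`. If `f (KK κ) = 0` then `f N = 0` (`G04_mono` or `G04_sub`) and `Rel` fails, so
  `LRel` fails. If `f (KK κ) = 1`: by `G23_sup` `f N = 1` iff some `f (NF i) = 1`. By `T03_range`
  (with `κ₁ = κ`) and `T03_ker` this is the case iff `Rel (κ + e_r)` and `Arc (b r) (b r + 1)` for some `r`, or
  `Arc (b s - 1) (b s)` fails for some `s ∈ Y` (note `κ = (κ - e_s) + e_s`). By `T03_comb` and `T03_sub` this is the
  negation of `LRel ∧ Y ⊆ Rsh κ' κ`.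
-/

theorem T03_K (f : ∀ (M : Type) [AddCommGroup M] [Module ℂ M], GM (n + k) n M → ℕ)
    (κ κ' : Fin n → ℕ) (hκ : Antitone κ) (hκ' : Antitone κ') (hf : Adm f κ' κ') :
    (Rel ∅ (bs κ) (bs κ') → f ↥(KV (k := k) κ) (KK k κ) = 1) ∧
    (¬Rel ∅ (bs κ) (bs κ') → f ↥(KV (k := k) κ) (KK k κ) = 0) := by
  have h := hf.2.1 ↥(KV (k := k) κ) (KK k κ) (H03_fin κ) (H03_good κ) κ κ hκ hκ
    (by rw [wd_zero, wd_zero]) (H03_kac κ hκ)
  rw [XX_self, VV_self, VV_self] at h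
  exact h

theorem T03_range (f : ∀ (M : Type) [AddCommGroup M] [Module ℂ M], GM (n + k) n M → ℕ)
    (κ₁ κ' : Fin n → ℕ) (r : Fin n) (h₁ : Antitone κ₁) (h₂ : Antitone (κ₁ + Pi.single r 1))
    (hκ' : Antitone κ') (hf : Adm f κ' κ') :
    ((Rel ∅ (bs (κ₁ + Pi.single r 1)) (bs κ') ∧
      Arc ∅ (bs κ') (κ₁ r + (n - 1 - r.1)) (κ₁ r + (n - 1 - r.1) + 1)) →
      f ↥(LinearMap.range (PM k (κ₁ + Pi.single r 1) κ₁)) ((KK k κ₁).res _ (H04_stab _ _).1) = 1) ∧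
    (¬(Rel ∅ (bs (κ₁ + Pi.single r 1)) (bs κ') ∧
      Arc ∅ (bs κ') (κ₁ r + (n - 1 - r.1)) (κ₁ r + (n - 1 - r.1) + 1)) →
      f ↥(LinearMap.range (PM k (κ₁ + Pi.single r 1) κ₁)) ((KK k κ₁).res _ (H04_stab _ _).1) = 0) :=
  G25_sub f κ' hκ' hf ↥(KV (k := k) κ₁) (KK k κ₁) (H03_fin κ₁) (H03_good κ₁) κ₁ r h₁ h₂
    (H03_kac κ₁ h₁) (LinearMap.range (PM k (κ₁ + Pi.single r 1) κ₁)) (H04_stab _ _).1
    (H04_low κ₁ r h₁ h₂)

theorem t03b_hom (κ κ₁ : Fin n → ℕ) :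
    GHom (KK k κ) ((KK k κ₁).res _ (H04_stab (k := k) κ κ₁).1) (PM k κ κ₁).rangeRestrict := by
  have h := H04_PM (k := k) κ κ₁
  refine ⟨fun i j v => ?_, fun i j v => ?_, fun i l v => ?_, fun i l v => ?_⟩
  · exact Subtype.ext (h.1 i j v)
  · exact Subtype.ext (h.2.1 i j v)
  · exact Subtype.ext (h.2.2.1 i l v)
  · exact Subtype.ext (h.2.2.2 i l v)

theorem T03_ker (f : ∀ (M : Type) [AddCommGroup M] [Module ℂ M], GM (n + k) n M → ℕ)
    (κ κ₁ : Fin n → ℕ) (hκ : Antitone κ) (hf : AddFn f) :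
    f ↥(LinearMap.ker (PM k κ κ₁)) ((KK k κ).res _ (H04_stab _ _).2) +
      f ↥(LinearMap.range (PM k κ κ₁)) ((KK k κ₁).res _ (H04_stab _ _).1) =
      f ↥(KV (k := k) κ) (KK k κ) := by
  have h := hf ↥(LinearMap.ker (PM k κ κ₁)) ↥(KV (k := k) κ) ↥(LinearMap.range (PM k κ κ₁))
    ((KK k κ).res _ (H04_stab _ _).2) (KK k κ) ((KK k κ₁).res _ (H04_stab _ _).1)
    (LinearMap.ker (PM k κ κ₁)).subtype (PM k κ κ₁).rangeRestrict (H03_fin κ) (H03_good κ)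
    (g04a_sub (KK k κ) _ _) (t03b_hom κ κ₁) Subtype.val_injective
    (LinearMap.surjective_rangeRestrict _)
    (by rw [Submodule.range_subtype, LinearMap.ker_rangeRestrict])
  exact h.symm

end H95H
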