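import Pool.Agent.Lib.H95H.G23b
import Pool.Agent.Lib.H95H.T02a
import Pool.Agent.Lib.H95H.T03a
import Pool.Agent.Lib.H95H.T03b

namespace H95H

open MvPolynomial

variable {n k : ℕ}

/-!
# Chunk T03: the values of the admissible functions

Let `κ`, `κ'` be antitone and `f` admissible for `(κ', κ')`. Bead `r` of `κ` is `b r = κ r + (n - 1 - r)`.
The lemmas about arcs and beads are in the `R` files.
* `T03_comb`: `LRel (bs κ) (bs κ')` iff `Rel ∅ (bs κ) (bs κ')` and for no `r` with `κ + e_r` antitone we have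
  `Rel ∅ (bs (κ + e_r)) (bs κ')` and `Arc ∅ (bs κ') (b r) (b r + 1)`. (⇒) if `Arc (b r) (b r + 1)` then
  `b r ∈ bs κ`, `b r ∉ bs κ'`, so `b r` is the left end of an arc of `A`; arcs with the same left end are
  equal (`R_left`), so this arc is short, contradiction. (⇐) let `A` be as in `Rel`; suppose
  `(p, p + 1) ∈ A`. Then `p ∈ bs κ`, `p + 1 ∉ bs κ` (it is a right end of an arc of `A`, and not a left end,
  as it is in `bs κ'`). Let `r` be the row with `b r = p`: `κ + e_r` is antitone and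
  `bs (κ + e_r) = insert (p+1) ((bs κ).erase p)` arises from `A` without `(p, p + 1)`: contradiction.
* `T03_sub`: for `Y ⊆ Rem κ`: `Y ⊆ Rsh κ' κ` iff for all `s ∈ Y`, `Arc ∅ (bs κ') (b s - 1) (b s)` (`b s ≥ 1` as
  `κ s ≥ 1`).
* `T03_K`: `f (KK κ)` is `1` if `Rel ∅ (bs κ) (bs κ')` and `0` otherwise (`Adm`, `H03_kac`, `XX κ' κ' = ∅`,
  `VV κ κ = bs κ`, `wd κ κ = 0`).
* `T03_range`: `G25_sub` for `S = KK κ₁`, `H04_low`.
* `T03_ker`: `f (ker PM) + f (range PM) = f (KK κ)` for `PM = PM k κ κ₁`, `κ = κ₁ + e_s` (`hf.1` for the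
  sequence `ker → KV κ → range`), and `T03_K`, `T03_range`.
* `T03_main`: let `N = ⨆ NF i`. If `f (KK κ) = 0` then `f N = 0` (`G04_mono` or `G04_sub`) and `Rel` fails, so
  `LRel` fails. If `f (KK κ) = 1`: by `G23_sup` `f N = 1` iff some `f (NF i) = 1`. By `T03_range`
  (with `κ₁ = κ`) and `T03_ker` this is the case iff `Rel (κ + e_r)` and `Arc (b r) (b r + 1)` for some `r`, or
  `Arc (b s - 1) (b s)` fails for some `s ∈ Y` (note `κ = (κ - e_s) + e_s`). By `T03_comb` and `T03_sub` this is the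
  negation of `LRel ∧ Y ⊆ Rsh κ' κ`.
-/

theorem t03c_anti (κ : Fin n → ℕ) (hκ : Antitone κ) (s : Fin n) (hs : s ∈ Rem κ) :
    Antitone (κ - Pi.single s 1) ∧ κ = κ - Pi.single s 1 + Pi.single s 1 ∧
      (κ - Pi.single s 1 : Fin n → ℕ) s = κ s - 1 := by
  simp only [Rem, Finset.mem_filter, Finset.mem_univ, true_and] at hs
  obtain ⟨h1, h2⟩ := hs
  refine ⟨?_, ?_, ?_⟩
  · intro a b hab
    have hab' := hκ hab
    show κ b - (Pi.single s 1 : Fin n → ℕ) b ≤ κ a - (Pi.single s 1 : Fin n → ℕ) a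
    by_cases ha : a = s
    · subst ha
      by_cases hb : b = a
      · subst hb
        exact le_refl _
      · have hlt : a < b := lt_of_le_of_ne hab (Ne.symm hb)
        have := h2 b hlt
        rw [Pi.single_eq_same, Pi.single_eq_of_ne hb]
        omega
    · rw [Pi.single_eq_of_ne ha]
      omega
  · funext a
    show κ a = κ a - (Pi.single s 1 : Fin n → ℕ) a + (Pi.single s 1 : Fin n → ℕ) a
    by_cases ha : a = s
    · subst ha
      rw [Pi.single_eq_same]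
      omega
    · rw [Pi.single_eq_of_ne ha]
      omega
  · show κ s - (Pi.single s 1 : Fin n → ℕ) s = κ s - 1
    rw [Pi.single_eq_same]

theorem t03c_ker (f : ∀ (M : Type) [AddCommGroup M] [Module ℂ M], GM (n + k) n M → ℕ)
    (κ κ₁ κ' : Fin n → ℕ) (s : Fin n) (h₁ : Antitone κ₁) (h : κ = κ₁ + Pi.single s 1)
    (hκ : Antitone κ) (hκ' : Antitone κ') (hf : Adm f κ' κ') (hR : Rel ∅ (bs κ) (bs κ')) :
    (Arc ∅ (bs κ') (κ₁ s + (n - 1 - s.1)) (κ₁ s + (n - 1 - s.1) + 1) →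
      f ↥(LinearMap.ker (PM k κ κ₁)) ((KK k κ).res _ (H04_stab _ _).2) = 0) ∧
    (¬Arc ∅ (bs κ') (κ₁ s + (n - 1 - s.1)) (κ₁ s + (n - 1 - s.1) + 1) →
      f ↥(LinearMap.ker (PM k κ κ₁)) ((KK k κ).res _ (H04_stab _ _).2) = 1) := by
  subst h
  have h1 := T03_ker f (κ₁ + Pi.single s 1) κ₁ hκ hf.1
  have h2 := (T03_K (k := k) f (κ₁ + Pi.single s 1) κ' hκ hκ' hf).1 hR
  have h3 := T03_range (k := k) f κ₁ κ' s h₁ hκ hκ' hf
  constructor
  · intro hA
    have := h3.1 ⟨hR, hA⟩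
    omega
  · intro hA
    have := h3.2 (fun h => hA h.2)
    omega

open Classical in
theorem T03_main (f : ∀ (M : Type) [AddCommGroup M] [Module ℂ M], GM (n + k) n M → ℕ)
    (κ κ' : Fin n → ℕ) (hκ : Antitone κ) (hκ' : Antitone κ') (hf : Adm f κ' κ')
    (Y : Finset (Fin n)) (hY : Y ⊆ Rem κ) :
    f ↥(KV (k := k) κ) (KK k κ) =
      f ↥(⨆ i, NF k κ Y i) ((KK k κ).res (⨆ i, NF k κ Y i) (G23_stab_iSup _ _ (T02_stab κ Y))) +
      (if LRel (bs κ) (bs κ') ∧ Y ⊆ Rsh κ' κ then 1 else 0) := by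
  have hK := T03_K (k := k) f κ κ' hκ hκ' hf
  have hcomb := T03_comb κ κ' hκ hκ'
  have hsub := T03_sub κ κ' Y hY
  have hle := G04_sub f hf.1 ↥(KV (k := k) κ) (KK k κ) (H03_fin κ) (H03_good κ) (⨆ i, NF k κ Y i)
    (G23_stab_iSup _ _ (T02_stab κ Y))
  by_cases hR : Rel ∅ (bs κ) (bs κ')
  · have hK1 := hK.1 hR
    have hsup := G23_sup f hf.1 ↥(KV (k := k) κ) (KK k κ) (H03_fin κ) (H03_good κ) hK1.le
      (NF k κ Y) (T02_stab κ Y)
    have hl : ∀ r : {r : Fin n // Antitone (κ + Pi.single r 1)},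
        ((Rel ∅ (bs (κ + Pi.single r.1 1)) (bs κ') ∧
          Arc ∅ (bs κ') (κ r.1 + (n - 1 - r.1.1)) (κ r.1 + (n - 1 - r.1.1) + 1)) →
          f ↥(NF k κ Y (Sum.inl r)) ((KK k κ).res _ (T02_stab κ Y (Sum.inl r))) = 1) ∧
        (¬(Rel ∅ (bs (κ + Pi.single r.1 1)) (bs κ') ∧
          Arc ∅ (bs κ') (κ r.1 + (n - 1 - r.1.1)) (κ r.1 + (n - 1 - r.1.1) + 1)) →
          f ↥(NF k κ Y (Sum.inl r)) ((KK k κ).res _ (T02_stab κ Y (Sum.inl r))) = 0) :=
      fun r => T03_range (k := k) f κ κ' r.1 hκ r.2 hκ' hf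
    have hr : ∀ s : {s : Fin n // s ∈ Y},
        (Arc ∅ (bs κ') (κ s.1 - 1 + (n - 1 - s.1.1)) (κ s.1 - 1 + (n - 1 - s.1.1) + 1) →
          f ↥(NF k κ Y (Sum.inr s)) ((KK k κ).res _ (T02_stab κ Y (Sum.inr s))) = 0) ∧
        (¬Arc ∅ (bs κ') (κ s.1 - 1 + (n - 1 - s.1.1)) (κ s.1 - 1 + (n - 1 - s.1.1) + 1) →
          f ↥(NF k κ Y (Sum.inr s)) ((KK k κ).res _ (T02_stab κ Y (Sum.inr s))) = 1) := by
      intro s
      obtain ⟨a1, a2, a3⟩ := t03c_anti κ hκ s.1 (hY s.2)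
      have := t03c_ker (k := k) f κ (κ - Pi.single s.1 1) κ' s.1 a1 a2 hκ hκ' hf hR
      rw [a3] at this
      exact this
    by_cases hex : ∃ i, f ↥(NF k κ Y i) ((KK k κ).res _ (T02_stab κ Y i)) = 1
    · have h1 := hsup.1 hex
      have hnot : ¬(LRel (bs κ) (bs κ') ∧ Y ⊆ Rsh κ' κ) := by
        rintro ⟨hL, hYs⟩
        obtain ⟨i, hi⟩ := hex
        rcases i with r | s
        · have := (hcomb.mp hL).2 r.1 r.2
          have h0 := (hl r).2 this
          omega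
        · have := (hsub.mp hYs) s.1 s.2
          have h0 := (hr s).1 this
          omega
      rw [if_neg hnot, hK1, h1]
    · have hz : ∀ i, f ↥(NF k κ Y i) ((KK k κ).res _ (T02_stab κ Y i)) = 0 := by
        intro i
        have h1 : ¬ f ↥(NF k κ Y i) ((KK k κ).res _ (T02_stab κ Y i)) = 1 := fun h => hex ⟨i, h⟩
        rcases i with r | s
        · by_contra hne
          apply h1
          apply (hl r).1
          by_contra hc
          exact hne ((hl r).2 hc)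
        · by_contra hne
          apply h1
          apply (hr s).2
          intro hc
          exact hne ((hr s).1 hc)
      have h0 := hsup.2 hz
      have hyes : LRel (bs κ) (bs κ') ∧ Y ⊆ Rsh κ' κ := by
        constructor
        · rw [hcomb]
          refine ⟨hR, fun r hr' hcon => ?_⟩
          exact hex ⟨Sum.inl ⟨r, hr'⟩, (hl ⟨r, hr'⟩).1 hcon⟩
        · rw [hsub]
          intro s hs
          by_contra hcon
          exact hex ⟨Sum.inr ⟨s, hs⟩, (hr ⟨s, hs⟩).2 hcon⟩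
      rw [if_pos hyes, hK1, h0]
  · have hK0 := hK.2 hR
    have hnot : ¬(LRel (bs κ) (bs κ') ∧ Y ⊆ Rsh κ' κ) := fun h => hR (hcomb.mp h.1).1
    rw [if_neg hnot]
    omega

end H95H
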