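import Pool.Agent.Lib.H95H.G16b
import Pool.Agent.Lib.H95H.G17a
import Pool.Agent.Lib.H95H.H03b
import Pool.Agent.Lib.H95H.R00

namespace H95H

open MvPolynomial

variable {n k : ℕ}

/-- the dimension of the weight `ω` part of `Λ ⊗ V κ` -/
noncomputable def kac {n k : ℕ} (κ : Fin n → ℕ) (ω : Wt (n + k) n) : ℕ :=
  if ∑ r, κ r ≤ ∑ i, ω.1 i then
    Module.finrank ℂ ↥(Ch (V (k := k) κ) (∑ i, ω.1 i - ∑ r, κ r) ω)
  else 0

open Classical in
/-- the recursion for `ell`, with a bound for the number of steps -/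
noncomputable def ellA {n k : ℕ} (ω : Wt (n + k) n) : ℕ → (Fin n → ℕ) → ℤ
  | 0, _ => 0
  | (f + 1), κ => (kac (k := k) κ ω : ℤ) -
      ∑ κ' ∈ (box n (∑ i, ω.1 i)).filter (fun κ' => κ' ≠ κ ∧ Rel ∅ (bs κ) (bs κ')), ellA ω f κ'

/-- The numbers defined by `ell κ ω = kac κ ω - ∑_{κ' ≠ κ, Rel κ κ'} ell κ' ω`, the sum over the
partitions `κ'` in the box. -/
noncomputable def ell {n k : ℕ} (κ : Fin n → ℕ) (ω : Wt (n + k) n) : ℤ :=
  ellA ω (∑ i, ω.1 i + 1) κ

/-!
# Chunk T04: the characters of the simple modules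

* `T04_simple`: for antitone `κ` let `L` be the simple quotient of `KK κ` (`H03_kac`, `H03_good`, `H03_fin`,
  `G16_max`), `simp κ ω` the dimension of its weight space. `T04_uniq`: by `G17_uniq` all simple
  modules of weight `(κ, κ)` have the same dimension of weight spaces (a bijective homomorphism maps
  weight spaces onto weight spaces; `L` is good by `G05_quo` and has a lowest part by `G16_quot`).
* `T04_char`: `G25_char` with `F κ'` chosen from `G25_exists` (for antitone `κ'`) and `ℓ κ' = simp κ' ω`.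
* `T04_kac`: `T04_char` for `KK κ`: `kac κ ω` is the dimension of the weight space (`T02_wsp`, `T01_Ch`;
  if `∑ κ > ∑ ω.1` it is `0` by `T01_KV`), and `T03_K`. Here `D = ∑ ω.1 = ∑ ω.2` is needed for `G25_char`
  (`β = ω.2`); if `∑ ω.1 ≠ ∑ ω.2` then `MD ω = ⊥` and all weight spaces of `KK κ` and of its quotients and
  submodules for this weight are `0`, so both sides are `0`.
* `T04_ell`: (i) if `∑ κ > D`: `kac κ ω = 0`, `simp κ ω = 0` (quotient of `KK κ`), and `Rel κ κ'` implies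
  `∑ κ ≤ ∑ κ'` (`R_sum`), so `ellA f κ = 0` for all `f` by induction on `f`. (ii) if `∑ κ ≤ D` and
  `f ≥ D + 1 - ∑ κ` then `ellA f κ = simp κ ω`: induction on `f`; `κ ∈ box n D`, so the term `κ' = κ` occurs in
  `T04_kac` (`R_refl`), and the others have `∑ κ' > ∑ κ` (`R_sum`, `bs_sum`, `bs_inj`).
-/

/-- the dimension of the weight space of the simple module of weight `(κ, κ)` -/
noncomputable def simp' {n k : ℕ} (κ : Fin n → ℕ) (ω : Wt (n + k) n) : ℕ :=
  if h : Antitone κ then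
    Module.finrank ℂ ↥(((KK k κ).quo _ (Classical.choose (Classical.choose_spec
      (G16_max (KK k κ) (H03_good κ) (H03_fin κ) _ _ _
        (Classical.choose_spec (H03_kac (k := k) κ h)).1)))).toG0.Wsp
          (fun i => (ω.1 i : ℤ)) (fun l => (ω.2 l : ℤ)))
  else 0

/-- isomorphic modules have the same dimensions of weight spaces -/
theorem t04a_iso {m n : ℕ} {M M' : Type} [AddCommGroup M] [Module ℂ M] [AddCommGroup M'] [Module ℂ M']
    (S : GM m n M) (S' : GM m n M') (e : M →ₗ[ℂ] M') (he : GHom S S' e) (hb : Function.Bijective e)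
    (α : Fin m → ℤ) (β : Fin n → ℤ) :
    Module.finrank ℂ ↥(S.toG0.Wsp α β) = Module.finrank ℂ ↥(S'.toG0.Wsp α β) := by
  have h1 : (S.toG0.Wsp α β).map e = S'.toG0.Wsp α β := by
    ext v
    constructor
    · rintro ⟨u, ⟨h1, h2⟩, rfl⟩
      refine ⟨fun i => ?_, fun l => ?_⟩
      · rw [← he.1, h1, map_smul]
      · rw [← he.2.1, h2, map_smul]
    · rintro ⟨h1, h2⟩
      obtain ⟨u, rfl⟩ := hb.2 v
      refine ⟨u, ⟨fun i => ?_, fun l => ?_⟩, rfl⟩
      · apply hb.1
        rw [he.1, h1, map_smul]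
      · apply hb.1
        rw [he.2.1, h2, map_smul]
  rw [← h1]
  exact (LinearEquiv.finrank_map_eq (LinearEquiv.ofBijective e hb) (S.toG0.Wsp α β)).symm

/-- the simple module behind `simp'` -/
theorem t04a_simp (κ : Fin n → ℕ) (hκ : Antitone κ) :
    ∃ (M : Type) (_ : AddCommGroup M) (_ : Module ℂ M) (S : GM (n + k) n M), Module.Finite ℂ M ∧
      S.toG0.Good ∧ Nontrivial M ∧ S.Sim ∧ S.isLow κ κ ∧ ∀ ω : Wt (n + k) n, simp' (k := k) κ ω =
        Module.finrank ℂ ↥(S.toG0.Wsp (fun i => (ω.1 i : ℤ)) (fun l => (ω.2 l : ℤ))) := by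
  have hspec := Classical.choose_spec (Classical.choose_spec
      (G16_max (KK k κ) (H03_good κ) (H03_fin κ) _ _ _
        (Classical.choose_spec (H03_kac (k := k) κ hκ)).1))
  obtain ⟨h1, -, h3⟩ := hspec
  have hf : Module.Finite ℂ ↥(KV (k := k) κ) := H03_fin κ
  have hnt := Submodule.Quotient.nontrivial_iff.2 h1
  have hlow := G16_quot (KK k κ) ((KK k κ).quo _ (Classical.choose (Classical.choose_spec
      (G16_max (KK k κ) (H03_good κ) (H03_fin κ) _ _ _
        (Classical.choose_spec (H03_kac (k := k) κ hκ)).1)))) (Submodule.mkQ _)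
        ⟨fun _ _ _ => rfl, fun _ _ _ => rfl, fun _ _ _ => rfl, fun _ _ _ => rfl⟩ (Submodule.mkQ_surjective _) hnt
        _ _ _ (Classical.choose_spec (H03_kac (k := k) κ hκ)).1
  refine ⟨_, _, _, (KK k κ).quo _ (Classical.choose (Classical.choose_spec
      (G16_max (KK k κ) (H03_good κ) (H03_fin κ) _ _ _
        (Classical.choose_spec (H03_kac (k := k) κ hκ)).1))), inferInstance, G05_quo _ (H03_good κ) _ _, hnt, h3,
        ⟨_, hlow⟩, fun ω => ?_⟩
  unfold simp'
  rw [dif_pos hκ]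

theorem T04_uniq (κ : Fin n → ℕ) (hκ : Antitone κ) (ω : Wt (n + k) n) (M : Type)
    [AddCommGroup M] [Module ℂ M] (S : GM (n + k) n M) (hfin : Module.Finite ℂ M)
    (hS : S.toG0.Good) (hne : Nontrivial M) (hsim : S.Sim) (hL : S.isLow κ κ) :
    Module.finrank ℂ ↥(S.toG0.Wsp (fun i => (ω.1 i : ℤ)) (fun l => (ω.2 l : ℤ))) =
      simp' (k := k) κ ω := by
  obtain ⟨W', hW'⟩ := hL
  obtain ⟨M₁, i₁, i₂, S₁, hf, hg, hn, hs, ⟨W₁, hW₁⟩, h⟩ := t04a_simp (k := k) κ hκ
  obtain ⟨e, he, hb⟩ := G17_uniq S hS hfin S₁ hg hf _ _ _ hW' _ hW₁ hsim hs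
  rw [h]
  exact t04a_iso _ _ e he hb _ _

end H95H
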