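import Pool.Agent.Lib.H95H.G25c
import Pool.Agent.Lib.H95H.T04a

namespace H95H

open MvPolynomial

variable {n k : ℕ}

/-!
# Chunk T04: the characters of the simple modules

* `T04_simple`: for antitone `κ` let `L` be the simple quotient of `KK κ` (`H03_kac`, `H03_good`, `H03_fin`,
  `G16_max`), `simp κ ω` the dimension of its weight space. `T04_uniq`: by `G17_uniq` all simple
  modules of weight `(κ, κ)` have the same dimension of weight spaces (a bijective homomorphism maps
  weight spaces onto weight spaces; `L` is good by `G05_quo` and has a lowest part by `G16_quot`).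
* `T04_char`: `G25_char` with `F κ'` chosen from `G25_exists` (for antitone `κ'`) and `ℓ κ' = simp κ' ω`.
* `T04_kac`: `T04_char` for `KK κ`: `kac κ ω` is the dimension of the weight space (`T02_wsp`, `T01_Ch`;
  if `∑ κ > ∑ ω.1` it is `0` by `T01_KV`), and `T03_K`. Here `D = ∑ ω.1 = ∑ ω.2` is needed for `G25_char`
  (`β = ω.2`); if `∑ ω.1 ≠ ∑ ω.2` then `MD ω = ⊥` and all weight spaces of `KK κ` and of its quotients and
  submodules for this weight are `0`, so both sides are `0`.
* `T04_ell`: (i) if `∑ κ > D`: `kac κ ω = 0`, `simp κ ω = 0` (quotient of `KK κ`), and `Rel κ κ'` implies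
  `∑ κ ≤ ∑ κ'` (`R_sum`), so `ellA f κ = 0` for all `f` by induction on `f`. (ii) if `∑ κ ≤ D` and
  `f ≥ D + 1 - ∑ κ` then `ellA f κ = simp κ ω`: induction on `f`; `κ ∈ box n D`, so the term `κ' = κ` occurs in
  `T04_kac` (`R_refl`), and the others have `∑ κ' > ∑ κ` (`R_sum`, `bs_sum`, `bs_inj`).
-/

/-- the difference of the two degree operators vanishes -/
theorem t04b_low {m n : ℕ} {M : Type} [AddCommGroup M] [Module ℂ M] (S : GM m n M) (α : Fin m → ℤ)
    (β : Fin n → ℤ) (W : Submodule ℂ M) (hW : S.Low α β W) (hαβ : ∑ i, α i = ∑ l, β l) (v : M) :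
    ∑ i, S.a i i v = ∑ l, S.b l l v := by
  classical
  obtain ⟨N, hN⟩ : ∃ N : Submodule ℂ M, ∀ v, v ∈ N ↔ ∑ i, S.a i i v = ∑ l, S.b l l v := by
    refine ⟨LinearMap.ker ((∑ i, S.a i i) - ∑ l, S.b l l), fun v => ?_⟩
    rw [LinearMap.mem_ker, LinearMap.sub_apply, LinearMap.sum_apply, LinearMap.sum_apply, sub_eq_zero]
  have ha : ∀ p q, ∀ v ∈ N, S.a p q v ∈ N := by
    intro p q v hv
    rw [hN] at hv ⊢
    have h1 : ∀ i, S.a i i (S.a p q v) = S.a p q (S.a i i v) + ((if i = p then S.a i q v else 0) -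
        (if q = i then S.a p i v else 0)) := by
      intro i
      rw [← S.aa i i p q v]
      abel
    have h2 : ∀ l, S.b l l (S.a p q v) = S.a p q (S.b l l v) := fun l => (S.ab p q l l v).symm
    rw [Finset.sum_congr rfl fun i _ => h1 i, Finset.sum_congr rfl fun l _ => h2 l, Finset.sum_add_distrib,
      Finset.sum_sub_distrib, Finset.sum_ite_eq' Finset.univ p, Finset.sum_ite_eq Finset.univ q,
      if_pos (Finset.mem_univ _), if_pos (Finset.mem_univ _), sub_self, add_zero, ← map_sum, ← map_sum, hv]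
  have hb : ∀ p q, ∀ v ∈ N, S.b p q v ∈ N := by
    intro p q v hv
    rw [hN] at hv ⊢
    have h1 : ∀ i, S.b i i (S.b p q v) = S.b p q (S.b i i v) + ((if i = p then S.b i q v else 0) -
        (if q = i then S.b p i v else 0)) := by
      intro i
      rw [← S.bb i i p q v]
      abel
    have h2 : ∀ l, S.a l l (S.b p q v) = S.b p q (S.a l l v) := fun l => S.ab l l p q v
    rw [Finset.sum_congr rfl fun i _ => h1 i, Finset.sum_congr rfl fun l _ => h2 l, Finset.sum_add_distrib,
      Finset.sum_sub_distrib, Finset.sum_ite_eq' Finset.univ p, Finset.sum_ite_eq Finset.univ q,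
      if_pos (Finset.mem_univ _), if_pos (Finset.mem_univ _), sub_self, add_zero, ← map_sum, ← map_sum, hv]
  have hx : ∀ p q, ∀ v ∈ N, S.x p q v ∈ N := by
    intro p q v hv
    rw [hN] at hv ⊢
    have h1 : ∀ i, S.a i i (S.x p q v) = S.x p q (S.a i i v) + (if i = p then S.x i q v else 0) := by
      intro i
      rw [← S.ax i i p q v]
      abel
    have h2 : ∀ l, S.b l l (S.x p q v) = S.x p q (S.b l l v) + (if l = q then S.x p l v else 0) := by
      intro l
      rw [← S.bx l l p q v]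
      abel
    rw [Finset.sum_congr rfl fun i _ => h1 i, Finset.sum_congr rfl fun l _ => h2 l, Finset.sum_add_distrib,
      Finset.sum_add_distrib, Finset.sum_ite_eq' Finset.univ p, Finset.sum_ite_eq' Finset.univ q,
      if_pos (Finset.mem_univ _), if_pos (Finset.mem_univ _), ← map_sum, ← map_sum, hv]
  obtain ⟨u, huW, hu, huv, -⟩ := hW.irr.hw
  have huN : u ∈ N := by
    rw [hN, Finset.sum_congr rfl fun i _ => huv.1 i, Finset.sum_congr rfl fun l _ => huv.2 l, ← Finset.sum_smul,
      ← Finset.sum_smul]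
    congr 1
    exact_mod_cast hαβ
  have hWN : W ≤ N := by
    rcases hW.irr.irr (W ⊓ N) inf_le_left ⟨fun i j v hv => ⟨hW.irr.stab.1 i j v hv.1, ha i j v hv.2⟩,
      fun i j v hv => ⟨hW.irr.stab.2 i j v hv.1, hb i j v hv.2⟩⟩ with h | h
    · exfalso
      apply hu
      have : u ∈ W ⊓ N := ⟨huW, huN⟩
      rw [h] at this
      exact (Submodule.mem_bot ℂ).1 this
    · rw [← h]
      exact inf_le_right
  have htop := hW.gen N hWN hx
  rw [← hN, htop]
  trivial

theorem t04b_ext (κ : Fin n → ℕ) : ∑ i, pz k κ i = ∑ l, nz κ l := by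
  unfold pz nz ext
  rw [Fin.sum_univ_add]
  have h1 : ∑ i : Fin k, ((if h : (Fin.natAdd n i).1 < n then κ ⟨(Fin.natAdd n i).1, h⟩ else 0 : ℕ) : ℤ) = 0 := by
    refine Finset.sum_eq_zero fun i _ => ?_
    rw [dif_neg (by simp), Nat.cast_zero]
  rw [h1, add_zero]
  refine Finset.sum_congr rfl fun i _ => ?_
  rw [dif_pos (by simp)]
  rfl

theorem T04_char (ω : Wt (n + k) n) (hω : ∑ i, ω.1 i = ∑ l, ω.2 l)
    (F : (Fin n → ℕ) → ∀ (M : Type) [AddCommGroup M] [Module ℂ M], GM (n + k) n M → ℕ)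
    (hF : ∀ κ' : Fin n → ℕ, Antitone κ' → Adm (F κ') κ' κ')
    (M : Type) [AddCommGroup M] [Module ℂ M] (S : GM (n + k) n M) (hfin : Module.Finite ℂ M)
    (hS : S.toG0.Good) (hL : S.Lk (fun _ => 0)) :
    Module.finrank ℂ ↥(S.toG0.Wsp (fun i => (ω.1 i : ℤ)) (fun l => (ω.2 l : ℤ))) =
      ∑ κ' ∈ box n (∑ i, ω.1 i), F κ' M S * simp' (k := k) κ' ω := by
  have h := G25_char (k := k) (fun i => (ω.1 i : ℤ)) (fun l => (ω.2 l : ℤ)) (∑ i, ω.1 i) (by rw [hω]; push_cast; rfl) F hF
    (fun κ' => simp' (k := k) κ' ω) (fun M _ _ S hfin hS hne hsim κ' hκ' hL =>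
      T04_uniq κ' hκ' ω M S hfin hS hne hsim hL) M S hfin hS hL
  exact h

/-- if the total row degree and the total column degree are different there are no chains -/
theorem T04_deg (ω : Wt (n + k) n) (hω : ∑ i, ω.1 i ≠ ∑ l, ω.2 l) :
    (MD ω : Submodule ℂ (Kz (n + k) n)) = ⊥ ∧ ∀ κ : Fin n → ℕ, simp' (k := k) κ ω = 0 := by
  constructor
  · rw [Submodule.eq_bot_iff]
    intro c hc
    funext T
    ext α
    by_contra h
    have h1 := hc T α h
    apply hω
    obtain ⟨P, hP⟩ : ∃ P : AddSubmonoid (Wt (n + k) n), ∀ w, w ∈ P ↔ ∑ i, w.1 i = ∑ l, w.2 l := by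
      refine ⟨{ carrier := {w | ∑ i, w.1 i = ∑ l, w.2 l}, add_mem' := ?_, zero_mem' := ?_ }, fun w => Iff.rfl⟩
      · intro u w hu hw
        have hu' : ∑ i, u.1 i = ∑ l, u.2 l := hu
        have hw' : ∑ i, w.1 i = ∑ l, w.2 l := hw
        show ∑ i, (u + w).1 i = ∑ l, (u + w).2 l
        simp only [Prod.fst_add, Prod.snd_add, Pi.add_apply, Finset.sum_add_distrib]
        rw [hu', hw']
      · show ∑ i, (0 : Wt (n + k) n).1 i = ∑ l, (0 : Wt (n + k) n).2 l
        simp
    have h2 : ∀ a : Fin (n + k) × Fin n, wt a ∈ P := by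
      intro a
      rw [hP]
      simp [wt, Finset.sum_pi_single']
    rw [← hP, ← h1]
    refine P.add_mem ?_ (sum_mem fun a _ => h2 a)
    rw [Finsupp.weight_apply]
    exact sum_mem fun a _ => nsmul_mem (h2 a) _
  · intro κ
    by_cases hκ : Antitone κ
    · obtain ⟨M₁, i₁, i₂, S₁, hf, hg, hn, hs, ⟨W₁, hW₁⟩, h⟩ := t04a_simp (k := k) κ hκ
      rw [h]
      have h1 : S₁.toG0.Wsp (fun i => (ω.1 i : ℤ)) (fun l => (ω.2 l : ℤ)) = ⊥ := by
        rw [Submodule.eq_bot_iff]
        intro v hv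
        have h2 := t04b_low S₁ _ _ W₁ hW₁ (t04b_ext κ) v
        rw [Finset.sum_congr rfl fun i _ => hv.1 i, Finset.sum_congr rfl fun l _ => hv.2 l, ← Finset.sum_smul,
          ← Finset.sum_smul, ← sub_eq_zero, ← sub_smul] at h2
        rcases smul_eq_zero.1 h2 with h3 | h3
        · exfalso
          apply hω
          have h4 := sub_eq_zero.1 h3
          exact_mod_cast h4
        · exact h3
      rw [h1, finrank_bot]
    · unfold simp'
      rw [dif_neg hκ]

end H95H
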