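import Pool.Agent.Lib.H95H.T02c
import Pool.Agent.Lib.H95H.T03b
import Pool.Agent.Lib.H95H.T04b

namespace H95H

open MvPolynomial

variable {n k : ℕ}

/-!
# Chunk T04: the characters of the simple modules

* `T04_simple`: for antitone `κ` let `L` be the simple quotient of `KK κ` (`H03_kac`, `H03_good`, `H03_fin`,
  `G16_max`), `simp κ ω` the dimension of its weight space. `T04_uniq`: by `G17_uniq` all simple
  modules of weight `(κ, κ)` have the same dimension of weight spaces (a bijective homomorphism maps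
  weight spaces onto weight spaces; `L` is good by `G05_quo` and has a lowest part by `G16_quot`).
* `T04_char`: `G25_char` with `F κ'` chosen from `G25_exists` (for antitone `κ'`) and `ℓ κ' = simp κ' ω`.
* `T04_kac`: `T04_char` for `KK κ`: `kac κ ω` is the dimension of the weight space (`T02_wsp`, `T01_Ch`;
  if `∑ κ > ∑ ω.1` it is `0` by `T01_KV`), and `T03_K`. Here `D = ∑ ω.1 = ∑ ω.2` is needed for `G25_char`
  (`β = ω.2`); if `∑ ω.1 ≠ ∑ ω.2` then `MD ω = ⊥` and all weight spaces of `KK κ` and of its quotients and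
  submodules for this weight are `0`, so both sides are `0`.
* `T04_ell`: (i) if `∑ κ > D`: `kac κ ω = 0`, `simp κ ω = 0` (quotient of `KK κ`), and `Rel κ κ'` implies
  `∑ κ ≤ ∑ κ'` (`R_sum`), so `ellA f κ = 0` for all `f` by induction on `f`. (ii) if `∑ κ ≤ D` and
  `f ≥ D + 1 - ∑ κ` then `ellA f κ = simp κ ω`: induction on `f`; `κ ∈ box n D`, so the term `κ' = κ` occurs in
  `T04_kac` (`R_refl`), and the others have `∑ κ' > ∑ κ` (`R_sum`, `bs_sum`, `bs_inj`).
-/

open Classical in
theorem T04_kac (κ : Fin n → ℕ) (hκ : Antitone κ) (ω : Wt (n + k) n) :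
    kac (k := k) κ ω =
      ∑ κ' ∈ (box n (∑ i, ω.1 i)).filter (fun κ' => Rel ∅ (bs κ) (bs κ')), simp' (k := k) κ' ω := by
  classical
  by_cases hω : ∑ i, ω.1 i = ∑ l, ω.2 l
  · have hF : ∀ κ' : Fin n → ℕ, ∃ f : (∀ (M : Type) [AddCommGroup M] [Module ℂ M], GM (n + k) n M → ℕ),
        Antitone κ' → Adm f κ' κ' := by
      intro κ'
      by_cases h : Antitone κ'
      · obtain ⟨f, hf⟩ := G25_exists (k := k) κ' h
        exact ⟨f, fun _ => hf⟩
      · exact ⟨fun _ _ _ _ => 0, fun h' => absurd h' h⟩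
    choose F hF using hF
    have hLk : (KK k κ).Lk (fun _ => 0) := by
      have h := G23_kac _ (KK k κ) (H03_good κ) (H03_fin κ) κ κ hκ hκ (H03_kac κ hκ)
      have h0 : wd κ κ = fun _ => 0 := by
        funext p
        simp [wd]
      rw [h0] at h
      exact h
    have h1 := T04_char ω hω F hF _ (KK k κ) (H03_fin κ) (H03_good κ) hLk
    have h2 : kac (k := k) κ ω =
        Module.finrank ℂ ↥((KK k κ).toG0.Wsp (fun i => (ω.1 i : ℤ)) (fun l => (ω.2 l : ℤ))) := by
      rw [(T02_wsp κ ∅ ω).1]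
      unfold kac
      split_ifs with h
      · rw [T01_Ch κ hκ (∑ i, ω.1 i - ∑ r, κ r) ω (by omega)]
      · have h3 : KV (k := k) κ ⊓ MD ω = ⊥ := by
          rw [Submodule.eq_bot_iff]
          rintro c ⟨hc1, hc2⟩
          funext T
          exact T01_KV κ hκ ω c hc1 hc2 T (by omega)
        rw [h3, finrank_bot]
    rw [h2, h1, Finset.sum_filter]
    refine Finset.sum_congr rfl fun κ' hκ' => ?_
    have ha : Antitone κ' := by
      unfold box at hκ'
      rw [Finset.mem_filter] at hκ'
      exact fun r s hrs => hκ'.2 r s hrs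
    have h3 := T03_K (F κ') κ κ' hκ ha (hF κ' ha)
    split_ifs with h
    · rw [h3.1 h, one_mul]
    · rw [h3.2 h, zero_mul]
  · obtain ⟨h1, h2⟩ := T04_deg (k := k) ω hω
    rw [Finset.sum_eq_zero fun κ' _ => h2 κ']
    unfold kac
    split_ifs with h
    · have h3 : Ch (V (k := k) κ) (∑ i, ω.1 i - ∑ r, κ r) ω = ⊥ := by
        rw [Submodule.eq_bot_iff]
        intro c hc
        have h4 : c ∈ (MD ω : Submodule ℂ (Kz (n + k) n)) := hc.2.2
        rw [h1] at h4
        exact (Submodule.mem_bot ℂ).1 h4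
      rw [h3, finrank_bot]
    · rfl

end H95H
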