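import Pool.Agent.Lib.H95H.T02c
import Pool.Agent.Lib.H95H.T03c
import Pool.Agent.Lib.H95H.T04b

namespace H95H

open MvPolynomial

variable {n k : ℕ}

/-!
# Chunk T05: the main theorem

* `T05_bnum`: for `∑ κ + j = ∑ ω.1 = D`: `bnum κ Y j ω = dim (KV κ)_ω - dim (⨆ NF i)_ω` (`T02_main`), both are
  dimensions of weight spaces (`T02_wsp`) of modules in the principal block (`G23_kac` with
  `wd κ κ = 0`, `G22_sub`), so by `T04_char` the difference is
  `∑_{κ'} (F κ' (KK κ) - F κ' (⨆ NF i)) * simp κ' ω`, and `T03_main`. If `∑ ω.1 ≠ ∑ ω.2` everything is `0`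
  (`T04_deg`).
* `T05_q`: let `q` be as in `F03_main` (only the first property is used): for `Y ⊆ Rem κ`,
  `∑_{R ⊇ Y} q κ R j ω = ∑_{R ⊇ Y} Q R` where `R` runs over the subsets of `Rem κ` and
  `Q R = ∑_{κ'} [LRel, Rsh κ' κ = R] simp κ' ω`; here `LRel` implies `Rsh κ' κ ⊆ Rem κ`: the bead `b` of
  `r ∈ Rsh` is the right end of the arc `(b - 1, b)`; `b - 1 ∉ bs κ`, because `b - 1 ∉ bs κ'` and it is not
  the left end of an arc of `A` (such an arc would be `(b - 1, b)` by `R_left`, not long); so `r ∈ Rem κ`.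
  By downward induction on `Y` (from `Rem κ`) the two functions agree (Möbius inversion).
* `T05_q0`: if `∑ κ + j ≠ ∑ ω.1` then `bnum κ Y j ω = 0`, because `Ch (V κ) j ω = ⊥` (`V κ` is homogeneous of
  degree `∑ κ`), so `q κ R j ω = 0` for `R ⊆ Rem κ` (a sum of natural numbers).
* `T05_main`: in the second property of `F03_main` only `s = ∑ κ + j - D` (if `0 ≤ s ≤ j`, i.e.
  `D ≤ ∑ κ + j` and `∑ κ ≤ D`) contributes; insert `T05_q`; exchange the sums; `T04_ell`.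
  (For `κ ∈ box n D` with `∑ κ > D` the contribution is zero on the left side; on the right side
  `LRel (bs κ) (bs κ')` implies `∑ κ' ≥ ∑ κ > D` and `ell κ' ω = simp κ' ω = 0`.)
-/

open Classical in
theorem t05a_F (n k : ℕ) : ∃ F : (Fin n → ℕ) → ∀ (M : Type) [AddCommGroup M] [Module ℂ M], GM (n + k) n M → ℕ,
    ∀ κ' : Fin n → ℕ, Antitone κ' → Adm (F κ') κ' κ' := by
  have h : ∀ κ' : Fin n → ℕ, ∃ f : (∀ (M : Type) [AddCommGroup M] [Module ℂ M], GM (n + k) n M → ℕ), Antitone κ' → Adm f κ' κ' := by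
    intro κ'
    by_cases h : Antitone κ'
    · obtain ⟨f, hf⟩ := G25_exists (k := k) κ' h
      exact ⟨f, fun _ => hf⟩
    · exact ⟨fun _ _ _ _ => 0, fun h' => absurd h' h⟩
  choose F hF using h
  exact ⟨F, hF⟩

theorem t05a_Ch (W : Submodule ℂ (Rg (n + k) n)) (j : ℕ) (ω : Wt (n + k) n) : Ch W j ω ≤ MD ω := fun _ hc => hc.2.2

open Classical in
theorem T05_bnum (κ : Fin n → ℕ) (hκ : Antitone κ) (Y : Finset (Fin n)) (hY : Y ⊆ Rem κ) (j : ℕ)
    (ω : Wt (n + k) n) (hj : ∑ r, κ r + j = ∑ i, ω.1 i) :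
    bnum (k := k) κ Y j ω = ∑ κ' ∈ (box n (∑ i, ω.1 i)).filter
      (fun κ' => LRel (bs κ) (bs κ') ∧ Y ⊆ Rsh κ' κ), simp' (k := k) κ' ω := by
  by_cases hω : ∑ i, ω.1 i = ∑ l, ω.2 l
  · obtain ⟨F, hF⟩ := t05a_F n k
    have hfin := H03_fin (k := k) κ
    have hLk : (KK k κ).Lk (fun _ => 0) := by
      have := G23_kac _ (KK k κ) (H03_good κ) hfin κ κ hκ hκ (H03_kac κ hκ)
      rwa [wd_zero] at this
    have hst := G23_stab_iSup (KK k κ) _ (T02_stab κ Y)
    have e1 := T04_char ω hω F hF _ (KK k κ) hfin (H03_good κ) hLk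
    have e2 := T04_char ω hω F hF _ ((KK k κ).res _ hst) inferInstance (G05_res _ (H03_good κ) _ hst)
      (fun N₀ => G22_sub _ _ N₀ (hLk N₀) _ hst)
    have e3 := T02_main κ hκ Y hY j ω hj
    obtain ⟨e4, e5⟩ := T02_wsp (k := k) κ Y ω
    rw [← e4, ← e5, e1, e2] at e3
    have e6 : ∑ κ' ∈ box n (∑ i, ω.1 i), F κ' ↥(KV (k := k) κ) (KK k κ) * simp' (k := k) κ' ω =
        ∑ κ' ∈ box n (∑ i, ω.1 i), F κ' _ ((KK k κ).res _ hst) * simp' (k := k) κ' ω +
        ∑ κ' ∈ box n (∑ i, ω.1 i), (if LRel (bs κ) (bs κ') ∧ Y ⊆ Rsh κ' κ then simp' (k := k) κ' ω else 0) := by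
      rw [← Finset.sum_add_distrib]
      refine Finset.sum_congr rfl fun κ' hκ' => ?_
      have ha := g25c_anti hκ'
      rw [T03_main (F κ') κ κ' hκ ha (hF κ' ha) Y hY, add_mul]
      congr 1
      split_ifs
      · rw [one_mul]
      · rw [zero_mul]
    rw [e6, add_comm] at e3
    rw [Finset.sum_filter]
    exact Nat.add_left_cancel e3
  · obtain ⟨h1, h2⟩ := T04_deg (k := k) ω hω
    rw [Finset.sum_eq_zero (fun κ' _ => h2 κ')]
    unfold bnum
    have h3 : Ch (V (k := k) κ) j ω ⊓ LinearMap.ker koszul ⊓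
        ⨅ s ∈ Y, (Ch (V (k := k) (κ - Pi.single s 1)) (j + 1) ω).map koszul = ⊥ := by
      rw [eq_bot_iff]
      refine (inf_le_left.trans inf_le_left).trans ?_
      rw [← h1]
      exact t05a_Ch _ _ _
    rw [h3, finrank_bot]

end H95H
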